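import Pool.Agent.Helper7.KE.C0a

set_option autoImplicit false

open MeasureTheory Set Filter Asymptotics Topology Metric
open scoped ComplexConjugate ENNReal

namespace Pool.Agent.Helper7.KE

theorem integral_rot (f : ℂ → ℂ) (r θ : ℝ) :
    ∫ w in ball (0 : ℂ) r, f (circleMap 0 1 θ * w) = ∫ w in ball (0 : ℂ) r, f w := by
  set c : Circle := Circle.exp θ with hc
  have hcm : circleMap 0 1 θ = (c : ℂ) := by simp [circleMap, c]
  have h1 : MeasurePreserving (rotation c) (volume : Measure ℂ) volume :=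
    (rotation c).measurePreserving
  have h2 := h1.setIntegral_preimage_emb (rotation c).toHomeomorph.measurableEmbedding f
    (ball (0 : ℂ) r)
  have h3 : (rotation c) ⁻¹' (ball (0 : ℂ) r) = ball (0 : ℂ) r := by
    rw [(rotation c).preimage_ball, map_zero]
  rw [h3] at h2
  simpa [rotation_apply, hcm] using h2

/-- mean value property over discs -/
theorem integral_ball_hol {g : ℂ → ℂ} {z : ℂ} {r : ℝ} {V : Set ℂ}
    (hV : IsOpen V) (hb : closedBall z r ⊆ V) (hg : DifferentiableOn ℂ g V) :
    ∫ w in ball z r, g w = (volume (ball z r)).toReal * g z := by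
  rcases le_or_gt r 0 with hr | hr
  · rw [ball_eq_empty.2 hr]; simp
  have hcont : ContinuousOn g V := hg.continuousOn
  -- translation
  have h1 : ∫ w in ball (0 : ℂ) r, g (z + w) = ∫ w in ball z r, g w := by
    have := (measurePreserving_add_left (volume : Measure ℂ) z).setIntegral_preimage_emb
      (measurableEmbedding_addLeft z) g (ball z r)
    rw [← this]
    congr 2
    ext w
    simp [dist_eq_norm]
  -- average over the circle
  have h2 : ∀ w ∈ ball (0 : ℂ) r,
      ∫ θ in (0 : ℝ)..2 * Real.pi, g (z + circleMap 0 1 θ * w) = (2 * Real.pi : ℝ) * g z := by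
    intro w hw
    have hw' : ‖w‖ < r := by simpa using hw
    have hV' : IsOpen {ζ : ℂ | z + ζ * w ∈ V} :=
      hV.preimage (by fun_prop : Continuous fun ζ : ℂ => z + ζ * w)
    have hd : DifferentiableOn ℂ (fun ζ => g (z + ζ * w)) {ζ : ℂ | z + ζ * w ∈ V} :=
      hg.comp (by fun_prop) fun ζ hζ => hζ
    have hsub : closedBall (0 : ℂ) 1 ⊆ {ζ : ℂ | z + ζ * w ∈ V} := by
      intro ζ hζ
      apply hb
      have hζ' : ‖ζ‖ ≤ 1 := by simpa using hζ
      simp only [mem_closedBall, dist_eq_norm, add_sub_cancel_left, norm_mul]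
      calc ‖ζ‖ * ‖w‖ ≤ 1 * ‖w‖ := by gcongr
        _ ≤ r := by linarith
    have hdc : DiffContOnCl ℂ (fun ζ => g (z + ζ * w)) (ball 0 |1|) := by
      rw [abs_one]
      apply DifferentiableOn.diffContOnCl
      rw [closure_ball _ one_ne_zero]
      exact hd.mono hsub
    have := hdc.circleAverage
    rw [Real.circleAverage_def] at this
    simp only [zero_mul, add_zero] at this
    rw [← this, Complex.real_smul, ← mul_assoc]
    push_cast
    rw [mul_inv_cancel₀ (by simp [Real.pi_ne_zero]), one_mul]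
  -- swap
  have hint : Integrable (Function.uncurry fun (θ : ℝ) (w : ℂ) => g (z + circleMap 0 1 θ * w))
      ((volume.restrict (Ioc 0 (2 * Real.pi))).prod (volume.restrict (ball (0 : ℂ) r))) := by
    rw [Measure.prod_restrict]
    have hc : ContinuousOn (Function.uncurry fun (θ : ℝ) (w : ℂ) => g (z + circleMap 0 1 θ * w))
        (Icc 0 (2 * Real.pi) ×ˢ closedBall (0 : ℂ) r) := by
      apply hcont.comp (f := fun p : ℝ × ℂ => z + circleMap 0 1 p.1 * p.2)
      · exact (continuous_const.add
          (((continuous_circleMap 0 1).comp continuous_fst).mul continuous_snd)).continuousOn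
      · intro p hp
        apply hb
        have : ‖p.2‖ ≤ r := by simpa using hp.2
        simpa [dist_eq_norm] using this
    have h3 : IntegrableOn _ (Icc 0 (2 * Real.pi) ×ˢ closedBall (0 : ℂ) r)
        ((volume : Measure ℝ).prod (volume : Measure ℂ)) :=
      hc.integrableOn_compact (isCompact_Icc.prod (isCompact_closedBall _ _))
    exact h3.mono_set (prod_mono Ioc_subset_Icc_self ball_subset_closedBall)
  have h4 : ∫ θ in (0 : ℝ)..2 * Real.pi, ∫ w in ball (0 : ℂ) r, g (z + circleMap 0 1 θ * w)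
      = ∫ w in ball (0 : ℂ) r, ∫ θ in (0 : ℝ)..2 * Real.pi, g (z + circleMap 0 1 θ * w) := by
    simp only [intervalIntegral.integral_of_le Real.two_pi_pos.le]
    exact integral_integral_swap hint
  have h5 : ∫ θ in (0 : ℝ)..2 * Real.pi, ∫ w in ball (0 : ℂ) r, g (z + circleMap 0 1 θ * w)
      = (2 * Real.pi : ℝ) * ∫ w in ball (0 : ℂ) r, g (z + w) := by
    have : ∀ θ : ℝ, ∫ w in ball (0 : ℂ) r, g (z + circleMap 0 1 θ * w)
        = ∫ w in ball (0 : ℂ) r, g (z + w) := fun θ => integral_rot (fun w => g (z + w)) r θ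
    simp only [this]
    rw [intervalIntegral.integral_const, sub_zero, Complex.real_smul]
  have h6 : ∫ w in ball (0 : ℂ) r, ∫ θ in (0 : ℝ)..2 * Real.pi, g (z + circleMap 0 1 θ * w)
      = (volume (ball z r)).toReal * ((2 * Real.pi : ℝ) * g z) := by
    rw [setIntegral_congr_fun measurableSet_ball h2, setIntegral_const, Complex.real_smul]
    congr 2
    rw [measureReal_def, Measure.addHaar_ball_center volume z r]
  rw [← h1]
  have h7 : (2 * Real.pi : ℝ) * ∫ w in ball (0 : ℂ) r, g (z + w)
      = (2 * Real.pi : ℝ) * ((volume (ball z r)).toReal * g z) := by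
    rw [← h5, h4, h6]; ring
  exact mul_left_cancel₀ (by simp [Real.pi_ne_zero]) h7


section
variable {k : ℕ} (D : CD k)

theorem hol_unique {g g' : ℂ → ℂ} (hg : DifferentiableOn ℂ g D.U)
    (hg' : DifferentiableOn ℂ g' D.U) (h : g =ᵐ[volume.restrict D.U] g') :
    ∀ z ∈ D.U, g z = g' z :=
  Measure.eqOn_open_of_ae_eq h D.U_open hg.continuousOn hg'.continuousOn

theorem berg_of_hol2 {g : ℂ → ℂ} (hg : D.Hol2 g) {f : D.L2} (hf : f =ᵐ[volume.restrict D.U] g) :
    f ∈ D.Berg :=
  Submodule.le_topologicalClosure _ ⟨g, hg.diff, hf⟩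

/-- functions holomorphic near the closed domain are square integrable -/
theorem hol2_of_nhds {g : ℂ → ℂ} {V : Set ℂ} (hV : IsOpen V) (hcV : D.cU ⊆ V)
    (hg : DifferentiableOn ℂ g V) : D.Hol2 g where
  diff := hg.mono (D.U_subset_cU.trans hcV)
  memLp := by
    have hc : ContinuousOn g D.cU := hg.continuousOn.mono hcV
    obtain ⟨C, hC⟩ := D.cU_compact.exists_bound_of_continuousOn hc
    have hm : AEStronglyMeasurable g (volume.restrict D.U) :=
      (hc.mono D.U_subset_cU).aestronglyMeasurable D.U_open.measurableSet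
    refine MemLp.of_bound hm C ?_
    filter_upwards [ae_restrict_mem D.U_open.measurableSet] with z hz
    exact hC z (D.U_subset_cU hz)

/-- a radius function for the evaluation functionals -/
noncomputable def evr (z : ℂ) : ℝ := infDist z (D.U)ᶜ / 2

theorem U_compl_nonempty : ((D.U)ᶜ).Nonempty := by
  refine ⟨(D.R : ℂ), fun h => ?_⟩
  have := h.1
  rw [Complex.norm_real, Real.norm_eq_abs, abs_of_pos D.Rpos] at this
  exact lt_irrefl _ this

theorem evr_pos {z : ℂ} (hz : z ∈ D.U) : 0 < evr D z := by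
  have h := (D.U_open.isClosed_compl.notMem_iff_infDist_pos (U_compl_nonempty D)).1
    (fun h => h hz : z ∉ (D.U)ᶜ)
  unfold evr; linarith

theorem evr_ball (z : ℂ) : closedBall z (evr D z) ⊆ D.U ∨ evr D z ≤ 0 := by
  rcases le_or_gt (evr D z) 0 with h | h
  · exact Or.inr h
  · left
    refine (closedBall_subset_ball (?_ : evr D z < infDist z (D.U)ᶜ)).trans
      ball_infDist_compl_subset
    unfold evr at h ⊢; linarith

theorem evr_continuous : Continuous (evr D) := (continuous_infDist_pt _).div_const 2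

/-- the evaluation vector -/
noncomputable def evec (z : ℂ) : D.L2 :=
  indicatorConstLp 2 (μ := volume.restrict D.U) (measurableSet_ball (x := z) (ε := evr D z))
    (measure_ne_top _ _) (((volume (ball z (evr D z))).toReal⁻¹ : ℝ) : ℂ)

/-- the evaluation functional on `L²` -/
noncomputable def evL (z : ℂ) : D.L2 →L[ℂ] ℂ := innerSL ℂ (evec D z)

theorem evL_apply (z : ℂ) (f : D.L2) :
    evL D z f = (((volume (ball z (evr D z))).toReal⁻¹ : ℝ) : ℂ) *
      ∫ w in ball z (evr D z), (f : ℂ → ℂ) w ∂(volume.restrict D.U) := by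
  rw [evL, innerSL_apply_apply, evec, L2.inner_indicatorConstLp_eq_inner_setIntegral]
  rw [RCLike.inner_apply, Complex.conj_ofReal, mul_comm]

theorem evL_norm {z : ℂ} (hz : z ∈ D.U) : ‖evL D z‖ ≤ ((volume (ball z (evr D z))).toReal)⁻¹ *
    (volume (ball z (evr D z))).toReal ^ (1 / 2 : ℝ) := by
  have h0 := evr_pos D hz
  have hsub : ball z (evr D z) ⊆ D.U := ball_subset_closedBall.trans
    ((evr_ball D z).resolve_right (by linarith))
  rw [evL, innerSL_apply_norm, evec, norm_indicatorConstLp (by norm_num) (by norm_num)]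
  rw [Complex.norm_real, Real.norm_eq_abs, abs_of_nonneg (by positivity), measureReal_def,
    Measure.restrict_apply measurableSet_ball, inter_eq_left.2 hsub]
  norm_num

theorem evL_hol {z : ℂ} (hz : z ∈ D.U) {g : ℂ → ℂ} (hg : DifferentiableOn ℂ g D.U) {f : D.L2}
    (hf : f =ᵐ[volume.restrict D.U] g) : evL D z f = g z := by
  have h0 := evr_pos D hz
  have hsub : closedBall z (evr D z) ⊆ D.U := (evr_ball D z).resolve_right (by linarith)
  have hsub' : ball z (evr D z) ⊆ D.U := ball_subset_closedBall.trans hsub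
  have hr : (volume.restrict D.U).restrict (ball z (evr D z)) =
      volume.restrict (ball z (evr D z)) := by
    rw [Measure.restrict_restrict measurableSet_ball, inter_eq_left.2 hsub']
  have hpos : 0 < (volume (ball z (evr D z))).toReal :=
    ENNReal.toReal_pos (measure_ball_pos _ _ h0).ne' measure_ball_lt_top.ne
  rw [evL_apply, integral_congr_ae (ae_restrict_of_ae hf), hr,
    integral_ball_hol D.U_open hsub hg, ← mul_assoc, ← Complex.ofReal_mul,
    inv_mul_cancel₀ hpos.ne', Complex.ofReal_one, one_mul]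

/-- the norms of the evaluation functionals are locally bounded -/
theorem evL_bdd {K : Set ℂ} (hK : IsCompact K) (hKU : K ⊆ D.U) :
    ∃ C : ℝ, ∀ z ∈ K, ‖evL D z‖ ≤ C := by
  rcases K.eq_empty_or_nonempty with rfl | hne
  · exact ⟨0, by simp⟩
  obtain ⟨z₀, hz₀, hmin⟩ := hK.exists_isMinOn hne (evr_continuous D).continuousOn
  have h0 : 0 < evr D z₀ := evr_pos D (hKU hz₀)
  set v : ℝ := (volume (ball (0 : ℂ) (evr D z₀))).toReal with hv
  have hvpos : 0 < v := ENNReal.toReal_pos (measure_ball_pos _ _ h0).ne' measure_ball_lt_top.ne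
  refine ⟨(v ^ (1 / 2 : ℝ))⁻¹, fun z hz => ?_⟩
  have hle : evr D z₀ ≤ evr D z := hmin hz
  have h1 : v ≤ (volume (ball z (evr D z))).toReal := by
    rw [hv]
    refine ENNReal.toReal_mono measure_ball_lt_top.ne ?_
    rw [← Measure.addHaar_ball_center volume z]
    exact measure_mono (ball_subset_ball hle)
  refine (evL_norm D (hKU hz)).trans ?_
  set t : ℝ := (volume (ball z (evr D z))).toReal with ht
  have htpos : 0 < t := hvpos.trans_le h1
  have h2 : t⁻¹ * t ^ (1 / 2 : ℝ) = (t ^ (1 / 2 : ℝ))⁻¹ := by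
    have : t = t ^ (1 / 2 : ℝ) * t ^ (1 / 2 : ℝ) := by
      rw [← Real.rpow_add htpos]; norm_num
    apply eq_inv_of_mul_eq_one_left
    rw [mul_assoc, ← this, inv_mul_cancel₀ htpos.ne']
  rw [h2]
  exact inv_anti₀ (Real.rpow_pos_of_pos hvpos _) (Real.rpow_le_rpow hvpos.le h1 (by norm_num))

/-- elements of the Bergman space are represented by their evaluations -/
theorem berg_main {f : D.L2} (hf : f ∈ D.Berg) :
    DifferentiableOn ℂ (fun z => evL D z f) D.U ∧
      f =ᵐ[volume.restrict D.U] fun z => evL D z f := by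
  have hf' : f ∈ closure (D.BergPre : Set D.L2) := hf
  obtain ⟨u, hu, hlim⟩ := mem_closure_iff_seq_limit.1 hf'
  have hrep : ∀ n, DifferentiableOn ℂ (fun z => evL D z (u n)) D.U ∧
      u n =ᵐ[volume.restrict D.U] fun z => evL D z (u n) := by
    intro n
    obtain ⟨g, hg, he⟩ := hu n
    have heq : ∀ z ∈ D.U, evL D z (u n) = g z := fun z hz => evL_hol D hz hg he
    refine ⟨hg.congr heq, ?_⟩
    filter_upwards [he, ae_restrict_mem D.U_open.measurableSet] with z hz hzU
    rw [hz, heq z hzU]
  have hunif : TendstoLocallyUniformlyOn (fun n z => evL D z (u n)) (fun z => evL D z f) atTop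
      D.U := by
    rw [tendstoLocallyUniformlyOn_iff_forall_isCompact D.U_open]
    intro K hKU hK
    obtain ⟨C, hC⟩ := evL_bdd D hK hKU
    rw [Metric.tendstoUniformlyOn_iff]
    intro ε hε
    have hC' : 0 < max C 0 + 1 := by positivity
    have := (Metric.tendsto_atTop.1 hlim) (ε / (max C 0 + 1)) (by positivity)
    obtain ⟨n₀, hn₀⟩ := this
    filter_upwards [eventually_ge_atTop n₀] with n hn z hz
    rw [dist_eq_norm, ← map_sub]
    calc ‖evL D z (f - u n)‖ ≤ ‖evL D z‖ * ‖f - u n‖ := (evL D z).le_opNorm _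
      _ ≤ (max C 0 + 1) * ‖f - u n‖ := by
          gcongr
          exact (hC z hz).trans (by linarith [le_max_left C 0])
      _ < (max C 0 + 1) * (ε / (max C 0 + 1)) := by
          gcongr
          have := hn₀ n hn
          rwa [dist_comm, dist_eq_norm] at this
      _ = ε := by field_simp
  refine ⟨hunif.differentiableOn (Eventually.of_forall fun n => (hrep n).1) D.U_open, ?_⟩
  have hmeas : TendstoInMeasure (volume.restrict D.U) (fun n => (u n : ℂ → ℂ)) atTop f :=
    tendstoInMeasure_of_tendsto_Lp hlim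
  obtain ⟨ns, hns, hae⟩ := hmeas.exists_seq_tendsto_ae
  have hall : ∀ᵐ z ∂(volume.restrict D.U), ∀ n, (u n : ℂ → ℂ) z = evL D z (u n) :=
    ae_all_iff.2 fun n => (hrep n).2
  filter_upwards [hae, hall, ae_restrict_mem D.U_open.measurableSet] with z h1 h2 h3
  have h4 : Tendsto (fun n => evL D z (u (ns n))) atTop (𝓝 (evL D z f)) :=
    (((evL D z).continuous.tendsto f).comp hlim).comp hns.tendsto_atTop
  refine tendsto_nhds_unique h1 ?_
  simpa only [h2] using h4

/-- every element of `Berg` has a holomorphic representative -/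
theorem berg_rep {f : D.L2} (hf : f ∈ D.Berg) :
    ∃ g : ℂ → ℂ, D.Hol2 g ∧ f =ᵐ[volume.restrict D.U] g := by
  obtain ⟨h1, h2⟩ := berg_main D hf
  exact ⟨_, ⟨h1, (memLp_congr_ae h2).1 (Lp.memLp f)⟩, h2⟩

/-- evaluation functionals; they depend holomorphically on the point -/
theorem berg_ev : ∃ ev : ℂ → (D.Berg →L[ℂ] ℂ), DifferentiableOn ℂ ev D.U ∧
    ∀ g : D.Berg, ((g : D.L2) : ℂ → ℂ) =ᵐ[volume.restrict D.U] fun z => ev z g := by
  refine ⟨fun z => (evL D z).comp D.Berg.subtypeL, weak_hol D.U_open fun x => ?_, fun g => ?_⟩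
  · exact (berg_main D x.2).1
  · exact (berg_main D g.2).2

/-- inner products with elements of `Berg` -/
theorem P_eq_zero_iff (u : D.L2) :
    D.P u = 0 ↔ ∀ g : ℂ → ℂ, D.Hol2 g → ∫ z in D.U, (u : ℂ → ℂ) z * conj (g z) = 0 := by
  have hin : ∀ (f : D.L2) (g : ℂ → ℂ), f =ᵐ[volume.restrict D.U] g →
      inner ℂ f u = ∫ z in D.U, (u : ℂ → ℂ) z * conj (g z) := by
    intro f g hfg
    rw [L2.inner_def]
    refine integral_congr_ae ?_
    filter_upwards [hfg] with z hz
    rw [RCLike.inner_apply, hz]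
  show D.Berg.orthogonalProjectionOnto u = 0 ↔ _
  rw [Submodule.orthogonalProjectionOnto_eq_zero_iff, Submodule.mem_orthogonal]
  constructor
  · intro h g hg
    have hf := hg.memLp.coeFn_toLp
    rw [← hin _ g hf]
    exact h _ (berg_of_hol2 D hg hf)
  · intro h f hf
    obtain ⟨g, hg, he⟩ := berg_rep D hf
    rw [hin f g he]
    exact h g hg

end

end Pool.Agent.Helper7.KE
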