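import Pool.Agent.Helper7.KE.Defs

set_option autoImplicit false

open MeasureTheory Set Filter Asymptotics Topology Metric
open scoped ComplexConjugate ENNReal

namespace Pool.Agent.Helper7.KE

section
variable {Y : Type*} [NormedAddCommGroup Y] [NormedSpace ℂ Y]
variable {Z : Type*} [NormedAddCommGroup Z] [NormedSpace ℂ Z]

theorem dz_congr {F G : ℂ → Y} {z : ℂ} (h : F =ᶠ[𝓝 z] G) : dz F z = dz G z ∧ dzb F z = dzb G z := by
  unfold dz dzb
  rw [h.fderiv_eq]
  exact ⟨rfl, rfl⟩

theorem dz_add {F G : ℂ → Y} {z : ℂ} (hF : DifferentiableAt ℝ F z) (hG : DifferentiableAt ℝ G z) :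
    dz (fun w => F w + G w) z = dz F z + dz G z ∧
      dzb (fun w => F w + G w) z = dzb F z + dzb G z := by
  unfold dz dzb
  rw [fderiv_fun_add hF hG]
  simp only [ContinuousLinearMap.add_apply]
  constructor <;> module

theorem dz_neg {F : ℂ → Y} {z : ℂ} :
    dz (fun w => -F w) z = -dz F z ∧ dzb (fun w => -F w) z = -dzb F z := by
  unfold dz dzb
  rw [fderiv_fun_neg]
  simp only [ContinuousLinearMap.neg_apply]
  constructor <;> module

theorem dz_const {c : Y} {z : ℂ} : dz (fun _ => c) z = 0 ∧ dzb (fun _ => c) z = 0 := by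
  unfold dz dzb
  have : fderiv ℝ (fun _ : ℂ => c) z = 0 := (hasFDerivAt_const c z).fderiv
  rw [this]
  simp

theorem dz_sum {ι : Type*} (s : Finset ι) {F : ι → ℂ → Y} {z : ℂ}
    (hF : ∀ i ∈ s, DifferentiableAt ℝ (F i) z) :
    dz (fun w => ∑ i ∈ s, F i w) z = ∑ i ∈ s, dz (F i) z ∧
      dzb (fun w => ∑ i ∈ s, F i w) z = ∑ i ∈ s, dzb (F i) z := by
  unfold dz dzb
  rw [fderiv_fun_sum hF]
  simp only [ContinuousLinearMap.sum_apply, Finset.smul_sum, ← Finset.sum_sub_distrib,
    ← Finset.sum_add_distrib, and_self]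

/-- product rule -/
theorem dz_smul {f : ℂ → ℂ} {F : ℂ → Y} {z : ℂ} (hf : DifferentiableAt ℝ f z)
    (hF : DifferentiableAt ℝ F z) :
    dz (fun w => f w • F w) z = dz f z • F z + f z • dz F z ∧
      dzb (fun w => f w • F w) z = dzb f z • F z + f z • dzb F z := by
  unfold dz dzb
  rw [fderiv_fun_smul hf hF]
  simp only [ContinuousLinearMap.add_apply, ContinuousLinearMap.smul_apply,
    ContinuousLinearMap.smulRight_apply, smul_add, smul_sub, add_smul, sub_smul, smul_eq_mul,
    smul_smul]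
  constructor <;> module

theorem dz_clm (L : Y →L[ℂ] Z) {F : ℂ → Y} {z : ℂ} (hF : DifferentiableAt ℝ F z) :
    dz (fun w => L (F w)) z = L (dz F z) ∧ dzb (fun w => L (F w)) z = L (dzb F z) := by
  have h : HasFDerivAt (fun w => L (F w)) ((L.restrictScalars ℝ).comp (fderiv ℝ F z)) z :=
    (L.restrictScalars ℝ).hasFDerivAt.comp z hF.hasFDerivAt
  unfold dz dzb
  rw [h.fderiv]
  simp

/-- holomorphic functions -/
theorem dz_hol {F : ℂ → Y} {z : ℂ} (hF : DifferentiableAt ℂ F z) :
    dz F z = deriv F z ∧ dzb F z = 0 := by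
  have h : HasFDerivAt F ((fderiv ℂ F z).restrictScalars ℝ) z :=
    hF.hasFDerivAt.restrictScalars ℝ
  have h1 : (fderiv ℂ F z) 1 = deriv F z := rfl
  have h2 : (fderiv ℂ F z) Complex.I = Complex.I • deriv F z := by
    rw [← h1, ← map_smul, smul_eq_mul, mul_one]
  unfold dz dzb
  rw [h.fderiv]
  simp only [ContinuousLinearMap.coe_restrictScalars', h1, h2, smul_smul, Complex.I_mul_I]
  constructor <;> module

theorem dz_conj {f : ℂ → ℂ} {z : ℂ} (hf : DifferentiableAt ℝ f z) :
    dz (fun w => conj (f w)) z = conj (dzb f z) ∧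
      dzb (fun w => conj (f w)) z = conj (dz f z) := by
  have h : HasFDerivAt (fun w => conj (f w))
      ((Complex.conjCLE : ℂ →L[ℝ] ℂ).comp (fderiv ℝ f z)) z :=
    (Complex.conjCLE : ℂ →L[ℝ] ℂ).hasFDerivAt.comp z hf.hasFDerivAt
  have h2 : conj (2⁻¹ : ℂ) = 2⁻¹ := by
    rw [map_inv₀]; congr 1; exact map_ofNat _ 2
  unfold dz dzb
  rw [h.fderiv]
  simp only [ContinuousLinearMap.comp_apply, ContinuousLinearEquiv.coe_coe,
    Complex.conjCLE_apply, smul_eq_mul, map_mul, map_add, map_sub, h2, Complex.conj_I]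
  constructor <;> ring

/-- antiholomorphic functions -/
theorem dz_conj_hol {f : ℂ → ℂ} {z : ℂ} (hf : DifferentiableAt ℂ f z) :
    dz (fun w => conj (f w)) z = 0 ∧ dzb (fun w => conj (f w)) z = conj (deriv f z) := by
  have h1 := dz_conj (hf.restrictScalars ℝ)
  have h2 := dz_hol hf
  rw [h2.1, h2.2, map_zero] at h1
  exact h1

theorem dz_cexp {f : ℂ → ℂ} {z : ℂ} (hf : DifferentiableAt ℝ f z) :
    dz (fun w => Complex.exp (f w)) z = Complex.exp (f z) * dz f z ∧
      dzb (fun w => Complex.exp (f w)) z = Complex.exp (f z) * dzb f z := by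
  have h : HasFDerivAt (fun w => Complex.exp (f w)) (Complex.exp (f z) • fderiv ℝ f z) z :=
    hf.hasFDerivAt.cexp
  unfold dz dzb
  rw [h.fderiv]
  simp only [ContinuousLinearMap.smul_apply, smul_eq_mul]
  constructor <;> ring

/-- real valued functions -/
theorem dzb_ofReal {ρ : ℂ → ℝ} {z : ℂ} (hρ : DifferentiableAt ℝ ρ z) :
    dzb (fun w => (ρ w : ℂ)) z = conj (dz (fun w => (ρ w : ℂ)) z) := by
  have h : DifferentiableAt ℝ (fun w => (ρ w : ℂ)) z :=
    Complex.ofRealCLM.differentiableAt.comp z hρ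
  have h1 := (dz_conj h).1
  simp only [Complex.conj_ofReal] at h1
  rw [h1, Complex.conj_conj]

/-- real part of a holomorphic function -/
theorem dz_re {f : ℂ → ℂ} {z : ℂ} (hf : DifferentiableAt ℂ f z) :
    dz (fun w => ((f w).re : ℂ)) z = 2⁻¹ * deriv f z := by
  have h1 : (fun w => ((f w).re : ℂ)) = fun w => (2⁻¹ : ℂ) • (f w + conj (f w)) := by
    funext w
    rw [Complex.add_conj, smul_eq_mul]
    push_cast
    ring
  have hr : DifferentiableAt ℝ f z := hf.restrictScalars ℝ
  have hc : DifferentiableAt ℝ (fun w => conj (f w)) z :=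
    (Complex.conjCLE : ℂ →L[ℝ] ℂ).differentiableAt.comp z hr
  rw [h1, (dz_smul (f := fun _ => (2⁻¹ : ℂ)) (F := fun w => f w + conj (f w))
    (differentiableAt_const _) (hr.add hc)).1, (dz_add hr hc).1,
    (dz_conj_hol hf).1, (dz_hol hf).1, dz_const.1]
  simp

/-- real function of a real function -/
theorem dz_comp_real {ρ : ℂ → ℝ} {G : ℝ → ℝ} {G' : ℝ} {z : ℂ} (hρ : DifferentiableAt ℝ ρ z)
    (hG : HasDerivAt G G' (ρ z)) :
    dz (fun w => (G (ρ w) : ℂ)) z = G' * dz (fun w => (ρ w : ℂ)) z ∧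
      dzb (fun w => (G (ρ w) : ℂ)) z = G' * dzb (fun w => (ρ w : ℂ)) z := by
  have h1 : HasFDerivAt (fun w => (ρ w : ℂ)) (Complex.ofRealCLM.comp (fderiv ℝ ρ z)) z :=
    Complex.ofRealCLM.hasFDerivAt.comp z hρ.hasFDerivAt
  have h2 : HasFDerivAt (fun w => G (ρ w)) (G' • fderiv ℝ ρ z) z :=
    hG.comp_hasFDerivAt z hρ.hasFDerivAt
  have h3 : HasFDerivAt (fun w => (G (ρ w) : ℂ))
      (Complex.ofRealCLM.comp (G' • fderiv ℝ ρ z)) z :=
    Complex.ofRealCLM.hasFDerivAt.comp z h2
  unfold dz dzb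
  rw [h1.fderiv, h3.fderiv]
  simp only [ContinuousLinearMap.comp_apply, ContinuousLinearMap.smul_apply,
    Complex.ofRealCLM_apply, smul_eq_mul, Complex.ofReal_mul]
  constructor <;> ring

theorem dz_comm {F : ℂ → Y} {V : Set ℂ} (hV : IsOpen V) (hF : ContDiffOn ℝ 2 F V) {z : ℂ}
    (hz : z ∈ V) : dz (dzb F) z = dzb (dz F) z := by
  have hFz : ContDiffAt ℝ 2 F z := hF.contDiffAt (hV.mem_nhds hz)
  have hd : DifferentiableAt ℝ (fderiv ℝ F) z :=
    (hFz.fderiv_right (m := 1) (by norm_num)).differentiableAt (by norm_num)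
  have hsymm : fderiv ℝ (fderiv ℝ F) z 1 Complex.I = fderiv ℝ (fderiv ℝ F) z Complex.I 1 :=
    (hFz.isSymmSndFDerivAt (by simp)) 1 Complex.I
  set F2 := fderiv ℝ (fderiv ℝ F) z with hF2
  have key : ∀ v : ℂ, HasFDerivAt (fun w => fderiv ℝ F w v) (F2.flip v) z := by
    intro v
    have := hd.hasFDerivAt.clm_apply (hasFDerivAt_const v z)
    exact this.congr_fderiv (by rw [ContinuousLinearMap.comp_zero, zero_add])
  have hdz : HasFDerivAt (dz F)
      ((2⁻¹ : ℂ) • (F2.flip 1 - Complex.I • F2.flip Complex.I)) z := by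
    have := ((key 1).sub ((key Complex.I).const_smul Complex.I)).const_smul (2⁻¹ : ℂ)
    exact this
  have hdzb : HasFDerivAt (dzb F)
      ((2⁻¹ : ℂ) • (F2.flip 1 + Complex.I • F2.flip Complex.I)) z := by
    have := ((key 1).add ((key Complex.I).const_smul Complex.I)).const_smul (2⁻¹ : ℂ)
    exact this
  show (2⁻¹ : ℂ) • (fderiv ℝ (dzb F) z 1 - Complex.I • fderiv ℝ (dzb F) z Complex.I)
    = (2⁻¹ : ℂ) • (fderiv ℝ (dz F) z 1 + Complex.I • fderiv ℝ (dz F) z Complex.I)
  rw [hdz.fderiv, hdzb.fderiv]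
  simp only [ContinuousLinearMap.smul_apply, ContinuousLinearMap.add_apply,
    ContinuousLinearMap.sub_apply, ContinuousLinearMap.flip_apply, hsymm]
  module

theorem dz_contDiffOn {F : ℂ → Y} {V : Set ℂ} (hV : IsOpen V)
    (hF : ContDiffOn ℝ (⊤ : ℕ∞) F V) :
    ContDiffOn ℝ (⊤ : ℕ∞) (dz F) V ∧ ContDiffOn ℝ (⊤ : ℕ∞) (dzb F) V := by
  have h1 : ContDiffOn ℝ (⊤ : ℕ∞) (fderiv ℝ F) V :=
    hF.fderiv_of_isOpen hV (by simp)
  have h2 : ∀ v : ℂ, ContDiffOn ℝ (⊤ : ℕ∞) (fun w => fderiv ℝ F w v) V := fun v =>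
    h1.clm_apply contDiffOn_const
  constructor
  · exact ((h2 1).sub ((h2 Complex.I).const_smul Complex.I)).const_smul (2⁻¹ : ℂ)
  · exact ((h2 1).add ((h2 Complex.I).const_smul Complex.I)).const_smul (2⁻¹ : ℂ)

theorem dz_of_notMem {F : ℂ → Y} {z : ℂ} (hz : z ∉ tsupport F) : dz F z = 0 ∧ dzb F z = 0 := by
  have h : F =ᶠ[𝓝 z] fun _ => 0 := notMem_tsupport_iff_eventuallyEq.1 hz
  have h1 := dz_congr h
  have h2 := dz_const (c := (0 : Y)) (z := z)
  exact ⟨h1.1.trans h2.1, h1.2.trans h2.2⟩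

theorem tsupport_dz {F : ℂ → Y} : tsupport (dz F) ⊆ tsupport F ∧ tsupport (dzb F) ⊆ tsupport F := by
  constructor
  · refine closure_minimal (fun z hz => ?_) isClosed_closure
    by_contra hz'
    exact hz (dz_of_notMem hz').1
  · refine closure_minimal (fun z hz => ?_) isClosed_closure
    by_contra hz'
    exact hz (dz_of_notMem hz').2

theorem IsTest.dz {F : ℂ → Y} {V : Set ℂ} (hF : IsTest V F) : IsTest V (dz F) where
  smooth := contDiffOn_univ.1 (dz_contDiffOn isOpen_univ (contDiffOn_univ.2 hF.smooth)).1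
  compact := hF.compact.of_isClosed_subset isClosed_closure tsupport_dz.1
  supp := tsupport_dz.1.trans hF.supp

theorem IsTest.dzb {F : ℂ → Y} {V : Set ℂ} (hF : IsTest V F) : IsTest V (dzb F) where
  smooth := contDiffOn_univ.1 (dz_contDiffOn isOpen_univ (contDiffOn_univ.2 hF.smooth)).2
  compact := hF.compact.of_isClosed_subset isClosed_closure tsupport_dz.2
  supp := tsupport_dz.2.trans hF.supp

theorem IsTest.add {F G : ℂ → Y} {V : Set ℂ} (hF : IsTest V F) (hG : IsTest V G) :
    IsTest V (fun z => F z + G z) where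
  smooth := hF.smooth.add hG.smooth
  compact := hF.compact.add hG.compact
  supp := (tsupport_add F G).trans (union_subset hF.supp hG.supp)

/-- multiplication of a test function by a function which is smooth only on `V` -/
theorem IsTest.smul {f : ℂ → ℂ} {F : ℂ → Y} {V : Set ℂ} (hV : IsOpen V)
    (hf : ContDiffOn ℝ (⊤ : ℕ∞) f V) (hF : IsTest V F) : IsTest V (fun z => f z • F z) where
  smooth := by
    rw [contDiff_iff_contDiffAt]
    intro z
    by_cases hz : z ∈ tsupport F
    · exact (hf.contDiffAt (hV.mem_nhds (hF.supp hz))).smul hF.smooth.contDiffAt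
    · have h : F =ᶠ[𝓝 z] fun _ => 0 := notMem_tsupport_iff_eventuallyEq.1 hz
      have h1 : (fun z => f z • F z) =ᶠ[𝓝 z] fun _ => 0 := by
        filter_upwards [h] with w hw
        rw [hw, smul_zero]
      exact contDiffAt_const.congr_of_eventuallyEq h1
  compact := hF.compact.smul_left
  supp := (tsupport_smul_subset_right f F).trans hF.supp

/-- a scalar test function times a function which is smooth only on `V` -/
theorem IsTest.smul' {f : ℂ → ℂ} {F : ℂ → Y} {V : Set ℂ} (hV : IsOpen V)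
    (hf : IsTest V f) (hF : ContDiffOn ℝ (⊤ : ℕ∞) F V) : IsTest V (fun z => f z • F z) where
  smooth := by
    rw [contDiff_iff_contDiffAt]
    intro z
    by_cases hz : z ∈ tsupport f
    · exact hf.smooth.contDiffAt.smul (hF.contDiffAt (hV.mem_nhds (hf.supp hz)))
    · have h : f =ᶠ[𝓝 z] fun _ => 0 := notMem_tsupport_iff_eventuallyEq.1 hz
      have h1 : (fun z => f z • F z) =ᶠ[𝓝 z] fun _ => 0 := by
        filter_upwards [h] with w hw
        rw [hw, zero_smul]
      exact contDiffAt_const.congr_of_eventuallyEq h1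
  compact := hf.compact.smul_right
  supp := (tsupport_smul_subset_left f F).trans hf.supp

/-- holomorphic functions are real-smooth -/
theorem hol_contDiffOn [CompleteSpace Y] {F : ℂ → Y} {V : Set ℂ} (hV : IsOpen V)
    (hF : DifferentiableOn ℂ F V) : ContDiffOn ℝ (⊤ : ℕ∞) F V :=
  (hF.contDiffOn hV).restrict_scalars ℝ

/-- the integral of a derivative of a test function over the plane vanishes -/
theorem integral_dz_test {F : ℂ → Y} (hF : ContDiff ℝ 1 F) (hc : HasCompactSupport F) :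
    ∫ z, dz F z = 0 ∧ ∫ z, dzb F z = 0 := by
  have hcont : Continuous (fderiv ℝ F) := hF.continuous_fderiv (by norm_num)
  have hint : ∀ v : ℂ, Integrable (fun z => fderiv ℝ F z v) := fun v =>
    (hcont.clm_apply continuous_const).integrable_of_hasCompactSupport
      ((hc.fderiv ℝ).mono' (by
        intro z hz
        apply subset_tsupport
        intro h0
        apply hz
        show fderiv ℝ F z v = 0
        rw [h0]; rfl))
  have key : ∀ v : ℂ, ∫ z, fderiv ℝ F z v = 0 := by
    intro v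
    have h := integral_smul_fderiv_eq_neg_fderiv_smul_of_integrable (μ := (volume : Measure ℂ))
      (f := fun _ : ℂ => (1 : ℝ)) (g := F) (v := v) (by simp) (by simpa using hint v)
      (by simpa using hF.continuous.integrable_of_hasCompactSupport hc)
      (fun x _ => differentiableAt_const _)
      (fun x _ => (hF.differentiable (by norm_num)).differentiableAt)
    simpa using h
  have hI : Integrable (fun z => Complex.I • fderiv ℝ F z Complex.I) :=
    (hint Complex.I).smul Complex.I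
  constructor
  · show ∫ z, (2⁻¹ : ℂ) • (fderiv ℝ F z 1 - Complex.I • fderiv ℝ F z Complex.I) = 0
    rw [integral_smul, integral_sub (hint 1) hI, integral_smul, key, key]
    simp
  · show ∫ z, (2⁻¹ : ℂ) • (fderiv ℝ F z 1 + Complex.I • fderiv ℝ F z Complex.I) = 0
    rw [integral_smul, integral_add (hint 1) hI, integral_smul, key, key]
    simp

end

end Pool.Agent.Helper7.KE
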