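import Pool.Agent.Helper7.KE.A1

set_option autoImplicit false

open MeasureTheory Set Filter Asymptotics Topology Metric
open scoped ComplexConjugate ENNReal

namespace Pool.Agent.Helper7.KE

section

variable {Y : Type*} [NormedAddCommGroup Y] [NormedSpace ℂ Y]

/-- the polar map about `c` -/
noncomputable def Spol (c : ℂ) (p : ℝ × ℝ) : ℂ := c + p.1 * Complex.exp (p.2 * Complex.I)

theorem Spol_contDiff (c : ℂ) : ContDiff ℝ 1 (Spol c) := by
  unfold Spol
  have h1 : ContDiff ℝ 1 (fun p : ℝ × ℝ => (p.1 : ℂ)) := Complex.ofRealCLM.contDiff.comp contDiff_fst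
  have h2 : ContDiff ℝ 1 (fun p : ℝ × ℝ => (p.2 : ℂ)) := Complex.ofRealCLM.contDiff.comp contDiff_snd
  exact contDiff_const.add (h1.mul ((h2.mul contDiff_const).cexp))

theorem Spol_fst (c : ℂ) (p : ℝ × ℝ) :
    HasDerivAt (fun t : ℝ => Spol c (t, p.2)) (Complex.exp (p.2 * Complex.I)) p.1 := by
  unfold Spol
  have h1 : HasDerivAt (fun t : ℝ => (t : ℂ)) 1 p.1 := Complex.ofRealCLM.hasDerivAt
  have h2 := (h1.mul_const (Complex.exp (p.2 * Complex.I))).const_add c
  simpa using h2

theorem Spol_snd (c : ℂ) (p : ℝ × ℝ) :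
    HasDerivAt (fun t : ℝ => Spol c (p.1, t)) (p.1 * (Complex.exp (p.2 * Complex.I) * Complex.I))
      p.2 := by
  unfold Spol
  have h1 : HasDerivAt (fun t : ℝ => (t : ℂ)) 1 p.2 := Complex.ofRealCLM.hasDerivAt
  have h2 := (((h1.mul_const Complex.I).cexp).const_mul (p.1 : ℂ)).const_add c
  simpa using h2

theorem Spol_norm (c : ℂ) {R : ℝ} {p : ℝ × ℝ} (h0 : 0 ≤ p.1) (h1 : p.1 ≤ R) :
    Spol c p ∈ closedBall c R := by
  rw [mem_closedBall, dist_eq_norm, Spol, add_sub_cancel_left, norm_mul,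
    Complex.norm_exp_ofReal_mul_I, mul_one, Complex.norm_real, Real.norm_eq_abs, abs_of_nonneg h0]
  exact h1

/-- directional derivatives of a function on the plane -/
theorem fderiv_fst {f : ℝ × ℝ → Y} {p : ℝ × ℝ} {y : Y} (hf : DifferentiableAt ℝ f p)
    (h : HasDerivAt (fun t : ℝ => f (t, p.2)) y p.1) : fderiv ℝ f p (1, 0) = y := by
  have h1 : HasDerivAt (fun t : ℝ => ((t, p.2) : ℝ × ℝ)) (1, 0) p.1 :=
    (hasDerivAt_id p.1).prodMk (hasDerivAt_const p.1 p.2)
  have h2 : HasFDerivAt f (fderiv ℝ f p) ((fun t : ℝ => ((t, p.2) : ℝ × ℝ)) p.1) := hf.hasFDerivAt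
  exact (h2.comp_hasDerivAt p.1 h1).unique h

theorem fderiv_snd {f : ℝ × ℝ → Y} {p : ℝ × ℝ} {y : Y} (hf : DifferentiableAt ℝ f p)
    (h : HasDerivAt (fun t : ℝ => f (p.1, t)) y p.2) : fderiv ℝ f p (0, 1) = y := by
  have h1 : HasDerivAt (fun t : ℝ => ((p.1, t) : ℝ × ℝ)) (0, 1) p.2 :=
    (hasDerivAt_const p.2 p.1).prodMk (hasDerivAt_id p.2)
  have h2 : HasFDerivAt f (fderiv ℝ f p) ((fun t : ℝ => ((p.1, t) : ℝ × ℝ)) p.2) := hf.hasFDerivAt
  exact (h2.comp_hasDerivAt p.2 h1).unique h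

theorem clm_complex (L : ℂ →L[ℝ] Y) (w : ℂ) :
    L w = (w.re : ℂ) • L 1 + (w.im : ℂ) • L Complex.I := by
  have h1 : w = w.re • (1 : ℂ) + w.im • Complex.I := by
    apply Complex.ext <;> simp
  conv_lhs => rw [h1]
  rw [map_add, map_smul, map_smul]
  rw [Complex.coe_smul, Complex.coe_smul]

end

section

variable {Y : Type*} [NormedAddCommGroup Y] [NormedSpace ℂ Y] [CompleteSpace Y]

omit [CompleteSpace Y] in
theorem green_aux (c : ℂ) {R : ℝ} (hR : 0 < R) {F : ℂ → Y} {V : Set ℂ} (hV : IsOpen V)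
    (hcV : closedBall c R ⊆ V) (hF : ContDiffOn ℝ 1 F V) (κ : ℂ) (hκ : κ * κ = -1) (e : ℝ → ℂ)
    (he : ∀ θ, HasDerivAt e (-κ * e θ) θ)
    (he1 : ∀ θ : ℝ, e θ * (Real.cos θ + κ * Real.sin θ) = 1)
    (hper : ∀ θ, e (θ + 2 * Real.pi) = e θ) :
    ∫ z in ball c R, (2⁻¹ : ℂ) • (fderiv ℝ F z 1 - κ • fderiv ℝ F z Complex.I) =
      (R / 2 : ℂ) • ∫ θ in (0 : ℝ)..2 * Real.pi, e θ • F (c + R * Complex.exp (θ * Complex.I)) := by
  have hdiff : ∀ z ∈ V, DifferentiableAt ℝ F z := fun z hz =>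
    (hF.differentiableOn one_ne_zero z hz).differentiableAt (hV.mem_nhds hz)
  have hcont : ContinuousOn (fderiv ℝ F) V := hF.continuousOn_fderiv_of_isOpen hV le_rfl
  set H : ℂ → Y := fun z => fderiv ℝ F z 1 - κ • fderiv ℝ F z Complex.I with hH
  have hHc : ContinuousOn H V := by
    refine (hcont.clm_apply continuousOn_const).sub ?_
    exact (hcont.clm_apply continuousOn_const).const_smul κ
  set f : ℝ × ℝ → Y := fun p => (p.1 : ℂ) • (e p.2 • F (Spol c p)) with hf
  set g : ℝ × ℝ → Y := fun p => (-κ) • (e p.2 • F (Spol c p)) with hg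
  have hSd : ∀ p, DifferentiableAt ℝ (Spol c) p := fun p =>
    (Spol_contDiff c).differentiable one_ne_zero p
  have hFS : ∀ p, Spol c p ∈ V → DifferentiableAt ℝ (fun p => F (Spol c p)) p := fun p hp =>
    (hdiff _ hp).comp p (hSd p)
  have hed : ∀ p : ℝ × ℝ, DifferentiableAt ℝ (fun p : ℝ × ℝ => e p.2) p := fun p =>
    (he p.2).differentiableAt.comp p differentiableAt_snd
  have hcd : ∀ p : ℝ × ℝ, DifferentiableAt ℝ (fun p : ℝ × ℝ => (p.1 : ℂ)) p := fun p =>
    Complex.ofRealCLM.differentiableAt.comp p differentiableAt_fst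
  have hfd : ∀ p, Spol c p ∈ V → DifferentiableAt ℝ f p := fun p hp =>
    (hcd p).smul ((hed p).smul (hFS p hp))
  have hgd : ∀ p, Spol c p ∈ V → DifferentiableAt ℝ g p := fun p hp =>
    ((hed p).smul (hFS p hp)).const_smul (-κ)
  -- the key identity
  have key : ∀ p, Spol c p ∈ V →
      fderiv ℝ f p (1, 0) + fderiv ℝ g p (0, 1) = (p.1 : ℂ) • H (Spol c p) := by
    intro p hp
    have hL : HasFDerivAt F (fderiv ℝ F (Spol c p)) (Spol c p) := (hdiff _ hp).hasFDerivAt
    have d1 : HasDerivAt (fun t : ℝ => F (Spol c (t, p.2)))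
        (fderiv ℝ F (Spol c p) (Complex.exp (p.2 * Complex.I))) p.1 := by
      have := Spol_fst c p
      exact HasFDerivAt.comp_hasDerivAt p.1 (f := fun t : ℝ => Spol c (t, p.2)) hL this
    have d2 : HasDerivAt (fun t : ℝ => F (Spol c (p.1, t)))
        (fderiv ℝ F (Spol c p) (p.1 * (Complex.exp (p.2 * Complex.I) * Complex.I))) p.2 := by
      have := Spol_snd c p
      exact HasFDerivAt.comp_hasDerivAt p.2 (f := fun t : ℝ => Spol c (p.1, t)) hL this
    have d3 : HasDerivAt (fun t : ℝ => (t : ℂ)) 1 p.1 := Complex.ofRealCLM.hasDerivAt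
    have e1 : fderiv ℝ f p (1, 0) = (p.1 : ℂ) • (e p.2 •
        fderiv ℝ F (Spol c p) (Complex.exp (p.2 * Complex.I))) + (1 : ℂ) • (e p.2 • F (Spol c p)) := by
      refine fderiv_fst (hfd p hp) ?_
      exact d3.smul (d1.const_smul (e p.2))
    have e2 : fderiv ℝ g p (0, 1) = (-κ) • (e p.2 • fderiv ℝ F (Spol c p)
        (p.1 * (Complex.exp (p.2 * Complex.I) * Complex.I)) + (-κ * e p.2) • F (Spol c p)) := by
      refine fderiv_snd (hgd p hp) ?_
      exact ((he p.2).smul d2).const_smul (-κ)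
    rw [e1, e2, hH]
    simp only
    rw [clm_complex (fderiv ℝ F (Spol c p)) (Complex.exp (p.2 * Complex.I)),
      clm_complex (fderiv ℝ F (Spol c p)) (p.1 * (Complex.exp (p.2 * Complex.I) * Complex.I))]
    have r1 : (Complex.exp (p.2 * Complex.I)).re = Real.cos p.2 := Complex.exp_ofReal_mul_I_re _
    have r2 : (Complex.exp (p.2 * Complex.I)).im = Real.sin p.2 := Complex.exp_ofReal_mul_I_im _
    have r3 : (p.1 * (Complex.exp (p.2 * Complex.I) * Complex.I)).re = -(p.1 * Real.sin p.2) := by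
      rw [Complex.re_ofReal_mul, Complex.mul_I_re, r2]; ring
    have r4 : (p.1 * (Complex.exp (p.2 * Complex.I) * Complex.I)).im = p.1 * Real.cos p.2 := by
      rw [Complex.im_ofReal_mul, Complex.mul_I_im, r1]
    rw [r1, r2, r3, r4]
    set X := fderiv ℝ F (Spol c p) 1
    set Z := fderiv ℝ F (Spol c p) Complex.I
    set W := F (Spol c p)
    have h1 := he1 p.2
    push_cast
    -- coefficients
    have c1 : (p.1 : ℂ) * e p.2 * Real.cos p.2 + κ * e p.2 * (p.1 * Real.sin p.2) = p.1 := by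
      linear_combination (p.1 : ℂ) * h1
    have c2 : (p.1 : ℂ) * e p.2 * Real.sin p.2 - κ * e p.2 * (p.1 * Real.cos p.2)
        = -(p.1 * κ) := by
      linear_combination (-(p.1 : ℂ) * κ) * h1 + (p.1 : ℂ) * e p.2 * Real.sin p.2 * hκ
    have c3 : e p.2 + κ * κ * e p.2 = 0 := by rw [hκ]; ring
    push_cast at c1 c2
    have expand : (p.1 : ℂ) • (e p.2 • (Complex.cos p.2 • X + Complex.sin p.2 • Z)) +
        (1 : ℂ) • (e p.2 • W) + (-κ) • (e p.2 • ((-(p.1 * Complex.sin p.2)) • X +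
          (p.1 * Complex.cos p.2) • Z) + (-κ * e p.2) • W) =
        ((p.1 : ℂ) * e p.2 * Complex.cos p.2 + κ * e p.2 * (p.1 * Complex.sin p.2)) • X +
        ((p.1 : ℂ) * e p.2 * Complex.sin p.2 - κ * e p.2 * (p.1 * Complex.cos p.2)) • Z +
        (e p.2 + κ * κ * e p.2) • W := by
      module
    rw [expand, c1, c2, c3]
    module
  -- the rectangle
  have hπ : -Real.pi ≤ Real.pi := by linarith [Real.pi_pos]
  have hle : ((0, -Real.pi) : ℝ × ℝ) ≤ (R, Real.pi) := ⟨hR.le, hπ⟩
  have hIcc : ∀ p ∈ Icc ((0, -Real.pi) : ℝ × ℝ) (R, Real.pi), Spol c p ∈ V := fun p hp =>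
    hcV (Spol_norm c hp.1.1 hp.2.1)
  have hHS : ContinuousOn (fun p : ℝ × ℝ => (p.1 : ℂ) • H (Spol c p))
      (Icc ((0, -Real.pi) : ℝ × ℝ) (R, Real.pi)) := by
    refine ContinuousOn.smul (by fun_prop) ?_
    exact hHc.comp (Spol_contDiff c).continuous.continuousOn hIcc
  have hdivint : IntegrableOn (fun p => fderiv ℝ f p (1, 0) + fderiv ℝ g p (0, 1))
      (Icc ((0, -Real.pi) : ℝ × ℝ) (R, Real.pi)) := by
    refine IntegrableOn.congr_fun (hHS.integrableOn_compact isCompact_Icc) ?_ measurableSet_Icc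
    intro p hp
    exact (key p (hIcc p hp)).symm
  have hIoo : ∀ p ∈ Ioo (0 : ℝ) R ×ˢ Ioo (-Real.pi) Real.pi, Spol c p ∈ V := fun p hp =>
    hcV (Spol_norm c hp.1.1.le hp.1.2.le)
  have hdiv := integral_divergence_prod_Icc_of_hasFDerivAt_of_le f g (fderiv ℝ f) (fderiv ℝ g)
    (0, -Real.pi) (R, Real.pi) hle
    (fun p hp => (hfd p (hIcc p hp)).continuousAt.continuousWithinAt)
    (fun p hp => (hgd p (hIcc p hp)).continuousAt.continuousWithinAt)
    (fun p hp => (hfd p (hIoo p hp)).hasFDerivAt)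
    (fun p hp => (hgd p (hIoo p hp)).hasFDerivAt) hdivint
  have hS1 : ∀ x, Spol c (x, Real.pi) = Spol c (x, -Real.pi) := by
    intro x
    unfold Spol
    have : Complex.exp ((Real.pi : ℝ) * Complex.I) = Complex.exp (((-Real.pi : ℝ) : ℂ) * Complex.I) := by
      push_cast
      rw [neg_mul, Complex.exp_neg, Complex.exp_pi_mul_I]
      norm_num
    simp only [this]
  have hee : e Real.pi = e (-Real.pi) := by
    have := hper (-Real.pi)
    rw [← this]
    congr 1
    ring
  have hgg : ∀ x, g (x, Real.pi) = g (x, -Real.pi) := by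
    intro x
    simp only [hg, hS1, hee]
  have hf0 : ∀ y, f (0, y) = 0 := by
    intro y
    simp [hf]
  rw [setIntegral_congr_fun measurableSet_Icc (fun p hp => key p (hIcc p hp))] at hdiv
  simp only [hgg, hf0, intervalIntegral.integral_zero, sub_self, zero_add, sub_zero] at hdiv
  -- polar coordinates
  have hpol : ∫ z in ball c R, H z =
      ∫ p in Icc ((0, -Real.pi) : ℝ × ℝ) (R, Real.pi), (p.1 : ℂ) • H (Spol c p) := by
    rw [← integral_indicator measurableSet_ball,
      ← integral_add_left_eq_self (fun z => (ball c R).indicator H z) c,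
      ← Complex.integral_comp_polarCoord_symm]
    have h1 : ∀ p ∈ polarCoord.target,
        p.1 • (ball c R).indicator H (c + Complex.polarCoord.symm p) =
        (Ioo (0 : ℝ) R ×ˢ Ioo (-Real.pi) Real.pi).indicator
          (fun p : ℝ × ℝ => (p.1 : ℂ) • H (Spol c p)) p := by
      intro p hp
      have hp' : 0 < p.1 ∧ p.2 ∈ Ioo (-Real.pi) Real.pi := hp
      have h2 : c + Complex.polarCoord.symm p = Spol c p := by
        rw [Complex.polarCoord_symm_apply, Spol, Complex.exp_mul_I]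
        push_cast
        rfl
      rw [h2]
      by_cases hlt : p.1 < R
      · have h3 : Spol c p ∈ ball c R := by
          rw [mem_ball, dist_eq_norm, Spol, add_sub_cancel_left, norm_mul,
            Complex.norm_exp_ofReal_mul_I, mul_one, Complex.norm_real, Real.norm_eq_abs,
            abs_of_pos hp'.1]
          exact hlt
        have h4 : p ∈ Ioo (0 : ℝ) R ×ˢ Ioo (-Real.pi) Real.pi := ⟨⟨hp'.1, hlt⟩, hp'.2⟩
        rw [indicator_of_mem h3, indicator_of_mem h4, Complex.coe_smul]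
      · have h3 : Spol c p ∉ ball c R := by
          rw [mem_ball, dist_eq_norm, Spol, add_sub_cancel_left, norm_mul,
            Complex.norm_exp_ofReal_mul_I, mul_one, Complex.norm_real, Real.norm_eq_abs,
            abs_of_pos hp'.1]
          exact hlt
        have h4 : p ∉ Ioo (0 : ℝ) R ×ˢ Ioo (-Real.pi) Real.pi := fun h => hlt h.1.2
        rw [indicator_of_notMem h3, indicator_of_notMem h4, smul_zero]
    rw [setIntegral_congr_fun polarCoord.open_target.measurableSet h1,
      setIntegral_indicator (measurableSet_Ioo.prod measurableSet_Ioo)]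
    have h5 : polarCoord.target ∩ Ioo (0 : ℝ) R ×ˢ Ioo (-Real.pi) Real.pi
        = Ioo (0 : ℝ) R ×ˢ Ioo (-Real.pi) Real.pi := by
      apply inter_eq_right.2
      intro p hp
      exact ⟨hp.1.1, hp.2⟩
    rw [h5, ← Icc_prod_Icc]
    apply setIntegral_congr_set
    rw [Measure.volume_eq_prod]
    exact Measure.set_prod_ae_eq Ioo_ae_eq_Icc Ioo_ae_eq_Icc
  have hfin : ∫ z in ball c R, H z = (R : ℂ) •
      ∫ θ in (0 : ℝ)..2 * Real.pi, e θ • F (c + R * Complex.exp (θ * Complex.I)) := by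
    rw [hpol, hdiv]
    have h1 : ∀ y, f (R, y) = (R : ℂ) • (e y • F (c + R * Complex.exp (y * Complex.I))) :=
      fun y => rfl
    simp only [h1]
    rw [intervalIntegral.integral_smul]
    congr 1
    have hp1 : Function.Periodic (fun θ : ℝ => e θ • F (c + R * Complex.exp (θ * Complex.I)))
        (2 * Real.pi) := by
      intro θ
      simp only [hper]
      have h2 : Complex.exp (((θ + 2 * Real.pi : ℝ) : ℂ) * Complex.I)
          = Complex.exp (θ * Complex.I) := by
        push_cast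
        rw [add_mul, Complex.exp_add, Complex.exp_two_pi_mul_I, mul_one]
      rw [h2]
    have h3 := hp1.intervalIntegral_add_eq (-Real.pi) 0
    rw [zero_add] at h3
    rw [← h3]
    congr 1
    ring
  rw [integral_smul, hfin, smul_smul]
  congr 1
  ring

omit [CompleteSpace Y] in
theorem green_ball (c : ℂ) {R : ℝ} (hR : 0 < R) {F : ℂ → Y} {V : Set ℂ} (hV : IsOpen V)
    (hcV : closedBall c R ⊆ V) (hF : ContDiffOn ℝ 1 F V) :
    (∫ z in ball c R, dz F z = (R / 2 : ℂ) • ∫ θ in (0 : ℝ)..2 * Real.pi,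
      Complex.exp (-(θ * Complex.I)) • F (c + R * Complex.exp (θ * Complex.I))) ∧
    (∫ z in ball c R, dzb F z = (R / 2 : ℂ) • ∫ θ in (0 : ℝ)..2 * Real.pi,
      Complex.exp (θ * Complex.I) • F (c + R * Complex.exp (θ * Complex.I))) := by
  have hpe : ∀ θ : ℝ, Complex.exp (((θ + 2 * Real.pi : ℝ) : ℂ) * Complex.I)
      = Complex.exp (θ * Complex.I) := by
    intro θ
    push_cast
    rw [add_mul, Complex.exp_add, Complex.exp_two_pi_mul_I, mul_one]
  have hd : ∀ θ : ℝ, HasDerivAt (fun t : ℝ => ((t : ℂ) * Complex.I)) Complex.I θ := by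
    intro θ
    have h1 : HasDerivAt (fun t : ℝ => (t : ℂ)) 1 θ := Complex.ofRealCLM.hasDerivAt
    simpa using h1.mul_const Complex.I
  constructor
  · refine green_aux c hR hV hcV hF Complex.I Complex.I_mul_I
      (fun θ => Complex.exp (-(θ * Complex.I))) ?_ ?_ ?_
    · intro θ
      have h1 := (hd θ).neg.cexp
      rw [mul_comm] at h1
      exact h1
    · intro θ
      have h1 : (Real.cos θ : ℂ) + Complex.I * Real.sin θ = Complex.exp (θ * Complex.I) := by
        rw [Complex.exp_mul_I]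
        push_cast
        ring
      rw [h1, ← Complex.exp_add, neg_add_cancel, Complex.exp_zero]
    · intro θ
      simp only [Complex.exp_neg, hpe]
  · have h0 : ∀ z, dzb F z = (2⁻¹ : ℂ) • (fderiv ℝ F z 1 - (-Complex.I) • fderiv ℝ F z Complex.I) := by
      intro z
      rw [dzb, neg_smul, sub_neg_eq_add]
    simp only [h0]
    refine green_aux c hR hV hcV hF (-Complex.I) (by rw [neg_mul_neg, Complex.I_mul_I])
      (fun θ => Complex.exp (θ * Complex.I)) ?_ ?_ ?_
    · intro θ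
      have h1 := (hd θ).cexp
      rw [mul_comm] at h1
      rw [neg_neg]
      exact h1
    · intro θ
      have h1 : (Real.cos θ : ℂ) + -Complex.I * Real.sin θ = Complex.exp (-(θ * Complex.I)) := by
        rw [← neg_mul, Complex.exp_mul_I, Complex.cos_neg, Complex.sin_neg]
        push_cast
        ring
      rw [h1, ← Complex.exp_add, add_neg_cancel, Complex.exp_zero]
    · intro θ
      simp only [hpe]

end

end Pool.Agent.Helper7.KE
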