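import Pool.Agent.Helper7.KE.A1

set_option autoImplicit false

open MeasureTheory Set Filter Asymptotics Topology Metric
open scoped ComplexConjugate ENNReal

namespace Pool.Agent.Helper7.KE

section
variable {k : ℕ} (D : CD k) {τ : ℝ}

theorem chi_smooth (hτ : 0 < τ) (hR : τ < D.R) (l : Option (Fin k)) :
    ContDiff ℝ (⊤ : ℕ∞) (D.chi τ l) := by
  rw [contDiff_iff_contDiffAt]
  intro z
  cases l with
  | none =>
    by_cases hz : z = 0
    · subst hz
      have h : (fun z : ℂ => D.chi τ none z) =ᶠ[𝓝 0] fun _ => 0 := by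
        have h1 : ∀ᶠ z : ℂ in 𝓝 0, ‖z‖ < D.R - 2 * τ / 3 := by
          refine (continuous_norm.tendsto (0 : ℂ)).eventually (p := fun x => x < D.R - 2 * τ / 3) ?_
          apply Iio_mem_nhds
          rw [norm_zero]; linarith
        filter_upwards [h1] with z hz
        simp only [CD.chi]
        apply Real.smoothTransition.zero_of_nonpos
        have : 2 ≤ 3 * (D.R - ‖z‖) / τ := by
          rw [le_div_iff₀ hτ]; linarith
        linarith
      exact contDiffAt_const.congr_of_eventuallyEq h
    · have h1 : ContDiffAt ℝ (⊤ : ℕ∞) (fun z : ℂ => 2 - 3 * (D.R - ‖z‖) / τ) z :=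
        contDiffAt_const.sub ((contDiffAt_const.mul
          (contDiffAt_const.sub (contDiffAt_norm ℝ hz))).div_const _)
      exact (Real.smoothTransition.contDiff.contDiffAt).comp z h1
  | some j =>
    by_cases hz : z = D.a j
    · subst hz
      have h : (fun z : ℂ => D.chi τ (some j) z) =ᶠ[𝓝 (D.a j)] fun _ => 1 := by
        have h1 : ∀ᶠ z : ℂ in 𝓝 (D.a j), ‖z - D.a j‖ < D.r j := by
          have : Continuous fun z : ℂ => ‖z - D.a j‖ := by fun_prop
          refine (this.tendsto (D.a j)).eventually (p := fun x => x < D.r j) ?_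
          apply Iio_mem_nhds
          rw [sub_self, norm_zero]; exact D.rpos j
        filter_upwards [h1] with z hz
        simp only [CD.chi]
        apply Real.smoothTransition.one_of_one_le
        have : 3 * (‖z - D.a j‖ - D.r j) / τ ≤ 0 :=
          div_nonpos_of_nonpos_of_nonneg (by linarith) hτ.le
        linarith
      exact contDiffAt_const.congr_of_eventuallyEq h
    · have h0 : ContDiffAt ℝ (⊤ : ℕ∞) (fun z : ℂ => ‖z - D.a j‖) z :=
        (contDiffAt_norm ℝ (sub_ne_zero.2 hz)).comp z (contDiffAt_id.sub contDiffAt_const)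
      have h1 : ContDiffAt ℝ (⊤ : ℕ∞) (fun z : ℂ => 2 - 3 * (‖z - D.a j‖ - D.r j) / τ) z :=
        contDiffAt_const.sub ((contDiffAt_const.mul
          (h0.sub contDiffAt_const)).div_const _)
      exact (Real.smoothTransition.contDiff.contDiffAt).comp z h1

theorem chi_mem (l : Option (Fin k)) (z : ℂ) : 0 ≤ D.chi τ l z ∧ D.chi τ l z ≤ 1 := by
  cases l with
  | none => exact ⟨Real.smoothTransition.nonneg _, Real.smoothTransition.le_one _⟩
  | some j => exact ⟨Real.smoothTransition.nonneg _, Real.smoothTransition.le_one _⟩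

/-- `χ_l = 1` near the circle `l` -/
theorem chi_near (hτ : 0 < τ) (l : Option (Fin k)) {z : ℂ} (hz : z ∈ D.circ l) :
    ∀ᶠ w in 𝓝 z, D.chi τ l w = 1 := by
  cases l with
  | none =>
    have hz' : ‖z‖ = D.R := by simpa [CD.circ, CD.cen, CD.rad] using hz
    have h1 : ∀ᶠ w : ℂ in 𝓝 z, D.R - τ / 3 < ‖w‖ := by
      apply (continuous_norm.tendsto z).eventually
      apply Ioi_mem_nhds
      linarith
    filter_upwards [h1] with w hw
    simp only [CD.chi]
    apply Real.smoothTransition.one_of_one_le
    have : 3 * (D.R - ‖w‖) / τ ≤ 1 := by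
      rw [div_le_iff₀ hτ]; linarith
    linarith
  | some j =>
    have hz' : ‖z - D.a j‖ = D.r j := by
      simpa [CD.circ, CD.cen, CD.rad, dist_eq_norm] using hz
    have h1 : ∀ᶠ w : ℂ in 𝓝 z, ‖w - D.a j‖ < D.r j + τ / 3 := by
      have : Continuous fun z : ℂ => ‖z - D.a j‖ := by fun_prop
      refine (this.tendsto z).eventually (p := fun x => x < D.r j + τ / 3) ?_
      apply Iio_mem_nhds
      linarith
    filter_upwards [h1] with w hw
    simp only [CD.chi]
    apply Real.smoothTransition.one_of_one_le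
    have : 3 * (‖w - D.a j‖ - D.r j) / τ ≤ 1 := by
      rw [div_le_iff₀ hτ]; linarith
    linarith

/-- supports -/
theorem chi_tsupport (hτ : 0 < τ) (j : Fin k) :
    tsupport (D.chi τ (some j)) ⊆ closedBall (D.a j) (D.r j + 2 * τ / 3) ∧
      tsupport (D.chi τ none) ⊆ {z | D.R - 2 * τ / 3 ≤ ‖z‖} := by
  constructor
  · apply closure_minimal _ isClosed_closedBall
    intro z hz
    by_contra h
    apply hz
    simp only [mem_closedBall, dist_eq_norm, not_le] at h
    simp only [CD.chi]
    apply Real.smoothTransition.zero_of_nonpos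
    have : 2 ≤ 3 * (‖z - D.a j‖ - D.r j) / τ := by
      rw [le_div_iff₀ hτ]; linarith
    linarith
  · apply closure_minimal _ (isClosed_le continuous_const continuous_norm)
    intro z hz
    by_contra h
    apply hz
    simp only [mem_ofPred_eq, not_le] at h
    simp only [CD.chi]
    apply Real.smoothTransition.zero_of_nonpos
    have : 2 ≤ 3 * (D.R - ‖z‖) / τ := by
      rw [le_div_iff₀ hτ]; linarith
    linarith

theorem chi_disj_none (hτ : D.Good τ) (j : Fin k) :
    Disjoint (tsupport (D.chi τ none)) (tsupport (D.chi τ (some j))) := by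
  rw [Set.disjoint_left]
  intro z h1 h2
  have h3 := (chi_tsupport D hτ.pos j).2 h1
  have h4 := (chi_tsupport D hτ.pos j).1 h2
  simp only [mem_ofPred_eq] at h3
  rw [mem_closedBall, dist_eq_norm] at h4
  have h5 : ‖z‖ ≤ ‖z - D.a j‖ + ‖D.a j‖ := by
    simpa using norm_add_le (z - D.a j) (D.a j)
  have h6 := hτ.inside j
  have h7 := hτ.pos
  linarith

theorem chi_disj (hτ : D.Good τ) {l l' : Option (Fin k)} (h : l ≠ l') :
    Disjoint (tsupport (D.chi τ l)) (tsupport (D.chi τ l')) := by
  cases l with
  | none =>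
    cases l' with
    | none => exact absurd rfl h
    | some j => exact chi_disj_none D hτ j
  | some i =>
    cases l' with
    | none => exact (chi_disj_none D hτ i).symm
    | some j =>
      have hij : i ≠ j := fun e => h (by rw [e])
      rw [Set.disjoint_left]
      intro z h1 h2
      have h3 := (chi_tsupport D hτ.pos i).1 h1
      have h4 := (chi_tsupport D hτ.pos j).1 h2
      rw [mem_closedBall, dist_eq_norm] at h3 h4
      have h5 : ‖D.a i - D.a j‖ ≤ ‖z - D.a i‖ + ‖z - D.a j‖ := by
        have := norm_sub_le (z - D.a j) (z - D.a i)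
        rw [sub_sub_sub_cancel_left] at this
        linarith
      have h6 := hτ.disj i j hij
      have h7 := hτ.pos
      linarith

theorem circ_subset_tsupport (hτ : 0 < τ) (l : Option (Fin k)) :
    D.circ l ⊆ tsupport (D.chi τ l) := by
  intro z hz
  apply subset_tsupport
  rw [Function.mem_support, (chi_near D hτ l hz).self_of_nhds]
  exact one_ne_zero

theorem chi_zero_near (hτ : D.Good τ) {l l' : Option (Fin k)} (h : l ≠ l') {z : ℂ}
    (hz : z ∈ D.circ l) : ∀ᶠ w in 𝓝 z, D.chi τ l' w = 0 := by
  have h1 : z ∉ tsupport (D.chi τ l') :=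
    Set.disjoint_left.1 (chi_disj D hτ h) (circ_subset_tsupport D hτ.pos l hz)
  exact notMem_tsupport_iff_eventuallyEq.1 h1

/-- `X_t` near the circles -/
theorem X_circ (hτ : D.Good τ) (t : Fin k → ℂ) :
    (∀ z ∈ D.circ none, ∀ᶠ w in 𝓝 z, D.X τ t w = 1) ∧
      ∀ j, ∀ z ∈ D.circ (some j), ∀ᶠ w in 𝓝 z, D.X τ t w = t j := by
  constructor
  · intro z hz
    have h1 : ∀ᶠ w in 𝓝 z, ∀ j, D.chi τ (some j) w = 0 := by
      rw [eventually_all]
      intro j
      exact chi_zero_near D hτ (by simp) hz
    filter_upwards [h1] with w hw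
    simp [CD.X, hw]
  · intro j z hz
    have h1 : ∀ᶠ w in 𝓝 z, ∀ i, i ≠ j → D.chi τ (some i) w = 0 := by
      rw [eventually_all]
      intro i
      by_cases hij : i = j
      · exact Eventually.of_forall fun w h => absurd hij h
      · filter_upwards [chi_zero_near D hτ (l := some j) (l' := some i)
          (fun e => hij (Option.some.inj e).symm) hz] with w hw _
        exact hw
    filter_upwards [h1, chi_near D hτ.pos (some j) hz] with w hw hw'
    rw [CD.X, Finset.sum_eq_single j]
    · rw [hw']; simp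
    · intro i _ hi
      rw [hw i hi]; simp
    · intro h; exact absurd (Finset.mem_univ j) h

/-- the closed domain is the domain together with the circles -/
theorem mem_cU_iff (z : ℂ) : z ∈ D.cU ↔ z ∈ D.U ∨ ∃ l, z ∈ D.circ l := by
  constructor
  · intro hz
    by_cases h1 : ‖z‖ = D.R
    · right
      exact ⟨none, by simpa [CD.circ, CD.cen, CD.rad] using h1⟩
    · by_cases h2 : ∃ j, ‖z - D.a j‖ = D.r j
      · obtain ⟨j, hj⟩ := h2
        right
        exact ⟨some j, by simpa [CD.circ, CD.cen, CD.rad, dist_eq_norm] using hj⟩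
      · left
        push Not at h2
        exact ⟨lt_of_le_of_ne hz.1 h1, fun j => lt_of_le_of_ne (hz.2 j) (h2 j).symm⟩
  · rintro (h | ⟨l, hl⟩)
    · exact D.U_subset_cU h
    · cases l with
      | none =>
        have hz : ‖z‖ = D.R := by simpa [CD.circ, CD.cen, CD.rad] using hl
        refine ⟨hz.le, fun j => ?_⟩
        have h5 : ‖z‖ ≤ ‖z - D.a j‖ + ‖D.a j‖ := by
          simpa using norm_add_le (z - D.a j) (D.a j)
        have := D.inside j
        linarith
      | some j =>
        have hz : ‖z - D.a j‖ = D.r j := by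
          simpa [CD.circ, CD.cen, CD.rad, dist_eq_norm] using hl
        refine ⟨?_, fun i => ?_⟩
        · have h5 : ‖z‖ ≤ ‖z - D.a j‖ + ‖D.a j‖ := by
            simpa using norm_add_le (z - D.a j) (D.a j)
          have := D.inside j
          linarith
        · by_cases hij : i = j
          · rw [hij, hz]
          · have h5 : ‖D.a i - D.a j‖ ≤ ‖z - D.a i‖ + ‖z - D.a j‖ := by
              have := norm_sub_le (z - D.a j) (z - D.a i)
              rw [sub_sub_sub_cancel_left] at this
              linarith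
            have := D.disj i j hij
            linarith

/-- a function which is smooth near the closed domain and vanishes near the circles, cut off at the
domain, is a test function -/
theorem isTest_indicator {Y : Type*} [NormedAddCommGroup Y] [NormedSpace ℂ Y] {F : ℂ → Y}
    {V : Set ℂ} (hV : IsOpen V) (hcV : D.cU ⊆ V) (hF : ContDiffOn ℝ (⊤ : ℕ∞) F V)
    (h0 : ∀ l, ∀ z ∈ D.circ l, ∀ᶠ w in 𝓝 z, F w = 0) : IsTest D.U (D.U.indicator F) := by
  have hcl : tsupport (D.U.indicator F) ⊆ D.cU := by
    apply closure_minimal _ D.cU_compact.isClosed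
    exact Set.support_indicator_subset.trans D.U_subset_cU
  have hsub : ∀ l, ∀ z ∈ D.circ l, D.U.indicator F =ᶠ[𝓝 z] fun _ => 0 := by
    intro l z hz
    filter_upwards [h0 l z hz] with w hw
    by_cases hwU : w ∈ D.U
    · rw [indicator_of_mem hwU, hw]
    · rw [indicator_of_notMem hwU]
  refine ⟨?_, D.cU_compact.of_isClosed_subset (isClosed_tsupport _) hcl, ?_⟩
  · rw [contDiff_iff_contDiffAt]
    intro z
    by_cases hz : z ∈ D.cU
    · rcases (mem_cU_iff D z).1 hz with hzU | ⟨l, hl⟩
      · have h1 : D.U.indicator F =ᶠ[𝓝 z] F := by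
          filter_upwards [D.U_open.mem_nhds hzU] with w hw
          rw [indicator_of_mem hw]
        exact ((hF z (hcV hz)).contDiffAt (hV.mem_nhds (hcV hz))).congr_of_eventuallyEq h1
      · exact contDiffAt_const.congr_of_eventuallyEq (hsub l z hl)
    · have h1 : D.U.indicator F =ᶠ[𝓝 z] fun _ => 0 := by
        filter_upwards [D.cU_compact.isClosed.isOpen_compl.mem_nhds hz] with w hw
        rw [indicator_of_notMem (fun h => hw (D.U_subset_cU h))]
      exact contDiffAt_const.congr_of_eventuallyEq h1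
  · intro z hz
    rcases (mem_cU_iff D z).1 (hcl hz) with hzU | ⟨l, hl⟩
    · exact hzU
    · exact absurd hz (notMem_tsupport_iff_eventuallyEq.2 (hsub l z hl))

theorem exists_good : ∃ τ, D.Good τ := by
  have h1 : ∀ᶠ τ : ℝ in 𝓝[>] 0, D.Good τ := by
    have hlt : ∀ c : ℝ, 0 < c → ∀ᶠ τ : ℝ in 𝓝[>] 0, 2 * τ < c := by
      intro c hc
      apply mem_nhdsWithin_of_mem_nhds
      have : Continuous fun τ : ℝ => 2 * τ := by fun_prop
      exact (this.tendsto 0).eventually (Iio_mem_nhds (by simpa using hc))
    have hr : ∀ᶠ τ : ℝ in 𝓝[>] 0, ∀ j, 2 * τ < D.r j := by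
      rw [eventually_all]; intro j; exact hlt _ (D.rpos j)
    have hi : ∀ᶠ τ : ℝ in 𝓝[>] 0, ∀ j, 2 * τ < D.R - ‖D.a j‖ - D.r j := by
      rw [eventually_all]; intro j; exact hlt _ (by have := D.inside j; linarith)
    have hd : ∀ᶠ τ : ℝ in 𝓝[>] 0, ∀ i j, i ≠ j → 2 * τ < ‖D.a i - D.a j‖ - D.r i - D.r j := by
      rw [eventually_all]; intro i; rw [eventually_all]; intro j
      by_cases hij : i = j
      · exact Eventually.of_forall fun _ h => absurd hij h
      · filter_upwards [hlt (‖D.a i - D.a j‖ - D.r i - D.r j)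
          (by have := D.disj i j hij; linarith)] with τ h _
        exact h
    filter_upwards [self_mem_nhdsWithin, hlt _ D.Rpos, hr, hi, hd] with τ h0 h1 h2 h3 h4
    have h0' : 0 < τ := h0
    exact ⟨h0, fun j => by have := h2 j; linarith, by linarith,
      fun j => by have := h3 j; linarith, fun i j hij => by have := h4 i j hij; linarith⟩
  exact h1.exists

theorem circ_disj {l l' : Option (Fin k)} (h : l ≠ l') : Disjoint (D.circ l) (D.circ l') := by
  obtain ⟨τ, hτ⟩ := exists_good D
  exact (chi_disj D hτ h).mono (circ_subset_tsupport D hτ.pos l)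
    (circ_subset_tsupport D hτ.pos l')

theorem U_nonempty : D.U.Nonempty := by
  obtain ⟨τ, hτ⟩ := exists_good D
  have h1 := hτ.pos
  have h2 := hτ.lt_R
  have h3 : ‖((D.R - τ : ℝ) : ℂ)‖ = D.R - τ := by
    rw [Complex.norm_real, Real.norm_eq_abs, abs_of_pos (by linarith)]
  refine ⟨((D.R - τ : ℝ) : ℂ), by rw [h3]; linarith, fun j => ?_⟩
  have h5 : ‖((D.R - τ : ℝ) : ℂ)‖ ≤ ‖((D.R - τ : ℝ) : ℂ) - D.a j‖ + ‖D.a j‖ := by
    simpa using norm_add_le (((D.R - τ : ℝ) : ℂ) - D.a j) (D.a j)
  rw [h3] at h5
  have h6 := hτ.inside j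
  linarith

end

end Pool.Agent.Helper7.KE
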