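import Pool.Agent.Helper7.KE.A2a
import Pool.Agent.Helper7.KE.A5a

set_option autoImplicit false

open MeasureTheory Set Filter Asymptotics Topology Metric
open scoped ComplexConjugate ENNReal Manifold

namespace Pool.Agent.Helper7.KE

section

variable {Y : Type*} [NormedAddCommGroup Y] [NormedSpace ℂ Y]

/-- a function which is smooth near a closed set extends to a smooth function -/
theorem exists_ext {K V : Set ℂ} (hK : IsClosed K) (hV : IsOpen V) (hKV : K ⊆ V) {n : ℕ∞}
    {F : ℂ → Y} (hF : ContDiffOn ℝ n F V) :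
    ∃ G : ℂ → Y, ContDiff ℝ n G ∧ ∀ z ∈ K, G =ᶠ[𝓝 z] F := by
  have hd : Disjoint Vᶜ K := by
    rw [disjoint_comm, ← subset_compl_iff_disjoint_right, compl_compl]
    exact hKV
  obtain ⟨f, hf0, hf1, -⟩ := exists_contMDiffMap_zero_one_nhds_of_isClosed 𝓘(ℝ, ℂ)
    hV.isClosed_compl hK hd (n := n)
  have hfs : ContDiff ℝ n (fun z => f z) := f.contMDiff.contDiff
  refine ⟨fun z => ((f z : ℝ) : ℂ) • F z, ?_, ?_⟩
  · rw [contDiff_iff_contDiffAt]
    intro z
    by_cases hz : z ∈ V
    · have h1 : ContDiffAt ℝ n F z := (hF z hz).contDiffAt (hV.mem_nhds hz)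
      have h2 : ContDiffAt ℝ n (fun z => ((f z : ℝ) : ℂ)) z :=
        (Complex.ofRealCLM.contDiff.comp hfs).contDiffAt
      exact h2.smul h1
    · have h1 : ∀ᶠ w in 𝓝 z, f w = 0 := (eventually_nhdsSet_iff_forall.1 hf0) z hz
      have h2 : (fun z => ((f z : ℝ) : ℂ) • F z) =ᶠ[𝓝 z] fun _ => (0 : Y) := by
        filter_upwards [h1] with w hw
        rw [hw, Complex.ofReal_zero, zero_smul]
      exact (contDiffAt_const (c := (0 : Y))).congr_of_eventuallyEq h2
  · intro z hz
    have h1 : ∀ᶠ w in 𝓝 z, f w = 1 := (eventually_nhdsSet_iff_forall.1 hf1) z hz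
    filter_upwards [h1] with w hw
    rw [hw, Complex.ofReal_one, one_smul]

/-- decomposition of the integral over a circle domain -/
theorem integral_CD {k : ℕ} (D : CD k) {H : ℂ → Y} (hH : Continuous H) :
    ∫ z in D.U, H z = (∫ z in ball 0 D.R, H z) - ∑ j, ∫ z in ball (D.a j) (D.r j), H z := by
  have hU : D.U = ball 0 D.R \ ⋃ j, closedBall (D.a j) (D.r j) := by
    ext z
    simp only [CD.U, mem_ofPred_eq, Set.mem_sdiff, mem_ball, sub_zero, mem_iUnion,
      not_exists, mem_closedBall, dist_eq_norm, not_le]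
  have hsub : ⋃ j, closedBall (D.a j) (D.r j) ⊆ ball 0 D.R := by
    refine iUnion_subset fun j z hz => ?_
    rw [mem_closedBall, dist_eq_norm] at hz
    rw [mem_ball, dist_zero_right]
    have h1 := D.inside j
    have h2 : ‖z‖ ≤ ‖z - D.a j‖ + ‖D.a j‖ := by
      simpa using norm_add_le (z - D.a j) (D.a j)
    linarith
  have hmeas : ∀ j, MeasurableSet (closedBall (D.a j) (D.r j)) := fun j => measurableSet_closedBall
  have hdisj : Pairwise (Function.onFun Disjoint fun j => closedBall (D.a j) (D.r j)) := by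
    intro i j hij
    apply closedBall_disjoint_closedBall
    rw [dist_eq_norm]
    exact D.disj i j hij
  have hint : ∀ (c : ℂ) (ρ : ℝ), IntegrableOn H (closedBall c ρ) := fun c ρ =>
    hH.continuousOn.integrableOn_compact (isCompact_closedBall c ρ)
  rw [hU, setIntegral_sdiff (MeasurableSet.iUnion hmeas)
    ((hint 0 D.R).mono_set ball_subset_closedBall) hsub,
    integral_iUnion_fintype hmeas hdisj fun j => hint _ _]
  congr 1
  refine Finset.sum_congr rfl fun j _ => ?_
  apply setIntegral_congr_set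
  refine (ae_eq_of_subset_of_measure_ge ball_subset_closedBall ?_
    measurableSet_ball.nullMeasurableSet ?_).symm
  · exact (Measure.addHaar_closedBall_eq_addHaar_ball volume (D.a j) (D.r j)).le
  · exact (isCompact_closedBall (D.a j) (D.r j)).measure_lt_top.ne

/-- near points of the closed domain -/
theorem integral_CD_congr {k : ℕ} (D : CD k) {F G : ℂ → Y} (h : ∀ z ∈ D.cU, G =ᶠ[𝓝 z] F) :
    ∫ z in D.U, dz F z = ∫ z in D.U, dz G z ∧ ∫ z in D.U, dzb F z = ∫ z in D.U, dzb G z := by
  constructor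
  · refine setIntegral_congr_fun D.U_open.measurableSet fun z hz => ?_
    exact ((dz_congr (h z (D.U_subset_cU hz))).1).symm
  · refine setIntegral_congr_fun D.U_open.measurableSet fun z hz => ?_
    exact ((dz_congr (h z (D.U_subset_cU hz))).2).symm

theorem dz_continuous {G : ℂ → Y} (hG : ContDiff ℝ 1 G) : Continuous (dz G) ∧ Continuous (dzb G) := by
  have h1 : Continuous (fderiv ℝ G) := hG.continuous_fderiv one_ne_zero
  have h2 : Continuous (fun z => fderiv ℝ G z 1) := h1.clm_apply continuous_const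
  have h3 : Continuous (fun z => fderiv ℝ G z Complex.I) := h1.clm_apply continuous_const
  exact ⟨(h2.sub (h3.const_smul Complex.I)).const_smul (2⁻¹ : ℂ),
    (h2.add (h3.const_smul Complex.I)).const_smul (2⁻¹ : ℂ)⟩

theorem cen_add_mem_circ {k : ℕ} (D : CD k) (l : Option (Fin k)) (θ : ℝ) :
    D.cen l + D.rad l * Complex.exp (θ * Complex.I) ∈ D.circ l := by
  have h1 : 0 < D.rad l := by
    cases l with
    | none => exact D.Rpos
    | some j => exact D.rpos j
  rw [CD.circ, mem_sphere, dist_eq_norm, add_sub_cancel_left, norm_mul,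
    Complex.norm_exp_ofReal_mul_I, mul_one, Complex.norm_real, Real.norm_eq_abs, abs_of_pos h1]

theorem circ_subset_cU {k : ℕ} (D : CD k) (l : Option (Fin k)) : D.circ l ⊆ D.cU :=
  fun z hz => (mem_cU_iff D z).2 (Or.inr ⟨l, hz⟩)

variable [CompleteSpace Y]

omit [CompleteSpace Y] in
/-- KE-A2b (from `green_ball`) -/
theorem green_CD {k : ℕ} (D : CD k) {F : ℂ → Y} {V : Set ℂ} (hV : IsOpen V) (hcV : D.cU ⊆ V)
    (hF : ContDiffOn ℝ 1 F V) :
    (∫ z in D.U, dz F z = (D.R / 2 : ℂ) • (∫ θ in (0 : ℝ)..2 * Real.pi,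
        Complex.exp (-(θ * Complex.I)) • F (D.R * Complex.exp (θ * Complex.I))) -
      ∑ j, (D.r j / 2 : ℂ) • ∫ θ in (0 : ℝ)..2 * Real.pi,
        Complex.exp (-(θ * Complex.I)) • F (D.a j + D.r j * Complex.exp (θ * Complex.I))) ∧
    (∫ z in D.U, dzb F z = (D.R / 2 : ℂ) • (∫ θ in (0 : ℝ)..2 * Real.pi,
        Complex.exp (θ * Complex.I) • F (D.R * Complex.exp (θ * Complex.I))) -
      ∑ j, (D.r j / 2 : ℂ) • ∫ θ in (0 : ℝ)..2 * Real.pi,
        Complex.exp (θ * Complex.I) • F (D.a j + D.r j * Complex.exp (θ * Complex.I))) := by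
  obtain ⟨G, hG, hGF⟩ := exists_ext D.cU_compact.isClosed hV hcV (n := 1) hF
  have hG1 : ContDiff ℝ 1 G := hG
  have h1 := integral_CD_congr D hGF
  have hb : ∀ (c : ℂ) {ρ : ℝ}, 0 < ρ → _ := fun c ρ hρ =>
    green_ball c hρ (F := G) isOpen_univ (subset_univ _) hG1.contDiffOn
  have hval : ∀ z ∈ D.cU, G z = F z := fun z hz => (hGF z hz).self_of_nhds
  have hnone : ∀ θ : ℝ, G (0 + D.R * Complex.exp (θ * Complex.I))
      = F (D.R * Complex.exp (θ * Complex.I)) := by
    intro θ
    have h2 := circ_subset_cU D none (cen_add_mem_circ D none θ)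
    have h3 := hval _ h2
    simp only [CD.cen, CD.rad] at h3
    rw [h3, zero_add]
  have hsome : ∀ (j : Fin k) (θ : ℝ), G (D.a j + D.r j * Complex.exp (θ * Complex.I))
      = F (D.a j + D.r j * Complex.exp (θ * Complex.I)) := fun j θ =>
    hval _ (circ_subset_cU D (some j) (cen_add_mem_circ D (some j) θ))
  obtain ⟨hc1, hc2⟩ := dz_continuous hG1
  constructor
  · rw [h1.1, integral_CD D hc1, (hb 0 D.Rpos).1]
    congr 1
    · simp only [hnone]
    · refine Finset.sum_congr rfl fun j _ => ?_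
      rw [(hb (D.a j) (D.rpos j)).1]
      simp only [hsome]
  · rw [h1.2, integral_CD D hc2, (hb 0 D.Rpos).2]
    congr 1
    · simp only [hnone]
    · refine Finset.sum_congr rfl fun j _ => ?_
      rw [(hb (D.a j) (D.rpos j)).2]
      simp only [hsome]

omit [CompleteSpace Y] in
theorem green_zero {k : ℕ} (D : CD k) {F : ℂ → Y} {V : Set ℂ} (hV : IsOpen V) (hcV : D.cU ⊆ V)
    (hF : ContDiffOn ℝ 1 F V) (h0 : ∀ l, ∀ z ∈ D.circ l, F z = 0) :
    ∫ z in D.U, dz F z = 0 ∧ ∫ z in D.U, dzb F z = 0 := by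
  have h := green_CD D hV hcV hF
  have hnone : ∀ θ : ℝ, F (D.R * Complex.exp (θ * Complex.I)) = 0 := by
    intro θ
    have h2 := h0 none _ (cen_add_mem_circ D none θ)
    simpa only [CD.cen, CD.rad, zero_add] using h2
  have hsome : ∀ (j : Fin k) (θ : ℝ), F (D.a j + D.r j * Complex.exp (θ * Complex.I)) = 0 :=
    fun j θ => h0 (some j) _ (cen_add_mem_circ D (some j) θ)
  simp only [hnone, hsome, smul_zero, intervalIntegral.integral_zero, Finset.sum_const_zero,
    sub_zero] at h
  exact h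

end

end Pool.Agent.Helper7.KE
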