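import Pool.Agent.Helper7.KE.A1
import Pool.Agent.Helper7.KE.A5a

set_option autoImplicit false

open MeasureTheory Set Filter Asymptotics Topology Metric
open scoped ComplexConjugate ENNReal

namespace Pool.Agent.Helper7.KE

namespace OZ

variable {k : ℕ} (D : CD k)

/-- defining functions of the boundary circles -/
noncomputable def b : Option (Fin k) → ℂ → ℝ
  | none => fun z => D.R ^ 2 - ‖z‖ ^ 2
  | some j => fun z => ‖z - D.a j‖ ^ 2 - D.r j ^ 2

theorem b_contDiff (l : Option (Fin k)) : ContDiff ℝ (⊤ : ℕ∞) (b D l) := by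
  cases l with
  | none => exact contDiff_const.sub (contDiff_norm_sq ℝ)
  | some j => exact ((contDiff_norm_sq ℝ).comp (contDiff_id.sub contDiff_const)).sub contDiff_const

theorem b_continuous (l : Option (Fin k)) : Continuous (b D l) := (b_contDiff D l).continuous

theorem mem_U_iff (z : ℂ) : z ∈ D.U ↔ ∀ l, 0 < b D l z := by
  have hR := D.Rpos
  constructor
  · rintro ⟨h1, h2⟩ l
    cases l with
    | none =>
      have := norm_nonneg z
      simp only [b]
      nlinarith
    | some j =>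
      have := h2 j
      have := D.rpos j
      simp only [b]
      nlinarith
  · intro h
    refine ⟨?_, fun j => ?_⟩
    · have := h none
      simp only [b] at this
      have h0 := norm_nonneg z
      nlinarith
    · have := h (some j)
      simp only [b] at this
      have h0 := norm_nonneg (z - D.a j)
      have := D.rpos j
      nlinarith

theorem mem_cU_of (z : ℂ) (h : ∀ l, 0 ≤ b D l z) : z ∈ D.cU := by
  have hR := D.Rpos
  refine ⟨?_, fun j => ?_⟩
  · have := h none
    simp only [b] at this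
    have h0 := norm_nonneg z
    nlinarith
  · have := h (some j)
    simp only [b] at this
    have h0 := norm_nonneg (z - D.a j)
    have := D.rpos j
    nlinarith

theorem rad_pos (l : Option (Fin k)) : 0 < D.rad l := by
  cases l with
  | none => exact D.Rpos
  | some j => exact D.rpos j

theorem exists_proj (z c : ℂ) {r : ℝ} (hr : 0 ≤ r) :
    ∃ p, ‖p - c‖ = r ∧ ‖z - p‖ = |‖z - c‖ - r| := by
  by_cases h : z = c
  · refine ⟨c + r, ?_, ?_⟩
    · simp [abs_of_nonneg hr]
    · subst h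
      simp
  · have h0 : 0 < ‖z - c‖ := norm_pos_iff.2 (sub_ne_zero.2 h)
    refine ⟨c + ((r / ‖z - c‖ : ℝ) : ℂ) * (z - c), ?_, ?_⟩
    · rw [add_sub_cancel_left, norm_mul, Complex.norm_real, Real.norm_eq_abs,
        abs_of_nonneg (by positivity)]
      field_simp
    · have : z - (c + ((r / ‖z - c‖ : ℝ) : ℂ) * (z - c)) =
          ((1 - r / ‖z - c‖ : ℝ) : ℂ) * (z - c) := by
        push_cast; ring
      rw [this, norm_mul, Complex.norm_real, Real.norm_eq_abs]
      have e : (1 - r / ‖z - c‖) * ‖z - c‖ = ‖z - c‖ - r := by field_simp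
      rw [← e, abs_mul, abs_norm]

theorem dist_circ (l : Option (Fin k)) {z : ℂ} (hz : z ∈ D.U) :
    ∃ p ∈ D.circ l, ‖z - p‖ ≤ b D l z / D.rad l := by
  obtain ⟨p, hp1, hp2⟩ := exists_proj z (D.cen l) (rad_pos D l).le
  refine ⟨p, by simp [CD.circ, hp1], ?_⟩
  rw [hp2, le_div_iff₀ (rad_pos D l)]
  have hz' := (mem_U_iff D z).1 hz l
  cases l with
  | none =>
    simp only [CD.cen, CD.rad, b, sub_zero] at *
    have h1 := hz.1
    have h0 := norm_nonneg z
    rw [abs_of_nonpos (by linarith)]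
    nlinarith
  | some j =>
    simp only [CD.cen, CD.rad, b] at *
    have h1 := hz.2 j
    have h0 := D.rpos j
    rw [abs_of_pos (by linarith)]
    nlinarith

/-- the one variable cutoff -/
noncomputable def s (x : ℝ) : ℝ := Real.smoothTransition (x - 1)

theorem s_contDiff : ContDiff ℝ (⊤ : ℕ∞) s :=
  Real.smoothTransition.contDiff.comp (contDiff_id.sub contDiff_const)

theorem s_zero {x : ℝ} (h : x ≤ 1) : s x = 0 :=
  Real.smoothTransition.zero_of_nonpos (by linarith)

theorem s_one {x : ℝ} (h : 2 ≤ x) : s x = 1 :=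
  Real.smoothTransition.one_of_one_le (by linarith)

theorem s_nonneg (x : ℝ) : 0 ≤ s x := Real.smoothTransition.nonneg _

theorem s_le_one (x : ℝ) : s x ≤ 1 := Real.smoothTransition.le_one _

theorem s_deriv_bound : ∃ C : ℝ, 0 ≤ C ∧ ∀ x, |x| * |deriv s x| ≤ C := by
  have hc : Continuous fun x => x * deriv s x :=
    continuous_id.mul (s_contDiff.continuous_deriv (by simp))
  obtain ⟨C, hC⟩ := (isCompact_Icc (a := (1 : ℝ)) (b := 2)).exists_bound_of_continuousOn
    hc.continuousOn
  refine ⟨max C 0, le_max_right _ _, fun x => ?_⟩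
  by_cases hx : x ∈ Icc (1 : ℝ) 2
  · have := hC x hx
    rw [Real.norm_eq_abs, abs_mul] at this
    exact this.trans (le_max_left _ _)
  · have : deriv s x = 0 := by
      rw [mem_Icc, not_and_or, not_le, not_le] at hx
      rcases hx with hx | hx
      · have : s =ᶠ[𝓝 x] fun _ => 0 := by
          filter_upwards [gt_mem_nhds hx] with y hy
          exact s_zero hy.le
        rw [this.deriv_eq]; simp
      · have : s =ᶠ[𝓝 x] fun _ => 1 := by
          filter_upwards [lt_mem_nhds hx] with y hy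
          exact s_one hy.le
        rw [this.deriv_eq]; simp
    rw [this]
    simp

/-- the cutoff -/
noncomputable def eta (ε : ℝ) (z : ℂ) : ℝ := ∏ l, s (b D l z / ε)

theorem eta_contDiff (ε : ℝ) : ContDiff ℝ (⊤ : ℕ∞) (eta D ε) := by
  have : eta D ε = fun z => ∏ l, s (b D l z / ε) := rfl
  rw [this]
  exact contDiff_prod fun l _ => s_contDiff.comp ((b_contDiff D l).div_const ε)

theorem eta_mem (ε : ℝ) (z : ℂ) : 0 ≤ eta D ε z ∧ eta D ε z ≤ 1 :=
  ⟨Finset.prod_nonneg fun _ _ => s_nonneg _,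
    Finset.prod_le_one (fun _ _ => s_nonneg _) fun _ _ => s_le_one _⟩

theorem eta_zero {ε : ℝ} (hε : 0 < ε) {z : ℂ} (h : ¬ ∀ l, ε < b D l z) : eta D ε z = 0 := by
  push Not at h
  obtain ⟨l, hl⟩ := h
  exact Finset.prod_eq_zero (Finset.mem_univ l) (s_zero (by rw [div_le_one hε]; exact hl))

theorem eta_one {ε : ℝ} (hε : 0 < ε) {z : ℂ} (h : ∀ l, 2 * ε ≤ b D l z) : eta D ε z = 1 :=
  Finset.prod_eq_one fun l _ => s_one (by rw [le_div_iff₀ hε]; exact h l)

theorem eta_fderiv (ε : ℝ) (z : ℂ) :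
    ‖fderiv ℝ (eta D ε) z‖ ≤ ∑ l, |deriv s (b D l z / ε)| * (‖fderiv ℝ (b D l) z‖ / |ε|) := by
  have hb : ∀ l, HasFDerivAt (fun z => s (b D l z / ε))
      ((deriv s (b D l z / ε)) • (ε⁻¹ • fderiv ℝ (b D l) z)) z := by
    intro l
    have h1 : HasDerivAt s (deriv s (b D l z / ε)) (b D l z / ε) :=
      (s_contDiff.differentiable (by simp)).differentiableAt.hasDerivAt
    have h2 : HasFDerivAt (fun z => b D l z / ε) (ε⁻¹ • fderiv ℝ (b D l) z) z := by
      have h3 : HasFDerivAt (b D l) (fderiv ℝ (b D l) z) z :=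
        ((b_contDiff D l).differentiable (by simp)).differentiableAt.hasFDerivAt
      have h4 := h3.const_smul ε⁻¹
      refine h4.congr_of_eventuallyEq (Eventually.of_forall fun w => ?_)
      simp [div_eq_inv_mul]
    exact HasDerivAt.comp_hasFDerivAt (h₂ := s) z h1 h2
  have h := HasFDerivAt.finsetProd (u := Finset.univ) (fun l _ => hb l)
  have h' : fderiv ℝ (eta D ε) z = _ := h.fderiv
  rw [h']
  refine (norm_sum_le _ _).trans (Finset.sum_le_sum fun l _ => ?_)
  rw [norm_smul, norm_smul, norm_smul, Real.norm_eq_abs, Real.norm_eq_abs, norm_inv,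
    Real.norm_eq_abs]
  have h1 : |∏ j ∈ Finset.univ.erase l, s (b D j z / ε)| ≤ 1 := by
    rw [abs_of_nonneg (Finset.prod_nonneg fun _ _ => s_nonneg _)]
    exact Finset.prod_le_one (fun _ _ => s_nonneg _) fun _ _ => s_le_one _
  calc |∏ j ∈ Finset.univ.erase l, s (b D j z / ε)| *
        (|deriv s (b D l z / ε)| * (|ε|⁻¹ * ‖fderiv ℝ (b D l) z‖))
      ≤ 1 * (|deriv s (b D l z / ε)| * (|ε|⁻¹ * ‖fderiv ℝ (b D l) z‖)) :=
        mul_le_mul_of_nonneg_right h1 (by positivity)
    _ = |deriv s (b D l z / ε)| * (‖fderiv ℝ (b D l) z‖ / |ε|) := by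
        rw [one_mul, div_eq_inv_mul (‖fderiv ℝ (b D l) z‖) |ε|]

theorem norm_dzb_le {F : ℂ → ℂ} {z : ℂ} : ‖dzb F z‖ ≤ ‖fderiv ℝ F z‖ := by
  unfold dzb
  rw [norm_smul]
  have h1 : ‖fderiv ℝ F z 1‖ ≤ ‖fderiv ℝ F z‖ := by
    have := (fderiv ℝ F z).le_opNorm 1
    simpa using this
  have h2 : ‖Complex.I • fderiv ℝ F z Complex.I‖ ≤ ‖fderiv ℝ F z‖ := by
    have := (fderiv ℝ F z).le_opNorm Complex.I
    rw [norm_smul]
    simpa using this
  have h3 := norm_add_le (fderiv ℝ F z 1) (Complex.I • fderiv ℝ F z Complex.I)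
  have h4 : ‖(2⁻¹ : ℂ)‖ = 2⁻¹ := by simp
  rw [h4]
  linarith

/-- the set where all defining functions are at least `ε` -/
theorem compact_K (ε : ℝ) (hε : 0 < ε) : IsCompact {z | ∀ l, ε ≤ b D l z} := by
  refine D.cU_compact.of_isClosed_subset ?_ fun z hz => mem_cU_of D z fun l => hε.le.trans (hz l)
  have : {z | ∀ l, ε ≤ b D l z} = ⋂ l, {z | ε ≤ b D l z} := by
    ext z; simp
  rw [this]
  exact isClosed_iInter fun l => isClosed_le continuous_const (b_continuous D l)

variable {D}

/-- the cut off function integrates to zero -/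
theorem integral_eta {σ : ℂ → ℂ} {V : Set ℂ} (hV : IsOpen V) (hcV : D.cU ⊆ V)
    (hσ : ContDiffOn ℝ 1 σ V) {g : ℂ → ℂ} (hg : D.Hol2 g) {ε : ℝ} (hε : 0 < ε) :
    ∫ z in D.U, g z * dzb (fun w => (eta D ε w : ℂ) * σ w) z = 0 := by
  set F : ℂ → ℂ := D.U.indicator (fun w => g w * ((eta D ε w : ℂ) * σ w)) with hF
  have hzero : ∀ z, (¬ ∀ l, ε ≤ b D l z) → F =ᶠ[𝓝 z] fun _ => 0 := by
    intro z hz
    have : {z | ∀ l, ε ≤ b D l z}ᶜ ∈ 𝓝 z := (compact_K D ε hε).isClosed.isOpen_compl.mem_nhds hz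
    filter_upwards [this] with w hw
    by_cases hwU : w ∈ D.U
    · rw [hF, indicator_of_mem hwU, eta_zero D hε (fun h => hw fun l => (h l).le)]
      simp
    · rw [hF, indicator_of_notMem hwU]
  have hin : ∀ z ∈ D.U, F =ᶠ[𝓝 z] fun w => g w * ((eta D ε w : ℂ) * σ w) := by
    intro z hz
    filter_upwards [D.U_open.mem_nhds hz] with w hw
    rw [hF, indicator_of_mem hw]
  have hσat : ∀ z ∈ D.U, ContDiffAt ℝ 1 σ z := fun z hz =>
    hσ.contDiffAt (hV.mem_nhds (hcV (D.U_subset_cU hz)))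
  have heta : ContDiff ℝ 1 fun w => (eta D ε w : ℂ) :=
    (Complex.ofRealCLM.contDiff.comp (eta_contDiff D ε)).of_le (by norm_cast)
  have hgat : ∀ z ∈ D.U, ContDiffAt ℝ 1 g z := fun z hz =>
    ((hol_contDiffOn D.U_open hg.diff).contDiffAt (D.U_open.mem_nhds hz)).of_le
      (by norm_cast)
  have hnot : ∀ z, z ∉ D.U → ¬ ∀ l, ε ≤ b D l z := by
    intro z hz h
    exact hz ((mem_U_iff D z).2 fun l => hε.trans_le (h l))
  have hFc : ContDiff ℝ 1 F := by
    rw [contDiff_iff_contDiffAt]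
    intro z
    by_cases hz : z ∈ D.U
    · exact ((hgat z hz).mul (heta.contDiffAt.mul (hσat z hz))).congr_of_eventuallyEq (hin z hz)
    · exact contDiffAt_const.congr_of_eventuallyEq (hzero z (hnot z hz))
  have hFs : HasCompactSupport F := by
    refine HasCompactSupport.intro (compact_K D ε hε) fun z hz => ?_
    exact (hzero z hz).self_of_nhds
  have h0 := (integral_dz_test hFc hFs).2
  rw [← h0, ← integral_indicator D.U_open.measurableSet]
  congr 1
  funext z
  by_cases hz : z ∈ D.U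
  · rw [indicator_of_mem hz, (dz_congr (hin z hz)).2]
    have h1 : DifferentiableAt ℂ g z := hg.diff.differentiableAt (D.U_open.mem_nhds hz)
    have h2 := (dz_smul (Y := ℂ) (f := g) (F := fun w => (eta D ε w : ℂ) * σ w) (z := z)
      (h1.restrictScalars ℝ)
      ((heta.differentiable (by simp)).differentiableAt.mul
        ((hσat z hz).differentiableAt (by simp)))).2
    simp only [smul_eq_mul] at h2
    rw [h2, (dz_hol h1).2, zero_mul, zero_add]
  · rw [indicator_of_notMem hz, (dz_congr (hzero z (hnot z hz))).2, dz_const.2]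

theorem fderiv_bound {σ : ℂ → ℂ} {V : Set ℂ} (hV : IsOpen V) (hcV : D.cU ⊆ V)
    (hσ : ContDiffOn ℝ 1 σ V) : ∃ C : ℝ, 0 ≤ C ∧ ∀ z ∈ D.U, ‖fderiv ℝ σ z‖ ≤ C := by
  have hc : ContinuousOn (fun z => fderiv ℝ σ z) D.cU :=
    (hσ.continuousOn_fderiv_of_isOpen hV (by simp)).mono hcV
  obtain ⟨C, hC⟩ := D.cU_compact.exists_bound_of_continuousOn hc
  exact ⟨max C 0, le_max_right _ _, fun z hz => (hC z (D.U_subset_cU hz)).trans (le_max_left _ _)⟩

/-- `σ` is bounded by the defining functions -/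
theorem sigma_bound {σ : ℂ → ℂ} {V : Set ℂ} (hV : IsOpen V) (hcV : D.cU ⊆ V)
    (hσ : ContDiffOn ℝ 1 σ V) (h0 : ∀ l, ∀ z ∈ D.circ l, σ z = 0) :
    ∃ L : ℝ, 0 ≤ L ∧ ∀ z ∈ D.U, ∀ l, ‖σ z‖ ≤ L / D.rad l * b D l z := by
  obtain ⟨δ, hδ, hδV⟩ := D.cU_compact.exists_cthickening_subset_open hV hcV
  have hK : IsCompact (cthickening δ D.cU) := D.cU_compact.cthickening
  have hc : ContinuousOn (fun z => fderiv ℝ σ z) (cthickening δ D.cU) :=
    (hσ.continuousOn_fderiv_of_isOpen hV (by simp)).mono hδV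
  obtain ⟨C, hC⟩ := hK.exists_bound_of_continuousOn hc
  obtain ⟨M, hM⟩ := D.cU_compact.exists_bound_of_continuousOn (hσ.continuousOn.mono hcV)
  set L : ℝ := max (max C (M / δ)) 0 with hL
  have hL0 : 0 ≤ L := le_max_right _ _
  have hLC : C ≤ L := (le_max_left _ _).trans (le_max_left _ _)
  have hLM : M / δ ≤ L := (le_max_right _ _).trans (le_max_left _ _)
  refine ⟨L, hL0, fun z hz l => ?_⟩
  obtain ⟨p, hp, hzp⟩ := dist_circ D l hz
  have hpc : p ∈ D.cU := (mem_cU_iff D p).2 (Or.inr ⟨l, hp⟩)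
  have key : ‖σ z‖ ≤ L * ‖z - p‖ := by
    by_cases hd : ‖z - p‖ ≤ δ
    · have hball : closedBall p δ ⊆ cthickening δ D.cU :=
        closedBall_subset_cthickening hpc δ
      have hdiff : ∀ x ∈ closedBall p δ, DifferentiableAt ℝ σ x := fun x hx =>
        (hσ.differentiableOn (by simp)).differentiableAt (hV.mem_nhds (hδV (hball hx)))
      have h1 := (convex_closedBall p δ).norm_image_sub_le_of_norm_fderiv_le (𝕜 := ℝ)
        (f := σ) (C := L) hdiff (fun x hx => (hC x (hball hx)).trans hLC)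
        (mem_closedBall_self hδ.le) (mem_closedBall_iff_norm.2 hd)
      rw [h0 l p hp, sub_zero] at h1
      exact h1
    · push Not at hd
      have h1 := hM z (D.U_subset_cU hz)
      have h2 : M ≤ L * δ := by rwa [div_le_iff₀ hδ] at hLM
      nlinarith
  calc ‖σ z‖ ≤ L * ‖z - p‖ := key
    _ ≤ L * (b D l z / D.rad l) := mul_le_mul_of_nonneg_left hzp hL0
    _ = L / D.rad l * b D l z := by ring

end OZ

open OZ in
theorem orth_zero {k : ℕ} (D : CD k) {σ : ℂ → ℂ} {V : Set ℂ} (hV : IsOpen V) (hcV : D.cU ⊆ V)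
    (hσ : ContDiffOn ℝ 1 σ V) (h0 : ∀ l, ∀ z ∈ D.circ l, σ z = 0) {g : ℂ → ℂ} (hg : D.Hol2 g) :
    ∫ z in D.U, g z * dzb σ z = 0 := by
  obtain ⟨C, hC0, hC⟩ := fderiv_bound hV hcV hσ
  obtain ⟨L, hL0, hL⟩ := sigma_bound hV hcV hσ h0
  obtain ⟨c, hc0, hc⟩ := s_deriv_bound
  have hB : ∀ l, ∃ B : ℝ, 0 ≤ B ∧ ∀ z ∈ D.U, ‖fderiv ℝ (b D l) z‖ ≤ B := by
    intro l
    have hcont : Continuous fun z => fderiv ℝ (b D l) z :=
      (b_contDiff D l).continuous_fderiv (by simp)
    obtain ⟨B, hB⟩ := D.cU_compact.exists_bound_of_continuousOn hcont.continuousOn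
    exact ⟨max B 0, le_max_right _ _, fun z hz =>
      (hB z (D.U_subset_cU hz)).trans (le_max_left _ _)⟩
  choose B hB0 hB using hB
  set K : ℝ := C + ∑ l, L / D.rad l * c * B l with hK
  have hσat : ∀ z ∈ D.U, ContDiffAt ℝ 1 σ z := fun z hz =>
    hσ.contDiffAt (hV.mem_nhds (hcV (D.U_subset_cU hz)))
  have heta : ∀ ε, ContDiff ℝ 1 fun w => (eta D ε w : ℂ) := fun ε =>
    (Complex.ofRealCLM.contDiff.comp (eta_contDiff D ε)).of_le (by norm_cast)
  -- the uniform bound
  have hbound : ∀ ε, 0 < ε → ∀ z ∈ D.U,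
      ‖dzb (fun w => (eta D ε w : ℂ) * σ w) z‖ ≤ K := by
    intro ε hε z hz
    have hd1 : DifferentiableAt ℝ (fun w => (eta D ε w : ℂ)) z :=
      ((heta ε).differentiable (by simp)).differentiableAt
    have h1 := (dz_smul (Y := ℂ) (f := fun w => (eta D ε w : ℂ)) (F := σ) (z := z) hd1
      ((hσat z hz).differentiableAt (by simp))).2
    simp only [smul_eq_mul] at h1
    rw [h1]
    have h2 : ‖(eta D ε z : ℂ) * dzb σ z‖ ≤ C := by
      rw [norm_mul, Complex.norm_real, Real.norm_eq_abs, abs_of_nonneg (eta_mem D ε z).1]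
      calc eta D ε z * ‖dzb σ z‖ ≤ 1 * ‖dzb σ z‖ :=
            mul_le_mul_of_nonneg_right (eta_mem D ε z).2 (norm_nonneg _)
        _ ≤ C := by rw [one_mul]; exact norm_dzb_le.trans (hC z hz)
    have h3 : ‖dzb (fun w => (eta D ε w : ℂ)) z‖ ≤ ‖fderiv ℝ (eta D ε) z‖ := by
      refine norm_dzb_le.trans ?_
      have hd : HasFDerivAt (eta D ε) (fderiv ℝ (eta D ε) z) z :=
        ((eta_contDiff D ε).differentiable (by simp)).differentiableAt.hasFDerivAt
      have hd2 : HasFDerivAt (fun w => (eta D ε w : ℂ))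
          (Complex.ofRealCLM.comp (fderiv ℝ (eta D ε) z)) z :=
        Complex.ofRealCLM.hasFDerivAt.comp z hd
      rw [hd2.fderiv]
      refine ContinuousLinearMap.opNorm_le_bound _ (norm_nonneg _) fun x => ?_
      simp only [ContinuousLinearMap.comp_apply, Complex.ofRealCLM_apply, Complex.norm_real]
      exact (fderiv ℝ (eta D ε) z).le_opNorm x
    have h4 : ‖dzb (fun w => (eta D ε w : ℂ)) z * σ z‖ ≤ ∑ l, L / D.rad l * c * B l := by
      rw [norm_mul]
      calc ‖dzb (fun w => (eta D ε w : ℂ)) z‖ * ‖σ z‖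
          ≤ (∑ l, |deriv s (b D l z / ε)| * (‖fderiv ℝ (b D l) z‖ / |ε|)) * ‖σ z‖ :=
            mul_le_mul_of_nonneg_right (h3.trans (eta_fderiv D ε z)) (norm_nonneg _)
        _ = ∑ l, |deriv s (b D l z / ε)| * (‖fderiv ℝ (b D l) z‖ / |ε|) * ‖σ z‖ := by
            rw [Finset.sum_mul]
        _ ≤ ∑ l, L / D.rad l * c * B l := by
            refine Finset.sum_le_sum fun l _ => ?_
            have hb : 0 < b D l z := (mem_U_iff D z).1 hz l
            have hr := rad_pos D l
            have e1 := hL z hz l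
            have e2 := hc (b D l z / ε)
            rw [abs_of_pos (div_pos hb hε)] at e2
            have e3 := hB l z hz
            rw [abs_of_pos hε]
            calc |deriv s (b D l z / ε)| * (‖fderiv ℝ (b D l) z‖ / ε) * ‖σ z‖
                ≤ |deriv s (b D l z / ε)| * (B l / ε) * (L / D.rad l * b D l z) := by
                  have := hB0 l
                  gcongr
              _ = (L / D.rad l) * (b D l z / ε * |deriv s (b D l z / ε)|) * B l := by
                  ring
              _ ≤ L / D.rad l * c * B l := by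
                  have := hB0 l
                  gcongr
    calc ‖dzb (fun w => (eta D ε w : ℂ)) z * σ z + (eta D ε z : ℂ) * dzb σ z‖
        ≤ _ := norm_add_le _ _
      _ ≤ K := by rw [hK]; linarith
  -- the limit
  have hgc : ContinuousOn g D.U := hg.diff.continuousOn
  have hgi : IntegrableOn g D.U := hg.memLp.integrable (by norm_num)
  have hlim : Tendsto (fun n : ℕ => ∫ z in D.U, g z *
      dzb (fun w => (eta D (1 / ((n : ℝ) + 1)) w : ℂ) * σ w) z) atTop
      (𝓝 (∫ z in D.U, g z * dzb σ z)) := by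
    refine tendsto_integral_of_dominated_convergence (fun z => ‖g z‖ * K) ?_ ?_ ?_ ?_
    · intro n
      refine ContinuousOn.aestronglyMeasurable ?_ D.U_open.measurableSet
      refine hgc.mul ?_
      have hcd : ContDiffOn ℝ 1 (fun w => (eta D (1 / ((n : ℝ) + 1)) w : ℂ) * σ w) D.U :=
        (heta _).contDiffOn.mul (hσ.mono (D.U_subset_cU.trans hcV))
      have hf := hcd.continuousOn_fderiv_of_isOpen D.U_open (by simp)
      unfold dzb
      have hf1 : ContinuousOn (fun z => fderiv ℝ (fun w => (eta D (1 / ((n : ℝ) + 1)) w : ℂ) * σ w)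
        z 1) D.U := hf.clm_apply continuousOn_const
      have hf2 : ContinuousOn (fun z => fderiv ℝ (fun w => (eta D (1 / ((n : ℝ) + 1)) w : ℂ) * σ w)
        z Complex.I) D.U := hf.clm_apply continuousOn_const
      exact ContinuousOn.const_smul (ContinuousOn.add hf1 (hf2.const_smul Complex.I)) (2⁻¹ : ℂ)
    · exact hgi.norm.mul_const K
    · intro n
      filter_upwards [ae_restrict_mem D.U_open.measurableSet] with z hz
      rw [norm_mul]
      exact mul_le_mul_of_nonneg_left (hbound _ (by positivity) z hz) (norm_nonneg _)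
    · filter_upwards [ae_restrict_mem D.U_open.measurableSet] with z hz
      refine tendsto_const_nhds.congr' ?_
      have hb := (mem_U_iff D z).1 hz
      have hev : ∀ l, ∀ᶠ n : ℕ in atTop, 2 * (1 / ((n : ℝ) + 1)) < b D l z := by
        intro l
        have : Tendsto (fun n : ℕ => 2 * (1 / ((n : ℝ) + 1))) atTop (𝓝 (2 * 0)) :=
          tendsto_one_div_add_atTop_nhds_zero_nat.const_mul 2
        rw [mul_zero] at this
        exact this.eventually_lt_const (hb l)
      filter_upwards [eventually_all.2 hev] with n hn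
      have hcg : (fun w => (eta D (1 / ((n : ℝ) + 1)) w : ℂ) * σ w) =ᶠ[𝓝 z] σ := by
        have : ∀ l, ∀ᶠ w in 𝓝 z, 2 * (1 / ((n : ℝ) + 1)) < b D l w := fun l =>
          (b_continuous D l).continuousAt.eventually_const_lt (hn l)
        filter_upwards [eventually_all.2 this] with w hw
        rw [eta_one D (by positivity) fun l => (hw l).le]
        simp
      rw [(dz_congr hcg).2]
  have hzero : ∀ n : ℕ, ∫ z in D.U, g z *
      dzb (fun w => (eta D (1 / ((n : ℝ) + 1)) w : ℂ) * σ w) z = 0 := fun n =>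
    integral_eta hV hcV hσ hg (by positivity)
  simp only [hzero] at hlim
  exact (tendsto_nhds_unique hlim tendsto_const_nhds)

end Pool.Agent.Helper7.KE
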