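import Pool.Agent.Helper7.KE.A2b

set_option autoImplicit false

open MeasureTheory Set Filter Asymptotics Topology Metric
open scoped ComplexConjugate ENNReal

namespace Pool.Agent.Helper7.KE

/-- a fixed smooth cutoff -/
theorem exists_cut : ∃ K : ℂ → ℂ, ContDiff ℝ (⊤ : ℕ∞) K ∧ (∀ z, ‖z‖ ≤ 1 → K z = 1) ∧
    (∀ z, 2 ≤ ‖z‖ → K z = 0) ∧ (∀ z, ‖K z‖ ≤ 1) ∧ ∃ B : ℝ, 0 ≤ B ∧ ∀ z, ‖fderiv ℝ K z‖ ≤ B := by
  let f : ContDiffBump (0 : ℂ) := ⟨1, 2, one_pos, one_lt_two⟩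
  have hcd : ContDiff ℝ (⊤ : ℕ∞) (fun z => ((f z : ℝ) : ℂ)) :=
    Complex.ofRealCLM.contDiff.comp f.contDiff
  have hcs : HasCompactSupport (fun z => ((f z : ℝ) : ℂ)) :=
    f.hasCompactSupport.comp_left (g := fun x : ℝ => (x : ℂ)) Complex.ofReal_zero
  refine ⟨fun z => ((f z : ℝ) : ℂ), hcd, ?_, ?_, ?_, ?_⟩
  · intro z hz
    have : f z = 1 := f.one_of_mem_closedBall (by simpa using hz)
    simp [this]
  · intro z hz
    have : f z = 0 := f.zero_of_le_dist (by simpa using hz)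
    simp [this]
  · intro z
    rw [Complex.norm_real, Real.norm_eq_abs, abs_of_nonneg f.nonneg]
    exact f.le_one
  · have h1 : Continuous (fderiv ℝ (fun z => ((f z : ℝ) : ℂ))) :=
      hcd.continuous_fderiv (by simp)
    obtain ⟨C, hC⟩ := (hcs.fderiv (𝕜 := ℝ)).exists_bound_of_continuous h1
    exact ⟨max C 0, le_max_right _ _, fun z => (hC z).trans (le_max_left _ _)⟩

theorem green_sing_aux {k : ℕ} (D : CD k) {F : ℂ → ℂ} {V : Set ℂ} (hV : IsOpen V) (hcV : D.cU ⊆ V)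
    {Z : Set ℂ} (hZ : Z.Finite) (hF : ContDiffOn ℝ 1 F (V \ Z))
    (h0 : ∀ l, ∀ z ∈ D.circ l, z ∉ Z → F z = 0)
    (hb : ∀ p ∈ Z, ∃ C : ℝ, ∀ᶠ z in 𝓝 p, ‖F z‖ ≤ C * ‖z - p‖)
    (Dop : (ℂ → ℂ) → ℂ → ℂ)
    (_P1 : ∀ (F G : ℂ → ℂ) (z : ℂ), F =ᶠ[𝓝 z] G → Dop F z = Dop G z)
    (P2 : ∀ (f F : ℂ → ℂ) (z : ℂ), DifferentiableAt ℝ f z → DifferentiableAt ℝ F z →
      Dop (fun w => f w * F w) z = Dop f z * F z + f z * Dop F z)
    (P3 : ∀ (f : ℂ → ℂ) (z : ℂ), ‖Dop f z‖ ≤ ‖fderiv ℝ f z‖)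
    (P4 : ∀ (G : ℂ → ℂ), ContDiffOn ℝ 1 G V → ContinuousOn (Dop G) V)
    (P5 : ∀ (G : ℂ → ℂ), ContDiffOn ℝ 1 G V → (∀ l, ∀ z ∈ D.circ l, G z = 0) →
      ∫ z in D.U, Dop G z = 0)
    (hint : IntegrableOn (Dop F) D.U) : ∫ z in D.U, Dop F z = 0 := by
  classical
  obtain ⟨K, hKs, hK1, hK2, hKn, B, hB0, hB⟩ := exists_cut
  choose! C hC using hb
  have hZm : volume Z = 0 := hZ.measure_zero _
  have hVZ : IsOpen (V \ Z) := hV.sdiff hZ.isClosed
  -- the cutoffs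
  let κ : ℝ → ℂ → ℂ → ℂ := fun ε p z => K ((ε : ℂ)⁻¹ * (z - p))
  let η : ℝ → ℂ → ℂ := fun ε z => 1 - ∑ p ∈ hZ.toFinset, κ ε p z
  have hκs : ∀ ε p, ContDiff ℝ (⊤ : ℕ∞) (κ ε p) := fun ε p =>
    hKs.comp (contDiff_const.mul (contDiff_id.sub contDiff_const))
  have hηs : ∀ ε, ContDiff ℝ (⊤ : ℕ∞) (η ε) := fun ε =>
    contDiff_const.sub (ContDiff.sum fun p _ => hκs ε p)
  have hscale : ∀ {ε : ℝ}, 0 < ε → ∀ p z : ℂ, ‖(ε : ℂ)⁻¹ * (z - p)‖ = ‖z - p‖ / ε := by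
    intro ε hε p z
    rw [norm_mul, norm_inv, Complex.norm_real, Real.norm_eq_abs, abs_of_pos hε]
    field_simp
  have hκ1 : ∀ {ε : ℝ}, 0 < ε → ∀ p z : ℂ, ‖z - p‖ ≤ ε → κ ε p z = 1 := by
    intro ε hε p z h
    refine hK1 _ ?_
    rw [hscale hε, div_le_one hε]
    exact h
  have hκ2 : ∀ {ε : ℝ}, 0 < ε → ∀ p z : ℂ, 2 * ε ≤ ‖z - p‖ → κ ε p z = 0 := by
    intro ε hε p z h
    refine hK2 _ ?_
    rw [hscale hε, le_div_iff₀ hε]
    exact h
  have hηn : ∀ ε z, ‖η ε z‖ ≤ 1 + hZ.toFinset.card := by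
    intro ε z
    calc ‖η ε z‖ ≤ ‖(1 : ℂ)‖ + ‖∑ p ∈ hZ.toFinset, κ ε p z‖ := norm_sub_le _ _
      _ ≤ 1 + ∑ p ∈ hZ.toFinset, ‖κ ε p z‖ := by
        rw [norm_one]
        gcongr
        exact norm_sum_le _ _
      _ ≤ 1 + ∑ p ∈ hZ.toFinset, (1 : ℝ) := by
        gcongr with p hp
        exact hKn _
      _ = 1 + hZ.toFinset.card := by simp
  have hκd : ∀ {ε : ℝ}, 0 < ε → ∀ p z : ℂ, ‖fderiv ℝ (κ ε p) z‖ ≤ B / ε := by
    intro ε hε p z
    have h1 : HasFDerivAt (fun z : ℂ => (ε : ℂ)⁻¹ * (z - p))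
        ((ε : ℂ)⁻¹ • (ContinuousLinearMap.id ℝ ℂ)) z :=
      ((hasFDerivAt_id z).sub_const p).const_mul _
    have h2 : HasFDerivAt K (fderiv ℝ K ((ε : ℂ)⁻¹ * (z - p))) ((ε : ℂ)⁻¹ * (z - p)) :=
      (hKs.differentiable (by simp) _).hasFDerivAt
    have h3 := (h2.comp z h1).fderiv
    have h4 : fderiv ℝ (κ ε p) z = (fderiv ℝ K ((ε : ℂ)⁻¹ * (z - p))).comp
        ((ε : ℂ)⁻¹ • (ContinuousLinearMap.id ℝ ℂ)) := h3
    rw [h4]
    refine (ContinuousLinearMap.opNorm_comp_le _ _).trans ?_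
    rw [norm_smul, norm_inv, Complex.norm_real, Real.norm_eq_abs, abs_of_pos hε]
    have h5 : ‖ContinuousLinearMap.id ℝ ℂ‖ ≤ 1 := ContinuousLinearMap.norm_id_le
    have h6 := hB ((ε : ℂ)⁻¹ * (z - p))
    calc ‖fderiv ℝ K ((ε : ℂ)⁻¹ * (z - p))‖ * (ε⁻¹ * ‖ContinuousLinearMap.id ℝ ℂ‖)
        ≤ B * (ε⁻¹ * 1) := by gcongr
      _ = B / ε := by rw [mul_one, div_eq_mul_inv]
  have hκd0 : ∀ {ε : ℝ}, 0 < ε → ∀ p z : ℂ, 2 * ε < ‖z - p‖ → fderiv ℝ (κ ε p) z = 0 := by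
    intro ε hε p z h
    have h1 : κ ε p =ᶠ[𝓝 z] fun _ => (0 : ℂ) := by
      have h2 : ∀ᶠ w in 𝓝 z, 2 * ε < ‖w - p‖ := by
        have : Continuous fun w : ℂ => ‖w - p‖ := by fun_prop
        exact this.continuousAt.eventually (lt_mem_nhds h)
      filter_upwards [h2] with w hw
      exact hκ2 hε p w hw.le
    rw [h1.fderiv_eq]
    simp
  have hηd : ∀ ε z, fderiv ℝ (η ε) z = -∑ p ∈ hZ.toFinset, fderiv ℝ (κ ε p) z := by
    intro ε z
    have h1 : ∀ p ∈ hZ.toFinset, HasFDerivAt (κ ε p) (fderiv ℝ (κ ε p) z) z := fun p _ =>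
      ((hκs ε p).differentiable (by simp) _).hasFDerivAt
    exact ((HasFDerivAt.fun_sum h1).const_sub 1).fderiv
  -- good ε
  have hsep : ∀ᶠ ε in 𝓝[>] (0 : ℝ), ∀ p ∈ Z, ∀ q ∈ Z, p ≠ q → 3 * ε ≤ ‖p - q‖ := by
    rw [eventually_all_finite hZ]
    intro p hp
    rw [eventually_all_finite hZ]
    intro q hq
    by_cases hpq : p = q
    · filter_upwards with ε h
      exact absurd hpq h
    · have h1 : 0 < ‖p - q‖ := norm_pos_iff.2 (sub_ne_zero.2 hpq)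
      have h2 : ∀ᶠ ε in 𝓝[>] (0 : ℝ), ε < ‖p - q‖ / 3 :=
        mem_nhdsWithin_of_mem_nhds (Iio_mem_nhds (by positivity))
      filter_upwards [h2] with ε hε _
      linarith
  have hbd : ∀ᶠ ε in 𝓝[>] (0 : ℝ), ∀ p ∈ Z, ∀ z, ‖z - p‖ ≤ 2 * ε → ‖F z‖ ≤ C p * ‖z - p‖ := by
    rw [eventually_all_finite hZ]
    intro p hp
    obtain ⟨δ, hδ, h⟩ := Metric.eventually_nhds_iff.1 (hC p hp)
    have h2 : ∀ᶠ ε in 𝓝[>] (0 : ℝ), ε < δ / 2 :=
      mem_nhdsWithin_of_mem_nhds (Iio_mem_nhds (by positivity))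
    filter_upwards [h2] with ε hε z hz
    apply h
    rw [dist_eq_norm]
    linarith
  have hpos : ∀ᶠ ε in 𝓝[>] (0 : ℝ), 0 < ε := self_mem_nhdsWithin
  -- η ε vanishes near the points of Z
  have hη0 : ∀ {ε : ℝ}, 0 < ε → (∀ p ∈ Z, ∀ q ∈ Z, p ≠ q → 3 * ε ≤ ‖p - q‖) →
      ∀ p ∈ Z, ∀ z, ‖z - p‖ ≤ ε → η ε z = 0 := by
    intro ε hε hs p hp z hz
    have h1 : ∑ q ∈ hZ.toFinset, κ ε q z = κ ε p z := by
      refine Finset.sum_eq_single_of_mem p (hZ.mem_toFinset.2 hp) fun q hq hqp => ?_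
      refine hκ2 hε q z ?_
      have h2 := hs p hp q (hZ.mem_toFinset.1 hq) (Ne.symm hqp)
      have h3 : ‖p - q‖ ≤ ‖z - p‖ + ‖z - q‖ := by
        have : p - q = -(z - p) + (z - q) := by ring
        rw [this]
        refine (norm_add_le _ _).trans ?_
        rw [norm_neg]
      linarith
    change 1 - ∑ q ∈ hZ.toFinset, κ ε q z = 0
    rw [h1, hκ1 hε p z hz, sub_self]
  have hFat : ∀ z ∈ V \ Z, ContDiffAt ℝ 1 F z := fun z hz => (hF z hz).contDiffAt (hVZ.mem_nhds hz)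
  -- the cut off function is C¹
  have hG : ∀ {ε : ℝ}, 0 < ε → (∀ p ∈ Z, ∀ q ∈ Z, p ≠ q → 3 * ε ≤ ‖p - q‖) →
      ContDiffOn ℝ 1 (fun z => η ε z * F z) V := by
    intro ε hε hs z hz
    by_cases hzZ : z ∈ Z
    · have h1 : (fun z => η ε z * F z) =ᶠ[𝓝 z] fun _ => (0 : ℂ) := by
        filter_upwards [Metric.ball_mem_nhds z hε] with w hw
        rw [mem_ball, dist_eq_norm] at hw
        rw [hη0 hε hs z hzZ w hw.le, zero_mul]
      exact ((contDiffAt_const (c := (0 : ℂ))).congr_of_eventuallyEq h1).contDiffWithinAt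
    · have h1 : ContDiffAt ℝ 1 (η ε) z := ((hηs ε).of_le (by simp)).contDiffAt
      exact (h1.mul (hFat z ⟨hz, hzZ⟩)).contDiffWithinAt
  have hdF : ∀ z ∈ V \ Z, DifferentiableAt ℝ F z := fun z hz =>
    (hFat z hz).differentiableAt one_ne_zero
  have hdη : ∀ ε z, DifferentiableAt ℝ (η ε) z := fun ε z =>
    (hηs ε).differentiable (by simp) z
  have hae : ∀ᵐ z ∂(volume.restrict D.U), z ∈ V \ Z := by
    have h1 : ∀ᵐ z ∂(volume.restrict D.U), z ∈ D.U := ae_restrict_mem D.U_open.measurableSet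
    have h2 : ∀ᵐ z ∂(volume.restrict D.U), z ∉ Z :=
      ae_restrict_of_ae (measure_eq_zero_iff_ae_notMem.1 hZm)
    filter_upwards [h1, h2] with z hz1 hz2
    exact ⟨hcV (D.U_subset_cU hz1), hz2⟩
  have hprod : ∀ ε, ∀ z ∈ V \ Z,
      Dop (fun w => η ε w * F w) z = Dop (η ε) z * F z + η ε z * Dop F z := fun ε z hz =>
    P2 _ _ z (hdη ε z) (hdF z hz)
  have hGint : ∀ {ε : ℝ}, 0 < ε → (∀ p ∈ Z, ∀ q ∈ Z, p ≠ q → 3 * ε ≤ ‖p - q‖) →
      IntegrableOn (Dop (fun z => η ε z * F z)) D.U := by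
    intro ε hε hs
    exact (((P4 _ (hG hε hs)).mono hcV).integrableOn_compact D.cU_compact).mono_set D.U_subset_cU
  have hηint : ∀ ε, IntegrableOn (fun z => η ε z * Dop F z) D.U := by
    intro ε
    refine hint.bdd_mul (hηs ε).continuous.aestronglyMeasurable (c := 1 + hZ.toFinset.card) ?_
    filter_upwards with z
    exact hηn ε z
  -- first limit
  have lim1 : Tendsto (fun ε => ∫ z in D.U, η ε z * Dop F z) (𝓝[>] 0) (𝓝 (∫ z in D.U, Dop F z)) := by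
    refine tendsto_integral_filter_of_dominated_convergence
      (fun z => (1 + hZ.toFinset.card) * ‖Dop F z‖) ?_ ?_ (hint.norm.const_mul _) ?_
    · filter_upwards with ε
      exact (hηint ε).aestronglyMeasurable
    · filter_upwards with ε
      filter_upwards with z
      rw [norm_mul]
      gcongr
      exact hηn ε z
    · filter_upwards [hae] with z hz
      have h1 : ∀ᶠ ε in 𝓝[>] (0 : ℝ), ∀ p ∈ Z, 2 * ε < ‖z - p‖ := by
        rw [eventually_all_finite hZ]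
        intro p hp
        have h1 : 0 < ‖z - p‖ := norm_pos_iff.2 (sub_ne_zero.2 fun h => hz.2 (h ▸ hp))
        have h2 : ∀ᶠ ε in 𝓝[>] (0 : ℝ), ε < ‖z - p‖ / 2 :=
          mem_nhdsWithin_of_mem_nhds (Iio_mem_nhds (by positivity))
        filter_upwards [h2] with ε hε
        linarith
      have h2 : ∀ᶠ ε in 𝓝[>] (0 : ℝ), Dop F z = η ε z * Dop F z := by
        filter_upwards [h1, hpos] with ε hε hε0
        have h3 : ∑ p ∈ hZ.toFinset, κ ε p z = 0 :=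
          Finset.sum_eq_zero fun p hp => hκ2 hε0 p z (hε p (hZ.mem_toFinset.1 hp)).le
        change Dop F z = (1 - ∑ p ∈ hZ.toFinset, κ ε p z) * Dop F z
        rw [h3, sub_zero, one_mul]
      exact tendsto_const_nhds.congr' h2
  -- second limit
  have lim2 : Tendsto (fun ε => ∫ z in D.U, Dop (η ε) z * F z) (𝓝[>] 0) (𝓝 0) := by
    have h00 : (0 : ℂ) = ∫ z in D.U, (0 : ℂ) := by simp
    rw [h00]
    refine tendsto_integral_filter_of_dominated_convergence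
      (fun _ => ∑ p ∈ hZ.toFinset, 2 * B * |C p|) ?_ ?_ (integrable_const _) ?_
    · filter_upwards [hsep, hpos] with ε hs hε
      have h1 : AEStronglyMeasurable (fun z => Dop (fun z => η ε z * F z) z - η ε z * Dop F z)
          (volume.restrict D.U) :=
        (hGint hε hs).aestronglyMeasurable.sub (hηint ε).aestronglyMeasurable
      refine h1.congr ?_
      filter_upwards [hae] with z hz
      rw [hprod ε z hz]
      ring
    · filter_upwards [hbd, hpos] with ε hb hε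
      filter_upwards with z
      calc ‖Dop (η ε) z * F z‖ = ‖Dop (η ε) z‖ * ‖F z‖ := norm_mul _ _
        _ ≤ ‖fderiv ℝ (η ε) z‖ * ‖F z‖ := by gcongr; exact P3 _ _
        _ = ‖∑ p ∈ hZ.toFinset, fderiv ℝ (κ ε p) z‖ * ‖F z‖ := by rw [hηd, norm_neg]
        _ ≤ (∑ p ∈ hZ.toFinset, ‖fderiv ℝ (κ ε p) z‖) * ‖F z‖ := by
          gcongr; exact norm_sum_le _ _
        _ = ∑ p ∈ hZ.toFinset, ‖fderiv ℝ (κ ε p) z‖ * ‖F z‖ := by rw [Finset.sum_mul]
        _ ≤ ∑ p ∈ hZ.toFinset, 2 * B * |C p| := by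
          refine Finset.sum_le_sum fun p hp => ?_
          by_cases hz : 2 * ε < ‖z - p‖
          · rw [hκd0 hε p z hz, norm_zero, zero_mul]
            positivity
          · push Not at hz
            have h1 := hb p (hZ.mem_toFinset.1 hp) z hz
            have h2 : ‖F z‖ ≤ |C p| * (2 * ε) := by
              refine h1.trans ?_
              have h3 : C p ≤ |C p| := le_abs_self _
              have h4 : 0 ≤ ‖z - p‖ := norm_nonneg _
              have h5 : 0 ≤ |C p| := abs_nonneg _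
              calc C p * ‖z - p‖ ≤ |C p| * ‖z - p‖ := by gcongr
                _ ≤ |C p| * (2 * ε) := by gcongr
            calc ‖fderiv ℝ (κ ε p) z‖ * ‖F z‖ ≤ (B / ε) * (|C p| * (2 * ε)) := by
                  gcongr
                  exact hκd hε p z
              _ = 2 * B * |C p| := by field_simp
    · filter_upwards [hae] with z hz
      have h1 : ∀ᶠ ε in 𝓝[>] (0 : ℝ), ∀ p ∈ Z, 2 * ε < ‖z - p‖ := by
        rw [eventually_all_finite hZ]
        intro p hp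
        have h1 : 0 < ‖z - p‖ := norm_pos_iff.2 (sub_ne_zero.2 fun h => hz.2 (h ▸ hp))
        have h2 : ∀ᶠ ε in 𝓝[>] (0 : ℝ), ε < ‖z - p‖ / 2 :=
          mem_nhdsWithin_of_mem_nhds (Iio_mem_nhds (by positivity))
        filter_upwards [h2] with ε hε
        linarith
      have h2 : ∀ᶠ ε in 𝓝[>] (0 : ℝ), (0 : ℂ) = Dop (η ε) z * F z := by
        filter_upwards [h1, hpos] with ε hε hε0
        have h3 : fderiv ℝ (η ε) z = 0 := by
          rw [hηd, neg_eq_zero]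
          exact Finset.sum_eq_zero fun p hp => hκd0 hε0 p z (hε p (hZ.mem_toFinset.1 hp))
        have h4 : Dop (η ε) z = 0 := by
          have h5 := P3 (η ε) z
          rw [h3, norm_zero] at h5
          exact norm_le_zero_iff.1 h5
        rw [h4, zero_mul]
      exact tendsto_const_nhds.congr' h2
  -- conclusion
  have hsum : ∀ᶠ ε in 𝓝[>] (0 : ℝ),
      (∫ z in D.U, η ε z * Dop F z) + ∫ z in D.U, Dop (η ε) z * F z = 0 := by
    filter_upwards [hsep, hpos] with ε hs hε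
    have h1 : ∫ z in D.U, Dop (fun z => η ε z * F z) z = 0 := by
      refine P5 _ (hG hε hs) fun l z hz => ?_
      by_cases hzZ : z ∈ Z
      · rw [hη0 hε hs z hzZ z (by simp [hε.le]), zero_mul]
      · rw [h0 l z hz hzZ, mul_zero]
    have h2 : ∫ z in D.U, Dop (η ε) z * F z =
        ∫ z in D.U, (Dop (fun z => η ε z * F z) z - η ε z * Dop F z) := by
      refine integral_congr_ae ?_
      filter_upwards [hae] with z hz
      rw [hprod ε z hz]
      ring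
    rw [h2, integral_sub (hGint hε hs) (hηint ε), h1]
    ring
  have lim3 := (lim1.add lim2).congr' hsum
  rw [add_zero] at lim3
  exact (tendsto_nhds_unique lim3 tendsto_const_nhds)

/-- KE-A4: functions with mild point singularities -/
theorem green_sing {k : ℕ} (D : CD k) {F : ℂ → ℂ} {V : Set ℂ} (hV : IsOpen V) (hcV : D.cU ⊆ V)
    {Z : Set ℂ} (hZ : Z.Finite) (hF : ContDiffOn ℝ 1 F (V \ Z))
    (h0 : ∀ l, ∀ z ∈ D.circ l, z ∉ Z → F z = 0)
    (hb : ∀ p ∈ Z, ∃ C : ℝ, ∀ᶠ z in 𝓝 p, ‖F z‖ ≤ C * ‖z - p‖) :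
    (IntegrableOn (dz F) D.U → ∫ z in D.U, dz F z = 0) ∧
      (IntegrableOn (dzb F) D.U → ∫ z in D.U, dzb F z = 0) := by
  have hn : ∀ (f : ℂ → ℂ) (z : ℂ), ‖fderiv ℝ f z 1‖ ≤ ‖fderiv ℝ f z‖ ∧
      ‖Complex.I • fderiv ℝ f z Complex.I‖ ≤ ‖fderiv ℝ f z‖ := by
    intro f z
    constructor
    · simpa using (fderiv ℝ f z).le_opNorm 1
    · rw [norm_smul, Complex.norm_I, one_mul]
      simpa using (fderiv ℝ f z).le_opNorm Complex.I
  have hcont : ∀ (G : ℂ → ℂ), ContDiffOn ℝ 1 G V → ContinuousOn (dz G) V ∧ ContinuousOn (dzb G) V := by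
    intro G hG
    have h1 : ContinuousOn (fderiv ℝ G) V := hG.continuousOn_fderiv_of_isOpen hV le_rfl
    have h2 : ContinuousOn (fun z => fderiv ℝ G z 1) V := h1.clm_apply continuousOn_const
    have h3 : ContinuousOn (fun z => fderiv ℝ G z Complex.I) V := h1.clm_apply continuousOn_const
    exact ⟨(h2.sub (h3.const_smul Complex.I)).const_smul (2⁻¹ : ℂ),
      (h2.add (h3.const_smul Complex.I)).const_smul (2⁻¹ : ℂ)⟩
  constructor
  · refine green_sing_aux D hV hcV hZ hF h0 hb dz (fun F G z h => (dz_congr h).1)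
      (fun f F z hf hF => by simpa using (dz_smul hf hF).1) ?_ (fun G hG => (hcont G hG).1)
      (fun G hG h => (green_zero D hV hcV hG h).1)
    intro f z
    rw [dz, norm_smul]
    have h1 := hn f z
    have h2 := norm_sub_le (fderiv ℝ f z 1) (Complex.I • fderiv ℝ f z Complex.I)
    have h3 : ‖(2⁻¹ : ℂ)‖ = 1 / 2 := by norm_num
    rw [h3]
    linarith [h1.1, h1.2]
  · refine green_sing_aux D hV hcV hZ hF h0 hb dzb (fun F G z h => (dz_congr h).2)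
      (fun f F z hf hF => by simpa using (dz_smul hf hF).2) ?_ (fun G hG => (hcont G hG).2)
      (fun G hG h => (green_zero D hV hcV hG h).2)
    intro f z
    rw [dzb, norm_smul]
    have h1 := hn f z
    have h2 := norm_add_le (fderiv ℝ f z 1) (Complex.I • fderiv ℝ f z Complex.I)
    have h3 : ‖(2⁻¹ : ℂ)‖ = 1 / 2 := by norm_num
    rw [h3]
    linarith [h1.1, h1.2]

end Pool.Agent.Helper7.KE
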