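import Pool.Agent.Helper7.KE.Defs

set_option autoImplicit false

open MeasureTheory Set Filter Asymptotics Topology Metric
open scoped ComplexConjugate ENNReal

namespace Pool.Agent.Helper7.KE

/-- annuli are connected -/
theorem annulus_preconnected (a : ℂ) {r R : ℝ} (hr : 0 ≤ r) :
    IsPreconnected (ball a R \ closedBall a r) := by
  have h1 : IsPreconnected (Ioo r R ×ˢ (univ : Set ℝ)) :=
    isPreconnected_Ioo.prod isPreconnected_univ
  have h2 : Continuous (fun p : ℝ × ℝ => a + (p.1 : ℂ) * Complex.exp (p.2 * Complex.I)) := by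
    fun_prop
  have h3 := h1.image _ h2.continuousOn
  convert h3 using 1
  ext z
  constructor
  · rintro ⟨hz1, hz2⟩
    rw [mem_ball, dist_eq_norm] at hz1
    rw [mem_closedBall, dist_eq_norm, not_le] at hz2
    refine ⟨(‖z - a‖, Complex.arg (z - a)), ⟨⟨hz2, hz1⟩, mem_univ _⟩, ?_⟩
    simp only [Complex.norm_mul_exp_arg_mul_I]
    ring
  · rintro ⟨⟨ρ, θ⟩, ⟨⟨h4, h5⟩, -⟩, rfl⟩
    have hρ : 0 < ρ := lt_of_le_of_lt hr h4
    have h6 : ‖(ρ : ℂ) * Complex.exp (θ * Complex.I)‖ = ρ := by
      rw [norm_mul, Complex.norm_exp_ofReal_mul_I, mul_one, Complex.norm_real, Real.norm_eq_abs,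
        abs_of_pos hρ]
    refine ⟨?_, ?_⟩
    · rw [mem_ball, dist_eq_norm, add_sub_cancel_left, h6]; exact h5
    · rw [mem_closedBall, dist_eq_norm, add_sub_cancel_left, h6, not_le]; exact h4

/-- removing a disc from a connected open set -/
theorem preconnected_diff_closedBall {V : Set ℂ} (hVo : IsOpen V) (hV : IsPreconnected V)
    {a : ℂ} {r R : ℝ} (hr : 0 ≤ r) (hrR : r < R) (hb : ball a R ⊆ V) :
    IsPreconnected (V \ closedBall a r) := by
  set W := V \ closedBall a r with hW
  have hWo : IsOpen W := hVo.sdiff isClosed_closedBall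
  have hann := annulus_preconnected a (R := R) hr
  have hannW : ball a R \ closedBall a r ⊆ W := sdiff_subset_sdiff_left hb
  -- the main case
  have key : ∀ u v : Set ℂ, IsOpen u → IsOpen v → W ⊆ u ∪ v → (W ∩ v).Nonempty →
      ¬ ((ball a R \ closedBall a r) ∩ v).Nonempty → (W ∩ (u ∩ v)).Nonempty := by
    intro u v hu hv huv hwv hn
    have h1 := hV ((u ∩ W) ∪ ball a R) (v ∩ W) ((hu.inter hWo).union isOpen_ball)
      (hv.inter hWo) ?_ ?_ ?_
    · obtain ⟨x, hxV, hxu | hxb, hxv, hxW⟩ := h1
      · exact ⟨x, hxW, hxu.1, hxv⟩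
      · exact absurd ⟨x, ⟨hxb, hxW.2⟩, hxv⟩ hn
    · intro x hx
      by_cases hxb : x ∈ closedBall a r
      · exact Or.inl (Or.inr (closedBall_subset_ball hrR hxb))
      · rcases huv ⟨hx, hxb⟩ with h | h
        · exact Or.inl (Or.inl ⟨h, hx, hxb⟩)
        · exact Or.inr ⟨h, hx, hxb⟩
    · exact ⟨a, hb (mem_ball_self (lt_of_le_of_lt hr hrR)), Or.inr
        (mem_ball_self (lt_of_le_of_lt hr hrR))⟩
    · obtain ⟨x, hx1, hx2⟩ := hwv
      exact ⟨x, hx1.1, hx2, hx1⟩
  intro u v hu hv huv hwu hwv
  by_cases h1 : ((ball a R \ closedBall a r) ∩ v).Nonempty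
  · by_cases h2 : ((ball a R \ closedBall a r) ∩ u).Nonempty
    · obtain ⟨x, hx1, hx2⟩ := hann u v hu hv (hannW.trans huv) h2 h1
      exact ⟨x, hannW hx1, hx2⟩
    · have h3 := key v u hv hu (by rwa [union_comm]) hwu h2
      rwa [inter_comm v u] at h3
  · exact key u v hu hv huv hwv h1

section
variable {k : ℕ} (D : CD k) {τ : ℝ}

/-- the domain is connected -/
theorem U_preconnected : IsPreconnected D.U := by
  have key : ∀ s : Finset (Fin k), IsOpen (ball (0 : ℂ) D.R \ ⋃ j ∈ s, closedBall (D.a j) (D.r j)) ∧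
      IsPreconnected (ball (0 : ℂ) D.R \ ⋃ j ∈ s, closedBall (D.a j) (D.r j)) := by
    intro s
    induction s using Finset.induction_on with
    | empty =>
      have h0 : (ball (0 : ℂ) D.R \ ⋃ j ∈ (∅ : Finset (Fin k)), closedBall (D.a j) (D.r j)) =
        ball (0 : ℂ) D.R := by simp
      rw [h0]
      exact ⟨isOpen_ball, (convex_ball (0 : ℂ) D.R).isPreconnected⟩
    | insert j s hj ih =>
      obtain ⟨ih1, ih2⟩ := ih
      have h1 : (ball (0 : ℂ) D.R \ ⋃ i ∈ insert j s, closedBall (D.a i) (D.r i)) =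
          (ball (0 : ℂ) D.R \ ⋃ i ∈ s, closedBall (D.a i) (D.r i)) \
            closedBall (D.a j) (D.r j) := by
        rw [Finset.set_biUnion_insert, union_comm, ← Set.sdiff_sdiff]
      rw [h1]
      refine ⟨ih1.sdiff isClosed_closedBall, ?_⟩
      -- room around the hole
      have h2 : closedBall (D.a j) (D.r j) ⊆
          ball (0 : ℂ) D.R \ ⋃ i ∈ s, closedBall (D.a i) (D.r i) := by
        intro z hz
        rw [mem_closedBall, dist_eq_norm] at hz
        refine ⟨?_, ?_⟩
        · rw [mem_ball_zero_iff]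
          have h3 := norm_add_le (z - D.a j) (D.a j)
          rw [sub_add_cancel] at h3
          linarith [D.inside j]
        · simp only [mem_iUnion, mem_closedBall, not_exists, not_le, dist_eq_norm]
          intro i hi
          have hij : i ≠ j := fun h => hj (h ▸ hi)
          have h3 := D.disj i j hij
          have h4 := norm_sub_le (z - D.a j) (z - D.a i)
          have h5 : z - D.a j - (z - D.a i) = D.a i - D.a j := by ring
          rw [h5] at h4
          linarith
      obtain ⟨ε, hε, h3⟩ := (isCompact_closedBall (D.a j) (D.r j)).exists_thickening_subset_open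
        ih1 h2
      have h4 : ball (D.a j) (D.r j + ε) ⊆
          ball (0 : ℂ) D.R \ ⋃ i ∈ s, closedBall (D.a i) (D.r i) := by
        refine Subset.trans ?_ h3
        rw [thickening_closedBall hε (D.rpos j).le, add_comm]
      exact preconnected_diff_closedBall ih1 ih2 (D.rpos j).le (by linarith) h4
  have h1 := (key Finset.univ).2
  convert h1 using 1
  ext z
  simp [CD.U, dist_eq_norm]

end

end Pool.Agent.Helper7.KE
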