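import Pool.Agent.Helper7.KE.Defs

set_option autoImplicit false

open MeasureTheory Set Filter Asymptotics Topology Metric
open scoped ComplexConjugate ENNReal

namespace Pool.Agent.Helper7.KE

section
variable {Y : Type*} [NormedAddCommGroup Y] [NormedSpace ℂ Y]
variable {Z : Type*} [NormedAddCommGroup Z] [NormedSpace ℂ Z]

theorem sc_zero (N : ℝ) : sc (0, 0) N = 1 := by
  simp [sc]

theorem sc_pos (p : ℝ × ℕ) {N : ℝ} (hN : 1 < N) : 0 < sc p N :=
  mul_pos (Real.rpow_pos_of_pos (by linarith) _) (pow_pos (Real.log_pos hN) _)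

theorem B1a_one_isBigO_log_pow (n : ℕ) :
    (fun _ : ℝ => (1 : ℝ)) =O[atTop] fun N => Real.log N ^ n := by
  rw [isBigO_iff]
  refine ⟨1, ?_⟩
  filter_upwards [Real.tendsto_log_atTop.eventually_ge_atTop 1] with N hN
  rw [one_mul, norm_one, norm_pow, Real.norm_eq_abs]
  exact one_le_pow₀ (hN.trans (le_abs_self _))

theorem B1a_aux {σ τ : ℝ} (h : σ < τ) (j : ℕ) :
    (fun N : ℝ => N ^ (-τ) * Real.log N ^ j) =o[atTop] fun N => N ^ (-σ) := by
  have h1 : (fun N : ℝ => Real.log N ^ j) =o[atTop] fun N : ℝ => N ^ (τ - σ) := by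
    have := isLittleO_log_rpow_rpow_atTop (s := τ - σ) (j : ℝ) (by linarith)
    simpa using this
  have h2 : (fun N : ℝ => N ^ (-τ) * Real.log N ^ j) =o[atTop]
      fun N : ℝ => N ^ (-τ) * N ^ (τ - σ) := (isBigO_refl _ _).mul_isLittleO h1
  refine h2.congr' EventuallyEq.rfl ?_
  filter_upwards [eventually_gt_atTop (0 : ℝ)] with N hN
  rw [← Real.rpow_add hN]
  congr 1
  ring

/-- a dominated scale is `o` of the dominating one -/
theorem sc_isLittleO {p q : ℝ × ℕ} (h : Dom p q) : sc q =o[atTop] sc p := by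
  rcases h with h | ⟨h1, h2⟩
  · have h1 := B1a_aux h q.2
    have h2 : (fun N : ℝ => N ^ (-p.1)) =O[atTop] fun N : ℝ => N ^ (-p.1) * Real.log N ^ p.2 := by
      simpa using (isBigO_refl (fun N : ℝ => N ^ (-p.1)) atTop).mul (B1a_one_isBigO_log_pow p.2)
    exact h1.trans_isBigO h2
  · have h3 : (fun x : ℝ => x ^ q.2) =o[atTop] fun x : ℝ => x ^ p.2 := isLittleO_pow_pow_atTop_of_lt h2
    have h4 := h3.comp_tendsto Real.tendsto_log_atTop
    have h5 := (isBigO_refl (fun N : ℝ => N ^ (-q.1)) atTop).mul_isLittleO h4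
    refine h5.congr' EventuallyEq.rfl ?_
    filter_upwards with N
    simp [sc, h1]

theorem sc_rpow_isLittleO {p : ℝ × ℕ} {κ : ℝ} (h : p.1 < κ) :
    (fun N : ℝ => N ^ (-κ)) =o[atTop] sc p := by
  have h1 : Dom p (κ, 0) := Or.inl h
  have h2 := sc_isLittleO h1
  refine h2.congr' ?_ EventuallyEq.rfl
  filter_upwards with N
  simp [sc]

theorem sc_isBigO_rpow {p : ℝ × ℕ} {κ : ℝ} (h : κ < p.1) :
    sc p =O[atTop] (fun N : ℝ => N ^ (-κ)) := (B1a_aux h p.2).isBigO

theorem sc_bounded {p : ℝ × ℕ} (h0 : 0 ≤ p.1) (h : p.1 = 0 → p.2 = 0) :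
    sc p =O[atTop] (fun _ : ℝ => (1 : ℝ)) := by
  rcases h0.eq_or_lt with h1 | h1
  · have h2 := h h1.symm
    have : sc p = fun _ => 1 := by
      funext N
      simp [sc, h2, ← h1]
    rw [this]
  · have := (B1a_aux h1 p.2).isBigO
    refine this.congr' EventuallyEq.rfl ?_
    simp

theorem B1a_shift_ratio (p : ℝ × ℕ) (t : ℝ) :
    Tendsto (fun N => sc p (N + t) / sc p N) atTop (𝓝 1) := by
  have h1 : Tendsto (fun N : ℝ => 1 + t / N) atTop (𝓝 1) := by
    have := (tendsto_const_nhds (x := t)).div_atTop (tendsto_id (α := ℝ) (x := atTop))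
    simpa using this.const_add 1
  have h2 : Tendsto (fun N : ℝ => (1 + t / N) ^ (-p.1)) atTop (𝓝 1) := by
    have h3 := h1.rpow_const (p := -p.1) (Or.inl one_ne_zero)
    simpa using h3
  have h3 : Tendsto (fun N : ℝ => Real.log (1 + t / N)) atTop (𝓝 0) := by
    have := (Real.continuousAt_log (x := 1) one_ne_zero).tendsto.comp h1
    rw [Real.log_one] at this
    exact this
  have h4 : Tendsto (fun N : ℝ => 1 + Real.log (1 + t / N) / Real.log N) atTop (𝓝 1) := by
    have := h3.div_atTop Real.tendsto_log_atTop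
    simpa using this.const_add 1
  have h5 : Tendsto (fun N : ℝ => (1 + t / N) ^ (-p.1) *
      (1 + Real.log (1 + t / N) / Real.log N) ^ p.2) atTop (𝓝 1) := by
    have := h2.mul (h4.pow p.2)
    simpa using this
  refine h5.congr' ?_
  filter_upwards [eventually_gt_atTop (1 : ℝ), eventually_gt_atTop (-t),
    h1.eventually (lt_mem_nhds (a := 0) one_pos)] with N hN hNt hpos
  have hN0 : (0 : ℝ) < N := by linarith
  have e1 : N + t = N * (1 + t / N) := by field_simp
  have hl : 0 < Real.log N := Real.log_pos hN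
  rw [sc, sc, e1, Real.mul_rpow hN0.le hpos.le, Real.log_mul hN0.ne' hpos.ne']
  have h6 : N ^ (-p.1) ≠ 0 := (Real.rpow_pos_of_pos hN0 _).ne'
  have h7 : Real.log N + Real.log (1 + t / N) = Real.log N * (1 + Real.log (1 + t / N) / Real.log N) := by
    field_simp
  rw [h7, mul_pow]
  field_simp

theorem sc_shift (p : ℝ × ℕ) (t : ℝ) :
    (fun N => sc p (N + t)) =O[atTop] sc p ∧ sc p =O[atTop] (fun N => sc p (N + t)) := by
  have h := B1a_shift_ratio p t
  have hne : ∀ᶠ N in atTop, sc p N ≠ 0 := by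
    filter_upwards [eventually_gt_atTop (1 : ℝ)] with N hN using (sc_pos p hN).ne'
  have he : (fun N => sc p (N + t)) ~[atTop] sc p :=
    (isEquivalent_iff_tendsto_one hne).2 h
  exact ⟨he.isBigO, he.symm.isBigO⟩

theorem dom_total (p q : ℝ × ℕ) : p = q ∨ Dom p q ∨ Dom q p := by
  rcases lt_trichotomy p.1 q.1 with h | h | h
  · exact Or.inr (Or.inl (Or.inl h))
  · rcases lt_trichotomy p.2 q.2 with h' | h' | h'
    · exact Or.inr (Or.inr (Or.inr ⟨h.symm, h'⟩))
    · exact Or.inl (Prod.ext h h')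
    · exact Or.inr (Or.inl (Or.inr ⟨h, h'⟩))
  · exact Or.inr (Or.inr (Or.inl h))

theorem B1a_dom_trans {p q r : ℝ × ℕ} (h : Dom p q) (h' : Dom q r) : Dom p r := by
  rcases h with h | ⟨h1, h2⟩
  · rcases h' with h' | ⟨h1', h2'⟩
    · exact Or.inl (h.trans h')
    · exact Or.inl (h1' ▸ h)
  · rcases h' with h' | ⟨h1', h2'⟩
    · exact Or.inl (h1 ▸ h')
    · exact Or.inr ⟨h1.trans h1', h2'.trans h2⟩

theorem B1a_dom_irrefl (p : ℝ × ℕ) : ¬ Dom p p := by
  rintro (h | ⟨_, h⟩)
  · exact lt_irrefl _ h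
  · exact lt_irrefl _ h

/-- in a finite nonempty set of scales there is a dominating one -/
theorem exists_dom {s : Finset (ℝ × ℕ)} (hs : s.Nonempty) :
    ∃ p ∈ s, ∀ q ∈ s, q ≠ p → Dom p q := by
  induction hs using Finset.Nonempty.cons_induction with
  | singleton a =>
    exact ⟨a, by simp, fun q hq hne => absurd (Finset.mem_singleton.1 hq) hne⟩
  | cons a s ha hs ih =>
    obtain ⟨p, hp, hd⟩ := ih
    have hap : a ≠ p := fun h => ha (h ▸ hp)
    rcases dom_total a p with h | h | h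
    · exact absurd h hap
    · refine ⟨a, by simp, fun q hq hne => ?_⟩
      rcases Finset.mem_cons.1 hq with rfl | hq
      · exact absurd rfl hne
      · by_cases hqp : q = p
        · exact hqp ▸ h
        · exact B1a_dom_trans h (hd q hq hqp)
    · refine ⟨p, by simp [hp], fun q hq hne => ?_⟩
      rcases Finset.mem_cons.1 hq with rfl | hq
      · exact h
      · exact hd q hq hne

end

end Pool.Agent.Helper7.KE
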