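import Pool.Agent.Helper7.KE.B1a

set_option autoImplicit false

open MeasureTheory Set Filter Asymptotics Topology Metric
open scoped ComplexConjugate ENNReal

namespace Pool.Agent.Helper7.KE

section
variable {Y : Type*} [NormedAddCommGroup Y] [NormedSpace ℂ Y]
variable {Z : Type*} [NormedAddCommGroup Z] [NormedSpace ℂ Z]

theorem B1b_sum_O {ι : Type*} {I : Finset ι} {F : ι → ℝ → Y} {g : ℝ → ℝ}
    (h : ∀ i ∈ I, F i =O[atTop] g) : (fun N => ∑ i ∈ I, F i N) =O[atTop] g := by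
  have h1 := IsBigO.sum h
  have h2 : (∑ i ∈ I, F i) = fun N => ∑ i ∈ I, F i N := by
    funext N
    rw [Finset.sum_apply]
  rw [← h2]
  exact h1

theorem B1b_sum_o {ι : Type*} {I : Finset ι} {F : ι → ℝ → Y} {g : ℝ → ℝ}
    (h : ∀ i ∈ I, F i =o[atTop] g) : (fun N => ∑ i ∈ I, F i N) =o[atTop] g := by
  have h1 := IsLittleO.sum h
  have h2 : (∑ i ∈ I, F i) = fun N => ∑ i ∈ I, F i N := by
    funext N
    rw [Finset.sum_apply]
  rw [← h2]
  exact h1

theorem HasExp.add {s : Finset (ℝ × ℕ)} {κ : ℝ} {f g : ℝ → Y} (hf : HasExp s κ f)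
    (hg : HasExp s κ g) : HasExp s κ (fun N => f N + g N) := by
  obtain ⟨c, hc⟩ := hf
  obtain ⟨d, hd⟩ := hg
  refine ⟨fun p => c p + d p, (hc.add hd).congr_left fun N => ?_⟩
  simp only [smul_add, Finset.sum_add_distrib]
  abel

theorem HasExp.of_isBigO {s : Finset (ℝ × ℕ)} {κ : ℝ} {f : ℝ → Y}
    (hf : f =O[atTop] fun N : ℝ => N ^ (-κ)) : HasExp s κ f :=
  ⟨0, by simpa using hf⟩

theorem HasExp.sum {ι : Type*} (I : Finset ι) {s : Finset (ℝ × ℕ)} {κ : ℝ} {f : ι → ℝ → Y}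
    (hf : ∀ i ∈ I, HasExp s κ (f i)) : HasExp s κ (fun N => ∑ i ∈ I, f i N) := by
  classical
  induction I using Finset.induction_on with
  | empty => exact HasExp.of_isBigO (by simpa using isBigO_zero _ _)
  | insert a I ha ih =>
    have h1 := hf a (Finset.mem_insert_self a I)
    have h2 := ih fun i hi => hf i (Finset.mem_insert_of_mem hi)
    have h3 := h1.add h2
    simpa [Finset.sum_insert ha] using h3

theorem HasExp.clm {s : Finset (ℝ × ℕ)} {κ : ℝ} {f : ℝ → Y} (hf : HasExp s κ f) (L : Y →L[ℂ] Z) :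
    HasExp s κ (fun N => L (f N)) := by
  obtain ⟨c, hc⟩ := hf
  refine ⟨fun p => L (c p), ((L.isBigO_comp _ _).trans hc).congr_left fun N => ?_⟩
  simp

theorem HasExp.mono {s s' : Finset (ℝ × ℕ)} {κ : ℝ} {f : ℝ → Y} (hf : HasExp s κ f)
    (h : s ⊆ s') : HasExp s' κ f := by
  classical
  obtain ⟨c, hc⟩ := hf
  refine ⟨fun p => if p ∈ s then c p else 0, hc.congr_left fun N => ?_⟩
  congr 1
  rw [← Finset.sum_subset h]
  · exact Finset.sum_congr rfl fun p hp => by simp [hp]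
  · intro p _ hp
    simp [hp]

theorem HasExp.congr {s : Finset (ℝ × ℕ)} {κ : ℝ} {f g : ℝ → Y} (hf : HasExp s κ f)
    (h : f =ᶠ[atTop] g) : HasExp s κ g := by
  obtain ⟨c, hc⟩ := hf
  refine ⟨c, hc.congr' ?_ EventuallyEq.rfl⟩
  filter_upwards [h] with N hN
  rw [hN]

theorem B1b_rpow_le {κ κ' : ℝ} (h : κ' ≤ κ) :
    (fun N : ℝ => N ^ (-κ)) =O[atTop] fun N : ℝ => N ^ (-κ') := by
  rw [isBigO_iff]
  refine ⟨1, ?_⟩
  filter_upwards [eventually_ge_atTop (1 : ℝ)] with N hN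
  have hN0 : (0 : ℝ) < N := by linarith
  rw [one_mul, Real.norm_of_nonneg (Real.rpow_nonneg hN0.le _),
    Real.norm_of_nonneg (Real.rpow_nonneg hN0.le _)]
  exact Real.rpow_le_rpow_of_exponent_le hN (by linarith)

theorem B1b_smul_isBigO {g : ℝ → ℝ} {p : ℝ × ℕ} (hg : sc p =O[atTop] g) (y : Y) :
    (fun N => (sc p N : ℂ) • y) =O[atTop] g := by
  have h1 : (fun N => ((sc p N : ℝ) : ℂ) • y) =O[atTop] sc p := by
    rw [isBigO_iff]
    refine ⟨‖y‖, ?_⟩
    filter_upwards with N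
    rw [norm_smul, Complex.norm_real, mul_comm]
  exact h1.trans hg

theorem B1b_smul_isLittleO {g : ℝ → ℝ} {p : ℝ × ℕ} (hg : sc p =o[atTop] g) (y : Y) :
    (fun N => (sc p N : ℂ) • y) =o[atTop] g := by
  have h1 : (fun N => ((sc p N : ℝ) : ℂ) • y) =O[atTop] sc p := by
    rw [isBigO_iff]
    refine ⟨‖y‖, ?_⟩
    filter_upwards with N
    rw [norm_smul, Complex.norm_real, mul_comm]
  exact h1.trans_isLittleO hg

/-- lowering the precision -/
theorem HasExp.weaken {s : Finset (ℝ × ℕ)} {κ κ' : ℝ} {f : ℝ → Y} (hf : HasExp s κ f)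
    (hs : GoodScale κ s) (h : κ' ≤ κ) (hκ' : Irrational κ') :
    GoodScale κ' (s.filter fun p => p.1 < κ') ∧ HasExp (s.filter fun p => p.1 < κ') κ' f := by
  refine ⟨fun p hp => ?_, ?_⟩
  · obtain ⟨hp1, hp2⟩ := Finset.mem_filter.1 hp
    obtain ⟨h1, -, h3, h4⟩ := hs p hp1
    exact ⟨h1, hp2, h3, h4⟩
  · obtain ⟨c, hc⟩ := hf
    have h1 : (fun N => ∑ p ∈ s.filter (fun p => ¬ p.1 < κ'), (sc p N : ℂ) • c p) =O[atTop]
        fun N : ℝ => N ^ (-κ') := by
      refine B1b_sum_O fun p hp => ?_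
      obtain ⟨hp1, hp2⟩ := Finset.mem_filter.1 hp
      refine B1b_smul_isBigO (sc_isBigO_rpow ?_) _
      obtain ⟨-, -, -, q, hq⟩ := hs p hp1
      refine lt_of_le_of_ne (not_lt.1 hp2) fun he => hκ' ⟨q, ?_⟩
      rw [he, hq]
    refine ⟨c, ((hc.trans (B1b_rpow_le h)).add h1).congr_left fun N => ?_⟩
    rw [← Finset.sum_filter_add_sum_filter_not s (fun p => p.1 < κ')]
    abel

theorem HasExp.const {s : Finset (ℝ × ℕ)} {κ : ℝ} (h : (0, 0) ∈ s) (c : Y) :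
    HasExp s κ (fun _ => c) := by
  classical
  refine ⟨fun p => if p = (0, 0) then c else 0, ?_⟩
  have : (fun N : ℝ => c - ∑ p ∈ s, (sc p N : ℂ) • (if p = (0, 0) then c else (0 : Y))) =
      fun _ => 0 := by
    funext N
    simp only [smul_ite, smul_zero]
    rw [Finset.sum_ite_eq' s ((0 : ℝ), 0) (fun p => (sc p N : ℂ) • c)]
    simp [h, sc_zero]
  rw [this]
  exact isBigO_zero _ _

theorem B1b_sc_add (p q : ℝ × ℕ) {N : ℝ} (hN : 0 < N) : sc (p + q) N = sc p N * sc q N := by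
  rw [sc, sc, sc, Prod.fst_add, Prod.snd_add, neg_add, Real.rpow_add hN, pow_add]
  ring

theorem B1b_sum_bounded {s : Finset (ℝ × ℕ)} {κ : ℝ} (hs : GoodScale κ s) (c : ℝ × ℕ → Y) :
    (fun N => ∑ p ∈ s, (sc p N : ℂ) • c p) =O[atTop] fun _ : ℝ => (1 : ℝ) := by
  refine B1b_sum_O fun p hp => B1b_smul_isBigO ?_ _
  obtain ⟨h1, -, h3, -⟩ := hs p hp
  exact sc_bounded h1 h3

/-- products -/
theorem exists_mul_scale {s₁ s₂ : Finset (ℝ × ℕ)} {κ : ℝ} (h₁ : GoodScale κ s₁)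
    (h₂ : GoodScale κ s₂) (hκ : Irrational κ) (hκ' : 0 < κ) : ∃ s : Finset (ℝ × ℕ),
      GoodScale κ s ∧ ∀ (A : Type) [NormedCommRing A] [NormedAlgebra ℂ A] (f g : ℝ → A),
        HasExp s₁ κ f → HasExp s₂ κ g → HasExp s κ (fun N => f N * g N) := by
  classical
  set S : Finset (ℝ × ℕ) := ((s₁ ×ˢ s₂).image fun x => x.1 + x.2).filter fun p => p.1 < κ with hS
  refine ⟨S, ?_, ?_⟩
  · intro p hp
    obtain ⟨hp1, hp2⟩ := Finset.mem_filter.1 hp
    obtain ⟨x, hx, rfl⟩ := Finset.mem_image.1 hp1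
    obtain ⟨hx1, hx2⟩ := Finset.mem_product.1 hx
    obtain ⟨a1, -, a3, q, hq⟩ := h₁ _ hx1
    obtain ⟨b1, -, b3, q', hq'⟩ := h₂ _ hx2
    refine ⟨add_nonneg a1 b1, hp2, fun h0 => ?_, q + q', ?_⟩
    · have h0' : x.1.1 + x.2.1 = 0 := h0
      have e1 : x.1.1 = 0 := by linarith
      have e2 : x.2.1 = 0 := by linarith
      show x.1.2 + x.2.2 = 0
      rw [a3 e1, b3 e2]
    · rw [Prod.fst_add, ← hq, ← hq']
      push_cast
      rfl
  · intro A _ _ f g hf hg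
    obtain ⟨c, hc⟩ := hf
    obtain ⟨d, hd⟩ := hg
    set F : ℝ → A := fun N => ∑ p ∈ s₁, (sc p N : ℂ) • c p with hF
    set G : ℝ → A := fun N => ∑ p ∈ s₂, (sc p N : ℂ) • d p with hG
    have hFb : F =O[atTop] fun _ : ℝ => (1 : ℝ) := B1b_sum_bounded h₁ c
    have hGb : G =O[atTop] fun _ : ℝ => (1 : ℝ) := B1b_sum_bounded h₂ d
    have hr1 : (fun N : ℝ => N ^ (-κ)) =O[atTop] fun _ : ℝ => (1 : ℝ) := by
      have := B1b_rpow_le (κ := κ) (κ' := 0) hκ'.le
      simpa using this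
    -- the remainder
    have e1 : (fun N => (f N - F N) * g N) =O[atTop] fun N : ℝ => N ^ (-κ) := by
      have hgb : g =O[atTop] fun _ : ℝ => (1 : ℝ) :=
        ((hd.trans hr1).add hGb).congr_left fun N => by simp [hG]
      exact (hc.mul hgb).congr_right fun N => by simp
    have e2 : (fun N => F N * (g N - G N)) =O[atTop] fun N : ℝ => N ^ (-κ) := by
      exact (hFb.mul hd).congr_right fun N => by simp
    -- the high terms
    have e3 : (fun N => ∑ x ∈ (s₁ ×ˢ s₂).filter (fun x => ¬ (x.1 + x.2).1 < κ),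
        (sc (x.1 + x.2) N : ℂ) • (c x.1 * d x.2)) =O[atTop] fun N : ℝ => N ^ (-κ) := by
      refine B1b_sum_O fun x hx => ?_
      obtain ⟨hx0, hx3⟩ := Finset.mem_filter.1 hx
      obtain ⟨hx1, hx2⟩ := Finset.mem_product.1 hx0
      refine B1b_smul_isBigO (sc_isBigO_rpow ?_) _
      obtain ⟨-, -, -, q, hq⟩ := h₁ _ hx1
      obtain ⟨-, -, -, q', hq'⟩ := h₂ _ hx2
      refine lt_of_le_of_ne (not_lt.1 hx3) fun he => hκ ⟨q + q', ?_⟩
      rw [he, Prod.fst_add, ← hq, ← hq']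
      push_cast
      rfl
    refine ⟨fun p => ∑ x ∈ (s₁ ×ˢ s₂).filter (fun x => x.1 + x.2 = p), c x.1 * d x.2, ?_⟩
    refine ((e1.add e2).add e3).congr' ?_ EventuallyEq.rfl
    filter_upwards [eventually_gt_atTop (0 : ℝ)] with N hN
    have hFG : F N * G N = ∑ x ∈ s₁ ×ˢ s₂, (sc (x.1 + x.2) N : ℂ) • (c x.1 * d x.2) := by
      rw [hF, hG]
      simp only
      rw [Finset.sum_mul_sum, ← Finset.sum_product']
      refine Finset.sum_congr rfl fun x _ => ?_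
      rw [B1b_sc_add _ _ hN, smul_mul_smul_comm]
      push_cast
      rfl
    have hlow : ∑ p ∈ S, (sc p N : ℂ) • (∑ x ∈ (s₁ ×ˢ s₂).filter (fun x => x.1 + x.2 = p),
        c x.1 * d x.2) = ∑ x ∈ (s₁ ×ˢ s₂).filter (fun x => (x.1 + x.2).1 < κ),
          (sc (x.1 + x.2) N : ℂ) • (c x.1 * d x.2) := by
      rw [← Finset.sum_fiberwise_of_maps_to (s := (s₁ ×ˢ s₂).filter (fun x => (x.1 + x.2).1 < κ))
        (t := S) (g := fun x => x.1 + x.2)]
      · refine Finset.sum_congr rfl fun p hp => ?_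
        rw [Finset.smul_sum]
        have hp2 := (Finset.mem_filter.1 hp).2
        have : ((s₁ ×ˢ s₂).filter (fun x => (x.1 + x.2).1 < κ)).filter (fun x => x.1 + x.2 = p) =
            (s₁ ×ˢ s₂).filter (fun x => x.1 + x.2 = p) := by
          ext x
          simp only [Finset.mem_filter]
          constructor
          · rintro ⟨⟨h1, h2⟩, h3⟩
            exact ⟨h1, h3⟩
          · rintro ⟨h1, h3⟩
            exact ⟨⟨h1, by rw [h3]; exact hp2⟩, h3⟩
        rw [this]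
        refine Finset.sum_congr rfl fun x hx => ?_
        rw [(Finset.mem_filter.1 hx).2]
      · intro x hx
        obtain ⟨hx1, hx2⟩ := Finset.mem_filter.1 hx
        exact Finset.mem_filter.2 ⟨Finset.mem_image.2 ⟨x, hx1, rfl⟩, hx2⟩
    rw [hlow]
    have : (f N - F N) * g N + F N * (g N - G N) = f N * g N - F N * G N := by ring
    rw [this, hFG, ← Finset.sum_filter_add_sum_filter_not (s₁ ×ˢ s₂) (fun x => (x.1 + x.2).1 < κ)]
    abel

/-- the leading term of a finite sum of scales -/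
theorem B1b_lead {s : Finset (ℝ × ℕ)} {c : ℝ × ℕ → Y} {p : ℝ × ℕ} (hp : p ∈ s)
    (h : ∀ q ∈ s, q ≠ p → c q = 0 ∨ Dom p q) :
    (fun N => (∑ q ∈ s, (sc q N : ℂ) • c q) - (sc p N : ℂ) • c p) =o[atTop] sc p := by
  classical
  have : (fun N => (∑ q ∈ s, (sc q N : ℂ) • c q) - (sc p N : ℂ) • c p) =
      fun N => ∑ q ∈ s.erase p, (sc q N : ℂ) • c q := by
    funext N
    rw [← Finset.add_sum_erase s _ hp]
    abel
  rw [this]
  refine B1b_sum_o fun q hq => ?_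
  obtain ⟨hq1, hq2⟩ := Finset.mem_erase.1 hq
  rcases h q hq2 hq1 with h0 | hd
  · simp only [h0, smul_zero]
    exact isLittleO_zero _ _
  · exact B1b_smul_isLittleO (sc_isLittleO hd) _

theorem B1b_smul_sc {p : ℝ × ℕ} {y : Y} (h : (fun N => (sc p N : ℂ) • y) =o[atTop] sc p) :
    y = 0 := by
  by_contra hy
  have hy' : 0 < ‖y‖ := norm_pos_iff.2 hy
  have h1 := (isLittleO_iff.1 h) (half_pos hy')
  obtain ⟨N, hN1, hN2⟩ := (h1.and (eventually_gt_atTop (1 : ℝ))).exists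
  have h2 := sc_pos p hN2
  rw [norm_smul, Complex.norm_real, Real.norm_of_nonneg h2.le] at hN1
  nlinarith

theorem B1b_vanish {s : Finset (ℝ × ℕ)} {c : ℝ × ℕ → Y} {f : ℝ → Y} {g : ℝ → ℝ} {κ : ℝ}
    (hs : GoodScale κ s)
    (hf : (fun N => f N - ∑ p ∈ s, (sc p N : ℂ) • c p) =O[atTop] fun N => N ^ (-κ))
    (hfg : f =O[atTop] g) {P : ℝ × ℕ → Prop} (hP : ∀ p ∈ s, P p → g =o[atTop] sc p)
    (hPm : ∀ p q, P q → Dom p q → P p) : ∀ p ∈ s, P p → c p = 0 := by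
  classical
  intro p hp hPp
  by_contra hcp
  have hne : (s.filter fun q => c q ≠ 0).Nonempty := ⟨p, Finset.mem_filter.2 ⟨hp, hcp⟩⟩
  obtain ⟨p₀, hp₀, hd⟩ := exists_dom hne
  obtain ⟨hp₀s, hcp₀⟩ := Finset.mem_filter.1 hp₀
  have hPp₀ : P p₀ := by
    by_cases h : p = p₀
    · exact h ▸ hPp
    · exact hPm _ _ hPp (hd p (Finset.mem_filter.2 ⟨hp, hcp⟩) h)
  have h1 := B1b_lead hp₀s (c := c) fun q hq hqp => by
    by_cases hcq : c q = 0
    · exact Or.inl hcq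
    · exact Or.inr (hd q (Finset.mem_filter.2 ⟨hq, hcq⟩) hqp)
  have h2 : (fun N => f N - ∑ p ∈ s, (sc p N : ℂ) • c p) =o[atTop] sc p₀ :=
    hf.trans_isLittleO (sc_rpow_isLittleO (hs p₀ hp₀s).2.1)
  have h3 : f =o[atTop] sc p₀ := hfg.trans_isLittleO (hP p₀ hp₀s hPp₀)
  apply hcp₀
  apply B1b_smul_sc (p := p₀)
  refine ((h3.sub h2).sub h1).congr_left fun N => ?_
  abel

/-- coefficients stay in a closed subspace -/
theorem HasExp.mem {s : Finset (ℝ × ℕ)} {κ : ℝ} {f : ℝ → Y} (hs : GoodScale κ s)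
    (hf : HasExp s κ f) (V : Submodule ℂ Y) (hV : IsClosed (V : Set Y))
    (hfV : ∀ᶠ N in atTop, f N ∈ V) :
    ∃ c : ℝ × ℕ → Y, (∀ p, c p ∈ V) ∧
      (fun N => f N - ∑ p ∈ s, (sc p N : ℂ) • c p) =O[atTop] fun N => N ^ (-κ) := by
  classical
  obtain ⟨c, hc⟩ := hf
  have h1 : (fun N => V.mkQL (f N - ∑ p ∈ s, (sc p N : ℂ) • c p)) =O[atTop]
      fun N : ℝ => N ^ (-κ) := ((V.mkQL).isBigO_comp _ _).trans hc
  have h2 : (fun N => V.mkQL (f N) - ∑ p ∈ s, (sc p N : ℂ) • V.mkQL (c p)) =O[atTop]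
      fun N : ℝ => N ^ (-κ) := h1.congr_left fun N => by
    rw [map_sub, map_sum]
    simp only [map_smul]
  have h3 : (fun N => V.mkQL (f N)) =O[atTop] fun _ : ℝ => (0 : ℝ) := by
    refine isBigO_zero_right_iff.2 ?_
    filter_upwards [hfV] with N hN
    exact (Submodule.Quotient.mk_eq_zero V).2 hN
  have h4 := B1b_vanish hs h2 h3 (P := fun _ => True)
    (fun p _ _ => isLittleO_zero _ _) (fun _ _ _ _ => trivial)
  refine ⟨fun p => if p ∈ s then c p else 0, fun p => ?_, ?_⟩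
  · by_cases hp : p ∈ s
    · simp only [hp, if_true]
      exact (Submodule.Quotient.mk_eq_zero V).1 (h4 p hp trivial)
    · simp [hp]
  · refine hc.congr_left fun N => ?_
    congr 1
    exact Finset.sum_congr rfl fun p hp => by simp [hp]

/-- if a function with an expansion is `O` of the scale `J`, the coefficients of all dominating
scales vanish -/
theorem coeff_zero {s : Finset (ℝ × ℕ)} {κ : ℝ} (hs : GoodScale κ s) {f : ℝ → Y}
    {c : ℝ × ℕ → Y} (hf : (fun N => f N - ∑ p ∈ s, (sc p N : ℂ) • c p) =O[atTop]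
      fun N => N ^ (-κ)) {J : ℝ × ℕ} (hJ : J ∈ s) (hO : f =O[atTop] sc J) :
    ∀ p ∈ s, Dom p J → c p = 0 :=
  B1b_vanish hs hf hO (P := fun p => Dom p J) (fun _ _ h => sc_isLittleO h)
    fun _ _ h h' => B1a_dom_trans h' h

end

end Pool.Agent.Helper7.KE
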