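import Pool.Agent.Helper7.KE.B1b

set_option autoImplicit false

open MeasureTheory Set Filter Asymptotics Topology Metric
open scoped ComplexConjugate ENNReal

namespace Pool.Agent.Helper7.KE

namespace B2aux

lemma sc_deriv (τ : ℝ) (i : ℕ) {N : ℝ} (hN : 0 < N) :
    ∃ d, HasDerivAt (sc (τ, i)) d N ∧ N * d = -τ * sc (τ, i) N + i * sc (τ, i - 1) N := by
  have h1 : HasDerivAt (fun N : ℝ => N ^ (-τ)) ((-τ) * N ^ (-τ - 1)) N :=
    Real.hasDerivAt_rpow_const (Or.inl hN.ne')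
  have h2 : HasDerivAt (fun N : ℝ => Real.log N ^ i) (i * Real.log N ^ (i - 1) * N⁻¹) N :=
    (Real.hasDerivAt_log hN.ne').pow i
  refine ⟨_, h1.mul h2, ?_⟩
  have h3 : N ^ (-τ - 1) = N ^ (-τ) * N⁻¹ := by
    rw [Real.rpow_sub hN, Real.rpow_one]; rfl
  simp only [sc]
  rw [h3]
  field_simp

/-- the particular solution -/
lemma part_ne {σ τ : ℝ} (h : τ ≠ σ) (j : ℕ) : ∃ q : ℕ → ℝ, ∀ N : ℝ, 0 < N → ∃ d,
    HasDerivAt (fun N => ∑ i ∈ Finset.range (j + 1), q i * sc (τ, i) N) d N ∧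
    N * d + σ * (∑ i ∈ Finset.range (j + 1), q i * sc (τ, i) N) = sc (τ, j) N := by
  have hστ : σ - τ ≠ 0 := sub_ne_zero.2 h.symm
  induction j with
  | zero =>
    refine ⟨fun _ => (σ - τ)⁻¹, fun N hN => ?_⟩
    obtain ⟨d, hd, hd'⟩ := sc_deriv τ 0 hN
    refine ⟨(σ - τ)⁻¹ * d, ?_, ?_⟩
    · simp only [zero_add, Finset.sum_range_one]
      exact hd.const_mul _
    · simp only [zero_add, Finset.sum_range_one]
      have : N * ((σ - τ)⁻¹ * d) = (σ - τ)⁻¹ * (N * d) := by ring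
      rw [this, hd']
      field_simp
      simp
      ring
  | succ j ih =>
    obtain ⟨q, hq⟩ := ih
    refine ⟨fun i => if i = j + 1 then (σ - τ)⁻¹ else -((j : ℝ) + 1) * (σ - τ)⁻¹ * q i,
      fun N hN => ?_⟩
    obtain ⟨d, hd, hd'⟩ := hq N hN
    obtain ⟨e, he, he'⟩ := sc_deriv τ (j + 1) hN
    have hfun : ∀ N : ℝ, ∑ i ∈ Finset.range (j + 1 + 1), (if i = j + 1 then (σ - τ)⁻¹ else
        -((j : ℝ) + 1) * (σ - τ)⁻¹ * q i) * sc (τ, i) N =
        -((j : ℝ) + 1) * (σ - τ)⁻¹ * (∑ i ∈ Finset.range (j + 1), q i * sc (τ, i) N) +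
        (σ - τ)⁻¹ * sc (τ, j + 1) N := by
      intro N
      rw [Finset.sum_range_succ, if_pos rfl, Finset.mul_sum]
      congr 1
      refine Finset.sum_congr rfl (fun i hi => ?_)
      have := Finset.mem_range.1 hi
      rw [if_neg (by omega)]
      ring
    refine ⟨-((j : ℝ) + 1) * (σ - τ)⁻¹ * d + (σ - τ)⁻¹ * e, ?_, ?_⟩
    · rw [funext hfun]
      exact (hd.const_mul _).add (he.const_mul _)
    · rw [hfun]
      have e1 : j + 1 - 1 = j := by omega
      rw [e1] at he'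
      push_cast at he'
      have e2 : N * (-((j : ℝ) + 1) * (σ - τ)⁻¹ * d + (σ - τ)⁻¹ * e) =
        -((j : ℝ) + 1) * (σ - τ)⁻¹ * (N * d) + (σ - τ)⁻¹ * (N * e) := by ring
      have e3 : N * d = sc (τ, j) N - σ * (∑ i ∈ Finset.range (j + 1), q i * sc (τ, i) N) := by
        linarith
      rw [e2, e3, he']
      field_simp
      ring

lemma part_eq (σ : ℝ) (j : ℕ) : ∀ N : ℝ, 0 < N → ∃ d,
    HasDerivAt (fun N => ((j : ℝ) + 1)⁻¹ * sc (σ, j + 1) N) d N ∧
    N * d + σ * (((j : ℝ) + 1)⁻¹ * sc (σ, j + 1) N) = sc (σ, j) N := by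
  intro N hN
  obtain ⟨e, he, he'⟩ := sc_deriv σ (j + 1) hN
  refine ⟨_, he.const_mul _, ?_⟩
  have e1 : j + 1 - 1 = j := by omega
  rw [e1] at he'
  push_cast at he'
  have hj : (j : ℝ) + 1 ≠ 0 := by positivity
  have e2 : N * (((j : ℝ) + 1)⁻¹ * e) = ((j : ℝ) + 1)⁻¹ * (N * e) := by ring
  rw [e2, he']
  field_simp
  ring

/-- the particular solution, uniform version -/
lemma part (σ τ : ℝ) (j : ℕ) : ∃ q : ℕ → ℝ, (τ ≠ σ → q (j + 1) = 0) ∧ ∀ N : ℝ, 0 < N → ∃ d,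
    HasDerivAt (fun N => ∑ i ∈ Finset.range (j + 2), q i * sc (τ, i) N) d N ∧
    N * d + σ * (∑ i ∈ Finset.range (j + 2), q i * sc (τ, i) N) = sc (τ, j) N := by
  by_cases h : τ = σ
  · subst h
    refine ⟨fun i => if i = j + 1 then ((j : ℝ) + 1)⁻¹ else 0, fun h => absurd rfl h,
      fun N hN => ?_⟩
    have hfun : ∀ N : ℝ, ∑ i ∈ Finset.range (j + 2), (if i = j + 1 then ((j : ℝ) + 1)⁻¹ else 0) *
        sc (τ, i) N = ((j : ℝ) + 1)⁻¹ * sc (τ, j + 1) N := by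
      intro N
      rw [Finset.sum_range_succ, if_pos rfl, Finset.sum_eq_zero, zero_add]
      intro i hi
      have := Finset.mem_range.1 hi
      rw [if_neg (by omega), zero_mul]
    rw [funext hfun, hfun N]
    exact part_eq τ j N hN
  · obtain ⟨q, hq⟩ := part_ne h j
    refine ⟨fun i => if i = j + 1 then 0 else q i, fun _ => if_pos rfl, fun N hN => ?_⟩
    have hfun : ∀ N : ℝ, ∑ i ∈ Finset.range (j + 2), (if i = j + 1 then 0 else q i) *
        sc (τ, i) N = ∑ i ∈ Finset.range (j + 1), q i * sc (τ, i) N := by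
      intro N
      rw [Finset.sum_range_succ, if_pos rfl, zero_mul, add_zero]
      refine Finset.sum_congr rfl (fun i hi => ?_)
      have := Finset.mem_range.1 hi
      rw [if_neg (by omega)]
    rw [funext hfun, hfun N]
    exact hq N hN

lemma hasExp_single {Y : Type*} [NormedAddCommGroup Y] [NormedSpace ℂ Y] {s : Finset (ℝ × ℕ)}
    {κ : ℝ} {p : ℝ × ℕ} (hp : p ∈ s) (v : Y) : HasExp s κ (fun N => (sc p N : ℂ) • v) := by
  classical
  refine ⟨fun q => if q = p then v else 0, ?_⟩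
  have : (fun N => (sc p N : ℂ) • v - ∑ q ∈ s, (sc q N : ℂ) • (if q = p then v else 0)) =
      fun _ => (0 : Y) := by
    funext N
    rw [Finset.sum_eq_single p]
    · rw [if_pos rfl, sub_self]
    · intro b _ hb
      rw [if_neg hb, smul_zero]
    · intro h; exact absurd hp h
  rw [this]
  exact Asymptotics.isBigO_zero _ _

/-- growth of a function with small derivative -/
lemma growth {Y : Type*} [NormedAddCommGroup Y] [NormedSpace ℝ Y] {Φ Φ' : ℝ → Y} {K ρ N0 : ℝ}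
    (hN0 : 1 ≤ N0) (hρ : ρ ≠ 0) (hΦ : ∀ N, N0 ≤ N → HasDerivAt Φ (Φ' N) N)
    (hb : ∀ N, N0 ≤ N → ‖Φ' N‖ ≤ K * N ^ (ρ - 1)) {a b : ℝ} (ha : N0 ≤ a) (hab : a ≤ b) :
    ‖Φ b - Φ a‖ ≤ K / ρ * (b ^ ρ - a ^ ρ) := by
  have hpos : ∀ x ∈ Icc a b, 0 < x := fun x hx => by linarith [hx.1]
  have hB : ∀ x ∈ Icc a b, HasDerivAt (fun x : ℝ => K / ρ * (x ^ ρ - a ^ ρ))
      (K * x ^ (ρ - 1)) x := by
    intro x hx
    have h1 := ((Real.hasDerivAt_rpow_const (x := x) (p := ρ) (Or.inl (hpos x hx).ne')).sub_const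
      (a ^ ρ)).const_mul (K / ρ)
    have h2 : K / ρ * (ρ * x ^ (ρ - 1)) = K * x ^ (ρ - 1) := by
      field_simp
    rw [h2] at h1
    exact h1
  have := image_norm_le_of_norm_deriv_right_le_deriv_boundary' (f := fun x => Φ x - Φ a)
    (f' := Φ') (a := a) (b := b) (B := fun x : ℝ => K / ρ * (x ^ ρ - a ^ ρ))
    (B' := fun x => K * x ^ (ρ - 1))
    (fun x hx => ((hΦ x (ha.trans hx.1)).sub_const (Φ a)).continuousAt.continuousWithinAt)
    (fun x hx => ((hΦ x (ha.trans hx.1)).sub_const (Φ a)).hasDerivWithinAt)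
    (by simp)
    (fun x hx => (hB x hx).continuousAt.continuousWithinAt)
    (fun x hx => (hB x (Ico_subset_Icc_self hx)).hasDerivWithinAt)
    (fun x hx => hb x (ha.trans hx.1))
  exact this (right_mem_Icc.2 hab)

end B2aux

open B2aux

theorem ode_step {σ : ℚ} {κ : ℝ} (hσ : 0 < σ) (hκ : 0 < κ) (hκ' : Irrational κ)
    {s : Finset (ℝ × ℕ)} (hs : GoodScale κ s) : ∃ s' : Finset (ℝ × ℕ), GoodScale κ s' ∧
      ∀ (Y : Type) [NormedAddCommGroup Y] [NormedSpace ℂ Y] [CompleteSpace Y]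
        (f f' g : ℝ → Y), (∀ N : ℝ, 1 ≤ N → HasDerivAt f (f' N) N) → Continuous g →
        (∀ N : ℝ, 1 ≤ N → g N = (N : ℂ) • f' N + (σ : ℂ) • f N) → HasExp s κ g →
        HasExp s' κ f := by
  classical
  have hσ' : (0 : ℝ) < σ := by exact_mod_cast hσ
  have hσκ : (σ : ℝ) ≠ κ := fun h => hκ' ⟨σ, h⟩
  set s' : Finset (ℝ × ℕ) :=
    ((s.biUnion (fun p => (Finset.range (p.2 + 2)).image (fun i => (p.1, i)))).filter
      (fun p => p.1 = 0 → p.2 = 0)) ∪ (if (σ : ℝ) < κ then {((σ : ℝ), 0)} else ∅) with hs'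
  have hmem : ∀ p ∈ s, ∀ i ∈ Finset.range (p.2 + 2), (p.1 = 0 → i = 0) → (p.1, i) ∈ s' := by
    intro p hp i hi h
    rw [hs', Finset.mem_union, Finset.mem_filter, Finset.mem_biUnion]
    exact Or.inl ⟨⟨p, hp, Finset.mem_image.2 ⟨i, hi, rfl⟩⟩, h⟩
  refine ⟨s', ?_, ?_⟩
  · intro p hp
    rw [hs', Finset.mem_union] at hp
    rcases hp with hp | hp
    · rw [Finset.mem_filter, Finset.mem_biUnion] at hp
      obtain ⟨⟨p0, hp0, hpi⟩, h0⟩ := hp
      obtain ⟨i, _, rfl⟩ := Finset.mem_image.1 hpi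
      obtain ⟨h1, h2, _, h4⟩ := hs p0 hp0
      exact ⟨h1, h2, h0, h4⟩
    · split_ifs at hp with h
      · rw [Finset.mem_singleton.1 hp]
        exact ⟨hσ'.le, h, fun _ => rfl, σ, rfl⟩
      · simp at hp
  intro Y _ _ _ f f' g hf _ hg hexp
  obtain ⟨c, hc⟩ := hexp
  choose q hq1 hq2 using fun p : ℝ × ℕ => part (σ : ℝ) p.1 p.2
  set U : ℝ × ℕ → ℝ → ℝ := fun p N => ∑ i ∈ Finset.range (p.2 + 2), q p i * sc (p.1, i) N with hU
  set W : ℝ → Y := fun N => ∑ p ∈ s, (U p N) • c p with hW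
  set h : ℝ → Y := fun N => f N - W N with hh
  -- `W` has an expansion
  have hWexp : HasExp s' κ W := by
    have hterm : ∀ p ∈ s, HasExp s' κ (fun N => (U p N) • c p) := by
      intro p hp
      have h1 : (fun N => (U p N) • c p) = fun N => ∑ i ∈ Finset.range (p.2 + 2),
          (sc (p.1, i) N : ℂ) • (q p i • c p) := by
        funext N
        rw [hU]
        simp only [Finset.sum_smul]
        refine Finset.sum_congr rfl (fun i _ => ?_)
        rw [Complex.coe_smul, smul_smul, mul_comm]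
      rw [h1]
      refine HasExp.sum _ (fun i hi => ?_)
      by_cases hi0 : p.1 = 0 → i = 0
      · exact hasExp_single (hmem p hp i hi hi0) _
      · push Not at hi0
        have hq0 : q p i = 0 := by
          have h2 := (hs p hp).2.2.1 hi0.1
          have h3 := Finset.mem_range.1 hi
          have h4 : i = p.2 + 1 := by omega
          rw [h4]
          exact hq1 p (by rw [hi0.1]; exact hσ'.ne)
        rw [hq0]
        simp only [zero_smul, smul_zero]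
        exact HasExp.of_isBigO (Asymptotics.isBigO_zero _ _)
    exact HasExp.sum s hterm
  suffices hhexp : HasExp s' κ h by
    have h1 := hhexp.add hWexp
    have h2 : (fun N => h N + W N) = f := by
      funext N; rw [hh]; simp
    rwa [h2] at h1
  -- the differential equation of `h`
  choose dU hdU1 hdU2 using hq2
  let W' : ℝ → Y := fun N => ∑ p ∈ s, (if hN : 0 < N then dU p N hN else 0) • c p
  have hWd : ∀ N : ℝ, 0 < N → HasDerivAt W (W' N) N := by
    intro N hN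
    have h1 : HasDerivAt (fun N => ∑ p ∈ s, (U p N) • c p)
        (∑ p ∈ s, (if hN : 0 < N then dU p N hN else 0) • c p) N := by
      refine HasDerivAt.fun_sum (fun p _ => ?_)
      rw [dif_pos hN]
      exact (hdU1 p N hN).smul_const (c p)
    exact h1
  have hWe : ∀ N : ℝ, 0 < N → N • W' N + (σ : ℝ) • W N = ∑ p ∈ s, (sc p N : ℂ) • c p := by
    intro N hN
    simp only [W', hW, Finset.smul_sum]
    rw [← Finset.sum_add_distrib]
    refine Finset.sum_congr rfl (fun p _ => ?_)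
    rw [dif_pos hN, smul_smul, smul_smul, ← add_smul, Complex.coe_smul]
    congr 1
    exact hdU2 p N hN
  obtain ⟨K, hK⟩ := hc.bound
  obtain ⟨N0, hN0⟩ := Filter.eventually_atTop.1 hK
  set N1 : ℝ := max N0 1 with hN1
  have hN1' : 1 ≤ N1 := le_max_right _ _
  set Φ : ℝ → Y := fun N => (N ^ (σ : ℝ)) • h N with hΦ
  have hΦd : ∀ N : ℝ, N1 ≤ N → HasDerivAt Φ (N ^ ((σ : ℝ) - 1) •
      (g N - ∑ p ∈ s, (sc p N : ℂ) • c p)) N := by
    intro N hN
    have hN' : 1 ≤ N := hN1'.trans hN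
    have hN0' : 0 < N := by linarith
    have h1 := (Real.hasDerivAt_rpow_const (x := N) (p := (σ : ℝ)) (Or.inl hN0'.ne')).smul
      ((hf N hN').sub (hWd N hN0'))
    have h2 : HasDerivAt Φ (N ^ (σ : ℝ) • (f' N - W' N) +
        ((σ : ℝ) * N ^ ((σ : ℝ) - 1)) • (f N - W N)) N := h1
    convert h2 using 1
    rw [hg N hN', ← hWe N hN0']
    have e1 : ((σ : ℚ) : ℂ) • f N = (σ : ℝ) • f N := by
      rw [← Complex.coe_smul]; norm_num
    rw [Complex.coe_smul, e1]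
    have e2 : N ^ (σ : ℝ) = N ^ ((σ : ℝ) - 1) * N := by
      rw [Real.rpow_sub_one hN0'.ne']; field_simp
    rw [e2]
    module
  have hΦb : ∀ N : ℝ, N1 ≤ N → ‖N ^ ((σ : ℝ) - 1) • (g N - ∑ p ∈ s, (sc p N : ℂ) • c p)‖ ≤
      K * N ^ (((σ : ℝ) - κ) - 1) := by
    intro N hN
    have hN' : 1 ≤ N := hN1'.trans hN
    have hN0' : 0 < N := by linarith
    have h1 := hN0 N ((le_max_left _ _).trans hN)
    rw [norm_smul, Real.norm_of_nonneg (Real.rpow_nonneg hN0'.le _)]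
    rw [Real.norm_of_nonneg (Real.rpow_nonneg hN0'.le _)] at h1
    calc N ^ ((σ : ℝ) - 1) * ‖g N - ∑ p ∈ s, (sc p N : ℂ) • c p‖
        ≤ N ^ ((σ : ℝ) - 1) * (K * N ^ (-κ)) :=
          mul_le_mul_of_nonneg_left h1 (Real.rpow_nonneg hN0'.le _)
      _ = K * N ^ (((σ : ℝ) - κ) - 1) := by
          rw [show ((σ : ℝ) - κ) - 1 = ((σ : ℝ) - 1) + (-κ) by ring, Real.rpow_add hN0']
          ring
  have hρ : (σ : ℝ) - κ ≠ 0 := sub_ne_zero.2 hσκ
  have hgr : ∀ a b : ℝ, N1 ≤ a → a ≤ b →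
      ‖Φ b - Φ a‖ ≤ K / ((σ : ℝ) - κ) * (b ^ ((σ : ℝ) - κ) - a ^ ((σ : ℝ) - κ)) :=
    fun a b ha hab => growth hN1' hρ hΦd hΦb ha hab
  have hhΦ : ∀ N : ℝ, 0 < N → h N = N ^ (-(σ : ℝ)) • Φ N := by
    intro N hN
    rw [hΦ]
    simp only
    rw [smul_smul, ← Real.rpow_add hN, neg_add_cancel, Real.rpow_zero, one_smul]
  have hK0 : 0 ≤ K := by
    have h1 := hΦb N1 le_rfl
    have h2 : 0 < N1 ^ (((σ : ℝ) - κ) - 1) := Real.rpow_pos_of_pos (by linarith) _
    by_contra hneg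
    push Not at hneg
    have := (norm_nonneg _).trans h1
    nlinarith
  rcases lt_or_gt_of_ne hσκ with hlt | hgt
  · -- `σ < κ`
    have hκσ : 0 < κ - σ := by linarith
    have hgr' : ∀ a b : ℝ, N1 ≤ a → a ≤ b → ‖Φ b - Φ a‖ ≤ K / (κ - σ) * a ^ ((σ : ℝ) - κ) := by
      intro a b ha hab
      refine (hgr a b ha hab).trans ?_
      have h1 : K / ((σ : ℝ) - κ) = - (K / (κ - σ)) := by
        rw [← neg_sub κ (σ : ℝ), div_neg]
      rw [h1]
      have h2 : 0 ≤ b ^ ((σ : ℝ) - κ) := Real.rpow_nonneg (by linarith) _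
      have h3 : 0 ≤ K / (κ - σ) := div_nonneg hK0 hκσ.le
      nlinarith
    have hcauchy : CauchySeq Φ := by
      rw [Metric.cauchySeq_iff']
      intro ε hε
      have hlim : Tendsto (fun a : ℝ => K / (κ - σ) * a ^ ((σ : ℝ) - κ)) atTop (𝓝 0) := by
        have h1 := tendsto_rpow_neg_atTop hκσ
        have h2 : (fun a : ℝ => K / (κ - σ) * a ^ ((σ : ℝ) - κ)) =
            fun a : ℝ => K / (κ - σ) * a ^ (-(κ - σ)) := by
          funext a; rw [neg_sub]
        rw [h2]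
        simpa using h1.const_mul (K / (κ - σ))
      obtain ⟨a, ha⟩ := (((Metric.tendsto_nhds.1 hlim ε hε).and
        (Filter.eventually_ge_atTop N1))).exists
      refine ⟨a, fun b hb => ?_⟩
      rw [dist_eq_norm]
      refine (hgr' a b ha.2 hb).trans_lt ?_
      have := ha.1
      rw [dist_zero_right] at this
      exact (le_abs_self _).trans_lt this
    obtain ⟨C, hC⟩ := cauchySeq_tendsto_of_complete hcauchy
    have hCb : ∀ a : ℝ, N1 ≤ a → ‖Φ a - C‖ ≤ K / (κ - σ) * a ^ ((σ : ℝ) - κ) := by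
      intro a ha
      rw [norm_sub_rev]
      refine le_of_tendsto ((hC.sub_const (Φ a)).norm) ?_
      filter_upwards [Filter.eventually_ge_atTop a] with b hb
      exact hgr' a b ha hb
    have hσs : ((σ : ℝ), 0) ∈ s' := by
      rw [hs', Finset.mem_union, if_pos hlt]
      exact Or.inr (Finset.mem_singleton_self _)
    have h1 : HasExp s' κ (fun N => (sc ((σ : ℝ), 0) N : ℂ) • C) := hasExp_single hσs C
    have h2 : HasExp s' κ (fun N => h N - (sc ((σ : ℝ), 0) N : ℂ) • C) := by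
      refine HasExp.of_isBigO ?_
      refine Asymptotics.IsBigO.of_bound (K / (κ - σ)) ?_
      filter_upwards [Filter.eventually_ge_atTop N1] with N hN
      have hN' : 1 ≤ N := hN1'.trans hN
      have hN0' : 0 < N := by linarith
      have e1 : h N - (sc ((σ : ℝ), 0) N : ℂ) • C = N ^ (-(σ : ℝ)) • (Φ N - C) := by
        rw [smul_sub, ← hhΦ N hN0', Complex.coe_smul]
        simp [sc]
      rw [e1, norm_smul, Real.norm_of_nonneg (Real.rpow_nonneg hN0'.le _),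
        Real.norm_of_nonneg (Real.rpow_nonneg hN0'.le _)]
      calc N ^ (-(σ : ℝ)) * ‖Φ N - C‖ ≤ N ^ (-(σ : ℝ)) * (K / (κ - σ) * N ^ ((σ : ℝ) - κ)) :=
            mul_le_mul_of_nonneg_left (hCb N hN) (Real.rpow_nonneg hN0'.le _)
        _ = K / (κ - σ) * N ^ (-κ) := by
            rw [show (-κ) = (-(σ : ℝ)) + ((σ : ℝ) - κ) by ring, Real.rpow_add hN0']
            ring
    have h3 := h2.add h1
    have h4 : (fun N => h N - (sc ((σ : ℝ), 0) N : ℂ) • C + (sc ((σ : ℝ), 0) N : ℂ) • C) = h := by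
      funext N; simp
    rwa [h4] at h3
  · -- `κ < σ`
    have hσκ' : 0 < (σ : ℝ) - κ := by linarith
    refine HasExp.of_isBigO ?_
    refine Asymptotics.IsBigO.of_bound (‖Φ N1‖ + K / ((σ : ℝ) - κ)) ?_
    filter_upwards [Filter.eventually_ge_atTop N1] with N hN
    have hN' : 1 ≤ N := hN1'.trans hN
    have hN0' : 0 < N := by linarith
    rw [hhΦ N hN0', norm_smul, Real.norm_of_nonneg (Real.rpow_nonneg hN0'.le _),
      Real.norm_of_nonneg (Real.rpow_nonneg hN0'.le _)]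
    have h1 : ‖Φ N‖ ≤ (‖Φ N1‖ + K / ((σ : ℝ) - κ)) * N ^ ((σ : ℝ) - κ) := by
      have h2 := hgr N1 N le_rfl hN
      have h3 : ‖Φ N‖ ≤ ‖Φ N1‖ + ‖Φ N - Φ N1‖ := by
        have := norm_add_le (Φ N1) (Φ N - Φ N1)
        rwa [add_sub_cancel] at this
      have h4 : 1 ≤ N ^ ((σ : ℝ) - κ) := Real.one_le_rpow hN' hσκ'.le
      have h5 : 0 ≤ N1 ^ ((σ : ℝ) - κ) := Real.rpow_nonneg (by linarith) _
      have h6 : 0 ≤ K / ((σ : ℝ) - κ) := div_nonneg hK0 hσκ'.le
      have h7 : 0 ≤ ‖Φ N1‖ := norm_nonneg _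
      nlinarith
    calc N ^ (-(σ : ℝ)) * ‖Φ N‖ ≤ N ^ (-(σ : ℝ)) *
          ((‖Φ N1‖ + K / ((σ : ℝ) - κ)) * N ^ ((σ : ℝ) - κ)) :=
          mul_le_mul_of_nonneg_left h1 (Real.rpow_nonneg hN0'.le _)
      _ = (‖Φ N1‖ + K / ((σ : ℝ) - κ)) * N ^ (-κ) := by
          rw [show (-κ) = (-(σ : ℝ)) + ((σ : ℝ) - κ) by ring, Real.rpow_add hN0']
          ring

end Pool.Agent.Helper7.KE
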