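import Pool.Agent.Helper7.KE.A1
import Pool.Agent.Helper7.KE.B2

set_option autoImplicit false

open MeasureTheory Set Filter Asymptotics Topology Metric
open scoped ComplexConjugate ENNReal

namespace Pool.Agent.Helper7.KE

namespace B3

section basic

variable {Y : Type*} [NormedAddCommGroup Y] [NormedSpace ℂ Y]

/-- test functions vanish off the set -/
theorem test_zero {V : Set ℂ} {F : ℂ → Y} (hF : IsTest V F) {z : ℂ} (hz : z ∉ V) : F z = 0 :=
  image_eq_zero_of_notMem_tsupport fun h => hz (hF.supp h)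

theorem test_ext {V : Set ℂ} {F G : ℂ → Y} (hF : IsTest V F) (hG : IsTest V G)
    (h : ∀ z ∈ V, F z = G z) : F = G := by
  funext z
  by_cases hz : z ∈ V
  · exact h z hz
  · rw [test_zero hF hz, test_zero hG hz]

theorem test_integrable {V : Set ℂ} {F : ℂ → Y} (hF : IsTest V F) (U : Set ℂ) :
    Integrable F (volume.restrict U) :=
  (hF.smooth.continuous.integrable_of_hasCompactSupport hF.compact).restrict

theorem test_diff {V : Set ℂ} {F : ℂ → Y} (hF : IsTest V F) (z : ℂ) : DifferentiableAt ℝ F z :=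
  hF.smooth.differentiable (by simp) z

theorem test_const_smul {V : Set ℂ} (hV : IsOpen V) {F : ℂ → Y} (hF : IsTest V F) (c : ℂ) :
    IsTest V (fun z => c • F z) :=
  IsTest.smul (f := fun _ => c) hV contDiffOn_const hF

theorem test_neg {V : Set ℂ} (hV : IsOpen V) {F : ℂ → Y} (hF : IsTest V F) :
    IsTest V (fun z => -F z) := by
  have := test_const_smul hV hF (-1)
  simpa using this

/-- finite sums of `(z-p)^a (z̄-p̄)^b G₀` with `a + b = n` and test functions `G₀` -/
inductive MM (B : Set ℂ) (p : ℂ) (n : ℕ) : (ℂ → Y) → Prop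
  | mono (a b : ℕ) (G : ℂ → Y) (h : a + b = n) (hG : IsTest B G) :
      MM B p n (fun z => ((z - p) ^ a * conj (z - p) ^ b) • G z)
  | add (F G : ℂ → Y) (hF : MM B p n F) (hG : MM B p n G) : MM B p n (fun z => F z + G z)

theorem smooth_q (p : ℂ) (a b : ℕ) :
    ContDiff ℝ (⊤ : ℕ∞) (fun z : ℂ => (z - p) ^ a * conj (z - p) ^ b) := by
  have h1 : ContDiff ℝ (⊤ : ℕ∞) (fun z : ℂ => z - p) := contDiff_id.sub contDiff_const
  have h2 : ContDiff ℝ (⊤ : ℕ∞) (fun z : ℂ => conj (z - p)) :=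
    Complex.conjCLE.contDiff.comp h1
  exact (h1.pow a).mul (h2.pow b)

theorem MM.isTest {B : Set ℂ} (hB : IsOpen B) {p : ℂ} {n : ℕ} {F : ℂ → Y} (h : MM B p n F) :
    IsTest B F := by
  induction h with
  | mono a b G h hG => exact IsTest.smul hB (smooth_q p a b).contDiffOn hG
  | add F G hF hG ihF ihG => exact IsTest.add ihF ihG

theorem MM.smul {B : Set ℂ} (hB : IsOpen B) {p : ℂ} {n : ℕ} {F : ℂ → Y} (h : MM B p n F)
    {φ : ℂ → ℂ} (hφ : ContDiffOn ℝ (⊤ : ℕ∞) φ B) : MM B p n (fun z => φ z • F z) := by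
  induction h with
  | mono a b G h hG =>
    have := MM.mono (p := p) a b (fun z => φ z • G z) h (IsTest.smul hB hφ hG)
    convert this using 2 with z
    rw [smul_comm]
  | add F G hF hG ihF ihG =>
    have := MM.add _ _ ihF ihG
    convert this using 2 with z
    rw [smul_add]

theorem MM.qpow {B : Set ℂ} {p : ℂ} {n : ℕ} {F : ℂ → Y} (h : MM B p n F) (k : ℕ) :
    MM B p (n + k) (fun z => (z - p) ^ k • F z) := by
  induction h with
  | mono a b G h hG =>
    have := MM.mono (B := B) (p := p) (n := n + k) (k + a) b G (by omega) hG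
    convert this using 2 with z
    rw [smul_smul]
    congr 1
    ring
  | add F G hF hG ihF ihG =>
    have := MM.add _ _ ihF ihG
    convert this using 2 with z
    rw [smul_add]

theorem MM.qbpow {B : Set ℂ} {p : ℂ} {n : ℕ} {F : ℂ → Y} (h : MM B p n F) (k : ℕ) :
    MM B p (n + k) (fun z => conj (z - p) ^ k • F z) := by
  induction h with
  | mono a b G h hG =>
    have := MM.mono (B := B) (p := p) (n := n + k) a (k + b) G (by omega) hG
    convert this using 2 with z
    rw [smul_smul]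
    congr 1
    ring
  | add F G hF hG ihF ihG =>
    have := MM.add _ _ ihF ihG
    convert this using 2 with z
    rw [smul_add]

theorem MM.congr {B : Set ℂ} (hB : IsOpen B) {p : ℂ} {n : ℕ} {F G : ℂ → Y} (h : MM B p n F)
    (hG : IsTest B G) (e : ∀ z ∈ B, F z = G z) : MM B p n G := by
  rw [← test_ext (h.isTest hB) hG e]
  exact h

end basic

section mono

variable {Y : Type*} [NormedAddCommGroup Y] [NormedSpace ℂ Y]

theorem dz_mono (p : ℂ) (a b : ℕ) (z : ℂ) :
    dz (fun z : ℂ => (z - p) ^ a * conj (z - p) ^ b) z =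
        a * (z - p) ^ (a - 1) * conj (z - p) ^ b ∧
      dzb (fun z : ℂ => (z - p) ^ a * conj (z - p) ^ b) z =
        (z - p) ^ a * (b * conj (z - p) ^ (b - 1)) := by
  have h1 : ∀ n : ℕ, HasDerivAt (fun z : ℂ => (z - p) ^ n) (n * (z - p) ^ (n - 1)) z := by
    intro n
    have := ((hasDerivAt_id z).sub_const p).fun_pow n
    simpa using this
  have ha := h1 a
  have hb := h1 b
  have e : (fun z : ℂ => (z - p) ^ a * conj (z - p) ^ b) =
      fun z => (fun z : ℂ => (z - p) ^ a) z • (fun z : ℂ => conj ((fun z : ℂ => (z - p) ^ b) z)) z := by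
    funext z
    simp
  have hc := dz_conj_hol (f := fun z : ℂ => (z - p) ^ b) hb.differentiableAt
  have hd := dz_hol (F := fun z : ℂ => (z - p) ^ a) ha.differentiableAt
  have ra : DifferentiableAt ℝ (fun z : ℂ => (z - p) ^ a) z :=
    ha.differentiableAt.restrictScalars ℝ
  have rb : DifferentiableAt ℝ (fun z : ℂ => conj ((fun z : ℂ => (z - p) ^ b) z)) z :=
    Complex.conjCLE.differentiableAt.comp z (hb.differentiableAt.restrictScalars ℝ)
  have h := dz_smul ra rb
  rw [e, h.1, h.2, hc.1, hc.2, hd.1, hd.2, ha.deriv, hb.deriv]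
  simp

theorem dz_mono_smul (p : ℂ) (a b : ℕ) {G : ℂ → Y} {z : ℂ} (hG : DifferentiableAt ℝ G z) :
    dz (fun z => ((z - p) ^ a * conj (z - p) ^ b) • G z) z =
        (a * (z - p) ^ (a - 1) * conj (z - p) ^ b) • G z +
          ((z - p) ^ a * conj (z - p) ^ b) • dz G z ∧
      dzb (fun z => ((z - p) ^ a * conj (z - p) ^ b) • G z) z =
        ((z - p) ^ a * (b * conj (z - p) ^ (b - 1))) • G z +
          ((z - p) ^ a * conj (z - p) ^ b) • dzb G z := by
  have hd : DifferentiableAt ℝ (fun z : ℂ => (z - p) ^ a * conj (z - p) ^ b) z :=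
    (smooth_q p a b).differentiable (by simp) z
  have h := dz_smul hd hG
  rw [h.1, h.2, (dz_mono p a b z).1, (dz_mono p a b z).2]
  exact ⟨rfl, rfl⟩

theorem MM_dz {B : Set ℂ} (hB : IsOpen B) (p : ℂ) (c b : ℕ) {G : ℂ → Y} (hG : IsTest B G) :
    MM B p (c + b) (dz (fun z => ((z - p) ^ (c + 1) * conj (z - p) ^ b) • G z)) := by
  have t1 : IsTest B (fun z => ((c : ℂ) + 1) • G z) := test_const_smul hB hG _
  have t2 : IsTest B (fun z => (z - p) • dz G z) :=
    IsTest.smul hB ((contDiff_id.sub contDiff_const).contDiffOn) hG.dz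
  have h := MM.mono (B := B) (p := p) c b _ rfl (IsTest.add t1 t2)
  convert h using 1
  funext z
  rw [(dz_mono_smul p (c + 1) b (test_diff hG z)).1, Nat.add_sub_cancel]
  simp only [smul_add, smul_smul]
  congr 2
  · push_cast; ring
  · ring

theorem MM_dzb {B : Set ℂ} (hB : IsOpen B) (p : ℂ) (a c : ℕ) {G : ℂ → Y} (hG : IsTest B G) :
    MM B p (a + c) (dzb (fun z => ((z - p) ^ a * conj (z - p) ^ (c + 1)) • G z)) := by
  have t1 : IsTest B (fun z => ((c : ℂ) + 1) • G z) := test_const_smul hB hG _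
  have t2 : IsTest B (fun z => conj (z - p) • dzb G z) :=
    IsTest.smul hB (Complex.conjCLE.contDiff.comp (contDiff_id.sub contDiff_const)).contDiffOn
      hG.dzb
  have h := MM.mono (B := B) (p := p) a c _ rfl (IsTest.add t1 t2)
  convert h using 1
  funext z
  rw [(dz_mono_smul p a (c + 1) (test_diff hG z)).2, Nat.add_sub_cancel]
  simp only [smul_add, smul_smul]
  congr 2
  · push_cast; ring
  · ring

end mono

/-- the data of `local_expansion` -/
structure LD (m : ℕ) (Y : Type) [NormedAddCommGroup Y] [NormedSpace ℂ Y] where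
  U : Set ℂ
  hU : MeasurableSet U
  p : ℂ
  ε : ℝ
  hε : 0 < ε
  f : ℂ → ℂ
  u : ℂ → ℂ
  u₁ : ℂ → ℂ
  hu : DifferentiableOn ℂ u (ball p ε)
  hu₁ : DifferentiableOn ℂ u₁ (ball p ε)
  u_ne : ∀ z ∈ ball p ε, u z ≠ 0
  u₁_ne : ∀ z ∈ ball p ε, u₁ z ≠ 0
  hf : ∀ z ∈ ball p ε, f z = (z - p) ^ m * u z
  hf' : ∀ z ∈ ball p ε, HasDerivAt f ((z - p) ^ (m - 1) * u₁ z) z
  g1 : ∀ G : ℂ → Y, IsTest (ball p ε) G →
    ∫ z in U, dz (fun z => ((f z).re : ℂ) • G z) z = 0
  g2 : ∀ G : ℂ → Y, IsTest (ball p ε) G →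
    ∫ z in U, dzb (fun z => ((f z).re : ℂ) • G z) z = 0
  g3 : ∀ G : ℂ → Y, IsTest (ball p ε) G →
    ∫ z in U, (dz (fun z => ((z - p) * u z / u₁ z) • G z) z +
      dzb (fun z => conj ((z - p) * u z / u₁ z) • G z) z) = 0

namespace LD

variable {m : ℕ} {Y : Type} [NormedAddCommGroup Y] [NormedSpace ℂ Y] (D : LD m Y)

/-- the ball -/
def B : Set ℂ := ball D.p D.ε

/-- the phase, as a complex valued function -/
noncomputable def ψ (z : ℂ) : ℂ := ((D.f z).re : ℂ)

/-- the oscillating factor -/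
noncomputable def e (N : ℝ) (z : ℂ) : ℂ := Complex.exp (Complex.I * (N * (D.f z).re : ℝ))

/-- the quotient `w = f / f'` -/
noncomputable def w (z : ℂ) : ℂ := (z - D.p) * D.u z / D.u₁ z

/-- the oscillating integral -/
noncomputable def J (N : ℝ) (G : ℂ → Y) : Y := ∫ z in D.U, D.e N z • G z

/-- the Euler operator -/
noncomputable def EE (G : ℂ → Y) (z : ℂ) : Y :=
  dz (fun z => D.w z • G z) z + dzb (fun z => conj (D.w z) • G z) z

theorem B_open : IsOpen D.B := isOpen_ball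

theorem f_smooth : ContDiffOn ℝ (⊤ : ℕ∞) D.f D.B :=
  hol_contDiffOn D.B_open fun z hz => (D.hf' z hz).differentiableAt.differentiableWithinAt

theorem psi_smooth : ContDiffOn ℝ (⊤ : ℕ∞) D.ψ D.B := by
  have h : ContDiff ℝ (⊤ : ℕ∞) (fun z : ℂ => ((z.re : ℝ) : ℂ)) :=
    Complex.ofRealCLM.contDiff.comp Complex.reCLM.contDiff
  exact h.comp_contDiffOn D.f_smooth

theorem e_eq (N : ℝ) (z : ℂ) : D.e N z = Complex.exp (Complex.I * N * D.ψ z) := by
  simp [e, ψ, mul_assoc]

theorem e_smooth (N : ℝ) : ContDiffOn ℝ (⊤ : ℕ∞) (D.e N) D.B := by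
  have h : D.e N = fun z => Complex.exp (Complex.I * N * D.ψ z) := funext (D.e_eq N)
  rw [h]
  exact (contDiffOn_const.mul D.psi_smooth).cexp

theorem w_diff : DifferentiableOn ℂ D.w D.B :=
  ((differentiableOn_id.sub_const _).mul D.hu).div D.hu₁ D.u₁_ne

theorem w_smooth : ContDiffOn ℝ (⊤ : ℕ∞) D.w D.B := hol_contDiffOn D.B_open D.w_diff

theorem conj_smooth {g : ℂ → ℂ} {V : Set ℂ} (hg : ContDiffOn ℝ (⊤ : ℕ∞) g V) :
    ContDiffOn ℝ (⊤ : ℕ∞) (fun z => conj (g z)) V :=
  Complex.conjCLE.contDiff.comp_contDiffOn hg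

theorem diffAt {Z : Type*} [NormedAddCommGroup Z] [NormedSpace ℂ Z] {g : ℂ → Z}
    (hg : ContDiffOn ℝ (⊤ : ℕ∞) g D.B) {z : ℂ} (hz : z ∈ D.B) : DifferentiableAt ℝ g z :=
  (hg.contDiffAt (D.B_open.mem_nhds hz)).differentiableAt (by simp)

/-- `∂ψ/∂z` -/
theorem dz_psi {z : ℂ} (hz : z ∈ D.B) :
    dz D.ψ z = 2⁻¹ * ((z - D.p) ^ (m - 1) * D.u₁ z) := by
  have h := dz_re (D.hf' z hz).differentiableAt
  rw [(D.hf' z hz).deriv] at h
  exact h

theorem dzb_psi {z : ℂ} (hz : z ∈ D.B) : dzb D.ψ z = conj (dz D.ψ z) := by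
  have h : DifferentiableAt ℝ (fun z => (D.f z).re) z :=
    Complex.reCLM.differentiableAt.comp z (D.diffAt D.f_smooth hz)
  exact dzb_ofReal h

theorem dz_e (N : ℝ) {z : ℂ} (hz : z ∈ D.B) :
    dz (D.e N) z = D.e N z * (Complex.I * N * dz D.ψ z) ∧
      dzb (D.e N) z = D.e N z * (Complex.I * N * dzb D.ψ z) := by
  have h : D.e N = fun z => Complex.exp (Complex.I * N * D.ψ z) := funext (D.e_eq N)
  have hψ := D.diffAt D.psi_smooth hz
  have h1 := dz_cexp (f := fun z => Complex.I * N * D.ψ z) ((hψ.const_mul (Complex.I * N)))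
  have h2 := dz_smul (f := fun _ => Complex.I * (N : ℂ)) (F := D.ψ) (z := z)
    (differentiableAt_const _) hψ
  simp only [smul_eq_mul] at h2
  rw [h]
  rw [(dz_const (Y := ℂ) (c := Complex.I * (N : ℂ)) (z := z)).1,
    (dz_const (Y := ℂ) (c := Complex.I * (N : ℂ)) (z := z)).2] at h2
  rw [h1.1, h1.2, h2.1, h2.2]
  simp

theorem e_test (N : ℝ) {G : ℂ → Y} (hG : IsTest D.B G) : IsTest D.B (fun z => D.e N z • G z) :=
  IsTest.smul D.B_open (D.e_smooth N) hG

theorem J_add (N : ℝ) {F G : ℂ → Y} (hF : IsTest D.B F) (hG : IsTest D.B G) :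
    D.J N (fun z => F z + G z) = D.J N F + D.J N G := by
  rw [J, J, J, ← integral_add (test_integrable (D.e_test N hF) _)
    (test_integrable (D.e_test N hG) _)]
  simp only [smul_add]

theorem J_smul (N : ℝ) (c : ℂ) (F : ℂ → Y) :
    D.J N (fun z => c • F z) = c • D.J N F := by
  rw [J, J, ← integral_smul]
  congr 1
  funext z
  rw [smul_comm]

theorem J_neg (N : ℝ) (F : ℂ → Y) : D.J N (fun z => - F z) = - D.J N F := by
  have := D.J_smul N (-1) F
  simpa using this

theorem norm_e (N : ℝ) (z : ℂ) : ‖D.e N z‖ = 1 := by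
  rw [e, mul_comm, Complex.norm_exp_ofReal_mul_I]

theorem J_bound {G : ℂ → Y} (N : ℝ) : ‖D.J N G‖ ≤ ∫ z in D.U, ‖G z‖ := by
  refine (norm_integral_le_integral_norm _).trans_eq ?_
  congr 1
  funext z
  rw [norm_smul, norm_e, one_mul]

theorem J_deriv {G : ℂ → Y} (hG : IsTest D.B G) (N : ℝ) :
    HasDerivAt (fun N => D.J N G) (D.J N (fun z => (Complex.I * D.ψ z) • G z)) N := by
  have hψ : IsTest D.B (fun z => (Complex.I * D.ψ z) • G z) :=
    IsTest.smul D.B_open (contDiffOn_const.mul D.psi_smooth) hG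
  have hb : Integrable (fun z => ‖(Complex.I * D.ψ z) • G z‖) (volume.restrict D.U) :=
    (test_integrable hψ _).norm
  refine (hasDerivAt_integral_of_dominated_loc_of_deriv_le (𝕜 := ℝ) (μ := volume.restrict D.U)
    (x₀ := N) (F := fun (N : ℝ) z => D.e N z • G z)
    (F' := fun (N : ℝ) z => D.e N z • ((Complex.I * D.ψ z) • G z))
    (s := univ) univ_mem ?_ ?_ ?_ ?_ hb ?_).2
  · exact Eventually.of_forall fun N => (test_integrable (D.e_test N hG) _).1
  · exact test_integrable (D.e_test N hG) _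
  · exact (test_integrable (D.e_test N hψ) _).1
  · refine Eventually.of_forall fun z N _ => ?_
    rw [norm_smul, norm_e, one_mul]
  · refine Eventually.of_forall fun z N _ => ?_
    have h1 : HasDerivAt (fun N : ℝ => Complex.I * (N : ℂ) * D.ψ z) (Complex.I * D.ψ z) N := by
      have := ((Complex.ofRealCLM.hasDerivAt (x := N)).const_mul Complex.I).mul_const (D.ψ z)
      simpa using this
    have h2 := h1.cexp
    have h3 : (fun N : ℝ => D.e N z) = fun N : ℝ => Complex.exp (Complex.I * N * D.ψ z) :=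
      funext fun N => D.e_eq N z
    rw [← h3, ← D.e_eq] at h2
    have h4 := h2.smul_const (G z)
    rw [mul_smul] at h4
    exact h4

theorem J_cont {G : ℂ → Y} (hG : IsTest D.B G) : Continuous (fun N => D.J N G) :=
  continuous_iff_continuousAt.2 fun N => (D.J_deriv hG N).continuousAt

theorem EE_test {G : ℂ → Y} (hG : IsTest D.B G) : IsTest D.B (D.EE G) :=
  IsTest.add (IsTest.smul D.B_open D.w_smooth hG).dz
    (IsTest.smul D.B_open (conj_smooth D.w_smooth) hG).dzb

/-- `w ψ_z = f/2` -/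
theorem w_psi (hm : 1 ≤ m) {z : ℂ} (hz : z ∈ D.B) :
    dz D.ψ z * D.w z + dzb D.ψ z * conj (D.w z) = D.ψ z := by
  have h1 : dz D.ψ z * D.w z = 2⁻¹ * D.f z := by
    rw [D.dz_psi hz, w, D.hf z hz]
    have h2 := D.u₁_ne z hz
    obtain ⟨k, rfl⟩ : ∃ k, m = k + 1 := ⟨m - 1, by omega⟩
    field_simp
    rw [Nat.add_sub_cancel]
    ring
  have h2 : dzb D.ψ z * conj (D.w z) = conj (2⁻¹ * D.f z) := by
    rw [D.dzb_psi hz, ← h1, map_mul]
  rw [h1, h2, ψ]
  apply Complex.ext
  · simp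
    ring
  · simp

/-- the Euler identity -/
theorem euler (hm : 1 ≤ m) {G : ℂ → Y} (hG : IsTest D.B G) (N : ℝ) :
    (N : ℂ) • D.J N (fun z => (Complex.I * D.ψ z) • G z) + D.J N (D.EE G) = 0 := by
  have h0 := D.g3 _ (D.e_test N hG)
  have hψ : IsTest D.B (fun z => (Complex.I * D.ψ z) • G z) :=
    IsTest.smul D.B_open (contDiffOn_const.mul D.psi_smooth) hG
  rw [← D.J_smul, ← D.J_add N (test_const_smul D.B_open hψ _) (D.EE_test hG), J, ← h0]
  have h1 : (fun z => D.e N z • ((N : ℂ) • (Complex.I * D.ψ z) • G z + D.EE G z)) =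
      fun z => (dz (fun z => ((z - D.p) * D.u z / D.u₁ z) • (D.e N z • G z)) z +
      dzb (fun z => conj ((z - D.p) * D.u z / D.u₁ z) • (D.e N z • G z)) z) := by
    refine test_ext (D.e_test N (IsTest.add (test_const_smul D.B_open hψ _) (D.EE_test hG)))
      (IsTest.add (IsTest.smul D.B_open D.w_smooth (D.e_test N hG)).dz
        (IsTest.smul D.B_open (conj_smooth D.w_smooth) (D.e_test N hG)).dzb) fun z hz => ?_
    have e1 : (fun z => ((z - D.p) * D.u z / D.u₁ z) • (D.e N z • G z)) =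
        fun z => D.e N z • (D.w z • G z) := by
      funext z; rw [smul_comm]; rfl
    have e2 : (fun z => conj ((z - D.p) * D.u z / D.u₁ z) • (D.e N z • G z)) =
        fun z => D.e N z • (conj (D.w z) • G z) := by
      funext z; rw [smul_comm]; rfl
    rw [e1, e2]
    have he := D.diffAt (D.e_smooth N) hz
    have d1 := D.diffAt (IsTest.smul D.B_open D.w_smooth hG).smooth.contDiffOn hz
    have d2 := D.diffAt
      (IsTest.smul D.B_open (conj_smooth D.w_smooth) hG).smooth.contDiffOn hz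
    rw [(dz_smul he d1).1, (dz_smul he d2).2, (D.dz_e N hz).1, (D.dz_e N hz).2]
    have h3 := D.w_psi hm hz
    rw [EE]
    simp only [smul_add, smul_smul]
    have h4 : D.e N z * (Complex.I * N * dz D.ψ z) * D.w z +
        D.e N z * (Complex.I * N * dzb D.ψ z) * conj (D.w z) =
        D.e N z * (N * (Complex.I * D.ψ z)) := by
      rw [← h3]; ring
    rw [← h4, add_smul]
    abel
  rw [h1]

/-- derivative of a power of the phase -/
theorem dz_psi_pow (l : ℕ) {z : ℂ} (hz : z ∈ D.B) :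
    dz (fun z => D.ψ z ^ (l + 1)) z = (l + 1) * D.ψ z ^ l * dz D.ψ z ∧
      dzb (fun z => D.ψ z ^ (l + 1)) z = (l + 1) * D.ψ z ^ l * dzb D.ψ z := by
  have h : DifferentiableAt ℝ (fun z => (D.f z).re) z :=
    Complex.reCLM.differentiableAt.comp z (D.diffAt D.f_smooth hz)
  have h1 : HasDerivAt (fun x : ℝ => x ^ (l + 1)) (((l : ℝ) + 1) * (D.f z).re ^ l)
      ((fun z => (D.f z).re) z) := by
    have := hasDerivAt_pow (l + 1) (D.f z).re
    simpa using this
  have h2 := dz_comp_real h h1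
  have h3 : (fun w => (((D.f w).re ^ (l + 1) : ℝ) : ℂ)) = fun z => D.ψ z ^ (l + 1) := by
    funext w; rw [ψ]; push_cast; rfl
  rw [h3] at h2
  push_cast at h2
  exact h2

/-- the first Green identity -/
theorem green1 {H : ℂ → Y} (hH : IsTest D.B H) (l : ℕ) (N : ℝ) :
    (N : ℂ) • D.J N (fun z => (Complex.I * D.ψ z ^ (l + 1) * dz D.ψ z) • H z) +
      ((l : ℂ) + 1) • D.J N (fun z => (D.ψ z ^ l * dz D.ψ z) • H z) +
      D.J N (fun z => D.ψ z ^ (l + 1) • dz H z) = 0 := by
  have sψ := D.psi_smooth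
  have sdψ := (dz_contDiffOn D.B_open sψ).1
  have t1 : IsTest D.B (fun z => (Complex.I * D.ψ z ^ (l + 1) * dz D.ψ z) • H z) :=
    IsTest.smul D.B_open ((contDiffOn_const.mul (sψ.pow _)).mul sdψ) hH
  have t2 : IsTest D.B (fun z => (D.ψ z ^ l * dz D.ψ z) • H z) :=
    IsTest.smul D.B_open ((sψ.pow _).mul sdψ) hH
  have t3 : IsTest D.B (fun z => D.ψ z ^ (l + 1) • dz H z) :=
    IsTest.smul D.B_open (sψ.pow _) hH.dz
  have t0 : IsTest D.B (fun z => (D.e N z * D.ψ z ^ l) • H z) :=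
    IsTest.smul D.B_open ((D.e_smooth N).mul (sψ.pow _)) hH
  have h0 := D.g1 _ t0
  have t1' := test_const_smul D.B_open t1 (N : ℂ)
  have t2' := test_const_smul D.B_open t2 ((l : ℂ) + 1)
  rw [← D.J_smul, ← D.J_smul, ← D.J_add N t1' t2', ← D.J_add N (IsTest.add t1' t2') t3, J, ← h0]
  congr 1
  refine test_ext (D.e_test N (IsTest.add (IsTest.add t1' t2') t3))
    (IsTest.smul D.B_open sψ t0).dz fun z hz => ?_
  have e1 : (fun z => ((D.f z).re : ℂ) • ((D.e N z * D.ψ z ^ l) • H z)) =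
      fun z => D.e N z • (D.ψ z ^ (l + 1) • H z) := by
    funext z
    simp only [smul_smul]
    congr 1
    rw [show ((D.f z).re : ℂ) = D.ψ z from rfl]
    ring
  rw [e1]
  have he := D.diffAt (D.e_smooth N) hz
  have hp := D.diffAt (sψ.pow (l + 1)) hz
  have hH' := test_diff hH z
  have d1 : DifferentiableAt ℝ (fun z => D.ψ z ^ (l + 1) • H z) z := hp.smul hH'
  rw [(dz_smul he d1).1, (dz_smul hp hH').1, (D.dz_e N hz).1, (D.dz_psi_pow l hz).1]
  simp only [smul_add, smul_smul]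
  rw [← add_assoc]
  congr 2 <;> congr 1 <;> ring

/-- the second Green identity -/
theorem green2 {H : ℂ → Y} (hH : IsTest D.B H) (l : ℕ) (N : ℝ) :
    (N : ℂ) • D.J N (fun z => (Complex.I * D.ψ z ^ (l + 1) * dzb D.ψ z) • H z) +
      ((l : ℂ) + 1) • D.J N (fun z => (D.ψ z ^ l * dzb D.ψ z) • H z) +
      D.J N (fun z => D.ψ z ^ (l + 1) • dzb H z) = 0 := by
  have sψ := D.psi_smooth
  have sdψ := (dz_contDiffOn D.B_open sψ).2
  have t1 : IsTest D.B (fun z => (Complex.I * D.ψ z ^ (l + 1) * dzb D.ψ z) • H z) :=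
    IsTest.smul D.B_open ((contDiffOn_const.mul (sψ.pow _)).mul sdψ) hH
  have t2 : IsTest D.B (fun z => (D.ψ z ^ l * dzb D.ψ z) • H z) :=
    IsTest.smul D.B_open ((sψ.pow _).mul sdψ) hH
  have t3 : IsTest D.B (fun z => D.ψ z ^ (l + 1) • dzb H z) :=
    IsTest.smul D.B_open (sψ.pow _) hH.dzb
  have t0 : IsTest D.B (fun z => (D.e N z * D.ψ z ^ l) • H z) :=
    IsTest.smul D.B_open ((D.e_smooth N).mul (sψ.pow _)) hH
  have h0 := D.g2 _ t0
  have t1' := test_const_smul D.B_open t1 (N : ℂ)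
  have t2' := test_const_smul D.B_open t2 ((l : ℂ) + 1)
  rw [← D.J_smul, ← D.J_smul, ← D.J_add N t1' t2', ← D.J_add N (IsTest.add t1' t2') t3, J, ← h0]
  congr 1
  refine test_ext (D.e_test N (IsTest.add (IsTest.add t1' t2') t3))
    (IsTest.smul D.B_open sψ t0).dzb fun z hz => ?_
  have e1 : (fun z => ((D.f z).re : ℂ) • ((D.e N z * D.ψ z ^ l) • H z)) =
      fun z => D.e N z • (D.ψ z ^ (l + 1) • H z) := by
    funext z
    simp only [smul_smul]
    congr 1
    rw [show ((D.f z).re : ℂ) = D.ψ z from rfl]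
    ring
  rw [e1]
  have he := D.diffAt (D.e_smooth N) hz
  have hp := D.diffAt (sψ.pow (l + 1)) hz
  have hH' := test_diff hH z
  have d1 : DifferentiableAt ℝ (fun z => D.ψ z ^ (l + 1) • H z) z := hp.smul hH'
  rw [(dz_smul he d1).2, (dz_smul hp hH').2, (D.dz_e N hz).2, (D.dz_psi_pow l hz).2]
  simp only [smul_add, smul_smul]
  rw [← add_assoc]
  congr 2 <;> congr 1 <;> ring

theorem u_smooth : ContDiffOn ℝ (⊤ : ℕ∞) D.u D.B := hol_contDiffOn D.B_open D.hu

theorem u₁_inv_smooth : ContDiffOn ℝ (⊤ : ℕ∞) (fun z => 2 / D.u₁ z) D.B :=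
  hol_contDiffOn D.B_open ((differentiableOn_const _).div D.hu₁ D.u₁_ne)

theorem MM_psi {n : ℕ} {F : ℂ → Y} (h : MM D.B D.p n F) :
    MM D.B D.p (n + m) (fun z => D.ψ z • F z) := by
  have s1 : ContDiffOn ℝ (⊤ : ℕ∞) (fun z => 2⁻¹ * D.u z) D.B := contDiffOn_const.mul D.u_smooth
  have s2 : ContDiffOn ℝ (⊤ : ℕ∞) (fun z => 2⁻¹ * conj (D.u z)) D.B :=
    contDiffOn_const.mul (conj_smooth D.u_smooth)
  have h1 := MM.add _ _ ((h.smul D.B_open s1).qpow m) ((h.smul D.B_open s2).qbpow m)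
  refine h1.congr D.B_open (IsTest.smul D.B_open D.psi_smooth (h.isTest D.B_open)) fun z hz => ?_
  simp only [smul_smul, ← add_smul]
  congr 1
  have h2 : D.ψ z = 2⁻¹ * (D.f z + conj (D.f z)) := by
    rw [ψ]
    apply Complex.ext
    · simp
      ring
    · simp
  rw [h2, D.hf z hz, map_mul, map_pow]
  ring

/-- the descent in the order of vanishing, for the Green identities -/
theorem stepC (hm : 1 ≤ m) {n k : ℕ} (hn : n = k + m) (hk : m ≤ k) {G : ℂ → Y}
    (hG : MM D.B D.p n G) : ∃ G' : ℂ → Y, MM D.B D.p k G' ∧ ∀ (l : ℕ) (N : ℝ),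
      (N : ℂ) • D.J N (fun z => (Complex.I * D.ψ z ^ (l + 1)) • G z) +
        ((l : ℂ) + 1) • D.J N (fun z => D.ψ z ^ l • G z) +
        D.J N (fun z => D.ψ z ^ (l + 1) • G' z) = 0 := by
  induction hG with
  | mono a b G hab hG =>
    have hG₁ : IsTest D.B (fun z => (2 / D.u₁ z) • G z) :=
      IsTest.smul D.B_open D.u₁_inv_smooth hG
    have h0 : m ≤ a ∨ m ≤ b := by omega
    rcases h0 with ha | hb
    · obtain ⟨c, rfl⟩ : ∃ c, a = c + m := ⟨a - m, by omega⟩
      have hM := MM_dz D.B_open D.p c b hG₁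
      have hck : c + b = k := by omega
      rw [hck] at hM
      have hH : IsTest D.B (fun z => ((z - D.p) ^ (c + 1) * conj (z - D.p) ^ b) •
        ((2 / D.u₁ z) • G z)) := IsTest.smul D.B_open (smooth_q _ _ _).contDiffOn hG₁
      refine ⟨_, hM, fun l N => ?_⟩
      have key : ∀ z, dz D.ψ z • (((z - D.p) ^ (c + 1) * conj (z - D.p) ^ b) •
          ((2 / D.u₁ z) • G z)) = ((z - D.p) ^ (c + m) * conj (z - D.p) ^ b) • G z := by
        intro z
        by_cases hz : z ∈ D.B
        · simp only [smul_smul]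
          congr 1
          rw [D.dz_psi hz]
          have h2 := D.u₁_ne z hz
          obtain ⟨j, rfl⟩ : ∃ j, m = j + 1 := ⟨m - 1, by omega⟩
          rw [Nat.add_sub_cancel]
          field_simp
          ring
        · rw [test_zero hG hz]
          simp
      have hg := D.green1 hH l N
      have e1 : (fun z => (Complex.I * D.ψ z ^ (l + 1) * dz D.ψ z) •
          (((z - D.p) ^ (c + 1) * conj (z - D.p) ^ b) • ((2 / D.u₁ z) • G z))) =
          fun z => (Complex.I * D.ψ z ^ (l + 1)) •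
            (((z - D.p) ^ (c + m) * conj (z - D.p) ^ b) • G z) := by
        funext z
        rw [← key z]
        exact mul_smul _ _ _
      have e2 : (fun z => (D.ψ z ^ l * dz D.ψ z) •
          (((z - D.p) ^ (c + 1) * conj (z - D.p) ^ b) • ((2 / D.u₁ z) • G z))) =
          fun z => D.ψ z ^ l •
            (((z - D.p) ^ (c + m) * conj (z - D.p) ^ b) • G z) := by
        funext z
        rw [← key z]
        exact mul_smul _ _ _
      rw [e1, e2] at hg
      exact hg
    · obtain ⟨c, rfl⟩ : ∃ c, b = c + m := ⟨b - m, by omega⟩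
      have hG₂ : IsTest D.B (fun z => conj (2 / D.u₁ z) • G z) :=
        IsTest.smul D.B_open (conj_smooth D.u₁_inv_smooth) hG
      have hM := MM_dzb D.B_open D.p a c hG₂
      have hck : a + c = k := by omega
      rw [hck] at hM
      have hH : IsTest D.B (fun z => ((z - D.p) ^ a * conj (z - D.p) ^ (c + 1)) •
        (conj (2 / D.u₁ z) • G z)) := IsTest.smul D.B_open (smooth_q _ _ _).contDiffOn hG₂
      refine ⟨_, hM, fun l N => ?_⟩
      have key : ∀ z, dzb D.ψ z • (((z - D.p) ^ a * conj (z - D.p) ^ (c + 1)) •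
          (conj (2 / D.u₁ z) • G z)) = ((z - D.p) ^ a * conj (z - D.p) ^ (c + m)) • G z := by
        intro z
        by_cases hz : z ∈ D.B
        · simp only [smul_smul]
          congr 1
          rw [D.dzb_psi hz, D.dz_psi hz]
          have h2 : conj (D.u₁ z) ≠ 0 := by simpa using D.u₁_ne z hz
          obtain ⟨j, rfl⟩ : ∃ j, m = j + 1 := ⟨m - 1, by omega⟩
          rw [Nat.add_sub_cancel]
          simp only [map_mul, map_pow, map_div₀, map_inv₀, Complex.conj_ofNat]
          field_simp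
          ring
        · rw [test_zero hG hz]
          simp
      have hg := D.green2 hH l N
      have e1 : (fun z => (Complex.I * D.ψ z ^ (l + 1) * dzb D.ψ z) •
          (((z - D.p) ^ a * conj (z - D.p) ^ (c + 1)) • (conj (2 / D.u₁ z) • G z))) =
          fun z => (Complex.I * D.ψ z ^ (l + 1)) •
            (((z - D.p) ^ a * conj (z - D.p) ^ (c + m)) • G z) := by
        funext z
        rw [← key z]
        exact mul_smul _ _ _
      have e2 : (fun z => (D.ψ z ^ l * dzb D.ψ z) •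
          (((z - D.p) ^ a * conj (z - D.p) ^ (c + 1)) • (conj (2 / D.u₁ z) • G z))) =
          fun z => D.ψ z ^ l •
            (((z - D.p) ^ a * conj (z - D.p) ^ (c + m)) • G z) := by
        funext z
        rw [← key z]
        exact mul_smul _ _ _
      rw [e1, e2] at hg
      exact hg
  | add F G hF hG ihF ihG =>
    obtain ⟨F', hF', eF⟩ := ihF
    obtain ⟨G', hG', eG⟩ := ihG
    refine ⟨_, MM.add _ _ hF' hG', fun l N => ?_⟩
    have sψ := D.psi_smooth
    have tF := hF.isTest D.B_open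
    have tG := hG.isTest D.B_open
    have tF' := hF'.isTest D.B_open
    have tG' := hG'.isTest D.B_open
    have a1 : ∀ {H : ℂ → Y}, IsTest D.B H →
        IsTest D.B (fun z => (Complex.I * D.ψ z ^ (l + 1)) • H z) := fun h =>
      IsTest.smul D.B_open (contDiffOn_const.mul (sψ.pow _)) h
    have a2 : ∀ (l : ℕ) {H : ℂ → Y}, IsTest D.B H →
        IsTest D.B (fun z => D.ψ z ^ l • H z) := fun l _ h =>
      IsTest.smul D.B_open (sψ.pow _) h
    simp only [smul_add]
    rw [D.J_add N (a1 tF) (a1 tG), D.J_add N (a2 l tF) (a2 l tG),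
      D.J_add N (a2 (l + 1) tF') (a2 (l + 1) tG')]
    have := congrArg₂ (· + ·) (eF l N) (eG l N)
    simp only [add_zero] at this
    rw [← this]
    simp only [smul_add]
    abel

/-- size of the integrals with powers of the phase -/
theorem bound (hm : 1 ≤ m) (l : ℕ) : ∀ G : ℂ → Y, MM D.B D.p (m + m) G →
    ∃ C : ℝ, ∀ N : ℝ, 1 ≤ N → ‖D.J N (fun z => D.ψ z ^ l • G z)‖ ≤ C / N ^ l := by
  induction l with
  | zero =>
    intro G hG
    refine ⟨∫ z in D.U, ‖D.ψ z ^ 0 • G z‖, fun N hN => ?_⟩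
    rw [pow_zero, div_one]
    exact D.J_bound N
  | succ l ih =>
    intro G hG
    obtain ⟨G', hG', e⟩ := D.stepC hm rfl le_rfl hG
    obtain ⟨C₁, h₁⟩ := ih G hG
    obtain ⟨C₂, h₂⟩ := ih _ (D.MM_psi hG')
    refine ⟨(l + 1) * C₁ + C₂, fun N hN => ?_⟩
    have hN0 : (0 : ℝ) < N := by linarith
    have h3 := e l N
    have e1 : (fun z => (Complex.I * D.ψ z ^ (l + 1)) • G z) =
        fun z => Complex.I • (D.ψ z ^ (l + 1) • G z) := by
      funext z; rw [mul_smul]
    have e2 : (fun z => D.ψ z ^ (l + 1) • G' z) = fun z => D.ψ z ^ l • (D.ψ z • G' z) := by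
      funext z; rw [smul_smul, pow_succ]
    rw [e1, e2, D.J_smul] at h3
    have h4 : (N : ℂ) • Complex.I • D.J N (fun z => D.ψ z ^ (l + 1) • G z) =
        -(((l : ℂ) + 1) • D.J N (fun z => D.ψ z ^ l • G z)) -
          D.J N (fun z => D.ψ z ^ l • (D.ψ z • G' z)) := by
      rw [add_assoc] at h3
      rw [eq_neg_of_add_eq_zero_left h3]
      abel
    have h5 := congrArg norm h4
    rw [norm_smul, norm_smul, Complex.norm_I, one_mul, Complex.norm_real, Real.norm_eq_abs,
      abs_of_pos hN0] at h5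
    have h6 : N * ‖D.J N (fun z => D.ψ z ^ (l + 1) • G z)‖ ≤ ((l + 1) * C₁ + C₂) / N ^ l := by
      rw [h5]
      refine (norm_sub_le _ _).trans ?_
      rw [norm_neg, norm_smul, add_div, mul_div_assoc]
      have h7 : ‖(l : ℂ) + 1‖ = (l : ℝ) + 1 := by
        have : ((l : ℂ) + 1) = (((l : ℝ) + 1 : ℝ) : ℂ) := by push_cast; rfl
        rw [this, Complex.norm_real, Real.norm_eq_abs, abs_of_nonneg (by positivity)]
      rw [h7]
      exact add_le_add (mul_le_mul_of_nonneg_left (h₁ N hN) (by positivity)) (h₂ N hN)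
    rw [pow_succ, ← div_div]
    rw [le_div_iff₀ hN0]
    linarith

theorem p_mem : D.p ∈ D.B := mem_ball_self D.hε

/-- the values of `u` and `u₁` at the centre -/
theorem u_p (hm : 1 ≤ m) : (m : ℂ) * D.u D.p = D.u₁ D.p := by
  have hd : ContinuousOn (deriv D.u) D.B := (D.hu.deriv D.B_open).continuousOn
  have hc : ContinuousAt (fun z => (m : ℂ) * D.u z + (z - D.p) * deriv D.u z - D.u₁ z) D.p := by
    have h1 := D.hu.continuousOn.continuousAt (D.B_open.mem_nhds D.p_mem)
    have h2 := D.hu₁.continuousOn.continuousAt (D.B_open.mem_nhds D.p_mem)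
    have h3 := hd.continuousAt (D.B_open.mem_nhds D.p_mem)
    exact ((continuousAt_const.mul h1).add ((continuousAt_id.sub continuousAt_const).mul h3)).sub h2
  have h0 : (fun z => (m : ℂ) * D.u z + (z - D.p) * deriv D.u z - D.u₁ z) =ᶠ[𝓝[≠] D.p]
      fun _ => 0 := by
    have hB : D.B ∈ 𝓝[≠] D.p := mem_nhdsWithin_of_mem_nhds (D.B_open.mem_nhds D.p_mem)
    filter_upwards [hB, self_mem_nhdsWithin] with z hz hzp
    have hzp' : z - D.p ≠ 0 := sub_ne_zero.2 hzp
    have e1 : D.f =ᶠ[𝓝 z] fun z => (z - D.p) ^ m * D.u z := by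
      filter_upwards [D.B_open.mem_nhds hz] with y hy using D.hf y hy
    have hu : HasDerivAt D.u (deriv D.u z) z :=
      (D.hu.differentiableAt (D.B_open.mem_nhds hz)).hasDerivAt
    have h1 : HasDerivAt (fun z => (z - D.p) ^ m * D.u z)
        ((m * (z - D.p) ^ (m - 1)) * D.u z + (z - D.p) ^ m * deriv D.u z) z := by
      have := ((hasDerivAt_id z).sub_const D.p).fun_pow m
      have h2 := this.fun_mul hu
      simpa using h2
    have h2 := (D.hf' z hz).unique (h1.congr_of_eventuallyEq e1)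
    obtain ⟨j, rfl⟩ : ∃ j, m = j + 1 := ⟨m - 1, by omega⟩
    rw [Nat.add_sub_cancel] at h2
    have h3 : (z - D.p) ^ j * (((j + 1 : ℕ) : ℂ) * D.u z + (z - D.p) * deriv D.u z - D.u₁ z) = 0 := by
      linear_combination -h2
    rcases mul_eq_zero.1 h3 with h4 | h4
    · exact absurd h4 (pow_ne_zero _ hzp')
    · exact h4
  have h1 := tendsto_nhds_unique ((hc.tendsto.mono_left nhdsWithin_le_nhds).congr' h0)
    tendsto_const_nhds
  simp only [sub_self, zero_mul, add_zero] at h1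
  exact sub_eq_zero.1 h1

/-- the quotient `v = w / (z - p)` -/
noncomputable def v (z : ℂ) : ℂ := D.u z / D.u₁ z

theorem v_diff : DifferentiableOn ℂ D.v D.B := D.hu.div D.hu₁ D.u₁_ne

theorem v_smooth : ContDiffOn ℝ (⊤ : ℕ∞) D.v D.B := hol_contDiffOn D.B_open D.v_diff

theorem w_eq (z : ℂ) : D.w z = (z - D.p) * D.v z := by rw [w, v, mul_div_assoc]

/-- the quotient `(v - 1/m) / (z - p)` -/
noncomputable def w₁ : ℂ → ℂ := dslope D.v D.p

theorem w₁_smooth : ContDiffOn ℝ (⊤ : ℕ∞) D.w₁ D.B :=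
  hol_contDiffOn D.B_open
    ((Complex.differentiableOn_dslope (D.B_open.mem_nhds D.p_mem)).2 D.v_diff)

theorem v_eq (hm : 1 ≤ m) (z : ℂ) : D.v z = (m : ℂ)⁻¹ + (z - D.p) * D.w₁ z := by
  have h1 : D.v D.p = (m : ℂ)⁻¹ := by
    have h2 := D.u₁_ne D.p D.p_mem
    have h3 := D.u_ne D.p D.p_mem
    have hm0 : (m : ℂ) ≠ 0 := by
      have : m ≠ 0 := by omega
      exact_mod_cast this
    rw [v, ← D.u_p hm]
    field_simp
  have h2 := sub_smul_dslope D.v D.p z
  rw [smul_eq_mul] at h2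
  rw [w₁, h2, h1]
  ring

/-- the Euler step: `σ - 𝓔` raises the order of vanishing -/
theorem MM_euler (hm : 1 ≤ m) {n : ℕ} {G : ℂ → Y} (hG : MM D.B D.p n G) :
    MM D.B D.p (n + 1) (fun z => (((n : ℂ) + 2) / m) • G z - D.EE G z) := by
  have hm0 : (m : ℂ) ≠ 0 := by
    have : m ≠ 0 := by omega
    exact_mod_cast this
  have tt : ∀ {F : ℂ → Y}, IsTest D.B F →
      IsTest D.B (fun z => (((n : ℂ) + 2) / m) • F z - D.EE F z) := by
    intro F hF
    have := IsTest.add (test_const_smul D.B_open hF (((n : ℂ) + 2) / m))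
      (test_neg D.B_open (D.EE_test hF))
    simpa only [← sub_eq_add_neg] using this
  induction hG with
  | mono a b G hab hG =>
    have tT : IsTest D.B (fun z => D.v z • G z) := IsTest.smul D.B_open D.v_smooth hG
    have tT' : IsTest D.B (fun z => conj (D.v z) • G z) :=
      IsTest.smul D.B_open (conj_smooth D.v_smooth) hG
    have t1 : IsTest D.B (fun z => -((((a : ℂ) + 1) * D.w₁ z) • G z + dz (fun z => D.v z • G z) z)) :=
      test_neg D.B_open (IsTest.add (IsTest.smul D.B_open (contDiffOn_const.mul D.w₁_smooth) hG)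
        tT.dz)
    have t2 : IsTest D.B (fun z => -((((b : ℂ) + 1) * conj (D.w₁ z)) • G z +
        dzb (fun z => conj (D.v z) • G z) z)) :=
      test_neg D.B_open (IsTest.add (IsTest.smul D.B_open
        (contDiffOn_const.mul (conj_smooth D.w₁_smooth)) hG) tT'.dzb)
    have tG : IsTest D.B (fun z => ((z - D.p) ^ a * conj (z - D.p) ^ b) • G z) :=
      IsTest.smul D.B_open (smooth_q _ _ _).contDiffOn hG
    refine (MM.add _ _ (MM.mono (p := D.p) (n := n + 1) (a + 1) b _ (by omega) t1)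
      (MM.mono (p := D.p) (n := n + 1) a (b + 1) _ (by omega) t2)).congr D.B_open (tt tG)
      fun z hz => ?_
    have e1 : (fun z => D.w z • (((z - D.p) ^ a * conj (z - D.p) ^ b) • G z)) =
        fun z => ((z - D.p) ^ (a + 1) * conj (z - D.p) ^ b) • (D.v z • G z) := by
      funext z
      simp only [smul_smul]
      rw [D.w_eq]
      congr 1
      ring
    have e2 : (fun z => conj (D.w z) • (((z - D.p) ^ a * conj (z - D.p) ^ b) • G z)) =
        fun z => ((z - D.p) ^ a * conj (z - D.p) ^ (b + 1)) • (conj (D.v z) • G z) := by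
      funext z
      simp only [smul_smul]
      rw [D.w_eq, map_mul]
      congr 1
      ring
    rw [EE, e1, e2, (dz_mono_smul D.p (a + 1) b (test_diff tT z)).1,
      (dz_mono_smul D.p a (b + 1) (test_diff tT' z)).2, Nat.add_sub_cancel, Nat.add_sub_cancel]
    have e3 := D.v_eq hm z
    have hn : (n : ℂ) = a + b := by rw [← hab]; push_cast; rfl
    simp only [smul_add, smul_neg, smul_smul]
    have e4 : (a + 1 : ℕ) * (z - D.p) ^ a * conj (z - D.p) ^ b * D.v z =
        (((a : ℂ) + 1) / m) * ((z - D.p) ^ a * conj (z - D.p) ^ b) +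
          (z - D.p) ^ (a + 1) * conj (z - D.p) ^ b * (((a : ℂ) + 1) * D.w₁ z) := by
      rw [e3]; push_cast; field_simp; ring
    have e5 : (z - D.p) ^ a * ((b + 1 : ℕ) * conj (z - D.p) ^ b) * conj (D.v z) =
        (((b : ℂ) + 1) / m) * ((z - D.p) ^ a * conj (z - D.p) ^ b) +
          (z - D.p) ^ a * conj (z - D.p) ^ (b + 1) * (((b : ℂ) + 1) * conj (D.w₁ z)) := by
      rw [e3, map_add, map_mul, map_inv₀, Complex.conj_natCast]; push_cast; field_simp; ring
    have e6 : ((n : ℂ) + 2) / m * ((z - D.p) ^ a * conj (z - D.p) ^ b) =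
        (((a : ℂ) + 1) / m) * ((z - D.p) ^ a * conj (z - D.p) ^ b) +
          (((b : ℂ) + 1) / m) * ((z - D.p) ^ a * conj (z - D.p) ^ b) := by
      rw [hn]; ring
    rw [e4, e5, e6]
    simp only [add_smul]
    abel
  | add F G hF hG ihF ihG =>
    have tF := hF.isTest D.B_open
    have tG := hG.isTest D.B_open
    refine (MM.add _ _ ihF ihG).congr D.B_open (tt (IsTest.add tF tG)) fun z hz => ?_
    have h1 : D.EE (fun z => F z + G z) z = D.EE F z + D.EE G z := by
      have w1 := test_diff (IsTest.smul D.B_open D.w_smooth tF) z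
      have w2 := test_diff (IsTest.smul D.B_open D.w_smooth tG) z
      have w3 := test_diff (IsTest.smul D.B_open (conj_smooth D.w_smooth) tF) z
      have w4 := test_diff (IsTest.smul D.B_open (conj_smooth D.w_smooth) tG) z
      simp only [EE, smul_add]
      rw [(dz_add w1 w2).1, (dz_add w3 w4).2]
      abel
    rw [h1, smul_add]
    abel

/-- the Euler step for the integrals -/
theorem stepE (hm : 1 ≤ m) {n : ℕ} {G : ℂ → Y} (hG : MM D.B D.p n G) (N : ℝ) :
    (N : ℂ) • D.J N (fun z => (Complex.I * D.ψ z) • G z) + (((n : ℂ) + 2) / m) • D.J N G =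
      D.J N (fun z => (((n : ℂ) + 2) / m) • G z - D.EE G z) := by
  have tG := hG.isTest D.B_open
  have h := D.euler hm tG N
  have h1 := D.J_add N (test_const_smul D.B_open tG (((n : ℂ) + 2) / m))
    (test_neg D.B_open (D.EE_test tG))
  simp only [← sub_eq_add_neg] at h1
  rw [h1, D.J_smul, D.J_neg, eq_neg_of_add_eq_zero_left h]
  abel

end LD

/-- `s` is good for all integrals with `ψ^l` and order of vanishing `n` -/
def GoodFor (m : ℕ) (κ : ℝ) (s : Finset (ℝ × ℕ)) (l n : ℕ) : Prop :=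
  ∀ (Y : Type) [NormedAddCommGroup Y] [NormedSpace ℂ Y] [CompleteSpace Y] (D : LD m Y)
    (G : ℂ → Y), MM D.B D.p n G → HasExp s κ (fun N => D.J N (fun z => D.ψ z ^ l • G z))

theorem good_base {m : ℕ} (hm : 1 ≤ m) {κ : ℝ} (L : ℕ) (hL : κ ≤ L) :
    GoodFor m κ ∅ L (m + m) := by
  intro Y _ _ _ D G hG
  apply HasExp.of_isBigO
  obtain ⟨C, hC⟩ := D.bound hm L G hG
  refine IsBigO.of_bound |C| ?_
  filter_upwards [eventually_ge_atTop (1 : ℝ)] with N hN
  have hN0 : (0 : ℝ) < N := by linarith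
  refine (hC N hN).trans ?_
  rw [Real.norm_eq_abs, abs_of_pos (Real.rpow_pos_of_pos hN0 _)]
  have h1 : C / N ^ L ≤ |C| * N ^ (-(L : ℝ)) := by
    rw [Real.rpow_neg hN0.le, Real.rpow_natCast, ← div_eq_mul_inv]
    exact div_le_div_of_nonneg_right (le_abs_self C) (by positivity)
  refine h1.trans (mul_le_mul_of_nonneg_left ?_ (abs_nonneg C))
  exact Real.rpow_le_rpow_of_exponent_le hN (by linarith)

theorem good_stepC {m : ℕ} (hm : 1 ≤ m) {κ : ℝ} (hκ : 0 < κ) (hκ' : Irrational κ)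
    {s : Finset (ℝ × ℕ)} (hs : GoodScale κ s) {l n : ℕ} (hn : m ≤ n)
    (h : GoodFor m κ s (l + 1) n) :
    ∃ s', GoodScale κ s' ∧ GoodFor m κ s' l (n + m) := by
  obtain ⟨s', hs', hode⟩ := ode_step (σ := (l : ℚ) + 1) (by positivity) hκ hκ' hs
  refine ⟨s', hs', fun Y _ _ _ D G hG => ?_⟩
  obtain ⟨G', hG', e⟩ := D.stepC hm rfl hn hG
  have sψ := D.psi_smooth
  have t1 : IsTest D.B (fun z => D.ψ z ^ l • G z) :=
    IsTest.smul D.B_open (sψ.pow _) (hG.isTest D.B_open)
  have t2 : IsTest D.B (fun z => D.ψ z ^ (l + 1) • G' z) :=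
    IsTest.smul D.B_open (sψ.pow _) (hG'.isTest D.B_open)
  have t3 : IsTest D.B (fun z => -(D.ψ z ^ (l + 1) • G' z)) := test_neg D.B_open t2
  refine hode Y _ (fun N => D.J N (fun z => (Complex.I * D.ψ z) • (D.ψ z ^ l • G z)))
    (fun N => D.J N (fun z => -(D.ψ z ^ (l + 1) • G' z)))
    (fun N _ => D.J_deriv t1 N) (D.J_cont t3) (fun N _ => ?_) ?_
  · have h1 := e l N
    have e1 : (fun z => (Complex.I * D.ψ z) • (D.ψ z ^ l • G z)) =
        fun z => (Complex.I * D.ψ z ^ (l + 1)) • G z := by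
      funext z
      rw [smul_smul]
      congr 1
      ring
    rw [e1, D.J_neg, ← eq_neg_of_add_eq_zero_left h1]
    push_cast
    rfl
  · have h2 := h Y D G' hG'
    have h3 := h2.clm (-(ContinuousLinearMap.id ℂ Y))
    refine h3.congr (Eventually.of_forall fun N => ?_)
    simp only [D.J_neg]
    simp

theorem good_chain {m : ℕ} (hm : 1 ≤ m) {κ : ℝ} (hκ : 0 < κ) (hκ' : Irrational κ) (L : ℕ)
    (hL : κ ≤ L) (j : ℕ) : ∀ l, l + j = L → ∃ s, GoodScale κ s ∧ GoodFor m κ s l (m + m + j * m) := by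
  induction j with
  | zero =>
    intro l hl
    rw [add_zero] at hl
    subst hl
    refine ⟨∅, fun p hp => absurd hp (Finset.notMem_empty p), ?_⟩
    simpa using good_base hm l hL
  | succ j ih =>
    intro l hl
    obtain ⟨s, hs, h⟩ := ih (l + 1) (by omega)
    obtain ⟨s', hs', h'⟩ := good_stepC hm hκ hκ' hs (by nlinarith [Nat.zero_le (j * m)]) h
    refine ⟨s', hs', ?_⟩
    have : m + m + (j + 1) * m = m + m + j * m + m := by ring
    rw [this]
    exact h'

/-- `s` is good for all integrals with order of vanishing `n` -/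
def GoodFor0 (m : ℕ) (κ : ℝ) (s : Finset (ℝ × ℕ)) (n : ℕ) : Prop :=
  ∀ (Y : Type) [NormedAddCommGroup Y] [NormedSpace ℂ Y] [CompleteSpace Y] (D : LD m Y)
    (G : ℂ → Y), MM D.B D.p n G → HasExp s κ (fun N => D.J N G)

theorem good_stepE {m : ℕ} (hm : 1 ≤ m) {κ : ℝ} (hκ : 0 < κ) (hκ' : Irrational κ)
    {s : Finset (ℝ × ℕ)} (hs : GoodScale κ s) {n : ℕ} (h : GoodFor0 m κ s (n + 1)) :
    ∃ s', GoodScale κ s' ∧ GoodFor0 m κ s' n := by
  have hσ : (0 : ℚ) < ((n : ℚ) + 2) / m := by positivity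
  obtain ⟨s', hs', hode⟩ := ode_step hσ hκ hκ' hs
  refine ⟨s', hs', fun Y _ _ _ D G hG => ?_⟩
  have t1 := hG.isTest D.B_open
  have hM := D.MM_euler hm hG
  refine hode Y _ (fun N => D.J N (fun z => (Complex.I * D.ψ z) • G z))
    (fun N => D.J N (fun z => (((n : ℂ) + 2) / m) • G z - D.EE G z))
    (fun N _ => D.J_deriv t1 N) (D.J_cont (hM.isTest D.B_open)) (fun N _ => ?_) (h Y D _ hM)
  have h1 := D.stepE hm hG N
  simp only [← h1]
  push_cast
  rfl

theorem good_all {m : ℕ} (hm : 1 ≤ m) {κ : ℝ} (hκ : 0 < κ) (hκ' : Irrational κ) (n : ℕ)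
    (h : ∃ s, GoodScale κ s ∧ GoodFor0 m κ s n) : ∃ s, GoodScale κ s ∧ GoodFor0 m κ s 0 := by
  induction n with
  | zero => exact h
  | succ n ih =>
    obtain ⟨s, hs, h⟩ := h
    exact ih (good_stepE hm hκ hκ' hs h)

theorem exists_good {m : ℕ} (hm : 1 ≤ m) {κ : ℝ} (hκ : 0 < κ) (hκ' : Irrational κ) :
    ∃ s, GoodScale κ s ∧ GoodFor0 m κ s 0 := by
  obtain ⟨L, hL⟩ := exists_nat_ge κ
  obtain ⟨s, hs, h⟩ := good_chain hm hκ hκ' L hL L 0 (by omega)
  refine good_all hm hκ hκ' (m + m + L * m) ⟨s, hs, fun Y _ _ _ D G hG => ?_⟩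
  have := h Y D G hG
  simpa using this

end B3

/-- `U` is a measurable set, `f = (z-p)^m u` and `f' = (z-p)^(m-1) u₁` on the ball `B`, with `u`,
`u₁` zero free.  The three Green properties say that the boundary terms vanish (the field
`w ∂_z + w̄ ∂_z̄`, `w = f/f'`, is tangent to the boundary and `Re f = 0` there). -/
theorem local_expansion {m : ℕ} (hm : 1 ≤ m) {κ : ℝ} (hκ : 0 < κ) (hκ' : Irrational κ) : ∃ s : Finset (ℝ × ℕ), GoodScale κ s ∧
    ∀ (Y : Type) [NormedAddCommGroup Y] [NormedSpace ℂ Y] [CompleteSpace Y]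
      (U : Set ℂ) (_ : MeasurableSet U) (p : ℂ) (ε : ℝ) (_ : 0 < ε) (f u u₁ : ℂ → ℂ)
      (_ : DifferentiableOn ℂ u (ball p ε)) (_ : DifferentiableOn ℂ u₁ (ball p ε))
      (_ : ∀ z ∈ ball p ε, u z ≠ 0) (_ : ∀ z ∈ ball p ε, u₁ z ≠ 0)
      (_ : ∀ z ∈ ball p ε, f z = (z - p) ^ m * u z)
      (_ : ∀ z ∈ ball p ε, HasDerivAt f ((z - p) ^ (m - 1) * u₁ z) z)
      (_ : ∀ G : ℂ → Y, IsTest (ball p ε) G →
        ∫ z in U, dz (fun z => ((f z).re : ℂ) • G z) z = 0)
      (_ : ∀ G : ℂ → Y, IsTest (ball p ε) G →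
        ∫ z in U, dzb (fun z => ((f z).re : ℂ) • G z) z = 0)
      (_ : ∀ G : ℂ → Y, IsTest (ball p ε) G →
        ∫ z in U, (dz (fun z => ((z - p) * u z / u₁ z) • G z) z +
          dzb (fun z => conj ((z - p) * u z / u₁ z) • G z) z) = 0)
      (G : ℂ → Y) (_ : IsTest (ball p ε) G),
      HasExp s κ (fun N : ℝ => ∫ z in U, Complex.exp (Complex.I * (N * (f z).re : ℝ)) • G z) := by
  obtain ⟨s, hs, h⟩ := B3.exists_good hm hκ hκ'
  refine ⟨s, hs, ?_⟩
  intro Y _ _ _ U hU p ε hε f u u₁ hu hu₁ une u₁ne hf hf' g1 g2 g3 G hG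
  let D : B3.LD m Y := ⟨U, hU, p, ε, hε, f, u, u₁, hu, hu₁, une, u₁ne, hf, hf', g1, g2, g3⟩
  have hM : B3.MM D.B D.p 0 G := by
    have := B3.MM.mono (B := D.B) (p := D.p) (n := 0) 0 0 G rfl hG
    simpa using this
  exact h Y D G hM

end Pool.Agent.Helper7.KE
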