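import Pool.Agent.Helper7.KE.A1
import Pool.Agent.Helper7.KE.A5a

set_option autoImplicit false

open MeasureTheory Set Filter Asymptotics Topology Metric
open scoped ComplexConjugate ENNReal

namespace Pool.Agent.Helper7.KE

namespace B4aux

lemma cU_subset_closure {k : ℕ} (D : CD k) : D.cU ⊆ closure D.U := by
  intro p hp
  rcases (mem_cU_iff D p).1 hp with h | ⟨l, hl⟩
  · exact subset_closure h
  · rw [mem_closure_iff_nhds]
    intro t ht
    cases l with
    | none =>
      have hpR : ‖p‖ = D.R := by simpa [CD.circ, CD.cen, CD.rad] using hl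
      have h1 : ∀ᶠ z in 𝓝 p, ∀ j, D.r j < ‖z - D.a j‖ := by
        rw [eventually_all]
        intro j
        have h3 : D.r j < ‖p - D.a j‖ := by
          have h5 : ‖p‖ ≤ ‖p - D.a j‖ + ‖D.a j‖ := by
            simpa using norm_add_le (p - D.a j) (D.a j)
          have := D.inside j
          linarith
        have : Continuous fun z : ℂ => ‖z - D.a j‖ := by fun_prop
        exact (this.tendsto p).eventually (Ioi_mem_nhds h3)
      have h2 : p ∈ closure (ball (0 : ℂ) D.R) := by
        rw [closure_ball _ D.Rpos.ne']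
        simp [hpR]
      obtain ⟨z, hz1, hz2⟩ := (mem_closure_iff_nhds.1 h2) _ (inter_mem ht h1)
      exact ⟨z, hz1.1, ⟨by simpa using hz2, hz1.2⟩⟩
    | some j =>
      have hpj : ‖p - D.a j‖ = D.r j := by
        simpa [CD.circ, CD.cen, CD.rad, dist_eq_norm] using hl
      have h0 : ∀ᶠ z in 𝓝 p, ‖z‖ < D.R := by
        have h3 : ‖p‖ < D.R := by
          have h5 : ‖p‖ ≤ ‖p - D.a j‖ + ‖D.a j‖ := by
            simpa using norm_add_le (p - D.a j) (D.a j)
          have := D.inside j
          linarith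
        exact (continuous_norm.tendsto p).eventually (Iio_mem_nhds h3)
      have h1 : ∀ᶠ z in 𝓝 p, ∀ i, i ≠ j → D.r i < ‖z - D.a i‖ := by
        rw [eventually_all]
        intro i
        by_cases hij : i = j
        · exact Eventually.of_forall fun w h => absurd hij h
        have h3 : D.r i < ‖p - D.a i‖ := by
          have h5 : ‖D.a i - D.a j‖ ≤ ‖p - D.a i‖ + ‖p - D.a j‖ := by
            have := norm_sub_le (p - D.a j) (p - D.a i)
            rw [sub_sub_sub_cancel_left] at this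
            linarith
          have := D.disj i j hij
          linarith
        have : Continuous fun z : ℂ => ‖z - D.a i‖ := by fun_prop
        filter_upwards [(this.tendsto p).eventually (Ioi_mem_nhds h3)] with z hz _
        exact hz
      have h2 : p ∈ closure ((closedBall (D.a j) (D.r j))ᶜ) := by
        rw [closure_compl, interior_closedBall _ (D.rpos j).ne']
        simp [dist_eq_norm, hpj]
      obtain ⟨z, hz1, hz2⟩ := (mem_closure_iff_nhds.1 h2) _ (inter_mem ht (inter_mem h0 h1))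
      refine ⟨z, hz1.1, ⟨hz1.2.1, fun i => ?_⟩⟩
      by_cases hij : i = j
      · rw [hij]
        simpa [dist_eq_norm] using hz2
      · exact hz1.2.2 i hij

lemma fderiv_zero_of_dz {F : ℂ → ℝ} {z : ℂ} (hF : DifferentiableAt ℝ F z)
    (h : dz (fun w => (F w : ℂ)) z = 0) : fderiv ℝ F z = 0 := by
  have h1 : HasFDerivAt (fun w => (F w : ℂ)) (Complex.ofRealCLM.comp (fderiv ℝ F z)) z :=
    Complex.ofRealCLM.hasFDerivAt.comp z hF.hasFDerivAt
  unfold dz at h
  rw [h1.fderiv] at h
  simp only [ContinuousLinearMap.comp_apply, Complex.ofRealCLM_apply, smul_eq_mul] at h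
  have h2 : (((fderiv ℝ F z) 1 : ℝ) : ℂ) - Complex.I * (((fderiv ℝ F z) Complex.I : ℝ) : ℂ) = 0 := by
    rcases mul_eq_zero.1 h with h3 | h3
    · norm_num at h3
    · exact h3
  have hre := congrArg Complex.re h2
  have him := congrArg Complex.im h2
  simp at hre him
  ext w
  have hw : w = w.re • (1 : ℂ) + w.im • Complex.I := by
    apply Complex.ext <;> simp
  rw [hw, map_add, map_smul, map_smul, hre, him]
  simp

lemma exists_data {ρ : ℂ → ℝ} {v : ℂ → ℂ} {V : Set ℂ} (hV : IsOpen V)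
    (hv : DifferentiableOn ℂ v V) (hρ : ContDiffOn ℝ (⊤ : ℕ∞) ρ V)
    (hdz : ∀ z ∈ V, dz (fun w => (ρ w : ℂ)) z = v z) {p : ℂ} (hp : p ∈ V)
    (hne : ¬ ∀ᶠ z in 𝓝 p, v z = 0) :
    ∃ (m : ℕ) (ε : ℝ) (f u u₁ : ℂ → ℂ), 1 ≤ m ∧ 0 < ε ∧ ball p ε ⊆ V ∧
      DifferentiableOn ℂ u (ball p ε) ∧ DifferentiableOn ℂ u₁ (ball p ε) ∧
      (∀ z ∈ ball p ε, u z ≠ 0) ∧ (∀ z ∈ ball p ε, u₁ z ≠ 0) ∧
      (∀ z ∈ ball p ε, f z = (z - p) ^ m * u z) ∧
      (∀ z ∈ ball p ε, HasDerivAt f ((z - p) ^ (m - 1) * u₁ z) z) ∧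
      (∀ z ∈ ball p ε, (f z).re = ρ z - ρ p) := by
  obtain ⟨ε0, hε0, hball⟩ := Metric.isOpen_iff.1 hV p hp
  obtain ⟨g, hg⟩ := (hv.mono hball).isExactOn_ball
  set f : ℂ → ℂ := fun z => 2 * (g z - g p) with hfdef
  have hf : ∀ z ∈ ball p ε0, HasDerivAt f (2 * v z) z := fun z hz =>
    ((hg z hz).sub_const _).const_mul 2
  have hp0 : p ∈ ball p ε0 := mem_ball_self hε0
  have hfp : f p = 0 := by simp [hfdef]
  have hre : ∀ z ∈ ball p ε0, (f z).re = ρ z - ρ p := by
    have hFd : ∀ z ∈ ball p ε0, DifferentiableAt ℝ (fun z => ρ z - (f z).re) z := by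
      intro z hz
      have h1 : DifferentiableAt ℝ ρ z :=
        (hρ.contDiffAt (hV.mem_nhds (hball hz))).differentiableAt (by simp)
      have h2 : DifferentiableAt ℝ (fun z => (f z).re) z :=
        Complex.reCLM.differentiableAt.comp z ((hf z hz).differentiableAt.restrictScalars ℝ)
      exact h1.sub h2
    have hF0 : ∀ z ∈ ball p ε0, fderiv ℝ (fun z => ρ z - (f z).re) z = 0 := by
      intro z hz
      apply fderiv_zero_of_dz (hFd z hz)
      have h1 : DifferentiableAt ℝ ρ z :=
        (hρ.contDiffAt (hV.mem_nhds (hball hz))).differentiableAt (by simp)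
      have h1' : DifferentiableAt ℝ (fun w => (ρ w : ℂ)) z :=
        Complex.ofRealCLM.differentiableAt.comp z h1
      have h2 : DifferentiableAt ℝ (fun z => (f z).re) z :=
        Complex.reCLM.differentiableAt.comp z ((hf z hz).differentiableAt.restrictScalars ℝ)
      have h2' : DifferentiableAt ℝ (fun w => -(((f w).re : ℝ) : ℂ)) z :=
        (Complex.ofRealCLM.differentiableAt.comp z h2).neg
      have h3 : (fun w => ((ρ w - (f w).re : ℝ) : ℂ)) = fun w => (ρ w : ℂ) + -(((f w).re : ℝ) : ℂ) := by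
        funext w; push_cast; ring
      rw [h3, (dz_add h1' h2').1, dz_neg.1, hdz z (hball hz), dz_re (hf z hz).differentiableAt,
        (hf z hz).deriv]
      ring
    intro z hz
    have h := isOpen_ball.is_const_of_fderiv_eq_zero (𝕜 := ℝ) (convex_ball p ε0).isPreconnected
      (fun z hz => (hFd z hz).differentiableWithinAt) hF0 hz hp0
    simp only [hfp, Complex.zero_re, sub_zero] at h
    linarith
  have hfan : AnalyticAt ℂ f p :=
    DifferentiableOn.analyticAt (s := ball p ε0)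
      (fun z hz => (hf z hz).differentiableAt.differentiableWithinAt) (ball_mem_nhds p hε0)
  have hfne : ¬ ∀ᶠ z in 𝓝 p, f z = 0 := by
    intro h
    apply hne
    filter_upwards [h.eventually_nhds, ball_mem_nhds p hε0] with z hz hz0
    have h1 : f =ᶠ[𝓝 z] fun _ => 0 := hz
    have h2 : deriv f z = 0 := by rw [h1.deriv_eq]; simp
    rw [(hf z hz0).deriv] at h2
    simpa using h2
  obtain ⟨m, u, hu, hup, hfu⟩ := hfan.exists_eventuallyEq_pow_smul_nonzero_iff.2 hfne
  have hm : 1 ≤ m := by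
    by_contra hm
    have hm0 : m = 0 := by omega
    have h1 := hfu.self_of_nhds
    rw [hm0, hfp] at h1
    simp only [pow_zero, one_smul] at h1
    exact hup h1.symm
  set u₁ : ℂ → ℂ := fun z => m * u z + (z - p) * deriv u z with hu₁
  have hu₁an : AnalyticAt ℂ u₁ p :=
    (analyticAt_const.mul hu).add ((analyticAt_id.sub analyticAt_const).mul hu.deriv)
  have hu₁p : u₁ p ≠ 0 := by
    have hm' : (m : ℂ) ≠ 0 := by
      have : 0 < m := hm
      exact_mod_cast this.ne'
    simp only [hu₁, sub_self, zero_mul, add_zero]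
    exact mul_ne_zero hm' hup
  have hev : ∀ᶠ z in 𝓝 p, AnalyticAt ℂ u z ∧ AnalyticAt ℂ u₁ z ∧ u z ≠ 0 ∧ u₁ z ≠ 0 ∧
      f z = (z - p) ^ m • u z := by
    filter_upwards [hu.eventually_analyticAt, hu₁an.eventually_analyticAt,
      hu.continuousAt.eventually_ne hup, hu₁an.continuousAt.eventually_ne hu₁p, hfu]
      with z h1 h2 h3 h4 h5
    exact ⟨h1, h2, h3, h4, h5⟩
  obtain ⟨ε1, hε1, hball1⟩ := Metric.eventually_nhds_iff_ball.1 hev
  have hε : 0 < min ε0 ε1 := lt_min hε0 hε1
  have hb0 : ball p (min ε0 ε1) ⊆ ball p ε0 := ball_subset_ball (min_le_left _ _)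
  have hb1 : ball p (min ε0 ε1) ⊆ ball p ε1 := ball_subset_ball (min_le_right _ _)
  refine ⟨m, min ε0 ε1, f, u, u₁, hm, hε, hb0.trans hball,
    fun z hz => (hball1 z (hb1 hz)).1.differentiableAt.differentiableWithinAt,
    fun z hz => (hball1 z (hb1 hz)).2.1.differentiableAt.differentiableWithinAt,
    fun z hz => (hball1 z (hb1 hz)).2.2.1, fun z hz => (hball1 z (hb1 hz)).2.2.2.1,
    fun z hz => (hball1 z (hb1 hz)).2.2.2.2, ?_, fun z hz => hre z (hb0 hz)⟩
  intro z hz
  have h1 : f =ᶠ[𝓝 z] fun w => (w - p) ^ m * u w := by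
    filter_upwards [isOpen_ball.mem_nhds hz] with w hw
    exact (hball1 w (hb1 hw)).2.2.2.2
  have h2 : HasDerivAt (fun w => (w - p) ^ m * u w)
      (m * (z - p) ^ (m - 1) * 1 * u z + (z - p) ^ m * deriv u z) z :=
    (((hasDerivAt_id z).sub_const p).pow m).mul (hball1 z (hb1 hz)).1.differentiableAt.hasDerivAt
  have h3 := h2.congr_of_eventuallyEq h1
  refine h3.congr_deriv ?_
  have h4 : u₁ z = m * u z + (z - p) * deriv u z := rfl
  rw [h4]
  have h5 : (z - p) ^ m = (z - p) ^ (m - 1) * (z - p) := by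
    rw [← pow_succ, Nat.sub_add_cancel hm]
  rw [h5]
  ring

end B4aux

end Pool.Agent.Helper7.KE
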