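import Pool.Agent.Helper7.KE.A1

set_option autoImplicit false

open MeasureTheory Set Filter Asymptotics Topology Metric
open scoped ComplexConjugate ENNReal

namespace Pool.Agent.Helper7.KE

theorem nonstat_phase_smooth {V : Set ℂ} {ρ : ℂ → ℝ} (hρ : ContDiffOn ℝ (⊤ : ℕ∞) ρ V) (N : ℝ) :
    ContDiffOn ℝ (⊤ : ℕ∞) (fun z => Complex.exp (Complex.I * (N * ρ z : ℝ))) V := by
  have h1 : ContDiffOn ℝ (⊤ : ℕ∞) (fun z => ((N * ρ z : ℝ) : ℂ)) V :=
    Complex.ofRealCLM.contDiff.comp_contDiffOn (contDiffOn_const.mul hρ)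
  exact (contDiffOn_const.mul h1).cexp

theorem nonstat_dz_phase {ρ : ℂ → ℝ} {z : ℂ} (hρ : DifferentiableAt ℝ ρ z) (N : ℝ) :
    dz (fun z => Complex.exp (Complex.I * (N * ρ z : ℝ))) z =
      Complex.exp (Complex.I * (N * ρ z : ℝ)) *
        (Complex.I * N * dz (fun w => (ρ w : ℂ)) z) := by
  have h1 : DifferentiableAt ℝ (fun w => (ρ w : ℂ)) z :=
    Complex.ofRealCLM.differentiableAt.comp z hρ
  have h2 : DifferentiableAt ℝ (fun w => Complex.I * ((N * ρ w : ℝ) : ℂ)) z := by
    have : DifferentiableAt ℝ (fun w => ((N * ρ w : ℝ) : ℂ)) z :=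
      Complex.ofRealCLM.differentiableAt.comp z ((differentiableAt_const N).mul hρ)
    exact (differentiableAt_const _).mul this
  rw [(dz_cexp h2).1]
  congr 1
  have h3 : (fun w => Complex.I * ((N * ρ w : ℝ) : ℂ)) =
      fun w => (fun _ : ℂ => Complex.I * (N : ℂ)) w • (ρ w : ℂ) := by
    funext w
    simp only [smul_eq_mul]
    push_cast
    ring
  rw [h3, (dz_smul (f := fun _ : ℂ => Complex.I * (N : ℂ)) (differentiableAt_const _) h1).1,
    dz_const.1]
  simp

theorem nonstat {Y : Type*} [NormedAddCommGroup Y] [NormedSpace ℂ Y] [CompleteSpace Y]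
    {V : Set ℂ} (hV : IsOpen V) {ρ : ℂ → ℝ} (hρ : ContDiffOn ℝ (⊤ : ℕ∞) ρ V)
    (hne : ∀ z ∈ V, dz (fun w => (ρ w : ℂ)) z ≠ 0) {G : ℂ → Y} (hG : IsTest V G) (K : ℕ) :
    ∃ C : ℝ, ∀ N : ℝ, 1 ≤ N →
      ‖∫ z, Complex.exp (Complex.I * (N * ρ z : ℝ)) • G z‖ ≤ C / N ^ K := by
  induction K generalizing G with
  | zero =>
    refine ⟨∫ z, ‖G z‖, fun N _ => ?_⟩
    rw [pow_zero, div_one]
    refine (norm_integral_le_integral_norm _).trans (le_of_eq ?_)
    congr 1
    funext z
    rw [norm_smul, mul_comm Complex.I, Complex.norm_exp_ofReal_mul_I, one_mul]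
  | succ K ih =>
    have hρC : ContDiffOn ℝ (⊤ : ℕ∞) (fun w => (ρ w : ℂ)) V :=
      Complex.ofRealCLM.contDiff.comp_contDiffOn hρ
    have hinv : ContDiffOn ℝ (⊤ : ℕ∞) (fun z => (dz (fun w => (ρ w : ℂ)) z)⁻¹) V :=
      (dz_contDiffOn hV hρC).1.inv hne
    have hH : IsTest V (fun z => (dz (fun w => (ρ w : ℂ)) z)⁻¹ • G z) := hG.smul hV hinv
    obtain ⟨C, hC⟩ := ih hH.dz
    refine ⟨C, fun N hN => ?_⟩
    have hN0 : (0 : ℝ) < N := by linarith
    set H : ℂ → Y := fun z => (dz (fun w => (ρ w : ℂ)) z)⁻¹ • G z with hHdef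
    have hE := nonstat_phase_smooth hρ N
    have hF : IsTest V (fun z => Complex.exp (Complex.I * (N * ρ z : ℝ)) • H z) := hH.smul hV hE
    have hG1 : IsTest V (fun z => Complex.exp (Complex.I * (N * ρ z : ℝ)) • G z) :=
      hG.smul hV hE
    have hG2 : IsTest V (fun z => Complex.exp (Complex.I * (N * ρ z : ℝ)) • dz H z) :=
      hH.dz.smul hV hE
    have hint := (integral_dz_test (hF.smooth.of_le (by simp)) hF.compact).1
    have hpt : ∀ z, dz (fun z => Complex.exp (Complex.I * (N * ρ z : ℝ)) • H z) z =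
        (Complex.I * N : ℂ) • (Complex.exp (Complex.I * (N * ρ z : ℝ)) • G z) +
          Complex.exp (Complex.I * (N * ρ z : ℝ)) • dz H z := by
      intro z
      by_cases hz : z ∈ V
      · have hd : DifferentiableAt ℝ ρ z :=
          (hρ.contDiffAt (hV.mem_nhds hz)).differentiableAt (by simp)
        have hdE : DifferentiableAt ℝ (fun z => Complex.exp (Complex.I * (N * ρ z : ℝ))) z :=
          (hE.contDiffAt (hV.mem_nhds hz)).differentiableAt (by simp)
        have hdH : DifferentiableAt ℝ H z := (hH.smooth.differentiable (by simp)).differentiableAt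
        rw [(dz_smul hdE hdH).1, nonstat_dz_phase hd]
        congr 1
        rw [hHdef]
        simp only [smul_smul]
        congr 1
        field_simp [hne z hz]
      · have hz1 : z ∉ tsupport (fun z => Complex.exp (Complex.I * (N * ρ z : ℝ)) • H z) :=
          fun h => hz (hF.supp h)
        have hz2 : z ∉ tsupport H := fun h => hz (hH.supp h)
        have hz3 : G z = 0 := by
          by_contra h
          exact hz (hG.supp (subset_tsupport _ h))
        rw [(dz_of_notMem hz1).1, (dz_of_notMem hz2).1, hz3]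
        simp
    have i1 : Integrable (fun z => Complex.exp (Complex.I * (N * ρ z : ℝ)) • G z) :=
      hG1.smooth.continuous.integrable_of_hasCompactSupport hG1.compact
    have i2 : Integrable (fun z => Complex.exp (Complex.I * (N * ρ z : ℝ)) • dz H z) :=
      hG2.smooth.continuous.integrable_of_hasCompactSupport hG2.compact
    have i1' : Integrable (fun z => (Complex.I * N : ℂ) •
        (Complex.exp (Complex.I * (N * ρ z : ℝ)) • G z)) := i1.smul _
    have e1 : (Complex.I * N : ℂ) • (∫ z, Complex.exp (Complex.I * (N * ρ z : ℝ)) • G z) +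
        ∫ z, Complex.exp (Complex.I * (N * ρ z : ℝ)) • dz H z = 0 := by
      rw [← integral_smul, ← integral_add i1' i2, ← hint]
      congr 1
      funext z
      exact (hpt z).symm
    have e2 : ‖(Complex.I * N : ℂ) • (∫ z, Complex.exp (Complex.I * (N * ρ z : ℝ)) • G z)‖ =
        ‖∫ z, Complex.exp (Complex.I * (N * ρ z : ℝ)) • dz H z‖ := by
      rw [eq_neg_of_add_eq_zero_left e1, norm_neg]
    rw [norm_smul, norm_mul, Complex.norm_I, one_mul, Complex.norm_real,
      Real.norm_of_nonneg hN0.le] at e2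
    have e3 := hC N hN
    rw [← e2] at e3
    rw [pow_succ, ← div_div, le_div_iff₀ hN0]
    linarith

end Pool.Agent.Helper7.KE
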