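import Pool.Agent.Helper7.KE.A1
import Pool.Agent.Helper7.KE.A5a

set_option autoImplicit false

open MeasureTheory Set Filter Asymptotics Topology Metric
open scoped ComplexConjugate ENNReal

namespace Pool.Agent.Helper7.KE

section
variable {k : ℕ} {D : CD k} {τ δ : ℝ}

/-- `∂ρ_x/∂z = vv x`, `∂ρ_w/∂z̄ = vb w`, smoothness, and values on the circles -/
theorem rho_facts (h : HM D τ δ) (hτ : D.Good τ) (hδ : 0 < δ) (x : Fin k → ℝ) (w : Fin k → ℂ) :
    ContDiffOn ℝ (⊤ : ℕ∞) (h.rho x) (D.Ue δ) ∧ ContDiffOn ℝ (⊤ : ℕ∞) (h.rhoC w) (D.Ue δ) ∧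
    DifferentiableOn ℂ (h.vv x) (D.Ue δ) ∧
    (∀ z ∈ D.Ue δ, dz (fun u => (h.rho x u : ℂ)) z = h.vv x z) ∧
    (∀ z ∈ D.Ue δ, dzb (fun u => (h.rho x u : ℂ)) z = conj (h.vv x z)) ∧
    (∀ z ∈ D.Ue δ, dzb (h.rhoC w) z = h.vb w z) ∧
    (∀ z ∈ D.circ none, h.rho x z = 0 ∧ h.rhoC w z = 0) ∧
    ∀ j, ∀ z ∈ D.circ (some j), h.rho x z = x j ∧ h.rhoC w z = w j := by
  have hom : ∀ j, ContDiffOn ℝ (⊤ : ℕ∞) (fun z => (h.om j z : ℂ)) (D.Ue δ) := fun j =>
    Complex.ofRealCLM.contDiff.comp_contDiffOn (h.smooth j)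
  have homd : ∀ j, ∀ z ∈ D.Ue δ, DifferentiableAt ℝ (h.om j) z := fun j z hz =>
    ((h.smooth j).differentiableOn (by simp)).differentiableAt ((D.Ue_open δ).mem_nhds hz)
  have homC : ∀ j, ∀ z ∈ D.Ue δ, DifferentiableAt ℝ (fun z => (h.om j z : ℂ)) z := fun j z hz =>
    ((hom j).differentiableOn (by simp)).differentiableAt ((D.Ue_open δ).mem_nhds hz)
  have h1 : ContDiffOn ℝ (⊤ : ℕ∞) (h.rho x) (D.Ue δ) := by
    have : h.rho x = fun z => ∑ j, x j * h.om j z := rfl
    rw [this]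
    exact ContDiffOn.sum fun j _ => contDiffOn_const.mul (h.smooth j)
  have h2 : ContDiffOn ℝ (⊤ : ℕ∞) (h.rhoC w) (D.Ue δ) := by
    have : h.rhoC w = fun z => ∑ j, w j * (h.om j z : ℂ) := rfl
    rw [this]
    exact ContDiffOn.sum fun j _ => contDiffOn_const.mul (hom j)
  have hsum : ∀ (c : Fin k → ℂ), ∀ z ∈ D.Ue δ,
      dz (fun u => ∑ j, c j * (h.om j u : ℂ)) z = ∑ j, c j * h.v j z ∧
      dzb (fun u => ∑ j, c j * (h.om j u : ℂ)) z = ∑ j, c j * conj (h.v j z) := by
    intro c z hz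
    have e := dz_sum (Y := ℂ) Finset.univ (F := fun j u => c j * (h.om j u : ℂ)) (z := z)
      (fun j _ => (homC j z hz).const_mul (c j))
    have e2 : ∀ j, dz (fun u => c j * (h.om j u : ℂ)) z = c j * h.v j z ∧
        dzb (fun u => c j * (h.om j u : ℂ)) z = c j * conj (h.v j z) := by
      intro j
      have := dz_smul (Y := ℂ) (f := fun _ => c j) (F := fun u => (h.om j u : ℂ)) (z := z)
        (differentiableAt_const _) (homC j z hz)
      simp only [smul_eq_mul, (dz_const (Y := ℂ) (c := c j) (z := z)).1,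
        (dz_const (Y := ℂ) (c := c j) (z := z)).2, zero_mul, zero_add] at this
      rw [this.1, this.2, h.der j z hz, dzb_ofReal (homd j z hz), h.der j z hz]
      exact ⟨rfl, rfl⟩
    rw [e.1, e.2]
    exact ⟨Finset.sum_congr rfl fun j _ => (e2 j).1, Finset.sum_congr rfl fun j _ => (e2 j).2⟩
  have h4 : ∀ z ∈ D.Ue δ, dz (fun u => (h.rho x u : ℂ)) z = h.vv x z := by
    intro z hz
    have : (fun u => (h.rho x u : ℂ)) = fun u => ∑ j, (x j : ℂ) * (h.om j u : ℂ) := by
      funext u; simp [HM.rho]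
    rw [this, (hsum (fun j => (x j : ℂ)) z hz).1]
    rfl
  refine ⟨h1, h2, ?_, h4, ?_, ?_, ?_, ?_⟩
  · have : h.vv x = fun z => ∑ j, (x j : ℂ) * h.v j z := rfl
    rw [this]
    exact DifferentiableOn.fun_sum fun j _ => (h.hol j).const_mul _
  · intro z hz
    have hd : DifferentiableAt ℝ (h.rho x) z :=
      (h1.differentiableOn (by simp)).differentiableAt ((D.Ue_open δ).mem_nhds hz)
    rw [dzb_ofReal hd, h4 z hz]
  · intro z hz
    exact (hsum w z hz).2
  · intro z hz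
    constructor
    · simp [HM.rho, h.bd_none _ z hz]
    · simp [HM.rhoC, h.bd_none _ z hz]
  · intro j z hz
    constructor
    · simp [HM.rho, h.bd_some _ j z hz]
    · simp only [HM.rhoC, h.bd_some _ j z hz]
      rw [Finset.sum_eq_single j]
      · simp
      · intro b _ hb
        rw [if_neg (fun e => hb e.symm)]
        simp
      · intro hj
        exact absurd (Finset.mem_univ j) hj

end

section
variable {k : ℕ} (D : CD k) {τ : ℝ}

theorem HM_mono {δ δ' : ℝ} (h : HM D τ δ) (hle : δ' ≤ δ) :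
    ∃ h' : HM D τ δ', h'.om = h.om ∧ h'.v = h.v ∧ h'.Rm = h.Rm := by
  have hsub : D.Ue δ' ⊆ D.Ue δ := fun z hz =>
    ⟨lt_of_lt_of_le hz.1 (by linarith), fun j => lt_of_le_of_lt (by linarith) (hz.2 j)⟩
  exact ⟨{ om := h.om, v := h.v, Rm := h.Rm,
           smooth := fun j => (h.smooth j).mono hsub
           hol := fun j => (h.hol j).mono hsub
           der := fun j z hz => h.der j z (hsub hz)
           bd_none := h.bd_none
           bd_some := h.bd_some
           orth := h.orth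
           res := h.res
           det_ne := h.det_ne
           gram := h.gram
           chi_v := h.chi_v }, rfl, rfl, rfl⟩

end

end Pool.Agent.Helper7.KE
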