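import Pool.Agent.Helper7.KE.D5a
import Pool.Agent.Helper7.KE.A5b
import Pool.Agent.Helper7.KE.C1

set_option autoImplicit false

open MeasureTheory Set Filter Asymptotics Topology Metric
open scoped ComplexConjugate ENNReal

namespace Pool.Agent.Helper7.KE

section
variable {k : ℕ} {D : CD k} {τ δ : ℝ}

theorem D5b_integrable {f : ℂ → ℂ} (hf : ContinuousOn f D.cU) : IntegrableOn f D.U :=
  (hf.integrableOn_compact D.cU_compact).mono_set D.U_subset_cU

theorem D5b_v_cont (h : HM D τ δ) (hδ : 0 < δ) (j : Fin k) : ContinuousOn (h.v j) D.cU :=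
  (h.hol j).continuousOn.mono (D.cU_subset_Ue hδ)

theorem D5b_vv_cont (h : HM D τ δ) (hδ : 0 < δ) (x : Fin k → ℝ) :
    ContinuousOn (h.vv x) D.cU :=
  continuousOn_finsetSum _ fun j _ => continuousOn_const.mul (D5b_v_cont h hδ j)

theorem D5b_dzb_chi_cont (hτ : D.Good τ) (l : Option (Fin k)) :
    Continuous (dzb (fun w => (D.chi τ l w : ℂ))) := by
  have h1 : ContDiff ℝ (⊤ : ℕ∞) (fun w => (D.chi τ l w : ℂ)) :=
    Complex.ofRealCLM.contDiff.comp (chi_smooth D hτ.pos hτ.lt_R l)
  have h2 : Continuous (fderiv ℝ (fun w => (D.chi τ l w : ℂ))) :=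
    h1.continuous_fderiv (by simp)
  unfold dzb
  fun_prop

/-- complex combinations of the `v_j` are linearly independent -/
theorem v_indep (h : HM D τ δ) (hτ : D.Good τ) (hδ : 0 < δ) (c : Fin k → ℂ)
    (hc : ∀ z ∈ D.U, ∑ j, c j * h.v j z = 0) : c = 0 := by
  have key : ∀ l, ∑ j, (h.Rm l j : ℂ) * c j = 0 := by
    intro l
    have h1 : ∀ j, D.coef τ (some l) 0 (h.v j) = -(1 / (Real.pi * D.r l) : ℂ) *
        ∫ z in D.U, h.v j z * dzb (fun w => (D.chi τ (some l) w : ℂ)) z := by
      intro j
      simp [CD.coef]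
    have h2 : ∑ j, c j * ∫ z in D.U, h.v j z * dzb (fun w => (D.chi τ (some l) w : ℂ)) z = 0 := by
      have h3 : ∀ j, c j * ∫ z in D.U, h.v j z * dzb (fun w => (D.chi τ (some l) w : ℂ)) z
          = ∫ z in D.U, c j * (h.v j z * dzb (fun w => (D.chi τ (some l) w : ℂ)) z) := by
        intro j
        rw [integral_const_mul]
      simp_rw [h3]
      rw [← integral_finsetSum]
      · rw [← integral_zero]
        apply setIntegral_congr_fun D.U_open.measurableSet
        intro z hz
        have := hc z hz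
        simp only
        calc ∑ j, c j * (h.v j z * dzb (fun w => (D.chi τ (some l) w : ℂ)) z)
            = (∑ j, c j * h.v j z) * dzb (fun w => (D.chi τ (some l) w : ℂ)) z := by
              rw [Finset.sum_mul]; exact Finset.sum_congr rfl fun j _ => by ring
          _ = 0 := by rw [this, zero_mul]
      · intro j _
        exact (D5b_integrable ((D5b_v_cont h hδ j).mul
          (D5b_dzb_chi_cont hτ (some l)).continuousOn)).const_mul _
    have h4 : ∀ j, (h.Rm l j : ℂ) * c j = (D.r l : ℂ) * (-(1 / (Real.pi * D.r l) : ℂ)) *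
        (c j * ∫ z in D.U, h.v j z * dzb (fun w => (D.chi τ (some l) w : ℂ)) z) := by
      intro j
      rw [← h.res l j, h1]; ring
    simp_rw [h4]
    rw [← Finset.mul_sum, h2, mul_zero]
  have hdet : (h.Rm.map (fun x : ℝ => (x : ℂ))).det ≠ 0 := by
    have : (h.Rm.map (fun x : ℝ => (x : ℂ))).det = ((h.Rm.det : ℝ) : ℂ) := by
      exact (Complex.ofRealHom.map_det h.Rm).symm
    rw [this]
    exact Complex.ofReal_ne_zero.2 h.det_ne
  apply Matrix.eq_zero_of_mulVec_eq_zero hdet
  ext l
  simpa [Matrix.mulVec, dotProduct] using key l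

/-- `∂ρ_x/∂z` is not identically zero for `x ≠ 0`, and has finitely many zeros in the closed
domain -/
theorem vv_zeros (h : HM D τ δ) (hτ : D.Good τ) (hδ : 0 < δ) (hδτ : δ ≤ τ) {x : Fin k → ℝ}
    (hx : x ≠ 0) : {z | z ∈ D.cU ∧ h.vv x z = 0}.Finite ∧ (∃ z ∈ D.U, h.vv x z ≠ 0) := by
  have hex : ∃ z ∈ D.U, h.vv x z ≠ 0 := by
    by_contra hcon
    push Not at hcon
    apply hx
    have := v_indep h hτ hδ (fun j => (x j : ℂ)) hcon
    ext j
    have := congrFun this j
    simpa using this
  refine ⟨?_, hex⟩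
  by_contra hinf
  have hr : ∀ j, δ < D.r j := fun j => lt_of_le_of_lt hδτ (hτ.lt_r j)
  have hpre : IsPreconnected (D.Ue δ) := by
    rw [← D.enl_U δ hδ.le hr]
    exact U_preconnected _
  have hcU := D.cU_subset_Ue hδ
  obtain ⟨-, -, hdiff, -⟩ := rho_facts h hτ hδ x 0
  have han : AnalyticOnNhd ℂ (h.vv x) (D.Ue δ) := hdiff.analyticOnNhd (D.Ue_open δ)
  obtain ⟨z₀, hz₀, hacc⟩ := Set.Infinite.exists_accPt_of_subset_isCompact
    (show {z | z ∈ D.cU ∧ h.vv x z = 0}.Infinite from hinf) D.cU_compact (fun z hz => hz.1)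
  have hfreq : ∃ᶠ z in 𝓝[≠] z₀, h.vv x z = 0 := by
    rw [accPt_iff_frequently_nhdsNE] at hacc
    exact hacc.mono fun z hz => hz.2
  have hz := han.eqOn_zero_of_preconnected_of_frequently_eq_zero hpre (hcU hz₀) hfreq
  obtain ⟨z, hzU, hne⟩ := hex
  exact hne (hz (hcU (D.U_subset_cU hzU)))

/-- the squared norm of `vv x` and the pairing with the boundary data -/
theorem vv_pairing (h : HM D τ δ) (hτ : D.Good τ) (hδ : 0 < δ) {e e' : Fin k → ℝ} (he : e ≠ 0) :
    ∑ j, ((e' j : ℂ) + Complex.I * e j) *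
      ∫ z in D.U, h.vv e z * dzb (fun w => (D.chi τ (some j) w : ℂ)) z ≠ 0 := by
  obtain ⟨-, -, hdiff, -⟩ := rho_facts h hτ hδ e 0
  have hcU := D.cU_subset_Ue hδ
  have hH : D.Hol2 (h.vv e) := hol2_of_nhds D (D.Ue_open δ) hcU hdiff
  have hex : ∃ z ∈ D.U, h.vv e z ≠ 0 := by
    by_contra hcon
    push Not at hcon
    apply he
    have := v_indep h hτ hδ (fun j => (e j : ℂ)) hcon
    ext j
    have := congrFun this j
    simpa using this
  simp_rw [← h.chi_v _ _ hH]
  -- the inner products are real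
  have hint : ∀ i j, IntegrableOn (fun z => h.v i z * conj (h.v j z)) D.U := fun i j =>
    D5b_integrable ((D5b_v_cont h hδ i).mul (Complex.continuous_conj.comp_continuousOn
      (D5b_v_cont h hδ j)))
  have hreal : ∀ j, ∃ y : ℝ, ∫ z in D.U, h.vv e z * conj (h.v j z) = y := by
    intro j
    choose y hy using fun i => h.gram i j
    refine ⟨∑ i, e i * y i, ?_⟩
    have h1 : ∫ z in D.U, h.vv e z * conj (h.v j z)
        = ∫ z in D.U, ∑ i, (e i : ℂ) * (h.v i z * conj (h.v j z)) := by
      apply setIntegral_congr_fun D.U_open.measurableSet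
      intro z _
      simp only [HM.vv]
      rw [Finset.sum_mul]
      exact Finset.sum_congr rfl fun i _ => by ring
    rw [h1, integral_finsetSum]
    · simp_rw [integral_const_mul, hy]
      push_cast
      rfl
    · intro i _
      exact (hint i j).const_mul _
  choose y hy using hreal
  have hsum : ((∑ j, e j * y j : ℝ) : ℂ) = ∫ z in D.U, ((‖h.vv e z‖ ^ 2 : ℝ) : ℂ) := by
    push_cast
    simp_rw [← hy, ← integral_const_mul]
    rw [← integral_finsetSum]
    · apply setIntegral_congr_fun D.U_open.measurableSet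
      intro z _
      simp only
      have : ∑ j, (e j : ℂ) * (h.vv e z * conj (h.v j z)) = h.vv e z * conj (h.vv e z) := by
        rw [HM.vv, map_sum, Finset.mul_sum]
        refine Finset.sum_congr rfl fun j _ => ?_
        rw [map_mul, Complex.conj_ofReal]
        ring
      rw [this, Complex.mul_conj, Complex.normSq_eq_norm_sq]
      push_cast
      rfl
    · intro j _
      exact (D5b_integrable ((D5b_vv_cont h hδ e).mul (Complex.continuous_conj.comp_continuousOn
        (D5b_v_cont h hδ j)))).const_mul _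
  have hpos : (∑ j, e j * y j : ℝ) ≠ 0 := by
    intro h0
    rw [h0, integral_complex_ofReal] at hsum
    have h1 : ∫ z in D.U, ‖h.vv e z‖ ^ 2 = 0 := by
      have := hsum.symm
      simpa using this
    have hcont : ContinuousOn (fun z => ‖h.vv e z‖ ^ 2) D.cU :=
      (D5b_vv_cont h hδ e).norm.pow 2
    have hi : IntegrableOn (fun z => ‖h.vv e z‖ ^ 2) D.U :=
      (hcont.integrableOn_compact D.cU_compact).mono_set D.U_subset_cU
    rw [integral_eq_zero_iff_of_nonneg_ae (Eventually.of_forall fun z => by positivity) hi] at h1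
    obtain ⟨z, hzU, hne⟩ := hex
    have h2 := hol_unique D hH.diff (differentiableOn_const (0 : ℂ)) (by
      filter_upwards [h1] with z hz
      have : ‖h.vv e z‖ ^ 2 = 0 := hz
      simpa using this) z hzU
    exact hne h2
  intro h0
  apply hpos
  simp_rw [hy] at h0
  have := congrArg Complex.im h0
  simpa [Complex.im_sum] using this

end

end Pool.Agent.Helper7.KE
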