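import Pool.Agent.Helper7.KE.B3
import Pool.Agent.Helper7.KE.B5
import Pool.Agent.Helper7.KE.A2b
import Pool.Agent.Helper7.KE.A5a
import Pool.Agent.Helper7.KE.D5a
import Pool.Agent.Helper7.KE.D5b
import Pool.Agent.Helper7.KE.B4aux

set_option autoImplicit false

open MeasureTheory Set Filter Asymptotics Topology Metric
open scoped ComplexConjugate ENNReal

namespace Pool.Agent.Helper7.KE

namespace B4aux

section
variable {Y : Type*} [NormedAddCommGroup Y] [NormedSpace ℂ Y]

lemma test_zero {V : Set ℂ} {G : ℂ → Y} (hG : IsTest V G) {z : ℂ} (hz : z ∉ V) : G z = 0 :=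
  image_eq_zero_of_notMem_tsupport (fun h => hz (hG.supp h))

lemma test_int {V : Set ℂ} {G : ℂ → Y} (hG : IsTest V G) : Integrable G :=
  hG.smooth.continuous.integrable_of_hasCompactSupport hG.compact

lemma int_sub {V U : Set ℂ} (hVU : V ⊆ U) {F : ℂ → Y} (hF : IsTest V F) :
    ∫ z in U, dz F z = 0 ∧ ∫ z in U, dzb F z = 0 := by
  have h1 := integral_dz_test (hF.smooth.of_le (by norm_cast)) hF.compact
  constructor
  · rw [setIntegral_eq_integral_of_forall_compl_eq_zero, h1.1]
    intro z hz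
    exact (dz_of_notMem (fun h => hz (hVU (hF.supp h)))).1
  · rw [setIntegral_eq_integral_of_forall_compl_eq_zero, h1.2]
    intro z hz
    exact (dz_of_notMem (fun h => hz (hVU (hF.supp h)))).2

lemma phase_congr {U B : Set ℂ} {G : ℂ → Y} (hG : IsTest B G) {ρ : ℂ → ℝ} {f : ℂ → ℂ}
    (hfre : ∀ z ∈ B, (f z).re = ρ z) (N : ℝ) :
    ∫ z in U, Complex.exp (Complex.I * (N * ρ z : ℝ)) • G z =
      ∫ z in U, Complex.exp (Complex.I * (N * (f z).re : ℝ)) • G z := by
  congr 1
  funext z
  by_cases hz : z ∈ B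
  · rw [hfre z hz]
  · rw [test_zero hG hz, smul_zero, smul_zero]

end

/-- the geometry at the boundary: the field `w ∂` is tangent to the circle -/
lemma tangent {f : ℂ → ℂ} {c₀ : ℂ} {r₀ θ : ℝ} (hr : 0 < r₀) {f' : ℂ}
    (hf : HasDerivAt f f' (c₀ + r₀ * Complex.exp (θ * Complex.I)))
    (h0 : ∀ᶠ φ : ℝ in 𝓝 θ, (f (c₀ + r₀ * Complex.exp (φ * Complex.I))).re = 0)
    {w : ℂ} (hw : f' * w = f (c₀ + r₀ * Complex.exp (θ * Complex.I))) (hf' : f' ≠ 0) :
    (Complex.exp (-(θ * Complex.I)) * w).re = 0 := by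
  set z := c₀ + r₀ * Complex.exp (θ * Complex.I) with hz
  have hγ : HasDerivAt (fun φ : ℝ => c₀ + r₀ * Complex.exp (φ * Complex.I))
      (r₀ * (Complex.exp (θ * Complex.I) * Complex.I)) θ := by
    have h1 : HasDerivAt (fun φ : ℝ => (φ : ℂ) * Complex.I) (1 * Complex.I) θ :=
      (Complex.ofRealCLM.hasDerivAt (x := θ)).mul_const Complex.I
    have h2 := (h1.cexp.const_mul (r₀ : ℂ)).const_add c₀
    rw [one_mul] at h2
    exact h2
  have h1 : HasDerivAt (fun φ : ℝ => f (c₀ + r₀ * Complex.exp (φ * Complex.I)))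
      (f' * (r₀ * (Complex.exp (θ * Complex.I) * Complex.I))) θ := hf.comp θ hγ
  have h2 : HasDerivAt (fun φ : ℝ => (f (c₀ + r₀ * Complex.exp (φ * Complex.I))).re)
      (f' * (r₀ * (Complex.exp (θ * Complex.I) * Complex.I))).re θ :=
    Complex.reCLM.hasFDerivAt.comp_hasDerivAt θ h1
  have h3 : HasDerivAt (fun φ : ℝ => (f (c₀ + r₀ * Complex.exp (φ * Complex.I))).re) 0 θ :=
    (hasDerivAt_const θ (0 : ℝ)).congr_of_eventuallyEq h0
  have h4 := h2.unique h3
  set A := f' * Complex.exp (θ * Complex.I) with hA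
  have h5 : f' * (r₀ * (Complex.exp (θ * Complex.I) * Complex.I)) = (r₀ : ℂ) * (A * Complex.I) := by
    rw [hA]; ring
  rw [h5, Complex.re_ofReal_mul, Complex.mul_I_re] at h4
  have hAim : A.im = 0 := by
    rcases mul_eq_zero.1 h4 with h6 | h6
    · exact absurd h6 hr.ne'
    · linarith
  have hAne : A ≠ 0 := mul_ne_zero hf' (Complex.exp_ne_zero _)
  have hAre : A.re ≠ 0 := by
    intro h6
    exact hAne (Complex.ext h6 hAim)
  have h7 : A * (Complex.exp (-(θ * Complex.I)) * w) = f z := by
    rw [hA, ← hw, Complex.exp_neg]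
    have := Complex.exp_ne_zero (θ * Complex.I)
    field_simp
  have h8 := congrArg Complex.re h7
  rw [Complex.mul_re, hAim, zero_mul, sub_zero, h0.self_of_nhds] at h8
  rcases mul_eq_zero.1 h8 with h9 | h9
  · exact absurd h9 hAre
  · exact h9

lemma scalar_zero {e w : ℂ} (h : (Complex.exp (-e) * w).re = 0) (he : conj e = -e) :
    Complex.exp (-e) * w + Complex.exp e * conj w = 0 := by
  have h1 : Complex.exp e * conj w = conj (Complex.exp (-e) * w) := by
    rw [map_mul, ← Complex.exp_conj, map_neg, he, neg_neg]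
  rw [h1, Complex.add_conj, h]
  simp

end B4aux

open B4aux

/-- KE-B4a: local expansions near every point -/
theorem local_PS {k : ℕ} (D : CD k) {τ δ : ℝ} (hτ : D.Good τ) (hδ : 0 < δ) (hδτ : δ ≤ τ)
    (h : HM D τ δ) (x : Fin k → ℝ) (hx : x ≠ 0) {ι : Type} [Fintype ι] [DecidableEq ι]
    (ps : PS D (h.rho x) ι) {κ : ℝ} (hκ : 0 < κ) (hκ' : Irrational κ) (i : ι) (p : ℂ) (hp : p ∈ D.cU)
    (hpi : p ∈ tsupport (ps.chi i)) :
    ∃ ε > 0, ball p ε ⊆ D.Ue δ ∧ ∃ s : Finset (ℝ × ℕ), GoodScale κ s ∧
      ∀ (Y : Type) [NormedAddCommGroup Y] [NormedSpace ℂ Y] [CompleteSpace Y] (G : ℂ → Y),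
        IsTest (ball p ε) G →
        HasExp s κ (fun N : ℝ => ∫ z in D.U,
          Complex.exp (Complex.I * (N * (h.rho x z - ps.c i) : ℝ)) • G z) := by
  classical
  obtain ⟨hρs, _, hvd, hdz, _, _, _, _⟩ := rho_facts h hτ hδ x 0
  have hV := D.Ue_open δ
  have hpe : p ∈ D.Ue δ := D.cU_subset_Ue hδ hp
  have hne : ¬ ∀ᶠ z in 𝓝 p, h.vv x z = 0 := by
    intro hev
    obtain ⟨t, htsub, hto, hpt⟩ := _root_.eventually_nhds_iff.1 hev
    obtain ⟨z, hzt, hzU⟩ := mem_closure_iff.1 (cU_subset_closure D hp) t hto hpt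
    have h1 : (t ∩ D.U) ∈ 𝓝 z := (hto.inter D.U_open).mem_nhds ⟨hzt, hzU⟩
    have h2 := infinite_of_mem_nhds z h1
    exact h2 ((vv_zeros h hτ hδ hδτ hx).1.subset
      (fun w hw => ⟨D.U_subset_cU hw.2, htsub w hw.1⟩))
  obtain ⟨m, ε0, f, u, u₁, hm, hε0, hb0, hu, hu₁, hune, hu₁ne, hfu, hfd, hfre⟩ :=
    exists_data hV hvd hρs hdz hpe hne
  -- common facts on smaller balls
  have hsm : ∀ ε : ℝ, ball p ε ⊆ ball p ε0 →
      ContDiffOn ℝ (⊤ : ℕ∞) (fun z => (((f z).re : ℝ) : ℂ)) (ball p ε) ∧
      ContDiffOn ℝ (⊤ : ℕ∞) (fun z => (z - p) * u z / u₁ z) (ball p ε) ∧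
      ContDiffOn ℝ (⊤ : ℕ∞) (fun z => conj ((z - p) * u z / u₁ z)) (ball p ε) := by
    intro ε hε
    have hf1 : ContDiffOn ℝ (⊤ : ℕ∞) f (ball p ε) := hol_contDiffOn isOpen_ball
      (fun z hz => (hfd z (hε hz)).differentiableAt.differentiableWithinAt)
    have hw1 : ContDiffOn ℝ (⊤ : ℕ∞) (fun z => (z - p) * u z / u₁ z) (ball p ε) := by
      refine hol_contDiffOn isOpen_ball ?_
      refine DifferentiableOn.div ?_ (hu₁.mono hε) (fun z hz => hu₁ne z (hε hz))
      exact ((differentiableOn_id).sub_const p).mul (hu.mono hε)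
    refine ⟨?_, hw1, ?_⟩
    · exact (Complex.ofRealCLM.contDiff.comp Complex.reCLM.contDiff).comp_contDiffOn hf1
    · exact (Complex.conjCLE.contDiff).comp_contDiffOn hw1
  rcases (mem_cU_iff D p).1 hp with hpU | ⟨l, hl⟩
  · obtain ⟨ε1, hε1, hb1⟩ := Metric.isOpen_iff.1 D.U_open p hpU
    by_cases hvp : h.vv x p = 0
    · -- critical point in the domain
      have hcp : h.rho x p = ps.c i := ps.val_crit i p ⟨hpi, hp⟩ (by rw [hdz p hpe]; exact hvp)
      obtain ⟨s, hs, hexp⟩ := local_expansion hm hκ hκ'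
      have hε : 0 < min ε0 ε1 := lt_min hε0 hε1
      have hbb0 : ball p (min ε0 ε1) ⊆ ball p ε0 := ball_subset_ball (min_le_left _ _)
      have hbU : ball p (min ε0 ε1) ⊆ D.U := (ball_subset_ball (min_le_right _ _)).trans hb1
      obtain ⟨hψ, hw, hwc⟩ := hsm _ hbb0
      refine ⟨min ε0 ε1, hε, hbb0.trans hb0, s, hs, fun Y _ _ _ G hG => ?_⟩
      have key := hexp Y D.U D.U_open.measurableSet p (min ε0 ε1) hε f u u₁ (hu.mono hbb0)
        (hu₁.mono hbb0) (fun z hz => hune z (hbb0 hz)) (fun z hz => hu₁ne z (hbb0 hz))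
        (fun z hz => hfu z (hbb0 hz)) (fun z hz => hfd z (hbb0 hz))
        (fun G hG => (int_sub hbU (IsTest.smul isOpen_ball hψ hG)).1)
        (fun G hG => (int_sub hbU (IsTest.smul isOpen_ball hψ hG)).2)
        (fun G hG => by
          have h1 := IsTest.smul isOpen_ball hw hG
          have h2 := IsTest.smul isOpen_ball hwc hG
          rw [integral_add (test_int h1.dz).integrableOn (test_int h2.dzb).integrableOn,
            (int_sub hbU h1).1, (int_sub hbU h2).2, add_zero]) G hG
      have h2 : (fun N : ℝ => ∫ z in D.U,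
          Complex.exp (Complex.I * (N * (h.rho x z - ps.c i) : ℝ)) • G z) =
          (fun N : ℝ => ∫ z in D.U, Complex.exp (Complex.I * (N * (f z).re : ℝ)) • G z) := by
        funext N
        exact phase_congr hG (fun z hz => by rw [hfre z (hbb0 hz), hcp]) N
      rw [h2]
      exact key
    · -- noncritical point in the domain
      have hcont : ContinuousAt (h.vv x) p := (hvd.continuousOn).continuousAt (hV.mem_nhds hpe)
      obtain ⟨ε2, hε2, hb2⟩ := Metric.eventually_nhds_iff_ball.1 (hcont.eventually_ne hvp)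
      have hε : 0 < min ε0 (min ε1 ε2) := lt_min hε0 (lt_min hε1 hε2)
      have hbb0 : ball p (min ε0 (min ε1 ε2)) ⊆ ball p ε0 := ball_subset_ball (min_le_left _ _)
      have hbU : ball p (min ε0 (min ε1 ε2)) ⊆ D.U :=
        (ball_subset_ball ((min_le_right _ _).trans (min_le_left _ _))).trans hb1
      have hb2' : ball p (min ε0 (min ε1 ε2)) ⊆ ball p ε2 :=
        ball_subset_ball ((min_le_right _ _).trans (min_le_right _ _))
      refine ⟨min ε0 (min ε1 ε2), hε, hbb0.trans hb0, ∅, fun q hq => by simp at hq,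
        fun Y _ _ _ G hG => ?_⟩
      obtain ⟨K, hK⟩ := exists_nat_ge κ
      set ρ' : ℂ → ℝ := fun z => h.rho x z - ps.c i with hρ'
      have hρ's : ContDiffOn ℝ (⊤ : ℕ∞) ρ' (ball p (min ε0 (min ε1 ε2))) :=
        (hρs.mono (hbb0.trans hb0)).sub contDiffOn_const
      have hdz' : ∀ z ∈ ball p (min ε0 (min ε1 ε2)), dz (fun w => (ρ' w : ℂ)) z ≠ 0 := by
        intro z hz
        have hzV : z ∈ D.Ue δ := hb0 (hbb0 hz)
        have h1 : DifferentiableAt ℝ (h.rho x) z :=
          (hρs.contDiffAt (hV.mem_nhds hzV)).differentiableAt (by simp)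
        have h1' : DifferentiableAt ℝ (fun w => (h.rho x w : ℂ)) z :=
          Complex.ofRealCLM.differentiableAt.comp z h1
        have h3 : (fun w => (ρ' w : ℂ)) = fun w => (h.rho x w : ℂ) + (fun _ => (-(ps.c i : ℂ))) w := by
          funext w; simp only [hρ']; push_cast; ring
        rw [h3, (dz_add h1' (differentiableAt_const _)).1, dz_const.1, add_zero, hdz z hzV]
        exact hb2 z (hb2' hz)
      obtain ⟨C, hC⟩ := nonstat isOpen_ball hρ's hdz' hG K
      refine HasExp.of_isBigO (Asymptotics.IsBigO.of_bound (max C 0) ?_)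
      filter_upwards [Filter.eventually_ge_atTop 1] with N hN
      have hN0 : 0 < N := by linarith
      have h1 : ∫ z in D.U, Complex.exp (Complex.I * (N * (h.rho x z - ps.c i) : ℝ)) • G z =
          ∫ z, Complex.exp (Complex.I * (N * ρ' z : ℝ)) • G z := by
        rw [setIntegral_eq_integral_of_forall_compl_eq_zero]
        intro z hz
        rw [test_zero hG (fun h => hz (hbU h)), smul_zero]
      rw [h1]
      refine (hC N hN).trans ?_
      rw [Real.norm_of_nonneg (Real.rpow_nonneg hN0.le _), div_eq_mul_inv]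
      have h2 : (N ^ K)⁻¹ ≤ N ^ (-κ) := by
        rw [← Real.rpow_natCast, ← Real.rpow_neg hN0.le]
        exact Real.rpow_le_rpow_of_exponent_le hN (by linarith)
      have h3 : 0 ≤ (N ^ K)⁻¹ := inv_nonneg.2 (pow_nonneg hN0.le _)
      exact mul_le_mul (le_max_left _ _) h2 h3 (le_max_right _ _)
  · -- point on a circle
    have hil : i = ps.bd l := ps.only_circ i l ⟨p, hpi, hl⟩
    have hcp : h.rho x p = ps.c i := by rw [hil]; exact ps.val_circ l p hl
    have hoth : ∀ᶠ z in 𝓝 p, ∀ l', l' ≠ l → z ∉ D.circ l' := by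
      rw [eventually_all]
      intro l'
      by_cases hll : l' = l
      · exact Eventually.of_forall fun _ h => absurd hll h
      · have hcl : IsClosed (D.circ l') := isClosed_sphere
        have hnot : p ∉ D.circ l' := fun h => (Set.disjoint_left.1 (circ_disj D hll)) h hl
        filter_upwards [hcl.isOpen_compl.mem_nhds hnot] with z hz _
        exact hz
    obtain ⟨ε1, hε1, hb1⟩ := Metric.eventually_nhds_iff_ball.1 hoth
    obtain ⟨s, hs, hexp⟩ := local_expansion hm hκ hκ'
    have hε : 0 < min ε0 ε1 := lt_min hε0 hε1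
    have hbb0 : ball p (min ε0 ε1) ⊆ ball p ε0 := ball_subset_ball (min_le_left _ _)
    have hbb1 : ball p (min ε0 ε1) ⊆ ball p ε1 := ball_subset_ball (min_le_right _ _)
    obtain ⟨hψ, hw, hwc⟩ := hsm _ hbb0
    -- the phase vanishes on the circle
    have hcirc : ∀ l', ∀ z ∈ D.circ l', z ∈ ball p (min ε0 ε1) → l' = l ∧ (f z).re = 0 := by
      intro l' z hz hzb
      have h1 : l' = l := by
        by_contra hne
        exact hb1 z (hbb1 hzb) l' hne hz
      refine ⟨h1, ?_⟩
      subst h1
      rw [hfre z (hbb0 hzb), hcp, hil, ps.val_circ l' z hz, sub_self]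
    have hrad : ∀ l', 0 < D.rad l' := by
      intro l'
      cases l' with
      | none => exact D.Rpos
      | some j => exact D.rpos j
    have hmemc : ∀ (l' : Option (Fin k)) (θ : ℝ),
        D.cen l' + D.rad l' * Complex.exp (θ * Complex.I) ∈ D.circ l' := by
      intro l' θ
      simp [CD.circ, dist_eq_norm, Complex.norm_exp_ofReal_mul_I, abs_of_pos (hrad l')]
    have hscal : ∀ (l' : Option (Fin k)) (θ : ℝ) (z : ℂ),
        z = D.cen l' + D.rad l' * Complex.exp (θ * Complex.I) → z ∈ ball p (min ε0 ε1) →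
        Complex.exp (-(θ * Complex.I)) * ((z - p) * u z / u₁ z) +
          Complex.exp (θ * Complex.I) * conj ((z - p) * u z / u₁ z) = 0 := by
      intro l' θ z hz hzb
      apply scalar_zero
      · by_cases hzp : z = p
        · rw [hzp]; simp
        · have hzp' : z - p ≠ 0 := sub_ne_zero.2 hzp
          have hf' : (z - p) ^ (m - 1) * u₁ z ≠ 0 :=
            mul_ne_zero (pow_ne_zero _ hzp') (hu₁ne z (hbb0 hzb))
          refine tangent (f := f) (c₀ := D.cen l') (r₀ := D.rad l') (θ := θ)
            (f' := (z - p) ^ (m - 1) * u₁ z) (hrad l') ?_ ?_ ?_ hf'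
          · rw [← hz]; exact hfd z (hbb0 hzb)
          · have hcont : Continuous fun φ : ℝ =>
                D.cen l' + D.rad l' * Complex.exp (φ * Complex.I) := by fun_prop
            have h1 : ∀ᶠ φ : ℝ in 𝓝 θ, D.cen l' + D.rad l' * Complex.exp (φ * Complex.I) ∈
                ball p (min ε0 ε1) := by
              refine hcont.continuousAt.eventually_mem ?_
              rw [← hz]
              exact isOpen_ball.mem_nhds hzb
            filter_upwards [h1] with φ hφ
            exact (hcirc l' _ (hmemc l' φ) hφ).2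
          · rw [← hz, hfu z (hbb0 hzb)]
            have h2 : (z - p) ^ m = (z - p) ^ (m - 1) * (z - p) := by
              rw [← pow_succ, Nat.sub_add_cancel hm]
            have h3 := hu₁ne z (hbb0 hzb)
            rw [h2]
            field_simp
      · rw [map_mul, Complex.conj_ofReal, Complex.conj_I, mul_neg]
    refine ⟨min ε0 ε1, hε, hbb0.trans hb0, s, hs, fun Y _ _ _ G hG => ?_⟩
    have hgz : ∀ G : ℂ → Y, IsTest (ball p (min ε0 ε1)) G →
        ∫ z in D.U, dz (fun z => (((f z).re : ℝ) : ℂ) • G z) z = 0 ∧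
        ∫ z in D.U, dzb (fun z => (((f z).re : ℝ) : ℂ) • G z) z = 0 := by
      intro G hG
      have h1 := IsTest.smul isOpen_ball hψ hG
      refine green_zero D isOpen_univ (subset_univ _)
        (h1.smooth.of_le (by norm_cast)).contDiffOn ?_
      intro l' z hz
      by_cases hzb : z ∈ ball p (min ε0 ε1)
      · rw [(hcirc l' z hz hzb).2]; simp
      · rw [test_zero hG hzb, smul_zero]
    have hg3 : ∀ G : ℂ → Y, IsTest (ball p (min ε0 ε1)) G →
        ∫ z in D.U, (dz (fun z => ((z - p) * u z / u₁ z) • G z) z +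
          dzb (fun z => conj ((z - p) * u z / u₁ z) • G z) z) = 0 := by
      intro G hG
      have h1 := IsTest.smul isOpen_ball hw hG
      have h2 := IsTest.smul isOpen_ball hwc hG
      rw [integral_add (test_int h1.dz).integrableOn (test_int h2.dzb).integrableOn,
        (green_CD D isOpen_univ (subset_univ _)
          (h1.smooth.of_le (by norm_cast)).contDiffOn).1,
        (green_CD D isOpen_univ (subset_univ _)
          (h2.smooth.of_le (by norm_cast)).contDiffOn).2]
      set F₁ : ℂ → Y := fun z => ((z - p) * u z / u₁ z) • G z with hF₁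
      set F₂ : ℂ → Y := fun z => conj ((z - p) * u z / u₁ z) • G z with hF₂
      have hc1 : Continuous F₁ := h1.smooth.continuous
      have hc2 : Continuous F₂ := h2.smooth.continuous
      have hpt : ∀ (l' : Option (Fin k)) (θ : ℝ) (z : ℂ),
          z = D.cen l' + D.rad l' * Complex.exp (θ * Complex.I) →
          Complex.exp (-(θ * Complex.I)) • F₁ z + Complex.exp (θ * Complex.I) • F₂ z = 0 := by
        intro l' θ z hz
        by_cases hzb : z ∈ ball p (min ε0 ε1)
        · rw [hF₁, hF₂]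
          simp only
          rw [smul_smul, smul_smul, ← add_smul, hscal l' θ z hz hzb, zero_smul]
        · rw [hF₁, hF₂]
          simp only
          rw [test_zero hG hzb, smul_zero, smul_zero, smul_zero, smul_zero, add_zero]
      have hint : ∀ (l' : Option (Fin k)) (γ : ℝ → ℂ),
          (∀ θ, γ θ = D.cen l' + D.rad l' * Complex.exp (θ * Complex.I)) →
          (∫ θ in (0 : ℝ)..2 * Real.pi, Complex.exp (θ * Complex.I) • F₂ (γ θ)) =
          -(∫ θ in (0 : ℝ)..2 * Real.pi, Complex.exp (-(θ * Complex.I)) • F₁ (γ θ)) := by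
        intro l' γ hγ
        have hγc : Continuous γ := by
          have : γ = fun θ : ℝ => D.cen l' + D.rad l' * Complex.exp (θ * Complex.I) := funext hγ
          rw [this]; fun_prop
        rw [eq_neg_iff_add_eq_zero, ← intervalIntegral.integral_add]
        · have : ∀ θ : ℝ, Complex.exp (θ * Complex.I) • F₂ (γ θ) +
              Complex.exp (-(θ * Complex.I)) • F₁ (γ θ) = 0 := by
            intro θ
            rw [add_comm]
            exact hpt l' θ (γ θ) (hγ θ)
          simp only [this]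
          simp
        · apply Continuous.intervalIntegrable
          fun_prop
        · apply Continuous.intervalIntegrable
          fun_prop
      have e0 := hint none (fun θ => (D.R : ℂ) * Complex.exp (θ * Complex.I))
        (fun θ => by simp [CD.cen, CD.rad])
      have ej := fun j => hint (some j)
        (fun θ => D.a j + D.r j * Complex.exp (θ * Complex.I)) (fun θ => by simp [CD.cen, CD.rad])
      have e3 : ∑ j, (D.r j / 2 : ℂ) • ∫ θ in (0 : ℝ)..2 * Real.pi,
          Complex.exp (θ * Complex.I) • F₂ (D.a j + D.r j * Complex.exp (θ * Complex.I)) =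
          -∑ j, (D.r j / 2 : ℂ) • ∫ θ in (0 : ℝ)..2 * Real.pi,
          Complex.exp (-(θ * Complex.I)) • F₁ (D.a j + D.r j * Complex.exp (θ * Complex.I)) := by
        rw [← Finset.sum_neg_distrib]
        refine Finset.sum_congr rfl (fun j _ => ?_)
        rw [← smul_neg]
        exact congrArg _ (ej j)
      rw [e0, e3, smul_neg]
      abel
    have key := hexp Y D.U D.U_open.measurableSet p (min ε0 ε1) hε f u u₁ (hu.mono hbb0)
      (hu₁.mono hbb0) (fun z hz => hune z (hbb0 hz)) (fun z hz => hu₁ne z (hbb0 hz))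
      (fun z hz => hfu z (hbb0 hz)) (fun z hz => hfd z (hbb0 hz))
      (fun G hG => (hgz G hG).1) (fun G hG => (hgz G hG).2) hg3 G hG
    have h2 : (fun N : ℝ => ∫ z in D.U,
        Complex.exp (Complex.I * (N * (h.rho x z - ps.c i) : ℝ)) • G z) =
        (fun N : ℝ => ∫ z in D.U, Complex.exp (Complex.I * (N * (f z).re : ℝ)) • G z) := by
      funext N
      exact phase_congr hG (fun z hz => by rw [hfre z (hbb0 hz), hcp]) N
    rw [h2]
    exact key

end Pool.Agent.Helper7.KE
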