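import Pool.Agent.Helper7.KE.B4a

set_option autoImplicit false

open MeasureTheory Set Filter Asymptotics Topology Metric
open scoped ComplexConjugate ENNReal

namespace Pool.Agent.Helper7.KE

theorem b4b_partition {K : Set ℂ} (hK : IsCompact K) (c : K → ℂ) (e : K → ℝ)
    (hc : ∀ p : K, (p : ℂ) ∈ ball (c p) (e p)) :
    ∃ (T : Finset K) (φ : K → ℂ → ℝ), (∀ p, ContDiff ℝ (⊤ : ℕ∞) (φ p)) ∧
      (∀ p ∈ T, tsupport (φ p) ⊆ ball (c p) (e p)) ∧ ∀ z ∈ K, ∑ p ∈ T, φ p z = 1 := by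
  classical
  obtain ⟨T, hT⟩ := hK.elim_finite_subcover (fun p : K => ball (c p) (e p))
    (fun _ => isOpen_ball) (fun z hz => mem_iUnion.2 ⟨⟨z, hz⟩, hc ⟨z, hz⟩⟩)
  obtain ⟨f, hf⟩ := SmoothPartitionOfUnity.exists_isSubordinate (modelWithCornersSelf ℝ ℂ) (M := ℂ) (ι := T)
    hK.isClosed (fun p : T => ball (c p) (e p)) (fun _ => isOpen_ball) (by
      intro z hz
      obtain ⟨p, hp, hz'⟩ := mem_iUnion₂.1 (hT hz)
      exact mem_iUnion.2 ⟨⟨p, hp⟩, hz'⟩)
  refine ⟨T, fun p => if h : p ∈ T then f ⟨p, h⟩ else 0, fun p => ?_, fun p hp => ?_, fun z hz => ?_⟩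
  · dsimp only
    split_ifs with h
    · exact contMDiff_iff_contDiff.1 (f ⟨p, h⟩).contMDiff
    · exact contDiff_const
  · dsimp only
    rw [dif_pos hp]
    exact hf ⟨p, hp⟩
  · have h1 := f.sum_eq_one hz
    rw [finsum_eq_sum_of_fintype] at h1
    rw [← h1, ← Finset.sum_coe_sort T]
    refine Finset.sum_congr rfl fun p _ => ?_
    dsimp only
    rw [dif_pos p.2]

theorem b4b_test {Y : Type*} [NormedAddCommGroup Y] [NormedSpace ℂ Y] {V : Set ℂ} (hV : IsOpen V)
    {p : ℂ} {ε : ℝ} (hb : ball p ε ⊆ V) {A : ℂ → Y} (hA : ContDiffOn ℝ (⊤ : ℕ∞) A V)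
    {φ χ : ℂ → ℝ} (hφ : ContDiff ℝ (⊤ : ℕ∞) φ) (hχ : ContDiff ℝ (⊤ : ℕ∞) χ)
    (hs : tsupport φ ⊆ ball p ε) :
    IsTest (ball p ε) (fun z => ((φ z * χ z : ℝ) : ℂ) • A z) := by
  have hts : tsupport (fun z => ((φ z * χ z : ℝ) : ℂ) • A z) ⊆ tsupport φ := by
    refine closure_mono fun z hz => ?_
    rw [Function.mem_support] at hz ⊢
    intro h0
    apply hz
    simp [h0]
  refine ⟨?_, ?_, hts.trans hs⟩
  · rw [contDiff_iff_contDiffAt]
    intro z
    by_cases hz : z ∈ ball p ε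
    · have h1 : ContDiffAt ℝ (⊤ : ℕ∞) A z := hA.contDiffAt (hV.mem_nhds (hb hz))
      have h2 : ContDiffAt ℝ (⊤ : ℕ∞) (fun z => ((φ z * χ z : ℝ) : ℂ)) z :=
        (Complex.ofRealCLM.contDiff.comp (hφ.mul hχ)).contDiffAt
      exact h2.smul h1
    · have h1 : z ∉ tsupport (fun z => ((φ z * χ z : ℝ) : ℂ) • A z) := fun h => hz (hs (hts h))
      rw [notMem_tsupport_iff_eventuallyEq] at h1
      exact contDiffAt_const.congr_of_eventuallyEq h1
  · exact ((isCompact_closedBall p ε).of_isClosed_subset (isClosed_tsupport _)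
      ((hts.trans hs).trans ball_subset_closedBall))

/-- KE-B4b: the global expansion (partition of unity) -/
theorem exp_PS {k : ℕ} (D : CD k) {τ δ : ℝ} (hτ : D.Good τ) (hδ : 0 < δ) (hδτ : δ ≤ τ)
    (h : HM D τ δ) (x : Fin k → ℝ) (hx : x ≠ 0) {ι : Type} [Fintype ι] [DecidableEq ι]
    (ps : PS D (h.rho x) ι) {κ : ℝ} (hκ : 0 < κ) (hκ' : Irrational κ) : ∃ s : Finset (ℝ × ℕ), GoodScale κ s ∧
      ∀ (Y : Type) [NormedAddCommGroup Y] [NormedSpace ℂ Y] [CompleteSpace Y] (A : ℂ → Y),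
        ContDiffOn ℝ (⊤ : ℕ∞) A (D.Ue δ) → ∀ i : ι,
        HasExp s κ (fun N : ℝ => ∫ z in D.U, ((ps.chi i z : ℂ) *
          Complex.exp (Complex.I * (N * (h.rho x z - ps.c i) : ℝ))) • A z) := by
  classical
  have key : ∀ i : ι, ∃ s : Finset (ℝ × ℕ), GoodScale κ s ∧
      ∀ (Y : Type) [NormedAddCommGroup Y] [NormedSpace ℂ Y] [CompleteSpace Y] (A : ℂ → Y),
        ContDiffOn ℝ (⊤ : ℕ∞) A (D.Ue δ) →
        HasExp s κ (fun N : ℝ => ∫ z in D.U, ((ps.chi i z : ℂ) *
          Complex.exp (Complex.I * (N * (h.rho x z - ps.c i) : ℝ))) • A z) := by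
    intro i
    set K : Set ℂ := D.cU ∩ tsupport (ps.chi i) with hKdef
    have hK : IsCompact K := D.cU_compact.inter_right (isClosed_tsupport _)
    have hloc : ∀ p : K, ∃ ε > 0, ball (p : ℂ) ε ⊆ D.Ue δ ∧ ∃ s : Finset (ℝ × ℕ), GoodScale κ s ∧
      ∀ (Y : Type) [NormedAddCommGroup Y] [NormedSpace ℂ Y] [CompleteSpace Y] (G : ℂ → Y),
        IsTest (ball (p : ℂ) ε) G →
        HasExp s κ (fun N : ℝ => ∫ z in D.U,
          Complex.exp (Complex.I * (N * (h.rho x z - ps.c i) : ℝ)) • G z) := fun p =>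
      local_PS D hτ hδ hδτ h x hx ps hκ hκ' i p p.2.1 p.2.2
    choose e he hb s hs hexp using hloc
    obtain ⟨T, φ, hφ, hφs, hφ1⟩ := b4b_partition hK (fun p => (p : ℂ)) e
      (fun p => mem_ball_self (he p))
    refine ⟨T.biUnion s, fun q hq => ?_, fun Y _ _ _ A hA => ?_⟩
    · obtain ⟨p, _, hp⟩ := Finset.mem_biUnion.1 hq
      exact hs p q hp
    · have hG : ∀ p ∈ T, IsTest (ball (p : ℂ) (e p))
          (fun z => ((φ p z * ps.chi i z : ℝ) : ℂ) • A z) := fun p hp =>
        b4b_test (D.Ue_open δ) (hb p) hA (hφ p) (ps.smooth i) (hφs p hp)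
      have h1 : HasExp (T.biUnion s) κ (fun N : ℝ => ∑ p ∈ T, ∫ z in D.U,
          Complex.exp (Complex.I * (N * (h.rho x z - ps.c i) : ℝ)) •
            (((φ p z * ps.chi i z : ℝ) : ℂ) • A z)) := by
        refine HasExp.sum T fun p hp => ?_
        exact (hexp p Y _ (hG p hp)).mono (Finset.subset_biUnion_of_mem s hp)
      refine h1.congr (Eventually.of_forall fun N => ?_)
      have hrho : ContinuousOn (fun z => h.rho x z) D.cU := by
        have hsub := D.cU_subset_Ue hδ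
        unfold HM.rho
        refine continuousOn_finsetSum _ fun j _ => continuousOn_const.mul ?_
        exact (h.smooth j).continuousOn.mono hsub
      have hexpc : ContinuousOn (fun z => Complex.exp
          (Complex.I * (N * (h.rho x z - ps.c i) : ℝ))) D.cU := by
        refine Complex.continuous_exp.comp_continuousOn (continuousOn_const.mul ?_)
        exact Complex.continuous_ofReal.comp_continuousOn
          (continuousOn_const.mul (hrho.sub continuousOn_const))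
      dsimp only
      rw [← integral_finsetSum]
      · refine setIntegral_congr_fun D.U_open.measurableSet fun z hz => ?_
        simp only [smul_smul]
        rw [← Finset.sum_smul, ← Finset.mul_sum]
        by_cases hzK : z ∈ tsupport (ps.chi i)
        · have h2 : ∑ p ∈ T, ((φ p z * ps.chi i z : ℝ) : ℂ) = (ps.chi i z : ℂ) := by
            rw [← Complex.ofReal_sum, ← Finset.sum_mul, hφ1 z ⟨D.U_subset_cU hz, hzK⟩, one_mul]
          rw [h2, mul_comm]
        · have h2 : ps.chi i z = 0 := image_eq_zero_of_notMem_tsupport hzK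
          simp [h2]
      · intro p hp
        have h3 : ContinuousOn (fun z => Complex.exp
          (Complex.I * (N * (h.rho x z - ps.c i) : ℝ)) •
            (((φ p z * ps.chi i z : ℝ) : ℂ) • A z)) D.cU :=
          hexpc.smul (hG p hp).smooth.continuous.continuousOn
        exact (h3.integrableOn_compact D.cU_compact).mono_set D.U_subset_cU
  choose s hs hexp using key
  refine ⟨Finset.univ.biUnion s, fun q hq => ?_, fun Y _ _ _ A hA i => ?_⟩
  · obtain ⟨i, _, hi⟩ := Finset.mem_biUnion.1 hq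
    exact hs i q hi
  · exact (hexp i Y A hA).mono (Finset.subset_biUnion_of_mem s (Finset.mem_univ i))

end Pool.Agent.Helper7.KE
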