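import Pool.Agent.Helper7.KE.Defs

set_option autoImplicit false

open MeasureTheory Set Filter Asymptotics Topology Metric
open scoped ComplexConjugate ENNReal

namespace Pool.Agent.Helper7.KE

/-- a continuous function which is holomorphic after composition with a separating family of
functionals is holomorphic -/
theorem hol_of_sep {Y : Type*} [NormedAddCommGroup Y] [NormedSpace ℂ Y] [CompleteSpace Y]
    {ι : Type*} (φ : ι → (Y →L[ℂ] ℂ)) (hφ : ∀ y, (∀ i, φ i y = 0) → y = 0) {V : Set ℂ}
    (hV : IsOpen V) {F : ℂ → Y} (hFc : ContinuousOn F V)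
    (hF : ∀ i, DifferentiableOn ℂ (fun z => φ i (F z)) V) : DifferentiableOn ℂ F V := by
  intro z₀ hz₀
  obtain ⟨R, hR, hRV⟩ := Metric.nhds_basis_closedBall.mem_iff.1 (hV.mem_nhds hz₀)
  have hci : CircleIntegrable F z₀ R :=
    (hFc.mono (sphere_subset_closedBall.trans hRV)).circleIntegrable hR.le
  have hps : DifferentiableAt ℂ
      (fun w => (2 * Real.pi * Complex.I : ℂ)⁻¹ • ∮ z in C(z₀, R), (z - w)⁻¹ • F z) z₀ := by
    lift R to NNReal using hR.le
    exact (hasFPowerSeriesOn_cauchy_integral hci (by exact_mod_cast hR)).analyticAt.differentiableAt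
  have heq : (fun w => (2 * Real.pi * Complex.I : ℂ)⁻¹ • ∮ z in C(z₀, R), (z - w)⁻¹ • F z)
      =ᶠ[𝓝 z₀] F := by
    filter_upwards [ball_mem_nhds z₀ hR] with w hw
    rw [← sub_eq_zero]
    apply hφ
    intro i
    rw [map_sub, map_smul, sub_eq_zero]
    have h1 : φ i (∮ z in C(z₀, R), (z - w)⁻¹ • F z) =
        ∮ z in C(z₀, R), (z - w)⁻¹ • φ i (F z) := by
      have hne : ∀ z ∈ sphere z₀ R, z - w ≠ 0 := fun z hz h => by
        rw [sub_eq_zero] at h
        rw [h, mem_sphere] at hz
        rw [mem_ball] at hw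
        linarith
      have hci2 : CircleIntegrable (fun z => (z - w)⁻¹ • F z) z₀ R := by
        refine ContinuousOn.circleIntegrable hR.le ?_
        exact ((continuousOn_id.sub continuousOn_const).inv₀ hne).smul
          (hFc.mono (sphere_subset_closedBall.trans hRV))
      rw [circleIntegral, circleIntegral, ← (φ i).intervalIntegral_comp_comm hci2.out]
      congr 1
      funext θ
      simp
    rw [h1]
    have h2 := DiffContOnCl.two_pi_i_inv_smul_circleIntegral_sub_inv_smul (c := z₀) (R := R)
      (f := fun z => φ i (F z)) (w := w) ?_ hw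
    · exact h2
    · refine ((hF i).mono ?_).diffContOnCl
      rw [closure_ball z₀ hR.ne']
      exact hRV
  exact (hps.congr_of_eventuallyEq heq.symm).differentiableWithinAt

/-- KE-C0: a weakly-* holomorphic function is holomorphic -/
theorem weak_hol {E : Type*} [NormedAddCommGroup E] [NormedSpace ℂ E] [CompleteSpace E]
    {V : Set ℂ} (hV : IsOpen V) {F : ℂ → (E →L[ℂ] ℂ)}
    (hF : ∀ x, DifferentiableOn ℂ (fun z => F z x) V) : DifferentiableOn ℂ F V := by
  refine hol_of_sep (fun x => ContinuousLinearMap.apply ℂ ℂ x) ?_ hV ?_ ?_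
  · intro y hy
    ext x
    exact hy x
  · intro z₀ hz₀
    apply ContinuousAt.continuousWithinAt
    obtain ⟨R, hR, hRV⟩ := Metric.nhds_basis_closedBall.mem_iff.1 (hV.mem_nhds hz₀)
    -- local boundedness
    obtain ⟨C, hC⟩ : ∃ C, ∀ z : closedBall z₀ R, ‖F z‖ ≤ C := by
      apply banach_steinhaus
      intro x
      obtain ⟨C, hC⟩ := (isCompact_closedBall z₀ R).exists_bound_of_continuousOn
        ((hF x).continuousOn.mono hRV)
      exact ⟨C, fun z => hC z z.2⟩
    have hC0 : 0 ≤ C := (norm_nonneg _).trans (hC ⟨z₀, mem_closedBall_self hR.le⟩)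
    -- Cauchy estimate
    have hder : ∀ x, ∀ z ∈ ball z₀ (R / 2), ‖deriv (fun z => F z x) z‖ ≤ C * ‖x‖ / (R / 2) := by
      intro x z hz
      have hsub : closedBall z (R / 2) ⊆ closedBall z₀ R := by
        apply closedBall_subset_closedBall'
        rw [mem_ball] at hz
        linarith
      apply Complex.norm_deriv_le_of_forall_mem_sphere_norm_le (by linarith)
      · apply DifferentiableOn.diffContOnCl
        rw [closure_ball z (by linarith)]
        exact (hF x).mono (hsub.trans hRV)
      · intro w hw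
        have hw' : w ∈ closedBall z₀ R := hsub (sphere_subset_closedBall hw)
        exact ((F w).le_opNorm x).trans
          (mul_le_mul_of_nonneg_right (hC ⟨w, hw'⟩) (norm_nonneg _))
    have hlip : ∀ z ∈ ball z₀ (R / 2), ‖F z - F z₀‖ ≤ C / (R / 2) * ‖z - z₀‖ := by
      intro z hz
      refine ContinuousLinearMap.opNorm_le_bound _ (by positivity) fun x => ?_
      have h1 := (convex_ball z₀ (R / 2)).norm_image_sub_le_of_norm_deriv_le
        (f := fun z => F z x) (C := C * ‖x‖ / (R / 2)) (𝕜 := ℂ)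
        (fun w hw => ((hF x).differentiableAt (hV.mem_nhds (hRV (ball_subset_closedBall
          (ball_subset_ball (by linarith) hw)))))) (hder x)
        (mem_ball_self (by linarith)) hz
      rw [ContinuousLinearMap.sub_apply]
      refine h1.trans (le_of_eq ?_)
      ring
    rw [ContinuousAt, tendsto_iff_norm_sub_tendsto_zero]
    have h0 : Tendsto (fun z => C / (R / 2) * ‖z - z₀‖) (𝓝 z₀) (𝓝 0) := by
      have : Continuous (fun z => C / (R / 2) * ‖z - z₀‖) := by fun_prop
      simpa using this.tendsto z₀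
    refine squeeze_zero' (Eventually.of_forall fun z => norm_nonneg _) ?_ h0
    filter_upwards [ball_mem_nhds z₀ (half_pos hR)] with z hz using hlip z hz
  · intro x
    exact hF x

/-- KE-C0: currying into `C(K, ℂ)` -/
theorem curry_hol {K : Type*} [TopologicalSpace K] [CompactSpace K] {V : Set ℂ} (hV : IsOpen V)
    {G : K → ℂ → ℂ} (hc : ContinuousOn (fun p : K × ℂ => G p.1 p.2) (univ ×ˢ V))
    (hd : ∀ κ, DifferentiableOn ℂ (G κ) V) :
    ∃ F : ℂ → C(K, ℂ), DifferentiableOn ℂ F V ∧ ∀ z ∈ V, ∀ κ, F z κ = G κ z := by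
  classical
  have hcz : ∀ z ∈ V, Continuous (fun κ => G κ z) := by
    intro z hz
    have : ContinuousOn (fun κ : K => (fun p : K × ℂ => G p.1 p.2) (κ, z)) univ :=
      hc.comp (by fun_prop) (fun κ _ => ⟨mem_univ _, hz⟩)
    exact continuousOn_univ.1 this
  set F : ℂ → C(K, ℂ) := fun z => if hz : z ∈ V then ⟨fun κ => G κ z, hcz z hz⟩ else 0 with hFdef
  have hFv : ∀ z ∈ V, ∀ κ, F z κ = G κ z := by
    intro z hz κ
    rw [hFdef]
    simp only [dif_pos hz]
    rfl
  refine ⟨F, ?_, hFv⟩
  refine hol_of_sep (fun κ => ContinuousMap.evalCLM ℂ κ) ?_ hV ?_ ?_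
  · intro y hy
    ext κ
    exact hy κ
  · -- continuity
    rw [continuousOn_iff_continuous_domRestrict]
    have : V.domRestrict F = fun z : V => (⟨fun κ => G κ z, hcz z z.2⟩ : C(K, ℂ)) := by
      funext z
      ext κ
      exact hFv z z.2 κ
    rw [this]
    apply ContinuousMap.continuous_of_continuous_uncurry
    show Continuous (fun p : V × K => G p.2 (p.1 : ℂ))
    have h2 : ContinuousOn (fun p : V × K => (fun p : K × ℂ => G p.1 p.2) (p.2, (p.1 : ℂ))) univ :=
      hc.comp (by fun_prop) (fun p _ => ⟨mem_univ _, p.1.2⟩)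
    exact continuousOn_univ.1 h2
  · intro κ
    refine (hd κ).congr fun z hz => ?_
    exact hFv z hz κ

end Pool.Agent.Helper7.KE
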