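import Pool.Agent.Helper7.KE.Defs

set_option autoImplicit false

open MeasureTheory Set Filter Asymptotics Topology Metric
open scoped ComplexConjugate ENNReal

namespace Pool.Agent.Helper7.KE

open Classical in
/-- KE-C0: the functions on `K × closed disc` which are holomorphic in the disc form a closed
subspace -/
theorem closed_hol {W : Type*} [TopologicalSpace W] (K : Set W) (r : ℝ)
    [CompactSpace (K ×ˢ closedBall (0 : ℂ) r : Set (W × ℂ))] :
    ∃ V : Submodule ℂ C((K ×ˢ closedBall (0 : ℂ) r : Set (W × ℂ)), ℂ),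
      IsClosed (V : Set C((K ×ˢ closedBall (0 : ℂ) r : Set (W × ℂ)), ℂ)) ∧
      ∀ f, f ∈ V ↔ ∃ F : W → ℂ → ℂ, (∀ v ∈ K, DifferentiableOn ℂ (F v) (ball 0 r)) ∧
        ∀ p : (K ×ˢ closedBall (0 : ℂ) r : Set (W × ℂ)), p.1.2 ∈ ball (0 : ℂ) r →
          f p = F p.1.1 p.1.2 := by
  let V : Submodule ℂ C((K ×ˢ closedBall (0 : ℂ) r : Set (W × ℂ)), ℂ) :=
    { carrier := {f | ∃ F : W → ℂ → ℂ, (∀ v ∈ K, DifferentiableOn ℂ (F v) (ball 0 r)) ∧
        ∀ p : (K ×ˢ closedBall (0 : ℂ) r : Set (W × ℂ)), p.1.2 ∈ ball (0 : ℂ) r →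
          f p = F p.1.1 p.1.2}
      add_mem' := by
        rintro f g ⟨F, hF, hF'⟩ ⟨G, hG, hG'⟩
        exact ⟨fun v => F v + G v, fun v hv => (hF v hv).add (hG v hv), fun p hp => by
          rw [ContinuousMap.add_apply, hF' p hp, hG' p hp]; rfl⟩
      zero_mem' := ⟨0, fun v _ => differentiableOn_const 0, fun p _ => rfl⟩
      smul_mem' := by
        rintro c f ⟨F, hF, hF'⟩
        exact ⟨fun v => c • F v, fun v hv => (hF v hv).const_smul c, fun p hp => by
          rw [ContinuousMap.smul_apply, hF' p hp]; rfl⟩ }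
  refine ⟨V, ?_, fun f => Iff.rfl⟩
  apply IsSeqClosed.isClosed
  intro f f₀ hf hlim
  choose F hF hF' using hf
  refine ⟨fun v μ => if h : (v, μ) ∈ (K ×ˢ closedBall (0 : ℂ) r : Set (W × ℂ)) then f₀ ⟨(v, μ), h⟩
    else 0, fun v hv => ?_, fun p hp => ?_⟩
  · have hmem : ∀ μ ∈ ball (0 : ℂ) r, (v, μ) ∈ (K ×ˢ closedBall (0 : ℂ) r : Set (W × ℂ)) :=
      fun μ hμ => ⟨hv, ball_subset_closedBall hμ⟩
    have hu : TendstoUniformlyOn (fun n => F n v) (fun μ =>
        if h : (v, μ) ∈ (K ×ˢ closedBall (0 : ℂ) r : Set (W × ℂ)) then f₀ ⟨(v, μ), h⟩ else 0)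
        atTop (ball 0 r) := by
      rw [ContinuousMap.tendsto_iff_tendstoUniformly, Metric.tendstoUniformly_iff] at hlim
      rw [Metric.tendstoUniformlyOn_iff]
      intro ε hε
      filter_upwards [hlim ε hε] with n hn μ hμ
      have h1 := hn ⟨(v, μ), hmem μ hμ⟩
      rw [hF' n ⟨(v, μ), hmem μ hμ⟩ hμ] at h1
      simpa [hmem μ hμ] using h1
    exact hu.tendstoLocallyUniformlyOn.differentiableOn
      (Eventually.of_forall fun n => hF n v hv) isOpen_ball
  · have h1 : ((p.1.1, p.1.2) : W × ℂ) ∈ (K ×ˢ closedBall (0 : ℂ) r : Set (W × ℂ)) := p.2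
    simp only
    rw [dif_pos h1]

end Pool.Agent.Helper7.KE
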