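import Pool.Agent.Helper7.KE.A1
import Pool.Agent.Helper7.KE.C1

set_option autoImplicit false

open MeasureTheory Set Filter Asymptotics Topology Metric
open scoped ComplexConjugate ENNReal Convolution

namespace Pool.Agent.Helper7.KE

namespace Weyl

/-- cutoff profile -/
noncomputable def Hc (s : ℝ) : ℝ := Real.smoothTransition (4 * s - 1)

theorem Hc_contDiff : ContDiff ℝ (⊤ : ℕ∞) Hc :=
  Real.smoothTransition.contDiff.comp (by fun_prop)

theorem Hc_zero {s : ℝ} (h : s ≤ 1 / 4) : Hc s = 0 :=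
  Real.smoothTransition.zero_of_nonpos (by linarith)

theorem Hc_one {s : ℝ} (h : 1 / 2 ≤ s) : Hc s = 1 :=
  Real.smoothTransition.one_of_one_le (by linarith)

theorem Hc_mono : Monotone Hc := fun s t h =>
  Real.smoothTransition.monotone (by linarith)

theorem Hc_hasDerivAt (s : ℝ) : HasDerivAt Hc (deriv Hc s) s :=
  (Hc_contDiff.differentiable (by simp)).differentiableAt.hasDerivAt

theorem Hc_deriv_zero {s : ℝ} (h : s < 1 / 4 ∨ 1 / 2 < s) : deriv Hc s = 0 := by
  rcases h with h | h
  · have : Hc =ᶠ[𝓝 s] fun _ => 0 := by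
      filter_upwards [Iio_mem_nhds h] with t ht using Hc_zero (le_of_lt ht)
    rw [this.deriv_eq]; simp
  · have : Hc =ᶠ[𝓝 s] fun _ => 1 := by
      filter_upwards [Ioi_mem_nhds h] with t ht using Hc_one (le_of_lt ht)
    rw [this.deriv_eq]; simp

theorem Hc_deriv_continuous : Continuous (deriv Hc) :=
  Hc_contDiff.continuous_deriv (by simp)

/-- the kernel -/
noncomputable def kap (ε : ℝ) (w : ℂ) : ℝ := deriv Hc (‖w‖ ^ 2 / ε ^ 2) / ε ^ 2

/-- its primitive -/
noncomputable def psi (ε : ℝ) (w : ℂ) : ℂ := (Hc (‖w‖ ^ 2 / ε ^ 2) : ℂ) • w⁻¹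

theorem normsq_contDiff (ε : ℝ) : ContDiff ℝ (⊤ : ℕ∞) fun w : ℂ => ‖w‖ ^ 2 / ε ^ 2 :=
  (contDiff_norm_sq ℝ).div_const _

theorem near_zero {ε : ℝ} (hε : 0 < ε) : ∀ᶠ w : ℂ in 𝓝 0, ‖w‖ ^ 2 / ε ^ 2 < 1 / 4 := by
  have hc : Continuous fun w : ℂ => ‖w‖ ^ 2 / ε ^ 2 := (normsq_contDiff ε).continuous
  have := hc.tendsto (0 : ℂ)
  simp only [norm_zero, ne_eq, OfNat.ofNat_ne_zero, not_false_eq_true, zero_pow, zero_div] at this
  exact this.eventually_lt_const (by norm_num)

theorem psi_contDiff {ε : ℝ} (hε : 0 < ε) : ContDiff ℝ (⊤ : ℕ∞) (psi ε) := by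
  rw [contDiff_iff_contDiffAt]
  intro w
  rcases eq_or_ne w 0 with rfl | hw
  · have : psi ε =ᶠ[𝓝 0] fun _ => 0 := by
      filter_upwards [near_zero hε] with w hw
      rw [psi, Hc_zero hw.le]; simp
    exact contDiffAt_const.congr_of_eventuallyEq this
  · have h1 : ContDiffAt ℝ (⊤ : ℕ∞) (fun w : ℂ => (Hc (‖w‖ ^ 2 / ε ^ 2) : ℂ)) w :=
      (Complex.ofRealCLM.contDiff.comp (Hc_contDiff.comp (normsq_contDiff ε))).contDiffAt
    exact h1.smul (contDiffAt_inv ℝ hw)

theorem psi_eq_inv {ε : ℝ} (hε : 0 < ε) {w : ℂ} (h : ε ≤ ‖w‖) : psi ε w = w⁻¹ := by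
  have h1 : (1 : ℝ) / 2 ≤ ‖w‖ ^ 2 / ε ^ 2 := by
    rw [div_le_div_iff₀ (by norm_num) (by positivity)]
    nlinarith
  rw [psi, Hc_one h1]; simp

theorem dzb_normsq (ε : ℝ) (w : ℂ) :
    dzb (fun w : ℂ => ((‖w‖ ^ 2 / ε ^ 2 : ℝ) : ℂ)) w = w / (ε ^ 2 : ℝ) := by
  have h1 : (fun w : ℂ => ((‖w‖ ^ 2 / ε ^ 2 : ℝ) : ℂ)) =
      fun w : ℂ => (((ε ^ 2 : ℝ) : ℂ)⁻¹ * w) • conj w := by
    funext w
    rw [smul_eq_mul, mul_assoc, Complex.mul_conj, Complex.normSq_eq_norm_sq]
    push_cast
    ring
  have h2 : DifferentiableAt ℂ (fun w : ℂ => ((ε ^ 2 : ℝ) : ℂ)⁻¹ * w) w := by fun_prop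
  have h3 : DifferentiableAt ℂ (fun w : ℂ => w) w := differentiableAt_id
  have h4 : DifferentiableAt ℝ (fun w : ℂ => conj w) w :=
    (Complex.conjCLE : ℂ →L[ℝ] ℂ).differentiableAt
  rw [h1, (dz_smul (h2.restrictScalars ℝ) h4).2, (dz_hol h2).2, (dz_conj_hol h3).2]
  simp
  ring

theorem dzb_psi {ε : ℝ} (hε : 0 < ε) (w : ℂ) : dzb (psi ε) w = (kap ε w : ℂ) := by
  rcases eq_or_ne w 0 with rfl | hw
  · have : psi ε =ᶠ[𝓝 0] fun _ => 0 := by
      filter_upwards [near_zero hε] with w hw
      rw [psi, Hc_zero hw.le]; simp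
    rw [(dz_congr this).2, dz_const.2, kap, Hc_deriv_zero (Or.inl (by simp))]
    simp
  · have h1 : DifferentiableAt ℝ (fun w : ℂ => ‖w‖ ^ 2 / ε ^ 2) w :=
      ((normsq_contDiff ε).differentiable (by simp)).differentiableAt
    have h2 := (dz_comp_real h1 (Hc_hasDerivAt (‖w‖ ^ 2 / ε ^ 2))).2
    have h3 : DifferentiableAt ℝ (fun w : ℂ => (Hc (‖w‖ ^ 2 / ε ^ 2) : ℂ)) w :=
      ((Complex.ofRealCLM.contDiff.comp (Hc_contDiff.comp (normsq_contDiff ε))).differentiable
        (by simp)).differentiableAt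
    have h4 : DifferentiableAt ℂ (fun w : ℂ => w⁻¹) w := differentiableAt_inv hw
    have h5 : psi ε = fun w : ℂ => (Hc (‖w‖ ^ 2 / ε ^ 2) : ℂ) • w⁻¹ := rfl
    rw [h5, (dz_smul h3 (h4.restrictScalars ℝ)).2, (dz_hol h4).2, h2, dzb_normsq, kap]
    simp only [smul_eq_mul, mul_zero, add_zero]
    push_cast
    field_simp

theorem kap_contDiff (ε : ℝ) : ContDiff ℝ (⊤ : ℕ∞) (kap ε) :=
  ((Hc_contDiff.deriv' : ContDiff ℝ (⊤ : ℕ∞) (deriv Hc)).comp (normsq_contDiff ε)).div_const _

theorem kap_zero {ε : ℝ} (hε : 0 < ε) {w : ℂ} (h : ε ≤ ‖w‖) : kap ε w = 0 := by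
  have h1 : (1 : ℝ) / 2 < ‖w‖ ^ 2 / ε ^ 2 := by
    rw [div_lt_div_iff₀ (by norm_num) (by positivity)]
    nlinarith
  rw [kap, Hc_deriv_zero (Or.inr h1), zero_div]

theorem kap_compact {ε : ℝ} (hε : 0 < ε) : HasCompactSupport (kap ε) := by
  refine HasCompactSupport.intro (isCompact_closedBall (0 : ℂ) ε) fun w hw => kap_zero hε ?_
  simp only [mem_closedBall, dist_zero_right, not_le] at hw
  exact hw.le

theorem dz_comp_sub {F : ℂ → ℂ} {z t : ℂ} (hF : DifferentiableAt ℝ F (z - t)) :
    dzb (fun t => F (z - t)) t = -dzb F (z - t) := by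
  have h : HasFDerivAt (fun t => F (z - t)) ((fderiv ℝ F (z - t)).comp
      (-(ContinuousLinearMap.id ℝ ℂ))) t := by
    have h1 : HasFDerivAt (fun t : ℂ => z - t) (-(ContinuousLinearMap.id ℝ ℂ)) t :=
      (hasFDerivAt_id t).const_sub z
    exact hF.hasFDerivAt.comp t h1
  unfold dzb
  rw [h.fderiv]
  simp only [ContinuousLinearMap.comp_apply, ContinuousLinearMap.neg_apply,
    ContinuousLinearMap.id_apply, map_neg]
  module

/-- the difference of two primitives is a test function near `z` -/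
theorem test_psi {V : Set ℂ} {z : ℂ} {r ε δ : ℝ} (hε : 0 < ε) (hδ : 0 < δ) (hεr : ε ≤ r)
    (hδr : δ ≤ r) (hV : closedBall z r ⊆ V) :
    IsTest V (fun t => psi ε (z - t) - psi δ (z - t)) := by
  have hz : ∀ t, t ∉ closedBall z r → psi ε (z - t) - psi δ (z - t) = 0 := by
    intro t ht
    simp only [mem_closedBall, dist_eq_norm, not_le] at ht
    rw [norm_sub_rev] at ht
    rw [psi_eq_inv hε (by linarith), psi_eq_inv hδ (by linarith), sub_self]
  have hsupp : tsupport (fun t => psi ε (z - t) - psi δ (z - t)) ⊆ closedBall z r := by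
    refine closure_minimal (fun t ht => ?_) isClosed_closedBall
    by_contra h
    exact ht (hz t h)
  refine ⟨?_, ?_, hsupp.trans hV⟩
  · exact ((psi_contDiff hε).comp (contDiff_const.sub contDiff_id)).sub
      ((psi_contDiff hδ).comp (contDiff_const.sub contDiff_id))
  · exact (isCompact_closedBall z r).of_isClosed_subset isClosed_closure hsupp

theorem dzb_test_psi {z : ℂ} {ε δ : ℝ} (hε : 0 < ε) (hδ : 0 < δ) (t : ℂ) :
    dzb (fun t => psi ε (z - t) - psi δ (z - t)) t
      = -((kap ε (z - t) : ℂ) - (kap δ (z - t) : ℂ)) := by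
  have h1 : ∀ {η : ℝ}, 0 < η → DifferentiableAt ℝ (psi η) (z - t) := fun hη =>
    ((psi_contDiff hη).differentiable (by simp)).differentiableAt
  have h2 : ∀ {η : ℝ}, 0 < η → DifferentiableAt ℝ (fun t => psi η (z - t)) t := fun hη =>
    (h1 hη).comp t ((differentiableAt_const z).sub differentiableAt_id)
  have h3 : (fun t => psi ε (z - t) - psi δ (z - t))
      = fun t => psi ε (z - t) + (-psi δ (z - t)) := by funext t; ring
  rw [h3, (dz_add (F := fun t => psi ε (z - t)) (G := fun t => -psi δ (z - t))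
    (h2 hε) (h2 hδ).neg).2, dz_neg.2, dz_comp_sub (h1 hε), dz_comp_sub (h1 hδ),
    dzb_psi hε, dzb_psi hδ]
  ring

theorem kap_cont (ε : ℝ) : Continuous fun w : ℂ => (kap ε w : ℂ) :=
  Complex.continuous_ofReal.comp (kap_contDiff ε).continuous

theorem kap_compact' {ε : ℝ} (hε : 0 < ε) : HasCompactSupport fun w : ℂ => (kap ε w : ℂ) :=
  (kap_compact hε).comp_left (g := fun x : ℝ => (x : ℂ)) (by simp)

theorem integral_kap_eq {ε δ : ℝ} (hε : 0 < ε) (hδ : 0 < δ) :
    ∫ w, (kap ε w : ℂ) = ∫ w, (kap δ w : ℂ) := by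
  have ht := test_psi (V := univ) (z := 0) (r := max ε δ) hε hδ (le_max_left _ _)
    (le_max_right _ _) (subset_univ _)
  have h1 := (integral_dz_test (ht.smooth.of_le (by simp)) ht.compact).2
  simp only [dzb_test_psi hε hδ] at h1
  rw [integral_neg, neg_eq_zero] at h1
  have i1 : ∀ {η : ℝ}, 0 < η → Integrable fun t : ℂ => (kap η (0 - t) : ℂ) := by
    intro η hη
    have := ((kap_cont η).integrable_of_hasCompactSupport (μ := volume) (kap_compact' hη))
    simpa using this.comp_sub_left (0 : ℂ)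
  rw [integral_sub (i1 hε) (i1 hδ)] at h1
  have e1 : ∀ η : ℝ, ∫ t : ℂ, (kap η (0 - t) : ℂ) = ∫ w, (kap η w : ℂ) := fun η =>
    integral_sub_left_eq_self (fun w => (kap η w : ℂ)) volume 0
  rw [e1, e1] at h1
  exact sub_eq_zero.1 h1

theorem kap_nonneg (ε : ℝ) (w : ℂ) : 0 ≤ kap ε w :=
  div_nonneg Hc_mono.deriv_nonneg (by positivity)

/-- the total mass of the kernel -/
noncomputable def cst : ℝ := ∫ w, kap 1 w

theorem cst_pos : 0 < cst := by
  have hne : ∃ w : ℂ, kap 1 w ≠ 0 := by
    by_contra hcon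
    push Not at hcon
    have h0 : ∀ s : ℝ, deriv Hc s = 0 := by
      intro s
      rcases lt_or_ge s 0 with hs | hs
      · exact Hc_deriv_zero (Or.inl (by linarith))
      · have := hcon ((Real.sqrt s : ℝ) : ℂ)
        rw [kap, Complex.norm_real, Real.norm_eq_abs, sq_abs, Real.sq_sqrt hs] at this
        simpa using this
    have h1 := is_const_of_deriv_eq_zero (Hc_contDiff.differentiable (by simp)) h0 0 1
    rw [Hc_zero (by norm_num), Hc_one (by norm_num)] at h1
    norm_num at h1
  obtain ⟨w, hw⟩ := hne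
  exact (kap_contDiff 1).continuous.integral_pos_of_hasCompactSupport_nonneg_nonzero
    (kap_compact one_pos) (fun w => kap_nonneg 1 w) hw

theorem integral_kap {ε : ℝ} (hε : 0 < ε) : ∫ w, (kap ε w : ℂ) = cst := by
  rw [integral_kap_eq hε one_pos, cst]
  exact integral_ofReal

/-- a bound of the kernel -/
theorem kap_bound : ∃ C : ℝ, 0 ≤ C ∧ ∀ ε : ℝ, 0 < ε → ∀ w : ℂ, ‖(kap ε w : ℂ)‖ ≤ C / ε ^ 2 := by
  have hc : Continuous (deriv Hc) := Hc_deriv_continuous
  have hs : HasCompactSupport (deriv Hc) := by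
    refine HasCompactSupport.intro (isCompact_Icc (a := (0 : ℝ)) (b := 1)) fun s hs => ?_
    apply Hc_deriv_zero
    rw [mem_Icc, not_and_or, not_le, not_le] at hs
    rcases hs with h | h
    · left; linarith
    · right; linarith
  obtain ⟨C, hC⟩ := hc.bounded_above_of_compact_support hs
  refine ⟨C, (norm_nonneg _).trans (hC 0), fun ε hε w => ?_⟩
  rw [kap, Complex.norm_real, norm_div, norm_pow, Real.norm_eq_abs ε, sq_abs]
  gcongr
  exact hC _

section
variable {k : ℕ} (D : CD k)

/-- extension by zero -/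
noncomputable def ext0 (u : D.L2) : ℂ → ℂ := D.U.indicator (u : ℂ → ℂ)

theorem L2_integrable (u : D.L2) : Integrable (u : ℂ → ℂ) (volume.restrict D.U) :=
  (Lp.memLp u).integrable (by norm_num)

theorem ext0_integrable (u : D.L2) : Integrable (ext0 D u) :=
  (integrable_indicator_iff D.U_open.measurableSet).2 (L2_integrable D u)

/-- mollification -/
noncomputable def moll (u : D.L2) (ε : ℝ) (z : ℂ) : ℂ := ∫ t, ext0 D u t * (kap ε (z - t) : ℂ)

theorem moll_eq (u : D.L2) (ε : ℝ) (z : ℂ) :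
    moll D u ε z = ∫ t in D.U, (u : ℂ → ℂ) t * (kap ε (z - t) : ℂ) := by
  rw [← integral_indicator D.U_open.measurableSet]
  refine integral_congr_ae (Eventually.of_forall fun t => ?_)
  simp only [ext0, indicator]
  split_ifs <;> simp

theorem int_mul {u : D.L2} {φ : ℂ → ℂ} (hφ : Continuous φ) (hc : HasCompactSupport φ) :
    Integrable (fun t => (u : ℂ → ℂ) t * φ t) (volume.restrict D.U) := by
  obtain ⟨C, hC⟩ := hφ.bounded_above_of_compact_support hc
  exact (L2_integrable D u).mul_bdd (c := C) hφ.aestronglyMeasurable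
    (Eventually.of_forall hC)

theorem int_ext0 {u : D.L2} {ε : ℝ} (hε : 0 < ε) (z : ℂ) :
    Integrable (fun t => ext0 D u t * (kap ε (z - t) : ℂ)) := by
  obtain ⟨C, hC⟩ := (kap_cont ε).bounded_above_of_compact_support (kap_compact' hε)
  exact (ext0_integrable D u).mul_bdd (c := C)
    ((kap_cont ε).comp (continuous_const.sub continuous_id)).aestronglyMeasurable
    (Eventually.of_forall fun t => hC _)

variable {D} in
theorem weak_zero {u : D.L2} (h : D.WeakDbar u 0) {φ : ℂ → ℂ} (hφ : IsTest D.U φ) :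
    ∫ z in D.U, (u : ℂ → ℂ) z * dzb φ z = 0 := by
  rw [h φ hφ, neg_eq_zero]
  have : (fun z => ((0 : D.L2) : ℂ → ℂ) z * φ z) =ᵐ[volume.restrict D.U] fun _ => 0 := by
    filter_upwards [Lp.coeFn_zero ℂ 2 (volume.restrict D.U)] with z hz
    rw [hz]; simp
  rw [integral_congr_ae this, integral_zero]

variable {D} in
/-- the mollifications agree -/
theorem moll_indep {u : D.L2} (h : D.WeakDbar u 0) {z : ℂ} {r ε δ : ℝ} (hε : 0 < ε) (hδ : 0 < δ)
    (hεr : ε ≤ r) (hδr : δ ≤ r) (hV : closedBall z r ⊆ D.U) :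
    moll D u ε z = moll D u δ z := by
  have hw := weak_zero h (test_psi hε hδ hεr hδr hV)
  have hi : ∀ {η : ℝ}, 0 < η →
      Integrable (fun t => (u : ℂ → ℂ) t * (kap η (z - t) : ℂ)) (volume.restrict D.U) := by
    intro η hη
    obtain ⟨C, hC⟩ := (kap_cont η).bounded_above_of_compact_support (kap_compact' hη)
    exact (L2_integrable D u).mul_bdd (c := C)
      ((kap_cont η).comp (continuous_const.sub continuous_id)).aestronglyMeasurable
      (Eventually.of_forall fun t => hC _)
  rw [moll_eq, moll_eq, ← sub_eq_zero, ← integral_sub (hi hε) (hi hδ)]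
  rw [← neg_eq_zero, ← integral_neg, ← hw]
  refine integral_congr_ae (Eventually.of_forall fun t => ?_)
  simp only [dzb_test_psi hε hδ]
  ring

theorem differentiableAt_of_dzb {F : ℂ → ℂ} {F' : ℂ →L[ℝ] ℂ} {z : ℂ} (h : HasFDerivAt F F' z)
    (h0 : F' 1 + Complex.I * F' Complex.I = 0) : DifferentiableAt ℂ F z := by
  have hI : F' Complex.I = Complex.I * F' 1 := by
    have : Complex.I * (F' 1 + Complex.I * F' Complex.I) = 0 := by rw [h0, mul_zero]
    rw [mul_add, ← mul_assoc, Complex.I_mul_I] at this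
    linear_combination -this
  refine (hasFDerivAt_of_restrictScalars ℝ (f' := (ContinuousLinearMap.toSpanSingleton ℂ (F' 1)))
    h ?_).differentiableAt
  ext w
  have hw : w = (w.re : ℝ) • (1 : ℂ) + (w.im : ℝ) • Complex.I := by
    simp [Complex.re_add_im]
  have h1 : F' w = (w.re : ℂ) * F' 1 + (w.im : ℂ) * (Complex.I * F' 1) := by
    conv_lhs => rw [hw]
    rw [map_add, map_smul, map_smul, hI, Complex.real_smul, Complex.real_smul]
  have h2 : w * F' 1 = (w.re : ℂ) * F' 1 + (w.im : ℂ) * (Complex.I * F' 1) := by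
    conv_lhs => rw [← Complex.re_add_im w]
    ring
  simp only [ContinuousLinearMap.coe_restrictScalars',
    ContinuousLinearMap.toSpanSingleton_apply, smul_eq_mul]
  rw [h1, h2]

variable {D} in
/-- the mollifications are holomorphic -/
theorem moll_hol {u : D.L2} (h : D.WeakDbar u 0) {z : ℂ} {ε : ℝ} (hε : 0 < ε)
    (hV : closedBall z ε ⊆ D.U) : DifferentiableAt ℂ (moll D u ε) z := by
  set g : ℂ → ℂ := fun w => (kap ε w : ℂ) with hg
  have hgc : HasCompactSupport g := kap_compact' hε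
  have hgs : ContDiff ℝ (⊤ : ℕ∞) g := Complex.ofRealCLM.contDiff.comp (kap_contDiff ε)
  have hloc : LocallyIntegrable (ext0 D u) volume := (ext0_integrable D u).locallyIntegrable
  have hconv : moll D u ε = (ext0 D u) ⋆[ContinuousLinearMap.mul ℝ ℂ, volume] g := by
    funext z
    rfl
  have hder := hgc.hasFDerivAt_convolution_right (ContinuousLinearMap.mul ℝ ℂ) hloc
    (hgs.of_le (by simp)) z
  rw [← hconv] at hder
  refine differentiableAt_of_dzb hder ?_
  have hfc : Continuous (fderiv ℝ g) := hgs.continuous_fderiv (by simp)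
  have hfs : HasCompactSupport (fderiv ℝ g) := hgc.fderiv ℝ
  have key : ∀ v : ℂ, ((ext0 D u) ⋆[(ContinuousLinearMap.mul ℝ ℂ).precompR ℂ, volume]
      fderiv ℝ g) z v = ∫ t in D.U, (u : ℂ → ℂ) t * fderiv ℝ g (z - t) v := by
    intro v
    rw [convolution_precompR_apply _ hloc hfs hfc, convolution_def,
      ← integral_indicator D.U_open.measurableSet]
    refine integral_congr_ae (Eventually.of_forall fun t => ?_)
    simp only [ext0, indicator, ContinuousLinearMap.mul_apply']
    split_ifs <;> simp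
  have hint : ∀ v : ℂ, Integrable (fun t => (u : ℂ → ℂ) t * fderiv ℝ g (z - t) v)
      (volume.restrict D.U) := by
    intro v
    have hcv : Continuous fun w => fderiv ℝ g w v := hfc.clm_apply continuous_const
    obtain ⟨C, hC⟩ := hfc.bounded_above_of_compact_support hfs
    refine (L2_integrable D u).mul_bdd (c := C * ‖v‖)
      (hcv.comp (continuous_const.sub continuous_id)).aestronglyMeasurable
      (Eventually.of_forall fun t => ?_)
    exact ((fderiv ℝ g (z - t)).le_opNorm v).trans (by gcongr; exact hC _)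
  -- the test function
  have htest : IsTest D.U (fun t => g (z - t)) := by
    have hz : ∀ t, t ∉ closedBall z ε → g (z - t) = 0 := by
      intro t ht
      simp only [mem_closedBall, dist_eq_norm, not_le] at ht
      rw [norm_sub_rev] at ht
      rw [hg]
      simp only [kap_zero hε ht.le, Complex.ofReal_zero]
    have hsupp : tsupport (fun t => g (z - t)) ⊆ closedBall z ε := by
      refine closure_minimal (fun t ht => ?_) isClosed_closedBall
      by_contra h
      exact ht (hz t h)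
    exact ⟨hgs.comp (contDiff_const.sub contDiff_id),
      (isCompact_closedBall z ε).of_isClosed_subset isClosed_closure hsupp, hsupp.trans hV⟩
  have hw := weak_zero h htest
  rw [key, key, ← integral_const_mul, ← integral_add (hint 1) ((hint Complex.I).const_mul _)]
  have h2 : ∀ t, (u : ℂ → ℂ) t * fderiv ℝ g (z - t) 1 +
      Complex.I * ((u : ℂ → ℂ) t * fderiv ℝ g (z - t) Complex.I)
      = (-2) * ((u : ℂ → ℂ) t * dzb (fun t => g (z - t)) t) := by
    intro t
    have hd : DifferentiableAt ℝ g (z - t) := (hgs.differentiable (by simp)).differentiableAt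
    rw [dz_comp_sub hd, dzb]
    simp only [smul_eq_mul]
    ring
  simp only [h2]
  rw [integral_const_mul, hw, mul_zero]

/-- convergence of the mollifications -/
theorem moll_tendsto (u : D.L2) : ∀ᵐ z ∂(volume : Measure ℂ),
    Tendsto (fun n : ℕ => moll D u (1 / ((n : ℝ) + 1)) z) atTop (𝓝 (cst * ext0 D u z)) := by
  obtain ⟨C, hC0, hC⟩ := kap_bound
  have hloc : LocallyIntegrable (ext0 D u) volume := (ext0_integrable D u).locallyIntegrable
  filter_upwards [IsUnifLocDoublingMeasure.ae_tendsto_average_norm_sub volume hloc 1] with z hz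
  have hδ : Tendsto (fun n : ℕ => 1 / ((n : ℝ) + 1)) atTop (𝓝[>] 0) := by
    rw [tendsto_nhdsWithin_iff]
    exact ⟨tendsto_one_div_add_atTop_nhds_zero_nat, Eventually.of_forall fun n => by
      show (0 : ℝ) < _; positivity⟩
  have h1 := hz (fun _ : ℕ => z) (fun n : ℕ => 1 / ((n : ℝ) + 1)) hδ
    (Eventually.of_forall fun n => mem_closedBall_self (by positivity))
  rw [tendsto_iff_norm_sub_tendsto_zero]
  have h1' := h1.const_mul (C * Real.pi)
  rw [mul_zero] at h1'
  refine squeeze_zero (fun n => norm_nonneg _) (fun n => ?_) h1'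
  set ε : ℝ := 1 / ((n : ℝ) + 1) with hε
  have hε0 : 0 < ε := by positivity
  have hcz : (cst : ℂ) * ext0 D u z = ∫ t, ext0 D u z * (kap ε (z - t) : ℂ) := by
    rw [integral_const_mul, integral_sub_left_eq_self (fun w => (kap ε w : ℂ)) volume z,
      integral_kap hε0, mul_comm]
  have i1 := int_ext0 D (u := u) hε0 z
  have i2 : Integrable (fun t => ext0 D u z * (kap ε (z - t) : ℂ)) :=
    (((kap_cont ε).integrable_of_hasCompactSupport (kap_compact' hε0)).comp_sub_left z).const_mul _
  have hsub : moll D u ε z - cst * ext0 D u z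
      = ∫ t, (ext0 D u t - ext0 D u z) * (kap ε (z - t) : ℂ) := by
    rw [hcz, moll, ← integral_sub i1 i2]
    congr 1; funext t; ring
  have hzero : ∀ t, t ∉ closedBall z ε → (ext0 D u t - ext0 D u z) * (kap ε (z - t) : ℂ) = 0 := by
    intro t ht
    simp only [mem_closedBall, dist_eq_norm, not_le] at ht
    rw [norm_sub_rev] at ht
    rw [kap_zero hε0 ht.le]; simp
  rw [hsub, ← setIntegral_eq_integral_of_forall_compl_eq_zero hzero]
  have hintn : IntegrableOn (fun t => ‖ext0 D u t - ext0 D u z‖) (closedBall z ε) volume :=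
    (((ext0_integrable D u).integrableOn).sub (integrableOn_const
      (measure_closedBall_lt_top.ne))).norm
  calc ‖∫ t in closedBall z ε, (ext0 D u t - ext0 D u z) * (kap ε (z - t) : ℂ)‖
      ≤ ∫ t in closedBall z ε, ‖ext0 D u t - ext0 D u z‖ * (C / ε ^ 2) := by
        refine norm_integral_le_of_norm_le (hintn.mul_const _)
          (Eventually.of_forall fun t => ?_)
        rw [norm_mul]
        gcongr
        exact hC ε hε0 _
    _ = (C / ε ^ 2) * ∫ t in closedBall z ε, ‖ext0 D u t - ext0 D u z‖ := by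
        rw [integral_mul_const, mul_comm]
    _ = C * Real.pi * ⨍ y in closedBall z ε, ‖ext0 D u y - ext0 D u z‖ := by
        rw [setAverage_eq, measureReal_def, Complex.volume_closedBall]
        simp only [ENNReal.toReal_mul, ENNReal.toReal_pow, ENNReal.toReal_ofReal hε0.le,
          ENNReal.coe_toReal, NNReal.coe_real_pi, smul_eq_mul]
        field_simp

end

end Weyl

open Weyl in
theorem weyl {k : ℕ} (D : CD k) {u : D.L2} (h : D.WeakDbar u 0) : u ∈ D.Berg := by
  have hc : (cst : ℂ) ≠ 0 := by exact_mod_cast cst_pos.ne'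
  set G : ℂ → ℂ := fun z => (cst : ℂ)⁻¹ * moll D u (evr D z) z with hG
  have hball : ∀ {z}, z ∈ D.U → closedBall z (evr D z) ⊆ D.U := fun {z} hz =>
    (evr_ball D z).resolve_right (not_le.2 (evr_pos D hz))
  have hdiff : DifferentiableOn ℂ G D.U := by
    intro z hz
    have h0 := evr_pos D hz
    have hb := hball hz
    set r := evr D z / 2 with hr
    have hr0 : 0 < r := by linarith
    have heq : G =ᶠ[𝓝 z] fun w => (cst : ℂ)⁻¹ * moll D u r w := by
      filter_upwards [ball_mem_nhds z hr0] with w hw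
      have hw' : dist w z < r := hw
      have hsub : closedBall w r ⊆ D.U := by
        refine (closedBall_subset_closedBall' ?_).trans hb
        linarith
      have hwU : w ∈ D.U := hsub (mem_closedBall_self hr0.le)
      have hmax : closedBall w (max r (evr D w)) ⊆ D.U := by
        rcases max_cases r (evr D w) with ⟨h1, -⟩ | ⟨h1, -⟩
        · rw [h1]; exact hsub
        · rw [h1]; exact hball hwU
      rw [hG]
      simp only
      rw [moll_indep h (evr_pos D hwU) hr0 (le_max_right _ _) (le_max_left _ _) hmax]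
    have hd : DifferentiableAt ℂ (moll D u r) z :=
      moll_hol h hr0 ((closedBall_subset_closedBall (by linarith)).trans hb)
    exact ((hd.const_mul _).congr_of_eventuallyEq heq).differentiableWithinAt
  have hae : u =ᵐ[volume.restrict D.U] G := by
    filter_upwards [ae_restrict_of_ae (moll_tendsto D u),
      ae_restrict_mem D.U_open.measurableSet] with z hz hzU
    have h0 := evr_pos D hzU
    have hev : ∀ᶠ n : ℕ in atTop, moll D u (1 / ((n : ℝ) + 1)) z = moll D u (evr D z) z := by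
      have : ∀ᶠ n : ℕ in atTop, 1 / ((n : ℝ) + 1) < evr D z :=
        tendsto_one_div_add_atTop_nhds_zero_nat.eventually_lt_const h0
      filter_upwards [this] with n hn
      exact moll_indep h (by positivity) h0 hn.le le_rfl (hball hzU)
    have h1 : Tendsto (fun n : ℕ => moll D u (1 / ((n : ℝ) + 1)) z) atTop
        (𝓝 (moll D u (evr D z) z)) := tendsto_const_nhds.congr' (hev.mono fun n hn => hn.symm)
    have h2 := tendsto_nhds_unique hz h1
    rw [hG]
    simp only
    rw [← h2, ext0, indicator_of_mem hzU, ← mul_assoc, inv_mul_cancel₀ hc, one_mul]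
  exact Submodule.le_topologicalClosure _ ⟨G, hdiff, hae⟩

end Pool.Agent.Helper7.KE
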