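import Pool.Agent.Helper7.KE.A1

set_option autoImplicit false

open MeasureTheory Set Filter Asymptotics Topology Metric
open scoped ComplexConjugate ENNReal

namespace Pool.Agent.Helper7.KE

namespace C3aux

/-- kernels which are bounded and Lipschitz -/
structure Nice (K : ℂ → ℂ) : Prop where
  bdd : ∃ M, 0 ≤ M ∧ ∀ w, ‖K w‖ ≤ M
  lip : ∃ C, 0 ≤ C ∧ ∀ w w', ‖K w - K w'‖ ≤ C * ‖w - w'‖

theorem Nice.continuous {K : ℂ → ℂ} (hK : Nice K) : Continuous K := by
  obtain ⟨C, hC0, hC⟩ := hK.lip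
  refine (LipschitzWith.of_dist_le_mul (K := ⟨C, hC0⟩) fun x y => ?_).continuous
  rw [dist_eq_norm, dist_eq_norm]
  exact hC x y

theorem Nice.sub {K L : ℂ → ℂ} (hK : Nice K) (hL : Nice L) : Nice (fun w => K w - L w) := by
  obtain ⟨M, hM0, hM⟩ := hK.bdd
  obtain ⟨M', hM0', hM'⟩ := hL.bdd
  obtain ⟨C, hC0, hC⟩ := hK.lip
  obtain ⟨C', hC0', hC'⟩ := hL.lip
  refine ⟨⟨M + M', by positivity, fun w => (norm_sub_le _ _).trans (add_le_add (hM w) (hM' w))⟩,
    ⟨C + C', by positivity, fun w w' => ?_⟩⟩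
  have : K w - L w - (K w' - L w') = (K w - K w') - (L w - L w') := by ring
  rw [this, add_mul]
  exact (norm_sub_le _ _).trans (add_le_add (hC w w') (hC' w w'))

/-- an operator given by a square integrable vector valued kernel is compact -/
theorem compact_pairing {μ : Measure ℂ} {H : Type*} [NormedAddCommGroup H] [NormedSpace ℂ H]
    [CompleteSpace H] (κ : Lp H 2 μ) :
    IsCompactOperator
      (((ContinuousLinearMap.lsmul ℂ ℂ : ℂ →L[ℂ] H →L[ℂ] H).lpPairing μ 2 2).flip κ) := by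
  set B := ((ContinuousLinearMap.lsmul ℂ ℂ : ℂ →L[ℂ] H →L[ℂ] H).lpPairing μ 2 2).flip with hB
  induction κ using Lp.induction (by norm_num : (2 : ℝ≥0∞) ≠ ∞) with
  | indicatorConst c hs hμs =>
    rename_i s
    -- rank one
    let L : Lp ℂ 2 μ →L[ℂ] ℂ :=
      ((ContinuousLinearMap.lsmul ℂ ℂ : ℂ →L[ℂ] ℂ →L[ℂ] ℂ).lpPairing μ 2 2).flip
        (indicatorConstLp 2 hs hμs.ne (1 : ℂ))
    have h1 : (B (Lp.simpleFunc.indicatorConst 2 hs hμs.ne c : Lp.simpleFunc H 2 μ) :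
        Lp ℂ 2 μ → H) = (ContinuousLinearMap.toSpanSingleton ℂ c) ∘ L := by
      funext f
      simp only [hB, L, Function.comp, ContinuousLinearMap.flip_apply,
        ContinuousLinearMap.lpPairing_eq_integral, ContinuousLinearMap.lsmul_apply,
        ContinuousLinearMap.toSpanSingleton_apply]
      rw [← integral_smul_const]
      apply integral_congr_ae
      have e1 := indicatorConstLp_coeFn (p := 2) (hs := hs) (hμs := hμs.ne) (c := c)
      have e2 := indicatorConstLp_coeFn (p := 2) (hs := hs) (hμs := hμs.ne) (c := (1 : ℂ))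
      rw [Lp.simpleFunc.coe_indicatorConst]
      filter_upwards [e1, e2] with x hx1 hx2
      rw [hx1, hx2]
      by_cases hxs : x ∈ s
      · simp [hxs]
      · simp [hxs]
    rw [h1]
    exact (isCompactOperator_of_locallyCompactSpace_dom L).clm_comp _
  | add hf hg _ h1 h2 =>
    rw [map_add]
    exact h1.add h2
  | isClosed =>
    exact isClosed_setOfPred_isCompactOperator.preimage B.continuous

theorem exists_op {μ : Measure ℂ} [IsFiniteMeasure μ] {K : ℂ → ℂ} (hK : Nice K) :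
    ∃ T : Lp ℂ 2 μ →L[ℂ] Lp ℂ 2 μ, IsCompactOperator T ∧ ∀ f g : Lp ℂ 2 μ,
      inner ℂ g (T f) = ∫ ζ, (f : ℂ → ℂ) ζ * ∫ z, K (z - ζ) * conj ((g : ℂ → ℂ) z) ∂μ ∂μ := by
  obtain ⟨M, hM0, hM⟩ := hK.bdd
  obtain ⟨C, hC0, hC⟩ := hK.lip
  let F : ℂ → BoundedContinuousFunction ℂ ℂ := fun ζ =>
    BoundedContinuousFunction.ofNormedAddCommGroup (fun z => K (z - ζ))
      (hK.continuous.comp (by fun_prop)) M (fun z => hM _)
  have hF : Continuous F := by
    refine (LipschitzWith.of_dist_le_mul (K := ⟨C, hC0⟩) fun x y => ?_).continuous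
    rw [BoundedContinuousFunction.dist_le (by positivity)]
    intro z
    rw [dist_eq_norm, dist_eq_norm]
    refine (hC _ _).trans (le_of_eq ?_)
    show C * _ = C * _
    congr 1
    rw [show z - x - (z - y) = -(x - y) by ring, norm_neg]
  let κ₀ : ℂ → Lp ℂ 2 μ := fun ζ => BoundedContinuousFunction.toLp 2 μ ℂ (F ζ)
  have hκc : Continuous κ₀ := (ContinuousLinearMap.continuous _).comp hF
  have hκb : ∀ ζ, ‖κ₀ ζ‖ ≤ ‖(BoundedContinuousFunction.toLp 2 μ ℂ :
      BoundedContinuousFunction ℂ ℂ →L[ℂ] Lp ℂ 2 μ)‖ * M := fun ζ =>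
    (ContinuousLinearMap.le_opNorm _ _).trans (mul_le_mul_of_nonneg_left
      (BoundedContinuousFunction.norm_ofNormedAddCommGroup_le _ hM0 _) (norm_nonneg _))
  have hκm : MemLp κ₀ 2 μ := MemLp.of_bound hκc.aestronglyMeasurable _ (Eventually.of_forall hκb)
  refine ⟨((ContinuousLinearMap.lsmul ℂ ℂ : ℂ →L[ℂ] Lp ℂ 2 μ →L[ℂ] Lp ℂ 2 μ).lpPairing
    μ 2 2).flip (hκm.toLp κ₀), compact_pairing _, fun f g => ?_⟩
  have hint : Integrable (fun ζ => (f : ℂ → ℂ) ζ • κ₀ ζ) μ := by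
    have := MemLp.smul (r := 1) hκm (Lp.memLp f)
    exact memLp_one_iff_integrable.1 this
  have e1 : (((ContinuousLinearMap.lsmul ℂ ℂ : ℂ →L[ℂ] Lp ℂ 2 μ →L[ℂ] Lp ℂ 2 μ).lpPairing
      μ 2 2).flip (hκm.toLp κ₀)) f = ∫ ζ, (f : ℂ → ℂ) ζ • κ₀ ζ ∂μ := by
    rw [ContinuousLinearMap.flip_apply, ContinuousLinearMap.lpPairing_eq_integral]
    apply integral_congr_ae
    filter_upwards [hκm.coeFn_toLp] with ζ hζ
    rw [hζ, ContinuousLinearMap.lsmul_apply]
  rw [e1, ← integral_inner hint]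
  apply integral_congr_ae
  refine Eventually.of_forall fun ζ => ?_
  simp only
  rw [inner_smul_right, MeasureTheory.L2.inner_def]
  congr 1
  apply integral_congr_ae
  filter_upwards [BoundedContinuousFunction.coeFn_toLp 2 μ ℂ (F ζ)] with z hz
  show inner ℂ ((g : ℂ → ℂ) z) ((BoundedContinuousFunction.toLp 2 μ ℂ (F ζ) : Lp ℂ 2 μ) z) = _
  rw [hz]
  rw [RCLike.inner_apply]
  rfl

/-- the bilinear pairing property -/
def Rep (μ : Measure ℂ) (K : ℂ → ℂ) (T : Lp ℂ 2 μ →L[ℂ] Lp ℂ 2 μ) : Prop :=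
  ∀ f g : Lp ℂ 2 μ,
      inner ℂ g (T f) = ∫ ζ, (f : ℂ → ℂ) ζ * ∫ z, K (z - ζ) * conj ((g : ℂ → ℂ) z) ∂μ ∂μ

theorem int_f {μ : Measure ℂ} [IsFiniteMeasure μ] (f : Lp ℂ 2 μ) :
    Integrable (f : ℂ → ℂ) μ := (Lp.memLp f).integrable one_le_two

theorem int_sq {μ : Measure ℂ} (f : Lp ℂ 2 μ) :
    Integrable (fun z => ‖(f : ℂ → ℂ) z‖ ^ 2) μ :=
  (memLp_two_iff_integrable_sq_norm (Lp.memLp f).1).1 (Lp.memLp f)

theorem int_inner {μ : Measure ℂ} [IsFiniteMeasure μ] {K : ℂ → ℂ} (hK : Nice K) (g : Lp ℂ 2 μ)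
    (ζ : ℂ) : Integrable (fun z => K (z - ζ) * conj ((g : ℂ → ℂ) z)) μ := by
  obtain ⟨M, hM0, hM⟩ := hK.bdd
  have h1 : Integrable (fun z => conj ((g : ℂ → ℂ) z)) μ :=
    (int_f g).norm.mono' (Complex.continuous_conj.comp_aestronglyMeasurable (int_f g).1)
      (Eventually.of_forall fun z => by simp)
  exact h1.bdd_mul (c := M) (hK.continuous.comp (by fun_prop)).aestronglyMeasurable
    (Eventually.of_forall fun z => hM _)

theorem int_prod {μ : Measure ℂ} [IsFiniteMeasure μ] {K : ℂ → ℂ} (hK : Nice K) (f g : Lp ℂ 2 μ) :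
    Integrable (fun p : ℂ × ℂ => (f : ℂ → ℂ) p.1 * (K (p.2 - p.1) * conj ((g : ℂ → ℂ) p.2)))
      (μ.prod μ) := by
  obtain ⟨M, hM0, hM⟩ := hK.bdd
  have h1 : Integrable (fun z => conj ((g : ℂ → ℂ) z)) μ :=
    (int_f g).norm.mono' (Complex.continuous_conj.comp_aestronglyMeasurable (int_f g).1)
      (Eventually.of_forall fun z => by simp)
  have h2 : Integrable (fun p : ℂ × ℂ => (f : ℂ → ℂ) p.1 * conj ((g : ℂ → ℂ) p.2)) (μ.prod μ) :=
    (int_f f).mul_prod h1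
  have h3 := h2.bdd_mul (c := M) (f := fun p : ℂ × ℂ => K (p.2 - p.1))
    (hK.continuous.comp (by fun_prop)).aestronglyMeasurable
    (Eventually.of_forall fun z => hM _)
  refine h3.congr (Eventually.of_forall fun p => ?_)
  simp only
  ring

theorem int_outer {μ : Measure ℂ} [IsFiniteMeasure μ] {K : ℂ → ℂ} (hK : Nice K) (f g : Lp ℂ 2 μ) :
    Integrable (fun ζ => (f : ℂ → ℂ) ζ * ∫ z, K (z - ζ) * conj ((g : ℂ → ℂ) z) ∂μ) μ := by
  have := (int_prod hK f g).integral_prod_left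
  refine this.congr (Eventually.of_forall fun ζ => ?_)
  simp only
  rw [integral_const_mul]

theorem Rep.sub {μ : Measure ℂ} [IsFiniteMeasure μ] {K L : ℂ → ℂ} (hK : Nice K) (hL : Nice L)
    {S T : Lp ℂ 2 μ →L[ℂ] Lp ℂ 2 μ} (hS : Rep μ K S) (hT : Rep μ L T) :
    Rep μ (fun w => K w - L w) (S - T) := by
  intro f g
  rw [sub_apply, inner_sub_right, hS f g, hT f g,
    ← integral_sub (int_outer hK f g) (int_outer hL f g)]
  apply integral_congr_ae
  refine Eventually.of_forall fun ζ => ?_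
  simp only
  rw [← mul_sub, ← integral_sub (int_inner hK g ζ) (int_inner hL g ζ)]
  congr 1
  apply integral_congr_ae
  refine Eventually.of_forall fun z => ?_
  simp only
  ring

theorem norm_sq_eq {μ : Measure ℂ} (f : Lp ℂ 2 μ) : ‖f‖ ^ 2 = ∫ z, ‖(f : ℂ → ℂ) z‖ ^ 2 ∂μ := by
  have h1 := inner_self_eq_norm_sq_to_K (𝕜 := ℂ) f
  rw [MeasureTheory.L2.inner_def] at h1
  have h2 : ∫ z, inner ℂ ((f : ℂ → ℂ) z) ((f : ℂ → ℂ) z) ∂μ =
      ((∫ z, ‖(f : ℂ → ℂ) z‖ ^ 2 ∂μ : ℝ) : ℂ) := by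
    rw [← integral_complex_ofReal]
    apply integral_congr_ae
    refine Eventually.of_forall fun z => ?_
    simp only
    rw [inner_self_eq_norm_sq_to_K]
    simp
  rw [h2] at h1
  have h3 : ((∫ z, ‖(f : ℂ → ℂ) z‖ ^ 2 ∂μ : ℝ) : ℂ) = ((‖f‖ ^ 2 : ℝ) : ℂ) := by
    rw [h1]; simp
  exact (Complex.ofReal_injective h3).symm

/-- Young's inequality -/
theorem young {V : Set ℂ} {ρ : ℝ} (hV : V ⊆ ball 0 ρ) (hVm : MeasurableSet V)
    {μ : Measure ℂ} [IsFiniteMeasure μ] (hμ : μ = volume.restrict V)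
    {K : ℂ → ℂ} (hK : Nice K) {T : Lp ℂ 2 μ →L[ℂ] Lp ℂ 2 μ}
    (hT : Rep μ K T) : ‖T‖ ≤ ∫ w in ball (0 : ℂ) (2 * ρ), ‖K w‖ := by
  set I := ∫ w in ball (0 : ℂ) (2 * ρ), ‖K w‖ with hI
  have hI0 : 0 ≤ I := integral_nonneg fun _ => norm_nonneg _
  obtain ⟨M, hM0, hM⟩ := hK.bdd
  have hKint : ∀ s : Set ℂ, volume s ≠ ⊤ → IntegrableOn (fun w => ‖K w‖) s := fun s hs =>
    Measure.integrableOn_of_bounded (M := M) hs hK.continuous.norm.aestronglyMeasurable
      (Eventually.of_forall fun w => by simpa using hM w)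
  have hball : volume (ball (0 : ℂ) (2 * ρ)) ≠ ⊤ := measure_ball_lt_top.ne
  -- inner integrals
  have hV1 : ∀ ζ ∈ V, ∫ z, ‖K (z - ζ)‖ ∂μ ≤ I := by
    intro ζ hζ
    have e1 : ∫ z, ‖K (z - ζ)‖ ∂μ = ∫ z, V.indicator (fun z => ‖K (z - ζ)‖) z := by
      rw [hμ, integral_indicator hVm]
    have e2 : I = ∫ z, (ball (0 : ℂ) (2 * ρ)).indicator (fun z => ‖K z‖) (z - ζ) := by
      rw [integral_sub_right_eq_self (fun z => (ball (0 : ℂ) (2 * ρ)).indicator
        (fun z => ‖K z‖) z) ζ, integral_indicator measurableSet_ball]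
    rw [e1, e2]
    apply integral_mono_of_nonneg
    · exact Eventually.of_forall fun z => indicator_nonneg (fun _ _ => norm_nonneg _) _
    · have : Integrable ((ball (0 : ℂ) (2 * ρ)).indicator (fun z => ‖K z‖)) :=
        (hKint _ hball).integrable_indicator measurableSet_ball
      exact this.comp_sub_right ζ
    · refine Eventually.of_forall fun z => ?_
      simp only
      by_cases hz : z ∈ V
      · rw [indicator_of_mem hz, indicator_of_mem]
        rw [mem_ball_zero_iff]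
        have h1 := mem_ball_zero_iff.1 (hV hz)
        have h2 := mem_ball_zero_iff.1 (hV hζ)
        exact (norm_sub_le _ _).trans_lt (by linarith)
      · rw [indicator_of_notMem hz]
        exact indicator_nonneg (fun _ _ => norm_nonneg _) _
  have hV2 : ∀ z ∈ V, ∫ ζ, ‖K (z - ζ)‖ ∂μ ≤ I := by
    intro z hz
    have e1 : ∫ ζ, ‖K (z - ζ)‖ ∂μ = ∫ ζ, V.indicator (fun ζ => ‖K (z - ζ)‖) ζ := by
      rw [hμ, integral_indicator hVm]
    have e2 : I = ∫ ζ, (ball (0 : ℂ) (2 * ρ)).indicator (fun z => ‖K z‖) (z - ζ) := by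
      rw [integral_sub_left_eq_self (fun z => (ball (0 : ℂ) (2 * ρ)).indicator
        (fun z => ‖K z‖) z) volume z, integral_indicator measurableSet_ball]
    rw [e1, e2]
    apply integral_mono_of_nonneg
    · exact Eventually.of_forall fun z => indicator_nonneg (fun _ _ => norm_nonneg _) _
    · have : Integrable ((ball (0 : ℂ) (2 * ρ)).indicator (fun z => ‖K z‖)) :=
        (hKint _ hball).integrable_indicator measurableSet_ball
      exact this.comp_sub_left z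
    · refine Eventually.of_forall fun ζ => ?_
      simp only
      by_cases hζ : ζ ∈ V
      · rw [indicator_of_mem hζ, indicator_of_mem]
        rw [mem_ball_zero_iff]
        have h1 := mem_ball_zero_iff.1 (hV hz)
        have h2 := mem_ball_zero_iff.1 (hV hζ)
        exact (norm_sub_le _ _).trans_lt (by linarith)
      · rw [indicator_of_notMem hζ]
        exact indicator_nonneg (fun _ _ => norm_nonneg _) _
  have hmem : ∀ᵐ z ∂μ, z ∈ V := by rw [hμ]; exact ae_restrict_mem hVm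
  -- the AM-GM bound
  have key : ∀ f g : Lp ℂ 2 μ, ∀ t > 0,
      ‖(inner ℂ g (T f) : ℂ)‖ ≤ 2⁻¹ * I * (t * ‖f‖ ^ 2 + t⁻¹ * ‖g‖ ^ 2) := by
    intro f g t ht
    rw [hT f g]
    have hP1 : Integrable (fun p : ℂ × ℂ => ‖K (p.2 - p.1)‖ * ‖(f : ℂ → ℂ) p.1‖ ^ 2)
        (μ.prod μ) := by
      have h2 : Integrable (fun p : ℂ × ℂ => ‖(f : ℂ → ℂ) p.1‖ ^ 2 * (1 : ℝ)) (μ.prod μ) :=
        (int_sq f).mul_prod (integrable_const (1 : ℝ))
      have h3 := h2.bdd_mul (c := M) (f := fun p : ℂ × ℂ => ‖K (p.2 - p.1)‖)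
        (hK.continuous.norm.comp (by fun_prop)).aestronglyMeasurable
        (Eventually.of_forall fun z => by simpa using hM _)
      refine h3.congr (Eventually.of_forall fun p => ?_)
      simp
    have hP2 : Integrable (fun p : ℂ × ℂ => ‖K (p.2 - p.1)‖ * ‖(g : ℂ → ℂ) p.2‖ ^ 2)
        (μ.prod μ) := by
      have h2 : Integrable (fun p : ℂ × ℂ => (1 : ℝ) * ‖(g : ℂ → ℂ) p.2‖ ^ 2) (μ.prod μ) :=
        (integrable_const (1 : ℝ)).mul_prod (int_sq g)
      have h3 := h2.bdd_mul (c := M) (f := fun p : ℂ × ℂ => ‖K (p.2 - p.1)‖)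
        (hK.continuous.norm.comp (by fun_prop)).aestronglyMeasurable
        (Eventually.of_forall fun z => by simpa using hM _)
      refine h3.congr (Eventually.of_forall fun p => ?_)
      simp
    -- rewrite as a product integral
    have e1 : ∫ ζ, (f : ℂ → ℂ) ζ * ∫ z, K (z - ζ) * conj ((g : ℂ → ℂ) z) ∂μ ∂μ =
        ∫ p, (f : ℂ → ℂ) p.1 * (K (p.2 - p.1) * conj ((g : ℂ → ℂ) p.2)) ∂(μ.prod μ) := by
      rw [integral_prod _ (int_prod hK f g)]
      apply integral_congr_ae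
      refine Eventually.of_forall fun ζ => ?_
      simp only
      rw [integral_const_mul]
    rw [e1]
    refine (norm_integral_le_integral_norm _).trans ?_
    have e2 : ∫ p, ‖(f : ℂ → ℂ) p.1 * (K (p.2 - p.1) * conj ((g : ℂ → ℂ) p.2))‖ ∂(μ.prod μ) ≤
        ∫ p, (2⁻¹ * t * (‖K (p.2 - p.1)‖ * ‖(f : ℂ → ℂ) p.1‖ ^ 2) +
          2⁻¹ * t⁻¹ * (‖K (p.2 - p.1)‖ * ‖(g : ℂ → ℂ) p.2‖ ^ 2)) ∂(μ.prod μ) := by
      apply integral_mono (int_prod hK f g).norm
        ((hP1.const_mul (2⁻¹ * t)).add (hP2.const_mul (2⁻¹ * t⁻¹)))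
      intro p
      simp only [norm_mul, RCLike.norm_conj]
      have h1 : ‖(f : ℂ → ℂ) p.1‖ * ‖(g : ℂ → ℂ) p.2‖ ≤
          2⁻¹ * t * ‖(f : ℂ → ℂ) p.1‖ ^ 2 + 2⁻¹ * t⁻¹ * ‖(g : ℂ → ℂ) p.2‖ ^ 2 := by
        have h2 := sq_nonneg (t * ‖(f : ℂ → ℂ) p.1‖ - ‖(g : ℂ → ℂ) p.2‖)
        have h3 : 2⁻¹ * t * ‖(f : ℂ → ℂ) p.1‖ ^ 2 + 2⁻¹ * t⁻¹ * ‖(g : ℂ → ℂ) p.2‖ ^ 2 -
            ‖(f : ℂ → ℂ) p.1‖ * ‖(g : ℂ → ℂ) p.2‖ =
            2⁻¹ * t⁻¹ * (t * ‖(f : ℂ → ℂ) p.1‖ - ‖(g : ℂ → ℂ) p.2‖) ^ 2 := by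
          field_simp
          ring
        have h4 : 0 ≤ 2⁻¹ * t⁻¹ * (t * ‖(f : ℂ → ℂ) p.1‖ - ‖(g : ℂ → ℂ) p.2‖) ^ 2 := by
          positivity
        linarith
      calc ‖(f : ℂ → ℂ) p.1‖ * (‖K (p.2 - p.1)‖ * ‖(g : ℂ → ℂ) p.2‖)
          = ‖K (p.2 - p.1)‖ * (‖(f : ℂ → ℂ) p.1‖ * ‖(g : ℂ → ℂ) p.2‖) := by ring
        _ ≤ ‖K (p.2 - p.1)‖ * (2⁻¹ * t * ‖(f : ℂ → ℂ) p.1‖ ^ 2 +
            2⁻¹ * t⁻¹ * ‖(g : ℂ → ℂ) p.2‖ ^ 2) :=
            mul_le_mul_of_nonneg_left h1 (norm_nonneg _)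
        _ = _ := by simp only [Pi.add_apply]; ring
    refine e2.trans ?_
    rw [integral_add (hP1.const_mul _) (hP2.const_mul _), integral_const_mul, integral_const_mul]
    have b1 : ∫ p, ‖K (p.2 - p.1)‖ * ‖(f : ℂ → ℂ) p.1‖ ^ 2 ∂(μ.prod μ) ≤ I * ‖f‖ ^ 2 := by
      rw [integral_prod _ hP1, norm_sq_eq f, ← integral_const_mul]
      apply integral_mono_of_nonneg
      · exact Eventually.of_forall fun ζ => integral_nonneg fun z => by positivity
      · exact (int_sq f).const_mul _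
      · filter_upwards [hmem] with ζ hζ
        rw [integral_mul_const]
        exact mul_le_mul_of_nonneg_right (hV1 ζ hζ) (by positivity)
    have b2 : ∫ p, ‖K (p.2 - p.1)‖ * ‖(g : ℂ → ℂ) p.2‖ ^ 2 ∂(μ.prod μ) ≤ I * ‖g‖ ^ 2 := by
      rw [integral_prod_symm _ hP2, norm_sq_eq g, ← integral_const_mul]
      apply integral_mono_of_nonneg
      · exact Eventually.of_forall fun ζ => integral_nonneg fun z => by positivity
      · exact (int_sq g).const_mul _
      · filter_upwards [hmem] with z hz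
        rw [integral_mul_const]
        exact mul_le_mul_of_nonneg_right (hV2 z hz) (by positivity)
    have c1 := mul_le_mul_of_nonneg_left b1 (by positivity : (0 : ℝ) ≤ 2⁻¹ * t)
    have c2 := mul_le_mul_of_nonneg_left b2 (by positivity : (0 : ℝ) ≤ 2⁻¹ * t⁻¹)
    calc _ ≤ _ := add_le_add c1 c2
      _ = _ := by ring
  refine ContinuousLinearMap.opNorm_le_bound _ hI0 fun f => ?_
  by_cases hf : ‖f‖ = 0
  · have : f = 0 := norm_eq_zero.1 hf
    simp [this]
  by_cases hTf : ‖T f‖ = 0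
  · rw [hTf]; positivity
  have hf' : 0 < ‖f‖ := lt_of_le_of_ne (norm_nonneg _) (Ne.symm hf)
  have hTf' : 0 < ‖T f‖ := lt_of_le_of_ne (norm_nonneg _) (Ne.symm hTf)
  have h1 := key f (T f) (‖T f‖ / ‖f‖) (by positivity)
  rw [inner_self_eq_norm_sq_to_K, norm_pow, RCLike.norm_ofReal, abs_norm] at h1
  have h3 : ‖T f‖ ^ 2 ≤ 2⁻¹ * I * (‖T f‖ / ‖f‖ * ‖f‖ ^ 2 + (‖T f‖ / ‖f‖)⁻¹ * ‖T f‖ ^ 2) := h1
  have h4 : 2⁻¹ * I * (‖T f‖ / ‖f‖ * ‖f‖ ^ 2 + (‖T f‖ / ‖f‖)⁻¹ * ‖T f‖ ^ 2) =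
      I * ‖f‖ * ‖T f‖ := by
    field_simp
    ring
  rw [h4] at h3
  have h5 : ‖T f‖ * ‖T f‖ ≤ I * ‖f‖ * ‖T f‖ := by nlinarith
  exact le_of_mul_le_mul_right h5 hTf'

/-- regularised Cauchy kernel -/
noncomputable def ker (ε : ℝ) (w : ℂ) : ℂ := conj w * (((‖w‖ ^ 2 + ε ^ 2)⁻¹ : ℝ) : ℂ)

/-- regularised delta function -/
noncomputable def pk (ε : ℝ) (w : ℂ) : ℝ := ε ^ 2 * ((‖w‖ ^ 2 + ε ^ 2)⁻¹) ^ 2

theorem ker_norm_le (ε : ℝ) (w : ℂ) : ‖ker ε w‖ ≤ ‖w‖⁻¹ := by
  rw [ker, norm_mul, RCLike.norm_conj, Complex.norm_real, Real.norm_eq_abs,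
    abs_of_nonneg (by positivity)]
  by_cases hw : ‖w‖ = 0
  · rw [hw]; simp
  have hw' : 0 < ‖w‖ := lt_of_le_of_ne (norm_nonneg _) (Ne.symm hw)
  rw [← div_eq_mul_inv, div_le_iff₀ (by positivity)]
  have : ‖w‖⁻¹ * (‖w‖ ^ 2 + ε ^ 2) = ‖w‖ + ‖w‖⁻¹ * ε ^ 2 := by field_simp
  rw [this]
  have : 0 ≤ ‖w‖⁻¹ * ε ^ 2 := by positivity
  linarith

theorem ker_nice {ε : ℝ} (hε : 0 < ε) : Nice (ker ε) := by
  constructor
  · refine ⟨ε⁻¹, by positivity, fun w => ?_⟩
    rw [ker, norm_mul, RCLike.norm_conj, Complex.norm_real, Real.norm_eq_abs,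
      abs_of_nonneg (by positivity), ← div_eq_mul_inv, div_le_iff₀ (by positivity)]
    have h1 : ε⁻¹ * (‖w‖ ^ 2 + ε ^ 2) - ‖w‖ = ε⁻¹ * ((‖w‖ - ε / 2) ^ 2 + 3 / 4 * ε ^ 2) := by
      field_simp; ring
    have h2 : 0 ≤ ε⁻¹ * ((‖w‖ - ε / 2) ^ 2 + 3 / 4 * ε ^ 2) := by positivity
    linarith
  · refine ⟨3 / ε ^ 2, by positivity, fun w w' => ?_⟩
    set a := ‖w‖ ^ 2 + ε ^ 2 with ha
    set b := ‖w'‖ ^ 2 + ε ^ 2 with hb
    have ha0 : ε ^ 2 ≤ a := by rw [ha]; nlinarith [sq_nonneg ‖w‖]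
    have hb0 : ε ^ 2 ≤ b := by rw [hb]; nlinarith [sq_nonneg ‖w'‖]
    have hε2 : 0 < ε ^ 2 := by positivity
    have hap : 0 < a := by linarith
    have hbp : 0 < b := by linarith
    have e1 : ker ε w - ker ε w' =
        (conj (w - w') * (b : ℂ) + conj w' * ((b - a : ℝ) : ℂ)) * (((a * b)⁻¹ : ℝ) : ℂ) := by
      have ha' : (a : ℂ) ≠ 0 := by exact_mod_cast hap.ne'
      have hb' : (b : ℂ) ≠ 0 := by exact_mod_cast hbp.ne'
      rw [ker, ker, ← ha, ← hb]
      push_cast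
      rw [map_sub]
      field_simp
      ring
    rw [e1, norm_mul, Complex.norm_real, Real.norm_eq_abs, abs_of_nonneg (by positivity),
      ← div_eq_mul_inv, div_le_iff₀ (by positivity)]
    have h1 : ‖conj (w - w') * (b : ℂ) + conj w' * ((b - a : ℝ) : ℂ)‖ ≤
        ‖w - w'‖ * b + ‖w'‖ * |b - a| := by
      refine (norm_add_le _ _).trans (le_of_eq ?_)
      rw [norm_mul, norm_mul, RCLike.norm_conj, RCLike.norm_conj, Complex.norm_real,
        Complex.norm_real, Real.norm_eq_abs, Real.norm_eq_abs, abs_of_pos hbp]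
    have h2 : |b - a| ≤ ‖w - w'‖ * (‖w‖ + ‖w'‖) := by
      have : b - a = (‖w'‖ - ‖w‖) * (‖w‖ + ‖w'‖) := by rw [ha, hb]; ring
      rw [this, abs_mul, abs_of_nonneg (by positivity : (0:ℝ) ≤ ‖w‖ + ‖w'‖)]
      refine mul_le_mul_of_nonneg_right ?_ (by positivity)
      have := abs_norm_sub_norm_le w' w
      rwa [norm_sub_rev] at this
    have h3 : ‖w'‖ * |b - a| ≤ ‖w'‖ * (‖w - w'‖ * (‖w‖ + ‖w'‖)) :=
      mul_le_mul_of_nonneg_left h2 (norm_nonneg _)
    refine h1.trans ((add_le_add_right h3 _).trans ?_)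
    have h4 : b + ‖w'‖ ^ 2 + ‖w'‖ * ‖w‖ ≤ 3 / ε ^ 2 * (a * b) := by
      rw [div_mul_eq_mul_div, le_div_iff₀ hε2]
      have k1 : b * ε ^ 2 ≤ a * b := by nlinarith
      have k2 : a * ε ^ 2 ≤ a * b := by nlinarith
      have k3 : ‖w'‖ ^ 2 ≤ b := by rw [hb]; nlinarith
      have k4 : ‖w‖ ^ 2 ≤ a := by rw [ha]; nlinarith
      have k5 : ‖w'‖ * ‖w‖ ≤ (a + b) / 2 := by nlinarith [sq_nonneg (‖w'‖ - ‖w‖)]
      nlinarith
    have h5 := mul_le_mul_of_nonneg_left h4 (norm_nonneg (w - w'))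
    calc _ = ‖w - w'‖ * (b + ‖w'‖ ^ 2 + ‖w'‖ * ‖w‖) := by ring
      _ ≤ _ := h5
      _ = _ := by ring

theorem ker_contDiff {ε : ℝ} (hε : 0 < ε) : ContDiff ℝ (⊤ : ℕ∞) (ker ε) := by
  have h1 : ContDiff ℝ (⊤ : ℕ∞) (fun w : ℂ => conj w) := Complex.conjCLE.contDiff
  have h2 : ContDiff ℝ (⊤ : ℕ∞) (fun w : ℂ => (((‖w‖ ^ 2 + ε ^ 2)⁻¹ : ℝ) : ℂ)) := by
    refine Complex.ofRealCLM.contDiff.comp ?_
    refine ContDiff.inv ((contDiff_norm_sq ℝ).add contDiff_const) fun w => ?_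
    positivity
  exact h1.mul h2

theorem dzb_normSq (w : ℂ) : dzb (fun z : ℂ => ((‖z‖ ^ 2 : ℝ) : ℂ)) w = w := by
  have e : (fun z : ℂ => ((‖z‖ ^ 2 : ℝ) : ℂ)) = fun z => z • conj z := by
    funext z
    rw [smul_eq_mul, Complex.mul_conj, Complex.normSq_eq_norm_sq]
  rw [e, (dz_smul (f := fun z => z) (F := fun z => conj z) differentiableAt_id
    (Complex.conjCLE.differentiable w)).2,
    (dz_hol (F := fun z : ℂ => z) differentiableAt_id).2,
    (dz_conj_hol (f := fun z : ℂ => z) differentiableAt_id).2]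
  simp

theorem dzb_ker {ε : ℝ} (hε : 0 < ε) (w : ℂ) : dzb (ker ε) w = (pk ε w : ℂ) := by
  have hd : DifferentiableAt ℝ (fun z : ℂ => ‖z‖ ^ 2) w :=
    ((contDiff_norm_sq ℝ (n := 1)).differentiable (by norm_num)) w
  have hp : (‖w‖ ^ 2 + ε ^ 2) ≠ 0 := by positivity
  have hG : HasDerivAt (fun x : ℝ => (x + ε ^ 2)⁻¹) (-1 / (‖w‖ ^ 2 + ε ^ 2) ^ 2) (‖w‖ ^ 2) := by
    exact ((hasDerivAt_id (‖w‖ ^ 2)).add_const (ε ^ 2)).inv hp
  have h1 := (dz_comp_real (ρ := fun z : ℂ => ‖z‖ ^ 2) hd hG).2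
  rw [dzb_normSq] at h1
  have e : ker ε = fun z : ℂ => conj z • (((‖z‖ ^ 2 + ε ^ 2)⁻¹ : ℝ) : ℂ) := by
    funext z; rw [ker, smul_eq_mul]
  have hd2 : DifferentiableAt ℝ (fun z : ℂ => (((‖z‖ ^ 2 + ε ^ 2)⁻¹ : ℝ) : ℂ)) w := by
    have : DifferentiableAt ℝ (fun z : ℂ => (‖z‖ ^ 2 + ε ^ 2)⁻¹) w := by
      have h2 := hG.comp_hasFDerivAt w hd.hasFDerivAt
      exact h2.differentiableAt
    exact Complex.ofRealCLM.differentiableAt.comp w this
  rw [e, (dz_smul (f := fun z => conj z) (F := fun z : ℂ => (((‖z‖ ^ 2 + ε ^ 2)⁻¹ : ℝ) : ℂ))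
    (Complex.conjCLE.differentiable w) hd2).2, h1,
    (dz_conj_hol (f := fun z : ℂ => z) differentiableAt_id).2]
  have hpc : ((‖w‖ : ℂ) ^ 2 + (ε : ℂ) ^ 2) ≠ 0 := by exact_mod_cast hp
  have hww : conj w * w = (‖w‖ : ℂ) ^ 2 := by
    rw [mul_comm, Complex.mul_conj, Complex.normSq_eq_norm_sq]; push_cast; rfl
  simp only [smul_eq_mul, pk, deriv_id'', map_one, one_mul]
  push_cast
  field_simp
  linear_combination -hww

theorem pk_nonneg (ε : ℝ) (w : ℂ) : 0 ≤ pk ε w := by unfold pk; positivity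

theorem pk_integrable : Integrable (pk 1) := by
  have h1 : Integrable (fun w : ℂ => ((1 : ℝ) + ‖w‖ ^ 2) ^ (-(4 : ℝ) / 2)) := by
    apply integrable_rpow_neg_one_add_norm_sq
    rw [Complex.finrank_real_complex]; norm_num
  refine h1.congr (Eventually.of_forall fun w => ?_)
  simp only [pk]
  rw [show (-(4 : ℝ) / 2) = -(2 : ℕ) by norm_num, Real.rpow_neg (by positivity),
    Real.rpow_natCast, inv_pow, add_comm]
  ring

theorem pk_pos : 0 < ∫ w, pk 1 w := by
  rw [integral_pos_iff_support_of_nonneg (pk_nonneg 1) pk_integrable]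
  have : Function.support (pk 1) = univ := by
    rw [eq_univ_iff_forall]
    intro w
    rw [Function.mem_support]
    have : 0 < pk 1 w := by unfold pk; positivity
    exact this.ne'
  rw [this]
  simp

/-- approximate identity -/
theorem pk_tendsto {φ : ℂ → ℂ} (hφ : Continuous φ) {M : ℝ} (hM : ∀ z, ‖φ z‖ ≤ M) (ζ : ℂ) :
    Tendsto (fun ε : ℝ => ∫ w, (pk ε w : ℂ) * φ (ζ + w)) (𝓝[>] 0)
      (𝓝 ((∫ w, (pk 1 w : ℂ)) * φ ζ)) ∧
    ∀ ε : ℝ, 0 < ε → ‖∫ w, (pk ε w : ℂ) * φ (ζ + w)‖ ≤ (∫ w, pk 1 w) * M := by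
  have e1 : ∀ ε : ℝ, 0 < ε →
      ∫ w, (pk ε w : ℂ) * φ (ζ + w) = ∫ u, (pk 1 u : ℂ) * φ (ζ + ε • u) := by
    intro ε hε
    have h1 := Measure.integral_comp_smul (volume : Measure ℂ)
      (fun w => (pk ε w : ℂ) * φ (ζ + w)) ε
    rw [Complex.finrank_real_complex] at h1
    have h2 : ∀ u : ℂ, (pk ε (ε • u) : ℂ) * φ (ζ + ε • u) =
        ((ε ^ 2)⁻¹ : ℝ) • ((pk 1 u : ℂ) * φ (ζ + ε • u)) := by
      intro u
      have : pk ε (ε • u) = (ε ^ 2)⁻¹ * pk 1 u := by
        have hp : (‖u‖ ^ 2 + 1) ≠ 0 := by positivity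
        unfold pk
        rw [norm_smul, Real.norm_eq_abs, mul_pow, sq_abs]
        have : ε ^ 2 * ‖u‖ ^ 2 + ε ^ 2 = ε ^ 2 * (‖u‖ ^ 2 + 1) := by ring
        rw [this, one_pow, one_mul]
        field_simp
      rw [this]
      simp only [Complex.real_smul]
      push_cast
      ring
    simp only [h2] at h1
    rw [integral_smul, abs_of_pos (by positivity)] at h1
    exact (smul_right_injective ℂ (by positivity : ((ε ^ 2)⁻¹ : ℝ) ≠ 0) h1).symm
  have hmeas : ∀ ε : ℝ, AEStronglyMeasurable (fun u : ℂ => (pk 1 u : ℂ) * φ (ζ + ε • u)) := by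
    intro ε
    refine (Complex.continuous_ofReal.comp_aestronglyMeasurable pk_integrable.1).mul ?_
    exact (hφ.comp (by fun_prop)).aestronglyMeasurable
  have hbd : ∀ ε : ℝ, ∀ u : ℂ, ‖(pk 1 u : ℂ) * φ (ζ + ε • u)‖ ≤ pk 1 u * M := by
    intro ε u
    rw [norm_mul, Complex.norm_real, Real.norm_eq_abs, abs_of_nonneg (pk_nonneg 1 u)]
    exact mul_le_mul_of_nonneg_left (hM _) (pk_nonneg 1 u)
  constructor
  · have h1 : Tendsto (fun ε : ℝ => ∫ u, (pk 1 u : ℂ) * φ (ζ + ε • u)) (𝓝[>] 0)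
        (𝓝 (∫ w, (pk 1 w : ℂ) * φ ζ)) := by
      apply tendsto_integral_filter_of_dominated_convergence (fun u => pk 1 u * M)
      · exact Eventually.of_forall hmeas
      · exact Eventually.of_forall fun ε => Eventually.of_forall (hbd ε)
      · exact pk_integrable.mul_const M
      · refine Eventually.of_forall fun u => ?_
        refine Tendsto.const_mul _ ?_
        have : Tendsto (fun ε : ℝ => φ (ζ + ε • u)) (𝓝 0) (𝓝 (φ (ζ + (0 : ℝ) • u))) :=
          (hφ.comp (by fun_prop : Continuous fun ε : ℝ => ζ + ε • u)).tendsto 0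
        rw [zero_smul, add_zero] at this
        exact this.mono_left nhdsWithin_le_nhds
    rw [integral_mul_const] at h1
    refine h1.congr' ?_
    filter_upwards [self_mem_nhdsWithin] with ε hε
    exact (e1 ε hε).symm
  · intro ε hε
    rw [e1 ε hε]
    refine (norm_integral_le_integral_norm _).trans ?_
    rw [← integral_mul_const]
    apply integral_mono_of_nonneg (Eventually.of_forall fun _ => norm_nonneg _)
      (pk_integrable.mul_const M) (Eventually.of_forall (hbd ε))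

theorem dzb_translate {F : ℂ → ℂ} (hF : Differentiable ℝ F) (ζ z : ℂ) :
    dzb (fun w => F (w - ζ)) z = dzb F (z - ζ) := by
  unfold dzb
  have : fderiv ℝ (fun w => F (w - ζ)) z = fderiv ℝ F (z - ζ) := by
    have h1 := (hF (z - ζ)).hasFDerivAt
    have h2 : HasFDerivAt (fun w : ℂ => w - ζ) (ContinuousLinearMap.id ℝ ℂ) z :=
      (hasFDerivAt_id z).sub_const ζ
    have h3 := h1.comp z h2
    rw [ContinuousLinearMap.comp_id] at h3
    exact h3.fderiv
  rw [this]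

/-- integration by parts with the regularised kernel -/
theorem ker_parts {ε : ℝ} (hε : 0 < ε) {φ : ℂ → ℂ} (hφ : ContDiff ℝ (⊤ : ℕ∞) φ)
    (hc : HasCompactSupport φ) (ζ : ℂ) :
    ∫ z, ker ε (z - ζ) * dzb φ z = -∫ w, (pk ε w : ℂ) * φ (ζ + w) := by
  have hk : ContDiff ℝ (⊤ : ℕ∞) (fun z => ker ε (z - ζ)) :=
    (ker_contDiff hε).comp (contDiff_id.sub contDiff_const)
  have hkd : Differentiable ℝ (ker ε) := (ker_contDiff hε).differentiable (by simp)
  have hG : ContDiff ℝ 1 (fun z => ker ε (z - ζ) • φ z) :=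
    (hk.of_le (by exact_mod_cast le_top)).smul (hφ.of_le (by exact_mod_cast le_top))
  have hGc : HasCompactSupport (fun z => ker ε (z - ζ) • φ z) := by
    refine hc.mono fun z hz h0 => hz ?_
    show ker ε (z - ζ) • φ z = 0
    rw [show φ z = 0 from h0, smul_zero]
  have h1 := (integral_dz_test hG hGc).2
  have hφd : Differentiable ℝ φ := hφ.differentiable (by simp)
  have h2 : ∀ z, dzb (fun z => ker ε (z - ζ) • φ z) z =
      (pk ε (z - ζ) : ℂ) * φ z + ker ε (z - ζ) * dzb φ z := by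
    intro z
    rw [(dz_smul (f := fun z => ker ε (z - ζ)) (F := φ)
      ((hk.differentiable (by simp)) z) (hφd z)).2, dzb_translate hkd, dzb_ker hε]
    simp only [smul_eq_mul]
  simp only [h2] at h1
  have hpk : Continuous (pk ε) := by
    unfold pk
    refine continuous_const.mul (Continuous.pow (Continuous.inv₀ (by fun_prop) fun w => ?_) 2)
    positivity
  have i1 : Integrable (fun z => (pk ε (z - ζ) : ℂ) * φ z) := by
    refine Continuous.integrable_of_hasCompactSupport ?_ (hc.mono fun z hz h0 => hz ?_)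
    · exact (Complex.continuous_ofReal.comp (hpk.comp (by fun_prop))).mul hφ.continuous
    · show (pk ε (z - ζ) : ℂ) * φ z = 0
      rw [show φ z = 0 from h0, mul_zero]
  have htest : IsTest univ φ := ⟨hφ, hc, subset_univ _⟩
  have i2 : Integrable (fun z => ker ε (z - ζ) * dzb φ z) := by
    refine Continuous.integrable_of_hasCompactSupport ?_
      (htest.dzb.compact.mono fun z hz h0 => hz ?_)
    · exact (hk.continuous).mul htest.dzb.smooth.continuous
    · show ker ε (z - ζ) * dzb φ z = 0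
      rw [show dzb φ z = 0 from h0, mul_zero]
  rw [integral_add i1 i2] at h1
  have h3 : ∫ z, (pk ε (z - ζ) : ℂ) * φ z = ∫ w, (pk ε w : ℂ) * φ (ζ + w) := by
    rw [← integral_sub_right_eq_self (fun w => (pk ε w : ℂ) * φ (ζ + w)) ζ]
    simp
  rw [← h3]
  linear_combination h1

/-- the kernels converge in `L¹` on balls -/
theorem ker_l1 (ρ : ℝ) :
    Tendsto (fun ε : ℝ => ∫ w in ball (0 : ℂ) ρ, ‖ker ε w - ker 0 w‖) (𝓝 0) (𝓝 0) ∧
    ∀ ε : ℝ, IntegrableOn (ker ε) (ball (0 : ℂ) ρ) := by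
  have hm : ∀ ε : ℝ, Measurable (ker ε) := by
    intro ε
    unfold ker
    fun_prop
  have hloc : LocallyIntegrable (fun w : ℂ => (‖w‖⁻¹ : ℝ)) := by
    refine locallyIntegrable_of_norm_le_rpow (C := 1) (α := 1) ?_ ?_ ?_ ?_
    · rw [Complex.finrank_real_complex]; norm_num
    · rw [Complex.finrank_real_complex]; norm_num
    · refine Eventually.of_forall fun w => ?_
      rw [norm_inv, norm_norm, one_mul, Real.rpow_neg_one]
    · exact (measurable_norm.inv).aestronglyMeasurable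
  have hint : IntegrableOn (fun w : ℂ => (‖w‖⁻¹ : ℝ)) (ball (0 : ℂ) ρ) :=
    (hloc.integrableOn_isCompact (isCompact_closedBall 0 ρ)).mono_set ball_subset_closedBall
  constructor
  · have h0 : (0 : ℝ) = ∫ w in ball (0 : ℂ) ρ, (0 : ℝ) := by simp
    conv =>
      arg 3
      rw [h0]
    apply tendsto_integral_filter_of_dominated_convergence (fun w => ‖w‖⁻¹ + ‖w‖⁻¹)
    · exact Eventually.of_forall fun ε => ((hm ε).sub (hm 0)).norm.aestronglyMeasurable
    · refine Eventually.of_forall fun ε => Eventually.of_forall fun w => ?_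
      rw [norm_norm]
      exact (norm_sub_le _ _).trans (add_le_add (ker_norm_le _ _) (ker_norm_le _ _))
    · exact hint.add hint
    · refine Eventually.of_forall fun w => ?_
      by_cases hw : w = 0
      · subst hw
        simp [ker]
      have hc : ContinuousAt (fun ε : ℝ => ‖ker ε w - ker 0 w‖) 0 := by
        have hne : ‖w‖ ^ 2 + (0 : ℝ) ^ 2 ≠ 0 := by
          have : 0 < ‖w‖ := norm_pos_iff.2 hw
          positivity
        unfold ker
        refine ContinuousAt.norm (ContinuousAt.sub (ContinuousAt.mul continuousAt_const ?_)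
          continuousAt_const)
        refine Complex.continuous_ofReal.continuousAt.comp ?_
        exact ContinuousAt.inv₀ (by fun_prop) hne
      have := hc.tendsto
      simpa using this
  · intro ε
    exact hint.mono' (hm ε).aestronglyMeasurable (Eventually.of_forall fun w => ker_norm_le _ _)

end C3aux

open C3aux in
theorem cauchy_transform {k : ℕ} (D : CD k) :
    ∃ T : D.L2 →L[ℂ] D.L2, IsCompactOperator T ∧ ∀ f, D.WeakDbar (T f) f := by
  set ε : ℕ → ℝ := fun n => 1 / ((n : ℝ) + 1) with hεdef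
  have hε : ∀ n, 0 < ε n := fun n => by rw [hεdef]; positivity
  have hε0 : Tendsto ε atTop (𝓝 0) := tendsto_one_div_add_atTop_nhds_zero_nat
  have hε1 : Tendsto ε atTop (𝓝[>] 0) :=
    tendsto_nhdsWithin_iff.2 ⟨hε0, Eventually.of_forall hε⟩
  choose T hTc hTr using fun n => exists_op (μ := volume.restrict D.U) (ker_nice (hε n))
  have hUb : D.U ⊆ ball 0 D.R := fun z hz => by simpa using hz.1
  set I : ℕ → ℝ := fun n => ∫ w in ball (0 : ℂ) (2 * D.R), ‖ker (ε n) w - ker 0 w‖ with hI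
  have hI0 : Tendsto I atTop (𝓝 0) := (ker_l1 (2 * D.R)).1.comp hε0
  have hIn : ∀ n, 0 ≤ I n := fun n => integral_nonneg fun _ => norm_nonneg _
  have hC : ∀ n m, ‖T n - T m‖ ≤ I n + I m := by
    intro n m
    have h1 := young hUb D.U_open.measurableSet (μ := volume.restrict D.U) rfl
      ((ker_nice (hε n)).sub (ker_nice (hε m)))
      (Rep.sub (ker_nice (hε n)) (ker_nice (hε m)) (hTr n) (hTr m))
    refine h1.trans ?_
    have j : ∀ n, IntegrableOn (fun w => ‖ker (ε n) w - ker 0 w‖) (ball (0 : ℂ) (2 * D.R)) :=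
      fun n => (((ker_l1 (2 * D.R)).2 (ε n)).sub ((ker_l1 (2 * D.R)).2 0)).norm
    rw [hI, ← integral_add (j n) (j m)]
    apply integral_mono_of_nonneg (Eventually.of_forall fun _ => norm_nonneg _)
      ((j n).add (j m))
    refine Eventually.of_forall fun w => ?_
    have : ker (ε n) w - ker (ε m) w = (ker (ε n) w - ker 0 w) - (ker (ε m) w - ker 0 w) := by
      ring
    simp only [Pi.add_apply]
    rw [this]
    exact norm_sub_le _ _
  have hCau : CauchySeq T := by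
    rw [Metric.cauchySeq_iff']
    intro e he
    obtain ⟨N, hN⟩ := (hI0.eventually (gt_mem_nhds (half_pos he))).exists_forall_of_atTop
    refine ⟨N, fun n hn => ?_⟩
    rw [dist_eq_norm]
    have := hC n N
    have h1 := hN n hn
    have h2 := hN N le_rfl
    linarith
  obtain ⟨T0, hT0⟩ := cauchySeq_tendsto_of_complete hCau
  have hcomp : IsCompactOperator T0 := isCompactOperator_of_tendsto hT0 (Eventually.of_forall hTc)
  set c : ℝ := ∫ w, pk 1 w with hc
  have hcpos : 0 < c := pk_pos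
  have hcc : (c : ℂ) ≠ 0 := by exact_mod_cast hcpos.ne'
  refine ⟨(c : ℂ)⁻¹ • T0, by rw [FunLike.coe_smul]; exact hcomp.smul _,
    fun f φ hφ => ?_⟩
  have hψ := hφ.dzb
  have hgm : MemLp (fun z => conj (dzb φ z)) 2 (volume.restrict D.U) := by
    refine Continuous.memLp_of_hasCompactSupport ?_ ?_
    · exact Complex.continuous_conj.comp hψ.smooth.continuous
    · refine hψ.compact.mono fun z hz h0 => hz ?_
      show conj (dzb φ z) = 0
      rw [show dzb φ z = 0 from h0, map_zero]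
  set g : D.L2 := hgm.toLp _ with hg
  have hgz : ∀ᵐ z ∂(volume.restrict D.U), (g : ℂ → ℂ) z = conj (dzb φ z) := hgm.coeFn_toLp
  have hpair : ∀ u : D.L2, inner ℂ g u = ∫ z in D.U, (u : ℂ → ℂ) z * dzb φ z := by
    intro u
    rw [MeasureTheory.L2.inner_def]
    apply integral_congr_ae
    filter_upwards [hgz] with z hz
    rw [RCLike.inner_apply, hz, Complex.conj_conj]
  have hφb : ∃ M, ∀ z, ‖φ z‖ ≤ M := hφ.smooth.continuous.bounded_above_of_compact_support hφ.compact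
  obtain ⟨M, hM⟩ := hφb
  have hval : ∀ n, inner ℂ g (T n f) =
      ∫ ζ in D.U, (f : ℂ → ℂ) ζ * -∫ w, (pk (ε n) w : ℂ) * φ (ζ + w) := by
    intro n
    rw [hTr n f g]
    apply integral_congr_ae
    refine Eventually.of_forall fun ζ => ?_
    simp only
    congr 1
    rw [← ker_parts (hε n) hφ.smooth hφ.compact ζ]
    have e1 : ∫ z in D.U, ker (ε n) (z - ζ) * conj ((g : ℂ → ℂ) z) =
        ∫ z in D.U, ker (ε n) (z - ζ) * dzb φ z := by
      apply integral_congr_ae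
      filter_upwards [hgz] with z hz
      rw [hz, Complex.conj_conj]
    rw [e1]
    apply setIntegral_eq_integral_of_forall_compl_eq_zero
    intro z hz
    have : dzb φ z = 0 := by
      by_contra h0
      exact hz (hψ.supp (subset_tsupport _ h0))
    rw [this, mul_zero]
  have hlim1 : Tendsto (fun n => (inner ℂ g (T n f) : ℂ)) atTop (𝓝 (inner ℂ g (T0 f))) := by
    have h1 : Tendsto (fun n => T n f) atTop (𝓝 (T0 f)) :=
      ((ContinuousLinearMap.apply ℂ _ f).continuous.tendsto T0).comp hT0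
    exact Tendsto.inner tendsto_const_nhds h1
  have hlim2 : Tendsto (fun n => (inner ℂ g (T n f) : ℂ)) atTop
      (𝓝 (∫ ζ in D.U, (f : ℂ → ℂ) ζ * -((∫ w, (pk 1 w : ℂ)) * φ ζ))) := by
    simp only [hval]
    apply tendsto_integral_filter_of_dominated_convergence
      (fun ζ => ‖(f : ℂ → ℂ) ζ‖ * (c * M))
    · refine Eventually.of_forall fun n => ?_
      refine (int_f f).1.mul ?_
      have : Continuous fun ζ => ∫ w, (pk (ε n) w : ℂ) * φ (ζ + w) := by
        have e2 : ∀ ζ, ∫ w, (pk (ε n) w : ℂ) * φ (ζ + w) =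
            -∫ z, ker (ε n) (z - ζ) * dzb φ z := fun ζ => by
          rw [ker_parts (hε n) hφ.smooth hφ.compact ζ, neg_neg]
        simp only [e2]
        refine Continuous.neg ?_
        obtain ⟨M1, hM10, hM1⟩ := (ker_nice (hε n)).bdd
        refine continuous_of_dominated (bound := fun z => M1 * ‖dzb φ z‖) ?_ ?_ ?_ ?_
        · intro ζ
          exact (((ker_nice (hε n)).continuous.comp (by fun_prop)).mul
            hψ.smooth.continuous).aestronglyMeasurable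
        · intro ζ
          refine Eventually.of_forall fun z => ?_
          rw [norm_mul]
          exact mul_le_mul_of_nonneg_right (hM1 _) (norm_nonneg _)
        · exact (hψ.smooth.continuous.integrable_of_hasCompactSupport hψ.compact).norm.const_mul _
        · refine Eventually.of_forall fun z => ?_
          exact ((ker_nice (hε n)).continuous.comp (by fun_prop)).mul continuous_const
      exact this.neg.aestronglyMeasurable
    · refine Eventually.of_forall fun n => Eventually.of_forall fun ζ => ?_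
      rw [norm_mul, norm_neg]
      exact mul_le_mul_of_nonneg_left
        ((pk_tendsto hφ.smooth.continuous hM ζ).2 (ε n) (hε n)) (norm_nonneg _)
    · exact (int_f f).norm.mul_const _
    · refine Eventually.of_forall fun ζ => ?_
      exact (((pk_tendsto hφ.smooth.continuous hM ζ).1.comp hε1).neg).const_mul _
  have huniq := tendsto_nhds_unique hlim1 hlim2
  have hcint : (∫ w, (pk 1 w : ℂ)) = (c : ℂ) := by rw [hc, integral_complex_ofReal]
  rw [← hpair, smul_apply, inner_smul_right, huniq, hcint]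
  have e3 : ∫ ζ in D.U, (f : ℂ → ℂ) ζ * -((c : ℂ) * φ ζ) =
      -(c : ℂ) * ∫ ζ in D.U, (f : ℂ → ℂ) ζ * φ ζ := by
    rw [← integral_const_mul]
    apply integral_congr_ae
    refine Eventually.of_forall fun ζ => ?_
    simp only
    ring
  rw [e3]
  field_simp

end Pool.Agent.Helper7.KE
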