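import Pool.Agent.Helper7.KE.A1
import Pool.Agent.Helper7.KE.C1

set_option autoImplicit false

open MeasureTheory Set Filter Asymptotics Topology Metric
open scoped ComplexConjugate ENNReal

namespace Pool.Agent.Helper7.KE

section
variable {k : ℕ} (D : CD k)

theorem mul_mul {b b' : ℂ → ℂ} (hb : ContinuousOn b D.cU) (hb' : ContinuousOn b' D.cU)
    (f : D.L2) : D.Mul b (D.Mul b' f) = D.Mul (fun z => b z * b' z) f := by
  refine Lp.ext ?_
  filter_upwards [D.Mul_coe hb (D.Mul b' f), D.Mul_coe hb' f, D.Mul_coe (hb.mul hb') f]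
    with z h1 h2 h3
  have h3' : (D.Mul (fun z => b z * b' z) f : ℂ → ℂ) z = (b z * b' z) * (f : ℂ → ℂ) z := h3
  rw [h1, h2, h3']
  ring

theorem mul_congr {b b' : ℂ → ℂ} (hb : ContinuousOn b D.cU) (hb' : ContinuousOn b' D.cU)
    (h : ∀ z ∈ D.U, b z = b' z) : D.Mul b = D.Mul b' := by
  refine ContinuousLinearMap.ext fun f => Lp.ext ?_
  filter_upwards [D.Mul_coe hb f, D.Mul_coe hb' f, ae_restrict_mem D.U_open.measurableSet]
    with z h1 h2 h3
  rw [h1, h2, h z h3]

theorem mul_add' {b b' : ℂ → ℂ} (hb : ContinuousOn b D.cU) (hb' : ContinuousOn b' D.cU) :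
    D.Mul (fun z => b z + b' z) = D.Mul b + D.Mul b' := by
  refine ContinuousLinearMap.ext fun f => Lp.ext ?_
  filter_upwards [D.Mul_coe hb f, D.Mul_coe hb' f, D.Mul_coe (hb.add hb') f,
    Lp.coeFn_add (D.Mul b f) (D.Mul b' f)] with z h1 h2 h3 h4
  have h3' : (D.Mul (fun z => b z + b' z) f : ℂ → ℂ) z = (b z + b' z) * (f : ℂ → ℂ) z := h3
  rw [ContinuousLinearMap.add_apply, h4, Pi.add_apply, h1, h2, h3']
  ring

theorem mul_smul' {b : ℂ → ℂ} (hb : ContinuousOn b D.cU) (c : ℂ) :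
    D.Mul (fun z => c * b z) = c • D.Mul b := by
  refine ContinuousLinearMap.ext fun f => Lp.ext ?_
  filter_upwards [D.Mul_coe hb f, D.Mul_coe (continuousOn_const.mul hb) f,
    Lp.coeFn_smul c (D.Mul b f)] with z h1 h2 h3
  have h2' : (D.Mul (fun z => c * b z) f : ℂ → ℂ) z = (c * b z) * (f : ℂ → ℂ) z := h2
  rw [ContinuousLinearMap.smul_apply, h3, Pi.smul_apply, h1, h2', smul_eq_mul]
  ring

theorem mul_one' : D.Mul (fun _ => 1) = ContinuousLinearMap.id ℂ D.L2 := by
  refine ContinuousLinearMap.ext fun f => Lp.ext ?_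
  filter_upwards [D.Mul_coe (b := fun _ => 1) continuousOn_const f] with z h1
  rw [h1, one_mul, ContinuousLinearMap.id_apply]

/-- products of square integrable functions and continuous functions are integrable -/
theorem c4a_int (u : D.L2) {ψ : ℂ → ℂ} (hψ : ContinuousOn ψ D.cU) :
    Integrable (fun z => (u : ℂ → ℂ) z * ψ z) (volume.restrict D.U) := by
  have h1 := (D.mul_memLp hψ u).integrable (by norm_num)
  refine h1.congr (Eventually.of_forall fun z => ?_)
  exact mul_comm _ _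

/-- Leibniz rule for the weak derivative -/
theorem weak_mul {S : ℂ → ℂ} {V : Set ℂ} (hV : IsOpen V) (hcV : D.cU ⊆ V)
    (hS : ContDiffOn ℝ (⊤ : ℕ∞) S V) {u f : D.L2} (h : D.WeakDbar u f) :
    D.WeakDbar (D.Mul S u) (D.Mul S f + D.Mul (dzb S) u) := by
  intro φ hφ
  have hSc : ContinuousOn S D.cU := hS.continuousOn.mono hcV
  have hdS : ContinuousOn (dzb S) D.cU := (dz_contDiffOn hV hS).2.continuousOn.mono hcV
  have hφc : Continuous φ := hφ.smooth.continuous
  have hdφc : Continuous (dzb φ) := hφ.dzb.smooth.continuous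
  have hSU : ContDiffOn ℝ (⊤ : ℕ∞) S D.U := hS.mono (D.U_subset_cU.trans hcV)
  have hT : IsTest D.U (fun z => S z • φ z) := IsTest.smul D.U_open hSU hφ
  have key := h _ hT
  have hi1 : Integrable (fun z => (u : ℂ → ℂ) z * (dzb S z * φ z)) (volume.restrict D.U) :=
    c4a_int D u (hdS.mul hφc.continuousOn)
  have hi2 : Integrable (fun z => (u : ℂ → ℂ) z * (S z * dzb φ z)) (volume.restrict D.U) :=
    c4a_int D u (hSc.mul hdφc.continuousOn)
  have hi3 : Integrable (fun z => (f : ℂ → ℂ) z * (S z * φ z)) (volume.restrict D.U) :=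
    c4a_int D f (hSc.mul hφc.continuousOn)
  have e1 : ∫ z in D.U, (u : ℂ → ℂ) z * dzb (fun z => S z • φ z) z =
      (∫ z in D.U, (u : ℂ → ℂ) z * (dzb S z * φ z)) +
        ∫ z in D.U, (u : ℂ → ℂ) z * (S z * dzb φ z) := by
    rw [← integral_add hi1 hi2]
    refine setIntegral_congr_fun D.U_open.measurableSet fun z hz => ?_
    have hd1 : DifferentiableAt ℝ S z :=
      (hSU.contDiffAt (D.U_open.mem_nhds hz)).differentiableAt (by simp)
    have hd2 : DifferentiableAt ℝ φ z := hφ.smooth.contDiffAt.differentiableAt (by simp)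
    have h9 := (dz_smul hd1 hd2).2
    simp only [smul_eq_mul] at h9 ⊢
    rw [h9]
    ring
  have e2 : ∫ z in D.U, (D.Mul S u : ℂ → ℂ) z * dzb φ z =
      ∫ z in D.U, (u : ℂ → ℂ) z * (S z * dzb φ z) := by
    refine integral_congr_ae ?_
    filter_upwards [D.Mul_coe hSc u] with z h1
    rw [h1]; ring
  have e3 : ∫ z in D.U, ((D.Mul S f + D.Mul (dzb S) u : D.L2) : ℂ → ℂ) z * φ z =
      (∫ z in D.U, (f : ℂ → ℂ) z * (S z * φ z)) +
        ∫ z in D.U, (u : ℂ → ℂ) z * (dzb S z * φ z) := by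
    rw [← integral_add hi3 hi1]
    refine integral_congr_ae ?_
    filter_upwards [D.Mul_coe hSc f, D.Mul_coe hdS u,
      Lp.coeFn_add (D.Mul S f) (D.Mul (dzb S) u)] with z h1 h2 h3
    rw [h3, Pi.add_apply, h1, h2]; ring
  have e4 : ∫ z in D.U, (f : ℂ → ℂ) z * (S z • φ z) =
      ∫ z in D.U, (f : ℂ → ℂ) z * (S z * φ z) := rfl
  rw [e1, e4] at key
  rw [e2, e3]
  linear_combination key

theorem weak_add {u f u' f' : D.L2} (h : D.WeakDbar u f) (h' : D.WeakDbar u' f') :
    D.WeakDbar (u + u') (f + f') := by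
  intro φ hφ
  have hφc : Continuous φ := hφ.smooth.continuous
  have hdφc : Continuous (dzb φ) := hφ.dzb.smooth.continuous
  have e1 : ∫ z in D.U, ((u + u' : D.L2) : ℂ → ℂ) z * dzb φ z =
      (∫ z in D.U, (u : ℂ → ℂ) z * dzb φ z) + ∫ z in D.U, (u' : ℂ → ℂ) z * dzb φ z := by
    rw [← integral_add (c4a_int D u hdφc.continuousOn) (c4a_int D u' hdφc.continuousOn)]
    refine integral_congr_ae ?_
    filter_upwards [Lp.coeFn_add u u'] with z h1
    rw [h1, Pi.add_apply]; ring
  have e2 : ∫ z in D.U, ((f + f' : D.L2) : ℂ → ℂ) z * φ z =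
      (∫ z in D.U, (f : ℂ → ℂ) z * φ z) + ∫ z in D.U, (f' : ℂ → ℂ) z * φ z := by
    rw [← integral_add (c4a_int D f hφc.continuousOn) (c4a_int D f' hφc.continuousOn)]
    refine integral_congr_ae ?_
    filter_upwards [Lp.coeFn_add f f'] with z h1
    rw [h1, Pi.add_apply]; ring
  rw [e1, e2, h φ hφ, h' φ hφ]
  ring

theorem weak_smul {u f : D.L2} (c : ℂ) (h : D.WeakDbar u f) : D.WeakDbar (c • u) (c • f) := by
  intro φ hφ
  have e1 : ∫ z in D.U, ((c • u : D.L2) : ℂ → ℂ) z * dzb φ z =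
      c * ∫ z in D.U, (u : ℂ → ℂ) z * dzb φ z := by
    rw [← integral_const_mul]
    refine integral_congr_ae ?_
    filter_upwards [Lp.coeFn_smul c u] with z h1
    rw [h1, Pi.smul_apply, smul_eq_mul]; ring
  have e2 : ∫ z in D.U, ((c • f : D.L2) : ℂ → ℂ) z * φ z =
      c * ∫ z in D.U, (f : ℂ → ℂ) z * φ z := by
    rw [← integral_const_mul]
    refine integral_congr_ae ?_
    filter_upwards [Lp.coeFn_smul c f] with z h1
    rw [h1, Pi.smul_apply, smul_eq_mul]; ring
  rw [e1, e2, h φ hφ]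
  ring

/-- holomorphic functions solve the homogeneous equation -/
theorem weak_hol_zero {u : D.L2} (h : u ∈ D.Berg) : D.WeakDbar u 0 := by
  obtain ⟨g, hg, hug⟩ := berg_rep D h
  intro φ hφ
  have hgs : ContDiffOn ℝ (⊤ : ℕ∞) g D.U := hol_contDiffOn D.U_open hg.diff
  have hT : IsTest D.U (fun z => g z • φ z) := IsTest.smul D.U_open hgs hφ
  have e1 : ∫ z in D.U, (u : ℂ → ℂ) z * dzb φ z =
      ∫ z in D.U, dzb (fun z => g z • φ z) z := by
    refine integral_congr_ae ?_
    filter_upwards [hug, ae_restrict_mem D.U_open.measurableSet] with z h1 hz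
    have hd1 : DifferentiableAt ℂ g z := (hg.diff z hz).differentiableAt (D.U_open.mem_nhds hz)
    have hd2 : DifferentiableAt ℝ φ z := hφ.smooth.contDiffAt.differentiableAt (by simp)
    rw [(dz_smul (hd1.restrictScalars ℝ) hd2).2, (dz_hol hd1).2, h1]
    simp
  have e2 : ∫ z in D.U, dzb (fun z => g z • φ z) z = 0 := by
    rw [setIntegral_eq_integral_of_forall_compl_eq_zero]
    · exact (integral_dz_test (hT.smooth.of_le (by simp)) hT.compact).2
    · intro z hz
      exact (dz_of_notMem fun h => hz (hT.supp h)).2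
  have e3 : ∫ z in D.U, ((0 : D.L2) : ℂ → ℂ) z * φ z = 0 := by
    have : ∫ z in D.U, ((0 : D.L2) : ℂ → ℂ) z * φ z = ∫ z in D.U, (0 : ℂ) := by
      refine integral_congr_ae ?_
      filter_upwards [Lp.coeFn_zero ℂ 2 (volume.restrict D.U)] with z h1
      rw [h1, Pi.zero_apply, zero_mul]
    rw [this, integral_zero]
  rw [e1, e2, e3, neg_zero]

end

end Pool.Agent.Helper7.KE
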