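import Pool.Agent.Helper7.KE.C2
import Pool.Agent.Helper7.KE.C3
import Pool.Agent.Helper7.KE.C4a

set_option autoImplicit false

open MeasureTheory Set Filter Asymptotics Topology Metric
open scoped ComplexConjugate ENNReal

namespace Pool.Agent.Helper7.KE

section
variable {k : ℕ} (D : CD k)

/-- the canonical solution is unique (from Weyl) -/
theorem kohn_unique {T : D.L2 →L[ℂ] D.L2} (hT : D.IsKohn T) {u f : D.L2} (h : D.WeakDbar u f)
    (hP : D.P u = 0) : u = T f := by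
  have h1 : D.WeakDbar (u + (-1 : ℂ) • T f) (f + (-1 : ℂ) • f) :=
    weak_add D h (weak_smul D (-1) (hT.weak f))
  have h2 : f + (-1 : ℂ) • f = 0 := by simp
  rw [h2] at h1
  have h3 : u + (-1 : ℂ) • T f ∈ D.Berg := weyl D h1
  have h4 : D.P (u + (-1 : ℂ) • T f) = 0 := by
    rw [map_add, map_smul, hP, hT.orth]; simp
  have h5 : D.P (((⟨_, h3⟩ : D.Berg) : D.L2)) = ⟨_, h3⟩ :=
    Submodule.orthogonalProjectionOnto_mem_subspace_eq_self (K := D.Berg) ⟨_, h3⟩
  have h6 : (⟨u + (-1 : ℂ) • T f, h3⟩ : D.Berg) = 0 := by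
    rw [← h5]; exact h4
  have h7 : u + (-1 : ℂ) • T f = 0 := congrArg Subtype.val h6
  rw [neg_smul, one_smul, ← sub_eq_add_neg] at h7
  exact sub_eq_zero.1 h7

/-- existence of the canonical solution operator (from the Cauchy transform) -/
theorem exists_kohn : ∃ T : D.L2 →L[ℂ] D.L2, D.IsKohn T := by
  obtain ⟨C, hC, hw⟩ := cauchy_transform D
  refine ⟨(ContinuousLinearMap.id ℂ D.L2 - D.Berg.subtypeL ∘L D.P) ∘L C, ?_, ?_, ?_⟩
  · exact IsCompactOperator.clm_comp hC (ContinuousLinearMap.id ℂ D.L2 - D.Berg.subtypeL ∘L D.P)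
  · intro f
    have h1 : D.WeakDbar (C f + (-1 : ℂ) • ((D.P (C f) : D.Berg) : D.L2)) (f + (-1 : ℂ) • 0) :=
      weak_add D (hw f) (weak_smul D (-1) (weak_hol_zero D (D.P (C f)).2))
    have h2 : f + (-1 : ℂ) • (0 : D.L2) = f := by simp
    rw [h2] at h1
    have h3 : ((ContinuousLinearMap.id ℂ D.L2 - D.Berg.subtypeL ∘L D.P) ∘L C) f =
        C f + (-1 : ℂ) • ((D.P (C f) : D.Berg) : D.L2) := by
      simp [sub_eq_add_neg]
    rw [h3]
    exact h1
  · intro f
    have h3 : ((ContinuousLinearMap.id ℂ D.L2 - D.Berg.subtypeL ∘L D.P) ∘L C) f =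
        C f - ((D.P (C f) : D.Berg) : D.L2) := by
      simp
    rw [h3, map_sub]
    have h5 : D.P ((D.P (C f) : D.Berg) : D.L2) = D.P (C f) :=
      Submodule.orthogonalProjectionOnto_mem_subspace_eq_self (K := D.Berg) _
    rw [h5, sub_self]

end

end Pool.Agent.Helper7.KE
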