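import Pool.Agent.Helper7.KE.Defs

set_option autoImplicit false

open MeasureTheory Set Filter Asymptotics Topology Metric
open scoped ComplexConjugate ENNReal

namespace Pool.Agent.Helper7.KE

/-- the Cauchy integral over the circle of radius `s` about `c` -/
noncomputable def c5aI (g : ℂ → ℂ) (c : ℂ) (s : ℝ) (z : ℂ) : ℂ :=
  (2 * Real.pi * Complex.I : ℂ)⁻¹ * ∮ ζ in C(c, s), (ζ - z)⁻¹ * g ζ

theorem c5a_diff {g : ℂ → ℂ} {c : ℂ} {s : ℝ} (hs : 0 < s) (hg : ContinuousOn g (sphere c s))
    {z₀ : ℂ} (hz : z₀ ∉ sphere c s) : DifferentiableAt ℂ (c5aI g c s) z₀ := by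
  unfold c5aI
  refine DifferentiableAt.const_mul ?_ _
  obtain ⟨ε, hε, hε'⟩ : ∃ ε > 0, ball z₀ ε ⊆ (sphere c s)ᶜ :=
    Metric.isOpen_iff.1 isClosed_sphere.isOpen_compl z₀ hz
  have hcm : Continuous (circleMap c s) := continuous_circleMap c s
  have hcs : ∀ θ, circleMap c s θ ∈ sphere c s := fun θ => circleMap_mem_sphere c hs.le θ
  have hgc : Continuous fun θ => g (circleMap c s θ) := by
    rw [← continuousOn_univ]
    exact hg.comp hcm.continuousOn fun θ _ => hcs θ
  obtain ⟨M, hM⟩ := (isCompact_sphere c s).exists_bound_of_continuousOn hg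
  have hlow : ∀ z ∈ ball z₀ (ε / 2), ∀ θ, ε / 2 ≤ ‖circleMap c s θ - z‖ := by
    intro z hz θ
    by_contra hcon
    push Not at hcon
    have h1 : circleMap c s θ ∈ ball z₀ ε := by
      rw [mem_ball, dist_eq_norm]
      rw [mem_ball, dist_eq_norm] at hz
      calc ‖circleMap c s θ - z₀‖ = ‖(circleMap c s θ - z) + (z - z₀)‖ := by ring_nf
        _ ≤ _ := norm_add_le _ _
        _ < ε := by linarith
    exact hε' h1 (hcs θ)
  have hne : ∀ z ∈ ball z₀ (ε / 2), ∀ θ, circleMap c s θ - z ≠ 0 := by
    intro z hz θ h0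
    have := hlow z hz θ
    rw [h0, norm_zero] at this
    linarith
  have hcont : ∀ z ∈ ball z₀ (ε / 2), Continuous fun θ : ℝ =>
      deriv (circleMap c s) θ • ((circleMap c s θ - z)⁻¹ * g (circleMap c s θ)) := by
    intro z hz
    have h2 : Continuous fun θ : ℝ => (circleMap c s θ - z)⁻¹ :=
      (hcm.sub continuous_const).inv₀ (hne z hz)
    simp only [deriv_circleMap]
    exact ((continuous_circleMap 0 s).mul continuous_const).smul (h2.mul hgc)
  have hz₀ : z₀ ∈ ball z₀ (ε / 2) := mem_ball_self (by positivity)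
  have key := intervalIntegral.hasDerivAt_integral_of_dominated_loc_of_deriv_le (𝕜 := ℂ)
    (μ := volume) (a := 0) (b := 2 * Real.pi)
    (F := fun z (θ : ℝ) => deriv (circleMap c s) θ •
      ((circleMap c s θ - z)⁻¹ * g (circleMap c s θ)))
    (F' := fun z (θ : ℝ) => deriv (circleMap c s) θ •
      (((circleMap c s θ - z) ^ 2)⁻¹ * g (circleMap c s θ)))
    (x₀ := z₀) (s := ball z₀ (ε / 2))
    (bound := fun _ => s * (((ε / 2) ^ 2)⁻¹ * M))
    (ball_mem_nhds z₀ (by positivity))
    (by
      filter_upwards [ball_mem_nhds z₀ (show 0 < ε / 2 by positivity)] with z hz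
      exact (hcont z hz).aestronglyMeasurable)
    ((hcont z₀ hz₀).intervalIntegrable _ _)
    (by
      have h2 : Continuous fun θ : ℝ => ((circleMap c s θ - z₀) ^ 2)⁻¹ :=
        ((hcm.sub continuous_const).pow 2).inv₀ fun θ => pow_ne_zero 2 (hne z₀ hz₀ θ)
      have h3 : Continuous fun θ : ℝ => deriv (circleMap c s) θ •
          (((circleMap c s θ - z₀) ^ 2)⁻¹ * g (circleMap c s θ)) := by
        simp only [deriv_circleMap]
        exact ((continuous_circleMap 0 s).mul continuous_const).smul (h2.mul hgc)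
      exact h3.aestronglyMeasurable)
    (by
      refine Eventually.of_forall fun θ _ z hz => ?_
      have h1 : ‖deriv (circleMap c s) θ‖ = s := by
        simp [deriv_circleMap, abs_of_pos hs]
      rw [norm_smul, h1, norm_mul, norm_inv, norm_pow]
      have h2 := hlow z hz θ
      have h3 := hM _ (hcs θ)
      have h4 : (‖circleMap c s θ - z‖ ^ 2)⁻¹ ≤ ((ε / 2) ^ 2)⁻¹ :=
        inv_anti₀ (by positivity) (pow_le_pow_left₀ (by positivity) h2 2)
      exact mul_le_mul_of_nonneg_left
        (mul_le_mul h4 h3 (norm_nonneg _) (by positivity)) hs.le)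
    intervalIntegrable_const
    (by
      refine Eventually.of_forall fun θ _ z hz => ?_
      have h5 : HasDerivAt (fun w : ℂ => circleMap c s θ - w) (-1) z := by
        simpa using (hasDerivAt_id z).const_sub (circleMap c s θ)
      have h6 : HasDerivAt (fun w : ℂ => (circleMap c s θ - w)⁻¹)
          ((circleMap c s θ - z) ^ 2)⁻¹ z := by
        have h6' := h5.fun_inv (hne z hz θ)
        rw [neg_neg, one_div] at h6'
        exact h6'
      have h7 := (h6.mul_const (g (circleMap c s θ))).const_mul (deriv (circleMap c s) θ)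
      exact h7)
  exact key.2.differentiableAt

theorem c5a_tendsto {g : ℂ → ℂ} {c : ℂ} {s : ℝ} (hs : 0 < s) (hg : ContinuousOn g (sphere c s)) :
    Tendsto (c5aI g c s) (cocompact ℂ) (𝓝 0) := by
  obtain ⟨M, hM⟩ := (isCompact_sphere c s).exists_bound_of_continuousOn hg
  have h1 : Tendsto (fun z : ℂ => dist z c - s) (cocompact ℂ) atTop := by
    have := (tendsto_dist_left_cocompact_atTop (α := ℂ) c).congr fun z => dist_comm c z
    exact tendsto_atTop_add_const_right _ (-s) this
  have h2 : Tendsto (fun z : ℂ => s * ((dist z c - s)⁻¹ * M)) (cocompact ℂ) (𝓝 0) := by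
    have h3 := (tendsto_inv_atTop_zero.comp h1).mul_const M
    have h4 := h3.const_mul s
    simpa using h4
  refine squeeze_zero_norm' ?_ h2
  filter_upwards [h1.eventually_gt_atTop 0] with z hz
  unfold c5aI
  have h5 := circleIntegral.norm_two_pi_i_inv_smul_integral_le_of_norm_le_const
    (f := fun ζ => (ζ - z)⁻¹ * g ζ) (c := c) (R := s) (C := (dist z c - s)⁻¹ * M) hs.le ?_
  · simpa [smul_eq_mul] using h5
  · intro ζ hζ
    rw [norm_mul, norm_inv]
    have h6 : dist z c - s ≤ ‖ζ - z‖ := by
      rw [mem_sphere] at hζ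
      rw [← dist_eq_norm]
      have := dist_triangle z ζ c
      rw [dist_comm z ζ] at this
      linarith
    exact mul_le_mul (inv_anti₀ hz h6) (hM ζ hζ) (norm_nonneg _) (by positivity)

theorem c5a_indep {g : ℂ → ℂ} {c : ℂ} {s s' : ℝ} (hs : 0 < s) (hss : s ≤ s')
    (hg : ∀ ζ ∈ closedBall c s' \ ball c s, DifferentiableAt ℂ g ζ)
    {z : ℂ} (hz : z ∉ closedBall c s' \ ball c s) : c5aI g c s' z = c5aI g c s z := by
  unfold c5aI
  congr 1
  have hd : ∀ ζ ∈ closedBall c s' \ ball c s,
      DifferentiableAt ℂ (fun ζ => (ζ - z)⁻¹ * g ζ) ζ := by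
    intro ζ hζ
    have hne : ζ - z ≠ 0 := by
      intro h0
      rw [sub_eq_zero] at h0
      exact hz (h0 ▸ hζ)
    exact ((differentiableAt_id.sub_const z).inv hne).mul (hg ζ hζ)
  refine Complex.circleIntegral_eq_of_differentiable_on_annulus_off_countable hs hss
    countable_empty (fun ζ hζ => (hd ζ hζ).continuousAt.continuousWithinAt) fun ζ hζ => ?_
  refine hd ζ ⟨ball_subset_closedBall hζ.1.1, fun h => hζ.1.2 (ball_subset_closedBall h)⟩

theorem c5a_formula {g : ℂ → ℂ} {c : ℂ} {s s' : ℝ} (hs : 0 < s)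
    (hg : ∀ ζ ∈ closedBall c s' \ ball c s, DifferentiableAt ℂ g ζ)
    {z : ℂ} (hz1 : s < dist z c) (hz2 : dist z c < s') :
    g z = c5aI g c s' z - c5aI g c s z := by
  have hss : s < s' := hz1.trans hz2
  have hs' : 0 < s' := hs.trans hss
  have hzA : z ∈ closedBall c s' \ ball c s := ⟨hz2.le, fun h => absurd (mem_ball.1 h) (by linarith)⟩
  have hc : ContinuousOn (dslope g z) (closedBall c s' \ ball c s) := by
    intro ζ hζ
    rcases eq_or_ne ζ z with rfl | hne
    · exact (continuousAt_dslope_same.2 (hg ζ hζ)).continuousWithinAt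
    · exact ((continuousAt_dslope_of_ne hne).2 (hg ζ hζ).continuousAt).continuousWithinAt
  have hd : ∀ ζ ∈ (ball c s' \ closedBall c s) \ {z}, DifferentiableAt ℂ (dslope g z) ζ := by
    intro ζ hζ
    refine (differentiableAt_dslope_of_ne hζ.2).2 (hg ζ ⟨ball_subset_closedBall hζ.1.1,
      fun h => hζ.1.2 (ball_subset_closedBall h)⟩)
  have key := Complex.circleIntegral_eq_of_differentiable_on_annulus_off_countable hs hss.le
    (countable_singleton z) hc hd
  have hsph : ∀ t, 0 < t → (∀ ζ ∈ sphere c t, DifferentiableAt ℂ g ζ) → z ∉ sphere c t →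
      (∮ ζ in C(c, t), dslope g z ζ) = (∮ ζ in C(c, t), (ζ - z)⁻¹ * g ζ) -
        (∮ ζ in C(c, t), (ζ - z)⁻¹) * g z := by
    intro t ht hgt hzt
    have hne : ∀ ζ ∈ sphere c t, ζ - z ≠ 0 := by
      intro ζ hζ h0
      rw [sub_eq_zero] at h0
      exact hzt (h0 ▸ hζ)
    have hinv : ContinuousOn (fun ζ : ℂ => (ζ - z)⁻¹) (sphere c t) :=
      (continuousOn_id.sub continuousOn_const).inv₀ hne
    have hgc : ContinuousOn g (sphere c t) := fun ζ hζ => (hgt ζ hζ).continuousAt.continuousWithinAt
    have h1 : (∮ ζ in C(c, t), dslope g z ζ) =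
        ∮ ζ in C(c, t), ((ζ - z)⁻¹ * g ζ - g z * (ζ - z)⁻¹) := by
      refine circleIntegral.integral_congr ht.le fun ζ hζ => ?_
      have hne' : ζ ≠ z := fun h => hzt (h ▸ hζ)
      simp only [dslope_of_ne g hne', slope_def_field]
      field_simp [hne ζ hζ]
    rw [h1, circleIntegral.integral_sub, circleIntegral.integral_const_mul, mul_comm (g z)]
    · exact (hinv.mul hgc).circleIntegrable ht.le
    · exact (continuousOn_const.mul hinv).circleIntegrable ht.le
  have hsp1 : ∀ ζ ∈ sphere c s, ζ ∈ closedBall c s' \ ball c s := by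
    intro ζ hζ
    rw [mem_sphere] at hζ
    exact ⟨by rw [mem_closedBall]; linarith, by rw [mem_ball]; linarith⟩
  have hsp2 : ∀ ζ ∈ sphere c s', ζ ∈ closedBall c s' \ ball c s := by
    intro ζ hζ
    rw [mem_sphere] at hζ
    exact ⟨by rw [mem_closedBall]; linarith, by rw [mem_ball]; linarith⟩
  rw [hsph s' hs' (fun ζ hζ => hg ζ (hsp2 ζ hζ)) (by rw [mem_sphere]; linarith),
    hsph s hs (fun ζ hζ => hg ζ (hsp1 ζ hζ)) (by rw [mem_sphere]; linarith),
    circleIntegral.integral_sub_inv_of_mem_ball (by rw [mem_ball]; exact hz2)] at key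
  have hzero : (∮ ζ in C(c, s), (ζ - z)⁻¹) = 0 := by
    have hd0 : ∀ ζ ∈ closedBall c s, DifferentiableAt ℂ (fun ζ : ℂ => (ζ - z)⁻¹) ζ := by
      intro ζ hζ
      refine (differentiableAt_id.sub_const z).inv ?_
      intro h0
      have h0' : ζ = z := sub_eq_zero.1 h0
      rw [mem_closedBall, h0'] at hζ
      linarith
    exact Complex.circleIntegral_eq_zero_of_differentiable_on_off_countable hs.le countable_empty
      (fun ζ hζ => (hd0 ζ hζ).continuousAt.continuousWithinAt)
      (fun ζ hζ => hd0 ζ (ball_subset_closedBall hζ.1))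
  rw [hzero] at key
  unfold c5aI
  have hpi : (2 * Real.pi * Complex.I : ℂ) ≠ 0 := by
    simp [Real.pi_ne_zero]
  generalize (∮ ζ in C(c, s), (ζ - z)⁻¹ * g ζ) = A at key ⊢
  generalize (∮ ζ in C(c, s'), (ζ - z)⁻¹ * g ζ) = B at key ⊢
  have h9 : (2 * Real.pi * Complex.I : ℂ) * g z = B - A := by linear_combination -key
  rw [← mul_sub, ← h9, inv_mul_cancel_left₀ hpi]

/-- Laurent splitting on an annulus -/
theorem c5a_annulus {g : ℂ → ℂ} {c : ℂ} {r ρ : ℝ} (hr : 0 < r) (hrρ : r < ρ)
    (hg : ∀ ζ, r < dist ζ c → dist ζ c < ρ → DifferentiableAt ℂ g ζ) :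
    ∃ h f : ℂ → ℂ, DifferentiableOn ℂ h (ball c ρ) ∧ DifferentiableOn ℂ f {z | r < dist z c} ∧
      Tendsto f (cocompact ℂ) (𝓝 0) ∧ ∀ z, r < dist z c → dist z c < ρ → g z = h z + f z := by
  have hgc : ∀ s, r < s → s < ρ → ContinuousOn g (sphere c s) := by
    intro s h1 h2 ζ hζ
    rw [mem_sphere] at hζ
    exact (hg ζ (by linarith) (by linarith)).continuousAt.continuousWithinAt
  -- outer function
  have hind1 : ∀ s s' z, r < s → s < ρ → r < s' → s' < ρ → s < dist z c → s' < dist z c →
      c5aI g c s z = c5aI g c s' z := by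
    intro s s' z h1 h2 h3 h4 h5 h6
    wlog hss : s ≤ s' generalizing s s'
    · exact (this s' s h3 h4 h1 h2 h6 h5 (le_of_not_ge hss)).symm
    refine (c5a_indep (hr.trans h1) hss (fun ζ hζ => ?_) fun hz => ?_).symm
    · have h7 := mem_closedBall.1 hζ.1
      have h8 : s ≤ dist ζ c := not_lt.1 fun h => hζ.2 (mem_ball.2 h)
      exact hg ζ (by linarith) (by linarith)
    · have h7 := mem_closedBall.1 hz.1
      linarith
  have hind2 : ∀ s s' z, r < s → s < ρ → r < s' → s' < ρ → dist z c < s → dist z c < s' →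
      c5aI g c s z = c5aI g c s' z := by
    intro s s' z h1 h2 h3 h4 h5 h6
    wlog hss : s ≤ s' generalizing s s'
    · exact (this s' s h3 h4 h1 h2 h6 h5 (le_of_not_ge hss)).symm
    refine (c5a_indep (hr.trans h1) hss (fun ζ hζ => ?_) fun hz => ?_).symm
    · have h7 := mem_closedBall.1 hζ.1
      have h8 : s ≤ dist ζ c := not_lt.1 fun h => hζ.2 (mem_ball.2 h)
      exact hg ζ (by linarith) (by linarith)
    · exact hz.2 (mem_ball.2 h5)
  refine ⟨fun z => c5aI g c ((max (dist z c) r + ρ) / 2) z,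
    fun z => -c5aI g c ((r + min (dist z c) ρ) / 2) z, ?_, ?_, ?_, ?_⟩
  · intro z₀ hz₀
    rw [mem_ball] at hz₀
    have hm : max (dist z₀ c) r < ρ := max_lt hz₀ hrρ
    set s := (max (dist z₀ c) r + ρ) / 2 with hs
    have h1 : max (dist z₀ c) r < s := by rw [hs]; linarith
    have h2 : s < ρ := by rw [hs]; linarith
    have h3 : dist z₀ c < s := (le_max_left _ _).trans_lt h1
    have h4 : r < s := (le_max_right _ _).trans_lt h1
    have h5 : DifferentiableAt ℂ (c5aI g c s) z₀ :=
      c5a_diff (hr.trans h4) (hgc s h4 h2) (by rw [mem_sphere]; linarith)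
    refine DifferentiableAt.differentiableWithinAt (h5.congr_of_eventuallyEq ?_)
    have h6 : ∀ᶠ z in 𝓝 z₀, dist z c < s := by
      have : ContinuousAt (fun z : ℂ => dist z c) z₀ := by fun_prop
      exact this.eventually_lt_const h3
    filter_upwards [h6] with z hz
    have h7 : max (dist z c) r < ρ := max_lt (hz.trans h2) hrρ
    have h8 := le_max_left (dist z c) r
    have h9 := le_max_right (dist z c) r
    exact hind2 _ _ z (by linarith) (by linarith) h4 h2 (by linarith) hz
  · intro z₀ hz₀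
    have hz₀' : r < dist z₀ c := hz₀
    have hm : r < min (dist z₀ c) ρ := lt_min hz₀' hrρ
    set s := (r + min (dist z₀ c) ρ) / 2 with hs
    have h1 : s < min (dist z₀ c) ρ := by rw [hs]; linarith
    have h2 : r < s := by rw [hs]; linarith
    have h3 : s < dist z₀ c := h1.trans_le (min_le_left _ _)
    have h4 : s < ρ := h1.trans_le (min_le_right _ _)
    have h5 : DifferentiableAt ℂ (fun z => -c5aI g c s z) z₀ :=
      (c5a_diff (hr.trans h2) (hgc s h2 h4) (by rw [mem_sphere]; linarith)).neg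
    refine DifferentiableAt.differentiableWithinAt (h5.congr_of_eventuallyEq ?_)
    have h6 : ∀ᶠ z in 𝓝 z₀, s < dist z c := by
      have : ContinuousAt (fun z : ℂ => dist z c) z₀ := by fun_prop
      exact this.eventually_const_lt h3
    filter_upwards [h6] with z hz
    have h7 : r < min (dist z c) ρ := lt_min (h2.trans hz) hrρ
    have h8 := min_le_left (dist z c) ρ
    have h9 := min_le_right (dist z c) ρ
    rw [hind1 _ _ z (by linarith) (by linarith) h2 h4 (by linarith) hz]
  · have h0 : ((r + ρ) / 2) < ρ := by linarith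
    have h0' : r < (r + ρ) / 2 := by linarith
    have h1 : Tendsto (fun z => -c5aI g c ((r + ρ) / 2) z) (cocompact ℂ) (𝓝 0) := by
      simpa using (c5a_tendsto (by linarith) (hgc ((r + ρ) / 2) h0' h0)).neg
    refine h1.congr' ?_
    have h2 : Tendsto (fun z : ℂ => dist z c) (cocompact ℂ) atTop :=
      (tendsto_dist_left_cocompact_atTop (α := ℂ) c).congr fun z => dist_comm c z
    filter_upwards [h2.eventually_ge_atTop ρ] with z hz
    rw [min_eq_right hz]
  · intro z hz1 hz2
    have hm1 : max (dist z c) r = dist z c := max_eq_left hz1.le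
    have hm2 : min (dist z c) ρ = dist z c := min_eq_left hz2.le
    simp only [hm1, hm2]
    have := c5a_formula (g := g) (c := c) (s := (r + dist z c) / 2) (s' := (dist z c + ρ) / 2)
      (by linarith) (fun ζ hζ => ?_) (z := z) (by linarith) (by linarith)
    · rw [this]; ring
    · have h7 := mem_closedBall.1 hζ.1
      have h8 : (r + dist z c) / 2 ≤ dist ζ c := not_lt.1 fun h => hζ.2 (mem_ball.2 h)
      exact hg ζ (by linarith) (by linarith)

/-- one hole in an arbitrary open set -/
theorem c5a_hole {V : Set ℂ} (hV : IsOpen V) {g : ℂ → ℂ} {c : ℂ} {r : ℝ} (hr : 0 < r)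
    (hcV : closedBall c r ⊆ V) (hg : DifferentiableOn ℂ g (V \ closedBall c r)) :
    ∃ h f : ℂ → ℂ, DifferentiableOn ℂ h V ∧ DifferentiableOn ℂ f {z | r < dist z c} ∧
      Tendsto f (cocompact ℂ) (𝓝 0) ∧ ∀ z ∈ V \ closedBall c r, g z = h z + f z := by
  classical
  have hVo : IsOpen (V \ closedBall c r) := hV.sdiff isClosed_closedBall
  obtain ⟨δ, hδ, hδV⟩ := (isCompact_closedBall c r).exists_thickening_subset_open hV hcV
  have hball : ball c (r + δ) ⊆ V := by
    refine subset_trans ?_ hδV
    rw [thickening_closedBall hδ hr.le, add_comm]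
  obtain ⟨h₁, f, hh, hf, hf0, hgf⟩ := c5a_annulus (g := g) (c := c) (r := r) (ρ := r + δ) hr
    (by linarith) (fun ζ h1 h2 => (hg ζ ⟨hball (mem_ball.2 h2), fun h => by
      rw [mem_closedBall] at h; linarith⟩).differentiableAt
      (hVo.mem_nhds ⟨hball (mem_ball.2 h2), fun h => by rw [mem_closedBall] at h; linarith⟩))
  refine ⟨fun z => if z ∈ ball c (r + δ) then h₁ z else g z - f z, f, ?_, hf, hf0, ?_⟩
  · intro z₀ hz₀
    refine DifferentiableAt.differentiableWithinAt ?_
    by_cases hb : z₀ ∈ ball c (r + δ)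
    · refine ((hh z₀ hb).differentiableAt (isOpen_ball.mem_nhds hb)).congr_of_eventuallyEq ?_
      filter_upwards [isOpen_ball.mem_nhds hb] with z hz
      rw [if_pos hz]
    · have hz₀c : z₀ ∈ V \ closedBall c r := by
        refine ⟨hz₀, fun h => hb ?_⟩
        rw [mem_closedBall] at h
        rw [mem_ball]
        linarith
      have hz₀d : r < dist z₀ c := not_le.1 fun h => hz₀c.2 (mem_closedBall.2 h)
      have ho : IsOpen {z : ℂ | r < dist z c} := isOpen_lt continuous_const (by fun_prop)
      have h1 : DifferentiableAt ℂ (fun z => g z - f z) z₀ :=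
        ((hg z₀ hz₀c).differentiableAt (hVo.mem_nhds hz₀c)).sub
          ((hf z₀ hz₀d).differentiableAt (ho.mem_nhds hz₀d))
      refine h1.congr_of_eventuallyEq ?_
      filter_upwards [ho.mem_nhds hz₀d] with z hz
      split_ifs with hzb
      · rw [hgf z hz (mem_ball.1 hzb)]; ring
      · rfl
  · intro z hz
    have hzd : r < dist z c := not_le.1 fun h => hz.2 (mem_closedBall.2 h)
    simp only []
    split_ifs with hzb
    · exact hgf z hzd (mem_ball.1 hzb)
    · ring

section
variable {k : ℕ} (D : CD k) {τ : ℝ}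

/-- splitting into a function holomorphic in the full disc and functions holomorphic outside one
hole, vanishing at infinity -/
theorem laurent_split {g : ℂ → ℂ} (hg : DifferentiableOn ℂ g D.U) :
    ∃ (g₀ : ℂ → ℂ) (gj : Fin k → ℂ → ℂ), DifferentiableOn ℂ g₀ (ball 0 D.R) ∧
      (∀ j, DifferentiableOn ℂ (gj j) {z | D.r j < ‖z - D.a j‖}) ∧
      (∀ j, Tendsto (gj j) (cocompact ℂ) (𝓝 0)) ∧ ∀ z ∈ D.U, g z = g₀ z + ∑ j, gj j z := by
  classical
  have key : ∀ S : Finset (Fin k), ∃ (g₀ : ℂ → ℂ) (gj : Fin k → ℂ → ℂ),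
      DifferentiableOn ℂ g₀ {z | ‖z‖ < D.R ∧ ∀ j, j ∉ S → D.r j < ‖z - D.a j‖} ∧
      (∀ j, DifferentiableOn ℂ (gj j) {z | D.r j < ‖z - D.a j‖}) ∧
      (∀ j, Tendsto (gj j) (cocompact ℂ) (𝓝 0)) ∧
      ∀ z ∈ D.U, g z = g₀ z + ∑ j ∈ S, gj j z := by
    intro S
    induction S using Finset.induction_on with
    | empty =>
      refine ⟨g, fun _ _ => 0, ?_, fun _ => differentiableOn_const _, fun _ => tendsto_const_nhds,
        fun z _ => by simp⟩
      refine hg.mono fun z hz => ⟨hz.1, fun j => hz.2 j (by simp)⟩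
    | insert i S hi ih =>
      obtain ⟨g₀, gj, h1, h2, h3, h4⟩ := ih
      set V : Set ℂ := {z | ‖z‖ < D.R ∧ ∀ j, j ∉ insert i S → D.r j < ‖z - D.a j‖} with hVdef
      have hV : IsOpen V := by
        have : V = {z | ‖z‖ < D.R} ∩ ⋂ j : Fin k, {z | j ∉ insert i S → D.r j < ‖z - D.a j‖} := by
          ext z; simp [hVdef]
        rw [this]
        refine (isOpen_lt continuous_norm continuous_const).inter
          (isOpen_iInter_of_finite fun j => ?_)
        by_cases hj : j ∈ insert i S
        · have : {z : ℂ | j ∉ insert i S → D.r j < ‖z - D.a j‖} = univ := by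
            ext z; simp only [Set.mem_ofPred_eq, mem_univ, iff_true]
            intro h; exact absurd hj h
          rw [this]; exact isOpen_univ
        · have : {z : ℂ | j ∉ insert i S → D.r j < ‖z - D.a j‖} = {z | D.r j < ‖z - D.a j‖} := by
            ext z; simp only [Set.mem_ofPred_eq]
            exact ⟨fun h => h hj, fun h _ => h⟩
          rw [this]; exact isOpen_lt continuous_const (by fun_prop)
      have hcV : closedBall (D.a i) (D.r i) ⊆ V := by
        intro z hz
        rw [mem_closedBall, dist_eq_norm] at hz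
        refine ⟨?_, fun j hj => ?_⟩
        · have := D.inside i
          calc ‖z‖ = ‖(z - D.a i) + D.a i‖ := by ring_nf
            _ ≤ ‖z - D.a i‖ + ‖D.a i‖ := norm_add_le _ _
            _ < D.R := by linarith
        · have hij : i ≠ j := fun h => hj (h ▸ Finset.mem_insert_self i S)
          have h5 := D.disj i j hij
          have h6 : ‖D.a i - D.a j‖ ≤ ‖z - D.a j‖ + ‖z - D.a i‖ := by
            calc ‖D.a i - D.a j‖ = ‖(z - D.a j) - (z - D.a i)‖ := by ring_nf
              _ ≤ _ := norm_sub_le _ _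
          linarith
      have hsub : V \ closedBall (D.a i) (D.r i) ⊆
          {z | ‖z‖ < D.R ∧ ∀ j, j ∉ S → D.r j < ‖z - D.a j‖} := by
        intro z hz
        refine ⟨hz.1.1, fun j hj => ?_⟩
        by_cases hji : j = i
        · subst hji
          by_contra hcon
          exact hz.2 (by rw [mem_closedBall, dist_eq_norm]; exact not_lt.1 hcon)
        · exact hz.1.2 j (by simp [hji, hj])
      obtain ⟨h, f, hh, hf, hf0, hgf⟩ := c5a_hole hV (D.rpos i) hcV (h1.mono hsub)
      refine ⟨h, Function.update gj i f, hh, ?_, ?_, ?_⟩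
      · intro j
        by_cases hji : j = i
        · subst hji
          rw [Function.update_self]
          simpa only [dist_eq_norm] using hf
        · rw [Function.update_of_ne hji]
          exact h2 j
      · intro j
        by_cases hji : j = i
        · subst hji
          rw [Function.update_self]
          exact hf0
        · rw [Function.update_of_ne hji]
          exact h3 j
      · intro z hz
        have hz' : z ∈ V \ closedBall (D.a i) (D.r i) := by
          refine ⟨⟨hz.1, fun j _ => hz.2 j⟩, fun h => ?_⟩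
          rw [mem_closedBall, dist_eq_norm] at h
          exact absurd (hz.2 i) (not_lt.2 h)
        rw [Finset.sum_insert hi, Function.update_self, h4 z hz, hgf z hz']
        have : ∑ j ∈ S, Function.update gj i f j z = ∑ j ∈ S, gj j z :=
          Finset.sum_congr rfl fun j hj => by
            have hji : j ≠ i := by rintro rfl; exact hi hj
            rw [Function.update_of_ne hji]
        rw [this]
        ring
  obtain ⟨g₀, gj, h1, h2, h3, h4⟩ := key Finset.univ
  refine ⟨g₀, gj, ?_, h2, h3, h4⟩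
  refine h1.mono fun z hz => ?_
  rw [mem_ball_zero_iff] at hz
  exact ⟨hz, fun j hj => absurd (Finset.mem_univ j) hj⟩

end

end Pool.Agent.Helper7.KE
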