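import Pool.Agent.Helper7.KE.Defs

/-!
# Auxiliary lemmas for KE-C5b: polar coordinates and circle integrals (helper64)
-/

set_option autoImplicit false

open MeasureTheory Set Filter Asymptotics Topology Metric
open scoped ComplexConjugate ENNReal

namespace Pool.Agent.Helper7.KE.C5baux

theorem dzb_radial {φ : ℝ → ℝ} {c z : ℂ} (hφ : DifferentiableAt ℝ φ ‖z - c‖) (hz : z ≠ c) :
    dzb (fun w => (φ ‖w - c‖ : ℂ)) z = ((deriv φ ‖z - c‖ : ℝ) : ℂ) * ((z - c) / (2 * ‖z - c‖)) := by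
  have hρ : ‖z - c‖ ≠ 0 := by simpa [sub_eq_zero] using hz
  have h1 : HasFDerivAt (fun w : ℂ => ‖w - c‖ ^ 2) (2 • (innerSL ℝ (z - c))) z := by
    have := (hasFDerivAt_id z).sub_const c |>.norm_sq
    simpa using this
  have h2 := h1.sqrt (by positivity)
  have h3 : HasFDerivAt (fun w : ℂ => ‖w - c‖) ((1 / (2 * ‖z - c‖)) • (2 • (innerSL ℝ (z - c)))) z := by
    have : (fun w : ℂ => ‖w - c‖) = fun w : ℂ => Real.sqrt (‖w - c‖ ^ 2) := by
      ext w; rw [Real.sqrt_sq (norm_nonneg _)]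
    rw [this]
    rw [Real.sqrt_sq (norm_nonneg _)] at h2
    exact h2
  have h4 := hφ.hasDerivAt.comp_hasFDerivAt z h3
  have h5 := Complex.ofRealCLM.hasFDerivAt.comp z h4
  have h6 : HasFDerivAt (fun w => (φ ‖w - c‖ : ℂ)) _ z := h5
  rw [dzb, h6.fderiv]
  have e1 : inner ℝ (z - c) 1 = (z - c).re := by simp [Complex.inner]
  have e2 : inner ℝ (z - c) Complex.I = (z - c).im := by simp [Complex.inner]; ring
  simp only [ContinuousLinearMap.comp_apply, _root_.smul_apply, innerSL_apply_apply,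
    Complex.ofRealCLM_apply, smul_eq_mul, nsmul_eq_mul, e1, e2]
  have e3 : (z - c) = ((z - c).re : ℂ) + ((z - c).im : ℂ) * Complex.I := (Complex.re_add_im _).symm
  have hρ' : (‖z - c‖ : ℂ) ≠ 0 := by exact_mod_cast hρ
  rw [show (z - c) / (2 * (‖z - c‖ : ℂ)) =
    (((z - c).re : ℂ) + ((z - c).im : ℂ) * Complex.I) / (2 * (‖z - c‖ : ℂ)) by rw [← e3]]
  push_cast
  field_simp
  try ring

theorem circ_shift {c : ℂ} {f : ℂ → ℂ} {ρ₁ ρ₂ : ℝ} (h0 : 0 ≤ ρ₁)
    (hf : DifferentiableOn ℂ f {z | ρ₁ < ‖z - c‖ ∧ ‖z - c‖ < ρ₂}) {s s' : ℝ}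
    (hs : ρ₁ < s ∧ s < ρ₂) (hs' : ρ₁ < s' ∧ s' < ρ₂) :
    (∮ z in C(c, s), f z) = ∮ z in C(c, s'), f z := by
  wlog hle : s ≤ s' generalizing s s'
  · exact (this hs' hs (le_of_not_ge hle)).symm
  symm
  have hop : IsOpen {z : ℂ | ρ₁ < ‖z - c‖ ∧ ‖z - c‖ < ρ₂} := by
    have h1 : IsOpen {z : ℂ | ρ₁ < ‖z - c‖} := isOpen_lt continuous_const (by fun_prop)
    have h2 : IsOpen {z : ℂ | ‖z - c‖ < ρ₂} := isOpen_lt (by fun_prop) continuous_const
    exact h1.inter h2
  refine Complex.circleIntegral_eq_of_differentiable_on_annulus_off_countable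
    (h0.trans_lt hs.1) hle countable_empty ?_ ?_
  · refine hf.continuousOn.mono ?_
    rintro z ⟨h1, h2⟩
    rw [mem_closedBall, dist_eq_norm] at h1
    rw [mem_ball, dist_eq_norm, not_lt] at h2
    exact ⟨by linarith [hs.1], by linarith [hs'.2]⟩
  · rintro z ⟨⟨h1, h2⟩, -⟩
    rw [mem_ball, dist_eq_norm] at h1
    rw [mem_closedBall, dist_eq_norm, not_le] at h2
    exact hf.differentiableAt (hop.mem_nhds ⟨by linarith [hs.1], by linarith [hs'.2]⟩)

theorem circ_eq (c : ℂ) (ρ : ℝ) (g : ℂ → ℂ) :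
    (∮ z in C(c, ρ), g z) = Complex.I * ∫ θ in (-Real.pi)..Real.pi,
      g (c + ρ * Complex.exp (θ * Complex.I)) * (ρ * Complex.exp (θ * Complex.I)) := by
  have hp : Function.Periodic (fun θ : ℝ => g (c + ρ * Complex.exp (θ * Complex.I)) *
      (ρ * Complex.exp (θ * Complex.I))) (2 * Real.pi) := by
    intro θ
    have : Complex.exp (((θ + 2 * Real.pi : ℝ) : ℂ) * Complex.I) =
        Complex.exp (θ * Complex.I) := by
      push_cast
      rw [add_mul, Complex.exp_add, Complex.exp_two_pi_mul_I, mul_one]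
    simp only [this]
  have h1 := hp.intervalIntegral_add_eq (-Real.pi) 0
  rw [zero_add, show -Real.pi + 2 * Real.pi = Real.pi by ring] at h1
  rw [h1, circleIntegral, ← intervalIntegral.integral_const_mul]
  refine intervalIntegral.integral_congr fun θ _ => ?_
  simp only [deriv_circleMap, circleMap, smul_eq_mul, zero_add]
  ring

theorem polar_int {c : ℂ} {φ : ℝ → ℝ} (hφ : ContDiff ℝ 1 φ) {ρ₁ s₁ s₂ ρ₂ : ℝ} (h0 : 0 ≤ ρ₁)
    (h1 : ρ₁ < s₁) (h12 : s₁ ≤ s₂) (h2 : s₂ < ρ₂)
    (hd : ∀ x, x ≤ s₁ ∨ s₂ ≤ x → deriv φ x = 0) {g : ℂ → ℂ}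
    (hg : DifferentiableOn ℂ g {z | ρ₁ < ‖z - c‖ ∧ ‖z - c‖ < ρ₂}) {U : Set ℂ}
    (hU : MeasurableSet U) (hsub : {z | ρ₁ < ‖z - c‖ ∧ ‖z - c‖ < ρ₂} ⊆ U) {s : ℝ}
    (hs : ρ₁ < s ∧ s < ρ₂) :
    ∫ z in U, g z * dzb (fun w => (φ ‖w - c‖ : ℂ)) z =
      ((φ s₂ - φ s₁ : ℝ) : ℂ) * ((2 * Complex.I)⁻¹ * ∮ z in C(c, s), g z) := by
  classical
  set K : ℂ := (2 * Complex.I)⁻¹ * ∮ z in C(c, s), g z with hK
  set G : ℂ → ℂ := fun z => if s₁ < ‖z - c‖ ∧ ‖z - c‖ < s₂ then
    g z * (((deriv φ ‖z - c‖ : ℝ) : ℂ) * ((z - c) / (2 * ‖z - c‖))) else 0 with hG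
  set H : ℝ × ℝ → ℂ := fun p => ((deriv φ p.1 : ℝ) : ℂ) * ((1 / 2 : ℂ) *
    (g (c + p.1 * Complex.exp (p.2 * Complex.I)) * (p.1 * Complex.exp (p.2 * Complex.I)))) with hH
  have step1 : ∫ z in U, g z * dzb (fun w => (φ ‖w - c‖ : ℂ)) z = ∫ z, G z := by
    rw [← integral_indicator hU]
    refine integral_congr_ae ?_
    filter_upwards [compl_mem_ae_iff.2 (measure_singleton c)] with z hz
    have hz' : z ≠ c := hz
    rw [hG]
    by_cases hc : s₁ < ‖z - c‖ ∧ ‖z - c‖ < s₂
    · have hzU : z ∈ U := hsub ⟨by linarith [hc.1], by linarith [hc.2]⟩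
      rw [indicator_of_mem hzU]
      simp only [hc, and_self, if_true]
      rw [dzb_radial (hφ.differentiable one_ne_zero _) hz']
    · simp only [hc, if_false]
      by_cases hzU : z ∈ U
      · rw [indicator_of_mem hzU, dzb_radial (hφ.differentiable one_ne_zero _) hz', hd _ ?_]
        · simp
        · by_cases h : s₁ < ‖z - c‖
          · right
            by_contra h'
            exact hc ⟨h, not_le.1 h'⟩
          · left; exact not_lt.1 h
      · rw [indicator_of_notMem hzU]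
  have step2 : ∫ z, G z = ∫ p in Ioo s₁ s₂ ×ˢ Ioo (-Real.pi) Real.pi, H p := by
    rw [← integral_add_left_eq_self G c, ← Complex.integral_comp_polarCoord_symm,
      polarCoord_target]
    have hset := setIntegral_eq_of_subset_of_forall_sdiff_eq_zero (μ := (volume : Measure (ℝ × ℝ)))
      (s := Ioo s₁ s₂ ×ˢ Ioo (-Real.pi) Real.pi) (t := Ioi (0 : ℝ) ×ˢ Ioo (-Real.pi) Real.pi)
      (f := fun p : ℝ × ℝ => p.1 • G (c + Complex.polarCoord.symm p)) ?_ ?_ ?_
    · rw [hset]
      refine setIntegral_congr_fun (measurableSet_Ioo.prod measurableSet_Ioo) fun p hp => ?_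
      have hp1 := hp.1
      have hpos : 0 < p.1 := lt_trans (h0.trans_lt h1) hp1.1
      have hsymm : Complex.polarCoord.symm p = p.1 * Complex.exp (p.2 * Complex.I) := by
        rw [Complex.polarCoord_symm_apply, Complex.exp_mul_I, Complex.ofReal_cos,
          Complex.ofReal_sin]
      have hn : ‖c + Complex.polarCoord.symm p - c‖ = p.1 := by
        rw [add_sub_cancel_left, hsymm, norm_mul, Complex.norm_exp_ofReal_mul_I, mul_one,
          Complex.norm_real, Real.norm_of_nonneg hpos.le]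
      have hpc : (p.1 : ℂ) ≠ 0 := by exact_mod_cast hpos.ne'
      have hGv : G (c + Complex.polarCoord.symm p) = g (c + Complex.polarCoord.symm p) *
          (((deriv φ p.1 : ℝ) : ℂ) * ((c + Complex.polarCoord.symm p - c) / (2 * p.1))) := by
        simp only [hG, hn, hp1.1, hp1.2, and_self, if_true]
      rw [hGv, add_sub_cancel_left, hsymm, Complex.real_smul]
      simp only [hH]
      field_simp
    · exact measurableSet_Ioi.prod measurableSet_Ioo
    · exact prod_mono (fun x hx => (h0.trans_lt h1).trans hx.1) le_rfl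
    · rintro p ⟨hp, hp'⟩
      have hpos : 0 < p.1 := hp.1
      have hsymm : Complex.polarCoord.symm p = p.1 * Complex.exp (p.2 * Complex.I) := by
        rw [Complex.polarCoord_symm_apply, Complex.exp_mul_I, Complex.ofReal_cos,
          Complex.ofReal_sin]
      have hn : ‖c + Complex.polarCoord.symm p - c‖ = p.1 := by
        rw [add_sub_cancel_left, hsymm, norm_mul, Complex.norm_exp_ofReal_mul_I, mul_one,
          Complex.norm_real, Real.norm_of_nonneg hpos.le]
      have : ¬ (s₁ < p.1 ∧ p.1 < s₂) := fun h => hp' ⟨h, hp.2⟩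
      simp only [hG, hn, this, if_false, smul_zero]
  have hcont : ContinuousOn H (Icc s₁ s₂ ×ˢ Icc (-Real.pi) Real.pi) := by
    have hgc : ContinuousOn (fun p : ℝ × ℝ => g (c + p.1 * Complex.exp (p.2 * Complex.I)))
        (Icc s₁ s₂ ×ˢ Icc (-Real.pi) Real.pi) := by
      refine hg.continuousOn.comp (by fun_prop) ?_
      rintro p ⟨hp, -⟩
      have hpos : 0 < p.1 := lt_of_lt_of_le (h0.trans_lt h1) hp.1
      have hn : ‖c + p.1 * Complex.exp (p.2 * Complex.I) - c‖ = p.1 := by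
        rw [add_sub_cancel_left, norm_mul, Complex.norm_exp_ofReal_mul_I, mul_one,
          Complex.norm_real, Real.norm_of_nonneg hpos.le]
      show ρ₁ < ‖_‖ ∧ ‖_‖ < ρ₂
      rw [hn]
      exact ⟨lt_of_lt_of_le h1 hp.1, lt_of_le_of_lt hp.2 h2⟩
    have hdc : Continuous (fun p : ℝ × ℝ => ((deriv φ p.1 : ℝ) : ℂ)) :=
      Complex.continuous_ofReal.comp ((hφ.continuous_deriv le_rfl).comp continuous_fst)
    exact hdc.continuousOn.mul (continuousOn_const.mul (hgc.mul (by fun_prop)))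
  have hint : IntegrableOn H (Ioo s₁ s₂ ×ˢ Ioo (-Real.pi) Real.pi) (volume.prod volume) := by
    have : IntegrableOn H (Icc s₁ s₂ ×ˢ Icc (-Real.pi) Real.pi) (volume.prod volume) :=
      hcont.integrableOn_compact (isCompact_Icc.prod isCompact_Icc)
    exact this.mono_set (prod_mono Ioo_subset_Icc_self Ioo_subset_Icc_self)
  have step3 : ∫ p in Ioo s₁ s₂ ×ˢ Ioo (-Real.pi) Real.pi, H p =
      ∫ ρ in Ioo s₁ s₂, ((deriv φ ρ : ℝ) : ℂ) * K := by
    rw [Measure.volume_eq_prod, setIntegral_prod _ hint]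
    refine setIntegral_congr_fun measurableSet_Ioo fun ρ hρ => ?_
    simp only [hH]
    rw [integral_const_mul, integral_const_mul, ← integral_Ioc_eq_integral_Ioo,
      ← intervalIntegral.integral_of_le (by linarith [Real.pi_pos])]
    have h3 : (∮ z in C(c, s), g z) = ∮ z in C(c, ρ), g z :=
      circ_shift h0 hg hs ⟨by linarith [hρ.1], by linarith [hρ.2]⟩
    rw [hK, h3, circ_eq]
    have hI : (2 * Complex.I)⁻¹ * Complex.I = 1 / 2 := by
      rw [mul_inv, mul_assoc, inv_mul_cancel₀ Complex.I_ne_zero]; norm_num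
    rw [← mul_assoc _ Complex.I, hI]
  rw [step1, step2, step3, integral_mul_const]
  congr 1
  rw [integral_complex_ofReal]
  congr 1
  rw [← integral_Ioc_eq_integral_Ioo, ← intervalIntegral.integral_of_le h12]
  exact intervalIntegral.integral_deriv_eq_sub (fun x _ => hφ.differentiable one_ne_zero x)
    ((hφ.continuous_deriv le_rfl).intervalIntegrable _ _)

theorem deriv_zero_of_extr {φ : ℝ → ℝ} (h : ∀ x, 0 ≤ φ x ∧ φ x ≤ 1) {x : ℝ}
    (hx : φ x = 0 ∨ φ x = 1) : deriv φ x = 0 := by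
  rcases hx with hx | hx
  · refine IsLocalMin.deriv_eq_zero (Eventually.of_forall fun y => ?_)
    rw [hx]; exact (h y).1
  · refine IsLocalMax.deriv_eq_zero (Eventually.of_forall fun y => ?_)
    rw [hx]; exact (h y).2

/-- monomials -/
theorem circ_monomial {c : ℂ} {s : ℝ} (hs : 0 < s) {ρ : ℂ} {f : ℂ → ℂ} {m : ℤ}
    (hf : ∀ z, z ≠ c → f z = ρ ^ (-m - 1) * (z - c) ^ m) :
    (2 * Real.pi * Complex.I)⁻¹ * (∮ z in C(c, s), f z) = if m = -1 then 1 else 0 := by
  have h1 : (∮ z in C(c, s), f z) = ∮ z in C(c, s), ρ ^ (-m - 1) * (z - c) ^ m := by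
    refine circleIntegral.integral_congr hs.le fun z hz => hf z ?_
    rintro rfl
    simp [hs.ne] at hz
  rw [h1, circleIntegral.integral_const_mul]
  split_ifs with h
  · subst h
    have : (∮ z in C(c, s), (z - c) ^ (-1 : ℤ)) = 2 * Real.pi * Complex.I := by
      rw [← circleIntegral.integral_sub_center_inv c hs.ne']
      simp only [zpow_neg_one]
    rw [this]
    have h2 : (2 * Real.pi * Complex.I : ℂ) ≠ 0 := Complex.two_pi_I_ne_zero
    rw [show (-(-1 : ℤ) - 1) = 0 by norm_num, zpow_zero, one_mul, inv_mul_cancel₀ h2]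
  · rw [circleIntegral.integral_sub_zpow_of_ne h, mul_zero, mul_zero]

/-- functions holomorphic outside a disc, vanishing at infinity, have no nonnegative coefficients -/
theorem circ_outer {a : ℂ} {r R : ℝ} (hR : 0 < R) (hr : 0 ≤ r) {f : ℂ → ℂ}
    (hf : DifferentiableOn ℂ f {z | r < ‖z - a‖}) (h0 : Tendsto f (cocompact ℂ) (𝓝 0)) {s : ℝ}
    (hs : ‖a‖ + r < s) (n : ℕ) : (∮ z in C(0, s), f z * ((R : ℂ) / z) ^ (n + 1)) = 0 := by
  have hspos : 0 < s := lt_of_le_of_lt (by positivity) hs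
  rw [← norm_eq_zero]
  refine le_antisymm (le_of_forall_pos_le_add fun ε hε => ?_) (norm_nonneg _)
  rw [zero_add]
  have hε' : 0 < ε / (2 * Real.pi * R) := by positivity
  have h1 : ∀ᶠ z in cocompact ℂ, ‖f z‖ < ε / (2 * Real.pi * R) := by
    have := h0.norm
    rw [norm_zero] at this
    exact this.eventually (gt_mem_nhds hε')
  rw [← Metric.cobounded_eq_cocompact, ← comap_norm_atTop, eventually_comap] at h1
  obtain ⟨A, hA⟩ := eventually_atTop.1 h1
  set s' := max (max s R) A with hs'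
  have hs's : s ≤ s' := (le_max_left _ _).trans (le_max_left _ _)
  have hs'R : R ≤ s' := (le_max_right _ _).trans (le_max_left _ _)
  have hs'A : A ≤ s' := le_max_right _ _
  have hdiff : DifferentiableOn ℂ (fun z => f z * ((R : ℂ) / z) ^ (n + 1))
      {z | ‖a‖ + r < ‖z - 0‖ ∧ ‖z - 0‖ < s' + 1} := by
    refine DifferentiableOn.mul (hf.mono ?_) ?_
    · rintro z ⟨hz, -⟩
      rw [sub_zero] at hz
      have := norm_sub_norm_le z a
      show r < ‖z - a‖
      linarith
    · intro z hz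
      have hz0 : z ≠ 0 := by
        rintro rfl
        have := hz.1
        simp only [sub_zero, norm_zero] at this
        linarith [norm_nonneg a]
      exact ((differentiableAt_const _).div differentiableAt_id hz0).pow _ |>.differentiableWithinAt
  rw [circ_shift (by positivity) hdiff (s' := s') ⟨hs, by linarith⟩ ⟨by linarith, by linarith⟩]
  have hs'pos : 0 < s' := by linarith
  refine (circleIntegral.norm_integral_le_of_norm_le_const hs'pos.le
    (C := ε / (2 * Real.pi * R) * (R / s')) fun z hz => ?_).trans ?_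
  · rw [mem_sphere_zero_iff_norm] at hz
    rw [norm_mul, norm_pow, norm_div, Complex.norm_real, Real.norm_of_nonneg hR.le, hz]
    refine mul_le_mul (hA s' hs'A z hz).le ?_ (by positivity) hε'.le
    have h1 : R / s' ≤ 1 := (div_le_one hs'pos).2 hs'R
    have h2 : 0 ≤ R / s' := by positivity
    calc (R / s') ^ (n + 1) ≤ (R / s') ^ 1 := pow_le_pow_of_le_one h2 h1 (by omega)
      _ = R / s' := pow_one _
  · apply le_of_eq
    field_simp

theorem hasSum_of_eq {f f' : ℕ → ℂ} {x : ℂ} (h : HasSum f x) (e : ∀ n, f' n = f n) :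
    HasSum f' x := by
  rw [show f' = f from funext e]; exact h

/-- Taylor expansion with coefficients as circle integrals -/
theorem taylor {c : ℂ} {R : ℝ} {g : ℂ → ℂ} (hg : DifferentiableOn ℂ g (ball c R)) {s : ℝ}
    (hs : 0 < s) (hsR : s < R) {z : ℂ} (hz : z ∈ ball c R) :
    HasSum (fun n : ℕ => ((2 * Real.pi * Complex.I)⁻¹ *
      ∮ w in C(c, s), (1 / (w - c) ^ (n + 1)) * g w) * (z - c) ^ n) (g z) := by
  have h1 := Complex.hasSum_taylorSeries_on_ball hg hz
  refine hasSum_of_eq h1 fun n => ?_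
  have h2 := DifferentiableOn.circleIntegral_one_div_sub_center_pow_smul hs n
    (hg.mono (closedBall_subset_ball hsR))
  simp only [smul_eq_mul] at h2 ⊢
  rw [h2]
  have h3 : (2 * Real.pi * Complex.I : ℂ) ≠ 0 := Complex.two_pi_I_ne_zero
  have h4 : (n.factorial : ℂ) ≠ 0 := by exact_mod_cast n.factorial_ne_zero
  field_simp

/-- inversion of circle integrals -/
theorem circ_inv (a : ℂ) {s : ℝ} (hs : 0 < s) (g : ℂ → ℂ) (n : ℕ) :
    (∮ w in C(0, s⁻¹), (1 / w ^ (n + 2)) * g (a + w⁻¹)) = ∮ z in C(a, s), g z * (z - a) ^ n := by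
  rw [circ_eq, circ_eq]
  congr 1
  have hn := intervalIntegral.integral_comp_neg (a := -Real.pi) (b := Real.pi)
    (fun θ : ℝ => 1 / (0 + ((s⁻¹ : ℝ) : ℂ) * Complex.exp (θ * Complex.I)) ^ (n + 2) *
      g (a + (0 + ((s⁻¹ : ℝ) : ℂ) * Complex.exp (θ * Complex.I))⁻¹) *
        (((s⁻¹ : ℝ) : ℂ) * Complex.exp (θ * Complex.I)))
  rw [neg_neg] at hn
  rw [← hn]
  refine intervalIntegral.integral_congr fun θ _ => ?_
  have hsc : (s : ℂ) ≠ 0 := by exact_mod_cast hs.ne'
  have he : Complex.exp (θ * Complex.I) ≠ 0 := Complex.exp_ne_zero _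
  have he2 : Complex.exp (((-θ : ℝ) : ℂ) * Complex.I) = (Complex.exp (θ * Complex.I))⁻¹ := by
    rw [← Complex.exp_neg]; push_cast; ring_nf
  simp only [he2, zero_add, add_sub_cancel_left]
  push_cast
  rw [← mul_inv, inv_inv]
  have hse : (s : ℂ) * Complex.exp (θ * Complex.I) ≠ 0 := mul_ne_zero hsc he
  set u : ℂ := (s : ℂ) * Complex.exp (θ * Complex.I) with hu
  have e1 : 1 / (u⁻¹) ^ (n + 2) * u⁻¹ = u ^ n * u := by
    rw [inv_pow, one_div, inv_inv, pow_add, pow_two]
    field_simp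
  calc 1 / (u⁻¹) ^ (n + 2) * g (a + u) * u⁻¹ = g (a + u) * (1 / (u⁻¹) ^ (n + 2) * u⁻¹) := by ring
    _ = g (a + u) * u ^ n * u := by rw [e1]; ring

/-- expansion of a function holomorphic outside a disc, vanishing at infinity -/
theorem laurent_outer {a : ℂ} {r : ℝ} (hr : 0 < r) {g : ℂ → ℂ}
    (hg : DifferentiableOn ℂ g {z | r < ‖z - a‖}) (h0 : Tendsto g (cocompact ℂ) (𝓝 0)) {s : ℝ}
    (hs : r < s) {z : ℂ} (hz : r < ‖z - a‖) :
    HasSum (fun n : ℕ => ((2 * Real.pi * Complex.I)⁻¹ *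
      ∮ w in C(a, s), g w * (w - a) ^ n) * ((z - a)⁻¹) ^ (n + 1)) (g z) := by
  classical
  set h : ℂ → ℂ := Function.update (fun w => g (a + w⁻¹)) 0 0 with hh
  have hne : ∀ w, w ≠ 0 → h w = g (a + w⁻¹) := fun w hw => by
    rw [hh, Function.update_of_ne hw]
  have hh0 : h 0 = 0 := by rw [hh, Function.update_self]
  have hdiff : DifferentiableOn ℂ h (ball 0 r⁻¹) := by
    rw [← Complex.differentiableOn_compl_singleton_and_continuousAt_iff
      (ball_mem_nhds 0 (inv_pos.2 hr))]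
    constructor
    · intro w hw
      have hw0 : w ≠ 0 := hw.2
      have hwb : ‖w‖ < r⁻¹ := by simpa using hw.1
      have hmem : r < ‖(a + w⁻¹) - a‖ := by
        rw [add_sub_cancel_left, norm_inv]
        exact (lt_inv_comm₀ hr (norm_pos_iff.2 hw0)).2 hwb
      have hop : IsOpen {z : ℂ | r < ‖z - a‖} := isOpen_lt continuous_const (by fun_prop)
      have h1 : DifferentiableAt ℂ g (a + w⁻¹) := hg.differentiableAt (hop.mem_nhds hmem)
      have h2 : DifferentiableAt ℂ (fun w => g (a + w⁻¹)) w :=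
        DifferentiableAt.comp (f := fun w : ℂ => a + w⁻¹) w h1
          ((differentiableAt_inv hw0).const_add a)
      refine (h2.congr_of_eventuallyEq ?_).differentiableWithinAt
      filter_upwards [isOpen_ne.mem_nhds hw0] with v hv using hne v hv
    · rw [hh, continuousAt_update_same]
      refine h0.comp ?_
      rw [← Metric.cobounded_eq_cocompact]
      have h1 : Tendsto (fun w : ℂ => w⁻¹) (𝓝[≠] 0) (Bornology.cobounded ℂ) :=
        Filter.tendsto_inv₀_nhdsNE_zero
      exact (tendsto_const_add_cobounded a).comp h1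
  have hza : z - a ≠ 0 := by
    intro h; rw [h, norm_zero] at hz; linarith
  have hzb : (z - a)⁻¹ ∈ ball (0 : ℂ) r⁻¹ := by
    rw [mem_ball_zero_iff, norm_inv]
    exact inv_strictAnti₀ hr hz
  have hspos : 0 < s := hr.trans hs
  have hsum := taylor hdiff (inv_pos.2 hspos) (inv_strictAnti₀ hr hs) hzb
  rw [hne _ (inv_ne_zero hza), inv_inv, add_sub_cancel] at hsum
  rw [← hasSum_nat_add_iff' 1] at hsum
  have hzero : (∮ w in C((0 : ℂ), s⁻¹), (1 / w ^ (0 + 1)) * h w) = 0 := by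
    have h3 := DifferentiableOn.circleIntegral_one_div_sub_center_pow_smul (inv_pos.2 hspos) 0
      (hdiff.mono (closedBall_subset_ball (inv_strictAnti₀ hr hs)))
    simp only [smul_eq_mul, sub_zero] at h3
    rw [h3]
    simp [hh0]
  simp only [Finset.sum_range_one, sub_zero] at hsum
  rw [hzero, mul_zero, zero_mul, sub_zero] at hsum
  refine hasSum_of_eq hsum fun n => ?_
  congr 2
  rw [← circ_inv a hspos]
  refine circleIntegral.integral_congr (inv_pos.2 hspos).le fun w hw => ?_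
  have hw0 : w ≠ 0 := by
    rintro rfl
    rw [mem_sphere_zero_iff_norm, norm_zero] at hw
    exact (inv_pos.2 hspos).ne hw
  rw [hne w hw0]

end Pool.Agent.Helper7.KE.C5baux
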