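import Pool.Agent.Helper7.KE.C5a
import Pool.Agent.Helper7.KE.A5a
import Pool.Agent.Helper7.KE.C5baux

set_option autoImplicit false

open MeasureTheory Set Filter Asymptotics Topology Metric
open scoped ComplexConjugate ENNReal

namespace Pool.Agent.Helper7.KE

namespace C5baux

variable {k : ℕ} (D : CD k) {τ : ℝ}

/-- kernels of the coefficient functionals -/
noncomputable def W : Option (Fin k) → ℕ → ℂ → ℂ
  | none, n => fun z => ((D.R : ℂ) / z) ^ (n + 1)
  | some j, n => fun z => ((z - D.a j) / D.r j) ^ n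

/-- inner radius of the collar -/
noncomputable def lo (τ : ℝ) : Option (Fin k) → ℝ
  | none => D.R - τ
  | some j => D.r j

/-- outer radius of the collar -/
noncomputable def hi (τ : ℝ) : Option (Fin k) → ℝ
  | none => D.R
  | some j => D.r j + τ

/-- the collar -/
def ann (τ : ℝ) (l : Option (Fin k)) : Set ℂ :=
  {z | lo D τ l < ‖z - D.cen l‖ ∧ ‖z - D.cen l‖ < hi D τ l}

theorem lo_pos (hτ : D.Good τ) (l : Option (Fin k)) : 0 < lo D τ l := by
  cases l with
  | none => exact sub_pos.2 hτ.lt_R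
  | some j => exact D.rpos j

theorem lo_lt_hi (hτ : D.Good τ) (l : Option (Fin k)) : lo D τ l < hi D τ l := by
  have := hτ.pos
  cases l with
  | none => show D.R - τ < D.R; linarith
  | some j => show D.r j < D.r j + τ; linarith

theorem ann_sub (hτ : D.Good τ) (l : Option (Fin k)) : ann D τ l ⊆ D.U := by
  have hτ0 := hτ.pos
  cases l with
  | none =>
    rintro z ⟨h1, h2⟩
    have h1' : D.R - τ < ‖z‖ := by simpa [lo, CD.cen] using h1
    have h2' : ‖z‖ < D.R := by simpa [hi, CD.cen] using h2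
    refine ⟨h2', fun j => ?_⟩
    have := hτ.inside j
    have h3 := norm_sub_norm_le z (D.a j)
    linarith
  | some j =>
    rintro z ⟨h1, h2⟩
    have h1' : D.r j < ‖z - D.a j‖ := by simpa [lo, CD.cen] using h1
    have h2' : ‖z - D.a j‖ < D.r j + τ := by simpa [hi, CD.cen] using h2
    refine ⟨?_, fun i => ?_⟩
    · have := hτ.inside j
      have h3 := norm_sub_norm_le z (D.a j)
      linarith
    · by_cases hij : i = j
      · rw [hij]; exact h1'
      · have := hτ.disj i j hij
        have h3 : ‖D.a i - D.a j‖ ≤ ‖z - D.a i‖ + ‖z - D.a j‖ := by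
          have := norm_sub_le (z - D.a j) (z - D.a i)
          rw [sub_sub_sub_cancel_left] at this
          linarith
        linarith

theorem W_diff (l : Option (Fin k)) (n : ℕ) {ρ : ℝ} (hρ : 0 ≤ ρ) :
    DifferentiableOn ℂ (W D l n) {z | ρ < ‖z - D.cen l‖} := by
  cases l with
  | none =>
    intro z hz
    have hz0 : z ≠ 0 := by
      rintro rfl
      have : ρ < ‖(0 : ℂ) - D.cen none‖ := hz
      simp [CD.cen] at this
      linarith
    exact ((differentiableAt_const _).div differentiableAt_id hz0).pow _ |>.differentiableWithinAt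
  | some j =>
    intro z _
    exact (((differentiableAt_id.sub_const _).div_const _).pow _).differentiableWithinAt

theorem coef_circ (hτ : D.Good τ) (l : Option (Fin k)) (n : ℕ) {g : ℂ → ℂ}
    (hg : DifferentiableOn ℂ g (ann D τ l)) {s : ℝ} (hs : lo D τ l < s ∧ s < hi D τ l) :
    D.coef τ l n g = (2 * Real.pi * Complex.I)⁻¹ *
      ∮ z in C(D.cen l, s), g z * (W D l n z * (D.rad l : ℂ)⁻¹) := by
  have hτ0 := hτ.pos
  have hext : ∀ {φ : ℝ → ℝ}, (∃ ψ : ℝ → ℝ, φ = fun x => Real.smoothTransition (ψ x)) →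
      ∀ x, 0 ≤ φ x ∧ φ x ≤ 1 := by
    rintro φ ⟨ψ, rfl⟩ x
    exact ⟨Real.smoothTransition.nonneg _, Real.smoothTransition.le_one _⟩
  have hpi : (Real.pi : ℂ) ≠ 0 := by exact_mod_cast Real.pi_ne_zero
  cases l with
  | none =>
    have hR : (D.R : ℂ) ≠ 0 := by exact_mod_cast D.Rpos.ne'
    set φ : ℝ → ℝ := fun ρ => Real.smoothTransition (2 - 3 * (D.R - ρ) / τ) with hφ
    have hφc : ContDiff ℝ 1 φ := by
      have h1 : ContDiff ℝ 1 (fun ρ : ℝ => 2 - 3 * (D.R - ρ) / τ) := by fun_prop
      exact (Real.smoothTransition.contDiff (n := 1)).comp h1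
    have h1 : φ (D.R - 2 * τ / 3) = 0 := by
      apply Real.smoothTransition.zero_of_nonpos
      have : 3 * (D.R - (D.R - 2 * τ / 3)) / τ = 2 := by field_simp; ring
      linarith
    have h2 : φ (D.R - τ / 3) = 1 := by
      apply Real.smoothTransition.one_of_one_le
      have : 3 * (D.R - (D.R - τ / 3)) / τ = 1 := by field_simp; ring
      linarith
    have hd : ∀ x, x ≤ D.R - 2 * τ / 3 ∨ D.R - τ / 3 ≤ x → deriv φ x = 0 := by
      intro x hx
      apply deriv_zero_of_extr (hext ⟨_, hφ⟩)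
      rcases hx with hx | hx
      · left
        apply Real.smoothTransition.zero_of_nonpos
        have : 2 ≤ 3 * (D.R - x) / τ := by
          rw [le_div_iff₀ hτ0]; linarith
        linarith
      · right
        apply Real.smoothTransition.one_of_one_le
        have : 3 * (D.R - x) / τ ≤ 1 := by
          rw [div_le_iff₀ hτ0]; linarith
        linarith
    have hgW : DifferentiableOn ℂ (fun z => g z * W D none n z)
        {z | D.R - τ < ‖z - 0‖ ∧ ‖z - 0‖ < D.R} := by
      refine DifferentiableOn.mul hg ((W_diff D none n (lo_pos D hτ none).le).mono ?_)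
      intro z hz
      exact hz.1
    have hmain := polar_int (c := 0) hφc (lo_pos D hτ none).le (s₁ := D.R - 2 * τ / 3)
      (s₂ := D.R - τ / 3) (by show D.R - τ < _; linarith) (by linarith) (ρ₂ := D.R) (by linarith) hd
      hgW (U := D.U) D.U_open.measurableSet (ann_sub D hτ none) (s := s) hs
    have e : (fun w => (D.chi τ none w : ℂ)) = fun w => (φ ‖w - 0‖ : ℂ) := by
      ext w
      rw [sub_zero]
      rfl
    have e2 : D.coef τ none n g = (1 / (Real.pi * D.R) : ℂ) *
      ∫ z in D.U, (g z * W D none n z) * dzb (fun w => (D.chi τ none w : ℂ)) z := rfl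
    rw [e2, e, hmain, h1, h2]
    have e3 : (∮ z in C(D.cen none, s), g z * (W D none n z * (D.rad none : ℂ)⁻¹)) =
        (D.R : ℂ)⁻¹ * ∮ z in C(0, s), g z * W D none n z := by
      rw [← circleIntegral.integral_const_mul]
      have : (fun z => g z * (W D none n z * (D.rad none : ℂ)⁻¹)) =
        fun z => (D.R : ℂ)⁻¹ * (g z * W D none n z) := by
        ext z
        show g z * (W D none n z * (D.R : ℂ)⁻¹) = _
        ring
      rw [this]
      rfl
    rw [e3]
    have hI : Complex.I ≠ 0 := Complex.I_ne_zero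
    push_cast
    field_simp
    ring
  | some j =>
    have hr : (D.r j : ℂ) ≠ 0 := by exact_mod_cast (D.rpos j).ne'
    set φ : ℝ → ℝ := fun ρ => Real.smoothTransition (2 - 3 * (ρ - D.r j) / τ) with hφ
    have hφc : ContDiff ℝ 1 φ := by
      have h1 : ContDiff ℝ 1 (fun ρ : ℝ => 2 - 3 * (ρ - D.r j) / τ) := by fun_prop
      exact (Real.smoothTransition.contDiff (n := 1)).comp h1
    have h1 : φ (D.r j + 2 * τ / 3) = 0 := by
      apply Real.smoothTransition.zero_of_nonpos
      have : 3 * (D.r j + 2 * τ / 3 - D.r j) / τ = 2 := by field_simp; ring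
      linarith
    have h2 : φ (D.r j + τ / 3) = 1 := by
      apply Real.smoothTransition.one_of_one_le
      have : 3 * (D.r j + τ / 3 - D.r j) / τ = 1 := by field_simp; ring
      linarith
    have hd : ∀ x, x ≤ D.r j + τ / 3 ∨ D.r j + 2 * τ / 3 ≤ x → deriv φ x = 0 := by
      intro x hx
      apply deriv_zero_of_extr (hext ⟨_, hφ⟩)
      rcases hx with hx | hx
      · right
        apply Real.smoothTransition.one_of_one_le
        have : 3 * (x - D.r j) / τ ≤ 1 := by
          rw [div_le_iff₀ hτ0]; linarith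
        linarith
      · left
        apply Real.smoothTransition.zero_of_nonpos
        have : 2 ≤ 3 * (x - D.r j) / τ := by
          rw [le_div_iff₀ hτ0]; linarith
        linarith
    have hgW : DifferentiableOn ℂ (fun z => g z * W D (some j) n z)
        {z | D.r j < ‖z - D.a j‖ ∧ ‖z - D.a j‖ < D.r j + τ} := by
      refine DifferentiableOn.mul hg ((W_diff D (some j) n (lo_pos D hτ (some j)).le).mono ?_)
      intro z hz
      exact hz.1
    have hmain := polar_int (c := D.a j) hφc (lo_pos D hτ (some j)).le (s₁ := D.r j + τ / 3)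
      (s₂ := D.r j + 2 * τ / 3) (by show D.r j < _; linarith) (by linarith) (ρ₂ := D.r j + τ)
      (by linarith) hd
      hgW (U := D.U) D.U_open.measurableSet (ann_sub D hτ (some j)) (s := s) hs
    have e : (fun w => (D.chi τ (some j) w : ℂ)) = fun w => (φ ‖w - D.a j‖ : ℂ) := rfl
    have e2 : D.coef τ (some j) n g = -(1 / (Real.pi * D.r j) : ℂ) *
      ∫ z in D.U, (g z * W D (some j) n z) * dzb (fun w => (D.chi τ (some j) w : ℂ)) z := rfl
    rw [e2, e, hmain, h1, h2]
    have e3 : (∮ z in C(D.cen (some j), s), g z * (W D (some j) n z * (D.rad (some j) : ℂ)⁻¹)) =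
        (D.r j : ℂ)⁻¹ * ∮ z in C(D.a j, s), g z * W D (some j) n z := by
      rw [← circleIntegral.integral_const_mul]
      have : (fun z => g z * (W D (some j) n z * (D.rad (some j) : ℂ)⁻¹)) =
        fun z => (D.r j : ℂ)⁻¹ * (g z * W D (some j) n z) := by
        ext z
        show g z * (W D (some j) n z * (D.r j : ℂ)⁻¹) = _
        ring
      rw [this]
      rfl
    rw [e3]
    have hI : Complex.I ≠ 0 := Complex.I_ne_zero
    push_cast
    field_simp
    ring

theorem sphere_sub {l : Option (Fin k)} {s : ℝ} (hs : lo D τ l < s ∧ s < hi D τ l) :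
    sphere (D.cen l) s ⊆ ann D τ l := by
  intro z hz
  rw [mem_sphere, dist_eq_norm] at hz
  exact ⟨by rw [hz]; exact hs.1, by rw [hz]; exact hs.2⟩

theorem circInt (hτ : D.Good τ) (l : Option (Fin k)) (n : ℕ) {g : ℂ → ℂ}
    (hg : DifferentiableOn ℂ g (ann D τ l)) {s : ℝ} (hs : lo D τ l < s ∧ s < hi D τ l) :
    CircleIntegrable (fun z => g z * (W D l n z * (D.rad l : ℂ)⁻¹)) (D.cen l) s := by
  refine ContinuousOn.circleIntegrable ((lo_pos D hτ l).trans hs.1).le ?_
  refine (hg.continuousOn.mono (sphere_sub D hs)).mul (ContinuousOn.mul ?_ continuousOn_const)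
  refine ((W_diff D l n (lo_pos D hτ l).le).continuousOn).mono ?_
  intro z hz
  exact (sphere_sub D hs hz).1

theorem coef_congr (l : Option (Fin k)) (n : ℕ) {g g' : ℂ → ℂ} (h : ∀ z ∈ D.U, g z = g' z) :
    D.coef τ l n g = D.coef τ l n g' := by
  cases l with
  | none =>
    simp only [CD.coef]
    congr 1
    refine setIntegral_congr_fun D.U_open.measurableSet fun z hz => ?_
    simp only [h z hz]
  | some j =>
    simp only [CD.coef]
    congr 1
    refine setIntegral_congr_fun D.U_open.measurableSet fun z hz => ?_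
    simp only [h z hz]

theorem coef_sum (hτ : D.Good τ) (l : Option (Fin k)) (n : ℕ) {ι : Type*} (t : Finset ι)
    {G : ι → ℂ → ℂ} (hG : ∀ i ∈ t, DifferentiableOn ℂ (G i) (ann D τ l)) :
    D.coef τ l n (fun z => ∑ i ∈ t, G i z) = ∑ i ∈ t, D.coef τ l n (G i) := by
  obtain ⟨s, hs⟩ := exists_between (lo_lt_hi D hτ l)
  rw [coef_circ D hτ l n (DifferentiableOn.fun_sum hG) hs]
  have e : (fun z => (∑ i ∈ t, G i z) * (W D l n z * (D.rad l : ℂ)⁻¹)) =
      fun z => ∑ i ∈ t, G i z * (W D l n z * (D.rad l : ℂ)⁻¹) := by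
    ext z; rw [Finset.sum_mul]
  rw [e, circleIntegral.integral_fun_sum fun i hi => circInt D hτ l n (hG i hi) hs, Finset.mul_sum]
  exact Finset.sum_congr rfl fun i hi => (coef_circ D hτ l n (hG i hi) hs).symm

/-- functions holomorphic outside a hole, vanishing at infinity -/
theorem coef_outer (hτ : D.Good τ) (n : ℕ) (j : Fin k) {f : ℂ → ℂ}
    (hf : DifferentiableOn ℂ f {z | D.r j < ‖z - D.a j‖}) (h0 : Tendsto f (cocompact ℂ) (𝓝 0)) :
    D.coef τ none n f = 0 := by
  obtain ⟨s, hs⟩ := exists_between (lo_lt_hi D hτ none)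
  have hs1 : D.R - τ < s := hs.1
  have hτ0 := hτ.pos
  rw [coef_circ D hτ none n (hf.mono fun z hz => (ann_sub D hτ none hz).2 j) hs]
  have e : (fun z => f z * (W D none n z * (D.rad none : ℂ)⁻¹)) =
      fun z => (D.rad none : ℂ)⁻¹ * (f z * ((D.R : ℂ) / z) ^ (n + 1)) := by
    ext z
    simp only [W]
    ring
  rw [e, circleIntegral.integral_const_mul]
  have h := circ_outer (R := D.R) D.Rpos (D.rpos j).le hf h0 (s := s)
    (by have := hτ.inside j; linarith) n
  have h' : (∮ z in C(D.cen none, s), f z * ((D.R : ℂ) / z) ^ (n + 1)) = 0 := h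
  rw [h', mul_zero, mul_zero]

/-- functions holomorphic in the hole and its collar -/
theorem coef_inner (hτ : D.Good τ) (n : ℕ) (j : Fin k) {f : ℂ → ℂ}
    (hf : DifferentiableOn ℂ f (ball (D.a j) (D.r j + τ))) :
    D.coef τ (some j) n f = 0 := by
  obtain ⟨s, hs⟩ := exists_between (lo_lt_hi D hτ (some j))
  have hs2 : s < D.r j + τ := hs.2
  have hs1 : D.r j < s := hs.1
  have hs0 : 0 ≤ s := by linarith [D.rpos j]
  rw [coef_circ D hτ (some j) n (hf.mono fun z hz => by
    rw [mem_ball, dist_eq_norm]; exact hz.2) hs]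
  have h : (∮ z in C(D.cen (some j), s), f z * (W D (some j) n z * (D.rad (some j) : ℂ)⁻¹)) =
      0 := by
    have hd : DifferentiableOn ℂ (fun z => f z * (W D (some j) n z * (D.rad (some j) : ℂ)⁻¹))
        (ball (D.a j) (D.r j + τ)) := by
      refine hf.mul (DifferentiableOn.mul ?_ (differentiableOn_const _))
      intro z _
      exact (((differentiableAt_id.sub_const _).div_const _).pow _).differentiableWithinAt
    exact DiffContOnCl.circleIntegral_eq_zero hs0
      ((hd.mono (closure_ball_subset_closedBall.trans (closedBall_subset_ball hs2))).diffContOnCl)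
  rw [h, mul_zero]

theorem outer_inner (hτ : D.Good τ) {i j : Fin k} (hij : i ≠ j) :
    ball (D.a j) (D.r j + τ) ⊆ {z | D.r i < ‖z - D.a i‖} := by
  intro z hz
  rw [mem_ball, dist_eq_norm] at hz
  have h1 := hτ.disj i j hij
  have h3 : ‖D.a i - D.a j‖ ≤ ‖z - D.a i‖ + ‖z - D.a j‖ := by
    have := norm_sub_le (z - D.a j) (z - D.a i)
    rw [sub_sub_sub_cancel_left] at this
    linarith
  have := hτ.pos
  show D.r i < ‖z - D.a i‖
  linarith

theorem ball_sub (hτ : D.Good τ) (j : Fin k) : ball (D.a j) (D.r j + τ) ⊆ ball 0 D.R := by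
  intro z hz
  rw [mem_ball, dist_eq_norm] at hz
  rw [mem_ball_zero_iff]
  have h1 := hτ.inside j
  have h3 := norm_sub_norm_le z (D.a j)
  have := hτ.pos
  linarith

theorem E_diff (j : Fin k) (n : ℕ) :
    DifferentiableOn ℂ (D.E (some j) n) {z | D.r j < ‖z - D.a j‖} := by
  intro z hz
  have hz0 : z - D.a j ≠ 0 := by
    intro h
    have : D.r j < ‖z - D.a j‖ := hz
    rw [h, norm_zero] at this
    linarith [D.rpos j]
  have h1 : DifferentiableAt ℂ (fun w : ℂ => (D.r j : ℂ) / (w - D.a j)) z :=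
    (differentiableAt_const _).div (differentiableAt_id.sub_const _) hz0
  exact (h1.pow _).differentiableWithinAt

theorem E_tendsto (j : Fin k) (n : ℕ) : Tendsto (D.E (some j) n) (cocompact ℂ) (𝓝 0) := by
  have h1 : Tendsto (fun z : ℂ => z - D.a j) (cocompact ℂ) (cocompact ℂ) := by
    rw [← Metric.cobounded_eq_cocompact]
    exact tendsto_sub_const_cobounded _
  have h2 : Tendsto (fun z : ℂ => (z - D.a j)⁻¹) (cocompact ℂ) (𝓝 0) := by
    rw [← Metric.cobounded_eq_cocompact] at h1 ⊢
    exact Filter.tendsto_inv₀_cobounded.comp h1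
  have h3 : Tendsto (fun z : ℂ => ((D.r j : ℂ) * (z - D.a j)⁻¹) ^ (n + 1)) (cocompact ℂ)
      (𝓝 (((D.r j : ℂ) * 0) ^ (n + 1))) := (h2.const_mul _).pow _
  rw [mul_zero, zero_pow (Nat.succ_ne_zero n)] at h3
  exact h3

theorem E_none_diff (n : ℕ) (S : Set ℂ) : DifferentiableOn ℂ (D.E none n) S := fun z _ =>
  ((differentiableAt_id.div_const _).pow _).differentiableWithinAt

/-- the part holomorphic in the disc -/
theorem hasSum_none (hτ : D.Good τ) {g : ℂ → ℂ} (hg : DifferentiableOn ℂ g (ball 0 D.R)) {z : ℂ}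
    (hz : z ∈ ball (0 : ℂ) D.R) :
    HasSum (fun n : ℕ => D.coef τ none n g * D.E none n z) (g z) := by
  obtain ⟨s, hs⟩ := exists_between (lo_lt_hi D hτ none)
  have hs2 : s < D.R := hs.2
  have hs0 : 0 < s := (lo_pos D hτ none).trans hs.1
  have hR : (D.R : ℂ) ≠ 0 := by exact_mod_cast D.Rpos.ne'
  refine hasSum_of_eq (taylor hg hs0 hs2 hz) fun n => ?_
  rw [coef_circ D hτ none n (hg.mono fun _ hz => ?_) hs]
  · have e : (∮ z in C(D.cen none, s), g z * (W D none n z * (D.rad none : ℂ)⁻¹)) =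
        ∮ w in C(0, s), (D.R : ℂ) ^ n * (1 / (w - 0) ^ (n + 1) * g w) := by
      refine circleIntegral.integral_congr hs0.le fun w hw => ?_
      have hw0 : w ≠ 0 := by
        rintro rfl
        have : dist (0 : ℂ) (D.cen none) = s := hw
        simp [CD.cen] at this
        exact hs0.ne this
      show g w * (((D.R : ℂ) / w) ^ (n + 1) * (D.R : ℂ)⁻¹) = _
      rw [sub_zero, div_pow, pow_succ (D.R : ℂ) n]
      field_simp
    rw [e, circleIntegral.integral_const_mul]
    show _ * (z / D.R) ^ n = _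
    rw [sub_zero, div_pow]
    field_simp
  · rw [mem_ball_zero_iff]
    have := hz.2
    simpa [CD.cen, hi] using this

/-- the part holomorphic outside a hole -/
theorem hasSum_some (hτ : D.Good τ) (j : Fin k) {g : ℂ → ℂ}
    (hg : DifferentiableOn ℂ g {z | D.r j < ‖z - D.a j‖}) (h0 : Tendsto g (cocompact ℂ) (𝓝 0))
    {z : ℂ} (hz : D.r j < ‖z - D.a j‖) :
    HasSum (fun n : ℕ => D.coef τ (some j) n g * D.E (some j) n z) (g z) := by
  obtain ⟨s, hs⟩ := exists_between (lo_lt_hi D hτ (some j))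
  have hs0 : 0 < s := (lo_pos D hτ (some j)).trans hs.1
  have hr : (D.r j : ℂ) ≠ 0 := by exact_mod_cast (D.rpos j).ne'
  refine hasSum_of_eq (laurent_outer (D.rpos j) hg h0 hs.1 hz) fun n => ?_
  rw [coef_circ D hτ (some j) n (hg.mono fun _ hz => hz.1) hs]
  have e : (∮ z in C(D.cen (some j), s), g z * (W D (some j) n z * (D.rad (some j) : ℂ)⁻¹)) =
      ∮ w in C(D.a j, s), ((D.r j : ℂ)⁻¹) ^ (n + 1) * (g w * (w - D.a j) ^ n) := by
    refine circleIntegral.integral_congr hs0.le fun w hw => ?_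
    show g w * (((w - D.a j) / D.r j) ^ n * (D.r j : ℂ)⁻¹) = _
    rw [div_pow, inv_pow, pow_succ (D.r j : ℂ) n]
    field_simp
  rw [e, circleIntegral.integral_const_mul]
  show _ * ((D.r j : ℂ) / (z - D.a j)) ^ (n + 1) = _
  rw [div_eq_mul_inv, mul_pow, inv_pow (D.r j : ℂ)]
  have hr' : (D.r j : ℂ) ^ (n + 1) ≠ 0 := pow_ne_zero _ hr
  set J := ∮ (z : ℂ) in C(D.a j, s), g z * (z - D.a j) ^ n
  calc (2 * Real.pi * Complex.I)⁻¹ * (((D.r j : ℂ) ^ (n + 1))⁻¹ * J) *
        ((D.r j : ℂ) ^ (n + 1) * (z - D.a j)⁻¹ ^ (n + 1))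
      = (((D.r j : ℂ) ^ (n + 1))⁻¹ * (D.r j : ℂ) ^ (n + 1)) *
        ((2 * Real.pi * Complex.I)⁻¹ * J * (z - D.a j)⁻¹ ^ (n + 1)) := by ring
    _ = _ := by rw [inv_mul_cancel₀ hr', one_mul]

/-- shift of the contour across the boundary circle, and Cauchy estimate -/
theorem coef_shift (hτ : D.Good τ) (l : Option (Fin k)) {g : ℂ → ℂ} {ρ₁ ρ₂ s : ℝ} (h0 : 0 ≤ ρ₁)
    (h1 : ρ₁ ≤ lo D τ l) (h2 : hi D τ l ≤ ρ₂)
    (hg : DifferentiableOn ℂ g {z | ρ₁ < ‖z - D.cen l‖ ∧ ‖z - D.cen l‖ < ρ₂})
    (hs : ρ₁ < s ∧ s < ρ₂) :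
    ∃ B : ℝ, 0 ≤ B ∧ ∀ n M, (∀ z ∈ sphere (D.cen l) s, ‖W D l n z * (D.rad l : ℂ)⁻¹‖ ≤ M) →
      ‖D.coef τ l n g‖ ≤ s * (B * M) := by
  have hs0 : 0 < s := h0.trans_lt hs.1
  obtain ⟨s₀, hs₀⟩ := exists_between (lo_lt_hi D hτ l)
  have hcomp : IsCompact (sphere (D.cen l) s) := isCompact_sphere _ _
  have hcont : ContinuousOn g (sphere (D.cen l) s) := by
    refine hg.continuousOn.mono fun z hz => ?_
    rw [mem_sphere, dist_eq_norm] at hz
    exact ⟨by rw [hz]; exact hs.1, by rw [hz]; exact hs.2⟩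
  obtain ⟨B, hB⟩ := hcomp.exists_bound_of_continuousOn hcont
  refine ⟨max B 0, le_max_right _ _, fun n M hM => ?_⟩
  rw [coef_circ D hτ l n (hg.mono fun z hz => ⟨h1.trans_lt hz.1, hz.2.trans_le h2⟩) hs₀]
  have hd : DifferentiableOn ℂ (fun z => g z * (W D l n z * (D.rad l : ℂ)⁻¹))
      {z | ρ₁ < ‖z - D.cen l‖ ∧ ‖z - D.cen l‖ < ρ₂} :=
    hg.mul (((W_diff D l n h0).mono fun z hz => hz.1).mul (differentiableOn_const _))
  rw [circ_shift h0 hd (s := s₀) (s' := s) ⟨h1.trans_lt hs₀.1, hs₀.2.trans_le h2⟩ hs]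
  have hb := circleIntegral.norm_integral_le_of_norm_le_const hs0.le
    (f := fun z => g z * (W D l n z * (D.rad l : ℂ)⁻¹)) (c := D.cen l) (C := max B 0 * M)
    fun z hz => by
      rw [norm_mul]
      exact mul_le_mul ((hB z hz).trans (le_max_left _ _)) (hM z hz) (norm_nonneg _)
        (le_max_right _ _)
  rw [norm_mul]
  have hn : ‖(2 * Real.pi * Complex.I : ℂ)⁻¹‖ = (2 * Real.pi)⁻¹ := by
    rw [norm_inv, norm_mul, Complex.norm_I, mul_one, norm_mul, Complex.norm_real,
      Real.norm_of_nonneg Real.pi_pos.le]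
    norm_num
  rw [hn]
  calc (2 * Real.pi)⁻¹ * _ ≤ (2 * Real.pi)⁻¹ * (2 * Real.pi * s * (max B 0 * M)) :=
        mul_le_mul_of_nonneg_left hb (by positivity)
    _ = s * (max B 0 * M) := by
        have := Real.pi_pos
        field_simp

theorem coef_decay_one (hτ : D.Good τ) {δ : ℝ} (hδ : 0 < δ) {g : ℂ → ℂ}
    (hg : DifferentiableOn ℂ g (D.Ue δ)) (l : Option (Fin k)) :
    ∃ C q : ℝ, 0 ≤ C ∧ 0 ≤ q ∧ q < 1 ∧ ∀ n, ‖D.coef τ l n g‖ ≤ C * q ^ n := by
  have hτ0 := hτ.pos
  have hRpos := D.Rpos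
  cases l with
  | none =>
    have hsub : {z : ℂ | D.R - τ < ‖z - D.cen none‖ ∧ ‖z - D.cen none‖ < D.R + δ} ⊆ D.Ue δ := by
      rintro z ⟨h1, h2⟩
      have h1' : D.R - τ < ‖z‖ := by simpa [CD.cen] using h1
      have h2' : ‖z‖ < D.R + δ := by simpa [CD.cen] using h2
      refine ⟨h2', fun j => ?_⟩
      have := hτ.inside j
      have h3 := norm_sub_norm_le z (D.a j)
      linarith
    obtain ⟨B, hB0, hB⟩ := coef_shift D hτ none (s := D.R + δ / 2) (lo_pos D hτ none).le le_rfl
      (show D.R ≤ D.R + δ by linarith) (hg.mono hsub)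
      ⟨by show D.R - τ < _; linarith, by linarith⟩
    refine ⟨B, D.R / (D.R + δ / 2), hB0, by positivity, ?_, fun n => ?_⟩
    · rw [div_lt_one (by linarith)]; linarith
    · refine (hB n ((D.R / (D.R + δ / 2)) ^ (n + 1) * D.R⁻¹) fun z hz => ?_).trans (le_of_eq ?_)
      · have hz' : ‖z‖ = D.R + δ / 2 := by
          have : dist z (D.cen none) = D.R + δ / 2 := hz
          rw [dist_eq_norm] at this
          simpa [CD.cen] using this
        show ‖((D.R : ℂ) / z) ^ (n + 1) * (D.R : ℂ)⁻¹‖ ≤ _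
        rw [norm_mul, norm_pow, norm_div, norm_inv, Complex.norm_real,
          Real.norm_of_nonneg hRpos.le, hz']
      · have h1 : D.R + δ / 2 ≠ 0 := by positivity
        rw [pow_succ]
        field_simp
  | some j =>
    have hr := D.rpos j
    set ρ₁ := max (D.r j - δ) 0 with hρ₁
    have hρ₁0 : 0 ≤ ρ₁ := le_max_right _ _
    have hρ₁r : ρ₁ < D.r j := max_lt (by linarith) hr
    have hsub : {z : ℂ | ρ₁ < ‖z - D.cen (some j)‖ ∧ ‖z - D.cen (some j)‖ < D.r j + τ} ⊆
        D.Ue δ := by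
      rintro z ⟨h1, h2⟩
      have h1' : ρ₁ < ‖z - D.a j‖ := h1
      have h2' : ‖z - D.a j‖ < D.r j + τ := h2
      have h1'' : D.r j - δ < ‖z - D.a j‖ := (le_max_left _ _).trans_lt h1'
      refine ⟨?_, fun i => ?_⟩
      · have := hτ.inside j
        have h3 := norm_sub_norm_le z (D.a j)
        linarith
      · by_cases hij : i = j
        · rw [hij]; exact h1''
        · have := hτ.disj i j hij
          have h3 : ‖D.a i - D.a j‖ ≤ ‖z - D.a i‖ + ‖z - D.a j‖ := by
            have := norm_sub_le (z - D.a j) (z - D.a i)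
            rw [sub_sub_sub_cancel_left] at this
            linarith
          linarith
    set s := max (D.r j - δ / 2) (D.r j / 2) with hs
    have hs0 : 0 < s := lt_of_lt_of_le (by linarith) (le_max_right _ _)
    have hsr : s < D.r j := max_lt (by linarith) (by linarith)
    have hs1 : ρ₁ < s := by
      rcases le_total (D.r j - δ) 0 with h | h
      · rw [hρ₁, max_eq_right h]; exact hs0
      · rw [hρ₁, max_eq_left h]
        exact lt_of_lt_of_le (by linarith) (le_max_left _ _)
    obtain ⟨B, hB0, hB⟩ := coef_shift D hτ (some j) (s := s) hρ₁0 hρ₁r.le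
      (show D.r j + τ ≤ D.r j + τ from le_rfl) (hg.mono hsub) ⟨hs1, by linarith⟩
    refine ⟨B, s / D.r j, hB0, by positivity, ?_, fun n => ?_⟩
    · rw [div_lt_one hr]; exact hsr
    · refine (hB n ((s / D.r j) ^ n * (D.r j)⁻¹) fun z hz => ?_).trans ?_
      · have hz' : ‖z - D.a j‖ = s := by
          have : dist z (D.cen (some j)) = s := hz
          rw [dist_eq_norm] at this
          exact this
        show ‖((z - D.a j) / D.r j) ^ n * (D.r j : ℂ)⁻¹‖ ≤ _
        rw [norm_mul, norm_pow, norm_div, norm_inv, Complex.norm_real,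
          Real.norm_of_nonneg hr.le, hz']
      · have h1 : s / D.r j ≤ 1 := (div_le_one hr).2 hsr.le
        have h2 : 0 ≤ B * (s / D.r j) ^ n := by positivity
        calc s * (B * ((s / D.r j) ^ n * (D.r j)⁻¹)) = (s / D.r j) * (B * (s / D.r j) ^ n) := by
              field_simp
          _ ≤ 1 * (B * (s / D.r j) ^ n) := mul_le_mul_of_nonneg_right h1 h2
          _ = _ := one_mul _

theorem kernel_bound (hτ : D.Good τ) (l : Option (Fin k)) (n : ℕ) :
    ∃ M : ℝ, 0 ≤ M ∧ ∀ z ∈ D.U, ‖W D l n z * dzb (fun w => (D.chi τ l w : ℂ)) z‖ ≤ M := by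
  have hτ0 := hτ.pos
  have hRpos := D.Rpos
  have hdz : ∀ z : ℂ, ‖z / (2 * (‖z‖ : ℂ))‖ ≤ 1 := by
    intro z
    rw [norm_div, norm_mul, Complex.norm_real, norm_norm]
    rcases eq_or_ne ‖z‖ 0 with h | h
    · rw [h]; simp
    · have : (0 : ℝ) < ‖z‖ := lt_of_le_of_ne (norm_nonneg _) h.symm
      rw [show ‖(2 : ℂ)‖ = 2 by norm_num, div_le_one (by positivity)]
      linarith
  cases l with
  | none =>
    set φ : ℝ → ℝ := fun ρ => Real.smoothTransition (2 - 3 * (D.R - ρ) / τ) with hφ
    have hφc : ContDiff ℝ 1 φ := by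
      have h1 : ContDiff ℝ 1 (fun ρ : ℝ => 2 - 3 * (D.R - ρ) / τ) := by fun_prop
      exact (Real.smoothTransition.contDiff (n := 1)).comp h1
    have hd : ∀ x, x ≤ D.R - τ → deriv φ x = 0 := by
      intro x hx
      apply deriv_zero_of_extr
        (fun x => ⟨Real.smoothTransition.nonneg _, Real.smoothTransition.le_one _⟩)
      left
      apply Real.smoothTransition.zero_of_nonpos
      have : 2 ≤ 3 * (D.R - x) / τ := by
        rw [le_div_iff₀ hτ0]; linarith
      linarith
    obtain ⟨B, hB⟩ := (isCompact_Icc (a := (0 : ℝ)) (b := D.R)).exists_bound_of_continuousOn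
      (hφc.continuous_deriv le_rfl).continuousOn
    have hlo := lo_pos D hτ none
    have hlo' : 0 < D.R - τ := hlo
    refine ⟨(D.R / (D.R - τ)) ^ (n + 1) * max B 0, by positivity, fun z hz => ?_⟩
    have e : (fun w => (D.chi τ none w : ℂ)) = fun w => (φ ‖w - 0‖ : ℂ) := by
      ext w
      rw [sub_zero]
      rfl
    rcases eq_or_ne z 0 with h0 | h0
    · subst h0
      have : W D none n 0 = 0 := by simp [W]
      rw [this, zero_mul, norm_zero]
      positivity
    rw [e, dzb_radial (hφc.differentiable one_ne_zero _) h0, sub_zero]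
    by_cases hz1 : ‖z‖ ≤ D.R - τ
    · rw [hd _ hz1]
      simp only [Complex.ofReal_zero, zero_mul, mul_zero, norm_zero]
      positivity
    · rw [not_le] at hz1
      rw [norm_mul, norm_mul]
      refine mul_le_mul ?_ ?_ (by positivity) (by positivity)
      · show ‖((D.R : ℂ) / z) ^ (n + 1)‖ ≤ _
        rw [norm_pow, norm_div, Complex.norm_real, Real.norm_of_nonneg hRpos.le]
        exact pow_le_pow_left₀ (by positivity)
          (div_le_div_of_nonneg_left hRpos.le hlo' hz1.le) _
      · rw [Complex.norm_real]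
        calc ‖deriv φ ‖z‖‖ * ‖z / (2 * (‖z‖ : ℂ))‖ ≤ max B 0 * 1 :=
              mul_le_mul ((hB _ ⟨norm_nonneg _, hz.1.le⟩).trans (le_max_left _ _)) (hdz z)
                (norm_nonneg _) (le_max_right _ _)
          _ = max B 0 := mul_one _
  | some j =>
    have hr := D.rpos j
    set φ : ℝ → ℝ := fun ρ => Real.smoothTransition (2 - 3 * (ρ - D.r j) / τ) with hφ
    have hφc : ContDiff ℝ 1 φ := by
      have h1 : ContDiff ℝ 1 (fun ρ : ℝ => 2 - 3 * (ρ - D.r j) / τ) := by fun_prop
      exact (Real.smoothTransition.contDiff (n := 1)).comp h1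
    obtain ⟨B, hB⟩ := (isCompact_Icc (a := (0 : ℝ)) (b := 2 * D.R)).exists_bound_of_continuousOn
      (hφc.continuous_deriv le_rfl).continuousOn
    refine ⟨(2 * D.R / D.r j) ^ n * max B 0, by positivity, fun z hz => ?_⟩
    have h1 : D.r j < ‖z - D.a j‖ := hz.2 j
    have h2 : ‖z - D.a j‖ ≤ 2 * D.R := by
      have := norm_sub_le z (D.a j)
      have h3 := hz.1
      have h4 := D.inside j
      linarith
    have h0 : z ≠ D.a j := by
      rintro rfl
      rw [sub_self, norm_zero] at h1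
      linarith
    have e : (fun w => (D.chi τ (some j) w : ℂ)) = fun w => (φ ‖w - D.a j‖ : ℂ) := rfl
    rw [e, dzb_radial (hφc.differentiable one_ne_zero _) h0]
    rw [norm_mul, norm_mul]
    refine mul_le_mul ?_ ?_ (by positivity) (by positivity)
    · show ‖((z - D.a j) / D.r j) ^ n‖ ≤ _
      rw [norm_pow, norm_div, Complex.norm_real, Real.norm_of_nonneg hr.le]
      exact pow_le_pow_left₀ (by positivity) (div_le_div_of_nonneg_right h2 hr.le) _
    · rw [Complex.norm_real]
      calc ‖deriv φ ‖z - D.a j‖‖ * ‖(z - D.a j) / (2 * (‖z - D.a j‖ : ℂ))‖ ≤ max B 0 * 1 :=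
            mul_le_mul ((hB _ ⟨norm_nonneg _, h2⟩).trans (le_max_left _ _)) (hdz _)
              (norm_nonneg _) (le_max_right _ _)
        _ = max B 0 := mul_one _

theorem cs_bound {w : ℂ → ℂ} {M : ℝ} (hM0 : 0 ≤ M) (hM : ∀ z ∈ D.U, ‖w z‖ ≤ M) :
    ∃ C : ℝ, 0 ≤ C ∧ ∀ g : ℂ → ℂ, D.Hol2 g →
      ‖∫ z in D.U, g z * w z‖ ≤ C * Real.sqrt (∫ z in D.U, ‖g z‖ ^ 2) := by
  refine ⟨(∫ _ in D.U, M ^ (2 : ℝ)) ^ (1 / (2 : ℝ)), by positivity, fun g hg => ?_⟩
  have hint : Integrable (fun z => ‖g z‖ * M) (volume.restrict D.U) :=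
    ((hg.memLp.integrable one_le_two).norm).mul_const M
  have h1 : ‖∫ z in D.U, g z * w z‖ ≤ ∫ z in D.U, ‖g z‖ * M := by
    refine norm_integral_le_of_norm_le hint ?_
    filter_upwards [ae_restrict_mem D.U_open.measurableSet] with z hz
    rw [norm_mul]
    exact mul_le_mul_of_nonneg_left (hM z hz) (norm_nonneg _)
  have h2 := integral_mul_le_Lp_mul_Lq_of_nonneg (μ := volume.restrict D.U)
    Real.HolderConjugate.two_two (f := fun z => ‖g z‖) (g := fun _ => M)
    (Eventually.of_forall fun z => norm_nonneg _) (Eventually.of_forall fun z => hM0)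
    (by
      rw [show ENNReal.ofReal 2 = 2 by norm_num]
      exact hg.memLp.norm)
    (memLp_const M)
  refine h1.trans (h2.trans (le_of_eq ?_))
  rw [mul_comm, Real.sqrt_eq_rpow]
  simp only [Real.rpow_two]

end C5baux

section
variable {k : ℕ} (D : CD k) {τ : ℝ}

open C5baux

theorem laurent (hτ : D.Good τ) {g : ℂ → ℂ} (hg : DifferentiableOn ℂ g D.U) {z : ℂ}
    (hz : z ∈ D.U) :
    HasSum (fun p : Option (Fin k) × ℕ => D.coef τ p.1 p.2 g * D.E p.1 p.2 z) (g z) := by
  classical
  obtain ⟨g₀, gj, h0, hj, hj0, hsum⟩ := laurent_split D hg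
  set G : Option (Fin k) → ℂ → ℂ := fun l => Option.elim l g₀ gj with hG
  have hGU : ∀ l, DifferentiableOn ℂ (G l) D.U := by
    intro l
    cases l with
    | none => exact h0.mono fun z hz => by rw [mem_ball_zero_iff]; exact hz.1
    | some j => exact (hj j).mono fun z hz => hz.2 j
  have hgG : ∀ w ∈ D.U, g w = ∑ l, G l w := by
    intro w hw
    rw [hsum w hw, Fintype.sum_option]
    rfl
  have hcoef : ∀ l n, D.coef τ l n g = D.coef τ l n (G l) := by
    intro l n
    rw [coef_congr D l n hgG, coef_sum D hτ l n _ fun i _ => (hGU i).mono (ann_sub D hτ l)]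
    refine Finset.sum_eq_single l (fun l' _ hl' => ?_) (fun h => absurd (Finset.mem_univ _) h)
    cases l with
    | none =>
      cases l' with
      | none => exact absurd rfl hl'
      | some i => exact coef_outer D hτ n i (hj i) (hj0 i)
    | some j =>
      cases l' with
      | none => exact coef_inner D hτ n j (h0.mono (ball_sub D hτ j))
      | some i =>
        have hij : i ≠ j := fun h => hl' (by rw [h])
        exact coef_inner D hτ n j ((hj i).mono (outer_inner D hτ hij))
  have hl : ∀ l, HasSum (fun n : ℕ => D.coef τ l n g * D.E l n z) (G l z) := by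
    intro l
    refine hasSum_of_eq (f := fun n => D.coef τ l n (G l) * D.E l n z) ?_ fun n => by rw [hcoef]
    cases l with
    | none => exact hasSum_none D hτ h0 (by rw [mem_ball_zero_iff]; exact hz.1)
    | some j => exact hasSum_some D hτ j (hj j) (hj0 j) (hz.2 j)
  rw [hgG z hz]
  have hl' : ∀ l, HasSum (fun p : Option (Fin k) × ℕ =>
      if p.1 = l then D.coef τ p.1 p.2 g * D.E p.1 p.2 z else 0) (G l z) := by
    intro l
    have hinj : Function.Injective (fun n : ℕ => ((l, n) : Option (Fin k) × ℕ)) :=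
      fun a b h => (Prod.mk.inj h).2
    refine (Function.Injective.hasSum_iff hinj ?_).1 ?_
    · rintro ⟨l', n⟩ hp
      have : l' ≠ l := fun h => hp ⟨n, by rw [h]⟩
      simp [this]
    · simpa [Function.comp_def] using hl l
  have hfin := hasSum_sum (s := Finset.univ) fun l _ => hl' l
  simpa using hfin

/-- coefficients of the basis functions -/
theorem coef_E (hτ : D.Good τ) (l l' : Option (Fin k)) (n n' : ℕ) :
    D.coef τ l n (D.E l' n') = if l = l' ∧ n = n' then 1 else 0 := by
  cases l with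
  | none =>
    cases l' with
    | none =>
      obtain ⟨s, hs⟩ := exists_between (lo_lt_hi D hτ none)
      have hs0 : 0 < s := (lo_pos D hτ none).trans hs.1
      have hR : (D.R : ℂ) ≠ 0 := by exact_mod_cast D.Rpos.ne'
      rw [coef_circ D hτ none n (E_none_diff D n' _) hs]
      rw [circ_monomial hs0 (ρ := (D.R : ℂ)) (m := (n' : ℤ) - n - 1)]
      · by_cases h : n = n'
        · subst h; simp
        · have : ¬ ((n' : ℤ) - n - 1 = -1) := by omega
          simp [h, this]
      · intro z hz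
        have hz' : z ≠ 0 := hz
        show (z / D.R) ^ n' * (((D.R : ℂ) / z) ^ (n + 1) * (D.R : ℂ)⁻¹) =
          (D.R : ℂ) ^ (-((n' : ℤ) - n - 1) - 1) * (z - 0) ^ ((n' : ℤ) - n - 1)
        rw [sub_zero, show (-((n' : ℤ) - n - 1) - 1) = n - n' by ring,
          show ((n' : ℤ) - n - 1) = n' - (n + 1 : ℕ) by push_cast; ring, zpow_sub₀ hR,
          zpow_sub₀ hz']
        simp only [zpow_natCast, div_pow]
        field_simp
        ring
    | some j => simpa using coef_outer D hτ n j (E_diff D j n') (E_tendsto D j n')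
  | some j =>
    cases l' with
    | none => simpa using coef_inner D hτ n j (E_none_diff D n' _)
    | some i =>
      by_cases hij : i = j
      · subst hij
        obtain ⟨s, hs⟩ := exists_between (lo_lt_hi D hτ (some i))
        have hs0 : 0 < s := (lo_pos D hτ (some i)).trans hs.1
        have hr : (D.r i : ℂ) ≠ 0 := by exact_mod_cast (D.rpos i).ne'
        rw [coef_circ D hτ (some i) n ((E_diff D i n').mono fun z hz => hz.1) hs]
        rw [circ_monomial hs0 (ρ := (D.r i : ℂ)) (m := (n : ℤ) - n' - 1)]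
        · by_cases h : n = n'
          · subst h; simp
          · have : ¬ ((n : ℤ) - n' - 1 = -1) := by omega
            simp [h, this]
        · intro z hz
          have hz' : z - D.a i ≠ 0 := sub_ne_zero.2 hz
          show ((D.r i : ℂ) / (z - D.a i)) ^ (n' + 1) *
              (((z - D.a i) / D.r i) ^ n * (D.r i : ℂ)⁻¹) =
            (D.r i : ℂ) ^ (-((n : ℤ) - n' - 1) - 1) * (z - D.a i) ^ ((n : ℤ) - n' - 1)
          rw [show (-((n : ℤ) - n' - 1) - 1) = n' - n by ring,
            show ((n : ℤ) - n' - 1) = n - (n' + 1 : ℕ) by push_cast; ring, zpow_sub₀ hr,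
            zpow_sub₀ hz']
          simp only [zpow_natCast, div_pow]
          field_simp
          ring
      · have : ¬ j = i := fun h => hij h.symm
        simpa [this] using coef_inner D hτ n j ((E_diff D i n').mono (outer_inner D hτ hij))

/-- coefficients of functions holomorphic across the boundary decay exponentially -/
theorem coef_decay (hτ : D.Good τ) {δ : ℝ} (hδ : 0 < δ) {g : ℂ → ℂ}
    (hg : DifferentiableOn ℂ g (D.Ue δ)) :
    ∃ C q : ℝ, 0 ≤ q ∧ q < 1 ∧ ∀ l n, ‖D.coef τ l n g‖ ≤ C * q ^ n := by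
  classical
  have key : ∀ l, ∃ C q : ℝ, 0 ≤ C ∧ 0 ≤ q ∧ q < 1 ∧ ∀ n, ‖D.coef τ l n g‖ ≤ C * q ^ n :=
    fun l => coef_decay_one D hτ hδ hg l
  choose C q hC hq hq1 hb using key
  refine ⟨∑ l, C l, Finset.univ.sup' Finset.univ_nonempty q, ?_, ?_, fun l n => ?_⟩
  · exact (hq none).trans (Finset.le_sup' q (Finset.mem_univ none))
  · exact (Finset.sup'_lt_iff _).2 fun l _ => hq1 l
  · refine (hb l n).trans ?_
    have h1 : C l ≤ ∑ l, C l := Finset.single_le_sum (fun l _ => hC l) (Finset.mem_univ l)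
    have h2 : q l ≤ Finset.univ.sup' Finset.univ_nonempty q :=
      Finset.le_sup' q (Finset.mem_univ l)
    exact mul_le_mul h1 (pow_le_pow_left₀ (hq l) h2 n) (by have := hq l; positivity)
      (Finset.sum_nonneg fun l _ => hC l)

theorem coef_linear (l : Option (Fin k)) (n : ℕ) {g g' : ℂ → ℂ} (hτ : D.Good τ) (hg : DifferentiableOn ℂ g D.U)
    (hg' : DifferentiableOn ℂ g' D.U) (c : ℂ) :
    D.coef τ l n (fun z => g z + c * g' z) = D.coef τ l n g + c * D.coef τ l n g' := by
  obtain ⟨s, hs⟩ := exists_between (lo_lt_hi D hτ l)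
  have h1 := hg.mono (ann_sub D hτ l)
  have h2 := hg'.mono (ann_sub D hτ l)
  have h3 : DifferentiableOn ℂ (fun z => c * g' z) (ann D τ l) := h2.const_mul c
  have h4 : DifferentiableOn ℂ (fun z => g z + c * g' z) (ann D τ l) := h1.add h3
  rw [coef_circ D hτ l n h4 hs, coef_circ D hτ l n h1 hs, coef_circ D hτ l n h2 hs]
  have e : (fun z => (g z + c * g' z) * (W D l n z * (D.rad l : ℂ)⁻¹)) =
      fun z => g z * (W D l n z * (D.rad l : ℂ)⁻¹) +
        (c * g' z) * (W D l n z * (D.rad l : ℂ)⁻¹) := by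
    ext z; ring
  have e' : (fun z => (c * g' z) * (W D l n z * (D.rad l : ℂ)⁻¹)) =
      fun z => c * (g' z * (W D l n z * (D.rad l : ℂ)⁻¹)) := by
    ext z; ring
  rw [e, circleIntegral.integral_add (circInt D hτ l n h1 hs) (circInt D hτ l n h3 hs), e',
    circleIntegral.integral_const_mul]
  ring

theorem coef_bound (hτ : D.Good τ) (l : Option (Fin k)) (n : ℕ) : ∃ C : ℝ, ∀ g : ℂ → ℂ, D.Hol2 g →
    ‖D.coef τ l n g‖ ≤ C * Real.sqrt (∫ z in D.U, ‖g z‖ ^ 2) := by
  obtain ⟨M, hM0, hM⟩ := kernel_bound D hτ l n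
  obtain ⟨C, hC0, hC⟩ := cs_bound D hM0 hM
  have hgen : ∀ (κ : ℂ) (g : ℂ → ℂ), D.Hol2 g → D.coef τ l n g = κ *
      ∫ z in D.U, (g z * W D l n z) * dzb (fun w => (D.chi τ l w : ℂ)) z →
      ‖D.coef τ l n g‖ ≤ (‖κ‖ * C) * Real.sqrt (∫ z in D.U, ‖g z‖ ^ 2) := by
    intro κ g hg he
    rw [he, norm_mul, mul_assoc]
    refine mul_le_mul_of_nonneg_left ?_ (norm_nonneg _)
    have := hC g hg
    simp only [← mul_assoc] at this
    exact this
  cases l with
  | none => exact ⟨_, fun g hg => hgen (1 / (Real.pi * D.R) : ℂ) g hg rfl⟩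
  | some j => exact ⟨_, fun g hg => hgen (-(1 / (Real.pi * D.r j) : ℂ)) g hg rfl⟩

end

end Pool.Agent.Helper7.KE
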