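import Pool.Agent.Helper7.KE.C5a
import Pool.Agent.Helper7.KE.C5b

set_option autoImplicit false

open MeasureTheory Set Filter Asymptotics Topology Metric
open scoped ComplexConjugate ENNReal

namespace Pool.Agent.Helper7.KE

section
variable {k : ℕ} (D : CD k) {τ : ℝ}

/-- primitives of the Laurent basis functions (zero for the residue terms) -/
private noncomputable def PrimE : Option (Fin k) × ℕ → ℂ → ℂ
  | (none, n) => fun z => (D.R / (n + 1 : ℂ)) * (z / D.R) ^ (n + 1)
  | (some _, 0) => fun _ => 0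
  | (some j, n + 1) => fun z => -(D.r j / (n + 1 : ℂ)) * (D.r j / (z - D.a j)) ^ (n + 1)

/-- the Laurent basis functions without the residue terms -/
private noncomputable def E0 : Option (Fin k) × ℕ → ℂ → ℂ
  | (none, n) => D.E none n
  | (some _, 0) => fun _ => 0
  | (some j, n + 1) => D.E (some j) (n + 1)

private theorem sub_ne {z : ℂ} (hz : z ∈ D.U) (j : Fin k) : z - D.a j ≠ 0 := by
  have h := (D.rpos j).trans (hz.2 j)
  exact norm_pos_iff.1 h

private theorem hasDerivAt_PrimE (p : Option (Fin k) × ℕ) {z : ℂ} (hz : z ∈ D.U) :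
    HasDerivAt (PrimE D p) (E0 D p z) z := by
  have hR : (D.R : ℂ) ≠ 0 := by exact_mod_cast D.Rpos.ne'
  obtain ⟨_ | j, n⟩ := p
  · have h1 : HasDerivAt (fun z : ℂ => z / D.R) (1 / D.R) z := (hasDerivAt_id z).div_const _
    have h2 := (h1.fun_pow (n + 1)).const_mul (D.R / (n + 1 : ℂ))
    have h3 : (n + 1 : ℂ) ≠ 0 := by exact_mod_cast Nat.succ_ne_zero n
    refine h2.congr_deriv ?_
    simp only [E0, CD.E, Nat.add_sub_cancel, Nat.cast_add, Nat.cast_one]
    field_simp
  · rcases n with _ | n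
    · exact hasDerivAt_const z 0
    · have h0 := sub_ne D hz j
      have h1 : HasDerivAt (fun z : ℂ => z - D.a j) 1 z := (hasDerivAt_id z).sub_const _
      have h2 : HasDerivAt (fun z : ℂ => (D.r j : ℂ) / (z - D.a j))
          (-(D.r j : ℂ) / (z - D.a j) ^ 2) z := by
        refine ((hasDerivAt_const z (D.r j : ℂ)).fun_div h1 h0).congr_deriv ?_
        simp
      have h3 := (h2.fun_pow (n + 1)).const_mul (-(D.r j / (n + 1 : ℂ)))
      have h4 : (n + 1 : ℂ) ≠ 0 := by exact_mod_cast Nat.succ_ne_zero n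
      refine h3.congr_deriv ?_
      simp only [E0, CD.E, Nat.add_sub_cancel, Nat.cast_add, Nat.cast_one, div_pow]
      field_simp
      ring

private theorem norm_E0_le (p : Option (Fin k) × ℕ) (z : ℂ) :
    ‖E0 D p z‖ ≤ ‖D.E p.1 p.2 z‖ := by
  obtain ⟨_ | j, _ | n⟩ := p <;> simp [E0]

private theorem norm_PrimE_le (p : Option (Fin k) × ℕ) {z : ℂ} (hz : z ∈ D.U) :
    ‖PrimE D p z‖ ≤ 2 * D.R * ‖D.E p.1 p.2 z‖ := by
  have hR := D.Rpos
  obtain ⟨_ | j, n⟩ := p
  · have h1 : PrimE D (none, n) z = z / (n + 1 : ℂ) * D.E none n z := by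
      have hR' : (D.R : ℂ) ≠ 0 := by exact_mod_cast D.Rpos.ne'
      simp only [PrimE, CD.E]
      rw [pow_succ]
      field_simp
    rw [h1, norm_mul, norm_div]
    have h2 : ‖(n + 1 : ℂ)‖ = n + 1 := by
      have : ((n : ℂ) + 1) = ((n + 1 : ℝ) : ℂ) := by push_cast; rfl
      rw [this, Complex.norm_real, Real.norm_eq_abs, abs_of_pos (by positivity)]
    rw [h2]
    refine mul_le_mul_of_nonneg_right ?_ (norm_nonneg _)
    rw [div_le_iff₀ (by positivity)]
    have h3 : (0 : ℝ) ≤ n := Nat.cast_nonneg n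
    nlinarith [hz.1]
  · rcases n with _ | n
    · simp only [PrimE, norm_zero]
      positivity
    · have h0 := sub_ne D hz j
      have h1 : PrimE D (some j, n + 1) z =
          -((z - D.a j) / (n + 1 : ℂ)) * D.E (some j) (n + 1) z := by
        simp only [PrimE, CD.E]
        rw [pow_succ _ (n + 1)]
        field_simp
      rw [h1, norm_mul, norm_neg, norm_div]
      have h2 : ‖(n + 1 : ℂ)‖ = n + 1 := by
        have : ((n : ℂ) + 1) = ((n + 1 : ℝ) : ℂ) := by push_cast; rfl
        rw [this, Complex.norm_real, Real.norm_eq_abs, abs_of_pos (by positivity)]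
      rw [h2]
      refine mul_le_mul_of_nonneg_right ?_ (norm_nonneg _)
      rw [div_le_iff₀ (by positivity)]
      have h3 : (0 : ℝ) ≤ n := Nat.cast_nonneg n
      have h4 := norm_sub_le z (D.a j)
      have h5 := D.inside j
      have h6 := D.rpos j
      nlinarith [hz.1]

/-- points near the boundary -/
private noncomputable def qq (η : ℝ) : Option (Fin k) → ℂ
  | none => ((D.R - η : ℝ) : ℂ)
  | some j => D.a j + ((D.r j + η : ℝ) : ℂ)

private theorem qq_mem (hτ : D.Good τ) {η : ℝ} (hη : 0 < η) (hητ : η < τ) (l : Option (Fin k)) :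
    qq D η l ∈ D.U := by
  rcases l with _ | j
  · have h1 : ‖((D.R - η : ℝ) : ℂ)‖ = D.R - η := by
      rw [Complex.norm_real, Real.norm_eq_abs, abs_of_pos (by linarith [hτ.lt_R])]
    refine ⟨by simp only [qq]; rw [h1]; linarith, fun j => ?_⟩
    have h2 := norm_sub_norm_le ((D.R - η : ℝ) : ℂ) (D.a j)
    rw [h1] at h2
    simp only [qq]
    linarith [hτ.inside j]
  · have h1 : ‖((D.r j + η : ℝ) : ℂ)‖ = D.r j + η := by
      rw [Complex.norm_real, Real.norm_eq_abs, abs_of_pos (by linarith [D.rpos j])]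
    refine ⟨?_, fun i => ?_⟩
    · have h2 := norm_add_le (D.a j) ((D.r j + η : ℝ) : ℂ)
      simp only [qq]
      linarith [hτ.inside j]
    · by_cases hij : i = j
      · subst hij
        simp only [qq, add_sub_cancel_left]
        rw [h1]
        linarith
      · have h2 := hτ.disj i j hij
        have h3 := norm_sub_le ((D.r j + η : ℝ) : ℂ) (D.a j + ((D.r j + η : ℝ) : ℂ) - D.a i)
        have h4 : ((D.r j + η : ℝ) : ℂ) - (D.a j + ((D.r j + η : ℝ) : ℂ) - D.a i) =
          D.a i - D.a j := by ring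
        rw [h4, h1] at h3
        simp only [qq]
        linarith

private theorem norm_E_le_qq {η : ℝ} (hη : 0 < η) (hηR : η < D.R) (p : Option (Fin k) × ℕ) {w : ℂ}
    (hw1 : ‖w‖ < D.R - η) (hw2 : ∀ j, D.r j + η < ‖w - D.a j‖) :
    ‖D.E p.1 p.2 w‖ ≤ ‖D.E p.1 p.2 (qq D η p.1)‖ := by
  obtain ⟨_ | j, n⟩ := p
  · have h1 : ‖((D.R - η : ℝ) : ℂ)‖ = D.R - η := by
      rw [Complex.norm_real, Real.norm_eq_abs, abs_of_pos (by linarith)]
    simp only [CD.E, qq, norm_pow, norm_div]
    rw [h1]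
    gcongr
  · have h1 : ‖((D.r j + η : ℝ) : ℂ)‖ = D.r j + η := by
      rw [Complex.norm_real, Real.norm_eq_abs, abs_of_pos (by linarith [D.rpos j])]
    simp only [CD.E, qq, norm_pow, norm_div, add_sub_cancel_left]
    rw [h1]
    have h2 := D.rpos j
    have h3 := hw2 j
    gcongr

/-- a holomorphic function on the domain has a primitive up to the residue terms -/
private theorem prim_aux (hτ : D.Good τ) {v : ℂ → ℂ} (hv : DifferentiableOn ℂ v D.U) :
    ∃ G : ℂ → ℂ, ∀ z ∈ D.U,
      HasDerivAt G (v z - ∑ j, D.coef τ (some j) 0 v * D.E (some j) 0 z) z := by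
  refine ⟨fun z => ∑' p : Option (Fin k) × ℕ, D.coef τ p.1 p.2 v * PrimE D p z, fun z hz => ?_⟩
  -- the sum
  have hsum : ∑' p : Option (Fin k) × ℕ, D.coef τ p.1 p.2 v * E0 D p z =
      v z - ∑ j, D.coef τ (some j) 0 v * D.E (some j) 0 z := by
    have h1 := laurent D hτ hv hz
    have h2 : HasSum (fun p : Option (Fin k) × ℕ => D.coef τ p.1 p.2 v *
        (D.E p.1 p.2 z - E0 D p z)) (∑ p ∈ (Finset.univ.image
          (fun j : Fin k => ((some j, 0) : Option (Fin k) × ℕ))), D.coef τ p.1 p.2 v *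
        (D.E p.1 p.2 z - E0 D p z)) := by
      apply hasSum_sum_of_ne_finset_zero
      intro p hp
      obtain ⟨_ | j, n⟩ := p
      · simp [E0]
      · rcases n with _ | n
        · exact absurd (Finset.mem_image_of_mem _ (Finset.mem_univ j)) hp
        · simp [E0]
    have h3 := (h1.sub h2).tsum_eq
    rw [Finset.sum_image (by
      intro i _ j _ hij
      simpa using hij)] at h3
    have h4 : ∀ j : Fin k, D.coef τ (some j) 0 v * (D.E (some j) 0 z - E0 D (some j, 0) z) =
      D.coef τ (some j) 0 v * D.E (some j) 0 z := by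
      intro j
      simp [E0]
    simp only [h4] at h3
    rw [← h3]
    congr 1
    ext p
    ring
  rw [← hsum]
  -- a uniform neighbourhood
  obtain ⟨η, hη, hητ, hη1, hη2⟩ : ∃ η : ℝ, 0 < η ∧ η < τ ∧ ‖z‖ < D.R - η ∧
      ∀ j, D.r j + η < ‖z - D.a j‖ := by
    have e0 : ∀ᶠ η in 𝓝[>] (0 : ℝ), 0 < η := self_mem_nhdsWithin
    have e1 : ∀ c : ℝ, 0 < c → ∀ᶠ η in 𝓝[>] (0 : ℝ), η < c := fun c hc => by
      filter_upwards [Ioo_mem_nhdsGT hc] with τ hτ using hτ.2
    have e2 : ∀ᶠ η in 𝓝[>] (0 : ℝ), ∀ j, η < ‖z - D.a j‖ - D.r j :=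
      eventually_all.2 fun j => e1 _ (sub_pos.2 (hz.2 j))
    obtain ⟨η, t1, t2, t3, t4⟩ := (e0.and ((e1 τ hτ.pos).and
      ((e1 _ (sub_pos.2 hz.1)).and e2))).exists
    exact ⟨η, t1, t2, by linarith, fun j => by linarith [t4 j]⟩
  have hηR : η < D.R := hητ.trans hτ.lt_R
  have hopen : IsOpen {w : ℂ | ‖w‖ < D.R - η ∧ ∀ j, D.r j + η < ‖w - D.a j‖} := by
    have : {w : ℂ | ‖w‖ < D.R - η ∧ ∀ j, D.r j + η < ‖w - D.a j‖} =
        {w | ‖w‖ < D.R - η} ∩ ⋂ j, {w | D.r j + η < ‖w - D.a j‖} := by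
      ext z; simp
    rw [this]
    refine (isOpen_lt continuous_norm continuous_const).inter
      (isOpen_iInter_of_finite fun j => ?_)
    exact isOpen_lt continuous_const (by fun_prop)
  obtain ⟨ε, hε, hb⟩ := Metric.isOpen_iff.1 hopen z ⟨hη1, hη2⟩
  have hbU : ∀ w ∈ ball z ε, w ∈ D.U := fun w hw =>
    ⟨by linarith [(hb hw).1], fun j => by linarith [(hb hw).2 j]⟩
  refine hasDerivAt_tsum_of_isPreconnected
    (g := fun p : Option (Fin k) × ℕ => fun z => D.coef τ p.1 p.2 v * PrimE D p z)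
    (g' := fun p : Option (Fin k) × ℕ => fun z => D.coef τ p.1 p.2 v * E0 D p z)
    (u := fun p : Option (Fin k) × ℕ => ∑ l, ‖D.coef τ p.1 p.2 v * D.E p.1 p.2 (qq D η l)‖) ?_ isOpen_ball
    (convex_ball z ε).isPreconnected (fun p w hw => ?_) (fun p w hw => ?_) (mem_ball_self hε) ?_
    (mem_ball_self hε)
  · exact summable_sum fun l _ => (laurent D hτ hv (qq_mem D hτ hη hητ l)).summable.norm
  · exact (hasDerivAt_PrimE D p (hbU w hw)).const_mul _
  · calc ‖D.coef τ p.1 p.2 v * E0 D p w‖ = ‖D.coef τ p.1 p.2 v‖ * ‖E0 D p w‖ := norm_mul _ _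
      _ ≤ ‖D.coef τ p.1 p.2 v‖ * ‖D.E p.1 p.2 (qq D η p.1)‖ := by
          refine mul_le_mul_of_nonneg_left ?_ (norm_nonneg _)
          exact (norm_E0_le D p w).trans (norm_E_le_qq D hη hηR p (hb hw).1 (hb hw).2)
      _ = ‖D.coef τ p.1 p.2 v * D.E p.1 p.2 (qq D η p.1)‖ := (norm_mul _ _).symm
      _ ≤ _ := Finset.single_le_sum
          (f := fun l => ‖D.coef τ p.1 p.2 v * D.E p.1 p.2 (qq D η l)‖)
          (fun l _ => norm_nonneg _) (Finset.mem_univ p.1)
  · have h1 := (laurent D hτ hv hz).summable.norm.mul_left (2 * D.R)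
    refine Summable.of_norm_bounded h1 fun p => ?_
    rw [norm_mul, norm_mul]
    have := mul_le_mul_of_nonneg_left (norm_PrimE_le D p hz) (norm_nonneg (D.coef τ p.1 p.2 v))
    linarith

/-- a function which is holomorphic on the domain, without residues, has a primitive -/
theorem exists_primitive_U (hτ : D.Good τ) {v : ℂ → ℂ}
    (hv : DifferentiableOn ℂ v D.U) (h0 : ∀ j, D.coef τ (some j) 0 v = 0) :
    ∃ F : ℂ → ℂ, ∀ z ∈ D.U, HasDerivAt F (v z) z := by
  obtain ⟨G, hG⟩ := prim_aux D hτ hv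
  refine ⟨G, fun z hz => ?_⟩
  have h1 := hG z hz
  simpa [h0] using h1

private theorem exists_good'' {k : ℕ} (D : CD k) : ∃ τ, D.Good τ := by
  have h1 : ∀ᶠ τ in 𝓝[>] (0 : ℝ), 0 < τ := self_mem_nhdsWithin
  have h2 : ∀ c : ℝ, 0 < c → ∀ᶠ τ in 𝓝[>] (0 : ℝ), 2 * τ < c := fun c hc => by
    filter_upwards [Ioo_mem_nhdsGT (half_pos hc)] with τ hτ
    linarith [hτ.2]
  have h3 : ∀ᶠ τ in 𝓝[>] (0 : ℝ), ∀ j, 2 * τ < D.r j :=
    eventually_all.2 fun j => h2 _ (D.rpos j)
  have h4 : ∀ᶠ τ in 𝓝[>] (0 : ℝ), ∀ j, 2 * τ < D.R - (‖D.a j‖ + D.r j) :=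
    eventually_all.2 fun j => h2 _ (by linarith [D.inside j])
  have h5 : ∀ᶠ τ in 𝓝[>] (0 : ℝ), ∀ i j, i ≠ j → 2 * τ < ‖D.a i - D.a j‖ - (D.r i + D.r j) := by
    refine eventually_all.2 fun i => eventually_all.2 fun j => ?_
    by_cases hij : i = j
    · exact Eventually.of_forall fun τ h => absurd hij h
    · filter_upwards [h2 _ (sub_pos.2 (D.disj i j hij))] with τ hτ _ using hτ
  obtain ⟨τ, t1, t2, t3, t4, t5⟩ := (h1.and ((h2 _ D.Rpos).and (h3.and (h4.and h5)))).exists
  exact ⟨τ, t1, fun j => by linarith [t3 j], by linarith, fun j => by linarith [t4 j],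
    fun i j hij => by linarith [t5 i j hij]⟩

/-- a function which is holomorphic on the enlarged domain, without residues, has a primitive -/
theorem exists_primitive (hτ : D.Good τ) {δ : ℝ} (hδ : 0 < δ) (hδτ : δ ≤ τ) {v : ℂ → ℂ}
    (hv : DifferentiableOn ℂ v (D.Ue δ)) (h0 : ∀ j, D.coef τ (some j) 0 v = 0) :
    ∃ F : ℂ → ℂ, ∀ z ∈ D.Ue δ, HasDerivAt F (v z) z := by
  have hδr : ∀ j, δ < D.r j := fun j => lt_of_le_of_lt hδτ (hτ.lt_r j)
  have hUe : D.U ⊆ D.Ue δ := D.U_subset_cU.trans (D.cU_subset_Ue hδ)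
  obtain ⟨F, hF⟩ := exists_primitive_U D hτ (hv.mono hUe) h0
  set D' := D.enl δ hδ.le hδr with hD'
  have hD'U : D'.U = D.Ue δ := D.enl_U δ hδ.le hδr
  obtain ⟨τ', hτ'⟩ := exists_good'' D'
  rw [← hD'U] at hv
  obtain ⟨G, hG⟩ := prim_aux D' hτ' hv
  -- the residues vanish
  have hres : ∀ j, D'.coef τ' (some j) 0 v = 0 := by
    intro j
    set ρ := D.r j + τ with hρ
    have hρ0 : 0 < ρ := by linarith [D.rpos j, hτ.pos]
    have hsph : sphere (D.a j) ρ ⊆ D.U := by
      intro z hz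
      rw [mem_sphere, dist_eq_norm] at hz
      refine ⟨?_, fun i => ?_⟩
      · have h3 := norm_add_le (z - D.a j) (D.a j)
        rw [sub_add_cancel] at h3
        linarith [hτ.inside j, hτ.pos]
      · by_cases hij : i = j
        · subst hij
          rw [hz]
          linarith [hτ.pos]
        · have h2 := hτ.disj i j hij
          have h3 := norm_sub_le (z - D.a j) (z - D.a i)
          have h4 : z - D.a j - (z - D.a i) = D.a i - D.a j := by ring
          rw [h4, hz] at h3
          linarith [hτ.pos]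
    have h1 : (∮ z in C(D.a j, ρ), ∑ i, D'.coef τ' (some i) 0 v * D'.E (some i) 0 z) = 0 := by
      refine circleIntegral.integral_eq_zero_of_hasDerivWithinAt' (f := fun z => F z - G z)
        (fun z hz => ?_)
      rw [abs_of_pos hρ0] at hz
      have h2 := (hF z (hsph hz)).sub (hG z (hD'U ▸ hUe (hsph hz)))
      rw [sub_sub_cancel] at h2
      exact h2.hasDerivWithinAt
    have hne : ∀ i, ∀ z ∈ sphere (D.a j) ρ, z - D.a i ≠ 0 := fun i z hz => sub_ne D (hsph hz) i
    have hcont : ∀ i, ContinuousOn (fun z : ℂ => D'.coef τ' (some i) 0 v * D'.E (some i) 0 z)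
        (sphere (D.a j) ρ) := by
      intro i
      simp only [CD.E, zero_add, pow_one]
      refine continuousOn_const.mul (continuousOn_const.div (by fun_prop) fun z hz => ?_)
      exact hne i z hz
    rw [circleIntegral.integral_fun_sum fun i _ => (hcont i).circleIntegrable hρ0.le] at h1
    have h2 : ∀ i, i ≠ j →
        (∮ z in C(D.a j, ρ), D'.coef τ' (some i) 0 v * D'.E (some i) 0 z) = 0 := by
      intro i hij
      have h5 : ∀ z ∈ closedBall (D.a j) ρ, z - D.a i ≠ 0 := by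
        intro z hz h6
        rw [mem_closedBall, dist_eq_norm] at hz
        have h7 : z = D.a i := sub_eq_zero.1 h6
        have h8 := hτ.disj i j hij
        rw [h7] at hz
        linarith [hτ.pos, D.rpos i]
      have h6 : ∀ z ∈ closedBall (D.a j) ρ, DifferentiableAt ℂ
          (fun z : ℂ => D'.coef τ' (some i) 0 v * D'.E (some i) 0 z) z := by
        intro z hz
        simp only [CD.E, zero_add, pow_one]
        refine (differentiableAt_const _).mul ((differentiableAt_const _).div (by fun_prop) ?_)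
        exact h5 z hz
      refine Complex.circleIntegral_eq_zero_of_differentiable_on_off_countable hρ0.le
        countable_empty (fun z hz => (h6 z hz).continuousAt.continuousWithinAt) fun z hz => ?_
      exact h6 z (ball_subset_closedBall hz.1)
    rw [Finset.sum_eq_single j (fun i _ hij => h2 i hij) (by simp)] at h1
    have h3 : (∮ z in C(D.a j, ρ), D'.coef τ' (some j) 0 v * D'.E (some j) 0 z) =
        D'.coef τ' (some j) 0 v * ((D.r j - δ : ℝ) * (2 * Real.pi * Complex.I)) := by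
      have h4 : (fun z : ℂ => D'.coef τ' (some j) 0 v * D'.E (some j) 0 z) =
          fun z => (D'.coef τ' (some j) 0 v * (D.r j - δ : ℝ)) * (z - D.a j)⁻¹ := by
        ext z
        simp only [CD.E, zero_add, pow_one, div_eq_mul_inv, hD', CD.enl]
        ring
      rw [h4, circleIntegral.integral_const_mul, circleIntegral.integral_sub_center_inv _ hρ0.ne']
      ring
    rw [h3] at h1
    have h4 : ((D.r j - δ : ℝ) : ℂ) ≠ 0 := by
      have := sub_pos.2 (hδr j)
      exact_mod_cast this.ne'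
    have h5 : (2 * Real.pi * Complex.I : ℂ) ≠ 0 := Complex.two_pi_I_ne_zero
    exact (mul_eq_zero.1 h1).resolve_right (mul_ne_zero h4 h5)
  refine ⟨G, fun z hz => ?_⟩
  have h1 := hG z (hD'U ▸ hz)
  simpa [hres] using h1

end

end Pool.Agent.Helper7.KE
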