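import Pool.Agent.Helper7.KE.C1

set_option autoImplicit false

open MeasureTheory Set Filter Asymptotics Topology Metric
open scoped ComplexConjugate ENNReal

namespace Pool.Agent.Helper7.KE

/-! ### Parseval for finite sums and polar coordinates -/

theorem c6_int_exp (j : ℤ) : ∫ θ in (-Real.pi)..Real.pi, Complex.exp (j * θ * Complex.I) =
    if j = 0 then 2 * Real.pi else 0 := by
  by_cases hj : j = 0
  · rw [if_pos hj, hj]
    simp only [Int.cast_zero, zero_mul, Complex.exp_zero, intervalIntegral.integral_const]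
    rw [show Real.pi - -Real.pi = 2 * Real.pi by ring]
    simp
  · rw [if_neg hj]
    have h1 : (fun θ : ℝ => Complex.exp (j * θ * Complex.I)) =
        fun θ : ℝ => Complex.exp ((j * Complex.I) * θ) := by
      funext θ
      congr 1
      ring
    have h2 : (j * Complex.I : ℂ) ≠ 0 := mul_ne_zero (by exact_mod_cast hj) Complex.I_ne_zero
    rw [h1, integral_exp_mul_complex h2]
    have h3 : Complex.exp (j * Complex.I * (Real.pi : ℝ)) =
        Complex.exp (j * Complex.I * ((-Real.pi : ℝ) : ℂ)) := by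
      rw [Complex.exp_eq_exp_iff_exists_int]
      refine ⟨j, ?_⟩
      push_cast
      ring
    rw [h3, sub_self, zero_div]
    simp

theorem c6_parseval (m : ℕ) (c : ℕ → ℂ) (s : ℕ → ℤ) (hs : Function.Injective s) :
    ∫ θ in (-Real.pi)..Real.pi, ‖∑ n ∈ Finset.range m, c n *
      Complex.exp (s n * θ * Complex.I)‖ ^ 2 = 2 * Real.pi * ∑ n ∈ Finset.range m, ‖c n‖ ^ 2 := by
  have h1 : ∀ θ : ℝ, ((‖∑ n ∈ Finset.range m, c n *
      Complex.exp (s n * θ * Complex.I)‖ ^ 2 : ℝ) : ℂ) =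
        ∑ n ∈ Finset.range m, ∑ n' ∈ Finset.range m, c n * conj (c n') *
          Complex.exp ((s n - s n' : ℤ) * θ * Complex.I) := by
    intro θ
    rw [← Complex.normSq_eq_norm_sq, ← Complex.mul_conj, map_sum, Finset.sum_mul_sum]
    refine Finset.sum_congr rfl fun n _ => Finset.sum_congr rfl fun n' _ => ?_
    rw [map_mul, ← Complex.exp_conj]
    have e : Complex.exp ((s n - s n' : ℤ) * θ * Complex.I) =
        Complex.exp (s n * θ * Complex.I) * Complex.exp (conj (s n' * θ * Complex.I)) := by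
      rw [← Complex.exp_add]
      congr 1
      rw [map_mul, map_mul, Complex.conj_I, Complex.conj_ofReal, map_intCast]
      push_cast
      ring
    rw [e]
    ring
  apply Complex.ofReal_injective
  rw [← intervalIntegral.integral_ofReal]
  simp only [h1]
  have hc : ∀ n n' : ℕ, Continuous fun θ : ℝ => c n * conj (c n') *
      Complex.exp ((s n - s n' : ℤ) * θ * Complex.I) := by
    intro n n'
    fun_prop
  rw [intervalIntegral.integral_finsetSum fun n _ =>
    (continuous_finsetSum _ fun n' _ => hc n n').intervalIntegrable _ _]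
  have h2 : ∀ n ∈ Finset.range m, ∫ θ in (-Real.pi)..Real.pi, ∑ n' ∈ Finset.range m,
      c n * conj (c n') * Complex.exp ((s n - s n' : ℤ) * θ * Complex.I) =
        ((2 * Real.pi * ‖c n‖ ^ 2 : ℝ) : ℂ) := by
    intro n hn
    rw [intervalIntegral.integral_finsetSum fun n' _ => (hc n n').intervalIntegrable _ _]
    rw [Finset.sum_eq_single n]
    · rw [intervalIntegral.integral_const_mul, c6_int_exp, if_pos (by omega), Complex.mul_conj,
        Complex.normSq_eq_norm_sq]
      push_cast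
      ring
    · intro n' _ hne
      rw [intervalIntegral.integral_const_mul, c6_int_exp, if_neg]
      · simp
      · intro h
        exact hne (hs (by omega))
    · intro h
      exact absurd hn h
  rw [Finset.sum_congr rfl h2, ← Complex.ofReal_sum, Finset.mul_sum]

theorem c6_polar {J : Set ℝ} (hJ : MeasurableSet J) (hJ0 : J ⊆ Ioi 0) (a : ℂ) {G : ℂ → ℂ}
    (hG : Measurable G) (m : ℕ) (c : ℕ → ℝ → ℂ) (s : ℕ → ℤ) (hs : Function.Injective s)
    (h : ∀ ρ ∈ J, ∀ θ : ℝ, G (a + ρ * Complex.exp (θ * Complex.I)) =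
      ∑ n ∈ Finset.range m, c n ρ * Complex.exp (s n * θ * Complex.I)) :
    ∫⁻ z in {z | ‖z - a‖ ∈ J}, ENNReal.ofReal (‖G z‖ ^ 2) =
      ∫⁻ ρ in J, ENNReal.ofReal (ρ * (2 * Real.pi * ∑ n ∈ Finset.range m, ‖c n ρ‖ ^ 2)) := by
  set g : ℂ → ℝ≥0∞ := fun z => ({z | ‖z‖ ∈ J} : Set ℂ).indicator
    (fun z => ENNReal.ofReal (‖G (a + z)‖ ^ 2)) z with hg
  have hSm : MeasurableSet ({z | ‖z‖ ∈ J} : Set ℂ) := measurable_norm hJ
  have hSm' : MeasurableSet ({z | ‖z - a‖ ∈ J} : Set ℂ) :=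
    (measurable_norm.comp (measurable_id.sub_const a)) hJ
  have hgm : Measurable g :=
    ((hG.comp (measurable_const.add measurable_id)).norm.pow_const 2).ennreal_ofReal.indicator hSm
  have h1 : ∫⁻ z in {z | ‖z - a‖ ∈ J}, ENNReal.ofReal (‖G z‖ ^ 2) = ∫⁻ z, g z := by
    rw [← lintegral_indicator hSm', ← lintegral_add_left_eq_self _ a]
    refine lintegral_congr fun z => ?_
    have e : ‖a + z - a‖ = ‖z‖ := by rw [add_sub_cancel_left]
    by_cases hz : ‖z‖ ∈ J
    · rw [indicator_of_mem (show a + z ∈ {z | ‖z - a‖ ∈ J} by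
        show ‖a + z - a‖ ∈ J
        rw [e]; exact hz), hg]
      simp only
      rw [indicator_of_mem (show z ∈ {z | ‖z‖ ∈ J} from hz)]
    · rw [indicator_of_notMem (show a + z ∉ {z | ‖z - a‖ ∈ J} by
        show ¬ ‖a + z - a‖ ∈ J
        rw [e]; exact hz), hg]
      simp only
      rw [indicator_of_notMem (show z ∉ {z | ‖z‖ ∈ J} from hz)]
  rw [h1, ← Complex.lintegral_comp_polarCoord_symm, polarCoord_target]
  have h2 : Measurable fun p : ℝ × ℝ => ENNReal.ofReal p.1 • g (Complex.polarCoord.symm p) := by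
    have : Measurable fun p : ℝ × ℝ => Complex.polarCoord.symm p := by
      simp only [Complex.polarCoord_symm_apply]
      fun_prop
    exact (measurable_fst.ennreal_ofReal).smul (hgm.comp this)
  rw [Measure.volume_eq_prod, ← Measure.prod_restrict, lintegral_prod _ h2.aemeasurable]
  have h3 : ∀ ρ ∈ Ioi (0 : ℝ), ∫⁻ θ in Ioo (-Real.pi) Real.pi,
      ENNReal.ofReal ρ • g (Complex.polarCoord.symm (ρ, θ)) =
        J.indicator (fun ρ => ENNReal.ofReal
          (ρ * (2 * Real.pi * ∑ n ∈ Finset.range m, ‖c n ρ‖ ^ 2))) ρ := by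
    intro ρ hρ
    have e0 : ∀ θ : ℝ, Complex.polarCoord.symm (ρ, θ) = ρ * Complex.exp (θ * Complex.I) := by
      intro θ
      rw [Complex.polarCoord_symm_apply, Complex.exp_mul_I]
      push_cast
      rfl
    have e1 : ∀ θ : ℝ, ‖(ρ * Complex.exp (θ * Complex.I) : ℂ)‖ = ρ := by
      intro θ
      rw [norm_mul, Complex.norm_exp_ofReal_mul_I, mul_one, Complex.norm_real,
        Real.norm_of_nonneg (le_of_lt hρ)]
    by_cases hJρ : ρ ∈ J
    · rw [indicator_of_mem hJρ]
      have e2 : ∀ θ : ℝ, g (Complex.polarCoord.symm (ρ, θ)) = ENNReal.ofReal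
          (‖∑ n ∈ Finset.range m, c n ρ * Complex.exp (s n * θ * Complex.I)‖ ^ 2) := by
        intro θ
        rw [e0, hg]
        simp only
        rw [indicator_of_mem (show (ρ * Complex.exp (θ * Complex.I) : ℂ) ∈ {z : ℂ | ‖z‖ ∈ J} by
          show ‖(ρ * Complex.exp (θ * Complex.I) : ℂ)‖ ∈ J
          rw [e1]; exact hJρ), h ρ hJρ θ]
      simp only [e2, smul_eq_mul]
      rw [lintegral_const_mul _ (by fun_prop)]
      have hcont : Continuous fun θ : ℝ =>
          ‖∑ n ∈ Finset.range m, c n ρ * Complex.exp (s n * θ * Complex.I)‖ ^ 2 := by fun_prop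
      have e3 : IntegrableOn (fun θ : ℝ =>
          ‖∑ n ∈ Finset.range m, c n ρ * Complex.exp (s n * θ * Complex.I)‖ ^ 2)
            (Ioo (-Real.pi) Real.pi) :=
        (hcont.integrableOn_Icc (a := -Real.pi) (b := Real.pi)).mono_set Ioo_subset_Icc_self
      rw [← ofReal_integral_eq_lintegral_ofReal e3
        (Eventually.of_forall fun θ => sq_nonneg _), ← integral_Ioc_eq_integral_Ioo,
        ← intervalIntegral.integral_of_le (by linarith [Real.pi_pos]), c6_parseval m _ s hs,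
        ← ENNReal.ofReal_mul (le_of_lt hρ)]
    · rw [indicator_of_notMem hJρ]
      have e2 : ∀ θ : ℝ, g (Complex.polarCoord.symm (ρ, θ)) = 0 := by
        intro θ
        rw [e0, hg]
        simp only
        rw [indicator_of_notMem (show (ρ * Complex.exp (θ * Complex.I) : ℂ) ∉ {z : ℂ | ‖z‖ ∈ J} by
          show ¬ ‖(ρ * Complex.exp (θ * Complex.I) : ℂ)‖ ∈ J
          rw [e1]; exact hJρ)]
      simp only [e2, smul_zero, lintegral_zero]
  rw [setLIntegral_congr_fun measurableSet_Ioi h3, lintegral_indicator hJ,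
    Measure.restrict_restrict hJ, inter_eq_left.2 hJ0]

section
variable {k : ℕ} (D : CD k)

theorem c6_bridge {S : Set ℂ} {G : ℂ → ℂ} {B : ℝ} (hB : 0 ≤ B) (hG : Measurable G)
    (hS : D.U ≤ᵐ[volume] S)
    (h : ∫⁻ z in S, ENNReal.ofReal (‖G z‖ ^ 2) ≤ ENNReal.ofReal B) :
    ∫ z in D.U, ‖G z‖ ^ 2 ≤ B := by
  rw [integral_eq_lintegral_of_nonneg_ae (Eventually.of_forall fun z => sq_nonneg _)
    (hG.norm.pow_const 2).aestronglyMeasurable]
  exact ENNReal.toReal_le_of_le_ofReal hB ((lintegral_mono_set' hS).trans h)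

theorem norm_disc (m : ℕ) (x : ℕ → ℂ) :
    ∫ z in D.U, ‖∑ n ∈ Finset.range m, x n * D.E none n z‖ ^ 2 ≤
      Real.pi * D.R ^ 2 * ∑ n ∈ Finset.range m, ‖x n‖ ^ 2 / (n + 1) := by
  have hR := D.Rpos
  have hG : Measurable fun z : ℂ => ∑ n ∈ Finset.range m, x n * D.E none n z := by
    simp only [CD.E]
    fun_prop
  refine c6_bridge D (S := {z | ‖z - 0‖ ∈ Ioo 0 D.R})
    (mul_nonneg (by positivity) (Finset.sum_nonneg fun n _ => by positivity)) hG ?_ ?_
  · have h0 : ∀ᵐ z : ℂ, z ≠ 0 := by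
      rw [ae_iff]
      simp
    filter_upwards [h0] with z hz hzU
    refine ⟨norm_pos_iff.2 (by simpa using hz), ?_⟩
    rw [sub_zero]
    exact hzU.1
  · rw [c6_polar measurableSet_Ioo (fun ρ hρ => hρ.1) 0 hG m (fun n ρ => x n * (ρ / D.R) ^ n)
      (fun n => (n : ℤ)) Nat.cast_injective
      (fun ρ _ θ => ?_)]
    · have e : ∀ ρ : ℝ, ρ * (2 * Real.pi * ∑ n ∈ Finset.range m,
          ‖x n * ((ρ : ℂ) / D.R) ^ n‖ ^ 2) =
            ∑ n ∈ Finset.range m, (2 * Real.pi * ‖x n‖ ^ 2 / D.R ^ (2 * n)) * ρ ^ (2 * n + 1) := by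
        intro ρ
        rw [Finset.mul_sum, Finset.mul_sum]
        refine Finset.sum_congr rfl fun n _ => ?_
        rw [norm_mul, norm_pow, norm_div, Complex.norm_real, Complex.norm_real,
          Real.norm_of_nonneg hR.le, Real.norm_eq_abs, mul_pow, ← pow_mul, mul_comm n 2, div_pow,
          pow_mul |ρ| 2 n, sq_abs, ← pow_mul, pow_succ]
        ring
      simp only [e]
      have hc : Continuous fun ρ : ℝ => ∑ n ∈ Finset.range m,
          (2 * Real.pi * ‖x n‖ ^ 2 / D.R ^ (2 * n)) * ρ ^ (2 * n + 1) := by fun_prop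
      have hint : IntegrableOn (fun ρ : ℝ => ∑ n ∈ Finset.range m,
          (2 * Real.pi * ‖x n‖ ^ 2 / D.R ^ (2 * n)) * ρ ^ (2 * n + 1)) (Ioo 0 D.R) :=
        (hc.integrableOn_Icc (a := 0) (b := D.R)).mono_set Ioo_subset_Icc_self
      rw [← ofReal_integral_eq_lintegral_ofReal hint ?_, ← integral_Ioc_eq_integral_Ioo,
        ← intervalIntegral.integral_of_le hR.le]
      · refine ENNReal.ofReal_le_ofReal (le_of_eq ?_)
        rw [intervalIntegral.integral_finsetSum fun n _ => (by fun_prop :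
          Continuous fun ρ : ℝ => (2 * Real.pi * ‖x n‖ ^ 2 / D.R ^ (2 * n)) *
            ρ ^ (2 * n + 1)).intervalIntegrable _ _, Finset.mul_sum]
        refine Finset.sum_congr rfl fun n _ => ?_
        rw [intervalIntegral.integral_const_mul, integral_pow]
        have h1 : D.R ^ (2 * n) ≠ 0 := pow_ne_zero _ hR.ne'
        have h2 : ((n : ℝ) + 1) ≠ 0 := by positivity
        have h3 : D.R ^ (2 * n + 1 + 1) = D.R ^ (2 * n) * D.R ^ 2 := by ring
        rw [h3]
        push_cast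
        rw [zero_pow (by omega)]
        field_simp
        ring
      · filter_upwards [ae_restrict_mem measurableSet_Ioo] with ρ hρ
        refine Finset.sum_nonneg fun n _ => ?_
        have := hρ.1.le
        positivity
    · refine Finset.sum_congr rfl fun n _ => ?_
      show x n * ((0 + (ρ : ℂ) * Complex.exp (θ * Complex.I)) / D.R) ^ n = _
      have e : Complex.exp (((n : ℤ) : ℂ) * θ * Complex.I) =
          Complex.exp (θ * Complex.I) ^ n := by
        rw [← Complex.exp_nat_mul]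
        congr 1
        push_cast
        ring
      rw [e, zero_add, mul_div_right_comm, mul_pow, mul_assoc]

theorem norm_ext (j : Fin k) (m : ℕ) (x : ℕ → ℂ) :
    ∫ z in D.U, ‖∑ n ∈ Finset.range m, x n * D.E (some j) (n + 1) z‖ ^ 2 ≤
      Real.pi * D.r j ^ 2 * ∑ n ∈ Finset.range m, ‖x n‖ ^ 2 / (n + 1) := by
  have hr := D.rpos j
  have hG : Measurable fun z : ℂ => ∑ n ∈ Finset.range m, x n * D.E (some j) (n + 1) z := by
    simp only [CD.E]
    fun_prop
  refine c6_bridge D (S := {z | ‖z - D.a j‖ ∈ Ioi (D.r j)})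
    (mul_nonneg (by positivity) (Finset.sum_nonneg fun n _ => by positivity)) hG ?_ ?_
  · exact Eventually.of_forall fun z hz => hz.2 j
  · rw [c6_polar measurableSet_Ioi (fun ρ hρ => hr.trans hρ) (D.a j) hG m
      (fun n ρ => x n * (D.r j / ρ) ^ (n + 2))
      (fun n => -((n : ℤ) + 2)) (fun n n' h => by
        have h' : -((n : ℤ) + 2) = -((n' : ℤ) + 2) := h
        omega)
      (fun ρ hρ θ => ?_)]
    · have e : ∀ ρ ∈ Ioi (D.r j), ρ * (2 * Real.pi * ∑ n ∈ Finset.range m,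
          ‖x n * ((D.r j : ℂ) / ρ) ^ (n + 2)‖ ^ 2) =
            ∑ n ∈ Finset.range m, (2 * Real.pi * ‖x n‖ ^ 2 * D.r j ^ (2 * n + 4)) *
              ρ ^ (-(2 * n + 3 : ℝ)) := by
        intro ρ hρ
        have hρ0 : 0 < ρ := hr.trans hρ
        rw [Finset.mul_sum, Finset.mul_sum]
        refine Finset.sum_congr rfl fun n _ => ?_
        have e1 : ρ ^ (-(2 * n + 3 : ℝ)) = (ρ ^ (2 * n + 3))⁻¹ := by
          rw [Real.rpow_neg hρ0.le, ← Real.rpow_natCast]
          push_cast
          rfl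
        rw [e1, norm_mul, norm_pow, norm_div, Complex.norm_real, Complex.norm_real,
          Real.norm_of_nonneg hr.le, Real.norm_of_nonneg hρ0.le, mul_pow, ← pow_mul, div_pow,
          show (n + 2) * 2 = 2 * n + 4 by ring]
        have h1 : ρ ^ (2 * n + 4) = ρ * ρ ^ (2 * n + 3) := by ring
        rw [h1]
        have h2 : ρ ^ (2 * n + 3) ≠ 0 := pow_ne_zero _ hρ0.ne'
        field_simp
      rw [setLIntegral_congr_fun measurableSet_Ioi
        (fun ρ hρ => congrArg ENNReal.ofReal (e ρ hρ))]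
      have hi : ∀ n : ℕ, IntegrableOn (fun ρ : ℝ => (2 * Real.pi * ‖x n‖ ^ 2 *
          D.r j ^ (2 * n + 4)) * ρ ^ (-(2 * n + 3 : ℝ))) (Ioi (D.r j)) := by
        intro n
        refine (integrableOn_Ioi_rpow_of_lt ?_ hr).const_mul _
        have : (0 : ℝ) ≤ n := Nat.cast_nonneg n
        linarith
      rw [← ofReal_integral_eq_lintegral_ofReal (integrable_finsetSum _ fun n _ => hi n) ?_]
      · refine ENNReal.ofReal_le_ofReal (le_of_eq ?_)
        rw [integral_finsetSum _ fun n _ => hi n, Finset.mul_sum]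
        refine Finset.sum_congr rfl fun n _ => ?_
        have hn : (0 : ℝ) ≤ n := Nat.cast_nonneg n
        rw [integral_const_mul, integral_Ioi_rpow_of_lt (by linarith) hr]
        have e2 : D.r j ^ (-(2 * n + 3 : ℝ) + 1) = (D.r j ^ (2 * n + 2))⁻¹ := by
          rw [show (-(2 * n + 3 : ℝ) + 1) = -(2 * n + 2 : ℝ) by ring, Real.rpow_neg hr.le,
            ← Real.rpow_natCast]
          push_cast
          rfl
        rw [e2, show D.r j ^ (2 * n + 4) = D.r j ^ (2 * n + 2) * D.r j ^ 2 by ring]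
        have h1 : D.r j ^ (2 * n + 2) ≠ 0 := pow_ne_zero _ hr.ne'
        have h2 : ((n : ℝ) + 1) ≠ 0 := by positivity
        have h3 : (-(2 * n + 3 : ℝ) + 1) ≠ 0 := by
          have : (-(2 * n + 3 : ℝ) + 1) < 0 := by linarith
          exact this.ne
        have h4 : (-(2 * n + 3 : ℝ) + 1) = -(2 * (n + 1)) := by ring
        rw [h4]
        field_simp
      · filter_upwards [ae_restrict_mem measurableSet_Ioi] with ρ hρ
        refine Finset.sum_nonneg fun n _ => ?_
        have : 0 < ρ := hr.trans hρ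
        positivity
    · refine Finset.sum_congr rfl fun n _ => ?_
      show x n * (D.r j / (D.a j + (ρ : ℂ) * Complex.exp (θ * Complex.I) - D.a j)) ^ (n + 1 + 1) = _
      have e : Complex.exp (((-((n : ℤ) + 2) : ℤ) : ℂ) * θ * Complex.I) =
          (Complex.exp (θ * Complex.I) ^ (n + 2))⁻¹ := by
        rw [← Complex.exp_nat_mul, ← Complex.exp_neg]
        congr 1
        push_cast
        ring
      rw [e, add_sub_cancel_left, show n + 1 + 1 = n + 2 from rfl, div_pow, div_pow, mul_pow]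
      rw [div_mul_eq_div_div, div_eq_mul_inv (_ / _) (Complex.exp _ ^ _), ← mul_assoc]

/-- the plane without the centres of the holes -/
def c6V : Set ℂ := ⋂ j, {z | z ≠ D.a j}

theorem c6V_open : IsOpen (c6V D) := isOpen_iInter_of_finite fun _ => isOpen_ne

theorem c6V_sub : D.cU ⊆ c6V D := by
  intro z hz
  refine mem_iInter.2 fun j h => ?_
  have := hz.2 j
  rw [show z = D.a j from h, sub_self, norm_zero] at this
  linarith [D.rpos j]

theorem c6_E_diff (l : Option (Fin k)) (n : ℕ) : DifferentiableOn ℂ (D.E l n) (c6V D) := by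
  intro z hz
  cases l with
  | none =>
    unfold CD.E
    exact ((differentiableAt_id.div_const _).pow _).differentiableWithinAt
  | some j =>
    unfold CD.E
    refine ((DifferentiableAt.div (differentiableAt_const _)
      (differentiableAt_id.sub_const _) ?_).pow _).differentiableWithinAt
    exact sub_ne_zero.2 (mem_iInter.1 hz j)

/-- derivative of the test functions -/
theorem c6_A_deriv_none (n : ℕ) (z : ℂ) :
    HasDerivAt (D.A none n) (((n : ℂ) + 1) / D.R * D.E none n z) z := by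
  have h := ((hasDerivAt_id z).div_const (D.R : ℂ)).pow (n + 1)
  refine h.congr_deriv ?_
  show ((n + 1 : ℕ) : ℂ) * (z / D.R) ^ (n + 1 - 1) * (1 / D.R) = _ * (z / D.R) ^ n
  rw [Nat.add_sub_cancel]
  push_cast
  ring

theorem c6_A_deriv_some (j : Fin k) (n : ℕ) {z : ℂ} (hz : z ≠ D.a j) :
    HasDerivAt (D.A (some j) n) (-(((n : ℂ) + 1) / D.r j) * D.E (some j) (n + 1) z) z := by
  have hz' : z - D.a j ≠ 0 := sub_ne_zero.2 hz
  have hr : (D.r j : ℂ) ≠ 0 := by exact_mod_cast (D.rpos j).ne'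
  have h := ((hasDerivAt_const z (D.r j : ℂ)).div ((hasDerivAt_id z).sub_const (D.a j)) hz').pow
    (n + 1)
  refine h.congr_deriv ?_
  show ((n + 1 : ℕ) : ℂ) * (D.r j / (z - D.a j)) ^ (n + 1 - 1) *
    ((0 * (z - D.a j) - D.r j * 1) / (z - D.a j) ^ 2) = _ * (D.r j / (z - D.a j)) ^ (n + 1 + 1)
  rw [Nat.add_sub_cancel]
  push_cast
  generalize z - D.a j = u at hz' ⊢
  have e : (D.r j / u : ℂ) ^ (n + 1 + 1) = (D.r j / u : ℂ) ^ n * ((D.r j / u) * (D.r j / u)) := by
    rw [pow_succ, pow_succ, mul_assoc]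
  rw [e]
  generalize (D.r j / u : ℂ) ^ n = w
  field_simp
  ring

theorem c6_comb_hasDeriv (z₀ : ℂ) (l : Option (Fin k)) (m : ℕ) (x : ℕ → ℂ) :
    ∃ y : ℕ → ℂ, (∀ n, ‖y n‖ = ((n : ℝ) + 1) / D.rad l) ∧
      ∀ z ∈ c6V D, HasDerivAt (D.comb z₀ l m x) (∑ n ∈ Finset.range m, (x n * y n) *
        (match l with
          | none => D.E none n z
          | some j => D.E (some j) (n + 1) z)) z := by
  have hn1 : ∀ n : ℕ, ‖((n : ℂ) + 1)‖ = (n : ℝ) + 1 := by
    intro n
    have : ((n : ℂ) + 1) = (((n : ℝ) + 1 : ℝ) : ℂ) := by push_cast; rfl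
    rw [this, Complex.norm_real, Real.norm_of_nonneg (by positivity)]
  cases l with
  | none =>
    refine ⟨fun n => ((n : ℂ) + 1) / D.R, fun n => ?_, fun z hz => ?_⟩
    · show ‖((n : ℂ) + 1) / D.R‖ = ((n : ℝ) + 1) / D.R
      rw [norm_div, Complex.norm_real, Real.norm_of_nonneg D.Rpos.le, hn1]
    · have h := HasDerivAt.fun_sum (u := Finset.range m) fun n _ =>
        ((c6_A_deriv_none D n z).sub_const (D.A none n z₀)).const_mul (x n)
      refine h.congr_deriv (Finset.sum_congr rfl fun n _ => ?_)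
      show x n * (_ * D.E none n z) = x n * _ * D.E none n z
      ring
  | some j =>
    refine ⟨fun n => -(((n : ℂ) + 1) / D.r j), fun n => ?_, fun z hz => ?_⟩
    · show ‖-(((n : ℂ) + 1) / D.r j)‖ = ((n : ℝ) + 1) / D.r j
      rw [norm_neg, norm_div, Complex.norm_real, Real.norm_of_nonneg (D.rpos j).le, hn1]
    · have h := HasDerivAt.fun_sum (u := Finset.range m) fun n _ =>
        ((c6_A_deriv_some D j n (mem_iInter.1 hz j)).sub_const (D.A (some j) n z₀)).const_mul (x n)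
      refine h.congr_deriv (Finset.sum_congr rfl fun n _ => ?_)
      show x n * (_ * D.E (some j) (n + 1) z) = x n * _ * D.E (some j) (n + 1) z
      ring

theorem c6_comb_diff (z₀ : ℂ) (l : Option (Fin k)) (m : ℕ) (x : ℕ → ℂ) :
    DifferentiableOn ℂ (D.comb z₀ l m x) (c6V D) := by
  intro z hz
  obtain ⟨y, -, hy⟩ := c6_comb_hasDeriv D z₀ l m x
  exact (hy z hz).differentiableAt.differentiableWithinAt

/-- geometric bound for the values of the test functions at `z₀` -/
theorem c6_A_z0 {z₀ : ℂ} (hz₀ : z₀ ∈ D.U) (l : Option (Fin k)) :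
    ∃ q : ℝ, 0 ≤ q ∧ q < 1 ∧ ∀ n, ‖D.A l n z₀‖ ≤ q ^ n := by
  cases l with
  | none =>
    have h0 : 0 ≤ ‖z₀‖ / D.R := div_nonneg (norm_nonneg _) D.Rpos.le
    have h1 : ‖z₀‖ / D.R < 1 := (div_lt_one D.Rpos).2 hz₀.1
    refine ⟨‖z₀‖ / D.R, h0, h1, fun n => ?_⟩
    show ‖(z₀ / D.R) ^ (n + 1)‖ ≤ _
    rw [norm_pow, norm_div, Complex.norm_real, Real.norm_of_nonneg D.Rpos.le]
    exact pow_le_pow_of_le_one h0 h1.le (Nat.le_succ n)
  | some j =>
    have hp : 0 < ‖z₀ - D.a j‖ := (D.rpos j).trans (hz₀.2 j)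
    have h0 : 0 ≤ D.r j / ‖z₀ - D.a j‖ := div_nonneg (D.rpos j).le (norm_nonneg _)
    have h1 : D.r j / ‖z₀ - D.a j‖ < 1 := (div_lt_one hp).2 (hz₀.2 j)
    refine ⟨D.r j / ‖z₀ - D.a j‖, h0, h1, fun n => ?_⟩
    show ‖(D.r j / (z₀ - D.a j)) ^ (n + 1)‖ ≤ _
    rw [norm_pow, norm_div, Complex.norm_real, Real.norm_of_nonneg (D.rpos j).le]
    exact pow_le_pow_of_le_one h0 h1.le (Nat.le_succ n)

/-- the shifted basis functions -/
noncomputable def c6E (l : Option (Fin k)) (n : ℕ) (z : ℂ) : ℂ :=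
  match l with
  | none => D.E none n z
  | some j => D.E (some j) (n + 1) z

theorem c6E_norm (l : Option (Fin k)) (m : ℕ) (x : ℕ → ℂ) :
    ∫ z in D.U, ‖∑ n ∈ Finset.range m, x n * c6E D l n z‖ ^ 2 ≤
      Real.pi * D.rad l ^ 2 * ∑ n ∈ Finset.range m, ‖x n‖ ^ 2 / (n + 1) := by
  cases l with
  | none => exact norm_disc D m x
  | some j => exact norm_ext D j m x

theorem c6E_hol (l : Option (Fin k)) (m : ℕ) (x : ℕ → ℂ) :
    D.Hol2 (fun z => ∑ n ∈ Finset.range m, x n * c6E D l n z) := by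
  refine hol2_of_nhds D (c6V_open D) (c6V_sub D) ?_
  refine DifferentiableOn.fun_sum fun n _ => DifferentiableOn.const_mul ?_ _
  cases l with
  | none => exact c6_E_diff D none n
  | some j => exact c6_E_diff D (some j) (n + 1)

/-- `Σ x_n A_n = (bounded function) · Σ x_n E_n` -/
theorem c6_A_E (l : Option (Fin k)) (m : ℕ) (x : ℕ → ℂ) {z : ℂ} (hz : z ∈ D.U) :
    ‖∑ n ∈ Finset.range m, x n * D.A l n z‖ ≤
      (2 * D.R / D.rad l) * ‖∑ n ∈ Finset.range m, x n * c6E D l n z‖ := by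
  have hR := D.Rpos
  cases l with
  | none =>
    have e : ∑ n ∈ Finset.range m, x n * D.A none n z =
        (z / D.R) * ∑ n ∈ Finset.range m, x n * c6E D none n z := by
      rw [Finset.mul_sum]
      refine Finset.sum_congr rfl fun n _ => ?_
      show x n * (z / D.R) ^ (n + 1) = z / D.R * (x n * (z / D.R) ^ n)
      ring
    rw [e, norm_mul]
    refine mul_le_mul_of_nonneg_right ?_ (norm_nonneg _)
    rw [norm_div, Complex.norm_real, Real.norm_of_nonneg hR.le]
    show ‖z‖ / D.R ≤ 2 * D.R / D.R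
    exact div_le_div_of_nonneg_right (by linarith [hz.1]) hR.le
  | some j =>
    have hr := D.rpos j
    have hp : 0 < ‖z - D.a j‖ := hr.trans (hz.2 j)
    have hz' : z - D.a j ≠ 0 := norm_pos_iff.1 hp
    have hr' : (D.r j : ℂ) ≠ 0 := by exact_mod_cast hr.ne'
    have e : ∑ n ∈ Finset.range m, x n * D.A (some j) n z =
        ((z - D.a j) / D.r j) * ∑ n ∈ Finset.range m, x n * c6E D (some j) n z := by
      rw [Finset.mul_sum]
      refine Finset.sum_congr rfl fun n _ => ?_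
      show x n * (D.r j / (z - D.a j)) ^ (n + 1) =
        (z - D.a j) / D.r j * (x n * (D.r j / (z - D.a j)) ^ (n + 1 + 1))
      rw [pow_succ _ (n + 1)]
      field_simp
    rw [e, norm_mul]
    refine mul_le_mul_of_nonneg_right ?_ (norm_nonneg _)
    rw [norm_div, Complex.norm_real, Real.norm_of_nonneg hr.le]
    show ‖z - D.a j‖ / D.r j ≤ 2 * D.R / D.r j
    refine div_le_div_of_nonneg_right ?_ hr.le
    have := norm_sub_le z (D.a j)
    linarith [hz.1, D.inside j]

theorem c6_rad_pos (l : Option (Fin k)) : 0 < D.rad l := by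
  cases l with
  | none => exact D.Rpos
  | some j => exact D.rpos j

theorem norm_comb_l {z₀ : ℂ} (hz₀ : z₀ ∈ D.U) (l : Option (Fin k)) :
    ∃ C : ℝ, 0 ≤ C ∧ ∀ (m : ℕ) (x : ℕ → ℂ),
    D.Hol2 (D.comb z₀ l m x) ∧ D.Hol2 (deriv (D.comb z₀ l m x)) ∧
    ∫ z in D.U, ‖D.comb z₀ l m x z‖ ^ 2 ≤ C * ∑ n ∈ Finset.range m, (n + 1) * ‖x n‖ ^ 2 ∧
    ∫ z in D.U, ‖deriv (D.comb z₀ l m x) z‖ ^ 2 ≤
      C * ∑ n ∈ Finset.range m, (n + 1) * ‖x n‖ ^ 2 := by
  obtain ⟨q, hq0, hq1, hq⟩ := c6_A_z0 D hz₀ l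
  have hrad := c6_rad_pos D l
  set V := volume.real D.U with hV
  have hV0 : 0 ≤ V := measureReal_nonneg
  have hq2 : q ^ 2 < 1 := by nlinarith
  set K := (1 - q ^ 2)⁻¹ with hK
  have hK0 : 0 ≤ K := inv_nonneg.2 (by linarith)
  refine ⟨2 * (2 * D.R / D.rad l) ^ 2 * (Real.pi * D.rad l ^ 2) + 2 * K * V + Real.pi,
    by have := Real.pi_pos; positivity, fun m x => ?_⟩
  set S := ∑ n ∈ Finset.range m, ((n : ℝ) + 1) * ‖x n‖ ^ 2 with hS
  have hS0 : 0 ≤ S := Finset.sum_nonneg fun n _ => by positivity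
  have hdiff := c6_comb_diff D z₀ l m x
  have hderiv : DifferentiableOn ℂ (deriv (D.comb z₀ l m x)) (c6V D) :=
    hdiff.deriv (c6V_open D)
  have hS1 : ∑ n ∈ Finset.range m, ‖x n‖ ^ 2 / ((n : ℝ) + 1) ≤ S := by
    refine Finset.sum_le_sum fun n _ => ?_
    have hn : (0 : ℝ) ≤ n := Nat.cast_nonneg n
    rw [div_le_iff₀ (by positivity)]
    have h1 : 1 ≤ ((n : ℝ) + 1) * ((n : ℝ) + 1) := by nlinarith
    nlinarith [sq_nonneg ‖x n‖]
  refine ⟨hol2_of_nhds D (c6V_open D) (c6V_sub D) hdiff,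
    hol2_of_nhds D (c6V_open D) (c6V_sub D) hderiv, ?_, ?_⟩
  · set c := ∑ n ∈ Finset.range m, x n * D.A l n z₀ with hc
    have hcS : ‖c‖ ^ 2 ≤ K * S := by
      have h1 : ‖c‖ ≤ ∑ n ∈ Finset.range m, ‖x n‖ * ‖D.A l n z₀‖ := by
        rw [hc]
        refine (norm_sum_le _ _).trans (le_of_eq ?_)
        exact Finset.sum_congr rfl fun n _ => norm_mul _ _
      have h2 := Finset.sum_mul_sq_le_sq_mul_sq (Finset.range m) (fun n => ‖x n‖)
        (fun n => ‖D.A l n z₀‖)
      have h3 : ∑ n ∈ Finset.range m, ‖D.A l n z₀‖ ^ 2 ≤ K := by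
        have h4 : ∑ n ∈ Finset.range m, ‖D.A l n z₀‖ ^ 2 ≤
            ∑ n ∈ Finset.range m, (q ^ 2) ^ n := by
          refine Finset.sum_le_sum fun n _ => ?_
          rw [← pow_mul, mul_comm, pow_mul]
          exact pow_le_pow_left₀ (norm_nonneg _) (hq n) 2
        refine h4.trans ?_
        rw [hK, ← tsum_geometric_of_lt_one (sq_nonneg q) hq2]
        exact (summable_geometric_of_lt_one (sq_nonneg q) hq2).sum_le_tsum _
          fun n _ => pow_nonneg (sq_nonneg q) n
      have h5 : ∑ n ∈ Finset.range m, ‖x n‖ ^ 2 ≤ S := by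
        refine Finset.sum_le_sum fun n _ => ?_
        have hn : (0 : ℝ) ≤ n := Nat.cast_nonneg n
        nlinarith [sq_nonneg ‖x n‖]
      calc ‖c‖ ^ 2 ≤ (∑ n ∈ Finset.range m, ‖x n‖ * ‖D.A l n z₀‖) ^ 2 :=
            pow_le_pow_left₀ (norm_nonneg _) h1 2
        _ ≤ _ := h2
        _ ≤ S * K := mul_le_mul h5 h3 (Finset.sum_nonneg fun n _ => sq_nonneg _) hS0
        _ = K * S := mul_comm _ _
    have hpt : ∀ z ∈ D.U, ‖D.comb z₀ l m x z‖ ^ 2 ≤
        2 * (2 * D.R / D.rad l) ^ 2 * ‖∑ n ∈ Finset.range m, x n * c6E D l n z‖ ^ 2 +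
          2 * (K * S) := by
      intro z hz
      have e : D.comb z₀ l m x z = ∑ n ∈ Finset.range m, x n * D.A l n z - c := by
        rw [hc, ← Finset.sum_sub_distrib]
        exact Finset.sum_congr rfl fun n _ => by ring
      have h1 := c6_A_E D l m x hz
      have h2 : ‖D.comb z₀ l m x z‖ ≤ ‖∑ n ∈ Finset.range m, x n * D.A l n z‖ + ‖c‖ := by
        rw [e]; exact norm_sub_le _ _
      have h3 : ‖∑ n ∈ Finset.range m, x n * D.A l n z‖ ^ 2 ≤
          ((2 * D.R / D.rad l) * ‖∑ n ∈ Finset.range m, x n * c6E D l n z‖) ^ 2 :=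
        pow_le_pow_left₀ (norm_nonneg _) h1 2
      rw [mul_pow] at h3
      have h4 : ‖D.comb z₀ l m x z‖ ^ 2 ≤
          2 * ‖∑ n ∈ Finset.range m, x n * D.A l n z‖ ^ 2 + 2 * ‖c‖ ^ 2 := by
        have := pow_le_pow_left₀ (norm_nonneg _) h2 2
        nlinarith [sq_nonneg (‖∑ n ∈ Finset.range m, x n * D.A l n z‖ - ‖c‖)]
      nlinarith
    have hint : Integrable (fun z => ‖∑ n ∈ Finset.range m, x n * c6E D l n z‖ ^ 2)
        (volume.restrict D.U) :=
      (c6E_hol D l m x).memLp.integrable_norm_pow (by norm_num)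
    have h6 : ∫ z in D.U, ‖D.comb z₀ l m x z‖ ^ 2 ≤ ∫ z in D.U,
        (2 * (2 * D.R / D.rad l) ^ 2 * ‖∑ n ∈ Finset.range m, x n * c6E D l n z‖ ^ 2 +
          2 * (K * S)) := by
      refine integral_mono_of_nonneg (Eventually.of_forall fun z => sq_nonneg _)
        ((hint.const_mul _).add (integrable_const _)) ?_
      filter_upwards [ae_restrict_mem D.U_open.measurableSet] with z hz using hpt z hz
    refine h6.trans ?_
    rw [integral_add (hint.const_mul _) (integrable_const _), integral_const_mul]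
    have h7 : ∫ _z in D.U, (2 * (K * S)) = V * (2 * (K * S)) := by
      rw [integral_const, smul_eq_mul, measureReal_restrict_apply MeasurableSet.univ, univ_inter]
    rw [h7]
    have h8 := (c6E_norm D l m x).trans (mul_le_mul_of_nonneg_left hS1 (by positivity))
    have h9 : 0 ≤ Real.pi * S := mul_nonneg Real.pi_nonneg hS0
    have h10 := mul_le_mul_of_nonneg_left h8
      (show 0 ≤ 2 * (2 * D.R / D.rad l) ^ 2 by positivity)
    nlinarith
  · obtain ⟨y, hy, hd⟩ := c6_comb_hasDeriv D z₀ l m x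
    have e : ∀ z ∈ D.U, deriv (D.comb z₀ l m x) z =
        ∑ n ∈ Finset.range m, (x n * y n) * c6E D l n z := by
      intro z hz
      rw [(hd z (c6V_sub D (D.U_subset_cU hz))).deriv]
      cases l with
      | none => rfl
      | some j => rfl
    rw [setIntegral_congr_fun D.U_open.measurableSet fun z hz => by
      show ‖deriv (D.comb z₀ l m x) z‖ ^ 2 =
        ‖∑ n ∈ Finset.range m, (x n * y n) * c6E D l n z‖ ^ 2
      rw [e z hz]]
    refine (c6E_norm D l m _).trans ?_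
    have e2 : Real.pi * D.rad l ^ 2 * ∑ n ∈ Finset.range m, ‖x n * y n‖ ^ 2 / ((n : ℝ) + 1) =
        Real.pi * S := by
      rw [hS, mul_assoc, Finset.mul_sum]
      congr 1
      refine Finset.sum_congr rfl fun n _ => ?_
      have hn : ((n : ℝ) + 1) ≠ 0 := by positivity
      rw [norm_mul, hy n]
      field_simp
    rw [e2]
    have h1 : 0 ≤ (2 * (2 * D.R / D.rad l) ^ 2 * (Real.pi * D.rad l ^ 2) + 2 * K * V) * S := by
      have := Real.pi_pos
      positivity
    nlinarith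

/-- norms of normalised combinations of test functions and of their derivatives -/
theorem norm_comb {z₀ : ℂ} (hz₀ : z₀ ∈ D.U) : ∃ C : ℝ, ∀ (l : Option (Fin k)) (m : ℕ) (x : ℕ → ℂ),
    D.Hol2 (D.comb z₀ l m x) ∧ D.Hol2 (deriv (D.comb z₀ l m x)) ∧
    ∫ z in D.U, ‖D.comb z₀ l m x z‖ ^ 2 ≤ C * ∑ n ∈ Finset.range m, (n + 1) * ‖x n‖ ^ 2 ∧
    ∫ z in D.U, ‖deriv (D.comb z₀ l m x) z‖ ^ 2 ≤
      C * ∑ n ∈ Finset.range m, (n + 1) * ‖x n‖ ^ 2 := by
  choose C hC0 hC using fun l => norm_comb_l D hz₀ l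
  refine ⟨∑ l, C l, fun l m x => ?_⟩
  obtain ⟨h1, h2, h3, h4⟩ := hC l m x
  have h5 : C l ≤ ∑ l, C l := Finset.single_le_sum (fun l _ => hC0 l) (Finset.mem_univ l)
  have h6 : 0 ≤ ∑ n ∈ Finset.range m, ((n : ℝ) + 1) * ‖x n‖ ^ 2 :=
    Finset.sum_nonneg fun n _ => by positivity
  exact ⟨h1, h2, h3.trans (mul_le_mul_of_nonneg_right h5 h6),
    h4.trans (mul_le_mul_of_nonneg_right h5 h6)⟩

end

end Pool.Agent.Helper7.KE
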