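import Pool.Agent.Helper7.KE.A3
import Pool.Agent.Helper7.KE.A5a
import Pool.Agent.Helper7.KE.C1

set_option autoImplicit false

open MeasureTheory Set Filter Asymptotics Topology Metric
open scoped ComplexConjugate ENNReal

namespace Pool.Agent.Helper7.KE

section
variable {k : ℕ} (D : CD k) {τ : ℝ}

/-! #### auxiliary facts -/

theorem c7a_integrable {g : ℂ → ℂ} (hg : D.Hol2 g) {b : ℂ → ℂ} (hb : ContinuousOn b D.cU) :
    IntegrableOn (fun z => g z * b z) D.U := by
  obtain ⟨C, hC⟩ := D.cU_compact.exists_bound_of_continuousOn hb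
  have h1 : Integrable g (volume.restrict D.U) := hg.memLp.integrable one_le_two
  refine h1.mul_bdd (c := C) ((hb.mono D.U_subset_cU).aestronglyMeasurable D.U_open.measurableSet) ?_
  filter_upwards [ae_restrict_mem D.U_open.measurableSet] with z hz
  exact hC z (D.U_subset_cU hz)

theorem c7a_dzb_cont {F : ℂ → ℂ} {V : Set ℂ} (hV : IsOpen V) (hcV : D.cU ⊆ V)
    (hF : ContDiffOn ℝ (⊤ : ℕ∞) F V) : ContinuousOn (dzb F) D.cU :=
  ((dz_contDiffOn hV hF).2.continuousOn).mono hcV

/-- the complement of the centres -/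
private def W : Set ℂ := {z | ∀ j, z ≠ D.a j}

private theorem W_open : IsOpen (W D) := by
  have : W D = ⋂ j, {z | z ≠ D.a j} := by ext z; simp [W]
  rw [this]
  exact isOpen_iInter_of_finite fun j => isOpen_ne

private theorem cU_W : D.cU ⊆ W D := by
  intro z hz j h
  have := hz.2 j
  rw [h, sub_self, norm_zero] at this
  exact absurd (D.rpos j) (not_lt.mpr this)

/-- base of the test functions -/
private noncomputable def bb : Option (Fin k) → ℂ → ℂ
  | none => fun z => z / D.R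
  | some j => fun z => D.r j / (z - D.a j)

/-- its holomorphic reflection -/
private noncomputable def cc : Option (Fin k) → ℂ → ℂ
  | none => fun z => D.R / z
  | some j => fun z => (z - D.a j) / D.r j

private theorem A_eq (l : Option (Fin k)) (n : ℕ) : D.A l n = fun z => bb D l z ^ (n + 1) := by
  cases l <;> rfl

private theorem bb_diff (l : Option (Fin k)) {z : ℂ} (hz : z ∈ W D) :
    DifferentiableAt ℂ (bb D l) z := by
  cases l with
  | none => exact differentiableAt_id.div_const _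
  | some j =>
    exact (differentiableAt_const _).div (differentiableAt_id.sub_const _) (sub_ne_zero.2 (hz j))

private theorem A_diff (l : Option (Fin k)) (n : ℕ) {z : ℂ} (hz : z ∈ W D) :
    DifferentiableAt ℂ (D.A l n) z := by
  rw [A_eq]
  exact (bb_diff D l hz).pow _

private theorem conj_bb (l : Option (Fin k)) {z : ℂ} (hz : z ∈ D.circ l) :
    conj (bb D l z) = cc D l z := by
  cases l with
  | none =>
    have h1 : ‖z‖ = D.R := by simpa [CD.circ, CD.cen, CD.rad] using hz
    have hR : (D.R : ℂ) ≠ 0 := Complex.ofReal_ne_zero.2 D.Rpos.ne'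
    have hz0 : z ≠ 0 := by
      rw [← norm_pos_iff, h1]; exact D.Rpos
    have h2 : z * conj z = (D.R : ℂ) ^ 2 := by
      rw [Complex.mul_conj, Complex.normSq_eq_norm_sq, h1]
      push_cast
      rfl
    simp only [bb, cc, map_div₀, Complex.conj_ofReal]
    rw [div_eq_div_iff hR hz0]
    rw [mul_comm, h2, sq]
  | some j =>
    have h1 : ‖z - D.a j‖ = D.r j := by simpa [CD.circ, CD.cen, CD.rad, dist_eq_norm] using hz
    have hR : (D.r j : ℂ) ≠ 0 := Complex.ofReal_ne_zero.2 (D.rpos j).ne'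
    have hz0 : z - D.a j ≠ 0 := by
      rw [← norm_pos_iff, h1]; exact D.rpos j
    have h2 : (z - D.a j) * conj (z - D.a j) = (D.r j : ℂ) ^ 2 := by
      rw [Complex.mul_conj, Complex.normSq_eq_norm_sq, h1]
      push_cast
      rfl
    have hz1 : conj (z - D.a j) ≠ 0 := (map_ne_zero (starRingEnd ℂ)).mpr hz0
    simp only [bb, cc, map_div₀, Complex.conj_ofReal]
    rw [div_eq_div_iff hz1 hR, h2, sq]

private theorem chi_none_zero (hτ : 0 < τ) {z : ℂ} (hz : ‖z‖ < D.R - 2 * τ / 3) :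
    D.chi τ none z = 0 := by
  simp only [CD.chi]
  apply Real.smoothTransition.zero_of_nonpos
  have : 2 ≤ 3 * (D.R - ‖z‖) / τ := by
    rw [le_div_iff₀ hτ]; linarith
  linarith

private theorem chi_none_near (hτ : D.Good τ) : ∀ᶠ w : ℂ in 𝓝 0, D.chi τ none w = 0 := by
  have h1 : ∀ᶠ z : ℂ in 𝓝 0, ‖z‖ < D.R - 2 * τ / 3 := by
    refine (continuous_norm.tendsto (0 : ℂ)).eventually (p := fun x => x < D.R - 2 * τ / 3) ?_
    apply Iio_mem_nhds
    rw [norm_zero]; linarith [hτ.lt_R, hτ.pos]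
  filter_upwards [h1] with z hz
  exact chi_none_zero D hτ.pos hz

private theorem chiC_smooth (hτ : D.Good τ) (l : Option (Fin k)) :
    ContDiff ℝ (⊤ : ℕ∞) (fun w => (D.chi τ l w : ℂ)) :=
  Complex.ofRealCLM.contDiff.comp (chi_smooth D hτ.pos hτ.lt_R l)

private theorem conjA_smooth (l : Option (Fin k)) (n : ℕ) :
    ContDiffOn ℝ (⊤ : ℕ∞) (fun w => conj (D.A l n w)) (W D) := by
  have h1 : ContDiffOn ℝ (⊤ : ℕ∞) (D.A l n) (W D) :=
    hol_contDiffOn (W_open D) fun z hz => (A_diff D l n hz).differentiableWithinAt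
  exact Complex.conjCLE.contDiff.comp_contDiffOn h1

private theorem cc_smooth (hτ : D.Good τ) (l : Option (Fin k)) (n : ℕ) :
    ContDiff ℝ (⊤ : ℕ∞) (fun w => (D.chi τ l w : ℂ) * cc D l w ^ n) := by
  rw [contDiff_iff_contDiffAt]
  intro z
  cases l with
  | none =>
    by_cases hz : z = 0
    · subst hz
      have h : (fun w => (D.chi τ none w : ℂ) * cc D none w ^ n) =ᶠ[𝓝 0] fun _ => 0 := by
        filter_upwards [chi_none_near D hτ] with w hw
        rw [hw]; simp
      exact contDiffAt_const.congr_of_eventuallyEq h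
    · refine (chiC_smooth D hτ none).contDiffAt.mul (ContDiffAt.pow ?_ _)
      have : cc D none = fun w : ℂ => (D.R : ℂ) * w⁻¹ := by
        funext w
        exact div_eq_mul_inv _ _
      rw [this]
      exact contDiffAt_const.mul (contDiffAt_id.inv hz)
  | some j =>
    refine (chiC_smooth D hτ _).contDiffAt.mul (ContDiffAt.pow ?_ _)
    exact (contDiffAt_id.sub contDiffAt_const).div_const _

/-- `∂_z̄ (χ c^n) = c^n ∂_z̄ χ` -/
private theorem dzb_cc (hτ : D.Good τ) (l : Option (Fin k)) (n : ℕ) (z : ℂ) :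
    dzb (fun w => (D.chi τ l w : ℂ) * cc D l w ^ n) z =
      cc D l z ^ n * dzb (fun w => (D.chi τ l w : ℂ)) z := by
  have key : ∀ z, DifferentiableAt ℂ (cc D l) z →
      dzb (fun w => (D.chi τ l w : ℂ) * cc D l w ^ n) z =
      cc D l z ^ n * dzb (fun w => (D.chi τ l w : ℂ)) z := by
    intro z hz
    have h1 : DifferentiableAt ℂ (fun w => cc D l w ^ n) z := hz.pow _
    have h2 : DifferentiableAt ℝ (fun w => (D.chi τ l w : ℂ)) z :=
      (chiC_smooth D hτ l).contDiffAt.differentiableAt (by simp)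
    have h3 := (dz_smul h2 (F := fun w => cc D l w ^ n) (h1.restrictScalars ℝ)).2
    simp only [smul_eq_mul] at h3
    rw [h3, (dz_hol h1).2, mul_zero, add_zero, mul_comm]
  cases l with
  | none =>
    by_cases hz : z = 0
    · subst hz
      have h1 : (fun w => (D.chi τ none w : ℂ) * cc D none w ^ n) =ᶠ[𝓝 0] fun _ => 0 := by
        filter_upwards [chi_none_near D hτ] with w hw
        rw [hw]; simp
      have h2 : (fun w => (D.chi τ none w : ℂ)) =ᶠ[𝓝 0] fun _ => 0 := by
        filter_upwards [chi_none_near D hτ] with w hw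
        rw [hw]; simp
      rw [(dz_congr h1).2, (dz_congr h2).2, dz_const.2, mul_zero]
    · exact key z ((differentiableAt_const _).div differentiableAt_id hz)
  | some j => exact key z ((differentiableAt_id.sub_const _).div_const _)

private theorem chi_circ (hτ : D.Good τ) {l l' : Option (Fin k)} {z : ℂ} (hz : z ∈ D.circ l') :
    D.chi τ l z = if l = l' then 1 else 0 := by
  split_ifs with h
  · subst h
    exact (chi_near D hτ.pos l hz).self_of_nhds
  · by_contra h0
    exact (disjoint_left.mp (chi_disj D hτ h) (subset_tsupport _ h0))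
      (circ_subset_tsupport D hτ.pos l' hz)

/-- the diagonal terms -/
private theorem Lt_diag (hτ : D.Good τ) {g : ℂ → ℂ} (hg : D.Hol2 g) (l : Option (Fin k)) (n : ℕ) :
    ∫ z in D.U, g z * dzb (fun w => (D.chi τ l w : ℂ) * conj (D.A l n w)) z =
      ∫ z in D.U, g z * cc D l z ^ (n + 1) * dzb (fun w => (D.chi τ l w : ℂ)) z := by
  have hF1 : ContDiffOn ℝ (⊤ : ℕ∞) (fun w => (D.chi τ l w : ℂ) * conj (D.A l n w)) (W D) :=
    (chiC_smooth D hτ l).contDiffOn.mul (conjA_smooth D l n)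
  have hF2 := cc_smooth D hτ l (n + 1)
  have h1 := orth_zero D (W_open D) (cU_W D)
    (σ := fun w => (D.chi τ l w : ℂ) * conj (D.A l n w) + -((D.chi τ l w : ℂ) * cc D l w ^ (n + 1)))
    ((hF1.add hF2.contDiffOn.neg).of_le (by exact_mod_cast le_top)) (by
      intro l' z hz
      by_cases h : l = l'
      · subst h
        rw [A_eq]
        simp only [map_pow]
        rw [conj_bb D l hz, add_neg_cancel]
      · rw [chi_circ D hτ hz, if_neg h]
        simp) hg
  have h2 : ∀ z ∈ D.U, g z * dzb (fun w => (D.chi τ l w : ℂ) * conj (D.A l n w) +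
      -((D.chi τ l w : ℂ) * cc D l w ^ (n + 1))) z =
      g z * dzb (fun w => (D.chi τ l w : ℂ) * conj (D.A l n w)) z -
      g z * cc D l z ^ (n + 1) * dzb (fun w => (D.chi τ l w : ℂ)) z := by
    intro z hz
    have hzW : z ∈ W D := cU_W D (D.U_subset_cU hz)
    have hd1 : DifferentiableAt ℝ (fun w => (D.chi τ l w : ℂ) * conj (D.A l n w)) z :=
      (hF1.contDiffAt ((W_open D).mem_nhds hzW)).differentiableAt (by simp)
    have hd2 : DifferentiableAt ℝ (fun w => -((D.chi τ l w : ℂ) * cc D l w ^ (n + 1))) z :=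
      (hF2.contDiffAt.differentiableAt (by simp)).neg
    rw [(dz_add hd1 hd2).2, dz_neg.2, dzb_cc D hτ]
    ring
  have hi1 : IntegrableOn (fun z => g z *
      dzb (fun w => (D.chi τ l w : ℂ) * conj (D.A l n w)) z) D.U :=
    c7a_integrable D hg (c7a_dzb_cont D (W_open D) (cU_W D) hF1)
  have hi2 : IntegrableOn (fun z => g z * cc D l z ^ (n + 1) *
      dzb (fun w => (D.chi τ l w : ℂ)) z) D.U := by
    have := c7a_integrable D hg (c7a_dzb_cont D isOpen_univ (subset_univ _)
      hF2.contDiffOn)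
    refine this.congr_fun (fun z _ => ?_) D.U_open.measurableSet
    simp only
    rw [dzb_cc D hτ]
    ring
  rw [setIntegral_congr_fun D.U_open.measurableSet h2, integral_sub hi1 hi2] at h1
  exact sub_eq_zero.mp h1

/-- splitting of `L_t` along the cutoff functions -/
theorem c7a_Lt_split (hτ : D.Good τ) (t : Fin k → ℂ) {g : ℂ → ℂ} (hg : D.Hol2 g) {V : Set ℂ}
    (hV : IsOpen V) (hcV : D.cU ⊆ V) {b : ℂ → ℂ} (hb : ContDiffOn ℝ (⊤ : ℕ∞) b V) :
    ∫ z in D.U, g z * dzb (fun w => D.X τ t w * b w) z =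
      (∫ z in D.U, g z * dzb (fun w => (D.chi τ none w : ℂ) * b w) z) +
        ∑ i, t i * ∫ z in D.U, g z * dzb (fun w => (D.chi τ (some i) w : ℂ) * b w) z := by
  set χ : ℂ → ℂ := fun w => 1 + -((D.chi τ none w : ℂ) + ∑ i, (D.chi τ (some i) w : ℂ)) with hχ
  have hχs : ContDiff ℝ (⊤ : ℕ∞) χ :=
    contDiff_const.add ((chiC_smooth D hτ none).add
      (ContDiff.sum fun i _ => chiC_smooth D hτ (some i))).neg
  have hχb : ContDiffOn ℝ (⊤ : ℕ∞) (fun w => χ w * b w) V := hχs.contDiffOn.mul hb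
  have hlb : ∀ l, ContDiffOn ℝ (⊤ : ℕ∞) (fun w => (D.chi τ l w : ℂ) * b w) V := fun l =>
    (chiC_smooth D hτ l).contDiffOn.mul hb
  have h1 : ∫ z in D.U, g z * dzb (fun w => χ w * b w) z = 0 := by
    refine orth_zero D hV hcV (hχb.of_le (by exact_mod_cast le_top)) (fun l z hz => ?_) hg
    have : χ z = 0 := by
      rw [hχ]
      simp only
      rw [chi_circ D hτ hz]
      simp_rw [chi_circ D hτ hz]
      cases l with
      | none => simp
      | some j =>
        have : ∑ x : Fin k, ((if some x = some j then (1 : ℝ) else 0 : ℝ) : ℂ) = 1 := by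
          rw [← Complex.ofReal_sum]
          simp
        rw [this]
        simp
    rw [this, zero_mul]
  have hdiff : ∀ {F : ℂ → ℂ}, ContDiffOn ℝ (⊤ : ℕ∞) F V → ∀ z ∈ D.U, DifferentiableAt ℝ F z :=
    fun hF z hz => (hF.contDiffAt (hV.mem_nhds (hcV (D.U_subset_cU hz)))).differentiableAt
      (by simp)
  have hint : ∀ {F : ℂ → ℂ}, ContDiffOn ℝ (⊤ : ℕ∞) F V →
      IntegrableOn (fun z => g z * dzb F z) D.U :=
    fun hF => c7a_integrable D hg (c7a_dzb_cont D hV hcV hF)
  have h2 : ∀ z ∈ D.U, g z * dzb (fun w => D.X τ t w * b w) z =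
      (g z * dzb (fun w => χ w * b w) z + g z * dzb (fun w => (D.chi τ none w : ℂ) * b w) z) +
      ∑ i, t i * (g z * dzb (fun w => (D.chi τ (some i) w : ℂ) * b w) z) := by
    intro z hz
    have e : (fun w => D.X τ t w * b w) = fun w => (χ w * b w + (D.chi τ none w : ℂ) * b w) +
        ∑ i, t i • ((D.chi τ (some i) w : ℂ) * b w) := by
      funext w
      rw [CD.X, hχ]
      simp only [smul_eq_mul, add_mul, Finset.sum_mul, sub_mul, Finset.sum_sub_distrib, one_mul,
        neg_mul]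
      ring_nf
    have hci : ∀ i ∈ (Finset.univ : Finset (Fin k)), DifferentiableAt ℝ
        (fun w => t i • ((D.chi τ (some i) w : ℂ) * b w)) z := fun i _ =>
      (hdiff (hlb (some i)) z hz).const_smul (t i)
    rw [e, (dz_add ((hdiff hχb z hz).fun_add (hdiff (hlb none) z hz))
      (DifferentiableAt.fun_sum hci)).2, (dz_add (hdiff hχb z hz) (hdiff (hlb none) z hz)).2,
      (dz_sum _ hci).2]
    have h3 : ∀ i, dzb (fun w => t i • ((D.chi τ (some i) w : ℂ) * b w)) z =
        t i * dzb (fun w => (D.chi τ (some i) w : ℂ) * b w) z := by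
      intro i
      have := (dz_smul (f := fun _ => t i) (differentiableAt_const _)
        (hdiff (hlb (some i)) z hz)).2
      rw [this, dz_const.2, zero_smul, zero_add, smul_eq_mul]
    simp_rw [h3]
    rw [mul_add, mul_add, Finset.mul_sum]
    congr 1
    exact Finset.sum_congr rfl fun i _ => by ring
  rw [setIntegral_congr_fun D.U_open.measurableSet h2]
  have i1 : Integrable (fun z => g z * dzb (fun w => χ w * b w) z +
      g z * dzb (fun w => (D.chi τ none w : ℂ) * b w) z) (volume.restrict D.U) :=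
    (hint hχb).add (hint (hlb none))
  have i2 : ∀ i ∈ (Finset.univ : Finset (Fin k)), Integrable (fun z => t i *
      (g z * dzb (fun w => (D.chi τ (some i) w : ℂ) * b w) z)) (volume.restrict D.U) :=
    fun i _ => (hint (hlb (some i))).const_mul _
  rw [integral_add i1 (integrable_finsetSum _ i2), integral_add (hint hχb) (hint (hlb none)), h1,
    zero_add, integral_finsetSum _ i2]
  congr 1
  refine Finset.sum_congr rfl fun i _ => ?_
  rw [integral_const_mul]

theorem Lt_formula_none (hτ : D.Good τ) (t : Fin k → ℂ) {g : ℂ → ℂ} (hg : D.Hol2 g) (n : ℕ) :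
    D.Lt τ t g (D.A none n) = Real.pi * D.R * D.coef τ none n g +
      ∑ i, t i * ∫ z in D.U, g z *
        dzb (fun w => (D.chi τ (some i) w : ℂ) * conj (D.A none n w)) z := by
  rw [CD.Lt, c7a_Lt_split D hτ t hg (W_open D) (cU_W D) (conjA_smooth D none n), Lt_diag D hτ hg]
  congr 1
  rw [CD.coef, ← mul_assoc]
  have hR : (Real.pi * D.R : ℂ) ≠ 0 :=
    mul_ne_zero (Complex.ofReal_ne_zero.2 Real.pi_ne_zero) (Complex.ofReal_ne_zero.2 D.Rpos.ne')
  rw [mul_one_div_cancel hR, one_mul]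
  rfl

theorem Lt_formula_some (hτ : D.Good τ) (t : Fin k → ℂ) {g : ℂ → ℂ} (hg : D.Hol2 g) (j : Fin k)
    (n : ℕ) :
    D.Lt τ t g (D.A (some j) n) = -(Real.pi * D.r j * t j * D.coef τ (some j) (n + 1) g) +
      (∫ z in D.U, g z * dzb (fun w => (D.chi τ none w : ℂ) * conj (D.A (some j) n w)) z) +
      ∑ i ∈ Finset.univ.erase j, t i * ∫ z in D.U, g z *
        dzb (fun w => (D.chi τ (some i) w : ℂ) * conj (D.A (some j) n w)) z := by
  rw [CD.Lt, c7a_Lt_split D hτ t hg (W_open D) (cU_W D) (conjA_smooth D (some j) n),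
    ← Finset.add_sum_erase _ _ (Finset.mem_univ j), Lt_diag D hτ hg]
  have hR : (Real.pi * D.r j : ℂ) ≠ 0 :=
    mul_ne_zero (Complex.ofReal_ne_zero.2 Real.pi_ne_zero)
      (Complex.ofReal_ne_zero.2 (D.rpos j).ne')
  have h1 : ∫ z in D.U, g z * cc D (some j) z ^ (n + 1) *
      dzb (fun w => (D.chi τ (some j) w : ℂ)) z = -(Real.pi * D.r j *
        D.coef τ (some j) (n + 1) g) := by
    have h2 : D.coef τ (some j) (n + 1) g = -(1 / (Real.pi * D.r j) : ℂ) *
      ∫ z in D.U, g z * ((z - D.a j) / D.r j) ^ (n + 1) *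
        dzb (fun w => (D.chi τ (some j) w : ℂ)) z := rfl
    rw [h2, neg_mul, mul_neg, neg_neg, ← mul_assoc, mul_one_div_cancel hR, one_mul]
    rfl
  rw [h1]
  ring

private theorem exists_npow_bound {q : ℝ} (h0 : 0 ≤ q) (h1 : q < 1) :
    ∃ C q' : ℝ, 0 ≤ C ∧ 0 ≤ q' ∧ q' < 1 ∧ ∀ n : ℕ, ((n : ℝ) + 1) * q ^ n ≤ C * q' ^ n := by
  have h2 : Real.sqrt q < 1 := by
    rw [Real.sqrt_lt' one_pos]
    linarith
  have h3 := (tendsto_self_mul_const_pow_of_lt_one (Real.sqrt_nonneg q) h2).bddAbove_range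
  obtain ⟨C, hC⟩ := h3
  refine ⟨max C 0 + 1, Real.sqrt q, by positivity, Real.sqrt_nonneg q, h2, fun n => ?_⟩
  have h4 : (n : ℝ) * Real.sqrt q ^ n ≤ C := hC ⟨n, rfl⟩
  have h5 : Real.sqrt q ^ n ≤ 1 := pow_le_one₀ (Real.sqrt_nonneg q) h2.le
  have h6 : q ^ n = Real.sqrt q ^ n * Real.sqrt q ^ n := by
    rw [← mul_pow, Real.mul_self_sqrt h0]
  rw [h6, ← mul_assoc]
  refine mul_le_mul_of_nonneg_right ?_ (pow_nonneg (Real.sqrt_nonneg q) n)
  rw [add_mul, one_mul]
  exact add_le_add (h4.trans (le_max_left _ _)) h5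

/-- the smoothing terms are exponentially small -/
theorem smoothing_bound (hτ : D.Good τ) : ∃ C q : ℝ, 0 ≤ q ∧ q < 1 ∧
    ∀ (l l' : Option (Fin k)) (n : ℕ), l ≠ l' → ∀ z ∈ D.U,
      ‖dzb (fun w => (D.chi τ l' w : ℂ) * conj (D.A l n w)) z‖ ≤ C * q ^ n := by
  have hτ0 := hτ.pos
  have hR0 := D.Rpos
  -- bounds
  obtain ⟨C₁, hC₁⟩ : ∃ C₁ : ℝ, ∀ l, ∀ z ∈ D.cU, ‖dzb (fun w => (D.chi τ l w : ℂ)) z‖ ≤ C₁ := by
    have h1 : ∀ l, ∃ C : ℝ, ∀ z ∈ D.cU, ‖dzb (fun w => (D.chi τ l w : ℂ)) z‖ ≤ C := fun l =>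
      D.cU_compact.exists_bound_of_continuousOn
        (c7a_dzb_cont D isOpen_univ (subset_univ _) (chiC_smooth D hτ l).contDiffOn)
    choose C hC using h1
    obtain ⟨M, hM⟩ := Finite.exists_le C
    exact ⟨M, fun l z hz => (hC l z hz).trans (hM l)⟩
  obtain ⟨C₂, hC₂⟩ : ∃ C₂ : ℝ, ∀ l, ∀ z ∈ D.cU, ‖deriv (bb D l) z‖ ≤ C₂ := by
    have h1 : ∀ l, ∃ C : ℝ, ∀ z ∈ D.cU, ‖deriv (bb D l) z‖ ≤ C := fun l => by
      refine D.cU_compact.exists_bound_of_continuousOn (ContinuousOn.mono ?_ (cU_W D))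
      have : DifferentiableOn ℂ (bb D l) (W D) := fun z hz =>
        (bb_diff D l hz).differentiableWithinAt
      exact (this.deriv (W_open D)).continuousOn
    choose C hC using h1
    obtain ⟨M, hM⟩ := Finite.exists_le C
    exact ⟨M, fun l z hz => (hC l z hz).trans (hM l)⟩
  have hC₁0 : 0 ≤ max C₁ 0 := le_max_right _ _
  have hC₂0 : 0 ≤ max C₂ 0 := le_max_right _ _
  set q : ℝ := D.R / (D.R + τ) with hq
  have hq0 : 0 ≤ q := by positivity
  have hq1 : q < 1 := by
    rw [hq, div_lt_one (by positivity)]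
    linarith
  have hbb : ∀ l l' : Option (Fin k), l ≠ l' → ∀ z ∈ tsupport (D.chi τ l'), ‖bb D l z‖ ≤ q := by
    intro l l' hll z hz
    cases l with
    | none =>
      cases l' with
      | none => exact absurd rfl hll
      | some j =>
        have h1 := (chi_tsupport D hτ0 j).1 hz
        rw [mem_closedBall, dist_eq_norm] at h1
        have h2 : ‖z‖ ≤ ‖D.a j‖ + ‖z - D.a j‖ := by
          have := norm_add_le (D.a j) (z - D.a j)
          rwa [add_sub_cancel] at this
        have h3 : ‖z‖ ≤ D.R - τ := by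
          have := hτ.inside j
          linarith
        simp only [bb, norm_div, Complex.norm_real, Real.norm_of_nonneg hR0.le]
        rw [hq, div_le_div_iff₀ hR0 (by positivity)]
        nlinarith [norm_nonneg z]
    | some i =>
      have key : D.r i + τ ≤ ‖z - D.a i‖ := by
        cases l' with
        | none =>
          have h1 := (chi_tsupport D hτ0 i).2 hz
          have h1' : D.R - 2 * τ / 3 ≤ ‖z‖ := h1
          have h2 : ‖z‖ ≤ ‖D.a i‖ + ‖z - D.a i‖ := by
            have := norm_add_le (D.a i) (z - D.a i)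
            rwa [add_sub_cancel] at this
          have := hτ.inside i
          linarith
        | some j =>
          have hij : i ≠ j := fun h => hll (by rw [h])
          have h1 := (chi_tsupport D hτ0 j).1 hz
          rw [mem_closedBall, dist_eq_norm] at h1
          have h2 : ‖D.a i - D.a j‖ ≤ ‖z - D.a i‖ + ‖z - D.a j‖ := by
            have := norm_sub_le (z - D.a j) (z - D.a i)
            rw [sub_sub_sub_cancel_left] at this
            linarith
          have := hτ.disj i j hij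
          linarith
      have hri := D.rpos i
      have hriR : D.r i < D.R := by
        have := D.inside i
        linarith [norm_nonneg (D.a i)]
      simp only [bb, norm_div, Complex.norm_real, Real.norm_of_nonneg hri.le]
      rw [hq, div_le_div_iff₀ (by linarith) (by positivity)]
      nlinarith
  obtain ⟨C₃, q', hC₃, hq'0, hq'1, hC₃'⟩ := exists_npow_bound hq0 hq1
  refine ⟨(max C₁ 0 + max C₂ 0) * C₃, q', hq'0, hq'1, fun l l' n hll z hz => ?_⟩
  have hzc := D.U_subset_cU hz
  have hzW := cU_W D hzc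
  by_cases hzs : z ∈ tsupport (D.chi τ l')
  · have hd1 : DifferentiableAt ℝ (fun w => (D.chi τ l' w : ℂ)) z :=
      (chiC_smooth D hτ l').contDiffAt.differentiableAt (by simp)
    have hd2 : DifferentiableAt ℝ (fun w => conj (D.A l n w)) z :=
      ((conjA_smooth D l n).contDiffAt ((W_open D).mem_nhds hzW)).differentiableAt (by simp)
    have h1 := (dz_smul hd1 hd2).2
    simp only [smul_eq_mul] at h1
    rw [h1, (dz_conj_hol (A_diff D l n hzW)).2]
    have hA' : deriv (D.A l n) z = ((n : ℂ) + 1) * bb D l z ^ n * deriv (bb D l) z := by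
      rw [A_eq]
      have := ((bb_diff D l hzW).hasDerivAt.pow (n + 1)).deriv
      rw [show (fun z => bb D l z ^ (n + 1)) = bb D l ^ (n + 1) from rfl, this]
      push_cast
      simp
    have hq2 : ‖bb D l z‖ ≤ q := hbb l l' hll z hzs
    have e1 : ‖dzb (fun w => (D.chi τ l' w : ℂ)) z * conj (D.A l n z)‖ ≤
        max C₁ 0 * (((n : ℝ) + 1) * q ^ n) := by
      rw [norm_mul, RCLike.norm_conj, A_eq]
      simp only [norm_pow]
      refine mul_le_mul ((hC₁ l' z hzc).trans (le_max_left _ _)) ?_ (by positivity) hC₁0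
      calc ‖bb D l z‖ ^ (n + 1) ≤ q ^ (n + 1) := pow_le_pow_left₀ (norm_nonneg _) hq2 _
        _ ≤ 1 * q ^ n := by
          rw [pow_succ, mul_comm]
          exact mul_le_mul_of_nonneg_right hq1.le (pow_nonneg hq0 n)
        _ ≤ ((n : ℝ) + 1) * q ^ n := by
          refine mul_le_mul_of_nonneg_right ?_ (pow_nonneg hq0 n)
          have : (0 : ℝ) ≤ n := Nat.cast_nonneg n
          linarith
    have e2 : ‖(D.chi τ l' z : ℂ) * conj (deriv (D.A l n) z)‖ ≤
        max C₂ 0 * (((n : ℝ) + 1) * q ^ n) := by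
      rw [norm_mul, RCLike.norm_conj, hA', norm_mul, norm_mul, norm_pow]
      have hn : ‖(n : ℂ) + 1‖ = (n : ℝ) + 1 := by
        have : ((n : ℂ) + 1) = ((n + 1 : ℕ) : ℂ) := by push_cast; rfl
        rw [this, Complex.norm_natCast]
        push_cast
        rfl
      rw [hn]
      have hχ1 : ‖(D.chi τ l' z : ℂ)‖ ≤ 1 := by
        rw [Complex.norm_real, Real.norm_of_nonneg (chi_mem D l' z).1]
        exact (chi_mem D l' z).2
      have h5 : ((n : ℝ) + 1) * ‖bb D l z‖ ^ n ≤ ((n : ℝ) + 1) * q ^ n :=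
        mul_le_mul_of_nonneg_left (pow_le_pow_left₀ (norm_nonneg _) hq2 _) (by positivity)
      have h6 : ‖deriv (bb D l) z‖ ≤ max C₂ 0 := (hC₂ l z hzc).trans (le_max_left _ _)
      have h7 : 0 ≤ ((n : ℝ) + 1) * ‖bb D l z‖ ^ n * ‖deriv (bb D l) z‖ := by positivity
      calc ‖(D.chi τ l' z : ℂ)‖ * (((n : ℝ) + 1) * ‖bb D l z‖ ^ n * ‖deriv (bb D l) z‖) ≤
          1 * (((n : ℝ) + 1) * ‖bb D l z‖ ^ n * ‖deriv (bb D l) z‖) :=
            mul_le_mul_of_nonneg_right hχ1 h7
        _ = (((n : ℝ) + 1) * ‖bb D l z‖ ^ n) * ‖deriv (bb D l) z‖ := by rw [one_mul]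
        _ ≤ (((n : ℝ) + 1) * q ^ n) * max C₂ 0 :=
            mul_le_mul h5 h6 (norm_nonneg _) (by positivity)
        _ = _ := mul_comm _ _
    calc _ ≤ _ := norm_add_le _ _
      _ ≤ max C₁ 0 * (((n : ℝ) + 1) * q ^ n) + max C₂ 0 * (((n : ℝ) + 1) * q ^ n) :=
          add_le_add e1 e2
      _ = (max C₁ 0 + max C₂ 0) * (((n : ℝ) + 1) * q ^ n) := by ring
      _ ≤ (max C₁ 0 + max C₂ 0) * (C₃ * q' ^ n) :=
          mul_le_mul_of_nonneg_left (hC₃' n) (by positivity)
      _ = _ := by ring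
  · have h1 : (fun w => (D.chi τ l' w : ℂ) * conj (D.A l n w)) =ᶠ[𝓝 z] fun _ => 0 := by
      have := notMem_tsupport_iff_eventuallyEq.mp hzs
      filter_upwards [this] with w hw
      rw [hw]
      simp
    rw [(dz_congr h1).2, dz_const.2, norm_zero]
    positivity

theorem A_bound (hτ : D.Good τ) {z₀ : ℂ} (hz₀ : z₀ ∈ D.U) : ∃ C q : ℝ, 0 ≤ q ∧ q < 1 ∧
    ∀ (l : Option (Fin k)) (n : ℕ), ‖D.A l n z₀‖ ≤ C * q ^ n := by
  have h1 : ∀ l, ‖bb D l z₀‖ < 1 := by
    intro l
    cases l with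
    | none =>
      simp only [bb, norm_div, Complex.norm_real, Real.norm_of_nonneg D.Rpos.le]
      rw [div_lt_one D.Rpos]
      exact hz₀.1
    | some j =>
      simp only [bb, norm_div, Complex.norm_real, Real.norm_of_nonneg (D.rpos j).le]
      rw [div_lt_one ((D.rpos j).trans (hz₀.2 j))]
      exact hz₀.2 j
  obtain ⟨l₀, hl₀⟩ := Finite.exists_max fun l => ‖bb D l z₀‖
  refine ⟨1, ‖bb D l₀ z₀‖, norm_nonneg _, h1 l₀, fun l n => ?_⟩
  rw [A_eq, one_mul]
  simp only [norm_pow]
  calc ‖bb D l z₀‖ ^ (n + 1) ≤ ‖bb D l₀ z₀‖ ^ (n + 1) :=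
        pow_le_pow_left₀ (norm_nonneg _) (hl₀ l) _
    _ ≤ ‖bb D l₀ z₀‖ ^ n := pow_le_pow_of_le_one (norm_nonneg _) (h1 l₀).le (Nat.le_succ n)

/-- `L_t g (1)` -/
theorem Lt_one (hτ : D.Good τ) (t : Fin k → ℂ) {g : ℂ → ℂ} (hg : D.Hol2 g) :
    D.Lt τ t g (fun _ => 1) = sfun D τ t g := by
  rw [CD.Lt, sfun]
  have h1 : ∀ z ∈ D.U, g z * dzb (fun w => D.X τ t w * conj (1 : ℂ)) z =
      ∑ j, (t j - 1) * (g z * dzb (fun w => (D.chi τ (some j) w : ℂ)) z) := by
    intro z _
    have e : (fun w => D.X τ t w * conj (1 : ℂ)) = fun w => (1 : ℂ) +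
        ∑ j, (t j - 1) • (D.chi τ (some j) w : ℂ) := by
      funext w
      rw [CD.X, map_one, mul_one]
      rfl
    have hd : ∀ j, DifferentiableAt ℝ (fun w => (D.chi τ (some j) w : ℂ)) z := fun j =>
      (chiC_smooth D hτ (some j)).contDiffAt.differentiableAt (by simp)
    have hci : ∀ j ∈ (Finset.univ : Finset (Fin k)), DifferentiableAt ℝ
        (fun w => (t j - 1) • (D.chi τ (some j) w : ℂ)) z := fun j _ =>
      (hd j).const_smul (t j - 1)
    rw [e, (dz_add (differentiableAt_const _) (DifferentiableAt.fun_sum hci)).2, dz_const.2,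
      zero_add, (dz_sum _ hci).2, Finset.mul_sum]
    refine Finset.sum_congr rfl fun j _ => ?_
    rw [(dz_smul (f := fun _ => t j - 1) (differentiableAt_const _) (hd j)).2, dz_const.2,
      zero_smul, zero_add, smul_eq_mul]
    ring
  rw [setIntegral_congr_fun D.U_open.measurableSet h1]
  have i2 : ∀ j ∈ (Finset.univ : Finset (Fin k)), Integrable (fun z => (t j - 1) *
      (g z * dzb (fun w => (D.chi τ (some j) w : ℂ)) z)) (volume.restrict D.U) :=
    fun j _ => (c7a_integrable D hg (c7a_dzb_cont D isOpen_univ (subset_univ _)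
      (chiC_smooth D hτ (some j)).contDiffOn)).const_mul _
  rw [integral_finsetSum _ i2]
  exact Finset.sum_congr rfl fun j _ => by rw [integral_const_mul]

private theorem X_smooth (hτ : D.Good τ) (t : Fin k → ℂ) : ContDiff ℝ (⊤ : ℕ∞) (D.X τ t) := by
  have : D.X τ t = fun z => 1 + ∑ j, (t j - 1) * (D.chi τ (some j) z : ℂ) := by
    funext z
    rfl
  rw [this]
  exact contDiff_const.add (ContDiff.sum fun j _ => contDiff_const.mul (chiC_smooth D hτ (some j)))

private theorem conj_smooth {V : Set ℂ} (hV : IsOpen V) {a : ℂ → ℂ} (ha : DifferentiableOn ℂ a V) :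
    ContDiffOn ℝ (⊤ : ℕ∞) (fun w => conj (a w)) V :=
  Complex.conjCLE.contDiff.comp_contDiffOn (hol_contDiffOn hV ha)

/-- `L_t g` depends only on the boundary values of the multiplier -/
theorem Lt_boundary (hτ : D.Good τ) (t : Fin k → ℂ) {g : ℂ → ℂ} (hg : D.Hol2 g) {V : Set ℂ}
    (hV : IsOpen V) (hcV : D.cU ⊆ V) {a : ℂ → ℂ} (ha : DifferentiableOn ℂ a V) {S : ℂ → ℂ}
    (hS : ContDiffOn ℝ (⊤ : ℕ∞) S V) (h0 : ∀ z ∈ D.circ none, S z = 1)
    (h1 : ∀ j, ∀ z ∈ D.circ (some j), S z = t j) :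
    D.Lt τ t g a = ∫ z in D.U, g z * dzb (fun w => S w * conj (a w)) z := by
  have hca := conj_smooth hV ha
  have hF1 : ContDiffOn ℝ (⊤ : ℕ∞) (fun w => D.X τ t w * conj (a w)) V :=
    (X_smooth D hτ t).contDiffOn.mul hca
  have hF2 : ContDiffOn ℝ (⊤ : ℕ∞) (fun w => S w * conj (a w)) V := hS.mul hca
  have h2 := orth_zero D hV hcV
    (σ := fun w => D.X τ t w * conj (a w) + -(S w * conj (a w)))
    ((hF1.add hF2.neg).of_le (by exact_mod_cast le_top)) (by
      intro l z hz
      cases l with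
      | none =>
        have e1 : D.X τ t z = 1 := ((X_circ D hτ t).1 z hz).self_of_nhds
        simp only [e1, h0 z hz, add_neg_cancel]
      | some j =>
        have e1 : D.X τ t z = t j := ((X_circ D hτ t).2 j z hz).self_of_nhds
        simp only [e1, h1 j z hz, add_neg_cancel]) hg
  have h3 : ∀ z ∈ D.U, g z * dzb (fun w => D.X τ t w * conj (a w) + -(S w * conj (a w))) z =
      g z * dzb (fun w => D.X τ t w * conj (a w)) z - g z * dzb (fun w => S w * conj (a w)) z := by
    intro z hz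
    have hzV := hV.mem_nhds (hcV (D.U_subset_cU hz))
    have hd1 : DifferentiableAt ℝ (fun w => D.X τ t w * conj (a w)) z :=
      (hF1.contDiffAt hzV).differentiableAt (by simp)
    have hd2 : DifferentiableAt ℝ (fun w => -(S w * conj (a w))) z :=
      ((hF2.contDiffAt hzV).differentiableAt (by simp)).neg
    rw [(dz_add hd1 hd2).2, dz_neg.2]
    ring
  rw [setIntegral_congr_fun D.U_open.measurableSet h3,
    integral_sub (c7a_integrable D hg (c7a_dzb_cont D hV hcV hF1))
      (c7a_integrable D hg (c7a_dzb_cont D hV hcV hF2))] at h2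
  exact sub_eq_zero.mp h2

theorem Lt_linear (hτ : D.Good τ) (t : Fin k → ℂ) {g : ℂ → ℂ} (hg : D.Hol2 g) {V : Set ℂ}
    (hV : IsOpen V) (hcV : D.cU ⊆ V) {a b : ℂ → ℂ} (ha : DifferentiableOn ℂ a V)
    (hb : DifferentiableOn ℂ b V) (c : ℂ) :
    D.Lt τ t g (fun z => a z + c * b z) = D.Lt τ t g a + conj c * D.Lt τ t g b := by
  have hF1 : ContDiffOn ℝ (⊤ : ℕ∞) (fun w => D.X τ t w * conj (a w)) V :=
    (X_smooth D hτ t).contDiffOn.mul (conj_smooth hV ha)
  have hF2 : ContDiffOn ℝ (⊤ : ℕ∞) (fun w => D.X τ t w * conj (b w)) V :=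
    (X_smooth D hτ t).contDiffOn.mul (conj_smooth hV hb)
  rw [CD.Lt, CD.Lt, CD.Lt]
  have h3 : ∀ z ∈ D.U, g z * dzb (fun w => D.X τ t w * conj (a w + c * b w)) z =
      g z * dzb (fun w => D.X τ t w * conj (a w)) z +
        conj c * (g z * dzb (fun w => D.X τ t w * conj (b w)) z) := by
    intro z hz
    have hzV := hV.mem_nhds (hcV (D.U_subset_cU hz))
    have e : (fun w => D.X τ t w * conj (a w + c * b w)) = fun w => D.X τ t w * conj (a w) +
        (conj c) • (D.X τ t w * conj (b w)) := by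
      funext w
      rw [map_add, map_mul, smul_eq_mul]
      ring
    have hd1 : DifferentiableAt ℝ (fun w => D.X τ t w * conj (a w)) z :=
      (hF1.contDiffAt hzV).differentiableAt (by simp)
    have hd2 : DifferentiableAt ℝ (fun w => D.X τ t w * conj (b w)) z :=
      (hF2.contDiffAt hzV).differentiableAt (by simp)
    rw [e, (dz_add hd1 (hd2.fun_const_smul (conj c))).2,
      (dz_smul (f := fun _ => conj c) (differentiableAt_const _) hd2).2, dz_const.2, zero_smul,
      zero_add, smul_eq_mul]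
    ring
  rw [setIntegral_congr_fun D.U_open.measurableSet h3,
    integral_add (c7a_integrable D hg (c7a_dzb_cont D hV hcV hF1))
      ((c7a_integrable D hg (c7a_dzb_cont D hV hcV hF2)).const_mul _), integral_const_mul]

end

end Pool.Agent.Helper7.KE
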