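import Pool.Agent.Helper7.KE.C7a
import Pool.Agent.Helper7.KE.C5b

set_option autoImplicit false

open MeasureTheory Set Filter Asymptotics Topology Metric
open scoped ComplexConjugate ENNReal

namespace Pool.Agent.Helper7.KE

section
variable {k : ℕ} (D : CD k) {τ : ℝ}

/-- the complement of the centres -/
private def W : Set ℂ := {z | ∀ j, z ≠ D.a j}

private theorem W_open : IsOpen (W D) := by
  have : W D = ⋂ j, {z | z ≠ D.a j} := by ext z; simp [W]
  rw [this]
  exact isOpen_iInter_of_finite fun j => isOpen_ne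

private theorem cU_W : D.cU ⊆ W D := by
  intro z hz j h
  have := hz.2 j
  rw [h, sub_self, norm_zero] at this
  exact absurd (D.rpos j) (not_lt.mpr this)

/-- base of the test functions -/
private noncomputable def bb : Option (Fin k) → ℂ → ℂ
  | none => fun z => z / D.R
  | some j => fun z => D.r j / (z - D.a j)

private def mm : Option (Fin k) → ℕ → ℕ
  | none, n => n
  | some _, n => n + 1

private theorem E_eq (l : Option (Fin k)) (n : ℕ) : D.E l n = fun z => bb D l z ^ mm l n := by
  cases l <;> rfl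

private theorem mm_le (l : Option (Fin k)) (n : ℕ) : mm l n ≤ n + 1 := by
  cases l <;> simp [mm]

private theorem bb_diff (l : Option (Fin k)) {z : ℂ} (hz : z ∈ W D) :
    DifferentiableAt ℂ (bb D l) z := by
  cases l with
  | none => exact differentiableAt_id.div_const _
  | some j =>
    exact (differentiableAt_const _).div (differentiableAt_id.sub_const _) (sub_ne_zero.2 (hz j))

private theorem bb_le (l : Option (Fin k)) {z : ℂ} (hz : z ∈ D.cU) : ‖bb D l z‖ ≤ 1 := by
  cases l with
  | none =>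
    simp only [bb, norm_div, Complex.norm_real, Real.norm_of_nonneg D.Rpos.le]
    exact div_le_one_of_le₀ hz.1 D.Rpos.le
  | some j =>
    simp only [bb, norm_div, Complex.norm_real, Real.norm_of_nonneg (D.rpos j).le]
    exact div_le_one_of_le₀ (hz.2 j) (norm_nonneg _)

private theorem E_diff (l : Option (Fin k)) (n : ℕ) {z : ℂ} (hz : z ∈ W D) :
    DifferentiableAt ℂ (D.E l n) z := by
  rw [E_eq]
  exact (bb_diff D l hz).pow _

private theorem E_le (l : Option (Fin k)) (n : ℕ) {z : ℂ} (hz : z ∈ D.cU) : ‖D.E l n z‖ ≤ 1 := by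
  rw [E_eq]
  simp only [norm_pow]
  exact pow_le_one₀ (norm_nonneg _) (bb_le D l hz)

private theorem E_deriv : ∃ C : ℝ, 0 ≤ C ∧ ∀ l n, ∀ z ∈ D.cU,
    ‖deriv (D.E l n) z‖ ≤ C * ((n : ℝ) + 1) := by
  have h1 : ∀ l, ∃ C : ℝ, ∀ z ∈ D.cU, ‖deriv (bb D l) z‖ ≤ C := fun l => by
    refine D.cU_compact.exists_bound_of_continuousOn (ContinuousOn.mono ?_ (cU_W D))
    have : DifferentiableOn ℂ (bb D l) (W D) := fun z hz =>
      (bb_diff D l hz).differentiableWithinAt
    exact (this.deriv (W_open D)).continuousOn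
  choose C hC using h1
  obtain ⟨M, hM⟩ := Finite.exists_le C
  refine ⟨max M 0, le_max_right _ _, fun l n z hz => ?_⟩
  have hzW := cU_W D hz
  have h2 : deriv (D.E l n) z = (mm l n : ℂ) * bb D l z ^ (mm l n - 1) * deriv (bb D l) z := by
    rw [E_eq]
    exact ((bb_diff D l hzW).hasDerivAt.fun_pow (mm l n)).deriv
  have h3 : ‖deriv (bb D l) z‖ ≤ max M 0 := ((hC l z hz).trans (hM l)).trans (le_max_left _ _)
  have h4 : ‖bb D l z‖ ^ (mm l n - 1) ≤ 1 := pow_le_one₀ (norm_nonneg _) (bb_le D l hz)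
  have h5 : (mm l n : ℝ) ≤ (n : ℝ) + 1 := by exact_mod_cast mm_le l n
  rw [h2, norm_mul, norm_mul, Complex.norm_natCast, norm_pow]
  calc (mm l n : ℝ) * ‖bb D l z‖ ^ (mm l n - 1) * ‖deriv (bb D l) z‖ ≤
      (((n : ℝ) + 1) * 1) * max M 0 := by
        refine mul_le_mul (mul_le_mul h5 h4 (by positivity) (by positivity)) h3 (norm_nonneg _)
          (by positivity)
    _ = _ := by ring

private theorem X_smooth' (hτ : D.Good τ) (t : Fin k → ℂ) :
    ContDiff ℝ (⊤ : ℕ∞) (D.X τ t) := by
  have : D.X τ t = fun z => 1 + ∑ j, (t j - 1) * (D.chi τ (some j) z : ℂ) := by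
    funext z
    rfl
  rw [this]
  exact contDiff_const.add (ContDiff.sum fun j _ => contDiff_const.mul
    (Complex.ofRealCLM.contDiff.comp (chi_smooth D hτ.pos hτ.lt_R (some j))))

private theorem dzb_X_conj (hτ : D.Good τ) (t : Fin k → ℂ) {b : ℂ → ℂ} {z : ℂ}
    (hb : DifferentiableAt ℂ b z) :
    dzb (fun w => D.X τ t w * conj (b w)) z =
      dzb (D.X τ t) z * conj (b z) + D.X τ t z * conj (deriv b z) := by
  have hX : DifferentiableAt ℝ (D.X τ t) z :=
    (X_smooth' D hτ t).contDiffAt.differentiableAt (by simp)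
  have hc : DifferentiableAt ℝ (fun w => conj (b w)) z :=
    Complex.conjCLE.differentiableAt.comp z (hb.restrictScalars ℝ)
  have := (dz_smul hX hc).2
  simp only [smul_eq_mul] at this
  rw [this, (dz_conj_hol hb).2]

/-- KE-C7b: elements of `VV_t` are annihilated by all functions holomorphic near the closed domain
which vanish at `z₀` -/
theorem VV_ann (hτ : D.Good τ) {z₀ : ℂ} (hz₀ : z₀ ∈ D.U) (t : Fin k → ℂ) {g : ℂ → ℂ}
    (hg : D.VV τ z₀ t g) {δ : ℝ} (hδ : 0 < δ) {a : ℂ → ℂ} (ha : DifferentiableOn ℂ a (D.Ue δ))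
    (h0 : a z₀ = 0) : D.Lt τ t g a = 0 := by
  have hUe : D.U ⊆ D.Ue δ := D.U_subset_cU.trans (D.cU_subset_Ue hδ)
  have haU : DifferentiableOn ℂ a D.U := ha.mono hUe
  set c : Option (Fin k) × ℕ → ℂ := fun p => D.coef τ p.1 p.2 a with hc
  have hsum : ∀ z ∈ D.U, HasSum (fun p => c p * D.E p.1 p.2 z) (a z) := fun z hz =>
    laurent D hτ haU hz
  obtain ⟨C, q, hq0, hq1, hCq⟩ := coef_decay D hτ hδ ha
  have hC0 : 0 ≤ max C 0 := le_max_right _ _
  have hcb : ∀ p : Option (Fin k) × ℕ, ‖c p‖ ≤ max C 0 * q ^ p.2 := fun p =>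
    (hCq p.1 p.2).trans (mul_le_mul_of_nonneg_right (le_max_left _ _) (pow_nonneg hq0 _))
  obtain ⟨C₂, hC₂0, hC₂⟩ := E_deriv D
  -- summability
  have hs1 : Summable fun n : ℕ => ((n : ℝ) + 1) * q ^ n := by
    have h1 : Summable fun n : ℕ => (n : ℝ) * q ^ n := by
      have := summable_pow_mul_geometric_of_norm_lt_one 1 (r := q)
        (by rwa [Real.norm_of_nonneg hq0])
      simpa using this
    have h2 : Summable fun n : ℕ => q ^ n := summable_geometric_of_lt_one hq0 hq1
    refine (h1.add h2).congr fun n => ?_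
    ring
  have hs2 : Summable fun p : Option (Fin k) × ℕ => ((p.2 : ℝ) + 1) * q ^ p.2 := by
    rw [summable_prod_of_nonneg (fun p => by positivity)]
    exact ⟨fun _ => hs1, (hasSum_fintype _).summable⟩
  have hs3 : Summable fun p => ‖c p‖ := by
    refine Summable.of_nonneg_of_le (fun p => norm_nonneg _) (fun p => ?_) (hs2.mul_left (max C 0))
    refine (hcb p).trans (mul_le_mul_of_nonneg_left ?_ hC0)
    have : (0 : ℝ) ≤ p.2 := Nat.cast_nonneg _
    nlinarith [pow_nonneg hq0 p.2]
  -- derivative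
  have hder : ∀ z ∈ D.U, HasSum (fun p => c p * deriv (D.E p.1 p.2) z) (deriv a z) := by
    intro z hz
    have h1 := Complex.hasSum_deriv_of_summable_norm (F := fun (p : Option (Fin k) × ℕ) w =>
      c p * D.E p.1 p.2 w) hs3
      (fun p w hw => ((E_diff D p.1 p.2 (cU_W D (D.U_subset_cU hw))).const_mul
        (c p)).differentiableWithinAt) D.U_open (fun p w hw => by
          rw [norm_mul]
          exact mul_le_of_le_one_right (norm_nonneg _) (E_le D _ _ (D.U_subset_cU hw))) hz
    have h2 : (fun w => ∑' p : Option (Fin k) × ℕ, c p * D.E p.1 p.2 w) =ᶠ[𝓝 z] a := by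
      filter_upwards [D.U_open.mem_nhds hz] with w hw
      exact (hsum w hw).tsum_eq
    rw [h2.deriv_eq] at h1
    refine h1.congr_fun fun p => ?_
    exact (deriv_const_mul _ (E_diff D p.1 p.2 (cU_W D (D.U_subset_cU hz)))).symm
  -- the terms
  set b : Option (Fin k) × ℕ → ℂ → ℂ := fun p w => c p * (D.E p.1 p.2 w - D.E p.1 p.2 z₀) with hb
  have hbd : ∀ p, ∀ z ∈ D.cU, DifferentiableAt ℂ (b p) z := fun p z hz =>
    ((E_diff D p.1 p.2 (cU_W D hz)).sub_const _).const_mul (c p)
  have hbder : ∀ p, ∀ z ∈ D.cU, deriv (b p) z = c p * deriv (D.E p.1 p.2) z := by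
    intro p z hz
    rw [hb]
    simp only
    rw [deriv_const_mul _ ((E_diff D p.1 p.2 (cU_W D hz)).sub_const _), deriv_sub_const]
  set F : Option (Fin k) × ℕ → ℂ → ℂ := fun p z => g z * (dzb (D.X τ t) z * conj (b p z) +
    D.X τ t z * conj (c p * deriv (D.E p.1 p.2) z)) with hF
  have hFeq : ∀ p, ∀ z ∈ D.U, F p z = g z * dzb (fun w => D.X τ t w * conj (b p w)) z := by
    intro p z hz
    rw [dzb_X_conj D hτ t (hbd p z (D.U_subset_cU hz)), hbder p z (D.U_subset_cU hz)]
  have hFsum : ∀ z ∈ D.U, HasSum (fun p => F p z)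
      (g z * dzb (fun w => D.X τ t w * conj (a w)) z) := by
    intro z hz
    have haz : DifferentiableAt ℂ a z := haU.differentiableAt (D.U_open.mem_nhds hz)
    rw [dzb_X_conj D hτ t haz]
    have h1 : HasSum (fun p => b p z) (a z) := by
      have := (hsum z hz).sub (hsum z₀ hz₀)
      rw [h0, sub_zero] at this
      refine this.congr_fun fun p => ?_
      rw [hb]
      simp only
      ring
    have h2 : HasSum (fun p => conj (b p z)) (conj (a z)) := by
      have := h1.mapL (Complex.conjCLE : ℂ →L[ℝ] ℂ)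
      simpa using this
    have h3 : HasSum (fun p => conj (c p * deriv (D.E p.1 p.2) z)) (conj (deriv a z)) := by
      have := (hder z hz).mapL (Complex.conjCLE : ℂ →L[ℝ] ℂ)
      simpa using this
    exact ((h2.mul_left _).add (h3.mul_left _)).mul_left _
  -- bounds
  obtain ⟨M₁, hM₁⟩ := D.cU_compact.exists_bound_of_continuousOn
    (c7a_dzb_cont D isOpen_univ (subset_univ _) (X_smooth' D hτ t).contDiffOn)
  obtain ⟨M₂, hM₂⟩ := D.cU_compact.exists_bound_of_continuousOn
    ((X_smooth' D hτ t).continuous.continuousOn)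
  have hgI : Integrable g (volume.restrict D.U) := hg.hol.memLp.integrable one_le_two
  set K : ℝ := (max M₁ 0 * 2 + max M₂ 0 * C₂) * max C 0 with hK
  have hFb : ∀ p, ∀ z ∈ D.U, ‖F p z‖ ≤ K * (((p.2 : ℝ) + 1) * q ^ p.2) * ‖g z‖ := by
    intro p z hz
    have hzc := D.U_subset_cU hz
    have hn0 : (0 : ℝ) ≤ p.2 := Nat.cast_nonneg _
    have e1 : ‖dzb (D.X τ t) z * conj (b p z)‖ ≤
        max M₁ 0 * 2 * (max C 0 * (((p.2 : ℝ) + 1) * q ^ p.2)) := by
      rw [norm_mul, RCLike.norm_conj, hb]
      simp only [norm_mul]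
      have h1 : ‖D.E p.1 p.2 z - D.E p.1 p.2 z₀‖ ≤ 2 := by
        refine (norm_sub_le _ _).trans ?_
        have := E_le D p.1 p.2 hzc
        have := E_le D p.1 p.2 (D.U_subset_cU hz₀)
        linarith
      have h2 : ‖c p‖ ≤ max C 0 * (((p.2 : ℝ) + 1) * q ^ p.2) := by
        refine (hcb p).trans (mul_le_mul_of_nonneg_left ?_ hC0)
        nlinarith [pow_nonneg hq0 p.2]
      have h3 : ‖dzb (D.X τ t) z‖ ≤ max M₁ 0 := (hM₁ z hzc).trans (le_max_left _ _)
      calc ‖dzb (D.X τ t) z‖ * (‖c p‖ * ‖D.E p.1 p.2 z - D.E p.1 p.2 z₀‖) ≤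
          max M₁ 0 * ((max C 0 * (((p.2 : ℝ) + 1) * q ^ p.2)) * 2) :=
            mul_le_mul h3 (mul_le_mul h2 h1 (norm_nonneg _) (by positivity)) (by positivity)
              (by positivity)
        _ = _ := by ring
    have e2 : ‖D.X τ t z * conj (c p * deriv (D.E p.1 p.2) z)‖ ≤
        max M₂ 0 * C₂ * (max C 0 * (((p.2 : ℝ) + 1) * q ^ p.2)) := by
      rw [norm_mul, RCLike.norm_conj, norm_mul]
      have h3 : ‖D.X τ t z‖ ≤ max M₂ 0 := (hM₂ z hzc).trans (le_max_left _ _)
      calc ‖D.X τ t z‖ * (‖c p‖ * ‖deriv (D.E p.1 p.2) z‖) ≤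
          max M₂ 0 * ((max C 0 * q ^ p.2) * (C₂ * ((p.2 : ℝ) + 1))) :=
            mul_le_mul h3 (mul_le_mul (hcb p) (hC₂ _ _ z hzc) (norm_nonneg _) (by positivity))
              (by positivity) (by positivity)
        _ = _ := by ring
    rw [hF]
    simp only
    rw [norm_mul, mul_comm]
    refine mul_le_mul_of_nonneg_right ?_ (norm_nonneg _)
    refine (norm_add_le _ _).trans ((add_le_add e1 e2).trans (le_of_eq ?_))
    rw [hK]
    ring
  have hFI : ∀ p, Integrable (F p) (volume.restrict D.U) := by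
    intro p
    refine c7a_integrable D hg.hol (b := fun z => dzb (D.X τ t) z * conj (b p z) +
      D.X τ t z * conj (c p * deriv (D.E p.1 p.2) z)) ?_
    have h1 : ContinuousOn (b p) D.cU := fun z hz => (hbd p z hz).continuousAt.continuousWithinAt
    have h2 : ContinuousOn (deriv (D.E p.1 p.2)) D.cU := by
      have : DifferentiableOn ℂ (D.E p.1 p.2) (W D) := fun z hz =>
        (E_diff D p.1 p.2 hz).differentiableWithinAt
      exact (this.deriv (W_open D)).continuousOn.mono (cU_W D)
    exact ((c7a_dzb_cont D isOpen_univ (subset_univ _) (X_smooth' D hτ t).contDiffOn).mul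
      (Complex.continuous_conj.comp_continuousOn h1)).add
      ((X_smooth' D hτ t).continuous.continuousOn.mul
        (Complex.continuous_conj.comp_continuousOn (continuousOn_const.mul h2)))
  have hFs : Summable fun p => ∫ z in D.U, ‖F p z‖ := by
    refine Summable.of_nonneg_of_le (fun p => integral_nonneg fun z => norm_nonneg _) (fun p => ?_)
      ((hs2.mul_left K).mul_right (∫ z in D.U, ‖g z‖))
    rw [← integral_const_mul]
    refine setIntegral_mono_on (hFI p).norm (hgI.norm.const_mul _) D.U_open.measurableSet ?_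
    exact fun z hz => hFb p z hz
  have h4 := hasSum_integral_of_summable_integral_norm hFI hFs
  have h5 : ∀ p, ∫ z in D.U, F p z = 0 := by
    intro p
    rw [setIntegral_congr_fun D.U_open.measurableSet (hFeq p)]
    have h6 : ∀ z ∈ D.U, g z * dzb (fun w => D.X τ t w * conj (b p w)) z =
        conj (c p) * (g z * dzb (fun w => D.X τ t w *
          conj (D.E p.1 p.2 w - D.E p.1 p.2 z₀)) z) := by
      intro z hz
      have hzc := D.U_subset_cU hz
      have hEd := (E_diff D p.1 p.2 (cU_W D hzc)).sub_const (D.E p.1 p.2 z₀)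
      rw [dzb_X_conj D hτ t (hbd p z hzc), dzb_X_conj D hτ t hEd, hbder p z hzc, deriv_sub_const,
        hb]
      simp only [map_mul]
      ring
    rw [setIntegral_congr_fun D.U_open.measurableSet h6, integral_const_mul]
    obtain ⟨l, n⟩ := p
    cases l with
    | none =>
      cases n with
      | zero =>
        have : (fun w => D.X τ t w * conj (D.E none 0 w - D.E none 0 z₀)) = fun _ => (0 : ℂ) := by
          funext w
          simp [CD.E]
        simp only [this, dz_const.2, mul_zero, integral_zero]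
      | succ n =>
        have := hg.ann none n
        rw [CD.Lt] at this
        have h7 : ∫ z in D.U, g z * dzb (fun w => D.X τ t w *
          conj (D.E none (n + 1) w - D.E none (n + 1) z₀)) z = 0 := this
        rw [h7, mul_zero]
    | some j =>
      have := hg.ann (some j) n
      rw [CD.Lt] at this
      have h7 : ∫ z in D.U, g z * dzb (fun w => D.X τ t w *
        conj (D.E (some j) n w - D.E (some j) n z₀)) z = 0 := this
      rw [h7, mul_zero]
  have h8 : ∫ z in D.U, ∑' p, F p z = 0 := by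
    have h9 : HasSum (fun p : Option (Fin k) × ℕ => ∫ z in D.U, F p z) 0 := by
      simp_rw [h5]
      exact hasSum_zero
    exact h4.unique h9
  rw [CD.Lt, ← h8]
  refine setIntegral_congr_fun D.U_open.measurableSet fun z hz => ?_
  exact (hFsum z hz).tsum_eq.symm

end

end Pool.Agent.Helper7.KE
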