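import Pool.Agent.Helper7.KE.Defs

set_option autoImplicit false

open MeasureTheory Set Filter Asymptotics Topology Metric
open scoped ComplexConjugate ENNReal

namespace Pool.Agent.Helper7.KE

section C8
variable {H : Type*} [NormedAddCommGroup H] [NormedSpace ℂ H]

/-- the operator `d - Σ h_n adj(1+A)_{nm} λ_m` -/
private noncomputable def c8Q {n : Type*} [Fintype n] [DecidableEq n] (l : n → (H →L[ℂ] ℂ))
    (h : n → H) : H →L[ℂ] H :=
  (1 + Matrix.of fun i j => l i (h j)).det • (1 : H →L[ℂ] H) -
    ∑ i, ∑ j, (1 + Matrix.of fun i j => l i (h j)).adjugate i j • (l j).smulRight (h i)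

private theorem c8_left {n : Type*} [Fintype n] [DecidableEq n] (l : n → (H →L[ℂ] ℂ))
    (h : n → H) :
    (1 + ∑ i, (l i).smulRight (h i)) * c8Q l h =
      (1 + Matrix.of fun i j => l i (h j)).det • (1 : H →L[ℂ] H) := by
  set A : Matrix n n ℂ := Matrix.of fun i j => l i (h j) with hA
  have hmul : ∀ i j, ∑ k, (1 + A) i k * (1 + A).adjugate k j =
      (1 + A).det * (if i = j then 1 else 0) := by
    intro i j
    have := congrFun (congrFun (Matrix.mul_adjugate (1 + A)) i) j
    rw [Matrix.mul_apply] at this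
    rw [this, Matrix.smul_apply, Matrix.one_apply, smul_eq_mul]
  ext x
  have hQ : c8Q l h x = (1 + A).det • x - ∑ i, (∑ j, (1 + A).adjugate i j * l j x) • h i := by
    simp only [c8Q, ← hA, sub_apply, smul_apply,
      one_apply_eq_self, sum_apply,
      ContinuousLinearMap.smulRight_apply, Finset.sum_smul, smul_smul]
  have hl : ∀ k, l k (c8Q l h x) = (1 + A).det * l k x -
      ∑ i, A k i * ∑ j, (1 + A).adjugate i j * l j x := by
    intro k
    rw [hQ, map_sub, map_smul, map_sum, smul_eq_mul]
    congr 1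
    refine Finset.sum_congr rfl fun i _ => ?_
    rw [map_smul, smul_eq_mul, mul_comm]
    rfl
  have key : ∀ k, (∑ j, (1 + A).adjugate k j * l j x) +
      ∑ i, A k i * ∑ j, (1 + A).adjugate i j * l j x = (1 + A).det * l k x := by
    intro k
    have h1 : ∑ i, (1 + A) k i * ∑ j, (1 + A).adjugate i j * l j x = (1 + A).det * l k x := by
      have : ∀ i, (1 + A) k i * ∑ j, (1 + A).adjugate i j * l j x =
          ∑ j, (1 + A) k i * (1 + A).adjugate i j * l j x := by
        intro i
        rw [Finset.mul_sum]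
        exact Finset.sum_congr rfl fun j _ => by ring
      simp_rw [this]
      rw [Finset.sum_comm]
      simp_rw [← Finset.sum_mul, hmul]
      simp
    rw [← h1]
    have h2 : ∀ i, (1 + A) k i = (if k = i then 1 else 0) + A k i := by
      intro i
      rw [Matrix.add_apply, Matrix.one_apply]
    simp_rw [h2, add_mul, Finset.sum_add_distrib]
    simp
  rw [mul_apply_eq_comp, add_apply, one_apply_eq_self,
    sum_apply]
  simp only [ContinuousLinearMap.smulRight_apply]
  rw [hQ, ← hQ]
  simp_rw [hl]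
  rw [hQ, smul_apply, one_apply_eq_self]
  rw [sub_add]
  have : ∑ i, (∑ j, (1 + A).adjugate i j * l j x) • h i -
      ∑ k, ((1 + A).det * l k x - ∑ i, A k i * ∑ j, (1 + A).adjugate i j * l j x) • h k = 0 := by
    rw [← Finset.sum_sub_distrib]
    refine Finset.sum_eq_zero fun k _ => ?_
    rw [← key k, add_sub_cancel_right, sub_self]
  rw [this, sub_zero]

private theorem c8_right {n : Type*} [Fintype n] [DecidableEq n] (l : n → (H →L[ℂ] ℂ))
    (h : n → H) :
    c8Q l h * (1 + ∑ i, (l i).smulRight (h i)) =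
      (1 + Matrix.of fun i j => l i (h j)).det • (1 : H →L[ℂ] H) := by
  set A : Matrix n n ℂ := Matrix.of fun i j => l i (h j) with hA
  have hmul : ∀ i j, ∑ k, (1 + A).adjugate i k * (1 + A) k j =
      (1 + A).det * (if i = j then 1 else 0) := by
    intro i j
    have := congrFun (congrFun (Matrix.adjugate_mul (1 + A)) i) j
    rw [Matrix.mul_apply] at this
    rw [this, Matrix.smul_apply, Matrix.one_apply, smul_eq_mul]
  ext x
  rw [mul_apply_eq_comp]
  set y : H := (1 + ∑ i, (l i).smulRight (h i)) x with hy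
  have hy' : y = x + ∑ i, l i x • h i := by
    rw [hy, add_apply, one_apply_eq_self,
      sum_apply]
    simp only [ContinuousLinearMap.smulRight_apply]
  have hQ : c8Q l h y = (1 + A).det • y - ∑ i, (∑ j, (1 + A).adjugate i j * l j y) • h i := by
    simp only [c8Q, ← hA, sub_apply, smul_apply,
      one_apply_eq_self, sum_apply,
      ContinuousLinearMap.smulRight_apply, Finset.sum_smul, smul_smul]
  have hl : ∀ j, l j y = ∑ k, (1 + A) j k * l k x := by
    intro j
    have h2 : ∀ i, (1 + A) j i = (if j = i then 1 else 0) + A j i := by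
      intro i
      rw [Matrix.add_apply, Matrix.one_apply]
    simp_rw [h2, add_mul, Finset.sum_add_distrib]
    rw [hy', map_add, map_sum]
    congr 1
    · simp
    · refine Finset.sum_congr rfl fun i _ => ?_
      rw [map_smul, smul_eq_mul, mul_comm]
      rfl
  have key : ∀ i, ∑ j, (1 + A).adjugate i j * l j y = (1 + A).det * l i x := by
    intro i
    simp_rw [hl, Finset.mul_sum]
    rw [Finset.sum_comm]
    have : ∀ k, ∑ j, (1 + A).adjugate i j * ((1 + A) j k * l k x) =
        (1 + A).det * (if i = k then 1 else 0) * l k x := by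
      intro k
      rw [← hmul, Finset.sum_mul]
      exact Finset.sum_congr rfl fun j _ => by ring
    simp_rw [this]
    simp
  rw [hQ]
  simp_rw [key]
  rw [hy', smul_apply, one_apply_eq_self, smul_add,
    Finset.smul_sum]
  simp_rw [smul_smul]
  rw [add_sub_cancel_right]

private theorem c8_det_ne {n : Type*} [Fintype n] [DecidableEq n] (l : n → (H →L[ℂ] ℂ))
    (h : n → H) (hinj : ∀ x : H, (1 + ∑ i, (l i).smulRight (h i)) x = 0 → x = 0) :
    (1 + Matrix.of fun i j => l i (h j)).det ≠ 0 := by
  set A : Matrix n n ℂ := Matrix.of fun i j => l i (h j) with hA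
  intro h0
  obtain ⟨c, hc, h1⟩ := Matrix.exists_mulVec_eq_zero_iff.mpr h0
  have h2 : ∀ k, c k + ∑ m, A k m * c m = 0 := by
    intro k
    have := congrFun h1 k
    rw [Matrix.add_mulVec, Matrix.one_mulVec] at this
    simpa [Matrix.mulVec, dotProduct] using this
  have h3 : ∀ k, l k (∑ m, c m • h m) = ∑ m, A k m * c m := by
    intro k
    rw [map_sum]
    refine Finset.sum_congr rfl fun m _ => ?_
    rw [map_smul, smul_eq_mul, mul_comm]
    rfl
  have h4 : (∑ m, c m • h m) = 0 := by
    apply hinj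
    rw [add_apply, one_apply_eq_self,
      sum_apply]
    simp only [ContinuousLinearMap.smulRight_apply]
    rw [← Finset.sum_add_distrib]
    refine Finset.sum_eq_zero fun k _ => ?_
    rw [h3, ← add_smul, h2, zero_smul]
  apply hc
  ext k
  have h5 := h3 k
  rw [h4, map_zero] at h5
  have := h2 k
  rw [← h5, add_zero] at this
  simpa using this

end C8

theorem analytic_fredholm {I : Type*} {H : Type*} [NormedAddCommGroup H] [NormedSpace ℂ H]
    [CompleteSpace H] {T : ℝ} (hT : 0 < T) {lam : I → ℂ → (H →L[ℂ] ℂ)} {hv : I → H} {M : I → ℝ}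
    (hlam : ∀ m, DifferentiableOn ℂ (lam m) (ball 0 T)) (hM : Summable M)
    (hb : ∀ m, ∀ z ∈ ball (0 : ℂ) T, ‖lam m z‖ * ‖hv m‖ ≤ M m)
    (hinj : ∀ x : H, x + ∑' m, (lam m 0 x) • hv m = 0 → x = 0) :
    ∃ (K : ℂ → (H →L[ℂ] H)) (d : ℂ → ℂ) (Rop : ℂ → (H →L[ℂ] H)),
      DifferentiableOn ℂ K (ball 0 T) ∧ DifferentiableOn ℂ d (ball 0 T) ∧
      DifferentiableOn ℂ Rop (ball 0 T) ∧ d 0 ≠ 0 ∧
      (∀ z ∈ ball (0 : ℂ) T, ∀ x, K z x = ∑' m, (lam m z x) • hv m) ∧
      ∀ z ∈ ball (0 : ℂ) T, (1 + K z) * Rop z = d z • 1 ∧ Rop z * (1 + K z) = d z • 1 := by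
  classical
  have h0T : (0 : ℂ) ∈ ball (0 : ℂ) T := by simpa using hT
  set κ : I → ℂ → (H →L[ℂ] H) := fun m z => (lam m z).smulRight (hv m) with hκ
  have hκn : ∀ m, ∀ z ∈ ball (0 : ℂ) T, ‖κ m z‖ ≤ M m := by
    intro m z hz
    rw [hκ]
    simp only [ContinuousLinearMap.norm_smulRight_apply]
    exact hb m z hz
  have hκd : ∀ m, DifferentiableOn ℂ (κ m) (ball 0 T) := by
    intro m
    have : κ m = fun z => ContinuousLinearMap.smulRightL ℂ H H (lam m z) (hv m) := by
      funext z
      rfl
    rw [this]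
    exact ((ContinuousLinearMap.differentiable _).comp_differentiableOn (hlam m)).clm_apply
      (differentiableOn_const _)
  have hκs : ∀ z ∈ ball (0 : ℂ) T, Summable fun m => κ m z := fun z hz =>
    Summable.of_norm_bounded hM fun m => hκn m z hz
  set K : ℂ → (H →L[ℂ] H) := fun z => ∑' m, κ m z with hK
  have hKd : DifferentiableOn ℂ K (ball 0 T) :=
    Complex.differentiableOn_tsum_of_summable_norm hM hκd isOpen_ball hκn
  have hKx : ∀ z ∈ ball (0 : ℂ) T, ∀ x, K z x = ∑' m, (lam m z x) • hv m := by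
    intro z hz x
    have h1 : HasSum (fun m => κ m z) (K z) := (hκs z hz).hasSum
    have h2 := h1.mapL (ContinuousLinearMap.apply ℂ H x)
    exact h2.tsum_eq.symm
  -- finite part
  obtain ⟨F, hF⟩ : ∃ F : Finset I, ∑' m : {m // m ∉ F}, M m < 1 / 2 := by
    have h1 := tendsto_tsum_compl_atTop_zero M
    have h2 := (h1.eventually (gt_mem_nhds (show (0 : ℝ) < 1 / 2 by norm_num))).exists
    exact h2
  have hMF : Summable fun m : {m // m ∉ F} => M m := hM.subtype _
  set K₂ : ℂ → (H →L[ℂ] H) := fun z => ∑' m : {m // m ∉ F}, κ m z with hK₂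
  have hK₂d : DifferentiableOn ℂ K₂ (ball 0 T) :=
    Complex.differentiableOn_tsum_of_summable_norm hMF (fun m => hκd m) isOpen_ball
      (fun m z hz => hκn m z hz)
  have hK₂n : ∀ z ∈ ball (0 : ℂ) T, ‖K₂ z‖ < 1 := by
    intro z hz
    have h1 : ‖K₂ z‖ ≤ ∑' m : {m // m ∉ F}, M m :=
      tsum_of_norm_bounded hMF.hasSum fun m => hκn m z hz
    linarith
  have hsplit : ∀ z ∈ ball (0 : ℂ) T, K z = ∑ i : F, κ i z + K₂ z := by
    intro z hz
    rw [hK, hK₂]
    simp only
    rw [← (hκs z hz).sum_add_tsum_compl (s := F), Finset.sum_coe_sort F fun i => κ i z]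
    rfl
  have hunit : ∀ z ∈ ball (0 : ℂ) T, IsUnit (1 + K₂ z) := by
    intro z hz
    have := isUnit_one_sub_of_norm_lt_one (x := -K₂ z) (by rw [norm_neg]; exact hK₂n z hz)
    rwa [sub_neg_eq_add] at this
  set B : ℂ → (H →L[ℂ] H) := fun z => Ring.inverse (1 + K₂ z) with hB
  have hBd : DifferentiableOn ℂ B (ball 0 T) :=
    ((differentiableOn_const _).add hK₂d).inverse hunit
  have hB1 : ∀ z ∈ ball (0 : ℂ) T, (1 + K₂ z) * B z = 1 := fun z hz =>
    Ring.mul_inverse_cancel _ (hunit z hz)
  have hB2 : ∀ z ∈ ball (0 : ℂ) T, B z * (1 + K₂ z) = 1 := fun z hz =>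
    Ring.inverse_mul_cancel _ (hunit z hz)
  set l : ℂ → F → (H →L[ℂ] ℂ) := fun z i => lam i z with hl
  set h : ℂ → F → H := fun z i => B z (hv i) with hh
  have hld : ∀ i, DifferentiableOn ℂ (fun z => l z i) (ball 0 T) := fun i => hlam i
  have hhd : ∀ i, DifferentiableOn ℂ (fun z => h z i) (ball 0 T) := fun i =>
    hBd.clm_apply (differentiableOn_const _)
  set A : ℂ → Matrix F F ℂ := fun z => 1 + Matrix.of fun i j => l z i (h z j) with hA
  have hAd : ∀ i j, DifferentiableOn ℂ (fun z => A z i j) (ball 0 T) := by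
    intro i j
    have : (fun z => A z i j) = fun z => (1 : Matrix F F ℂ) i j + l z i (h z j) := by
      funext z
      rw [hA]
      simp only [Matrix.add_apply, Matrix.of_apply]
    rw [this]
    exact (differentiableOn_const _).add ((hld i).clm_apply (hhd j))
  have hdet : ∀ (W : ℂ → Matrix F F ℂ),
      (∀ i j, DifferentiableOn ℂ (fun z => W z i j) (ball 0 T)) →
      DifferentiableOn ℂ (fun z => (W z).det) (ball 0 T) := by
    intro W hW
    simp_rw [Matrix.det_apply]
    refine DifferentiableOn.fun_sum fun σ _ => ?_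
    have h1 : DifferentiableOn ℂ (fun z => ∏ i, W z (σ i) i) (ball 0 T) :=
      DifferentiableOn.fun_finsetProd fun i _ => hW _ _
    have h2 : (fun z => Equiv.Perm.sign σ • ∏ i, W z (σ i) i) =
        fun z => ((Equiv.Perm.sign σ : ℤ) : ℂ) * ∏ i, W z (σ i) i := by
      funext z
      rw [Units.smul_def, zsmul_eq_mul]
    rw [h2]
    exact (differentiableOn_const _).mul h1
  have hadj : ∀ i j, DifferentiableOn ℂ (fun z => (A z).adjugate i j) (ball 0 T) := by
    intro i j
    simp_rw [Matrix.adjugate_apply]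
    apply hdet
    intro i' j'
    by_cases hi : i' = j
    · subst hi
      simp only [Matrix.updateRow_self]
      exact differentiableOn_const _
    · simp only [Matrix.updateRow_ne hi]
      exact hAd i' j'
  set d : ℂ → ℂ := fun z => (A z).det with hd
  have hfac : ∀ z ∈ ball (0 : ℂ) T,
      1 + K z = (1 + K₂ z) * (1 + ∑ i, (l z i).smulRight (h z i)) := by
    intro z hz
    rw [hsplit z hz, mul_add, mul_one, Finset.mul_sum]
    have : ∀ i : F, (1 + K₂ z) * (l z i).smulRight (h z i) = κ i z := by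
      intro i
      ext x
      rw [mul_apply_eq_comp, ContinuousLinearMap.smulRight_apply, map_smul]
      have h1 : (1 + K₂ z) (h z i) = hv i := by
        have := congrArg (fun L : H →L[ℂ] H => L (hv i)) (hB1 z hz)
        simpa using this
      rw [h1]
      rfl
    simp_rw [this]
    abel
  refine ⟨K, d, fun z => c8Q (l z) (h z) * B z, hKd, hdet A hAd, ?_, ?_, hKx, ?_⟩
  · -- differentiability
    refine DifferentiableOn.mul ?_ hBd
    unfold c8Q
    refine DifferentiableOn.sub ((hdet A hAd).smul (differentiableOn_const _)) ?_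
    refine DifferentiableOn.fun_sum fun i _ => DifferentiableOn.fun_sum fun j _ => ?_
    refine (hadj i j).smul ?_
    have : (fun z => (l z j).smulRight (h z i)) =
        fun z => ContinuousLinearMap.smulRightL ℂ H H (l z j) (h z i) := by
      funext z
      rfl
    rw [this]
    exact ((ContinuousLinearMap.differentiable _).comp_differentiableOn (hld j)).clm_apply
      (hhd i)
  · -- d 0 ≠ 0
    refine c8_det_ne (l 0) (h 0) fun x hx => ?_
    apply hinj
    rw [← hKx 0 h0T x]
    have h1 : (1 + K 0) x = 0 := by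
      rw [hfac 0 h0T, mul_apply_eq_comp, hx, map_zero]
    simpa using h1
  · intro z hz
    constructor
    · rw [hfac z hz, mul_assoc, ← mul_assoc _ (c8Q (l z) (h z)), c8_left, ← mul_assoc,
        mul_smul_comm, mul_one, smul_mul_assoc, hB1 z hz]
    · rw [hfac z hz, mul_assoc, ← mul_assoc (B z), hB2 z hz, one_mul, c8_right]

end Pool.Agent.Helper7.KE
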