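import Pool.Agent.Helper7.KE.C0a
import Pool.Agent.Helper7.KE.C1
import Pool.Agent.Helper7.KE.C5b

set_option autoImplicit false

open MeasureTheory Set Filter Asymptotics Topology Metric
open scoped ComplexConjugate ENNReal

namespace Pool.Agent.Helper7.KE

section
variable {k : ℕ} (D : CD k) {τ : ℝ}

private theorem c9a_summable (c : CD.HH k) : Summable fun p => ‖c p‖ := by
  have h := (memℓp_gen_iff (by simp)).1 (lp.memℓp c)
  simpa using h

private theorem c9a_norm (c : CD.HH k) : ‖c‖ = ∑' p, ‖c p‖ := by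
  rw [lp.norm_eq_tsum_rpow (by simp)]
  simp

private theorem c9a_pos {δ : ℝ} (hτ : D.Good τ) (hδτ : δ ≤ τ) (j : Fin k) : 0 < D.r j - δ := by
  have := hτ.lt_r j
  linarith

private theorem c9a_Eh_le (hτ : D.Good τ) {δ : ℝ} (hδ : 0 < δ) (hδτ : δ ≤ τ)
    (p : Option (Fin k) × ℕ) {z : ℂ} (hz : z ∈ D.Ue δ) : ‖D.Eh δ p.1 p.2 z‖ ≤ 1 := by
  obtain ⟨l, n⟩ := p
  cases l with
  | none =>
    simp only [CD.Eh, norm_pow]
    refine pow_le_one₀ (norm_nonneg _) ?_
    have hR : 0 < D.R + δ := by linarith [D.Rpos]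
    rw [norm_div, Complex.norm_real, Real.norm_eq_abs, abs_of_pos hR, div_le_one hR]
    exact hz.1.le
  | some j =>
    simp only [CD.Eh, norm_pow]
    refine pow_le_one₀ (norm_nonneg _) ?_
    have hR : 0 < D.r j - δ := c9a_pos D hτ hδτ j
    have h2 := hz.2 j
    rw [norm_div, Complex.norm_real, Real.norm_eq_abs, abs_of_pos hR, div_le_one (hR.trans h2)]
    exact h2.le

private theorem c9a_Eh_diff (hτ : D.Good τ) {δ : ℝ} (hδτ : δ ≤ τ)
    (p : Option (Fin k) × ℕ) : DifferentiableOn ℂ (D.Eh δ p.1 p.2) (D.Ue δ) := by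
  obtain ⟨l, n⟩ := p
  cases l with
  | none =>
    simp only [CD.Eh]
    exact (differentiableOn_id.div_const _).pow n
  | some j =>
    simp only [CD.Eh]
    refine DifferentiableOn.pow (DifferentiableOn.div (differentiableOn_const _)
      (differentiableOn_id.sub (differentiableOn_const _)) ?_) (n + 1)
    intro z hz h0
    have h2 := hz.2 j
    have h3 : z - D.a j = 0 := h0
    rw [h3, norm_zero] at h2
    have := c9a_pos D hτ hδτ j
    linarith

private theorem c9a_sum (hτ : D.Good τ) {δ : ℝ} (hδ : 0 < δ) (hδτ : δ ≤ τ) (c : CD.HH k) {z : ℂ}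
    (hz : z ∈ D.Ue δ) : Summable fun p : Option (Fin k) × ℕ => c p * D.Eh δ p.1 p.2 z := by
  refine Summable.of_norm_bounded (c9a_summable c) fun p => ?_
  rw [norm_mul]
  exact mul_le_of_le_one_right (norm_nonneg _) (c9a_Eh_le D hτ hδ hδτ p hz)

open Classical in
private noncomputable def c9a_ev (hτ : D.Good τ) {δ : ℝ} (hδ : 0 < δ) (hδτ : δ ≤ τ) (z : ℂ) :
    CD.HH k →L[ℂ] ℂ :=
  if hz : z ∈ D.Ue δ then
    LinearMap.mkContinuous
      { toFun := fun c => ∑' p : Option (Fin k) × ℕ, c p * D.Eh δ p.1 p.2 z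
        map_add' := fun c c' => by
          rw [← (c9a_sum D hτ hδ hδτ c hz).tsum_add (c9a_sum D hτ hδ hδτ c' hz)]
          refine tsum_congr fun p => ?_
          simp only [lp.coeFn_add, Pi.add_apply]
          ring
        map_smul' := fun a c => by
          rw [RingHom.id_apply, smul_eq_mul, ← tsum_mul_left]
          refine tsum_congr fun p => ?_
          simp only [lp.coeFn_smul, Pi.smul_apply, smul_eq_mul]
          ring } 1 (fun c => by
        rw [one_mul, c9a_norm]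
        refine tsum_of_norm_bounded (c9a_summable c).hasSum fun p => ?_
        rw [norm_mul]
        exact mul_le_of_le_one_right (norm_nonneg _) (c9a_Eh_le D hτ hδ hδτ p hz))
  else 0

private theorem c9a_ev_eq (hτ : D.Good τ) {δ : ℝ} (hδ : 0 < δ) (hδτ : δ ≤ τ) {z : ℂ}
    (hz : z ∈ D.Ue δ) (c : CD.HH k) :
    c9a_ev D hτ hδ hδτ z c = ∑' p : Option (Fin k) × ℕ, c p * D.Eh δ p.1 p.2 z := by
  rw [c9a_ev, dif_pos hz]
  rfl

private theorem c9a_diff (hτ : D.Good τ) {δ : ℝ} (hδ : 0 < δ) (hδτ : δ ≤ τ) (c : CD.HH k) :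
    DifferentiableOn ℂ (fun z => c9a_ev D hτ hδ hδτ z c) (D.Ue δ) := by
  have h1 : DifferentiableOn ℂ (fun z => ∑' p : Option (Fin k) × ℕ, c p * D.Eh δ p.1 p.2 z)
      (D.Ue δ) := by
    refine Complex.differentiableOn_tsum_of_summable_norm (c9a_summable c)
      (fun p => (differentiableOn_const _).mul (c9a_Eh_diff D hτ hδτ p)) (D.Ue_open δ) ?_
    intro p z hz
    rw [norm_mul]
    exact mul_le_of_le_one_right (norm_nonneg _) (c9a_Eh_le D hτ hδ hδτ p hz)
  exact h1.congr fun z hz => c9a_ev_eq D hτ hδ hδτ hz c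

private theorem c9a_coef_zero (l : Option (Fin k)) (n : ℕ) : D.coef τ l n (fun _ => 0) = 0 := by
  cases l <;> simp [CD.coef]

private theorem c9a_scal_pos (hτ : D.Good τ) {δ : ℝ} (hδ : 0 < δ) (hδτ : δ ≤ τ)
    (p : Option (Fin k) × ℕ) : 0 < D.scal δ p := by
  obtain ⟨l, n⟩ := p
  have hR := D.Rpos
  cases l with
  | none =>
    simp only [CD.scal]
    positivity
  | some j =>
    have h1 := c9a_pos D hτ hδτ j
    have h2 := D.rpos j
    simp only [CD.scal]
    positivity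

private theorem c9a_Eh_eq (hτ : D.Good τ) {δ : ℝ} (hδ : 0 < δ) (hδτ : δ ≤ τ)
    (p : Option (Fin k) × ℕ) (z : ℂ) : D.Eh δ p.1 p.2 z = (D.scal δ p : ℂ)⁻¹ * D.E p.1 p.2 z := by
  have hs : (D.scal δ p : ℂ) ≠ 0 := by
    exact_mod_cast (c9a_scal_pos D hτ hδ hδτ p).ne'
  rw [eq_inv_mul_iff_mul_eq₀ hs]
  obtain ⟨l, n⟩ := p
  cases l with
  | none =>
    have hR : (D.R : ℂ) ≠ 0 := by exact_mod_cast D.Rpos.ne'
    have hR' : ((D.R + δ : ℝ) : ℂ) ≠ 0 := by exact_mod_cast (by linarith [D.Rpos] : D.R + δ ≠ 0)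
    simp only [CD.Eh, CD.E, CD.scal]
    push_cast at hR' ⊢
    rw [← mul_pow]
    congr 1
    field_simp
  | some j =>
    have hR : (D.r j : ℂ) ≠ 0 := by exact_mod_cast (D.rpos j).ne'
    have hR' : ((D.r j - δ : ℝ) : ℂ) ≠ 0 := by exact_mod_cast (c9a_pos D hτ hδτ j).ne'
    simp only [CD.Eh, CD.E, CD.scal]
    push_cast at hR' ⊢
    rw [← mul_pow]
    congr 1
    field_simp

private theorem c9a_E_diff (p : Option (Fin k) × ℕ) : DifferentiableOn ℂ (D.E p.1 p.2) D.U := by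
  obtain ⟨l, n⟩ := p
  cases l with
  | none =>
    simp only [CD.E]
    exact (differentiableOn_id.div_const _).pow n
  | some j =>
    simp only [CD.E]
    refine DifferentiableOn.pow (DifferentiableOn.div (differentiableOn_const _)
      (differentiableOn_id.sub (differentiableOn_const _)) ?_) (n + 1)
    intro z hz h0
    have h2 := hz.2 j
    have h3 : z - D.a j = 0 := h0
    rw [h3, norm_zero] at h2
    have := D.rpos j
    linarith

private theorem c9a_coef_fin (hτ : D.Good τ) {δ : ℝ} (hδ : 0 < δ) (hδτ : δ ≤ τ) (c : CD.HH k)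
    (p : Option (Fin k) × ℕ) (s : Finset (Option (Fin k) × ℕ)) :
    D.coef τ p.1 p.2 (fun z => ∑ q ∈ s, c q * D.Eh δ q.1 q.2 z) =
      if p ∈ s then c p / D.scal δ p else 0 := by
  classical
  induction s using Finset.induction_on with
  | empty => simpa using c9a_coef_zero D p.1 p.2
  | insert q s hq ih =>
    have e1 : (fun z => ∑ q' ∈ insert q s, c q' * D.Eh δ q'.1 q'.2 z) =
        fun z => (∑ q' ∈ s, c q' * D.Eh δ q'.1 q'.2 z) +
          (c q * (D.scal δ q : ℂ)⁻¹) * D.E q.1 q.2 z := by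
      funext z
      rw [Finset.sum_insert hq, c9a_Eh_eq D hτ hδ hδτ q z]
      ring
    have hd : DifferentiableOn ℂ (fun z => ∑ q' ∈ s, c q' * D.Eh δ q'.1 q'.2 z) D.U := by
      refine DifferentiableOn.fun_sum fun q' _ => (differentiableOn_const _).mul ?_
      exact (c9a_Eh_diff D hτ hδτ q').mono (D.U_subset_cU.trans (D.cU_subset_Ue hδ))
    rw [e1, coef_linear D p.1 p.2 hτ hd (c9a_E_diff D q), ih, coef_E D hτ]
    by_cases hpq : p = q
    · subst hpq
      rw [if_neg hq, if_pos ⟨rfl, rfl⟩, if_pos (Finset.mem_insert_self _ _)]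
      rw [zero_add, mul_one, div_eq_mul_inv]
    · have h1 : ¬ (p.1 = q.1 ∧ p.2 = q.2) := fun h => hpq (Prod.ext h.1 h.2)
      rw [if_neg h1, mul_zero, add_zero]
      simp [Finset.mem_insert, hpq]

theorem evH (hτ : D.Good τ) {δ : ℝ} (hδ : 0 < δ) (hδτ : δ ≤ τ) :
    ∃ ev : ℂ → (CD.HH k →L[ℂ] ℂ), DifferentiableOn ℂ ev (D.Ue δ) ∧
      (∀ z ∈ D.Ue δ, ‖ev z‖ ≤ 1) ∧
      (∀ z ∈ D.Ue δ, ∀ c : CD.HH k, HasSum (fun p : Option (Fin k) × ℕ => c p * D.Eh δ p.1 p.2 z)
        (ev z c)) ∧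
      (∀ c : CD.HH k, D.Hol2 (fun z => ev z c)) ∧
      ∀ (c : CD.HH k) (p : Option (Fin k) × ℕ),
        D.coef τ p.1 p.2 (fun z => ev z c) = c p / D.scal δ p := by
  have hsub : D.U ⊆ D.Ue δ := D.U_subset_cU.trans (D.cU_subset_Ue hδ)
  have hol2 : ∀ c : CD.HH k, D.Hol2 (fun z => c9a_ev D hτ hδ hδτ z c) := fun c =>
    hol2_of_nhds D (D.Ue_open δ) (D.cU_subset_Ue hδ) (c9a_diff D hτ hδ hδτ c)
  refine ⟨c9a_ev D hτ hδ hδτ, weak_hol (D.Ue_open δ) (c9a_diff D hτ hδ hδτ), ?_, ?_, hol2, ?_⟩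
  · intro z hz
    refine ContinuousLinearMap.opNorm_le_bound _ zero_le_one fun c => ?_
    rw [one_mul, c9a_ev_eq D hτ hδ hδτ hz, c9a_norm]
    refine tsum_of_norm_bounded (c9a_summable c).hasSum fun p => ?_
    rw [norm_mul]
    exact mul_le_of_le_one_right (norm_nonneg _) (c9a_Eh_le D hτ hδ hδτ p hz)
  · intro z hz c
    rw [c9a_ev_eq D hτ hδ hδτ hz]
    exact (c9a_sum D hτ hδ hδτ c hz).hasSum
  · intro c p
    obtain ⟨C, hC⟩ := coef_bound D hτ p.1 p.2
    have hfin : ∀ s : Finset (Option (Fin k) × ℕ),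
        D.Hol2 (fun z => ∑ q ∈ s, c q * D.Eh δ q.1 q.2 z) := fun s =>
      hol2_of_nhds D (D.Ue_open δ) (D.cU_subset_Ue hδ)
        (DifferentiableOn.fun_sum fun q' _ => (differentiableOn_const _).mul
          (c9a_Eh_diff D hτ hδτ q'))
    -- difference
    have key : ∀ s : Finset (Option (Fin k) × ℕ), p ∈ s →
        ‖D.coef τ p.1 p.2 (fun z => c9a_ev D hτ hδ hδτ z c) - c p / D.scal δ p‖ ≤
          |C| * Real.sqrt ((∑' q : {q // q ∉ s}, ‖c q‖) ^ 2 * (volume D.U).toReal) := by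
      intro s hps
      have h1 : (fun z => c9a_ev D hτ hδ hδτ z c + (-1 : ℂ) * ∑ q ∈ s, c q * D.Eh δ q.1 q.2 z) =
          fun z => c9a_ev D hτ hδ hδτ z c + (-1 : ℂ) * ∑ q ∈ s, c q * D.Eh δ q.1 q.2 z := rfl
      have h2 := coef_linear D p.1 p.2 hτ (hol2 c).diff (hfin s).diff (-1)
      rw [c9a_coef_fin D hτ hδ hδτ c p s, if_pos hps] at h2
      have h3 : D.Hol2 (fun z => c9a_ev D hτ hδ hδτ z c +
          (-1 : ℂ) * ∑ q ∈ s, c q * D.Eh δ q.1 q.2 z) :=
        hol2_of_nhds D (D.Ue_open δ) (D.cU_subset_Ue hδ)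
          ((c9a_diff D hτ hδ hδτ c).add ((differentiableOn_const _).mul
            (DifferentiableOn.fun_sum fun q' _ => (differentiableOn_const _).mul
              (c9a_Eh_diff D hτ hδτ q'))))
      have h4 := hC _ h3
      rw [h2] at h4
      have h5 : D.coef τ p.1 p.2 (fun z => c9a_ev D hτ hδ hδτ z c) - c p / D.scal δ p =
          D.coef τ p.1 p.2 (fun z => c9a_ev D hτ hδ hδτ z c) + -1 * (c p / D.scal δ p) := by ring
      rw [h5]
      refine h4.trans ?_
      have h6 : Real.sqrt (∫ z in D.U, ‖c9a_ev D hτ hδ hδτ z c +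
          (-1 : ℂ) * ∑ q ∈ s, c q * D.Eh δ q.1 q.2 z‖ ^ 2) ≤
          Real.sqrt ((∑' q : {q // q ∉ s}, ‖c q‖) ^ 2 * (volume D.U).toReal) := by
        refine Real.sqrt_le_sqrt ?_
        have hb : ∀ z ∈ D.U, ‖c9a_ev D hτ hδ hδτ z c +
            (-1 : ℂ) * ∑ q ∈ s, c q * D.Eh δ q.1 q.2 z‖ ^ 2 ≤ (∑' q : {q // q ∉ s}, ‖c q‖) ^ 2 := by
          intro z hz
          refine pow_le_pow_left₀ (norm_nonneg _) ?_ 2
          have hsum := c9a_sum D hτ hδ hδτ c (hsub hz)
          have e1 : c9a_ev D hτ hδ hδτ z c + (-1 : ℂ) * ∑ q ∈ s, c q * D.Eh δ q.1 q.2 z =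
              ∑' q : {q // q ∉ s}, c q * D.Eh δ q.1.1 q.1.2 z := by
            rw [c9a_ev_eq D hτ hδ hδτ (hsub hz), ← hsum.sum_add_tsum_subtype_compl s]
            ring
          rw [e1]
          have hss : Summable fun q : {q // q ∉ s} => ‖c q‖ :=
            (c9a_summable c).subtype _
          refine tsum_of_norm_bounded hss.hasSum fun q => ?_
          rw [norm_mul]
          exact mul_le_of_le_one_right (norm_nonneg _) (c9a_Eh_le D hτ hδ hδτ q.1 (hsub hz))
        calc ∫ z in D.U, ‖c9a_ev D hτ hδ hδτ z c +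
          (-1 : ℂ) * ∑ q ∈ s, c q * D.Eh δ q.1 q.2 z‖ ^ 2
            ≤ ∫ z in D.U, (∑' q : {q // q ∉ s}, ‖c q‖) ^ 2 := by
              refine setIntegral_mono_on ?_ ?_ D.U_open.measurableSet hb
              · exact h3.memLp.integrable_norm_pow (by norm_num)
              · exact integrable_const _
          _ = (∑' q : {q // q ∉ s}, ‖c q‖) ^ 2 * (volume D.U).toReal := by
              rw [setIntegral_const, smul_eq_mul, mul_comm]
              rfl
      exact (mul_le_mul_of_nonneg_right (le_abs_self C) (Real.sqrt_nonneg _)).trans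
        (mul_le_mul_of_nonneg_left h6 (abs_nonneg _))
    have hlim : Tendsto (fun s : Finset (Option (Fin k) × ℕ) =>
        |C| * Real.sqrt ((∑' q : {q // q ∉ s}, ‖c q‖) ^ 2 * (volume D.U).toReal)) atTop (𝓝 0) := by
      have h1 : Tendsto (fun s : Finset (Option (Fin k) × ℕ) => ∑' q : {q // q ∉ s}, ‖c q‖)
          atTop (𝓝 0) := tendsto_tsum_compl_atTop_zero (fun q => ‖c q‖)
      have h2 := (((h1.pow 2).mul_const (volume D.U).toReal).sqrt).const_mul |C|
      simpa using h2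
    have h0 : ‖D.coef τ p.1 p.2 (fun z => c9a_ev D hτ hδ hδτ z c) - c p / D.scal δ p‖ ≤ 0 := by
      refine ge_of_tendsto hlim ?_
      filter_upwards [Filter.eventually_ge_atTop ({p} : Finset (Option (Fin k) × ℕ))] with s hs
      exact key s (by simpa using hs)
    exact sub_eq_zero.1 (norm_le_zero_iff.1 h0)

end

end Pool.Agent.Helper7.KE
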