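import Pool.Agent.Helper7.KE.C7a

set_option autoImplicit false

open MeasureTheory Set Filter Asymptotics Topology Metric
open scoped ComplexConjugate ENNReal

namespace Pool.Agent.Helper7.KE

section
variable {k : ℕ} (D : CD k) {τ : ℝ}

theorem c9b_int_norm {g : ℂ → ℂ} (hg : D.Hol2 g) :
    ∫ z in D.U, ‖g z‖ ≤ Real.sqrt (volume.real D.U) * Real.sqrt (∫ z in D.U, ‖g z‖ ^ 2) := by
  have h1 : MemLp (fun z => ‖g z‖) (ENNReal.ofReal 2) (volume.restrict D.U) := by
    have := hg.memLp.norm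
    simpa using this
  have h2 : MemLp (fun _ : ℂ => (1 : ℝ)) (ENNReal.ofReal 2) (volume.restrict D.U) :=
    memLp_const 1
  have h := integral_mul_le_Lp_mul_Lq_of_nonneg (μ := volume.restrict D.U)
    (p := 2) (q := 2) Real.HolderConjugate.two_two (f := fun _ => (1 : ℝ)) (g := fun z => ‖g z‖)
    (Eventually.of_forall fun _ => zero_le_one) (Eventually.of_forall fun z => norm_nonneg _) h2 h1
  simp only [one_mul, Real.one_rpow] at h
  rw [← Real.sqrt_eq_rpow, ← Real.sqrt_eq_rpow] at h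
  refine h.trans (le_of_eq ?_)
  congr 1
  · congr 1
    simp [Measure.real]
  · congr 1
    refine integral_congr_ae (Eventually.of_forall fun z => ?_)
    simp

theorem c9b_int_bound {g ψ : ℂ → ℂ} (hg : D.Hol2 g) {c : ℝ} (hc : 0 ≤ c)
    (hψ : ∀ z ∈ D.U, ‖ψ z‖ ≤ c) :
    ‖∫ z in D.U, g z * ψ z‖ ≤
      c * (Real.sqrt (volume.real D.U) * Real.sqrt (∫ z in D.U, ‖g z‖ ^ 2)) := by
  have hint : Integrable g (volume.restrict D.U) := hg.memLp.integrable (by norm_num)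
  refine (norm_integral_le_of_norm_le (hint.norm.const_mul c) ?_).trans ?_
  · filter_upwards [ae_restrict_mem D.U_open.measurableSet] with z hz
    rw [norm_mul, mul_comm]
    exact mul_le_mul_of_nonneg_right (hψ z hz) (norm_nonneg _)
  · rw [integral_const_mul]
    exact mul_le_mul_of_nonneg_left (c9b_int_norm D hg) hc

theorem c9b_A_diff (l : Option (Fin k)) (n : ℕ) :
    ∃ V, IsOpen V ∧ D.cU ⊆ V ∧ DifferentiableOn ℂ (D.A l n) V := by
  cases l with
  | none =>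
    refine ⟨univ, isOpen_univ, subset_univ _, ?_⟩
    intro z _
    unfold CD.A
    exact ((differentiableAt_id.div_const _).pow _).differentiableWithinAt
  | some j =>
    refine ⟨{z | z ≠ D.a j}, isOpen_ne, ?_, ?_⟩
    · intro z hz h
      have := hz.2 j
      rw [h, sub_self, norm_zero] at this
      linarith [D.rpos j]
    · intro z hz
      unfold CD.A
      refine ((DifferentiableAt.div (differentiableAt_const _)
        (differentiableAt_id.sub_const _) ?_).pow _).differentiableWithinAt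
      exact sub_ne_zero.2 hz

theorem c9b_Lt (hτ : D.Good τ) (t : Fin k → ℂ) {g : ℂ → ℂ} (hg : D.Hol2 g) (z₀ : ℂ)
    (l : Option (Fin k)) (n : ℕ) :
    D.Lt τ t g (fun z => D.A l n z - D.A l n z₀) =
      D.Lt τ t g (D.A l n) - conj (D.A l n z₀) * sfun D τ t g := by
  obtain ⟨V, hV, hcV, hA⟩ := c9b_A_diff D l n
  have h := Lt_linear D hτ t hg hV hcV hA (differentiableOn_const (c := (1 : ℂ)) (s := V))
    (-(D.A l n z₀))
  have e : (fun z => D.A l n z - D.A l n z₀) = fun z => D.A l n z + -(D.A l n z₀) * 1 := by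
    funext z; ring
  rw [e, h, Lt_one D hτ t hg, map_neg]
  ring

theorem key_identity (hτ : D.Good τ) {z₀ : ℂ} (hz₀ : z₀ ∈ D.U) {t : Fin k → ℂ}
    (ht : ∀ j, t j ≠ 0) {g : ℂ → ℂ} (hg : D.Hol2 g) (p : Option (Fin k) × ℕ) :
    D.coef τ (CD.targ p).1 (CD.targ p).2 g = -D.Lam τ z₀ t p g +
      (D.DD t p.1)⁻¹ * D.Lt τ t g (fun z => D.A p.1 p.2 z - D.A p.1 p.2 z₀) := by
  obtain ⟨_ | j, n⟩ := p
  · have hDD : D.DD t none ≠ 0 := by
      show (Real.pi * D.R : ℂ) ≠ 0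
      exact mul_ne_zero (by exact_mod_cast Real.pi_ne_zero) (by exact_mod_cast D.Rpos.ne')
    have e1 : (D.DD t none)⁻¹ * (Real.pi * D.R) = 1 := inv_mul_cancel₀ hDD
    show D.coef τ none n g = _
    rw [c9b_Lt D hτ t hg z₀, Lt_formula_none D hτ t hg n]
    simp only [CD.Lam, sfun]
    linear_combination (-D.coef τ none n g) * e1
  · have hDD : D.DD t (some j) ≠ 0 := by
      show -(Real.pi * D.r j * t j : ℂ) ≠ 0
      exact neg_ne_zero.2 (mul_ne_zero (mul_ne_zero (by exact_mod_cast Real.pi_ne_zero)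
        (by exact_mod_cast (D.rpos j).ne')) (ht j))
    have e1 : (D.DD t (some j))⁻¹ * -(Real.pi * D.r j * t j) = 1 := inv_mul_cancel₀ hDD
    show D.coef τ (some j) (n + 1) g = _
    rw [c9b_Lt D hτ t hg z₀, Lt_formula_some D hτ t hg j n]
    simp only [CD.Lam, sfun]
    linear_combination (-D.coef τ (some j) (n + 1) g) * e1

theorem c9b_dchi (hτ : D.Good τ) : ∃ C : ℝ, 0 ≤ C ∧ ∀ (i : Fin k), ∀ z ∈ D.U,
    ‖dzb (fun w => (D.chi τ (some i) w : ℂ)) z‖ ≤ C := by
  have h : ∀ i : Fin k, ∃ C : ℝ, ∀ z ∈ D.U,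
      ‖dzb (fun w => (D.chi τ (some i) w : ℂ)) z‖ ≤ C := by
    intro i
    have h1 : ContDiff ℝ (⊤ : ℕ∞) (fun w => (D.chi τ (some i) w : ℂ)) :=
      Complex.ofRealCLM.contDiff.comp (chi_smooth D hτ.pos hτ.lt_R (some i))
    have h2 := (dz_contDiffOn (Y := ℂ) isOpen_univ h1.contDiffOn).2
    obtain ⟨C, hC⟩ := D.cU_compact.exists_bound_of_continuousOn
      (h2.continuousOn.mono (subset_univ _))
    exact ⟨C, fun z hz => hC z (D.U_subset_cU hz)⟩
  choose C hC using h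
  refine ⟨∑ i, |C i|, Finset.sum_nonneg fun i _ => abs_nonneg _, fun i z hz => ?_⟩
  exact ((hC i z hz).trans (le_abs_self _)).trans
    (Finset.single_le_sum (f := fun i => |C i|) (fun i _ => abs_nonneg _) (Finset.mem_univ i))

theorem Lam_bound (hτ : D.Good τ) {z₀ : ℂ} (hz₀ : z₀ ∈ D.U) : ∃ C q : ℝ, 0 ≤ q ∧ q < 1 ∧
    ∀ (t : Fin k → ℂ) (p : Option (Fin k) × ℕ) (g : ℂ → ℂ), (∀ j, t j ≠ 0) → D.Hol2 g →
      ‖D.Lam τ z₀ t p g‖ ≤ C * q ^ p.2 * (1 + ∑ j, ‖t j‖) * (1 + ∑ j, ‖(t j)⁻¹‖) *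
        Real.sqrt (∫ z in D.U, ‖g z‖ ^ 2) := by
  obtain ⟨C₁, q₁, hq₁, hq₁', h₁⟩ := smoothing_bound D hτ
  obtain ⟨C₂, q₂, hq₂, hq₂', h₂⟩ := A_bound D hτ hz₀
  obtain ⟨C₃, hC₃, h₃⟩ := c9b_dchi D hτ
  set q := max q₁ q₂ with hq
  have hq0 : 0 ≤ q := hq₁.trans (le_max_left _ _)
  have hq1 : q < 1 := max_lt hq₁' hq₂'
  set V := Real.sqrt (volume.real D.U) with hV
  have hV0 : 0 ≤ V := Real.sqrt_nonneg _
  -- bound for the inverses of `DD`
  set K := (Real.pi * D.R)⁻¹ + ∑ j, (Real.pi * D.r j)⁻¹ with hK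
  have hK0 : 0 ≤ K := by
    refine add_nonneg (inv_nonneg.2 (mul_nonneg Real.pi_nonneg D.Rpos.le)) ?_
    exact Finset.sum_nonneg fun j _ => inv_nonneg.2 (mul_nonneg Real.pi_nonneg (D.rpos j).le)
  have hDD : ∀ (t : Fin k → ℂ) (l : Option (Fin k)), ‖(D.DD t l)⁻¹‖ ≤
      K * (1 + ∑ j, ‖(t j)⁻¹‖) := by
    intro t l
    have hs : 0 ≤ ∑ j, ‖(t j)⁻¹‖ := Finset.sum_nonneg fun _ _ => norm_nonneg _
    have hk : 0 ≤ ∑ j, (Real.pi * D.r j)⁻¹ :=
      Finset.sum_nonneg fun j _ => inv_nonneg.2 (mul_nonneg Real.pi_nonneg (D.rpos j).le)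
    have hR : 0 ≤ (Real.pi * D.R)⁻¹ := inv_nonneg.2 (mul_nonneg Real.pi_nonneg D.Rpos.le)
    cases l with
    | none =>
      have e : ‖(D.DD t none)⁻¹‖ = (Real.pi * D.R)⁻¹ := by
        show ‖(Real.pi * D.R : ℂ)⁻¹‖ = _
        rw [norm_inv, norm_mul, Complex.norm_real, Complex.norm_real,
          Real.norm_of_nonneg Real.pi_nonneg, Real.norm_of_nonneg D.Rpos.le]
      rw [e]
      calc (Real.pi * D.R)⁻¹ ≤ K * 1 := by rw [mul_one, hK]; linarith
        _ ≤ _ := mul_le_mul_of_nonneg_left (by linarith) hK0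
    | some j =>
      have e : ‖(D.DD t (some j))⁻¹‖ = (Real.pi * D.r j)⁻¹ * ‖(t j)⁻¹‖ := by
        show ‖(-(Real.pi * D.r j * t j : ℂ))⁻¹‖ = _
        rw [norm_inv, norm_neg, norm_mul, norm_mul, Complex.norm_real, Complex.norm_real,
          Real.norm_of_nonneg Real.pi_nonneg, Real.norm_of_nonneg (D.rpos j).le, mul_inv,
          norm_inv]
      rw [e]
      have e1 : (Real.pi * D.r j)⁻¹ ≤ K := by
        have := Finset.single_le_sum (f := fun j => (Real.pi * D.r j)⁻¹)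
          (fun j _ => inv_nonneg.2 (mul_nonneg Real.pi_nonneg (D.rpos j).le)) (Finset.mem_univ j)
        rw [hK]; linarith
      have e2 : ‖(t j)⁻¹‖ ≤ 1 + ∑ j, ‖(t j)⁻¹‖ := by
        have := Finset.single_le_sum (f := fun j => ‖(t j)⁻¹‖)
          (fun j _ => norm_nonneg _) (Finset.mem_univ j)
        linarith
      exact mul_le_mul e1 e2 (norm_nonneg _) hK0
  refine ⟨K * (|C₁| * V * (1 + k) + |C₂| * (1 + k) * (C₃ * V)), q, hq0, hq1, ?_⟩
  intro t p g ht hg
  set G := Real.sqrt (∫ z in D.U, ‖g z‖ ^ 2) with hG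
  have hG0 : 0 ≤ G := Real.sqrt_nonneg _
  set T := ∑ j, ‖t j‖ with hT
  have hT0 : 0 ≤ T := Finset.sum_nonneg fun _ _ => norm_nonneg _
  set T' := ∑ j, ‖(t j)⁻¹‖ with hT'
  have hT'0 : 0 ≤ T' := Finset.sum_nonneg fun _ _ => norm_nonneg _
  -- smoothing integrals
  have hI : ∀ (l l' : Option (Fin k)) (n : ℕ), l ≠ l' →
      ‖∫ z in D.U, g z * dzb (fun w => (D.chi τ l' w : ℂ) * conj (D.A l n w)) z‖ ≤
        |C₁| * q ^ n * (V * G) := by
    intro l l' n hne
    refine c9b_int_bound D hg (mul_nonneg (abs_nonneg _) (pow_nonneg hq0 _)) fun z hz => ?_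
    refine (h₁ l l' n hne z hz).trans ?_
    exact mul_le_mul (le_abs_self _) (pow_le_pow_left₀ hq₁ (le_max_left _ _) _)
      (pow_nonneg hq₁ _) (abs_nonneg _)
  have hA : ∀ (l : Option (Fin k)) (n : ℕ), ‖conj (D.A l n z₀)‖ ≤ |C₂| * q ^ n := by
    intro l n
    rw [RCLike.norm_conj]
    exact (h₂ l n).trans (mul_le_mul (le_abs_self _) (pow_le_pow_left₀ hq₂ (le_max_right _ _) _)
      (pow_nonneg hq₂ _) (abs_nonneg _))
  have hS : ‖∑ j, (t j - 1) * ∫ z in D.U, g z * dzb (fun w => (D.chi τ (some j) w : ℂ)) z‖ ≤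
      (1 + k) * (1 + T) * (C₃ * (V * G)) := by
    refine (norm_sum_le _ _).trans ?_
    have h5 : ∀ j ∈ (Finset.univ : Finset (Fin k)),
        ‖(t j - 1) * ∫ z in D.U, g z * dzb (fun w => (D.chi τ (some j) w : ℂ)) z‖ ≤
          (‖t j‖ + 1) * (C₃ * (V * G)) := by
      intro j _
      rw [norm_mul]
      refine mul_le_mul ((norm_sub_le _ _).trans (by rw [norm_one]))
        (c9b_int_bound D hg hC₃ fun z hz => h₃ j z hz) (norm_nonneg _)
        (add_nonneg (norm_nonneg _) zero_le_one)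
    refine (Finset.sum_le_sum h5).trans ?_
    rw [← Finset.sum_mul]
    refine mul_le_mul_of_nonneg_right ?_ (mul_nonneg hC₃ (mul_nonneg hV0 hG0))
    rw [Finset.sum_add_distrib, ← hT]
    simp only [Finset.sum_const, Finset.card_univ, Fintype.card_fin, nsmul_eq_mul, mul_one]
    have : (0 : ℝ) ≤ k := Nat.cast_nonneg k
    nlinarith
  have hk0 : (0 : ℝ) ≤ k := Nat.cast_nonneg k
  have hVG : 0 ≤ V * G := mul_nonneg hV0 hG0
  obtain ⟨l, n⟩ := p
  have hqn : 0 ≤ q ^ n := pow_nonneg hq0 n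
  have hfin : ∀ (x y : ℂ), ‖x‖ ≤ (1 + k) * (1 + T) * (|C₁| * q ^ n * (V * G)) →
      ‖y‖ ≤ |C₂| * q ^ n * ((1 + k) * (1 + T) * (C₃ * (V * G))) →
      ‖(D.DD t l)⁻¹ * (x - y)‖ ≤ K * (|C₁| * V * (1 + k) + |C₂| * (1 + k) * (C₃ * V)) * q ^ n *
        (1 + T) * (1 + T') * G := by
    intro x y hx hy
    rw [norm_mul]
    calc ‖(D.DD t l)⁻¹‖ * ‖x - y‖ ≤ (K * (1 + T')) * ((1 + k) * (1 + T) * (|C₁| * q ^ n * (V * G)) +
          |C₂| * q ^ n * ((1 + k) * (1 + T) * (C₃ * (V * G)))) := by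
          refine mul_le_mul (hDD t l) ((norm_sub_le _ _).trans (add_le_add hx hy)) (norm_nonneg _)
            (mul_nonneg hK0 (by linarith))
      _ = _ := by ring
  cases l with
  | none =>
    show ‖D.Lam τ z₀ t (none, n) g‖ ≤ _
    simp only [CD.Lam]
    refine hfin _ _ ?_ ?_
    · refine (norm_sum_le _ _).trans ?_
      have h5 : ∀ i ∈ (Finset.univ : Finset (Fin k)), ‖t i * ∫ z in D.U, g z *
          dzb (fun w => (D.chi τ (some i) w : ℂ) * conj (D.A none n w)) z‖ ≤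
            ‖t i‖ * (|C₁| * q ^ n * (V * G)) := by
        intro i _
        rw [norm_mul]
        exact mul_le_mul_of_nonneg_left (hI none (some i) n (by simp)) (norm_nonneg _)
      refine (Finset.sum_le_sum h5).trans ?_
      rw [← Finset.sum_mul, ← hT]
      refine mul_le_mul_of_nonneg_right ?_ (mul_nonneg (mul_nonneg (abs_nonneg _) hqn) hVG)
      nlinarith
    · rw [norm_mul]
      exact mul_le_mul (hA none n) hS (norm_nonneg _) (mul_nonneg (abs_nonneg _) hqn)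
  | some j =>
    show ‖D.Lam τ z₀ t (some j, n) g‖ ≤ _
    simp only [CD.Lam]
    refine hfin _ _ ?_ ?_
    · refine (norm_add_le _ _).trans ?_
      have h6 := hI (some j) none n (by simp)
      have h7 : ‖∑ i ∈ Finset.univ.erase j, t i * ∫ z in D.U, g z *
          dzb (fun w => (D.chi τ (some i) w : ℂ) * conj (D.A (some j) n w)) z‖ ≤
            T * (|C₁| * q ^ n * (V * G)) := by
        refine (norm_sum_le _ _).trans ?_
        have h5 : ∀ i ∈ Finset.univ.erase j, ‖t i * ∫ z in D.U, g z *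
            dzb (fun w => (D.chi τ (some i) w : ℂ) * conj (D.A (some j) n w)) z‖ ≤
              ‖t i‖ * (|C₁| * q ^ n * (V * G)) := by
          intro i hi
          rw [norm_mul]
          refine mul_le_mul_of_nonneg_left (hI (some j) (some i) n ?_) (norm_nonneg _)
          intro h
          exact (Finset.ne_of_mem_erase hi) (Option.some.inj h).symm
        refine (Finset.sum_le_sum h5).trans ?_
        rw [← Finset.sum_mul]
        refine mul_le_mul_of_nonneg_right ?_ (mul_nonneg (mul_nonneg (abs_nonneg _) hqn) hVG)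
        exact Finset.sum_le_sum_of_subset_of_nonneg (Finset.erase_subset _ _)
          fun _ _ _ => norm_nonneg _
      have h8 : 0 ≤ |C₁| * q ^ n * (V * G) := mul_nonneg (mul_nonneg (abs_nonneg _) hqn) hVG
      nlinarith [mul_nonneg hk0 h8, mul_nonneg (mul_nonneg hk0 hT0) h8]
    · rw [norm_mul]
      exact mul_le_mul (hA (some j) n) hS (norm_nonneg _) (mul_nonneg (abs_nonneg _) hqn)

end

end Pool.Agent.Helper7.KE
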