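import Pool.Agent.Helper7.KE.C6
import Pool.Agent.Helper7.KE.C9b
import Pool.Agent.Helper7.KE.C5b

set_option autoImplicit false

open MeasureTheory Set Filter Asymptotics Topology Metric
open scoped ComplexConjugate ENNReal

namespace Pool.Agent.Helper7.KE

section
variable {k : ℕ} (D : CD k) {τ : ℝ}

/-- the plane without the centres of the holes -/
def c9cV : Set ℂ := ⋂ j, {z | z ≠ D.a j}

theorem c9cV_open : IsOpen (c9cV D) := isOpen_iInter_of_finite fun _ => isOpen_ne

theorem c9cV_sub : D.cU ⊆ c9cV D := by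
  intro z hz
  refine mem_iInter.2 fun j h => ?_
  have := hz.2 j
  rw [show z = D.a j from h, sub_self, norm_zero] at this
  linarith [D.rpos j]

theorem c9c_E_diff (l : Option (Fin k)) (n : ℕ) : DifferentiableOn ℂ (D.E l n) (c9cV D) := by
  intro z hz
  cases l with
  | none =>
    unfold CD.E
    exact ((differentiableAt_id.div_const _).pow _).differentiableWithinAt
  | some j =>
    unfold CD.E
    refine ((DifferentiableAt.div (differentiableAt_const _)
      (differentiableAt_id.sub_const _) ?_).pow _).differentiableWithinAt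
    exact sub_ne_zero.2 (mem_iInter.1 hz j)

theorem c9c_A_diff (l : Option (Fin k)) (n : ℕ) : DifferentiableOn ℂ (D.A l n) (c9cV D) := by
  intro z hz
  cases l with
  | none =>
    unfold CD.A
    exact ((differentiableAt_id.div_const _).pow _).differentiableWithinAt
  | some j =>
    unfold CD.A
    refine ((DifferentiableAt.div (differentiableAt_const _)
      (differentiableAt_id.sub_const _) ?_).pow _).differentiableWithinAt
    exact sub_ne_zero.2 (mem_iInter.1 hz j)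

theorem c9c_E_le (l : Option (Fin k)) (n : ℕ) {z : ℂ} (hz : z ∈ D.U) : ‖D.E l n z‖ ≤ 1 := by
  cases l with
  | none =>
    show ‖(z / D.R) ^ n‖ ≤ 1
    rw [norm_pow, norm_div, Complex.norm_real, Real.norm_of_nonneg D.Rpos.le]
    exact pow_le_one₀ (div_nonneg (norm_nonneg _) D.Rpos.le) ((div_le_one D.Rpos).2 hz.1.le)
  | some j =>
    show ‖(D.r j / (z - D.a j)) ^ (n + 1)‖ ≤ 1
    rw [norm_pow, norm_div, Complex.norm_real, Real.norm_of_nonneg (D.rpos j).le]
    exact pow_le_one₀ (div_nonneg (D.rpos j).le (norm_nonneg _))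
      ((div_le_one ((D.rpos j).trans (hz.2 j))).2 (hz.2 j).le)

theorem c9c_comb_diff (z₀ : ℂ) (l : Option (Fin k)) (m : ℕ) (x : ℕ → ℂ) :
    DifferentiableOn ℂ (D.comb z₀ l m x) (c9cV D) := by
  unfold CD.comb
  refine DifferentiableOn.fun_sum fun n _ => ?_
  exact ((c9c_A_diff D l n).sub_const _).const_mul _

theorem c9c_Lt_comb (hτ : D.Good τ) (t : Fin k → ℂ) {f : ℂ → ℂ} (hf : D.Hol2 f) (z₀ : ℂ)
    (l : Option (Fin k)) (m : ℕ) (x : ℕ → ℂ) :
    D.Lt τ t f (D.comb z₀ l m x) = ∑ n ∈ Finset.range m, conj (x n) *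
      D.Lt τ t f (fun z => D.A l n z - D.A l n z₀) := by
  induction m with
  | zero =>
    have e : D.comb z₀ l 0 x = fun _ => 0 := by
      funext z
      simp [CD.comb]
    rw [e, Finset.range_zero, Finset.sum_empty]
    unfold CD.Lt
    have e2 : ∀ z, dzb (fun w : ℂ => D.X τ t w * conj (0 : ℂ)) z = 0 := by
      intro z
      have : (fun w : ℂ => D.X τ t w * conj (0 : ℂ)) = fun _ => 0 := by
        funext w
        simp
      rw [this]
      exact dz_const.2
    simp only [e2, mul_zero, integral_zero]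
  | succ m ih =>
    have e : D.comb z₀ l (m + 1) x =
        fun z => D.comb z₀ l m x z + x m * (D.A l m z - D.A l m z₀) := by
      funext z
      simp only [CD.comb, Finset.sum_range_succ]
    rw [e, Lt_linear D hτ t hf (c9cV_open D) (c9cV_sub D) (c9c_comb_diff D z₀ l m x)
      ((c9c_A_diff D l m).sub_const _) (x m), ih, Finset.sum_range_succ]

theorem c9c_dual (hτ : D.Good τ) (t : Fin k → ℂ) {f : ℂ → ℂ} (hf : D.Hol2 f) (z₀ : ℂ) {M : ℝ}
    (hM : 0 ≤ M) (h : ∀ l m x, ‖D.Lt τ t f (D.comb z₀ l m x)‖ ≤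
      M * Real.sqrt (∑ n ∈ Finset.range m, (n + 1) * ‖x n‖ ^ 2)) (l : Option (Fin k)) (m : ℕ) :
    ∑ n ∈ Finset.range m, ‖D.Lt τ t f (fun z => D.A l n z - D.A l n z₀)‖ ^ 2 / (n + 1) ≤
      M ^ 2 := by
  set L : ℕ → ℂ := fun n => D.Lt τ t f (fun z => D.A l n z - D.A l n z₀) with hL
  set S : ℝ := ∑ n ∈ Finset.range m, ‖L n‖ ^ 2 / (n + 1) with hS
  have hS0 : 0 ≤ S := Finset.sum_nonneg fun n _ => by positivity
  have h1 := h l m (fun n => L n / (n + 1))
  rw [c9c_Lt_comb D hτ t hf] at h1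
  have e1 : ∑ n ∈ Finset.range m, conj (L n / (n + 1)) *
      D.Lt τ t f (fun z => D.A l n z - D.A l n z₀) = (S : ℂ) := by
    rw [hS]
    push_cast
    refine Finset.sum_congr rfl fun n _ => ?_
    show conj (L n / (n + 1)) * L n = _
    rw [map_div₀, map_add, map_one, Complex.conj_natCast, div_mul_eq_mul_div,
      mul_comm (conj (L n)), Complex.mul_conj, Complex.normSq_eq_norm_sq]
    push_cast
    rfl
  have e2 : ∑ n ∈ Finset.range m, ((n : ℝ) + 1) * ‖L n / (n + 1)‖ ^ 2 = S := by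
    refine Finset.sum_congr rfl fun n _ => ?_
    have hn : ((n : ℝ) + 1) ≠ 0 := by positivity
    have : ‖((n : ℂ) + 1)‖ = (n : ℝ) + 1 := by
      have : ((n : ℂ) + 1) = (((n : ℝ) + 1 : ℝ) : ℂ) := by push_cast; rfl
      rw [this, Complex.norm_real, Real.norm_of_nonneg (by positivity)]
    rw [norm_div, this]
    field_simp
  rw [e1, e2, Complex.norm_real, Real.norm_of_nonneg hS0] at h1
  have h2 : Real.sqrt S ≤ M := by
    by_cases h3 : Real.sqrt S = 0
    · rw [h3]; exact hM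
    · have h4 : 0 < Real.sqrt S := lt_of_le_of_ne (Real.sqrt_nonneg _) (Ne.symm h3)
      have h5 : Real.sqrt S * Real.sqrt S ≤ M * Real.sqrt S := by
        rw [Real.mul_self_sqrt hS0]; exact h1
      exact le_of_mul_le_mul_right h5 h4
  calc S = Real.sqrt S ^ 2 := (Real.sq_sqrt hS0).symm
    _ ≤ M ^ 2 := pow_le_pow_left₀ (Real.sqrt_nonneg _) h2 2

theorem c9c_targ_inj : Function.Injective (CD.targ (k := k)) := by
  rintro ⟨_ | j, n⟩ ⟨_ | j', n'⟩ h
  · simpa [CD.targ] using h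
  · simp [CD.targ] at h
  · simp [CD.targ] at h
  · simpa [CD.targ] using h

theorem c9c_hasSum {h : Option (Fin k) × ℕ → ℂ} {v : ℂ} (hh : HasSum h v) :
    HasSum (fun p => h (CD.targ p)) (v - ∑ j, h (some j, 0)) := by
  classical
  set s : Finset (Option (Fin k) × ℕ) := Finset.univ.image fun j : Fin k => (some j, 0) with hs
  have h1 : HasSum (fun p => if p ∈ s then h p else 0) (∑ j, h (some j, 0)) := by
    have h2 : HasSum (fun p => if p ∈ s then h p else 0)
        (∑ p ∈ s, if p ∈ s then h p else 0) :=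
      hasSum_sum_of_ne_finset_zero fun p hp => if_neg hp
    have e : ∑ p ∈ s, (if p ∈ s then h p else 0) = ∑ j, h (some j, 0) := by
      rw [Finset.sum_congr rfl fun p hp => if_pos hp, hs, Finset.sum_image]
      intro i _ j _ hij
      simpa using hij
    rwa [e] at h2
  have h3 := hh.sub h1
  have h4 := (c9c_targ_inj (k := k)).hasSum_iff (f := fun p => h p - if p ∈ s then h p else 0)
    (a := v - ∑ j, h (some j, 0)) ?_
  · have e : (fun p => h (CD.targ p)) =
        (fun p => h p - if p ∈ s then h p else 0) ∘ CD.targ := by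
      funext p
      have hp : CD.targ p ∉ s := by
        intro hp
        rw [hs, Finset.mem_image] at hp
        obtain ⟨j, -, hj⟩ := hp
        obtain ⟨_ | i, n⟩ := p
        · simp [CD.targ] at hj
        · simp [CD.targ] at hj
      simp only [Function.comp_apply, if_neg hp, sub_zero]
    rw [e]
    exact h4.2 h3
  · rintro ⟨_ | j, n⟩ hp
    · exact absurd ⟨(none, n), rfl⟩ hp
    · cases n with
      | zero =>
        have : ((some j, 0) : Option (Fin k) × ℕ) ∈ s := by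
          rw [hs]; simp
        simp [this]
      | succ n => exact absurd ⟨(some j, n), rfl⟩ hp

/-- the function synthesised from the functionals at one circle -/
noncomputable def c9cG (τ : ℝ) (z₀ : ℂ) (t : Fin k → ℂ) (f : ℂ → ℂ) (m : ℕ)
    (l : Option (Fin k)) (z : ℂ) : ℂ :=
  ∑ n ∈ Finset.range m, (D.DD t l)⁻¹ *
    D.Lt τ t f (fun z => D.A l n z - D.A l n z₀) * D.E (CD.targ (l, n)).1 (CD.targ (l, n)).2 z

theorem c9cG_hol (z₀ : ℂ) (t : Fin k → ℂ) (f : ℂ → ℂ) (m : ℕ) (l : Option (Fin k)) :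
    D.Hol2 (c9cG D τ z₀ t f m l) := by
  refine hol2_of_nhds D (c9cV_open D) (c9cV_sub D) ?_
  unfold c9cG
  exact DifferentiableOn.fun_sum fun n _ => (c9c_E_diff D _ _).const_mul _

theorem c9c_DD (t : Fin k → ℂ) (l : Option (Fin k)) :
    ‖(D.DD t l)⁻¹‖ * D.rad l ≤ (1 + ∑ j, ‖(t j)⁻¹‖) / Real.pi := by
  have hs : 0 ≤ ∑ j, ‖(t j)⁻¹‖ := Finset.sum_nonneg fun _ _ => norm_nonneg _
  cases l with
  | none =>
    have e : ‖(D.DD t none)⁻¹‖ = (Real.pi * D.R)⁻¹ := by
      show ‖(Real.pi * D.R : ℂ)⁻¹‖ = _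
      rw [norm_inv, norm_mul, Complex.norm_real, Complex.norm_real,
        Real.norm_of_nonneg Real.pi_nonneg, Real.norm_of_nonneg D.Rpos.le]
    have e2 : (Real.pi * D.R)⁻¹ * D.R = 1 / Real.pi := by
      have := D.Rpos.ne'
      have := Real.pi_ne_zero
      field_simp
    show ‖(D.DD t none)⁻¹‖ * D.R ≤ _
    rw [e, e2]
    exact div_le_div_of_nonneg_right (by linarith) Real.pi_nonneg
  | some j =>
    have e : ‖(D.DD t (some j))⁻¹‖ = (Real.pi * D.r j)⁻¹ * ‖(t j)⁻¹‖ := by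
      show ‖(-(Real.pi * D.r j * t j : ℂ))⁻¹‖ = _
      rw [norm_inv, norm_neg, norm_mul, norm_mul, Complex.norm_real, Complex.norm_real,
        Real.norm_of_nonneg Real.pi_nonneg, Real.norm_of_nonneg (D.rpos j).le, mul_inv,
        norm_inv]
    have e2 : (Real.pi * D.r j)⁻¹ * ‖(t j)⁻¹‖ * D.r j = ‖(t j)⁻¹‖ / Real.pi := by
      have := (D.rpos j).ne'
      have := Real.pi_ne_zero
      field_simp
    show ‖(D.DD t (some j))⁻¹‖ * D.r j ≤ _
    rw [e, e2]
    have e3 := Finset.single_le_sum (f := fun j => ‖(t j)⁻¹‖)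
      (fun j _ => norm_nonneg _) (Finset.mem_univ j)
    exact div_le_div_of_nonneg_right (by linarith) Real.pi_nonneg

theorem c9cG_bound (hτ : D.Good τ) (t : Fin k → ℂ) {f : ℂ → ℂ} (hf : D.Hol2 f) (z₀ : ℂ) {M : ℝ}
    (hM : 0 ≤ M) (h : ∀ l m x, ‖D.Lt τ t f (D.comb z₀ l m x)‖ ≤
      M * Real.sqrt (∑ n ∈ Finset.range m, (n + 1) * ‖x n‖ ^ 2)) (l : Option (Fin k)) (m : ℕ) :
    ∫ z in D.U, ‖c9cG D τ z₀ t f m l z‖ ^ 2 ≤ ((1 + ∑ j, ‖(t j)⁻¹‖) * M) ^ 2 / Real.pi := by
  set L : ℕ → ℂ := fun n => D.Lt τ t f (fun z => D.A l n z - D.A l n z₀) with hL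
  have h1 := c9c_dual D hτ t hf z₀ hM h l m
  have h2 : ∫ z in D.U, ‖∑ n ∈ Finset.range m, L n *
      D.E (CD.targ (l, n)).1 (CD.targ (l, n)).2 z‖ ^ 2 ≤
        Real.pi * D.rad l ^ 2 * ∑ n ∈ Finset.range m, ‖L n‖ ^ 2 / (n + 1) := by
    cases l with
    | none => exact norm_disc D m L
    | some j => exact norm_ext D j m L
  have e : ∀ z, ‖c9cG D τ z₀ t f m l z‖ ^ 2 = ‖(D.DD t l)⁻¹‖ ^ 2 *
      ‖∑ n ∈ Finset.range m, L n * D.E (CD.targ (l, n)).1 (CD.targ (l, n)).2 z‖ ^ 2 := by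
    intro z
    rw [← mul_pow, ← norm_mul, Finset.mul_sum]
    simp only [c9cG, hL, mul_assoc]
  simp only [e]
  rw [integral_const_mul]
  have hr : 0 ≤ D.rad l := by
    cases l with
    | none => exact D.Rpos.le
    | some j => exact (D.rpos j).le
  have h3 := c9c_DD D t l
  calc ‖(D.DD t l)⁻¹‖ ^ 2 * ∫ z in D.U, ‖∑ n ∈ Finset.range m, L n *
        D.E (CD.targ (l, n)).1 (CD.targ (l, n)).2 z‖ ^ 2
      ≤ ‖(D.DD t l)⁻¹‖ ^ 2 * (Real.pi * D.rad l ^ 2 * M ^ 2) := by
        refine mul_le_mul_of_nonneg_left (h2.trans ?_) (sq_nonneg _)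
        exact mul_le_mul_of_nonneg_left h1 (by positivity)
    _ = Real.pi * (‖(D.DD t l)⁻¹‖ * D.rad l) ^ 2 * M ^ 2 := by ring
    _ ≤ Real.pi * ((1 + ∑ j, ‖(t j)⁻¹‖) / Real.pi) ^ 2 * M ^ 2 := by
        refine mul_le_mul_of_nonneg_right (mul_le_mul_of_nonneg_left ?_ Real.pi_nonneg)
          (sq_nonneg _)
        exact pow_le_pow_left₀ (mul_nonneg (norm_nonneg _) hr) h3 2
    _ = _ := by
        have := Real.pi_ne_zero
        field_simp

/-- Fatou's lemma for square integrable functions -/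
theorem c9c_fatou {F : ℂ → ℂ} {Fm : ℕ → ℂ → ℂ} {B : ℝ} (hB : 0 ≤ B)
    (hFm : ∀ m, MemLp (Fm m) 2 (volume.restrict D.U))
    (hb : ∀ m, ∫ z in D.U, ‖Fm m z‖ ^ 2 ≤ B)
    (hlim : ∀ z ∈ D.U, Tendsto (fun m => Fm m z) atTop (𝓝 (F z))) :
    ∫ z in D.U, ‖F z‖ ^ 2 ≤ B := by
  have hae : ∀ᵐ z ∂(volume.restrict D.U), Tendsto (fun m => Fm m z) atTop (𝓝 (F z)) := by
    filter_upwards [ae_restrict_mem D.U_open.measurableSet] with z hz using hlim z hz
  have hF : AEStronglyMeasurable F (volume.restrict D.U) :=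
    aestronglyMeasurable_of_tendsto_ae atTop (fun m => (hFm m).1) hae
  rw [integral_eq_lintegral_of_nonneg_ae (Eventually.of_forall fun z => sq_nonneg _)
    (hF.norm.pow 2)]
  refine ENNReal.toReal_le_of_le_ofReal hB ?_
  have h1 : ∀ᵐ z ∂(volume.restrict D.U), ENNReal.ofReal (‖F z‖ ^ 2) =
      liminf (fun m => ENNReal.ofReal (‖Fm m z‖ ^ 2)) atTop := by
    filter_upwards [hae] with z hz
    refine (Tendsto.liminf_eq ?_).symm
    exact (ENNReal.continuous_ofReal.tendsto _).comp ((hz.norm).pow 2)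
  rw [lintegral_congr_ae h1]
  refine (lintegral_liminf_le' fun m =>
    ((hFm m).1.norm.pow 2).aemeasurable.ennreal_ofReal).trans ?_
  refine liminf_le_of_frequently_le' ?_
  refine Frequently.of_forall fun m => ?_
  show ∫⁻ z in D.U, ENNReal.ofReal (‖Fm m z‖ ^ 2) ≤ ENNReal.ofReal B
  rw [← ofReal_integral_eq_lintegral_ofReal ((hFm m).integrable_norm_pow (by norm_num))
    (Eventually.of_forall fun z => sq_nonneg _)]
  exact ENNReal.ofReal_le_ofReal (hb m)

theorem err_bound (hτ : D.Good τ) {z₀ : ℂ} (hz₀ : z₀ ∈ D.U) : ∃ C : ℝ,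
    ∀ (t : Fin k → ℂ) (f : ℂ → ℂ) (M : ℝ), (∀ j, t j ≠ 0) → D.Hol2 f → 0 ≤ M →
      (∀ l m x, ‖D.Lt τ t f (D.comb z₀ l m x)‖ ≤
          M * Real.sqrt (∑ n ∈ Finset.range m, (n + 1) * ‖x n‖ ^ 2)) →
      Real.sqrt (∫ z in D.U, ‖f z - ∑ j, D.coef τ (some j) 0 f * D.E (some j) 0 z +
        ∑' p, D.Lam τ z₀ t p f * D.E (CD.targ p).1 (CD.targ p).2 z‖ ^ 2) ≤
          C * (1 + ∑ j, ‖(t j)⁻¹‖) * M := by
  classical
  obtain ⟨C₁, q, hq0, hq1, hLam⟩ := Lam_bound D hτ hz₀
  refine ⟨Real.sqrt ((k + 1) ^ 2 / Real.pi), fun t f M ht hf hM h => ?_⟩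
  have hT : 0 ≤ ∑ j, ‖(t j)⁻¹‖ := Finset.sum_nonneg fun _ _ => norm_nonneg _
  set W := (1 + ∑ j, ‖(t j)⁻¹‖) * M with hW
  have hW0 : 0 ≤ W := mul_nonneg (by linarith) hM
  have key : ∫ z in D.U, ‖f z - ∑ j, D.coef τ (some j) 0 f * D.E (some j) 0 z +
        ∑' p, D.Lam τ z₀ t p f * D.E (CD.targ p).1 (CD.targ p).2 z‖ ^ 2 ≤
      (k + 1) ^ 2 / Real.pi * W ^ 2 := by
    refine c9c_fatou D (Fm := fun m z => ∑ l, c9cG D τ z₀ t f m l z)
      (by positivity) (fun m => ?_) (fun m => ?_) (fun z hz => ?_)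
    · exact memLp_finsetSum _ fun l _ => (c9cG_hol D z₀ t f m l).memLp
    · have h1 : ∀ z, ‖∑ l, c9cG D τ z₀ t f m l z‖ ^ 2 ≤
          (k + 1) * ∑ l, ‖c9cG D τ z₀ t f m l z‖ ^ 2 := by
        intro z
        refine (pow_le_pow_left₀ (norm_nonneg _) (norm_sum_le _ _) 2).trans ?_
        refine (sq_sum_le_card_mul_sum_sq).trans (le_of_eq ?_)
        simp
      have hint : ∀ l, Integrable (fun z => ‖c9cG D τ z₀ t f m l z‖ ^ 2)
          (volume.restrict D.U) := fun l =>
        (c9cG_hol D z₀ t f m l).memLp.integrable_norm_pow (by norm_num)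
      calc ∫ z in D.U, ‖∑ l, c9cG D τ z₀ t f m l z‖ ^ 2
          ≤ ∫ z in D.U, (k + 1) * ∑ l, ‖c9cG D τ z₀ t f m l z‖ ^ 2 := by
            refine integral_mono_of_nonneg (Eventually.of_forall fun z => sq_nonneg _) ?_
              (Eventually.of_forall h1)
            exact (integrable_finsetSum _ fun l _ => hint l).const_mul _
        _ = (k + 1) * ∑ l, ∫ z in D.U, ‖c9cG D τ z₀ t f m l z‖ ^ 2 := by
            rw [integral_const_mul, integral_finsetSum _ fun l _ => hint l]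
        _ ≤ (k + 1) * ∑ _l : Option (Fin k), W ^ 2 / Real.pi := by
            refine mul_le_mul_of_nonneg_left (Finset.sum_le_sum fun l _ => ?_) (by positivity)
            exact c9cG_bound D hτ t hf z₀ hM h l m
        _ = _ := by
            simp only [Finset.sum_const, Finset.card_univ, Fintype.card_option, Fintype.card_fin,
              nsmul_eq_mul]
            push_cast
            ring
    · have h1 := c9c_hasSum (laurent D hτ hf.diff hz)
      have h2 : HasSum (fun p => D.Lam τ z₀ t p f * D.E (CD.targ p).1 (CD.targ p).2 z)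
          (∑' p, D.Lam τ z₀ t p f * D.E (CD.targ p).1 (CD.targ p).2 z) := by
        refine Summable.hasSum ?_
        set B := |C₁| * (1 + ∑ j, ‖t j‖) * (1 + ∑ j, ‖(t j)⁻¹‖) *
          Real.sqrt (∫ z in D.U, ‖f z‖ ^ 2) with hB
        have hs : Summable (fun p : Option (Fin k) × ℕ => (fun _ => B) p.1 * q ^ p.2) := by
          refine Summable.mul_of_nonneg (f := fun _ : Option (Fin k) => B) (g := fun n => q ^ n)
            Summable.of_finite (summable_geometric_of_lt_one hq0 hq1) ?_ ?_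
          · intro _
            have : 0 ≤ ∑ j, ‖t j‖ := Finset.sum_nonneg fun _ _ => norm_nonneg _
            show 0 ≤ B
            positivity
          · intro n
            exact pow_nonneg hq0 n
        refine Summable.of_norm_bounded hs fun p => ?_
        rw [norm_mul]
        refine (mul_le_of_le_one_right (norm_nonneg _) (c9c_E_le D _ _ hz)).trans ?_
        refine (hLam t p f ht hf).trans ?_
        have e : B * q ^ p.2 = |C₁| * q ^ p.2 * (1 + ∑ j, ‖t j‖) * (1 + ∑ j, ‖(t j)⁻¹‖) *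
          Real.sqrt (∫ z in D.U, ‖f z‖ ^ 2) := by rw [hB]; ring
        show _ ≤ B * q ^ p.2
        rw [e]
        have : 0 ≤ ∑ j, ‖t j‖ := Finset.sum_nonneg fun _ _ => norm_nonneg _
        gcongr
        exact le_abs_self _
      have h3 := h1.add h2
      have h4 : ∀ p : Option (Fin k) × ℕ, D.coef τ (CD.targ p).1 (CD.targ p).2 f *
          D.E (CD.targ p).1 (CD.targ p).2 z +
            D.Lam τ z₀ t p f * D.E (CD.targ p).1 (CD.targ p).2 z =
          (D.DD t p.1)⁻¹ * D.Lt τ t f (fun z => D.A p.1 p.2 z - D.A p.1 p.2 z₀) *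
            D.E (CD.targ p).1 (CD.targ p).2 z := by
        intro p
        rw [key_identity D hτ hz₀ ht hf p]
        ring
      rw [funext h4] at h3
      have h5 : Tendsto (fun m : ℕ => (Finset.univ : Finset (Option (Fin k))) ×ˢ Finset.range m)
          atTop atTop := by
        refine tendsto_atTop_finset_of_monotone ?_ ?_
        · intro m m' hmm
          exact Finset.product_subset_product_right (Finset.range_mono hmm)
        · rintro ⟨l, n⟩
          exact ⟨n + 1, by simp⟩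
      have h6 := h3.comp h5
      refine h6.congr fun m => ?_
      simp only [Function.comp_apply, c9cG]
      rw [Finset.sum_product]
  calc Real.sqrt _ ≤ Real.sqrt ((k + 1) ^ 2 / Real.pi * W ^ 2) := Real.sqrt_le_sqrt key
    _ = Real.sqrt ((k + 1) ^ 2 / Real.pi) * W := by
        rw [Real.sqrt_mul (by positivity), Real.sqrt_sq hW0]
    _ = _ := by rw [hW]; ring

end

end Pool.Agent.Helper7.KE
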