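import Pool.Agent.Helper7.KE.C8
import Pool.Agent.Helper7.KE.C9a
import Pool.Agent.Helper7.KE.C9c
import Pool.Agent.Helper7.KE.C7b

set_option autoImplicit false

open MeasureTheory Set Filter Asymptotics Topology Metric
open scoped ComplexConjugate ENNReal

namespace Pool.Agent.Helper7.KE

namespace C9

/-- sums of rank one operators -/
theorem opsum {I X H : Type*} [NormedAddCommGroup X] [NormedSpace ℂ X] [NormedAddCommGroup H]
    [NormedSpace ℂ H] [CompleteSpace H] (u : I → (X →L[ℂ] ℂ)) (h : I → H) {M : I → ℝ}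
    (hM : Summable M) (hb : ∀ p, ‖u p‖ * ‖h p‖ ≤ M p) :
    ∃ K : X →L[ℂ] H, ∀ x, HasSum (fun p => u p x • h p) (K x) := by
  have hs : Summable fun p => (u p).smulRight (h p) :=
    Summable.of_norm_bounded hM fun p => by
      rw [ContinuousLinearMap.norm_smulRight_apply]; exact hb p
  refine ⟨∑' p, (u p).smulRight (h p), fun x => ?_⟩
  have := (ContinuousLinearMap.apply ℂ H x).hasSum hs.hasSum
  simpa using this

section
variable {k : ℕ} (D : CD k)

/-- the constant of the inclusion of bounded functions into `L²` -/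
noncomputable def W : ℝ :=
  (measureUnivNNReal (volume.restrict D.U) : ℝ) ^ ((2 : ℝ≥0∞).toReal⁻¹)

theorem W_nonneg : 0 ≤ W D := Real.rpow_nonneg (NNReal.coe_nonneg _) _

theorem memLp_bdd {φ : ℂ → ℂ} {B : ℝ} (hφ : AEStronglyMeasurable φ (volume.restrict D.U))
    (hB : ∀ z ∈ D.U, ‖φ z‖ ≤ B) : MemLp φ 2 (volume.restrict D.U) :=
  MemLp.of_bound hφ B (by
    filter_upwards [ae_restrict_mem D.U_open.measurableSet] with z hz using hB z hz)

theorem toLp_norm_le {φ : ℂ → ℂ} {B : ℝ} (hφ : MemLp φ 2 (volume.restrict D.U))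
    (hB : ∀ z ∈ D.U, ‖φ z‖ ≤ B) (hB0 : 0 ≤ B) : ‖hφ.toLp φ‖ ≤ W D * B := by
  refine Lp.norm_le_of_ae_bound hB0 ?_
  filter_upwards [hφ.coeFn_toLp, ae_restrict_mem D.U_open.measurableSet] with z h1 hz
  rw [h1]; exact hB z hz

/-- functionals given by bounded functions -/
theorem exists_fun {φ : ℂ → ℂ} {B : ℝ} (hφ : AEStronglyMeasurable φ (volume.restrict D.U))
    (hB : ∀ z ∈ D.U, ‖φ z‖ ≤ B) (hB0 : 0 ≤ B) :
    ∃ u : D.L2 →L[ℂ] ℂ, (∀ f : D.L2, u f = ∫ z in D.U, (f : ℂ → ℂ) z * φ z) ∧ ‖u‖ ≤ W D * B := by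
  have hφ' : AEStronglyMeasurable (fun z => conj (φ z)) (volume.restrict D.U) :=
    Complex.continuous_conj.comp_aestronglyMeasurable hφ
  have hm : MemLp (fun z => conj (φ z)) 2 (volume.restrict D.U) :=
    memLp_bdd D hφ' (B := B) fun z hz => by rw [RCLike.norm_conj]; exact hB z hz
  refine ⟨innerSL ℂ (hm.toLp _), fun f => ?_, ?_⟩
  · rw [innerSL_apply_apply, L2.inner_def]
    refine integral_congr_ae ?_
    filter_upwards [hm.coeFn_toLp] with z hz
    rw [hz]
    simp [mul_comm]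
  · rw [innerSL_apply_norm]
    exact toLp_norm_le D hm (fun z hz => by rw [RCLike.norm_conj]; exact hB z hz) hB0

theorem norm_eq {f : D.L2} {g : ℂ → ℂ} (h : f =ᵐ[volume.restrict D.U] g) :
    ‖f‖ = Real.sqrt (∫ z in D.U, ‖g z‖ ^ 2) := by
  have h1 : ‖f‖ ^ 2 = ∫ z in D.U, ‖g z‖ ^ 2 := by
    have h2 : inner ℂ f f = ((∫ z in D.U, ‖g z‖ ^ 2 : ℝ) : ℂ) := by
      rw [L2.inner_def, ← integral_complex_ofReal]
      refine integral_congr_ae ?_
      filter_upwards [h] with z hz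
      rw [hz]
      simp
    rw [@norm_sq_eq_re_inner ℂ]
    rw [h2]; simp
  rw [← h1, Real.sqrt_sq (norm_nonneg _)]

/-- the smoothing kernels and cut-off kernels -/
theorem A_diff {δ : ℝ} (hr : ∀ j, δ < D.r j) (l : Option (Fin k)) (n : ℕ) :
    DifferentiableOn ℂ (D.A l n) (D.Ue δ) := by
  cases l with
  | none =>
    show DifferentiableOn ℂ (fun z : ℂ => (z / D.R) ^ (n + 1)) _
    fun_prop
  | some j =>
    show DifferentiableOn ℂ (fun z : ℂ => (D.r j / (z - D.a j)) ^ (n + 1)) _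
    have h : ∀ z ∈ D.Ue δ, z - D.a j ≠ 0 := by
      intro z hz h0
      have h1 := hz.2 j
      rw [h0, norm_zero] at h1
      linarith [hr j]
    intro z hz
    have := h z hz
    apply DifferentiableAt.differentiableWithinAt
    fun_prop (disch := assumption)

theorem U_subset_Ue {δ : ℝ} (hδ : 0 < δ) : D.U ⊆ D.Ue δ := D.U_subset_cU.trans (D.cU_subset_Ue hδ)

theorem ker1_cont {τ : ℝ} (hτ : D.Good τ) (l' l : Option (Fin k)) (n : ℕ) :
    ContinuousOn (dzb (fun w => (D.chi τ l' w : ℂ) * conj (D.A l n w))) D.cU := by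
  have h1 : ContDiffOn ℝ (⊤ : ℕ∞) (D.A l n) (D.Ue τ) :=
    hol_contDiffOn (D.Ue_open τ) (A_diff D hτ.lt_r l n)
  have h2 : ContDiffOn ℝ (⊤ : ℕ∞) (fun w => (D.chi τ l' w : ℂ) * conj (D.A l n w)) (D.Ue τ) := by
    refine ContDiffOn.mul ?_ ?_
    · exact Complex.ofRealCLM.contDiff.comp_contDiffOn
        (chi_smooth D hτ.pos hτ.lt_R l').contDiffOn
    · exact Complex.conjCLE.contDiff.comp_contDiffOn h1
  exact ((dz_contDiffOn (D.Ue_open τ) h2).2.continuousOn).mono (D.cU_subset_Ue hτ.pos)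

theorem ker2_cont {τ : ℝ} (hτ : D.Good τ) (l' : Option (Fin k)) :
    ContinuousOn (dzb (fun w => (D.chi τ l' w : ℂ))) D.cU := by
  have h2 : ContDiffOn ℝ (⊤ : ℕ∞) (fun w => (D.chi τ l' w : ℂ)) (D.Ue τ) := by
    exact Complex.ofRealCLM.contDiff.comp_contDiffOn
        (chi_smooth D hτ.pos hτ.lt_R l').contDiffOn
  exact ((dz_contDiffOn (D.Ue_open τ) h2).2.continuousOn).mono (D.cU_subset_Ue hτ.pos)

theorem cont_meas {φ : ℂ → ℂ} (h : ContinuousOn φ D.cU) :
    AEStronglyMeasurable φ (volume.restrict D.U) :=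
  (h.mono D.U_subset_cU).aestronglyMeasurable D.U_open.measurableSet

/-- the scalar factors -/
noncomputable def ph (t : Fin k → ℂ) :
    (Option (Fin k) × Option (Fin k)) ⊕ (Option (Fin k) × Fin k) → ℂ
  | Sum.inl (l, none) => (D.DD t l)⁻¹
  | Sum.inl (l, some i) => (D.DD t l)⁻¹ * t i
  | Sum.inr (l, i) => -((D.DD t l)⁻¹ * (t i - 1))

theorem ph_diff (a : (Option (Fin k) × Option (Fin k)) ⊕ (Option (Fin k) × Fin k)) :
    DifferentiableOn ℂ (fun t => ph D t a) {t | ∀ j, t j ≠ 0} := by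
  have h : ∀ l, DifferentiableOn ℂ (fun t => (D.DD t l)⁻¹) {t : Fin k → ℂ | ∀ j, t j ≠ 0} := by
    intro l
    cases l with
    | none =>
      show DifferentiableOn ℂ (fun _ => ((Real.pi * D.R : ℂ))⁻¹) _
      exact differentiableOn_const _
    | some j =>
      show DifferentiableOn ℂ (fun t : Fin k → ℂ => (-(Real.pi * D.r j * t j : ℂ))⁻¹) _
      intro t ht
      have h1 : (-(Real.pi * D.r j * t j : ℂ)) ≠ 0 := by
        have h2 : (D.r j : ℂ) ≠ 0 := by exact_mod_cast (D.rpos j).ne'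
        have h3 : (Real.pi : ℂ) ≠ 0 := by exact_mod_cast Real.pi_ne_zero
        have h4 := ht j
        simp [h2, h3, h4]
      apply DifferentiableAt.differentiableWithinAt
      fun_prop (disch := assumption)
  rcases a with ⟨l, _ | i⟩ | ⟨l, i⟩
  · exact h l
  · show DifferentiableOn ℂ (fun t => (D.DD t l)⁻¹ * t i) _
    exact (h l).mul (by fun_prop)
  · show DifferentiableOn ℂ (fun t => -((D.DD t l)⁻¹ * (t i - 1))) _
    exact ((h l).mul (by fun_prop)).neg

/-- Decomposition of the functionals `Lam` -/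
theorem exists_dec {τ : ℝ} (hτ : D.Good τ) {z₀ : ℂ} (hz₀ : z₀ ∈ D.U) :
    ∃ q C : ℝ, 0 ≤ q ∧ q < 1 ∧ 0 ≤ C ∧
    ∃ u : (Option (Fin k) × Option (Fin k)) ⊕ (Option (Fin k) × Fin k) →
      Option (Fin k) × ℕ → (D.L2 →L[ℂ] ℂ),
      (∀ a p, ‖u a p‖ ≤ C * q ^ p.2) ∧
      ∀ (t : Fin k → ℂ) (p : Option (Fin k) × ℕ) (f : D.L2),
        ∑ a, ph D t a * u a p f = D.Lam τ z₀ t p (f : ℂ → ℂ) := by
  obtain ⟨C₁, q₁, h0, h1, hb1⟩ := smoothing_bound D hτ
  obtain ⟨C₂, q₂, h0', h1', hb2⟩ := A_bound D hτ hz₀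
  have hB : ∃ B : ℝ, 0 ≤ B ∧ ∀ i : Fin k, ∀ z ∈ D.U, ‖dzb (fun w => (D.chi τ (some i) w : ℂ)) z‖ ≤ B := by
    have : ∀ i : Fin k, ∃ B : ℝ, ∀ z ∈ D.cU, ‖dzb (fun w => (D.chi τ (some i) w : ℂ)) z‖ ≤ B :=
      fun i => D.cU_compact.exists_bound_of_continuousOn (ker2_cont D hτ (some i))
    choose B hB using this
    refine ⟨∑ i, |B i|, Finset.sum_nonneg fun i _ => abs_nonneg _, fun i z hz => ?_⟩
    exact ((hB i z (D.U_subset_cU hz)).trans (le_abs_self _)).trans
      (Finset.single_le_sum (f := fun i => |B i|) (fun i _ => abs_nonneg _) (Finset.mem_univ i))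
  obtain ⟨B, hB0, hB⟩ := hB
  set q := max q₁ q₂ with hq
  have hq0 : 0 ≤ q := h0.trans (le_max_left _ _)
  have hq1 : q < 1 := max_lt h1 h1'
  have e1 : ∀ (l l' : Option (Fin k)) (n : ℕ), ∃ u : D.L2 →L[ℂ] ℂ,
      ‖u‖ ≤ W D * (|C₁| * q ^ n) ∧ ∀ f : D.L2, u f = if l = l' then 0 else
        ∫ z in D.U, (f : ℂ → ℂ) z * dzb (fun w => (D.chi τ l' w : ℂ) * conj (D.A l n w)) z := by
    intro l l' n
    by_cases hl : l = l'
    · refine ⟨0, ?_, fun f => by simp [hl]⟩
      rw [norm_zero]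
      exact mul_nonneg (W_nonneg D) (by positivity)
    · obtain ⟨u, hu, hu'⟩ := exists_fun D (cont_meas D (ker1_cont D hτ l' l n))
        (B := |C₁| * q ^ n) (fun z hz => (hb1 l l' n hl z hz).trans (by
          gcongr
          · exact le_abs_self _
          · exact le_max_left _ _)) (by positivity)
      exact ⟨u, hu', fun f => by rw [if_neg hl]; exact hu f⟩
  have e2 : ∀ i : Fin k, ∃ u : D.L2 →L[ℂ] ℂ, ‖u‖ ≤ W D * B ∧
      ∀ f : D.L2, u f = ∫ z in D.U, (f : ℂ → ℂ) z * dzb (fun w => (D.chi τ (some i) w : ℂ)) z := by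
    intro i
    obtain ⟨u, hu, hu'⟩ := exists_fun D (cont_meas D (ker2_cont D hτ (some i)))
        (B := B) (hB i) hB0
    exact ⟨u, hu', hu⟩
  choose u1 hu1 hu1' using e1
  choose u2 hu2 hu2' using e2
  have hA : ∀ l n, ‖D.A l n z₀‖ ≤ |C₂| * q ^ n := fun l n => (hb2 l n).trans (by
    gcongr
    · exact le_abs_self _
    · exact le_max_right _ _)
  refine ⟨q, W D * |C₁| + |C₂| * (W D * B), hq0, hq1, by
    have := W_nonneg D
    positivity, fun a p => match a with
    | Sum.inl (l, l') => if p.1 = l then u1 l l' p.2 else 0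
    | Sum.inr (l, i) => if p.1 = l then conj (D.A l p.2 z₀) • u2 i else 0, ?_, ?_⟩
  · have hW := W_nonneg D
    rintro (⟨l, l'⟩ | ⟨l, i⟩) ⟨l₀, n⟩
    · dsimp only
      split_ifs
      · refine (hu1 l l' n).trans ?_
        have : 0 ≤ |C₂| * (W D * B) * q ^ n := by positivity
        calc _ = W D * |C₁| * q ^ n := by ring
          _ ≤ _ := by linarith
      · rw [norm_zero]; positivity
    · dsimp only
      split_ifs
      · rw [norm_smul, RCLike.norm_conj]
        have : 0 ≤ W D * |C₁| * q ^ n := by positivity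
        calc _ ≤ (|C₂| * q ^ n) * (W D * B) := by
              gcongr
              · exact hA l n
              · exact hu2 i
          _ = |C₂| * (W D * B) * q ^ n := by ring
          _ ≤ _ := by linarith
      · rw [norm_zero]; positivity
  · intro t p f
    obtain ⟨l₀, n⟩ := p
    rw [Fintype.sum_sum_type, Fintype.sum_prod_type, Fintype.sum_prod_type]
    have s1 : ∀ (x : Option (Fin k)) (y : Option (Fin k)), ph D t (Sum.inl (x, y)) *
        (if l₀ = x then u1 x y n else 0) f = if l₀ = x then ph D t (Sum.inl (x, y)) * u1 x y n f else 0 := by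
      intro x y; split_ifs <;> simp
    have s2 : ∀ (x : Option (Fin k)) (y : Fin k), ph D t (Sum.inr (x, y)) *
        (if l₀ = x then conj (D.A x n z₀) • u2 y else 0) f =
          if l₀ = x then ph D t (Sum.inr (x, y)) * (conj (D.A x n z₀) * u2 y f) else 0 := by
      intro x y; split_ifs <;> simp
    simp only [s1, s2]
    have s3 : ∀ x : Option (Fin k), (∑ y : Option (Fin k), if l₀ = x then ph D t (Sum.inl (x, y)) * u1 x y n f else 0) = if l₀ = x then ∑ y : Option (Fin k), ph D t (Sum.inl (x, y)) * u1 x y n f else 0 := by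
      intro x; split_ifs <;> simp
    have s4 : ∀ x : Option (Fin k), (∑ y : Fin k, if l₀ = x then ph D t (Sum.inr (x, y)) * (conj (D.A x n z₀) * u2 y f) else 0) = if l₀ = x then ∑ y : Fin k, ph D t (Sum.inr (x, y)) * (conj (D.A x n z₀) * u2 y f) else 0 := by
      intro x; split_ifs <;> simp
    simp only [s3, s4, Finset.sum_ite_eq, Finset.mem_univ, if_true]
    rw [Fintype.sum_option]
    cases l₀ with
    | none =>
      simp only [ph, hu1', hu2', CD.Lam]
      simp only [if_true, mul_zero, zero_add, reduceCtorEq, if_false]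
      rw [mul_sub, Finset.mul_sum, sub_eq_add_neg, Finset.mul_sum, Finset.mul_sum,
        ← Finset.sum_neg_distrib]
      congr 1
      · refine Finset.sum_congr rfl fun i _ => by ring
      · refine Finset.sum_congr rfl fun i _ => by ring
    | some j =>
      simp only [ph, hu1', hu2', CD.Lam]
      simp only [reduceCtorEq, if_false, Option.some.injEq]
      rw [mul_sub, mul_add, Finset.mul_sum, sub_eq_add_neg, Finset.mul_sum, Finset.mul_sum,
        ← Finset.sum_neg_distrib]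
      congr 1
      · congr 1
        rw [← Finset.add_sum_erase _ _ (Finset.mem_univ j), if_pos rfl, mul_zero, zero_add]
        refine Finset.sum_congr rfl fun i hi => ?_
        rw [if_neg (Finset.ne_of_mem_erase hi).symm]
        ring
      · refine Finset.sum_congr rfl fun i _ => by ring

/-- the inclusion of the coefficient space into `L²` -/
theorem exists_inc {δ : ℝ} (hδ : 0 < δ) {ev : ℂ → (CD.HH k →L[ℂ] ℂ)}
    (h2 : ∀ z ∈ D.Ue δ, ‖ev z‖ ≤ 1) (h4 : ∀ c : CD.HH k, D.Hol2 (fun z => ev z c)) :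
    ∃ inc : CD.HH k →L[ℂ] D.L2, ∀ c,
      (inc c : ℂ → ℂ) =ᵐ[volume.restrict D.U] fun z => ev z c := by
  let L : CD.HH k →ₗ[ℂ] D.L2 :=
    { toFun := fun c => (h4 c).memLp.toLp _
      map_add' := by
        intro c c'
        rw [← MemLp.toLp_add]
        exact MemLp.toLp_congr _ _ (Eventually.of_forall fun z => by simp)
      map_smul' := by
        intro a c
        rw [RingHom.id_apply, ← MemLp.toLp_const_smul]
        exact MemLp.toLp_congr _ _ (Eventually.of_forall fun z => by simp) }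
  refine ⟨L.mkContinuous (W D) fun c => ?_, fun c => ?_⟩
  · refine toLp_norm_le D (h4 c).memLp (fun z hz => ?_) (norm_nonneg _)
    refine ((ev z).le_opNorm c).trans ?_
    have := h2 z (U_subset_Ue D hδ hz)
    nlinarith [norm_nonneg c]
  · exact (h4 c).memLp.coeFn_toLp

theorem targ_inj : Function.Injective (CD.targ (k := k)) := by
  rintro ⟨_ | j, n⟩ ⟨_ | j', n'⟩ h <;> simp_all [CD.targ]

theorem targ_ne (p : Option (Fin k) × ℕ) (j : Fin k) : CD.targ p ≠ (some j, 0) := by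
  obtain ⟨_ | i, n⟩ := p <;> simp [CD.targ]

theorem targ_surj (i : Option (Fin k) × ℕ) : (∃ p, CD.targ p = i) ∨ ∃ j, i = (some j, 0) := by
  obtain ⟨_ | j, n⟩ := i
  · exact Or.inl ⟨(none, n), rfl⟩
  · cases n with
    | zero => exact Or.inr ⟨j, rfl⟩
    | succ n => exact Or.inl ⟨(some j, n), rfl⟩

theorem scal_pos {δ : ℝ} (hδ : 0 < δ) (hr : ∀ j, δ < D.r j) (p : Option (Fin k) × ℕ) :
    0 < D.scal δ p := by
  obtain ⟨_ | j, n⟩ := p
  · show 0 < ((D.R + δ) / D.R) ^ n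
    have := D.Rpos
    positivity
  · show 0 < (D.r j / (D.r j - δ)) ^ (n + 1)
    have := D.rpos j
    have := hr j
    have : 0 < D.r j - δ := by linarith
    positivity

theorem E_eq {δ : ℝ} (hδ : 0 < δ) (hr : ∀ j, δ < D.r j) (p : Option (Fin k) × ℕ) (z : ℂ) :
    D.E p.1 p.2 z = D.scal δ p * D.Eh δ p.1 p.2 z := by
  obtain ⟨_ | j, n⟩ := p
  · show (z / D.R) ^ n = (((D.R + δ) / D.R) ^ n : ℝ) * (z / (D.R + δ : ℝ)) ^ n
    have h1 : (D.R : ℂ) ≠ 0 := by exact_mod_cast D.Rpos.ne'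
    have h2 : ((D.R + δ : ℝ) : ℂ) ≠ 0 := by
      have := D.Rpos
      exact_mod_cast (by positivity : D.R + δ ≠ 0)
    push_cast at h2 ⊢
    rw [← mul_pow]
    congr 1
    field_simp
  · show (D.r j / (z - D.a j)) ^ (n + 1) = ((D.r j / (D.r j - δ)) ^ (n + 1) : ℝ) *
      ((D.r j - δ : ℝ) / (z - D.a j)) ^ (n + 1)
    have h2 : ((D.r j - δ : ℝ) : ℂ) ≠ 0 := by
      have := hr j
      exact_mod_cast (by linarith : D.r j - δ > 0).ne'
    push_cast at h2 ⊢
    rw [← mul_pow]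
    congr 1
    field_simp

/-- the vectors `h_p` -/
noncomputable def hv (δ : ℝ) (p : Option (Fin k) × ℕ) : CD.HH k :=
  (D.scal δ (CD.targ p) : ℂ) • lp.single 1 (CD.targ p) (1 : ℂ)

/-- the vectors giving the residues -/
noncomputable def rv (δ : ℝ) (j : Fin k) : CD.HH k :=
  (D.scal δ (some j, 0) : ℂ) • lp.single 1 (some j, 0) (1 : ℂ)

theorem norm_hv {δ ρ : ℝ} (hδ : 0 < δ) (hr : ∀ j, δ < D.r j) (h1 : (D.R + δ) / D.R ≤ ρ)
    (h2 : ∀ j, D.r j / (D.r j - δ) ≤ ρ) (hρ : 1 ≤ ρ) (p : Option (Fin k) × ℕ) :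
    ‖hv D δ p‖ ≤ ρ ^ (p.2 + 2) := by
  rw [hv, norm_smul, lp.norm_single (by norm_num), norm_one, mul_one, Complex.norm_real,
    Real.norm_of_nonneg (scal_pos D hδ hr _).le]
  obtain ⟨_ | j, n⟩ := p
  · show ((D.R + δ) / D.R) ^ n ≤ ρ ^ (n + 2)
    have := D.Rpos
    calc _ ≤ ρ ^ n := by gcongr
      _ ≤ _ := pow_le_pow_right₀ hρ (by omega)
  · show (D.r j / (D.r j - δ)) ^ (n + 1 + 1) ≤ ρ ^ (n + 2)
    have := D.rpos j
    have := hr j
    have : 0 < D.r j - δ := by linarith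
    have := h2 j
    gcongr

/-- coordinates -/
noncomputable def evi (i : Option (Fin k) × ℕ) : CD.HH k →L[ℂ] ℂ :=
  lp.evalCLM ℂ (fun _ : Option (Fin k) × ℕ => ℂ) 1 i

theorem evi_apply (i : Option (Fin k) × ℕ) (c : CD.HH k) : evi i c = c i := rfl

theorem coord {δ : ℝ} {L : Option (Fin k) × ℕ → ℂ} {r : CD.HH k}
    (h : HasSum (fun p => L p • hv D δ p) r) :
    (∀ p, r (CD.targ p) = L p * D.scal δ (CD.targ p)) ∧ ∀ j, r (some j, 0) = 0 := by
  have h1 : ∀ i, HasSum (fun p => (L p • hv D δ p : CD.HH k) i) (r i) := fun i => by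
    have := (evi i).hasSum h
    simpa only [evi_apply] using this
  have h2 : ∀ p i, (L p • hv D δ p : CD.HH k) i =
      if i = CD.targ p then L p * D.scal δ (CD.targ p) else 0 := by
    intro p i
    show L p * ((D.scal δ (CD.targ p) : ℂ) * (Pi.single (CD.targ p) (1 : ℂ) : _ → ℂ) i) = _
    rw [Pi.single_apply]
    split_ifs <;> simp
  constructor
  · intro p
    have h3 := h1 (CD.targ p)
    simp only [h2] at h3
    refine (h3.unique ?_)
    have := hasSum_single (f := fun p' => if CD.targ p = CD.targ p' then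
      L p' * (D.scal δ (CD.targ p') : ℂ) else 0) p (fun p' hp' => by
        rw [if_neg]; exact fun h => hp' (targ_inj h).symm)
    simpa using this
  · intro j
    have h3 := h1 (some j, 0)
    simp only [h2] at h3
    refine (h3.unique ?_)
    have : (fun p => if (some j, 0) = CD.targ p then
      L p * (D.scal δ (CD.targ p) : ℂ) else 0) = fun _ => 0 := by
      funext p
      rw [if_neg (targ_ne p j).symm]
    rw [this]; exact hasSum_zero

theorem ev_single {δ : ℝ} {ev : ℂ → (CD.HH k →L[ℂ] ℂ)}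
    (h3 : ∀ z ∈ D.Ue δ, ∀ c : CD.HH k, HasSum (fun p : Option (Fin k) × ℕ =>
      c p * D.Eh δ p.1 p.2 z) (ev z c)) {z : ℂ} (hz : z ∈ D.Ue δ) (i : Option (Fin k) × ℕ) :
    ev z (lp.single 1 i (1 : ℂ)) = D.Eh δ i.1 i.2 z := by
  refine (h3 z hz (lp.single 1 i (1 : ℂ))).unique ?_
  have := hasSum_single (f := fun p : Option (Fin k) × ℕ =>
    (lp.single (E := fun _ => ℂ) 1 i (1 : ℂ) : CD.HH k) p * D.Eh δ p.1 p.2 z) i (fun p hp => by
      rw [lp.single_apply_ne _ _ _ hp, zero_mul])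
  rwa [lp.single_apply_self, one_mul] at this

/-- the solutions of the integral equation lie in `VV_t` -/
theorem char_VV {τ : ℝ} (hτ : D.Good τ) {z₀ : ℂ} (hz₀ : z₀ ∈ D.U) {δ : ℝ} (hδ : 0 < δ)
    (hr : ∀ j, δ < D.r j) {ev : ℂ → (CD.HH k →L[ℂ] ℂ)}
    (h4 : ∀ c : CD.HH k, D.Hol2 (fun z => ev z c))
    (h5 : ∀ (c : CD.HH k) (p : Option (Fin k) × ℕ),
        D.coef τ p.1 p.2 (fun z => ev z c) = c p / D.scal δ p)
    {t : Fin k → ℂ} (ht : ∀ j, t j ≠ 0) {c r : CD.HH k}
    (hs : HasSum (fun p => D.Lam τ z₀ t p (fun z => ev z c) • hv D δ p) r)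
    {β : Fin k → ℂ} (h : c + r = ∑ j, β j • rv D δ j) :
    D.VV τ z₀ t (fun z => ev z c) ∧ ∀ j, D.coef τ (some j) 0 (fun z => ev z c) = β j := by
  obtain ⟨c1, c2⟩ := coord D hs
  have hrv : ∀ i, (∑ j, β j • rv D δ j : CD.HH k) i =
      ∑ j, if i = (some j, 0) then β j * D.scal δ (some j, 0) else 0 := by
    intro i
    rw [lp.coeFn_sum, Finset.sum_apply]
    refine Finset.sum_congr rfl fun j _ => ?_
    show β j * ((D.scal δ (some j, 0) : ℂ) * (Pi.single (some j, 0) (1 : ℂ) : _ → ℂ) i) = _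
    rw [Pi.single_apply]
    split_ifs <;> simp
  have hi : ∀ i, c i + r i = (∑ j, β j • rv D δ j : CD.HH k) i := by
    intro i
    rw [← h]; rfl
  refine ⟨⟨h4 c, fun l n => ?_⟩, fun j => ?_⟩
  · have e := hi (CD.targ (l, n))
    rw [hrv, c1, Finset.sum_eq_zero (fun j _ => if_neg (targ_ne (l, n) j))] at e
    have hk := key_identity D hτ hz₀ ht (h4 c) (l, n)
    have hsc : (D.scal δ (CD.targ (l, n)) : ℂ) ≠ 0 := by
      exact_mod_cast (scal_pos D hδ hr _).ne'
    rw [h5] at hk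
    have e2 : c (CD.targ (l, n)) / (D.scal δ (CD.targ (l, n)) : ℂ) =
        -D.Lam τ z₀ t (l, n) (fun z => ev z c) := by
      rw [div_eq_iff hsc]; linear_combination e
    rw [e2] at hk
    have hD : D.DD t l ≠ 0 := by
      cases l with
      | none =>
        show (Real.pi * D.R : ℂ) ≠ 0
        exact mul_ne_zero (by exact_mod_cast Real.pi_ne_zero) (by exact_mod_cast D.Rpos.ne')
      | some j =>
        show (-(Real.pi * D.r j * t j) : ℂ) ≠ 0
        have h2 : (D.r j : ℂ) ≠ 0 := by exact_mod_cast (D.rpos j).ne'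
        have h3 : (Real.pi : ℂ) ≠ 0 := by exact_mod_cast Real.pi_ne_zero
        have h4 := ht j
        simp [h2, h3, h4]
    have e3 : (D.DD t l)⁻¹ * D.Lt τ t (fun z => ev z c) (fun z => D.A l n z - D.A l n z₀) = 0 := by
      linear_combination -hk
    rcases mul_eq_zero.1 e3 with h | h
    · exact absurd (inv_eq_zero.1 h) hD
    · exact h
  · have e := hi (some j, 0)
    rw [hrv, c2, add_zero, Finset.sum_eq_single j (fun i _ hij => by
      rw [if_neg]; simpa using hij.symm) (fun h => absurd (Finset.mem_univ j) h), if_pos rfl] at e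
    have := h5 c (some j, 0)
    have hne : (D.scal δ (some j, 0) : ℂ) ≠ 0 := by
      exact_mod_cast (scal_pos D hδ hr (some j, 0)).ne'
    rw [this, e]
    exact mul_div_cancel_right₀ _ hne

theorem deriv_A {δ : ℝ} (hr : ∀ j, δ < D.r j) (p : Option (Fin k) × ℕ) : ∃ κ : ℂ, κ ≠ 0 ∧
    ∀ z ∈ D.Ue δ, deriv (D.A p.1 p.2) z = κ * D.E (CD.targ p).1 (CD.targ p).2 z := by
  obtain ⟨_ | j, n⟩ := p
  · have h1 : (D.R : ℂ) ≠ 0 := by exact_mod_cast D.Rpos.ne'
    refine ⟨(n + 1 : ℕ) / D.R, div_ne_zero (by exact_mod_cast n.succ_ne_zero) h1, fun z _ => ?_⟩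
    have h : HasDerivAt (D.A none n) ((n + 1 : ℕ) * (z / D.R) ^ n * (1 / D.R)) z := by
      show HasDerivAt (fun z : ℂ => (z / D.R) ^ (n + 1)) _ z
      have := ((hasDerivAt_id' z).div_const (D.R : ℂ)).fun_pow (n + 1)
      simpa using this
    rw [h.deriv]
    show _ = ((n + 1 : ℕ) / D.R : ℂ) * (z / D.R) ^ n
    field_simp
  · have h1 : (D.r j : ℂ) ≠ 0 := by exact_mod_cast (D.rpos j).ne'
    refine ⟨-((n + 1 : ℕ) / D.r j), neg_ne_zero.2
      (div_ne_zero (by exact_mod_cast n.succ_ne_zero) h1), fun z hz => ?_⟩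
    have h2 : z - D.a j ≠ 0 := by
      intro h0
      have h1 := hz.2 j
      rw [h0, norm_zero] at h1
      linarith [hr j]
    have h : HasDerivAt (D.A (some j) n) ((n + 1 : ℕ) * (D.r j / (z - D.a j)) ^ n *
        (-(D.r j / (z - D.a j) ^ 2))) z := by
      have h3 : HasDerivAt (fun z => D.r j / (z - D.a j)) (-(D.r j / (z - D.a j) ^ 2)) z := by
        have := (((hasDerivAt_id' z).sub_const (D.a j)).fun_inv h2).const_mul (D.r j : ℂ)
        exact (this.congr_deriv (by ring)).congr_of_eventuallyEq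
          (Eventually.of_forall fun y => div_eq_mul_inv _ _)
      show HasDerivAt (fun z : ℂ => (D.r j / (z - D.a j)) ^ (n + 1)) _ z
      have := h3.fun_pow (n + 1)
      simpa using this
    rw [h.deriv]
    show _ = -((n + 1 : ℕ) / D.r j : ℂ) * (D.r j / (z - D.a j)) ^ (n + 1 + 1)
    rw [pow_succ (D.r j / (z - D.a j) : ℂ) (n + 1), pow_succ (D.r j / (z - D.a j) : ℂ) n]
    generalize (D.r j / (z - D.a j) : ℂ) ^ n = y
    field_simp

theorem inj_one {τ : ℝ} (hτ : D.Good τ) {z₀ : ℂ} (hz₀ : z₀ ∈ D.U) {δ : ℝ} (hδ : 0 < δ)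
    (hr : ∀ j, δ < D.r j) {ev : ℂ → (CD.HH k →L[ℂ] ℂ)}
    (h2 : ∀ z ∈ D.Ue δ, ‖ev z‖ ≤ 1)
    (h3 : ∀ z ∈ D.Ue δ, ∀ c : CD.HH k, HasSum (fun p : Option (Fin k) × ℕ =>
      c p * D.Eh δ p.1 p.2 z) (ev z c))
    (h4 : ∀ c : CD.HH k, D.Hol2 (fun z => ev z c))
    (h5 : ∀ (c : CD.HH k) (p : Option (Fin k) × ℕ),
        D.coef τ p.1 p.2 (fun z => ev z c) = c p / D.scal δ p)
    {c r : CD.HH k}
    (hs : HasSum (fun p => D.Lam τ z₀ (fun _ => 1) p (fun z => ev z c) • hv D δ p) r)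
    (h : c + r = 0) : c = 0 := by
  have hsc : ∀ p, (D.scal δ p : ℂ) ≠ 0 := fun p => by
    exact_mod_cast (scal_pos D hδ hr p).ne'
  obtain ⟨hV, hc0⟩ := char_VV D hτ hz₀ hδ hr h4 h5 (t := fun _ => 1) (fun _ => one_ne_zero) hs
    (β := 0) (by simpa using h)
  have hcj : ∀ j, c (some j, 0) = 0 := by
    intro j
    have := h5 c (some j, 0)
    rw [hc0 j] at this
    exact (div_eq_zero_iff.1 this.symm).resolve_right (hsc _)
  obtain ⟨inc, hinc⟩ := exists_inc D hδ h2 h4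
  have horth : ∀ p, ∫ z in D.U, ev z c * conj (D.E (CD.targ p).1 (CD.targ p).2 z) = 0 := by
    rintro ⟨l, n⟩
    obtain ⟨κ, hκ, hκ'⟩ := deriv_A D hr (l, n)
    have e := hV.ann l n
    have e1 : D.Lt τ (fun _ => 1) (fun z => ev z c) (fun z => D.A l n z - D.A l n z₀) =
        conj κ * ∫ z in D.U, ev z c * conj (D.E (CD.targ (l, n)).1 (CD.targ (l, n)).2 z) := by
      rw [CD.Lt, ← integral_const_mul]
      refine setIntegral_congr_fun D.U_open.measurableSet fun z hz => ?_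
      have hX : (fun w => D.X τ (fun _ => 1) w * conj (D.A l n w - D.A l n z₀)) =
          fun w => conj (D.A l n w - D.A l n z₀) := by
        funext w; simp [CD.X]
      have hd : DifferentiableAt ℂ (fun w => D.A l n w - D.A l n z₀) z :=
        ((A_diff D hr l n).differentiableAt ((D.Ue_open δ).mem_nhds (U_subset_Ue D hδ hz))).sub_const _
      rw [hX, (dz_conj_hol hd).2, deriv_sub_const, hκ' z (U_subset_Ue D hδ hz), map_mul]
      ring
    rw [e1] at e
    exact (mul_eq_zero.1 e).resolve_left (by simpa using hκ)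
  have hin : inner ℂ (inc c) (inc c) = 0 := by
    have s1 : HasSum (fun i => lp.single 1 i (c i)) c := lp.hasSum_single (by norm_num) c
    have s2 : HasSum (fun i => (innerSL ℂ (inc c)) (inc (lp.single 1 i (c i))))
        ((innerSL ℂ (inc c)) (inc c)) := by
      have := ((innerSL ℂ (inc c)).comp inc).hasSum s1
      simpa only [ContinuousLinearMap.comp_apply] using this
    have s3 : ∀ i, (innerSL ℂ (inc c)) (inc (lp.single 1 i (c i))) = 0 := by
      intro i
      rcases targ_surj i with ⟨p, rfl⟩ | ⟨j, rfl⟩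
      · have e : (lp.single 1 (CD.targ p) (c (CD.targ p)) : CD.HH k) =
            c (CD.targ p) • lp.single 1 (CD.targ p) (1 : ℂ) := by
          rw [← lp.single_smul, smul_eq_mul, mul_one]
        rw [e, map_smul, map_smul, innerSL_apply_apply, L2.inner_def]
        have e2 : ∫ z in D.U, inner ℂ ((inc c : ℂ → ℂ) z)
            ((inc (lp.single 1 (CD.targ p) (1 : ℂ)) : ℂ → ℂ) z) =
            conj ((D.scal δ (CD.targ p) : ℂ)⁻¹ *
              ∫ z in D.U, ev z c * conj (D.E (CD.targ p).1 (CD.targ p).2 z)) := by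
          rw [← integral_const_mul, ← integral_conj]
          refine integral_congr_ae ?_
          filter_upwards [hinc c, hinc (lp.single 1 (CD.targ p) (1 : ℂ)),
            ae_restrict_mem D.U_open.measurableSet] with z hz1 hz2 hzU
          rw [hz1, hz2, ev_single D h3 (U_subset_Ue D hδ hzU), E_eq D hδ hr]
          simp only [RCLike.inner_apply, map_mul, map_inv₀, Complex.conj_ofReal,
            Complex.conj_conj]
          have := hsc (CD.targ p)
          field_simp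
        rw [e2, horth p]; simp
      · rw [hcj j, lp.single_zero]; simp
    have s4 : (innerSL ℂ (inc c)) (inc c) = 0 := by
      refine s2.unique ?_
      simp only [s3]; exact hasSum_zero
    simpa [innerSL_apply_apply] using s4
  have hz : inc c = 0 := inner_self_eq_zero.1 hin
  have hae : (fun z => ev z c) =ᵐ[volume.restrict D.U] 0 := by
    have := hinc c
    rw [hz] at this
    exact this.symm.trans (Lp.coeFn_zero _ _ _)
  have hcoef : ∀ p : Option (Fin k) × ℕ, D.coef τ p.1 p.2 (fun z => ev z c) = 0 := by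
    rintro ⟨_ | j, n⟩
    · show _ * (∫ z in D.U, ev z c * (D.R / z) ^ (n + 1) * dzb (fun w => (D.chi τ none w : ℂ)) z) = 0
      rw [integral_eq_zero_of_ae, mul_zero]
      filter_upwards [hae] with z hz
      rw [hz]; simp
    · show _ * (∫ z in D.U, ev z c * ((z - D.a j) / D.r j) ^ n *
        dzb (fun w => (D.chi τ (some j) w : ℂ)) z) = 0
      rw [integral_eq_zero_of_ae, mul_zero]
      filter_upwards [hae] with z hz
      rw [hz]; simp
  ext p
  have := h5 c p
  rw [hcoef p] at this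
  exact (div_eq_zero_iff.1 this.symm).resolve_right (hsc _)

theorem Lam_congr {τ : ℝ} {z₀ : ℂ} {g g' : ℂ → ℂ} (h : g =ᵐ[volume.restrict D.U] g')
    (t : Fin k → ℂ) (p : Option (Fin k) × ℕ) : D.Lam τ z₀ t p g = D.Lam τ z₀ t p g' := by
  have key : ∀ φ : ℂ → ℂ, ∫ z in D.U, g z * φ z = ∫ z in D.U, g' z * φ z := fun φ =>
    integral_congr_ae (h.mono fun z hz => by simp [hz])
  obtain ⟨_ | j, n⟩ := p <;> simp only [CD.Lam, key]

theorem exists_delta {τ ρ : ℝ} (hτ : D.Good τ) (hρ : 1 < ρ) :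
    ∃ δ > 0, δ ≤ τ ∧ (∀ j, δ < D.r j) ∧ (D.R + δ) / D.R ≤ ρ ∧
      ∀ j, D.r j / (D.r j - δ) ≤ ρ := by
  have h1 : ∀ᶠ δ in 𝓝[>] (0 : ℝ), 0 < δ := eventually_mem_nhdsWithin
  have h2 : ∀ᶠ δ in 𝓝[>] (0 : ℝ), δ ≤ τ :=
    (eventually_le_nhds hτ.pos).filter_mono nhdsWithin_le_nhds
  have h3 : ∀ᶠ δ in 𝓝[>] (0 : ℝ), ∀ j, δ < D.r j := eventually_all.2 fun j =>
    (eventually_lt_nhds (D.rpos j)).filter_mono nhdsWithin_le_nhds
  have h4 : ∀ᶠ δ in 𝓝[>] (0 : ℝ), (D.R + δ) / D.R ≤ ρ := by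
    have : Tendsto (fun δ : ℝ => (D.R + δ) / D.R) (𝓝 0) (𝓝 ((D.R + 0) / D.R)) :=
      Continuous.tendsto (by fun_prop) 0
    have h : (D.R + 0) / D.R < ρ := by rw [add_zero, div_self D.Rpos.ne']; exact hρ
    exact ((this.eventually_lt_const h).mono fun _ h => h.le).filter_mono nhdsWithin_le_nhds
  have h5 : ∀ᶠ δ in 𝓝[>] (0 : ℝ), ∀ j, D.r j / (D.r j - δ) ≤ ρ := eventually_all.2 fun j => by
    have h0 : D.r j - 0 ≠ 0 := by rw [sub_zero]; exact (D.rpos j).ne'
    have : Tendsto (fun δ : ℝ => D.r j / (D.r j - δ)) (𝓝 0) (𝓝 (D.r j / (D.r j - 0))) :=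
      ContinuousAt.tendsto (f := fun δ : ℝ => D.r j / (D.r j - δ))
        (continuousAt_const.div (by fun_prop) h0)
    have h : D.r j / (D.r j - 0) < ρ := by rw [sub_zero, div_self (D.rpos j).ne']; exact hρ
    exact ((this.eventually_lt_const h).mono fun _ h => h.le).filter_mono nhdsWithin_le_nhds
  obtain ⟨δ, a, b, c, d, e⟩ := (h1.and (h2.and (h3.and (h4.and h5)))).exists
  exact ⟨δ, a, b, c, d, e⟩

/-- all the operators -/
theorem setup {τ : ℝ} (hτ : D.Good τ) {z₀ : ℂ} (hz₀ : z₀ ∈ D.U) :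
    ∃ δ > 0, δ ≤ τ ∧ (∀ j, δ < D.r j) ∧
    ∃ (ev : ℂ → (CD.HH k →L[ℂ] ℂ)) (inc : CD.HH k →L[ℂ] D.L2)
      (K : (Option (Fin k) × Option (Fin k)) ⊕ (Option (Fin k) × Fin k) →
        (D.L2 →L[ℂ] CD.HH k)),
      DifferentiableOn ℂ ev (D.Ue δ) ∧
      (∀ z ∈ D.Ue δ, ∀ c : CD.HH k, HasSum (fun p : Option (Fin k) × ℕ => c p * D.Eh δ p.1 p.2 z)
        (ev z c)) ∧
      (∀ c : CD.HH k, D.Hol2 (fun z => ev z c)) ∧
      (∀ (c : CD.HH k) (p : Option (Fin k) × ℕ),
        D.coef τ p.1 p.2 (fun z => ev z c) = c p / D.scal δ p) ∧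
      (∀ c, (inc c : ℂ → ℂ) =ᵐ[volume.restrict D.U] fun z => ev z c) ∧
      (∀ t (f : D.L2), HasSum (fun p => D.Lam τ z₀ t p (f : ℂ → ℂ) • hv D δ p)
        ((∑ a, ph D t a • K a) f)) ∧
      ∀ (T : ℝ) (γ : ℂ → (Fin k → ℂ)), 0 < T → Differentiable ℂ γ → (∀ s j, γ s j ≠ 0) →
        γ 0 = (fun _ => 1) → ∃ (d : ℂ → ℂ) (Rop : ℂ → (CD.HH k →L[ℂ] CD.HH k)),
        DifferentiableOn ℂ d (ball 0 T) ∧ DifferentiableOn ℂ Rop (ball 0 T) ∧ d 0 ≠ 0 ∧
        ∀ s ∈ ball (0 : ℂ) T,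
          (1 + ∑ a, ph D (γ s) a • (K a).comp inc) * Rop s = d s • 1 ∧
          Rop s * (1 + ∑ a, ph D (γ s) a • (K a).comp inc) = d s • 1 := by
  obtain ⟨q, C, hq0, hq1, hC, u, hu, hdec⟩ := exists_dec D hτ hz₀
  set ρ : ℝ := 2 / (1 + q) with hρdef
  have hρ1 : 1 < ρ := by
    rw [hρdef, lt_div_iff₀ (by linarith)]; linarith
  have hqρ : q * ρ < 1 := by
    rw [hρdef, ← mul_div_assoc, div_lt_one (by linarith)]; linarith
  have hqρ0 : 0 ≤ q * ρ := by positivity
  obtain ⟨δ, hδ, hδτ, hr, hd1, hd2⟩ := exists_delta D hτ hρ1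
  obtain ⟨ev, e1, e2, e3, e4, e5⟩ := evH D hτ hδ hδτ
  obtain ⟨inc, hinc⟩ := exists_inc D hδ e2 e4
  have hsum : ∀ B : ℝ, Summable fun p : Option (Fin k) × ℕ => B * (q * ρ) ^ p.2 := by
    intro B
    refine Summable.mul_left B ?_
    rw [← (Equiv.prodComm ℕ (Option (Fin k))).summable_iff]
    have hg : Summable fun n : ℕ => (q * ρ) ^ n := summable_geometric_of_lt_one hqρ0 hqρ
    have h1 : Summable fun x : ℕ × Option (Fin k) => (q * ρ) ^ x.1 * (1 : ℝ) :=
      Summable.mul_of_nonneg hg (Summable.of_finite (f := fun _ : Option (Fin k) => (1 : ℝ)))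
        (fun n => by positivity) (fun _ => zero_le_one)
    refine h1.congr fun x => ?_
    simp
  have hhv := norm_hv D hδ hr hd1 hd2 hρ1.le
  have hbound : ∀ a p, ‖u a p‖ * ‖hv D δ p‖ ≤ C * ρ ^ 2 * (q * ρ) ^ p.2 := by
    intro a p
    calc ‖u a p‖ * ‖hv D δ p‖ ≤ (C * q ^ p.2) * ρ ^ (p.2 + 2) := by
          gcongr
          · exact hu a p
          · exact hhv p
      _ = _ := by rw [mul_pow, pow_add]; ring
  choose K hK using fun a => opsum (u a) (hv D δ) (hsum (C * ρ ^ 2)) (hbound a)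
  have hKt : ∀ t (f : D.L2), HasSum (fun p => D.Lam τ z₀ t p (f : ℂ → ℂ) • hv D δ p)
        ((∑ a, ph D t a • K a) f) := by
    intro t f
    have h1 : HasSum (fun p => ∑ a, ph D t a • (u a p f • hv D δ p)) (∑ a, ph D t a • K a f) :=
      hasSum_sum fun a _ => (hK a f).const_smul _
    have h2 : (∑ a, ph D t a • K a) f = ∑ a, ph D t a • K a f := by
      simp
    rw [h2]
    convert h1 using 1
    funext p
    rw [← hdec, Finset.sum_smul]
    refine Finset.sum_congr rfl fun a _ => ?_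
    rw [mul_smul]
  refine ⟨δ, hδ, hδτ, hr, ev, inc, K, e1, e3, e4, e5, hinc, hKt, ?_⟩
  intro T γ hT hγ hγ0 hγ1
  have hph : ∀ a, Differentiable ℂ fun s => ph D (γ s) a := fun a s =>
    (((ph_diff D a).differentiableAt ((isOpen_iff_mem_nhds.1 (by
      have : {t : Fin k → ℂ | ∀ j, t j ≠ 0} = ⋂ j, {t : Fin k → ℂ | t j ≠ 0} := by
        ext t; simp
      rw [this]
      exact isOpen_iInter_of_finite fun j => isOpen_ne_fun (continuous_apply j)
        continuous_const) _ (hγ0 s)))).comp s (hγ s))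
  have hΦ : ∀ a, ∃ B : ℝ, ∀ s ∈ closedBall (0 : ℂ) T, ‖ph D (γ s) a‖ ≤ B := fun a =>
    (isCompact_closedBall (0 : ℂ) T).exists_bound_of_continuousOn (hph a).continuous.continuousOn
  choose Φ hΦ using hΦ
  have hb1 : ∀ s ∈ ball (0 : ℂ) T, ∀ p, ‖(∑ a, ph D (γ s) a • (u a p).comp inc : CD.HH k →L[ℂ] ℂ)‖ *
      ‖hv D δ p‖ ≤ ((∑ a, |Φ a|) * (C * ‖inc‖) * ρ ^ 2) * (q * ρ) ^ p.2 := by
    intro s hs p
    have h1 : ‖(∑ a, ph D (γ s) a • (u a p).comp inc : CD.HH k →L[ℂ] ℂ)‖ ≤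
        ∑ a, |Φ a| * ((C * q ^ p.2) * ‖inc‖) := by
      refine (norm_sum_le _ _).trans (Finset.sum_le_sum fun a _ => ?_)
      rw [norm_smul]
      have h2 := (hΦ a s (ball_subset_closedBall hs)).trans (le_abs_self _)
      have h3 := (u a p).opNorm_comp_le inc
      have h4 := hu a p
      calc _ ≤ |Φ a| * (‖u a p‖ * ‖inc‖) := by gcongr
        _ ≤ _ := by gcongr
    rw [← Finset.sum_mul] at h1
    calc _ ≤ ((∑ a, |Φ a|) * ((C * q ^ p.2) * ‖inc‖)) * ρ ^ (p.2 + 2) := by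
          gcongr
          exact hhv p
      _ = _ := by rw [mul_pow, pow_add]; ring
  have hlam : ∀ t p (c : CD.HH k), (∑ a, ph D t a • (u a p).comp inc : CD.HH k →L[ℂ] ℂ) c =
      D.Lam τ z₀ t p (fun z => ev z c) := by
    intro t p c
    rw [← Lam_congr D (hinc c), ← hdec]
    simp
  have hS : ∀ t (c : CD.HH k), HasSum (fun p => D.Lam τ z₀ t p (fun z => ev z c) • hv D δ p)
      ((∑ a, ph D t a • (K a).comp inc : CD.HH k →L[ℂ] CD.HH k) c) := by
    intro t c
    have h1 := hKt t (inc c)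
    have h2 : (∑ a, ph D t a • (K a).comp inc : CD.HH k →L[ℂ] CD.HH k) c =
        (∑ a, ph D t a • K a) (inc c) := by simp
    rw [h2]
    convert h1 using 1
    funext p
    rw [Lam_congr D (hinc c)]
  obtain ⟨K', d, Rop, hK', hd, hR, hd0, hK'', hinv⟩ := analytic_fredholm (I := Option (Fin k) × ℕ)
    (H := CD.HH k) hT (lam := fun p s => ∑ a, ph D (γ s) a • (u a p).comp inc) (hv := hv D δ)
    (M := fun p => ((∑ a, |Φ a|) * (C * ‖inc‖) * ρ ^ 2) * (q * ρ) ^ p.2)
    (fun p => by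
      apply DifferentiableOn.fun_sum
      intro a _
      exact ((hph a).differentiableOn).smul_const _)
    (hsum _) (fun p s hs => hb1 s hs p)
    (fun x hx => by
      simp only [hlam, hγ1] at hx
      exact inj_one D hτ hz₀ hδ hr e2 e3 e4 e5 (hS _ x).summable.hasSum hx)
  have hKS : ∀ s ∈ ball (0 : ℂ) T, K' s = ∑ a, ph D (γ s) a • (K a).comp inc := by
    intro s hs
    ext1 c
    rw [hK'' s hs c]
    simp only [hlam]
    exact (hS _ c).tsum_eq
  refine ⟨d, Rop, hd, hR, hd0, fun s hs => ?_⟩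
  rw [← hKS s hs]
  exact hinv s hs

end

end C9


section
variable {k : ℕ} (D : CD k) {τ : ℝ}

/-- frames near `t = 1` and along complex lines -/
theorem frames (hτ : D.Good τ) {z₀ : ℂ} (hz₀ : z₀ ∈ D.U) :
    ∃ δ > 0, δ ≤ τ ∧
    (∃ ε > 0, ε < 1 ∧ ∃ C : ℝ, ∃ g : Fin k → (Fin k → ℂ) → ℂ → ℂ,
      (∀ b, ContinuousOn (fun p : (Fin k → ℂ) × ℂ => g b p.1 p.2)
        ({t | ∀ j, ‖t j - 1‖ < ε} ×ˢ D.Ue δ)) ∧
      (∀ b, ∀ t ∈ {t : Fin k → ℂ | ∀ j, ‖t j - 1‖ < ε}, DifferentiableOn ℂ (g b t) (D.Ue δ)) ∧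
      (∀ b, ∀ z ∈ D.Ue δ, DifferentiableOn ℂ (fun t => g b t z) {t | ∀ j, ‖t j - 1‖ < ε}) ∧
      (∀ b, ∀ t ∈ {t : Fin k → ℂ | ∀ j, ‖t j - 1‖ < ε}, D.VV τ z₀ t (g b t)) ∧
      (∀ b j, ∀ t ∈ {t : Fin k → ℂ | ∀ j, ‖t j - 1‖ < ε},
        D.coef τ (some j) 0 (g b t) = if j = b then 1 else 0) ∧
      (∀ t ∈ {t : Fin k → ℂ | ∀ j, ‖t j - 1‖ < ε}, ∀ f : ℂ → ℂ, D.Hol2 f → ∀ M : ℝ, 0 ≤ M →
        (∀ l m x, ‖D.Lt τ t f (D.comb z₀ l m x)‖ ≤
          M * Real.sqrt (∑ n ∈ Finset.range m, (n + 1) * ‖x n‖ ^ 2)) →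
        Real.sqrt (∫ z in D.U, ‖f z - ∑ b, D.coef τ (some b) 0 f * g b t z‖ ^ 2) ≤ C * M)) ∧
    (∀ (om : Fin k → ℂ) (T : ℝ), 0 < T → ∃ (d : ℂ → ℂ) (g : Fin k → ℂ → ℂ → ℂ),
      DifferentiableOn ℂ d (ball 0 T) ∧ d 0 ≠ 0 ∧
      (∀ b, ContinuousOn (fun p : ℂ × ℂ => g b p.1 p.2) (ball 0 T ×ˢ D.Ue δ)) ∧
      (∀ b, ∀ s ∈ ball (0 : ℂ) T, DifferentiableOn ℂ (g b s) (D.Ue δ)) ∧
      (∀ b, ∀ z ∈ D.Ue δ, DifferentiableOn ℂ (fun s => g b s z) (ball 0 T)) ∧
      (∀ b, ∀ s ∈ ball (0 : ℂ) T, D.VV τ z₀ (fun j => Complex.exp (s * om j)) (g b s)) ∧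
      (∀ b j, ∀ s ∈ ball (0 : ℂ) T,
        D.coef τ (some j) 0 (g b s) = if j = b then d s else 0)) := by
  obtain ⟨δ, hδ, hδτ, hr, ev, inc, K, e1, e3, e4, e5, hinc, hKt, hfred⟩ := C9.setup D hτ hz₀
  -- the operators
  set S : (Fin k → ℂ) → (CD.HH k →L[ℂ] CD.HH k) := fun t =>
    ∑ a, C9.ph D t a • (K a).comp inc with hSdef
  set Kt : (Fin k → ℂ) → (D.L2 →L[ℂ] CD.HH k) := fun t => ∑ a, C9.ph D t a • K a with hKtdef
  have hSK : ∀ t c, S t c = Kt t (inc c) := by
    intro t c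
    simp [hSdef, hKtdef]
  have hS : ∀ t (c : CD.HH k), HasSum (fun p => D.Lam τ z₀ t p (fun z => ev z c) • C9.hv D δ p)
      (S t c) := by
    intro t c
    rw [hSK]
    convert hKt t (inc c) using 1
    funext p
    rw [C9.Lam_congr D (hinc c)]
  have hchar : ∀ {t : Fin k → ℂ}, (∀ j, t j ≠ 0) → ∀ {c : CD.HH k} {β : Fin k → ℂ},
      (1 + S t) c = ∑ j, β j • C9.rv D δ j →
      D.VV τ z₀ t (fun z => ev z c) ∧ ∀ j, D.coef τ (some j) 0 (fun z => ev z c) = β j := by
    intro t ht c β h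
    exact C9.char_VV D hτ hz₀ hδ hr e4 e5 ht (hS t c) (by simpa using h)
  have hone : ∀ b : Fin k, ∀ x : ℂ, x • C9.rv D δ b =
      ∑ j, (if j = b then x else 0) • C9.rv D δ j := by
    intro b x
    simp
  refine ⟨δ, hδ, hδτ, ?_, ?_⟩
  · -- invertibility at `1`
    have hu1 : IsUnit (1 + S (fun _ => 1)) := by
      obtain ⟨d, Rop, hd, hR, hd0, hinv⟩ := hfred 1 (fun _ _ => 1) one_pos
        (differentiable_const _) (fun _ _ => one_ne_zero) rfl
      obtain ⟨h1, h2⟩ := hinv 0 (mem_ball_self one_pos)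
      refine ⟨⟨1 + S (fun _ => 1), (d 0)⁻¹ • Rop 0, ?_, ?_⟩, rfl⟩
      · rw [mul_smul_comm]
        change (d 0)⁻¹ • ((1 + ∑ a, C9.ph D (fun _ => 1) a • (K a).comp inc) * Rop 0) = 1
        rw [h1, smul_smul, inv_mul_cancel₀ hd0, one_smul]
      · rw [smul_mul_assoc]
        change (d 0)⁻¹ • (Rop 0 * (1 + ∑ a, C9.ph D (fun _ => 1) a • (K a).comp inc)) = 1
        rw [h2, smul_smul, inv_mul_cancel₀ hd0, one_smul]
    have hopen : IsOpen {t : Fin k → ℂ | ∀ j, t j ≠ 0} := by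
      have : {t : Fin k → ℂ | ∀ j, t j ≠ 0} = ⋂ j, {t : Fin k → ℂ | t j ≠ 0} := by
        ext t; simp
      rw [this]
      exact isOpen_iInter_of_finite fun j => isOpen_ne_fun (continuous_apply j) continuous_const
    have hSd : DifferentiableOn ℂ (fun t => 1 + S t) {t : Fin k → ℂ | ∀ j, t j ≠ 0} := by
      refine DifferentiableOn.const_add _ ?_
      apply DifferentiableOn.fun_sum
      intro a _
      exact (C9.ph_diff D a).smul_const _
    have hKtd : DifferentiableOn ℂ Kt {t : Fin k → ℂ | ∀ j, t j ≠ 0} := by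
      apply DifferentiableOn.fun_sum
      intro a _
      exact (C9.ph_diff D a).smul_const _
    have h1mem : (fun _ => 1 : Fin k → ℂ) ∈ {t : Fin k → ℂ | ∀ j, t j ≠ 0} :=
      fun _ => one_ne_zero
    have hSc : ContinuousAt (fun t => 1 + S t) (fun _ => 1) :=
      (hSd.differentiableAt (hopen.mem_nhds h1mem)).continuousAt
    have hKc : ContinuousAt Kt (fun _ => 1) :=
      (hKtd.differentiableAt (hopen.mem_nhds h1mem)).continuousAt
    have hIc : ContinuousAt (fun t => Ring.inverse (1 + S t)) (fun _ => 1) :=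
      ContinuousAt.comp (f := fun t => 1 + S t) (x := fun _ => (1 : ℂ))
        (g := Ring.inverse) (by
          obtain ⟨x, hx⟩ := hu1
          show ContinuousAt Ring.inverse (1 + S (fun _ => 1))
          rw [← hx]
          exact NormedRing.inverse_continuousAt x) hSc
    obtain ⟨BI, hBI⟩ : ∃ B : ℝ, ∀ᶠ t in 𝓝 (fun _ => 1 : Fin k → ℂ),
        ‖Ring.inverse (1 + S t)‖ < B :=
      ⟨‖Ring.inverse (1 + S (fun _ => 1))‖ + 1,
        hIc.norm.eventually_lt_const (lt_add_one _)⟩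
    obtain ⟨BK, hBK⟩ : ∃ B : ℝ, ∀ᶠ t in 𝓝 (fun _ => 1 : Fin k → ℂ), ‖Kt t‖ < B :=
      ⟨‖Kt (fun _ => 1)‖ + 1, hKc.norm.eventually_lt_const (lt_add_one _)⟩
    have hBt : ∀ᶠ t in 𝓝 (fun _ => 1 : Fin k → ℂ), 1 + ∑ j, ‖(t j)⁻¹‖ < k + 2 := by
      have hc : ContinuousAt (fun t : Fin k → ℂ => 1 + ∑ j, ‖(t j)⁻¹‖) (fun _ => 1) := by
        refine continuousAt_const.add ?_
        refine tendsto_finsetSum _ fun j _ => ?_
        have : ContinuousAt (fun t : Fin k → ℂ => ‖(t j)⁻¹‖) (fun _ => 1) :=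
          ((continuous_apply j).continuousAt.inv₀ one_ne_zero).norm
        exact this
      refine hc.eventually_lt_const ?_
      simp
      linarith
    have hU : ∀ᶠ t in 𝓝 (fun _ => 1 : Fin k → ℂ), IsUnit (1 + S t) :=
      hSc.eventually (Units.isOpen.mem_nhds hu1)
    obtain ⟨ε, hε, hεall⟩ := Metric.eventually_nhds_iff_ball.1
      (hBI.and (hBK.and (hBt.and (hU.and (hopen.mem_nhds h1mem)))))
    have hε' : ∀ t ∈ {t : Fin k → ℂ | ∀ j, ‖t j - 1‖ < min ε (1 / 2)},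
        t ∈ ball (fun _ => 1 : Fin k → ℂ) ε := by
      intro t ht
      rw [mem_ball, dist_pi_lt_iff hε]
      intro j
      rw [dist_eq_norm]
      exact (ht j).trans_le (min_le_left _ _)
    obtain ⟨C₂, hC₂⟩ := err_bound D hτ hz₀
    -- the frame
    set c : Fin k → (Fin k → ℂ) → CD.HH k := fun b t => Ring.inverse (1 + S t) (C9.rv D δ b)
      with hc
    have hcd : ∀ b, DifferentiableOn ℂ (c b) {t : Fin k → ℂ | ∀ j, ‖t j - 1‖ < min ε (1 / 2)} := by
      intro b
      refine DifferentiableOn.clm_apply ?_ (differentiableOn_const _)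
      intro t ht
      obtain ⟨-, -, -, h4, h5⟩ := hεall t (hε' t ht)
      have h6 : DifferentiableAt ℂ (fun t => 1 + S t) t :=
        hSd.differentiableAt (hopen.mem_nhds h5)
      have h7 : DifferentiableAt ℂ Ring.inverse (1 + S t) := differentiableAt_inverse h4
      exact (h7.comp t h6).differentiableWithinAt
    have hcinv : ∀ t ∈ {t : Fin k → ℂ | ∀ j, ‖t j - 1‖ < min ε (1 / 2)}, ∀ v : CD.HH k,
        (1 + S t) (Ring.inverse (1 + S t) v) = v ∧ Ring.inverse (1 + S t) ((1 + S t) v) = v := by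
      intro t ht v
      obtain ⟨-, -, -, h4, h5⟩ := hεall t (hε' t ht)
      constructor
      · calc (1 + S t) (Ring.inverse (1 + S t) v) = ((1 + S t) * Ring.inverse (1 + S t)) v := rfl
          _ = v := by rw [Ring.mul_inverse_cancel _ h4]; rfl
      · calc Ring.inverse (1 + S t) ((1 + S t) v) = (Ring.inverse (1 + S t) * (1 + S t)) v := rfl
          _ = v := by rw [Ring.inverse_mul_cancel _ h4]; rfl
    have key : ∀ b, ∀ t ∈ {t : Fin k → ℂ | ∀ j, ‖t j - 1‖ < min ε (1 / 2)},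
        (1 + S t) (c b t) = ∑ j, (if j = b then (1 : ℂ) else 0) • C9.rv D δ j := by
      intro b t ht
      rw [← hone, one_smul]
      exact (hcinv t ht _).1
    refine ⟨min ε (1 / 2), by positivity, (min_le_right _ _).trans_lt (by norm_num),
      (1 + ‖inc‖ * (|BI| * |BK|)) * (|C₂| * (k + 2)), fun b t z => ev z (c b t),
      ?_, ?_, ?_, ?_, ?_, ?_⟩
    · intro b
      refine ContinuousOn.clm_apply ?_ ?_
      · exact e1.continuousOn.comp continuousOn_snd fun p hp => hp.2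
      · exact (hcd b).continuousOn.comp continuousOn_fst fun p hp => hp.1
    · intro b t ht
      exact e1.clm_apply (differentiableOn_const _)
    · intro b z hz
      exact (ev z).differentiable.comp_differentiableOn (hcd b)
    · intro b t ht
      exact (hchar (hεall t (hε' t ht)).2.2.2.2 (key b t ht)).1
    · intro b j t ht
      exact (hchar (hεall t (hε' t ht)).2.2.2.2 (key b t ht)).2 j
    · intro t ht f hf M hM hcomb
      obtain ⟨g1, g2, g3, g4, g5⟩ := hεall t (hε' t ht)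
      have hF := hf.memLp.coeFn_toLp
      set F : D.L2 := hf.memLp.toLp f with hFdef
      set β : Fin k → ℂ := fun j => D.coef τ (some j) 0 f with hβ
      set vβ : CD.HH k := ∑ j, β j • C9.rv D δ j with hvβ
      set cβ : CD.HH k := ∑ b, β b • c b t with hcβ
      have hcβ' : (1 + S t) cβ = vβ := by
        rw [hcβ, map_sum, hvβ]
        refine Finset.sum_congr rfl fun b _ => ?_
        rw [map_smul]
        congr 1
        exact (hcinv t ht _).1
      set Err : D.L2 := F - inc vβ + inc (Kt t F) with hErr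
      set y : D.L2 := F - inc cβ with hy
      have hyE : y + inc (Kt t y) = Err := by
        have h1 : cβ + Kt t (inc cβ) = vβ := by
          rw [← hSK, ← hcβ']; rfl
        have h2 : inc cβ + inc (Kt t (inc cβ)) = inc vβ := by
          rw [← map_add, h1]
        rw [hy, hErr, map_sub, map_sub, ← h2]
        abel
      have hKy : Kt t y = Ring.inverse (1 + S t) (Kt t Err) := by
        have h1 : (1 + S t) (Kt t y) = Kt t Err := by
          rw [← hyE, map_add, ← hSK]; rfl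
        rw [← h1, (hcinv t ht _).2]
      have hyn : ‖y‖ ≤ (1 + ‖inc‖ * (|BI| * |BK|)) * ‖Err‖ := by
        have h1 : y = Err - inc (Ring.inverse (1 + S t) (Kt t Err)) := by
          rw [← hKy, ← hyE]; abel
        have h2 : ‖Kt t Err‖ ≤ |BK| * ‖Err‖ :=
          ((Kt t).le_opNorm _).trans (by
            have := g2.le.trans (le_abs_self _)
            gcongr)
        have h3 : ‖Ring.inverse (1 + S t) (Kt t Err)‖ ≤ |BI| * (|BK| * ‖Err‖) :=
          ((Ring.inverse (1 + S t)).le_opNorm _).trans (by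
            have := g1.le.trans (le_abs_self _)
            gcongr)
        have h4 : ‖inc (Ring.inverse (1 + S t) (Kt t Err))‖ ≤ ‖inc‖ * (|BI| * (|BK| * ‖Err‖)) :=
          (inc.le_opNorm _).trans (by gcongr)
        calc ‖y‖ ≤ ‖Err‖ + ‖inc (Ring.inverse (1 + S t) (Kt t Err))‖ := by
              conv_lhs => rw [h1]
              exact norm_sub_le _ _
          _ ≤ ‖Err‖ + ‖inc‖ * (|BI| * (|BK| * ‖Err‖)) := by gcongr
          _ = _ := by ring
      have hEn : ‖Err‖ ≤ (|C₂| * (k + 2)) * M := by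
        have h1 := hC₂ t f M g5 hf hM hcomb
        have h2 : (Err : ℂ → ℂ) =ᵐ[volume.restrict D.U] fun z =>
            f z - ∑ j, D.coef τ (some j) 0 f * D.E (some j) 0 z +
              ∑' p, D.Lam τ z₀ t p f * D.E (CD.targ p).1 (CD.targ p).2 z := by
          filter_upwards [Lp.coeFn_add (F - inc vβ) (inc (Kt t F)), Lp.coeFn_sub F (inc vβ), hF,
            hinc vβ, hinc (Kt t F), ae_restrict_mem D.U_open.measurableSet] with z z1 z2 z3 z4 z5 hz
          have hzU := C9.U_subset_Ue D hδ hz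
          rw [hErr, z1, Pi.add_apply, z2, Pi.sub_apply, z3, z4, z5]
          congr 1
          · congr 1
            rw [hvβ, map_sum]
            refine Finset.sum_congr rfl fun j _ => ?_
            rw [map_smul, C9.rv, map_smul, C9.ev_single D e3 hzU, smul_eq_mul, smul_eq_mul,
              ← C9.E_eq D hδ hr (some j, 0)]
          · have h3 := (ev z).hasSum (hKt t F)
            rw [← h3.tsum_eq]
            refine tsum_congr fun p => ?_
            rw [map_smul, C9.hv, map_smul, C9.ev_single D e3 hzU,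
              smul_eq_mul, smul_eq_mul, ← C9.E_eq D hδ hr (CD.targ p),
              C9.Lam_congr D hF]
        rw [C9.norm_eq D h2]
        refine h1.trans ?_
        have h3 : 0 ≤ 1 + ∑ j, ‖(t j)⁻¹‖ := by positivity
        have h4 := le_abs_self C₂
        gcongr
      have hyf : (y : ℂ → ℂ) =ᵐ[volume.restrict D.U] fun z =>
          f z - ∑ b, D.coef τ (some b) 0 f * ev z (c b t) := by
        filter_upwards [Lp.coeFn_sub F (inc cβ), hF, hinc cβ] with z z1 z2 z3
        rw [hy, z1, Pi.sub_apply, z2, z3, hcβ, map_sum]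
        congr 1
        refine Finset.sum_congr rfl fun b _ => ?_
        rw [map_smul, smul_eq_mul]
      rw [← C9.norm_eq D hyf]
      calc ‖y‖ ≤ (1 + ‖inc‖ * (|BI| * |BK|)) * ‖Err‖ := hyn
        _ ≤ (1 + ‖inc‖ * (|BI| * |BK|)) * ((|C₂| * (k + 2)) * M) := by gcongr
        _ = _ := by ring
  · intro om T hT
    obtain ⟨d, Rop, hd, hR, hd0, hinv⟩ := hfred T (fun s j => Complex.exp (s * om j)) hT
      (differentiable_pi.2 fun j => by fun_prop) (fun s j => Complex.exp_ne_zero _)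
      (by funext j; simp)
    have key : ∀ b, ∀ s ∈ ball (0 : ℂ) T, (1 + S (fun j => Complex.exp (s * om j)))
        (Rop s (C9.rv D δ b)) = ∑ j, (if j = b then d s else 0) • C9.rv D δ j := by
      intro b s hs
      rw [← hone]
      have h1 : (1 + S (fun j => Complex.exp (s * om j))) * Rop s = d s • 1 := (hinv s hs).1
      calc (1 + S (fun j => Complex.exp (s * om j))) (Rop s (C9.rv D δ b)) =
          ((1 + S (fun j => Complex.exp (s * om j))) * Rop s) (C9.rv D δ b) := rfl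
        _ = (d s • (1 : CD.HH k →L[ℂ] CD.HH k)) (C9.rv D δ b) := by rw [h1]
        _ = d s • C9.rv D δ b := rfl
    refine ⟨d, fun b s z => ev z (Rop s (C9.rv D δ b)), hd, hd0, ?_, ?_, ?_, ?_, ?_⟩
    · intro b
      refine ContinuousOn.clm_apply ?_ ?_
      · exact e1.continuousOn.comp continuousOn_snd fun p hp => hp.2
      · refine ContinuousOn.clm_apply ?_ continuousOn_const
        exact hR.continuousOn.comp continuousOn_fst fun p hp => hp.1
    · intro b s hs
      exact e1.clm_apply (differentiableOn_const _)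
    · intro b z hz
      exact (ev z).differentiable.comp_differentiableOn (hR.clm_apply (differentiableOn_const _))
    · intro b s hs
      exact (hchar (fun j => Complex.exp_ne_zero _) (key b s hs)).1
    · intro b j s hs
      exact (hchar (fun j => Complex.exp_ne_zero _) (key b s hs)).2 j

end

end Pool.Agent.Helper7.KE
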