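import Pool.Agent.Helper7.KE.C2
import Pool.Agent.Helper7.KE.A5a

set_option autoImplicit false

open MeasureTheory Set Filter Asymptotics Topology Metric
open scoped ComplexConjugate ENNReal

namespace Pool.Agent.Helper7.KE

namespace GradProj

theorem diff_real {F : ℂ → ℝ} (hF : ContDiff ℝ (⊤ : ℕ∞) F) (z : ℂ) :
    DifferentiableAt ℝ F z := hF.differentiable (by simp) z

theorem smoothC {F : ℂ → ℝ} (hF : ContDiff ℝ (⊤ : ℕ∞) F) :
    ContDiff ℝ (⊤ : ℕ∞) (fun z => (F z : ℂ)) := Complex.ofRealCLM.contDiff.comp hF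

theorem smooth_of_test {V : Set ℂ} {ψ : ℂ → ℝ} (hψ : IsTest V (fun z => (ψ z : ℂ))) :
    ContDiff ℝ (⊤ : ℕ∞) ψ := by
  have := Complex.reCLM.contDiff.comp hψ.smooth
  simpa [Function.comp_def] using this

theorem smooth_dz {F : ℂ → ℂ} (hF : ContDiff ℝ (⊤ : ℕ∞) F) :
    ContDiff ℝ (⊤ : ℕ∞) (dz F) ∧ ContDiff ℝ (⊤ : ℕ∞) (dzb F) := by
  have := dz_contDiffOn isOpen_univ hF.contDiffOn
  exact ⟨contDiffOn_univ.1 this.1, contDiffOn_univ.1 this.2⟩

/-- the mixed second derivative of a real function is real -/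
theorem lap_real {ψ : ℂ → ℝ} (hψ : ContDiff ℝ (⊤ : ℕ∞) ψ) (z : ℂ) :
    conj (dz (dzb (fun w => (ψ w : ℂ))) z) = dz (dzb (fun w => (ψ w : ℂ))) z := by
  have h1 := smoothC hψ
  have h2 := (smooth_dz h1).2
  have h3 : (fun w => conj (dzb (fun w => (ψ w : ℂ)) w)) = dz (fun w => (ψ w : ℂ)) := by
    funext w
    rw [dzb_ofReal (diff_real hψ w), Complex.conj_conj]
  rw [← (dz_conj (h2.differentiable (by simp) z)).2, h3,
    dz_comm isOpen_univ ((h1.of_le (WithTop.coe_le_coe.2 le_top)).contDiffOn) (mem_univ z)]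

/-- `∫ ∂F ∂̄ψ` is real for real `F` and real test functions `ψ` -/
theorem cross_real {U : Set ℂ} {F ψ : ℂ → ℝ} (hF : ContDiff ℝ (⊤ : ℕ∞) F)
    (hψ : IsTest U (fun z => (ψ z : ℂ))) :
    (∫ z in U, dz (fun w => (F w : ℂ)) z * dzb (fun w => (ψ w : ℂ)) z).im = 0 := by
  have sψ := smooth_of_test hψ
  have sF := smoothC hF
  have tψ : IsTest U (dzb (fun w => (ψ w : ℂ))) := hψ.dzb
  have e0 : ∫ z in U, dz (fun w => (F w : ℂ)) z * dzb (fun w => (ψ w : ℂ)) z =
      ∫ z, dz (fun w => (F w : ℂ)) z * dzb (fun w => (ψ w : ℂ)) z := by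
    apply setIntegral_eq_integral_of_forall_compl_eq_zero
    intro z hz
    rw [image_eq_zero_of_notMem_tsupport (fun h => hz (tψ.supp h)), mul_zero]
  have e1 := (integral_dz_test (F := fun z => (F z : ℂ) * dzb (fun w => (ψ w : ℂ)) z)
    ((sF.mul tψ.smooth).of_le (by exact_mod_cast le_top)) tψ.compact.mul_left).1
  have e2 : ∀ z, dz (fun z => (F z : ℂ) * dzb (fun w => (ψ w : ℂ)) z) z =
      dz (fun w => (F w : ℂ)) z * dzb (fun w => (ψ w : ℂ)) z +
        (F z : ℂ) * dz (dzb (fun w => (ψ w : ℂ))) z := fun z =>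
    (dz_smul (sF.differentiable (by simp) z) (tψ.smooth.differentiable (by simp) z)).1
  have i1 : Integrable (fun z => dz (fun w => (F w : ℂ)) z * dzb (fun w => (ψ w : ℂ)) z) :=
    (((smooth_dz sF).1.mul tψ.smooth).continuous).integrable_of_hasCompactSupport
      tψ.compact.mul_left
  have i2 : Integrable (fun z => (F z : ℂ) * dz (dzb (fun w => (ψ w : ℂ))) z) :=
    ((sF.mul tψ.dz.smooth).continuous).integrable_of_hasCompactSupport tψ.dz.compact.mul_left
  simp only [e2] at e1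
  rw [integral_add i1 i2] at e1
  have e3 : ∫ z in U, dz (fun w => (F w : ℂ)) z * dzb (fun w => (ψ w : ℂ)) z =
      -∫ z, (F z : ℂ) * dz (dzb (fun w => (ψ w : ℂ))) z := by
    rw [e0]; linear_combination e1
  have e4 : ∀ z, (F z : ℂ) * dz (dzb (fun w => (ψ w : ℂ))) z =
      ((F z * (dz (dzb (fun w => (ψ w : ℂ))) z).re : ℝ) : ℂ) := by
    intro z
    have := Complex.conj_eq_iff_re.1 (lap_real sψ z)
    push_cast
    rw [this]
  rw [e3]
  simp only [e4]
  rw [integral_complex_ofReal]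
  simp

end GradProj

section
variable {k : ℕ} (D : CD k) {τ : ℝ}

theorem GradProj.norm_sq_L2 (f : D.L2) : ‖f‖ ^ 2 = ∫ z in D.U, ‖(f : ℂ → ℂ) z‖ ^ 2 := by
  have h1 : ((‖f‖ ^ 2 : ℝ) : ℂ) = inner ℂ f f := by
    rw [inner_self_eq_norm_sq_to_K]
    norm_cast
  rw [L2.inner_def] at h1
  have h2 : ∀ z, inner ℂ ((f : ℂ → ℂ) z) ((f : ℂ → ℂ) z) = ((‖(f : ℂ → ℂ) z‖ ^ 2 : ℝ) : ℂ) := by
    intro z
    rw [inner_self_eq_norm_sq_to_K]
    norm_cast
  simp only [h2] at h1
  rw [integral_complex_ofReal] at h1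
  exact_mod_cast h1


/-- the class of a function continuous on the closed domain -/
theorem GradProj.memLp_cont {F : ℂ → ℂ} (hF : Continuous F) : MemLp F 2 (volume.restrict D.U) := by
  obtain ⟨C, hC⟩ := D.cU_compact.exists_bound_of_continuousOn hF.continuousOn
  refine MemLp.of_bound hF.aestronglyMeasurable C ?_
  filter_upwards [ae_restrict_mem D.U_open.measurableSet] with z hz
  exact hC z (D.U_subset_cU hz)

/-- real gradients of test functions in `L²` -/
noncomputable def GradProj.gradS : Submodule ℝ D.L2 where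
  carrier := {f | ∃ ψ : ℂ → ℝ, IsTest D.U (fun z => (ψ z : ℂ)) ∧
    f =ᵐ[volume.restrict D.U] dz (fun w => (ψ w : ℂ))}
  add_mem' := by
    rintro f f' ⟨ψ, hψ, e⟩ ⟨ψ', hψ', e'⟩
    have h1 : (fun z => ((ψ z + ψ' z : ℝ) : ℂ)) = fun z => (ψ z : ℂ) + (ψ' z : ℂ) := by
      funext z; push_cast; rfl
    refine ⟨fun z => ψ z + ψ' z, ?_, ?_⟩
    · rw [h1]; exact hψ.add hψ'
    · filter_upwards [Lp.coeFn_add f f', e, e'] with z h h' h''
      rw [h, Pi.add_apply, h', h'', h1]
      exact (dz_add (hψ.smooth.differentiable (by simp) z)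
        (hψ'.smooth.differentiable (by simp) z)).1.symm
  zero_mem' := by
    refine ⟨fun _ => 0, ⟨?_, ?_, ?_⟩, ?_⟩
    · simpa using contDiff_const
    · have : (fun z : ℂ => ((0 : ℝ) : ℂ)) = (0 : ℂ → ℂ) := by funext z; simp
      rw [this]
      exact HasCompactSupport.zero
    · have : (fun z : ℂ => ((0 : ℝ) : ℂ)) = (0 : ℂ → ℂ) := by funext z; simp
      rw [this, tsupport_zero]
      exact empty_subset _
    · filter_upwards [Lp.coeFn_zero ℂ 2 (volume.restrict D.U)] with z h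
      rw [h]
      exact dz_const.1.symm
  smul_mem' := by
    rintro c f ⟨ψ, hψ, e⟩
    have h1 : (fun z => ((c * ψ z : ℝ) : ℂ)) = fun z => (c : ℂ) • (ψ z : ℂ) := by
      funext z; push_cast; rfl
    refine ⟨fun z => c * ψ z, ?_, ?_⟩
    · rw [h1]
      exact hψ.smul (V := D.U) D.U_open contDiffOn_const
    · filter_upwards [Lp.coeFn_smul c f, e] with z h h'
      rw [h, Pi.smul_apply, h', h1]
      rw [(dz_smul (f := fun _ => (c : ℂ)) (differentiableAt_const _)
        (hψ.smooth.differentiable (by simp) z)).1, dz_const.1, zero_smul, zero_add]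
      simp

theorem GradProj.inner_real (f g : D.L2) : inner ℝ f g = (∫ z in D.U, (g : ℂ → ℂ) z *
    conj ((f : ℂ → ℂ) z)).re := by
  rw [L2.inner_def]
  have hi : Integrable (fun z => (g : ℂ → ℂ) z * conj ((f : ℂ → ℂ) z))
      (volume.restrict D.U) := by
    have := L2.integrable_inner (𝕜 := ℂ) f g
    refine this.congr (Eventually.of_forall fun z => ?_)
    simp only [RCLike.inner_apply]
  have := integral_re hi
  simp only [RCLike.re_eq_complex_re] at this
  rw [← this]
  refine integral_congr_ae (Eventually.of_forall fun z => ?_)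
  simp only [Complex.inner]

/-- `∂_z χ_j` plus a limit of real gradients `∂_z ψ` of test functions is holomorphic -/
theorem grad_proj (hτ : D.Good τ) (j : Fin k) : ∃ v : ℂ → ℂ, D.Hol2 v ∧
    ∀ ε > 0, ∃ ψ : ℂ → ℝ, IsTest D.U (fun z => (ψ z : ℂ)) ∧
      ∫ z in D.U, ‖v z - dz (fun w => (D.chi τ (some j) w : ℂ)) z -
        dz (fun w => (ψ w : ℂ)) z‖ ^ 2 < ε := by
  have sχ := chi_smooth D hτ.pos hτ.lt_R (some j)
  have sdχ := (GradProj.smooth_dz (GradProj.smoothC sχ)).1
  -- the class of `∂χ`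
  set f : D.L2 := (GradProj.memLp_cont D sdχ.continuous).toLp _ with hfdef
  have hf : f =ᵐ[volume.restrict D.U] dz (fun w => (D.chi τ (some j) w : ℂ)) :=
    MemLp.coeFn_toLp _
  set G : Submodule ℝ D.L2 := (GradProj.gradS D).topologicalClosure with hG
  have : CompleteSpace G := (Submodule.isClosed_topologicalClosure _).completeSpace_coe
  obtain ⟨y, hy, hyo⟩ : ∃ y ∈ G, f - y ∈ Gᗮ :=
    ⟨G.starProjection f, G.starProjection_apply_mem f, G.sub_starProjection_mem_orthogonal f⟩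
  set v : D.L2 := f - y with hv
  -- `v` is orthogonal to the gradients
  have o1 : ∀ g ∈ GradProj.gradS D, inner ℝ g v = 0 := fun g hg =>
    hyo g (Submodule.le_topologicalClosure _ hg)
  -- `v` is orthogonal to `i` times the gradients
  have o2' : ∀ g ∈ GradProj.gradS D, ∀ F : ℂ → ℝ, ContDiff ℝ (⊤ : ℕ∞) F → ∀ u : D.L2,
      u =ᵐ[volume.restrict D.U] dz (fun w => (F w : ℂ)) → inner ℝ (Complex.I • g) u = 0 := by
    rintro g ⟨ψ, hψ, e⟩ F hF u hu
    rw [GradProj.inner_real]
    have h1 : ∫ z in D.U, (u : ℂ → ℂ) z * conj (((Complex.I • g : D.L2) : ℂ → ℂ) z) =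
        ∫ z in D.U, -Complex.I * (dz (fun w => (F w : ℂ)) z * dzb (fun w => (ψ w : ℂ)) z) := by
      refine integral_congr_ae ?_
      filter_upwards [Lp.coeFn_smul Complex.I g, e, hu] with z h1 h2 h3
      rw [h1, Pi.smul_apply, h2, h3, dzb_ofReal (GradProj.diff_real
        (GradProj.smooth_of_test hψ) z), smul_eq_mul, map_mul, Complex.conj_I]
      ring
    rw [h1, integral_const_mul]
    have h2 := GradProj.cross_real hF hψ
    simp [h2]
  have o2 : ∀ g ∈ GradProj.gradS D, inner ℝ (Complex.I • g) v = 0 := by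
    intro g hg
    rw [hv, inner_sub_right, o2' g hg _ sχ f hf, zero_sub, neg_eq_zero]
    have hcl : IsClosed {y : D.L2 | inner ℝ (Complex.I • g) y = 0} :=
      isClosed_eq (continuous_const.inner continuous_id) continuous_const
    have hsub : (GradProj.gradS D : Set D.L2) ⊆ {y : D.L2 | inner ℝ (Complex.I • g) y = 0} := by
      rintro y ⟨ψ, hψ, e⟩
      exact o2' g hg ψ (GradProj.smooth_of_test hψ) y e
    exact closure_minimal hsub hcl hy
  -- weak holomorphy
  have key : ∀ ψ : ℂ → ℝ, IsTest D.U (fun z => (ψ z : ℂ)) →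
      ∫ z in D.U, (v : ℂ → ℂ) z * dzb (fun w => (ψ w : ℂ)) z = 0 := by
    intro ψ hψ
    set g : D.L2 := (GradProj.memLp_cont D hψ.dz.smooth.continuous).toLp _ with hg
    have hg' : g =ᵐ[volume.restrict D.U] dz (fun w => (ψ w : ℂ)) := MemLp.coeFn_toLp _
    have hgS : g ∈ GradProj.gradS D := ⟨ψ, hψ, hg'⟩
    have a1 := o1 g hgS
    have a2 := o2 g hgS
    rw [GradProj.inner_real] at a1 a2
    have e1 : ∫ z in D.U, (v : ℂ → ℂ) z * conj ((g : ℂ → ℂ) z) =
        ∫ z in D.U, (v : ℂ → ℂ) z * dzb (fun w => (ψ w : ℂ)) z := by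
      refine integral_congr_ae ?_
      filter_upwards [hg'] with z h
      rw [h, dzb_ofReal (GradProj.diff_real (GradProj.smooth_of_test hψ) z)]
    have e2 : ∫ z in D.U, (v : ℂ → ℂ) z * conj (((Complex.I • g : D.L2) : ℂ → ℂ) z) =
        -Complex.I * ∫ z in D.U, (v : ℂ → ℂ) z * dzb (fun w => (ψ w : ℂ)) z := by
      rw [← integral_const_mul]
      refine integral_congr_ae ?_
      filter_upwards [Lp.coeFn_smul Complex.I g, hg'] with z h1 h
      rw [h1, Pi.smul_apply, h, dzb_ofReal (GradProj.diff_real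
        (GradProj.smooth_of_test hψ) z), smul_eq_mul, map_mul, Complex.conj_I]
      ring
    rw [e1] at a1
    rw [e2] at a2
    apply Complex.ext
    · simpa using a1
    · simpa using a2
  have hweak : D.WeakDbar v 0 := by
    intro φ hφ
    have hre : IsTest D.U (fun z => ((φ z).re : ℂ)) := by
      refine ⟨Complex.ofRealCLM.contDiff.comp (Complex.reCLM.contDiff.comp hφ.smooth), ?_, ?_⟩
      · exact hφ.compact.comp_left (g := fun w : ℂ => (w.re : ℂ)) (by simp)
      · exact (closure_mono (Function.support_comp_subset (g := fun w : ℂ => (w.re : ℂ))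
          (by simp) φ)).trans hφ.supp
    have him : IsTest D.U (fun z => ((φ z).im : ℂ)) := by
      refine ⟨Complex.ofRealCLM.contDiff.comp (Complex.imCLM.contDiff.comp hφ.smooth), ?_, ?_⟩
      · exact hφ.compact.comp_left (g := fun w : ℂ => (w.im : ℂ)) (by simp)
      · exact (closure_mono (Function.support_comp_subset (g := fun w : ℂ => (w.im : ℂ))
          (by simp) φ)).trans hφ.supp
    have e1 : ∀ z, dzb φ z = dzb (fun z => ((φ z).re : ℂ)) z +
        Complex.I * dzb (fun z => ((φ z).im : ℂ)) z := by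
      intro z
      have d1 : DifferentiableAt ℝ (fun z => ((φ z).re : ℂ)) z :=
        hre.smooth.differentiable (by simp) z
      have d2 : DifferentiableAt ℝ (fun z => ((φ z).im : ℂ)) z :=
        him.smooth.differentiable (by simp) z
      have e2 : φ = fun z => ((φ z).re : ℂ) + Complex.I • ((φ z).im : ℂ) := by
        funext z
        rw [smul_eq_mul, mul_comm]
        exact (Complex.re_add_im (φ z)).symm
      have m1 := (dz_smul (f := fun _ => Complex.I) (F := fun z => ((φ z).im : ℂ))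
        (differentiableAt_const _) d2).2
      rw [dz_const.2, zero_smul, zero_add] at m1
      conv_lhs => rw [e2]
      rw [(dz_add (F := fun z => ((φ z).re : ℂ)) (G := fun z => Complex.I • ((φ z).im : ℂ)) d1
        (d2.const_smul Complex.I)).2, m1, smul_eq_mul]
    have i0 : ∀ φ : ℂ → ℂ, IsTest D.U φ →
        Integrable (fun z => (v : ℂ → ℂ) z * dzb φ z) (volume.restrict D.U) := by
      intro φ hφ
      exact (MemLp.integrable_mul (Lp.memLp v) (GradProj.memLp_cont D hφ.dzb.smooth.continuous))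
    have e3 : ∫ z in D.U, (v : ℂ → ℂ) z * dzb φ z = 0 := by
      have e4 : ∀ z, (v : ℂ → ℂ) z * dzb φ z = (v : ℂ → ℂ) z * dzb (fun z => ((φ z).re : ℂ)) z +
          Complex.I * ((v : ℂ → ℂ) z * dzb (fun z => ((φ z).im : ℂ)) z) := by
        intro z; rw [e1 z]; ring
      simp only [e4]
      rw [integral_add (i0 _ hre) ((i0 _ him).const_mul _), integral_const_mul, key _ hre,
        key _ him, mul_zero, add_zero]
    rw [e3]
    have e5 : ∫ z in D.U, ((0 : D.L2) : ℂ → ℂ) z * φ z = 0 := by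
      rw [integral_congr_ae (g := fun _ => 0)]
      · simp
      · filter_upwards [Lp.coeFn_zero ℂ 2 (volume.restrict D.U)] with z h
        rw [h]; simp
    rw [e5, neg_zero]
  obtain ⟨w, hw, hvw⟩ := berg_rep D (weyl D hweak)
  refine ⟨w, hw, fun ε hε => ?_⟩
  have hny : -y ∈ closure (GradProj.gradS D : Set D.L2) := G.neg_mem hy
  obtain ⟨s, ⟨ψ, hψ, e⟩, hs⟩ := Metric.mem_closure_iff.1 hny (Real.sqrt ε) (Real.sqrt_pos.2 hε)
  refine ⟨ψ, hψ, ?_⟩
  have h1 : ∫ z in D.U, ‖w z - dz (fun w => (D.chi τ (some j) w : ℂ)) z -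
        dz (fun w => (ψ w : ℂ)) z‖ ^ 2 = ‖v - f - s‖ ^ 2 := by
    rw [GradProj.norm_sq_L2]
    refine integral_congr_ae ?_
    filter_upwards [Lp.coeFn_sub (v - f) s, Lp.coeFn_sub v f, e, hf, hvw] with z h1 h2 h3 h4 h5
    rw [h1, Pi.sub_apply, h2, Pi.sub_apply, h3, h4, h5]
  rw [h1]
  have h2 : v - f - s = -y - s := by rw [hv]; abel
  rw [h2, ← dist_eq_norm]
  have h3 := Real.sq_sqrt hε.le
  have h4 : 0 ≤ dist (-y) s := dist_nonneg
  nlinarith [Real.sqrt_nonneg ε]

end

end Pool.Agent.Helper7.KE
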