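import Pool.Agent.Helper7.KE.A2b
import Pool.Agent.Helper7.KE.A3
import Pool.Agent.Helper7.KE.C1

set_option autoImplicit false

open MeasureTheory Set Filter Asymptotics Topology Metric
open scoped ComplexConjugate ENNReal

namespace Pool.Agent.Helper7.KE

section
variable {k : ℕ} (D : CD k) {τ : ℝ}

/-- Cauchy-Schwarz -/
private theorem d2_cs {μ : Measure ℂ} {f g : ℂ → ℂ} (hf : MemLp f 2 μ) (hg : MemLp g 2 μ) :
    ‖∫ z, f z * g z ∂μ‖ ≤
      Real.sqrt (∫ z, ‖f z‖ ^ 2 ∂μ) * Real.sqrt (∫ z, ‖g z‖ ^ 2 ∂μ) := by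
  have h := integral_mul_norm_le_Lp_mul_Lq (μ := μ) (f := f) (g := g) (p := 2) (q := 2)
    (Real.HolderConjugate.two_two) (by simpa using hf) (by simpa using hg)
  have e : ∀ x : ℝ, x ^ (2 : ℝ) = x ^ 2 := fun x => Real.rpow_natCast x 2
  simp only [e] at h
  rw [← Real.sqrt_eq_rpow, ← Real.sqrt_eq_rpow] at h
  refine (norm_integral_le_integral_norm _).trans ?_
  simpa only [norm_mul] using h

/-- approximation lemma -/
private theorem d2_approx {μ : Measure ℂ} {v g : ℂ → ℂ} (hv : MemLp v 2 μ) (hg : MemLp g 2 μ)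
    {S : Set ℂ} (hS : IsClosed S)
    (h : ∀ ε > 0, ∃ w : ℂ → ℂ, MemLp w 2 μ ∧ ∫ z, ‖v z - w z‖ ^ 2 ∂μ < ε ∧
      ∫ z, w z * g z ∂μ ∈ S) : ∫ z, v z * g z ∂μ ∈ S := by
  rw [← hS.closure_eq, Metric.mem_closure_iff]
  intro δ hδ
  set G := Real.sqrt (∫ z, ‖g z‖ ^ 2 ∂μ) with hG
  have hG0 : 0 ≤ G := Real.sqrt_nonneg _
  have hε : 0 < (δ / (G + 1)) ^ 2 := by positivity
  obtain ⟨w, hw, h1, h2⟩ := h _ hε
  refine ⟨_, h2, ?_⟩
  have e1 : ∫ z, v z * g z ∂μ - ∫ z, w z * g z ∂μ = ∫ z, (v z - w z) * g z ∂μ := by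
    have i1 : Integrable (fun z => v z * g z) μ := hv.integrable_mul hg
    have i2 : Integrable (fun z => w z * g z) μ := hw.integrable_mul hg
    rw [← integral_sub i1 i2]
    congr 1
    funext z
    ring
  rw [dist_eq_norm, e1]
  have h3 : Real.sqrt (∫ z, ‖v z - w z‖ ^ 2 ∂μ) ≤ δ / (G + 1) := by
    rw [Real.sqrt_le_left (by positivity)]
    exact h1.le
  calc ‖∫ z, (v z - w z) * g z ∂μ‖ ≤ Real.sqrt (∫ z, ‖v z - w z‖ ^ 2 ∂μ) * G :=
        d2_cs (hv.sub hw) hg
    _ ≤ δ / (G + 1) * G := mul_le_mul_of_nonneg_right h3 hG0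
    _ < δ := by
        rw [div_mul_eq_mul_div, div_lt_iff₀ (by positivity)]
        nlinarith

private theorem d2_memLp {f : ℂ → ℂ} (hf : ContinuousOn f D.cU) :
    MemLp f 2 (volume.restrict D.U) := by
  obtain ⟨C, hC⟩ := D.cU_compact.exists_bound_of_continuousOn hf
  refine MemLp.of_bound ((hf.mono D.U_subset_cU).aestronglyMeasurable D.U_open.measurableSet) C ?_
  filter_upwards [ae_restrict_mem D.U_open.measurableSet] with z hz
  exact hC z (D.U_subset_cU hz)

private theorem d2_chi_smooth (hτ : D.Good τ) (j : Fin k) :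
    ContDiff ℝ (⊤ : ℕ∞) (fun w => (D.chi τ (some j) w : ℂ)) :=
  Complex.ofRealCLM.contDiff.comp (chi_smooth D hτ.pos hτ.lt_R (some j))

private theorem d2_dz_cont {F : ℂ → ℂ} (hF : ContDiff ℝ (⊤ : ℕ∞) F) :
    Continuous (dz F) ∧ Continuous (dzb F) := by
  have h := dz_contDiffOn isOpen_univ (contDiffOn_univ.2 hF)
  exact ⟨(contDiffOn_univ.1 h.1).continuous, (contDiffOn_univ.1 h.2).continuous⟩

private theorem d2_psi_circ {ψ : ℂ → ℂ} (hψ : IsTest D.U ψ) (l : Option (Fin k)) {z : ℂ}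
    (hz : z ∈ D.circ l) : ∀ᶠ w in 𝓝 z, ψ w = 0 := by
  apply notMem_tsupport_iff_eventuallyEq.1
  intro h
  have hU := hψ.supp h
  cases l with
  | none =>
    have hz' : ‖z‖ = D.R := by simpa [CD.circ, CD.cen, CD.rad] using hz
    exact absurd hz' hU.1.ne
  | some j =>
    have hz' : ‖z - D.a j‖ = D.r j := by
      simpa [CD.circ, CD.cen, CD.rad, dist_eq_norm] using hz
    exact absurd hz' (hU.2 j).ne'

/-- the real function `χ_j + ψ` -/
private theorem d2_G (hτ : D.Good τ) (j : Fin k) {ψ : ℂ → ℝ}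
    (hψ : IsTest D.U (fun z => (ψ z : ℂ))) :
    ContDiff ℝ (⊤ : ℕ∞) (fun w => (D.chi τ (some j) w : ℂ) + (ψ w : ℂ)) ∧
    (∀ z, dz (fun w => (D.chi τ (some j) w : ℂ) + (ψ w : ℂ)) z =
      dz (fun w => (D.chi τ (some j) w : ℂ)) z + dz (fun w => (ψ w : ℂ)) z) ∧
    (∀ z, dzb (fun w => (D.chi τ (some j) w : ℂ) + (ψ w : ℂ)) z =
      dzb (fun w => (D.chi τ (some j) w : ℂ)) z + dzb (fun w => (ψ w : ℂ)) z) ∧
    (∀ z, dzb (fun w => (D.chi τ (some j) w : ℂ) + (ψ w : ℂ)) z =
      conj (dz (fun w => (D.chi τ (some j) w : ℂ) + (ψ w : ℂ)) z)) := by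
  have h1 := d2_chi_smooth D hτ j
  have h2 := hψ.smooth
  have d1 : ∀ z, DifferentiableAt ℝ (fun w => (D.chi τ (some j) w : ℂ)) z := fun z =>
    (h1.differentiable (by simp)) z
  have d2 : ∀ z, DifferentiableAt ℝ (fun w => (ψ w : ℂ)) z := fun z =>
    (h2.differentiable (by simp)) z
  refine ⟨h1.add h2, fun z => (dz_add (d1 z) (d2 z)).1, fun z => (dz_add (d1 z) (d2 z)).2,
    fun z => ?_⟩
  have h3 := (dz_conj (f := fun w => (D.chi τ (some j) w : ℂ) + (ψ w : ℂ)) (z := z)
    ((d1 z).add (d2 z))).1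
  simp only [map_add, Complex.conj_ofReal] at h3
  rw [h3, Complex.conj_conj]

private theorem d2_int_a (hτ : D.Good τ) (j : Fin k) {ψ : ℂ → ℝ}
    (hψ : IsTest D.U (fun z => (ψ z : ℂ))) {a : ℂ → ℂ} {V : Set ℂ} (hV : IsOpen V)
    (hcV : D.cU ⊆ V) (ha : DifferentiableOn ℂ a V) :
    ∫ z in D.U, (dz (fun w => (D.chi τ (some j) w : ℂ)) z + dz (fun w => (ψ w : ℂ)) z) *
      conj (deriv a z) = 0 := by
  obtain ⟨hG, e1, -, -⟩ := d2_G D hτ j hψ
  set G : ℂ → ℂ := fun w => (D.chi τ (some j) w : ℂ) + (ψ w : ℂ) with hGdef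
  have hda : DifferentiableOn ℂ (deriv a) V := ha.deriv hV
  have hda' : ContDiffOn ℝ (⊤ : ℕ∞) (deriv a) V := hol_contDiffOn hV hda
  have hca : ContDiffOn ℝ (⊤ : ℕ∞) (fun z => conj (deriv a z)) V :=
    (Complex.conjCLE : ℂ →L[ℝ] ℂ).contDiff.comp_contDiffOn hda'
  have hF : ContDiffOn ℝ 1 (fun z => G z • conj (deriv a z)) V :=
    ((hG.contDiffOn.smul hca).of_le (by simp))
  have key := (green_CD D hV hcV hF).1
  have hL : ∫ z in D.U, dz (fun z => G z • conj (deriv a z)) z =
      ∫ z in D.U, (dz (fun w => (D.chi τ (some j) w : ℂ)) z + dz (fun w => (ψ w : ℂ)) z) *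
      conj (deriv a z) := by
    refine setIntegral_congr_fun D.U_open.measurableSet fun z hz => ?_
    have hzV := hcV (D.U_subset_cU hz)
    have hd : DifferentiableAt ℝ (fun z => conj (deriv a z)) z :=
      (hca.contDiffAt (hV.mem_nhds hzV)).differentiableAt (by simp)
    have h0 : dz (fun z => conj (deriv a z)) z = 0 :=
      (dz_conj_hol (hda.differentiableAt (hV.mem_nhds hzV))).1
    rw [(dz_smul (hG.differentiable (by simp) z) hd).1, h0, smul_zero, add_zero, e1 z, smul_eq_mul]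
  rw [← hL, key]
  have h1 : ∀ θ : ℝ, G (D.R * Complex.exp (θ * Complex.I)) = 0 := by
    intro θ
    have hz : (D.R * Complex.exp (θ * Complex.I) : ℂ) ∈ D.circ none := by
      simp [CD.circ, CD.cen, CD.rad, abs_of_pos D.Rpos]
    have h2 := (chi_zero_near D hτ (l := none) (l' := some j) (by simp) hz).self_of_nhds
    have h3 := (d2_psi_circ D hψ none hz).self_of_nhds
    simp only [hGdef, h2, h3]
    simp
  have h2 : ∀ i, i ≠ j → ∀ θ : ℝ, G (D.a i + D.r i * Complex.exp (θ * Complex.I)) = 0 := by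
    intro i hi θ
    have hz : (D.a i + D.r i * Complex.exp (θ * Complex.I) : ℂ) ∈ D.circ (some i) := by
      simp [CD.circ, CD.cen, CD.rad, abs_of_pos (D.rpos i)]
    have h2 := (chi_zero_near D hτ (l := some i) (l' := some j) (by simpa using hi)
      hz).self_of_nhds
    have h3 := (d2_psi_circ D hψ (some i) hz).self_of_nhds
    simp only [hGdef, h2, h3]
    simp
  have h3 : ∀ θ : ℝ, G (D.a j + D.r j * Complex.exp (θ * Complex.I)) = 1 := by
    intro θ
    have hz : (D.a j + D.r j * Complex.exp (θ * Complex.I) : ℂ) ∈ D.circ (some j) := by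
      simp [CD.circ, CD.cen, CD.rad, abs_of_pos (D.rpos j)]
    have h2 := (chi_near D hτ.pos (some j) hz).self_of_nhds
    have h3 := (d2_psi_circ D hψ (some j) hz).self_of_nhds
    simp only [hGdef, h2, h3]
    simp
  have h4 : ∫ θ in (0 : ℝ)..2 * Real.pi, Complex.exp (-(θ * Complex.I)) •
      (G (D.a j + D.r j * Complex.exp (θ * Complex.I)) •
        conj (deriv a (D.a j + D.r j * Complex.exp (θ * Complex.I)))) = 0 := by
    have h5 : (∮ z in C(D.a j, D.r j), deriv a z) = 0 := by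
      apply circleIntegral.integral_eq_zero_of_hasDerivWithinAt (f := a) (D.rpos j).le
      intro z hz
      have hzc : z ∈ D.cU := (mem_cU_iff D z).2 (Or.inr ⟨some j, hz⟩)
      exact ((ha.differentiableAt (hV.mem_nhds (hcV hzc))).hasDerivAt).hasDerivWithinAt
    have h6 : (∮ z in C(D.a j, D.r j), deriv a z) = (D.r j * Complex.I : ℂ) *
        ∫ θ in (0 : ℝ)..2 * Real.pi, Complex.exp (θ * Complex.I) *
          deriv a (D.a j + D.r j * Complex.exp (θ * Complex.I)) := by
      rw [circleIntegral, ← intervalIntegral.integral_const_mul]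
      congr 1
      funext θ
      rw [deriv_circleMap]
      simp only [circleMap, smul_eq_mul, zero_add]
      ring
    have h7 : (∫ θ in (0 : ℝ)..2 * Real.pi, Complex.exp (θ * Complex.I) *
          deriv a (D.a j + D.r j * Complex.exp (θ * Complex.I))) = 0 := by
      rw [h6] at h5
      rcases mul_eq_zero.1 h5 with h | h
      · exfalso
        have := D.rpos j
        rcases mul_eq_zero.1 h with h | h
        · exact this.ne' (by exact_mod_cast h)
        · exact Complex.I_ne_zero h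
      · exact h
    have h8 : (∫ θ in (0 : ℝ)..2 * Real.pi, Complex.exp (-(θ * Complex.I)) •
      (G (D.a j + D.r j * Complex.exp (θ * Complex.I)) •
        conj (deriv a (D.a j + D.r j * Complex.exp (θ * Complex.I))))) =
        conj (∫ θ in (0 : ℝ)..2 * Real.pi, Complex.exp (θ * Complex.I) *
          deriv a (D.a j + D.r j * Complex.exp (θ * Complex.I))) := by
      rw [intervalIntegral.integral_of_le (by positivity),
        intervalIntegral.integral_of_le (by positivity), ← integral_conj]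
      congr 1
      funext θ
      rw [h3 θ, map_mul, ← Complex.exp_conj]
      simp
    rw [h8, h7, map_zero]
  have h5 : ∑ i, (D.r i / 2 : ℂ) • ∫ θ in (0 : ℝ)..2 * Real.pi,
        Complex.exp (-(θ * Complex.I)) • (G (D.a i + D.r i * Complex.exp (θ * Complex.I)) •
        conj (deriv a (D.a i + D.r i * Complex.exp (θ * Complex.I)))) = 0 := by
    apply Finset.sum_eq_zero
    intro i _
    by_cases hi : i = j
    · subst hi
      rw [h4, smul_zero]
    · simp only [h2 i hi, zero_smul, smul_zero, intervalIntegral.integral_zero]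
  rw [h5]
  simp only [h1, zero_smul, smul_zero, intervalIntegral.integral_zero, sub_zero]

/-- such a `v` is orthogonal to derivatives and reproduces `∂_z̄ χ_j` -/
theorem grad_orth (hτ : D.Good τ) (j : Fin k) {v : ℂ → ℂ} (hv : D.Hol2 v)
    (h : ∀ ε > 0, ∃ ψ : ℂ → ℝ, IsTest D.U (fun z => (ψ z : ℂ)) ∧
      ∫ z in D.U, ‖v z - dz (fun w => (D.chi τ (some j) w : ℂ)) z -
        dz (fun w => (ψ w : ℂ)) z‖ ^ 2 < ε) :
    (∀ a : ℂ → ℂ, (∃ V, IsOpen V ∧ D.cU ⊆ V ∧ DifferentiableOn ℂ a V) →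
      ∫ z in D.U, v z * conj (deriv a z) = 0) ∧
    (∀ g : ℂ → ℂ, D.Hol2 g → ∫ z in D.U, g z * conj (v z) =
      ∫ z in D.U, g z * dzb (fun w => (D.chi τ (some j) w : ℂ)) z) ∧
    ∀ z₀ ∈ D.U, D.VV τ z₀ (fun _ => 1) v := by
  have part1 : ∀ a : ℂ → ℂ, (∃ V, IsOpen V ∧ D.cU ⊆ V ∧ DifferentiableOn ℂ a V) →
      ∫ z in D.U, v z * conj (deriv a z) = 0 := by
    rintro a ⟨V, hV, hcV, ha⟩
    have hda : ContDiffOn ℝ (⊤ : ℕ∞) (deriv a) V := hol_contDiffOn hV (ha.deriv hV)
    have hca : ContinuousOn (fun z => conj (deriv a z)) D.cU :=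
      Complex.continuous_conj.comp_continuousOn (hda.continuousOn.mono hcV)
    have := d2_approx hv.memLp (d2_memLp D hca) (S := {0}) isClosed_singleton ?_
    · simpa using this
    · intro ε hε
      obtain ⟨ψ, hψ, hψε⟩ := h ε hε
      refine ⟨fun z => dz (fun w => (D.chi τ (some j) w : ℂ)) z + dz (fun w => (ψ w : ℂ)) z,
        d2_memLp D ((d2_dz_cont (d2_chi_smooth D hτ j)).1.add
          (d2_dz_cont hψ.smooth).1).continuousOn, ?_, ?_⟩
      · simpa only [sub_sub] using hψε
      · exact d2_int_a D hτ j hψ hV hcV ha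
  refine ⟨part1, ?_, ?_⟩
  · intro g hg
    have hvc : MemLp (fun z => conj (v z)) 2 (volume.restrict D.U) := hv.memLp.star
    have := d2_approx hvc hg.memLp
      (S := {∫ z in D.U, dzb (fun w => (D.chi τ (some j) w : ℂ)) z * g z})
      isClosed_singleton ?_
    · rw [Set.mem_singleton_iff] at this
      simp only [mul_comm (g _)]
      exact this
    · intro ε hε
      obtain ⟨ψ, hψ, hψε⟩ := h ε hε
      have hc1 := (d2_dz_cont (d2_chi_smooth D hτ j)).2
      have hc2 := (d2_dz_cont hψ.smooth).2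
      refine ⟨fun z => dzb (fun w => (D.chi τ (some j) w : ℂ)) z + dzb (fun w => (ψ w : ℂ)) z,
        d2_memLp D (hc1.add hc2).continuousOn, ?_, ?_⟩
      · refine lt_of_eq_of_lt ?_ hψε
        congr 1
        funext z
        obtain ⟨-, e1, e2, e3⟩ := d2_G D hτ j hψ
        beta_reduce
        rw [← e2 z, e3 z, e1 z, ← map_sub, Complex.norm_conj, sub_sub]
      · rw [Set.mem_singleton_iff]
        have i1 : Integrable (fun z => dzb (fun w => (D.chi τ (some j) w : ℂ)) z * g z)
            (volume.restrict D.U) := (d2_memLp D hc1.continuousOn).integrable_mul hg.memLp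
        have i2 : Integrable (fun z => dzb (fun w => (ψ w : ℂ)) z * g z)
            (volume.restrict D.U) := (d2_memLp D hc2.continuousOn).integrable_mul hg.memLp
        simp only [add_mul]
        rw [integral_add i1 i2]
        have := orth_zero D isOpen_univ (subset_univ _)
          ((hψ.smooth.contDiffOn (s := univ)).of_le (by simp))
          (fun l z hz => (d2_psi_circ D hψ l hz).self_of_nhds) hg
        simp only [mul_comm (g _)] at this
        rw [this, add_zero]
  · intro z₀ hz₀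
    refine ⟨hv, fun l n => ?_⟩
    have hVA : ∃ V, IsOpen V ∧ D.cU ⊆ V ∧ DifferentiableOn ℂ (fun z => D.A l n z - D.A l n z₀) V := by
      cases l with
      | none =>
        refine ⟨univ, isOpen_univ, subset_univ _, ?_⟩
        have : Differentiable ℂ (fun z => D.A none n z - D.A none n z₀) := by
          simp only [CD.A]
          fun_prop
        exact this.differentiableOn
      | some i =>
        refine ⟨{D.a i}ᶜ, isOpen_compl_singleton, ?_, ?_⟩
        · intro z hz h0
          rw [Set.mem_singleton_iff] at h0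
          have := hz.2 i
          rw [h0, sub_self, norm_zero] at this
          exact absurd (D.rpos i) (not_lt.2 this)
        · intro z hz
          have hne : z - D.a i ≠ 0 := sub_ne_zero.2 hz
          simp only [CD.A]
          apply DifferentiableAt.differentiableWithinAt
          have : DifferentiableAt ℂ (fun z => (D.r i : ℂ) / (z - D.a i)) z :=
            (differentiableAt_const _).div (by fun_prop) hne
          exact (this.pow _).sub (differentiableAt_const _)
    have h1 := part1 _ hVA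
    obtain ⟨V, hV, hcV, hA⟩ := hVA
    rw [CD.Lt]
    rw [← h1]
    refine setIntegral_congr_fun D.U_open.measurableSet fun z hz => ?_
    have hzV := hcV (D.U_subset_cU hz)
    congr 1
    have e : (fun w => D.X τ (fun _ => 1) w * conj (D.A l n w - D.A l n z₀)) =
        fun w => conj (D.A l n w - D.A l n z₀) := by
      funext w
      simp [CD.X]
    rw [e]
    exact (dz_conj_hol (hA.differentiableAt (hV.mem_nhds hzV))).2

/-- integrals of the approximants against `∂_z̄ χ_l` are real -/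
private theorem d2_real (hτ : D.Good τ) (j : Fin k) {ψ : ℂ → ℝ}
    (hψ : IsTest D.U (fun z => (ψ z : ℂ))) (l : Fin k) :
    (∫ z in D.U, (dz (fun w => (D.chi τ (some j) w : ℂ)) z + dz (fun w => (ψ w : ℂ)) z) *
      dzb (fun w => (D.chi τ (some l) w : ℂ)) z).im = 0 := by
  obtain ⟨hG, e1, e2, e3⟩ := d2_G D hτ j hψ
  set G : ℂ → ℂ := fun w => (D.chi τ (some j) w : ℂ) + (ψ w : ℂ) with hGdef
  have hX := d2_chi_smooth D hτ l
  set X : ℂ → ℂ := fun w => (D.chi τ (some l) w : ℂ) with hXdef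
  have hXz : ContDiff ℝ (⊤ : ℕ∞) (dz X) ∧ ContDiff ℝ (⊤ : ℕ∞) (dzb X) := by
    have h := dz_contDiffOn isOpen_univ (contDiffOn_univ.2 hX)
    exact ⟨contDiffOn_univ.1 h.1, contDiffOn_univ.1 h.2⟩
  have hGz := d2_dz_cont hG
  -- derivatives of X vanish on the circles
  have hX0 : ∀ m, ∀ z ∈ D.circ m, dz X z = 0 ∧ dzb X z = 0 := by
    intro m z hz
    by_cases hm : m = some l
    · subst hm
      have : X =ᶠ[𝓝 z] fun _ => 1 := by
        filter_upwards [chi_near D hτ.pos (some l) hz] with w hw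
        simp only [hXdef, hw]
        simp
      have h1 := dz_congr this
      have h2 := dz_const (c := (1 : ℂ)) (z := z)
      exact ⟨h1.1.trans h2.1, h1.2.trans h2.2⟩
    · have : X =ᶠ[𝓝 z] fun _ => 0 := by
        filter_upwards [chi_zero_near D hτ hm hz] with w hw
        simp only [hXdef, hw]
        simp
      have h1 := dz_congr this
      have h2 := dz_const (c := (0 : ℂ)) (z := z)
      exact ⟨h1.1.trans h2.1, h1.2.trans h2.2⟩
  have hXr : ∀ z, dzb X z = conj (dz X z) := by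
    intro z
    have h3 := (dz_conj (f := X) (z := z) (hX.differentiable (by simp) z)).1
    simp only [hXdef, Complex.conj_ofReal] at h3
    rw [h3, Complex.conj_conj]
  have g1 : ∫ z in D.U, dz (fun z => G z • dzb X z) z = 0 :=
    (green_zero D isOpen_univ (subset_univ _)
      (((hG.smul hXz.2).contDiffOn).of_le (by simp))
      (fun m z hz => by
        show G z • dzb X z = 0
        rw [(hX0 m z hz).2, smul_zero])).1
  have g2 : ∫ z in D.U, dzb (fun z => G z • dz X z) z = 0 :=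
    (green_zero D isOpen_univ (subset_univ _)
      (((hG.smul hXz.1).contDiffOn).of_le (by simp))
      (fun m z hz => by
        show G z • dz X z = 0
        rw [(hX0 m z hz).1, smul_zero])).2
  have p1 : ∀ z, dz (fun z => G z • dzb X z) z = dz G z * dzb X z + G z * dz (dzb X) z := by
    intro z
    rw [(dz_smul (hG.differentiable (by simp) z) (hXz.2.differentiable (by simp) z)).1,
      smul_eq_mul, smul_eq_mul]
  have p2 : ∀ z, dzb (fun z => G z • dz X z) z = dzb G z * dz X z + G z * dzb (dz X) z := by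
    intro z
    rw [(dz_smul (hG.differentiable (by simp) z) (hXz.1.differentiable (by simp) z)).2,
      smul_eq_mul, smul_eq_mul]
  have hle : (2 : WithTop ℕ∞) ≤ ((⊤ : ℕ∞) : WithTop ℕ∞) :=
    WithTop.coe_le_coe.2 (le_top : (2 : ℕ∞) ≤ ⊤)
  have hcomm : ∀ z, dz (dzb X) z = dzb (dz X) z := fun z =>
    dz_comm isOpen_univ ((contDiffOn_univ.2 hX).of_le hle) (mem_univ z)
  have c1 : Continuous fun z => dz G z * dzb X z := hGz.1.mul hXz.2.continuous
  have c2 : Continuous fun z => dzb G z * dz X z := hGz.2.mul hXz.1.continuous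
  have c3 : Continuous fun z => G z * dz (dzb X) z :=
    hG.continuous.mul (d2_dz_cont hXz.2).1
  have i1 : Integrable (fun z => dz G z * dzb X z) (volume.restrict D.U) :=
    (c1.continuousOn.integrableOn_compact D.cU_compact).mono_set D.U_subset_cU
  have i2 : Integrable (fun z => dzb G z * dz X z) (volume.restrict D.U) :=
    (c2.continuousOn.integrableOn_compact D.cU_compact).mono_set D.U_subset_cU
  have i3 : Integrable (fun z => G z * dz (dzb X) z) (volume.restrict D.U) :=
    (c3.continuousOn.integrableOn_compact D.cU_compact).mono_set D.U_subset_cU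
  simp only [p1] at g1
  simp only [p2, ← hcomm] at g2
  rw [integral_add i1 i3] at g1
  rw [integral_add i2 i3] at g2
  have g3 : ∫ z in D.U, dz G z * dzb X z = ∫ z in D.U, dzb G z * dz X z :=
    add_right_cancel (g1.trans g2.symm)
  have g4 : ∫ z in D.U, dzb G z * dz X z = conj (∫ z in D.U, dz G z * dzb X z) := by
    rw [← integral_conj]
    congr 1
    funext z
    rw [map_mul, e3 z, hXr z, Complex.conj_conj]
  rw [g4] at g3
  have g5 := Complex.conj_eq_iff_im.1 g3.symm
  simpa only [e1] using g5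

private theorem d2_real' (hτ : D.Good τ) (j : Fin k) {v : ℂ → ℂ} (hv : D.Hol2 v)
    (h : ∀ ε > 0, ∃ ψ : ℂ → ℝ, IsTest D.U (fun z => (ψ z : ℂ)) ∧
      ∫ z in D.U, ‖v z - dz (fun w => (D.chi τ (some j) w : ℂ)) z -
        dz (fun w => (ψ w : ℂ)) z‖ ^ 2 < ε) (l : Fin k) :
    (∫ z in D.U, v z * dzb (fun w => (D.chi τ (some l) w : ℂ)) z).im = 0 := by
  have := d2_approx hv.memLp
    (d2_memLp D (d2_dz_cont (d2_chi_smooth D hτ l)).2.continuousOn) (S := {z | z.im = 0})
    (isClosed_eq Complex.continuous_im continuous_const) ?_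
  · exact this
  · intro ε hε
    obtain ⟨ψ, hψ, hψε⟩ := h ε hε
    refine ⟨fun z => dz (fun w => (D.chi τ (some j) w : ℂ)) z + dz (fun w => (ψ w : ℂ)) z,
      d2_memLp D ((d2_dz_cont (d2_chi_smooth D hτ j)).1.add
        (d2_dz_cont hψ.smooth).1).continuousOn, ?_, d2_real D hτ j hψ l⟩
    simpa only [sub_sub] using hψε

/-- the residues are real -/
theorem grad_res (hτ : D.Good τ) (j : Fin k) {v : ℂ → ℂ} (hv : D.Hol2 v)
    (h : ∀ ε > 0, ∃ ψ : ℂ → ℝ, IsTest D.U (fun z => (ψ z : ℂ)) ∧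
      ∫ z in D.U, ‖v z - dz (fun w => (D.chi τ (some j) w : ℂ)) z -
        dz (fun w => (ψ w : ℂ)) z‖ ^ 2 < ε) (l : Fin k) :
    ∃ x : ℝ, D.coef τ (some l) 0 v = x := by
  have h1 := d2_real' D hτ j hv h l
  set I := ∫ z in D.U, v z * dzb (fun w => (D.chi τ (some l) w : ℂ)) z with hI
  have h2 : I = ((I.re : ℝ) : ℂ) := by
    apply Complex.ext
    · simp
    · simp [h1]
  refine ⟨-(1 / (Real.pi * D.r l)) * I.re, ?_⟩
  simp only [CD.coef, pow_zero, mul_one]
  rw [← hI, h2]
  push_cast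
  simp

/-- Gram matrix is real -/
theorem grad_gram (hτ : D.Good τ) (i j : Fin k) {v v' : ℂ → ℂ} (hv : D.Hol2 v) (hv' : D.Hol2 v')
    (h : ∀ ε > 0, ∃ ψ : ℂ → ℝ, IsTest D.U (fun z => (ψ z : ℂ)) ∧
      ∫ z in D.U, ‖v z - dz (fun w => (D.chi τ (some i) w : ℂ)) z -
        dz (fun w => (ψ w : ℂ)) z‖ ^ 2 < ε)
    (h' : ∀ ε > 0, ∃ ψ : ℂ → ℝ, IsTest D.U (fun z => (ψ z : ℂ)) ∧
      ∫ z in D.U, ‖v' z - dz (fun w => (D.chi τ (some j) w : ℂ)) z -
        dz (fun w => (ψ w : ℂ)) z‖ ^ 2 < ε) :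
    ∃ x : ℝ, ∫ z in D.U, v z * conj (v' z) = x := by
  rw [(grad_orth D hτ j hv' h').2.1 v hv]
  have h1 := d2_real' D hτ i hv h j
  refine ⟨(∫ z in D.U, v z * dzb (fun w => (D.chi τ (some j) w : ℂ)) z).re, ?_⟩
  apply Complex.ext
  · simp
  · simp [h1]

end

end Pool.Agent.Helper7.KE
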