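import Pool.Agent.Helper7.KE.C5c
import Pool.Agent.Helper7.KE.A1

set_option autoImplicit false

open MeasureTheory Set Filter Asymptotics Topology Metric
open scoped ComplexConjugate ENNReal

namespace Pool.Agent.Helper7.KE

private theorem dz_log {a z : ℂ} (hz : z - a ≠ 0) :
    DifferentiableAt ℝ (fun w : ℂ => ((Real.log ‖w - a‖ : ℝ) : ℂ)) z ∧
      dz (fun w : ℂ => ((Real.log ‖w - a‖ : ℝ) : ℂ)) z = 2⁻¹ * (z - a)⁻¹ := by
  have key : ∃ s : ℂ, (s = 1 ∨ s = -1) ∧ s * (z - a) ∈ Complex.slitPlane := by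
    by_cases h : z - a ∈ Complex.slitPlane
    · exact ⟨1, Or.inl rfl, by simpa using h⟩
    · refine ⟨-1, Or.inr rfl, ?_⟩
      rw [Complex.mem_slitPlane_iff, not_or, not_lt, not_not] at h
      rw [Complex.mem_slitPlane_iff]
      left
      have h1 : (z - a).re ≠ 0 := by
        intro h2
        exact hz (Complex.ext h2 h.2)
      have h2 : (-1 * (z - a)).re = -(z - a).re := by simp
      rw [h2]
      exact neg_pos.2 (lt_of_le_of_ne h.1 h1)
  obtain ⟨s, hs, hsz⟩ := key
  have hs1 : ‖s‖ = 1 := by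
    rcases hs with rfl | rfl <;> simp
  have hs0 : s ≠ 0 := by
    rintro rfl
    simp at hs1
  have h1 : (fun w : ℂ => ((Real.log ‖w - a‖ : ℝ) : ℂ)) =
      fun w : ℂ => ((Complex.log (s * (w - a))).re : ℂ) := by
    ext w
    rw [Complex.log_re, norm_mul, hs1, one_mul]
  have h2 : HasDerivAt (fun w : ℂ => Complex.log (s * (w - a))) ((s * 1) / (s * (z - a))) z :=
    (((hasDerivAt_id z).sub_const a).const_mul s).clog hsz
  rw [h1]
  refine ⟨?_, ?_⟩
  · have h3 : DifferentiableAt ℝ (fun w : ℂ => Complex.log (s * (w - a))) z :=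
      h2.differentiableAt.restrictScalars ℝ
    have h4 : DifferentiableAt ℝ (fun w : ℂ => (Complex.log (s * (w - a))).re) z :=
      Complex.reCLM.differentiableAt.comp z h3
    exact Complex.ofRealCLM.differentiableAt.comp z h4
  · rw [dz_re h2.differentiableAt, h2.deriv]
    field_simp

section
variable {k : ℕ} (D : CD k) {τ : ℝ}

/-- a real potential of a holomorphic function with real residues -/
theorem exists_potential (hτ : D.Good τ) {δ : ℝ} (hδ : 0 < δ) (hδτ : δ ≤ τ) {v : ℂ → ℂ}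
    (hv : DifferentiableOn ℂ v (D.Ue δ)) (hres : ∀ j, ∃ x : ℝ, D.coef τ (some j) 0 v = x) :
    ∃ om : ℂ → ℝ, ContDiffOn ℝ (⊤ : ℕ∞) om (D.Ue δ) ∧
      ∀ z ∈ D.Ue δ, dz (fun w => (om w : ℂ)) z = v z := by
  choose x hx using hres
  have hne : ∀ j, ∀ z ∈ D.Ue δ, z - D.a j ≠ 0 := by
    intro j z hz h0
    have h1 := hz.2 j
    rw [h0, norm_zero] at h1
    linarith [hτ.lt_r j]
  have hUe : D.U ⊆ D.Ue δ := D.U_subset_cU.trans (D.cU_subset_Ue hδ)
  have hE : ∀ j, DifferentiableOn ℂ (D.E (some j) 0) (D.Ue δ) := by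
    intro j z hz
    simp only [CD.E, zero_add, pow_one]
    refine DifferentiableAt.differentiableWithinAt ?_
    exact (differentiableAt_const _).div (by fun_prop) (hne j z hz)
  have hsum : ∀ s : Finset (Fin k), DifferentiableOn ℂ
      (fun z => v z + ∑ l ∈ s, (-(x l : ℂ)) * D.E (some l) 0 z) (D.Ue δ) := by
    intro s
    refine hv.add ?_
    exact DifferentiableOn.fun_sum fun l _ => (hE l).const_mul _
  have hcoef : ∀ s : Finset (Fin k), ∀ j, D.coef τ (some j) 0
      (fun z => v z + ∑ l ∈ s, (-(x l : ℂ)) * D.E (some l) 0 z) =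
        x j - if j ∈ s then (x j : ℂ) else 0 := by
    intro s
    induction s using Finset.induction_on with
    | empty =>
      intro j
      simp [hx]
    | insert l s hl ih =>
      intro j
      have h1 : (fun z => v z + ∑ i ∈ insert l s, (-(x i : ℂ)) * D.E (some i) 0 z) =
          fun z => (v z + ∑ i ∈ s, (-(x i : ℂ)) * D.E (some i) 0 z) +
            (-(x l : ℂ)) * D.E (some l) 0 z := by
        ext z
        rw [Finset.sum_insert hl]
        ring
      rw [h1, coef_linear D (some j) 0 hτ ((hsum s).mono hUe) ((hE l).mono hUe), ih j,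
        coef_E D hτ]
      by_cases hjl : j = l
      · subst hjl
        simp [hl]
      · simp [hjl]
  obtain ⟨F, hF⟩ := exists_primitive D hτ hδ hδτ (hsum Finset.univ) (fun j => by
    rw [hcoef Finset.univ j]
    simp)
  have hUo := D.Ue_open δ
  refine ⟨fun z => 2 * (F z).re + ∑ l, 2 * x l * D.r l * Real.log ‖z - D.a l‖, ?_, ?_⟩
  · have h1 : ContDiffOn ℝ (⊤ : ℕ∞) F (D.Ue δ) :=
      hol_contDiffOn hUo fun z hz => (hF z hz).differentiableAt.differentiableWithinAt
    have h2 : ContDiffOn ℝ (⊤ : ℕ∞) (fun z => (F z).re) (D.Ue δ) :=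
      Complex.reCLM.contDiff.comp_contDiffOn h1
    refine (contDiffOn_const.mul h2).add (ContDiffOn.sum fun l _ => ?_)
    refine contDiffOn_const.mul ?_
    intro z hz
    refine ContDiffAt.contDiffWithinAt ?_
    have h3 : ContDiffAt ℝ (⊤ : ℕ∞) (fun z : ℂ => ‖z - D.a l‖) z :=
      ContDiffAt.norm ℝ (by fun_prop) (hne l z hz)
    exact h3.log (norm_ne_zero_iff.2 (hne l z hz))
  · intro z hz
    have h1 : DifferentiableAt ℂ F z := (hF z hz).differentiableAt
    have h2 : DifferentiableAt ℝ (fun w => ((F w).re : ℂ)) z := by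
      have h3 : DifferentiableAt ℝ F z := h1.restrictScalars ℝ
      have h4 : DifferentiableAt ℝ (fun w : ℂ => (F w).re) z :=
        Complex.reCLM.differentiableAt.comp z h3
      exact Complex.ofRealCLM.differentiableAt.comp z h4
    have h3 : ∀ (c : ℂ) (G : ℂ → ℂ), DifferentiableAt ℝ G z →
        dz (fun w => c * G w) z = c * dz G z := by
      intro c G hG
      have := (dz_smul (f := fun _ => c) (F := G) (differentiableAt_const c) hG).1
      rw [dz_const.1] at this
      simpa using this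
    have h4 : (fun w => ((2 * (F w).re + ∑ l, 2 * x l * D.r l * Real.log ‖w - D.a l‖ : ℝ) : ℂ)) =
        fun w => (2 : ℂ) * ((F w).re : ℂ) + ∑ l, (2 * x l * D.r l : ℂ) *
          ((Real.log ‖w - D.a l‖ : ℝ) : ℂ) := by
      ext w
      push_cast
      rfl
    have h5 : ∀ l ∈ (Finset.univ : Finset (Fin k)), DifferentiableAt ℝ
        (fun w => (2 * x l * D.r l : ℂ) * ((Real.log ‖w - D.a l‖ : ℝ) : ℂ)) z := fun l _ =>
      (differentiableAt_const _).mul (dz_log (hne l z hz)).1
    have h2' : DifferentiableAt ℝ (fun w => (2 : ℂ) * ((F w).re : ℂ)) z :=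
      (differentiableAt_const _).mul h2
    have h5' : DifferentiableAt ℝ (fun w => ∑ l, (2 * x l * D.r l : ℂ) *
        ((Real.log ‖w - D.a l‖ : ℝ) : ℂ)) z := DifferentiableAt.fun_sum h5
    rw [h4, (dz_add h2' h5').1,
      (dz_sum _ h5).1, h3 _ _ h2, dz_re h1, (hF z hz).deriv]
    have h6 : ∀ l : Fin k, dz (fun w => (2 * x l * D.r l : ℂ) *
        ((Real.log ‖w - D.a l‖ : ℝ) : ℂ)) z = (x l : ℂ) * D.E (some l) 0 z := by
      intro l
      rw [h3 _ _ (dz_log (hne l z hz)).1, (dz_log (hne l z hz)).2]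
      simp only [CD.E, zero_add, pow_one]
      field_simp
    simp only [h6, neg_mul, Finset.sum_neg_distrib]
    ring

end

end Pool.Agent.Helper7.KE
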