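import Pool.Agent.Helper7.KE.A2b
import Pool.Agent.Helper7.KE.C2
import Pool.Agent.Helper7.KE.A5b

set_option autoImplicit false

open MeasureTheory Set Filter Asymptotics Topology Metric
open scoped ComplexConjugate ENNReal

namespace Pool.Agent.Helper7.KE

section
variable {k : ℕ} (D : CD k) {τ : ℝ}

theorem D3b_memLp {f : ℂ → ℂ} (hf : ContinuousOn f D.cU) : MemLp f 2 (volume.restrict D.U) := by
  obtain ⟨C, hC⟩ := D.cU_compact.exists_bound_of_continuousOn hf
  refine MemLp.of_bound ((hf.mono D.U_subset_cU).aestronglyMeasurable D.U_open.measurableSet) C ?_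
  filter_upwards [ae_restrict_mem D.U_open.measurableSet] with z hz
  exact hC z (D.U_subset_cU hz)

open Classical in
/-- the element of `L²` of a function continuous on the closed domain -/
noncomputable def D3b_tl (f : ℂ → ℂ) : D.L2 :=
  if hf : MemLp f 2 (volume.restrict D.U) then hf.toLp f else 0

theorem D3b_coe {f : ℂ → ℂ} (hf : ContinuousOn f D.cU) :
    (D3b_tl D f : ℂ → ℂ) =ᵐ[volume.restrict D.U] f := by
  rw [D3b_tl, dif_pos (D3b_memLp D hf)]
  exact MemLp.coeFn_toLp _

theorem D3b_norm {f : ℂ → ℂ} (hf : ContinuousOn f D.cU) :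
    ‖D3b_tl D f‖ = (eLpNorm f 2 (volume.restrict D.U)).toReal := by
  rw [D3b_tl, dif_pos (D3b_memLp D hf), Lp.norm_toLp]

theorem D3b_sub {f g : ℂ → ℂ} (hf : ContinuousOn f D.cU) (hg : ContinuousOn g D.cU) :
    D3b_tl D (fun z => f z - g z) = D3b_tl D f - D3b_tl D g := by
  apply Lp.ext
  have h1 := D3b_coe D (hf.sub hg)
  filter_upwards [h1, D3b_coe D hf, D3b_coe D hg, Lp.coeFn_sub (D3b_tl D f) (D3b_tl D g)]
    with z h1 h2 h3 h4
  rw [h4, Pi.sub_apply, h2, h3]
  exact h1

theorem D3b_inner {f : ℂ → ℂ} (hf : ContinuousOn f D.cU) (u : D.L2) :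
    inner ℂ (D3b_tl D (fun z => conj (f z))) u = ∫ z in D.U, (u : ℂ → ℂ) z * f z := by
  rw [L2.inner_def]
  refine integral_congr_ae ?_
  have hf' : ContinuousOn (fun z => conj (f z)) D.cU := Complex.continuous_conj.comp_continuousOn hf
  filter_upwards [D3b_coe D hf'] with z hz
  rw [hz]
  simp

theorem D3b_norm_sq {f : ℂ → ℂ} (hf : ContinuousOn f D.cU) :
    ‖D3b_tl D f‖ ^ 2 = ∫ z in D.U, ‖f z‖ ^ 2 := by
  have h1 : ((‖D3b_tl D f‖ ^ 2 : ℝ) : ℂ) = ((∫ z in D.U, ‖f z‖ ^ 2 : ℝ) : ℂ) := by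
    calc ((‖D3b_tl D f‖ ^ 2 : ℝ) : ℂ) = inner ℂ (D3b_tl D f) (D3b_tl D f) := by
          rw [inner_self_eq_norm_sq_to_K]
          push_cast
          rfl
      _ = ∫ z in D.U, inner ℂ ((D3b_tl D f : ℂ → ℂ) z) ((D3b_tl D f : ℂ → ℂ) z) :=
          L2.inner_def _ _
      _ = ∫ z in D.U, ((‖f z‖ ^ 2 : ℝ) : ℂ) := by
          refine integral_congr_ae ?_
          filter_upwards [D3b_coe D hf] with z hz
          rw [hz, inner_self_eq_norm_sq_to_K]
          push_cast
          rfl
      _ = ((∫ z in D.U, ‖f z‖ ^ 2 : ℝ) : ℂ) := integral_ofReal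
  exact_mod_cast h1

theorem D3b_norm_congr {f g : ℂ → ℂ} (hf : ContinuousOn f D.cU) (hg : ContinuousOn g D.cU)
    (h : ∀ z ∈ D.U, ‖f z‖ = ‖g z‖) : ‖D3b_tl D f‖ = ‖D3b_tl D g‖ := by
  rw [D3b_norm D hf, D3b_norm D hg]
  congr 1
  refine eLpNorm_congr_norm_ae ?_
  filter_upwards [ae_restrict_mem D.U_open.measurableSet] with z hz using h z hz

theorem D3b_fderiv {F : ℂ → ℂ} {z : ℂ} (v : ℂ) :
    fderiv ℝ F z v = v * dz F z + conj v * dzb F z := by
  have h1 : v = v.re • (1 : ℂ) + v.im • Complex.I := by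
    simp [Complex.re_add_im]
  conv_lhs => rw [h1]
  rw [map_add, map_smul, map_smul]
  unfold dz dzb
  simp only [smul_eq_mul, Complex.real_smul]
  apply Complex.ext <;> simp <;> ring

theorem D3b_fderiv_norm {ψ : ℂ → ℝ} {z : ℂ} (h : DifferentiableAt ℝ ψ z) :
    ‖fderiv ℝ (fun w => (ψ w : ℂ)) z‖ ≤ 2 * ‖dz (fun w => (ψ w : ℂ)) z‖ := by
  refine ContinuousLinearMap.opNorm_le_bound _ (by positivity) fun v => ?_
  rw [D3b_fderiv, dzb_ofReal h]
  refine (norm_add_le _ _).trans ?_
  rw [norm_mul, norm_mul, RCLike.norm_conj, RCLike.norm_conj]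
  linarith

theorem D3b_real {ψ : ℂ → ℝ} {n : WithTop ℕ∞} (h : ContDiff ℝ n (fun z => (ψ z : ℂ))) :
    ContDiff ℝ n ψ := by
  have := (Complex.reCLM.contDiff (n := n)).comp h
  exact this

theorem D3b_poincare : ∃ C : ℝ, 0 ≤ C ∧ ∀ ψ : ℂ → ℝ, IsTest D.U (fun z => (ψ z : ℂ)) →
    ‖D3b_tl D (fun z => (ψ z : ℂ))‖ ≤ C * ‖D3b_tl D (dz (fun z => (ψ z : ℂ)))‖ := by
  set μ : Measure ℂ := volume.restrict D.U with hμ
  set K : ℝ≥0∞ := ENNReal.ofNNReal (eLpNormLESNormFDerivOneConst (volume : Measure ℂ) (2 : NNReal))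
    with hK
  set m : ℝ≥0∞ := μ univ ^ (1 / (1 : ℝ≥0∞).toReal - 1 / (2 : ℝ≥0∞).toReal) with hm
  have hm' : m ≠ ⊤ := by
    refine ENNReal.rpow_ne_top_of_nonneg (by norm_num) ?_
    rw [hμ, Measure.restrict_apply_univ]
    exact D.U_finite
  refine ⟨(K * (ENNReal.ofReal 2 * m)).toReal, ENNReal.toReal_nonneg, fun ψ hψ => ?_⟩
  set F : ℂ → ℂ := fun z => (ψ z : ℂ) with hF
  have hFc : Continuous F := hψ.smooth.continuous
  have hFd : Continuous (dz F) := hψ.dz.smooth.continuous
  rw [D3b_norm D hFc.continuousOn, D3b_norm D hFd.continuousOn]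
  have h1 : eLpNorm F 2 μ ≤ K * eLpNorm (fderiv ℝ F) 1 volume := by
    have hsm : ContDiff ℝ 1 F := hψ.smooth.of_le (by exact_mod_cast le_top)
    have hconj : NNReal.HolderConjugate (Module.finrank ℝ ℂ) 2 := by
      rw [Complex.finrank_real_complex]
      have : NNReal.HolderConjugate 2 2 := by
        rw [NNReal.holderConjugate_iff]
        norm_num
      exact_mod_cast this
    have h2 := eLpNorm_le_eLpNorm_fderiv_one (volume : Measure ℂ) hsm hψ.compact hconj
    exact (eLpNorm_mono_measure F Measure.restrict_le_self).trans h2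
  have h2 : eLpNorm (fderiv ℝ F) 1 volume = eLpNorm (fderiv ℝ F) 1 μ := by
    refine (eLpNorm_restrict_eq_of_support_subset ?_).symm
    exact (support_fderiv_subset ℝ).trans hψ.supp
  have h3 : eLpNorm (fderiv ℝ F) 1 μ ≤ eLpNorm (fderiv ℝ F) 2 μ * m := by
    refine eLpNorm_le_eLpNorm_mul_rpow_measure_univ (by norm_num) ?_
    exact (hψ.smooth.continuous_fderiv (by simp)).aestronglyMeasurable
  have h4 : eLpNorm (fderiv ℝ F) 2 μ ≤ ENNReal.ofReal 2 * eLpNorm (dz F) 2 μ := by
    refine eLpNorm_le_mul_eLpNorm_of_ae_le_mul ?_ 2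
    refine Eventually.of_forall fun z => D3b_fderiv_norm ?_
    exact (D3b_real hψ.smooth).differentiable (by simp) z
  have h5 : eLpNorm F 2 μ ≤ K * (ENNReal.ofReal 2 * m) * eLpNorm (dz F) 2 μ := by
    refine h1.trans ?_
    rw [h2, mul_assoc]
    gcongr
    refine h3.trans ?_
    calc eLpNorm (fderiv ℝ F) 2 μ * m ≤ ENNReal.ofReal 2 * eLpNorm (dz F) 2 μ * m := by gcongr
      _ = ENNReal.ofReal 2 * m * eLpNorm (dz F) 2 μ := by ring
  rw [← ENNReal.toReal_mul]
  refine ENNReal.toReal_mono ?_ h5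
  refine ENNReal.mul_ne_top (ENNReal.mul_ne_top ENNReal.coe_ne_top
    (ENNReal.mul_ne_top ENNReal.ofReal_ne_top hm')) ?_
  exact (D3b_memLp D hFd.continuousOn).2.ne

theorem D3b_int_test {F : ℂ → ℂ} (hF : IsTest D.U F) :
    ∫ z in D.U, dz F z = 0 ∧ ∫ z in D.U, dzb F z = 0 := by
  have h := integral_dz_test (hF.smooth.of_le (by exact_mod_cast le_top)) hF.compact
  constructor
  · rw [setIntegral_eq_integral_of_forall_compl_eq_zero fun z hz => ?_]
    · exact h.1
    · exact (dz_of_notMem fun h' => hz (hF.supp h')).1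
  · rw [setIntegral_eq_integral_of_forall_compl_eq_zero fun z hz => ?_]
    · exact h.2
    · exact (dz_of_notMem fun h' => hz (hF.supp h')).2

theorem D3b_integrable {f : ℂ → ℂ} (hf : ContinuousOn f D.cU) : IntegrableOn f D.U :=
  (hf.integrableOn_compact D.cU_compact).mono_set D.U_subset_cU

theorem D3b_step {s p G : ℂ → ℂ} {V : Set ℂ} (hV : IsOpen V) (hcV : D.cU ⊆ V)
    (hs : ContDiffOn ℝ (⊤ : ℕ∞) s V) (hp : IsTest D.U p) (hG : ContDiffOn ℝ (⊤ : ℕ∞) G V) :
    ∫ z in D.U, dz (fun w => s w * G w) z =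
      inner ℂ (D3b_tl D (fun z => conj (G z))) (D3b_tl D (dz s) - D3b_tl D (dz p)) +
        inner ℂ (D3b_tl D (fun z => conj (dz G z))) (D3b_tl D s - D3b_tl D p) ∧
    ∫ z in D.U, dzb (fun w => s w * G w) z =
      inner ℂ (D3b_tl D (fun z => conj (G z))) (D3b_tl D (dzb s) - D3b_tl D (dzb p)) +
        inner ℂ (D3b_tl D (fun z => conj (dzb G z))) (D3b_tl D s - D3b_tl D p) := by
  have hds := dz_contDiffOn hV hs
  have hdG := dz_contDiffOn hV hG
  have cs : ContinuousOn s D.cU := hs.continuousOn.mono hcV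
  have cds : ContinuousOn (dz s) D.cU := hds.1.continuousOn.mono hcV
  have cbs : ContinuousOn (dzb s) D.cU := hds.2.continuousOn.mono hcV
  have cG : ContinuousOn G D.cU := hG.continuousOn.mono hcV
  have cdG : ContinuousOn (dz G) D.cU := hdG.1.continuousOn.mono hcV
  have cbG : ContinuousOn (dzb G) D.cU := hdG.2.continuousOn.mono hcV
  have cp : ContinuousOn p D.cU := hp.smooth.continuous.continuousOn
  have cdp : ContinuousOn (dz p) D.cU := hp.dz.smooth.continuous.continuousOn
  have cbp : ContinuousOn (dzb p) D.cU := hp.dzb.smooth.continuous.continuousOn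
  have hUV : D.U ⊆ V := D.U_subset_cU.trans hcV
  have hpG : IsTest D.U (fun z => p z • G z) := hp.smul' D.U_open (hG.mono hUV)
  have hint := D3b_int_test D hpG
  have dG : ∀ z ∈ D.U, DifferentiableAt ℝ G z := fun z hz =>
    (hG.contDiffAt (hV.mem_nhds (hUV hz))).differentiableAt (by simp)
  have dss : ∀ z ∈ D.U, DifferentiableAt ℝ s z := fun z hz =>
    (hs.contDiffAt (hV.mem_nhds (hUV hz))).differentiableAt (by simp)
  have dp : ∀ z, DifferentiableAt ℝ p z := fun z => hp.smooth.differentiable (by simp) z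
  rw [← D3b_sub D cds cdp, ← D3b_sub D cs cp, ← D3b_sub D cbs cbp, D3b_inner D cG, D3b_inner D cdG,
    D3b_inner D cG, D3b_inner D cbG]
  constructor
  · have e1 : ∫ z in D.U, (D3b_tl D (fun z => dz s z - dz p z) : ℂ → ℂ) z * G z =
        ∫ z in D.U, (dz s z - dz p z) * G z := by
      refine integral_congr_ae ?_
      filter_upwards [D3b_coe D (cds.sub cdp)] with z hz
      rw [show (fun z => dz s z - dz p z) = (fun z => dz s z) - (fun z => dz p z) from rfl]
      rw [hz]
      rfl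
    have e2 : ∫ z in D.U, (D3b_tl D (fun z => s z - p z) : ℂ → ℂ) z * dz G z =
        ∫ z in D.U, (s z - p z) * dz G z := by
      refine integral_congr_ae ?_
      filter_upwards [D3b_coe D (cs.sub cp)] with z hz
      rw [show (fun z => s z - p z) = (fun z => s z) - (fun z => p z) from rfl]
      rw [hz]
      rfl
    have i1 : IntegrableOn (fun z => (dz s z - dz p z) * G z) D.U :=
      D3b_integrable D ((cds.sub cdp).mul cG)
    have i2 : IntegrableOn (fun z => (s z - p z) * dz G z) D.U :=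
      D3b_integrable D ((cs.sub cp).mul cdG)
    rw [e1, e2, ← integral_add i1 i2, ← sub_zero (∫ z in D.U, dz (fun w => s w * G w) z),
      ← hint.1, ← integral_sub]
    · refine setIntegral_congr_fun D.U_open.measurableSet fun z hz => ?_
      have h1 := (dz_smul (dss z hz) (dG z hz)).1
      have h2 := (dz_smul (dp z) (dG z hz)).1
      simp only [smul_eq_mul] at h1 h2 ⊢
      rw [h1, h2]
      ring
    · refine D3b_integrable D ?_
      exact (dz_contDiffOn hV (hs.mul hG)).1.continuousOn.mono hcV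
    · exact D3b_integrable D hpG.dz.smooth.continuous.continuousOn
  · have e1 : ∫ z in D.U, (D3b_tl D (fun z => dzb s z - dzb p z) : ℂ → ℂ) z * G z =
        ∫ z in D.U, (dzb s z - dzb p z) * G z := by
      refine integral_congr_ae ?_
      filter_upwards [D3b_coe D (cbs.sub cbp)] with z hz
      rw [show (fun z => dzb s z - dzb p z) = (fun z => dzb s z) - (fun z => dzb p z) from rfl]
      rw [hz]
      rfl
    have e2 : ∫ z in D.U, (D3b_tl D (fun z => s z - p z) : ℂ → ℂ) z * dzb G z =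
        ∫ z in D.U, (s z - p z) * dzb G z := by
      refine integral_congr_ae ?_
      filter_upwards [D3b_coe D (cs.sub cp)] with z hz
      rw [show (fun z => s z - p z) = (fun z => s z) - (fun z => p z) from rfl]
      rw [hz]
      rfl
    have i1 : IntegrableOn (fun z => (dzb s z - dzb p z) * G z) D.U :=
      D3b_integrable D ((cbs.sub cbp).mul cG)
    have i2 : IntegrableOn (fun z => (s z - p z) * dzb G z) D.U :=
      D3b_integrable D ((cs.sub cp).mul cbG)
    rw [e1, e2, ← integral_add i1 i2, ← sub_zero (∫ z in D.U, dzb (fun w => s w * G w) z),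
      ← hint.2, ← integral_sub]
    · refine setIntegral_congr_fun D.U_open.measurableSet fun z hz => ?_
      have h1 := (dz_smul (dss z hz) (dG z hz)).2
      have h2 := (dz_smul (dp z) (dG z hz)).2
      simp only [smul_eq_mul] at h1 h2 ⊢
      rw [h1, h2]
      ring
    · refine D3b_integrable D ?_
      exact (dz_contDiffOn hV (hs.mul hG)).2.continuousOn.mono hcV
    · exact D3b_integrable D hpG.dzb.smooth.continuous.continuousOn

/-- a square integrable holomorphic function with vanishing weak `∂_z` is constant -/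
theorem D3b_const {g : ℂ → ℂ} (hg : DifferentiableOn ℂ g D.U)
    (h : ∀ G : ℂ → ℂ, IsTest D.U G → ∫ z in D.U, g z * dz G z = 0) :
    ∃ c : ℂ, ∀ z ∈ D.U, g z = c := by
  have hgs : ContDiffOn ℝ (⊤ : ℕ∞) g D.U := hol_contDiffOn D.U_open hg
  have hd : DifferentiableOn ℂ (deriv g) D.U := hg.deriv D.U_open
  have h0 : ∀ᵐ z : ℂ, z ∈ D.U → deriv g z = 0 := by
    refine D.U_open.ae_eq_zero_of_integral_contDiff_smul_eq_zero
      (hd.continuousOn.locallyIntegrableOn D.U_open.measurableSet) fun G hG hGc hGs => ?_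
    have hGt : IsTest D.U (fun z => (G z : ℂ)) := by
      refine ⟨Complex.ofRealCLM.contDiff.comp hG, ?_, ?_⟩
      · exact hGc.comp_left (g := fun x : ℝ => (x : ℂ)) Complex.ofReal_zero
      · have : tsupport (fun z => (G z : ℂ)) = tsupport G := by
          unfold tsupport
          congr 1
          ext z
          simp
        rw [this]
        exact hGs
    have h1 := h _ hGt
    have h2 : IsTest D.U (fun z => g z • (G z : ℂ)) := hGt.smul D.U_open hgs
    have h3 := (D3b_int_test D h2).1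
    have h4 : ∀ z ∈ D.U, dz (fun z => g z • (G z : ℂ)) z = (deriv g z) * (G z : ℂ) +
        g z * dz (fun w => (G w : ℂ)) z := by
      intro z hz
      have hgz : DifferentiableAt ℂ g z := hg.differentiableAt (D.U_open.mem_nhds hz)
      have h5 := (dz_smul (hgz.restrictScalars ℝ) (hGt.smooth.differentiable (by simp) z)).1
      rw [(dz_hol hgz).1] at h5
      exact h5
    rw [setIntegral_congr_fun D.U_open.measurableSet h4] at h3
    have i2 : IntegrableOn (fun z => g z * dz (fun w => (G w : ℂ)) z) D.U := by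
      have h6 : IsTest D.U (fun z => g z • dz (fun w => (G w : ℂ)) z) :=
        (hGt.dz).smul D.U_open hgs
      exact (h6.smooth.continuous.integrable_of_hasCompactSupport h6.compact).integrableOn
    have i1 : IntegrableOn (fun z => deriv g z * (G z : ℂ)) D.U := by
      have h6 : IsTest D.U (fun z => deriv g z • (G z : ℂ)) :=
        hGt.smul D.U_open (hol_contDiffOn D.U_open hd)
      exact (h6.smooth.continuous.integrable_of_hasCompactSupport h6.compact).integrableOn
    rw [integral_add i1 i2, h1, add_zero] at h3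
    have h7 : ∫ z, G z • deriv g z = ∫ z in D.U, deriv g z * (G z : ℂ) := by
      have h8 : ∀ z, G z • deriv g z = deriv g z * (G z : ℂ) := fun z => by
        rw [Complex.real_smul, mul_comm]
      simp only [h8]
      refine (setIntegral_eq_integral_of_forall_compl_eq_zero fun z hz => ?_).symm
      have : G z = 0 := image_eq_zero_of_notMem_tsupport fun h' => hz (hGs h')
      rw [this]
      simp
    rw [h7]
    exact h3
  have h1 : ∀ z ∈ D.U, deriv g z = 0 := by
    have hc : ContinuousOn (deriv g) D.U := hd.continuousOn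
    have h2 : deriv g =ᵐ[volume.restrict D.U] fun _ => 0 := by
      rw [EventuallyEq, ae_restrict_iff' D.U_open.measurableSet]
      exact h0
    exact (Measure.eqOn_open_of_ae_eq h2 D.U_open hc continuousOn_const)
  exact D.U_open.exists_is_const_of_deriv_eq_zero (U_preconnected D) hg h1

/-- the `L²` limit of the test functions, minus `σ`, is a constant -/
theorem D3b_limit {σ : ℂ → ℝ} {V : Set ℂ} (hV : IsOpen V) (hcV : D.cU ⊆ V)
    (hσ : ContDiffOn ℝ (⊤ : ℕ∞) σ V)
    (h : ∀ ε > 0, ∃ ψ : ℂ → ℝ, IsTest D.U (fun z => (ψ z : ℂ)) ∧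
      ‖D3b_tl D (fun z => dz (fun w => (σ w : ℂ)) z - dz (fun w => (ψ w : ℂ)) z)‖ < ε) :
    ∃ c : ℂ, ∀ G : ℂ → ℂ, ContDiffOn ℝ (⊤ : ℕ∞) G V →
      ∫ z in D.U, dz (fun w => ((σ w : ℂ) - c) * G w) z = 0 := by
  have hσc : ContDiffOn ℝ (⊤ : ℕ∞) (fun z => (σ z : ℂ)) V :=
    Complex.ofRealCLM.contDiff.comp_contDiffOn hσ
  have hdσ := dz_contDiffOn hV hσc
  have hσU : ContinuousOn (fun z => (σ z : ℂ)) D.cU := hσc.continuousOn.mono hcV
  have hdσU : ContinuousOn (dz fun z => (σ z : ℂ)) D.cU := hdσ.1.continuousOn.mono hcV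
  have hbσU : ContinuousOn (dzb fun z => (σ z : ℂ)) D.cU := hdσ.2.continuousOn.mono hcV
  choose ψ hψ hψn using fun n : ℕ => h (1 / ((n : ℝ) + 1)) (by positivity)
  have hψc : ∀ n, ContinuousOn (fun z => (ψ n z : ℂ)) D.cU := fun n =>
    (hψ n).smooth.continuous.continuousOn
  have hdψc : ∀ n, ContinuousOn (dz fun z => (ψ n z : ℂ)) D.cU := fun n =>
    (hψ n).dz.smooth.continuous.continuousOn
  have hbψc : ∀ n, ContinuousOn (dzb fun z => (ψ n z : ℂ)) D.cU := fun n =>
    (hψ n).dzb.smooth.continuous.continuousOn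
  have hψr : ∀ n, ContDiff ℝ (⊤ : ℕ∞) (ψ n) := fun n => D3b_real (hψ n).smooth
  -- the distances
  have hd : ∀ n, ‖D3b_tl D (dz fun z => (σ z : ℂ)) - D3b_tl D (dz fun z => (ψ n z : ℂ))‖ <
      1 / ((n : ℝ) + 1) := by
    intro n
    rw [← D3b_sub D hdσU (hdψc n)]
    exact hψn n
  have hdb : ∀ n, ‖D3b_tl D (dzb fun z => (σ z : ℂ)) - D3b_tl D (dzb fun z => (ψ n z : ℂ))‖ <
      1 / ((n : ℝ) + 1) := by
    intro n
    refine lt_of_eq_of_lt ?_ (hψn n)
    rw [← D3b_sub D hbσU (hbψc n)]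
    refine D3b_norm_congr D (hbσU.sub (hbψc n)) (hdσU.sub (hdψc n)) fun z hz => ?_
    have h1 := dzb_ofReal ((hσ.contDiffAt (hV.mem_nhds (hcV (D.U_subset_cU hz)))).differentiableAt
      (by simp))
    have h2 := dzb_ofReal ((hψr n).differentiable (by simp) z)
    rw [h1, h2, ← map_sub, RCLike.norm_conj]
  have hlim0 : Tendsto (fun n : ℕ => 1 / ((n : ℝ) + 1)) atTop (𝓝 0) :=
    tendsto_one_div_add_atTop_nhds_zero_nat
  have hdlim : Tendsto (fun n => D3b_tl D (dz fun z => (σ z : ℂ)) -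
      D3b_tl D (dz fun z => (ψ n z : ℂ))) atTop (𝓝 0) :=
    squeeze_zero_norm (fun n => (hd n).le) hlim0
  have hblim : Tendsto (fun n => D3b_tl D (dzb fun z => (σ z : ℂ)) -
      D3b_tl D (dzb fun z => (ψ n z : ℂ))) atTop (𝓝 0) :=
    squeeze_zero_norm (fun n => (hdb n).le) hlim0
  -- the limit
  obtain ⟨C, hC0, hC⟩ := D3b_poincare D
  have hcau : CauchySeq fun n => D3b_tl D (fun z => (ψ n z : ℂ)) := by
    have hb : Tendsto (fun n : ℕ => 2 * C * (1 / ((n : ℝ) + 1))) atTop (𝓝 0) := by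
      simpa using hlim0.const_mul (2 * C)
    refine cauchySeq_of_le_tendsto_0 _ (fun n m N hn hm => ?_) hb
    have hnn : 1 / ((n : ℝ) + 1) ≤ 1 / ((N : ℝ) + 1) := by
      have : (N : ℝ) ≤ n := by exact_mod_cast hn
      gcongr
    have hmm : 1 / ((m : ℝ) + 1) ≤ 1 / ((N : ℝ) + 1) := by
      have : (N : ℝ) ≤ m := by exact_mod_cast hm
      gcongr
    have e1 : IsTest D.U (fun z => ((ψ n z - ψ m z : ℝ) : ℂ)) := by
      have h1 : IsTest D.U (fun z => -(ψ m z : ℂ)) := by
        have := (hψ m)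
        refine ⟨this.smooth.neg, ?_, ?_⟩
        · exact this.compact.neg
        · have h2 : tsupport (fun z => -(ψ m z : ℂ)) = tsupport (fun z => (ψ m z : ℂ)) := by
            unfold tsupport
            congr 1
            ext z
            simp
          rw [h2]
          exact this.supp
      have h2 := (hψ n).add h1
      refine (?_ : (fun z => ((ψ n z - ψ m z : ℝ) : ℂ)) = fun z => (ψ n z : ℂ) + -(ψ m z : ℂ)) ▸ h2
      funext z
      push_cast
      ring
    have e2 := hC _ e1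
    have e3 : (fun z => ((ψ n z - ψ m z : ℝ) : ℂ)) = fun z => (ψ n z : ℂ) - (ψ m z : ℂ) := by
      funext z
      push_cast
      ring
    have e4 : dz (fun z => ((ψ n z - ψ m z : ℝ) : ℂ)) =
        fun z => dz (fun w => (ψ n w : ℂ)) z - dz (fun w => (ψ m w : ℂ)) z := by
      funext z
      have hn' : DifferentiableAt ℝ (fun w => (ψ n w : ℂ)) z :=
        (hψ n).smooth.differentiable (by simp) z
      have hm' : DifferentiableAt ℝ (fun w => (ψ m w : ℂ)) z :=
        (hψ m).smooth.differentiable (by simp) z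
      rw [e3]
      have h1 := (dz_add hn' hm'.fun_neg).1
      rw [(dz_neg (F := fun w => (ψ m w : ℂ)) (z := z)).1] at h1
      simp only [sub_eq_add_neg]
      exact h1
    rw [e4, e3, D3b_sub D (hψc n) (hψc m), D3b_sub D (hdψc n) (hdψc m)] at e2
    rw [dist_eq_norm]
    refine e2.trans ?_
    have e5 : ‖D3b_tl D (dz fun w => (ψ n w : ℂ)) - D3b_tl D (dz fun w => (ψ m w : ℂ))‖ ≤
        1 / ((n : ℝ) + 1) + 1 / ((m : ℝ) + 1) := by
      have : D3b_tl D (dz fun w => (ψ n w : ℂ)) - D3b_tl D (dz fun w => (ψ m w : ℂ)) =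
        (D3b_tl D (dz fun z => (σ z : ℂ)) - D3b_tl D (dz fun z => (ψ m z : ℂ))) -
        (D3b_tl D (dz fun z => (σ z : ℂ)) - D3b_tl D (dz fun z => (ψ n z : ℂ))) := by abel
      rw [this]
      refine (norm_sub_le _ _).trans ?_
      linarith [(hd n).le, (hd m).le]
    calc C * ‖D3b_tl D (dz fun w => (ψ n w : ℂ)) - D3b_tl D (dz fun w => (ψ m w : ℂ))‖
        ≤ C * (1 / ((N : ℝ) + 1) + 1 / ((N : ℝ) + 1)) := by
          refine mul_le_mul_of_nonneg_left ?_ hC0
          linarith
      _ = _ := by ring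
  obtain ⟨Yl, hYl⟩ := cauchySeq_tendsto_of_complete hcau
  set u : D.L2 := D3b_tl D (fun z => (σ z : ℂ)) - Yl with hu
  have hulim : Tendsto (fun n => D3b_tl D (fun z => (σ z : ℂ)) - D3b_tl D (fun z => (ψ n z : ℂ)))
      atTop (𝓝 u) := tendsto_const_nhds.sub hYl
  -- the two identities
  have hident : ∀ G : ℂ → ℂ, ContDiffOn ℝ (⊤ : ℕ∞) G V →
      ∫ z in D.U, dz (fun w => (σ w : ℂ) * G w) z = ∫ z in D.U, (u : ℂ → ℂ) z * dz G z ∧
      ∫ z in D.U, dzb (fun w => (σ w : ℂ) * G w) z = ∫ z in D.U, (u : ℂ → ℂ) z * dzb G z := by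
    intro G hG
    have hdG := dz_contDiffOn hV hG
    have cdG : ContinuousOn (dz G) D.cU := hdG.1.continuousOn.mono hcV
    have cbG : ContinuousOn (dzb G) D.cU := hdG.2.continuousOn.mono hcV
    have hst := fun n => D3b_step D hV hcV hσc (hψ n) hG
    rw [← D3b_inner D cdG, ← D3b_inner D cbG]
    constructor
    · have l1 := (tendsto_const_nhds (x := D3b_tl D (fun z => conj (G z)))).inner (𝕜 := ℂ) hdlim
      have l2 := (tendsto_const_nhds (x := D3b_tl D (fun z => conj (dz G z)))).inner (𝕜 := ℂ) hulim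
      have l3 := l1.add l2
      rw [inner_zero_right, zero_add] at l3
      refine tendsto_nhds_unique (tendsto_const_nhds.congr fun n => (hst n).1) l3
    · have l1 := (tendsto_const_nhds (x := D3b_tl D (fun z => conj (G z)))).inner (𝕜 := ℂ) hblim
      have l2 := (tendsto_const_nhds (x := D3b_tl D (fun z => conj (dzb G z)))).inner (𝕜 := ℂ) hulim
      have l3 := l1.add l2
      rw [inner_zero_right, zero_add] at l3
      refine tendsto_nhds_unique (tendsto_const_nhds.congr fun n => (hst n).2) l3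
  have hweak : D.WeakDbar u 0 := by
    intro φ hφ
    have h1 := (hident φ hφ.smooth.contDiffOn).2
    have h2 : IsTest D.U (fun z => (σ z : ℂ) • φ z) :=
      hφ.smul D.U_open (hσc.mono (D.U_subset_cU.trans hcV))
    have h3 := (D3b_int_test D h2).2
    simp only [smul_eq_mul] at h3
    rw [← h1, h3]
    have h4 : ∫ z in D.U, ((0 : D.L2) : ℂ → ℂ) z * φ z = ∫ z in D.U, (0 : ℂ) := by
      refine integral_congr_ae ?_
      filter_upwards [Lp.coeFn_zero ℂ 2 (volume.restrict D.U)] with z hz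
      rw [hz]
      simp
    rw [h4]
    simp
  obtain ⟨g, hg, hug⟩ := berg_rep D (weyl D hweak)
  obtain ⟨c, hc⟩ := D3b_const D hg.diff fun G hG => by
    have h1 := (hident G hG.smooth.contDiffOn).1
    have h2 : IsTest D.U (fun z => (σ z : ℂ) • G z) :=
      hG.smul D.U_open (hσc.mono (D.U_subset_cU.trans hcV))
    have h3 := (D3b_int_test D h2).1
    simp only [smul_eq_mul] at h3
    rw [h3] at h1
    rw [h1]
    refine integral_congr_ae ?_
    filter_upwards [hug] with z hz
    rw [hz]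
  refine ⟨c, fun G hG => ?_⟩
  have h1 := (hident G hG).1
  have hdG := dz_contDiffOn hV hG
  have cdG : ContinuousOn (dz G) D.cU := hdG.1.continuousOn.mono hcV
  have h2 : ∫ z in D.U, (u : ℂ → ℂ) z * dz G z = ∫ z in D.U, c * dz G z := by
    refine integral_congr_ae ?_
    filter_upwards [hug, ae_restrict_mem D.U_open.measurableSet] with z hz hzU
    rw [hz, hc z hzU]
  rw [h2] at h1
  have hUV : D.U ⊆ V := D.U_subset_cU.trans hcV
  have h3 : ∀ z ∈ D.U, dz (fun w => ((σ w : ℂ) - c) * G w) z =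
      dz (fun w => (σ w : ℂ) * G w) z - c * dz G z := by
    intro z hz
    have dG : DifferentiableAt ℝ G z :=
      (hG.contDiffAt (hV.mem_nhds (hUV hz))).differentiableAt (by simp)
    have ds : DifferentiableAt ℝ (fun w => (σ w : ℂ)) z :=
      (hσc.contDiffAt (hV.mem_nhds (hUV hz))).differentiableAt (by simp)
    have e1 := (dz_smul ds dG).1
    have e2 := (dz_smul (ds.sub_const c) dG).1
    have e3 : dz (fun w => (σ w : ℂ) - c) z = dz (fun w => (σ w : ℂ)) z := by
      have := (dz_add ds (differentiableAt_const (-c))).1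
      rw [dz_const.1, add_zero] at this
      simpa [sub_eq_add_neg] using this
    simp only [smul_eq_mul] at e1 e2
    rw [e1, e2, e3]
    ring
  rw [setIntegral_congr_fun D.U_open.measurableSet h3, integral_sub, h1, sub_self]
  · exact D3b_integrable D ((dz_contDiffOn hV (hσc.mul hG)).1.continuousOn.mono hcV)
  · exact D3b_integrable D (continuousOn_const.mul cdG)

theorem D3b_circle {f : ℝ → ℝ} (hf : Continuous f) (h0 : ∀ x, 0 ≤ f x)
    (h : ∫ θ in (0 : ℝ)..2 * Real.pi, f θ = 0) : ∀ θ ∈ Icc 0 (2 * Real.pi), f θ = 0 := by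
  intro θ hθ
  by_contra hne
  have := intervalIntegral.integral_pos (f := f) Real.two_pi_pos hf.continuousOn
    (fun x _ => h0 x) ⟨θ, hθ, lt_of_le_of_ne (h0 θ) (Ne.symm hne)⟩
  linarith

theorem D3b_param (c : ℂ) {r : ℝ} (hr : 0 < r) {z : ℂ} (hz : z ∈ sphere c r) :
    ∃ θ ∈ Icc 0 (2 * Real.pi), z = c + r * Complex.exp (θ * Complex.I) := by
  have h1 : ‖z - c‖ = r := by rwa [mem_sphere, dist_eq_norm] at hz
  have h2 := Complex.norm_mul_exp_arg_mul_I (z - c)
  rw [h1] at h2
  have h3 := Complex.neg_pi_lt_arg (z - c)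
  have h4 := Complex.arg_le_pi (z - c)
  by_cases h5 : 0 ≤ (z - c).arg
  · refine ⟨(z - c).arg, ⟨h5, by linarith⟩, ?_⟩
    rw [h2]
    ring
  · refine ⟨(z - c).arg + 2 * Real.pi, ⟨by linarith, by linarith⟩, ?_⟩
    have h6 : Complex.exp (((z - c).arg + 2 * Real.pi : ℝ) * Complex.I) =
        Complex.exp ((z - c).arg * Complex.I) := by
      push_cast
      rw [add_mul, Complex.exp_add, Complex.exp_two_pi_mul_I, mul_one]
    rw [h6, h2]
    ring

/-- the boundary values -/
theorem grad_boundary (hτ : D.Good τ) (j : Fin k) {δ : ℝ} (hδ : 0 < δ) (hδτ : δ ≤ τ) {v : ℂ → ℂ}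
    (hv : DifferentiableOn ℂ v (D.Ue δ))
    (h : ∀ ε > 0, ∃ ψ : ℂ → ℝ, IsTest D.U (fun z => (ψ z : ℂ)) ∧
      ∫ z in D.U, ‖v z - dz (fun w => (D.chi τ (some j) w : ℂ)) z -
        dz (fun w => (ψ w : ℂ)) z‖ ^ 2 < ε) {om : ℂ → ℝ}
    (hom : ContDiffOn ℝ (⊤ : ℕ∞) om (D.Ue δ))
    (hd : ∀ z ∈ D.Ue δ, dz (fun w => (om w : ℂ)) z = v z) :
    ∃ c : ℝ, (∀ z ∈ D.circ none, om z = c) ∧
      ∀ l, ∀ z ∈ D.circ (some l), om z = c + if l = j then 1 else 0 := by
  set V := D.Ue δ with hVdef
  have hV : IsOpen V := D.Ue_open δ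
  have hcV : D.cU ⊆ V := D.cU_subset_Ue hδ
  have hUV : D.U ⊆ V := D.U_subset_cU.trans hcV
  have hχ : ∀ l, ContDiff ℝ (⊤ : ℕ∞) (D.chi τ l) := fun l => chi_smooth D hτ.pos hτ.lt_R l
  set σ : ℂ → ℝ := fun z => om z - D.chi τ (some j) z with hσ
  have hσs : ContDiffOn ℝ (⊤ : ℕ∞) σ V := hom.sub (hχ _).contDiffOn
  have hσc : ContDiffOn ℝ (⊤ : ℕ∞) (fun z => (σ z : ℂ)) V :=
    Complex.ofRealCLM.contDiff.comp_contDiffOn hσs
  have hχc : ContDiff ℝ (⊤ : ℕ∞) (fun z => (D.chi τ (some j) z : ℂ)) :=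
    Complex.ofRealCLM.contDiff.comp (hχ (some j))
  have hdσ : ∀ z ∈ V, dz (fun w => (σ w : ℂ)) z =
      v z - dz (fun w => (D.chi τ (some j) w : ℂ)) z := by
    intro z hz
    have h1 : DifferentiableAt ℝ (fun w => (om w : ℂ)) z :=
      Complex.ofRealCLM.differentiableAt.comp z
        ((hom.contDiffAt (hV.mem_nhds hz)).differentiableAt (by simp))
    have h2 : DifferentiableAt ℝ (fun w => (D.chi τ (some j) w : ℂ)) z :=
      hχc.differentiable (by simp) z
    have h3 := (dz_add h1 h2.fun_neg).1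
    rw [(dz_neg (F := fun w => (D.chi τ (some j) w : ℂ)) (z := z)).1, hd z hz] at h3
    rw [sub_eq_add_neg, ← h3]
    refine (dz_congr (Eventually.of_forall fun w => ?_)).1
    simp [hσ, sub_eq_add_neg]
  obtain ⟨c, hc⟩ := D3b_limit D hV hcV hσs fun ε hε => by
    obtain ⟨ψ, hψ, hψε⟩ := h (ε ^ 2) (by positivity)
    refine ⟨ψ, hψ, ?_⟩
    have cc : ContinuousOn (fun z => dz (fun w => (σ w : ℂ)) z - dz (fun w => (ψ w : ℂ)) z) D.cU :=
      ((dz_contDiffOn hV hσc).1.continuousOn.mono hcV).sub hψ.dz.smooth.continuous.continuousOn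
    have h1 := D3b_norm_sq D cc
    have h2 : ∫ z in D.U, ‖dz (fun w => (σ w : ℂ)) z - dz (fun w => (ψ w : ℂ)) z‖ ^ 2 < ε ^ 2 := by
      refine lt_of_eq_of_lt ?_ hψε
      refine setIntegral_congr_fun D.U_open.measurableSet fun z hz => ?_
      rw [hdσ z (hUV hz)]
    rw [← h1] at h2
    exact lt_of_pow_lt_pow_left₀ 2 hε.le h2
  -- the values on the circles
  have key : ∀ l, ∀ z ∈ D.circ l, (σ z : ℂ) = c := by
    intro l z hz
    set ρ : ℝ := D.rad l with hρ
    have hρpos : 0 < ρ := by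
      cases l with
      | none => exact D.Rpos
      | some i => exact D.rpos i
    set G : ℂ → ℂ := fun z => (D.chi τ l z : ℂ) * conj ((σ z : ℂ) - c) * ((z - D.cen l) / ρ) with hG
    have hGs : ContDiffOn ℝ (⊤ : ℕ∞) G V := by
      have e1 : ContDiffOn ℝ (⊤ : ℕ∞) (fun z => (D.chi τ l z : ℂ)) V :=
        (Complex.ofRealCLM.contDiff.comp (hχ l)).contDiffOn
      have e2 : ContDiffOn ℝ (⊤ : ℕ∞) (fun z => conj ((σ z : ℂ) - c)) V :=
        Complex.conjCLE.contDiff.comp_contDiffOn (hσc.sub contDiffOn_const)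
      have e3 : ContDiff ℝ (⊤ : ℕ∞) (fun z : ℂ => (z - D.cen l) / ρ) :=
        (contDiff_id.sub contDiff_const).div_const _
      exact (e1.mul e2).mul e3.contDiffOn
    set F : ℂ → ℂ := fun w => ((σ w : ℂ) - c) * G w with hF
    have hFs : ContDiffOn ℝ (⊤ : ℕ∞) F V := (hσc.sub contDiffOn_const).mul hGs
    have h1 := hc G hGs
    have h2 := (green_CD D hV hcV (hFs.of_le (by exact_mod_cast le_top))).1
    have hFother : ∀ l' z, l' ≠ l → z ∈ D.circ l' → F z = 0 := by
      intro l' z hl hz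
      have h3 := (chi_zero_near D hτ hl hz).self_of_nhds
      simp [hF, hG, h3]
    have hFl : ∀ θ : ℝ, Complex.exp (-(θ * Complex.I)) *
        F (D.cen l + ρ * Complex.exp (θ * Complex.I)) =
        ((‖(σ (D.cen l + ρ * Complex.exp (θ * Complex.I)) : ℂ) - c‖ ^ 2 : ℝ) : ℂ) := by
      intro θ
      have hmem : D.cen l + ρ * Complex.exp (θ * Complex.I) ∈ D.circ l := by
        rw [CD.circ, mem_sphere, dist_eq_norm, add_sub_cancel_left, norm_mul,
          Complex.norm_exp_ofReal_mul_I, mul_one, Complex.norm_real, Real.norm_of_nonneg hρpos.le]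
      have h3 := (chi_near D hτ.pos l hmem).self_of_nhds
      simp only [hF, hG, h3, add_sub_cancel_left]
      have hρ0 : (ρ : ℂ) ≠ 0 := by exact_mod_cast hρpos.ne'
      rw [mul_div_cancel_left₀ _ hρ0, Complex.exp_neg]
      have hexp : Complex.exp (θ * Complex.I) ≠ 0 := Complex.exp_ne_zero _
      have h4 : ∀ u : ℂ, u * conj u = ((‖u‖ ^ 2 : ℝ) : ℂ) := fun u => by
        rw [Complex.mul_conj, Complex.normSq_eq_norm_sq]
      rw [← h4]
      field_simp
      push_cast
      ring
    have hzero : ∫ θ in (0 : ℝ)..2 * Real.pi, Complex.exp (-(θ * Complex.I)) •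
        F (D.cen l + ρ * Complex.exp (θ * Complex.I)) = 0 := by
      have hmemR : ∀ θ : ℝ, (D.R : ℂ) * Complex.exp (θ * Complex.I) ∈ D.circ none := by
        intro θ
        rw [CD.circ, CD.cen, CD.rad, mem_sphere_zero_iff_norm, norm_mul,
          Complex.norm_exp_ofReal_mul_I, mul_one, Complex.norm_real, Real.norm_of_nonneg D.Rpos.le]
      have hmemj : ∀ (i : Fin k) (θ : ℝ), D.a i + (D.r i : ℂ) * Complex.exp (θ * Complex.I) ∈
          D.circ (some i) := by
        intro i θ
        rw [CD.circ, CD.cen, CD.rad, mem_sphere, dist_eq_norm, add_sub_cancel_left, norm_mul,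
          Complex.norm_exp_ofReal_mul_I, mul_one, Complex.norm_real,
          Real.norm_of_nonneg (D.rpos i).le]
      rw [h1] at h2
      cases l with
      | none =>
        have h5 : ∀ i : Fin k, (D.r i / 2 : ℂ) • ∫ θ in (0 : ℝ)..2 * Real.pi,
            Complex.exp (-(θ * Complex.I)) • F (D.a i + D.r i * Complex.exp (θ * Complex.I)) = 0 := by
          intro i
          have : ∀ θ : ℝ, Complex.exp (-(θ * Complex.I)) •
              F (D.a i + D.r i * Complex.exp (θ * Complex.I)) = 0 := fun θ => by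
            rw [hFother (some i) _ (by simp) (hmemj i θ), smul_zero]
          simp only [this, intervalIntegral.integral_zero, smul_zero]
        simp only [h5, Finset.sum_const_zero, sub_zero] at h2
        have h6 : (D.R / 2 : ℂ) ≠ 0 := by
          have := D.Rpos.ne'
          simp [this]
        have h7 := (smul_eq_zero.1 h2.symm).resolve_left h6
        simpa [CD.cen, CD.rad, hρ] using h7
      | some i =>
        have h5 : ∀ θ : ℝ, Complex.exp (-(θ * Complex.I)) •
            F (D.R * Complex.exp (θ * Complex.I)) = 0 := fun θ => by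
          rw [hFother none _ (by simp) (hmemR θ), smul_zero]
        have h6 : ∀ i' ≠ i, (D.r i' / 2 : ℂ) • ∫ θ in (0 : ℝ)..2 * Real.pi,
            Complex.exp (-(θ * Complex.I)) •
              F (D.a i' + D.r i' * Complex.exp (θ * Complex.I)) = 0 := by
          intro i' hi'
          have : ∀ θ : ℝ, Complex.exp (-(θ * Complex.I)) •
              F (D.a i' + D.r i' * Complex.exp (θ * Complex.I)) = 0 := fun θ => by
            rw [hFother (some i') _ (fun e => hi' (Option.some.inj e)) (hmemj i' θ), smul_zero]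
          simp only [this, intervalIntegral.integral_zero, smul_zero]
        rw [Finset.sum_eq_single i (fun b _ hb => h6 b hb) (fun h => absurd (Finset.mem_univ i) h)]
          at h2
        simp only [h5, intervalIntegral.integral_zero, smul_zero, zero_sub] at h2
        have h8 : (D.r i / 2 : ℂ) ≠ 0 := by
          have := (D.rpos i).ne'
          simp [this]
        have h7 := (smul_eq_zero.1 (neg_eq_zero.1 h2.symm)).resolve_left h8
        simpa [CD.cen, CD.rad, hρ] using h7
    simp only [smul_eq_mul, hFl] at hzero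
    rw [intervalIntegral.integral_ofReal] at hzero
    have hzero' : ∫ θ in (0 : ℝ)..2 * Real.pi,
        ‖(σ (D.cen l + ρ * Complex.exp (θ * Complex.I)) : ℂ) - c‖ ^ 2 = 0 := by
      exact_mod_cast hzero
    have hcont : Continuous fun θ : ℝ =>
        ‖(σ (D.cen l + ρ * Complex.exp (θ * Complex.I)) : ℂ) - c‖ ^ 2 := by
      have h8 : Continuous fun θ : ℝ => (σ (D.cen l + ρ * Complex.exp (θ * Complex.I)) : ℂ) := by
        refine continuous_iff_continuousAt.2 fun θ => ?_
        have hmem : D.cen l + ρ * Complex.exp (θ * Complex.I) ∈ V := by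
          refine hcV ((mem_cU_iff D _).2 (Or.inr ⟨l, ?_⟩))
          rw [CD.circ, mem_sphere, dist_eq_norm, add_sub_cancel_left, norm_mul,
            Complex.norm_exp_ofReal_mul_I, mul_one, Complex.norm_real, Real.norm_of_nonneg hρpos.le]
        have h9 : ContinuousAt (fun z => (σ z : ℂ)) (D.cen l + ρ * Complex.exp (θ * Complex.I)) :=
          (hσc.continuousOn.continuousAt (hV.mem_nhds hmem))
        exact h9.comp (f := fun θ : ℝ => D.cen l + ρ * Complex.exp (θ * Complex.I))
          (by fun_prop)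
      fun_prop
    have h9 := D3b_circle hcont (fun _ => by positivity) hzero'
    obtain ⟨θ, hθ, hzθ⟩ := D3b_param (D.cen l) hρpos hz
    have h10 := h9 θ hθ
    rw [← hzθ] at h10
    have h11 : ‖(σ z : ℂ) - c‖ = 0 := by
      simpa using h10
    exact sub_eq_zero.1 (norm_eq_zero.1 h11)
  have hcre : ∀ l, ∀ z ∈ D.circ l, σ z = c.re := fun l z hz => by
    have := congrArg Complex.re (key l z hz)
    simpa using this
  refine ⟨c.re, fun z hz => ?_, fun l z hz => ?_⟩
  · have h1 := hcre none z hz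
    have h2 := (chi_zero_near D hτ (l := none) (l' := some j) (by simp) hz).self_of_nhds
    simp only [hσ, h2, sub_zero] at h1
    exact h1
  · have h1 := hcre (some l) z hz
    by_cases hl : l = j
    · subst hl
      have h2 := (chi_near D hτ.pos (some l) hz).self_of_nhds
      rw [if_pos rfl]
      simp only [hσ] at h1
      rw [h2] at h1
      linarith
    · have h2 := (chi_zero_near D hτ (l := some l) (l' := some j)
        (fun e => hl (Option.some.inj e)) hz).self_of_nhds
      rw [if_neg hl]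
      simp only [hσ, h2, sub_zero] at h1
      linarith

end

end Pool.Agent.Helper7.KE
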