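import Pool.Agent.Helper7.KE.D1
import Pool.Agent.Helper7.KE.D2
import Pool.Agent.Helper7.KE.D3a
import Pool.Agent.Helper7.KE.D3b
import Pool.Agent.Helper7.KE.C9
import Pool.Agent.Helper7.KE.A5b

set_option autoImplicit false

open MeasureTheory Set Filter Asymptotics Topology Metric
open scoped ComplexConjugate ENNReal

namespace Pool.Agent.Helper7.KE

section
variable {k : ℕ} (D : CD k) {τ : ℝ}

theorem D4_coef_congr (l : Option (Fin k)) (n : ℕ) {f g : ℂ → ℂ} (h : ∀ z ∈ D.U, f z = g z) :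
    D.coef τ l n f = D.coef τ l n g := by
  cases l with
  | none =>
    simp only [CD.coef]
    congr 1
    exact setIntegral_congr_fun D.U_open.measurableSet fun z hz => by rw [h z hz]
  | some j =>
    simp only [CD.coef]
    congr 1
    exact setIntegral_congr_fun D.U_open.measurableSet fun z hz => by rw [h z hz]

/-- the holomorphic gradients, extended across the boundary -/
theorem D4_grad (hτ : D.Good τ) : ∃ δ > 0, δ ≤ τ ∧ ∃ (g v : Fin k → ℂ → ℂ),
    (∀ b, DifferentiableOn ℂ (g b) (D.Ue δ)) ∧ (∀ j, DifferentiableOn ℂ (v j) (D.Ue δ)) ∧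
    (∀ j, D.Hol2 (v j)) ∧ (∀ j, ∀ z ∈ D.Ue δ, v j z = ∑ b, D.coef τ (some b) 0 (v j) * g b z) ∧
    ∀ j, ∀ ε > 0, ∃ ψ : ℂ → ℝ, IsTest D.U (fun z => (ψ z : ℂ)) ∧
      ∫ z in D.U, ‖v j z - dz (fun w => (D.chi τ (some j) w : ℂ)) z -
        dz (fun w => (ψ w : ℂ)) z‖ ^ 2 < ε := by
  obtain ⟨z₀, hz₀⟩ := U_nonempty D
  obtain ⟨δ, hδ, hδτ, ⟨ε, hε, -, C, g, -, hg1, -, -, -, hg2⟩, -⟩ := frames D hτ hz₀
  choose v hv hvψ using fun j => grad_proj D hτ j
  have h1 : (fun _ : Fin k => (1 : ℂ)) ∈ {t : Fin k → ℂ | ∀ j, ‖t j - 1‖ < ε} := fun j => by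
    simpa using hε
  set G : Fin k → ℂ → ℂ := fun b => g b (fun _ => 1) with hG
  have hGd : ∀ b, DifferentiableOn ℂ (G b) (D.Ue δ) := fun b => hg1 b _ h1
  have hUe : D.U ⊆ D.Ue δ := D.U_subset_cU.trans (D.cU_subset_Ue hδ)
  have hvG : ∀ j, ∀ z ∈ D.U, v j z = ∑ b, D.coef τ (some b) 0 (v j) * G b z := by
    intro j
    have hVV := (grad_orth D hτ j (hv j) (hvψ j)).2.2 z₀ hz₀
    have h2 := hg2 _ h1 (v j) (hv j) 0 le_rfl fun l m x => by
      have h3 : D.Lt τ (fun _ => 1) (v j) (D.comb z₀ l m x) = 0 := by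
        have hsub : D.Ue τ ⊆ c9cV D := by
          intro z hz
          refine mem_iInter.2 fun i h => ?_
          have h4 := hz.2 i
          rw [show z = D.a i from h, sub_self, norm_zero] at h4
          linarith [hτ.lt_r i]
        refine VV_ann D hτ hz₀ _ hVV hτ.pos ((c9c_comb_diff D z₀ l m x).mono hsub) ?_
        simp [CD.comb]
      rw [h3]
      simp
    rw [mul_zero] at h2
    have hd : DifferentiableOn ℂ (fun z => ∑ b, D.coef τ (some b) 0 (v j) * G b z) (D.Ue δ) :=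
      DifferentiableOn.fun_sum fun b _ => (hGd b).const_mul _
    have hH := hol2_of_nhds D (D.Ue_open δ) (D.cU_subset_Ue hδ) hd
    refine hol_unique D (hv j).diff hH.diff ?_
    have h5 : ∫ z in D.U, ‖v j z - ∑ b, D.coef τ (some b) 0 (v j) * G b z‖ ^ 2 = 0 := by
      have h6 := Real.sqrt_eq_zero'.1 (le_antisymm h2 (Real.sqrt_nonneg _))
      exact le_antisymm h6 (integral_nonneg fun z => by positivity)
    have hm : MemLp (fun z => v j z - ∑ b, D.coef τ (some b) 0 (v j) * G b z) 2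
        (volume.restrict D.U) := (hv j).memLp.sub hH.memLp
    have h7 : Integrable (fun z => ‖v j z - ∑ b, D.coef τ (some b) 0 (v j) * G b z‖ ^ 2)
        (volume.restrict D.U) := hm.integrable_norm_pow (by norm_num)
    have h8 := (integral_eq_zero_iff_of_nonneg (fun z => by positivity) h7).1 h5
    filter_upwards [h8] with z hz
    have h9 : ‖v j z - ∑ b, D.coef τ (some b) 0 (v j) * G b z‖ ^ 2 = 0 := hz
    exact sub_eq_zero.1 (norm_eq_zero.1 (pow_eq_zero_iff (two_ne_zero) |>.1 h9))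
  set v' : Fin k → ℂ → ℂ := fun j z => ∑ b, D.coef τ (some b) 0 (v j) * G b z with hv'
  have hcoef : ∀ j l n, D.coef τ l n (v' j) = D.coef τ l n (v j) := fun j l n =>
    (D4_coef_congr D l n (hvG j)).symm
  refine ⟨δ, hδ, hδτ, G, v', hGd, fun j => DifferentiableOn.fun_sum fun b _ =>
    (hGd b).const_mul _, fun j => ?_, fun j z _ => ?_, fun j η hη => ?_⟩
  · exact hol2_of_nhds D (D.Ue_open δ) (D.cU_subset_Ue hδ)
      (DifferentiableOn.fun_sum fun b _ => (hGd b).const_mul _)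
  · simp only [hcoef]
    rfl
  · obtain ⟨ψ, hψ, hψη⟩ := hvψ j η hη
    refine ⟨ψ, hψ, lt_of_eq_of_lt ?_ hψη⟩
    refine setIntegral_congr_fun D.U_open.measurableSet fun z hz => ?_
    rw [hvG j z hz]

theorem exists_HM (hτ : D.Good τ) : ∃ δ > 0, δ ≤ τ ∧ Nonempty (HM D τ δ) := by
  obtain ⟨δ, hδ, hδτ, g, v, hg, hv, hvH, hvg, hvψ⟩ := D4_grad D hτ
  refine ⟨δ, hδ, hδτ, ?_⟩
  have hV : IsOpen (D.Ue δ) := D.Ue_open δ
  have hcV : D.cU ⊆ D.Ue δ := D.cU_subset_Ue hδ
  -- residues
  choose res hres using fun j l => grad_res D hτ j (hvH j) (hvψ j) l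
  -- potentials
  choose om hom hdom using fun j => exists_potential D hτ hδ hδτ (hv j) fun l => ⟨res j l, hres j l⟩
  choose c hc0 hc1 using fun j => grad_boundary D hτ j hδ hδτ (hv j) (hvψ j) (hom j) (hdom j)
  set om' : Fin k → ℂ → ℝ := fun j z => om j z - c j with hom'
  have hsm : ∀ j, ContDiffOn ℝ (⊤ : ℕ∞) (om' j) (D.Ue δ) := fun j => (hom j).sub contDiffOn_const
  have hder : ∀ j, ∀ z ∈ D.Ue δ, dz (fun w => (om' j w : ℂ)) z = v j z := by
    intro j z hz
    rw [← hdom j z hz]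
    have h1 : DifferentiableAt ℝ (fun w => (om j w : ℂ)) z :=
      Complex.ofRealCLM.differentiableAt.comp z
        (((hom j).contDiffAt (hV.mem_nhds hz)).differentiableAt (by simp))
    have h2 := (dz_add h1 (differentiableAt_const (-(c j : ℂ)))).1
    rw [dz_const.1, add_zero] at h2
    rw [← h2]
    refine (dz_congr (Eventually.of_forall fun w => ?_)).1
    simp [hom', sub_eq_add_neg]
  have hb0 : ∀ j, ∀ z ∈ D.circ none, om' j z = 0 := fun j z hz => by
    simp only [hom', hc0 j z hz, sub_self]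
  have hb1 : ∀ j l, ∀ z ∈ D.circ (some l), om' j z = if l = j then 1 else 0 := fun j l z hz => by
    simp only [hom', hc1 j l z hz, add_sub_cancel_left]
  set Rm : Matrix (Fin k) (Fin k) ℝ := Matrix.of fun l j => D.r l * res j l with hRm
  refine ⟨⟨om', v, Rm, hsm, hv, hder, hb0, hb1, fun j => (grad_orth D hτ j (hvH j) (hvψ j)).1,
    fun l j => ?_, ?_, fun i j => grad_gram D hτ i j (hvH i) (hvH j) (hvψ i) (hvψ j),
    fun j => (grad_orth D hτ j (hvH j) (hvψ j)).2.1⟩⟩
  · rw [hres, hRm, Matrix.of_apply]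
    push_cast
    rfl
  · intro hdet
    obtain ⟨x, hx, hRx⟩ := Matrix.exists_mulVec_eq_zero_iff.2 hdet
    apply hx
    have h1 : ∀ l, ∑ j, res j l * x j = 0 := by
      intro l
      have h2 := congrFun hRx l
      simp only [Matrix.mulVec, dotProduct, hRm, Matrix.of_apply, Pi.zero_apply] at h2
      have h3 : D.r l * ∑ j, res j l * x j = 0 := by
        rw [Finset.mul_sum, ← h2]
        exact Finset.sum_congr rfl fun j _ => by ring
      exact (mul_eq_zero.1 h3).resolve_left (D.rpos l).ne'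
    -- the combination of the gradients vanishes
    have h2 : ∀ z ∈ D.Ue δ, ∑ j, (x j : ℂ) * v j z = 0 := by
      intro z hz
      have e1 : ∑ j, (x j : ℂ) * v j z = ∑ b, (∑ j, (res j b : ℂ) * x j) * g b z := by
        simp only [Finset.sum_mul]
        rw [Finset.sum_comm]
        refine Finset.sum_congr rfl fun j _ => ?_
        rw [hvg j z hz, Finset.mul_sum]
        refine Finset.sum_congr rfl fun b _ => ?_
        rw [hres]
        ring
      rw [e1]
      refine Finset.sum_eq_zero fun b _ => ?_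
      have : (∑ j, (res j b : ℂ) * x j) = ((∑ j, res j b * x j : ℝ) : ℂ) := by push_cast; rfl
      rw [this, h1 b]
      simp
    set ρ : ℂ → ℝ := fun z => ∑ j, x j * om' j z with hρ
    have hρs : ContDiffOn ℝ (⊤ : ℕ∞) ρ (D.Ue δ) :=
      ContDiffOn.sum fun j _ => contDiffOn_const.mul (hsm j)
    have hρd : ∀ z ∈ D.Ue δ, dz (fun w => (ρ w : ℂ)) z = 0 := by
      intro z hz
      have e0 : ∀ j, DifferentiableAt ℝ (fun w => (om' j w : ℂ)) z := fun j =>
        Complex.ofRealCLM.differentiableAt.comp z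
          (((hsm j).contDiffAt (hV.mem_nhds hz)).differentiableAt (by simp))
      have e1 : ∀ j ∈ Finset.univ, DifferentiableAt ℝ (fun w => (x j : ℂ) • (om' j w : ℂ)) z :=
        fun j _ => (e0 j).fun_const_smul (x j : ℂ)
      have e2 := (dz_sum Finset.univ e1).1
      have e3 : dz (fun w => (ρ w : ℂ)) z = dz (fun w => ∑ j, (x j : ℂ) • (om' j w : ℂ)) z := by
        refine (dz_congr (Eventually.of_forall fun w => ?_)).1
        simp [hρ]
      rw [e3, e2, ← h2 z hz]
      refine Finset.sum_congr rfl fun j _ => ?_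
      have e4 := (dz_smul (differentiableAt_const (x j : ℂ)) (e0 j)).1
      rw [dz_const.1, zero_smul, zero_add, hder j z hz] at e4
      exact e4
    have hfd : ∀ z ∈ D.Ue δ, fderiv ℝ (fun w => (ρ w : ℂ)) z = 0 := by
      intro z hz
      ext1 w
      have e1 : DifferentiableAt ℝ ρ z := (hρs.contDiffAt (hV.mem_nhds hz)).differentiableAt (by simp)
      rw [D3b_fderiv, dzb_ofReal e1, hρd z hz]
      simp
    have hpre : IsPreconnected (D.Ue δ) := by
      have h3 : ∀ j, δ < D.r j := fun j => lt_of_le_of_lt hδτ (hτ.lt_r j)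
      have h4 := U_preconnected (D.enl δ hδ.le h3)
      rwa [D.enl_U] at h4
    have hdiff : DifferentiableOn ℝ (fun w => (ρ w : ℂ)) (D.Ue δ) := fun z hz =>
      ((Complex.ofRealCLM.differentiableAt.comp z
        ((hρs.contDiffAt (hV.mem_nhds hz)).differentiableAt (by simp))).differentiableWithinAt :)
    have hconst : ∀ z ∈ D.Ue δ, ∀ w ∈ D.Ue δ, (ρ z : ℂ) = ρ w := fun z hz w hw =>
      hV.is_const_of_fderiv_eq_zero hpre hdiff (fun u hu => hfd u hu) hz hw
    -- points on the circles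
    have hpt : ∀ l, ∃ z ∈ D.circ l, z ∈ D.Ue δ := by
      intro l
      have hr : 0 ≤ D.rad l := by
        cases l with
        | none => exact D.Rpos.le
        | some i => exact (D.rpos i).le
      obtain ⟨z, hz⟩ := (NormedSpace.sphere_nonempty (x := D.cen l)).2 hr
      exact ⟨z, hz, hcV ((mem_cU_iff D z).2 (Or.inr ⟨l, hz⟩))⟩
    obtain ⟨z₁, hz₁, hz₁'⟩ := hpt none
    funext l
    obtain ⟨z₂, hz₂, hz₂'⟩ := hpt (some l)
    have h5 := hconst z₂ hz₂' z₁ hz₁'
    have h6 : ρ z₂ = ρ z₁ := by exact_mod_cast h5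
    simp only [hρ, hb0 _ z₁ hz₁, hb1 _ l z₂ hz₂, mul_zero, Finset.sum_const_zero, mul_ite, mul_one,
      Finset.sum_ite_eq, Finset.mem_univ, if_true] at h6
    exact h6

end

end Pool.Agent.Helper7.KE
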