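import Pool.Agent.Helper7.KE.C5c
import Pool.Agent.Helper7.KE.D5a
import Pool.Agent.Helper7.KE.A5b

set_option autoImplicit false

open MeasureTheory Set Filter Asymptotics Topology Metric
open scoped ComplexConjugate ENNReal

namespace Pool.Agent.Helper7.KE

section
variable {k : ℕ} {D : CD k} {τ δ : ℝ}

theorem D6_E_diff (D : CD k) {V : Set ℂ} (hV : ∀ z ∈ V, ∀ j, z ≠ D.a j)
    (j : Fin k) (n : ℕ) : DifferentiableOn ℂ (D.E (some j) n) V := by
  intro z hz
  simp only [CD.E]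
  have : z - D.a j ≠ 0 := sub_ne_zero.2 (hV z hz j)
  have h1 : DifferentiableAt ℂ (fun z => (D.r j : ℂ) / (z - D.a j)) z := by
    have h2 : DifferentiableAt ℂ (fun z => z - D.a j) z := by fun_prop
    exact (differentiableAt_const (D.r j : ℂ)).fun_div h2 this
  exact (h1.pow _).differentiableWithinAt

theorem D6_coef_sum (hτ : D.Good τ) (l : Option (Fin k)) (n : ℕ) {g : ℂ → ℂ}
    (hg : DifferentiableOn ℂ g D.U) {ι : Type*} (s : Finset ι) (c : ι → ℂ) (g' : ι → ℂ → ℂ)
    (hg' : ∀ i, DifferentiableOn ℂ (g' i) D.U) :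
    D.coef τ l n (fun z => g z + ∑ i ∈ s, c i * g' i z) =
      D.coef τ l n g + ∑ i ∈ s, c i * D.coef τ l n (g' i) := by
  classical
  induction s using Finset.induction_on with
  | empty => simp
  | insert i s hi ih =>
    have hd : DifferentiableOn ℂ (fun z => g z + ∑ i ∈ s, c i * g' i z) D.U :=
      hg.add (DifferentiableOn.fun_sum fun i _ => (hg' i).const_mul (c i))
    have := coef_linear D l n hτ hd (hg' i) (c i)
    rw [Finset.sum_insert hi, ← add_assoc, add_right_comm, ← ih, ← this]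
    congr 1
    ext z
    rw [Finset.sum_insert hi]; ring

theorem D6_fderiv_zero {u : ℂ → ℝ} {z : ℂ} (hu : DifferentiableAt ℝ u z)
    (h : dz (fun w => (u w : ℂ)) z = 0) : fderiv ℝ u z = 0 := by
  have h1 : ∀ v, fderiv ℝ (fun w => (u w : ℂ)) z v = (fderiv ℝ u z v : ℝ) := by
    intro v
    have := (Complex.ofRealCLM.hasFDerivAt.comp z hu.hasFDerivAt).fderiv
    have h2 : fderiv ℝ (fun w => (u w : ℂ)) z = Complex.ofRealCLM.comp (fderiv ℝ u z) := this
    rw [h2]; rfl
  unfold dz at h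
  rw [h1, h1, smul_eq_mul, smul_eq_mul, mul_eq_zero] at h
  have h3 := h.resolve_left (by norm_num)
  have h4 : fderiv ℝ u z 1 = 0 := by
    have := congrArg Complex.re h3
    simpa using this
  have h5 : fderiv ℝ u z Complex.I = 0 := by
    have := congrArg Complex.im h3
    simpa using this
  ext v
  have : v = v.re • (1 : ℂ) + v.im • Complex.I := by
    simp [Complex.re_add_im]
  rw [this, map_add, map_smul, map_smul, h4, h5]
  simp

theorem D6_dz_log {a z : ℂ} (hz : z ≠ a) :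
    DifferentiableAt ℝ (fun w => Real.log (‖w - a‖ ^ 2)) z ∧
    dz (fun w => (Real.log (‖w - a‖ ^ 2) : ℂ)) z = 1 / (z - a) := by
  have hne : z - a ≠ 0 := sub_ne_zero.2 hz
  have hd0 : DifferentiableAt ℝ (fun w : ℂ => ‖w - a‖ ^ 2) z := by
    have : DifferentiableAt ℝ (fun w : ℂ => w - a) z := by fun_prop
    exact this.norm_sq ℝ
  have hne2 : ‖z - a‖ ^ 2 ≠ 0 := pow_ne_zero _ (norm_ne_zero_iff.2 hne)
  refine ⟨hd0.log hne2, ?_⟩
  have h1 := (dz_comp_real (ρ := fun w : ℂ => ‖w - a‖ ^ 2) (G := Real.log) hd0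
    (Real.hasDerivAt_log hne2)).1
  rw [h1]
  have hd1 : DifferentiableAt ℂ (fun w : ℂ => w - a) z := by fun_prop
  have h2 : (fun w : ℂ => ((‖w - a‖ ^ 2 : ℝ) : ℂ)) = fun w => (w - a) • conj (w - a) := by
    ext w
    rw [smul_eq_mul, Complex.mul_conj, Complex.normSq_eq_norm_sq]
  have h3 := (dz_smul (f := fun w : ℂ => w - a) (F := fun w => conj (w - a)) (z := z)
    (hd1.restrictScalars ℝ)
    ((Complex.conjCLE : ℂ →L[ℝ] ℂ).differentiableAt.comp z (hd1.restrictScalars ℝ))).1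
  rw [h2, h3, (dz_hol hd1).1, (dz_conj_hol hd1).1]
  have h4 : deriv (fun w : ℂ => w - a) z = 1 := by
    rw [deriv_sub_const]; exact deriv_id z
  have h5 : (‖z - a‖ ^ 2 : ℂ) = (z - a) * conj (z - a) := by
    rw [Complex.mul_conj, Complex.normSq_eq_norm_sq]; push_cast; rfl
  have h6 : conj (z - a) ≠ 0 := by rw [Ne, map_eq_zero]; exact hne
  rw [h4]
  simp only [smul_eq_mul, one_mul, mul_zero, add_zero]
  push_cast
  rw [h5]
  field_simp

theorem exists_phi (h : HM D τ δ) (hτ : D.Good τ) (hδ : 0 < δ) (hδτ : δ ≤ τ) {x : Fin k → ℝ}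
    (hx : ∀ l, ∃ n : ℤ, h.Rm.mulVec x l = n) :
    ∃ φ : ℂ → ℂ, DifferentiableOn ℂ φ (D.Ue δ) ∧ (∀ z ∈ D.Ue δ, φ z ≠ 0) ∧
      ∀ z ∈ D.Ue δ, ‖φ z‖ ^ 2 = Real.exp (h.rho x z) := by
  choose n hn using hx
  have hcU := D.cU_subset_Ue hδ
  have hUV : D.U ⊆ D.Ue δ := D.U_subset_cU.trans hcU
  have hVo := D.Ue_open δ
  have ha : ∀ z ∈ D.Ue δ, ∀ j, z ≠ D.a j := by
    intro z hz j he
    have h1 := hz.2 j
    rw [he, sub_self, norm_zero] at h1
    have := hτ.lt_r j
    linarith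
  have hr : ∀ j, δ < D.r j := fun j => lt_of_le_of_lt hδτ (hτ.lt_r j)
  have hpre : IsPreconnected (D.Ue δ) := by
    rw [← D.enl_U δ hδ.le hr]
    exact U_preconnected _
  obtain ⟨hrs, -, hvv, hdz, -, -, -⟩ := rho_facts h hτ hδ x 0
  have hr0 : ∀ l, (D.r l : ℂ) ≠ 0 := fun l => Complex.ofReal_ne_zero.2 (D.rpos l).ne'
  -- the reduced function
  set v' : ℂ → ℂ := fun z => h.vv x z + ∑ l, (-(n l : ℂ) / D.r l) * D.E (some l) 0 z with hv'
  have hv'd : DifferentiableOn ℂ v' (D.Ue δ) :=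
    hvv.add (DifferentiableOn.fun_sum fun l _ => (D6_E_diff D ha l 0).const_mul _)
  have hcoefvv : ∀ l, D.coef τ (some l) 0 (h.vv x) = (n l : ℂ) / D.r l := by
    intro l
    have h1 : h.vv x = fun z => (fun _ => (0 : ℂ)) z + ∑ j ∈ Finset.univ, (x j : ℂ) * h.v j z := by
      ext z; simp [HM.vv]
    have h2 : D.coef τ (some l) 0 (fun _ => (0 : ℂ)) = 0 := by simp [CD.coef]
    rw [h1, D6_coef_sum hτ _ _ (differentiableOn_const 0) _ _ _
      (fun j => (h.hol j).mono hUV), h2, zero_add, eq_div_iff (hr0 l)]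
    have h3 := congrArg (fun r : ℝ => (r : ℂ)) (hn l)
    simp only [Matrix.mulVec, dotProduct] at h3
    push_cast at h3
    rw [← h3, Finset.sum_mul]
    refine Finset.sum_congr rfl fun j _ => ?_
    rw [← h.res l j]; ring
  have h0 : ∀ j, D.coef τ (some j) 0 v' = 0 := by
    intro j
    rw [hv', D6_coef_sum hτ _ _ (hvv.mono hUV) _ _ _
      (fun l => (D6_E_diff D ha l 0).mono hUV), hcoefvv]
    simp_rw [coef_E D hτ]
    simp only [Option.some.injEq, and_true, mul_ite, mul_one, mul_zero]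
    rw [Finset.sum_ite_eq Finset.univ j]
    simp only [Finset.mem_univ, if_true]
    ring
  obtain ⟨F, hF⟩ := exists_primitive D hτ hδ hδτ hv'd h0
  -- the constant
  set u : ℂ → ℝ := fun z => h.rho x z - (2 * (F z).re + ∑ l, (n l : ℝ) * Real.log (‖z - D.a l‖ ^ 2))
    with hu
  have hrd : ∀ z ∈ D.Ue δ, DifferentiableAt ℝ (h.rho x) z := fun z hz =>
    (hrs.differentiableOn (by simp)).differentiableAt (hVo.mem_nhds hz)
  have hFre : ∀ z ∈ D.Ue δ, DifferentiableAt ℝ (fun w => (F w).re) z := fun z hz =>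
    Complex.reCLM.differentiableAt.comp z ((hF z hz).differentiableAt.restrictScalars ℝ)
  have hud : ∀ z ∈ D.Ue δ, DifferentiableAt ℝ u z := by
    intro z hz
    refine (hrd z hz).sub (((hFre z hz).const_mul 2).add ?_)
    exact DifferentiableAt.fun_sum fun l _ => ((D6_dz_log (ha z hz l)).1).const_mul _
  have hofR : ∀ {ρ : ℂ → ℝ} {z : ℂ}, DifferentiableAt ℝ ρ z →
      DifferentiableAt ℝ (fun w => (ρ w : ℂ)) z := fun hρ =>
    Complex.ofRealCLM.differentiableAt.comp _ hρ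
  have hudz : ∀ z ∈ D.Ue δ, dz (fun w => (u w : ℂ)) z = 0 := by
    intro z hz
    have e1 : (fun w => (u w : ℂ)) = fun w => (h.rho x w : ℂ) + (((-2 : ℂ) • ((F w).re : ℂ)) +
        ∑ l, (-(n l : ℂ)) • (Real.log (‖w - D.a l‖ ^ 2) : ℂ)) := by
      ext w
      simp only [hu, smul_eq_mul]
      push_cast
      simp only [neg_mul, Finset.sum_neg_distrib]
      ring
    have d1 : DifferentiableAt ℝ (fun w => ((-2 : ℂ) • ((F w).re : ℂ))) z :=
      (hofR (hFre z hz)).fun_const_smul _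
    have d2 : ∀ l, DifferentiableAt ℝ
        (fun w => (-(n l : ℂ)) • (Real.log (‖w - D.a l‖ ^ 2) : ℂ)) z := fun l =>
      (hofR (D6_dz_log (ha z hz l)).1).fun_const_smul _
    have c1 : ∀ (c : ℂ) {G : ℂ → ℂ}, DifferentiableAt ℝ G z →
        dz (fun w => c • G w) z = c • dz G z := by
      intro c G hG
      have := (dz_smul (f := fun _ => c) (F := G) (z := z) (differentiableAt_const c) hG).1
      rw [this, (dz_const).1, zero_smul, zero_add]
    rw [e1, (dz_add (hofR (hrd z hz)) (d1.fun_add (DifferentiableAt.fun_sum fun l _ => d2 l))).1,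
      (dz_add d1 (DifferentiableAt.fun_sum fun l _ => d2 l)).1, (dz_sum _ fun l _ => d2 l).1,
      c1 _ (hofR (hFre z hz)), dz_re (hF z hz).differentiableAt, (hF z hz).deriv, hdz z hz]
    have h2 : ∀ l, dz (fun w => (-(n l : ℂ)) • (Real.log (‖w - D.a l‖ ^ 2) : ℂ)) z
        = -(n l : ℂ) * (1 / (z - D.a l)) := by
      intro l
      rw [c1 _ (hofR (D6_dz_log (ha z hz l)).1), (D6_dz_log (ha z hz l)).2, smul_eq_mul]
    simp_rw [h2]
    have h3 : ∑ l, (-(n l : ℂ) / D.r l) * D.E (some l) 0 z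
        = ∑ l, -(n l : ℂ) * (1 / (z - D.a l)) := by
      refine Finset.sum_congr rfl fun l _ => ?_
      have : z - D.a l ≠ 0 := sub_ne_zero.2 (ha z hz l)
      have := hr0 l
      simp only [CD.E, zero_add, pow_one]
      field_simp
    simp only [hv', smul_eq_mul]
    rw [h3]
    ring
  obtain ⟨z₁, hz₁⟩ := U_nonempty D
  have hz₁V := hUV hz₁
  have hconst : ∀ z ∈ D.Ue δ, u z = u z₁ := fun z hz =>
    hVo.is_const_of_fderiv_eq_zero hpre (fun w hw => (hud w hw).differentiableWithinAt)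
      (fun w hw => D6_fderiv_zero (hud w hw) (hudz w hw)) hz hz₁V
  refine ⟨fun z => (Real.exp (u z₁ / 2) : ℂ) * Complex.exp (F z) * ∏ l, (z - D.a l) ^ (n l),
    ?_, ?_, ?_⟩
  · intro z hz
    have h1 : DifferentiableAt ℂ (fun z => ∏ l, (z - D.a l) ^ (n l)) z := by
      apply DifferentiableAt.fun_finsetProd
      intro l _
      have h2 : DifferentiableAt ℂ (fun z => z - D.a l) z := by fun_prop
      exact h2.zpow (Or.inl (sub_ne_zero.2 (ha z hz l)))
    exact (((hF z hz).differentiableAt.cexp.const_mul _).mul h1).differentiableWithinAt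
  · intro z hz
    refine mul_ne_zero (mul_ne_zero ?_ (Complex.exp_ne_zero _)) ?_
    · exact Complex.ofReal_ne_zero.2 (Real.exp_ne_zero _)
    · exact Finset.prod_ne_zero_iff.2 fun l _ => zpow_ne_zero _ (sub_ne_zero.2 (ha z hz l))
  · intro z hz
    have h1 : h.rho x z = u z₁ + 2 * (F z).re + ∑ l, (n l : ℝ) * Real.log (‖z - D.a l‖ ^ 2) := by
      rw [← hconst z hz, hu]; ring
    rw [h1, Real.exp_add, Real.exp_add, Real.exp_sum, norm_mul, norm_mul, norm_prod, mul_pow,
      mul_pow, Complex.norm_real, Complex.norm_exp, ← Finset.prod_pow, Real.norm_eq_abs,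
      abs_of_pos (Real.exp_pos _), ← Real.exp_nat_mul, ← Real.exp_nat_mul]
    congr 1
    · congr 1
      congr 1
      push_cast; ring
    · refine Finset.prod_congr rfl fun l _ => ?_
      have h2 : 0 < ‖z - D.a l‖ := norm_pos_iff.2 (sub_ne_zero.2 (ha z hz l))
      rw [norm_zpow, ← zpow_natCast, ← zpow_mul, mul_comm (n l : ℤ), zpow_mul, zpow_natCast,
        mul_comm (n l : ℝ), Real.exp_mul, Real.exp_log (by positivity), Real.rpow_intCast]

end

end Pool.Agent.Helper7.KE
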