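import Pool.Agent.Helper7.KE.D5b
import Pool.Agent.Helper7.KE.A5a

set_option autoImplicit false

open MeasureTheory Set Filter Asymptotics Topology Metric
open scoped ComplexConjugate ENNReal

namespace Pool.Agent.Helper7.KE

/-- transport of a phase system along an equivalence of index types -/
noncomputable def PS.transport {k : ℕ} {D : CD k} {ρ : ℂ → ℝ} {ι ι' : Type} [Fintype ι]
    [DecidableEq ι] [Fintype ι'] [DecidableEq ι'] (ps : PS D ρ ι) (e : ι ≃ ι') : PS D ρ ι' where
  chi i := ps.chi (e.symm i)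
  c i := ps.c (e.symm i)
  bd l := e (ps.bd l)
  bd_inj := e.injective.comp ps.bd_inj
  smooth i := ps.smooth _
  nonneg i := ps.nonneg _
  le_one i := ps.le_one _
  disj i j h := ps.disj _ _ (fun h' => h (e.symm.injective h'))
  bd_near l z hz := by simpa using ps.bd_near l z hz
  crit_near z hz h := by
    obtain ⟨i, hi⟩ := ps.crit_near z hz h
    exact ⟨e i, by simpa using hi⟩
  val_circ l z hz := by simpa using ps.val_circ l z hz
  val_crit i z hz h := ps.val_crit _ z hz h
  only_circ i l h := by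
    have := ps.only_circ _ l h
    rw [← this, e.apply_symm_apply]

section
variable {k : ℕ} {D : CD k} {τ δ : ℝ}

theorem exists_thin (D : CD k) (Z : Finset ℂ) (hZ : ∀ p ∈ Z, p ∈ D.U) :
    ∃ τ', D.Good τ' ∧ ∀ p ∈ Z, ∀ l, p ∉ tsupport (D.chi τ' l) := by
  have h1 : ∀ᶠ τ : ℝ in 𝓝[>] 0, D.Good τ := by
    have hlt : ∀ c : ℝ, 0 < c → ∀ᶠ τ : ℝ in 𝓝[>] 0, 2 * τ < c := by
      intro c hc
      apply mem_nhdsWithin_of_mem_nhds
      have : Continuous fun τ : ℝ => 2 * τ := by fun_prop
      exact (this.tendsto 0).eventually (Iio_mem_nhds (by simpa using hc))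
    obtain ⟨τ₀, h0⟩ := exists_good D
    filter_upwards [self_mem_nhdsWithin, hlt τ₀ h0.pos] with τ hτ hτ'
    have hτ0 : 0 < τ := hτ
    exact ⟨hτ0, fun j => by have := h0.lt_r j; linarith, by have := h0.lt_R; linarith,
      fun j => by have := h0.inside j; linarith, fun i j hij => by have := h0.disj i j hij; linarith⟩
  have h2 : ∀ᶠ τ : ℝ in 𝓝[>] 0, ∀ p ∈ Z, ‖p‖ < D.R - τ ∧ ∀ j, D.r j + τ < ‖p - D.a j‖ := by
    have hlt : ∀ c : ℝ, 0 < c → ∀ᶠ τ : ℝ in 𝓝[>] 0, τ < c := fun c hc =>
      mem_nhdsWithin_of_mem_nhds (Iio_mem_nhds hc)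
    rw [Filter.eventually_all_finset]
    intro p hp
    have hpU := hZ p hp
    refine Filter.Eventually.and ?_ ?_
    · filter_upwards [hlt (D.R - ‖p‖) (by have := hpU.1; linarith)] with τ h; linarith
    · rw [eventually_all]
      intro j
      filter_upwards [hlt (‖p - D.a j‖ - D.r j) (by have := hpU.2 j; linarith)] with τ h; linarith
  obtain ⟨τ', hg, hz⟩ := (h1.and h2).exists
  refine ⟨τ', hg, fun p hp l hmem => ?_⟩
  have hpos := hg.pos
  obtain ⟨ha, hb⟩ := hz p hp
  cases l with
  | none =>
    have h3 : tsupport (D.chi τ' none) ⊆ {z | D.R - 2 * τ' / 3 ≤ ‖z‖} := by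
      apply closure_minimal _ (isClosed_le continuous_const continuous_norm)
      intro z hz
      by_contra h
      apply hz
      simp only [mem_ofPred_eq, not_le] at h
      simp only [CD.chi]
      apply Real.smoothTransition.zero_of_nonpos
      have : 2 ≤ 3 * (D.R - ‖z‖) / τ' := by
        rw [le_div_iff₀ hpos]; linarith
      linarith
    have := h3 hmem
    simp only [mem_ofPred_eq] at this
    linarith
  | some j =>
    have := (chi_tsupport D hpos j).1 hmem
    rw [mem_closedBall, dist_eq_norm] at this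
    have := hb j
    linarith

theorem exists_radius (D : CD k) (Z : Finset ℂ) (K : Set ℂ) (hK : IsClosed K)
    (hZ : ∀ p ∈ Z, p ∈ D.U) (hZK : ∀ p ∈ Z, p ∉ K) :
    ∃ ε > 0, (∀ p ∈ Z, closedBall p ε ⊆ D.U) ∧ (∀ p ∈ Z, Disjoint (closedBall p ε) K) ∧
      ∀ p ∈ Z, ∀ q ∈ Z, p ≠ q → Disjoint (closedBall p ε) (closedBall q ε) := by
  have h1 : ∀ᶠ ε : ℝ in 𝓝[>] 0, ∀ p ∈ Z, closedBall p ε ⊆ D.U ∩ Kᶜ := by
    rw [Filter.eventually_all_finset]
    intro p hp
    obtain ⟨ε, hε, hball⟩ := Metric.isOpen_iff.1 (D.U_open.inter hK.isOpen_compl) p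
      ⟨hZ p hp, hZK p hp⟩
    filter_upwards [mem_nhdsWithin_of_mem_nhds (Iio_mem_nhds hε)] with ε' hε'
    exact (closedBall_subset_ball hε').trans hball
  have h2 : ∀ᶠ ε : ℝ in 𝓝[>] 0, ∀ p ∈ Z, ∀ q ∈ Z, p ≠ q → ε + ε < dist p q := by
    rw [Filter.eventually_all_finset]
    intro p hp
    rw [Filter.eventually_all_finset]
    intro q hq
    by_cases hpq : p = q
    · exact Eventually.of_forall fun _ h => absurd hpq h
    · filter_upwards [mem_nhdsWithin_of_mem_nhds
        (Iio_mem_nhds (show (0 : ℝ) < dist p q / 2 by have := dist_pos.2 hpq; linarith))] with ε hε _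
      have : ε < dist p q / 2 := hε
      linarith
  obtain ⟨ε, ⟨ha, hb⟩, hε⟩ := ((h1.and h2).and self_mem_nhdsWithin).exists
  refine ⟨ε, hε, fun p hp => (ha p hp).trans inter_subset_left, fun p hp => ?_,
    fun p hp q hq hpq => closedBall_disjoint_closedBall (hb p hp q hq hpq)⟩
  exact Set.disjoint_left.2 fun z hz hzK => (ha p hp hz).2 hzK

theorem exists_PS (h : HM D τ δ) (hτ : D.Good τ) (hδ : 0 < δ) (hδτ : δ ≤ τ) {x : Fin k → ℝ}
    (hx : x ≠ 0) : ∃ n : ℕ, Nonempty (PS D (h.rho x) (Fin n)) := by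
  classical
  obtain ⟨hfin, -⟩ := vv_zeros h hτ hδ hδτ hx
  obtain ⟨-, -, -, hdz, -, -, hn, hs⟩ := rho_facts h hτ hδ x 0
  have hcU := D.cU_subset_Ue hδ
  set Z : Finset ℂ := hfin.toFinset.filter fun z => z ∈ D.U with hZdef
  have hZ : ∀ p ∈ Z, p ∈ D.U := fun p hp => (Finset.mem_filter.1 hp).2
  have hmemZ : ∀ z ∈ D.U, dz (fun w => (h.rho x w : ℂ)) z = 0 → z ∈ Z := by
    intro z hz h0
    rw [hdz z (hcU (D.U_subset_cU hz))] at h0
    exact Finset.mem_filter.2 ⟨hfin.mem_toFinset.2 ⟨D.U_subset_cU hz, h0⟩, hz⟩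
  obtain ⟨τ', hg, hthin⟩ := exists_thin D Z hZ
  set K : Set ℂ := ⋃ l, tsupport (D.chi τ' l) with hKdef
  have hK : IsClosed K := isClosed_iUnion_of_finite fun l => isClosed_tsupport _
  have hZK : ∀ p ∈ Z, p ∉ K := by
    intro p hp hpK
    obtain ⟨l, hl⟩ := mem_iUnion.1 hpK
    exact hthin p hp l hl
  obtain ⟨ε, hε, hεU, hεK, hεd⟩ := exists_radius D Z K hK hZ hZK
  let bump : (p : ℂ) → ContDiffBump p := fun p => ⟨ε / 2, ε, by linarith, by linarith⟩
  have hcirc_notU : ∀ l, ∀ z ∈ D.circ l, z ∉ D.U := by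
    intro l z hz hzU
    cases l with
    | none =>
      have : ‖z‖ = D.R := by simpa [CD.circ, CD.cen, CD.rad] using hz
      have := hzU.1
      linarith
    | some j =>
      have : ‖z - D.a j‖ = D.r j := by simpa [CD.circ, CD.cen, CD.rad, dist_eq_norm] using hz
      have := hzU.2 j
      linarith
  have hval : ∀ l : Option (Fin k), ∀ z ∈ D.circ l, h.rho x z = l.elim 0 x := by
    intro l z hz
    cases l with
    | none => exact (hn z hz).1
    | some j => exact (hs j z hz).1
  let ps : PS D (h.rho x) (Option (Fin k) ⊕ Z) :=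
    { chi := Sum.elim (fun l => D.chi τ' l) (fun p => (bump p.1 : ℂ → ℝ))
      c := Sum.elim (fun l => l.elim 0 x) (fun p => h.rho x p.1)
      bd := Sum.inl
      bd_inj := Sum.inl_injective
      smooth := by
        rintro (l | p)
        · exact chi_smooth D hg.pos hg.lt_R l
        · exact (bump p.1).contDiff
      nonneg := by
        rintro (l | p) z
        · exact (chi_mem D l z).1
        · exact (bump p.1).nonneg
      le_one := by
        rintro (l | p) z
        · exact (chi_mem D l z).2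
        · exact (bump p.1).le_one
      disj := by
        rintro (l | p) (l' | q) hne
        · exact chi_disj D hg fun e => hne (by rw [e])
        · simp only [Sum.elim_inl, Sum.elim_inr]
          rw [(bump q.1).tsupport_eq]
          exact (hεK q.1 q.2).symm.mono_left (subset_iUnion (fun l => tsupport (D.chi τ' l)) l)
        · simp only [Sum.elim_inl, Sum.elim_inr]
          rw [(bump p.1).tsupport_eq]
          exact (hεK p.1 p.2).mono_right (subset_iUnion (fun l => tsupport (D.chi τ' l)) l')
        · simp only [Sum.elim_inr]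
          rw [(bump p.1).tsupport_eq, (bump q.1).tsupport_eq]
          exact hεd p.1 p.2 q.1 q.2 fun e => hne (by rw [Subtype.ext e])
      bd_near := fun l z hz => chi_near D hg.pos l hz
      crit_near := by
        intro z hz h0
        rcases (mem_cU_iff D z).1 hz with hzU | ⟨l, hl⟩
        · refine ⟨Sum.inr ⟨z, hmemZ z hzU h0⟩, ?_⟩
          exact (bump z).eventuallyEq_one
        · exact ⟨Sum.inl l, chi_near D hg.pos l hl⟩
      val_circ := hval
      val_crit := by
        rintro (l | p) z ⟨hz, hzc⟩ h0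
        · rcases (mem_cU_iff D z).1 hzc with hzU | ⟨l', hl'⟩
          · exact absurd hz (hthin z (hmemZ z hzU h0) l)
          · have : l = l' := by
              by_contra hne
              exact Set.disjoint_left.1 (chi_disj D hg hne) hz
                (circ_subset_tsupport D hg.pos l' hl')
            rw [this]
            exact hval l' z hl'
        · simp only [Sum.elim_inr] at hz ⊢
          rw [(bump p.1).tsupport_eq] at hz
          have hzU : z ∈ D.U := hεU p.1 p.2 hz
          have hzZ := hmemZ z hzU h0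
          have : z = p.1 := by
            by_contra hne
            exact Set.disjoint_left.1 (hεd z hzZ p.1 p.2 hne)
              (mem_closedBall_self hε.le) hz
          rw [this]
      only_circ := by
        rintro (l | p) l' ⟨z, hz, hzl⟩
        · have : l = l' := by
            by_contra hne
            exact Set.disjoint_left.1 (chi_disj D hg hne) hz
              (circ_subset_tsupport D hg.pos l' hzl)
          rw [this]
        · simp only [Sum.elim_inr] at hz
          rw [(bump p.1).tsupport_eq] at hz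
          exact absurd (hεU p.1 p.2 hz) (hcirc_notU l' z hzl) }
  exact ⟨Fintype.card (Option (Fin k) ⊕ Z), ⟨ps.transport (Fintype.equivFin _)⟩⟩

end

end Pool.Agent.Helper7.KE
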