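import Mathlib

/-!
# Definitions for MP_f940ca_an (eigenvalues of `conj h * T`, full answer)

Wirtinger derivatives, circle domains `CD k`, the Bergman space, multiplication operators,
Laurent test functions, asymptotic scales, phase systems, virtual forms.
-/

set_option autoImplicit false

open MeasureTheory Set Filter Asymptotics Topology Metric
open scoped ComplexConjugate ENNReal

namespace Pool.Agent.Helper7.KE

/-! ### Wirtinger derivatives -/

section wirtinger

variable {Y : Type*} [NormedAddCommGroup Y] [NormedSpace ℂ Y]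

/-- `∂/∂z` -/
noncomputable def dz (F : ℂ → Y) (z : ℂ) : Y :=
  (2⁻¹ : ℂ) • (fderiv ℝ F z 1 - Complex.I • fderiv ℝ F z Complex.I)

/-- `∂/∂z̄` -/
noncomputable def dzb (F : ℂ → Y) (z : ℂ) : Y :=
  (2⁻¹ : ℂ) • (fderiv ℝ F z 1 + Complex.I • fderiv ℝ F z Complex.I)

/-- `F` is smooth on the whole plane with compact support contained in `V`. -/
structure IsTest (V : Set ℂ) (F : ℂ → Y) : Prop where
  smooth : ContDiff ℝ (⊤ : ℕ∞) F
  compact : HasCompactSupport F
  supp : tsupport F ⊆ V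

end wirtinger

/-! ### Circle domains -/

/-- A circle domain: the disc of radius `R` about `0` minus `k` disjoint closed discs. -/
structure CD (k : ℕ) where
  R : ℝ
  a : Fin k → ℂ
  r : Fin k → ℝ
  Rpos : 0 < R
  rpos : ∀ j, 0 < r j
  inside : ∀ j, ‖a j‖ + r j < R
  disj : ∀ i j, i ≠ j → r i + r j < ‖a i - a j‖

namespace CD

variable {k : ℕ} (D : CD k)

/-- the (open) domain -/
def U : Set ℂ := {z | ‖z‖ < D.R ∧ ∀ j, D.r j < ‖z - D.a j‖}

/-- its closure -/
def cU : Set ℂ := {z | ‖z‖ ≤ D.R ∧ ∀ j, D.r j ≤ ‖z - D.a j‖}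

/-- the domain enlarged by `δ` -/
def Ue (δ : ℝ) : Set ℂ := {z | ‖z‖ < D.R + δ ∧ ∀ j, D.r j - δ < ‖z - D.a j‖}

/-- centres of the boundary circles; `none` is the outer circle -/
def cen : Option (Fin k) → ℂ
  | none => 0
  | some j => D.a j

/-- radii of the boundary circles -/
def rad : Option (Fin k) → ℝ
  | none => D.R
  | some j => D.r j

/-- the boundary circles -/
def circ (l : Option (Fin k)) : Set ℂ := sphere (D.cen l) (D.rad l)

/-- `τ` is a good collar width -/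
structure Good (τ : ℝ) : Prop where
  pos : 0 < τ
  lt_r : ∀ j, τ < D.r j
  lt_R : τ < D.R
  inside : ∀ j, ‖D.a j‖ + D.r j + 2 * τ < D.R
  disj : ∀ i j, i ≠ j → D.r i + D.r j + 2 * τ < ‖D.a i - D.a j‖

/-- radial cutoff functions near the boundary circles: `chi τ l` is `1` at distance `≤ τ/3` from the
circle `l` (and beyond the circle), and `0` inside the domain at distance `≥ 2τ/3` from it. -/
noncomputable def chi (τ : ℝ) : Option (Fin k) → ℂ → ℝ
  | none => fun z => Real.smoothTransition (2 - 3 * (D.R - ‖z‖) / τ)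
  | some j => fun z => Real.smoothTransition (2 - 3 * (‖z - D.a j‖ - D.r j) / τ)

/-- the function `X_t = 1 + Σ (t_j - 1) χ_j`: equal to `t_j` near the circle `j`, `1` near the
outer circle -/
noncomputable def X (τ : ℝ) (t : Fin k → ℂ) (z : ℂ) : ℂ :=
  1 + ∑ j, (t j - 1) * (D.chi τ (some j) z : ℂ)

/-- Laurent basis functions -/
noncomputable def E : Option (Fin k) → ℕ → ℂ → ℂ
  | none, n => fun z => (z / D.R) ^ n
  | some j, n => fun z => (D.r j / (z - D.a j)) ^ (n + 1)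

/-- Laurent test functions (nonconstant part of the basis of the holomorphic functions) -/
noncomputable def A : Option (Fin k) → ℕ → ℂ → ℂ
  | none, n => fun z => (z / D.R) ^ (n + 1)
  | some j, n => fun z => (D.r j / (z - D.a j)) ^ (n + 1)

/-- Laurent coefficients, by an area integral over a collar -/
noncomputable def coef (τ : ℝ) : Option (Fin k) → ℕ → (ℂ → ℂ) → ℂ
  | none, n => fun g => (1 / (Real.pi * D.R) : ℂ) *
      ∫ z in D.U, g z * (D.R / z) ^ (n + 1) * dzb (fun w => (D.chi τ none w : ℂ)) z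
  | some j, n => fun g => -(1 / (Real.pi * D.r j) : ℂ) *
      ∫ z in D.U, g z * ((z - D.a j) / D.r j) ^ n * dzb (fun w => (D.chi τ (some j) w : ℂ)) z

/-- the functional `L_t g (a) = ∫ g ∂_z̄ (X_t ā)` -/
noncomputable def Lt (τ : ℝ) (t : Fin k → ℂ) (g a : ℂ → ℂ) : ℂ :=
  ∫ z in D.U, g z * dzb (fun w => D.X τ t w * conj (a w)) z

/-- finite combinations of test functions at one circle, normalised at `z₀` -/
noncomputable def comb (z₀ : ℂ) (l : Option (Fin k)) (m : ℕ) (x : ℕ → ℂ) (z : ℂ) : ℂ :=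
  ∑ n ∈ Finset.range m, x n * (D.A l n z - D.A l n z₀)

/-- square integrable holomorphic functions on the domain -/
structure Hol2 (g : ℂ → ℂ) : Prop where
  diff : DifferentiableOn ℂ g D.U
  memLp : MemLp g 2 (volume.restrict D.U)

/-- the space `VV_t`: square integrable holomorphic functions annihilated by `L_t` on all
normalised test functions -/
structure VV (τ : ℝ) (z₀ : ℂ) (t : Fin k → ℂ) (g : ℂ → ℂ) : Prop where
  hol : D.Hol2 g
  ann : ∀ l n, D.Lt τ t g (fun z => D.A l n z - D.A l n z₀) = 0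

/-! ### `L²` and the Bergman space -/

/-- the Hilbert space `L²(U)` -/
abbrev L2 : Type := Lp ℂ 2 (volume.restrict D.U)

/-- the square integrable holomorphic functions -/
noncomputable def BergPre : Submodule ℂ D.L2 where
  carrier := {f | ∃ g : ℂ → ℂ, DifferentiableOn ℂ g D.U ∧ f =ᵐ[volume.restrict D.U] g}
  add_mem' := by
    rintro f f' ⟨g, hg, e⟩ ⟨g', hg', e'⟩
    refine ⟨g + g', hg.add hg', ?_⟩
    exact (Lp.coeFn_add f f').trans (e.add e')
  zero_mem' := ⟨0, differentiableOn_const 0, Lp.coeFn_zero _ _ _⟩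
  smul_mem' := by
    rintro c f ⟨g, hg, e⟩
    refine ⟨c • g, hg.const_smul c, ?_⟩
    exact (Lp.coeFn_smul c f).trans (e.const_smul c)

/-- the Bergman space (defined as a closure, to have its closedness for free) -/
noncomputable def Berg : Submodule ℂ D.L2 := D.BergPre.topologicalClosure

instance : CompleteSpace D.Berg :=
  (Submodule.isClosed_topologicalClosure _).completeSpace_coe

/-- the orthogonal projection onto the Bergman space -/
noncomputable def P : D.L2 →L[ℂ] D.Berg := D.Berg.orthogonalProjectionOnto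

/-- `∂u/∂z̄ = f` in the sense of distributions -/
def WeakDbar (u f : D.L2) : Prop :=
  ∀ φ : ℂ → ℂ, IsTest D.U φ →
    ∫ z in D.U, (u : ℂ → ℂ) z * dzb φ z = -∫ z in D.U, (f : ℂ → ℂ) z * φ z

theorem cU_compact : IsCompact D.cU := by
  have h1 : IsClosed D.cU := by
    have : D.cU = {z | ‖z‖ ≤ D.R} ∩ ⋂ j, {z | D.r j ≤ ‖z - D.a j‖} := by
      ext z; simp [cU]
    rw [this]
    refine (isClosed_le continuous_norm continuous_const).inter (isClosed_iInter fun j => ?_)
    exact isClosed_le continuous_const (by fun_prop)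
  exact (isCompact_closedBall (0 : ℂ) D.R).of_isClosed_subset h1 fun z hz => by
    simpa [cU] using hz.1

theorem U_subset_cU : D.U ⊆ D.cU := fun _ hz => ⟨hz.1.le, fun j => (hz.2 j).le⟩

theorem U_open : IsOpen D.U := by
  have : D.U = {z | ‖z‖ < D.R} ∩ ⋂ j, {z | D.r j < ‖z - D.a j‖} := by
    ext z; simp [U]
  rw [this]
  refine (isOpen_lt continuous_norm continuous_const).inter (isOpen_iInter_of_finite fun j => ?_)
  exact isOpen_lt continuous_const (by fun_prop)

theorem Ue_open (δ : ℝ) : IsOpen (D.Ue δ) := by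
  have : D.Ue δ = {z | ‖z‖ < D.R + δ} ∩ ⋂ j, {z | D.r j - δ < ‖z - D.a j‖} := by
    ext z; simp [Ue]
  rw [this]
  refine (isOpen_lt continuous_norm continuous_const).inter (isOpen_iInter_of_finite fun j => ?_)
  exact isOpen_lt continuous_const (by fun_prop)

theorem cU_subset_Ue {δ : ℝ} (hδ : 0 < δ) : D.cU ⊆ D.Ue δ := fun _ hz =>
  ⟨by have := hz.1; linarith, fun j => by have := hz.2 j; linarith⟩

/-- the enlarged domain as a circle domain -/
def enl (δ : ℝ) (h0 : 0 ≤ δ) (hr : ∀ j, δ < D.r j) : CD k where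
  R := D.R + δ
  a := D.a
  r := fun j => D.r j - δ
  Rpos := by linarith [D.Rpos]
  rpos := fun j => by linarith [hr j]
  inside := fun j => by linarith [D.inside j]
  disj := fun i j hij => by linarith [D.disj i j hij]

theorem enl_U (δ : ℝ) (h0 : 0 ≤ δ) (hr : ∀ j, δ < D.r j) : (D.enl δ h0 hr).U = D.Ue δ := rfl

/-- the Banach space of coefficient sequences -/
abbrev HH (k : ℕ) : Type := lp (fun _ : Option (Fin k) × ℕ => ℂ) 1

/-- Laurent basis functions, normalised to have modulus `≤ 1` on the domain enlarged by `δ` -/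
noncomputable def Eh (δ : ℝ) : Option (Fin k) → ℕ → ℂ → ℂ
  | none, n => fun z => (z / (D.R + δ : ℝ)) ^ n
  | some j, n => fun z => ((D.r j - δ : ℝ) / (z - D.a j)) ^ (n + 1)

/-- the factor with `E = scal * Eh` -/
noncomputable def scal (δ : ℝ) : Option (Fin k) × ℕ → ℝ
  | (none, n) => ((D.R + δ) / D.R) ^ n
  | (some j, n) => (D.r j / (D.r j - δ)) ^ (n + 1)

/-- the index of the basis function detected by the test function `p` -/
def targ : Option (Fin k) × ℕ → Option (Fin k) × ℕ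
  | (none, n) => (none, n)
  | (some j, n) => (some j, n + 1)

/-- the diagonal factors -/
noncomputable def DD (t : Fin k → ℂ) : Option (Fin k) → ℂ
  | none => Real.pi * D.R
  | some j => -(Real.pi * D.r j * t j)

/-- the smoothing functionals: `L_t g (A_p - A_p(z₀)) = DD_l (coef_{targ p} g + Lam_p g)` -/
noncomputable def Lam (τ : ℝ) (z₀ : ℂ) (t : Fin k → ℂ) : Option (Fin k) × ℕ → (ℂ → ℂ) → ℂ
  | (none, n) => fun g => (D.DD t none)⁻¹ *
      ((∑ i, t i * ∫ z in D.U, g z *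
          dzb (fun w => (D.chi τ (some i) w : ℂ) * conj (D.A none n w)) z) -
        conj (D.A none n z₀) *
          ∑ j, (t j - 1) * ∫ z in D.U, g z * dzb (fun w => (D.chi τ (some j) w : ℂ)) z)
  | (some j, n) => fun g => (D.DD t (some j))⁻¹ *
      ((∫ z in D.U, g z * dzb (fun w => (D.chi τ none w : ℂ) * conj (D.A (some j) n w)) z) +
        (∑ i ∈ Finset.univ.erase j, t i * ∫ z in D.U, g z *
          dzb (fun w => (D.chi τ (some i) w : ℂ) * conj (D.A (some j) n w)) z) -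
        conj (D.A (some j) n z₀) *
          ∑ i, (t i - 1) * ∫ z in D.U, g z * dzb (fun w => (D.chi τ (some i) w : ℂ)) z)

theorem U_finite : volume D.U ≠ ⊤ := by
  refine ((measure_mono D.U_subset_cU).trans_lt D.cU_compact.measure_lt_top).ne

instance : IsFiniteMeasure (volume.restrict D.U) :=
  ⟨by rw [Measure.restrict_apply_univ]; exact D.U_finite.lt_top⟩

theorem mul_memLp {b : ℂ → ℂ} (hb : ContinuousOn b D.cU) (f : D.L2) :
    MemLp (fun z => b z * (f : ℂ → ℂ) z) 2 (volume.restrict D.U) := by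
  obtain ⟨C, hC⟩ := D.cU_compact.exists_bound_of_continuousOn hb
  have h1 : AEStronglyMeasurable b (volume.restrict D.U) :=
    (hb.mono D.U_subset_cU).aestronglyMeasurable D.U_open.measurableSet
  refine MemLp.of_le_mul (c := C) (Lp.memLp f) (h1.mul (Lp.memLp f).1) ?_
  filter_upwards [ae_restrict_mem D.U_open.measurableSet] with z hz
  rw [norm_mul]
  exact mul_le_mul_of_nonneg_right (hC z (D.U_subset_cU hz)) (norm_nonneg _)

/-- the operator of multiplication by a function continuous on the closed domain -/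
noncomputable def mulAux (b : ℂ → ℂ) (hb : ContinuousOn b D.cU) : D.L2 →ₗ[ℂ] D.L2 where
  toFun f := (D.mul_memLp hb f).toLp _
  map_add' f g := by
    rw [← MemLp.toLp_add]
    apply MemLp.toLp_congr
    filter_upwards [Lp.coeFn_add f g] with z hz
    simp only [hz, Pi.add_apply, mul_add]
  map_smul' c f := by
    rw [RingHom.id_apply, ← MemLp.toLp_const_smul]
    apply MemLp.toLp_congr
    filter_upwards [Lp.coeFn_smul c f] with z hz
    simp only [hz, Pi.smul_apply, smul_eq_mul]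
    ring

theorem mulAux_norm_le {b : ℂ → ℂ} (hb : ContinuousOn b D.cU) {C : ℝ}
    (hC : ∀ z ∈ D.U, ‖b z‖ ≤ C) (hC0 : 0 ≤ C) (f : D.L2) : ‖D.mulAux b hb f‖ ≤ C * ‖f‖ := by
  apply Lp.norm_le_mul_norm_of_ae_le_mul
  have h1 : (D.mulAux b hb f : ℂ → ℂ) =ᵐ[volume.restrict D.U] _ :=
    MemLp.coeFn_toLp (D.mul_memLp hb f)
  filter_upwards [h1, ae_restrict_mem D.U_open.measurableSet] with z hz hzU
  rw [hz, norm_mul]
  exact mul_le_mul_of_nonneg_right (hC z hzU) (norm_nonneg _)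

open Classical in
/-- multiplication by `b` as an operator on `L²(U)` (zero if `b` is not continuous on the closed
domain) -/
noncomputable def Mul (b : ℂ → ℂ) : D.L2 →L[ℂ] D.L2 :=
  if hb : ContinuousOn b D.cU then
    (D.mulAux b hb).mkContinuousOfExistsBound (by
      obtain ⟨C, hC⟩ := D.cU_compact.exists_bound_of_continuousOn hb
      exact ⟨max C 0, D.mulAux_norm_le hb
        (fun z hz => (hC z (D.U_subset_cU hz)).trans (le_max_left _ _)) (le_max_right _ _)⟩)
  else 0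

theorem Mul_coe {b : ℂ → ℂ} (hb : ContinuousOn b D.cU) (f : D.L2) :
    (D.Mul b f : ℂ → ℂ) =ᵐ[volume.restrict D.U] fun z => b z * (f : ℂ → ℂ) z := by
  rw [Mul, dif_pos hb]
  exact MemLp.coeFn_toLp (D.mul_memLp hb f)

theorem Mul_norm_le {b : ℂ → ℂ} (hb : ContinuousOn b D.cU) {C : ℝ}
    (hC : ∀ z ∈ D.U, ‖b z‖ ≤ C) (hC0 : 0 ≤ C) : ‖D.Mul b‖ ≤ C := by
  refine ContinuousLinearMap.opNorm_le_bound _ hC0 fun f => ?_
  rw [Mul, dif_pos hb]
  exact D.mulAux_norm_le hb hC hC0 f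

/-- the Toeplitz operator `g ↦ P (S g)` on the Bergman space -/
noncomputable def Toe (S : ℂ → ℂ) : D.Berg →L[ℂ] D.Berg :=
  D.P ∘L D.Mul S ∘L D.Berg.subtypeL

/-- `T` is the canonical solution operator of `∂/∂z̄` -/
structure IsKohn (T : D.L2 →L[ℂ] D.L2) : Prop where
  compact : IsCompactOperator T
  weak : ∀ f, D.WeakDbar (T f) f
  orth : ∀ f, D.P (T f) = 0

end CD

/-! ### Asymptotic scales -/

section scales

variable {Y : Type*} [NormedAddCommGroup Y] [NormedSpace ℂ Y]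

/-- the scale function `N^{-σ} (log N)^j` -/
noncomputable def sc (p : ℝ × ℕ) (N : ℝ) : ℝ := N ^ (-p.1) * Real.log N ^ p.2

/-- admissible sets of scales: bounded, bigger than the error `N^{-κ}`, with rational exponents
(`κ` will be irrational, to avoid resonances) -/
def GoodScale (κ : ℝ) (s : Finset (ℝ × ℕ)) : Prop :=
  ∀ p ∈ s, 0 ≤ p.1 ∧ p.1 < κ ∧ (p.1 = 0 → p.2 = 0) ∧ ∃ q : ℚ, (q : ℝ) = p.1

/-- `f` has an asymptotic expansion along the scales in `s`, up to an error `O(N^{-κ})` -/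
def HasExp (s : Finset (ℝ × ℕ)) (κ : ℝ) (f : ℝ → Y) : Prop :=
  ∃ c : ℝ × ℕ → Y, (fun N => f N - ∑ p ∈ s, (sc p N : ℂ) • c p) =O[atTop] fun N => N ^ (-κ)

/-- `p` dominates `q`: the scale function of `q` is `o` of the scale function of `p` -/
def Dom (p q : ℝ × ℕ) : Prop := p.1 < q.1 ∨ (p.1 = q.1 ∧ q.2 < p.2)

end scales

/-! ### Harmonic data and phase systems -/

/-- The harmonic measures of a circle domain, extended across the boundary. -/
structure HM {k : ℕ} (D : CD k) (τ δ : ℝ) where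
  om : Fin k → ℂ → ℝ
  v : Fin k → ℂ → ℂ
  Rm : Matrix (Fin k) (Fin k) ℝ
  smooth : ∀ j, ContDiffOn ℝ (⊤ : ℕ∞) (om j) (D.Ue δ)
  hol : ∀ j, DifferentiableOn ℂ (v j) (D.Ue δ)
  der : ∀ j, ∀ z ∈ D.Ue δ, dz (fun w => (om j w : ℂ)) z = v j z
  bd_none : ∀ j, ∀ z ∈ D.circ none, om j z = 0
  bd_some : ∀ j l, ∀ z ∈ D.circ (some l), om j z = if l = j then 1 else 0
  orth : ∀ j, ∀ a : ℂ → ℂ, (∃ V, IsOpen V ∧ D.cU ⊆ V ∧ DifferentiableOn ℂ a V) →
    ∫ z in D.U, v j z * conj (deriv a z) = 0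
  res : ∀ l j, D.r l * D.coef τ (some l) 0 (v j) = Rm l j
  det_ne : Rm.det ≠ 0
  gram : ∀ i j, ∃ x : ℝ, ∫ z in D.U, v i z * conj (v j z) = x
  chi_v : ∀ j, ∀ g : ℂ → ℂ, D.Hol2 g →
    ∫ z in D.U, g z * conj (v j z) =
      ∫ z in D.U, g z * dzb (fun w => (D.chi τ (some j) w : ℂ)) z

namespace HM

variable {k : ℕ} {D : CD k} {τ δ : ℝ} (h : HM D τ δ)

/-- the real harmonic function with boundary values `x_j` -/
noncomputable def rho (x : Fin k → ℝ) (z : ℂ) : ℝ := ∑ j, x j * h.om j z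

/-- the complex harmonic function with boundary values `w_j` -/
noncomputable def rhoC (w : Fin k → ℂ) (z : ℂ) : ℂ := ∑ j, w j * (h.om j z : ℂ)

/-- `∂ρ_x/∂z` -/
noncomputable def vv (x : Fin k → ℝ) (z : ℂ) : ℂ := ∑ j, (x j : ℂ) * h.v j z

/-- `∂ρ_w/∂z̄` for complex `w` -/
noncomputable def vb (w : Fin k → ℂ) (z : ℂ) : ℂ := ∑ j, w j * conj (h.v j z)

end HM

/-- A phase system: cutoff functions near the boundary circles and the critical points of `ρ`,
with the values of `ρ` there. -/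
structure PS {k : ℕ} (D : CD k) (ρ : ℂ → ℝ) (ι : Type) [Fintype ι] [DecidableEq ι] where
  chi : ι → ℂ → ℝ
  c : ι → ℝ
  bd : Option (Fin k) → ι
  bd_inj : Function.Injective bd
  smooth : ∀ i, ContDiff ℝ (⊤ : ℕ∞) (chi i)
  nonneg : ∀ i z, 0 ≤ chi i z
  le_one : ∀ i z, chi i z ≤ 1
  disj : ∀ i j, i ≠ j → Disjoint (tsupport (chi i)) (tsupport (chi j))
  bd_near : ∀ l, ∀ z ∈ D.circ l, ∀ᶠ w in 𝓝 z, chi (bd l) w = 1
  crit_near : ∀ z ∈ D.cU, dz (fun w => (ρ w : ℂ)) z = 0 → ∃ i, ∀ᶠ w in 𝓝 z, chi i w = 1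
  val_circ : ∀ l, ∀ z ∈ D.circ l, ρ z = c (bd l)
  val_crit : ∀ i, ∀ z ∈ tsupport (chi i) ∩ D.cU, dz (fun w => (ρ w : ℂ)) z = 0 → ρ z = c i
  only_circ : ∀ i l, (tsupport (chi i) ∩ D.circ l).Nonempty → i = bd l

section virtual

variable {k : ℕ} {D : CD k} {τ δ : ℝ} {ι : Type} [Fintype ι] [DecidableEq ι]

/-- The virtual form `Σ_i e^{iφ_i} ∫ χ_i e^{iN(ρ - c_i)} e^{ρ_w} g q̄`, the phases `φ` being
decoupled from `N`. -/
noncomputable def Bv (h : HM D τ δ) {ρ : ℂ → ℝ} (ps : PS D ρ ι) (N : ℝ) (φ : ι → ℝ)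
    (w : Fin k → ℂ) (g q : ℂ → ℂ) : ℂ :=
  ∑ i, Complex.exp (Complex.I * φ i) * ∫ z in D.U, (ps.chi i z : ℂ) *
    Complex.exp (Complex.I * (N * (ρ z - ps.c i) : ℝ)) * Complex.exp (h.rhoC w z) * g z *
      conj (q z)

/-- the functional `s(t,g) = Σ (t_j - 1) ∫ g ∂_z̄ χ_j = L_t g (1)` -/
noncomputable def sfun (D : CD k) (τ : ℝ) (t : Fin k → ℂ) (g : ℂ → ℂ) : ℂ :=
  ∑ j, (t j - 1) * ∫ z in D.U, g z * dzb (fun w => (D.chi τ (some j) w : ℂ)) z

/-- bordered determinant -/
noncomputable def Fdet {n : ℕ} (B : Fin (n + 1) → Fin n → ℂ) (s : Fin (n + 1) → ℂ) : ℂ :=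
  Matrix.det (Matrix.of fun b l => Fin.snoc (α := fun _ => ℂ) (B b) (s b) l)

/-- the boundary multipliers `exp(iφ_j + x_j + μ ω_j)` -/
noncomputable def tt {k : ℕ} {D : CD k} {ι : Type} [Fintype ι] [DecidableEq ι] {ρ : ℂ → ℝ}
    (ps : PS D ρ ι) (om : Fin k → ℂ) (v : (Fin k → ℝ) × (ι → ℝ)) (μ : ℂ) (j : Fin k) : ℂ :=
  Complex.exp (Complex.I * v.2 (ps.bd (some j)) + v.1 j + μ * om j)

/-- the bordered determinant of the virtual forms of a frame `g` against the tests `q` -/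
noncomputable def FF {n : ℕ} {D : CD (n + 1)} {τ δ : ℝ} {ι : Type} [Fintype ι] [DecidableEq ι]
    (h : HM D τ δ) {ρ : ℂ → ℝ} (ps : PS D ρ ι) (om : Fin (n + 1) → ℂ)
    (g : Fin (n + 1) → (Fin (n + 1) → ℂ) → ℂ → ℂ) (q : Fin n → ℂ → ℂ) (N : ℝ)
    (v : (Fin (n + 1) → ℝ) × (ι → ℝ)) (μ : ℂ) : ℂ :=
  Fdet (fun b l => Bv h ps N v.2 (fun j => v.1 j + μ * om j) (g b (tt ps om v μ)) (q l))
    (fun b => sfun D τ (tt ps om v μ) (g b (tt ps om v μ)))

/-- The actual exponent `i N ρ + i Σ y_i χ_i + ρ_w` -/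
noncomputable def lS (h : HM D τ δ) {ρ : ℂ → ℝ} (ps : PS D ρ ι) (N : ℝ) (y : ι → ℝ)
    (w : Fin k → ℂ) (z : ℂ) : ℂ :=
  Complex.I * (N * ρ z : ℝ) + Complex.I * (∑ i, y i * ps.chi i z : ℝ) + h.rhoC w z

end virtual

end Pool.Agent.Helper7.KE
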