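import Pool.Agent.Helper7.KE.B4b
import Pool.Agent.Helper7.KE.C0a
import Pool.Agent.Helper7.KE.D5a

set_option autoImplicit false

open MeasureTheory Set Filter Asymptotics Topology Metric
open scoped ComplexConjugate ENNReal

namespace Pool.Agent.Helper7.KE

section
variable {k : ℕ} {D : CD k} {τ δ : ℝ} {ι : Type} [Fintype ι] [DecidableEq ι]

theorem E1_exp_apply {K : Type} [TopologicalSpace K] [CompactSpace K] (x : C(K, ℂ)) (u : K) :
    (NormedSpace.exp x) u = Complex.exp (x u) := by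
  have h := NormedSpace.map_exp_of_mem_ball (𝕂 := ℂ) (ContinuousMap.evalAlgHom ℂ ℂ u)
    (ContinuousMap.evalCLM ℂ u).continuous x (by
      rw [NormedSpace.expSeries_radius_eq_top]
      simp)
  rw [Complex.exp_eq_exp_ℂ]
  exact h

theorem E1_exp_contDiff {K : Type} [TopologicalSpace K] [CompactSpace K] {n : WithTop ℕ∞} :
    ContDiff ℝ n (NormedSpace.exp : C(K, ℂ) → C(K, ℂ)) :=
  contDiff_iff_contDiffAt.2 fun x => (NormedSpace.exp_analytic (𝕂 := ℝ) x).contDiffAt

theorem exp_param (hτ : D.Good τ) (hδ : 0 < δ) (hδτ : δ ≤ τ) (h : HM D τ δ) {x : Fin k → ℝ}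
    (hx : x ≠ 0) (ps : PS D (h.rho x) ι) {κ : ℝ} (hκ : 0 < κ) (hκ' : Irrational κ) :
    ∃ s : Finset (ℝ × ℕ), GoodScale κ s ∧
      ∀ (K : Type) [TopologicalSpace K] [CompactSpace K] (ph : ι → C(K, ℝ)) (w : Fin k → C(K, ℂ))
        (g : K → ℂ → ℂ) (q : ℂ → ℂ),
        ContinuousOn (fun p : K × ℂ => g p.1 p.2) (univ ×ˢ D.Ue δ) →
        (∀ u, DifferentiableOn ℂ (g u) (D.Ue δ)) → DifferentiableOn ℂ q (D.Ue δ) →
        ∃ F : ℝ → C(K, ℂ),
          (∀ N u, F N u = Bv h ps N (fun i => ph i u) (fun j => w j u) (g u) q) ∧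
          HasExp s κ F := by
  obtain ⟨s, hs, hexp⟩ := exp_PS D hτ hδ hδτ h x hx ps hκ hκ'
  refine ⟨s, hs, fun K _ _ ph w g q hgc hgd hq => ?_⟩
  have hV : IsOpen (D.Ue δ) := D.Ue_open δ
  have hcV : D.cU ⊆ D.Ue δ := D.cU_subset_Ue hδ
  obtain ⟨G, hG, hGg⟩ := curry_hol hV hgc hgd
  have hGs : ContDiffOn ℝ (⊤ : ℕ∞) G (D.Ue δ) := hol_contDiffOn hV hG
  have hqs : ContDiffOn ℝ (⊤ : ℕ∞) (fun z => conj (q z)) (D.Ue δ) :=
    Complex.conjCLE.contDiff.comp_contDiffOn (hol_contDiffOn hV hq)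
  set B : ℂ → C(K, ℂ) := fun z => ∑ j, ((h.om j z : ℝ) : ℂ) • w j with hB
  have hBs : ContDiffOn ℝ (⊤ : ℕ∞) B (D.Ue δ) := by
    refine ContDiffOn.sum fun j _ => ?_
    have h1 : ContDiffOn ℝ (⊤ : ℕ∞) (fun z => ((h.om j z : ℝ) : ℂ)) (D.Ue δ) :=
      Complex.ofRealCLM.contDiff.comp_contDiffOn (h.smooth j)
    exact h1.smul contDiffOn_const
  set A : ℂ → C(K, ℂ) := fun z => conj (q z) • (NormedSpace.exp (B z) * G z) with hA
  have hAs : ContDiffOn ℝ (⊤ : ℕ∞) A (D.Ue δ) :=
    hqs.smul ((E1_exp_contDiff.comp_contDiffOn hBs).mul hGs)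
  have hAe : ∀ z ∈ D.U, ∀ u, A z u = Complex.exp (h.rhoC (fun j => w j u) z) * g u z *
      conj (q z) := by
    intro z hz u
    have h1 : B z u = h.rhoC (fun j => w j u) z := by
      simp only [hB, HM.rhoC]
      rw [ContinuousMap.coe_sum, Finset.sum_apply]
      refine Finset.sum_congr rfl fun j _ => ?_
      simp [mul_comm]
    simp only [hA, ContinuousMap.coe_smul, ContinuousMap.coe_mul, Pi.smul_apply, Pi.mul_apply,
      smul_eq_mul]
    rw [E1_exp_apply, h1, hGg z (hcV (D.U_subset_cU hz))]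
    ring
  set Ec : ι → C(K, ℂ) := fun i => ⟨fun u => Complex.exp (Complex.I * (ph i u : ℂ)), by fun_prop⟩
    with hEc
  set J : ι → ℝ → C(K, ℂ) := fun i N => ∫ z in D.U, ((ps.chi i z : ℂ) *
    Complex.exp (Complex.I * (N * (h.rho x z - ps.c i) : ℝ))) • A z with hJ
  refine ⟨fun N => ∑ i, Ec i * J i N, fun N u => ?_, ?_⟩
  · rw [ContinuousMap.coe_sum, Finset.sum_apply, Bv]
    refine Finset.sum_congr rfl fun i _ => ?_
    rw [ContinuousMap.coe_mul, Pi.mul_apply]
    have h1 : (J i N) u = ∫ z in D.U, (((ps.chi i z : ℂ) *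
        Complex.exp (Complex.I * (N * (h.rho x z - ps.c i) : ℝ))) • A z) u := by
      have h2 := (ContinuousMap.evalCLM ℂ u).integral_comp_comm (μ := volume.restrict D.U)
        (φ := fun z => ((ps.chi i z : ℂ) *
          Complex.exp (Complex.I * (N * (h.rho x z - ps.c i) : ℝ))) • A z) ?_
      · exact h2.symm
      · have hc : ContinuousOn (fun z => ((ps.chi i z : ℂ) *
            Complex.exp (Complex.I * (N * (h.rho x z - ps.c i) : ℝ))) • A z) D.cU := by
          have h3 : ContinuousOn (h.rho x) D.cU :=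
            ((rho_facts h hτ hδ x 0).1.continuousOn).mono hcV
          have h4 : ContinuousOn (fun z => Complex.exp (Complex.I *
              (N * (h.rho x z - ps.c i) : ℝ))) D.cU := by
            refine Complex.continuous_exp.comp_continuousOn (continuousOn_const.mul ?_)
            exact Complex.continuous_ofReal.comp_continuousOn
              (continuousOn_const.mul (h3.sub continuousOn_const))
          have h5 : ContinuousOn (fun z => (ps.chi i z : ℂ)) D.cU :=
            (Complex.continuous_ofReal.comp (ps.smooth i).continuous).continuousOn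
          exact (h5.mul h4).smul (hAs.continuousOn.mono hcV)
        exact (hc.integrableOn_compact D.cU_compact).mono_set D.U_subset_cU
    rw [h1]
    have h2 : (Ec i) u = Complex.exp (Complex.I * (ph i u : ℂ)) := rfl
    rw [h2]
    congr 1
    refine setIntegral_congr_fun D.U_open.measurableSet fun z hz => ?_
    simp only [ContinuousMap.coe_smul, Pi.smul_apply, smul_eq_mul]
    rw [hAe z hz u]
    ring
  · refine HasExp.sum _ fun i _ => ?_
    have h1 := hexp C(K, ℂ) A hAs i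
    exact h1.clm (ContinuousLinearMap.mul ℂ C(K, ℂ) (Ec i))

end

end Pool.Agent.Helper7.KE
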