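import Pool.Agent.Helper7.KE.D5a

set_option autoImplicit false

open MeasureTheory Set Filter Asymptotics Topology Metric
open scoped ComplexConjugate ENNReal

namespace Pool.Agent.Helper7.KE

section
variable {k : ℕ} {D : CD k} {τ δ : ℝ} {ι : Type} [Fintype ι] [DecidableEq ι]

theorem Bv_equiv (h : HM D τ δ) (hδ : 0 < δ) {e e' x x₀ : Fin k → ℝ} (ps : PS D (h.rho e) ι)
    {f : ℂ → ℂ} (hf : ∀ z ∈ D.Ue δ, ‖f z‖ ^ 2 = Real.exp (h.rho x₀ z)) {t : ℝ} {φ : ι → ℝ}
    {n : ι → ℤ} (h1 : ∀ j, t * e' j = x j + x₀ j)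
    (h2 : ∀ i, t * ps.c i = φ i + 2 * Real.pi * n i) (N : ℝ) (μ : ℂ) (g q : ℂ → ℂ) :
    Bv h ps N 0 (fun j => (t + μ) * (e' j + Complex.I * e j)) g q =
      Bv h ps (N + t) φ (fun j => x j + μ * (e' j + Complex.I * e j))
        (fun z => f z * g z) (fun z => f z * q z) := by
  unfold Bv
  refine Finset.sum_congr rfl fun i _ => ?_
  rw [← integral_const_mul, ← integral_const_mul]
  apply setIntegral_congr_fun D.U_open.measurableSet
  intro z hz
  have hzU : z ∈ D.Ue δ := D.cU_subset_Ue hδ (D.U_subset_cU hz)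
  have hff : f z * conj (f z) = Complex.exp (h.rho x₀ z : ℝ) := by
    rw [Complex.mul_conj, Complex.normSq_eq_norm_sq, hf z hzU, Complex.ofReal_exp]
  have e1 : h.rhoC (fun j => (t + μ) * (e' j + Complex.I * e j)) z
      = (h.rho x z : ℝ) + (h.rho x₀ z : ℝ) + Complex.I * t * (h.rho e z : ℝ)
        + μ * ∑ j, ((e' j : ℂ) + Complex.I * e j) * (h.om j z : ℂ) := by
    have e3 : (h.rho x z : ℂ) + (h.rho x₀ z : ℝ) = ∑ j, (t : ℂ) * e' j * (h.om j z : ℂ) := by
      simp only [HM.rho]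
      push_cast
      rw [← Finset.sum_add_distrib]
      refine Finset.sum_congr rfl fun j _ => ?_
      have : ((t * e' j : ℝ) : ℂ) = ((x j + x₀ j : ℝ) : ℂ) := by rw [h1 j]
      push_cast at this
      rw [this]; ring
    have e4 : (h.rho e z : ℂ) = ∑ j, (e j : ℂ) * (h.om j z : ℂ) := by
      simp [HM.rho]
    rw [e3, e4, HM.rhoC, Finset.mul_sum, Finset.mul_sum, ← Finset.sum_add_distrib,
      ← Finset.sum_add_distrib]
    refine Finset.sum_congr rfl fun j _ => ?_
    ring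
  have e2 : h.rhoC (fun j => x j + μ * (e' j + Complex.I * e j)) z
      = (h.rho x z : ℝ) + μ * ∑ j, ((e' j : ℂ) + Complex.I * e j) * (h.om j z : ℂ) := by
    simp only [HM.rhoC, HM.rho]
    push_cast
    rw [Finset.mul_sum, ← Finset.sum_add_distrib]
    refine Finset.sum_congr rfl fun j _ => ?_
    ring
  simp only
  rw [map_mul, e1, e2]
  set S : ℂ := ∑ j, ((e' j : ℂ) + Complex.I * e j) * (h.om j z : ℂ) with hS
  have key : Complex.exp (Complex.I * ((0 : ι → ℝ) i : ℝ)) *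
      Complex.exp (Complex.I * ((N * (h.rho e z - ps.c i) : ℝ) : ℂ)) *
      Complex.exp ((h.rho x z : ℝ) + (h.rho x₀ z : ℝ) + Complex.I * t * (h.rho e z : ℝ) + μ * S)
      = Complex.exp (Complex.I * (φ i : ℝ)) *
        Complex.exp (Complex.I * (((N + t) * (h.rho e z - ps.c i) : ℝ) : ℂ)) *
        Complex.exp ((h.rho x z : ℝ) + μ * S) * Complex.exp (h.rho x₀ z : ℝ) := by
    rw [← Complex.exp_add, ← Complex.exp_add, ← Complex.exp_add, ← Complex.exp_add,
      ← Complex.exp_add, Complex.exp_eq_exp_iff_exists_int]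
    refine ⟨n i, ?_⟩
    have h3 : (t : ℂ) * ps.c i = φ i + 2 * Real.pi * n i := by
      have := congrArg (fun r : ℝ => (r : ℂ)) (h2 i)
      push_cast at this
      exact this
    push_cast
    simp only [Pi.zero_apply, Complex.ofReal_zero]
    linear_combination (Complex.I) * h3
  calc Complex.exp (Complex.I * ((0 : ι → ℝ) i : ℝ)) *
        ((ps.chi i z : ℂ) * Complex.exp (Complex.I * ((N * (h.rho e z - ps.c i) : ℝ) : ℂ)) *
        Complex.exp ((h.rho x z : ℝ) + (h.rho x₀ z : ℝ) + Complex.I * t * (h.rho e z : ℝ) + μ * S)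
          * g z * conj (q z))
      = (Complex.exp (Complex.I * ((0 : ι → ℝ) i : ℝ)) *
      Complex.exp (Complex.I * ((N * (h.rho e z - ps.c i) : ℝ) : ℂ)) *
      Complex.exp ((h.rho x z : ℝ) + (h.rho x₀ z : ℝ) + Complex.I * t * (h.rho e z : ℝ) + μ * S))
        * ((ps.chi i z : ℂ) * g z * conj (q z)) := by ring
    _ = _ := by
        rw [key, ← hff]; ring

end

end Pool.Agent.Helper7.KE
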