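import Pool.Agent.Helper7.KE.C7b
import Pool.Agent.Helper7.KE.D5a

set_option autoImplicit false

open MeasureTheory Set Filter Asymptotics Topology Metric
open scoped ComplexConjugate ENNReal

namespace Pool.Agent.Helper7.KE

section
variable {k : ℕ} {D : CD k} {τ δ : ℝ}

theorem E2b_X_smooth (hτ : D.Good τ) (t : Fin k → ℂ) : ContDiff ℝ (⊤ : ℕ∞) (D.X τ t) := by
  unfold CD.X
  apply ContDiff.add contDiff_const
  apply ContDiff.sum
  intro j _
  exact contDiff_const.mul (Complex.ofRealCLM.contDiff.comp (chi_smooth D hτ.pos hτ.lt_R (some j)))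

theorem E2b_A_diff (D : CD k) {V : Set ℂ} (hV : ∀ z ∈ V, ∀ j, z ≠ D.a j)
    (l : Option (Fin k)) (n : ℕ) : DifferentiableOn ℂ (D.A l n) V := by
  cases l with
  | none =>
    intro z _
    simp only [CD.A]
    exact ((differentiableAt_id.div_const _).pow _).differentiableWithinAt
  | some j =>
    intro z hz
    simp only [CD.A]
    have : z - D.a j ≠ 0 := sub_ne_zero.2 (hV z hz j)
    have h1 : DifferentiableAt ℂ (fun z => (D.r j : ℂ) / (z - D.a j)) z := by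
      have h2 : DifferentiableAt ℂ (fun z => z - D.a j) z := by fun_prop
      exact (differentiableAt_const (D.r j : ℂ)).fun_div h2 this
    exact (h1.pow _).differentiableWithinAt

/-- the core identity -/
theorem E2b_Lt (h : HM D τ δ) (hτ : D.Good τ) (hδ : 0 < δ)
    {x₀ : Fin k → ℝ} {f : ℂ → ℂ} (hfd : DifferentiableOn ℂ f (D.Ue δ))
    (hf0 : ∀ z ∈ D.Ue δ, f z ≠ 0)
    (hf : ∀ z ∈ D.Ue δ, ‖f z‖ ^ 2 = Real.exp (h.rho x₀ z)) {t t' : Fin k → ℂ}
    (ht : ∀ j, t j = t' j * Real.exp (x₀ j)) {g : ℂ → ℂ} (hg : D.Hol2 g) {b : ℂ → ℂ}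
    (hb : DifferentiableOn ℂ b (D.Ue δ)) :
    D.Lt τ t' (fun z => f z * g z) b = D.Lt τ t g (fun z => b z / f z) := by
  have hcU := D.cU_subset_Ue hδ
  have hVo := D.Ue_open δ
  have hfR : ContDiffOn ℝ (⊤ : ℕ∞) f (D.Ue δ) := hol_contDiffOn hVo hfd
  have hbR : ContDiffOn ℝ (⊤ : ℕ∞) b (D.Ue δ) := hol_contDiffOn hVo hb
  have hX := E2b_X_smooth (D := D) hτ t'
  obtain ⟨-, -, -, -, -, -, hn, hs⟩ := rho_facts h hτ hδ x₀ 0
  have hconj : ∀ {F : ℂ → ℂ}, ContDiffOn ℝ (⊤ : ℕ∞) F (D.Ue δ) →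
      ContDiffOn ℝ (⊤ : ℕ∞) (fun z => conj (F z)) (D.Ue δ) := fun hF =>
    (Complex.conjCLE : ℂ →L[ℝ] ℂ).contDiff.comp_contDiffOn hF
  set S : ℂ → ℂ := fun z => D.X τ t' z * (f z * conj (f z)) with hSdef
  have hS : ContDiffOn ℝ (⊤ : ℕ∞) S (D.Ue δ) := hX.contDiffOn.mul (hfR.mul (hconj hfR))
  have hff : ∀ z ∈ D.Ue δ, f z * conj (f z) = ((Real.exp (h.rho x₀ z) : ℝ) : ℂ) := by
    intro z hz
    rw [Complex.mul_conj, Complex.normSq_eq_norm_sq, hf z hz]
  have hcirc : ∀ l, D.circ l ⊆ D.Ue δ := fun l z hz =>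
    hcU ((mem_cU_iff D z).2 (Or.inr ⟨l, hz⟩))
  have hab : DifferentiableOn ℂ (fun z => b z / f z) (D.Ue δ) := hb.div hfd hf0
  rw [Lt_boundary D hτ t hg hVo hcU hab hS]
  · unfold CD.Lt
    apply setIntegral_congr_fun D.U_open.measurableSet
    intro z hz
    have hzV := hcU (D.U_subset_cU hz)
    have hzn : D.Ue δ ∈ 𝓝 z := hVo.mem_nhds hzV
    have hfz : DifferentiableAt ℂ f z := hfd.differentiableAt hzn
    have hF : DifferentiableAt ℝ (fun w => D.X τ t' w * conj (b w)) z := by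
      have h1 : DifferentiableAt ℝ (D.X τ t') z :=
        (hX.differentiable (by simp)) z
      have h2 : DifferentiableAt ℝ (fun w => conj (b w)) z :=
        ((hconj hbR).differentiableOn (by simp)).differentiableAt hzn
      exact h1.mul h2
    have h3 := (dz_smul (hfz.restrictScalars ℝ) hF).2
    rw [(dz_hol hfz).2, zero_smul, zero_add] at h3
    have h4 : (fun w => f w • (D.X τ t' w * conj (b w)))
        =ᶠ[𝓝 z] fun w => S w * conj (b w / f w) := by
      filter_upwards [hzn] with w hw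
      have h5 : conj (f w) ≠ 0 := by
        rw [Ne, map_eq_zero]; exact hf0 w hw
      simp only [hSdef, smul_eq_mul, map_div₀]
      field_simp
    have h6 := (dz_congr h4).2
    rw [h3] at h6
    simp only
    rw [← h6, smul_eq_mul]
    ring
  · intro z hz
    simp only [hSdef]
    rw [((X_circ D hτ t').1 z hz).self_of_nhds, hff z (hcirc none hz), (hn z hz).1]
    simp
  · intro j z hz
    simp only [hSdef]
    rw [((X_circ D hτ t').2 j z hz).self_of_nhds, hff z (hcirc (some j) hz), (hs j z hz).1, ht]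

theorem VV_equiv (h : HM D τ δ) (hτ : D.Good τ) (hδ : 0 < δ) (hδτ : δ ≤ τ) {z₀ : ℂ}
    (hz₀ : z₀ ∈ D.U) {x₀ : Fin k → ℝ} {f : ℂ → ℂ} (hfd : DifferentiableOn ℂ f (D.Ue δ))
    (hf0 : ∀ z ∈ D.Ue δ, f z ≠ 0)
    (hf : ∀ z ∈ D.Ue δ, ‖f z‖ ^ 2 = Real.exp (h.rho x₀ z)) {t t' : Fin k → ℂ}
    (ht : ∀ j, t j = t' j * Real.exp (x₀ j)) {g : ℂ → ℂ} (hg : D.VV τ z₀ t g) :
    D.VV τ z₀ t' (fun z => f z * g z) ∧
      sfun D τ t' (fun z => f z * g z) = (conj (f z₀))⁻¹ * sfun D τ t g := by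
  have hcU := D.cU_subset_Ue hδ
  have hVo := D.Ue_open δ
  have hz₀V : z₀ ∈ D.Ue δ := hcU (D.U_subset_cU hz₀)
  have ha : ∀ z ∈ D.Ue δ, ∀ j, z ≠ D.a j := by
    intro z hz j he
    have h1 := hz.2 j
    rw [he, sub_self, norm_zero] at h1
    have := hτ.lt_r j
    linarith
  have hH : D.Hol2 (fun z => f z * g z) := by
    refine ⟨(hfd.mono ((D.U_subset_cU).trans hcU)).mul hg.hol.diff, ?_⟩
    have h1 := D.mul_memLp (hfd.continuousOn.mono hcU) hg.hol.memLp.toLp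
    refine h1.ae_eq ?_
    filter_upwards [hg.hol.memLp.coeFn_toLp] with z hz
    rw [hz]
  have key : ∀ {b : ℂ → ℂ}, DifferentiableOn ℂ b (D.Ue δ) →
      D.Lt τ t' (fun z => f z * g z) b = D.Lt τ t g (fun z => b z / f z) := fun hb =>
    E2b_Lt h hτ hδ hfd hf0 hf ht hg.hol hb
  refine ⟨⟨hH, fun l n => ?_⟩, ?_⟩
  · have hb : DifferentiableOn ℂ (fun z => D.A l n z - D.A l n z₀) (D.Ue δ) :=
      (E2b_A_diff D ha l n).sub (differentiableOn_const _)
    rw [key hb]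
    exact VV_ann D hτ hz₀ t hg hδ (hb.div hfd hf0) (by simp)
  · rw [← Lt_one D hτ t' hH, key (differentiableOn_const (1 : ℂ))]
    have h1 : (fun z => (1 : ℂ) / f z) = fun z => (1 / f z - 1 / f z₀) + (1 / f z₀) * 1 := by
      ext z; ring
    have hd : DifferentiableOn ℂ (fun z => 1 / f z - 1 / f z₀) (D.Ue δ) :=
      ((differentiableOn_const (1 : ℂ)).div hfd hf0).sub (differentiableOn_const _)
    rw [h1, Lt_linear D hτ t hg.hol hVo hcU hd (differentiableOn_const (1 : ℂ)),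
      VV_ann D hτ hz₀ t hg hδ hd (by simp), zero_add, Lt_one D hτ t hg.hol]
    congr 1
    rw [one_div, map_inv₀]

end

end Pool.Agent.Helper7.KE
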