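import Pool.Agent.Helper7.KE.A1
import Pool.Agent.Helper7.KE.A5a
import Pool.Agent.Helper7.KE.D5a

/-!
# Elementary facts on phase systems (used in E3a, E4, E5b)
-/

set_option autoImplicit false

open MeasureTheory Set Filter Asymptotics Topology Metric
open scoped ComplexConjugate ENNReal

namespace Pool.Agent.Helper7.KE

section
variable {k : ℕ} {D : CD k} {τ δ : ℝ} {ι : Type} [Fintype ι] [DecidableEq ι]

/-- if one cutoff is `1` near `z`, the other ones vanish near `z` -/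
theorem PS.eq_zero_near {ρ : ℂ → ℝ} (ps : PS D ρ ι) {i j : ι} (hij : i ≠ j) {z : ℂ}
    (hz : ∀ᶠ w in 𝓝 z, ps.chi i w = 1) : ∀ᶠ w in 𝓝 z, ps.chi j w = 0 := by
  have h1 : z ∈ tsupport (ps.chi i) := by
    refine subset_closure ?_
    rw [Function.mem_support, hz.self_of_nhds]
    exact one_ne_zero
  have h2 : z ∉ tsupport (ps.chi j) := fun h3 => Set.disjoint_left.mp (ps.disj i j hij) h1 h3
  exact notMem_tsupport_iff_eventuallyEq.mp h2

/-- if one cutoff is `1` near `z`, then all cutoffs are constant near `z` -/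
theorem PS.dz_zero_near {ρ : ℂ → ℝ} (ps : PS D ρ ι) {j : ι} {z : ℂ}
    (hz : ∀ᶠ w in 𝓝 z, ps.chi j w = 1) (i : ι) :
    ∀ᶠ w in 𝓝 z, dz (fun u => (ps.chi i u : ℂ)) w = 0 ∧ dzb (fun u => (ps.chi i u : ℂ)) w = 0 := by
  have h1 : ∃ c : ℝ, ∀ᶠ w in 𝓝 z, ps.chi i w = c := by
    by_cases hij : j = i
    · subst hij; exact ⟨1, hz⟩
    · exact ⟨0, ps.eq_zero_near hij hz⟩
  obtain ⟨c, hc⟩ := h1
  filter_upwards [eventually_eventually_nhds.mpr hc] with w hw
  have h2 : (fun u => (ps.chi i u : ℂ)) =ᶠ[𝓝 w] fun _ => (c : ℂ) := by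
    filter_upwards [hw] with u hu
    rw [hu]
  have h3 := dz_congr h2
  have h4 := dz_const (c := (c : ℂ)) (z := w)
  exact ⟨h3.1.trans h4.1, h3.2.trans h4.2⟩

theorem PS.dz_zero_circ {ρ : ℂ → ℝ} (ps : PS D ρ ι) (l : Option (Fin k)) {z : ℂ}
    (hz : z ∈ D.circ l) (i : ι) :
    ∀ᶠ w in 𝓝 z, dz (fun u => (ps.chi i u : ℂ)) w = 0 ∧ dzb (fun u => (ps.chi i u : ℂ)) w = 0 :=
  ps.dz_zero_near (ps.bd_near l z hz) i

theorem PS.chi_circ {ρ : ℂ → ℝ} (ps : PS D ρ ι) (l : Option (Fin k)) {z : ℂ}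
    (hz : z ∈ D.circ l) (i : ι) : ps.chi i z = if i = ps.bd l then 1 else 0 := by
  have h1 := ps.bd_near l z hz
  split_ifs with hi
  · rw [hi]; exact h1.self_of_nhds
  · exact (ps.eq_zero_near (Ne.symm hi) h1).self_of_nhds

/-- a smooth function vanishing near the circles and the critical points, cut off at the domain, is
a test function in the set of noncritical points -/
theorem PS.isTest (hτ : D.Good τ) (hδ : 0 < δ) (h : HM D τ δ) {x : Fin k → ℝ} {B : ℂ → ℂ}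
    (hB : ContDiffOn ℝ (⊤ : ℕ∞) B (D.Ue δ)) (h0 : ∀ l, ∀ z ∈ D.circ l, ∀ᶠ w in 𝓝 z, B w = 0)
    (h1 : ∀ z ∈ D.U, h.vv x z = 0 → ∀ᶠ w in 𝓝 z, B w = 0) :
    IsTest D.U (D.U.indicator B) ∧ (∀ z ∈ tsupport (D.U.indicator B), h.vv x z ≠ 0) ∧
      IsTest {z | z ∈ D.U ∧ h.vv x z ≠ 0} (D.U.indicator B) := by
  have h2 : IsTest D.U (D.U.indicator B) :=
    isTest_indicator D (D.Ue_open δ) (D.cU_subset_Ue hδ) hB h0
  have h3 : ∀ z ∈ tsupport (D.U.indicator B), h.vv x z ≠ 0 := by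
    intro z hz hvz
    have hzU : z ∈ D.U := h2.supp hz
    have h4 := h1 z hzU hvz
    refine (notMem_tsupport_iff_eventuallyEq.mpr ?_) hz
    filter_upwards [h4] with w hw
    by_cases hwU : w ∈ D.U
    · rw [indicator_of_mem hwU, hw]; rfl
    · rw [indicator_of_notMem hwU]; rfl
  exact ⟨h2, h3, ⟨h2.smooth, h2.compact, fun z hz => ⟨h2.supp hz, h3 z hz⟩⟩⟩

/-- the derivatives of the cutoffs, times a smooth function -/
theorem PS.isTest_dz (hτ : D.Good τ) (hδ : 0 < δ) (h : HM D τ δ) {x : Fin k → ℝ}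
    (ps : PS D (h.rho x) ι) (i : ι) {F : ℂ → ℂ} (hF : ContDiffOn ℝ (⊤ : ℕ∞) F (D.Ue δ)) :
    (IsTest D.U (D.U.indicator fun z => dz (fun u => (ps.chi i u : ℂ)) z * F z) ∧
      (∀ z ∈ tsupport (D.U.indicator fun z => dz (fun u => (ps.chi i u : ℂ)) z * F z),
        h.vv x z ≠ 0) ∧
      IsTest {z | z ∈ D.U ∧ h.vv x z ≠ 0}
        (D.U.indicator fun z => dz (fun u => (ps.chi i u : ℂ)) z * F z)) ∧
    (IsTest D.U (D.U.indicator fun z => dzb (fun u => (ps.chi i u : ℂ)) z * F z) ∧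
      (∀ z ∈ tsupport (D.U.indicator fun z => dzb (fun u => (ps.chi i u : ℂ)) z * F z),
        h.vv x z ≠ 0) ∧
      IsTest {z | z ∈ D.U ∧ h.vv x z ≠ 0}
        (D.U.indicator fun z => dzb (fun u => (ps.chi i u : ℂ)) z * F z)) := by
  have hc : ContDiff ℝ (⊤ : ℕ∞) (fun u => (ps.chi i u : ℂ)) :=
    Complex.ofRealCLM.contDiff.comp (ps.smooth i)
  have hd := dz_contDiffOn isOpen_univ hc.contDiffOn
  have hcrit : ∀ z ∈ D.U, h.vv x z = 0 → ∀ᶠ w in 𝓝 z,
      dz (fun u => (ps.chi i u : ℂ)) w = 0 ∧ dzb (fun u => (ps.chi i u : ℂ)) w = 0 := by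
    intro z hz hv
    have hzc : z ∈ D.cU := D.U_subset_cU hz
    have h1 := (rho_facts h hτ hδ x 0).2.2.2.1 z (D.cU_subset_Ue hδ hzc)
    obtain ⟨j, hj⟩ := ps.crit_near z hzc (h1.trans hv)
    exact ps.dz_zero_near hj i
  constructor
  · refine PS.isTest hτ hδ h ((hd.1.mono (subset_univ _)).mul hF) ?_ ?_
    · intro l z hz
      filter_upwards [ps.dz_zero_circ l hz i] with w hw
      rw [hw.1, zero_mul]
    · intro z hz hv
      filter_upwards [hcrit z hz hv] with w hw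
      rw [hw.1, zero_mul]
  · refine PS.isTest hτ hδ h ((hd.2.mono (subset_univ _)).mul hF) ?_ ?_
    · intro l z hz
      filter_upwards [ps.dz_zero_circ l hz i] with w hw
      rw [hw.2, zero_mul]
    · intro z hz hv
      filter_upwards [hcrit z hz hv] with w hw
      rw [hw.2, zero_mul]

/-- the set of noncritical points of the domain is open -/
theorem noncrit_open (hδ : 0 < δ) (h : HM D τ δ) (x : Fin k → ℝ) :
    IsOpen {z | z ∈ D.U ∧ h.vv x z ≠ 0} := by
  have hv : ContinuousOn (h.vv x) D.U := by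
    unfold HM.vv
    refine continuousOn_finsetSum _ fun j _ => continuousOn_const.mul ?_
    exact (h.hol j).continuousOn.mono (D.U_subset_cU.trans (D.cU_subset_Ue hδ))
  exact hv.isOpen_inter_preimage D.U_open (t := {0}ᶜ) isOpen_compl_singleton

/-- constant multiples -/
theorem dz_cmul {c : ℂ} {F : ℂ → ℂ} {z : ℂ} (hF : DifferentiableAt ℝ F z) :
    dz (fun w => c * F w) z = c * dz F z ∧ dzb (fun w => c * F w) z = c * dzb F z := by
  have h1 := dz_smul (f := fun _ => c) (differentiableAt_const _) hF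
  simp only [smul_eq_mul, dz_const.1, dz_const.2, zero_mul, zero_add] at h1
  exact h1

/-- the actual exponent `lS` is smooth near the closed domain -/
theorem lS_smooth (hτ : D.Good τ) (hδ : 0 < δ) (h : HM D τ δ) {x : Fin k → ℝ}
    (ps : PS D (h.rho x) ι) (N : ℝ) (y : ι → ℝ) (w : Fin k → ℂ) :
    ContDiffOn ℝ (⊤ : ℕ∞) (lS h ps N y w) (D.Ue δ) := by
  obtain ⟨hρ, hρc, -⟩ := rho_facts h hτ hδ x w
  unfold lS
  refine ContDiffOn.add (ContDiffOn.add ?_ ?_) hρc
  · refine contDiffOn_const.mul ?_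
    refine Complex.ofRealCLM.contDiff.comp_contDiffOn (f := fun z => N * h.rho x z) ?_
    exact contDiffOn_const.mul hρ
  · refine contDiffOn_const.mul ?_
    refine Complex.ofRealCLM.contDiff.comp_contDiffOn (f := fun z => ∑ i, y i * ps.chi i z) ?_
    exact (ContDiff.sum fun i _ => contDiff_const.mul (ps.smooth i)).contDiffOn

/-- derivatives of the actual exponent -/
theorem lS_deriv (hτ : D.Good τ) (hδ : 0 < δ) (h : HM D τ δ) {x : Fin k → ℝ}
    (ps : PS D (h.rho x) ι) (N : ℝ) (y : ι → ℝ) (w : Fin k → ℂ) {z : ℂ} (hz : z ∈ D.Ue δ) :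
    dz (lS h ps N y w) z = Complex.I * N * h.vv x z +
        Complex.I * ∑ i, y i * dz (fun u => (ps.chi i u : ℂ)) z + dz (h.rhoC w) z ∧
      dzb (lS h ps N y w) z = Complex.I * N * conj (h.vv x z) +
        Complex.I * ∑ i, y i * dzb (fun u => (ps.chi i u : ℂ)) z + h.vb w z := by
  obtain ⟨hρ, hρc, -, hdz, hdzb, hvb, -⟩ := rho_facts h hτ hδ x w
  have hzn := (D.Ue_open δ).mem_nhds hz
  have hρ' : ContDiffOn ℝ (⊤ : ℕ∞) (fun z => (h.rho x z : ℂ)) (D.Ue δ) :=
    Complex.ofRealCLM.contDiff.comp_contDiffOn hρ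
  have d1 : DifferentiableAt ℝ (fun z => (h.rho x z : ℂ)) z :=
    (hρ'.contDiffAt hzn).differentiableAt (by simp)
  have d2 : DifferentiableAt ℝ (h.rhoC w) z := (hρc.contDiffAt hzn).differentiableAt (by simp)
  have hc : ∀ i, ContDiff ℝ (⊤ : ℕ∞) (fun u => (ps.chi i u : ℂ)) := fun i =>
    Complex.ofRealCLM.contDiff.comp (ps.smooth i)
  have d3 : ∀ i, DifferentiableAt ℝ (fun u => (ps.chi i u : ℂ)) z := fun i =>
    (hc i).contDiffAt.differentiableAt (by simp)
  have d4 : ∀ i ∈ (Finset.univ : Finset ι), DifferentiableAt ℝ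
      (fun u => (y i : ℂ) * (ps.chi i u : ℂ)) z := fun i _ => (d3 i).const_mul _
  have d5 : DifferentiableAt ℝ (fun u => ∑ i, (y i : ℂ) * (ps.chi i u : ℂ)) z :=
    DifferentiableAt.fun_sum d4
  have d6 : DifferentiableAt ℝ (fun u => (Complex.I * N) * (h.rho x u : ℂ)) z := d1.const_mul _
  have d7 : DifferentiableAt ℝ (fun u => Complex.I * ∑ i, (y i : ℂ) * (ps.chi i u : ℂ)) z :=
    d5.const_mul _
  have d8 : DifferentiableAt ℝ (fun u => (Complex.I * N) * (h.rho x u : ℂ) +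
      Complex.I * ∑ i, (y i : ℂ) * (ps.chi i u : ℂ)) z := d6.add d7
  have e1 : lS h ps N y w = fun u => ((Complex.I * N) * (h.rho x u : ℂ) +
      Complex.I * ∑ i, (y i : ℂ) * (ps.chi i u : ℂ)) + h.rhoC w u := by
    funext u
    simp only [lS]
    push_cast
    ring
  rw [e1]
  constructor
  · rw [(dz_add d8 d2).1, (dz_add d6 d7).1, (dz_cmul d1).1, (dz_cmul d5).1, (dz_sum _ d4).1,
      hdz z hz]
    congr 3
    exact Finset.sum_congr rfl fun i _ => (dz_cmul (d3 i)).1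
  · rw [(dz_add d8 d2).2, (dz_add d6 d7).2, (dz_cmul d1).2, (dz_cmul d5).2, (dz_sum _ d4).2,
      hdzb z hz, hvb z hz]
    congr 3
    exact Finset.sum_congr rfl fun i _ => (dz_cmul (d3 i)).2

/-- values of the actual exponent on the circles -/
theorem lS_circ (hτ : D.Good τ) (hδ : 0 < δ) (h : HM D τ δ) {x : Fin k → ℝ}
    (ps : PS D (h.rho x) ι) (N : ℝ) (y : ι → ℝ) (w : Fin k → ℂ) (l : Option (Fin k)) {z : ℂ}
    (hz : z ∈ D.circ l) : lS h ps N y w z =
      Complex.I * (N * ps.c (ps.bd l) + y (ps.bd l) : ℝ) + l.elim 0 w := by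
  obtain ⟨-, -, -, -, -, -, hn, hs⟩ := rho_facts h hτ hδ x w
  have h1 : h.rho x z = ps.c (ps.bd l) := ps.val_circ l z hz
  have h2 : ∑ i, y i * ps.chi i z = y (ps.bd l) := by
    simp [ps.chi_circ l hz]
  have h3 : h.rhoC w z = l.elim 0 w := by
    cases l with
    | none => exact (hn z hz).2
    | some j => exact (hs j z hz).2
  simp only [lS, h1, h2, h3]
  push_cast
  ring

end

end Pool.Agent.Helper7.KE
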