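import Pool.Agent.Helper7.KE.B5
import Pool.Agent.Helper7.KE.A2b
import Pool.Agent.Helper7.KE.D5b
import Pool.Agent.Helper7.KE.PSaux

set_option autoImplicit false

open MeasureTheory Set Filter Asymptotics Topology Metric
open scoped ComplexConjugate ENNReal

namespace Pool.Agent.Helper7.KE

section
variable {k : ℕ} {D : CD k} {τ δ : ℝ} {ι : Type} [Fintype ι] [DecidableEq ι]

private theorem e3a_integrable {k : ℕ} (D : CD k) {F : ℂ → ℂ} (hF : ContinuousOn F D.cU) :
    Integrable F (volume.restrict D.U) :=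
  (hF.integrableOn_compact D.cU_compact).mono_set D.U_subset_cU

private theorem e3a_int3 {k : ℕ} (D : CD k) {A B C : ℂ → ℂ}
    (hA : Integrable A (volume.restrict D.U)) (hB : Integrable B (volume.restrict D.U))
    (hC : Integrable C (volume.restrict D.U)) :
    ∫ z in D.U, (A z - B z + C z) = (∫ z in D.U, A z) - (∫ z in D.U, B z) + ∫ z in D.U, C z := by
  have a1 : ∫ z in D.U, (A z - B z + C z) = (∫ z in D.U, (A z - B z)) + ∫ z in D.U, C z :=
    integral_add (hA.sub hB) hC
  rw [a1, integral_sub hA hB]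

/-- integration by parts for one cutoff -/
private theorem e3a_parts (hτ : D.Good τ) (hδ : 0 < δ) (h : HM D τ δ) {x : Fin k → ℝ}
    (ps : PS D (h.rho x) ι) {q : ℂ → ℂ} (hq : DifferentiableOn ℂ q (D.Ue δ)) (N : ℝ) (i : ι) :
    (Complex.I * N) * ∫ z in D.U, (ps.chi i z : ℂ) *
        Complex.exp (Complex.I * (N * (h.rho x z - ps.c i) : ℝ)) * h.vv x z * conj (q z) =
      -(∫ z in D.U, Complex.exp (Complex.I * (N * (h.rho x z - ps.c i) : ℝ)) *
        (dz (fun u => (ps.chi i u : ℂ)) z * conj (q z))) +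
      ∫ z in D.U, dz (fun u => (ps.chi i u : ℂ)) z * conj (q z) := by
  obtain ⟨hρ, -, hvv, hdz, -, -, hn, hs⟩ := rho_facts h hτ hδ x 0
  have hUe := D.Ue_open δ
  set W : ℂ → ℂ := fun z => Complex.exp (Complex.I * (N * (h.rho x z - ps.c i) : ℝ)) with hW
  have hc : ContDiff ℝ (⊤ : ℕ∞) (fun u => (ps.chi i u : ℂ)) :=
    Complex.ofRealCLM.contDiff.comp (ps.smooth i)
  have hq' : ContDiffOn ℝ (⊤ : ℕ∞) (fun z => conj (q z)) (D.Ue δ) :=
    Complex.conjCLE.contDiff.comp_contDiffOn (hol_contDiffOn hUe hq)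
  have hρc : ContDiffOn ℝ (⊤ : ℕ∞) (fun z => (h.rho x z : ℂ)) (D.Ue δ) :=
    Complex.ofRealCLM.contDiff.comp_contDiffOn hρ
  have hW' : ContDiffOn ℝ (⊤ : ℕ∞) W (D.Ue δ) := by
    refine ContDiffOn.cexp ?_
    refine contDiffOn_const.mul ?_
    refine Complex.ofRealCLM.contDiff.comp_contDiffOn (f := fun z => N * (h.rho x z - ps.c i)) ?_
    exact contDiffOn_const.mul (hρ.sub contDiffOn_const)
  -- derivative of the exponential
  have hdW : ∀ z ∈ D.Ue δ, dz (fun w => W w - 1) z = W z * (Complex.I * N * h.vv x z) := by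
    intro z hz
    have hzn := hUe.mem_nhds hz
    have hρd : DifferentiableAt ℝ (fun z => (h.rho x z : ℂ)) z :=
      (hρc.contDiffAt hzn).differentiableAt (by simp)
    have hWd : DifferentiableAt ℝ W z := (hW'.contDiffAt hzn).differentiableAt (by simp)
    have e1 : (fun w => W w - 1) = fun w => W w + (-1 : ℂ) := by
      funext w; ring
    rw [e1, (dz_add hWd (differentiableAt_const _)).1, dz_const.1, add_zero]
    have e2 : W = fun w => Complex.exp ((Complex.I * N) • (h.rho x w : ℂ) +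
        (-(Complex.I * N * ps.c i))) := by
      funext w
      simp only [hW, smul_eq_mul]
      congr 1
      push_cast
      ring
    have hlin : DifferentiableAt ℝ (fun w => (Complex.I * N) • (h.rho x w : ℂ)) z :=
      hρd.const_mul (Complex.I * N)
    have hadd : DifferentiableAt ℝ (fun w => (Complex.I * N) • (h.rho x w : ℂ) +
        (-(Complex.I * N * ps.c i))) z := hlin.add_const _
    rw [e2, (dz_cexp hadd).1]
    rw [(dz_add hlin (differentiableAt_const _)).1, dz_const.1, add_zero]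
    rw [(dz_smul (differentiableAt_const _) hρd).1, dz_const.1, hdz z hz]
    simp only [smul_eq_mul, zero_mul, zero_add]
  -- Green
  set F : ℂ → ℂ := fun z => ((ps.chi i z : ℂ) • conj (q z)) • (W z - 1) with hF
  have hF' : ContDiffOn ℝ 1 F (D.Ue δ) := by
    have h1 : ContDiffOn ℝ (⊤ : ℕ∞) F (D.Ue δ) :=
      ((hc.contDiffOn).smul hq').smul (hW'.sub contDiffOn_const)
    exact h1.of_le (by simp)
  have hF0 : ∀ l, ∀ z ∈ D.circ l, F z = 0 := by
    intro l z hz
    simp only [hF, ps.chi_circ l hz i]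
    by_cases hi : i = ps.bd l
    · have h2 : h.rho x z = ps.c i := by rw [hi]; exact ps.val_circ l z hz
      simp [hW, h2]
    · simp [hi]
  have hgreen := (green_zero D hUe (D.cU_subset_Ue hδ) hF' hF0).1
  have hdF : ∀ z ∈ D.U, dz F z = W z * (dz (fun u => (ps.chi i u : ℂ)) z * conj (q z)) -
      dz (fun u => (ps.chi i u : ℂ)) z * conj (q z) +
      (Complex.I * N) * ((ps.chi i z : ℂ) * W z * h.vv x z * conj (q z)) := by
    intro z hz
    have hzU : z ∈ D.Ue δ := D.cU_subset_Ue hδ (D.U_subset_cU hz)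
    have hzn := hUe.mem_nhds hzU
    have hcd : DifferentiableAt ℝ (fun u => (ps.chi i u : ℂ)) z :=
      hc.contDiffAt.differentiableAt (by simp)
    have hqd : DifferentiableAt ℝ (fun z => conj (q z)) z :=
      (hq'.contDiffAt hzn).differentiableAt (by simp)
    have hWd : DifferentiableAt ℝ (fun w => W w - 1) z :=
      ((hW'.contDiffAt hzn).differentiableAt (by simp)).sub_const 1
    have hqz : DifferentiableAt ℂ q z := hq.differentiableAt hzn
    rw [hF, (dz_smul (f := fun z => (ps.chi i z : ℂ) • conj (q z)) (hcd.smul hqd) hWd).1,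
      (dz_smul hcd hqd).1, (dz_conj_hol hqz).1, hdW z hzU]
    simp only [smul_eq_mul, mul_zero, add_zero]
    ring
  have hcW : ContinuousOn W D.cU := hW'.continuousOn.mono (D.cU_subset_Ue hδ)
  have hcq : ContinuousOn (fun z => conj (q z)) D.cU :=
    hq'.continuousOn.mono (D.cU_subset_Ue hδ)
  have hcd : ContinuousOn (dz (fun u => (ps.chi i u : ℂ))) D.cU :=
    ((dz_contDiffOn isOpen_univ hc.contDiffOn).1.continuousOn).mono (subset_univ _)
  have hcv : ContinuousOn (h.vv x) D.cU := hvv.continuousOn.mono (D.cU_subset_Ue hδ)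
  have i1 : Integrable (fun z => W z * (dz (fun u => (ps.chi i u : ℂ)) z * conj (q z)))
      (volume.restrict D.U) := e3a_integrable D (hcW.mul (hcd.mul hcq))
  have i2 : Integrable (fun z => dz (fun u => (ps.chi i u : ℂ)) z * conj (q z))
      (volume.restrict D.U) := e3a_integrable D (hcd.mul hcq)
  have i3 : Integrable (fun z => (Complex.I * N) *
      ((ps.chi i z : ℂ) * W z * h.vv x z * conj (q z))) (volume.restrict D.U) :=
    (e3a_integrable D (((hc.continuous.continuousOn.mul hcW).mul hcv).mul hcq)).const_mul _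
  rw [setIntegral_congr_fun D.U_open.measurableSet hdF] at hgreen
  rw [e3a_int3 D i1 i2 i3, integral_const_mul] at hgreen
  linear_combination hgreen

private theorem e3a_sum (hτ : D.Good τ) (hδ : 0 < δ) (h : HM D τ δ) {x : Fin k → ℝ}
    (ps : PS D (h.rho x) ι) {q : ℂ → ℂ} (hq : DifferentiableOn ℂ q (D.Ue δ)) :
    ∑ i, ∫ z in D.U, dz (fun u => (ps.chi i u : ℂ)) z * conj (q z) = 0 := by
  have hUe := D.Ue_open δ
  have hc : ∀ i, ContDiff ℝ (⊤ : ℕ∞) (fun u => (ps.chi i u : ℂ)) := fun i =>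
    Complex.ofRealCLM.contDiff.comp (ps.smooth i)
  have hq' : ContDiffOn ℝ (⊤ : ℕ∞) (fun z => conj (q z)) (D.Ue δ) :=
    Complex.conjCLE.contDiff.comp_contDiffOn (hol_contDiffOn hUe hq)
  have hcq : ContinuousOn (fun z => conj (q z)) D.cU :=
    hq'.continuousOn.mono (D.cU_subset_Ue hδ)
  have hcd : ∀ i, ContinuousOn (dz (fun u => (ps.chi i u : ℂ))) D.cU := fun i =>
    ((dz_contDiffOn isOpen_univ (hc i).contDiffOn).1.continuousOn).mono (subset_univ _)
  have hint : ∀ i ∈ (Finset.univ : Finset ι), Integrable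
      (fun z => dz (fun u => (ps.chi i u : ℂ)) z * conj (q z)) (volume.restrict D.U) :=
    fun i _ => e3a_integrable D ((hcd i).mul hcq)
  rw [← integral_finsetSum _ hint]
  set F : ℂ → ℂ := fun z => ((∑ i, (ps.chi i z : ℂ)) + (-1)) • conj (q z) with hF
  have hsum : ContDiff ℝ (⊤ : ℕ∞) (fun z => ∑ i, (ps.chi i z : ℂ)) :=
    ContDiff.sum fun i _ => hc i
  have hF' : ContDiffOn ℝ 1 F (D.Ue δ) := by
    have h1 : ContDiffOn ℝ (⊤ : ℕ∞) F (D.Ue δ) :=
      ((hsum.contDiffOn).add contDiffOn_const).smul hq'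
    exact h1.of_le (by simp)
  have hF0 : ∀ l, ∀ z ∈ D.circ l, F z = 0 := by
    intro l z hz
    have h2 : ∀ i, (ps.chi i z : ℂ) = if i = ps.bd l then 1 else 0 := fun i => by
      rw [ps.chi_circ l hz i]; split_ifs <;> simp
    simp only [hF, h2]
    simp
  rw [← (green_zero D hUe (D.cU_subset_Ue hδ) hF' hF0).1]
  refine setIntegral_congr_fun D.U_open.measurableSet fun z hz => ?_
  have hzU : z ∈ D.Ue δ := D.cU_subset_Ue hδ (D.U_subset_cU hz)
  have hzn := hUe.mem_nhds hzU
  have hcd' : ∀ i, DifferentiableAt ℝ (fun u => (ps.chi i u : ℂ)) z := fun i =>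
    (hc i).contDiffAt.differentiableAt (by simp)
  have hsd : DifferentiableAt ℝ (fun z => ∑ i, (ps.chi i z : ℂ)) z :=
    hsum.contDiffAt.differentiableAt (by simp)
  have hqd : DifferentiableAt ℝ (fun z => conj (q z)) z :=
    (hq'.contDiffAt hzn).differentiableAt (by simp)
  have hqz : DifferentiableAt ℂ q z := hq.differentiableAt hzn
  rw [hF]
  rw [(dz_smul (f := fun z => (∑ i, (ps.chi i z : ℂ)) + (-1)) (hsd.add_const _) hqd).1,
    (dz_add hsd (differentiableAt_const _)).1, dz_const.1, add_zero,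
    (dz_sum Finset.univ fun i _ => hcd' i).1, (dz_conj_hol hqz).1]
  simp only [smul_eq_mul, mul_zero, add_zero, Finset.sum_mul]

/-- the vector `u = ∂ρ/∂z` is in the kernel of the virtual forms up to `O(N^{-∞})` -/
theorem kernel_u (hτ : D.Good τ) (hδ : 0 < δ) (hδτ : δ ≤ τ) (h : HM D τ δ) {x : Fin k → ℝ}
    (hx : x ≠ 0) (ps : PS D (h.rho x) ι) {q : ℂ → ℂ} (hq : DifferentiableOn ℂ q (D.Ue δ))
    (K : ℕ) : ∃ C : ℝ, ∀ N : ℝ, 1 ≤ N → ‖Bv h ps N 0 0 (h.vv x) q‖ ≤ C / N ^ K := by
  have hUe := D.Ue_open δ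
  obtain ⟨hρ, -, hvv, hdz, -, -, hn, hs⟩ := rho_facts h hτ hδ x 0
  have hq' : ContDiffOn ℝ (⊤ : ℕ∞) (fun z => conj (q z)) (D.Ue δ) :=
    Complex.conjCLE.contDiff.comp_contDiffOn (hol_contDiffOn hUe hq)
  have hVUe : {z | z ∈ D.U ∧ h.vv x z ≠ 0} ⊆ D.Ue δ := fun z hz =>
    D.cU_subset_Ue hδ (D.U_subset_cU hz.1)
  have hns : ∀ i, ∃ C : ℝ, ∀ N : ℝ, 1 ≤ N →
      ‖∫ z, Complex.exp (Complex.I * (N * h.rho x z : ℝ)) •
        D.U.indicator (fun z => dz (fun u => (ps.chi i u : ℂ)) z * conj (q z)) z‖ ≤ C / N ^ K :=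
    fun i => nonstat (noncrit_open hδ h x) (hρ.mono hVUe)
      (fun z hz => by rw [hdz z (hVUe hz)]; exact hz.2) (PS.isTest_dz hτ hδ h ps i hq').1.2.2 K
  choose C hC using hns
  refine ⟨∑ i, |C i|, fun N hN => ?_⟩
  have hNpos : 0 < N := by linarith
  have hJ : ∀ i, ‖∫ z in D.U, Complex.exp (Complex.I * (N * (h.rho x z - ps.c i) : ℝ)) *
      (dz (fun u => (ps.chi i u : ℂ)) z * conj (q z))‖ ≤ |C i| / N ^ K := by
    intro i
    have e1 : ∫ z in D.U, Complex.exp (Complex.I * (N * (h.rho x z - ps.c i) : ℝ)) *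
        (dz (fun u => (ps.chi i u : ℂ)) z * conj (q z)) =
        Complex.exp (Complex.I * (-(N * ps.c i) : ℝ)) *
        ∫ z, Complex.exp (Complex.I * (N * h.rho x z : ℝ)) •
          D.U.indicator (fun z => dz (fun u => (ps.chi i u : ℂ)) z * conj (q z)) z := by
      rw [← integral_const_mul, ← integral_indicator D.U_open.measurableSet]
      refine integral_congr_ae (ae_of_all _ fun z => ?_)
      simp only [indicator]
      split_ifs
      · have e2 : Complex.exp (Complex.I * (N * (h.rho x z - ps.c i) : ℝ)) =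
            Complex.exp (Complex.I * (-(N * ps.c i) : ℝ)) *
              Complex.exp (Complex.I * (N * h.rho x z : ℝ)) := by
          rw [← Complex.exp_add]
          congr 1
          push_cast
          ring
        rw [e2, smul_eq_mul]
        ring
      · simp
    rw [e1, norm_mul]
    have e2 : ‖Complex.exp (Complex.I * ((-(N * ps.c i) : ℝ) : ℂ))‖ = 1 := by
      rw [mul_comm]; exact Complex.norm_exp_ofReal_mul_I _
    rw [e2, one_mul]
    refine (hC i N hN).trans ?_
    gcongr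
    exact le_abs_self _
  have hB : (Complex.I * N) * Bv h ps N 0 0 (h.vv x) q =
      -∑ i, ∫ z in D.U, Complex.exp (Complex.I * (N * (h.rho x z - ps.c i) : ℝ)) *
        (dz (fun u => (ps.chi i u : ℂ)) z * conj (q z)) := by
    have hr : ∀ z, h.rhoC 0 z = 0 := fun z => by simp [HM.rhoC]
    have e3 : Bv h ps N 0 0 (h.vv x) q = ∑ i, ∫ z in D.U, (ps.chi i z : ℂ) *
        Complex.exp (Complex.I * (N * (h.rho x z - ps.c i) : ℝ)) * h.vv x z * conj (q z) := by
      simp only [Bv, hr, Complex.exp_zero, mul_one, Pi.zero_apply, Complex.ofReal_zero, mul_zero,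
        one_mul]
    rw [e3, Finset.mul_sum, Finset.sum_congr rfl fun i _ => e3a_parts hτ hδ h ps hq N i,
      Finset.sum_add_distrib, e3a_sum hτ hδ h ps hq, add_zero, Finset.sum_neg_distrib]
  have hnorm : N * ‖Bv h ps N 0 0 (h.vv x) q‖ ≤ (∑ i, |C i|) / N ^ K := by
    have e4 : N * ‖Bv h ps N 0 0 (h.vv x) q‖ = ‖(Complex.I * N) * Bv h ps N 0 0 (h.vv x) q‖ := by
      rw [norm_mul, norm_mul, Complex.norm_I, one_mul, Complex.norm_real,
        Real.norm_of_nonneg hNpos.le]
    rw [e4, hB, norm_neg, Finset.sum_div]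
    exact (norm_sum_le _ _).trans (Finset.sum_le_sum fun i _ => hJ i)
  calc ‖Bv h ps N 0 0 (h.vv x) q‖ = 1 * ‖Bv h ps N 0 0 (h.vv x) q‖ := (one_mul _).symm
    _ ≤ N * ‖Bv h ps N 0 0 (h.vv x) q‖ := by gcongr
    _ ≤ _ := hnorm

end

end Pool.Agent.Helper7.KE
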