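import Pool.Agent.Helper7.KE.A4
import Pool.Agent.Helper7.KE.B5
import Pool.Agent.Helper7.KE.D5b

set_option autoImplicit false

open MeasureTheory Set Filter Asymptotics Topology Metric
open scoped ComplexConjugate ENNReal

namespace Pool.Agent.Helper7.KE

namespace PosId

/-- local estimates near a zero of `u` -/
theorem loc_est {u g v : ℂ → ℂ} {p : ℂ} (hg : AnalyticAt ℂ g p) {n : ℕ}
    (hv : AnalyticAt ℂ v p) (hvp : v p ≠ 0) (huv : ∀ᶠ w in 𝓝 p, u w = (w - p) ^ n • v w)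
    (hn : 1 ≤ n) :
    ∃ C : ℝ, 0 ≤ C ∧ ∀ᶠ w in 𝓝 p, ‖g w‖ ≤ C ∧ ‖g w / u w‖ * ‖w - p‖ ^ n ≤ C ∧
      ‖deriv (fun w => g w / u w) w‖ * ‖w - p‖ ^ (n + 1) ≤ C := by
  have hk : AnalyticAt ℂ (fun w => g w / v w) p := hg.div hv hvp
  set kk : ℂ → ℂ := fun w => g w / v w with hkk
  have b1 : ∀ᶠ w in 𝓝 p, ‖g w‖ < ‖g p‖ + 1 :=
    hg.continuousAt.norm.eventually_lt continuousAt_const (by simp)
  have b2 : ∀ᶠ w in 𝓝 p, ‖kk w‖ < ‖kk p‖ + 1 :=
    hk.continuousAt.norm.eventually_lt continuousAt_const (by simp)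
  have b3 : ∀ᶠ w in 𝓝 p, ‖deriv kk w‖ < ‖deriv kk p‖ + 1 :=
    hk.deriv.continuousAt.norm.eventually_lt continuousAt_const (by simp)
  have b4 : ∀ᶠ w in 𝓝 p, ‖w - p‖ < 1 := by
    have : ContinuousAt (fun w : ℂ => ‖w - p‖) p := by fun_prop
    exact this.eventually_lt continuousAt_const (by simp)
  have b5 : ∀ᶠ w in 𝓝 p, ∀ᶠ w' in 𝓝 w, u w' = (w' - p) ^ n • v w' :=
    eventually_eventually_nhds.2 huv
  have b6 : ∀ᶠ w in 𝓝 p, AnalyticAt ℂ kk w := hk.eventually_analyticAt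
  refine ⟨(‖g p‖ + 1) + (‖kk p‖ + 1) + ((‖deriv kk p‖ + 1) + n * (‖kk p‖ + 1)),
    by positivity, ?_⟩
  have p1 : 0 ≤ ‖g p‖ := norm_nonneg _
  have p2 : 0 ≤ ‖kk p‖ := norm_nonneg _
  have p3 : 0 ≤ ‖deriv kk p‖ := norm_nonneg _
  have p4 : (0 : ℝ) ≤ n * (‖kk p‖ + 1) := by positivity
  filter_upwards [b1, b2, b3, b4, b5, b6] with w h1 h2 h3 h4 h5 h6
  by_cases hw : w = p
  · subst hw
    refine ⟨by linarith, ?_, ?_⟩
    · rw [sub_self, norm_zero, zero_pow (by omega), mul_zero]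
      positivity
    · rw [sub_self, norm_zero, zero_pow (by omega), mul_zero]
      positivity
  have ht : w - p ≠ 0 := sub_ne_zero.2 hw
  have ht' : 0 < ‖w - p‖ := norm_pos_iff.2 ht
  have e1 : ∀ w' : ℂ, u w' = (w' - p) ^ n • v w' → g w' / u w' = kk w' / (w' - p) ^ n := by
    intro w' hw'
    rw [hw', hkk, smul_eq_mul, mul_comm, div_div]
  refine ⟨by linarith, ?_, ?_⟩
  · rw [e1 w h5.self_of_nhds, norm_div, norm_pow, div_mul_cancel₀ _ (by positivity)]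
    linarith
  · have e2 : (fun w => g w / u w) =ᶠ[𝓝 w] fun w => kk w / (w - p) ^ n := by
      filter_upwards [h5] with w' hw' using e1 w' hw'
    rw [e2.deriv_eq]
    have d1 : HasDerivAt (fun w => (w - p) ^ n) ((n : ℂ) * (w - p) ^ (n - 1)) w := by
      simpa using ((hasDerivAt_id w).sub_const p).fun_pow n
    have d2 := (h6.differentiableAt.hasDerivAt.div d1 (pow_ne_zero n ht)).deriv
    rw [show (fun w => kk w / (w - p) ^ n) = (kk / fun w => (w - p) ^ n) from rfl, d2]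
    have e3 : ‖(deriv kk w * (w - p) ^ n - kk w * (↑n * (w - p) ^ (n - 1))) / ((w - p) ^ n) ^ 2‖ *
        ‖w - p‖ ^ (n + 1) = ‖deriv kk w * (w - p) - n * kk w‖ := by
      rw [← norm_pow, ← norm_mul]
      congr 1
      obtain ⟨m, rfl⟩ : ∃ m, n = m + 1 := ⟨n - 1, by omega⟩
      rw [Nat.add_sub_cancel]
      field_simp
      ring
    rw [e3]
    have e4 : ‖deriv kk w * (w - p) - n * kk w‖ ≤ ‖deriv kk w‖ * ‖w - p‖ + n * ‖kk w‖ := by
      refine (norm_sub_le _ _).trans (le_of_eq ?_)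
      rw [norm_mul, norm_mul, Complex.norm_natCast]
    have e5 : ‖deriv kk w‖ * ‖w - p‖ ≤ (‖deriv kk p‖ + 1) * 1 :=
      mul_le_mul h3.le h4.le (norm_nonneg _) (by positivity)
    have e6 : (n : ℝ) * ‖kk w‖ ≤ n * (‖kk p‖ + 1) :=
      mul_le_mul_of_nonneg_left h2.le (Nat.cast_nonneg n)
    linarith

theorem loc_rho {ρ : ℂ → ℝ} {u : ℂ → ℂ} {p : ℂ} {V : Set ℂ} (hV : IsOpen V) (hp : p ∈ V)
    (hρ : DifferentiableOn ℝ ρ V) (hu : ∀ z ∈ V, dz (fun w => (ρ w : ℂ)) z = u z) {C : ℝ}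
    (hC : 0 ≤ C) {n : ℕ}
    (huC : ∀ᶠ w in 𝓝 p, ‖u w‖ ≤ C * ‖w - p‖ ^ n) :
    ∀ᶠ w in 𝓝 p, |ρ w - ρ p| ≤ 4 * C * ‖w - p‖ ^ (n + 1) := by
  have h1 : ∀ᶠ w in 𝓝 p, w ∈ V ∧ ‖u w‖ ≤ C * ‖w - p‖ ^ n := (hV.eventually_mem hp).and huC
  obtain ⟨ε, hε, hb⟩ := Metric.eventually_nhds_iff_ball.1 h1
  filter_upwards [Metric.ball_mem_nhds p hε] with w hw
  have hw' : ‖w - p‖ < ε := by simpa [dist_eq_norm] using hw
  have hsub : closedBall p ‖w - p‖ ⊆ ball p ε := closedBall_subset_ball hw'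
  have key := (convex_closedBall p ‖w - p‖).norm_image_sub_le_of_norm_fderiv_le (𝕜 := ℝ) (f := ρ)
    (C := 4 * C * ‖w - p‖ ^ n) (x := p) (y := w)
    (fun z hz => (hρ z (hb z (hsub hz)).1).differentiableAt (hV.mem_nhds (hb z (hsub hz)).1))
    (fun z hz => ?_) (mem_closedBall_self (norm_nonneg _)) (by simp [dist_eq_norm])
  · rw [Real.norm_eq_abs] at key
    calc |ρ w - ρ p| ≤ 4 * C * ‖w - p‖ ^ n * ‖w - p‖ := key
      _ = _ := by ring
  · obtain ⟨hzV, hzu⟩ := hb z (hsub hz)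
    have hd : DifferentiableAt ℝ ρ z := (hρ z hzV).differentiableAt (hV.mem_nhds hzV)
    have hzp : ‖z - p‖ ≤ ‖w - p‖ := by simpa [dist_eq_norm] using hz
    have e0 : fderiv ℝ (fun w => (ρ w : ℂ)) z = Complex.ofRealCLM.comp (fderiv ℝ ρ z) := by
      exact (Complex.ofRealCLM.hasFDerivAt.comp z hd.hasFDerivAt).fderiv
    have e1 : u z = (2⁻¹ : ℂ) * ((fderiv ℝ ρ z 1 : ℝ) - Complex.I * (fderiv ℝ ρ z Complex.I : ℝ)) := by
      rw [← hu z hzV, dz, e0]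
      simp
    have e2 : |fderiv ℝ ρ z 1| ≤ 2 * ‖u z‖ := by
      have : (u z).re = fderiv ℝ ρ z 1 / 2 := by
        rw [e1]; simp; ring
      have h3 := Complex.abs_re_le_norm (u z)
      rw [this, abs_div] at h3
      norm_num at h3
      linarith
    have e3 : |fderiv ℝ ρ z Complex.I| ≤ 2 * ‖u z‖ := by
      have : (u z).im = -(fderiv ℝ ρ z Complex.I / 2) := by
        rw [e1]; simp; ring
      have h3 := Complex.abs_im_le_norm (u z)
      rw [this, abs_neg, abs_div] at h3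
      norm_num at h3
      linarith
    have e4 : ‖fderiv ℝ ρ z‖ ≤ 4 * ‖u z‖ := by
      refine ContinuousLinearMap.opNorm_le_bound _ (by positivity) fun q => ?_
      have hq : q = q.re • (1 : ℂ) + q.im • Complex.I := by
        apply Complex.ext <;> simp
      have : fderiv ℝ ρ z q = q.re * fderiv ℝ ρ z 1 + q.im * fderiv ℝ ρ z Complex.I := by
        conv_lhs => rw [hq]
        rw [map_add, map_smul, map_smul, smul_eq_mul, smul_eq_mul]
      rw [this, Real.norm_eq_abs]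
      have a1 : |q.re * fderiv ℝ ρ z 1| ≤ ‖q‖ * (2 * ‖u z‖) := by
        rw [abs_mul]
        exact mul_le_mul (Complex.abs_re_le_norm q) e2 (abs_nonneg _) (norm_nonneg _)
      have a2 : |q.im * fderiv ℝ ρ z Complex.I| ≤ ‖q‖ * (2 * ‖u z‖) := by
        rw [abs_mul]
        exact mul_le_mul (Complex.abs_im_le_norm q) e3 (abs_nonneg _) (norm_nonneg _)
      have a3 := abs_add_le (q.re * fderiv ℝ ρ z 1) (q.im * fderiv ℝ ρ z Complex.I)
      linarith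
    refine e4.trans ?_
    have e5 : ‖z - p‖ ^ n ≤ ‖w - p‖ ^ n := pow_le_pow_left₀ (norm_nonneg _) hzp n
    have e6 : C * ‖z - p‖ ^ n ≤ C * ‖w - p‖ ^ n := mul_le_mul_of_nonneg_left e5 hC
    linarith


/-- the analytic context -/
structure Ctx {k : ℕ} (D : CD k) (V Z : Set ℂ) (u : ℂ → ℂ) (ρ : ℂ → ℝ) (g₁ g₂ : ℂ → ℂ) :
    Prop where
  hV : IsOpen V
  hcV : D.cU ⊆ V
  hZ : Z.Finite
  hZc : Z ⊆ D.cU
  uZ : ∀ z ∈ V, u z = 0 ↔ z ∈ Z
  hu : DifferentiableOn ℂ u V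
  hρ : ContDiffOn ℝ (⊤ : ℕ∞) ρ V
  dρ : ∀ z ∈ V, dz (fun w => (ρ w : ℂ)) z = u z
  dbρ : ∀ z ∈ V, dzb (fun w => (ρ w : ℂ)) z = conj (u z)
  hg₁ : DifferentiableOn ℂ g₁ V
  hg₂ : DifferentiableOn ℂ g₂ V

/-- cutoff functions at critical values -/
structure Cut {k : ℕ} (D : CD k) (Z : Set ℂ) (ρ : ℂ → ℝ) (χ : ℂ → ℝ) (c : ℝ) : Prop where
  smooth : ContDiff ℝ (⊤ : ℕ∞) χ
  circ : ∀ l, ∀ z ∈ D.circ l,
    (∀ᶠ w in 𝓝 z, χ w = 0) ∨ (ρ z = c ∧ ∀ᶠ w in 𝓝 z, χ w = 1)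
  crit : ∀ p ∈ Z, (∀ᶠ w in 𝓝 p, χ w = 0) ∨ (ρ p = c ∧ ∀ᶠ w in 𝓝 p, χ w = 1)

section
variable {k : ℕ} {D : CD k} {V Z : Set ℂ} {u : ℂ → ℂ} {ρ : ℂ → ℝ} {g₁ g₂ : ℂ → ℂ}

theorem Ctx.openW (h : Ctx D V Z u ρ g₁ g₂) : IsOpen (V \ Z) :=
  h.hV.sdiff h.hZ.isClosed

theorem Ctx.int_aux (h : Ctx D V Z u ρ g₁ g₂) {F : ℂ → ℂ} (hF : ContinuousOn F (V \ Z))
    (hb : ∀ p ∈ Z, ∃ C : ℝ, ∀ᶠ w in 𝓝 p, w ∉ Z → ‖F w‖ ≤ C) : IntegrableOn F D.U := by
  have h1 : ∃ C : ℝ, ∀ z ∈ D.cU, z ∉ Z → ‖F z‖ ≤ C := by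
    refine D.cU_compact.induction_on (p := fun s => ∃ C : ℝ, ∀ z ∈ s, z ∉ Z → ‖F z‖ ≤ C)
      ⟨0, by simp⟩ ?_ ?_ ?_
    · rintro s t hst ⟨C, hC⟩
      exact ⟨C, fun z hz => hC z (hst hz)⟩
    · rintro s t ⟨C, hC⟩ ⟨C', hC'⟩
      refine ⟨max C C', fun z hz hzZ => ?_⟩
      rcases hz with hz | hz
      · exact (hC z hz hzZ).trans (le_max_left _ _)
      · exact (hC' z hz hzZ).trans (le_max_right _ _)
    · intro z hz
      by_cases hzZ : z ∈ Z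
      · obtain ⟨C, hC⟩ := hb z hzZ
        exact ⟨_, mem_nhdsWithin_of_mem_nhds hC, C, fun w hw => hw⟩
      · have hc : ContinuousAt F z := hF.continuousAt (h.openW.mem_nhds ⟨h.hcV hz, hzZ⟩)
        have : ∀ᶠ w in 𝓝 z, ‖F w‖ < ‖F z‖ + 1 :=
          hc.norm.eventually_lt continuousAt_const (by simp)
        exact ⟨_, mem_nhdsWithin_of_mem_nhds this, ‖F z‖ + 1, fun w hw _ => le_of_lt hw⟩
  obtain ⟨C, hC⟩ := h1
  have hUZ : D.U \ Z ⊆ V \ Z := sdiff_subset_sdiff_left (D.U_subset_cU.trans h.hcV)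
  have hms : MeasurableSet (D.U \ Z) := D.U_open.measurableSet.diff h.hZ.measurableSet
  have hae : (D.U \ Z : Set ℂ) =ᵐ[volume] D.U := sdiff_null_ae_eq_self (h.hZ.measure_zero _)
  have h2 : IntegrableOn F (D.U \ Z) := by
    refine IntegrableOn.of_bound ?_ ((hF.mono hUZ).aestronglyMeasurable hms) C ?_
    · exact (measure_mono sdiff_subset).trans_lt D.U_finite.lt_top
    · filter_upwards [ae_restrict_mem hms] with z hz
      exact hC z (D.U_subset_cU hz.1) hz.2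
  exact h2.congr_set_ae hae.symm

theorem Ctx.setIntegral_congr (h : Ctx D V Z u ρ g₁ g₂) {F G : ℂ → ℂ}
    (hFG : ∀ z ∈ V \ Z, F z = G z) : ∫ z in D.U, F z = ∫ z in D.U, G z := by
  apply setIntegral_congr_ae D.U_open.measurableSet
  have : ∀ᵐ z : ℂ, z ∉ Z := by
    rw [ae_iff]
    simpa using h.hZ.measure_zero volume
  filter_upwards [this] with z hz hzU
  exact hFG z ⟨h.hcV (D.U_subset_cU hzU), hz⟩

/-- local factorization -/
theorem Ctx.loc (h : Ctx D V Z u ρ g₁ g₂) {p : ℂ} (hp : p ∈ Z) :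
    ∃ n : ℕ, ∃ C : ℝ, 0 ≤ C ∧ ∀ᶠ w in 𝓝 p, |ρ w - ρ p| ≤ C * ‖w - p‖ ^ (n + 1) ∧
      ‖g₁ w‖ ≤ C ∧ ‖g₂ w‖ ≤ C ∧
      ‖g₁ w / u w‖ * ‖w - p‖ ^ n ≤ C ∧ ‖g₂ w / u w‖ * ‖w - p‖ ^ n ≤ C ∧
      ‖deriv (fun w => g₁ w / u w) w‖ * ‖w - p‖ ^ (n + 1) ≤ C ∧
      ‖deriv (fun w => g₂ w / u w) w‖ * ‖w - p‖ ^ (n + 1) ≤ C := by
  have hpV : p ∈ V := h.hcV (h.hZc hp)
  have hua : AnalyticAt ℂ u p := h.hu.analyticAt (h.hV.mem_nhds hpV)
  have hne : ¬ ∀ᶠ w in 𝓝 p, u w = 0 := by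
    intro h0
    have : ∀ᶠ w in 𝓝 p, w ∈ Z := by
      filter_upwards [h0, h.hV.mem_nhds hpV] with w hw hwV using (h.uZ w hwV).1 hw
    exact (infinite_of_mem_nhds p this) h.hZ
  obtain ⟨n, v, hv, hvp, huv⟩ := hua.exists_eventuallyEq_pow_smul_nonzero_iff.2 hne
  have hn : 1 ≤ n := by
    by_contra hn
    have hn0 : n = 0 := by omega
    subst hn0
    have := huv.self_of_nhds
    rw [(h.uZ p hpV).2 hp, pow_zero, one_smul] at this
    exact hvp this.symm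
  obtain ⟨C₁, hC₁, e₁⟩ := loc_est (u := u) (h.hg₁.analyticAt (h.hV.mem_nhds hpV)) hv hvp huv hn
  obtain ⟨C₂, hC₂, e₂⟩ := loc_est (u := u) (h.hg₂.analyticAt (h.hV.mem_nhds hpV)) hv hvp huv hn
  have hu2 : ∀ᶠ w in 𝓝 p, ‖u w‖ ≤ (‖v p‖ + 1) * ‖w - p‖ ^ n := by
    have b1 : ∀ᶠ w in 𝓝 p, ‖v w‖ < ‖v p‖ + 1 :=
      hv.continuousAt.norm.eventually_lt continuousAt_const (by simp)
    filter_upwards [b1, huv] with w h1 h2
    rw [h2, norm_smul, norm_pow, mul_comm]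
    exact mul_le_mul_of_nonneg_right h1.le (by positivity)
  have e₃ := loc_rho h.hV hpV (h.hρ.differentiableOn (by simp)) h.dρ
    (by positivity : (0 : ℝ) ≤ ‖v p‖ + 1) hu2
  refine ⟨n, C₁ + C₂ + 4 * (‖v p‖ + 1), by positivity, ?_⟩
  have p1 : 0 ≤ ‖v p‖ := norm_nonneg _
  filter_upwards [e₁, e₂, e₃] with w h1 h2 h3
  refine ⟨h3.trans ?_, ?_, ?_, ?_, ?_, ?_, ?_⟩
  · apply mul_le_mul_of_nonneg_right _ (by positivity)
    linarith
  · linarith [h1.1]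
  · linarith [h2.1]
  · linarith [h1.2.1]
  · linarith [h2.2.1]
  · linarith [h1.2.2]
  · linarith [h2.2.2]


theorem Ctx.key_bd (h : Ctx D V Z u ρ g₁ g₂) {χ : ℂ → ℝ} {c : ℝ} (hc : Cut D Z ρ χ c) {p : ℂ}
    (hp : p ∈ Z) (N : ℝ) :
    ∃ n : ℕ, ∃ C : ℝ, 0 ≤ C ∧ ∀ᶠ w in 𝓝 p,
      ‖(χ w : ℂ) * (Real.sin (N * (ρ w - c)) : ℂ)‖ ≤ C * ‖w - p‖ ^ (n + 1) ∧
      ‖(χ w : ℂ) * ((1 - Real.cos (N * (ρ w - c)) : ℝ) : ℂ)‖ ≤ C * ‖w - p‖ ^ (2 * n + 2) ∧
      ‖g₁ w‖ ≤ C ∧ ‖g₂ w‖ ≤ C ∧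
      ‖g₁ w / u w‖ * ‖w - p‖ ^ n ≤ C ∧ ‖g₂ w / u w‖ * ‖w - p‖ ^ n ≤ C ∧
      ‖deriv (fun w => g₁ w / u w) w‖ * ‖w - p‖ ^ (n + 1) ≤ C ∧
      ‖deriv (fun w => g₂ w / u w) w‖ * ‖w - p‖ ^ (n + 1) ≤ C := by
  obtain ⟨n, C, hC, e⟩ := h.loc hp
  refine ⟨n, C + |N| * C + (|N| * C) ^ 2, by positivity, ?_⟩
  have p1 : 0 ≤ |N| * C := by positivity
  have p2 : 0 ≤ (|N| * C) ^ 2 := by positivity
  have e' : ∀ᶠ w in 𝓝 p, ‖(χ w : ℂ) * (Real.sin (N * (ρ w - c)) : ℂ)‖ ≤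
        (C + |N| * C + (|N| * C) ^ 2) * ‖w - p‖ ^ (n + 1) ∧
      ‖(χ w : ℂ) * ((1 - Real.cos (N * (ρ w - c)) : ℝ) : ℂ)‖ ≤
        (C + |N| * C + (|N| * C) ^ 2) * ‖w - p‖ ^ (2 * n + 2) := by
    rcases hc.crit p hp with h0 | ⟨hρ, h1⟩
    · filter_upwards [h0] with w hw
      rw [hw]
      simp only [Complex.ofReal_zero, zero_mul, norm_zero]
      constructor <;> positivity
    · filter_upwards [h1, e] with w hw he
      rw [hw, Complex.ofReal_one, one_mul, one_mul, Complex.norm_real, Complex.norm_real,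
        Real.norm_eq_abs, Real.norm_eq_abs]
      have a0 : |N * (ρ w - c)| ≤ |N| * C * ‖w - p‖ ^ (n + 1) := by
        rw [abs_mul, mul_assoc, ← hρ]
        exact mul_le_mul_of_nonneg_left he.1 (abs_nonneg _)
      constructor
      · refine Real.abs_sin_le_abs.trans (a0.trans ?_)
        apply mul_le_mul_of_nonneg_right _ (by positivity)
        linarith
      · rw [abs_of_nonneg (by linarith [Real.cos_le_one (N * (ρ w - c))])]
        have a1 := Real.one_sub_sq_div_two_le_cos (x := N * (ρ w - c))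
        have a2 : (N * (ρ w - c)) ^ 2 ≤ (|N| * C * ‖w - p‖ ^ (n + 1)) ^ 2 := by
          rw [← sq_abs (N * (ρ w - c))]
          exact pow_le_pow_left₀ (abs_nonneg _) a0 2
        have a3 : (|N| * C * ‖w - p‖ ^ (n + 1)) ^ 2 = (|N| * C) ^ 2 * ‖w - p‖ ^ (2 * n + 2) := by
          rw [mul_pow, ← pow_mul]
          congr 2
          ring
        have a4 : (|N| * C) ^ 2 * ‖w - p‖ ^ (2 * n + 2) ≤
            (C + |N| * C + (|N| * C) ^ 2) * ‖w - p‖ ^ (2 * n + 2) := by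
          apply mul_le_mul_of_nonneg_right _ (by positivity)
          linarith
        have a5 : 0 ≤ (N * (ρ w - c)) ^ 2 := sq_nonneg _
        linarith
  filter_upwards [e, e'] with w h1 h2
  obtain ⟨_, b1, b2, b3, b4, b5, b6⟩ := h1
  exact ⟨h2.1, h2.2, by linarith, by linarith, by linarith, by linarith, by linarith,
    by linarith⟩

end

section mulrules

theorem dz_mul {f g : ℂ → ℂ} {z : ℂ} (hf : DifferentiableAt ℝ f z)
    (hg : DifferentiableAt ℝ g z) :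
    dz (fun w => f w * g w) z = dz f z * g z + f z * dz g z ∧
      dzb (fun w => f w * g w) z = dzb f z * g z + f z * dzb g z := dz_smul hf hg

end mulrules

section
variable {k : ℕ} {D : CD k} {V Z : Set ℂ} {u : ℂ → ℂ} {ρ : ℂ → ℝ} {g₁ g₂ : ℂ → ℂ}

theorem Ctx.diffR (h : Ctx D V Z u ρ g₁ g₂) {g : ℂ → ℂ} (hg : DifferentiableOn ℂ g V) :
    DifferentiableOn ℂ (fun w => g w / u w) (V \ Z) := by
  intro z hz
  have hzu : u z ≠ 0 := fun h0 => hz.2 ((h.uZ z hz.1).1 h0)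
  have h1 : DifferentiableAt ℂ g z := (hg z hz.1).differentiableAt (h.hV.mem_nhds hz.1)
  have h2 : DifferentiableAt ℂ u z := (h.hu z hz.1).differentiableAt (h.hV.mem_nhds hz.1)
  exact (h1.div h2 hzu).differentiableWithinAt

theorem Ctx.diffR' (h : Ctx D V Z u ρ g₁ g₂) {g : ℂ → ℂ} (hg : DifferentiableOn ℂ g V) :
    DifferentiableOn ℂ (deriv fun w => g w / u w) (V \ Z) :=
  (h.diffR hg).deriv h.openW

theorem Ctx.dz_sin (h : Ctx D V Z u ρ g₁ g₂) (N c : ℝ) {z : ℂ} (hz : z ∈ V) :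
    DifferentiableAt ℝ (fun w => (Real.sin (N * (ρ w - c)) : ℂ)) z ∧
    dz (fun w => (Real.sin (N * (ρ w - c)) : ℂ)) z =
      ((N * Real.cos (N * (ρ z - c)) : ℝ) : ℂ) * u z := by
  have h1 : DifferentiableAt ℝ ρ z :=
    (h.hρ.differentiableOn (by simp) z hz).differentiableAt (h.hV.mem_nhds hz)
  have h2 : HasDerivAt (fun t : ℝ => Real.sin (N * (t - c))) (N * Real.cos (N * (ρ z - c)))
      (ρ z) := by
    have := (((hasDerivAt_id (ρ z)).sub_const c).const_mul N).sin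
    simpa [mul_comm] using this
  refine ⟨?_, ?_⟩
  · have : DifferentiableAt ℝ (fun w => Real.sin (N * (ρ w - c))) z := by fun_prop
    exact Complex.ofRealCLM.differentiableAt.comp z this
  · rw [(dz_comp_real h1 h2).1, h.dρ z hz]

theorem Ctx.dzb_cos (h : Ctx D V Z u ρ g₁ g₂) (N c : ℝ) {z : ℂ} (hz : z ∈ V) :
    DifferentiableAt ℝ (fun w => ((1 - Real.cos (N * (ρ w - c)) : ℝ) : ℂ)) z ∧
    dzb (fun w => ((1 - Real.cos (N * (ρ w - c)) : ℝ) : ℂ)) z =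
      ((N * Real.sin (N * (ρ z - c)) : ℝ) : ℂ) * conj (u z) := by
  have h1 : DifferentiableAt ℝ ρ z :=
    (h.hρ.differentiableOn (by simp) z hz).differentiableAt (h.hV.mem_nhds hz)
  have h2 : HasDerivAt (fun t : ℝ => 1 - Real.cos (N * (t - c))) (N * Real.sin (N * (ρ z - c)))
      (ρ z) := by
    have := (((hasDerivAt_id (ρ z)).sub_const c).const_mul N).cos.const_sub 1
    simpa [mul_comm] using this
  refine ⟨?_, ?_⟩
  · have : DifferentiableAt ℝ (fun w => 1 - Real.cos (N * (ρ w - c))) z := by fun_prop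
    exact Complex.ofRealCLM.differentiableAt.comp z this
  · rw [(dz_comp_real (G := fun t : ℝ => 1 - Real.cos (N * (t - c))) h1 h2).2, h.dbρ z hz]


theorem Ctx.dz_F1 (h : Ctx D V Z u ρ g₁ g₂) {χ : ℂ → ℝ} {c : ℝ} (hc : Cut D Z ρ χ c) (N : ℝ)
    {z : ℂ} (hz : z ∈ V \ Z) :
    dz (fun w => ((χ w : ℂ) * (Real.sin (N * (ρ w - c)) : ℂ)) * (g₁ w / u w * conj (g₂ w))) z =
      dz (fun w => (χ w : ℂ)) z * (Real.sin (N * (ρ z - c)) : ℂ) * (g₁ z / u z * conj (g₂ z)) +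
      (N : ℂ) * ((χ z : ℂ) * (Real.cos (N * (ρ z - c)) : ℂ) * (g₁ z * conj (g₂ z))) +
      (χ z : ℂ) * (Real.sin (N * (ρ z - c)) : ℂ) *
        (deriv (fun w => g₁ w / u w) z * conj (g₂ z)) := by
  have hzu : u z ≠ 0 := fun h0 => hz.2 ((h.uZ z hz.1).1 h0)
  have d1 : DifferentiableAt ℝ (fun w => (χ w : ℂ)) z :=
    Complex.ofRealCLM.differentiableAt.comp z (hc.smooth.differentiable (by simp) z)
  obtain ⟨d2, s2⟩ := h.dz_sin N c hz.1
  have d3 : DifferentiableAt ℂ (fun w => g₁ w / u w) z :=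
    (h.diffR h.hg₁ z hz).differentiableAt (h.openW.mem_nhds hz)
  have d4 : DifferentiableAt ℂ g₂ z := (h.hg₂ z hz.1).differentiableAt (h.hV.mem_nhds hz.1)
  have d4' : DifferentiableAt ℝ (fun w => conj (g₂ w)) z :=
    Complex.conjCLE.differentiableAt.comp z (d4.restrictScalars ℝ)
  have m1 := (dz_mul d1 d2).1
  have m2 := (dz_mul (d3.restrictScalars ℝ) d4').1
  rw [(dz_mul (d1.fun_mul d2) ((d3.restrictScalars ℝ).fun_mul d4')).1, m1, m2, s2, (dz_hol d3).1,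
    (dz_conj_hol d4).1]
  push_cast
  field_simp
  ring

theorem Ctx.dzb_F2 (h : Ctx D V Z u ρ g₁ g₂) {χ : ℂ → ℝ} {c : ℝ} (hc : Cut D Z ρ χ c) (N : ℝ)
    {z : ℂ} (hz : z ∈ V \ Z) :
    dzb (fun w => ((χ w : ℂ) * ((1 - Real.cos (N * (ρ w - c)) : ℝ) : ℂ)) *
        (deriv (fun w => g₁ w / u w) w * conj (g₂ w / u w))) z =
      dzb (fun w => (χ w : ℂ)) z * ((1 - Real.cos (N * (ρ z - c)) : ℝ) : ℂ) *
        (deriv (fun w => g₁ w / u w) z * conj (g₂ z / u z)) +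
      (N : ℂ) * ((χ z : ℂ) * (Real.sin (N * (ρ z - c)) : ℂ) *
        (deriv (fun w => g₁ w / u w) z * conj (g₂ z))) +
      (χ z : ℂ) * ((1 - Real.cos (N * (ρ z - c)) : ℝ) : ℂ) *
        (deriv (fun w => g₁ w / u w) z * conj (deriv (fun w => g₂ w / u w) z)) := by
  have hzu : u z ≠ 0 := fun h0 => hz.2 ((h.uZ z hz.1).1 h0)
  have hzu' : conj (u z) ≠ 0 := by simpa using hzu
  have d1 : DifferentiableAt ℝ (fun w => (χ w : ℂ)) z :=
    Complex.ofRealCLM.differentiableAt.comp z (hc.smooth.differentiable (by simp) z)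
  obtain ⟨d2, s2⟩ := h.dzb_cos N c hz.1
  have d3 : DifferentiableAt ℂ (deriv fun w => g₁ w / u w) z :=
    (h.diffR' h.hg₁ z hz).differentiableAt (h.openW.mem_nhds hz)
  have d4 : DifferentiableAt ℂ (fun w => g₂ w / u w) z :=
    (h.diffR h.hg₂ z hz).differentiableAt (h.openW.mem_nhds hz)
  have d4' : DifferentiableAt ℝ (fun w => conj (g₂ w / u w)) z :=
    Complex.conjCLE.differentiableAt.comp z (d4.restrictScalars ℝ)
  have m1 := (dz_mul d1 d2).2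
  have m2 := (dz_mul (d3.restrictScalars ℝ) d4').2
  rw [(dz_mul (d1.fun_mul d2) ((d3.restrictScalars ℝ).fun_mul d4')).2, m1, m2, s2, (dz_hol d3).2,
    (dz_conj_hol d4).2]
  push_cast
  rw [map_div₀]
  field_simp
  ring


theorem Ctx.integrable_congr (h : Ctx D V Z u ρ g₁ g₂) {F G : ℂ → ℂ}
    (hFG : ∀ z ∈ V \ Z, F z = G z) (hG : IntegrableOn G D.U) : IntegrableOn F D.U := by
  refine hG.congr_fun_ae ?_
  have : ∀ᵐ z : ℂ, z ∉ Z := by
    rw [ae_iff]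
    simpa using h.hZ.measure_zero volume
  filter_upwards [ae_restrict_of_ae this, ae_restrict_mem D.U_open.measurableSet] with z hz hzU
  exact (hFG z ⟨h.hcV (D.U_subset_cU hzU), hz⟩).symm

theorem Cut.dz_crit {χ : ℂ → ℝ} {c : ℝ} (hc : Cut D Z ρ χ c) {p : ℂ} (hp : p ∈ Z) :
    ∀ᶠ w in 𝓝 p, dz (fun w => (χ w : ℂ)) w = 0 ∧ dzb (fun w => (χ w : ℂ)) w = 0 := by
  rcases hc.crit p hp with h0 | ⟨_, h0⟩
  · filter_upwards [eventually_eventually_nhds.2 h0] with w hw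
    have e : (fun w => (χ w : ℂ)) =ᶠ[𝓝 w] fun _ => (0 : ℂ) := by
      filter_upwards [hw] with w' hw'
      rw [hw']; simp
    rw [(dz_congr e).1, (dz_congr e).2]
    exact dz_const
  · filter_upwards [eventually_eventually_nhds.2 h0] with w hw
    have e : (fun w => (χ w : ℂ)) =ᶠ[𝓝 w] fun _ => (1 : ℂ) := by
      filter_upwards [hw] with w' hw'
      rw [hw']; simp
    rw [(dz_congr e).1, (dz_congr e).2]
    exact dz_const

theorem Cut.dz_circ {χ : ℂ → ℝ} {c : ℝ} (hc : Cut D Z ρ χ c) {l : Option (Fin k)} {p : ℂ}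
    (hp : p ∈ D.circ l) :
    ∀ᶠ w in 𝓝 p, dz (fun w => (χ w : ℂ)) w = 0 ∧ dzb (fun w => (χ w : ℂ)) w = 0 := by
  rcases hc.circ l p hp with h0 | ⟨_, h0⟩
  · filter_upwards [eventually_eventually_nhds.2 h0] with w hw
    have e : (fun w => (χ w : ℂ)) =ᶠ[𝓝 w] fun _ => (0 : ℂ) := by
      filter_upwards [hw] with w' hw'
      rw [hw']; simp
    rw [(dz_congr e).1, (dz_congr e).2]
    exact dz_const
  · filter_upwards [eventually_eventually_nhds.2 h0] with w hw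
    have e : (fun w => (χ w : ℂ)) =ᶠ[𝓝 w] fun _ => (1 : ℂ) := by
      filter_upwards [hw] with w' hw'
      rw [hw']; simp
    rw [(dz_congr e).1, (dz_congr e).2]
    exact dz_const

theorem Cut.smoothC {χ : ℂ → ℝ} {c : ℝ} (hc : Cut D Z ρ χ c) :
    ContDiff ℝ (⊤ : ℕ∞) (fun w => (χ w : ℂ)) :=
  Complex.ofRealCLM.contDiff.comp hc.smooth

theorem Cut.smooth_dz {χ : ℂ → ℝ} {c : ℝ} (hc : Cut D Z ρ χ c) :
    ContDiff ℝ (⊤ : ℕ∞) (dz (fun w => (χ w : ℂ))) ∧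
      ContDiff ℝ (⊤ : ℕ∞) (dzb (fun w => (χ w : ℂ))) := by
  have := dz_contDiffOn isOpen_univ hc.smoothC.contDiffOn
  exact ⟨contDiffOn_univ.1 this.1, contDiffOn_univ.1 this.2⟩

theorem Ctx.smooth_sin (h : Ctx D V Z u ρ g₁ g₂) (N c : ℝ) :
    ContDiffOn ℝ (⊤ : ℕ∞) (fun w => (Real.sin (N * (ρ w - c)) : ℂ)) V := by
  have h1 : ContDiffOn ℝ (⊤ : ℕ∞) (fun w => N * (ρ w - c)) V :=
    contDiffOn_const.mul (h.hρ.sub contDiffOn_const)
  exact Complex.ofRealCLM.contDiff.comp_contDiffOn (Real.contDiff_sin.comp_contDiffOn h1)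

theorem Ctx.smooth_cos (h : Ctx D V Z u ρ g₁ g₂) (N c : ℝ) :
    ContDiffOn ℝ (⊤ : ℕ∞) (fun w => (Real.cos (N * (ρ w - c)) : ℂ)) V := by
  have h1 : ContDiffOn ℝ (⊤ : ℕ∞) (fun w => N * (ρ w - c)) V :=
    contDiffOn_const.mul (h.hρ.sub contDiffOn_const)
  exact Complex.ofRealCLM.contDiff.comp_contDiffOn (Real.contDiff_cos.comp_contDiffOn h1)

theorem Ctx.smooth_one_sub_cos (h : Ctx D V Z u ρ g₁ g₂) (N c : ℝ) :
    ContDiffOn ℝ (⊤ : ℕ∞) (fun w => ((1 - Real.cos (N * (ρ w - c)) : ℝ) : ℂ)) V := by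
  have h1 : ContDiffOn ℝ (⊤ : ℕ∞) (fun w => N * (ρ w - c)) V :=
    contDiffOn_const.mul (h.hρ.sub contDiffOn_const)
  exact Complex.ofRealCLM.contDiff.comp_contDiffOn
    (contDiffOn_const.sub (Real.contDiff_cos.comp_contDiffOn h1))

theorem Ctx.smoothR (h : Ctx D V Z u ρ g₁ g₂) {g : ℂ → ℂ} (hg : DifferentiableOn ℂ g V) :
    ContDiffOn ℝ (⊤ : ℕ∞) (fun w => g w / u w) (V \ Z) :=
  hol_contDiffOn h.openW (h.diffR hg)

theorem Ctx.smoothR' (h : Ctx D V Z u ρ g₁ g₂) {g : ℂ → ℂ} (hg : DifferentiableOn ℂ g V) :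
    ContDiffOn ℝ (⊤ : ℕ∞) (deriv fun w => g w / u w) (V \ Z) :=
  hol_contDiffOn h.openW (h.diffR' hg)

theorem smooth_conj {F : ℂ → ℂ} {S : Set ℂ} (hF : ContDiffOn ℝ (⊤ : ℕ∞) F S) :
    ContDiffOn ℝ (⊤ : ℕ∞) (fun w => conj (F w)) S :=
  Complex.conjCLE.contDiff.comp_contDiffOn hF

theorem int3 {S : Set ℂ} {F G H : ℂ → ℂ} (N : ℂ) (hF : IntegrableOn F S) (hG : IntegrableOn G S)
    (hH : IntegrableOn H S) :
    ∫ z in S, (F z + N * G z + H z) = (∫ z in S, F z) + N * (∫ z in S, G z) + ∫ z in S, H z := by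
  have h1 : IntegrableOn (fun z => F z + N * G z) S := hF.add (hG.const_mul N)
  rw [integral_add h1 hH, integral_add hF (hG.const_mul N), integral_const_mul]

/-- first integration by parts -/
theorem Ctx.int1 (h : Ctx D V Z u ρ g₁ g₂) {χ : ℂ → ℝ} {c : ℝ} (hc : Cut D Z ρ χ c) (N : ℝ) :
    (∫ z in D.U, dz (fun w => (χ w : ℂ)) z * (Real.sin (N * (ρ z - c)) : ℂ) *
        (g₁ z / u z * conj (g₂ z))) +
      (N : ℂ) * (∫ z in D.U, (χ z : ℂ) * (Real.cos (N * (ρ z - c)) : ℂ) *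
        (g₁ z * conj (g₂ z))) +
      (∫ z in D.U, (χ z : ℂ) * (Real.sin (N * (ρ z - c)) : ℂ) *
        (deriv (fun w => g₁ w / u w) z * conj (g₂ z))) = 0 := by
  have hWV : V \ Z ⊆ V := sdiff_subset
  have sχ := hc.smoothC
  have sdχ := hc.smooth_dz
  have ss := (h.smooth_sin N c).mono hWV
  have scs := (h.smooth_cos N c).mono hWV
  have sR := h.smoothR h.hg₁
  have sR' := h.smoothR' h.hg₁
  have sg₁ : ContDiffOn ℝ (⊤ : ℕ∞) g₁ (V \ Z) := (hol_contDiffOn h.hV h.hg₁).mono hWV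
  have sg₂ : ContDiffOn ℝ (⊤ : ℕ∞) (fun w => conj (g₂ w)) (V \ Z) :=
    (smooth_conj (hol_contDiffOn h.hV h.hg₂)).mono hWV
  -- the three integrable pieces
  have i1 : IntegrableOn (fun z => dz (fun w => (χ w : ℂ)) z * (Real.sin (N * (ρ z - c)) : ℂ) *
        (g₁ z / u z * conj (g₂ z))) D.U := by
    refine h.int_aux (((sdχ.1.contDiffOn.mul ss).mul (sR.mul sg₂)).continuousOn) fun p hp => ?_
    refine ⟨0, ?_⟩
    filter_upwards [hc.dz_crit hp] with w hw _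
    rw [hw.1]; simp
  have i2 : IntegrableOn (fun z => (χ z : ℂ) * (Real.cos (N * (ρ z - c)) : ℂ) *
        (g₁ z * conj (g₂ z))) D.U := by
    refine h.int_aux (((sχ.contDiffOn.mul scs).mul (sg₁.mul sg₂)).continuousOn) fun p hp => ?_
    have hpV : p ∈ V := h.hcV (h.hZc hp)
    have hcont : ContinuousAt (fun z => (χ z : ℂ) * (Real.cos (N * (ρ z - c)) : ℂ) *
        (g₁ z * conj (g₂ z))) p := by
      have := ((sχ.contDiffOn.mul (h.smooth_cos N c)).mul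
        ((hol_contDiffOn h.hV h.hg₁).mul (smooth_conj (hol_contDiffOn h.hV h.hg₂)))).continuousOn
      exact this.continuousAt (h.hV.mem_nhds hpV)
    refine ⟨‖(χ p : ℂ) * (Real.cos (N * (ρ p - c)) : ℂ) * (g₁ p * conj (g₂ p))‖ + 1, ?_⟩
    have := hcont.norm.eventually_lt continuousAt_const (lt_add_one _)
    filter_upwards [this] with w hw _ using hw.le
  have i3 : IntegrableOn (fun z => (χ z : ℂ) * (Real.sin (N * (ρ z - c)) : ℂ) *
        (deriv (fun w => g₁ w / u w) z * conj (g₂ z))) D.U := by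
    refine h.int_aux (((sχ.contDiffOn.mul ss).mul (sR'.mul sg₂)).continuousOn) fun p hp => ?_
    obtain ⟨n, C, hC, e⟩ := h.key_bd hc hp N
    refine ⟨C * C * C, ?_⟩
    filter_upwards [e] with w hw _
    obtain ⟨b1, b2, b3, b4, b5, b6, b7, b8⟩ := hw
    rw [norm_mul _ (_ * _), norm_mul (deriv _ w), Complex.norm_conj]
    calc ‖(χ w : ℂ) * (Real.sin (N * (ρ w - c)) : ℂ)‖ *
          (‖deriv (fun w => g₁ w / u w) w‖ * ‖g₂ w‖)
        ≤ (C * ‖w - p‖ ^ (n + 1)) * (‖deriv (fun w => g₁ w / u w) w‖ * C) := by gcongr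
      _ = C * (‖deriv (fun w => g₁ w / u w) w‖ * ‖w - p‖ ^ (n + 1)) * C := by ring
      _ ≤ C * C * C := by gcongr
  have e1 : ∀ z ∈ V \ Z, _ := fun z hz => h.dz_F1 hc N hz
  have i4 := h.integrable_congr e1 ((i1.add (i2.const_mul (N : ℂ))).add i3)
  have key := (green_sing D (F := fun w => ((χ w : ℂ) * (Real.sin (N * (ρ w - c)) : ℂ)) *
    (g₁ w / u w * conj (g₂ w))) h.hV h.hcV h.hZ
    (((sχ.contDiffOn.mul ss).mul (sR.mul sg₂)).of_le (by simp)) ?_ ?_).1 i4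
  · rw [h.setIntegral_congr e1] at key
    rw [← key, int3 (N : ℂ) i1 i2 i3]
  · intro l z hz _
    rcases hc.circ l z hz with h0 | ⟨h1, _⟩
    · rw [h0.self_of_nhds]; simp
    · rw [h1]; simp
  · intro p hp
    obtain ⟨n, C, hC, e⟩ := h.key_bd hc hp N
    refine ⟨C * C * C, ?_⟩
    filter_upwards [e] with w hw
    obtain ⟨b1, b2, b3, b4, b5, b6, b7, b8⟩ := hw
    rw [norm_mul _ (_ * _), norm_mul (_ / _), Complex.norm_conj]
    calc ‖(χ w : ℂ) * (Real.sin (N * (ρ w - c)) : ℂ)‖ * (‖g₁ w / u w‖ * ‖g₂ w‖)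
        ≤ (C * ‖w - p‖ ^ (n + 1)) * (‖g₁ w / u w‖ * C) := by gcongr
      _ = C * (‖g₁ w / u w‖ * ‖w - p‖ ^ n) * C * ‖w - p‖ := by ring
      _ ≤ C * C * C * ‖w - p‖ := by gcongr


/-- second integration by parts -/
theorem Ctx.int2 (h : Ctx D V Z u ρ g₁ g₂) {χ : ℂ → ℝ} {c : ℝ} (hc : Cut D Z ρ χ c) (N : ℝ) :
    (∫ z in D.U, dzb (fun w => (χ w : ℂ)) z * ((1 - Real.cos (N * (ρ z - c)) : ℝ) : ℂ) *
        (deriv (fun w => g₁ w / u w) z * conj (g₂ z / u z))) +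
      (N : ℂ) * (∫ z in D.U, (χ z : ℂ) * (Real.sin (N * (ρ z - c)) : ℂ) *
        (deriv (fun w => g₁ w / u w) z * conj (g₂ z))) +
      (∫ z in D.U, (χ z : ℂ) * ((1 - Real.cos (N * (ρ z - c)) : ℝ) : ℂ) *
        (deriv (fun w => g₁ w / u w) z * conj (deriv (fun w => g₂ w / u w) z))) = 0 := by
  have hWV : V \ Z ⊆ V := sdiff_subset
  have sχ := hc.smoothC
  have sdχ := hc.smooth_dz
  have ss := (h.smooth_sin N c).mono hWV
  have scs := (h.smooth_one_sub_cos N c).mono hWV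
  have sR' := h.smoothR' h.hg₁
  have sR₂ := smooth_conj (h.smoothR h.hg₂)
  have sR₂' := smooth_conj (h.smoothR' h.hg₂)
  have sg₂ : ContDiffOn ℝ (⊤ : ℕ∞) (fun w => conj (g₂ w)) (V \ Z) :=
    (smooth_conj (hol_contDiffOn h.hV h.hg₂)).mono hWV
  -- the three integrable pieces
  have i1 : IntegrableOn (fun z => dzb (fun w => (χ w : ℂ)) z *
      ((1 - Real.cos (N * (ρ z - c)) : ℝ) : ℂ) *
        (deriv (fun w => g₁ w / u w) z * conj (g₂ z / u z))) D.U := by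
    refine h.int_aux (((sdχ.2.contDiffOn.mul scs).mul (sR'.mul sR₂)).continuousOn)
      fun p hp => ?_
    refine ⟨0, ?_⟩
    filter_upwards [hc.dz_crit hp] with w hw _
    rw [hw.2]; simp
  have i2 : IntegrableOn (fun z => (χ z : ℂ) * (Real.sin (N * (ρ z - c)) : ℂ) *
        (deriv (fun w => g₁ w / u w) z * conj (g₂ z))) D.U := by
    refine h.int_aux (((sχ.contDiffOn.mul ss).mul (sR'.mul sg₂)).continuousOn) fun p hp => ?_
    obtain ⟨n, C, hC, e⟩ := h.key_bd hc hp N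
    refine ⟨C * C * C, ?_⟩
    filter_upwards [e] with w hw _
    obtain ⟨b1, b2, b3, b4, b5, b6, b7, b8⟩ := hw
    rw [norm_mul _ (_ * _), norm_mul (deriv _ w), Complex.norm_conj]
    calc ‖(χ w : ℂ) * (Real.sin (N * (ρ w - c)) : ℂ)‖ *
          (‖deriv (fun w => g₁ w / u w) w‖ * ‖g₂ w‖)
        ≤ (C * ‖w - p‖ ^ (n + 1)) * (‖deriv (fun w => g₁ w / u w) w‖ * C) := by gcongr
      _ = C * (‖deriv (fun w => g₁ w / u w) w‖ * ‖w - p‖ ^ (n + 1)) * C := by ring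
      _ ≤ C * C * C := by gcongr
  have i3 : IntegrableOn (fun z => (χ z : ℂ) * ((1 - Real.cos (N * (ρ z - c)) : ℝ) : ℂ) *
        (deriv (fun w => g₁ w / u w) z * conj (deriv (fun w => g₂ w / u w) z))) D.U := by
    refine h.int_aux (((sχ.contDiffOn.mul scs).mul (sR'.mul sR₂')).continuousOn) fun p hp => ?_
    obtain ⟨n, C, hC, e⟩ := h.key_bd hc hp N
    refine ⟨C * C * C, ?_⟩
    filter_upwards [e] with w hw _
    obtain ⟨b1, b2, b3, b4, b5, b6, b7, b8⟩ := hw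
    rw [norm_mul _ (_ * _), norm_mul (deriv _ w), Complex.norm_conj]
    calc ‖(χ w : ℂ) * ((1 - Real.cos (N * (ρ w - c)) : ℝ) : ℂ)‖ *
          (‖deriv (fun w => g₁ w / u w) w‖ * ‖deriv (fun w => g₂ w / u w) w‖)
        ≤ (C * ‖w - p‖ ^ (2 * n + 2)) *
          (‖deriv (fun w => g₁ w / u w) w‖ * ‖deriv (fun w => g₂ w / u w) w‖) := by gcongr
      _ = C * (‖deriv (fun w => g₁ w / u w) w‖ * ‖w - p‖ ^ (n + 1)) *
          (‖deriv (fun w => g₂ w / u w) w‖ * ‖w - p‖ ^ (n + 1)) := by ring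
      _ ≤ C * C * C := by gcongr
  have e1 : ∀ z ∈ V \ Z, _ := fun z hz => h.dzb_F2 hc N hz
  have i4 := h.integrable_congr e1 ((i1.add (i2.const_mul (N : ℂ))).add i3)
  have key := (green_sing D (F := fun w => ((χ w : ℂ) *
    ((1 - Real.cos (N * (ρ w - c)) : ℝ) : ℂ)) *
    (deriv (fun w => g₁ w / u w) w * conj (g₂ w / u w))) h.hV h.hcV h.hZ
    (((sχ.contDiffOn.mul scs).mul (sR'.mul sR₂)).of_le (by simp)) ?_ ?_).2 i4
  · rw [h.setIntegral_congr e1] at key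
    rw [← key, int3 (N : ℂ) i1 i2 i3]
  · intro l z hz _
    rcases hc.circ l z hz with h0 | ⟨h1, _⟩
    · rw [h0.self_of_nhds]; simp
    · rw [h1]; simp
  · intro p hp
    obtain ⟨n, C, hC, e⟩ := h.key_bd hc hp N
    refine ⟨C * C * C, ?_⟩
    filter_upwards [e] with w hw
    obtain ⟨b1, b2, b3, b4, b5, b6, b7, b8⟩ := hw
    rw [norm_mul _ (_ * _), norm_mul (deriv _ w), Complex.norm_conj]
    calc ‖(χ w : ℂ) * ((1 - Real.cos (N * (ρ w - c)) : ℝ) : ℂ)‖ *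
          (‖deriv (fun w => g₁ w / u w) w‖ * ‖g₂ w / u w‖)
        ≤ (C * ‖w - p‖ ^ (2 * n + 2)) *
          (‖deriv (fun w => g₁ w / u w) w‖ * ‖g₂ w / u w‖) := by gcongr
      _ = C * (‖deriv (fun w => g₁ w / u w) w‖ * ‖w - p‖ ^ (n + 1)) *
          (‖g₂ w / u w‖ * ‖w - p‖ ^ n) * ‖w - p‖ := by ring
      _ ≤ C * C * C * ‖w - p‖ := by gcongr


theorem Ctx.smooth_cut (h : Ctx D V Z u ρ g₁ g₂) {κ H : ℂ → ℂ} (hκ : ContDiff ℝ (⊤ : ℕ∞) κ)
    (hκZ : ∀ p ∈ Z, ∀ᶠ w in 𝓝 p, κ w = 0) (hH : ContDiffOn ℝ (⊤ : ℕ∞) H (V \ Z)) :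
    ContDiffOn ℝ (⊤ : ℕ∞) (fun z => κ z * H z) V := by
  intro z hz
  by_cases hzZ : z ∈ Z
  · have e : (fun z => κ z * H z) =ᶠ[𝓝 z] fun _ => (0 : ℂ) := by
      filter_upwards [hκZ z hzZ] with w hw
      rw [hw, zero_mul]
    exact (contDiffAt_const.congr_of_eventuallyEq e).contDiffWithinAt
  · have h1 : ContDiffAt ℝ (⊤ : ℕ∞) H z := hH.contDiffAt (h.openW.mem_nhds ⟨hz, hzZ⟩)
    exact (hκ.contDiffAt.mul h1).contDiffWithinAt

theorem Ctx.isTest_cut (h : Ctx D V Z u ρ g₁ g₂) {κ H : ℂ → ℂ} (hκ : ContDiff ℝ (⊤ : ℕ∞) κ)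
    (hκZ : ∀ p ∈ Z, ∀ᶠ w in 𝓝 p, κ w = 0)
    (hκc : ∀ l, ∀ z ∈ D.circ l, ∀ᶠ w in 𝓝 z, κ w = 0)
    (hH : ContDiffOn ℝ (⊤ : ℕ∞) H (V \ Z)) :
    IsTest (D.U \ Z) (D.U.indicator fun z => κ z * H z) := by
  have h1 := isTest_indicator D h.hV h.hcV (h.smooth_cut hκ hκZ hH) (fun l z hz => by
    filter_upwards [hκc l z hz] with w hw
    rw [hw, zero_mul])
  refine ⟨h1.smooth, h1.compact, fun z hz => ⟨h1.supp hz, fun hzZ => ?_⟩⟩
  refine (notMem_tsupport_iff_eventuallyEq.2 ?_) hz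
  filter_upwards [hκZ z hzZ] with w hw
  rw [Pi.zero_apply, indicator_apply_eq_zero]
  intro _
  rw [hw, zero_mul]

theorem Ctx.osc_exp (h : Ctx D V Z u ρ g₁ g₂) {κ H : ℂ → ℂ} (hκ : ContDiff ℝ (⊤ : ℕ∞) κ)
    (hκZ : ∀ p ∈ Z, ∀ᶠ w in 𝓝 p, κ w = 0)
    (hκc : ∀ l, ∀ z ∈ D.circ l, ∀ᶠ w in 𝓝 z, κ w = 0)
    (hH : ContDiffOn ℝ (⊤ : ℕ∞) H (V \ Z)) (c : ℝ) (K : ℕ) :
    ∃ C : ℝ, ∀ N : ℝ, 1 ≤ N →
      ‖∫ z in D.U, Complex.exp (Complex.I * (N * (ρ z - c) : ℝ)) * (κ z * H z)‖ ≤ C / N ^ K ∧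
      ‖∫ z in D.U, Complex.exp (-(Complex.I * (N * (ρ z - c) : ℝ))) * (κ z * H z)‖ ≤
        C / N ^ K := by
  have hT := h.isTest_cut hκ hκZ hκc hH
  have hW' : IsOpen (D.U \ Z) := D.U_open.sdiff h.hZ.isClosed
  have hsub : D.U \ Z ⊆ V := sdiff_subset.trans (D.U_subset_cU.trans h.hcV)
  have hne : ∀ z ∈ D.U \ Z, dz (fun w => (ρ w : ℂ)) z ≠ 0 := by
    intro z hz h0
    rw [h.dρ z (hsub hz)] at h0
    exact hz.2 ((h.uZ z (hsub hz)).1 h0)
  obtain ⟨C₁, h1⟩ := nonstat hW' (h.hρ.mono hsub) hne hT K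
  obtain ⟨C₂, h2⟩ := nonstat (ρ := fun w => -ρ w) hW' (h.hρ.mono hsub).neg (by
    intro z hz
    have : (fun w => ((-ρ w : ℝ) : ℂ)) = fun w => -(ρ w : ℂ) := by
      funext w; push_cast; rfl
    rw [this, dz_neg.1]
    exact neg_ne_zero.2 (hne z hz)) hT K
  refine ⟨max C₁ C₂, fun N hN => ?_⟩
  have hNK : 0 < N ^ K := by positivity
  constructor
  · have e1 : (∫ z in D.U, Complex.exp (Complex.I * (N * (ρ z - c) : ℝ)) * (κ z * H z)) =
        Complex.exp (-(Complex.I * (N * c : ℝ))) *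
          ∫ z, Complex.exp (Complex.I * (N * ρ z : ℝ)) •
            (D.U.indicator fun z => κ z * H z) z := by
      rw [← integral_indicator D.U_open.measurableSet, ← integral_const_mul]
      congr 1
      funext z
      by_cases hz : z ∈ D.U
      · rw [indicator_of_mem hz, indicator_of_mem hz, smul_eq_mul,
          ← mul_assoc (Complex.exp _) (Complex.exp _), ← Complex.exp_add]
        congr 2
        push_cast
        ring
      · rw [indicator_of_notMem hz, indicator_of_notMem hz, smul_zero, mul_zero]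
    rw [e1, norm_mul]
    have e2 : ‖Complex.exp (-(Complex.I * (N * c : ℝ)))‖ = 1 := by
      rw [Complex.norm_exp]; simp
    rw [e2, one_mul]
    exact (h1 N hN).trans (div_le_div_of_nonneg_right (le_max_left _ _) hNK.le)
  · have e1 : (∫ z in D.U, Complex.exp (-(Complex.I * (N * (ρ z - c) : ℝ))) * (κ z * H z)) =
        Complex.exp (Complex.I * (N * c : ℝ)) *
          ∫ z, Complex.exp (Complex.I * (N * -ρ z : ℝ)) •
            (D.U.indicator fun z => κ z * H z) z := by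
      rw [← integral_indicator D.U_open.measurableSet, ← integral_const_mul]
      congr 1
      funext z
      by_cases hz : z ∈ D.U
      · rw [indicator_of_mem hz, indicator_of_mem hz, smul_eq_mul,
          ← mul_assoc (Complex.exp _) (Complex.exp _), ← Complex.exp_add]
        congr 2
        push_cast
        ring
      · rw [indicator_of_notMem hz, indicator_of_notMem hz, smul_zero, mul_zero]
    rw [e1, norm_mul]
    have e2 : ‖Complex.exp (Complex.I * (N * c : ℝ))‖ = 1 := by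
      rw [Complex.norm_exp]; simp
    rw [e2, one_mul]
    exact (h2 N hN).trans (div_le_div_of_nonneg_right (le_max_right _ _) hNK.le)

theorem Ctx.osc (h : Ctx D V Z u ρ g₁ g₂) {κ H : ℂ → ℂ} (hκ : ContDiff ℝ (⊤ : ℕ∞) κ)
    (hκZ : ∀ p ∈ Z, ∀ᶠ w in 𝓝 p, κ w = 0)
    (hκc : ∀ l, ∀ z ∈ D.circ l, ∀ᶠ w in 𝓝 z, κ w = 0)
    (hH : ContDiffOn ℝ (⊤ : ℕ∞) H (V \ Z)) (c : ℝ) (K : ℕ) :
    ∃ C : ℝ, ∀ N : ℝ, 1 ≤ N →
      ‖∫ z in D.U, κ z * (Real.cos (N * (ρ z - c)) : ℂ) * H z‖ ≤ C / N ^ K ∧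
      ‖∫ z in D.U, κ z * (Real.sin (N * (ρ z - c)) : ℂ) * H z‖ ≤ C / N ^ K := by
  obtain ⟨C, hC⟩ := h.osc_exp hκ hκZ hκc hH c K
  refine ⟨C, fun N hN => ?_⟩
  obtain ⟨b1, b2⟩ := hC N hN
  have hVU : D.cU ⊆ V := h.hcV
  have sF := (h.smooth_cut hκ hκZ hH).continuousOn.mono h.hcV
  have sρ := h.hρ.continuousOn.mono h.hcV
  have i1 : IntegrableOn (fun z => Complex.exp (Complex.I * (N * (ρ z - c) : ℝ)) *
      (κ z * H z)) D.U := by
    refine (ContinuousOn.integrableOn_compact D.cU_compact ?_).mono_set D.U_subset_cU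
    refine ContinuousOn.mul ?_ sF
    fun_prop
  have i2 : IntegrableOn (fun z => Complex.exp (-(Complex.I * (N * (ρ z - c) : ℝ))) *
      (κ z * H z)) D.U := by
    refine (ContinuousOn.integrableOn_compact D.cU_compact ?_).mono_set D.U_subset_cU
    refine ContinuousOn.mul ?_ sF
    fun_prop
  constructor
  · have e1 : (∫ z in D.U, κ z * (Real.cos (N * (ρ z - c)) : ℂ) * H z) =
        (1 / 2 : ℂ) * ((∫ z in D.U, Complex.exp (Complex.I * (N * (ρ z - c) : ℝ)) *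
          (κ z * H z)) + ∫ z in D.U, Complex.exp (-(Complex.I * (N * (ρ z - c) : ℝ))) *
          (κ z * H z)) := by
      rw [← integral_add i1 i2, ← integral_const_mul]
      congr 1
      funext z
      rw [Complex.ofReal_cos, Complex.cos]
      rw [show ((N * (ρ z - c) : ℝ) : ℂ) * Complex.I = Complex.I * ((N * (ρ z - c) : ℝ) : ℂ) from
        mul_comm _ _, show -((N * (ρ z - c) : ℝ) : ℂ) * Complex.I =
          -(Complex.I * ((N * (ρ z - c) : ℝ) : ℂ)) by ring]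
      ring
    rw [e1, norm_mul]
    have e2 : ‖(1 / 2 : ℂ)‖ = 1 / 2 := by simp
    rw [e2]
    have e3 := norm_add_le (∫ z in D.U, Complex.exp (Complex.I * (N * (ρ z - c) : ℝ)) *
          (κ z * H z)) (∫ z in D.U, Complex.exp (-(Complex.I * (N * (ρ z - c) : ℝ))) *
          (κ z * H z))
    linarith
  · have e1 : (∫ z in D.U, κ z * (Real.sin (N * (ρ z - c)) : ℂ) * H z) =
        (Complex.I / 2 : ℂ) * ((∫ z in D.U, Complex.exp (-(Complex.I * (N * (ρ z - c) : ℝ))) *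
          (κ z * H z)) - ∫ z in D.U, Complex.exp (Complex.I * (N * (ρ z - c) : ℝ)) *
          (κ z * H z)) := by
      rw [← integral_sub i2 i1, ← integral_const_mul]
      congr 1
      funext z
      rw [Complex.ofReal_sin, Complex.sin]
      rw [show ((N * (ρ z - c) : ℝ) : ℂ) * Complex.I = Complex.I * ((N * (ρ z - c) : ℝ) : ℂ) from
        mul_comm _ _, show -((N * (ρ z - c) : ℝ) : ℂ) * Complex.I =
          -(Complex.I * ((N * (ρ z - c) : ℝ) : ℂ)) by ring]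
      ring
    rw [e1, norm_mul]
    have e2 : ‖(Complex.I / 2 : ℂ)‖ = 1 / 2 := by simp
    rw [e2]
    have e3 := norm_sub_le (∫ z in D.U, Complex.exp (-(Complex.I * (N * (ρ z - c) : ℝ))) *
          (κ z * H z)) (∫ z in D.U, Complex.exp (Complex.I * (N * (ρ z - c) : ℝ)) *
          (κ z * H z))
    linarith

/-- the exact identity for one cutoff function -/
theorem Ctx.cut_id (h : Ctx D V Z u ρ g₁ g₂) {χ : ℂ → ℝ} {c : ℝ} (hc : Cut D Z ρ χ c) (N : ℝ) :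
    (N : ℂ) ^ 2 * (∫ z in D.U, (χ z : ℂ) * (Real.cos (N * (ρ z - c)) : ℂ) *
        (g₁ z * conj (g₂ z))) =
      (∫ z in D.U, (χ z : ℂ) * ((1 - Real.cos (N * (ρ z - c)) : ℝ) : ℂ) *
        (deriv (fun w => g₁ w / u w) z * conj (deriv (fun w => g₂ w / u w) z))) +
      (∫ z in D.U, dzb (fun w => (χ w : ℂ)) z *
        (deriv (fun w => g₁ w / u w) z * conj (g₂ z / u z))) -
      (∫ z in D.U, dzb (fun w => (χ w : ℂ)) z * (Real.cos (N * (ρ z - c)) : ℂ) *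
        (deriv (fun w => g₁ w / u w) z * conj (g₂ z / u z))) -
      (N : ℂ) * (∫ z in D.U, dz (fun w => (χ w : ℂ)) z * (Real.sin (N * (ρ z - c)) : ℂ) *
        (g₁ z / u z * conj (g₂ z))) := by
  have h1 := h.int1 hc N
  have h2 := h.int2 hc N
  have hWV : V \ Z ⊆ V := sdiff_subset
  have sdχ := hc.smooth_dz
  have scs := (h.smooth_cos N c).mono hWV
  have sR' := h.smoothR' h.hg₁
  have sR₂ := smooth_conj (h.smoothR h.hg₂)
  have i1 : IntegrableOn (fun z => dzb (fun w => (χ w : ℂ)) z *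
      (deriv (fun w => g₁ w / u w) z * conj (g₂ z / u z))) D.U := by
    refine h.int_aux ((sdχ.2.contDiffOn.mul (sR'.mul sR₂)).continuousOn)
      fun p hp => ?_
    refine ⟨0, ?_⟩
    filter_upwards [hc.dz_crit hp] with w hw _
    rw [hw.2]; simp
  have i2 : IntegrableOn (fun z => dzb (fun w => (χ w : ℂ)) z *
      (Real.cos (N * (ρ z - c)) : ℂ) *
      (deriv (fun w => g₁ w / u w) z * conj (g₂ z / u z))) D.U := by
    refine h.int_aux (((sdχ.2.contDiffOn.mul scs).mul (sR'.mul sR₂)).continuousOn)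
      fun p hp => ?_
    refine ⟨0, ?_⟩
    filter_upwards [hc.dz_crit hp] with w hw _
    rw [hw.2]; simp
  have e : (∫ z in D.U, dzb (fun w => (χ w : ℂ)) z * ((1 - Real.cos (N * (ρ z - c)) : ℝ) : ℂ) *
        (deriv (fun w => g₁ w / u w) z * conj (g₂ z / u z))) =
      (∫ z in D.U, dzb (fun w => (χ w : ℂ)) z *
        (deriv (fun w => g₁ w / u w) z * conj (g₂ z / u z))) -
      (∫ z in D.U, dzb (fun w => (χ w : ℂ)) z * (Real.cos (N * (ρ z - c)) : ℂ) *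
        (deriv (fun w => g₁ w / u w) z * conj (g₂ z / u z))) := by
    rw [← integral_sub i1 i2]
    congr 1
    funext z
    push_cast
    ring
  rw [e] at h2
  linear_combination (N : ℂ) * h1 - h2


theorem Ctx.nonosc (h : Ctx D V Z u ρ g₁ g₂) {ι : Type} [Fintype ι] {χ : ι → ℂ → ℝ} {c : ι → ℝ}
    (hc : ∀ i, Cut D Z ρ (χ i) (c i))
    (hκZ : ∀ p ∈ Z, ∀ᶠ w in 𝓝 p, (1 - ∑ i, (χ i w : ℂ)) = 0)
    (hκc : ∀ l, ∀ z ∈ D.circ l, ∀ᶠ w in 𝓝 z, (1 - ∑ i, (χ i w : ℂ)) = 0) :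
    ∑ i, (∫ z in D.U, dzb (fun w => (χ i w : ℂ)) z *
        (deriv (fun w => g₁ w / u w) z * conj (g₂ z / u z))) =
      ∫ z in D.U, (1 - ∑ i, (χ i z : ℂ)) *
        (deriv (fun w => g₁ w / u w) z * conj (deriv (fun w => g₂ w / u w) z)) := by
  have hWV : V \ Z ⊆ V := sdiff_subset
  have sR' := h.smoothR' h.hg₁
  have sR₂ := smooth_conj (h.smoothR h.hg₂)
  have sR₂' := smooth_conj (h.smoothR' h.hg₂)
  have sκ : ContDiff ℝ (⊤ : ℕ∞) (fun w => 1 - ∑ i, (χ i w : ℂ)) :=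
    contDiff_const.sub (ContDiff.sum fun i _ => (hc i).smoothC)
  have sF := h.smooth_cut sκ hκZ (sR'.mul sR₂)
  have key := (green_zero D h.hV h.hcV (sF.of_le (by simp)) (fun l z hz => by
    simp only [(hκc l z hz).self_of_nhds, zero_mul])).2
  have i1 : ∀ i, IntegrableOn (fun z => dzb (fun w => (χ i w : ℂ)) z *
      (deriv (fun w => g₁ w / u w) z * conj (g₂ z / u z))) D.U := by
    intro i
    refine h.int_aux (((hc i).smooth_dz.2.contDiffOn.mul (sR'.mul sR₂)).continuousOn)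
      fun p hp => ?_
    refine ⟨0, ?_⟩
    filter_upwards [(hc i).dz_crit hp] with w hw _
    rw [hw.2]; simp
  have i2 : IntegrableOn (fun z => (1 - ∑ i, (χ i z : ℂ)) *
      (deriv (fun w => g₁ w / u w) z * conj (deriv (fun w => g₂ w / u w) z))) D.U := by
    refine h.int_aux ((sκ.contDiffOn.mul (sR'.mul sR₂')).continuousOn) fun p hp => ?_
    refine ⟨0, ?_⟩
    filter_upwards [hκZ p hp] with w hw _
    rw [hw]; simp
  have e1 : ∀ z ∈ V \ Z, dzb (fun z => (1 - ∑ i, (χ i z : ℂ)) *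
      (deriv (fun w => g₁ w / u w) z * conj (g₂ z / u z))) z =
      (1 - ∑ i, (χ i z : ℂ)) *
        (deriv (fun w => g₁ w / u w) z * conj (deriv (fun w => g₂ w / u w) z)) -
      ∑ i, dzb (fun w => (χ i w : ℂ)) z *
        (deriv (fun w => g₁ w / u w) z * conj (g₂ z / u z)) := by
    intro z hz
    have d0 : ∀ i, DifferentiableAt ℝ (fun w => (χ i w : ℂ)) z := fun i =>
      (hc i).smoothC.differentiable (by simp) z
    have d1 : DifferentiableAt ℝ (fun w => 1 - ∑ i, (χ i w : ℂ)) z :=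
      sκ.differentiable (by simp) z
    have d3 : DifferentiableAt ℂ (deriv fun w => g₁ w / u w) z :=
      (h.diffR' h.hg₁ z hz).differentiableAt (h.openW.mem_nhds hz)
    have d4 : DifferentiableAt ℂ (fun w => g₂ w / u w) z :=
      (h.diffR h.hg₂ z hz).differentiableAt (h.openW.mem_nhds hz)
    have d4' : DifferentiableAt ℝ (fun w => conj (g₂ w / u w)) z :=
      Complex.conjCLE.differentiableAt.comp z (d4.restrictScalars ℝ)
    have m2 := (dz_mul (d3.restrictScalars ℝ) d4').2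
    have e2 : dzb (fun w => 1 - ∑ i, (χ i w : ℂ)) z = -∑ i, dzb (fun w => (χ i w : ℂ)) z := by
      have e3 : (fun w => 1 - ∑ i, (χ i w : ℂ)) = fun w => (1 : ℂ) + -(∑ i, (χ i w : ℂ)) := by
        funext w; ring
      have d5 : DifferentiableAt ℝ (fun w => ∑ i, (χ i w : ℂ)) z :=
        (ContDiff.sum fun i _ => (hc i).smoothC).differentiable (by simp) z
      rw [e3, (dz_add (differentiableAt_const _) d5.fun_neg).2, dz_const.2, dz_neg.2,
        (dz_sum Finset.univ (fun i _ => d0 i)).2, zero_add]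
    rw [(dz_mul d1 ((d3.restrictScalars ℝ).fun_mul d4')).2, m2, e2, (dz_hol d3).2,
      (dz_conj_hol d4).2, neg_mul, Finset.sum_mul]
    ring
  rw [h.setIntegral_congr e1, integral_sub i2 (integrable_finsetSum _ fun i _ => i1 i),
    integral_finsetSum _ fun i _ => i1 i] at key
  linear_combination -key

end

end PosId

section
variable {k : ℕ} {D : CD k} {τ δ : ℝ} {ι : Type} [Fintype ι] [DecidableEq ι]

open PosId

/-- the exact identity -/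
theorem pos_identity (hτ : D.Good τ) (hδ : 0 < δ) (hδτ : δ ≤ τ) (h : HM D τ δ) {x : Fin k → ℝ}
    (hx : x ≠ 0) (ps : PS D (h.rho x) ι) {g₁ g₂ : ℂ → ℂ} (hg₁ : DifferentiableOn ℂ g₁ (D.Ue δ))
    (hg₂ : DifferentiableOn ℂ g₂ (D.Ue δ)) (K : ℕ) :
    ∃ C : ℝ, ∀ N : ℝ, 1 ≤ N →
      ‖(N : ℂ) ^ 2 * (∑ i, ∫ z in D.U, (ps.chi i z : ℂ) *
          (Real.cos (N * (h.rho x z - ps.c i)) : ℂ) * (g₁ z * conj (g₂ z))) -
        ((∑ i, ∫ z in D.U, (ps.chi i z : ℂ) *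
          ((1 - Real.cos (N * (h.rho x z - ps.c i)) : ℝ) : ℂ) *
            (deriv (fun w => g₁ w / h.vv x w) z * conj (deriv (fun w => g₂ w / h.vv x w) z))) +
          ∫ z in D.U, (1 - ∑ i, (ps.chi i z : ℂ)) *
            (deriv (fun w => g₁ w / h.vv x w) z * conj (deriv (fun w => g₂ w / h.vv x w) z)))‖
      ≤ C / N ^ K := by
  obtain ⟨hρ, _, hu, hdρ, hdbρ, _, _, _⟩ := rho_facts h hτ hδ x 0
  obtain ⟨hfin, z₁, hz₁, hz₁'⟩ := vv_zeros h hτ hδ hδτ hx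
  set Z : Set ℂ := {z | z ∈ D.cU ∧ h.vv x z = 0} with hZdef
  -- isolated zeros
  have hr : ∀ j, δ < D.r j := fun j => hδτ.trans_lt (hτ.lt_r j)
  have hpre : IsPreconnected (D.Ue δ) := by
    rw [← D.enl_U δ hδ.le hr]
    exact U_preconnected _
  have hUe := D.Ue_open δ
  have hcUe := D.cU_subset_Ue hδ
  have hana : AnalyticOnNhd ℂ (h.vv x) (D.Ue δ) := hu.analyticOnNhd hUe
  have hiso : ∀ p ∈ D.Ue δ, ∀ᶠ w in 𝓝[≠] p, h.vv x w ≠ 0 := by
    intro p hp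
    rcases (hana p hp).eventually_eq_zero_or_eventually_ne_zero with h0 | h0
    · exfalso
      have := hana.eqOn_zero_of_preconnected_of_eventuallyEq_zero hpre hp h0
      exact hz₁' (this (hcUe (D.U_subset_cU hz₁)))
    · exact h0
  set V : Set ℂ := {z | z ∈ D.Ue δ ∧ (h.vv x z ≠ 0 ∨ z ∈ Z)} with hVdef
  have hVUe : V ⊆ D.Ue δ := fun z hz => hz.1
  have hcV : D.cU ⊆ V := fun z hz => ⟨hcUe hz, by
    by_cases h0 : h.vv x z = 0
    · exact Or.inr ⟨hz, h0⟩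
    · exact Or.inl h0⟩
  have hVo : IsOpen V := by
    rw [isOpen_iff_mem_nhds]
    intro z hz
    have h1 : ∀ᶠ w in 𝓝 z, w ∈ D.Ue δ := hUe.mem_nhds hz.1
    rcases hz.2 with h0 | h0
    · have h2 : ∀ᶠ w in 𝓝 z, h.vv x w ≠ 0 :=
        (hana z hz.1).continuousAt.eventually_ne h0
      filter_upwards [h1, h2] with w hw hw'
      exact ⟨hw, Or.inl hw'⟩
    · have h2 := eventually_nhdsWithin_iff.1 (hiso z hz.1)
      filter_upwards [h1, h2] with w hw hw'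
      by_cases hwz : w = z
      · exact ⟨hw, Or.inr (hwz ▸ h0)⟩
      · exact ⟨hw, Or.inl (hw' hwz)⟩
  have hctx : Ctx D V Z (h.vv x) (h.rho x) g₁ g₂ :=
    { hV := hVo
      hcV := hcV
      hZ := hfin
      hZc := fun z hz => hz.1
      uZ := fun z hz => ⟨fun h0 => hz.2.resolve_left (fun h1 => h1 h0), fun h0 => h0.2⟩
      hu := hu.mono hVUe
      hρ := hρ.mono hVUe
      dρ := fun z hz => hdρ z hz.1
      dbρ := fun z hz => hdbρ z hz.1
      hg₁ := hg₁.mono hVUe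
      hg₂ := hg₂.mono hVUe }
  -- the cutoff functions
  have hoff : ∀ i z, z ∉ tsupport (ps.chi i) → ∀ᶠ w in 𝓝 z, ps.chi i w = 0 := fun i z hz =>
    notMem_tsupport_iff_eventuallyEq.1 hz
  have hon : ∀ i z, (∀ᶠ w in 𝓝 z, ps.chi i w = 1) → z ∈ tsupport (ps.chi i) := by
    intro i z hz
    apply subset_tsupport
    rw [Function.mem_support, hz.self_of_nhds]
    exact one_ne_zero
  have hdisj : ∀ i j z, i ≠ j → (∀ᶠ w in 𝓝 z, ps.chi i w = 1) →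
      ∀ᶠ w in 𝓝 z, ps.chi j w = 0 := fun i j z hij hz =>
    hoff j z (Set.disjoint_left.1 (ps.disj i j hij) (hon i z hz))
  have hcrit : ∀ p ∈ Z, ∃ i, ∀ᶠ w in 𝓝 p, ps.chi i w = 1 := fun p hp =>
    ps.crit_near p hp.1 (by rw [hdρ p (hcUe hp.1)]; exact hp.2)
  have hcut : ∀ i, Cut D Z (h.rho x) (ps.chi i) (ps.c i) := by
    intro i
    refine ⟨ps.smooth i, ?_, ?_⟩
    · intro l z hz
      by_cases hi : i = ps.bd l
      · subst hi
        exact Or.inr ⟨ps.val_circ l z hz, ps.bd_near l z hz⟩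
      · refine Or.inl (hoff i z fun hz' => hi (ps.only_circ i l ⟨z, hz', hz⟩))
    · intro p hp
      obtain ⟨i₀, hi₀⟩ := hcrit p hp
      by_cases hi : i₀ = i
      · subst hi
        refine Or.inr ⟨ps.val_crit i₀ p ⟨hon _ _ hi₀, hp.1⟩ ?_, hi₀⟩
        rw [hdρ p (hcUe hp.1)]
        exact hp.2
      · exact Or.inl (hdisj i₀ i p hi hi₀)
  have hsum : ∀ z, (∃ i, ∀ᶠ w in 𝓝 z, ps.chi i w = 1) →
      ∀ᶠ w in 𝓝 z, (1 - ∑ i, (ps.chi i w : ℂ)) = 0 := by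
    rintro z ⟨i, hi⟩
    have h1 : ∀ᶠ w in 𝓝 z, ∀ j, i ≠ j → ps.chi j w = 0 := by
      rw [eventually_all]
      intro j
      by_cases hij : i = j
      · exact Eventually.of_forall fun w hw => absurd hij hw
      · filter_upwards [hdisj i j z hij hi] with w hw _ using hw
    filter_upwards [hi, h1] with w hw hw'
    rw [Finset.sum_eq_single i (fun j _ hj => by rw [hw' j (Ne.symm hj)]; simp)
      (fun hi' => absurd (Finset.mem_univ i) hi'), hw]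
    simp
  have hκZ : ∀ p ∈ Z, ∀ᶠ w in 𝓝 p, (1 - ∑ i, (ps.chi i w : ℂ)) = 0 := fun p hp =>
    hsum p (hcrit p hp)
  have hκc : ∀ l, ∀ z ∈ D.circ l, ∀ᶠ w in 𝓝 z, (1 - ∑ i, (ps.chi i w : ℂ)) = 0 :=
    fun l z hz => hsum z ⟨ps.bd l, ps.bd_near l z hz⟩
  -- oscillating terms
  have hWV : V \ Z ⊆ V := sdiff_subset
  have sR := hctx.smoothR hctx.hg₁
  have sR' := hctx.smoothR' hctx.hg₁
  have sR₂ := smooth_conj (hctx.smoothR hctx.hg₂)
  have sg₂ : ContDiffOn ℝ (⊤ : ℕ∞) (fun w => conj (g₂ w)) (V \ Z) :=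
    (smooth_conj (hol_contDiffOn hctx.hV hctx.hg₂)).mono hWV
  have o1 : ∀ i, ∃ C : ℝ, ∀ N : ℝ, 1 ≤ N →
      ‖∫ z in D.U, dzb (fun w => (ps.chi i w : ℂ)) z *
        (Real.cos (N * (h.rho x z - ps.c i)) : ℂ) *
        (deriv (fun w => g₁ w / h.vv x w) z * conj (g₂ z / h.vv x z))‖ ≤ C / N ^ K := by
    intro i
    obtain ⟨C, hC⟩ := hctx.osc (hcut i).smooth_dz.2
      (fun p hp => ((hcut i).dz_crit hp).mono fun w hw => hw.2)
      (fun l z hz => ((hcut i).dz_circ hz).mono fun w hw => hw.2) (sR'.mul sR₂) (ps.c i) K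
    exact ⟨C, fun N hN => (hC N hN).1⟩
  have o2 : ∀ i, ∃ C : ℝ, ∀ N : ℝ, 1 ≤ N →
      ‖∫ z in D.U, dz (fun w => (ps.chi i w : ℂ)) z *
        (Real.sin (N * (h.rho x z - ps.c i)) : ℂ) *
        (g₁ z / h.vv x z * conj (g₂ z))‖ ≤ C / N ^ (K + 1) := by
    intro i
    obtain ⟨C, hC⟩ := hctx.osc (hcut i).smooth_dz.1
      (fun p hp => ((hcut i).dz_crit hp).mono fun w hw => hw.1)
      (fun l z hz => ((hcut i).dz_circ hz).mono fun w hw => hw.1) (sR.mul sg₂) (ps.c i) (K + 1)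
    exact ⟨C, fun N hN => (hC N hN).2⟩
  choose C₁ hC₁ using o1
  choose C₂ hC₂ using o2
  refine ⟨∑ i, (C₁ i + C₂ i), fun N hN => ?_⟩
  have hN0 : (0 : ℝ) < N := by linarith
  have hNK : 0 < N ^ K := by positivity
  have hid := hctx.nonosc hcut hκZ hκc
  rw [← hid, Finset.mul_sum]
  have e : ∀ i, (N : ℂ) ^ 2 * (∫ z in D.U, (ps.chi i z : ℂ) *
      (Real.cos (N * (h.rho x z - ps.c i)) : ℂ) * (g₁ z * conj (g₂ z))) = _ := fun i =>
    hctx.cut_id (hcut i) N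
  rw [Finset.sum_congr rfl fun i _ => e i, Finset.sum_sub_distrib, Finset.sum_sub_distrib,
    Finset.sum_add_distrib]
  have e' : ∀ a b c' d' : ℂ, a + b - c' - d' - (a + b) = -(c' + d') := fun a b c' d' => by ring
  rw [e', norm_neg, ← Finset.sum_add_distrib, Finset.sum_div]
  refine (norm_sum_le _ _).trans (Finset.sum_le_sum fun i _ => ?_)
  refine (norm_add_le _ _).trans ?_
  rw [norm_mul, add_div]
  have a1 := hC₁ i N hN
  have a2 := hC₂ i N hN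
  have a3 : ‖(N : ℂ)‖ = N := by
    rw [Complex.norm_real, Real.norm_eq_abs, abs_of_pos hN0]
  rw [a3]
  have a4 : N * (C₂ i / N ^ (K + 1)) = C₂ i / N ^ K := by
    rw [pow_succ]
    field_simp
  have a5 := mul_le_mul_of_nonneg_left a2 hN0.le
  rw [a4] at a5
  exact add_le_add a1 a5

end

end Pool.Agent.Helper7.KE
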