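import Pool.Agent.Helper7.KE.E3b
import Pool.Agent.Helper7.KE.A5b

set_option autoImplicit false

open MeasureTheory Set Filter Asymptotics Topology Metric
open scoped ComplexConjugate ENNReal

namespace Pool.Agent.Helper7.KE

section
variable {k : ℕ} {D : CD k} {τ δ : ℝ} {ι : Type} [Fintype ι] [DecidableEq ι]

open PosId

/-- the analytic context of a phase system -/
theorem E3c_ctx (hτ : D.Good τ) (hδ : 0 < δ) (hδτ : δ ≤ τ) (h : HM D τ δ) {x : Fin k → ℝ}
    (hx : x ≠ 0) (ps : PS D (h.rho x) ι) : ∃ V Z : Set ℂ, V ⊆ D.Ue δ ∧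
      (∀ g₁ g₂ : ℂ → ℂ, DifferentiableOn ℂ g₁ (D.Ue δ) → DifferentiableOn ℂ g₂ (D.Ue δ) →
        Ctx D V Z (h.vv x) (h.rho x) g₁ g₂) ∧ (∀ i, Cut D Z (h.rho x) (ps.chi i) (ps.c i)) ∧
      (∀ p ∈ Z, ∀ᶠ w in 𝓝 p, (1 - ∑ i, (ps.chi i w : ℂ)) = 0) := by
  obtain ⟨hρ, _, hu, hdρ, hdbρ, _, _, _⟩ := rho_facts h hτ hδ x 0
  obtain ⟨hfin, z₁, hz₁, hz₁'⟩ := vv_zeros h hτ hδ hδτ hx
  set Z : Set ℂ := {z | z ∈ D.cU ∧ h.vv x z = 0} with hZdef
  -- isolated zeros
  have hr : ∀ j, δ < D.r j := fun j => hδτ.trans_lt (hτ.lt_r j)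
  have hpre : IsPreconnected (D.Ue δ) := by
    rw [← D.enl_U δ hδ.le hr]
    exact U_preconnected _
  have hUe := D.Ue_open δ
  have hcUe := D.cU_subset_Ue hδ
  have hana : AnalyticOnNhd ℂ (h.vv x) (D.Ue δ) := hu.analyticOnNhd hUe
  have hiso : ∀ p ∈ D.Ue δ, ∀ᶠ w in 𝓝[≠] p, h.vv x w ≠ 0 := by
    intro p hp
    rcases (hana p hp).eventually_eq_zero_or_eventually_ne_zero with h0 | h0
    · exfalso
      have := hana.eqOn_zero_of_preconnected_of_eventuallyEq_zero hpre hp h0
      exact hz₁' (this (hcUe (D.U_subset_cU hz₁)))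
    · exact h0
  set V : Set ℂ := {z | z ∈ D.Ue δ ∧ (h.vv x z ≠ 0 ∨ z ∈ Z)} with hVdef
  have hVUe : V ⊆ D.Ue δ := fun z hz => hz.1
  have hcV : D.cU ⊆ V := fun z hz => ⟨hcUe hz, by
    by_cases h0 : h.vv x z = 0
    · exact Or.inr ⟨hz, h0⟩
    · exact Or.inl h0⟩
  have hVo : IsOpen V := by
    rw [isOpen_iff_mem_nhds]
    intro z hz
    have h1 : ∀ᶠ w in 𝓝 z, w ∈ D.Ue δ := hUe.mem_nhds hz.1
    rcases hz.2 with h0 | h0
    · have h2 : ∀ᶠ w in 𝓝 z, h.vv x w ≠ 0 :=
        (hana z hz.1).continuousAt.eventually_ne h0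
      filter_upwards [h1, h2] with w hw hw'
      exact ⟨hw, Or.inl hw'⟩
    · have h2 := eventually_nhdsWithin_iff.1 (hiso z hz.1)
      filter_upwards [h1, h2] with w hw hw'
      by_cases hwz : w = z
      · exact ⟨hw, Or.inr (hwz ▸ h0)⟩
      · exact ⟨hw, Or.inl (hw' hwz)⟩
  have hctx : ∀ g₁ g₂ : ℂ → ℂ, DifferentiableOn ℂ g₁ (D.Ue δ) →
      DifferentiableOn ℂ g₂ (D.Ue δ) → Ctx D V Z (h.vv x) (h.rho x) g₁ g₂ := fun g₁ g₂ hg₁ hg₂ =>
    { hV := hVo
      hcV := hcV
      hZ := hfin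
      hZc := fun z hz => hz.1
      uZ := fun z hz => ⟨fun h0 => hz.2.resolve_left (fun h1 => h1 h0), fun h0 => h0.2⟩
      hu := hu.mono hVUe
      hρ := hρ.mono hVUe
      dρ := fun z hz => hdρ z hz.1
      dbρ := fun z hz => hdbρ z hz.1
      hg₁ := hg₁.mono hVUe
      hg₂ := hg₂.mono hVUe }
  -- the cutoff functions
  have hoff : ∀ i z, z ∉ tsupport (ps.chi i) → ∀ᶠ w in 𝓝 z, ps.chi i w = 0 := fun i z hz =>
    notMem_tsupport_iff_eventuallyEq.1 hz
  have hon : ∀ i z, (∀ᶠ w in 𝓝 z, ps.chi i w = 1) → z ∈ tsupport (ps.chi i) := by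
    intro i z hz
    apply subset_tsupport
    rw [Function.mem_support, hz.self_of_nhds]
    exact one_ne_zero
  have hdisj : ∀ i j z, i ≠ j → (∀ᶠ w in 𝓝 z, ps.chi i w = 1) →
      ∀ᶠ w in 𝓝 z, ps.chi j w = 0 := fun i j z hij hz =>
    hoff j z (Set.disjoint_left.1 (ps.disj i j hij) (hon i z hz))
  have hcrit : ∀ p ∈ Z, ∃ i, ∀ᶠ w in 𝓝 p, ps.chi i w = 1 := fun p hp =>
    ps.crit_near p hp.1 (by rw [hdρ p (hcUe hp.1)]; exact hp.2)
  have hcut : ∀ i, Cut D Z (h.rho x) (ps.chi i) (ps.c i) := by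
    intro i
    refine ⟨ps.smooth i, ?_, ?_⟩
    · intro l z hz
      by_cases hi : i = ps.bd l
      · subst hi
        exact Or.inr ⟨ps.val_circ l z hz, ps.bd_near l z hz⟩
      · refine Or.inl (hoff i z fun hz' => hi (ps.only_circ i l ⟨z, hz', hz⟩))
    · intro p hp
      obtain ⟨i₀, hi₀⟩ := hcrit p hp
      by_cases hi : i₀ = i
      · subst hi
        refine Or.inr ⟨ps.val_crit i₀ p ⟨hon _ _ hi₀, hp.1⟩ ?_, hi₀⟩
        rw [hdρ p (hcUe hp.1)]
        exact hp.2
      · exact Or.inl (hdisj i₀ i p hi hi₀)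
  have hsum : ∀ z, (∃ i, ∀ᶠ w in 𝓝 z, ps.chi i w = 1) →
      ∀ᶠ w in 𝓝 z, (1 - ∑ i, (ps.chi i w : ℂ)) = 0 := by
    rintro z ⟨i, hi⟩
    have h1 : ∀ᶠ w in 𝓝 z, ∀ j, i ≠ j → ps.chi j w = 0 := by
      rw [eventually_all]
      intro j
      by_cases hij : i = j
      · exact Eventually.of_forall fun w hw => absurd hij hw
      · filter_upwards [hdisj i j z hij hi] with w hw _ using hw
    filter_upwards [hi, h1] with w hw hw'
    rw [Finset.sum_eq_single i (fun j _ hj => by rw [hw' j (Ne.symm hj)]; simp)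
      (fun hi' => absurd (Finset.mem_univ i) hi'), hw]
    simp
  exact ⟨V, Z, hVUe, hctx, hcut, fun p hp => hsum p (hcrit p hp)⟩

theorem E3c_quad {m : ℕ} {S : Set ℂ} {ω : ℂ → ℝ} {f : Fin m → ℂ → ℂ}
    (hint : ∀ b b', IntegrableOn (fun z => (ω z : ℂ) * (f b z * conj (f b' z))) S)
    (β : Fin m → ℂ) :
    ∑ b, ∑ b', β b * conj (β b') * ∫ z in S, (ω z : ℂ) * (f b z * conj (f b' z)) =
      ((∫ z in S, ω z * ‖∑ b, β b * f b z‖ ^ 2 : ℝ) : ℂ) ∧
    IntegrableOn (fun z => ω z * ‖∑ b, β b * f b z‖ ^ 2) S := by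
  have hp : ∀ z, ((ω z * ‖∑ b, β b * f b z‖ ^ 2 : ℝ) : ℂ) =
      ∑ b, ∑ b', β b * conj (β b') * ((ω z : ℂ) * (f b z * conj (f b' z))) := by
    intro z
    have h1 : ((‖∑ b, β b * f b z‖ ^ 2 : ℝ) : ℂ) =
        (∑ b, β b * f b z) * conj (∑ b, β b * f b z) := by
      rw [Complex.mul_conj, Complex.normSq_eq_norm_sq]
    rw [Complex.ofReal_mul, h1, map_sum, Finset.sum_mul_sum, Finset.mul_sum]
    refine Finset.sum_congr rfl fun b _ => ?_
    rw [Finset.mul_sum]
    refine Finset.sum_congr rfl fun b' _ => ?_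
    rw [map_mul]
    ring
  have hi : IntegrableOn (fun z => ∑ b, ∑ b', β b * conj (β b') *
      ((ω z : ℂ) * (f b z * conj (f b' z)))) S :=
    integrable_finsetSum _ fun b _ => integrable_finsetSum _ fun b' _ => (hint b b').const_mul _
  have hi' : IntegrableOn (fun z => ((ω z * ‖∑ b, β b * f b z‖ ^ 2 : ℝ) : ℂ)) S := by
    simp only [hp]
    exact hi
  refine ⟨?_, ?_⟩
  · rw [← integral_complex_ofReal]
    simp only [hp]
    rw [integral_finsetSum _ fun b _ => integrable_finsetSum _ fun b' _ =>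
      (hint b b').const_mul _]
    refine Finset.sum_congr rfl fun b _ => ?_
    rw [integral_finsetSum _ fun b' _ => (hint b b').const_mul _]
    refine Finset.sum_congr rfl fun b' _ => ?_
    rw [integral_const_mul]
  · exact hi'.re.congr (ae_of_all _ fun z => Complex.ofReal_re _)

theorem E3c_swap {m : ℕ} (β : Fin m → ℂ) (f : ι → Fin m → Fin m → ℂ) :
    ∑ b, ∑ b', β b * conj (β b') * ∑ i, f i b b' =
      ∑ i, ∑ b, ∑ b', β b * conj (β b') * f i b b' := by
  simp only [Finset.mul_sum]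
  calc ∑ b, ∑ b', ∑ i, β b * conj (β b') * f i b b'
      = ∑ b, ∑ i, ∑ b', β b * conj (β b') * f i b b' :=
        Finset.sum_congr rfl fun b _ => Finset.sum_comm
    _ = _ := Finset.sum_comm

theorem E3c_kappa {h : HM D τ δ} {x : Fin k → ℝ} (ps : PS D (h.rho x) ι) (z : ℂ) :
    0 ≤ 1 - ∑ i, ps.chi i z := by
  by_cases hz : ∃ i, ps.chi i z ≠ 0
  · obtain ⟨i, hi⟩ := hz
    have h1 : ∀ j ≠ i, ps.chi j z = 0 := by
      intro j hj
      by_contra h0
      exact Set.disjoint_left.1 (ps.disj j i hj) (subset_tsupport _ h0) (subset_tsupport _ hi)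
    rw [Finset.sum_eq_single i (fun j _ hj => h1 j hj) (fun h' => absurd (Finset.mem_univ i) h')]
    linarith [ps.le_one i z]
  · push Not at hz
    simp [hz]

theorem E3c_freq {l : Option (Fin k)} {p : ℂ} (hp : p ∈ D.circ l) : ∃ᶠ z in 𝓝 p, z ∈ D.U := by
  have ev_in : ‖p‖ < D.R → ∀ᶠ z in 𝓝 p, ‖z‖ < D.R := fun h =>
    continuous_norm.continuousAt.eventually_lt continuousAt_const h
  have ev_out : ∀ i, D.r i < ‖p - D.a i‖ → ∀ᶠ z in 𝓝 p, D.r i < ‖z - D.a i‖ := fun i h => by
    have : ContinuousAt (fun z : ℂ => ‖z - D.a i‖) p := by fun_prop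
    exact continuousAt_const.eventually_lt this h
  cases l with
  | none =>
    have hp' : ‖p‖ = D.R := by simpa [CD.circ, CD.cen, CD.rad] using hp
    have h1 : ∀ᶠ z in 𝓝 p, ∀ i, D.r i < ‖z - D.a i‖ := by
      rw [eventually_all]
      intro i
      refine ev_out i ?_
      have h5 : ‖p‖ ≤ ‖p - D.a i‖ + ‖D.a i‖ := by
        simpa using norm_add_le (p - D.a i) (D.a i)
      have := D.inside i
      linarith
    have h2 : ∃ᶠ z in 𝓝 p, z ∈ ball (0 : ℂ) D.R := by
      rw [← mem_closure_iff_frequently, closure_ball (0 : ℂ) D.Rpos.ne']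
      simp [hp']
    exact (h2.and_eventually h1).mono fun z hz => ⟨by simpa using hz.1, hz.2⟩
  | some j =>
    have hp' : ‖p - D.a j‖ = D.r j := by
      simpa [CD.circ, CD.cen, CD.rad, dist_eq_norm] using hp
    have h1 : ∀ᶠ z in 𝓝 p, ‖z‖ < D.R ∧ ∀ i, i ≠ j → D.r i < ‖z - D.a i‖ := by
      rw [eventually_and, eventually_all]
      refine ⟨ev_in ?_, fun i => ?_⟩
      · have h5 : ‖p‖ ≤ ‖p - D.a j‖ + ‖D.a j‖ := by
          simpa using norm_add_le (p - D.a j) (D.a j)
        have := D.inside j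
        linarith
      · by_cases hij : i = j
        · exact Eventually.of_forall fun _ h => absurd hij h
        · refine (ev_out i ?_).mono fun z hz _ => hz
          have h5 : ‖D.a i - D.a j‖ ≤ ‖p - D.a i‖ + ‖p - D.a j‖ := by
            have := norm_sub_le (p - D.a j) (p - D.a i)
            rw [sub_sub_sub_cancel_left] at this
            linarith
          have := D.disj i j hij
          linarith
    have h2 : ∃ᶠ z in 𝓝 p, z ∈ (closedBall (D.a j) (D.r j))ᶜ := by
      rw [← mem_closure_iff_frequently, closure_compl, interior_closedBall _ (D.rpos j).ne']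
      simp [dist_eq_norm, hp']
    refine (h2.and_eventually h1).mono fun z hz => ⟨hz.2.1, fun i => ?_⟩
    by_cases hij : i = j
    · subst hij
      have := hz.1
      simpa [dist_eq_norm] using this
    · exact hz.2.2 i hij

/-- the cutoff functions do not cover the domain -/
theorem E3c_gap {h : HM D τ δ} {x : Fin k → ℝ} (hx : x ≠ 0) (ps : PS D (h.rho x) ι) :
    ∃ z ∈ D.U, 0 < 1 - ∑ i, ps.chi i z := by
  obtain ⟨j, -⟩ := Function.ne_iff.1 hx
  by_contra hcon
  push Not at hcon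
  have hone : ∀ z ∈ D.U, ∑ i, ps.chi i z = 1 := fun z hz =>
    le_antisymm (by linarith [E3c_kappa ps z]) (by linarith [hcon z hz])
  set i₀ := ps.bd none with hi₀
  set F : Set ℂ := tsupport (ps.chi i₀) with hF
  set G : Set ℂ := ⋃ i ∈ {i | i ≠ i₀}, tsupport (ps.chi i) with hG
  have hGc : IsClosed G := (Set.toFinite _).isClosed_biUnion fun i _ => isClosed_tsupport _
  have hcov : D.U ⊆ F ∪ G := by
    intro z hz
    have h1 : ∃ i, ps.chi i z ≠ 0 := by
      by_contra h0
      push Not at h0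
      have := hone z hz
      simp [h0] at this
    obtain ⟨i, hi⟩ := h1
    by_cases hii : i = i₀
    · subst hii
      exact Or.inl (subset_tsupport _ hi)
    · exact Or.inr (mem_biUnion (show i ∈ {i | i ≠ i₀} from hii) (subset_tsupport _ hi))
  -- points of `U` near a circle
  have hpt : ∀ l, ∃ z ∈ D.U, ps.chi (ps.bd l) z = 1 := by
    intro l
    have hr : 0 ≤ D.rad l := by
      cases l with
      | none => exact D.Rpos.le
      | some i => exact (D.rpos i).le
    obtain ⟨p, hp⟩ := (NormedSpace.sphere_nonempty (x := D.cen l)).2 hr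
    have h1 := ps.bd_near l p hp
    have h3 : ∃ᶠ z in 𝓝 p, z ∈ D.U := E3c_freq hp
    obtain ⟨z, hz1, hz2⟩ := (h3.and_eventually h1).exists
    exact ⟨z, hz1, hz2⟩
  obtain ⟨z₁, hz₁, hz₁'⟩ := hpt none
  obtain ⟨z₂, hz₂, hz₂'⟩ := hpt (some j)
  have hne : ps.bd (some j) ≠ i₀ := fun e => by
    have := ps.bd_inj e
    simp at this
  have hF1 : (D.U ∩ F).Nonempty := ⟨z₁, hz₁, subset_tsupport _ (by
    rw [Function.mem_support, hi₀, hz₁']
    exact one_ne_zero)⟩
  have hG1 : (D.U ∩ G).Nonempty := ⟨z₂, hz₂, mem_biUnion (show ps.bd (some j) ∈ {i | i ≠ i₀} from hne)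
    (subset_tsupport _ (by
      rw [Function.mem_support, hz₂']
      exact one_ne_zero))⟩
  obtain ⟨z, -, hzF, hzG⟩ := isPreconnected_closed_iff.1 (U_preconnected D) F G
    (isClosed_tsupport _) hGc hcov hF1 hG1
  obtain ⟨i, hi, hzi⟩ := mem_iUnion₂.1 hzG
  exact Set.disjoint_left.1 (ps.disj i i₀ hi) hzi hzF

/-- lower bound on a finite-dimensional space transversal to `u` (from `pos_identity`) -/
theorem pos_lower (hτ : D.Good τ) (hδ : 0 < δ) (hδτ : δ ≤ τ) (h : HM D τ δ) {x : Fin k → ℝ}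
    (hx : x ≠ 0) (ps : PS D (h.rho x) ι) {m : ℕ} {g : Fin m → ℂ → ℂ}
    (hg : ∀ b, DifferentiableOn ℂ (g b) (D.Ue δ))
    (hind : ∀ β : Fin m → ℂ, (∃ c : ℂ, ∀ z ∈ D.U, ∑ b, β b * g b z = c * h.vv x z) → β = 0) :
    ∃ c > 0, ∃ N₀ : ℝ, ∀ N : ℝ, N₀ ≤ N → ∀ β : Fin m → ℂ,
      c / N ^ 2 * ∑ b, ‖β b‖ ^ 2 ≤
        (∑ b, ∑ b', β b * conj (β b') * Bv h ps N 0 0 (g b) (g b')).re := by
  obtain ⟨V, Z, hVUe, hctx, hcut, hκZ⟩ := E3c_ctx hτ hδ hδτ h hx ps
  have hcUe := D.cU_subset_Ue hδ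
  have hUUe : D.U ⊆ D.Ue δ := D.U_subset_cU.trans hcUe
  have hρ := (rho_facts h hτ hδ x 0).1
  have hctx0 := hctx (fun _ => 0) (fun _ => 0) (differentiableOn_const _) (differentiableOn_const _)
  have hWV : V \ Z ⊆ V := sdiff_subset
  set R' : Fin m → ℂ → ℂ := fun b => deriv (fun w => g b w / h.vv x w) with hR'
  set κ : ℂ → ℝ := fun z => 1 - ∑ i, ps.chi i z with hκ
  have hκc : ∀ z, (κ z : ℂ) = 1 - ∑ i, (ps.chi i z : ℂ) := fun z => by
    simp [hκ]
  -- integrability
  have intA : ∀ (N : ℝ) i b b', IntegrableOn (fun z => (ps.chi i z : ℂ) *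
      ((1 - Real.cos (N * (h.rho x z - ps.c i)) : ℝ) : ℂ) * (R' b z * conj (R' b' z))) D.U := by
    intro N i b b'
    have hc := hctx (g b) (g b') (hg b) (hg b')
    have sχ := (hcut i).smoothC
    have scs := (hc.smooth_one_sub_cos N (ps.c i)).mono hWV
    have sR' := hc.smoothR' hc.hg₁
    have sR₂' := smooth_conj (hc.smoothR' hc.hg₂)
    refine hc.int_aux (((sχ.contDiffOn.mul scs).mul (sR'.mul sR₂')).continuousOn) fun p hp => ?_
    obtain ⟨n, C, hC, e⟩ := hc.key_bd (hcut i) hp N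
    refine ⟨C * C * C, ?_⟩
    filter_upwards [e] with w hw _
    obtain ⟨b1, b2, b3, b4, b5, b6, b7, b8⟩ := hw
    rw [norm_mul _ (_ * _), norm_mul (deriv _ w), Complex.norm_conj]
    calc ‖(ps.chi i w : ℂ) * ((1 - Real.cos (N * (h.rho x w - ps.c i)) : ℝ) : ℂ)‖ *
          (‖deriv (fun w => g b w / h.vv x w) w‖ * ‖deriv (fun w => g b' w / h.vv x w) w‖)
        ≤ (C * ‖w - p‖ ^ (2 * n + 2)) *
          (‖deriv (fun w => g b w / h.vv x w) w‖ * ‖deriv (fun w => g b' w / h.vv x w) w‖) := by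
          gcongr
      _ = C * (‖deriv (fun w => g b w / h.vv x w) w‖ * ‖w - p‖ ^ (n + 1)) *
          (‖deriv (fun w => g b' w / h.vv x w) w‖ * ‖w - p‖ ^ (n + 1)) := by ring
      _ ≤ C * C * C := by gcongr
  have intB : ∀ b b', IntegrableOn (fun z => (κ z : ℂ) * (R' b z * conj (R' b' z))) D.U := by
    intro b b'
    have hc := hctx (g b) (g b') (hg b) (hg b')
    have sκ : ContDiff ℝ (⊤ : ℕ∞) (fun w => 1 - ∑ i, (ps.chi i w : ℂ)) :=
      contDiff_const.sub (ContDiff.sum fun i _ => (hcut i).smoothC)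
    have sR' := hc.smoothR' hc.hg₁
    have sR₂' := smooth_conj (hc.smoothR' hc.hg₂)
    simp only [hκc]
    refine hc.int_aux ((sκ.contDiffOn.mul (sR'.mul sR₂')).continuousOn) fun p hp => ?_
    refine ⟨0, ?_⟩
    filter_upwards [hκZ p hp] with w hw _
    rw [hw]; simp
  have contG : ∀ b b', ContinuousOn (fun z => g b z * conj (g b' z)) D.cU := fun b b' =>
    ((hg b).continuousOn.mono hcUe).mul
      (Complex.continuous_conj.comp_continuousOn ((hg b').continuousOn.mono hcUe))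
  have contρ : ContinuousOn (h.rho x) D.cU := hρ.continuousOn.mono hcUe
  have contχ : ∀ i, ContinuousOn (ps.chi i) D.cU := fun i => (ps.smooth i).continuous.continuousOn
  have intC : ∀ (ω : ℂ → ℝ), ContinuousOn ω D.cU → ∀ b b',
      IntegrableOn (fun z => (ω z : ℂ) * (g b z * conj (g b' z))) D.U := by
    intro ω hω b b'
    exact (((Complex.continuous_ofReal.comp_continuousOn hω).mul (contG b b')).integrableOn_compact
      D.cU_compact).mono_set D.U_subset_cU
  -- the quadratic form of the limit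
  set Q : (Fin m → ℂ) → ℝ := fun β => ∫ z in D.U, κ z * ‖∑ b, β b * R' b z‖ ^ 2 with hQ
  have hQnn : ∀ (β : Fin m → ℂ) (z : ℂ), 0 ≤ κ z * ‖∑ b, β b * R' b z‖ ^ 2 := fun β z =>
    mul_nonneg (E3c_kappa ps z) (by positivity)
  have hQpos : ∀ β, β ≠ 0 → 0 < Q β := by
    intro β hβ
    by_contra hcon
    have hQ0 : Q β = 0 :=
      le_antisymm (not_lt.1 hcon) (integral_nonneg fun z => hQnn β z)
    apply hβ
    apply hind β
    have hae := (setIntegral_eq_zero_iff_of_nonneg_ae (ae_of_all _ fun z => hQnn β z)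
      (E3c_quad intB β).2).1 hQ0
    obtain ⟨z₁, hz₁, hκ₁⟩ := E3c_gap hx ps
    have hz₁Z : z₁ ∉ Z := by
      intro hz
      have := (hκZ z₁ hz).self_of_nhds
      rw [← hκc] at this
      have h0 : κ z₁ = 0 := by exact_mod_cast this
      simp only [hκ] at h0
      linarith
    set O : Set ℂ := {z | z ∈ D.U \ Z ∧ 0 < κ z} with hO
    have hκcont : Continuous κ :=
      continuous_const.sub (continuous_finsetSum _ fun i _ => (ps.smooth i).continuous)
    have hOo : IsOpen O := by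
      have e1 : IsOpen (D.U \ Z) := D.U_open.sdiff hctx0.hZ.isClosed
      exact e1.inter (isOpen_lt continuous_const hκcont)
    have hOU : O ⊆ D.U := fun z hz => hz.1.1
    have hOW : O ⊆ V \ Z := fun z hz => ⟨hctx0.hcV (D.U_subset_cU hz.1.1), hz.1.2⟩
    have hdR : ∀ b, ∀ z ∈ O, DifferentiableAt ℂ (fun w => g b w / h.vv x w) z := fun b z hz => by
      have hc := hctx (g b) (g b) (hg b) (hg b)
      exact (hc.diffR hc.hg₁ z (hOW hz)).differentiableAt (hc.openW.mem_nhds (hOW hz))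
    have hcR : ContinuousOn (fun z => ∑ b, β b * R' b z) O := by
      refine continuousOn_finsetSum _ fun b _ => continuousOn_const.mul ?_
      have hc := hctx (g b) (g b) (hg b) (hg b)
      exact (hc.smoothR' hc.hg₁).continuousOn.mono hOW
    have hz0 : ∀ z ∈ O, ∑ b, β b * R' b z = 0 := by
      have h2 : (fun z => ∑ b, β b * R' b z) =ᵐ[volume.restrict O] fun _ => 0 := by
        have h3 := ae_restrict_of_ae_restrict_of_subset hOU hae
        filter_upwards [h3, ae_restrict_mem hOo.measurableSet] with z hz hzO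
        have h4 : κ z * ‖∑ b, β b * R' b z‖ ^ 2 = 0 := hz
        have h5 := (mul_eq_zero.1 h4).resolve_left hzO.2.ne'
        exact norm_eq_zero.1 ((pow_eq_zero_iff two_ne_zero).1 h5)
      exact Measure.eqOn_open_of_ae_eq h2 hOo hcR continuousOn_const
    have hz₁O : z₁ ∈ O := ⟨⟨hz₁, hz₁Z⟩, hκ₁⟩
    obtain ⟨r, hr, hrO⟩ := Metric.isOpen_iff.1 hOo z₁ hz₁O
    have hconst : ∃ c : ℂ, ∀ z ∈ ball z₁ r, ∑ b, β b * (g b z / h.vv x z) = c := by
      refine isOpen_ball.exists_is_const_of_deriv_eq_zero (convex_ball z₁ r).isPreconnected ?_ ?_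
      · intro z hz
        exact (DifferentiableAt.fun_sum fun b _ =>
          (hdR b z (hrO hz)).const_mul _).differentiableWithinAt
      · intro z hz
        have h3 : HasDerivAt (fun z => ∑ b, β b * (g b z / h.vv x z)) (∑ b, β b * R' b z) z :=
          HasDerivAt.fun_sum fun b _ => (hdR b z (hrO hz)).hasDerivAt.const_mul _
        rw [h3.deriv, hz0 z (hrO hz)]
        rfl
    obtain ⟨c, hc⟩ := hconst
    refine ⟨c, fun z hz => ?_⟩
    have hu : DifferentiableOn ℂ (h.vv x) (D.Ue δ) := (rho_facts h hτ hδ x 0).2.2.1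
    have hd : DifferentiableOn ℂ (fun z => ∑ b, β b * g b z - c * h.vv x z) D.U := by
      refine DifferentiableOn.sub (DifferentiableOn.fun_sum fun b _ =>
        ((hg b).mono hUUe).const_mul _) ((hu.mono hUUe).const_mul _)
    have hev : (fun z => ∑ b, β b * g b z - c * h.vv x z) =ᶠ[𝓝 z₁] 0 := by
      filter_upwards [isOpen_ball.mem_nhds (mem_ball_self hr)] with w hw
      have hwO := hrO hw
      have hne : h.vv x w ≠ 0 := fun h0 =>
        hwO.1.2 ((hctx0.uZ w (hOW hwO).1).1 h0)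
      have h4 := hc w hw
      show ∑ b, β b * g b w - c * h.vv x w = 0
      rw [← h4, Finset.sum_mul, ← Finset.sum_sub_distrib]
      refine Finset.sum_eq_zero fun b _ => ?_
      field_simp
      ring
    have h5 := (hd.analyticOnNhd D.U_open).eqOn_zero_of_preconnected_of_eventuallyEq_zero
      (U_preconnected D) hz₁ hev hz
    exact sub_eq_zero.1 h5
  obtain ⟨c, hc, hQc⟩ : ∃ c > 0, ∀ β, 2 * c * ∑ b, ‖β b‖ ^ 2 ≤ Q β := by
    rcases Nat.eq_zero_or_pos m with hm | hm
    · subst hm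
      refine ⟨1, one_pos, fun β => ?_⟩
      simp only [Finset.univ_eq_empty, Finset.sum_empty, mul_zero]
      exact integral_nonneg fun z => hQnn β z
    · have : Nonempty (Fin m) := ⟨⟨0, hm⟩⟩
      have hQcont : Continuous Q := by
        have e1 : Q = fun β => (∑ b, ∑ b', β b * conj (β b') *
            ∫ z in D.U, (κ z : ℂ) * (R' b z * conj (R' b' z))).re := by
          funext β
          rw [(E3c_quad intB β).1, Complex.ofReal_re]
        rw [e1]
        refine Complex.continuous_re.comp (continuous_finsetSum _ fun b _ =>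
          continuous_finsetSum _ fun b' _ => ?_)
        exact ((continuous_apply b).mul (Complex.continuous_conj.comp (continuous_apply b'))).mul
          continuous_const
      have hne : (sphere (0 : Fin m → ℂ) 1).Nonempty :=
        NormedSpace.sphere_nonempty.2 zero_le_one
      obtain ⟨β₀, hβ₀, hmin⟩ := (isCompact_sphere (0 : Fin m → ℂ) 1).exists_isMinOn hne
        hQcont.continuousOn
      have hβ₀' : β₀ ≠ 0 := by
        rintro rfl
        simp at hβ₀
      have hc₀ := hQpos β₀ hβ₀'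
      have hm' : (0 : ℝ) < m := by exact_mod_cast hm
      refine ⟨Q β₀ / (2 * m), by positivity, fun β => ?_⟩
      by_cases hβ : β = 0
      · subst hβ
        simp only [Pi.zero_apply, norm_zero, ne_eq, OfNat.ofNat_ne_zero, not_false_eq_true,
          zero_pow, Finset.sum_const_zero, mul_zero]
        exact integral_nonneg fun z => hQnn 0 z
      · have ht : 0 < ‖β‖ := norm_pos_iff.2 hβ
        set β' : Fin m → ℂ := fun b => (‖β‖ : ℂ)⁻¹ * β b with hβ'
        have h1 : Q β = ‖β‖ ^ 2 * Q β' := by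
          simp only [hQ]
          rw [← integral_const_mul]
          congr 1
          funext z
          have e1 : ∑ b, β b * R' b z = (‖β‖ : ℂ) * ∑ b, β' b * R' b z := by
            rw [Finset.mul_sum]
            refine Finset.sum_congr rfl fun b _ => ?_
            have : (‖β‖ : ℂ) ≠ 0 := by exact_mod_cast ht.ne'
            simp only [hβ']
            field_simp
          rw [e1, norm_mul, Complex.norm_real, norm_norm]
          ring
        have h2 : β' ∈ sphere (0 : Fin m → ℂ) 1 := by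
          rw [mem_sphere_zero_iff_norm]
          have e1 : β' = (‖β‖ : ℂ)⁻¹ • β := by
            funext b
            simp [hβ']
          rw [e1, norm_smul, norm_inv, Complex.norm_real, norm_norm, inv_mul_cancel₀ ht.ne']
        have h3 : Q β₀ ≤ Q β' := hmin h2
        have h4 : ∑ b, ‖β b‖ ^ 2 ≤ m * ‖β‖ ^ 2 := by
          calc ∑ b, ‖β b‖ ^ 2 ≤ ∑ _b : Fin m, ‖β‖ ^ 2 :=
                Finset.sum_le_sum fun b _ =>
                  pow_le_pow_left₀ (norm_nonneg _) (norm_le_pi_norm β b) 2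
            _ = m * ‖β‖ ^ 2 := by simp
        rw [h1]
        calc 2 * (Q β₀ / (2 * m)) * ∑ b, ‖β b‖ ^ 2
            ≤ 2 * (Q β₀ / (2 * m)) * (m * ‖β‖ ^ 2) := by gcongr
          _ = ‖β‖ ^ 2 * Q β₀ := by field_simp
          _ ≤ ‖β‖ ^ 2 * Q β' := by gcongr
  -- the error
  choose C hC using fun b b' => pos_identity hτ hδ hδτ h hx ps (hg b) (hg b') 1
  set E : ℝ := ∑ b, ∑ b', |C b b'| with hE
  refine ⟨c, hc, max 1 (E / c), fun N hN β => ?_⟩
  have hN1 : 1 ≤ N := (le_max_left _ _).trans hN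
  have hN0 : 0 < N := by linarith
  have hNE : E ≤ c * N := by
    have := (le_max_right _ _).trans hN
    rw [div_le_iff₀ hc] at this
    linarith
  set T : ℝ := ∑ b, ‖β b‖ ^ 2 with hT
  have hT0 : 0 ≤ T := Finset.sum_nonneg fun b _ => by positivity
  set θ : ι → ℂ → ℝ := fun i z => N * (h.rho x z - ps.c i) with hθ
  have contθ : ∀ i, ContinuousOn (θ i) D.cU := fun i =>
    continuousOn_const.mul (contρ.sub continuousOn_const)
  set H : Fin m → Fin m → ℂ := fun b b' => ∑ i, ∫ z in D.U,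
    ((ps.chi i z * Real.cos (θ i z) : ℝ) : ℂ) * (g b z * conj (g b' z)) with hH
  set Sn : Fin m → Fin m → ℂ := fun b b' => ∑ i, ∫ z in D.U,
    ((ps.chi i z * Real.sin (θ i z) : ℝ) : ℂ) * (g b z * conj (g b' z)) with hSn
  have contc : ∀ i, ContinuousOn (fun z => ps.chi i z * Real.cos (θ i z)) D.cU := fun i =>
    (contχ i).mul (Real.continuous_cos.comp_continuousOn (contθ i))
  have conts : ∀ i, ContinuousOn (fun z => ps.chi i z * Real.sin (θ i z)) D.cU := fun i =>
    (contχ i).mul (Real.continuous_sin.comp_continuousOn (contθ i))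
  have hBv : ∀ b b', Bv h ps N 0 0 (g b) (g b') = H b b' + Complex.I * Sn b b' := by
    intro b b'
    rw [Bv, hH, hSn, Finset.mul_sum, ← Finset.sum_add_distrib]
    refine Finset.sum_congr rfl fun i _ => ?_
    have e0 : (∫ z in D.U, ((ps.chi i z * Real.cos (θ i z) : ℝ) : ℂ) * (g b z * conj (g b' z))) +
        Complex.I * (∫ z in D.U, ((ps.chi i z * Real.sin (θ i z) : ℝ) : ℂ) *
          (g b z * conj (g b' z))) =
        ∫ z in D.U, (((ps.chi i z * Real.cos (θ i z) : ℝ) : ℂ) * (g b z * conj (g b' z)) +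
          Complex.I * (((ps.chi i z * Real.sin (θ i z) : ℝ) : ℂ) * (g b z * conj (g b' z)))) := by
      rw [integral_add (intC _ (contc i) b b') ((intC _ (conts i) b b').const_mul _),
        integral_const_mul]
    rw [e0]
    simp only [Pi.zero_apply, Complex.ofReal_zero, mul_zero, Complex.exp_zero, one_mul]
    refine setIntegral_congr_fun D.U_open.measurableSet fun z _ => ?_
    have e1 : Complex.exp (h.rhoC 0 z) = 1 := by
      simp [HM.rhoC]
    have e2 : Complex.exp (Complex.I * (N * (h.rho x z - ps.c i) : ℝ)) =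
        Real.cos (θ i z) + Complex.I * Real.sin (θ i z) := by
      rw [mul_comm, Complex.exp_mul_I, ← Complex.ofReal_cos, ← Complex.ofReal_sin]
      ring
    simp only [e1, e2]
    push_cast
    ring
  set X : ℝ := ∑ i, ∫ z in D.U, (ps.chi i z * Real.cos (θ i z)) * ‖∑ b, β b * g b z‖ ^ 2 with hX
  have hHX : ∑ b, ∑ b', β b * conj (β b') * H b b' = (X : ℂ) := by
    simp only [hH]
    rw [E3c_swap, hX, Complex.ofReal_sum]
    exact Finset.sum_congr rfl fun i _ => (E3c_quad (intC _ (contc i)) β).1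
  set Y : ℝ := ∑ i, ∫ z in D.U, (ps.chi i z * Real.sin (θ i z)) * ‖∑ b, β b * g b z‖ ^ 2 with hY
  have hSY : ∑ b, ∑ b', β b * conj (β b') * Sn b b' = (Y : ℂ) := by
    simp only [hSn]
    rw [E3c_swap, hY, Complex.ofReal_sum]
    exact Finset.sum_congr rfl fun i _ => (E3c_quad (intC _ (conts i)) β).1
  have hre : (∑ b, ∑ b', β b * conj (β b') * Bv h ps N 0 0 (g b) (g b')).re = X := by
    have e1 : ∑ b, ∑ b', β b * conj (β b') * Bv h ps N 0 0 (g b) (g b') =
        (X : ℂ) + Complex.I * (Y : ℂ) := by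
      rw [← hHX, ← hSY, Finset.mul_sum, ← Finset.sum_add_distrib]
      refine Finset.sum_congr rfl fun b _ => ?_
      rw [Finset.mul_sum, ← Finset.sum_add_distrib]
      refine Finset.sum_congr rfl fun b' _ => ?_
      rw [hBv]
      ring
    rw [e1]
    simp
  rw [hre]
  -- the right side of the identity
  set S : Fin m → Fin m → ℂ := fun b b' => (∑ i, ∫ z in D.U,
      ((ps.chi i z * (1 - Real.cos (θ i z)) : ℝ) : ℂ) * (R' b z * conj (R' b' z))) +
    ∫ z in D.U, (κ z : ℂ) * (R' b z * conj (R' b' z)) with hS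
  have intA' : ∀ i b b', IntegrableOn (fun z => ((ps.chi i z * (1 - Real.cos (θ i z)) : ℝ) : ℂ) *
      (R' b z * conj (R' b' z))) D.U := fun i b b' => by
    have := intA N i b b'
    simp only [Complex.ofReal_mul]
    exact this
  set P : ℝ := ∑ i, ∫ z in D.U, (ps.chi i z * (1 - Real.cos (θ i z))) *
    ‖∑ b, β b * R' b z‖ ^ 2 with hP
  have hP0 : 0 ≤ P := Finset.sum_nonneg fun i _ => integral_nonneg fun z =>
    mul_nonneg (mul_nonneg (ps.nonneg i z) (by linarith [Real.cos_le_one (θ i z)])) (by positivity)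
  have hSQ : ∑ b, ∑ b', β b * conj (β b') * S b b' = ((P + Q β : ℝ) : ℂ) := by
    simp only [hS, mul_add, Finset.sum_add_distrib]
    rw [E3c_swap, (E3c_quad intB β).1, hP]
    push_cast
    congr 1
    refine Finset.sum_congr rfl fun i _ => ?_
    have := (E3c_quad (intA' i) β).1
    push_cast at this
    exact this
  have herr : ∀ b b', ‖(N : ℂ) ^ 2 * H b b' - S b b'‖ ≤ |C b b'| / N := by
    intro b b'
    have h1 := hC b b' N hN1
    rw [pow_one] at h1
    have h2 : C b b' / N ≤ |C b b'| / N := by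
      gcongr
      exact le_abs_self _
    refine le_trans (le_of_eq ?_) (h1.trans h2)
    simp only [hH, hS, hκc, Complex.ofReal_mul, hθ, hR']
  have hdiff : ‖((N ^ 2 * X - (P + Q β) : ℝ) : ℂ)‖ ≤ E * T / N := by
    have e1 : ((N ^ 2 * X - (P + Q β) : ℝ) : ℂ) =
        ∑ b, ∑ b', β b * conj (β b') * ((N : ℂ) ^ 2 * H b b' - S b b') := by
      rw [Complex.ofReal_sub, ← hSQ, Complex.ofReal_mul, ← hHX, Finset.mul_sum,
        ← Finset.sum_sub_distrib]
      refine Finset.sum_congr rfl fun b _ => ?_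
      rw [Finset.mul_sum, ← Finset.sum_sub_distrib]
      refine Finset.sum_congr rfl fun b' _ => ?_
      push_cast
      ring
    rw [e1]
    refine (norm_sum_le _ _).trans ?_
    have e2 : E * T / N = ∑ b, ∑ b', T * (|C b b'| / N) := by
      simp only [← Finset.mul_sum, ← Finset.sum_div]
      rw [hE]
      ring
    rw [e2]
    refine Finset.sum_le_sum fun b _ => (norm_sum_le _ _).trans (Finset.sum_le_sum fun b' _ => ?_)
    rw [norm_mul, norm_mul, RCLike.norm_conj]
    have e3 : ‖β b‖ * ‖β b'‖ ≤ T := by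
      have f1 : ‖β b‖ ^ 2 ≤ T :=
        Finset.single_le_sum (f := fun b => ‖β b‖ ^ 2) (fun b _ => by positivity) (Finset.mem_univ b)
      have f2 : ‖β b'‖ ^ 2 ≤ T :=
        Finset.single_le_sum (f := fun b => ‖β b‖ ^ 2) (fun b _ => by positivity) (Finset.mem_univ b')
      nlinarith [sq_nonneg (‖β b‖ - ‖β b'‖)]
    exact mul_le_mul e3 (herr b b') (norm_nonneg _) hT0
  rw [Complex.norm_real, Real.norm_eq_abs] at hdiff
  have h1 := (abs_le.1 hdiff).1
  have h2 := hQc β
  have h3 : E * T / N ≤ c * T := by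
    rw [div_le_iff₀ hN0]
    nlinarith
  have h4 : c * T ≤ N ^ 2 * X := by linarith
  rw [div_mul_eq_mul_div, div_le_iff₀ (by positivity)]
  linarith

end

end Pool.Agent.Helper7.KE
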