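import Pool.Agent.Helper7.KE.Defs

set_option autoImplicit false

open MeasureTheory Set Filter Asymptotics Topology Metric
open scoped ComplexConjugate ENNReal

namespace Pool.Agent.Helper7.KE

theorem det_lower {n : ℕ} (M : Matrix (Fin n) (Fin n) ℂ) {c : ℝ} (hc : 0 < c)
    (h : ∀ β : Fin n → ℂ, c * ∑ b, ‖β b‖ ^ 2 ≤ (∑ b, ∑ b', β b * conj (β b') * M b b').re) :
    c ^ n ≤ ‖M.det‖ := by
  classical
  have hroot : ∀ μ ∈ M.charpoly.roots, c ≤ ‖μ‖ := by
    intro μ hμ
    have h1 : M.charpoly.IsRoot μ := (Polynomial.mem_roots'.1 hμ).2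
    have h2 : (Matrix.scalar (Fin n) μ - M).det = 0 := by
      rw [← Matrix.eval_charpoly]
      exact h1
    obtain ⟨v, hv0, hv⟩ := Matrix.exists_mulVec_eq_zero_iff.2 h2
    have h3 : ∀ b, (M.mulVec v) b = μ * v b := by
      intro b
      rw [Matrix.sub_mulVec] at hv
      have h4 := congrFun hv b
      rw [Pi.sub_apply, Pi.zero_apply, sub_eq_zero] at h4
      rw [← h4, Matrix.scalar_apply, Matrix.mulVec_diagonal]
    have h5 := h (fun b => conj (v b))
    have h6 : (∑ b, ∑ b', conj (v b) * conj (conj (v b')) * M b b')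
        = μ * ((∑ b, ‖v b‖ ^ 2 : ℝ) : ℂ) := by
      push_cast
      rw [Finset.mul_sum]
      refine Finset.sum_congr rfl fun b _ => ?_
      have h7 : ∑ b', conj (v b) * conj (conj (v b')) * M b b' = conj (v b) * (M.mulVec v) b := by
        rw [Matrix.mulVec, dotProduct, Finset.mul_sum]
        refine Finset.sum_congr rfl fun b' _ => ?_
        rw [Complex.conj_conj]
        ring
      rw [h7, h3, ← Complex.mul_conj']
      ring
    rw [h6] at h5
    simp only [RCLike.norm_conj] at h5
    rw [Complex.re_mul_ofReal] at h5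
    have hpos : 0 < ∑ b, ‖v b‖ ^ 2 := by
      obtain ⟨b, hb⟩ := Function.ne_iff.1 hv0
      refine Finset.sum_pos' (fun _ _ => by positivity) ⟨b, Finset.mem_univ _, ?_⟩
      have : 0 < ‖v b‖ := norm_pos_iff.2 hb
      positivity
    have h8 : c ≤ μ.re := le_of_mul_le_mul_right h5 hpos
    exact h8.trans (Complex.re_le_norm μ)
  have hcard : Multiset.card M.charpoly.roots = n := by
    have h1 := (IsAlgClosed.splits M.charpoly).natDegree_eq_card_roots
    rw [← h1, Matrix.charpoly_natDegree_eq_dim, Fintype.card_fin]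
  rw [Matrix.det_eq_prod_roots_charpoly]
  have key : ∀ s : Multiset ℂ, (∀ μ ∈ s, c ≤ ‖μ‖) → c ^ (Multiset.card s) ≤ ‖s.prod‖ := by
    intro s
    induction s using Multiset.induction_on with
    | empty => intro _; simp
    | cons a s ih =>
      intro hs
      rw [Multiset.card_cons, Multiset.prod_cons, norm_mul, pow_succ, mul_comm]
      have h1 := hs a (Multiset.mem_cons_self a s)
      have h2 := ih (fun μ hμ => hs μ (Multiset.mem_cons_of_mem hμ))
      exact mul_le_mul h1 h2 (by positivity) (norm_nonneg _)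
  have h9 := key _ hroot
  rwa [hcard] at h9

end Pool.Agent.Helper7.KE
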