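import Pool.Agent.Helper7.KE.E3a
import Pool.Agent.Helper7.KE.E3c
import Pool.Agent.Helper7.KE.E3d
import Pool.Agent.Helper7.KE.D5b
import Pool.Agent.Helper7.KE.C7a
import Pool.Agent.Helper7.KE.C5b

set_option autoImplicit false

open MeasureTheory Set Filter Asymptotics Topology Metric
open scoped ComplexConjugate ENNReal

namespace Pool.Agent.Helper7.KE

/-- derivative of a product, one factor vanishing, the other only continuous -/
private theorem e3e_mul_cont {f G : ℂ → ℂ} {f' : ℂ} (hf : HasDerivAt f f' 0) (hf0 : f 0 = 0)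
    (hG : ContinuousAt G 0) : HasDerivAt (fun μ => f μ * G μ) (f' * G 0) 0 := by
  rw [hasDerivAt_iff_tendsto_slope] at hf ⊢
  have h1 : Tendsto (fun μ => slope f 0 μ * G μ) (𝓝[≠] 0) (𝓝 (f' * G 0)) :=
    hf.mul (hG.tendsto.mono_left nhdsWithin_le_nhds)
  refine h1.congr fun μ => ?_
  simp only [slope_def_field, hf0, zero_mul, sub_zero]
  ring

private theorem e3e_Fdet {n : ℕ} (B : Fin (n + 1) → Fin n → ℂ) (s : Fin (n + 1) → ℂ) :
    Fdet B s = ∑ i : Fin (n + 1), s i * ((-1) ^ ((i : ℕ) + n) *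
      Matrix.det (Matrix.of fun b l => B (i.succAbove b) l)) := by
  rw [Fdet, Matrix.det_succ_column _ (Fin.last n)]
  refine Finset.sum_congr rfl fun i _ => ?_
  have h1 : (Matrix.of fun b l => Fin.snoc (α := fun _ => ℂ) (B b) (s b) l : Matrix (Fin (n+1)) (Fin (n+1)) ℂ) i (Fin.last n) = s i := by
    simp
  have h2 : (Matrix.of fun b l => Fin.snoc (α := fun _ => ℂ) (B b) (s b) l : Matrix (Fin (n+1)) (Fin (n+1)) ℂ).submatrix
      i.succAbove (Fin.last n).succAbove = Matrix.of fun b l => B (i.succAbove b) l := by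
    ext b l
    simp
  rw [h1, h2, Fin.val_last]
  ring

private theorem e3e_Fdet_deriv {n : ℕ} (B : ℂ → Fin (n + 1) → Fin n → ℂ)
    (s : ℂ → Fin (n + 1) → ℂ) (s' : Fin (n + 1) → ℂ)
    (hB : ∀ b l, ContinuousAt (fun μ => B μ b l) 0)
    (hs : ∀ b, HasDerivAt (fun μ => s μ b) (s' b) 0) (hs0 : ∀ b, s 0 b = 0) :
    HasDerivAt (fun μ => Fdet (B μ) (s μ)) (Fdet (B 0) s') 0 := by
  simp only [e3e_Fdet]
  refine HasDerivAt.fun_sum fun i _ => ?_
  refine e3e_mul_cont (hs i) (hs0 i) ?_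
  refine continuousAt_const.mul ?_
  simp only [Matrix.det_apply]
  refine tendsto_finsetSum _ fun σ _ => ?_
  refine Tendsto.const_smul ?_ _
  refine tendsto_finsetProd _ fun j _ => ?_
  exact hB _ _

/-- continuity of parameter integrals over the domain -/
private theorem e3e_cont_int {k : ℕ} (D : CD k) {F : ℂ → ℂ → ℂ} {r : ℝ} (hr : 0 < r)
    (hF : ContinuousOn (fun p : ℂ × ℂ => F p.1 p.2) (closedBall 0 r ×ˢ D.cU)) :
    ContinuousAt (fun μ => ∫ z in D.U, F μ z) 0 := by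
  obtain ⟨C, hC⟩ := ((isCompact_closedBall (0 : ℂ) r).prod D.cU_compact).exists_bound_of_continuousOn hF
  have hnb : closedBall (0 : ℂ) r ∈ 𝓝 (0 : ℂ) := closedBall_mem_nhds _ hr
  refine continuousAt_of_dominated (bound := fun _ => C) ?_ ?_ ?_ ?_
  · filter_upwards [hnb] with μ hμ
    refine ContinuousOn.aestronglyMeasurable ?_ D.U_open.measurableSet
    exact hF.comp (by fun_prop : Continuous fun z : ℂ => (μ, z)).continuousOn
      (fun z hz => ⟨hμ, D.U_subset_cU hz⟩)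
  · filter_upwards [hnb] with μ hμ
    filter_upwards [ae_restrict_mem D.U_open.measurableSet] with z hz
    exact hC (μ, z) ⟨hμ, D.U_subset_cU hz⟩
  · exact integrable_const _
  · filter_upwards [ae_restrict_mem D.U_open.measurableSet] with z hz
    have h1 : ContinuousOn (fun μ => F μ z) (closedBall 0 r) :=
      hF.comp (by fun_prop : Continuous fun μ : ℂ => (μ, z)).continuousOn
        (fun μ hμ => ⟨hμ, D.U_subset_cU hz⟩)
    exact h1.continuousAt hnb


private theorem e3e_integrable {k : ℕ} (D : CD k) {F : ℂ → ℂ} (hF : ContinuousOn F D.cU) :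
    Integrable F (volume.restrict D.U) :=
  (hF.integrableOn_compact D.cU_compact).mono_set D.U_subset_cU

private theorem e3e_lin {k : ℕ} (D : CD k) {K Q : ℂ → ℂ} (hK : ContinuousOn K D.cU)
    (hQ : ContinuousOn Q D.cU) {m : Type*} [Fintype m] {f : m → ℂ → ℂ}
    (hf : ∀ j, ContinuousOn (f j) D.cU) (c : m → ℂ) {F : ℂ → ℂ}
    (hF : ∀ z ∈ D.U, F z = ∑ j, c j * f j z) :
    ∫ z in D.U, K z * F z * Q z = ∑ j, c j * ∫ z in D.U, K z * f j z * Q z := by
  have h1 : ∫ z in D.U, K z * F z * Q z = ∫ z in D.U, ∑ j, c j * (K z * f j z * Q z) := by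
    refine setIntegral_congr_fun D.U_open.measurableSet fun z hz => ?_
    simp only [hF z hz, Finset.mul_sum, Finset.sum_mul]
    exact Finset.sum_congr rfl fun j _ => by ring
  rw [h1, integral_finsetSum]
  · exact Finset.sum_congr rfl fun j _ => integral_const_mul _ _
  · intro j _
    exact (e3e_integrable D ((hK.mul (hf j)).mul hQ)).const_mul _

section
variable {k : ℕ} {D : CD k} {τ δ : ℝ} {ι : Type} [Fintype ι] [DecidableEq ι]

private theorem e3e_Bv_lin (h : HM D τ δ) {ρ : ℂ → ℝ} (hρ : ContinuousOn ρ D.cU) (ps : PS D ρ ι)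
    (N : ℝ) {q : ℂ → ℂ} (hq : ContinuousOn q D.cU) {m : Type*} [Fintype m] {f : m → ℂ → ℂ}
    (hf : ∀ j, ContinuousOn (f j) D.cU) (c : m → ℂ) {F : ℂ → ℂ}
    (hF : ∀ z ∈ D.U, F z = ∑ j, c j * f j z) :
    Bv h ps N 0 0 F q = ∑ j, c j * Bv h ps N 0 0 (f j) q := by
  have hr : ∀ z, h.rhoC 0 z = 0 := fun z => by simp [HM.rhoC]
  simp only [Bv, Finset.mul_sum]
  rw [Finset.sum_comm]
  refine Finset.sum_congr rfl fun i _ => ?_
  have hK : ContinuousOn (fun z => (ps.chi i z : ℂ) *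
      Complex.exp (Complex.I * (N * (ρ z - ps.c i) : ℝ)) * Complex.exp (h.rhoC 0 z)) D.cU := by
    simp only [hr]
    refine ContinuousOn.mul (ContinuousOn.mul ?_ ?_) continuousOn_const
    · exact (Complex.continuous_ofReal.comp (ps.smooth i).continuous).continuousOn
    · refine Complex.continuous_exp.comp_continuousOn ?_
      refine continuousOn_const.mul ?_
      refine Complex.continuous_ofReal.comp_continuousOn ?_
      exact continuousOn_const.mul (hρ.sub continuousOn_const)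
  have hQ : ContinuousOn (fun z => conj (q z)) D.cU := Complex.continuous_conj.comp_continuousOn hq
  rw [e3e_lin D hK hQ hf c hF, Finset.mul_sum]
  exact Finset.sum_congr rfl fun j _ => by ring

private theorem e3e_dzb_chi (hτ : D.Good τ) (j : Fin k) :
    Continuous (fun z => dzb (fun w => (D.chi τ (some j) w : ℂ)) z) := by
  have h1 : ContDiff ℝ (⊤ : ℕ∞) (fun w => (D.chi τ (some j) w : ℂ)) :=
    Complex.ofRealCLM.contDiff.comp (chi_smooth D hτ.pos hτ.lt_R (some j))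
  have h2 := (dz_contDiffOn isOpen_univ h1.contDiffOn).2
  exact continuousOn_univ.mp h2.continuousOn

private theorem e3e_S_lin (hτ : D.Good τ) (ω : Fin k → ℂ) {m : Type*} [Fintype m]
    {f : m → ℂ → ℂ} (hf : ∀ j, ContinuousOn (f j) D.cU) (c : m → ℂ) {F : ℂ → ℂ}
    (hF : ∀ z ∈ D.U, F z = ∑ j, c j * f j z) :
    ∑ j, ω j * ∫ z in D.U, F z * dzb (fun w => (D.chi τ (some j) w : ℂ)) z =
      ∑ i, c i * ∑ j, ω j * ∫ z in D.U, f i z * dzb (fun w => (D.chi τ (some j) w : ℂ)) z := by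
  simp only [Finset.mul_sum]
  rw [Finset.sum_comm]
  refine Finset.sum_congr rfl fun j _ => ?_
  have h1 := e3e_lin D (K := fun _ => 1) continuousOn_const
    (e3e_dzb_chi hτ j).continuousOn hf c hF
  simp only [one_mul] at h1
  rw [h1, Finset.mul_sum]
  exact Finset.sum_congr rfl fun i _ => by ring

private theorem e3e_Bv_bound (h : HM D τ δ) {ρ : ℂ → ℝ} (ps : PS D ρ ι) {f q : ℂ → ℂ}
    (hf : ContinuousOn f D.cU) (hq : ContinuousOn q D.cU) :
    ∃ C : ℝ, ∀ N : ℝ, ‖Bv h ps N 0 0 f q‖ ≤ C := by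
  have hr : ∀ z, h.rhoC 0 z = 0 := fun z => by simp [HM.rhoC]
  refine ⟨∑ _i : ι, ∫ z in D.U, ‖f z‖ * ‖q z‖, fun N => ?_⟩
  refine (norm_sum_le _ _).trans (Finset.sum_le_sum fun i _ => ?_)
  have h1 : ‖Complex.exp (Complex.I * ((0 : ι → ℝ) i : ℂ))‖ = 1 := by simp
  rw [norm_mul, h1, one_mul]
  refine (norm_integral_le_integral_norm _).trans ?_
  refine integral_mono_of_nonneg (ae_of_all _ fun z => norm_nonneg _)
    ?_ (ae_of_all _ fun z => ?_)
  · have h2 : ContinuousOn (fun z => f z * q z) D.cU := hf.mul hq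
    have h3 := (e3e_integrable D h2).norm
    simpa [norm_mul] using h3
  · simp only [norm_mul, hr, Complex.exp_zero, mul_one, RCLike.norm_conj,
      Complex.norm_real]
    have h4 : ‖Complex.exp (Complex.I * ((N * (ρ z - ps.c i) : ℝ) : ℂ))‖ = 1 := by
      rw [mul_comm]; exact Complex.norm_exp_ofReal_mul_I _
    rw [h4, mul_one]
    have h5 : ‖ps.chi i z‖ ≤ 1 := by
      rw [Real.norm_of_nonneg (ps.nonneg i z)]; exact ps.le_one i z
    calc ‖ps.chi i z‖ * ‖f z‖ * ‖q z‖ ≤ 1 * ‖f z‖ * ‖q z‖ := by gcongr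
      _ = ‖f z‖ * ‖q z‖ := by ring

/-- continuity of the virtual forms in the parameter -/
private theorem e3e_cont_Bv (h : HM D τ δ) (hδ : 0 < δ) {ρ : ℂ → ℝ} (hρ : ContinuousOn ρ D.cU)
    (ps : PS D ρ ι) (N : ℝ) (φ : ι → ℝ) (ω : Fin k → ℂ) {r : ℝ} (hr : 0 < r) {γ : ℂ → ℂ → ℂ}
    (hγ : ContinuousOn (fun p : ℂ × ℂ => γ p.1 p.2) (closedBall 0 r ×ˢ D.cU)) {q : ℂ → ℂ}
    (hq : ContinuousOn q D.cU) :
    ContinuousAt (fun μ => Bv h ps N φ (fun j => μ * ω j) (γ μ) q) 0 := by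
  unfold Bv
  refine tendsto_finsetSum _ fun i _ => ?_
  refine Tendsto.const_mul _ ?_
  refine e3e_cont_int D hr ?_
  have hs : MapsTo (fun p : ℂ × ℂ => p.2) (closedBall (0 : ℂ) r ×ˢ D.cU) D.cU := fun p hp => hp.2
  have hs2 : ContinuousOn (fun p : ℂ × ℂ => p.2) (closedBall (0 : ℂ) r ×ˢ D.cU) :=
    continuous_snd.continuousOn
  refine ContinuousOn.mul (ContinuousOn.mul (ContinuousOn.mul (ContinuousOn.mul ?_ ?_) ?_) hγ) ?_
  · exact ((Complex.continuous_ofReal.comp (ps.smooth i).continuous).comp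
      continuous_snd).continuousOn
  · refine Complex.continuous_exp.comp_continuousOn ?_
    refine continuousOn_const.mul ?_
    refine Complex.continuous_ofReal.comp_continuousOn ?_
    exact continuousOn_const.mul ((hρ.comp hs2 hs).sub continuousOn_const)
  · refine Complex.continuous_exp.comp_continuousOn ?_
    unfold HM.rhoC
    refine continuousOn_finsetSum _ fun j _ => ?_
    refine ContinuousOn.mul (by fun_prop) ?_
    refine Complex.continuous_ofReal.comp_continuousOn ?_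
    have h1 : ContinuousOn (h.om j) D.cU := (h.smooth j).continuousOn.mono (D.cU_subset_Ue hδ)
    exact h1.comp hs2 hs
  · refine Complex.continuous_conj.comp_continuousOn ?_
    exact hq.comp hs2 hs

private theorem e3e_deriv_s (hτ : D.Good τ) (ω : Fin k → ℂ) {r : ℝ} (hr : 0 < r)
    {γ : ℂ → ℂ → ℂ}
    (hγ : ContinuousOn (fun p : ℂ × ℂ => γ p.1 p.2) (closedBall 0 r ×ˢ D.cU)) :
    HasDerivAt (fun μ => sfun D τ (fun j => Complex.exp (μ * ω j)) (γ μ))
      (∑ j, ω j * ∫ z in D.U, γ 0 z * dzb (fun w => (D.chi τ (some j) w : ℂ)) z) 0 := by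
  unfold sfun
  refine HasDerivAt.fun_sum fun j _ => ?_
  have h1 : HasDerivAt (fun μ : ℂ => Complex.exp (μ * ω j) - 1) (ω j) 0 := by
    have h2 : HasDerivAt (fun μ : ℂ => μ * ω j) (1 * ω j) 0 := (hasDerivAt_id 0).mul_const _
    have h3 := h2.cexp.sub_const 1
    simpa using h3
  refine e3e_mul_cont h1 (by simp) ?_
  refine e3e_cont_int D hr ?_
  refine hγ.mul ?_
  exact ((e3e_dzb_chi hτ j).comp continuous_snd).continuousOn

end


/-- the functions `v_j` are in the span of the frame at `t = 1` -/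
private theorem e3e_span {n : ℕ} {D : CD (n + 1)} {τ δ : ℝ}
    (hτ : D.Good τ) (hδ : 0 < δ) (h : HM D τ δ) {z₀ : ℂ} {C₀ : ℝ} {G : Fin (n + 1) → ℂ → ℂ}
    (hG : ∀ b, DifferentiableOn ℂ (G b) (D.Ue δ))
    (h6 : ∀ f : ℂ → ℂ, D.Hol2 f → ∀ M : ℝ, 0 ≤ M →
        (∀ l m x, ‖D.Lt τ (fun _ => 1) f (D.comb z₀ l m x)‖ ≤
          M * Real.sqrt (∑ n ∈ Finset.range m, (n + 1) * ‖x n‖ ^ 2)) →
        Real.sqrt (∫ z in D.U, ‖f z - ∑ b, D.coef τ (some b) 0 f * G b z‖ ^ 2) ≤ C₀ * M)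
    (j : Fin (n + 1)) :
    ∀ z ∈ D.U, h.v j z = ∑ b, D.coef τ (some b) 0 (h.v j) * G b z := by
  have hv2 : D.Hol2 (h.v j) := hol2_of_nhds D (D.Ue_open δ) (D.cU_subset_Ue hδ) (h.hol j)
  have hUe : D.U ⊆ D.Ue δ := D.U_subset_cU.trans (D.cU_subset_Ue hδ)
  -- combinations of test functions are holomorphic near the closed domain
  have hV : IsOpen (D.Ue τ) := D.Ue_open τ
  have hne : ∀ i, ∀ z ∈ D.Ue τ, z - D.a i ≠ 0 := by
    intro i z hz h0
    have h1 := hz.2 i
    rw [h0, norm_zero] at h1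
    have h2 := hτ.lt_r i
    linarith
  have hA : ∀ l m, DifferentiableOn ℂ (D.A l m) (D.Ue τ) := by
    intro l m
    cases l with
    | none =>
      intro z _
      simp only [CD.A]
      exact (((differentiableAt_id).div_const _).pow _).differentiableWithinAt
    | some i =>
      intro z hz
      simp only [CD.A]
      have h1 : DifferentiableAt ℂ (fun z => (D.r i : ℂ) / (z - D.a i)) z :=
        (differentiableAt_const _).div (differentiableAt_id.sub_const _) (hne i z hz)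
      exact (h1.pow _).differentiableWithinAt
  have hcomb : ∀ l m x, DifferentiableOn ℂ (D.comb z₀ l m x) (D.Ue τ) := by
    intro l m x
    unfold CD.comb
    refine DifferentiableOn.fun_sum fun i _ => ?_
    exact ((hA l i).sub_const _).const_mul _
  have hL : ∀ l m x, D.Lt τ (fun _ => 1) (h.v j) (D.comb z₀ l m x) = 0 := by
    intro l m x
    have h1 := h.orth j (D.comb z₀ l m x) ⟨D.Ue τ, hV, D.cU_subset_Ue hτ.pos, hcomb l m x⟩
    rw [← h1, CD.Lt]
    refine setIntegral_congr_fun D.U_open.measurableSet fun z hz => ?_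
    have h2 : (fun w => D.X τ (fun _ => 1) w * conj (D.comb z₀ l m x w)) =
        fun w => conj (D.comb z₀ l m x w) := by
      funext w; simp [CD.X]
    have h3 : DifferentiableAt ℂ (D.comb z₀ l m x) z :=
      (hcomb l m x).differentiableAt (hV.mem_nhds (D.cU_subset_Ue hτ.pos (D.U_subset_cU hz)))
    simp only [h2, (dz_conj_hol h3).2]
  have h7 := h6 (h.v j) hv2 0 le_rfl (fun l m x => by rw [hL l m x]; simp)
  rw [mul_zero] at h7
  set E : ℂ → ℂ := fun z => ∑ b, D.coef τ (some b) 0 (h.v j) * G b z with hE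
  have hEd : DifferentiableOn ℂ E (D.Ue δ) := by
    rw [hE]
    exact DifferentiableOn.fun_sum fun b _ => (hG b).const_mul _
  have hsq : ∫ z in D.U, ‖h.v j z - E z‖ ^ 2 = 0 := by
    have h8 : Real.sqrt (∫ z in D.U, ‖h.v j z - E z‖ ^ 2) = 0 :=
      le_antisymm h7 (Real.sqrt_nonneg _)
    have h9 : 0 ≤ ∫ z in D.U, ‖h.v j z - E z‖ ^ 2 := integral_nonneg fun z => by positivity
    exact (Real.sqrt_eq_zero h9).mp h8
  have hcont : ContinuousOn (fun z => ‖h.v j z - E z‖ ^ 2) D.cU :=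
    ((((h.hol j).continuousOn.sub hEd.continuousOn).mono (D.cU_subset_Ue hδ)).norm).pow 2
  have hint : Integrable (fun z => ‖h.v j z - E z‖ ^ 2) (volume.restrict D.U) :=
    (hcont.integrableOn_compact D.cU_compact).mono_set D.U_subset_cU
  have h10 := (integral_eq_zero_iff_of_nonneg (fun z => by positivity) hint).mp hsq
  have h11 : h.v j =ᵐ[volume.restrict D.U] E := by
    filter_upwards [h10] with z hz
    have h12 : ‖h.v j z - E z‖ ^ 2 = 0 := hz
    have h13 : ‖h.v j z - E z‖ = 0 := by simpa using h12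
    exact sub_eq_zero.mp (norm_eq_zero.mp h13)
  exact hol_unique D hv2.diff (hEd.mono hUe) h11


/-- lower bound for a bordered determinant with small last row -/
private theorem e3e_bordered {n : ℕ} (M : ℝ → Matrix (Fin (n + 1)) (Fin (n + 1)) ℂ) {C₁ C₂ c : ℝ}
    {S : ℂ} {N₀ : ℝ} (hC₁ : ∀ N b l, ‖M N b l‖ ≤ C₁)
    (hlast : ∀ N : ℝ, 1 ≤ N → ∀ l : Fin n,
      ‖M N (Fin.last n) l.castSucc‖ ≤ C₂ / N ^ (2 * n + 1))
    (hS : ∀ N, M N (Fin.last n) (Fin.last n) = S) (hS0 : S ≠ 0) (hc : 0 < c)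
    (hT : ∀ N : ℝ, N₀ ≤ N → c / N ^ (2 * n) ≤
      ‖((M N).submatrix Fin.castSucc Fin.castSucc).det‖) :
    ∃ c' > 0, ∃ N₁ : ℝ, ∀ N : ℝ, N₁ ≤ N → c' / N ^ (2 * n) ≤ ‖(M N).det‖ := by
  have hC₁0 : 0 ≤ C₁ := (norm_nonneg _).trans (hC₁ 0 0 0)
  have hSn : 0 < ‖S‖ := norm_pos_iff.mpr hS0
  set F : ℝ := (Nat.factorial n : ℝ) * C₁ ^ n with hF
  have hF0 : 0 ≤ F := by positivity
  set C₃ : ℝ := n * (|C₂| * F) with hC₃
  have hC₃0 : 0 ≤ C₃ := by positivity
  refine ⟨‖S‖ * c / 2, by positivity, max (max 1 N₀) (2 * C₃ / (‖S‖ * c)), fun N hN => ?_⟩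
  have hN1 : 1 ≤ N := (le_max_left _ _).trans ((le_max_left _ _).trans hN)
  have hN0 : N₀ ≤ N := (le_max_right _ _).trans ((le_max_left _ _).trans hN)
  have hN3 : 2 * C₃ / (‖S‖ * c) ≤ N := (le_max_right _ _).trans hN
  have hNpos : 0 < N := by linarith
  have hexp := Matrix.det_succ_row (M N) (Fin.last n)
  rw [Fin.sum_univ_castSucc] at hexp
  have hmain : (-1 : ℂ) ^ ((Fin.last n : ℕ) + (Fin.last n : ℕ)) * M N (Fin.last n) (Fin.last n) *
      ((M N).submatrix (Fin.last n).succAbove (Fin.last n).succAbove).det =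
      S * ((M N).submatrix Fin.castSucc Fin.castSucc).det := by
    have h1 : (M N).submatrix (Fin.last n).succAbove (Fin.last n).succAbove =
        (M N).submatrix Fin.castSucc Fin.castSucc := by
      ext b l
      simp
    rw [h1, hS N, ← two_mul, pow_mul]
    simp
  rw [hmain] at hexp
  have hrest : ‖∑ l : Fin n, (-1 : ℂ) ^ ((Fin.last n : ℕ) + (l.castSucc : ℕ)) *
      M N (Fin.last n) l.castSucc *
      ((M N).submatrix (Fin.last n).succAbove l.castSucc.succAbove).det‖ ≤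
      C₃ / N ^ (2 * n + 1) := by
    refine (norm_sum_le _ _).trans ?_
    have h2 : ∀ l ∈ (Finset.univ : Finset (Fin n)),
        ‖(-1 : ℂ) ^ ((Fin.last n : ℕ) + (l.castSucc : ℕ)) * M N (Fin.last n) l.castSucc *
          ((M N).submatrix (Fin.last n).succAbove l.castSucc.succAbove).det‖ ≤
        |C₂| * F / N ^ (2 * n + 1) := by
      intro l _
      rw [norm_mul, norm_mul, norm_pow, norm_neg, norm_one, one_pow, one_mul]
      have h3 : ‖((M N).submatrix (Fin.last n).succAbove l.castSucc.succAbove).det‖ ≤ F := by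
        have h4 : ‖((M N).submatrix (Fin.last n).succAbove l.castSucc.succAbove).det‖ ≤
            (Nat.factorial (Fintype.card (Fin n))) • C₁ ^ Fintype.card (Fin n) :=
          Matrix.det_le (A := (M N).submatrix (Fin.last n).succAbove
            l.castSucc.succAbove) (abv := NormedField.toAbsoluteValue ℂ) (x := C₁)
            (fun i j => hC₁ N _ _)
        simpa [hF] using h4
      have h5 : ‖M N (Fin.last n) l.castSucc‖ ≤ |C₂| / N ^ (2 * n + 1) :=
        (hlast N hN1 l).trans (by gcongr; exact le_abs_self _)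
      calc ‖M N (Fin.last n) l.castSucc‖ *
            ‖((M N).submatrix (Fin.last n).succAbove l.castSucc.succAbove).det‖
          ≤ |C₂| / N ^ (2 * n + 1) * F := by gcongr
        _ = |C₂| * F / N ^ (2 * n + 1) := by ring
    refine (Finset.sum_le_sum h2).trans ?_
    rw [Finset.sum_const, Finset.card_univ, Fintype.card_fin, nsmul_eq_mul, hC₃]
    apply le_of_eq
    ring
  have hlow : ‖S‖ * (c / N ^ (2 * n)) ≤
      ‖S * ((M N).submatrix Fin.castSucc Fin.castSucc).det‖ := by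
    rw [norm_mul]
    exact mul_le_mul_of_nonneg_left (hT N hN0) (norm_nonneg _)
  have htri : ‖S * ((M N).submatrix Fin.castSucc Fin.castSucc).det‖ ≤ ‖(M N).det‖ +
      C₃ / N ^ (2 * n + 1) := by
    have h6 : S * ((M N).submatrix Fin.castSucc Fin.castSucc).det = (M N).det -
        ∑ l : Fin n, (-1 : ℂ) ^ ((Fin.last n : ℕ) + (l.castSucc : ℕ)) *
          M N (Fin.last n) l.castSucc *
          ((M N).submatrix (Fin.last n).succAbove l.castSucc.succAbove).det := by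
      rw [hexp]; ring
    rw [h6]
    exact (norm_sub_le _ _).trans (add_le_add_right hrest _)
  have hsmall : C₃ / N ^ (2 * n + 1) ≤ ‖S‖ * c / 2 / N ^ (2 * n) := by
    rw [pow_succ, div_le_div_iff₀ (by positivity) (by positivity)]
    rw [div_le_iff₀ (by positivity)] at hN3
    have h7 : C₃ ≤ ‖S‖ * c / 2 * N := by linarith
    calc C₃ * N ^ (2 * n) ≤ (‖S‖ * c / 2 * N) * N ^ (2 * n) := by gcongr
      _ = ‖S‖ * c / 2 * (N ^ (2 * n) * N) := by ring
  have h8 : ‖S‖ * (c / N ^ (2 * n)) = ‖S‖ * c / 2 / N ^ (2 * n) + ‖S‖ * c / 2 / N ^ (2 * n) := by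
    ring
  linarith


theorem nondeg {n : ℕ} {D : CD (n + 1)} {τ δ : ℝ} {ι : Type} [Fintype ι] [DecidableEq ι]
    (hτ : D.Good τ) (hδ : 0 < δ) (hδτ : δ ≤ τ) (h : HM D τ δ) {e e' : Fin (n + 1) → ℝ}
    (he : e ≠ 0) (ps : PS D (h.rho e) ι) {z₀ : ℂ} (hz₀ : z₀ ∈ D.U) {ε : ℝ} (hε : 0 < ε)
    (hε1 : ε < 1) {C₀ : ℝ} {g : Fin (n + 1) → (Fin (n + 1) → ℂ) → ℂ → ℂ}
    (h1 : ∀ b, ContinuousOn (fun p : (Fin (n + 1) → ℂ) × ℂ => g b p.1 p.2)
        ({t | ∀ j, ‖t j - 1‖ < ε} ×ˢ D.Ue δ))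
    (h2 : ∀ b, ∀ t ∈ {t : Fin (n + 1) → ℂ | ∀ j, ‖t j - 1‖ < ε},
      DifferentiableOn ℂ (g b t) (D.Ue δ))
    (h3 : ∀ b, ∀ z ∈ D.Ue δ, DifferentiableOn ℂ (fun t => g b t z) {t | ∀ j, ‖t j - 1‖ < ε})
    (h4 : ∀ b, ∀ t ∈ {t : Fin (n + 1) → ℂ | ∀ j, ‖t j - 1‖ < ε}, D.VV τ z₀ t (g b t))
    (h5 : ∀ b j, ∀ t ∈ {t : Fin (n + 1) → ℂ | ∀ j, ‖t j - 1‖ < ε},
        D.coef τ (some j) 0 (g b t) = if j = b then 1 else 0)
    (h6 : ∀ t ∈ {t : Fin (n + 1) → ℂ | ∀ j, ‖t j - 1‖ < ε}, ∀ f : ℂ → ℂ, D.Hol2 f →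
        ∀ M : ℝ, 0 ≤ M →
        (∀ l m x, ‖D.Lt τ t f (D.comb z₀ l m x)‖ ≤
          M * Real.sqrt (∑ n ∈ Finset.range m, (n + 1) * ‖x n‖ ^ 2)) →
        Real.sqrt (∫ z in D.U, ‖f z - ∑ b, D.coef τ (some b) 0 f * g b t z‖ ^ 2) ≤ C₀ * M) :
    ∃ q : Fin n → ℂ → ℂ, (∀ l, DifferentiableOn ℂ (q l) (D.Ue δ)) ∧ ∃ c > 0, ∃ N₀ : ℝ,
      ∀ N : ℝ, N₀ ≤ N →
      c / N ^ (2 * n) ≤ ‖deriv (fun μ => FF h ps (fun j => e' j + Complex.I * e j) g q N 0 μ) 0‖ := by
  classical
  set ω : Fin (n + 1) → ℂ := fun j => e' j + Complex.I * e j with hω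
  have hρ : ContinuousOn (h.rho e) D.cU :=
    (rho_facts h hτ hδ e 0).1.continuousOn.mono (D.cU_subset_Ue hδ)
  have hvv : DifferentiableOn ℂ (h.vv e) (D.Ue δ) := (rho_facts h hτ hδ e 0).2.2.1
  have hcont : ∀ {f : ℂ → ℂ}, DifferentiableOn ℂ f (D.Ue δ) → ContinuousOn f D.cU :=
    fun hf => hf.continuousOn.mono (D.cU_subset_Ue hδ)
  -- the special index
  obtain ⟨j₀, hj₀⟩ : ∃ j, e j ≠ 0 := by
    by_contra hcon
    push Not at hcon
    exact he (funext hcon)
  set σ : Fin n → Fin (n + 1) := j₀.succAbove with hσ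
  set q : Fin n → ℂ → ℂ := fun l => h.v (σ l) with hq
  have hqd : ∀ l, DifferentiableOn ℂ (q l) (D.Ue δ) := fun l => h.hol _
  refine ⟨q, hqd, ?_⟩
  -- the functionals
  set S : (ℂ → ℂ) → ℂ := fun f =>
    ∑ j, ω j * ∫ z in D.U, f z * dzb (fun w => (D.chi τ (some j) w : ℂ)) z with hS
  set row : ℝ → (ℂ → ℂ) → Fin (n + 1) → ℂ := fun N f =>
    Fin.snoc (α := fun _ => ℂ) (fun l => Bv h ps N 0 0 f (q l)) (S f) with hrow
  have hrow_lin : ∀ (N : ℝ) {m : Type} [Fintype m] (f : m → ℂ → ℂ)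
      (_ : ∀ j, ContinuousOn (f j) D.cU) (c : m → ℂ) (F : ℂ → ℂ)
      (_ : ∀ z ∈ D.U, F z = ∑ j, c j * f j z) (l : Fin (n + 1)),
      row N F l = ∑ j, c j * row N (f j) l := by
    intro N m _ f hf c F hF l
    refine Fin.lastCases ?_ (fun l => ?_) l
    · simp only [hrow, Fin.snoc_last]
      exact e3e_S_lin hτ ω hf c hF
    · simp only [hrow, Fin.snoc_castSucc]
      exact e3e_Bv_lin h hρ ps N (hcont (hqd l)) hf c hF
  -- the frame at `t = 1`
  set G : Fin (n + 1) → ℂ → ℂ := fun b => g b (fun _ => 1) with hG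
  have ht1 : (fun _ => 1 : Fin (n + 1) → ℂ) ∈ {t : Fin (n + 1) → ℂ | ∀ j, ‖t j - 1‖ < ε} := by
    intro j; simpa using hε
  have hGd : ∀ b, DifferentiableOn ℂ (G b) (D.Ue δ) := fun b => h2 b _ ht1
  have hspan := e3e_span hτ hδ h hGd (h6 _ ht1)
  -- matrices
  set MG : ℝ → Matrix (Fin (n + 1)) (Fin (n + 1)) ℂ := fun N => Matrix.of fun b => row N (G b)
    with hMG
  set Mv : ℝ → Matrix (Fin (n + 1)) (Fin (n + 1)) ℂ := fun N => Matrix.of fun b => row N (h.v b)
    with hMv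
  set m : Matrix (Fin (n + 1)) (Fin (n + 1)) ℂ :=
    Matrix.of fun j b => D.coef τ (some b) 0 (h.v j) with hm
  set u : Fin (n + 1) → ℂ → ℂ :=
    Fin.snoc (α := fun _ => ℂ → ℂ) (fun b => h.v (σ b)) (h.vv e) with hu
  set Mu : ℝ → Matrix (Fin (n + 1)) (Fin (n + 1)) ℂ := fun N => Matrix.of fun b => row N (u b)
    with hMu
  set P : Matrix (Fin (n + 1)) (Fin (n + 1)) ℂ :=
    Matrix.of (Fin.snoc (α := fun _ => Fin (n + 1) → ℂ)
      (fun b j => if j = σ b then 1 else 0) (fun j => (e j : ℂ))) with hP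
  have hmulv : ∀ N, Mv N = m * MG N := by
    intro N
    ext j l
    rw [Matrix.mul_apply]
    exact hrow_lin N G (fun b => hcont (hGd b)) (fun b => D.coef τ (some b) 0 (h.v j)) (h.v j)
      (hspan j) l
  have hmulu : ∀ N, Mu N = P * Mv N := by
    intro N
    ext b l
    rw [Matrix.mul_apply]
    refine hrow_lin N h.v (fun b => hcont (h.hol b)) (P b) (u b) ?_ l
    intro z _
    refine Fin.lastCases ?_ (fun b => ?_) b
    · simp [hu, hP, HM.vv]
    · simp [hu, hP]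
  have hdet : ∀ N, (Mu N).det = P.det * m.det * (MG N).det := by
    intro N
    rw [hmulu, hmulv, Matrix.det_mul, Matrix.det_mul]
    ring
  -- the derivative
  have hderiv : ∀ N, HasDerivAt (fun μ => FF h ps ω g q N 0 μ) ((MG N).det) 0 := by
    intro N
    obtain ⟨r, hr, hrε⟩ : ∃ r > 0, ∀ μ ∈ closedBall (0 : ℂ) r, ∀ j,
        ‖Complex.exp (μ * ω j) - 1‖ < ε := by
      have hc : Tendsto (fun μ : ℂ => (fun j => Complex.exp (μ * ω j) - 1)) (𝓝 0)
          (𝓝 (fun j => Complex.exp (0 * ω j) - 1)) := by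
        have : Continuous (fun μ : ℂ => (fun j => Complex.exp (μ * ω j) - 1)) := by fun_prop
        exact this.tendsto 0
      have h7 : ∀ᶠ μ : ℂ in 𝓝 0, ∀ j, ‖Complex.exp (μ * ω j) - 1‖ < ε := by
        rw [eventually_all]
        intro j
        have h8 := (tendsto_pi_nhds.mp hc j).norm
        simp only [zero_mul, Complex.exp_zero, sub_self, norm_zero] at h8
        exact h8.eventually_lt_const hε
      obtain ⟨r, hr, hrs⟩ := Metric.eventually_nhds_iff_ball.mp h7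
      exact ⟨r / 2, by positivity, fun μ hμ => hrs μ (by
        rw [mem_ball]; rw [mem_closedBall] at hμ; linarith)⟩
    have htt : ∀ μ, tt ps ω (0 : (Fin (n + 1) → ℝ) × (ι → ℝ)) μ =
        fun j => Complex.exp (μ * ω j) := by
      intro μ; funext j; simp [tt]
    have hγ : ∀ b, ContinuousOn (fun p : ℂ × ℂ => g b (fun j => Complex.exp (p.1 * ω j)) p.2)
        (closedBall 0 r ×ˢ D.cU) := by
      intro b
      have h9 : Continuous (fun p : ℂ × ℂ => ((fun j => Complex.exp (p.1 * ω j) :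
          Fin (n + 1) → ℂ), p.2)) := by fun_prop
      refine (h1 b).comp h9.continuousOn ?_
      rintro p ⟨hp1, hp2⟩
      exact ⟨fun j => hrε _ hp1 j, D.cU_subset_Ue hδ hp2⟩
    have h10 := e3e_Fdet_deriv
      (fun μ b l => Bv h ps N 0 (fun j => μ * ω j) (g b (fun j => Complex.exp (μ * ω j))) (q l))
      (fun μ b => sfun D τ (fun j => Complex.exp (μ * ω j)) (g b (fun j => Complex.exp (μ * ω j))))
      (fun b => ∑ j, ω j * ∫ z in D.U, g b (fun j => Complex.exp (0 * ω j)) z *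
        dzb (fun w => (D.chi τ (some j) w : ℂ)) z)
      (fun b l => e3e_cont_Bv h hδ hρ ps N 0 ω hr (hγ b) (hcont (hqd l)))
      (fun b => e3e_deriv_s hτ ω hr (hγ b))
      (fun b => by simp [sfun])
    have h11 : (fun μ => FF h ps ω g q N 0 μ) = fun μ => Fdet
        (fun b l => Bv h ps N 0 (fun j => μ * ω j) (g b (fun j => Complex.exp (μ * ω j))) (q l))
        (fun b => sfun D τ (fun j => Complex.exp (μ * ω j))
          (g b (fun j => Complex.exp (μ * ω j)))) := by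
      funext μ
      simp [FF, htt]
    rw [h11]
    refine h10.congr_deriv ?_
    have h12 : (fun j => 0 * ω j : Fin (n + 1) → ℂ) = 0 := by funext j; simp
    have h13 : (fun j => Complex.exp (0 * ω j) : Fin (n + 1) → ℂ) = fun _ => 1 := by
      funext j; simp
    simp only [h12, h13]
    rfl
  -- the lower bound for the matrix of the `u_b`
  have hud : ∀ b, DifferentiableOn ℂ (u b) (D.Ue δ) := by
    intro b
    refine Fin.lastCases ?_ (fun b => ?_) b
    · simpa [hu] using hvv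
    · simpa [hu] using h.hol (σ b)
  have hbound : ∃ C₁ : ℝ, ∀ N b l, ‖Mu N b l‖ ≤ C₁ := by
    have h7 : ∀ b l, ∃ C, ∀ N, ‖Mu N b l‖ ≤ C := by
      intro b l
      refine Fin.lastCases ?_ (fun l => ?_) l
      · exact ⟨‖S (u b)‖, fun N => by simp [hMu, hrow]⟩
      · obtain ⟨C, hC⟩ := e3e_Bv_bound h ps (hcont (hud b)) (hcont (hqd l))
        exact ⟨C, fun N => by simpa [hMu, hrow] using hC N⟩
    choose C hC using h7
    refine ⟨∑ b, ∑ l, |C b l|, fun N b l => ?_⟩
    calc ‖Mu N b l‖ ≤ C b l := hC b l N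
      _ ≤ |C b l| := le_abs_self _
      _ ≤ ∑ l, |C b l| := Finset.single_le_sum (f := fun l => |C b l|)
          (fun _ _ => abs_nonneg _) (Finset.mem_univ l)
      _ ≤ ∑ b, ∑ l, |C b l| := Finset.single_le_sum (f := fun b => ∑ l, |C b l|)
          (fun _ _ => Finset.sum_nonneg fun _ _ => abs_nonneg _) (Finset.mem_univ b)
  obtain ⟨C₁, hC₁⟩ := hbound
  have hlast : ∃ C₂ : ℝ, ∀ N : ℝ, 1 ≤ N → ∀ l : Fin n,
      ‖Mu N (Fin.last n) l.castSucc‖ ≤ C₂ / N ^ (2 * n + 1) := by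
    have h7 : ∀ l : Fin n, ∃ C : ℝ, ∀ N : ℝ, 1 ≤ N →
        ‖Bv h ps N 0 0 (h.vv e) (q l)‖ ≤ C / N ^ (2 * n + 1) := fun l =>
      kernel_u hτ hδ hδτ h he ps (hqd l) (2 * n + 1)
    choose C hC using h7
    refine ⟨∑ l, |C l|, fun N hN l => ?_⟩
    have h8 : ‖Mu N (Fin.last n) l.castSucc‖ ≤ C l / N ^ (2 * n + 1) := by
      simpa [hMu, hrow, hu] using hC l N hN
    refine h8.trans ?_
    gcongr
    exact (le_abs_self _).trans (Finset.single_le_sum (f := fun l => |C l|)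
      (fun _ _ => abs_nonneg _) (Finset.mem_univ l))
  obtain ⟨C₂, hC₂⟩ := hlast
  have hS1 : ∀ N, Mu N (Fin.last n) (Fin.last n) = S (h.vv e) := by
    intro N
    simp [hMu, hrow, hu]
  have hS0 : S (h.vv e) ≠ 0 := vv_pairing h hτ hδ he
  -- independence
  have hind : ∀ β : Fin n → ℂ, (∃ c : ℂ, ∀ z ∈ D.U, ∑ b, β b * q b z = c * h.vv e z) →
      β = 0 := by
    rintro β ⟨c, hc⟩
    have h7 := v_indep h hτ hδ (fun j => (∑ b, if j = σ b then β b else 0) - c * e j) (by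
      intro z hz
      simp only [sub_mul, Finset.sum_sub_distrib]
      have h8 : ∑ j, (∑ b, if j = σ b then β b else 0) * h.v j z = ∑ b, β b * q b z := by
        simp only [Finset.sum_mul]
        rw [Finset.sum_comm]
        refine Finset.sum_congr rfl fun b _ => ?_
        simp [hq]
      rw [h8, hc z hz, HM.vv, Finset.mul_sum, sub_eq_zero]
      exact Finset.sum_congr rfl fun j _ => by ring)
    have h9 : ∀ j, (∑ b, if j = σ b then β b else 0) - c * e j = 0 := fun j => congrFun h7 j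
    have h10 : c = 0 := by
      have h11 := h9 j₀
      have h12 : (∑ b, if j₀ = σ b then β b else 0) = 0 :=
        Finset.sum_eq_zero fun b _ => if_neg (Fin.succAbove_ne j₀ b).symm
      rw [h12, zero_sub, neg_eq_zero, mul_eq_zero] at h11
      rcases h11 with h11 | h11
      · exact h11
      · exact absurd (Complex.ofReal_eq_zero.mp h11) hj₀
    funext b
    have h13 := h9 (σ b)
    rw [h10, zero_mul, sub_zero] at h13
    have h14 : (∑ b', if σ b = σ b' then β b' else 0) = β b := by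
      rw [Finset.sum_eq_single b]
      · simp
      · intro b' _ hb'
        refine if_neg fun h15 => hb' ?_
        exact (Fin.succAbove_right_injective h15).symm
      · intro h15; exact absurd (Finset.mem_univ _) h15
    rw [h14] at h13
    exact h13
  obtain ⟨c, hc, N₀, hN₀⟩ := pos_lower hτ hδ hδτ h he ps hqd hind
  have hT : ∀ N : ℝ, max 1 N₀ ≤ N → c ^ n / N ^ (2 * n) ≤
      ‖((Mu N).submatrix Fin.castSucc Fin.castSucc).det‖ := by
    intro N hN
    have hN1 : 1 ≤ N := (le_max_left _ _).trans hN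
    have hN2 : N₀ ≤ N := (le_max_right _ _).trans hN
    have h7 := det_lower ((Mu N).submatrix Fin.castSucc Fin.castSucc) (c := c / N ^ 2)
      (by positivity) (fun β => by
        have h8 := hN₀ N hN2 β
        have h9 : ∀ b b', ((Mu N).submatrix Fin.castSucc Fin.castSucc) b b' =
            Bv h ps N 0 0 (q b) (q b') := by
          intro b b'
          simp [hMu, hrow, hu, hq]
        simp only [h9]
        exact h8)
    rw [div_pow, ← pow_mul] at h7
    exact h7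
  obtain ⟨c', hc', N₁, hN₁⟩ := e3e_bordered Mu hC₁ hC₂ hS1 hS0 (pow_pos hc n) hT
  refine ⟨c' / (‖P.det * m.det‖ + 1), by positivity, max 1 N₁, fun N hN => ?_⟩
  have hN1 : 1 ≤ N := (le_max_left _ _).trans hN
  have hN2 : N₁ ≤ N := (le_max_right _ _).trans hN
  rw [(hderiv N).deriv]
  have h7 := hN₁ N hN2
  rw [hdet N, norm_mul] at h7
  rw [div_div, mul_comm (‖P.det * m.det‖ + 1), ← div_div, div_le_iff₀ (by positivity)]
  calc c' / N ^ (2 * n) ≤ ‖P.det * m.det‖ * ‖(MG N).det‖ := h7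
    _ ≤ ‖(MG N).det‖ * (‖P.det * m.det‖ + 1) := by
        nlinarith [norm_nonneg ((MG N).det)]

end Pool.Agent.Helper7.KE
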