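import Pool.Agent.Helper7.KE.C1

/-!
# Pairings of Toeplitz operators with holomorphic functions (used in E4, E5b)
-/

set_option autoImplicit false

open MeasureTheory Set Filter Asymptotics Topology Metric
open scoped ComplexConjugate ENNReal

namespace Pool.Agent.Helper7.KE

section
variable {k : ℕ} (D : CD k)

theorem cont_integrable {F : ℂ → ℂ} (hF : ContinuousOn F D.cU) :
    Integrable F (volume.restrict D.U) :=
  (hF.integrableOn_compact D.cU_compact).mono_set D.U_subset_cU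

theorem memLp_conj {f : ℂ → ℂ} (hf : MemLp f 2 (volume.restrict D.U)) :
    MemLp (fun z => conj (f z)) 2 (volume.restrict D.U) := hf.star

/-- products of a bounded continuous function with two square integrable functions -/
theorem cont_mul_integrable {a f g : ℂ → ℂ} (ha : ContinuousOn a D.cU)
    (hf : MemLp f 2 (volume.restrict D.U)) (hg : MemLp g 2 (volume.restrict D.U)) :
    Integrable (fun z => a z * (f z * g z)) (volume.restrict D.U) := by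
  obtain ⟨C, hC⟩ := D.cU_compact.exists_bound_of_continuousOn ha
  have h1 : Integrable (fun z => f z * g z) (volume.restrict D.U) :=
    MemLp.integrable_mul hf hg
  refine h1.bdd_mul (c := C) ?_ ?_
  · exact (ha.mono D.U_subset_cU).aestronglyMeasurable D.U_open.measurableSet
  · filter_upwards [ae_restrict_mem D.U_open.measurableSet] with z hz
    exact hC z (D.U_subset_cU hz)

theorem cont_memLp {a : ℂ → ℂ} (ha : ContinuousOn a D.cU) :
    MemLp a 2 (volume.restrict D.U) := by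
  obtain ⟨C, hC⟩ := D.cU_compact.exists_bound_of_continuousOn ha
  refine MemLp.of_bound ((ha.mono D.U_subset_cU).aestronglyMeasurable
    D.U_open.measurableSet) C ?_
  filter_upwards [ae_restrict_mem D.U_open.measurableSet] with z hz
  exact hC z (D.U_subset_cU hz)

/-- inner products in `L²` -/
theorem L2_inner (u v : D.L2) {f g : ℂ → ℂ} (hu : (u : ℂ → ℂ) =ᵐ[volume.restrict D.U] f)
    (hv : (v : ℂ → ℂ) =ᵐ[volume.restrict D.U] g) :
    inner ℂ u v = ∫ z in D.U, g z * conj (f z) := by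
  rw [L2.inner_def]
  refine integral_congr_ae ?_
  filter_upwards [hu, hv] with z h1 h2
  rw [h1, h2, RCLike.inner_apply]

theorem L2_norm_sq (u : D.L2) {f : ℂ → ℂ} (hu : (u : ℂ → ℂ) =ᵐ[volume.restrict D.U] f) :
    ‖u‖ ^ 2 = ∫ z in D.U, ‖f z‖ ^ 2 := by
  have h1 := L2_inner D u u hu hu
  have h2 : (inner ℂ u u : ℂ) = ((‖u‖ ^ 2 : ℝ) : ℂ) := by
    rw [inner_self_eq_norm_sq_to_K]; push_cast; rfl
  have h3 : (∫ z in D.U, f z * conj (f z)) = ((∫ z in D.U, ‖f z‖ ^ 2 : ℝ) : ℂ) := by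
    rw [← integral_complex_ofReal]
    refine integral_congr_ae (ae_of_all _ fun z => ?_)
    simp only [Complex.mul_conj, Complex.normSq_eq_norm_sq]
  rw [h2, h3] at h1
  exact_mod_cast h1

theorem L2_norm (u : D.L2) {f : ℂ → ℂ} (hu : (u : ℂ → ℂ) =ᵐ[volume.restrict D.U] f) :
    ‖u‖ = Real.sqrt (∫ z in D.U, ‖f z‖ ^ 2) := by
  rw [← L2_norm_sq D u hu, Real.sqrt_sq (norm_nonneg _)]

/-- Cauchy-Schwarz -/
theorem cauchy_schwarz {f g : ℂ → ℂ} (hf : MemLp f 2 (volume.restrict D.U))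
    (hg : MemLp g 2 (volume.restrict D.U)) :
    ‖∫ z in D.U, g z * conj (f z)‖ ≤ Real.sqrt (∫ z in D.U, ‖g z‖ ^ 2) *
      Real.sqrt (∫ z in D.U, ‖f z‖ ^ 2) := by
  rw [← L2_inner D (hf.toLp f) (hg.toLp g) hf.coeFn_toLp hg.coeFn_toLp,
    ← L2_norm D (hf.toLp f) hf.coeFn_toLp, ← L2_norm D (hg.toLp g) hg.coeFn_toLp, mul_comm]
  exact norm_inner_le_norm _ _

theorem toe_pair {S : ℂ → ℂ} (hS : ContinuousOn S D.cU) (u f : D.Berg) {g f₁ : ℂ → ℂ}
    (hu : ((u : D.L2) : ℂ → ℂ) =ᵐ[volume.restrict D.U] g)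
    (hf : ((f : D.L2) : ℂ → ℂ) =ᵐ[volume.restrict D.U] f₁) :
    inner ℂ (u : D.L2) ((D.Toe S f : D.Berg) : D.L2) = ∫ z in D.U, S z * f₁ z * conj (g z) := by
  have h1 : inner ℂ (u : D.L2) ((D.Toe S f : D.Berg) : D.L2) =
      inner ℂ (u : D.L2) (D.Mul S (f : D.L2)) :=
    Submodule.inner_orthogonalProjectionOnto_eq_of_mem_left u _
  rw [h1]
  have h2 : (D.Mul S (f : D.L2) : ℂ → ℂ) =ᵐ[volume.restrict D.U] fun z => S z * f₁ z := by
    filter_upwards [D.Mul_coe hS (f : D.L2), hf] with z h3 h4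
    rw [h3, h4]
  exact L2_inner D _ _ hu h2

/-- upper bound for the norm by duality -/
theorem toe_norm_le {S : ℂ → ℂ} (hS : ContinuousOn S D.cU) (f : D.Berg) {f₁ : ℂ → ℂ}
    (hf : ((f : D.L2) : ℂ → ℂ) =ᵐ[volume.restrict D.U] f₁) {M : ℝ} (hM : 0 ≤ M)
    (h : ∀ g : ℂ → ℂ, D.Hol2 g → ‖∫ z in D.U, S z * f₁ z * conj (g z)‖ ≤
      M * Real.sqrt (∫ z in D.U, ‖g z‖ ^ 2)) : ‖D.Toe S f‖ ≤ M := by
  set u : D.Berg := D.Toe S f with hu
  obtain ⟨g, hg, hug⟩ := berg_rep D u.2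
  have h1 := toe_pair D hS u f hug hf
  rw [← hu] at h1
  have h2 : ‖(inner ℂ (u : D.L2) (u : D.L2) : ℂ)‖ = ‖u‖ ^ 2 := by
    rw [inner_self_eq_norm_sq_to_K]; simp
  have h3 : ‖u‖ ^ 2 ≤ M * ‖u‖ := by
    rw [← h2, h1]
    refine (h g hg).trans ?_
    have h4 : ‖u‖ = Real.sqrt (∫ z in D.U, ‖g z‖ ^ 2) := L2_norm D (u : D.L2) hug
    rw [h4]
  by_cases h0 : ‖u‖ = 0
  · rw [h0]; exact hM
  · have h5 : 0 < ‖u‖ := lt_of_le_of_ne (norm_nonneg _) (Ne.symm h0)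
    rw [pow_two] at h3
    exact le_of_mul_le_mul_right h3 h5

/-- the pairing is controlled by the norm -/
theorem toe_pair_le {S : ℂ → ℂ} (hS : ContinuousOn S D.cU) (f : D.Berg) {f₁ : ℂ → ℂ}
    (hf : ((f : D.L2) : ℂ → ℂ) =ᵐ[volume.restrict D.U] f₁) {q : ℂ → ℂ} (hq : D.Hol2 q) :
    ‖∫ z in D.U, S z * f₁ z * conj (q z)‖ ≤
      ‖D.Toe S f‖ * Real.sqrt (∫ z in D.U, ‖q z‖ ^ 2) := by
  set v : D.Berg := ⟨hq.memLp.toLp q, berg_of_hol2 D hq hq.memLp.coeFn_toLp⟩ with hv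
  have hvq : ((v : D.L2) : ℂ → ℂ) =ᵐ[volume.restrict D.U] q := hq.memLp.coeFn_toLp
  rw [← toe_pair D hS v f hvq hf]
  refine (norm_inner_le_norm (𝕜 := ℂ) (v : D.L2) ((D.Toe S f : D.Berg) : D.L2)).trans ?_
  have h4 : ‖(v : D.L2)‖ = Real.sqrt (∫ z in D.U, ‖q z‖ ^ 2) := L2_norm D (v : D.L2) hvq
  rw [h4, mul_comm]
  rfl

/-- triangle inequality for the `L²` norm -/
theorem sqrt_int_add {f g : ℂ → ℂ} (hf : MemLp f 2 (volume.restrict D.U))
    (hg : MemLp g 2 (volume.restrict D.U)) :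
    Real.sqrt (∫ z in D.U, ‖f z + g z‖ ^ 2) ≤
      Real.sqrt (∫ z in D.U, ‖f z‖ ^ 2) + Real.sqrt (∫ z in D.U, ‖g z‖ ^ 2) := by
  rw [← L2_norm D (hf.toLp f) hf.coeFn_toLp, ← L2_norm D (hg.toLp g) hg.coeFn_toLp,
    ← L2_norm D (hf.toLp f + hg.toLp g) (f := fun z => f z + g z)
      ((Lp.coeFn_add _ _).trans (hf.coeFn_toLp.add hg.coeFn_toLp))]
  exact norm_add_le _ _

/-- multiplication by a bounded function -/
theorem sqrt_int_mul_le {b f : ℂ → ℂ} (hf : MemLp f 2 (volume.restrict D.U)) {C : ℝ}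
    (hC : ∀ z ∈ D.U, ‖b z‖ ≤ C) (hC0 : 0 ≤ C) :
    Real.sqrt (∫ z in D.U, ‖b z * f z‖ ^ 2) ≤ C * Real.sqrt (∫ z in D.U, ‖f z‖ ^ 2) := by
  rw [← Real.sqrt_sq hC0, ← Real.sqrt_mul (sq_nonneg C)]
  refine Real.sqrt_le_sqrt ?_
  rw [← integral_const_mul]
  refine integral_mono_of_nonneg (ae_of_all _ fun z => by positivity) ?_ ?_
  · exact (hf.integrable_norm_pow two_ne_zero).const_mul _
  · filter_upwards [ae_restrict_mem D.U_open.measurableSet] with z hz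
    rw [norm_mul, mul_pow]
    gcongr
    exact hC z hz

end

end Pool.Agent.Helper7.KE
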