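import Pool.Agent.Helper7.KE.E5a
import Pool.Agent.Helper7.KE.A3
import Pool.Agent.Helper7.KE.PSaux
import Pool.Agent.Helper7.KE.ToeAux

set_option autoImplicit false

open MeasureTheory Set Filter Asymptotics Topology Metric
open scoped ComplexConjugate ENNReal

namespace Pool.Agent.Helper7.KE

section
variable {k : ℕ} {D : CD k} {τ δ : ℝ} {ι : Type} [Fintype ι] [DecidableEq ι]

private theorem e4_key (hτ : D.Good τ) (hδ : 0 < δ) (h : HM D τ δ) {x : Fin k → ℝ}
    (ps : PS D (h.rho x) ι) (N : ℝ) (y : ι → ℝ)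
    (hc : ∀ l, Complex.exp (Complex.I * (N * ps.c (ps.bd l) + y (ps.bd l) : ℝ)) = 1)
    {g : ℂ → ℂ} (hg : D.Hol2 g) :
    (Complex.I * N) * ∫ z in D.U, Complex.exp (lS h ps N y 0 z) * h.vv x z * conj (g z) =
      -∑ i, (Complex.I * y i) * ∫ z in D.U, Complex.exp (lS h ps N y 0 z) *
        D.U.indicator (fun z => dz (fun u => (ps.chi i u : ℂ)) z * 1) z * 1 * conj (g z) := by
  have hUe := D.Ue_open δ
  obtain ⟨-, -, hvv, -⟩ := rho_facts h hτ hδ x 0
  have hlS := lS_smooth hτ hδ h ps N y 0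
  have hS : ContDiffOn ℝ (⊤ : ℕ∞) (fun z => Complex.exp (lS h ps N y 0 z)) (D.Ue δ) := hlS.cexp
  have hScU : ContinuousOn (fun z => Complex.exp (lS h ps N y 0 z)) D.cU :=
    hS.continuousOn.mono (D.cU_subset_Ue hδ)
  have hchi : ∀ i, ContDiff ℝ (⊤ : ℕ∞) (fun u => (ps.chi i u : ℂ)) := fun i =>
    Complex.ofRealCLM.contDiff.comp (ps.smooth i)
  have hd : ∀ i, ContinuousOn (dz (fun u => (ps.chi i u : ℂ))) D.cU := fun i =>
    ((dz_contDiffOn isOpen_univ (hchi i).contDiffOn).1.continuousOn).mono (subset_univ _)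
  -- orthogonality
  have h1 : ContDiffOn ℝ 1 (fun z => conj (Complex.exp (lS h ps N y 0 z) - 1)) (D.Ue δ) := by
    have h2 : ContDiffOn ℝ (⊤ : ℕ∞) (fun z => conj (Complex.exp (lS h ps N y 0 z) - 1))
        (D.Ue δ) := Complex.conjCLE.contDiff.comp_contDiffOn (hS.sub contDiffOn_const)
    exact h2.of_le (by simp)
  have h0 : ∀ l, ∀ z ∈ D.circ l, conj (Complex.exp (lS h ps N y 0 z) - 1) = 0 := by
    intro l z hz
    rw [lS_circ hτ hδ h ps N y 0 l hz]
    have h3 : l.elim 0 (0 : Fin k → ℂ) = 0 := by cases l <;> rfl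
    rw [h3, add_zero, hc l, sub_self, map_zero]
  have horth := orth_zero D hUe (D.cU_subset_Ue hδ) h1 h0 hg
  have h4 : ∀ z ∈ D.U, g z * dzb (fun z => conj (Complex.exp (lS h ps N y 0 z) - 1)) z =
      conj ((Complex.I * N) * (Complex.exp (lS h ps N y 0 z) * h.vv x z * conj (g z)) +
        ∑ i, (Complex.I * y i) * (Complex.exp (lS h ps N y 0 z) *
          D.U.indicator (fun z => dz (fun u => (ps.chi i u : ℂ)) z * 1) z * 1 * conj (g z))) := by
    intro z hz
    have hzU : z ∈ D.Ue δ := D.cU_subset_Ue hδ (D.U_subset_cU hz)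
    have hzn := hUe.mem_nhds hzU
    have d1 : DifferentiableAt ℝ (lS h ps N y 0) z :=
      (hlS.contDiffAt hzn).differentiableAt (by simp)
    have d2 : DifferentiableAt ℝ (fun z => Complex.exp (lS h ps N y 0 z)) z :=
      (hS.contDiffAt hzn).differentiableAt (by simp)
    have d3 : DifferentiableAt ℝ (fun z => Complex.exp (lS h ps N y 0 z) - 1) z := d2.sub_const _
    have e1 : dz (fun z => Complex.exp (lS h ps N y 0 z) - 1) z =
        Complex.exp (lS h ps N y 0 z) * dz (lS h ps N y 0) z := by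
      have e2 : (fun z => Complex.exp (lS h ps N y 0 z) - 1) =
          fun z => Complex.exp (lS h ps N y 0 z) + (-1 : ℂ) := by
        funext z; ring
      rw [e2, (dz_add d2 (differentiableAt_const _)).1, dz_const.1, add_zero, (dz_cexp d1).1]
    have e3 : dz (h.rhoC 0) z = 0 := by
      have e4 : h.rhoC 0 = fun _ => (0 : ℂ) := by funext u; simp [HM.rhoC]
      rw [e4]; exact dz_const.1
    rw [(dz_conj d3).2, e1, (lS_deriv hτ hδ h ps N y 0 hzU).1, e3, add_zero]
    have e5 : g z = conj (conj (g z)) := (Complex.conj_conj _).symm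
    nth_rewrite 1 [e5]
    rw [← map_mul]
    congr 1
    simp only [indicator_of_mem hz, mul_one]
    rw [mul_add, mul_add, Finset.mul_sum, Finset.mul_sum, Finset.mul_sum]
    congr 1
    · ring
    · exact Finset.sum_congr rfl fun i _ => by ring
  rw [setIntegral_congr_fun D.U_open.measurableSet h4, integral_conj] at horth
  have h5 := (map_eq_zero (starRingEnd ℂ)).mp horth
  have hgc := memLp_conj D hg.memLp
  have i1 : Integrable (fun z => (Complex.I * N) *
      (Complex.exp (lS h ps N y 0 z) * h.vv x z * conj (g z))) (volume.restrict D.U) := by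
    refine Integrable.const_mul ?_ _
    refine (cont_mul_integrable D hScU (cont_memLp D (hvv.continuousOn.mono
      (D.cU_subset_Ue hδ))) hgc).congr (ae_of_all _ fun z => ?_)
    simp only []
    ring
  have i2 : ∀ i ∈ (Finset.univ : Finset ι), Integrable (fun z => (Complex.I * y i) *
      (Complex.exp (lS h ps N y 0 z) *
          D.U.indicator (fun z => dz (fun u => (ps.chi i u : ℂ)) z * 1) z * 1 * conj (g z)))
      (volume.restrict D.U) := by
    intro i _
    refine Integrable.const_mul ?_ _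
    refine (cont_mul_integrable D hScU (cont_memLp D (hd i)) hgc).congr ?_
    filter_upwards [ae_restrict_mem D.U_open.measurableSet] with z hz
    rw [indicator_of_mem hz]
    ring
  have h6 : ∫ z in D.U, ((Complex.I * N) * (Complex.exp (lS h ps N y 0 z) * h.vv x z *
        conj (g z)) + ∑ i, (Complex.I * y i) * (Complex.exp (lS h ps N y 0 z) *
          D.U.indicator (fun z => dz (fun u => (ps.chi i u : ℂ)) z * 1) z * 1 * conj (g z))) =
      (∫ z in D.U, (Complex.I * N) * (Complex.exp (lS h ps N y 0 z) * h.vv x z * conj (g z))) +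
      ∑ i, ∫ z in D.U, (Complex.I * y i) * (Complex.exp (lS h ps N y 0 z) *
          D.U.indicator (fun z => dz (fun u => (ps.chi i u : ℂ)) z * 1) z * 1 * conj (g z)) := by
    rw [← integral_finsetSum _ i2]
    exact integral_add i1 (integrable_finsetSum _ i2)
  rw [h6] at h5
  simp only [integral_const_mul] at h5
  exact eq_neg_of_add_eq_zero_left h5

theorem near_kernel (hτ : D.Good τ) (hδ : 0 < δ) (hδτ : δ ≤ τ) (h : HM D τ δ) {x : Fin k → ℝ}
    (hx : x ≠ 0) (ps : PS D (h.rho x) ι) (Λ : ℝ) (K : ℕ) :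
    ∃ C : ℝ, ∀ N : ℝ, 1 ≤ N → ∀ y : ι → ℝ, (∀ i, |y i| ≤ Λ) →
      (∀ l, Complex.exp (Complex.I * (N * ps.c (ps.bd l) + y (ps.bd l) : ℝ)) = 1) →
      ∀ f : D.Berg, ((f : D.L2) : ℂ → ℂ) =ᵐ[volume.restrict D.U] h.vv x →
      ‖D.Toe (fun z => Complex.exp (lS h ps N y 0 z)) f‖ ≤ C / N ^ K := by
  have hone : D.Hol2 (fun _ => 1) :=
    hol2_of_nhds D isOpen_univ (subset_univ _) (differentiableOn_const 1)
  have hns : ∀ i, ∃ C : ℝ, ∀ N : ℝ, 1 ≤ N → ∀ (y : ι → ℝ) (w : Fin k → ℂ),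
      (∀ i, |y i| ≤ max Λ 0) → (∀ j, ‖w j‖ ≤ max Λ 0) → ∀ f g : ℂ → ℂ, D.Hol2 f → D.Hol2 g →
      ‖∫ z in D.U, Complex.exp (lS h ps N y w z) *
        D.U.indicator (fun z => dz (fun u => (ps.chi i u : ℂ)) z * 1) z * f z * conj (g z)‖ ≤
        C / N ^ K * Real.sqrt (∫ z in D.U, ‖f z‖ ^ 2) * Real.sqrt (∫ z in D.U, ‖g z‖ ^ 2) :=
    fun i => nonstat_op hτ hδ hδτ h hx ps
      (PS.isTest_dz hτ hδ h ps i (F := fun _ => 1) contDiffOn_const).1.1
      (PS.isTest_dz hτ hδ h ps i (F := fun _ => 1) contDiffOn_const).1.2.1 (max Λ 0) K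
  choose C hC using hns
  set v : ℝ := Real.sqrt (∫ z in D.U, ‖(fun _ => 1 : ℂ → ℂ) z‖ ^ 2) with hv
  have hv0 : 0 ≤ v := Real.sqrt_nonneg _
  have hΛ0 : 0 ≤ max Λ 0 := le_max_right _ _
  refine ⟨∑ i, max Λ 0 * (|C i| * v), fun N hN y hy hc f hf => ?_⟩
  have hNpos : 0 < N := by linarith
  have hScU : ContinuousOn (fun z => Complex.exp (lS h ps N y 0 z)) D.cU :=
    (lS_smooth hτ hδ h ps N y 0).cexp.continuousOn.mono (D.cU_subset_Ue hδ)
  refine toe_norm_le D hScU f hf (by positivity) fun g hg => ?_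
  have hkey := e4_key hτ hδ h ps N y hc hg
  set G : ℝ := Real.sqrt (∫ z in D.U, ‖g z‖ ^ 2) with hG
  have hG0 : 0 ≤ G := Real.sqrt_nonneg _
  set J : ℂ := ∫ z in D.U, Complex.exp (lS h ps N y 0 z) * h.vv x z * conj (g z) with hJ
  have h1 : N * ‖J‖ ≤ (∑ i, max Λ 0 * (|C i| * v)) / N ^ K * G := by
    have h2 : N * ‖J‖ = ‖(Complex.I * N) * J‖ := by
      rw [norm_mul, norm_mul, Complex.norm_I, one_mul, Complex.norm_real,
        Real.norm_of_nonneg hNpos.le]
    rw [h2, hkey, norm_neg, Finset.sum_div, Finset.sum_mul]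
    refine (norm_sum_le _ _).trans (Finset.sum_le_sum fun i _ => ?_)
    rw [norm_mul, norm_mul, Complex.norm_I, one_mul, Complex.norm_real]
    have h3 := hC i N hN y 0 (fun i => (hy i).trans (le_max_left _ _))
      (fun j => by simp) (fun _ => 1) g hone hg
    have h4 : |y i| ≤ max Λ 0 := (hy i).trans (le_max_left _ _)
    calc ‖y i‖ * _ ≤ max Λ 0 * (C i / N ^ K * v * G) := by
          refine mul_le_mul h4 h3 (norm_nonneg _) hΛ0
      _ ≤ max Λ 0 * (|C i| / N ^ K * v * G) := by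
          gcongr
          exact le_abs_self _
      _ = max Λ 0 * (|C i| * v) / N ^ K * G := by ring
  calc ‖J‖ = 1 * ‖J‖ := (one_mul _).symm
    _ ≤ N * ‖J‖ := by gcongr
    _ ≤ _ := h1

end

end Pool.Agent.Helper7.KE
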