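import Pool.Agent.Helper7.KE.B5
import Pool.Agent.Helper7.KE.C0a
import Pool.Agent.Helper7.KE.D5b

/-!
# Nonstationary phase, uniformly in compact families of parameters

Auxiliary file for KE-E5a and KE-E5c.
-/

set_option autoImplicit false

open MeasureTheory Set Filter Asymptotics Topology Metric
open scoped ComplexConjugate ENNReal

namespace Pool.Agent.Helper7.KE

/-- smooth cutoff functions -/
theorem exists_cutoff {L V : Set ℂ} (hL : IsCompact L) (hV : IsOpen V) (hLV : L ⊆ V) :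
    ∃ β : ℂ → ℂ, IsTest V β ∧ ∀ z ∈ L, β z = 1 := by
  obtain ⟨T, hT, hLT, hTV⟩ := exists_compact_between hL hV hLV
  obtain ⟨f, hf1, hf0, -⟩ := exists_contMDiffMap_one_nhds_of_subset_interior
    (n := (⊤ : ℕ∞)) (modelWithCornersSelf ℝ ℂ) hL.isClosed hLT
  have hfs : ContDiff ℝ (⊤ : ℕ∞) f := f.contMDiff.contDiff
  have hts : tsupport (fun z => (f z : ℂ)) ⊆ T := by
    apply closure_minimal _ hT.isClosed
    intro z hz
    by_contra h
    apply hz
    show ((f z : ℝ) : ℂ) = 0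
    rw [hf0 z h, Complex.ofReal_zero]
  refine ⟨fun z => (f z : ℂ), ⟨Complex.ofRealCLM.contDiff.comp hfs,
    hT.of_isClosed_subset isClosed_closure hts, hts.trans hTV⟩, fun z hz => ?_⟩
  show ((f z : ℝ) : ℂ) = 1
  rw [hf1.self_of_nhdsSet z hz, Complex.ofReal_one]

/-- continuous functions on the closed domain are integrable on the domain -/
theorem integrableOn_U {k : ℕ} (D : CD k) {Y : Type*} [NormedAddCommGroup Y] {f : ℂ → Y}
    (hf : ContinuousOn f D.cU) : IntegrableOn f D.U :=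
  (hf.integrableOn_compact D.cU_compact).mono_set D.U_subset_cU

section expC

variable {X : Type*} [TopologicalSpace X] [CompactSpace X]

theorem cexp_apply (a : C(X, ℂ)) (p : X) : (NormedSpace.exp a) p = Complex.exp (a p) := by
  have h1 := (NormedSpace.exp_series_hasSum_exp' (𝕂 := ℂ) a).map
    (ContinuousMap.evalCLM ℂ p) (ContinuousMap.evalCLM ℂ p).continuous
  have h2 := NormedSpace.exp_series_hasSum_exp' (𝕂 := ℂ) (a p)
  rw [Complex.exp_eq_exp_ℂ]
  refine h1.unique ?_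
  have h3 : (⇑(ContinuousMap.evalCLM ℂ p) ∘ fun n : ℕ => ((n.factorial : ℂ)⁻¹) • a ^ n) =
      fun n : ℕ => ((n.factorial : ℂ)⁻¹) • (a p) ^ n := by
    funext n
    simp
  rw [h3]
  exact h2

theorem cexp_contDiff : ContDiff ℝ (⊤ : ℕ∞) (NormedSpace.exp : C(X, ℂ) → C(X, ℂ)) := by
  rw [contDiff_iff_contDiffAt]
  intro a
  exact (NormedSpace.exp_analytic (𝕂 := ℝ) a).contDiffAt

end expC

section
variable {k : ℕ} {D : CD k} {τ δ : ℝ} {ι : Type} [Fintype ι] [DecidableEq ι]

/-- the compact parameter set -/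
def PPar (ι : Type) (k : ℕ) (Λ : ℝ) : Set ((ι → ℝ) × (Fin k → ℂ)) :=
  (Set.pi univ fun _ => Icc (-Λ) Λ) ×ˢ (Set.pi univ fun _ => closedBall 0 Λ)

instance (Λ : ℝ) : CompactSpace (PPar ι k Λ) := by
  rw [← isCompact_iff_compactSpace]
  exact (isCompact_univ_pi fun _ => isCompact_Icc).prod
    (isCompact_univ_pi fun _ => isCompact_closedBall _ _)

theorem nonstat_unif (hτ : D.Good τ) (hδ : 0 < δ) (h : HM D τ δ) {x : Fin k → ℝ}
    (ps : PS D (h.rho x) ι) {V : Set ℂ} (hV : IsOpen V) (hVU : V ⊆ D.Ue δ)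
    (hVc : ∀ z ∈ V, h.vv x z ≠ 0) (Λ : ℝ) (m : ℕ)
    {K : Type*} [TopologicalSpace K] [CompactSpace K] {g : K → ℂ → ℂ}
    (hg : ContinuousOn (fun p : K × ℂ => g p.1 p.2) (univ ×ˢ V))
    (hg' : ∀ u, DifferentiableOn ℂ (g u) V) {q : ℂ → ℂ}
    (hq : DifferentiableOn ℂ q V) {β : ℂ → ℂ} (hβ : IsTest V β) :
    ∃ C : ℝ, ∀ N : ℝ, 1 ≤ N → ∀ (y : ι → ℝ) (w : Fin k → ℂ), (∀ i, |y i| ≤ Λ) →
      (∀ j, ‖w j‖ ≤ Λ) → ∀ u : K,
      ‖∫ z, Complex.exp (lS h ps N y w z) * (β z * g u z * conj (q z))‖ ≤ C / N ^ m := by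
  obtain ⟨hρ, -, -, hdρ, -⟩ := rho_facts h hτ hδ x (fun _ => 0)
  -- the family as a Banach valued holomorphic function
  obtain ⟨F, hF, hFv⟩ := curry_hol (K := K × PPar ι k Λ) hV (G := fun p z => g p.1 z)
    (by
      refine hg.comp (f := fun p : (K × PPar ι k Λ) × ℂ => (p.1.1, p.2)) (by fun_prop) ?_
      intro p hp
      exact ⟨mem_univ _, hp.2⟩)
    (fun p => hg' p.1)
  set Yc : ι → C(K × PPar ι k Λ, ℂ) := fun i =>
    ⟨fun p => ((p.2 : (ι → ℝ) × (Fin k → ℂ)).1 i : ℂ), by fun_prop⟩ with hYc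
  set Wc : Fin k → C(K × PPar ι k Λ, ℂ) := fun j =>
    ⟨fun p => (p.2 : (ι → ℝ) × (Fin k → ℂ)).2 j, by fun_prop⟩ with hWc
  set A : ℂ → C(K × PPar ι k Λ, ℂ) := fun z =>
    (∑ i, (Complex.I * (ps.chi i z : ℂ)) • Yc i) + ∑ j, (h.om j z : ℂ) • Wc j with hA
  have hA1 : ContDiffOn ℝ (⊤ : ℕ∞) A V := by
    refine ContDiffOn.add ?_ ?_
    · refine ContDiffOn.sum fun i _ => ?_
      have h1 : ContDiffOn ℝ (⊤ : ℕ∞) (fun z => Complex.I * (ps.chi i z : ℂ)) V :=
        contDiffOn_const.mul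
          (Complex.ofRealCLM.contDiff.comp_contDiffOn (ps.smooth i).contDiffOn)
      exact h1.smul (contDiffOn_const (c := Yc i))
    · refine ContDiffOn.sum fun j _ => ?_
      have h1 : ContDiffOn ℝ (⊤ : ℕ∞) (fun z => (h.om j z : ℂ)) V :=
        Complex.ofRealCLM.contDiff.comp_contDiffOn ((h.smooth j).mono hVU)
      exact h1.smul (contDiffOn_const (c := Wc j))
  have hE : ContDiffOn ℝ (⊤ : ℕ∞) (fun z => NormedSpace.exp (A z)) V :=
    cexp_contDiff.comp_contDiffOn hA1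
  have hF1 : ContDiffOn ℝ (⊤ : ℕ∞) F V := hol_contDiffOn hV hF
  have hq1 : ContDiffOn ℝ (⊤ : ℕ∞) (fun z => conj (q z)) V :=
    (Complex.conjCLE : ℂ →L[ℝ] ℂ).contDiff.comp_contDiffOn (hol_contDiffOn hV hq)
  have hT : IsTest V (fun z => β z • (conj (q z) • (NormedSpace.exp (A z) * F z))) :=
    hβ.smul' hV (hq1.smul (hE.mul hF1))
  obtain ⟨C, hC⟩ := nonstat hV (hρ.mono hVU)
    (fun z hz => by rw [hdρ z (hVU hz)]; exact hVc z hz) hT m
  refine ⟨C, fun N hN y w hy hw u => ?_⟩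
  have hmem : (y, w) ∈ PPar ι k Λ := by
    refine ⟨fun i _ => ?_, fun j _ => ?_⟩
    · exact abs_le.1 (hy i)
    · rw [mem_closedBall_zero_iff]; exact hw j
  set p : K × PPar ι k Λ := (u, ⟨(y, w), hmem⟩) with hp
  have hT2 : IsTest V (fun z => Complex.exp (Complex.I * (N * h.rho x z : ℝ)) •
      (β z • (conj (q z) • (NormedSpace.exp (A z) * F z)))) :=
    hT.smul hV (nonstat_phase_smooth (hρ.mono hVU) N)
  have hint : Integrable (fun z => Complex.exp (Complex.I * (N * h.rho x z : ℝ)) •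
      (β z • (conj (q z) • (NormedSpace.exp (A z) * F z)))) :=
    hT2.smooth.continuous.integrable_of_hasCompactSupport hT2.compact
  have e1 : ∫ z, Complex.exp (lS h ps N y w z) * (β z * g u z * conj (q z)) =
      ContinuousMap.evalCLM ℂ p (∫ z, Complex.exp (Complex.I * (N * h.rho x z : ℝ)) •
      (β z • (conj (q z) • (NormedSpace.exp (A z) * F z)))) := by
    rw [← ContinuousLinearMap.integral_comp_comm _ hint]
    congr 1
    funext z
    by_cases hz : z ∈ V
    · have e2 : ContinuousMap.evalCLM ℂ p (Complex.exp (Complex.I * (N * h.rho x z : ℝ)) •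
          (β z • (conj (q z) • (NormedSpace.exp (A z) * F z)))) =
          Complex.exp (Complex.I * (N * h.rho x z : ℝ)) *
          (β z * (conj (q z) * (Complex.exp (A z p) * g u z))) := by
        rw [map_smul, map_smul, map_smul]
        simp only [smul_eq_mul]
        congr 3
        show (NormedSpace.exp (A z) * F z) p = _
        rw [ContinuousMap.mul_apply, cexp_apply, hFv z hz]
      rw [e2]
      have e3 : A z p = Complex.I * (∑ i, y i * ps.chi i z : ℝ) + h.rhoC w z := by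
        rw [hA]
        simp only [ContinuousMap.add_apply, ContinuousMap.sum_apply, ContinuousMap.smul_apply,
          hYc, hWc, smul_eq_mul, ContinuousMap.coe_mk, hp, HM.rhoC]
        push_cast
        rw [Finset.mul_sum]
        congr 1
        · exact Finset.sum_congr rfl fun i _ => by ring
        · exact Finset.sum_congr rfl fun i _ => by ring
      rw [e3, lS, add_assoc, Complex.exp_add (Complex.I * (N * h.rho x z : ℝ))]
      ring
    · have hz2 : β z = 0 := by
        by_contra h0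
        exact hz (hβ.supp (subset_tsupport _ h0))
      rw [hz2]
      simp
  rw [e1]
  refine le_trans ?_ (hC N hN)
  exact ContinuousMap.norm_coe_le_norm _ p

end

end Pool.Agent.Helper7.KE
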