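import Pool.Agent.Helper7.KE.B5
import Pool.Agent.Helper7.KE.C1
import Pool.Agent.Helper7.KE.D5b
import Pool.Agent.Helper7.KE.E5aux

set_option autoImplicit false

open MeasureTheory Set Filter Asymptotics Topology Metric
open scoped ComplexConjugate ENNReal

namespace Pool.Agent.Helper7.KE

section
variable {k : ℕ} {D : CD k} {τ δ : ℝ} {ι : Type} [Fintype ι] [DecidableEq ι]

/-- inner products of the Toeplitz operator -/
theorem inner_Toe {S : ℂ → ℂ} (hS : ContinuousOn S D.cU) (f g : D.Berg) {f' g' : ℂ → ℂ}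
    (hf : ((f : D.L2) : ℂ → ℂ) =ᵐ[volume.restrict D.U] f')
    (hg : ((g : D.L2) : ℂ → ℂ) =ᵐ[volume.restrict D.U] g') :
    inner ℂ g (D.Toe S f) = ∫ z in D.U, S z * f' z * conj (g' z) := by
  have h1 : inner ℂ g (D.Toe S f) = inner ℂ (g : D.L2) (D.Mul S (f : D.L2)) := by
    show inner ℂ g (D.P (D.Mul S (f : D.L2))) = _
    exact Submodule.inner_orthogonalProjectionOnto_eq_of_mem_left g _
  rw [h1, L2.inner_def]
  apply integral_congr_ae
  filter_upwards [hf, hg, D.Mul_coe hS (f : D.L2)] with z h2 h3 h4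
  rw [h3, h4, h2]
  rfl

/-- norm in `L²` -/
theorem norm_eq_sqrt (f : D.L2) {f' : ℂ → ℂ} (hf : (f : ℂ → ℂ) =ᵐ[volume.restrict D.U] f') :
    ‖f‖ = Real.sqrt (∫ z in D.U, ‖f' z‖ ^ 2) := by
  have h1 : ‖f‖ ^ 2 = ∫ z in D.U, ‖f' z‖ ^ 2 := by
    have h2 : (inner ℂ f f : ℂ) = ((∫ z in D.U, ‖f' z‖ ^ 2 : ℝ) : ℂ) := by
      rw [L2.inner_def]
      refine Eq.trans ?_ (integral_ofReal (f := fun z => ‖f' z‖ ^ 2))
      apply integral_congr_ae
      filter_upwards [hf] with z hz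
      rw [hz, inner_self_eq_norm_sq_to_K]
      norm_cast
    have h3 := inner_self_eq_norm_sq_to_K (𝕜 := ℂ) f
    rw [h2] at h3
    have h4 : ((∫ z in D.U, ‖f' z‖ ^ 2 : ℝ) : ℂ) = ((‖f‖ ^ 2 : ℝ) : ℂ) := by
      rw [h3]; norm_cast
    exact (Complex.ofReal_injective h4).symm
  rw [← h1, Real.sqrt_sq (norm_nonneg _)]

/-- nonstationary terms, operator valued, uniformly in the parameters -/
theorem nonstat_op (hτ : D.Good τ) (hδ : 0 < δ) (hδτ : δ ≤ τ) (h : HM D τ δ) {x : Fin k → ℝ}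
    (hx : x ≠ 0) (ps : PS D (h.rho x) ι) {β : ℂ → ℂ} (hβ : IsTest D.U β)
    (hβc : ∀ z ∈ tsupport β, h.vv x z ≠ 0) (Λ : ℝ) (K : ℕ) :
    ∃ C : ℝ, ∀ N : ℝ, 1 ≤ N → ∀ (y : ι → ℝ) (w : Fin k → ℂ), (∀ i, |y i| ≤ Λ) →
      (∀ j, ‖w j‖ ≤ Λ) → ∀ f g : ℂ → ℂ, D.Hol2 f → D.Hol2 g →
      ‖∫ z in D.U, Complex.exp (lS h ps N y w z) * β z * f z * conj (g z)‖ ≤
        C / N ^ K * Real.sqrt (∫ z in D.U, ‖f z‖ ^ 2) * Real.sqrt (∫ z in D.U, ‖g z‖ ^ 2) := by
  obtain ⟨hρ, -, hvv, hdρ, -⟩ := rho_facts h hτ hδ x (fun _ => 0)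
  set V : Set ℂ := D.U ∩ {z | h.vv x z ≠ 0} with hVdef
  have hUUe : D.U ⊆ D.Ue δ := D.U_subset_cU.trans (D.cU_subset_Ue hδ)
  have hVopen : IsOpen V :=
    (hvv.continuousOn.mono hUUe).isOpen_inter_preimage D.U_open isOpen_compl_singleton
  have hVU : V ⊆ D.Ue δ := inter_subset_left.trans hUUe
  have hβV : IsTest V β := ⟨hβ.smooth, hβ.compact, fun z hz => ⟨hβ.supp hz, hβc z hz⟩⟩
  -- the index set
  set A : Set (ℝ × (ι → ℝ) × (Fin k → ℂ)) :=
    {a | 1 ≤ a.1 ∧ (∀ i, |a.2.1 i| ≤ Λ) ∧ ∀ j, ‖a.2.2 j‖ ≤ Λ} with hAdef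
  set S : (ℝ × (ι → ℝ) × (Fin k → ℂ)) → ℂ → ℂ := fun a z =>
    Complex.exp (lS h ps a.1 a.2.1 a.2.2 z) * β z with hSdef
  have hSc : ∀ a, ContinuousOn (S a) D.cU := by
    intro a
    have hom : ContinuousOn (h.rhoC a.2.2) (D.Ue δ) :=
      (rho_facts h hτ hδ x a.2.2).2.1.continuousOn
    have hlS : ContinuousOn (fun z => Complex.exp (lS h ps a.1 a.2.1 a.2.2 z)) D.cU := by
      refine Complex.continuous_exp.comp_continuousOn ?_
      refine ContinuousOn.add (ContinuousOn.add ?_ ?_) (hom.mono (D.cU_subset_Ue hδ))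
      · exact continuousOn_const.mul (Complex.continuous_ofReal.comp_continuousOn
          (continuousOn_const.mul (hρ.continuousOn.mono (D.cU_subset_Ue hδ))))
      · refine continuousOn_const.mul (Complex.continuous_ofReal.comp_continuousOn ?_)
        exact continuousOn_finsetSum _ fun i _ =>
          continuousOn_const.mul (ps.smooth i).continuous.continuousOn
    exact hlS.mul hβ.smooth.continuous.continuousOn
  set T : A → (D.Berg →L[ℂ] D.Berg) := fun a => ((a.1.1 : ℂ) ^ K) • D.Toe (S a.1) with hTdef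
  have hNpos : ∀ a : A, (0 : ℝ) < a.1.1 := fun a => lt_of_lt_of_le one_pos a.2.1
  have hinner : ∀ (a : A) (f g : D.Berg) (f' g' : ℂ → ℂ),
      ((f : D.L2) : ℂ → ℂ) =ᵐ[volume.restrict D.U] f' →
      ((g : D.L2) : ℂ → ℂ) =ᵐ[volume.restrict D.U] g' →
      inner ℂ g (T a f) = (a.1.1 : ℂ) ^ K * ∫ z in D.U, S a.1 z * f' z * conj (g' z) := by
    intro a f g f' g' hf hg
    show inner ℂ g (((a.1.1 : ℂ) ^ K) • D.Toe (S a.1) f) = _
    refine (inner_smul_right (𝕜 := ℂ) g (D.Toe (S a.1) f) ((a.1.1 : ℂ) ^ K)).trans ?_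
    rw [inner_Toe (hSc a.1) f g hf hg]
  -- pointwise boundedness
  have hpt : ∀ f g : D.Berg, ∃ C : ℝ, ∀ a : A, ‖inner ℂ g (T a f)‖ ≤ C := by
    intro f g
    obtain ⟨f', hf', ef⟩ := berg_rep D f.2
    obtain ⟨g', hg', eg⟩ := berg_rep D g.2
    have hcont : ContinuousOn (fun p : Unit × ℂ => (fun _ : Unit => f') p.1 p.2)
        (univ ×ˢ V) := by
      have h1 : ContinuousOn f' V := hf'.diff.continuousOn.mono inter_subset_left
      exact h1.comp (f := fun p : Unit × ℂ => p.2) (by fun_prop) (fun p hp => hp.2)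
    have hfV : ∀ u : Unit, DifferentiableOn ℂ ((fun _ : Unit => f') u) V :=
      fun _ => hf'.diff.mono inter_subset_left
    have hgV : DifferentiableOn ℂ g' V := hg'.diff.mono inter_subset_left
    obtain ⟨C, hC⟩ := nonstat_unif hτ hδ h ps hVopen hVU (fun z hz => hz.2) Λ K hcont hfV hgV hβV
    refine ⟨C, fun a => ?_⟩
    rw [hinner a f g f' g' ef eg]
    have h1 := hC a.1.1 a.2.1 a.1.2.1 a.1.2.2 a.2.2.1 a.2.2.2 ()
    have h2 : ∫ z in D.U, S a.1 z * f' z * conj (g' z) =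
        ∫ z, Complex.exp (lS h ps a.1.1 a.1.2.1 a.1.2.2 z) * (β z * f' z * conj (g' z)) := by
      rw [setIntegral_eq_integral_of_forall_compl_eq_zero]
      · congr 1
        funext z
        rw [hSdef]
        ring
      · intro z hz
        have : β z = 0 := by
          by_contra h0
          exact hz (hβ.supp (subset_tsupport _ h0))
        rw [hSdef]
        simp [this]
    rw [h2, norm_mul, norm_pow, Complex.norm_real, Real.norm_of_nonneg (hNpos a).le]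
    have h3 : (0 : ℝ) < a.1.1 ^ K := pow_pos (hNpos a) K
    rw [le_div_iff₀ h3] at h1
    linarith
  have hpt2 : ∀ f : D.Berg, ∃ C : ℝ, ∀ a : A, ‖T a f‖ ≤ C := by
    intro f
    obtain ⟨C, hC⟩ := banach_steinhaus (g := fun a : A => innerSL ℂ (T a f)) (by
      intro g
      obtain ⟨C, hC⟩ := hpt f g
      refine ⟨C, fun a => ?_⟩
      rw [innerSL_apply_apply, ← inner_conj_symm, RCLike.norm_conj]
      exact hC a)
    refine ⟨C, fun a => ?_⟩
    have := hC a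
    rwa [innerSL_apply_norm] at this
  obtain ⟨C, hC⟩ := banach_steinhaus hpt2
  refine ⟨C, fun N hN y w hy hw f g hf hg => ?_⟩
  set a : A := ⟨(N, y, w), hN, hy, hw⟩ with ha
  have hN0 : (0 : ℝ) < N := by linarith
  have hfb : (hf.memLp.toLp f : D.L2) ∈ D.Berg := berg_of_hol2 D hf (MemLp.coeFn_toLp _)
  have hgb : (hg.memLp.toLp g : D.L2) ∈ D.Berg := berg_of_hol2 D hg (MemLp.coeFn_toLp _)
  obtain ⟨F, hF⟩ : ∃ F : D.Berg, (F : D.L2) = hf.memLp.toLp f := ⟨⟨_, hfb⟩, rfl⟩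
  obtain ⟨G, hG⟩ : ∃ G : D.Berg, (G : D.L2) = hg.memLp.toLp g := ⟨⟨_, hgb⟩, rfl⟩
  have hFa : ((F : D.L2) : ℂ → ℂ) =ᵐ[volume.restrict D.U] f := by
    rw [hF]; exact MemLp.coeFn_toLp _
  have hGa : ((G : D.L2) : ℂ → ℂ) =ᵐ[volume.restrict D.U] g := by
    rw [hG]; exact MemLp.coeFn_toLp _
  have e1 := hinner a F G f g hFa hGa
  have e2 : ‖inner ℂ G (T a F)‖ ≤ C * ‖F‖ * ‖G‖ := by
    refine (norm_inner_le_norm (𝕜 := ℂ) G (T a F)).trans ?_
    rw [mul_comm]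
    refine mul_le_mul_of_nonneg_right ?_ (norm_nonneg _)
    exact ((T a).le_opNorm _).trans (mul_le_mul_of_nonneg_right (hC a) (norm_nonneg _))
  have e3 : ‖F‖ = Real.sqrt (∫ z in D.U, ‖f z‖ ^ 2) := norm_eq_sqrt _ hFa
  have e4 : ‖G‖ = Real.sqrt (∫ z in D.U, ‖g z‖ ^ 2) := norm_eq_sqrt _ hGa
  rw [e1, e3, e4, norm_mul, norm_pow] at e2
  have e5 : ‖((a.1.1 : ℝ) : ℂ)‖ = N := by
    rw [Complex.norm_real, ha, Real.norm_of_nonneg hN0.le]
  rw [e5] at e2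
  have h3 : (0 : ℝ) < N ^ K := pow_pos hN0 K
  rw [div_mul_eq_mul_div, div_mul_eq_mul_div, le_div_iff₀ h3]
  calc _ = N ^ K * ‖∫ z in D.U, S a.1 z * f z * conj (g z)‖ := by rw [mul_comm]
    _ ≤ _ := e2

end

end Pool.Agent.Helper7.KE
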