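import Pool.Agent.Helper7.KE.E5a
import Pool.Agent.Helper7.KE.C6
import Pool.Agent.Helper7.KE.C7a
import Pool.Agent.Helper7.KE.PSaux
import Pool.Agent.Helper7.KE.ToeAux

set_option autoImplicit false

open MeasureTheory Set Filter Asymptotics Topology Metric
open scoped ComplexConjugate ENNReal

namespace Pool.Agent.Helper7.KE

section
variable {k : ℕ} {D : CD k} {τ δ : ℝ} {ι : Type} [Fintype ι] [DecidableEq ι]

/-- the formula for `L_t g (a)` in terms of the Toeplitz operator -/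
private theorem e5b_formula (hτ : D.Good τ) (hδ : 0 < δ) (h : HM D τ δ) {x : Fin k → ℝ}
    (ps : PS D (h.rho x) ι) (N : ℝ) (y : ι → ℝ) (w : Fin k → ℂ)
    (hnone : Complex.exp (Complex.I * (N * ps.c (ps.bd none) + y (ps.bd none) : ℝ)) = 1)
    {t : Fin k → ℂ} (ht : ∀ j, t j = Complex.exp (Complex.I *
        (N * ps.c (ps.bd (some j)) + y (ps.bd (some j)) : ℝ) + w j))
    {g a : ℂ → ℂ} (hg : D.Hol2 g) (ha : DifferentiableOn ℂ a (D.Ue δ)) :
    D.Lt τ t g a = (∫ z in D.U, Complex.exp (lS h ps N y w z) * g z *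
        conj (deriv a z + (-(Complex.I * N * h.vv x z) + ∑ j, conj (w j) * h.v j z) * a z)) +
      ∑ i, (Complex.I * y i) * ∫ z in D.U, Complex.exp (lS h ps N y w z) *
        D.U.indicator (fun z => dzb (fun u => (ps.chi i u : ℂ)) z * 1) z * g z * conj (a z) := by
  have hUe := D.Ue_open δ
  have hcU := D.cU_subset_Ue hδ
  obtain ⟨-, -, hvv, -⟩ := rho_facts h hτ hδ x w
  have hlS := lS_smooth hτ hδ h ps N y w
  have hS : ContDiffOn ℝ (⊤ : ℕ∞) (fun z => Complex.exp (lS h ps N y w z)) (D.Ue δ) := hlS.cexp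
  have hScU : ContinuousOn (fun z => Complex.exp (lS h ps N y w z)) D.cU :=
    hS.continuousOn.mono hcU
  have hchi : ∀ i, ContDiff ℝ (⊤ : ℕ∞) (fun u => (ps.chi i u : ℂ)) := fun i =>
    Complex.ofRealCLM.contDiff.comp (ps.smooth i)
  have hd : ∀ i, ContinuousOn (dzb (fun u => (ps.chi i u : ℂ))) D.cU := fun i =>
    ((dz_contDiffOn isOpen_univ (hchi i).contDiffOn).2.continuousOn).mono (subset_univ _)
  have ha' : DifferentiableOn ℂ (deriv a) (D.Ue δ) := ha.deriv hUe
  rw [Lt_boundary D hτ t hg hUe hcU ha hS]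
  rotate_left
  · intro z hz
    rw [lS_circ hτ hδ h ps N y w none hz]
    simpa using hnone
  · intro j z hz
    rw [lS_circ hτ hδ h ps N y w (some j) hz, ht j]
    rfl
  set q : ℂ → ℂ := fun z => deriv a z +
    (-(Complex.I * N * h.vv x z) + ∑ j, conj (w j) * h.v j z) * a z with hq
  have hqc : ContinuousOn q D.cU := by
    have h1 : ContinuousOn q (D.Ue δ) := by
      refine ha'.continuousOn.add (ContinuousOn.mul (ContinuousOn.add ?_ ?_) ha.continuousOn)
      · exact (continuousOn_const.mul hvv.continuousOn).neg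
      · exact continuousOn_finsetSum _ fun j _ =>
          continuousOn_const.mul (h.hol j).continuousOn
    exact h1.mono hcU
  have h4 : ∀ z ∈ D.U, g z * dzb (fun u => Complex.exp (lS h ps N y w u) * conj (a u)) z =
      Complex.exp (lS h ps N y w z) * g z * conj (q z) +
        ∑ i, (Complex.I * y i) * (Complex.exp (lS h ps N y w z) *
          D.U.indicator (fun z => dzb (fun u => (ps.chi i u : ℂ)) z * 1) z * g z *
            conj (a z)) := by
    intro z hz
    have hzU : z ∈ D.Ue δ := hcU (D.U_subset_cU hz)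
    have hzn := hUe.mem_nhds hzU
    have d1 : DifferentiableAt ℝ (lS h ps N y w) z :=
      (hlS.contDiffAt hzn).differentiableAt (by simp)
    have d2 : DifferentiableAt ℝ (fun z => Complex.exp (lS h ps N y w z)) z :=
      (hS.contDiffAt hzn).differentiableAt (by simp)
    have d3 : DifferentiableAt ℂ a z := ha.differentiableAt hzn
    have d4 : DifferentiableAt ℝ (fun z => conj (a z)) z :=
      ((Complex.conjCLE.contDiff.comp_contDiffOn (n := (⊤ : ℕ∞))
        (hol_contDiffOn hUe ha)).contDiffAt hzn).differentiableAt (by simp)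
    have e1 := (dz_smul (f := fun z => Complex.exp (lS h ps N y w z)) d2 d4).2
    simp only [smul_eq_mul] at e1
    rw [e1, (dz_cexp d1).2, (dz_conj_hol d3).2, (lS_deriv hτ hδ h ps N y w hzU).2]
    have hq1 : conj (q z) = conj (deriv a z) +
        (Complex.I * N * conj (h.vv x z) + h.vb w z) * conj (a z) := by
      simp only [hq, map_add, map_mul, map_neg, map_sum, Complex.conj_conj, Complex.conj_I,
        Complex.conj_ofReal, HM.vb]
      ring
    have hsum : ∑ i, (Complex.I * y i) * (Complex.exp (lS h ps N y w z) *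
          D.U.indicator (fun z => dzb (fun u => (ps.chi i u : ℂ)) z * 1) z * g z *
            conj (a z)) = Complex.I * (∑ i, y i * dzb (fun u => (ps.chi i u : ℂ)) z) *
          (Complex.exp (lS h ps N y w z) * g z * conj (a z)) := by
      simp only [indicator_of_mem hz, mul_one]
      rw [Finset.mul_sum, Finset.sum_mul]
      exact Finset.sum_congr rfl fun i _ => by ring
    rw [hq1, hsum]
    ring
  rw [setIntegral_congr_fun D.U_open.measurableSet h4]
  have hac := ha.continuousOn.mono hcU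
  have hqc2 : ContinuousOn (fun z => conj (q z)) D.cU :=
    Complex.continuous_conj.comp_continuousOn hqc
  have hac2 : ContinuousOn (fun z => conj (a z)) D.cU :=
    Complex.continuous_conj.comp_continuousOn hac
  have i1 : Integrable (fun z => Complex.exp (lS h ps N y w z) * g z * conj (q z))
      (volume.restrict D.U) := by
    refine (cont_mul_integrable D hScU hg.memLp (cont_memLp D hqc2)).congr
      (ae_of_all _ fun z => ?_)
    simp only []
    ring
  have i2 : ∀ i ∈ (Finset.univ : Finset ι), Integrable (fun z => (Complex.I * y i) *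
      (Complex.exp (lS h ps N y w z) *
          D.U.indicator (fun z => dzb (fun u => (ps.chi i u : ℂ)) z * 1) z * g z * conj (a z)))
      (volume.restrict D.U) := by
    intro i _
    refine Integrable.const_mul ?_ _
    refine (cont_mul_integrable D (hScU.mul (hd i)) hg.memLp (cont_memLp D hac2)).congr ?_
    filter_upwards [ae_restrict_mem D.U_open.measurableSet] with z hz
    rw [indicator_of_mem hz]
    simp only [Pi.mul_apply]
    ring
  have h6 : ∫ z in D.U, (Complex.exp (lS h ps N y w z) * g z * conj (q z) +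
        ∑ i, (Complex.I * y i) * (Complex.exp (lS h ps N y w z) *
          D.U.indicator (fun z => dzb (fun u => (ps.chi i u : ℂ)) z * 1) z * g z *
            conj (a z))) =
      (∫ z in D.U, Complex.exp (lS h ps N y w z) * g z * conj (q z)) +
      ∑ i, ∫ z in D.U, (Complex.I * y i) * (Complex.exp (lS h ps N y w z) *
          D.U.indicator (fun z => dzb (fun u => (ps.chi i u : ℂ)) z * 1) z * g z *
            conj (a z)) := by
    rw [← integral_finsetSum _ i2]
    exact integral_add i1 (integrable_finsetSum _ i2)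
  rw [h6]
  simp only [integral_const_mul]
  rfl

theorem toe_test_bound (hτ : D.Good τ) (hδ : 0 < δ) (hδτ : δ ≤ τ) (h : HM D τ δ)
    {x : Fin k → ℝ} (hx : x ≠ 0) (ps : PS D (h.rho x) ι) {z₀ : ℂ} (hz₀ : z₀ ∈ D.U) (Λ : ℝ)
    (K : ℕ) :
    ∃ C : ℝ, 0 ≤ C ∧ ∀ N : ℝ, 1 ≤ N → ∀ (y : ι → ℝ) (w : Fin k → ℂ), (∀ i, |y i| ≤ Λ) →
      (∀ j, ‖w j‖ ≤ Λ) →
      Complex.exp (Complex.I * (N * ps.c (ps.bd none) + y (ps.bd none) : ℝ)) = 1 →
      ∀ (f : D.Berg) (g : ℂ → ℂ), D.Hol2 g → ((f : D.L2) : ℂ → ℂ) =ᵐ[volume.restrict D.U] g →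
      ∀ t : Fin k → ℂ, (∀ j, t j = Complex.exp (Complex.I *
        (N * ps.c (ps.bd (some j)) + y (ps.bd (some j)) : ℝ) + w j)) →
      (∀ l m a, ‖D.Lt τ t g (D.comb z₀ l m a)‖ ≤
        C * (N * ‖D.Toe (fun z => Complex.exp (lS h ps N y w z)) f‖ + ‖f‖ / N ^ K) *
          Real.sqrt (∑ n ∈ Finset.range m, (n + 1) * ‖a n‖ ^ 2)) ∧
      ‖sfun D τ t g‖ ≤
        C * (N * ‖D.Toe (fun z => Complex.exp (lS h ps N y w z)) f‖ + ‖f‖ / N ^ K) := by
  have hUe := D.Ue_open δ
  have hcU := D.cU_subset_Ue hδ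
  obtain ⟨-, -, hvv, -⟩ := rho_facts h hτ hδ x 0
  have hns : ∀ i, ∃ C : ℝ, ∀ N : ℝ, 1 ≤ N → ∀ (y : ι → ℝ) (w : Fin k → ℂ),
      (∀ i, |y i| ≤ Λ) → (∀ j, ‖w j‖ ≤ Λ) → ∀ f g : ℂ → ℂ, D.Hol2 f → D.Hol2 g →
      ‖∫ z in D.U, Complex.exp (lS h ps N y w z) *
        D.U.indicator (fun z => dzb (fun u => (ps.chi i u : ℂ)) z * 1) z * f z * conj (g z)‖ ≤
        C / N ^ K * Real.sqrt (∫ z in D.U, ‖f z‖ ^ 2) * Real.sqrt (∫ z in D.U, ‖g z‖ ^ 2) :=
    fun i => nonstat_op hτ hδ hδτ h hx ps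
      (PS.isTest_dz hτ hδ h ps i (F := fun _ => 1) contDiffOn_const).2.1
      (PS.isTest_dz hτ hδ h ps i (F := fun _ => 1) contDiffOn_const).2.2.1 Λ K
  choose C hC using hns
  obtain ⟨C₁, hC₁⟩ := norm_comb D hz₀
  -- bounds for the coefficients
  obtain ⟨V, hV⟩ := D.cU_compact.exists_bound_of_continuousOn (hvv.continuousOn.mono hcU)
  have hW : ∀ j, ∃ W, ∀ z ∈ D.cU, ‖h.v j z‖ ≤ W := fun j =>
    D.cU_compact.exists_bound_of_continuousOn ((h.hol j).continuousOn.mono hcU)
  choose W hW using hW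
  set V' : ℝ := |V| + ∑ j, |Λ| * |W j| with hV'
  have hV'0 : 0 ≤ V' := by positivity
  set A : ℝ := ∑ i, |Λ| * |C i| with hA
  have hA0 : 0 ≤ A := by positivity
  -- the main estimate
  have core : ∀ N : ℝ, 1 ≤ N → ∀ (y : ι → ℝ) (w : Fin k → ℂ), (∀ i, |y i| ≤ Λ) →
      (∀ j, ‖w j‖ ≤ Λ) →
      Complex.exp (Complex.I * (N * ps.c (ps.bd none) + y (ps.bd none) : ℝ)) = 1 →
      ∀ (f : D.Berg) (g : ℂ → ℂ), D.Hol2 g → ((f : D.L2) : ℂ → ℂ) =ᵐ[volume.restrict D.U] g →
      ∀ t : Fin k → ℂ, (∀ j, t j = Complex.exp (Complex.I *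
        (N * ps.c (ps.bd (some j)) + y (ps.bd (some j)) : ℝ) + w j)) →
      ∀ a : ℂ → ℂ, DifferentiableOn ℂ a (D.Ue δ) → ∀ Q : ℝ,
      Real.sqrt (∫ z in D.U, ‖a z‖ ^ 2) ≤ Q → Real.sqrt (∫ z in D.U, ‖deriv a z‖ ^ 2) ≤ Q →
      ‖D.Lt τ t g a‖ ≤ (1 + V' + A) * (N * ‖D.Toe (fun z => Complex.exp (lS h ps N y w z)) f‖ +
        ‖f‖ / N ^ K) * Q := by
    intro N hN y w hy hw hnone f g hg hfg t ht a ha Q hQ hQ'
    have hNpos : 0 < N := by linarith
    have hQ0 : 0 ≤ Q := (Real.sqrt_nonneg _).trans hQ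
    have hΛ : 0 ≤ Λ := (abs_nonneg _).trans (hy (ps.bd none))
    have hScU : ContinuousOn (fun z => Complex.exp (lS h ps N y w z)) D.cU :=
      (lS_smooth hτ hδ h ps N y w).cexp.continuousOn.mono hcU
    have ha' : DifferentiableOn ℂ (deriv a) (D.Ue δ) := ha.deriv hUe
    have ha2 : D.Hol2 a := hol2_of_nhds D hUe hcU ha
    have ha2' : D.Hol2 (deriv a) := hol2_of_nhds D hUe hcU ha'
    set b : ℂ → ℂ := fun z => -(Complex.I * N * h.vv x z) + ∑ j, conj (w j) * h.v j z with hb
    have hbd : DifferentiableOn ℂ b (D.Ue δ) := by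
      refine ((hvv.const_mul (Complex.I * N)).neg).add ?_
      exact DifferentiableOn.fun_sum fun j _ => (h.hol j).const_mul _
    have hq2 : D.Hol2 (fun z => deriv a z + b z * a z) :=
      hol2_of_nhds D hUe hcU (ha'.add (hbd.mul ha))
    have hbN : ∀ z ∈ D.U, ‖b z‖ ≤ N * V' := by
      intro z hz
      have hzc := D.U_subset_cU hz
      have e1 : ‖∑ j, conj (w j) * h.v j z‖ ≤ ∑ j, |Λ| * |W j| := by
        refine (norm_sum_le _ _).trans (Finset.sum_le_sum fun j _ => ?_)
        rw [norm_mul, RCLike.norm_conj]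
        exact mul_le_mul ((hw j).trans (le_abs_self _)) ((hW j z hzc).trans (le_abs_self _))
          (norm_nonneg _) (abs_nonneg _)
      have e2 : ‖-(Complex.I * N * h.vv x z)‖ ≤ N * |V| := by
        rw [norm_neg, norm_mul, norm_mul, Complex.norm_I, one_mul, Complex.norm_real,
          Real.norm_of_nonneg hNpos.le]
        exact mul_le_mul_of_nonneg_left ((hV z hzc).trans (le_abs_self _)) hNpos.le
      have e3 : (0 : ℝ) ≤ ∑ j, |Λ| * |W j| := by positivity
      calc ‖b z‖ ≤ N * |V| + ∑ j, |Λ| * |W j| := (norm_add_le _ _).trans (add_le_add e2 e1)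
        _ ≤ N * |V| + N * ∑ j, |Λ| * |W j| := by nlinarith
        _ = N * V' := by rw [hV']; ring
    have hqn : Real.sqrt (∫ z in D.U, ‖deriv a z + b z * a z‖ ^ 2) ≤ N * (1 + V') * Q := by
      have e1 := sqrt_int_add D ha2'.memLp
        (cont_memLp D ((hbd.mul ha).continuousOn.mono hcU))
      have e2 := sqrt_int_mul_le D ha2.memLp hbN (by positivity)
      have e3 : N * V' * Real.sqrt (∫ z in D.U, ‖a z‖ ^ 2) ≤ N * V' * Q := by gcongr
      have e4 : Q ≤ N * Q := by nlinarith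
      calc _ ≤ Real.sqrt (∫ z in D.U, ‖deriv a z‖ ^ 2) +
            Real.sqrt (∫ z in D.U, ‖b z * a z‖ ^ 2) := e1
        _ ≤ N * Q + N * V' * Q := add_le_add (hQ'.trans e4) (e2.trans e3)
        _ = N * (1 + V') * Q := by ring
    rw [e5b_formula hτ hδ h ps N y w hnone ht hg ha]
    have hfn : ‖f‖ = Real.sqrt (∫ z in D.U, ‖g z‖ ^ 2) := L2_norm D (f : D.L2) hfg
    set T : ℝ := ‖D.Toe (fun z => Complex.exp (lS h ps N y w z)) f‖ with hT
    have hT0 : 0 ≤ T := norm_nonneg _
    have hf0 : 0 ≤ ‖f‖ := norm_nonneg _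
    have t1 : ‖∫ z in D.U, Complex.exp (lS h ps N y w z) * g z *
        conj (deriv a z + b z * a z)‖ ≤ T * (N * (1 + V') * Q) :=
      (toe_pair_le D hScU f hfg hq2).trans (mul_le_mul_of_nonneg_left hqn hT0)
    have t2 : ‖∑ i, (Complex.I * y i) * ∫ z in D.U, Complex.exp (lS h ps N y w z) *
        D.U.indicator (fun z => dzb (fun u => (ps.chi i u : ℂ)) z * 1) z * g z * conj (a z)‖ ≤
        A * (‖f‖ / N ^ K) * Q := by
      rw [hA, Finset.sum_mul, Finset.sum_mul]
      refine (norm_sum_le _ _).trans (Finset.sum_le_sum fun i _ => ?_)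
      rw [norm_mul, norm_mul, Complex.norm_I, one_mul, Complex.norm_real]
      have h3 := hC i N hN y w hy hw g a hg ha2
      rw [← hfn] at h3
      have h4 : ‖y i‖ ≤ |Λ| := (hy i).trans (le_abs_self _)
      calc ‖y i‖ * _ ≤ |Λ| * (C i / N ^ K * ‖f‖ * Real.sqrt (∫ z in D.U, ‖a z‖ ^ 2)) :=
            mul_le_mul h4 h3 (norm_nonneg _) (abs_nonneg _)
        _ ≤ |Λ| * (|C i| / N ^ K * ‖f‖ * Q) := by
            gcongr
            exact le_abs_self _
        _ = |Λ| * |C i| * (‖f‖ / N ^ K) * Q := by ring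
    have hK0 : 0 ≤ ‖f‖ / N ^ K := by positivity
    calc _ ≤ T * (N * (1 + V') * Q) + A * (‖f‖ / N ^ K) * Q :=
          (norm_add_le _ _).trans (add_le_add t1 t2)
      _ ≤ (1 + V' + A) * (N * T + ‖f‖ / N ^ K) * Q := by
          have e1 : 0 ≤ A * (N * T) * Q := by positivity
          have e2 : 0 ≤ (1 + V') * (‖f‖ / N ^ K) * Q := by positivity
          nlinarith
  -- the two special cases
  set v : ℝ := Real.sqrt (∫ z in D.U, ‖(fun _ => 1 : ℂ → ℂ) z‖ ^ 2) with hv
  have hv0 : 0 ≤ v := Real.sqrt_nonneg _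
  refine ⟨(1 + V' + A) * Real.sqrt |C₁| + (1 + V' + A) * v, by positivity, ?_⟩
  intro N hN y w hy hw hnone f g hg hfg t ht
  have hNpos : 0 < N := by linarith
  have hB0 : 0 ≤ N * ‖D.Toe (fun z => Complex.exp (lS h ps N y w z)) f‖ + ‖f‖ / N ^ K := by
    positivity
  constructor
  · intro l m a
    have hne : ∀ i, ∀ z ∈ D.Ue δ, z - D.a i ≠ 0 := by
      intro i z hz h0
      have h1 := hz.2 i
      rw [h0, norm_zero] at h1
      have h2 := hτ.lt_r i
      linarith
    have hAd : ∀ n, DifferentiableOn ℂ (D.A l n) (D.Ue δ) := by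
      intro n
      cases l with
      | none =>
        intro z _
        simp only [CD.A]
        exact (((differentiableAt_id).div_const _).pow _).differentiableWithinAt
      | some i =>
        intro z hz
        simp only [CD.A]
        have h1 : DifferentiableAt ℂ (fun z => (D.r i : ℂ) / (z - D.a i)) z :=
          (differentiableAt_const _).div (differentiableAt_id.sub_const _) (hne i z hz)
        exact (h1.pow _).differentiableWithinAt
    have hcomb : DifferentiableOn ℂ (D.comb z₀ l m a) (D.Ue δ) := by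
      unfold CD.comb
      refine DifferentiableOn.fun_sum fun i _ => ?_
      exact ((hAd i).sub_const _).const_mul _
    set Q : ℝ := Real.sqrt (∑ n ∈ Finset.range m, (n + 1) * ‖a n‖ ^ 2) with hQ
    have hQ0 : 0 ≤ Q := Real.sqrt_nonneg _
    obtain ⟨-, -, b1, b2⟩ := hC₁ l m a
    have hsum0 : (0 : ℝ) ≤ ∑ n ∈ Finset.range m, (n + 1) * ‖a n‖ ^ 2 :=
      Finset.sum_nonneg fun n _ => by positivity
    have b3 : ∀ X : ℝ, X ≤ C₁ * ∑ n ∈ Finset.range m, (n + 1) * ‖a n‖ ^ 2 →
        Real.sqrt X ≤ Real.sqrt |C₁| * Q := by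
      intro X hX
      rw [hQ, ← Real.sqrt_mul (abs_nonneg _)]
      refine Real.sqrt_le_sqrt (hX.trans ?_)
      exact mul_le_mul_of_nonneg_right (le_abs_self _) hsum0
    have h1 := core N hN y w hy hw hnone f g hg hfg t ht _ hcomb _ (b3 _ b1) (b3 _ b2)
    refine h1.trans ?_
    have e1 : 0 ≤ (1 + V' + A) * v * (N * ‖D.Toe (fun z => Complex.exp (lS h ps N y w z)) f‖ +
        ‖f‖ / N ^ K) * Q := by positivity
    calc _ = (1 + V' + A) * Real.sqrt |C₁| * (N * ‖D.Toe (fun z =>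
          Complex.exp (lS h ps N y w z)) f‖ + ‖f‖ / N ^ K) * Q := by ring
      _ ≤ (1 + V' + A) * Real.sqrt |C₁| * (N * ‖D.Toe (fun z =>
          Complex.exp (lS h ps N y w z)) f‖ + ‖f‖ / N ^ K) * Q + (1 + V' + A) * v *
          (N * ‖D.Toe (fun z => Complex.exp (lS h ps N y w z)) f‖ + ‖f‖ / N ^ K) * Q :=
          le_add_of_nonneg_right e1
      _ = _ := by ring
  · rw [← Lt_one D hτ t hg]
    have h2 : Real.sqrt (∫ z in D.U, ‖deriv (fun _ => (1 : ℂ)) z‖ ^ 2) ≤ v := by
      simp only [deriv_const, norm_zero]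
      simpa using hv0
    have h1 := core N hN y w hy hw hnone f g hg hfg t ht (fun _ => 1)
      (differentiableOn_const 1) v le_rfl h2
    refine h1.trans ?_
    have e1 : 0 ≤ (1 + V' + A) * Real.sqrt |C₁| * (N * ‖D.Toe (fun z =>
        Complex.exp (lS h ps N y w z)) f‖ + ‖f‖ / N ^ K) := by positivity
    calc _ = (1 + V' + A) * v * (N * ‖D.Toe (fun z =>
          Complex.exp (lS h ps N y w z)) f‖ + ‖f‖ / N ^ K) := by ring
      _ ≤ (1 + V' + A) * Real.sqrt |C₁| * (N * ‖D.Toe (fun z =>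
          Complex.exp (lS h ps N y w z)) f‖ + ‖f‖ / N ^ K) + (1 + V' + A) * v *
          (N * ‖D.Toe (fun z => Complex.exp (lS h ps N y w z)) f‖ + ‖f‖ / N ^ K) :=
          le_add_of_nonneg_left e1
      _ = _ := by ring

end

end Pool.Agent.Helper7.KE
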