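import Pool.Agent.Helper7.KE.B5
import Pool.Agent.Helper7.KE.C0a
import Pool.Agent.Helper7.KE.D5b
import Pool.Agent.Helper7.KE.E5aux

set_option autoImplicit false

open MeasureTheory Set Filter Asymptotics Topology Metric
open scoped ComplexConjugate ENNReal

namespace Pool.Agent.Helper7.KE

section
variable {k : ℕ} {D : CD k} {τ δ : ℝ} {ι : Type} [Fintype ι] [DecidableEq ι]

theorem exp_lS_split (h : HM D τ δ) {ρ : ℂ → ℝ} (ps : PS D ρ ι) (N : ℝ) (y : ι → ℝ)
    (w : Fin k → ℂ) (z : ℂ) {i : ι} (h1 : ps.chi i z = 1) :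
    Complex.exp (lS h ps N y w z) =
      ∑ j, Complex.exp (Complex.I * y j) *
        ((ps.chi j z : ℂ) * Complex.exp (lS h ps N 0 w z)) := by
  have h0 : ∀ j, j ≠ i → ps.chi j z = 0 := by
    intro j hj
    have hz : z ∈ tsupport (ps.chi i) := by
      apply subset_tsupport
      rw [Function.mem_support, h1]
      exact one_ne_zero
    have hz2 : z ∉ tsupport (ps.chi j) := fun h2 =>
      Set.disjoint_left.1 (ps.disj j i hj) h2 hz
    exact image_eq_zero_of_notMem_tsupport hz2
  rw [Finset.sum_eq_single i]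
  · rw [h1]
    have e1 : (∑ j, y j * ps.chi j z : ℝ) = y i := by
      rw [Finset.sum_eq_single i]
      · rw [h1, mul_one]
      · intro j _ hj
        rw [h0 j hj, mul_zero]
      · intro hi
        exact absurd (Finset.mem_univ i) hi
    have e2 : (∑ j, (0 : ι → ℝ) j * ps.chi j z : ℝ) = 0 := by simp
    rw [lS, lS, e1, e2, Complex.ofReal_one, one_mul, ← Complex.exp_add]
    congr 1
    push_cast
    ring
  · intro j _ hj
    rw [h0 j hj]
    simp
  · intro hi
    exact absurd (Finset.mem_univ i) hi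

/-- the actual forms and the virtual forms agree up to `O(N^{-∞})` -/
theorem virtual_approx (hτ : D.Good τ) (hδ : 0 < δ) (hδτ : δ ≤ τ) (h : HM D τ δ)
    {x : Fin k → ℝ} (hx : x ≠ 0) (ps : PS D (h.rho x) ι) (Λ : ℝ) (m : ℕ)
    {K : Type} [TopologicalSpace K] [CompactSpace K] {g : K → ℂ → ℂ}
    (hg : ContinuousOn (fun p : K × ℂ => g p.1 p.2) (univ ×ˢ D.Ue δ))
    (hg' : ∀ u, DifferentiableOn ℂ (g u) (D.Ue δ)) {q : ℂ → ℂ}
    (hq : DifferentiableOn ℂ q (D.Ue δ)) :
    ∃ C : ℝ, ∀ N : ℝ, 1 ≤ N → ∀ (y φ : ι → ℝ) (w : Fin k → ℂ), (∀ i, |y i| ≤ Λ) →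
      (∀ j, ‖w j‖ ≤ Λ) →
      (∀ i, Complex.exp (Complex.I * (N * ps.c i + y i : ℝ)) = Complex.exp (Complex.I * φ i)) →
      ∀ u : K, ‖(∫ z in D.U, Complex.exp (lS h ps N y w z) * g u z * conj (q z)) -
        Bv h ps N φ w (g u) q‖ ≤ C / N ^ m := by
  have hfacts := rho_facts h hτ hδ x (fun _ => 0)
  obtain ⟨hρ, -, hvv, hdρ, -⟩ := hfacts
  -- the open set of noncritical points
  set V : Set ℂ := D.U ∩ {z | h.vv x z ≠ 0} with hVdef
  have hUUe : D.U ⊆ D.Ue δ := D.U_subset_cU.trans (D.cU_subset_Ue hδ)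
  have hVopen : IsOpen V :=
    (hvv.continuousOn.mono hUUe).isOpen_inter_preimage D.U_open isOpen_compl_singleton
  have hVU : V ⊆ D.Ue δ := inter_subset_left.trans hUUe
  -- the set where the cutoff functions are not locally one
  set W : Set ℂ := ⋃ i, interior {z | ps.chi i z = 1} with hWdef
  have hWopen : IsOpen W := isOpen_iUnion fun i => isOpen_interior
  have hLc : IsCompact (D.cU \ W) := D.cU_compact.diff hWopen
  have hLV : D.cU \ W ⊆ V := by
    rintro z ⟨hz, hzW⟩
    have hmemW : ∀ i, (∀ᶠ w in 𝓝 z, ps.chi i w = 1) → z ∈ W := fun i hi =>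
      mem_iUnion.2 ⟨i, mem_interior_iff_mem_nhds.2 hi⟩
    refine ⟨?_, ?_⟩
    · rcases (mem_cU_iff D z).1 hz with h1 | ⟨l, hl⟩
      · exact h1
      · exact absurd (hmemW _ (ps.bd_near l z hl)) hzW
    · intro h0
      obtain ⟨i, hi⟩ := ps.crit_near z hz (by rw [hdρ z (D.cU_subset_Ue hδ hz)]; exact h0)
      exact hzW (hmemW i hi)
  obtain ⟨β, hβ, hβ1⟩ := exists_cutoff hLc hVopen hLV
  have hgV : ContinuousOn (fun p : K × ℂ => g p.1 p.2) (univ ×ˢ V) :=
    hg.mono (prod_mono le_rfl hVU)
  have hg'V : ∀ u, DifferentiableOn ℂ (g u) V := fun u => (hg' u).mono hVU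
  have hqV := hq.mono hVU
  obtain ⟨C₀, hC₀⟩ := nonstat_unif hτ hδ h ps hVopen hVU (fun z hz => hz.2) (max Λ 0) m hgV hg'V
    hqV hβ
  have hβi : ∀ i, IsTest V (fun z => (ps.chi i z : ℂ) • β z) := fun i =>
    hβ.smul hVopen (Complex.ofRealCLM.contDiff.comp_contDiffOn (ps.smooth i).contDiffOn)
  choose C hC using fun i => nonstat_unif hτ hδ h ps hVopen hVU (fun z hz => hz.2) (max Λ 0) m
    hgV hg'V hqV (hβi i)
  refine ⟨C₀ + ∑ i, C i, fun N hN y φ w hy hw hφ u => ?_⟩
  have hN0 : (0 : ℝ) < N := by linarith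
  -- continuity of everything on the closed domain
  have hom : ContinuousOn (h.rhoC w) (D.Ue δ) :=
    (rho_facts h hτ hδ x w).2.1.continuousOn
  have hlS : ∀ y' : ι → ℝ, ContinuousOn (fun z => Complex.exp (lS h ps N y' w z)) D.cU := by
    intro y'
    refine Complex.continuous_exp.comp_continuousOn ?_
    refine ContinuousOn.add (ContinuousOn.add ?_ ?_) (hom.mono (D.cU_subset_Ue hδ))
    · exact continuousOn_const.mul (Complex.continuous_ofReal.comp_continuousOn
        (continuousOn_const.mul (hρ.continuousOn.mono (D.cU_subset_Ue hδ))))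
    · refine continuousOn_const.mul (Complex.continuous_ofReal.comp_continuousOn ?_)
      exact continuousOn_finsetSum _ fun i _ =>
        continuousOn_const.mul (ps.smooth i).continuous.continuousOn
  have hgu : ContinuousOn (g u) D.cU := (hg' u).continuousOn.mono (D.cU_subset_Ue hδ)
  have hqc : ContinuousOn (fun z => conj (q z)) D.cU :=
    Complex.continuous_conj.comp_continuousOn (hq.continuousOn.mono (D.cU_subset_Ue hδ))
  have hci : ∀ i, ContinuousOn (fun z => (ps.chi i z : ℂ)) D.cU := fun i =>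
    (Complex.continuous_ofReal.comp (ps.smooth i).continuous).continuousOn
  -- the virtual form
  have hB : Bv h ps N φ w (g u) q = ∑ i, ∫ z in D.U, Complex.exp (Complex.I * y i) *
      ((ps.chi i z : ℂ) * Complex.exp (lS h ps N 0 w z)) * g u z * conj (q z) := by
    rw [Bv]
    refine Finset.sum_congr rfl fun i _ => ?_
    rw [← hφ i, ← integral_const_mul]
    congr 1
    funext z
    have e1 : Complex.exp (Complex.I * (N * ps.c i + y i : ℝ)) *
        Complex.exp (Complex.I * (N * (h.rho x z - ps.c i) : ℝ)) * Complex.exp (h.rhoC w z) =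
        Complex.exp (Complex.I * y i) * Complex.exp (lS h ps N 0 w z) := by
      rw [← Complex.exp_add, ← Complex.exp_add, ← Complex.exp_add]
      congr 1
      rw [lS]
      have e2 : (∑ j, (0 : ι → ℝ) j * ps.chi j z : ℝ) = 0 := by simp
      rw [e2]
      push_cast
      ring
    calc Complex.exp (Complex.I * (N * ps.c i + y i : ℝ)) * ((ps.chi i z : ℂ) *
          Complex.exp (Complex.I * (N * (h.rho x z - ps.c i) : ℝ)) *
            Complex.exp (h.rhoC w z) * g u z * conj (q z))
        = (Complex.exp (Complex.I * (N * ps.c i + y i : ℝ)) *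
          Complex.exp (Complex.I * (N * (h.rho x z - ps.c i) : ℝ)) *
            Complex.exp (h.rhoC w z)) * (ps.chi i z : ℂ) * g u z * conj (q z) := by ring
      _ = _ := by rw [e1]; ring
  have hi0 : IntegrableOn (fun z => Complex.exp (lS h ps N y w z) * g u z * conj (q z)) D.U :=
    integrableOn_U D (((hlS y).mul hgu).mul hqc)
  have hi1 : ∀ i, IntegrableOn (fun z => Complex.exp (Complex.I * y i) *
      ((ps.chi i z : ℂ) * Complex.exp (lS h ps N 0 w z)) * g u z * conj (q z)) D.U := fun i =>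
    integrableOn_U D (((continuousOn_const.mul ((hci i).mul (hlS 0))).mul hgu).mul hqc)
  -- reduce to the compactly supported part
  have hβc : ContinuousOn β D.cU := hβ.smooth.continuous.continuousOn
  have hkey : ∀ z ∈ D.U, (Complex.exp (lS h ps N y w z) * g u z * conj (q z)) -
      (∑ i, Complex.exp (Complex.I * y i) *
        ((ps.chi i z : ℂ) * Complex.exp (lS h ps N 0 w z)) * g u z * conj (q z)) =
      (Complex.exp (lS h ps N y w z) * (β z * g u z * conj (q z))) -
      (∑ i, Complex.exp (Complex.I * y i) *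
        (Complex.exp (lS h ps N 0 w z) * ((ps.chi i z : ℂ) • β z * g u z * conj (q z)))) := by
    intro z hz
    by_cases hzW : z ∈ W
    · obtain ⟨i, hi⟩ := mem_iUnion.1 hzW
      have h1' : z ∈ {z | ps.chi i z = 1} := interior_subset hi
      have h1 : ps.chi i z = 1 := h1'
      have e3 := exp_lS_split h ps N y w z h1
      rw [e3, Finset.sum_mul, Finset.sum_mul, Finset.sum_mul]
      rw [sub_eq_zero.2 rfl]
      symm
      rw [sub_eq_zero]
      refine Finset.sum_congr rfl fun j _ => ?_
      rw [smul_eq_mul]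
      ring
    · rw [hβ1 z ⟨D.U_subset_cU hz, hzW⟩]
      congr 1
      · ring
      · refine Finset.sum_congr rfl fun j _ => ?_
        rw [smul_eq_mul]
        ring
  have hsupp : ∀ z, z ∉ D.U → β z = 0 := by
    intro z hz
    by_contra h0
    exact hz (hβ.supp (subset_tsupport _ h0)).1
  have hj0 : IntegrableOn (fun z => Complex.exp (lS h ps N y w z) *
      (β z * g u z * conj (q z))) D.U :=
    integrableOn_U D ((hlS y).mul ((hβc.mul hgu).mul hqc))
  have hj1 : ∀ i, IntegrableOn (fun z => Complex.exp (Complex.I * y i) *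
      (Complex.exp (lS h ps N 0 w z) * ((ps.chi i z : ℂ) • β z * g u z * conj (q z)))) D.U :=
    fun i => integrableOn_U D (continuousOn_const.mul ((hlS 0).mul
      ((((hci i).smul hβc).mul hgu).mul hqc)))
  have e4 : (∫ z in D.U, Complex.exp (lS h ps N y w z) * g u z * conj (q z)) -
        Bv h ps N φ w (g u) q =
      (∫ z, Complex.exp (lS h ps N y w z) * (β z * g u z * conj (q z))) -
      ∑ i, Complex.exp (Complex.I * y i) *
        ∫ z, Complex.exp (lS h ps N 0 w z) * ((ps.chi i z : ℂ) • β z * g u z * conj (q z)) := by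
    rw [hB, ← integral_finsetSum _ (fun i _ => hi1 i), ← integral_sub hi0
      (integrable_finsetSum _ fun i _ => hi1 i)]
    rw [setIntegral_congr_fun D.U_open.measurableSet hkey, integral_sub hj0
      (integrable_finsetSum _ fun i _ => hj1 i), integral_finsetSum _ (fun i _ => hj1 i)]
    congr 1
    · exact setIntegral_eq_integral_of_forall_compl_eq_zero fun z hz => by
        rw [hsupp z hz]; simp
    · refine Finset.sum_congr rfl fun i _ => ?_
      rw [integral_const_mul]
      congr 1
      exact setIntegral_eq_integral_of_forall_compl_eq_zero fun z hz => by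
        rw [hsupp z hz]; simp
  rw [e4]
  have hy' : ∀ i, |y i| ≤ max Λ 0 := fun i => (hy i).trans (le_max_left _ _)
  have hw' : ∀ j, ‖w j‖ ≤ max Λ 0 := fun j => (hw j).trans (le_max_left _ _)
  have h0' : ∀ i, |(0 : ι → ℝ) i| ≤ max Λ 0 := fun i => by simp
  have b0 := hC₀ N hN y w hy' hw' u
  have b1 := fun i => hC i N hN 0 w h0' hw' u
  calc _ ≤ C₀ / N ^ m + ∑ i, C i / N ^ m := by
        refine (norm_sub_le _ _).trans (add_le_add b0 ?_)
        refine (norm_sum_le _ _).trans (Finset.sum_le_sum fun i _ => ?_)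
        rw [norm_mul, mul_comm Complex.I, Complex.norm_exp_ofReal_mul_I, one_mul]
        exact b1 i
    _ = (C₀ + ∑ i, C i) / N ^ m := by rw [add_div, Finset.sum_div]

end

end Pool.Agent.Helper7.KE
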