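import Pool.Agent.Helper7.KE.C4b
import Pool.Agent.Helper7.KE.D5a

set_option autoImplicit false

open MeasureTheory Set Filter Asymptotics Topology Metric
open scoped ComplexConjugate ENNReal

namespace Pool.Agent.Helper7.KE

section
variable {k : ℕ} {D : CD k} {τ δ : ℝ} {ι : Type} [Fintype ι] [DecidableEq ι]

private theorem e5d_ofReal {V : Set ℂ} {f : ℂ → ℝ} (hf : ContDiffOn ℝ (⊤ : ℕ∞) f V) :
    ContDiffOn ℝ (⊤ : ℕ∞) (fun z => (f z : ℂ)) V :=
  Complex.ofRealCLM.contDiff.comp_contDiffOn hf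

private theorem e5d_rho_smooth (h : HM D τ δ) (x : Fin k → ℝ) :
    ContDiffOn ℝ (⊤ : ℕ∞) (h.rho x) (D.Ue δ) := by
  unfold HM.rho
  exact ContDiffOn.sum fun j _ => contDiffOn_const.mul (h.smooth j)

private theorem e5d_rhoC_smooth (h : HM D τ δ) (w : Fin k → ℂ) :
    ContDiffOn ℝ (⊤ : ℕ∞) (h.rhoC w) (D.Ue δ) := by
  unfold HM.rhoC
  exact ContDiffOn.sum fun j _ => contDiffOn_const.mul (e5d_ofReal (h.smooth j))

/-- the exponent is smooth near the closed domain -/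
theorem e5d_lS_smooth (h : HM D τ δ) {x : Fin k → ℝ} (ps : PS D (h.rho x) ι) (N : ℝ) (y : ι → ℝ)
    (w : Fin k → ℂ) : ContDiffOn ℝ (⊤ : ℕ∞) (lS h ps N y w) (D.Ue δ) := by
  unfold lS
  refine (ContDiffOn.add ?_ ?_).add (e5d_rhoC_smooth h w)
  · exact contDiffOn_const.mul (e5d_ofReal (contDiffOn_const.mul (e5d_rho_smooth h x)))
  · refine contDiffOn_const.mul (e5d_ofReal ?_)
    exact ContDiffOn.sum fun i _ => contDiffOn_const.mul (ps.smooth i).contDiffOn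

private theorem e5d_bound {V : Set ℂ} (hV : IsOpen V) (hcV : D.cU ⊆ V) {F : ℂ → ℂ}
    (hF : ContDiffOn ℝ (⊤ : ℕ∞) F V) : ∃ C : ℝ, 0 ≤ C ∧ ∀ z ∈ D.cU, ‖dzb F z‖ ≤ C := by
  obtain ⟨C, hC⟩ := D.cU_compact.exists_bound_of_continuousOn
    ((dz_contDiffOn hV hF).2.continuousOn.mono hcV)
  exact ⟨max C 0, le_max_right _ _, fun z hz => (hC z hz).trans (le_max_left _ _)⟩

private theorem e5d_dzb_lS (hδ : 0 < δ) (h : HM D τ δ) {x : Fin k → ℝ} (ps : PS D (h.rho x) ι) (N : ℝ)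
    (y : ι → ℝ) (w : Fin k → ℂ) {z : ℂ} (hz : z ∈ D.cU) :
    dzb (lS h ps N y w) z = Complex.I * (N * dzb (fun u => (h.rho x u : ℂ)) z) +
      Complex.I * (∑ i, y i * dzb (fun u => (ps.chi i u : ℂ)) z) +
      ∑ j, w j * dzb (fun u => (h.om j u : ℂ)) z := by
  have hzU : z ∈ D.Ue δ := D.cU_subset_Ue hδ hz
  have hO : D.Ue δ ∈ 𝓝 z := (D.Ue_open δ).mem_nhds hzU
  have hd : ∀ {F : ℂ → ℂ}, ContDiffOn ℝ (⊤ : ℕ∞) F (D.Ue δ) → DifferentiableAt ℝ F z :=
    fun hF => (hF.contDiffAt hO).differentiableAt (by simp)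
  have d1 : DifferentiableAt ℝ (fun u => (h.rho x u : ℂ)) z := hd (e5d_ofReal (e5d_rho_smooth h x))
  have d2 : ∀ i, DifferentiableAt ℝ (fun u => (ps.chi i u : ℂ)) z := fun i =>
    hd (e5d_ofReal (ps.smooth i).contDiffOn)
  have d3 : ∀ j, DifferentiableAt ℝ (fun u => (h.om j u : ℂ)) z := fun j =>
    hd (e5d_ofReal (h.smooth j))
  have e0 : lS h ps N y w = fun u => ((Complex.I * N) • (h.rho x u : ℂ) +
      ∑ i, (Complex.I * y i) • (ps.chi i u : ℂ)) + ∑ j, (w j) • (h.om j u : ℂ) := by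
    funext u
    simp only [lS, HM.rhoC, smul_eq_mul]
    push_cast
    rw [Finset.mul_sum]
    congr 2
    · ring
    · exact Finset.sum_congr rfl fun i _ => by ring
  have hc : ∀ (c : ℂ) {F : ℂ → ℂ}, DifferentiableAt ℝ F z →
      dzb (fun u => c • F u) z = c • dzb F z := by
    intro c F hF
    have h1 := (dz_smul (f := fun _ => c) (F := F) (z := z) (differentiableAt_const c) hF).2
    rw [h1, (dz_const (c := c) (z := z)).2]
    simp
  have c1 : DifferentiableAt ℝ (fun u => (Complex.I * N) • (h.rho x u : ℂ)) z :=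
    DifferentiableAt.fun_const_smul d1 _
  have c2 : ∀ i ∈ Finset.univ, DifferentiableAt ℝ (fun u => (Complex.I * y i) • (ps.chi i u : ℂ)) z :=
    fun i _ => DifferentiableAt.fun_const_smul (d2 i) _
  have c3 : ∀ j ∈ Finset.univ, DifferentiableAt ℝ (fun u => (w j) • (h.om j u : ℂ)) z :=
    fun j _ => DifferentiableAt.fun_const_smul (d3 j) _
  rw [e0]
  have s2 : DifferentiableAt ℝ (fun u => ∑ i, (Complex.I * y i) • (ps.chi i u : ℂ)) z :=
    DifferentiableAt.fun_sum c2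
  have s3 : DifferentiableAt ℝ (fun u => ∑ j, (w j) • (h.om j u : ℂ)) z :=
    DifferentiableAt.fun_sum c3
  rw [(dz_add (F := fun u => (Complex.I * N) • (h.rho x u : ℂ) +
      ∑ i, (Complex.I * y i) • (ps.chi i u : ℂ)) (c1.fun_add s2) s3).2, (dz_add c1 s2).2, (dz_sum Finset.univ c2).2,
    (dz_sum Finset.univ c3).2, hc _ d1]
  have t2 : ∑ i, dzb (fun u => (Complex.I * y i) • (ps.chi i u : ℂ)) z =
      Complex.I * ∑ i, y i * dzb (fun u => (ps.chi i u : ℂ)) z := by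
    rw [Finset.mul_sum]
    refine Finset.sum_congr rfl fun i _ => ?_
    rw [hc _ (d2 i), smul_eq_mul]
    ring
  have t3 : ∑ j, dzb (fun u => (w j) • (h.om j u : ℂ)) z =
      ∑ j, w j * dzb (fun u => (h.om j u : ℂ)) z := by
    refine Finset.sum_congr rfl fun j _ => ?_
    rw [hc _ (d3 j), smul_eq_mul]
  rw [t2, t3, smul_eq_mul]
  ring

/-- from a lower bound for `T_S` on the Bergman space to a lower bound for `1 - T M_b` -/
theorem inverse_bound (hδ : 0 < δ) (h : HM D τ δ) {x : Fin k → ℝ} (ps : PS D (h.rho x) ι)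
    {T : D.L2 →L[ℂ] D.L2} (hT : D.IsKohn T) (Λ : ℝ) :
    ∃ C : ℝ, 0 < C ∧ ∀ N : ℝ, 1 ≤ N → ∀ (y : ι → ℝ) (w : Fin k → ℂ) (M : ℝ), (∀ i, |y i| ≤ Λ) →
      (∀ j, ‖w j‖ ≤ Λ) → 1 ≤ M →
      (∀ f : D.Berg, ‖f‖ ≤ M * ‖D.Toe (fun z => Complex.exp (lS h ps N y w z)) f‖) →
      ∀ f : D.L2, ‖f‖ ≤ C * N * M * ‖f - T (D.Mul (dzb (lS h ps N y w)) f)‖ := by
  have hO := D.Ue_open δ
  have hcO := D.cU_subset_Ue hδ
  obtain ⟨Bρ, hBρ0, hBρ⟩ := e5d_bound hO hcO (e5d_ofReal (e5d_rho_smooth h x))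
  have hχ : ∀ i, ∃ C : ℝ, 0 ≤ C ∧ ∀ z ∈ D.cU, ‖dzb (fun u => (ps.chi i u : ℂ)) z‖ ≤ C := fun i =>
    e5d_bound hO hcO (e5d_ofReal (ps.smooth i).contDiffOn)
  choose Bχ hBχ0 hBχ using hχ
  have hom : ∀ j, ∃ C : ℝ, 0 ≤ C ∧ ∀ z ∈ D.cU, ‖dzb (fun u => (h.om j u : ℂ)) z‖ ≤ C := fun j =>
    e5d_bound hO hcO (e5d_ofReal (h.smooth j))
  choose Bom hBom0 hBom using hom
  have hom' : ∀ j, ∃ C : ℝ, 0 ≤ C ∧ ∀ z ∈ D.cU, |h.om j z| ≤ C := fun j => by
    obtain ⟨C, hC⟩ := D.cU_compact.exists_bound_of_continuousOn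
      ((h.smooth j).continuousOn.mono hcO)
    exact ⟨max C 0, le_max_right _ _, fun z hz => (hC z hz).trans (le_max_left _ _)⟩
  choose Bo hBo0 hBo using hom'
  set A : ℝ := Real.exp (∑ j, |Λ| * Bo j) with hA
  have hA0 : 0 < A := Real.exp_pos _
  set C2 : ℝ := Bρ + ∑ i, |Λ| * Bχ i + ∑ j, |Λ| * Bom j with hC2
  have hC20 : 0 ≤ C2 := by
    have h1 : 0 ≤ ∑ i, |Λ| * Bχ i :=
      Finset.sum_nonneg fun i _ => mul_nonneg (abs_nonneg _) (hBχ0 i)
    have h2 : 0 ≤ ∑ j, |Λ| * Bom j :=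
      Finset.sum_nonneg fun i _ => mul_nonneg (abs_nonneg _) (hBom0 i)
    positivity
  refine ⟨A ^ 3 * ‖T‖ * C2 + A ^ 2 * ‖T‖ * C2 + 1, by positivity, ?_⟩
  intro N hN y w M hy hw hM hlow f
  set l := lS h ps N y w with hl
  have hls : ContDiffOn ℝ (⊤ : ℕ∞) l (D.Ue δ) := e5d_lS_smooth h ps N y w
  have hΛ : Λ ≤ |Λ| := le_abs_self Λ
  -- bounds
  have hre : ∀ z ∈ D.cU, |(l z).re| ≤ ∑ j, |Λ| * Bo j := by
    intro z hz
    have h1 : (l z).re = (h.rhoC w z).re := by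
      simp only [hl, lS, Complex.add_re, Complex.mul_re, Complex.I_re, Complex.I_im,
        Complex.ofReal_re, Complex.ofReal_im]
      ring
    rw [h1]
    refine (Complex.abs_re_le_norm _).trans ?_
    unfold HM.rhoC
    refine (norm_sum_le _ _).trans (Finset.sum_le_sum fun j _ => ?_)
    rw [norm_mul, Complex.norm_real, Real.norm_eq_abs]
    exact mul_le_mul ((hw j).trans hΛ) (hBo j z hz) (abs_nonneg _) (abs_nonneg _)
  have hS : ∀ z ∈ D.cU, ‖Complex.exp (l z)‖ ≤ A := by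
    intro z hz
    rw [Complex.norm_exp]
    exact Real.exp_le_exp.2 ((le_abs_self _).trans (hre z hz))
  have hSi : ∀ z ∈ D.cU, ‖Complex.exp (-(l z))‖ ≤ A := by
    intro z hz
    rw [Complex.norm_exp, Complex.neg_re]
    exact Real.exp_le_exp.2 ((neg_le_abs _).trans (hre z hz))
  have hb : ∀ z ∈ D.cU, ‖dzb l z‖ ≤ C2 * N := by
    intro z hz
    rw [hl, e5d_dzb_lS hδ h ps N y w hz]
    have e1 : ‖Complex.I * (N * dzb (fun u => (h.rho x u : ℂ)) z)‖ ≤ Bρ * N := by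
      rw [norm_mul, Complex.norm_I, one_mul, norm_mul, Complex.norm_real, Real.norm_eq_abs,
        abs_of_nonneg (by linarith), mul_comm]
      exact mul_le_mul_of_nonneg_right (hBρ z hz) (by linarith)
    have e2 : ‖Complex.I * (∑ i, y i * dzb (fun u => (ps.chi i u : ℂ)) z)‖ ≤
        (∑ i, |Λ| * Bχ i) * N := by
      rw [norm_mul, Complex.norm_I, one_mul]
      refine (norm_sum_le _ _).trans ?_
      have : ∑ i, ‖(y i : ℂ) * dzb (fun u => (ps.chi i u : ℂ)) z‖ ≤ ∑ i, |Λ| * Bχ i := by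
        refine Finset.sum_le_sum fun i _ => ?_
        rw [norm_mul, Complex.norm_real, Real.norm_eq_abs]
        exact mul_le_mul ((hy i).trans hΛ) (hBχ i z hz) (norm_nonneg _) (abs_nonneg _)
      refine this.trans (le_mul_of_one_le_right ?_ hN)
      exact Finset.sum_nonneg fun i _ => mul_nonneg (abs_nonneg _) (hBχ0 i)
    have e3 : ‖∑ j, w j * dzb (fun u => (h.om j u : ℂ)) z‖ ≤ (∑ j, |Λ| * Bom j) * N := by
      refine (norm_sum_le _ _).trans ?_
      have : ∑ j, ‖w j * dzb (fun u => (h.om j u : ℂ)) z‖ ≤ ∑ j, |Λ| * Bom j := by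
        refine Finset.sum_le_sum fun i _ => ?_
        rw [norm_mul]
        exact mul_le_mul ((hw i).trans hΛ) (hBom i z hz) (norm_nonneg _) (abs_nonneg _)
      refine this.trans (le_mul_of_one_le_right ?_ hN)
      exact Finset.sum_nonneg fun i _ => mul_nonneg (abs_nonneg _) (hBom0 i)
    refine (norm_add₃_le).trans ?_
    rw [hC2]
    linarith
  -- the functions
  set si : ℂ → ℂ := fun z => Complex.exp (-(l z)) with hsi
  have hsis : ContDiffOn ℝ (⊤ : ℕ∞) si (D.Ue δ) := hls.neg.cexp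
  have hss : ContDiffOn ℝ (⊤ : ℕ∞) (fun z => Complex.exp (l z)) (D.Ue δ) := hls.cexp
  have hbs : ContDiffOn ℝ (⊤ : ℕ∞) (dzb l) (D.Ue δ) := (dz_contDiffOn hO hls).2
  have csi : ContinuousOn si D.cU := hsis.continuousOn.mono hcO
  have cS : ContinuousOn (fun z => Complex.exp (l z)) D.cU := hss.continuousOn.mono hcO
  have cb : ContinuousOn (dzb l) D.cU := hbs.continuousOn.mono hcO
  have csib : ContinuousOn (fun z => si z * dzb l z) D.cU := csi.mul cb
  have cdsi : ContinuousOn (dzb si) D.cU := (dz_contDiffOn hO hsis).2.continuousOn.mono hcO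
  have hdsi : ∀ z ∈ D.U, dzb si z = (-1) * (si z * dzb l z) := by
    intro z hz
    have hzU : z ∈ D.Ue δ := hcO (D.U_subset_cU hz)
    have hd : DifferentiableAt ℝ l z :=
      (hls.contDiffAt (hO.mem_nhds hzU)).differentiableAt (by simp)
    have h1 := (dz_cexp (f := fun z => -(l z)) (z := z) hd.neg).2
    rw [hsi, h1, (dz_neg (F := l) (z := z)).2]
    ring
  have eM1 : D.Mul (dzb si) = (-1 : ℂ) • D.Mul (fun z => si z * dzb l z) := by
    rw [← mul_smul' D csib]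
    exact mul_congr D cdsi (continuousOn_const.mul csib) hdsi
  -- norms
  have nS : ‖D.Mul (fun z => Complex.exp (l z))‖ ≤ A :=
    D.Mul_norm_le cS (fun z hz => hS z (D.U_subset_cU hz)) hA0.le
  have nsib : ‖D.Mul (fun z => si z * dzb l z)‖ ≤ A * (C2 * N) := by
    refine D.Mul_norm_le csib (fun z hz => ?_) (by positivity)
    rw [norm_mul]
    exact mul_le_mul (hSi z (D.U_subset_cU hz)) (hb z (D.U_subset_cU hz)) (norm_nonneg _) hA0.le
  -- the argument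
  set r := f - T (D.Mul (dzb l) f) with hr
  set u := T (D.Mul (dzb l) f) with hu
  have w1 : D.WeakDbar (D.Mul si u) (D.Mul si (D.Mul (dzb l) f) + D.Mul (dzb si) u) :=
    weak_mul D hO hcO hsis (hT.weak _)
  have w2 : D.Mul si (D.Mul (dzb l) f) + D.Mul (dzb si) u = D.Mul (fun z => si z * dzb l z) r := by
    rw [mul_mul D csi cb, eM1, smul_apply, hr, map_sub, neg_smul, one_smul,
      ← sub_eq_add_neg]
  rw [w2] at w1
  set v := T (D.Mul (fun z => si z * dzb l z) r) with hv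
  have w3 : D.WeakDbar (D.Mul si u + (-1 : ℂ) • v) (D.Mul (fun z => si z * dzb l z) r +
      (-1 : ℂ) • D.Mul (fun z => si z * dzb l z) r) :=
    weak_add D w1 (weak_smul D (-1) (hT.weak _))
  have w4 : D.Mul (fun z => si z * dzb l z) r +
      (-1 : ℂ) • D.Mul (fun z => si z * dzb l z) r = 0 := by
    rw [neg_smul, one_smul, add_neg_cancel]
  rw [w4] at w3
  have hG := weyl D w3
  set G : D.Berg := ⟨_, hG⟩ with hGd
  have hGe : (G : D.L2) = D.Mul si u - v := by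
    change D.Mul si u + (-1 : ℂ) • v = D.Mul si u - v
    rw [neg_smul, one_smul, ← sub_eq_add_neg]
  have e1 : D.Mul (fun z => Complex.exp (l z)) (D.Mul si u) = u := by
    rw [mul_mul D cS csi]
    have : D.Mul (fun z => Complex.exp (l z) * si z) = D.Mul (fun _ => 1) := by
      refine mul_congr D (cS.mul csi) continuousOn_const fun z _ => ?_
      rw [hsi, ← Complex.exp_add, add_neg_cancel, Complex.exp_zero]
    rw [this, mul_one' D]
    rfl
  have e2 : D.Mul (fun z => Complex.exp (l z)) (G : D.L2) = u -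
      D.Mul (fun z => Complex.exp (l z)) v := by
    rw [hGe, map_sub, e1]
  have e3 : D.Toe (fun z => Complex.exp (l z)) G = -D.P (D.Mul (fun z => Complex.exp (l z)) v) := by
    have : D.Toe (fun z => Complex.exp (l z)) G = D.P (D.Mul (fun z => Complex.exp (l z)) (G : D.L2)) :=
      rfl
    rw [this, e2, map_sub, hu, hT.orth, zero_sub]
  have nv : ‖v‖ ≤ ‖T‖ * (A * (C2 * N) * ‖r‖) := by
    rw [hv]
    refine (T.le_opNorm _).trans (mul_le_mul_of_nonneg_left ?_ (norm_nonneg _))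
    exact (ContinuousLinearMap.le_opNorm _ _).trans (mul_le_mul_of_nonneg_right nsib (norm_nonneg _))
  have nSv : ‖D.Mul (fun z => Complex.exp (l z)) v‖ ≤ A * (‖T‖ * (A * (C2 * N) * ‖r‖)) :=
    (ContinuousLinearMap.le_opNorm _ _).trans (mul_le_mul nS nv (norm_nonneg _) hA0.le)
  have nP : ∀ g : D.L2, ‖D.P g‖ ≤ ‖g‖ := fun g => by
    have h1 : ‖D.P‖ ≤ 1 := Submodule.orthogonalProjectionOnto_norm_le D.Berg
    calc ‖D.P g‖ ≤ ‖D.P‖ * ‖g‖ := D.P.le_opNorm g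
      _ ≤ 1 * ‖g‖ := mul_le_mul_of_nonneg_right h1 (norm_nonneg _)
      _ = ‖g‖ := one_mul _
  have nT : ‖D.Toe (fun z => Complex.exp (l z)) G‖ ≤ A * (‖T‖ * (A * (C2 * N) * ‖r‖)) := by
    rw [e3, norm_neg]
    exact (nP _).trans nSv
  have nG : ‖(G : D.L2)‖ ≤ M * (A * (‖T‖ * (A * (C2 * N) * ‖r‖))) :=
    (hlow G).trans (mul_le_mul_of_nonneg_left nT (by linarith))
  have e4 : f = D.Mul (fun z => Complex.exp (l z)) (G : D.L2) +
      D.Mul (fun z => Complex.exp (l z)) v + r := by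
    rw [e2, hr]
    abel
  have n1 : ‖D.Mul (fun z => Complex.exp (l z)) (G : D.L2)‖ ≤
      A * (M * (A * (‖T‖ * (A * (C2 * N) * ‖r‖)))) :=
    (ContinuousLinearMap.le_opNorm _ _).trans (mul_le_mul nS nG (norm_nonneg _) hA0.le)
  have hr0 : 0 ≤ ‖r‖ := norm_nonneg _
  have hT0 : 0 ≤ ‖T‖ := norm_nonneg _
  calc ‖f‖ = ‖D.Mul (fun z => Complex.exp (l z)) (G : D.L2) +
      D.Mul (fun z => Complex.exp (l z)) v + r‖ := by rw [← e4]
    _ ≤ A * (M * (A * (‖T‖ * (A * (C2 * N) * ‖r‖)))) + A * (‖T‖ * (A * (C2 * N) * ‖r‖)) + ‖r‖ :=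
      (norm_add₃_le).trans (by linarith)
    _ ≤ (A ^ 3 * ‖T‖ * C2 + A ^ 2 * ‖T‖ * C2 + 1) * N * M * ‖r‖ := by
      have a1 : A * (‖T‖ * (A * (C2 * N) * ‖r‖)) ≤ A ^ 2 * ‖T‖ * C2 * N * M * ‖r‖ := by
        have : A * (‖T‖ * (A * (C2 * N) * ‖r‖)) = (A ^ 2 * ‖T‖ * C2 * N * ‖r‖) * 1 := by ring
        rw [this]
        have h2 : A ^ 2 * ‖T‖ * C2 * N * M * ‖r‖ = (A ^ 2 * ‖T‖ * C2 * N * ‖r‖) * M := by ring
        rw [h2]
        exact mul_le_mul_of_nonneg_left hM (by positivity)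
      have a2 : ‖r‖ ≤ 1 * N * M * ‖r‖ := by
        have : 1 ≤ 1 * N * M := by nlinarith
        exact le_mul_of_one_le_left hr0 this
      have a3 : A * (M * (A * (‖T‖ * (A * (C2 * N) * ‖r‖)))) = A ^ 3 * ‖T‖ * C2 * N * M * ‖r‖ := by
        ring
      rw [a3]
      nlinarith [a1, a2]

end

end Pool.Agent.Helper7.KE
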