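import Pool.Agent.Helper7.KE.E5b
import Pool.Agent.Helper7.KE.E5c
import Pool.Agent.Helper7.KE.C5b
import Pool.Agent.Helper7.KE.C9b

set_option autoImplicit false

open MeasureTheory Set Filter Asymptotics Topology Metric
open scoped ComplexConjugate ENNReal

namespace Pool.Agent.Helper7.KE

section e5e
variable {k : ℕ} (D : CD k) {τ δ : ℝ} {ι : Type} [Fintype ι] [DecidableEq ι]

/-- the `L²` norm -/
noncomputable def nrm2 (g : ℂ → ℂ) : ℝ := Real.sqrt (∫ z in D.U, ‖g z‖ ^ 2)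

theorem nrm2_nonneg (g : ℂ → ℂ) : 0 ≤ nrm2 D g := Real.sqrt_nonneg _

theorem e5e_comb_ae {m : ℕ} (β : Fin m → ℂ) (G : Fin m → D.L2) {G' : Fin m → ℂ → ℂ}
    (hG : ∀ b, (G b : ℂ → ℂ) =ᵐ[volume.restrict D.U] G' b) :
    ((∑ b, β b • G b : D.L2) : ℂ → ℂ) =ᵐ[volume.restrict D.U] fun z => ∑ b, β b * G' b z := by
  classical
  have key : ∀ s : Finset (Fin m), ((∑ b ∈ s, β b • G b : D.L2) : ℂ → ℂ)
      =ᵐ[volume.restrict D.U] fun z => ∑ b ∈ s, β b * G' b z := by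
    intro s
    induction s using Finset.induction_on with
    | empty =>
      simp only [Finset.sum_empty]
      exact Lp.coeFn_zero _ _ _
    | insert a s ha ih =>
      rw [Finset.sum_insert ha]
      filter_upwards [Lp.coeFn_add (β a • G a) (∑ b ∈ s, β b • G b), ih, hG a,
        Lp.coeFn_smul (β a) (G a)] with z h1 h2 h3 h4
      rw [h1, Finset.sum_insert ha, Pi.add_apply, h2, h4, Pi.smul_apply, h3, smul_eq_mul]
  exact key Finset.univ

theorem e5e_hol2_sub {m : ℕ} {f : ℂ → ℂ} (hf : D.Hol2 f) (β : Fin m → ℂ) {G : Fin m → ℂ → ℂ}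
    (hG : ∀ b, D.Hol2 (G b)) : D.Hol2 (fun z => f z - ∑ b, β b * G b z) where
  diff := hf.diff.sub (DifferentiableOn.fun_sum fun b _ => (hG b).diff.const_mul (β b))
  memLp := hf.memLp.sub (memLp_finsetSum _ fun b _ => (hG b).memLp.const_mul (β b))

theorem e5e_triangle {m : ℕ} {f : ℂ → ℂ} (hf : D.Hol2 f) (β : Fin m → ℂ) {G : Fin m → ℂ → ℂ}
    (hG : ∀ b, D.Hol2 (G b)) :
    nrm2 D f ≤ nrm2 D (fun z => f z - ∑ b, β b * G b z) + ∑ b, ‖β b‖ * nrm2 D (G b) := by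
  set F : D.L2 := hf.memLp.toLp f with hF
  have hFa : (F : ℂ → ℂ) =ᵐ[volume.restrict D.U] f := MemLp.coeFn_toLp _
  set L : Fin m → D.L2 := fun b => (hG b).memLp.toLp (G b) with hL
  have hLa : ∀ b, (L b : ℂ → ℂ) =ᵐ[volume.restrict D.U] G b := fun b => MemLp.coeFn_toLp _
  have hs := e5e_comb_ae D β L hLa
  have hr : ((F - ∑ b, β b • L b : D.L2) : ℂ → ℂ) =ᵐ[volume.restrict D.U]
      fun z => f z - ∑ b, β b * G b z := by
    filter_upwards [Lp.coeFn_sub F (∑ b, β b • L b), hs, hFa] with z h1 h2 h3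
    rw [h1, Pi.sub_apply, h2, h3]
  have e1 : ‖F‖ = nrm2 D f := norm_eq_sqrt _ hFa
  have e2 : ∀ b, ‖L b‖ = nrm2 D (G b) := fun b => norm_eq_sqrt _ (hLa b)
  have e3 : ‖(F - ∑ b, β b • L b : D.L2)‖ = nrm2 D (fun z => f z - ∑ b, β b * G b z) :=
    norm_eq_sqrt _ hr
  have h4 : ‖F‖ ≤ ‖(F - ∑ b, β b • L b : D.L2)‖ + ∑ b, ‖β b • L b‖ := by
    have h5 : F = (F - ∑ b, β b • L b) + ∑ b, β b • L b := by abel
    calc ‖F‖ = ‖(F - ∑ b, β b • L b) + ∑ b, β b • L b‖ := by rw [← h5]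
      _ ≤ ‖(F - ∑ b, β b • L b : D.L2)‖ + ‖∑ b, β b • L b‖ := norm_add_le _ _
      _ ≤ _ := by gcongr; exact norm_sum_le _ _
  rw [e1, e3] at h4
  refine h4.trans (le_of_eq ?_)
  congr 1
  refine Finset.sum_congr rfl fun b _ => ?_
  rw [norm_smul, e2]

theorem e5e_intble {g ψ : ℂ → ℂ} (hg : D.Hol2 g) (hψ : ContinuousOn ψ D.cU) :
    Integrable (fun z => g z * ψ z) (volume.restrict D.U) := by
  obtain ⟨C, hC⟩ := D.cU_compact.exists_bound_of_continuousOn hψ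
  have hint : Integrable g (volume.restrict D.U) := hg.memLp.integrable (by norm_num)
  refine hint.mul_bdd (c := C) ((hψ.mono D.U_subset_cU).aestronglyMeasurable
    D.U_open.measurableSet) ?_
  filter_upwards [ae_restrict_mem D.U_open.measurableSet] with z hz
  exact hC z (D.U_subset_cU hz)

theorem e5e_int_lin {m : ℕ} {f ψ : ℂ → ℂ} (hf : D.Hol2 f) (β : Fin m → ℂ) {G : Fin m → ℂ → ℂ}
    (hG : ∀ b, D.Hol2 (G b)) (hψ : ContinuousOn ψ D.cU) :
    ∫ z in D.U, (f z - ∑ b, β b * G b z) * ψ z =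
      (∫ z in D.U, f z * ψ z) - ∑ b, β b * ∫ z in D.U, G b z * ψ z := by
  have e1 : ∀ z, (f z - ∑ b, β b * G b z) * ψ z = f z * ψ z - ∑ b, β b * (G b z * ψ z) := by
    intro z
    rw [sub_mul, Finset.sum_mul]
    congr 1
    exact Finset.sum_congr rfl fun b _ => by ring
  simp_rw [e1]
  rw [integral_sub (e5e_intble D hf hψ)
    (integrable_finsetSum _ fun b _ => (e5e_intble D (hG b) hψ).const_mul (β b)),
    integral_finsetSum _ fun b _ => (e5e_intble D (hG b) hψ).const_mul (β b)]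
  congr 1
  exact Finset.sum_congr rfl fun b _ => integral_const_mul _ _

/-- bound for the symbol -/
theorem e5e_symbol_bound (hδ : 0 < δ) (h : HM D τ δ) {ρ : ℂ → ℝ} (ps : PS D ρ ι) (Λ : ℝ) :
    ∃ C : ℝ, 0 ≤ C ∧ ∀ (N : ℝ) (y : ι → ℝ) (w : Fin k → ℂ), (∀ j, ‖w j‖ ≤ Λ) → ∀ z ∈ D.cU,
      ‖Complex.exp (lS h ps N y w z)‖ ≤ C := by
  have h1 : ∀ j, ∃ C : ℝ, ∀ z ∈ D.cU, ‖h.om j z‖ ≤ C := fun j =>
    D.cU_compact.exists_bound_of_continuousOn
      ((h.smooth j).continuousOn.mono (D.cU_subset_Ue hδ))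
  choose C hC using h1
  refine ⟨Real.exp (∑ j, |Λ| * |C j|), (Real.exp_pos _).le, fun N y w hw z hz => ?_⟩
  rw [Complex.norm_exp]
  apply Real.exp_le_exp.2
  have e1 : (lS h ps N y w z).re = (h.rhoC w z).re := by
    simp [lS]
  rw [e1]
  refine (Complex.re_le_norm _).trans ?_
  refine (norm_sum_le _ _).trans (Finset.sum_le_sum fun j _ => ?_)
  rw [norm_mul, Complex.norm_real]
  exact mul_le_mul ((hw j).trans (le_abs_self _)) ((hC j z hz).trans (le_abs_self _))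
    (norm_nonneg _) (abs_nonneg _)

theorem e5e_symbol_cont (hδ : 0 < δ) (hτ : D.Good τ) (h : HM D τ δ) {x : Fin k → ℝ}
    (ps : PS D (h.rho x) ι) (N : ℝ) (y : ι → ℝ) (w : Fin k → ℂ) :
    ContinuousOn (fun z => Complex.exp (lS h ps N y w z)) D.cU := by
  obtain ⟨hρ, hom, -⟩ := rho_facts h hτ hδ x w
  refine Complex.continuous_exp.comp_continuousOn ?_
  refine ContinuousOn.add (ContinuousOn.add ?_ ?_) (hom.continuousOn.mono (D.cU_subset_Ue hδ))
  · exact continuousOn_const.mul (Complex.continuous_ofReal.comp_continuousOn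
      (continuousOn_const.mul (hρ.continuousOn.mono (D.cU_subset_Ue hδ))))
  · refine continuousOn_const.mul (Complex.continuous_ofReal.comp_continuousOn ?_)
    exact continuousOn_finsetSum _ fun i _ =>
      continuousOn_const.mul (ps.smooth i).continuous.continuousOn

/-- Cramer's rule -/
theorem e5e_cramer {m : ℕ} (M : Matrix (Fin m) (Fin m) ℂ) (β e : Fin m → ℂ)
    (he : ∀ l, ∑ b, β b * M b l = e l) {A ε : ℝ} (hA : ∀ i j, ‖M.adjugate i j‖ ≤ A)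
    (hε : ∀ l, ‖e l‖ ≤ ε) (b : Fin m) : ‖β b‖ * ‖M.det‖ ≤ m * (ε * A) := by
  have h1 : Matrix.vecMul (Matrix.vecMul β M) M.adjugate = M.det • β := by
    rw [Matrix.vecMul_vecMul, Matrix.mul_adjugate, Matrix.vecMul_smul, Matrix.vecMul_one]
  have h2 : Matrix.vecMul β M = e := by
    funext l
    rw [← he l]
    rfl
  rw [h2] at h1
  have h3 : ∑ l, e l * M.adjugate l b = M.det * β b := by
    have := congrFun h1 b
    rw [Pi.smul_apply, smul_eq_mul] at this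
    rw [← this]
    rfl
  rw [mul_comm, ← norm_mul, ← h3]
  refine (norm_sum_le _ _).trans ?_
  have h4 : ∀ l ∈ (Finset.univ : Finset (Fin m)), ‖e l * M.adjugate l b‖ ≤ ε * A := by
    intro l _
    rw [norm_mul]
    exact mul_le_mul (hε l) (hA l b) (norm_nonneg _) ((norm_nonneg _).trans (hε l))
  refine (Finset.sum_le_card_nsmul _ _ _ h4).trans (le_of_eq ?_)
  simp

theorem e5e_adj_bound (m : ℕ) (B : ℝ) : ∃ A : ℝ, 0 ≤ A ∧ ∀ M : Matrix (Fin m) (Fin m) ℂ,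
    (∀ i j, ‖M i j‖ ≤ B) → ∀ i j, ‖M.adjugate i j‖ ≤ A := by
  set B' := max B 1 with hB'
  refine ⟨(m.factorial : ℝ) * B' ^ m, by positivity, fun M hM i j => ?_⟩
  rw [Matrix.adjugate_apply]
  have h1 := Matrix.det_le (A := M.updateRow j (Pi.single i 1))
    (abv := NormedField.toAbsoluteValue ℂ) (x := B') (by
      intro i' j'
      show ‖M.updateRow j (Pi.single i 1) i' j'‖ ≤ B'
      by_cases h : i' = j
      · subst h
        rw [Matrix.updateRow_self]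
        by_cases h' : j' = i
        · subst h'; simp [hB']
        · rw [Pi.single_eq_of_ne h', norm_zero]; exact zero_le_one.trans (le_max_right _ _)
      · rw [Matrix.updateRow_ne h]
        exact (hM i' j').trans (le_max_left _ _))
  have h2 : (NormedField.toAbsoluteValue ℂ)
      (Matrix.det (M.updateRow j (Pi.single i 1))) =
      ‖Matrix.det (M.updateRow j (Pi.single i 1))‖ := rfl
  rw [h2] at h1
  simpa using h1

/-- continuity in the parameter gives uniform bounds -/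
theorem e5e_unif {K : Set (Fin k → ℂ)} (hK : IsCompact K) (hδ : 0 < δ)
    {g : (Fin k → ℂ) → ℂ → ℂ}
    (hg : ContinuousOn (fun p : (Fin k → ℂ) × ℂ => g p.1 p.2) (K ×ˢ D.Ue δ)) :
    ∃ C : ℝ, 0 ≤ C ∧ ∀ t ∈ K, ∀ z ∈ D.cU, ‖g t z‖ ≤ C := by
  obtain ⟨C, hC⟩ := (hK.prod D.cU_compact).exists_bound_of_continuousOn
    (hg.mono (prod_mono subset_rfl (D.cU_subset_Ue hδ)))
  exact ⟨|C|, abs_nonneg _, fun t ht z hz => (hC (t, z) ⟨ht, hz⟩).trans (le_abs_self _)⟩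

theorem e5e_nrm_le {g : ℂ → ℂ} (hg : D.Hol2 g) {C : ℝ} (hC : 0 ≤ C) (h : ∀ z ∈ D.cU, ‖g z‖ ≤ C) :
    nrm2 D g ≤ Real.sqrt (volume.real D.U) * C := by
  have h1 : ∫ z in D.U, ‖g z‖ ^ 2 ≤ ∫ _z in D.U, C ^ 2 := by
    refine setIntegral_mono_on ?_ ?_ D.U_open.measurableSet ?_
    · exact (memLp_two_iff_integrable_sq_norm hg.memLp.1).1 hg.memLp
    · exact integrable_const _
    · intro z hz
      exact pow_le_pow_left₀ (norm_nonneg _) (h z (D.U_subset_cU hz)) 2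
  rw [setIntegral_const, smul_eq_mul] at h1
  refine (Real.sqrt_le_sqrt h1).trans (le_of_eq ?_)
  rw [Real.sqrt_mul measureReal_nonneg, Real.sqrt_sq hC]

/-- the functional `sfun` of a combination -/
theorem e5e_sfun_lin (hτ : D.Good τ) {m : ℕ} {f : ℂ → ℂ} (hf : D.Hol2 f) (β : Fin m → ℂ)
    {G : Fin m → ℂ → ℂ} (hG : ∀ b, D.Hol2 (G b)) (t : Fin k → ℂ) :
    sfun D τ t (fun z => f z - ∑ b, β b * G b z) =
      sfun D τ t f - ∑ b, β b * sfun D τ t (G b) := by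
  have hψ : ∀ i : Fin k, ContinuousOn (fun z => dzb (fun w => (D.chi τ (some i) w : ℂ)) z) D.cU := by
    intro i
    have h1 : ContDiff ℝ (⊤ : ℕ∞) (fun w => (D.chi τ (some i) w : ℂ)) :=
      Complex.ofRealCLM.contDiff.comp (chi_smooth D hτ.pos hτ.lt_R (some i))
    have h2 := (dz_contDiffOn (Y := ℂ) isOpen_univ h1.contDiffOn).2
    exact h2.continuousOn.mono (subset_univ _)
  unfold sfun
  have e1 : ∀ j, (t j - 1) * ∫ z in D.U, (f z - ∑ b, β b * G b z) *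
      dzb (fun w => (D.chi τ (some j) w : ℂ)) z =
      (t j - 1) * (∫ z in D.U, f z * dzb (fun w => (D.chi τ (some j) w : ℂ)) z) -
      ∑ b, β b * ((t j - 1) * ∫ z in D.U, G b z * dzb (fun w => (D.chi τ (some j) w : ℂ)) z) := by
    intro j
    rw [e5e_int_lin D hf β hG (hψ j), mul_sub, Finset.mul_sum]
    congr 1
    exact Finset.sum_congr rfl fun b _ => by ring
  simp_rw [e1]
  rw [Finset.sum_sub_distrib, Finset.sum_comm]
  congr 1
  exact Finset.sum_congr rfl fun b _ => by rw [Finset.mul_sum]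

theorem e5e_sfun_bound (hτ : D.Good τ) {K : Set (Fin k → ℂ)} (hK : IsCompact K) :
    ∃ C : ℝ, 0 ≤ C ∧ ∀ t ∈ K, ∀ g : ℂ → ℂ, D.Hol2 g → ‖sfun D τ t g‖ ≤ C * nrm2 D g := by
  obtain ⟨C₃, hC₃, h₃⟩ := c9b_dchi D hτ
  obtain ⟨T, hT⟩ := hK.exists_bound_of_continuousOn (f := fun t : Fin k → ℂ => t) continuousOn_id
  refine ⟨∑ _j : Fin k, (|T| + 1) * (C₃ * Real.sqrt (volume.real D.U)), by positivity,
    fun t ht g hg => ?_⟩
  unfold sfun
  rw [Finset.sum_mul]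
  refine (norm_sum_le _ _).trans (Finset.sum_le_sum fun j _ => ?_)
  rw [norm_mul]
  have h1 : ‖t j - 1‖ ≤ |T| + 1 := by
    refine (norm_sub_le _ _).trans ?_
    have h2 : ‖t j‖ ≤ |T| := ((norm_le_pi_norm t j).trans (hT t ht)).trans (le_abs_self _)
    simpa using h2
  have h2 := c9b_int_bound D hg hC₃ (h₃ j)
  rw [mul_assoc (|T| + 1)]
  refine mul_le_mul h1 (h2.trans (le_of_eq ?_)) (norm_nonneg _) (by positivity)
  unfold nrm2
  ring

end e5e

/-- the final absorption -/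
theorem e5e_absorb {F T C κ : ℝ} {Kn : ℕ} (hF : 0 ≤ F) (hT : 0 ≤ T) (hκ : 0 ≤ κ)
    (hKn : κ + 1 ≤ Kn) {N : ℝ} (hN1 : 1 ≤ N) (hN : 2 * C ≤ N)
    (h : F ≤ C * N ^ κ * (N * T + F / N ^ Kn)) (hC : 0 ≤ C) : F ≤ N ^ (κ + 2) * T := by
  have hN0 : 0 < N := by linarith
  have e1 : N ^ κ * N = N ^ (κ + 1) := by rw [Real.rpow_add hN0, Real.rpow_one]
  have e2 : N ^ κ / N ^ Kn ≤ 1 / N := by
    rw [div_le_div_iff₀ (pow_pos hN0 _) hN0, one_mul, e1, ← Real.rpow_natCast]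
    exact Real.rpow_le_rpow_of_exponent_le hN1 hKn
  have e3 : C * N ^ κ * (N * T + F / N ^ Kn) = C * N ^ (κ + 1) * T + C * (N ^ κ / N ^ Kn) * F := by
    rw [← e1]; ring
  have e4 : C * (N ^ κ / N ^ Kn) * F ≤ C * (1 / N) * F := by gcongr
  have e5 : C * (1 / N) ≤ 1 / 2 := by
    rw [mul_one_div, div_le_div_iff₀ hN0 two_pos]
    linarith
  have e6 : C * (1 / N) * F ≤ 1 / 2 * F := by gcongr
  have e7 : F ≤ 2 * C * N ^ (κ + 1) * T := by linarith
  have e8 : N ^ (κ + 2) = N * N ^ (κ + 1) := by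
    rw [show κ + 2 = 1 + (κ + 1) by ring, Real.rpow_add hN0, Real.rpow_one]
  rw [e8]
  refine e7.trans ?_
  have : 0 ≤ N ^ (κ + 1) := Real.rpow_nonneg hN0.le _
  gcongr

theorem e5e_const {α : Type} [Fintype α] {P : α → ℝ → Prop}
    (hP : ∀ i C C', C ≤ C' → P i C → P i C') (h : ∀ i, ∃ C, P i C) :
    ∃ C, 0 ≤ C ∧ ∀ i, P i C := by
  choose C hC using h
  exact ⟨∑ i, |C i|, Finset.sum_nonneg fun i _ => abs_nonneg _, fun i => hP i _ _
    ((le_abs_self _).trans (Finset.single_le_sum (f := fun i => |C i|) (fun i _ => abs_nonneg _)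
      (Finset.mem_univ i))) (hC i)⟩

theorem toe_lower {n : ℕ} {D : CD (n + 1)} {τ δ : ℝ} {ι : Type} [Fintype ι] [DecidableEq ι]
    (hτ : D.Good τ) (hδ : 0 < δ) (hδτ : δ ≤ τ) (h : HM D τ δ) {x : Fin (n + 1) → ℝ} (hx : x ≠ 0)
    (ps : PS D (h.rho x) ι) {z₀ : ℂ} (hz₀ : z₀ ∈ D.U) {K : Set (Fin (n + 1) → ℂ)}
    (hK : IsCompact K) (hK0 : ∀ t ∈ K, ∀ j, t j ≠ 0)
    {g : Fin (n + 1) → (Fin (n + 1) → ℂ) → ℂ → ℂ}
    (hg : ∀ b, ContinuousOn (fun p : (Fin (n + 1) → ℂ) × ℂ => g b p.1 p.2) (K ×ˢ D.Ue δ))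
    (hg' : ∀ b, ∀ t ∈ K, DifferentiableOn ℂ (g b t) (D.Ue δ)) {C₀ : ℝ}
    (hframe : ∀ t ∈ K, ∀ f : ℂ → ℂ, D.Hol2 f → ∀ M : ℝ, 0 ≤ M →
        (∀ l m x, ‖D.Lt τ t f (D.comb z₀ l m x)‖ ≤
          M * Real.sqrt (∑ n ∈ Finset.range m, (n + 1) * ‖x n‖ ^ 2)) →
        Real.sqrt (∫ z in D.U, ‖f z - ∑ b, D.coef τ (some b) 0 f * g b t z‖ ^ 2) ≤ C₀ * M)
    {q : Fin n → ℂ → ℂ} (hq : ∀ l, DifferentiableOn ℂ (q l) (D.Ue δ)) (Λ κ c : ℝ) (hc : 0 < c) :
    ∃ N₀ K' : ℝ, ∀ N : ℝ, N₀ ≤ N → ∀ (y φ : ι → ℝ) (w : Fin (n + 1) → ℂ), (∀ i, |y i| ≤ Λ) →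
      (∀ j, ‖w j‖ ≤ Λ) →
      Complex.exp (Complex.I * (N * ps.c (ps.bd none) + y (ps.bd none) : ℝ)) = 1 →
      (∀ i, Complex.exp (Complex.I * (N * ps.c i + y i : ℝ)) = Complex.exp (Complex.I * φ i)) →
      ∀ t ∈ K, (∀ j, t j = Complex.exp (Complex.I *
        (N * ps.c (ps.bd (some j)) + y (ps.bd (some j)) : ℝ) + w j)) →
      c * N ^ (-κ) ≤ ‖Fdet (fun b l => Bv h ps N φ w (g b t) (q l))
        (fun b => sfun D τ t (g b t))‖ →
      ∀ f : D.Berg, ‖f‖ ≤ N ^ K' * ‖D.Toe (fun z => Complex.exp (lS h ps N y w z)) f‖ := by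
  classical
  set κ' := max κ 0 with hκ'
  have hκ0 : 0 ≤ κ' := le_max_right _ _
  set Kn : ℕ := ⌈κ'⌉₊ + 1 with hKn
  have hKn' : κ' + 1 ≤ Kn := by
    rw [hKn]; push_cast
    have := Nat.le_ceil κ'
    linarith
  obtain ⟨C1, hC1, h1⟩ := toe_test_bound hτ hδ hδτ h hx ps hz₀ Λ Kn
  -- virtual approximation
  have h2 : ∃ C2 : ℝ, 0 ≤ C2 ∧ ∀ bl : Fin (n + 1) × Fin n, ∀ N : ℝ, 1 ≤ N →
      ∀ (y φ : ι → ℝ) (w : Fin (n + 1) → ℂ), (∀ i, |y i| ≤ Λ) → (∀ j, ‖w j‖ ≤ Λ) →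
      (∀ i, Complex.exp (Complex.I * (N * ps.c i + y i : ℝ)) = Complex.exp (Complex.I * φ i)) →
      ∀ t ∈ K, ‖(∫ z in D.U, Complex.exp (lS h ps N y w z) * g bl.1 t z * conj (q bl.2 z)) -
        Bv h ps N φ w (g bl.1 t) (q bl.2)‖ ≤ C2 / N ^ Kn := by
    refine e5e_const (P := fun (bl : Fin (n + 1) × Fin n) (C : ℝ) => ∀ N : ℝ, 1 ≤ N →
      ∀ (y φ : ι → ℝ) (w : Fin (n + 1) → ℂ), (∀ i, |y i| ≤ Λ) → (∀ j, ‖w j‖ ≤ Λ) →
      (∀ i, Complex.exp (Complex.I * (N * ps.c i + y i : ℝ)) = Complex.exp (Complex.I * φ i)) →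
      ∀ t ∈ K, ‖(∫ z in D.U, Complex.exp (lS h ps N y w z) * g bl.1 t z * conj (q bl.2 z)) -
        Bv h ps N φ w (g bl.1 t) (q bl.2)‖ ≤ C / N ^ Kn) ?_ ?_
    · intro bl C C' hCC hP N hN y φ w hy hw hyφ t ht
      refine (hP N hN y φ w hy hw hyφ t ht).trans ?_
      have : (0 : ℝ) < N ^ Kn := by positivity
      gcongr
    · rintro ⟨b, l⟩
      haveI : CompactSpace K := isCompact_iff_compactSpace.1 hK
      obtain ⟨C, hC⟩ := virtual_approx hτ hδ hδτ h hx ps Λ Kn (K := K)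
        (g := fun u : K => g b (u : Fin (n + 1) → ℂ)) (by
          refine (hg b).comp (f := fun p : K × ℂ => ((p.1 : Fin (n + 1) → ℂ), p.2))
            (by fun_prop) ?_
          intro p hp
          exact ⟨p.1.2, hp.2⟩) (fun u => hg' b u u.2) (hq l)
      exact ⟨C, fun N hN y φ w hy hw hyφ t ht => hC N hN y φ w hy hw hyφ ⟨t, ht⟩⟩
  obtain ⟨C2, hC2, h2⟩ := h2
  have h3 : ∃ C3 : ℝ, 0 ≤ C3 ∧ ∀ b : Fin (n + 1), ∀ f : ℂ → ℂ, D.Hol2 f →
      ‖D.coef τ (some b) 0 f‖ ≤ C3 * nrm2 D f := by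
    refine e5e_const (P := fun b C => ∀ f : ℂ → ℂ, D.Hol2 f →
      ‖D.coef τ (some b) 0 f‖ ≤ C * nrm2 D f) ?_ ?_
    · intro b C C' hCC hP f hf
      exact (hP f hf).trans (mul_le_mul_of_nonneg_right hCC (nrm2_nonneg D f))
    · intro b
      exact coef_bound D hτ (some b) 0
  obtain ⟨C3, hC3, h3⟩ := h3
  obtain ⟨S0, hS0, hS⟩ := e5e_symbol_bound D hδ h ps Λ
  have hQ : ∃ Q0 : ℝ, 0 ≤ Q0 ∧ ∀ l : Fin n, ∀ z ∈ D.cU, ‖q l z‖ ≤ Q0 :=
    e5e_const (P := fun l C => ∀ z ∈ D.cU, ‖q l z‖ ≤ C)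
      (fun l C C' hCC hP z hz => (hP z hz).trans hCC)
      (fun l => D.cU_compact.exists_bound_of_continuousOn
        ((hq l).continuousOn.mono (D.cU_subset_Ue hδ)))
  obtain ⟨Q0, hQ0, hQ⟩ := hQ
  have hG : ∃ G0 : ℝ, 0 ≤ G0 ∧ ∀ b : Fin (n + 1), ∀ t ∈ K, ∀ z ∈ D.cU, ‖g b t z‖ ≤ G0 :=
    e5e_const (P := fun b C => ∀ t ∈ K, ∀ z ∈ D.cU, ‖g b t z‖ ≤ C)
      (fun l C C' hCC hP t ht z hz => (hP t ht z hz).trans hCC)
      (fun b => by
        obtain ⟨C, -, hC⟩ := e5e_unif D hK hδ (hg b)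
        exact ⟨C, hC⟩)
  obtain ⟨G0, hG0, hG⟩ := hG
  obtain ⟨Cs, hCs, hs⟩ := e5e_sfun_bound D hτ hK
  set V := Real.sqrt (volume.real D.U) with hV
  have hV0 : 0 ≤ V := Real.sqrt_nonneg _
  obtain ⟨A, hA0, hA⟩ := e5e_adj_bound (n + 1)
    (S0 * Q0 * (V * (V * G0)) + C2 + Cs * (V * G0))
  set R0 : ℝ := |C₀| * C1 with hR0
  have hR00 : 0 ≤ R0 := by positivity
  set C4 : ℝ := V * Q0 + S0 * Q0 * (V * R0) + (n + 1) * (C3 * C2) + C1 + Cs * R0 with hC4
  have hC40 : 0 ≤ C4 := by positivity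
  set C6 : ℝ := (n + 1) * (C4 * A) / c with hC6
  have hC60 : 0 ≤ C6 := by positivity
  set C5 : ℝ := R0 + (n + 1) * (C6 * (V * G0)) with hC5
  have hC50 : 0 ≤ C5 := by positivity
  have hGhol : ∀ b, ∀ t ∈ K, D.Hol2 (g b t) := fun b t ht =>
    hol2_of_nhds D (D.Ue_open δ) (D.cU_subset_Ue hδ) (hg' b t ht)
  refine ⟨max 1 (2 * C5), κ' + 2, fun N hN y φ w hy hw hy0 hyφ t ht htw hdet f => ?_⟩
  have hN1 : 1 ≤ N := (le_max_left _ _).trans hN
  have hN2 : 2 * C5 ≤ N := (le_max_right _ _).trans hN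
  have hN0 : 0 < N := by linarith
  have hNK : (0 : ℝ) < N ^ Kn := pow_pos hN0 _
  set S : ℂ → ℂ := fun z => Complex.exp (lS h ps N y w z) with hSdef
  have hScont : ContinuousOn S D.cU := e5e_symbol_cont D hδ hτ h ps N y w
  obtain ⟨f', hf', ef⟩ := berg_rep D f.2
  set F := ‖f‖ with hF
  set T := ‖D.Toe S f‖ with hT
  have hF0 : 0 ≤ F := norm_nonneg _
  have hT0 : 0 ≤ T := norm_nonneg _
  have hFf : F = nrm2 D f' := norm_eq_sqrt _ ef
  set ε := N * T + F / N ^ Kn with hε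
  have hε0 : 0 ≤ ε := by positivity
  have hTε : T ≤ ε := by
    have e1 : T ≤ N * T := le_mul_of_one_le_left hT0 hN1
    have e2 : 0 ≤ F / N ^ Kn := by positivity
    linarith
  have hFε : F / N ^ Kn ≤ ε := by
    have e1 : 0 ≤ N * T := by positivity
    linarith
  obtain ⟨ha, hb⟩ := h1 N hN1 y w hy hw hy0 f f' hf' ef t htw
  set β : Fin (n + 1) → ℂ := fun b => D.coef τ (some b) 0 f' with hβ
  set r : ℂ → ℂ := fun z => f' z - ∑ b, β b * g b t z with hr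
  have hrhol : D.Hol2 r := e5e_hol2_sub D hf' β (fun b => hGhol b t ht)
  have hrn : nrm2 D r ≤ R0 * ε := by
    have e1 := hframe t ht f' hf' (C1 * ε) (by positivity) ha
    refine e1.trans ?_
    have e2 : C₀ * (C1 * ε) ≤ |C₀| * (C1 * ε) :=
      mul_le_mul_of_nonneg_right (le_abs_self _) (by positivity)
    refine e2.trans (le_of_eq ?_)
    rw [hR0]; ring
  have hβb : ∀ b, ‖β b‖ ≤ C3 * F := fun b => by
    rw [hFf]; exact h3 b f' hf'
  -- the matrix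
  set M : Matrix (Fin (n + 1)) (Fin (n + 1)) ℂ := Matrix.of fun b l =>
    Fin.snoc (α := fun _ => ℂ) (fun l => Bv h ps N φ w (g b t) (q l)) (sfun D τ t (g b t)) l
    with hM
  have hMlast : ∀ b, M b (Fin.last n) = sfun D τ t (g b t) := fun b => by
    rw [hM, Matrix.of_apply, Fin.snoc_last]
  have hMcast : ∀ b (l : Fin n), M b l.castSucc = Bv h ps N φ w (g b t) (q l) := fun b l => by
    rw [hM, Matrix.of_apply, Fin.snoc_castSucc]
  -- bounds for integrals against the tests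
  set ψ : Fin n → ℂ → ℂ := fun l z => S z * conj (q l z) with hψ
  have hψc : ∀ l, ContinuousOn (ψ l) D.cU := fun l =>
    hScont.mul (Complex.continuous_conj.comp_continuousOn
      ((hq l).continuousOn.mono (D.cU_subset_Ue hδ)))
  have hψb : ∀ l, ∀ z ∈ D.U, ‖ψ l z‖ ≤ S0 * Q0 := fun l z hz => by
    rw [hψ]
    simp only [norm_mul, RCLike.norm_conj]
    exact mul_le_mul (hS N y w hw z (D.U_subset_cU hz)) (hQ l z (D.U_subset_cU hz))
      (norm_nonneg _) hS0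
  have hψi : ∀ l (u : ℂ → ℂ), D.Hol2 u → ‖∫ z in D.U, u z * ψ l z‖ ≤ S0 * Q0 * (V * nrm2 D u) :=
    fun l u hu => c9b_int_bound D hu (by positivity) (hψb l)
  have hint : ∀ l (u : ℂ → ℂ), ∫ z in D.U, Complex.exp (lS h ps N y w z) * u z * conj (q l z) =
      ∫ z in D.U, u z * ψ l z := by
    intro l u
    congr 1
    funext z
    rw [hψ, hSdef]
    ring
  have hva : ∀ b l, ‖(∫ z in D.U, g b t z * ψ l z) - M b l.castSucc‖ ≤ C2 / N ^ Kn := by
    intro b l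
    rw [hMcast, ← hint]
    exact h2 (b, l) N hN1 y φ w hy hw hyφ t ht
  have hGn : ∀ b, nrm2 D (g b t) ≤ V * G0 := fun b =>
    e5e_nrm_le D (hGhol b t ht) hG0 (hG b t ht)
  -- bound for the entries
  have hMb : ∀ b l, ‖M b l‖ ≤ S0 * Q0 * (V * (V * G0)) + C2 + Cs * (V * G0) := by
    intro b l
    refine Fin.lastCases ?_ (fun l => ?_) l
    · rw [hMlast]
      have e1 := hs t ht (g b t) (hGhol b t ht)
      have e2 : Cs * nrm2 D (g b t) ≤ Cs * (V * G0) := mul_le_mul_of_nonneg_left (hGn b) hCs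
      have e3 : 0 ≤ S0 * Q0 * (V * (V * G0)) := by positivity
      linarith
    · have e1 := hva b l
      have e2 := hψi l (g b t) (hGhol b t ht)
      have e3 : ‖M b l.castSucc‖ ≤ ‖∫ z in D.U, g b t z * ψ l z‖ +
          ‖(∫ z in D.U, g b t z * ψ l z) - M b l.castSucc‖ := by
        have e4 : M b l.castSucc = (∫ z in D.U, g b t z * ψ l z) -
          ((∫ z in D.U, g b t z * ψ l z) - M b l.castSucc) := by ring
        calc ‖M b l.castSucc‖ = ‖(∫ z in D.U, g b t z * ψ l z) -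
          ((∫ z in D.U, g b t z * ψ l z) - M b l.castSucc)‖ := by rw [← e4]
          _ ≤ _ := norm_sub_le _ _
      have e5 : S0 * Q0 * (V * nrm2 D (g b t)) ≤ S0 * Q0 * (V * (V * G0)) := by
        have := hGn b
        gcongr
      have e6 : C2 / N ^ Kn ≤ C2 := div_le_self hC2 (one_le_pow₀ hN1)
      have e7 : 0 ≤ Cs * (V * G0) := by positivity
      linarith
  -- the right sides
  set e : Fin (n + 1) → ℂ := fun l => ∑ b, β b * M b l with he
  have heb : ∀ l, ‖e l‖ ≤ C4 * ε := by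
    intro l
    have p1 : 0 ≤ V * Q0 * ε := by positivity
    have p2 : 0 ≤ S0 * Q0 * (V * R0) * ε := by positivity
    have p3 : 0 ≤ ((n : ℝ) + 1) * (C3 * C2) * ε := by positivity
    have p4 : 0 ≤ C1 * ε := by positivity
    have p5 : 0 ≤ Cs * R0 * ε := by positivity
    have hsum : C4 * ε = V * Q0 * ε + S0 * Q0 * (V * R0) * ε + ((n : ℝ) + 1) * (C3 * C2) * ε +
        C1 * ε + Cs * R0 * ε := by rw [hC4]; ring
    rw [hsum]
    refine Fin.lastCases ?_ (fun l => ?_) l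
    · have e1 : e (Fin.last n) = sfun D τ t f' - sfun D τ t r := by
        rw [hr, e5e_sfun_lin D hτ hf' β (fun b => hGhol b t ht) t, sub_sub_cancel, he]
        exact Finset.sum_congr rfl fun b _ => by rw [hMlast]
      rw [e1]
      have e2 := norm_sub_le (sfun D τ t f') (sfun D τ t r)
      have e3 := hs t ht r hrhol
      have e4 : Cs * nrm2 D r ≤ Cs * R0 * ε := by
        rw [mul_assoc]
        exact mul_le_mul_of_nonneg_left hrn hCs
      linarith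
    · have e1 : e l.castSucc = (∫ z in D.U, f' z * ψ l z) - (∫ z in D.U, r z * ψ l z) -
          ∑ b, β b * ((∫ z in D.U, g b t z * ψ l z) - M b l.castSucc) := by
        have e2 := e5e_int_lin D hf' β (fun b => hGhol b t ht) (hψc l)
        rw [hr, e2, sub_sub_cancel, he, ← Finset.sum_sub_distrib]
        exact Finset.sum_congr rfl fun b _ => by ring
      rw [e1]
      have e3 := norm_sub_le ((∫ z in D.U, f' z * ψ l z) - (∫ z in D.U, r z * ψ l z))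
        (∑ b, β b * ((∫ z in D.U, g b t z * ψ l z) - M b l.castSucc))
      have e4 := norm_sub_le (∫ z in D.U, f' z * ψ l z) (∫ z in D.U, r z * ψ l z)
      have e5 : ‖∫ z in D.U, f' z * ψ l z‖ ≤ V * Q0 * ε := by
        have hqh : D.Hol2 (q l) := hol2_of_nhds D (D.Ue_open δ) (D.cU_subset_Ue hδ) (hq l)
        have hqb : (hqh.memLp.toLp (q l) : D.L2) ∈ D.Berg :=
          berg_of_hol2 D hqh (MemLp.coeFn_toLp _)
        obtain ⟨G, hGG⟩ : ∃ G : D.Berg, (G : D.L2) = hqh.memLp.toLp (q l) := ⟨⟨_, hqb⟩, rfl⟩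
        have hGa : ((G : D.L2) : ℂ → ℂ) =ᵐ[volume.restrict D.U] q l := by
          rw [hGG]; exact MemLp.coeFn_toLp _
        have i1 := inner_Toe hScont f G ef hGa
        have i2 : ‖G‖ ≤ V * Q0 := by
          have : ‖G‖ = nrm2 D (q l) := norm_eq_sqrt _ hGa
          rw [this]
          exact e5e_nrm_le D hqh hQ0 (hQ l)
        have i3 := norm_inner_le_norm (𝕜 := ℂ) G (D.Toe S f)
        rw [i1] at i3
        have i4 : ∫ z in D.U, S z * f' z * conj (q l z) = ∫ z in D.U, f' z * ψ l z :=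
          hint l f'
        rw [i4] at i3
        refine i3.trans ?_
        exact mul_le_mul i2 hTε (norm_nonneg _) (by positivity)
      have e6 : ‖∫ z in D.U, r z * ψ l z‖ ≤ S0 * Q0 * (V * R0) * ε := by
        refine (hψi l r hrhol).trans ?_
        have : S0 * Q0 * (V * R0) * ε = S0 * Q0 * (V * (R0 * ε)) := by ring
        rw [this]
        gcongr
      have e7 : ‖∑ b, β b * ((∫ z in D.U, g b t z * ψ l z) - M b l.castSucc)‖ ≤
          ((n : ℝ) + 1) * (C3 * C2) * ε := by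
        have j1 : ∀ b ∈ (Finset.univ : Finset (Fin (n + 1))),
            ‖β b * ((∫ z in D.U, g b t z * ψ l z) - M b l.castSucc)‖ ≤ C3 * C2 * ε := by
          intro b _
          rw [norm_mul]
          have j2 : ‖β b‖ * ‖(∫ z in D.U, g b t z * ψ l z) - M b l.castSucc‖ ≤
              (C3 * F) * (C2 / N ^ Kn) :=
            mul_le_mul (hβb b) (hva b l) (norm_nonneg _) (by positivity)
          refine j2.trans ?_
          have j3 : (C3 * F) * (C2 / N ^ Kn) = C3 * C2 * (F / N ^ Kn) := by ring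
          rw [j3]
          gcongr
        refine (norm_sum_le _ _).trans ((Finset.sum_le_card_nsmul _ _ _ j1).trans (le_of_eq ?_))
        simp
        ring
      linarith
  have hcr := e5e_cramer M β e (fun l => rfl) (hA M hMb) heb
  have hdet' : c * N ^ (-κ') ≤ ‖M.det‖ := by
    refine le_trans ?_ hdet
    have : N ^ (-κ') ≤ N ^ (-κ) :=
      Real.rpow_le_rpow_of_exponent_le hN1 (neg_le_neg (le_max_left _ _))
    gcongr
  have hNκ : 0 < N ^ κ' := Real.rpow_pos_of_pos hN0 _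
  have hNκ1 : 1 ≤ N ^ κ' := Real.one_le_rpow hN1 hκ0
  have hβ2 : ∀ b, ‖β b‖ ≤ C6 * (N ^ κ' * ε) := by
    intro b
    have i1 := hcr b
    have i2 : ‖β b‖ * (c * N ^ (-κ')) ≤ ((n + 1 : ℕ) : ℝ) * (C4 * ε * A) :=
      (mul_le_mul_of_nonneg_left hdet' (norm_nonneg _)).trans i1
    rw [Real.rpow_neg hN0.le, ← div_eq_mul_inv, ← mul_div_assoc, div_le_iff₀ hNκ,
      ← le_div_iff₀ hc] at i2
    refine i2.trans (le_of_eq ?_)
    rw [hC6]
    push_cast
    ring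
  refine e5e_absorb hF0 hT0 hκ0 hKn' hN1 hN2 ?_ hC50
  have htri := e5e_triangle D hf' β (fun b => hGhol b t ht)
  rw [← hFf] at htri
  refine htri.trans ?_
  have k1 : ∑ b, ‖β b‖ * nrm2 D (g b t) ≤ (n + 1) * (C6 * (V * G0)) * (N ^ κ' * ε) := by
    have j1 : ∀ b ∈ (Finset.univ : Finset (Fin (n + 1))),
        ‖β b‖ * nrm2 D (g b t) ≤ C6 * (V * G0) * (N ^ κ' * ε) := by
      intro b _
      have j2 := mul_le_mul (hβ2 b) (hGn b) (nrm2_nonneg _ _) (by positivity)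
      refine j2.trans (le_of_eq ?_)
      ring
    refine (Finset.sum_le_card_nsmul _ _ _ j1).trans (le_of_eq ?_)
    simp
    ring
  have k2 : nrm2 D r ≤ R0 * (N ^ κ' * ε) := by
    refine hrn.trans ?_
    have : ε ≤ N ^ κ' * ε := le_mul_of_one_le_left hε0 hNκ1
    gcongr
  have k3 : C5 * N ^ κ' * ε = R0 * (N ^ κ' * ε) + (n + 1) * (C6 * (V * G0)) * (N ^ κ' * ε) := by
    rw [hC5]; ring
  show nrm2 D r + _ ≤ C5 * N ^ κ' * ε
  rw [k3]
  linarith

end Pool.Agent.Helper7.KE
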