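import Pool.Agent.Helper7.KE.Defs

set_option autoImplicit false

open MeasureTheory Set Filter Asymptotics Topology Metric
open scoped ComplexConjugate ENNReal

namespace Pool.Agent.Helper7.KE

/-- the inverse of a unit with a lower bound -/
private theorem norm_inverse_le {E : Type*} [NormedAddCommGroup E] [NormedSpace ℂ E]
    {B : E →L[ℂ] E} {M : ℝ} (hM : 0 ≤ M) (hB : IsUnit B) (hb : ∀ f : E, ‖f‖ ≤ M * ‖B f‖) :
    ‖Ring.inverse B‖ ≤ M := by
  refine ContinuousLinearMap.opNorm_le_bound _ hM fun f => ?_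
  have h1 : B * Ring.inverse B = 1 := Ring.mul_inverse_cancel _ hB
  have h2 : B (Ring.inverse B f) = f := by
    have : (B * Ring.inverse B) f = (1 : E →L[ℂ] E) f := by rw [h1]
    simpa using this
  have h3 := hb (Ring.inverse B f)
  rwa [h2] at h3

/-- a perturbation of a unit -/
private theorem isUnit_of_near {E : Type*} [NormedAddCommGroup E] [NormedSpace ℂ E]
    [CompleteSpace E] [Nontrivial E]
    {B B' : E →L[ℂ] E} {M : ℝ} (hM : 0 < M) (hB : IsUnit B) (hb : ‖Ring.inverse B‖ ≤ M)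
    (hn : ‖B' - B‖ * M < 1) : IsUnit B' := by
  obtain ⟨u, rfl⟩ := hB
  rw [Ring.inverse_unit] at hb
  have hpos : 0 < ‖(↑u⁻¹ : E →L[ℂ] E)‖ := by
    rw [norm_pos_iff]
    exact u⁻¹.ne_zero
  have h : ‖B' - u‖ < ‖(↑u⁻¹ : E →L[ℂ] E)‖⁻¹ := by
    rw [← one_div, lt_div_iff₀ hpos]
    exact lt_of_le_of_lt (mul_le_mul_of_nonneg_left hb (norm_nonneg _)) hn
  exact ⟨u.ofNearby B' h, rfl⟩

theorem homotopy {E : Type*} [NormedAddCommGroup E] [NormedSpace ℂ E] [CompleteSpace E]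
    (A₀ A₁ A₂ : E →L[ℂ] E) {r M : ℝ} (hr : 0 < r)
    (h1 : ∀ μ : ℂ, ‖μ‖ ≤ r → IsUnit (A₀ + A₁ + μ • A₂))
    (h2 : ∀ s : ℝ, 0 ≤ s → s ≤ 1 → ∀ μ : ℂ, ‖μ‖ = r → ∀ f : E,
      ‖f‖ ≤ M * ‖(A₀ + (s : ℂ) • A₁ + μ • A₂) f‖) :
    ∀ f : E, ‖f‖ ≤ M * ‖A₀ f‖ := by
  rcases subsingleton_or_nontrivial E with hE | hE
  · intro f
    have h0 : f = 0 := Subsingleton.elim _ _
    simp [h0]
  -- `M` is positive
  have hM : 0 < M := by
    obtain ⟨f, hf⟩ := exists_ne (0 : E)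
    have h3 := h2 0 le_rfl zero_le_one (r : ℂ) (by simp [abs_of_pos hr]) f
    have h4 : 0 < ‖f‖ := norm_pos_iff.2 hf
    by_contra hM
    have h5 : M * ‖(A₀ + ((0 : ℝ) : ℂ) • A₁ + (r : ℂ) • A₂) f‖ ≤ 0 :=
      mul_nonpos_of_nonpos_of_nonneg (not_lt.1 hM) (norm_nonneg _)
    linarith
  -- the bound on the disc
  have key : ∀ s : ℝ, 0 ≤ s → s ≤ 1 →
      (∀ μ : ℂ, ‖μ‖ ≤ r → IsUnit (A₀ + (s : ℂ) • A₁ + μ • A₂)) →
      ∀ μ : ℂ, ‖μ‖ ≤ r → ‖Ring.inverse (A₀ + (s : ℂ) • A₁ + μ • A₂)‖ ≤ M := by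
    intro s hs0 hs1 hu μ hμ
    have hd : ∀ z ∈ closedBall (0 : ℂ) r, DifferentiableAt ℂ
        (fun μ : ℂ => Ring.inverse (A₀ + (s : ℂ) • A₁ + μ • A₂)) z := by
      intro z hz
      have hz' : ‖z‖ ≤ r := by simpa using hz
      have h3 : DifferentiableAt ℂ (fun μ : ℂ => A₀ + (s : ℂ) • A₁ + μ • A₂) z := by fun_prop
      exact DifferentiableAt.comp z (differentiableAt_inverse (hu z hz')) h3
    have hdc : DiffContOnCl ℂ (fun μ : ℂ => Ring.inverse (A₀ + (s : ℂ) • A₁ + μ • A₂))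
        (ball (0 : ℂ) r) := by
      refine ⟨fun z hz => (hd z (ball_subset_closedBall hz)).differentiableWithinAt, ?_⟩
      intro z hz
      rw [closure_ball _ hr.ne'] at hz
      exact (hd z hz).continuousAt.continuousWithinAt
    refine Complex.norm_le_of_forall_mem_frontier_norm_le isBounded_ball hdc ?_
      (by rw [closure_ball _ hr.ne']; simpa using hμ)
    intro z hz
    rw [frontier_ball _ hr.ne'] at hz
    have hz' : ‖z‖ = r := by simpa using hz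
    exact norm_inverse_le hM.le (hu z hz'.le) (h2 s hs0 hs1 z hz')
  -- the step
  obtain ⟨n, hn⟩ := exists_nat_gt (‖A₁‖ * M)
  have hn0 : (0 : ℝ) < n := lt_of_le_of_lt (mul_nonneg (norm_nonneg _) hM.le) hn
  have step : ∀ m : ℕ, ∀ s : ℝ, 0 ≤ s → s ≤ 1 → 1 - m / n ≤ s →
      ∀ μ : ℂ, ‖μ‖ ≤ r → IsUnit (A₀ + (s : ℂ) • A₁ + μ • A₂) := by
    intro m
    induction m with
    | zero =>
      intro s hs0 hs1 hs μ hμ
      have h3 : s = 1 := le_antisymm hs1 (by simpa using hs)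
      subst h3
      simpa using h1 μ hμ
    | succ m ih =>
      intro s hs0 hs1 hs μ hμ
      set s' : ℝ := min 1 (s + 1 / n) with hs'
      have hs'1 : s' ≤ 1 := min_le_left _ _
      have hs's : s ≤ s' := le_min hs1 (by linarith [div_pos one_pos hn0])
      have hs'0 : 0 ≤ s' := hs0.trans hs's
      have hs'n : s' - s ≤ 1 / n := by linarith [min_le_right 1 (s + 1 / n)]
      have h3 : 1 - (m : ℝ) / n ≤ s' := by
        refine le_min ?_ ?_
        · have : 0 ≤ (m : ℝ) / n := by positivity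
          linarith
        · push_cast at hs
          rw [add_div] at hs
          linarith
      have hu := ih s' hs'0 hs'1 h3
      refine isUnit_of_near hM (hu μ hμ) (key s' hs'0 hs'1 hu μ hμ) ?_
      have h4 : A₀ + (s : ℂ) • A₁ + μ • A₂ - (A₀ + (s' : ℂ) • A₁ + μ • A₂) =
          ((s - s' : ℝ) : ℂ) • A₁ := by
        push_cast
        rw [sub_smul]
        abel
      rw [h4, norm_smul, Complex.norm_real, Real.norm_eq_abs]
      have h5 : |s - s'| ≤ 1 / n := by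
        rw [abs_sub_comm, abs_of_nonneg (by linarith)]
        exact hs'n
      calc |s - s'| * ‖A₁‖ * M ≤ 1 / n * ‖A₁‖ * M := by gcongr
        _ = (‖A₁‖ * M) / n := by ring
        _ < 1 := by rw [div_lt_one hn0]; exact hn
  have hu0 : ∀ μ : ℂ, ‖μ‖ ≤ r → IsUnit (A₀ + ((0 : ℝ) : ℂ) • A₁ + μ • A₂) := by
    refine step n 0 le_rfl zero_le_one ?_
    rw [div_self hn0.ne']
    simp
  have h3 := key 0 le_rfl zero_le_one hu0 0 (by simpa using hr.le)
  have h4 := hu0 0 (by simpa using hr.le)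
  simp only [Complex.ofReal_zero, zero_smul, add_zero] at h3 h4
  intro f
  have h5 : Ring.inverse A₀ * A₀ = 1 := Ring.inverse_mul_cancel _ h4
  have h6 : Ring.inverse A₀ (A₀ f) = f := by
    have : (Ring.inverse A₀ * A₀) f = (1 : E →L[ℂ] E) f := by rw [h5]
    simpa using this
  calc ‖f‖ = ‖Ring.inverse A₀ (A₀ f)‖ := by rw [h6]
    _ ≤ ‖Ring.inverse A₀‖ * ‖A₀ f‖ := ContinuousLinearMap.le_opNorm _ _
    _ ≤ M * ‖A₀ f‖ := by gcongr

end Pool.Agent.Helper7.KE
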