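import Pool.Agent.Helper7.KE.Defs

set_option autoImplicit false

open MeasureTheory Set Filter Asymptotics Topology Metric
open scoped ComplexConjugate ENNReal

namespace Pool.Agent.Helper7.KE

theorem closed_subgroup {W : Type*} [NormedAddCommGroup W] [NormedSpace ℝ W]
    [FiniteDimensional ℝ W] (G : AddSubgroup W) (hG : IsClosed (G : Set W)) :
    ∃ ε > 0, ∀ g ∈ G, ‖g‖ < ε → ∀ s : ℝ, s • g ∈ G := by
  classical
  let V : Submodule ℝ W :=
    { carrier := {v | ∀ s : ℝ, s • v ∈ G}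
      add_mem' := by
        intro a b ha hb s
        rw [smul_add]
        exact G.add_mem (ha s) (hb s)
      zero_mem' := by
        intro s
        rw [smul_zero]
        exact G.zero_mem
      smul_mem' := by
        intro c x hx s
        rw [smul_smul]
        exact hx _ }
  have hVmem : ∀ v : W, v ∈ V ↔ ∀ s : ℝ, s • v ∈ G := fun v => Iff.rfl
  have hVG : ∀ v ∈ V, v ∈ G := by
    intro v hv
    have h1 := (hVmem v).1 hv 1
    rwa [one_smul] at h1
  by_contra hcon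
  push Not at hcon
  obtain ⟨q, hq⟩ := V.exists_isCompl
  -- the projection onto q along V
  let P : W →ₗ[ℝ] W := q.subtype ∘ₗ (q.projectionOnto V hq.symm)
  have hPq : ∀ g, P g ∈ q := fun g => (q.projectionOnto V hq.symm g).2
  have hPV : ∀ g, g - P g ∈ V := by
    intro g
    have h1 : (q.projectionOnto V hq.symm) (g - P g) = 0 := by
      rw [map_sub]
      have h2 : (q.projectionOnto V hq.symm) (P g) = q.projectionOnto V hq.symm g :=
        Submodule.projectionOnto_apply_left hq.symm _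
      rw [h2, sub_self]
    have h3 : g - P g ∈ LinearMap.ker (q.projectionOnto V hq.symm) := h1
    rwa [Submodule.ker_projectionOnto] at h3
  let PC : W →L[ℝ] W := LinearMap.toContinuousLinearMap P
  have hPC : ∀ g, PC g = P g := fun g => rfl
  have hbound : ∀ g, ‖P g‖ ≤ (‖PC‖ + 1) * ‖g‖ := by
    intro g
    calc ‖P g‖ = ‖PC g‖ := rfl
      _ ≤ ‖PC‖ * ‖g‖ := PC.le_opNorm g
      _ ≤ (‖PC‖ + 1) * ‖g‖ := by
        have := norm_nonneg g
        nlinarith
  have hCpos : 0 < ‖PC‖ + 1 := by positivity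
  have hex : ∀ k : ℕ, ∃ w : W, w ∈ q ∧ w ∈ G ∧ w ≠ 0 ∧ ‖w‖ ≤ 1 / ((k : ℝ) + 1) := by
    intro k
    have hε : 0 < 1 / (((k : ℝ) + 1) * (‖PC‖ + 1)) := by positivity
    obtain ⟨g, hgG, hgn, s, hs⟩ := hcon _ hε
    refine ⟨P g, hPq g, ?_, ?_, ?_⟩
    · have h1 := hVG _ (hPV g)
      have h2 := G.sub_mem hgG h1
      simpa using h2
    · intro h0
      have h1 := hPV g
      rw [h0, sub_zero] at h1
      exact hs ((hVmem g).1 h1 s)
    · calc ‖P g‖ ≤ (‖PC‖ + 1) * ‖g‖ := hbound g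
        _ ≤ (‖PC‖ + 1) * (1 / (((k : ℝ) + 1) * (‖PC‖ + 1))) := by gcongr
        _ = 1 / ((k : ℝ) + 1) := by field_simp
  choose w hwq hwG hw0 hwn using hex
  have hwpos : ∀ k, 0 < ‖w k‖ := fun k => norm_pos_iff.2 (hw0 k)
  let u : ℕ → W := fun k => ‖w k‖⁻¹ • w k
  have hu : ∀ k, u k ∈ sphere (0 : W) 1 := by
    intro k
    rw [mem_sphere_zero_iff_norm]
    change ‖‖w k‖⁻¹ • w k‖ = 1
    rw [norm_smul, norm_inv, norm_norm]
    exact inv_mul_cancel₀ (hwpos k).ne'
  have : ProperSpace W := FiniteDimensional.proper_real W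
  obtain ⟨a, ha, φ, hφ, hlim⟩ := (isCompact_sphere (0 : W) 1).tendsto_subseq hu
  have haq : a ∈ q := by
    have hclosed : IsClosed (q : Set W) := q.closed_of_finiteDimensional
    refine hclosed.mem_of_tendsto hlim (Eventually.of_forall fun k => ?_)
    exact q.smul_mem _ (hwq _)
  have haV : a ∈ V := by
    rw [hVmem]
    intro s
    have hwlim : Tendsto (fun k => ‖w (φ k)‖) atTop (𝓝 0) := by
      have h1 : Tendsto (fun k => 1 / ((φ k : ℝ) + 1)) atTop (𝓝 0) :=
        (tendsto_one_div_add_atTop_nhds_zero_nat (𝕜 := ℝ)).comp hφ.tendsto_atTop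
      exact squeeze_zero (fun k => norm_nonneg _) (fun k => hwn _) h1
    -- the integer multiples
    have hdist : ∀ k, ‖s • u (φ k) - (⌊s * ‖w (φ k)‖⁻¹⌋ : ℤ) • w (φ k)‖ ≤ ‖w (φ k)‖ := by
      intro k
      have h1 : s • u (φ k) - (⌊s * ‖w (φ k)‖⁻¹⌋ : ℤ) • w (φ k)
          = (Int.fract (s * ‖w (φ k)‖⁻¹)) • w (φ k) := by
        change s • (‖w (φ k)‖⁻¹ • w (φ k)) - _ = _
        rw [smul_smul, ← Int.self_sub_floor, sub_smul]
        congr 1
        rw [Int.cast_smul_eq_zsmul]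
      rw [h1, norm_smul, Real.norm_eq_abs, abs_of_nonneg (Int.fract_nonneg _)]
      have h2 := (Int.fract_lt_one (s * ‖w (φ k)‖⁻¹)).le
      have h3 := norm_nonneg (w (φ k))
      nlinarith
    have h4 : Tendsto (fun k => s • u (φ k) - (⌊s * ‖w (φ k)‖⁻¹⌋ : ℤ) • w (φ k)) atTop (𝓝 0) :=
      squeeze_zero_norm hdist hwlim
    have h5 : Tendsto (fun k => s • u (φ k)) atTop (𝓝 (s • a)) := hlim.const_smul s
    have h6 : Tendsto (fun k => (⌊s * ‖w (φ k)‖⁻¹⌋ : ℤ) • w (φ k)) atTop (𝓝 (s • a)) := by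
      have h7 := h5.sub h4
      simpa using h7
    exact hG.mem_of_tendsto h6 (Eventually.of_forall fun k => G.zsmul_mem (hwG _) _)
  have ha0 : a = 0 := by
    have h1 : a ∈ V ⊓ q := ⟨haV, haq⟩
    rw [hq.inf_eq_bot] at h1
    exact (Submodule.mem_bot ℝ).1 h1
  rw [mem_sphere_zero_iff_norm, ha0, norm_zero] at ha
  exact zero_ne_one ha

end Pool.Agent.Helper7.KE
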