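import Pool.Agent.Helper7.KE.Defs

set_option autoImplicit false

open MeasureTheory Set Filter Asymptotics Topology Metric
open scoped ComplexConjugate ENNReal

namespace Pool.Agent.Helper7.KE

/-- simultaneous Dirichlet approximation with arbitrarily large times -/
theorem recurrence_aux {J : Type} [Fintype J] (θ : J → ℝ) (δ T : ℝ) (hδ : 0 < δ) :
    ∃ t : ℝ, T ≤ t ∧ ∃ n : J → ℤ, ∀ j, |t * θ j - n j| < δ := by
  set T' : ℝ := max T 1 with hT'
  have hT1 : 1 ≤ T' := le_max_right _ _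
  have hTT : T ≤ T' := le_max_left _ _
  let u : ℕ → J → ℝ := fun i j => Int.fract ((i : ℝ) * T' * θ j)
  have hK : IsCompact (Set.pi Set.univ (fun _ : J => Set.Icc (0 : ℝ) 1)) :=
    isCompact_univ_pi (fun _ => isCompact_Icc)
  have hu : ∀ i, u i ∈ Set.pi Set.univ (fun _ : J => Set.Icc (0 : ℝ) 1) := by
    intro i j _
    exact ⟨Int.fract_nonneg _, (Int.fract_lt_one _).le⟩
  obtain ⟨a, _, φ, hφ, hlim⟩ := hK.tendsto_subseq hu
  have hc : CauchySeq (u ∘ φ) := hlim.cauchySeq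
  rw [Metric.cauchySeq_iff'] at hc
  obtain ⟨N, hN⟩ := hc δ hδ
  have h1 : dist ((u ∘ φ) (N + 1)) ((u ∘ φ) N) < δ := hN (N + 1) (Nat.le_succ N)
  have hlt : φ N < φ (N + 1) := hφ (Nat.lt_succ_self N)
  have hge : (1 : ℝ) ≤ (φ (N + 1) : ℝ) - (φ N : ℝ) := by
    have : (φ N : ℝ) + 1 ≤ (φ (N + 1) : ℝ) := by exact_mod_cast hlt
    linarith
  refine ⟨((φ (N + 1) : ℝ) - (φ N : ℝ)) * T', ?_,
    fun j => ⌊(φ (N + 1) : ℝ) * T' * θ j⌋ - ⌊(φ N : ℝ) * T' * θ j⌋, ?_⟩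
  · nlinarith
  · intro j
    have h2 : dist (u (φ (N + 1)) j) (u (φ N) j) < δ :=
      lt_of_le_of_lt (dist_le_pi_dist _ _ j) h1
    rw [Real.dist_eq] at h2
    have h3 : ((φ (N + 1) : ℝ) - (φ N : ℝ)) * T' * θ j -
        ((⌊(φ (N + 1) : ℝ) * T' * θ j⌋ - ⌊(φ N : ℝ) * T' * θ j⌋ : ℤ) : ℝ) =
        u (φ (N + 1)) j - u (φ N) j := by
      simp only [u, Int.fract]
      push_cast
      ring
    rw [h3]
    exact h2

/-- recurrence of a linear flow modulo the lattice `{x₀ | R x₀ ∈ ℤ^k} × (2πℤ)^ι` -/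
theorem recurrence {k : ℕ} {ι : Type} [Fintype ι] (Rm : Matrix (Fin k) (Fin k) ℝ)
    (hR : Rm.det ≠ 0) (e' : Fin k → ℝ) (c : ι → ℝ) (ε T : ℝ) (hε : 0 < ε) :
    ∃ t : ℝ, T ≤ t ∧ ∃ (x₀ : Fin k → ℝ) (n : ι → ℤ), (∀ l, ∃ m : ℤ, Rm.mulVec x₀ l = m) ∧
      (∀ j, |t * e' j - x₀ j| < ε) ∧ ∀ i, |t * c i - 2 * Real.pi * n i| < ε := by
  classical
  have hu : IsUnit Rm.det := isUnit_iff_ne_zero.2 hR
  -- a bound for the inverse matrix
  set S : ℝ := ∑ j, ∑ l, |Rm⁻¹ j l| with hS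
  have hS0 : 0 ≤ S := Finset.sum_nonneg fun j _ => Finset.sum_nonneg fun l _ => abs_nonneg _
  have hSj : ∀ j, ∑ l, |Rm⁻¹ j l| ≤ S := fun j =>
    Finset.single_le_sum (f := fun j => ∑ l, |Rm⁻¹ j l|)
      (fun j _ => Finset.sum_nonneg fun l _ => abs_nonneg _) (Finset.mem_univ j)
  set δ : ℝ := min (ε / (S + 1)) (ε / (2 * Real.pi + 1)) with hδdef
  have hpi : 0 < Real.pi := Real.pi_pos
  have hδ : 0 < δ := lt_min (by positivity) (by positivity)
  have hδ1 : S * δ < ε := by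
    have h1 : δ ≤ ε / (S + 1) := min_le_left _ _
    have h2 : δ * (S + 1) ≤ ε := by
      rw [le_div_iff₀ (by positivity)] at h1
      exact h1
    nlinarith
  have hδ2 : 2 * Real.pi * δ < ε := by
    have h1 : δ ≤ ε / (2 * Real.pi + 1) := min_le_right _ _
    have h2 : δ * (2 * Real.pi + 1) ≤ ε := by
      rw [le_div_iff₀ (by positivity)] at h1
      exact h1
    nlinarith
  obtain ⟨t, ht, n, hn⟩ := recurrence_aux
    (J := Fin k ⊕ ι) (Sum.elim (Rm.mulVec e') (fun i => c i / (2 * Real.pi))) δ T hδ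
  have hn1 : ∀ l, |t * Rm.mulVec e' l - n (Sum.inl l)| < δ := fun l => hn (Sum.inl l)
  have hn2 : ∀ i, |t * (c i / (2 * Real.pi)) - n (Sum.inr i)| < δ := fun i => hn (Sum.inr i)
  let m : Fin k → ℝ := fun l => (n (Sum.inl l) : ℝ)
  refine ⟨t, ht, Rm⁻¹.mulVec m, fun i => n (Sum.inr i), ?_, ?_, ?_⟩
  · intro l
    refine ⟨n (Sum.inl l), ?_⟩
    rw [Matrix.mulVec_mulVec, Matrix.mul_nonsing_inv _ hu, Matrix.one_mulVec]
  · intro j
    have h1 : t * e' j - (Rm⁻¹.mulVec m) j =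
        ∑ l, Rm⁻¹ j l * (t * Rm.mulVec e' l - m l) := by
      have h2 : e' = Rm⁻¹.mulVec (Rm.mulVec e') := by
        rw [Matrix.mulVec_mulVec, Matrix.nonsing_inv_mul _ hu, Matrix.one_mulVec]
      have h3 : e' j = ∑ l, Rm⁻¹ j l * Rm.mulVec e' l := by
        conv_lhs => rw [h2]
        rfl
      have h4 : (Rm⁻¹.mulVec m) j = ∑ l, Rm⁻¹ j l * m l := rfl
      rw [h3, h4, Finset.mul_sum, ← Finset.sum_sub_distrib]
      refine Finset.sum_congr rfl fun l _ => ?_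
      ring
    rw [h1]
    calc |∑ l, Rm⁻¹ j l * (t * Rm.mulVec e' l - m l)|
        ≤ ∑ l, |Rm⁻¹ j l * (t * Rm.mulVec e' l - m l)| := Finset.abs_sum_le_sum_abs _ _
      _ ≤ ∑ l, |Rm⁻¹ j l| * δ := by
          refine Finset.sum_le_sum fun l _ => ?_
          rw [abs_mul]
          exact mul_le_mul_of_nonneg_left (hn1 l).le (abs_nonneg _)
      _ = (∑ l, |Rm⁻¹ j l|) * δ := by rw [Finset.sum_mul]
      _ ≤ S * δ := mul_le_mul_of_nonneg_right (hSj j) hδ.le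
      _ < ε := hδ1
  · intro i
    have h1 : t * c i - 2 * Real.pi * n (Sum.inr i) =
        2 * Real.pi * (t * (c i / (2 * Real.pi)) - n (Sum.inr i)) := by
      field_simp
    rw [h1, abs_mul, abs_of_pos (by positivity)]
    calc 2 * Real.pi * |t * (c i / (2 * Real.pi)) - n (Sum.inr i)|
        ≤ 2 * Real.pi * δ := mul_le_mul_of_nonneg_left (hn2 i).le (by positivity)
      _ < ε := hδ2

end Pool.Agent.Helper7.KE
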