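import Pool.Agent.Helper7.KE.B1b

set_option autoImplicit false

open MeasureTheory Set Filter Asymptotics Topology Metric
open scoped ComplexConjugate ENNReal

namespace Pool.Agent.Helper7.KE

theorem E8_isBigO {s : Finset (ℝ × ℕ)} {κ : ℝ} (hs : GoodScale κ s) {f : ℝ → ℂ}
    {c : ℝ × ℕ → ℂ} (hf : (fun N : ℝ => f N - ∑ p ∈ s, (sc p N : ℂ) * c p) =O[atTop]
      fun N : ℝ => N ^ (-κ)) {J : ℝ × ℕ} (hJ : J ∈ s) (h0 : ∀ p ∈ s, Dom p J → c p = 0) :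
    f =O[atTop] sc J := by
  have h1 : (fun N : ℝ => f N - ∑ p ∈ s, (sc p N : ℂ) * c p) =O[atTop] sc J :=
    hf.trans (sc_rpow_isLittleO (hs J hJ).2.1).isBigO
  have h2 : (fun N : ℝ => ∑ p ∈ s, (sc p N : ℂ) • c p) =O[atTop] sc J := by
    refine B1b_sum_O fun p hp => ?_
    rcases dom_total p J with h | h | h
    · rw [h]
      exact B1b_smul_isBigO (isBigO_refl _ _) _
    · simp only [h0 p hp h, smul_zero]
      exact isBigO_zero _ _
    · exact B1b_smul_isBigO (sc_isLittleO h).isBigO _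
  refine (h1.add h2).congr_left fun N => ?_
  simp [smul_eq_mul]

theorem E8_identity {f : ℂ → ℂ} {T : ℝ} (hf : DifferentiableOn ℂ f (ball 0 T)) {O : Set ℂ}
    (hO : IsOpen O) (hne : O.Nonempty) (hOT : O ⊆ ball 0 T) (h : ∀ z ∈ O, f z = 0) :
    ∀ z ∈ ball (0 : ℂ) T, f z = 0 := by
  have h1 : AnalyticOnNhd ℂ f (ball 0 T) := hf.analyticOnNhd isOpen_ball
  obtain ⟨z₀, hz₀⟩ := hne
  have h2 : f =ᶠ[𝓝 z₀] 0 := by
    filter_upwards [hO.mem_nhds hz₀] with z hz using h z hz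
  exact h1.eqOn_zero_of_preconnected_of_eventuallyEq_zero
    (convex_ball (0 : ℂ) T).isPreconnected (hOT hz₀) h2

theorem jarg {W : Type*} [NormedAddCommGroup W] [NormedSpace ℝ W] [FiniteDimensional ℝ W]
    (Lat : AddSubgroup W) (ξ : W) {Q : Type*} {s : Finset (ℝ × ℕ)} {κ : ℝ}
    (hs : GoodScale κ s) {r₀ r₁ : ℝ} (hr₀ : 0 < r₀) (hr₁ : 0 < r₁) (hr : r₁ ≤ r₀)
    (F : Q → ℝ → W → ℂ → ℂ) (c : Q → ℝ × ℕ → W → ℂ → ℂ)
    (hc : ∀ q p, ContinuousOn (fun a : W × ℂ => c q p a.1 a.2)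
      (closedBall 0 r₀ ×ˢ closedBall 0 r₀))
    (hd : ∀ q p, ∀ v ∈ closedBall (0 : W) r₀, DifferentiableOn ℂ (c q p v) (ball 0 r₀))
    (hF : ∀ q, ∃ C N₀ : ℝ, ∀ N : ℝ, N₀ ≤ N → ∀ v ∈ closedBall (0 : W) r₀,
      ∀ μ ∈ closedBall (0 : ℂ) r₀, ‖F q N v μ - ∑ p ∈ s, (sc p N : ℂ) * c q p v μ‖ ≤
        C * N ^ (-κ))
    (hne : ∃ q, ∃ p ∈ s, ∃ μ ∈ ball (0 : ℂ) r₀, c q p 0 μ ≠ 0)
    (hline : ∀ T : ℝ, r₀ < T → ∃ (Fl : Q → ℝ → ℂ → ℂ) (cl : Q → ℝ × ℕ → ℂ → ℂ),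
      (∀ q p, DifferentiableOn ℂ (cl q p) (ball 0 T)) ∧
      (∀ q, ∀ z ∈ ball (0 : ℂ) T, (fun N : ℝ => Fl q N z - ∑ p ∈ s, (sc p N : ℂ) * cl q p z)
        =O[atTop] fun N => N ^ (-κ)) ∧
      (∀ z ∈ ball (0 : ℂ) r₁, ∃ a : ℂ, ∀ q N, Fl q N z = a * F q N 0 z) ∧
      ∀ (t : ℝ) (v : W), |t| + r₀ < T → v ∈ ball (0 : W) r₀ → t • ξ - v ∈ Lat →
        ∃ (σ : Q → Q) (a : ℂ → ℂ) (O : Set ℂ), Function.Surjective σ ∧ IsOpen O ∧ O.Nonempty ∧
          O ⊆ ball 0 r₀ ∧ ∀ μ ∈ O, a μ ≠ 0 ∧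
            ∀ q N, Fl q N (t + μ) = a μ * F (σ q) (N + t) v μ) :
    ∃ q, ∃ r' > 0, r' < r₀ ∧ ∃ b > 0, ∃ ε > 0, ∃ N₀ : ℝ, ∀ N : ℝ, N₀ ≤ N → ∀ v : W,
      v ∈ closure {v : W | ∃ t : ℝ, t • ξ - v ∈ Lat} → ‖v‖ < ε → ∀ μ : ℂ, ‖μ‖ = r' →
        b * N ^ (-κ) ≤ ‖F q N v μ‖ := by
  classical
  -- pointwise expansions
  have hexp : ∀ q, ∀ v ∈ closedBall (0 : W) r₀, ∀ μ ∈ closedBall (0 : ℂ) r₀,
      (fun N : ℝ => F q N v μ - ∑ p ∈ s, (sc p N : ℂ) * c q p v μ) =O[atTop]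
        fun N : ℝ => N ^ (-κ) := by
    intro q v hv μ hμ
    obtain ⟨C, N₀, hC⟩ := hF q
    rw [isBigO_iff]
    refine ⟨C, ?_⟩
    filter_upwards [eventually_ge_atTop N₀, eventually_gt_atTop 0] with N hN hN0
    rw [Real.norm_of_nonneg (Real.rpow_nonneg hN0.le _)]
    exact hC N hN v hv μ hμ
  -- the dominating scale
  obtain ⟨q₁, p₁, hp₁, μ₁, hμ₁, hc₁⟩ := hne
  have hne' : (s.filter fun p => ∃ q, ∃ μ ∈ ball (0 : ℂ) r₀, c q p 0 μ ≠ 0).Nonempty :=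
    ⟨p₁, Finset.mem_filter.2 ⟨hp₁, q₁, μ₁, hμ₁, hc₁⟩⟩
  obtain ⟨J, hJ', hJd⟩ := exists_dom hne'
  obtain ⟨hJ, q₂, μ₂, hμ₂, hc₂⟩ := Finset.mem_filter.1 hJ'
  have h0 : ∀ p ∈ s, Dom p J → ∀ q, ∀ μ ∈ ball (0 : ℂ) r₀, c q p 0 μ = 0 := by
    intro p hp hpJ q μ hμ
    by_contra h
    have h1 : p ∈ s.filter fun p => ∃ q, ∃ μ ∈ ball (0 : ℂ) r₀, c q p 0 μ ≠ 0 :=
      Finset.mem_filter.2 ⟨hp, q, μ, hμ, h⟩
    by_cases hpJ' : p = J
    · rw [hpJ'] at hpJ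
      exact B1a_dom_irrefl _ hpJ
    · exact B1a_dom_irrefl _ (B1a_dom_trans hpJ (hJd p h1 hpJ'))
  have h0W : (0 : W) ∈ closedBall (0 : W) r₀ := mem_closedBall_self hr₀.le
  -- the function at v = 0 is `O(sc J)`
  have hF0 : ∀ q, ∀ μ ∈ ball (0 : ℂ) r₀, (fun N => F q N 0 μ) =O[atTop] sc J := fun q μ hμ =>
    E8_isBigO hs (hexp q 0 h0W μ (ball_subset_closedBall hμ)) hJ fun p hp hpJ => h0 p hp hpJ q μ hμ
  -- vanishing of the dominating coefficients on the set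
  have hset : ∀ v ∈ ball (0 : W) r₀, v ∈ {v : W | ∃ t : ℝ, t • ξ - v ∈ Lat} → ∀ q, ∀ p ∈ s,
      Dom p J → ∀ μ ∈ ball (0 : ℂ) r₀, c q p v μ = 0 := by
    rintro v hv ⟨t, ht⟩ q' p hp hpJ
    obtain ⟨Fl, cl, hcl, hFl, hFl0, hshift⟩ := hline (|t| + r₀ + 1) (by have := abs_nonneg t; linarith)
    have hcl0 : ∀ q, ∀ p ∈ s, Dom p J → ∀ z ∈ ball (0 : ℂ) (|t| + r₀ + 1), cl q p z = 0 := by
      intro q p hp hpJ
      have hsub : ball (0 : ℂ) r₁ ⊆ ball 0 (|t| + r₀ + 1) :=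
        ball_subset_ball (by have := abs_nonneg t; linarith)
      refine E8_identity (hcl q p) isOpen_ball ⟨0, mem_ball_self hr₁⟩ hsub fun z hz => ?_
      obtain ⟨a, ha⟩ := hFl0 z hz
      have h1 : (fun N => Fl q N z) =O[atTop] sc J := by
        have h2 : (fun N => Fl q N z) = fun N => a * F q N 0 z := by
          funext N
          exact ha q N
        rw [h2]
        exact (hF0 q z (ball_subset_ball hr hz)).const_mul_left a
      exact coeff_zero (c := fun p => cl q p z) hs (hFl q z (hsub hz)) hJ h1 p hp hpJ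
    have hFlO : ∀ q, ∀ z ∈ ball (0 : ℂ) (|t| + r₀ + 1), (fun N => Fl q N z) =O[atTop] sc J :=
      fun q z hz => E8_isBigO hs (hFl q z hz) hJ fun p hp hpJ => hcl0 q p hp hpJ z hz
    obtain ⟨σ, a, O, hσ, hO, hOne, hOsub, haO⟩ := hshift t v (by linarith) hv ht
    obtain ⟨q, rfl⟩ := hσ q'
    refine E8_identity (hd _ p v (ball_subset_closedBall hv)) hO hOne hOsub fun μ hμ => ?_
    obtain ⟨haμ, hFμ⟩ := haO μ hμ
    have hμr := hOsub hμ
    have hz : (t : ℂ) + μ ∈ ball (0 : ℂ) (|t| + r₀ + 1) := by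
      rw [mem_ball_zero_iff] at hμr ⊢
      calc ‖(t : ℂ) + μ‖ ≤ ‖(t : ℂ)‖ + ‖μ‖ := norm_add_le _ _
        _ = |t| + ‖μ‖ := by rw [Complex.norm_real, Real.norm_eq_abs]
        _ < _ := by linarith
    have h1 : (fun N => F (σ q) (N + t) v μ) =O[atTop] sc J := by
      have h2 : (fun N => F (σ q) (N + t) v μ) = fun N => (a μ)⁻¹ * Fl q N (t + μ) := by
        funext N
        rw [hFμ q N]
        field_simp
      rw [h2]
      exact (hFlO q _ hz).const_mul_left _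
    have h3 : (fun N => F (σ q) N v μ) =O[atTop] sc J := by
      have h4 := h1.comp_tendsto (tendsto_atTop_add_const_right atTop (-t) tendsto_id)
      have h5 : (fun N => F (σ q) N v μ) =O[atTop] fun N => sc J (N + -t) := by
        refine h4.congr (fun N => ?_) (fun N => rfl)
        simp
      exact h5.trans (sc_shift J (-t)).1
    exact coeff_zero (c := fun p => c (σ q) p v μ) hs
      (hexp _ v (ball_subset_closedBall hv) μ (ball_subset_closedBall hμr)) hJ h3 p hp hpJ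
  -- and on its closure
  have hclos : ∀ v ∈ ball (0 : W) r₀, v ∈ closure {v : W | ∃ t : ℝ, t • ξ - v ∈ Lat} → ∀ q,
      ∀ p ∈ s, Dom p J → ∀ μ ∈ ball (0 : ℂ) r₀, c q p v μ = 0 := by
    intro v hv hvc q p hp hpJ μ hμ
    obtain ⟨u, hu, hulim⟩ := mem_closure_iff_seq_limit.1 hvc
    have hub : ∀ᶠ n in atTop, u n ∈ ball (0 : W) r₀ := hulim.eventually (isOpen_ball.mem_nhds hv)
    have h1 : Tendsto (fun n => c q p (u n) μ) atTop (𝓝 (c q p v μ)) := by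
      have h2 := hc q p (v, μ) ⟨ball_subset_closedBall hv, ball_subset_closedBall hμ⟩
      have h3 : Tendsto (fun n => (u n, μ)) atTop
          (𝓝[closedBall 0 r₀ ×ˢ closedBall 0 r₀] (v, μ)) := by
        refine tendsto_nhdsWithin_iff.2 ⟨hulim.prodMk_nhds tendsto_const_nhds, ?_⟩
        filter_upwards [hub] with n hn
        exact ⟨ball_subset_closedBall hn, ball_subset_closedBall hμ⟩
      exact h2.tendsto.comp h3
    have h4 : Tendsto (fun n => c q p (u n) μ) atTop (𝓝 0) := by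
      refine tendsto_const_nhds.congr' ?_
      filter_upwards [hub] with n hn
      exact (hset (u n) hn (hu n) q p hp hpJ μ hμ).symm
    exact tendsto_nhds_unique h1 h4
  -- the radius
  have han : AnalyticOnNhd ℂ (c q₂ J 0) (ball 0 r₀) :=
    (hd q₂ J 0 h0W).analyticOnNhd isOpen_ball
  have hpunct : ∀ᶠ z in 𝓝[≠] (0 : ℂ), c q₂ J 0 z ≠ 0 := by
    rcases (han 0 (mem_ball_self hr₀)).eventually_eq_zero_or_eventually_ne_zero with h | h
    · exact absurd (han.eqOn_zero_of_preconnected_of_eventuallyEq_zero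
        (convex_ball (0 : ℂ) r₀).isPreconnected (mem_ball_self hr₀) h hμ₂) hc₂
    · exact h
  rw [eventually_nhdsWithin_iff, Metric.eventually_nhds_iff] at hpunct
  obtain ⟨e, he, hee⟩ := hpunct
  obtain ⟨r', hr'0, hr'e, hr'r⟩ : ∃ r' : ℝ, 0 < r' ∧ r' < e ∧ r' < r₀ :=
    ⟨min e r₀ / 2, by positivity, by have := min_le_left e r₀; linarith,
      by have := min_le_right e r₀; linarith⟩
  have hnz : ∀ μ : ℂ, ‖μ‖ = r' → c q₂ J 0 μ ≠ 0 := by
    intro μ hμ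
    refine hee ?_ ?_
    · simpa [dist_eq_norm, hμ] using hr'e
    · simp only [mem_compl_iff, mem_singleton_iff]
      rintro rfl
      rw [norm_zero] at hμ
      linarith
  -- compactness
  have hK : IsCompact (closedBall (0 : W) r₀ ×ˢ closedBall (0 : ℂ) r₀) :=
    (isCompact_closedBall _ _).prod (isCompact_closedBall _ _)
  have hbd : ∀ p, ∃ M : ℝ, 0 ≤ M ∧ ∀ v ∈ closedBall (0 : W) r₀, ∀ μ ∈ closedBall (0 : ℂ) r₀,
      ‖c q₂ p v μ‖ ≤ M := by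
    intro p
    obtain ⟨M, hM⟩ := hK.exists_bound_of_continuousOn (hc q₂ p)
    exact ⟨max M 0, le_max_right _ _, fun v hv μ hμ => (hM (v, μ) ⟨hv, hμ⟩).trans (le_max_left _ _)⟩
  choose M hM0 hM using hbd
  obtain ⟨b₀, hb₀, hlow⟩ : ∃ b₀ > 0, ∀ μ : ℂ, ‖μ‖ = r' → 2 * b₀ ≤ ‖c q₂ J 0 μ‖ := by
    have hcs : IsCompact (sphere (0 : ℂ) r') := isCompact_sphere _ _
    have hne : (sphere (0 : ℂ) r').Nonempty := (NormedSpace.sphere_nonempty).2 hr'0.le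
    have hcont : ContinuousOn (fun μ => ‖c q₂ J 0 μ‖) (sphere (0 : ℂ) r') := by
      refine ContinuousOn.norm ?_
      refine (hd q₂ J 0 h0W).continuousOn.mono fun μ hμ => ?_
      rw [mem_ball_zero_iff]
      rw [mem_sphere_zero_iff_norm] at hμ
      linarith
    obtain ⟨μ₀, hμ₀, hmin⟩ := hcs.exists_isMinOn hne hcont
    refine ⟨‖c q₂ J 0 μ₀‖ / 2, ?_, fun μ hμ => ?_⟩
    · have := norm_pos_iff.2 (hnz μ₀ (mem_sphere_zero_iff_norm.1 hμ₀))
      positivity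
    · have := hmin (mem_sphere_zero_iff_norm.2 hμ)
      simp only [mem_setOf_eq] at this
      linarith
  obtain ⟨ε, hε, hlow'⟩ : ∃ ε > 0, ∀ v : W, ‖v‖ < ε → v ∈ ball (0 : W) r₀ ∧ ∀ μ : ℂ, ‖μ‖ = r' →
      b₀ ≤ ‖c q₂ J v μ‖ := by
    have huc := hK.uniformContinuousOn_of_continuous (hc q₂ J)
    rw [Metric.uniformContinuousOn_iff] at huc
    obtain ⟨d, hd0, hd1⟩ := huc b₀ hb₀
    refine ⟨min d r₀, lt_min hd0 hr₀, fun v hv => ?_⟩
    have hvd := hv.trans_le (min_le_left _ _)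
    have hvr := hv.trans_le (min_le_right _ _)
    refine ⟨mem_ball_zero_iff.2 hvr, fun μ hμ => ?_⟩
    have hμb : μ ∈ closedBall (0 : ℂ) r₀ := by
      rw [mem_closedBall_zero_iff, hμ]
      exact hr'r.le
    have h1 := hd1 (v, μ) ⟨mem_closedBall_zero_iff.2 hvr.le, hμb⟩ (0, μ) ⟨h0W, hμb⟩ (by
      rw [Prod.dist_eq]
      simp [hd0, hvd])
    rw [dist_eq_norm] at h1
    have h2 := hlow μ hμ
    have h3 := norm_sub_norm_le (c q₂ J 0 μ) (c q₂ J v μ)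
    rw [norm_sub_rev] at h3
    simp only at h1
    linarith
  -- the remaining terms
  obtain ⟨C, N₁, hC⟩ := hF q₂
  set R : ℝ → ℝ := fun N => (∑ p ∈ s.filter (fun p => Dom J p), sc p N * M p) + C * N ^ (-κ)
    with hR
  have hRo : R =o[atTop] sc J := by
    refine IsLittleO.add ?_ ?_
    · have : (fun N => ∑ p ∈ s.filter (fun p => Dom J p), sc p N * M p) =
          ∑ p ∈ s.filter (fun p => Dom J p), fun N => sc p N * M p := by
        funext N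
        rw [Finset.sum_apply]
      rw [this]
      refine IsLittleO.sum fun p hp => ?_
      have h1 := (Finset.mem_filter.1 hp).2
      have h2 := (sc_isLittleO h1).const_mul_left (M p)
      refine h2.congr_left fun N => mul_comm _ _
    · exact (sc_rpow_isLittleO (hs J hJ).2.1).const_mul_left C
  have hRe := (isLittleO_iff.1 hRo) (half_pos hb₀)
  have hκe := (isLittleO_iff.1 (sc_rpow_isLittleO (hs J hJ).2.1)) one_pos
  obtain ⟨N₂, hN₂⟩ := eventually_atTop.1 (hRe.and (hκe.and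
    ((eventually_ge_atTop N₁).and (eventually_gt_atTop 1))))
  refine ⟨q₂, r', hr'0, hr'r, b₀ / 2, half_pos hb₀, ε, hε, N₂, fun N hN v hv hvε μ hμ => ?_⟩
  obtain ⟨h1, h2, h3, h4⟩ := hN₂ N hN
  obtain ⟨hvb, hJlow⟩ := hlow' v hvε
  have hJl := hJlow μ hμ
  have hvb' := ball_subset_closedBall hvb
  have hμb : μ ∈ ball (0 : ℂ) r₀ := by
    rw [mem_ball_zero_iff, hμ]
    exact hr'r
  have hμb' := ball_subset_closedBall hμb
  have hscJ := sc_pos J h4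
  have hN0 : (0 : ℝ) < N := by linarith
  rw [Real.norm_of_nonneg hscJ.le] at h1 h2
  rw [Real.norm_of_nonneg (Real.rpow_nonneg hN0.le _), one_mul] at h2
  have h5 : ‖∑ p ∈ s, (sc p N : ℂ) * c q₂ p v μ - (sc J N : ℂ) * c q₂ J v μ‖ ≤
      ∑ p ∈ s.filter (fun p => Dom J p), sc p N * M p := by
    have e1 : ∑ p ∈ s, (sc p N : ℂ) * c q₂ p v μ - (sc J N : ℂ) * c q₂ J v μ =
        ∑ p ∈ s.filter (fun p => Dom J p), (sc p N : ℂ) * c q₂ p v μ := by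
      rw [← Finset.add_sum_erase s _ hJ, add_sub_cancel_left]
      symm
      refine Finset.sum_subset ?_ ?_
      · intro p hp
        obtain ⟨hp1, hp2⟩ := Finset.mem_filter.1 hp
        refine Finset.mem_erase.2 ⟨?_, hp1⟩
        rintro rfl
        exact B1a_dom_irrefl _ hp2
      · intro p hp hp'
        obtain ⟨hp1, hp2⟩ := Finset.mem_erase.1 hp
        rcases dom_total p J with h | h | h
        · exact absurd h hp1
        · rw [hclos v hvb hv q₂ p hp2 h μ hμb, mul_zero]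
        · exact absurd (Finset.mem_filter.2 ⟨hp2, h⟩) hp'
    rw [e1]
    refine (norm_sum_le _ _).trans (Finset.sum_le_sum fun p _ => ?_)
    rw [norm_mul, Complex.norm_real, Real.norm_of_nonneg (sc_pos p h4).le]
    exact mul_le_mul_of_nonneg_left (hM p v hvb' μ hμb') (sc_pos p h4).le
  have h6 := hC N h3 v hvb' μ hμb'
  have h7 : ‖F q₂ N v μ - (sc J N : ℂ) * c q₂ J v μ‖ ≤ R N := by
    calc ‖F q₂ N v μ - (sc J N : ℂ) * c q₂ J v μ‖
        = ‖(∑ p ∈ s, (sc p N : ℂ) * c q₂ p v μ - (sc J N : ℂ) * c q₂ J v μ) +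
            (F q₂ N v μ - ∑ p ∈ s, (sc p N : ℂ) * c q₂ p v μ)‖ := by congr 1; ring
      _ ≤ _ := (norm_add_le _ _).trans (add_le_add h5 h6)
  have h8 : R N ≤ b₀ / 2 * sc J N := (le_abs_self _).trans h1
  have h9 : sc J N * b₀ ≤ ‖(sc J N : ℂ) * c q₂ J v μ‖ := by
    rw [norm_mul, Complex.norm_real, Real.norm_of_nonneg hscJ.le]
    exact mul_le_mul_of_nonneg_left hJl hscJ.le
  have h10 := norm_sub_norm_le ((sc J N : ℂ) * c q₂ J v μ) (F q₂ N v μ)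
  rw [norm_sub_rev] at h10
  have h11 : b₀ / 2 * N ^ (-κ) ≤ b₀ / 2 * sc J N := mul_le_mul_of_nonneg_left h2 (half_pos hb₀).le
  linarith

end Pool.Agent.Helper7.KE
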