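import Pool.Agent.Helper7.KE.C4a
import Pool.Agent.Helper7.KE.C4b
import Pool.Agent.Helper7.KE.D5a
import Pool.Agent.Helper7.KE.D6

/-! Operators `1 - T M_b`, canonical solutions, gauge transformation. -/

set_option autoImplicit false

open MeasureTheory Set Filter Asymptotics Topology Metric
open scoped ComplexConjugate ENNReal

namespace Pool.Agent.Helper7.KE

section
variable {k : ℕ} {D : CD k} {τ δ : ℝ} {ι : Type} [Fintype ι] [DecidableEq ι]

theorem rhoC_lin (h : HM D τ δ) (w w' : Fin k → ℂ) (c : ℂ) (z : ℂ) :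
    h.rhoC (fun j => w j + c * w' j) z = h.rhoC w z + c * h.rhoC w' z := by
  unfold HM.rhoC
  rw [Finset.mul_sum, ← Finset.sum_add_distrib]
  exact Finset.sum_congr rfl fun j _ => by ring

theorem vb_lin (h : HM D τ δ) (w w' : Fin k → ℂ) (c : ℂ) (z : ℂ) :
    h.vb (fun j => w j + c * w' j) z = h.vb w z + c * h.vb w' z := by
  unfold HM.vb
  rw [Finset.mul_sum, ← Finset.sum_add_distrib]
  exact Finset.sum_congr rfl fun j _ => by ring

theorem lSm_smooth (h : HM D τ δ) (hτ : D.Good τ) (hδ : 0 < δ) {e : Fin k → ℝ}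
    (ps : PS D (h.rho e) ι) (N : ℝ) (y : ι → ℝ) (w : Fin k → ℂ) :
    ContDiffOn ℝ (⊤ : ℕ∞) (lS h ps N y w) (D.Ue δ) := by
  unfold lS
  have h1 := (rho_facts h hτ hδ e w).1
  have h2 := (rho_facts h hτ hδ e w).2.1
  refine ContDiffOn.add (ContDiffOn.add ?_ ?_) h2
  · refine contDiffOn_const.mul ?_
    exact Complex.ofRealCLM.contDiff.comp_contDiffOn (contDiffOn_const.mul h1)
  · refine contDiffOn_const.mul ?_
    refine Complex.ofRealCLM.contDiff.comp_contDiffOn ?_
    exact ContDiffOn.sum fun i _ => contDiffOn_const.mul (ps.smooth i).contDiffOn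

theorem dzb_lS (h : HM D τ δ) (hτ : D.Good τ) (hδ : 0 < δ) {e : Fin k → ℝ}
    (ps : PS D (h.rho e) ι) (N : ℝ) (y : ι → ℝ) (w : Fin k → ℂ) {z : ℂ} (hz : z ∈ D.Ue δ) :
    dzb (lS h ps N y w) z = Complex.I * N * conj (h.vv e z) +
      Complex.I * ∑ i, (y i : ℂ) * dzb (fun u => (ps.chi i u : ℂ)) z + h.vb w z := by
  obtain ⟨h1, h2, -, -, h5, h6, -⟩ := rho_facts h hτ hδ e w
  have hn := (D.Ue_open δ).mem_nhds hz
  have d1 : DifferentiableAt ℝ (fun u => (h.rho e u : ℂ)) z :=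
    Complex.ofRealCLM.differentiableAt.comp z
      ((h1.contDiffAt hn).differentiableAt (by simp))
  have d2 : DifferentiableAt ℝ (h.rhoC w) z := (h2.contDiffAt hn).differentiableAt (by simp)
  have d3 : ∀ i, DifferentiableAt ℝ (fun u => (ps.chi i u : ℂ)) z := fun i =>
    Complex.ofRealCLM.differentiableAt.comp z
      ((ps.smooth i).contDiffAt.differentiableAt (by simp))
  have e0 : lS h ps N y w = fun u => ((Complex.I * N) • (h.rho e u : ℂ) +
      ∑ i, (Complex.I * y i) • (ps.chi i u : ℂ)) + h.rhoC w u := by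
    funext u
    simp only [lS, smul_eq_mul]
    push_cast
    rw [Finset.mul_sum]
    congr 1
    congr 1
    · ring
    · exact Finset.sum_congr rfl fun i _ => by ring
  have d4 : DifferentiableAt ℝ (fun u => (Complex.I * N) • (h.rho e u : ℂ)) z :=
    (differentiableAt_const (Complex.I * N : ℂ)).fun_smul d1
  have d5 : ∀ i, DifferentiableAt ℝ (fun u => (Complex.I * y i) • (ps.chi i u : ℂ)) z := fun i =>
    (differentiableAt_const (Complex.I * y i : ℂ)).fun_smul (d3 i)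
  have d6 : DifferentiableAt ℝ (fun u => ∑ i, (Complex.I * y i) • (ps.chi i u : ℂ)) z :=
    DifferentiableAt.fun_sum fun i _ => d5 i
  rw [e0, (dz_add (d4.fun_add d6) d2).2, (dz_add d4 d6).2, (dz_sum _ fun i _ => d5 i).2,
    (dz_smul (f := fun _ => Complex.I * N) (differentiableAt_const _) d1).2, dz_const.2,
    h5 z hz, h6 z hz]
  have e7 : ∀ i, dzb (fun u => (Complex.I * (y i : ℂ)) • (ps.chi i u : ℂ)) z =
      Complex.I * ((y i : ℂ) * dzb (fun u => (ps.chi i u : ℂ)) z) := by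
    intro i
    rw [(dz_smul (f := fun _ => Complex.I * (y i : ℂ)) (differentiableAt_const _) (d3 i)).2,
      dz_const.2]
    simp only [smul_eq_mul]
    ring
  rw [Finset.sum_congr rfl fun i _ => e7 i, ← Finset.mul_sum]
  simp only [smul_eq_mul]
  ring

theorem dzb_lS_cont (h : HM D τ δ) (hτ : D.Good τ) (hδ : 0 < δ) {e : Fin k → ℝ}
    (ps : PS D (h.rho e) ι) (N : ℝ) (y : ι → ℝ) (w : Fin k → ℂ) :
    ContinuousOn (dzb (lS h ps N y w)) D.cU :=
  ((dz_contDiffOn (D.Ue_open δ) (lSm_smooth h hτ hδ ps N y w)).2.continuousOn).mono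
    (D.cU_subset_Ue hδ)

theorem vv_cont (h : HM D τ δ) (hτ : D.Good τ) (hδ : 0 < δ) (e : Fin k → ℝ) :
    ContinuousOn (h.vv e) D.cU :=
  (rho_facts h hτ hδ e 0).2.2.1.continuousOn.mono (D.cU_subset_Ue hδ)

theorem vb_cont (h : HM D τ δ) (hδ : 0 < δ) (w : Fin k → ℂ) :
    ContinuousOn (h.vb w) D.cU := by
  unfold HM.vb
  refine continuousOn_finsetSum _ fun j _ => continuousOn_const.mul ?_
  exact Complex.continuous_conj.comp_continuousOn
    ((h.hol j).continuousOn.mono (D.cU_subset_Ue hδ))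

theorem dzb_ps_cont {ρ : ℂ → ℝ} (ps : PS D ρ ι) (i : ι) :
    Continuous (dzb (fun u => (ps.chi i u : ℂ))) := by
  have h := (dz_contDiffOn (F := fun u => (ps.chi i u : ℂ)) isOpen_univ
    (Complex.ofRealCLM.contDiff.comp (ps.smooth i)).contDiffOn).2
  exact (contDiffOn_univ.1 h).continuous

/-- bound for the multiplier -/
theorem dzb_lS_bound (h : HM D τ δ) (hτ : D.Good τ) (hδ : 0 < δ) {e : Fin k → ℝ}
    (ps : PS D (h.rho e) ι) (Λ : ℝ) :
    ∃ C : ℝ, 0 ≤ C ∧ ∀ N : ℝ, 1 ≤ N → ∀ y : ι → ℝ, (∀ i, |y i| ≤ Λ) → ∀ z ∈ D.U,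
      ‖dzb (lS h ps N y 0) z‖ ≤ C * N := by
  obtain ⟨C₁, hC₁⟩ := D.cU_compact.exists_bound_of_continuousOn (vv_cont h hτ hδ e)
  have hb : ∀ i, ∃ C : ℝ, ∀ z ∈ D.cU, ‖dzb (fun u => (ps.chi i u : ℂ)) z‖ ≤ C := fun i =>
    D.cU_compact.exists_bound_of_continuousOn (dzb_ps_cont ps i).continuousOn
  choose C₂ hC₂ using hb
  refine ⟨|C₁| + ∑ i, |Λ| * |C₂ i|, by positivity, fun N hN y hy z hz => ?_⟩
  have hzc := D.U_subset_cU hz
  rw [dzb_lS h hτ hδ ps N y 0 (D.cU_subset_Ue hδ hzc)]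
  have e1 : h.vb 0 z = 0 := by simp [HM.vb]
  rw [e1, add_zero]
  have hN0 : 0 ≤ N := zero_le_one.trans hN
  have b1 : ‖Complex.I * N * conj (h.vv e z)‖ ≤ |C₁| * N := by
    rw [norm_mul, norm_mul, Complex.norm_I, one_mul, RCLike.norm_conj, Complex.norm_real,
      Real.norm_of_nonneg hN0, mul_comm]
    exact mul_le_mul_of_nonneg_right ((hC₁ z hzc).trans (le_abs_self _)) hN0
  have b2 : ‖Complex.I * ∑ i, (y i : ℂ) * dzb (fun u => (ps.chi i u : ℂ)) z‖ ≤
      (∑ i, |Λ| * |C₂ i|) * 1 := by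
    rw [norm_mul, Complex.norm_I, one_mul, mul_one]
    refine (norm_sum_le _ _).trans (Finset.sum_le_sum fun i _ => ?_)
    rw [norm_mul, Complex.norm_real, Real.norm_eq_abs]
    exact mul_le_mul ((hy i).trans (le_abs_self _)) ((hC₂ i z hzc).trans (le_abs_self _))
      (norm_nonneg _) (abs_nonneg _)
  have b3 : (∑ i, |Λ| * |C₂ i|) * 1 ≤ (∑ i, |Λ| * |C₂ i|) * N :=
    mul_le_mul_of_nonneg_left hN (by positivity)
  calc _ ≤ _ := norm_add_le _ _
    _ ≤ |C₁| * N + (∑ i, |Λ| * |C₂ i|) * N := add_le_add b1 (b2.trans b3)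
    _ = _ := by ring

/-- the canonical solution attached to `S u`, `u` holomorphic -/
theorem canon_eq (h : HM D τ δ) (hτ : D.Good τ) (hδ : 0 < δ) {e : Fin k → ℝ}
    (ps : PS D (h.rho e) ι) {T : D.L2 →L[ℂ] D.L2} (hT : D.IsKohn T) (N : ℝ) (y : ι → ℝ)
    (w : Fin k → ℂ) (u : D.Berg) :
    D.Mul (fun z => Complex.exp (lS h ps N y w z)) u -
        (D.Toe (fun z => Complex.exp (lS h ps N y w z)) u : D.L2) =
      T (D.Mul (dzb (lS h ps N y w)) (D.Mul (fun z => Complex.exp (lS h ps N y w z)) u)) := by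
  have hl := lSm_smooth h hτ hδ ps N y w
  have hS : ContDiffOn ℝ (⊤ : ℕ∞) (fun z => Complex.exp (lS h ps N y w z)) (D.Ue δ) := hl.cexp
  have hcS : ContinuousOn (fun z => Complex.exp (lS h ps N y w z)) D.cU :=
    hS.continuousOn.mono (D.cU_subset_Ue hδ)
  apply kohn_unique D hT
  · have h1 := weak_mul D (D.Ue_open δ) (D.cU_subset_Ue hδ) hS
      (weak_hol_zero D (u := (u : D.L2)) u.2)
    have h2 := weak_smul D (-1)
      (weak_hol_zero D (u := (D.Toe (fun z => Complex.exp (lS h ps N y w z)) u : D.L2))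
        (D.Toe (fun z => Complex.exp (lS h ps N y w z)) u).2)
    have h3 := weak_add D h1 h2
    rw [map_zero, zero_add, smul_zero, add_zero, neg_one_smul, ← sub_eq_add_neg] at h3
    have h4 : D.Mul (dzb (fun z => Complex.exp (lS h ps N y w z))) (u : D.L2) =
        D.Mul (dzb (lS h ps N y w)) (D.Mul (fun z => Complex.exp (lS h ps N y w z)) u) := by
      rw [mul_mul D (dzb_lS_cont h hτ hδ ps N y w) hcS]
      have hc1 : ContinuousOn (dzb (fun z => Complex.exp (lS h ps N y w z))) D.cU :=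
        ((dz_contDiffOn (D.Ue_open δ) hS).2.continuousOn).mono (D.cU_subset_Ue hδ)
      refine congrArg (fun L : D.L2 →L[ℂ] D.L2 => L (u : D.L2)) (mul_congr D hc1
        (b' := fun z => dzb (lS h ps N y w) z * Complex.exp (lS h ps N y w z))
        ((dzb_lS_cont h hτ hδ ps N y w).mul hcS) ?_)
      intro z hz
      have hzU := D.cU_subset_Ue hδ (D.U_subset_cU hz)
      have hd : DifferentiableAt ℝ (lS h ps N y w) z :=
        (hl.contDiffAt ((D.Ue_open δ).mem_nhds hzU)).differentiableAt (by simp)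
      rw [(dz_cexp hd).2, mul_comm]
    rw [h4] at h3
    exact h3
  · have h1 : (D.Toe (fun z => Complex.exp (lS h ps N y w z)) u : D.Berg) =
      D.P (D.Mul (fun z => Complex.exp (lS h ps N y w z)) u) := rfl
    rw [map_sub, h1]
    have h2 : D.P (D.P (D.Mul (fun z => Complex.exp (lS h ps N y w z)) u) : D.L2) =
        D.P (D.Mul (fun z => Complex.exp (lS h ps N y w z)) u) :=
      Submodule.orthogonalProjectionOnto_mem_subspace_eq_self _
    rw [h2, sub_self]

/-- unimodular multipliers preserve the norm -/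
theorem norm_Mul_unimod {S : ℂ → ℂ} (hS : ContinuousOn S D.cU) (h1 : ∀ z ∈ D.U, ‖S z‖ = 1)
    (u : D.L2) : ‖D.Mul S u‖ = ‖u‖ := by
  have h2 : ∀ᵐ z ∂(volume.restrict D.U), ‖(D.Mul S u : ℂ → ℂ) z‖ = ‖(u : ℂ → ℂ) z‖ := by
    filter_upwards [D.Mul_coe hS u, ae_restrict_mem D.U_open.measurableSet] with z hz hzU
    rw [hz, norm_mul, h1 z hzU, one_mul]
  refine le_antisymm (Lp.norm_le_norm_of_ae_le ?_) (Lp.norm_le_norm_of_ae_le ?_)
  · filter_upwards [h2] with z hz using hz.le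
  · filter_upwards [h2] with z hz using hz.ge

/-- Fredholm alternative for `1 - T M_b` -/
theorem isUnit_of_inj {T : D.L2 →L[ℂ] D.L2} (hT : D.IsKohn T) (B : D.L2 →L[ℂ] D.L2)
    (hinj : ∀ u : D.L2, u = T (B u) → u = 0) : IsUnit (1 - T ∘L B) := by
  have hc : IsCompactOperator (T ∘L B) := hT.compact.comp_clm B
  rcases hc.hasEigenvalue_or_mem_resolventSet (μ := (1 : ℂ)) one_ne_zero with h1 | h1
  · exfalso
    obtain ⟨v, hv⟩ := h1.exists_hasEigenvector
    apply hv.2
    apply hinj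
    have h2 := hv.apply_eq_smul
    rw [one_smul] at h2
    exact h2.symm
  · rw [spectrum.mem_resolventSet_iff, map_one] at h1
    exact h1

/-- gauge transformation of solutions -/
theorem gauge (h : HM D τ δ) (hτ : D.Good τ) (hδ : 0 < δ) (hδτ : δ ≤ τ) {x₀ : Fin k → ℝ}
    (hx₀ : ∀ l, ∃ n : ℤ, h.Rm.mulVec x₀ l = n) {b : ℂ → ℂ} (hb : ContinuousOn b D.cU) {u : D.L2}
    (hu0 : u ≠ 0) (hP : D.P u = 0) (hw : D.WeakDbar u (D.Mul b u)) :
    ∃ u' : D.L2, u' ≠ 0 ∧ D.P u' = 0 ∧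
      D.WeakDbar u' (D.Mul (fun z => b z + h.vb (fun j => (x₀ j : ℂ)) z) u') := by
  obtain ⟨f, hfd, hf0, hfn⟩ := exists_phi h hτ hδ hδτ hx₀
  have hsub := D.cU_subset_Ue hδ
  have hopen := D.Ue_open δ
  -- the conjugate of `f`
  obtain ⟨F, hF⟩ : ∃ F : ℂ → ℂ, F = fun z => conj (f z) := ⟨_, rfl⟩
  have hfR : ContDiffOn ℝ (⊤ : ℕ∞) f (D.Ue δ) := hol_contDiffOn hopen hfd
  have hFs : ContDiffOn ℝ (⊤ : ℕ∞) F (D.Ue δ) := by
    rw [hF]; exact (Complex.conjCLE : ℂ →L[ℝ] ℂ).contDiff.comp_contDiffOn hfR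
  have hFc : ContinuousOn F D.cU := hFs.continuousOn.mono hsub
  have hF0 : ∀ z ∈ D.Ue δ, F z ≠ 0 := by
    intro z hz
    rw [hF]
    simpa using hf0 z hz
  -- the derivative of `F`
  have hder : ∀ z ∈ D.Ue δ, dzb F z = h.vb (fun j => (x₀ j : ℂ)) z * F z := by
    intro z hz
    have hn := hopen.mem_nhds hz
    have hfz : DifferentiableAt ℂ f z := hfd.differentiableAt hn
    have e1 : (fun w => f w • F w) =ᶠ[𝓝 z] fun w => Complex.exp ((h.rho x₀ w : ℝ) : ℂ) := by
      filter_upwards [hn] with w hw'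
      rw [hF, smul_eq_mul]
      beta_reduce
      rw [Complex.mul_conj, Complex.normSq_eq_norm_sq, hfn w hw', Complex.ofReal_exp]
    have e2 := (dz_congr e1).2
    have hρ : DifferentiableAt ℝ (fun w => ((h.rho x₀ w : ℝ) : ℂ)) z :=
      Complex.ofRealCLM.differentiableAt.comp z
        (((rho_facts h hτ hδ x₀ 0).1.contDiffAt hn).differentiableAt (by simp))
    have hFz : DifferentiableAt ℝ F z := (hFs.contDiffAt hn).differentiableAt (by simp)
    rw [(dz_smul (hfz.restrictScalars ℝ) hFz).2, (dz_hol hfz).2, (dz_cexp hρ).2,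
      (rho_facts h hτ hδ x₀ 0).2.2.2.2.1 z hz, zero_smul, zero_add, smul_eq_mul] at e2
    have e3 : Complex.exp ((h.rho x₀ z : ℝ) : ℂ) = f z * F z := by
      rw [hF, ← Complex.ofReal_exp, ← hfn z hz]
      beta_reduce
      rw [Complex.mul_conj, Complex.normSq_eq_norm_sq]
    rw [e3] at e2
    have e4 : conj (h.vv x₀ z) = h.vb (fun j => (x₀ j : ℂ)) z := by
      simp [HM.vv, HM.vb, map_sum]
    rw [e4, mul_assoc] at e2
    have e5 := mul_left_cancel₀ (hf0 z hz) e2
    rw [e5, mul_comm]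
  have hvb : ContinuousOn (h.vb (fun j => (x₀ j : ℂ))) D.cU := vb_cont h hδ _
  refine ⟨D.Mul F u, ?_, ?_, ?_⟩
  · intro h0
    apply hu0
    have hinv : ContinuousOn (fun z => (F z)⁻¹) D.cU := hFc.inv₀ fun z hz => hF0 z (hsub hz)
    have h1 : D.Mul (fun z => (F z)⁻¹ * F z) u = 0 := by
      rw [← mul_mul D hinv hFc, h0, map_zero]
    have h2 : D.Mul (fun z => (F z)⁻¹ * F z) = D.Mul (fun _ => 1) :=
      mul_congr D (hinv.mul hFc) continuousOn_const
        (fun z hz => inv_mul_cancel₀ (hF0 z (hsub (D.U_subset_cU hz))))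
    rw [h2, mul_one'] at h1
    exact h1
  · rw [P_eq_zero_iff] at hP ⊢
    intro g hg
    have h1 := hP (fun z => f z * g z) ?_
    · rw [← h1]
      refine integral_congr_ae ?_
      filter_upwards [D.Mul_coe hFc u] with z hz
      rw [hz, hF]
      beta_reduce
      rw [map_mul]
      ring
    · refine ⟨(hfd.mono (D.U_subset_cU.trans hsub)).mul hg.diff, ?_⟩
      obtain ⟨C, hC⟩ := D.cU_compact.exists_bound_of_continuousOn (hfd.continuousOn.mono hsub)
      refine MemLp.of_le_mul (c := C) hg.memLp ?_ ?_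
      · exact (((hfd.continuousOn.mono hsub).mono D.U_subset_cU).aestronglyMeasurable
          D.U_open.measurableSet).mul hg.memLp.1
      · filter_upwards [ae_restrict_mem D.U_open.measurableSet] with z hz
        rw [norm_mul]
        exact mul_le_mul_of_nonneg_right (hC z (D.U_subset_cU hz)) (norm_nonneg _)
  · have h1 := weak_mul D hopen hsub hFs hw
    have hdc : ContinuousOn (dzb F) D.cU :=
      ((dz_contDiffOn hopen hFs).2.continuousOn).mono hsub
    have h2 : D.Mul F (D.Mul b u) + D.Mul (dzb F) u =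
        D.Mul (fun z => b z + h.vb (fun j => (x₀ j : ℂ)) z) (D.Mul F u) := by
      have c1 : ContinuousOn (fun z => b z + h.vb (fun j => (x₀ j : ℂ)) z) D.cU := hb.add hvb
      have c2 : ContinuousOn (fun z => F z * b z) D.cU := hFc.mul hb
      rw [mul_mul D hFc hb, mul_mul D c1 hFc, ← ContinuousLinearMap.add_apply,
        ← mul_add' D c2 hdc]
      refine congrArg (fun L : D.L2 →L[ℂ] D.L2 => L u) (mul_congr D (c2.add hdc)
        (c1.mul hFc) ?_)
      intro z hz
      rw [hder z (hsub (D.U_subset_cU hz))]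
      ring
    rw [h2] at h1
    exact h1

end

end Pool.Agent.Helper7.KE
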