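import Pool.Agent.Helper7.KE.E9e
import Pool.Agent.Helper7.KE.E9f
import Pool.Agent.Helper7.KE.C4b
import Pool.Agent.Helper7.KE.E4
import Pool.Agent.Helper7.KE.E5d
import Pool.Agent.Helper7.KE.E5e
import Pool.Agent.Helper7.KE.E6
import Pool.Agent.Helper7.KE.E7a
import Pool.Agent.Helper7.KE.E7b

/-! The final contradiction. -/

set_option autoImplicit false

open MeasureTheory Set Filter Asymptotics Topology Metric
open scoped ComplexConjugate ENNReal

namespace Pool.Agent.Helper7.KE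

/-- the group of the returns -/
def Ret {W : Type*} [AddCommGroup W] [Module ℝ W] (L : AddSubgroup W) (ξ : W) : AddSubgroup W where
  carrier := {v | ∃ t : ℝ, t • ξ - v ∈ L}
  add_mem' := by
    rintro v w ⟨t, ht⟩ ⟨t', ht'⟩
    refine ⟨t + t', ?_⟩
    have := L.add_mem ht ht'
    rw [add_smul]
    convert this using 1
    abel
  zero_mem' := ⟨0, by simp⟩
  neg_mem' := by
    rintro v ⟨t, ht⟩
    refine ⟨-t, ?_⟩
    have := L.neg_mem ht
    rw [neg_smul]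
    convert this using 1
    abel

section ops
variable {k : ℕ} {D : CD k} {τ δ : ℝ} {ι : Type} [Fintype ι] [DecidableEq ι]

/-- the family of operators is affine in the parameters -/
theorem op_affine (h : HM D τ δ) (hτ : D.Good τ) (hδ : 0 < δ) {e : Fin k → ℝ}
    (ps : PS D (h.rho e) ι) (T : D.L2 →L[ℂ] D.L2) (N : ℝ) (φ : ι → ℝ) (x : Fin k → ℝ)
    (om : Fin k → ℂ) (s : ℝ) (μ : ℂ) :
    (1 - T ∘L D.Mul (dzb (lS h ps N (fun i => -φ i) 0))) +
      (s : ℂ) • (-(T ∘L D.Mul (fun z => Complex.I * ∑ i, (φ i : ℂ) *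
        dzb (fun u => (ps.chi i u : ℂ)) z + h.vb (fun j => (x j : ℂ)) z))) +
      μ • (-(T ∘L D.Mul (h.vb om))) =
    1 - T ∘L D.Mul (dzb (lS h ps N (fun i => (s - 1) * φ i) (fun j => ((s * x j : ℝ) : ℂ) +
      μ * om j))) := by
  have hsub := D.cU_subset_Ue hδ
  have c0 : ContinuousOn (dzb (lS h ps N (fun i => -φ i) 0)) D.cU := dzb_lS_cont h hτ hδ ps N _ _
  have c1 : ContinuousOn (fun z => Complex.I * ∑ i, (φ i : ℂ) *
      dzb (fun u => (ps.chi i u : ℂ)) z + h.vb (fun j => (x j : ℂ)) z) D.cU := by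
    refine ContinuousOn.add (continuousOn_const.mul ?_) (vb_cont h hδ _)
    exact continuousOn_finsetSum _ fun i _ =>
      continuousOn_const.mul (dzb_ps_cont ps i).continuousOn
  have c2 : ContinuousOn (h.vb om) D.cU := vb_cont h hδ _
  have c3 : ContinuousOn (fun z => (s : ℂ) * (Complex.I * ∑ i, (φ i : ℂ) *
      dzb (fun u => (ps.chi i u : ℂ)) z + h.vb (fun j => (x j : ℂ)) z)) D.cU :=
    continuousOn_const.mul c1
  have c4 : ContinuousOn (fun z => μ * h.vb om z) D.cU := continuousOn_const.mul c2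
  have c5 : ContinuousOn (fun z => (s : ℂ) * (Complex.I * ∑ i, (φ i : ℂ) *
      dzb (fun u => (ps.chi i u : ℂ)) z + h.vb (fun j => (x j : ℂ)) z) + μ * h.vb om z) D.cU :=
    c3.add c4
  have key : D.Mul (dzb (lS h ps N (fun i => (s - 1) * φ i) (fun j => ((s * x j : ℝ) : ℂ) +
      μ * om j))) = D.Mul (dzb (lS h ps N (fun i => -φ i) 0)) +
        ((s : ℂ) • D.Mul (fun z => Complex.I * ∑ i, (φ i : ℂ) *
        dzb (fun u => (ps.chi i u : ℂ)) z + h.vb (fun j => (x j : ℂ)) z) + μ • D.Mul (h.vb om)) := by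
    rw [← mul_smul' D c1, ← mul_smul' D c2, ← mul_add' D c3 c4, ← mul_add' D c0 c5]
    refine mul_congr D (dzb_lS_cont h hτ hδ ps N _ _) (c0.add c5) ?_
    intro z hz
    have hzU := hsub (D.U_subset_cU hz)
    rw [dzb_lS h hτ hδ ps N _ _ hzU, dzb_lS h hτ hδ ps N _ _ hzU]
    have e1 : h.vb 0 z = 0 := by simp [HM.vb]
    have e2 : h.vb (fun j => ((s * x j : ℝ) : ℂ) + μ * om j) z =
        s * h.vb (fun j => (x j : ℂ)) z + μ * h.vb om z := by
      rw [vb_lin h (fun j => ((s * x j : ℝ) : ℂ)) om μ z]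
      congr 1
      unfold HM.vb
      rw [Finset.mul_sum]
      exact Finset.sum_congr rfl fun j _ => by push_cast; ring
    have e3 : ∑ i, (((s - 1) * φ i : ℝ) : ℂ) * dzb (fun u => (ps.chi i u : ℂ)) z =
        ∑ i, ((-φ i : ℝ) : ℂ) * dzb (fun u => (ps.chi i u : ℂ)) z +
          s * ∑ i, (φ i : ℂ) * dzb (fun u => (ps.chi i u : ℂ)) z := by
      rw [Finset.mul_sum, ← Finset.sum_add_distrib]
      exact Finset.sum_congr rfl fun i _ => by push_cast; ring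
    rw [e1, e2, e3]
    ring
  rw [key]
  ext1 f
  simp only [ContinuousLinearMap.comp_add, ContinuousLinearMap.comp_smul, add_apply, sub_apply,
    smul_apply, neg_apply]
  simp only [smul_neg]
  abel

end ops

theorem core {n : ℕ} {D : CD (n + 1)} {τ δ : ℝ} {ι : Type} [Fintype ι] [DecidableEq ι]
    (hτ : D.Good τ) (hδ : 0 < δ) (hδτ : δ ≤ τ) (h : HM D τ δ) {e e' : Fin (n + 1) → ℝ}
    (he : e ≠ 0) (ps : PS D (h.rho e) ι) {z₀ : ℂ} (hz₀ : z₀ ∈ D.U) {ε C₀ : ℝ} (hε : 0 < ε)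
    (hε1 : ε < 1) {g : Fin (n + 1) → (Fin (n + 1) → ℂ) → ℂ → ℂ} (hg : IsFrame D τ δ z₀ ε C₀ g)
    (hline : ∀ T : ℝ, 0 < T → ∃ (d : ℂ → ℂ) (gl : Fin (n + 1) → ℂ → ℂ → ℂ),
      IsLine D τ δ z₀ (fun j => e' j + Complex.I * e j) T d gl) (R : ℝ) :
    ∃ μ : ℂ, R < ‖μ‖ ∧ ∃ u : D.L2, u ≠ 0 ∧ D.P u = 0 ∧
      D.WeakDbar u (μ • D.Mul (h.vb (fun j => e' j + Complex.I * e j)) u) := by
  classical
  by_contra hcon
  push Not at hcon
  obtain ⟨κ, q, hq, r', hr', b, hb, ε₁, hε₁, htt, N₁, hF⟩ := lower_F hτ hδ hδτ h he ps hz₀ hε hε1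
    hg hline
  set om : Fin (n + 1) → ℂ := fun j => e' j + Complex.I * e j with hom
  obtain ⟨T, hT⟩ := exists_kohn D
  -- the compact set of multipliers
  have hKmem : ∀ t : Fin (n + 1) → ℂ, t ∈ closedBall (1 : Fin (n + 1) → ℂ) (ε / 2) ↔
      ∀ j, ‖t j - 1‖ ≤ ε / 2 := by
    intro t
    rw [mem_closedBall_iff_norm, pi_norm_le_iff_of_nonneg (half_pos hε).le]
    rfl
  have hKε : ∀ t ∈ closedBall (1 : Fin (n + 1) → ℂ) (ε / 2), ∀ j, ‖t j - 1‖ < ε := fun t ht j =>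
    ((hKmem t).1 ht j).trans_lt (by linarith)
  obtain ⟨Λ, hΛ⟩ : ∃ Λ : ℝ, Λ = 1 + r' * ‖om‖ := ⟨_, rfl⟩
  have hΛ1 : 1 ≤ Λ := by
    rw [hΛ]; have := mul_nonneg hr'.le (norm_nonneg om); linarith
  obtain ⟨N₂, K', hlow⟩ := toe_lower hτ hδ hδτ h he ps hz₀
    (isCompact_closedBall (1 : Fin (n + 1) → ℂ) (ε / 2)) (fun t ht j h0 => by
      have := hKε t ht j
      rw [h0, zero_sub, norm_neg, norm_one] at this
      linarith)
    (g := g) (fun b => (hg.cont b).mono (prod_mono_left fun t ht => hKε t ht))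
    (fun b t ht => hg.hol b t (hKε t ht)) (C₀ := C₀) (fun t ht => hg.dec t (hKε t ht)) hq Λ κ b hb
  obtain ⟨Ci, hCi, hinv⟩ := inverse_bound hδ h ps hT Λ
  obtain ⟨m, hm⟩ : ∃ m : ℝ, m = max K' 0 := ⟨_, rfl⟩
  have hm0 : 0 ≤ m := by rw [hm]; exact le_max_right _ _
  obtain ⟨Kn, hKn⟩ : ∃ Kn : ℕ, Kn = ⌈m⌉₊ + 3 := ⟨_, rfl⟩
  obtain ⟨Cn, hnk⟩ := near_kernel hτ hδ hδτ h he ps 1 Kn
  obtain ⟨Cb, hCb, hbd⟩ := dzb_lS_bound h hτ hδ ps 1
  -- the holomorphic function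
  have hv2 : D.Hol2 (h.vv e) := hol2_of_nhds D (D.Ue_open δ) (D.cU_subset_Ue hδ)
    (rho_facts h hτ hδ e 0).2.2.1
  obtain ⟨u₀, hu₀⟩ : ∃ u₀ : D.Berg, ((u₀ : D.L2) : ℂ → ℂ) =ᵐ[volume.restrict D.U] h.vv e :=
    ⟨⟨hv2.memLp.toLp _, berg_of_hol2 D hv2 (hv2.memLp.coeFn_toLp)⟩, hv2.memLp.coeFn_toLp⟩
  have hu₀0 : 0 < ‖u₀‖ := by
    rw [norm_pos_iff]
    intro h0
    obtain ⟨z, hz, hz0⟩ := (vv_zeros h hτ hδ hδτ he).2
    apply hz0
    refine hol_unique D hv2.diff (differentiableOn_const 0) ?_ z hz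
    rw [h0] at hu₀
    exact hu₀.symm.trans (Lp.coeFn_zero _ _ _)
  -- the closed group
  obtain ⟨ε₂, hε₂, hgrp⟩ := closed_subgroup (Ret (Lat (ι := ι) h.Rm) (e', ps.c)).topologicalClosure
    (AddSubgroup.isClosed_topologicalClosure _)
  -- the choice of the return
  obtain ⟨ε₃, hε₃⟩ : ∃ ε₃ : ℝ, ε₃ = min (min ε₁ ε₂) 1 := ⟨_, rfl⟩
  have hε₃0 : 0 < ε₃ := by rw [hε₃]; exact lt_min (lt_min hε₁ hε₂) one_pos
  have hε₃1 : ε₃ ≤ 1 := by rw [hε₃]; exact min_le_right _ _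
  have hε₃a : ε₃ ≤ ε₁ := by rw [hε₃]; exact (min_le_left _ _).trans (min_le_left _ _)
  have hε₃b : ε₃ ≤ ε₂ := by rw [hε₃]; exact (min_le_left _ _).trans (min_le_right _ _)
  obtain ⟨B, hB⟩ : ∃ B : ℝ, B = |Cn| * (1 + Ci * ‖T‖ * Cb) / ‖u₀‖ + 1 := ⟨_, rfl⟩
  obtain ⟨N, hN, x₀, nn, hx₀, hx, hφ⟩ := recurrence h.Rm h.det_ne e' ps.c ε₃
    (max (max (max N₁ N₂) 1) (max (|R| + r' + 1) B)) hε₃0
  have hN1 : N₁ ≤ N := ((le_max_left _ _).trans ((le_max_left _ _).trans (le_max_left _ _))).trans hN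
  have hN2 : N₂ ≤ N := ((le_max_right _ _).trans ((le_max_left _ _).trans (le_max_left _ _))).trans hN
  have hN3 : 1 ≤ N := ((le_max_right _ _).trans (le_max_left _ _)).trans hN
  have hN4 : |R| + r' + 1 ≤ N := ((le_max_left _ _).trans (le_max_right _ _)).trans hN
  have hN5 : B ≤ N := ((le_max_right _ _).trans (le_max_right _ _)).trans hN
  have hN0 : 0 < N := lt_of_lt_of_le one_pos hN3
  obtain ⟨x, hxd⟩ : ∃ x : Fin (n + 1) → ℝ, x = fun j => N * e' j - x₀ j := ⟨_, rfl⟩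
  obtain ⟨φ, hφd⟩ : ∃ φ : ι → ℝ, φ = fun i => N * ps.c i - 2 * Real.pi * nn i := ⟨_, rfl⟩
  have hxs : ∀ j, |x j| < ε₃ := fun j => by rw [hxd]; exact hx j
  have hφs : ∀ i, |φ i| < ε₃ := fun i => by rw [hφd]; exact hφ i
  obtain ⟨v, hvd⟩ : ∃ v : (Fin (n + 1) → ℝ) × (ι → ℝ), v = (x, φ) := ⟨_, rfl⟩
  have hvn : ‖v‖ < ε₃ := by
    rw [hvd, Prod.norm_mk]
    exact max_lt ((pi_norm_lt_iff hε₃0).2 hxs) ((pi_norm_lt_iff hε₃0).2 hφs)
  have hvG : v ∈ Ret (Lat (ι := ι) h.Rm) (e', ps.c) := by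
    refine ⟨N, ?_, ?_⟩
    · intro l
      obtain ⟨m, hm⟩ := hx₀ l
      refine ⟨m, ?_⟩
      rw [← hm]
      congr 1
      rw [hvd, hxd]
      funext j
      simp
    · intro i
      refine ⟨nn i, ?_⟩
      rw [hvd, hφd]
      simp
  have hvs : ∀ s : ℝ, s • v ∈ closure {v : (Fin (n + 1) → ℝ) × (ι → ℝ) | ∃ t : ℝ,
      t • (e', ps.c) - v ∈ Lat (ι := ι) h.Rm} := by
    intro s
    exact hgrp v (AddSubgroup.le_topologicalClosure _ hvG) (hvn.trans_le hε₃b) s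
  -- the phase at the outer circle
  have hφ0 : φ (ps.bd none) = 0 := by
    have h1 := (ps_c_eq h hτ hδ ps).2
    have h2 := hφs (ps.bd none)
    have h3 : φ (ps.bd none) = -(2 * Real.pi * nn (ps.bd none)) := by
      rw [hφd]; simp [h1]
    rw [h3, abs_neg, abs_mul, abs_of_pos (by positivity : (0 : ℝ) < 2 * Real.pi)] at h2
    have h4 : |((nn (ps.bd none) : ℤ) : ℝ)| < 1 := by
      have h5 : (1 : ℝ) ≤ 2 * Real.pi := by linarith [Real.pi_gt_three]
      have h6 := abs_nonneg ((nn (ps.bd none) : ℤ) : ℝ)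
      nlinarith
    have h5 : nn (ps.bd none) = 0 := by
      rw [← Int.abs_lt_one_iff]
      exact_mod_cast h4
    rw [h3, h5]; simp
  have hexp : ∀ (s : ℝ) (i : ι), Complex.exp (Complex.I * (N * ps.c i + (s - 1) * φ i : ℝ)) =
      Complex.exp (Complex.I * ((s * φ i : ℝ) : ℂ)) := by
    intro s i
    rw [Complex.exp_eq_exp_iff_exists_int]
    refine ⟨nn i, ?_⟩
    have h1 : N * ps.c i = φ i + 2 * Real.pi * nn i := by rw [hφd]; ring
    rw [h1]
    push_cast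
    ring
  -- the operators
  obtain ⟨A₀, hA₀⟩ : ∃ A : D.L2 →L[ℂ] D.L2,
    A = 1 - T ∘L D.Mul (dzb (lS h ps N (fun i => -φ i) 0)) := ⟨_, rfl⟩
  obtain ⟨A₁, hA₁⟩ : ∃ A : D.L2 →L[ℂ] D.L2,
    A = -(T ∘L D.Mul (fun z => Complex.I * ∑ i, (φ i : ℂ) *
        dzb (fun u => (ps.chi i u : ℂ)) z + h.vb (fun j => (x j : ℂ)) z)) := ⟨_, rfl⟩
  obtain ⟨A₂, hA₂⟩ : ∃ A : D.L2 →L[ℂ] D.L2, A = -(T ∘L D.Mul (h.vb om)) := ⟨_, rfl⟩
  have haff : ∀ (s : ℝ) (μ : ℂ), A₀ + (s : ℂ) • A₁ + μ • A₂ =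
      1 - T ∘L D.Mul (dzb (lS h ps N (fun i => (s - 1) * φ i)
        (fun j => ((s * x j : ℝ) : ℂ) + μ * om j))) := by
    intro s μ
    rw [hA₀, hA₁, hA₂]
    exact op_affine h hτ hδ ps T N φ x om s μ
  have hhom := homotopy A₀ A₁ A₂ (r := r') (M := Ci * N * N ^ m) hr' ?_ ?_
  · -- the contradiction
    obtain ⟨S, hS⟩ : ∃ S : ℂ → ℂ, S = fun z => Complex.exp (lS h ps N (fun i => -φ i) 0 z) :=
      ⟨_, rfl⟩
    have hcS : ContinuousOn S D.cU := by
      rw [hS]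
      exact (lSm_smooth h hτ hδ ps N _ _).cexp.continuousOn.mono (D.cU_subset_Ue hδ)
    have hS1 : ∀ z ∈ D.U, ‖S z‖ = 1 := by
      intro z _
      rw [hS]
      beta_reduce
      have e1 : lS h ps N (fun i => -φ i) 0 z = ((N * h.rho e z + ∑ i, -φ i * ps.chi i z : ℝ) : ℂ) *
          Complex.I := by
        simp only [lS, HM.rhoC, Pi.zero_apply, zero_mul, Finset.sum_const_zero, add_zero]
        push_cast
        ring
      rw [e1, Complex.norm_exp_ofReal_mul_I]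
    have h1 := hnk N hN3 (fun i => -φ i) (fun i => by
        rw [abs_neg]; exact (hφs i).le.trans hε₃1) (by
      intro l
      have := hexp 0 (ps.bd l)
      simp only [zero_sub, neg_one_mul, zero_mul, Complex.ofReal_zero, mul_zero,
        Complex.exp_zero] at this
      exact this) u₀ hu₀
    rw [← hS] at h1
    have h2 := canon_eq h hτ hδ ps hT N (fun i => -φ i) 0 u₀
    rw [← hS] at h2
    obtain ⟨β, hβ⟩ : ∃ β : ℂ → ℂ, β = dzb (lS h ps N (fun i => -φ i) 0) := ⟨_, rfl⟩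
    have hcβ : ContinuousOn β D.cU := by rw [hβ]; exact dzb_lS_cont h hτ hδ ps N _ _
    rw [← hβ] at h2 hA₀
    have hβn : ‖D.Mul β‖ ≤ Cb * N := by
      refine D.Mul_norm_le hcβ ?_ (by positivity)
      rw [hβ]
      exact hbd N hN3 _ fun i => by rw [abs_neg]; exact (hφs i).le.trans hε₃1
    have h3 := hhom (D.Mul S u₀ - (D.Toe S u₀ : D.L2))
    have h4 : A₀ (D.Mul S u₀ - (D.Toe S u₀ : D.L2)) = T (D.Mul β (D.Toe S u₀ : D.L2)) := by
      rw [hA₀]
      simp only [sub_apply, one_apply_eq_self, ContinuousLinearMap.comp_apply]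
      conv_lhs => rw [map_sub (D.Mul β), map_sub T, ← h2]
      abel
    rw [h4] at h3
    have h5 : ‖T (D.Mul β (D.Toe S u₀ : D.L2))‖ ≤ ‖T‖ * (Cb * N * (|Cn| / N ^ Kn)) := by
      refine (T.le_opNorm _).trans (mul_le_mul_of_nonneg_left ?_ (norm_nonneg _))
      refine ((D.Mul β).le_opNorm _).trans (mul_le_mul hβn ?_ (norm_nonneg _) (by positivity))
      refine h1.trans ?_
      gcongr
      exact le_abs_self _
    have h6 : ‖(u₀ : D.L2)‖ - |Cn| / N ^ Kn ≤ ‖D.Mul S u₀ - (D.Toe S u₀ : D.L2)‖ := by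
      have h7 := norm_sub_norm_le (D.Mul S (u₀ : D.L2)) (D.Toe S u₀ : D.L2)
      rw [norm_Mul_unimod hcS hS1] at h7
      have h8 : ‖(D.Toe S u₀ : D.L2)‖ ≤ |Cn| / N ^ Kn := by
        refine h1.trans ?_
        gcongr
        exact le_abs_self _
      linarith
    -- numerics
    have hA : 0 ≤ |Cn| := abs_nonneg _
    have hp1 : N ≤ N ^ Kn := by
      calc N = N ^ 1 := (pow_one N).symm
        _ ≤ N ^ Kn := pow_le_pow_right₀ hN3 (by omega)
    have hp2 : N ^ m * N ^ 2 * N ≤ N ^ Kn := by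
      have h7 : N ^ m ≤ N ^ ⌈m⌉₊ := by
        rw [← Real.rpow_natCast]
        exact Real.rpow_le_rpow_of_exponent_le hN3 (Nat.le_ceil m)
      calc N ^ m * N ^ 2 * N ≤ N ^ ⌈m⌉₊ * N ^ 2 * N := by gcongr
        _ = N ^ Kn := by rw [hKn]; ring
    have hK0 : 0 < N ^ Kn := by positivity
    have q1 : |Cn| / N ^ Kn ≤ |Cn| / N := by gcongr
    have q2 : Ci * N * N ^ m * (‖T‖ * (Cb * N * (|Cn| / N ^ Kn))) ≤
        Ci * ‖T‖ * Cb * |Cn| / N := by
      have e1 : Ci * N * N ^ m * (‖T‖ * (Cb * N * (|Cn| / N ^ Kn))) =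
          Ci * ‖T‖ * Cb * |Cn| * (N ^ m * N ^ 2 / N ^ Kn) := by ring
      have e2 : N ^ m * N ^ 2 / N ^ Kn ≤ 1 / N := by
        rw [div_le_div_iff₀ hK0 hN0]
        linarith
      rw [e1]
      calc _ ≤ Ci * ‖T‖ * Cb * |Cn| * (1 / N) := by gcongr
        _ = _ := by ring
    have q3 : ‖(u₀ : D.L2)‖ ≤ |Cn| * (1 + Ci * ‖T‖ * Cb) / N := by
      have e1 : Ci * N * N ^ m * ‖T (D.Mul β (D.Toe S u₀ : D.L2))‖ ≤
          Ci * N * N ^ m * (‖T‖ * (Cb * N * (|Cn| / N ^ Kn))) :=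
        mul_le_mul_of_nonneg_left h5 (by positivity)
      have e2 : |Cn| * (1 + Ci * ‖T‖ * Cb) / N = |Cn| / N + Ci * ‖T‖ * Cb * |Cn| / N := by ring
      rw [e2]
      linarith
    have hu : ‖(u₀ : D.L2)‖ = ‖u₀‖ := rfl
    rw [hu, le_div_iff₀ hN0] at q3
    have q4 : |Cn| * (1 + Ci * ‖T‖ * Cb) / ‖u₀‖ < N := by
      rw [hB] at hN5; linarith
    rw [div_lt_iff₀ hu₀0] at q4
    linarith
  · -- invertibility at `s = 1`
    intro μ hμ
    have h1 := haff 1 μ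
    rw [Complex.ofReal_one, one_smul] at h1
    rw [h1]
    refine isUnit_of_inj hT _ fun u hu => ?_
    by_contra hu0
    obtain ⟨β, hβ⟩ : ∃ β : ℂ → ℂ, β = dzb (lS h ps N (fun i => ((1 : ℝ) - 1) * φ i)
        (fun j => ((1 * x j : ℝ) : ℂ) + μ * om j)) := ⟨_, rfl⟩
    have hcβ : ContinuousOn β D.cU := by rw [hβ]; exact dzb_lS_cont h hτ hδ ps N _ _
    rw [← hβ] at hu
    have hP : D.P u = 0 := by rw [hu]; exact hT.orth _
    have hw : D.WeakDbar u (D.Mul β u) := by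
      have := hT.weak (D.Mul β u)
      rwa [← hu] at this
    obtain ⟨u', hu'0, hu'P, hu'w⟩ := gauge h hτ hδ hδτ hx₀ hcβ hu0 hP hw
    have hNμ : R < ‖(N : ℂ) + μ‖ := by
      have h2 : ‖(N : ℂ)‖ - ‖μ‖ ≤ ‖(N : ℂ) + μ‖ := by
        have := norm_sub_norm_le (N : ℂ) (-μ)
        rwa [norm_neg, sub_neg_eq_add] at this
      rw [Complex.norm_real, Real.norm_of_nonneg hN0.le] at h2
      have h3 := le_abs_self R
      linarith
    refine hcon ((N : ℂ) + μ) hNμ u' hu'0 hu'P ?_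
    have hc2 : ContinuousOn (h.vb om) D.cU := vb_cont h hδ _
    have hc3 : ContinuousOn (fun z => ((N : ℂ) + μ) * h.vb om z) D.cU := continuousOn_const.mul hc2
    have h2 : D.Mul (fun z => β z + h.vb (fun j => (x₀ j : ℂ)) z) =
        ((N : ℂ) + μ) • D.Mul (h.vb om) := by
      rw [← mul_smul' D hc2]
      refine mul_congr D (hcβ.add (vb_cont h hδ _)) hc3 ?_
      intro z hz
      rw [hβ, dzb_lS h hτ hδ ps N _ _ (D.cU_subset_Ue hδ (D.U_subset_cU hz))]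
      have e1 : ∑ i, ((((1 : ℝ) - 1) * φ i : ℝ) : ℂ) * dzb (fun u => (ps.chi i u : ℂ)) z = 0 := by
        refine Finset.sum_eq_zero fun i _ => ?_
        rw [sub_self, zero_mul, Complex.ofReal_zero, zero_mul]
      rw [e1, mul_zero, add_zero]
      simp only [HM.vv, HM.vb, map_sum, map_mul, Complex.conj_ofReal, Finset.mul_sum]
      rw [← Finset.sum_add_distrib, ← Finset.sum_add_distrib]
      refine Finset.sum_congr rfl fun j _ => ?_
      rw [hxd, hom]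
      push_cast
      ring
    rw [h2] at hu'w
    exact hu'w
  · -- the lower bound on the circle
    intro s hs0 hs1 μ hμ f
    rw [haff s μ]
    have hsv : ‖s • v‖ < ε₃ := by
      rw [norm_smul, Real.norm_of_nonneg hs0]
      exact (mul_le_of_le_one_left (norm_nonneg _) hs1).trans_lt hvn
    have ht := htt (s • v) (hsv.trans_le hε₃a) μ hμ.le
    have hlow1 := hF N hN1 (s • v) (hvs s) (hsv.trans_le hε₃a) μ hμ
    have hy : ∀ i, |(s - 1) * φ i| ≤ 1 := by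
      intro i
      rw [abs_mul]
      have e1 : |s - 1| ≤ 1 := by rw [abs_le]; constructor <;> linarith
      have e2 := (hφs i).le.trans hε₃1
      calc |s - 1| * |φ i| ≤ 1 * 1 := mul_le_mul e1 e2 (abs_nonneg _) zero_le_one
        _ = 1 := one_mul 1
    have hw : ∀ j, ‖((s * x j : ℝ) : ℂ) + μ * om j‖ ≤ Λ := by
      intro j
      rw [hΛ]
      refine (norm_add_le _ _).trans (add_le_add ?_ ?_)
      · rw [Complex.norm_real, Real.norm_eq_abs, abs_mul, abs_of_nonneg hs0]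
        calc s * |x j| ≤ 1 * 1 := mul_le_mul hs1 ((hxs j).le.trans hε₃1) (abs_nonneg _) zero_le_one
          _ = 1 := one_mul 1
      · rw [norm_mul, hμ]
        exact mul_le_mul_of_nonneg_left (norm_le_pi_norm om j) hr'.le
    have hc0 := (ps_c_eq h hτ hδ ps).2
    have hlow2 := hlow N hN2 (fun i => (s - 1) * φ i) (s • v).2
      (fun j => ((s * x j : ℝ) : ℂ) + μ * om j) (fun i => (hy i).trans hΛ1) hw
      (by rw [hc0, hφ0]; simp)
      (by
        intro i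
        rw [hexp s i]
        rw [hvd]
        rfl)
      (tt ps om (s • v) μ) ((hKmem _).2 ht)
      (by
        intro j
        rw [Complex.exp_add, hexp s (ps.bd (some j)), ← Complex.exp_add, tt, hvd]
        congr 1
        simp only [Prod.smul_mk, Pi.smul_apply, smul_eq_mul]
        ring)
      (by
        refine hlow1.trans (le_of_eq ?_)
        unfold FF
        have e1 : (fun j => (((s • v).1 j : ℝ) : ℂ) + μ * om j) =
            fun j => ((s * x j : ℝ) : ℂ) + μ * om j := by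
          rw [hvd]; rfl
        rw [e1])
    refine hinv N hN3 _ _ (N ^ m) (fun i => (hy i).trans hΛ1) hw (Real.one_le_rpow hN3 hm0) ?_ f
    intro f'
    refine (hlow2 f').trans ?_
    refine mul_le_mul_of_nonneg_right ?_ (norm_nonneg _)
    exact Real.rpow_le_rpow_of_exponent_le hN3 (by rw [hm]; exact le_max_left _ _)

end Pool.Agent.Helper7.KE
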