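import Pool.Agent.Helper7.KE.C9
import Pool.Agent.Helper7.KE.D7
import Pool.Agent.Helper7.KE.E9g

/-! Infinitely many nonzero solutions on circle domains. -/

set_option autoImplicit false

open MeasureTheory Set Filter Asymptotics Topology Metric
open scoped ComplexConjugate ENNReal

namespace Pool.Agent.Helper7.KE

/-- infinitely many `μ` with a nonzero solution -/
theorem circle_main {k : ℕ} {D : CD k} {τ δ : ℝ} (hτ : D.Good τ) (hδ : 0 < δ) (hδτ : δ ≤ τ)
    (h : HM D τ δ) {e e' : Fin k → ℝ} (he : e ≠ 0) (R : ℝ) :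
    ∃ μ : ℂ, R < ‖μ‖ ∧ ∃ u : D.L2, u ≠ 0 ∧ D.P u = 0 ∧
      D.WeakDbar u (μ • D.Mul (h.vb (fun j => e' j + Complex.I * e j)) u) := by
  classical
  obtain ⟨n, rfl⟩ : ∃ n, k = n + 1 := by
    rcases k with _ | n
    · exact absurd (Subsingleton.elim e 0) he
    · exact ⟨n, rfl⟩
  obtain ⟨z₀, hz₀⟩ := U_nonempty D
  obtain ⟨δf, hδf, -, ⟨ε, hε, hε1, C₀, g, f1, f2, f3, f4, f5, f6⟩, hline⟩ := frames D hτ hz₀
  have hle : min δ δf ≤ δ := min_le_left _ _
  have hsub : D.Ue (min δ δf) ⊆ D.Ue δf := fun z hz =>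
    ⟨hz.1.trans_le (by have := min_le_right δ δf; linarith), fun j =>
      lt_of_le_of_lt (by have := min_le_right δ δf; linarith) (hz.2 j)⟩
  obtain ⟨h', -, hv', -⟩ := HM_mono D h hle
  have hδ' : 0 < min δ δf := lt_min hδ hδf
  obtain ⟨m, ⟨ps⟩⟩ := exists_PS h' hτ hδ' (hle.trans hδτ) he
  have hfr : IsFrame D τ (min δ δf) z₀ ε C₀ g :=
    { cont := fun b => (f1 b).mono (prod_mono_right hsub)
      hol := fun b t ht => (f2 b t ht).mono hsub
      holt := fun b z hz => f3 b z (hsub hz)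
      vv := f4
      res := f5
      dec := f6 }
  obtain ⟨μ, hμ, u, hu, hP, hw⟩ := core (e' := e') hτ hδ' (hle.trans hδτ) h' he ps hz₀ hε hε1
    hfr (by
      intro T hT
      obtain ⟨d, gl, l1, l2, l3, l4, l5, l6, l7⟩ := hline (fun j => e' j + Complex.I * e j) T hT
      exact ⟨d, gl,
        { hd := l1
          d0 := l2
          cont := fun b => (l3 b).mono (prod_mono_right hsub)
          hol := fun b s hs => (l4 b s hs).mono hsub
          hols := fun b z hz => l5 b z (hsub hz)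
          vv := l6
          res := l7 }⟩) R
  refine ⟨μ, hμ, u, hu, hP, ?_⟩
  have e1 : h'.vb (fun j => e' j + Complex.I * e j) = h.vb (fun j => e' j + Complex.I * e j) := by
    unfold HM.vb
    rw [hv']
  rw [← e1]
  exact hw

end Pool.Agent.Helper7.KE
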