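import Pool.Agent.Helper7.KE.B1b
import Pool.Agent.Helper7.KE.C0a
import Pool.Agent.Helper7.KE.C0b
import Pool.Agent.Helper7.KE.E1
import Pool.Agent.Helper7.KE.D5a

/-! Auxiliary results for the assembly: bordered determinants, expansions of families. -/

set_option autoImplicit false

open MeasureTheory Set Filter Asymptotics Topology Metric
open scoped ComplexConjugate ENNReal

namespace Pool.Agent.Helper7.KE

/-! ### bordered determinants -/

theorem Fdet_mul {n : ℕ} (Q : Matrix (Fin (n + 1)) (Fin (n + 1)) ℂ) (B : Fin (n + 1) → Fin n → ℂ)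
    (s : Fin (n + 1) → ℂ) :
    Fdet (fun b l => ∑ b', Q b b' * B b' l) (fun b => ∑ b', Q b b' * s b') =
      Q.det * Fdet B s := by
  unfold Fdet
  rw [← Matrix.det_mul]
  congr 1
  ext b l
  rw [Matrix.mul_apply]
  refine Fin.lastCases ?_ (fun l => ?_) l
  · simp [Matrix.of_apply]
  · simp [Matrix.of_apply]

theorem Fdet_last {n : ℕ} (c : ℂ) (B : Fin (n + 1) → Fin n → ℂ) (s : Fin (n + 1) → ℂ) :
    Fdet B (fun b => c * s b) = c * Fdet B s := by
  unfold Fdet
  have h : (Matrix.of fun b l => Fin.snoc (α := fun _ => ℂ) (B b) (c * s b) l) =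
      (Matrix.of fun b l => Fin.snoc (α := fun _ => ℂ) (B b) (s b) l) *
        Matrix.diagonal (Fin.snoc (α := fun _ => ℂ) (fun _ => 1) c) := by
    ext b l
    rw [Matrix.mul_diagonal]
    refine Fin.lastCases ?_ (fun l => ?_) l
    · simp [Matrix.of_apply, mul_comm]
    · simp [Matrix.of_apply]
  rw [h, Matrix.det_mul, Matrix.det_diagonal, Fin.prod_univ_castSucc]
  simp [mul_comm]

/-! ### expansions of products and determinants -/

theorem exists_prod_scale {s : Finset (ℝ × ℕ)} {κ : ℝ} (hs : GoodScale κ s) (hκ : Irrational κ)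
    (hκ' : 0 < κ) (m : ℕ) : ∃ s' : Finset (ℝ × ℕ), GoodScale κ s' ∧
      ∀ (A : Type) [NormedCommRing A] [NormedAlgebra ℂ A] (f : Fin m → ℝ → A),
        (∀ i, HasExp s κ (f i)) → HasExp s' κ (fun N => ∏ i, f i N) := by
  induction m with
  | zero =>
    refine ⟨{(0, 0)}, ?_, ?_⟩
    · intro p hp
      rw [Finset.mem_singleton] at hp
      subst hp
      exact ⟨le_refl _, hκ', fun _ => rfl, 0, by simp⟩
    · intro A _ _ f _
      simp only [Finset.univ_eq_empty, Finset.prod_empty]
      exact HasExp.const (by simp) 1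
  | succ m ih =>
    obtain ⟨s', h1, h2⟩ := ih
    obtain ⟨s'', h3, h4⟩ := exists_mul_scale hs h1 hκ hκ'
    refine ⟨s'', h3, ?_⟩
    intro A _ _ f hf
    simp only [Fin.prod_univ_succ]
    exact h4 A _ _ (hf 0) (h2 A _ fun i => hf i.succ)

theorem exists_det_scale {s : Finset (ℝ × ℕ)} {κ : ℝ} (hs : GoodScale κ s) (hκ : Irrational κ)
    (hκ' : 0 < κ) (m : ℕ) : ∃ s' : Finset (ℝ × ℕ), GoodScale κ s' ∧
      ∀ (A : Type) [NormedCommRing A] [NormedAlgebra ℂ A] (M : Fin m → Fin m → ℝ → A),
        (∀ i j, HasExp s κ (M i j)) →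
          HasExp s' κ (fun N => Matrix.det (Matrix.of fun i j => M i j N)) := by
  obtain ⟨s', h1, h2⟩ := exists_prod_scale hs hκ hκ' m
  refine ⟨s', h1, ?_⟩
  intro A _ _ M hM
  simp only [Matrix.det_apply']
  apply HasExp.sum
  intro σ _
  have h3 := h2 A (fun i => M (σ i) i) fun i => hM _ _
  have h4 := h3.clm ((((Equiv.Perm.sign σ : ℤ) : ℂ)) • ContinuousLinearMap.id ℂ A)
  refine h4.congr (Filter.Eventually.of_forall fun N => ?_)
  simp only [smul_apply, ContinuousLinearMap.id_apply, Matrix.of_apply]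
  rw [Algebra.smul_def]
  simp

/-! ### integrals over the domain depending on parameters -/

section params
variable {k : ℕ} (D : CD k)

/-- integration over `U` as a functional on the continuous functions on the closed domain -/
theorem exists_intC : ∃ L : C(D.cU, ℂ) →L[ℂ] ℂ, ∀ (f : C(D.cU, ℂ)) (F : ℂ → ℂ),
    (∀ z : D.cU, F z = f z) → ∫ z in D.U, F z = L f := by
  classical
  have hK : CompactSpace D.cU := isCompact_iff_compactSpace.1 D.cU_compact
  let ext : C(D.cU, ℂ) → ℂ → ℂ := fun f z => if hz : z ∈ D.cU then f ⟨z, hz⟩ else 0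
  have hext : ∀ f, ContinuousOn (ext f) D.cU := by
    intro f
    rw [continuousOn_iff_continuous_domRestrict]
    convert f.continuous using 1
    ext z
    simp [ext]
  have hint : ∀ f, Integrable (ext f) (volume.restrict D.U) := by
    intro f
    have h1 : IntegrableOn (ext f) D.cU volume := (hext f).integrableOn_compact D.cU_compact
    exact h1.mono_set D.U_subset_cU
  refine ⟨LinearMap.mkContinuousOfExistsBound
    { toFun := fun f => ∫ z in D.U, ext f z
      map_add' := fun f g => ?_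
      map_smul' := fun c f => ?_ } ⟨(volume D.U).toReal, fun f => ?_⟩, ?_⟩
  · rw [← integral_add (hint f) (hint g)]
    refine integral_congr_ae (Filter.Eventually.of_forall fun z => ?_)
    by_cases hz : z ∈ D.cU <;> simp [ext, hz]
  · rw [RingHom.id_apply, ← integral_smul]
    refine integral_congr_ae (Filter.Eventually.of_forall fun z => ?_)
    by_cases hz : z ∈ D.cU <;> simp [ext, hz]
  · simp only [LinearMap.coe_mk, AddHom.coe_mk]
    have h1 : ∀ᵐ z ∂(volume.restrict D.U), ‖ext f z‖ ≤ ‖f‖ := by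
      refine Filter.Eventually.of_forall fun z => ?_
      by_cases hz : z ∈ D.cU
      · simp only [ext, hz, dif_pos]
        exact f.norm_coe_le_norm _
      · simp only [ext, hz, dif_neg, not_false_eq_true, norm_zero, norm_nonneg]
    have h2 := norm_integral_le_of_norm_le_const h1
    rw [mul_comm]
    refine h2.trans (le_of_eq ?_)
    simp [Measure.real]
  · intro f F hF
    simp only [LinearMap.mkContinuousOfExistsBound_apply, LinearMap.coe_mk, AddHom.coe_mk]
    refine setIntegral_congr_fun D.U_open.measurableSet fun z hz => ?_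
    have hz' := D.U_subset_cU hz
    simp only [ext, hz', dif_pos]
    exact hF ⟨z, hz'⟩

theorem hol_integral {V : Set ℂ} (hV : IsOpen V) {Φ : ℂ → ℂ → ℂ}
    (hc : ContinuousOn (fun p : ℂ × ℂ => Φ p.1 p.2) (V ×ˢ D.cU))
    (hd : ∀ z ∈ D.cU, DifferentiableOn ℂ (fun μ => Φ μ z) V) :
    DifferentiableOn ℂ (fun μ => ∫ z in D.U, Φ μ z) V := by
  have hK : CompactSpace D.cU := isCompact_iff_compactSpace.1 D.cU_compact
  obtain ⟨L, hL⟩ := exists_intC D
  obtain ⟨F, hF, hF'⟩ := curry_hol (K := D.cU) hV (G := fun z μ => Φ μ z) (by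
    have h1 : ContinuousOn (fun p : D.cU × ℂ => ((p.2, (p.1 : ℂ)) : ℂ × ℂ)) (univ ×ˢ V) := by
      fun_prop
    exact hc.comp h1 fun p hp => ⟨hp.2, p.1.2⟩) (fun z => hd z z.2)
  have h2 : DifferentiableOn ℂ (fun μ => L (F μ)) V := L.differentiable.comp_differentiableOn hF
  refine h2.congr fun μ hμ => ?_
  exact hL (F μ) _ fun z => (hF' μ hμ z).symm

theorem cont_integral {X : Type*} [TopologicalSpace X] {S : Set X} {Φ : X → ℂ → ℂ}
    (hc : ContinuousOn (fun p : X × ℂ => Φ p.1 p.2) (S ×ˢ D.cU)) :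
    ContinuousOn (fun x => ∫ z in D.U, Φ x z) S := by
  have hK : CompactSpace D.cU := isCompact_iff_compactSpace.1 D.cU_compact
  obtain ⟨L, hL⟩ := exists_intC D
  rw [continuousOn_iff_continuous_domRestrict]
  let G : C(S × D.cU, ℂ) := ⟨fun p => Φ p.1 p.2, by
    have h1 : Continuous (fun p : S × D.cU => (((p.1 : X), (p.2 : ℂ)) : X × ℂ)) := by fun_prop
    exact hc.comp_continuous h1 fun p => ⟨p.1.2, p.2.2⟩⟩
  have h2 : Continuous (fun x : S => L (G.curry x)) := L.continuous.comp G.curry.continuous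
  convert h2 using 1
  ext x
  exact hL (G.curry x) _ fun z => rfl

end params

end Pool.Agent.Helper7.KE
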