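import Pool.Agent.Helper7.KE.E9a

/-! Expansions of the bordered determinants of families, with coefficients holomorphic in `μ`. -/

set_option autoImplicit false

open MeasureTheory Set Filter Asymptotics Topology Metric
open scoped ComplexConjugate ENNReal

namespace Pool.Agent.Helper7.KE

section
variable {k : ℕ} {D : CD k} {τ δ : ℝ} {ι : Type} [Fintype ι] [DecidableEq ι]

theorem chiC_cont (τ : ℝ) (hτ : D.Good τ) (l : Option (Fin k)) :
    ContDiff ℝ (⊤ : ℕ∞) (fun w => (D.chi τ l w : ℂ)) :=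
  Complex.ofRealCLM.contDiff.comp (chi_smooth D hτ.pos hτ.lt_R l)

theorem dzb_chi_cont (hτ : D.Good τ) (l : Option (Fin k)) :
    Continuous (dzb (fun w => (D.chi τ l w : ℂ))) := by
  have h := (dz_contDiffOn isOpen_univ (chiC_cont τ hτ l).contDiffOn).2
  exact (contDiffOn_univ.1 h).continuous

/-- `sfun` is holomorphic in the parameter -/
theorem sfun_hol (hτ : D.Good τ) (hδ : 0 < δ) {V : Set ℂ} (hV : IsOpen V)
    {t : Fin k → ℂ → ℂ} (ht : ∀ j, DifferentiableOn ℂ (t j) V) {g : ℂ → ℂ → ℂ}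
    (hg : ContinuousOn (fun p : ℂ × ℂ => g p.1 p.2) (V ×ˢ D.Ue δ))
    (hg' : ∀ z ∈ D.Ue δ, DifferentiableOn ℂ (fun μ => g μ z) V) :
    DifferentiableOn ℂ (fun μ => sfun D τ (fun j => t j μ) (g μ)) V := by
  unfold sfun
  refine DifferentiableOn.fun_sum fun j _ => ?_
  refine ((ht j).sub_const 1).mul ?_
  refine hol_integral D hV (Φ := fun μ z => g μ z * dzb (fun w => (D.chi τ (some j) w : ℂ)) z)
    ?_ ?_
  · refine (hg.mono (prod_mono_right (D.cU_subset_Ue hδ))).mul ?_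
    exact ((dzb_chi_cont hτ (some j)).comp continuous_snd).continuousOn
  · intro z hz
    exact (hg' z (D.cU_subset_Ue hδ hz)).mul_const _

theorem sfun_cont (hτ : D.Good τ) (hδ : 0 < δ) {X : Type*} [TopologicalSpace X] {S : Set X}
    {t : Fin k → X → ℂ} (ht : ∀ j, ContinuousOn (t j) S) {g : X → ℂ → ℂ}
    (hg : ContinuousOn (fun p : X × ℂ => g p.1 p.2) (S ×ˢ D.Ue δ)) :
    ContinuousOn (fun x => sfun D τ (fun j => t j x) (g x)) S := by
  unfold sfun
  refine continuousOn_finsetSum _ fun j _ => ?_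
  refine ((ht j).sub continuousOn_const).mul ?_
  refine cont_integral D (Φ := fun x z => g x z * dzb (fun w => (D.chi τ (some j) w : ℂ)) z) ?_
  refine (hg.mono (prod_mono_right (D.cU_subset_Ue hδ))).mul ?_
  exact ((dzb_chi_cont hτ (some j)).comp continuous_snd).continuousOn

/-- `Bv` is holomorphic in the parameter -/
theorem Bv_hol (hτ : D.Good τ) (hδ : 0 < δ) (h : HM D τ δ) (x : Fin k → ℝ)
    (ps : PS D (h.rho x) ι) (N : ℝ) (φ : ι → ℝ) {V : Set ℂ} (hV : IsOpen V)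
    {w : Fin k → ℂ → ℂ} (hw : ∀ j, DifferentiableOn ℂ (w j) V) {g : ℂ → ℂ → ℂ}
    (hg : ContinuousOn (fun p : ℂ × ℂ => g p.1 p.2) (V ×ˢ D.Ue δ))
    (hg' : ∀ z ∈ D.Ue δ, DifferentiableOn ℂ (fun μ => g μ z) V) {q : ℂ → ℂ}
    (hq : DifferentiableOn ℂ q (D.Ue δ)) :
    DifferentiableOn ℂ (fun μ => Bv h ps N φ (fun j => w j μ) (g μ) q) V := by
  unfold Bv
  refine DifferentiableOn.fun_sum fun i _ => ?_
  refine DifferentiableOn.const_mul ?_ _
  have hsub := D.cU_subset_Ue hδ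
  have hρ : ContinuousOn (h.rho x) (D.Ue δ) := (rho_facts h hτ hδ x 0).1.continuousOn
  have hom : ∀ j, ContinuousOn (fun z => (h.om j z : ℂ)) (D.Ue δ) := fun j =>
    Complex.continuous_ofReal.comp_continuousOn (h.smooth j).continuousOn
  have hsnd : ContinuousOn (fun p : ℂ × ℂ => p.2) (V ×ˢ D.cU) := continuousOn_snd
  have hmaps : MapsTo (fun p : ℂ × ℂ => p.2) (V ×ˢ D.cU) (D.Ue δ) := fun p hp => hsub hp.2
  refine hol_integral D hV (Φ := fun μ z => (ps.chi i z : ℂ) *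
    Complex.exp (Complex.I * (N * (h.rho x z - ps.c i) : ℝ)) *
      Complex.exp (h.rhoC (fun j => w j μ) z) * g μ z * conj (q z)) ?_ ?_
  · refine (((ContinuousOn.mul (ContinuousOn.mul ?_ ?_) ?_).mul ?_).mul ?_)
    · exact (Complex.continuous_ofReal.comp ((ps.smooth i).continuous.comp
        continuous_snd)).continuousOn
    · refine Complex.continuous_exp.comp_continuousOn (continuousOn_const.mul ?_)
      refine Complex.continuous_ofReal.comp_continuousOn (continuousOn_const.mul ?_)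
      exact (hρ.comp hsnd hmaps).sub continuousOn_const
    · refine Complex.continuous_exp.comp_continuousOn ?_
      unfold HM.rhoC
      refine continuousOn_finsetSum _ fun j _ => ?_
      refine ContinuousOn.mul ?_ ((hom j).comp hsnd hmaps)
      exact (hw j).continuousOn.comp continuousOn_fst fun p hp => hp.1
    · exact hg.mono (prod_mono_right hsub)
    · exact Complex.continuous_conj.comp_continuousOn (hq.continuousOn.comp hsnd hmaps)
  · intro z hz
    refine DifferentiableOn.mul_const (DifferentiableOn.mul ?_ (hg' z (hsub hz))) _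
    refine DifferentiableOn.const_mul ?_ _
    refine DifferentiableOn.cexp ?_
    unfold HM.rhoC
    exact DifferentiableOn.fun_sum fun j _ => (hw j).mul_const _

end

theorem Fdet_hol {n : ℕ} {V : Set ℂ} {B : Fin (n + 1) → Fin n → ℂ → ℂ}
    {s : Fin (n + 1) → ℂ → ℂ} (hB : ∀ b l, DifferentiableOn ℂ (B b l) V)
    (hs : ∀ b, DifferentiableOn ℂ (s b) V) :
    DifferentiableOn ℂ (fun μ => Fdet (fun b l => B b l μ) (fun b => s b μ)) V := by
  unfold Fdet
  simp only [Matrix.det_apply']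
  refine DifferentiableOn.fun_sum fun σ _ => ?_
  refine DifferentiableOn.const_mul ?_ _
  refine DifferentiableOn.fun_finsetProd fun i _ => ?_
  simp only [Matrix.of_apply]
  refine Fin.lastCases ?_ (fun i => ?_) i
  · simpa using hs _
  · simpa using hB _ _

/-- expansions of families -/
theorem family_exp {n : ℕ} {D : CD (n + 1)} {τ δ : ℝ} {ι : Type} [Fintype ι] [DecidableEq ι]
    (hτ : D.Good τ) (hδ : 0 < δ) (hδτ : δ ≤ τ) (h : HM D τ δ) {x : Fin (n + 1) → ℝ} (hx : x ≠ 0)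
    (ps : PS D (h.rho x) ι) {κ : ℝ} (hκ : 0 < κ) (hκ' : Irrational κ) :
    ∃ s : Finset (ℝ × ℕ), GoodScale κ s ∧
      ∀ (W : Type) [TopologicalSpace W] (KW : Set W) (_ : IsCompact KW) (r : ℝ) (_ : 0 ≤ r)
        (φ : ι → W → ℝ) (_ : ∀ i, ContinuousOn (φ i) KW)
        (w : Fin (n + 1) → W → ℂ → ℂ)
        (_ : ∀ j, ContinuousOn (fun p : W × ℂ => w j p.1 p.2) (KW ×ˢ closedBall 0 r))
        (_ : ∀ j, ∀ v ∈ KW, DifferentiableOn ℂ (w j v) (ball 0 r))
        (t : Fin (n + 1) → W → ℂ → ℂ)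
        (_ : ∀ j, ContinuousOn (fun p : W × ℂ => t j p.1 p.2) (KW ×ˢ closedBall 0 r))
        (_ : ∀ j, ∀ v ∈ KW, DifferentiableOn ℂ (t j v) (ball 0 r))
        (g : Fin (n + 1) → W → ℂ → ℂ → ℂ)
        (_ : ∀ b, ContinuousOn (fun p : (W × ℂ) × ℂ => g b p.1.1 p.1.2 p.2)
          ((KW ×ˢ closedBall 0 r) ×ˢ D.Ue δ))
        (_ : ∀ b, ∀ v ∈ KW, ∀ μ ∈ closedBall (0 : ℂ) r, DifferentiableOn ℂ (g b v μ) (D.Ue δ))
        (_ : ∀ b, ∀ v ∈ KW, ∀ z ∈ D.Ue δ, DifferentiableOn ℂ (fun μ => g b v μ z) (ball 0 r))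
        (q : Fin n → ℂ → ℂ) (_ : ∀ l, DifferentiableOn ℂ (q l) (D.Ue δ)),
        (∀ N, ∀ v ∈ KW, DifferentiableOn ℂ (fun μ => Fdet
            (fun b l => Bv h ps N (fun i => φ i v) (fun j => w j v μ) (g b v μ) (q l))
            (fun b => sfun D τ (fun j => t j v μ) (g b v μ))) (ball 0 r)) ∧
        ∃ c : ℝ × ℕ → W → ℂ → ℂ,
          (∀ p, ContinuousOn (fun a : W × ℂ => c p a.1 a.2) (KW ×ˢ closedBall 0 r)) ∧
          (∀ p, ∀ v ∈ KW, DifferentiableOn ℂ (c p v) (ball 0 r)) ∧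
          ∃ C N₀ : ℝ, ∀ N : ℝ, N₀ ≤ N → ∀ v ∈ KW, ∀ μ ∈ closedBall (0 : ℂ) r,
            ‖Fdet (fun b l => Bv h ps N (fun i => φ i v) (fun j => w j v μ) (g b v μ) (q l))
              (fun b => sfun D τ (fun j => t j v μ) (g b v μ)) -
                ∑ p ∈ s, (sc p N : ℂ) * c p v μ‖ ≤ C * N ^ (-κ) := by
  classical
  obtain ⟨s0, hs0, hexp⟩ := exp_param hτ hδ hδτ h hx ps hκ hκ'
  have hs1 : GoodScale κ (insert (0, 0) s0) := by
    intro p hp
    rcases Finset.mem_insert.1 hp with rfl | hp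
    · exact ⟨le_refl _, hκ, fun _ => rfl, 0, by simp⟩
    · exact hs0 p hp
  obtain ⟨s, hs, hdet⟩ := exists_det_scale hs1 hκ' hκ (n + 1)
  refine ⟨s, hs, ?_⟩
  intro W _ KW hKW r hr φ hφ w hw hw' t ht ht' g hg hg' hg'' q hq
  have hol : ∀ N, ∀ v ∈ KW, DifferentiableOn ℂ (fun μ => Fdet
      (fun b l => Bv h ps N (fun i => φ i v) (fun j => w j v μ) (g b v μ) (q l))
      (fun b => sfun D τ (fun j => t j v μ) (g b v μ))) (ball 0 r) := by
    intro N v hv
    have hgc : ∀ b, ContinuousOn (fun p : ℂ × ℂ => g b v p.1 p.2) (ball 0 r ×ˢ D.Ue δ) := by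
      intro b
      have h1 : ContinuousOn (fun p : ℂ × ℂ => (((v, p.1), p.2) : (W × ℂ) × ℂ))
          (ball 0 r ×ˢ D.Ue δ) := by fun_prop
      exact (hg b).comp h1 fun p hp => ⟨⟨hv, ball_subset_closedBall hp.1⟩, hp.2⟩
    refine Fdet_hol (fun b l => ?_) fun b => ?_
    · exact Bv_hol hτ hδ h x ps N _ isOpen_ball (fun j => hw' j v hv) (hgc b) (hg'' b v hv) (hq l)
    · exact sfun_hol hτ hδ isOpen_ball (fun j => ht' j v hv) (hgc b) (hg'' b v hv)
  refine ⟨hol, ?_⟩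
  have hKc : IsCompact (KW ×ˢ closedBall (0 : ℂ) r : Set (W × ℂ)) :=
    hKW.prod (isCompact_closedBall 0 r)
  have hK : CompactSpace (KW ×ˢ closedBall (0 : ℂ) r : Set (W × ℂ)) :=
    isCompact_iff_compactSpace.1 hKc
  let K : Type := (KW ×ˢ closedBall (0 : ℂ) r : Set (W × ℂ))
  let ph : ι → C(K, ℝ) := fun i => ⟨fun p => φ i p.1.1,
    (hφ i).comp_continuous (continuous_fst.comp continuous_subtype_val) fun p => p.2.1⟩
  let wc : Fin (n + 1) → C(K, ℂ) := fun j => ⟨fun p => w j p.1.1 p.1.2,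
    (hw j).comp_continuous continuous_subtype_val fun p => p.2⟩
  let gc : Fin (n + 1) → K → ℂ → ℂ := fun b p => g b p.1.1 p.1.2
  have hgc : ∀ b, ContinuousOn (fun p : K × ℂ => gc b p.1 p.2) (univ ×ˢ D.Ue δ) := by
    intro b
    have h1 : Continuous (fun p : K × ℂ => ((Subtype.val p.1, p.2) : (W × ℂ) × ℂ)) :=
      (continuous_subtype_val.comp continuous_fst).prodMk continuous_snd
    exact (hg b).comp h1.continuousOn fun p hp => ⟨p.1.2, hp.2⟩
  have hgd : ∀ b (u : K), DifferentiableOn ℂ (gc b u) (D.Ue δ) :=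
    fun b u => hg' b _ u.2.1 _ u.2.2
  choose F hF1 hF2 using fun b l =>
    hexp K ph wc (gc b) (q l) (hgc b) (hgd b) (hq l)
  let S : Fin (n + 1) → C(K, ℂ) := fun b => ⟨fun p => sfun D τ (fun j => t j p.1.1 p.1.2) (gc b p), by
    have h1 := sfun_cont (S := (univ : Set K)) hτ hδ (t := fun j (p : K) => t j p.1.1 p.1.2)
      (fun j => ((ht j).comp_continuous continuous_subtype_val fun p => p.2).continuousOn)
      (g := gc b) (hgc b)
    exact continuousOn_univ.1 h1⟩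
  let M : Fin (n + 1) → Fin (n + 1) → ℝ → C(K, ℂ) := fun b l N =>
    Fin.snoc (α := fun _ => C(K, ℂ)) (fun l => F b l N) (S b) l
  have hM : ∀ b l, HasExp (insert (0, 0) s0) κ (M b l) := by
    intro b l
    refine Fin.lastCases ?_ (fun l => ?_) l
    · simp only [M, Fin.snoc_last]
      exact HasExp.const (Finset.mem_insert_self _ _) _
    · simp only [M, Fin.snoc_castSucc]
      exact (hF2 b l).mono (Finset.subset_insert _ _)
  have h3 := hdet C(K, ℂ) M hM
  have heval : ∀ N (u : K), (Matrix.det (Matrix.of fun i j => M i j N)) u =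
      Fdet (fun b l => Bv h ps N (fun i => φ i u.1.1) (fun j => w j u.1.1 u.1.2)
        (g b u.1.1 u.1.2) (q l)) (fun b => sfun D τ (fun j => t j u.1.1 u.1.2)
          (g b u.1.1 u.1.2)) := by
    intro N u
    have h4 := RingHom.map_det ((ContinuousMap.evalAlgHom ℂ ℂ u : C(K, ℂ) →ₐ[ℂ] ℂ) :
      C(K, ℂ) →+* ℂ) (Matrix.of fun i j => M i j N)
    have h5 : (Matrix.det (Matrix.of fun i j => M i j N)) u =
      ((ContinuousMap.evalAlgHom ℂ ℂ u : C(K, ℂ) →ₐ[ℂ] ℂ) : C(K, ℂ) →+* ℂ)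
        (Matrix.det (Matrix.of fun i j => M i j N)) := rfl
    rw [h5, h4]
    unfold Fdet
    congr 1
    ext b l
    simp only [RingHom.mapMatrix_apply, Matrix.map_apply, Matrix.of_apply]
    refine Fin.lastCases ?_ (fun l => ?_) l
    · simp only [M, Fin.snoc_last]
      rfl
    · simp only [M, Fin.snoc_castSucc]
      exact hF1 b l N u
  obtain ⟨V, hV1, hV2⟩ := closed_hol KW r
  have hmem : ∀ N, Matrix.det (Matrix.of fun i j => M i j N) ∈ V := by
    intro N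
    rw [hV2]
    exact ⟨_, hol N, fun p _ => heval N p⟩
  obtain ⟨c, hc1, hc2⟩ := h3.mem hs V hV1 (Filter.Eventually.of_forall hmem)
  refine ⟨fun p v μ => if hp : (v, μ) ∈ (KW ×ˢ closedBall (0 : ℂ) r : Set (W × ℂ)) then
    c p ⟨(v, μ), hp⟩ else 0, ?_, ?_, ?_⟩
  · intro p
    rw [continuousOn_iff_continuous_domRestrict]
    convert (c p).continuous using 1
    ext a
    have ha : ((a : W × ℂ).1, (a : W × ℂ).2) ∈ (KW ×ˢ closedBall (0 : ℂ) r : Set (W × ℂ)) := a.2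
    simp only [Set.domRestrict_apply]
    rw [dif_pos ha]
  · intro p v hv
    obtain ⟨G, hG1, hG2⟩ := (hV2 (c p)).1 (hc1 p)
    refine (hG1 v hv).congr fun μ hμ => ?_
    have hmem : (v, μ) ∈ (KW ×ˢ closedBall (0 : ℂ) r : Set (W × ℂ)) :=
      ⟨hv, ball_subset_closedBall hμ⟩
    beta_reduce
    rw [dif_pos hmem]
    exact hG2 ⟨(v, μ), hmem⟩ hμ
  · obtain ⟨C, hC⟩ := hc2.bound
    obtain ⟨N₀, hN₀⟩ := Filter.eventually_atTop.1 (hC.and (Filter.eventually_ge_atTop (0 : ℝ)))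
    refine ⟨C, N₀, ?_⟩
    intro N hN v hv μ hμ
    obtain ⟨h6, h7⟩ := hN₀ N hN
    have hmem : (v, μ) ∈ (KW ×ˢ closedBall (0 : ℂ) r : Set (W × ℂ)) := ⟨hv, hμ⟩
    have h8 := (ContinuousMap.norm_coe_le_norm (Matrix.det (Matrix.of fun i j => M i j N) -
      ∑ p ∈ s, (sc p N : ℂ) • c p) (⟨(v, μ), hmem⟩ : K)).trans h6
    rw [Real.norm_of_nonneg (Real.rpow_nonneg h7 _)] at h8
    refine le_of_eq_of_le (congrArg norm ?_) h8
    rw [ContinuousMap.sub_apply, heval, ContinuousMap.sum_apply]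
    congr 1
    refine Finset.sum_congr rfl fun p _ => ?_
    beta_reduce
    rw [dif_pos hmem]
    rfl

end Pool.Agent.Helper7.KE
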