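import Pool.Agent.Helper7.KE.E9b
import Pool.Agent.Helper7.KE.C7a
import Pool.Agent.Helper7.KE.C7b
import Pool.Agent.Helper7.KE.D6
import Pool.Agent.Helper7.KE.E2a
import Pool.Agent.Helper7.KE.E2b
import Pool.Agent.Helper7.KE.C5b

/-! Linearity of the virtual forms, frames, returns of the linear flow. -/

set_option autoImplicit false

open MeasureTheory Set Filter Asymptotics Topology Metric
open scoped ComplexConjugate ENNReal

namespace Pool.Agent.Helper7.KE

section lin
variable {k : ℕ} {D : CD k} {τ δ : ℝ} {ι : Type} [Fintype ι] [DecidableEq ι]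

theorem Bv_congr (h : HM D τ δ) {ρ : ℂ → ℝ} (ps : PS D ρ ι) (N : ℝ) (φ : ι → ℝ) (w : Fin k → ℂ)
    {g g' q q' : ℂ → ℂ} (hg : ∀ z ∈ D.U, g z = g' z) (hq : ∀ z ∈ D.U, q z = q' z) :
    Bv h ps N φ w g q = Bv h ps N φ w g' q' := by
  unfold Bv
  refine Finset.sum_congr rfl fun i _ => ?_
  congr 1
  refine setIntegral_congr_fun D.U_open.measurableSet fun z hz => ?_
  simp only [hg z hz, hq z hz]

theorem sfun_congr (t : Fin k → ℂ) {g g' : ℂ → ℂ} (hg : ∀ z ∈ D.U, g z = g' z) :
    sfun D τ t g = sfun D τ t g' := by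
  unfold sfun
  refine Finset.sum_congr rfl fun i _ => ?_
  congr 1
  refine setIntegral_congr_fun D.U_open.measurableSet fun z hz => ?_
  simp only [hg z hz]

theorem integrable_of_cont {F : ℂ → ℂ} (hF : ContinuousOn F D.cU) :
    Integrable F (volume.restrict D.U) :=
  (hF.integrableOn_compact D.cU_compact).mono_set D.U_subset_cU

theorem Bv_sum (hτ : D.Good τ) (hδ : 0 < δ) (h : HM D τ δ) (x : Fin k → ℝ)
    (ps : PS D (h.rho x) ι) (N : ℝ) (φ : ι → ℝ) (w : Fin k → ℂ) {m : Type*} [Fintype m]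
    {g : m → ℂ → ℂ} (hg : ∀ b, DifferentiableOn ℂ (g b) (D.Ue δ)) (Q : m → ℂ) {q : ℂ → ℂ}
    (hq : DifferentiableOn ℂ q (D.Ue δ)) :
    Bv h ps N φ w (fun z => ∑ b, Q b * g b z) q = ∑ b, Q b * Bv h ps N φ w (g b) q := by
  unfold Bv
  have key : ∀ i, Complex.exp (Complex.I * φ i) * ∫ z in D.U, (ps.chi i z : ℂ) *
      Complex.exp (Complex.I * (N * (h.rho x z - ps.c i) : ℝ)) *
        Complex.exp (h.rhoC w z) * (∑ b, Q b * g b z) * conj (q z) =
      ∑ b, Q b * (Complex.exp (Complex.I * φ i) * ∫ z in D.U, (ps.chi i z : ℂ) *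
      Complex.exp (Complex.I * (N * (h.rho x z - ps.c i) : ℝ)) *
        Complex.exp (h.rhoC w z) * g b z * conj (q z)) := by
    intro i
    have hsub := D.cU_subset_Ue hδ
    have hρ : ContinuousOn (h.rho x) D.cU := (rho_facts h hτ hδ x 0).1.continuousOn.mono hsub
    have hw : ContinuousOn (h.rhoC w) D.cU := (rho_facts h hτ hδ x w).2.1.continuousOn.mono hsub
    have hint : ∀ b, Integrable (fun z => Q b * ((ps.chi i z : ℂ) *
        Complex.exp (Complex.I * (N * (h.rho x z - ps.c i) : ℝ)) *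
          Complex.exp (h.rhoC w z) * g b z * conj (q z))) (volume.restrict D.U) := by
      intro b
      apply integrable_of_cont
      refine continuousOn_const.mul (((((ContinuousOn.mul ?_ ?_).mul ?_).mul ?_).mul ?_))
      · exact (Complex.continuous_ofReal.comp (ps.smooth i).continuous).continuousOn
      · refine Complex.continuous_exp.comp_continuousOn (continuousOn_const.mul ?_)
        exact Complex.continuous_ofReal.comp_continuousOn
          (continuousOn_const.mul (hρ.sub continuousOn_const))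
      · exact Complex.continuous_exp.comp_continuousOn hw
      · exact (hg b).continuousOn.mono hsub
      · exact Complex.continuous_conj.comp_continuousOn (hq.continuousOn.mono hsub)
    have e1 : ∫ z in D.U, (ps.chi i z : ℂ) *
        Complex.exp (Complex.I * (N * (h.rho x z - ps.c i) : ℝ)) *
          Complex.exp (h.rhoC w z) * (∑ b, Q b * g b z) * conj (q z) =
        ∑ b, ∫ z in D.U, Q b * ((ps.chi i z : ℂ) *
        Complex.exp (Complex.I * (N * (h.rho x z - ps.c i) : ℝ)) *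
          Complex.exp (h.rhoC w z) * g b z * conj (q z)) := by
      rw [← integral_finsetSum _ fun b _ => hint b]
      refine integral_congr_ae (Filter.Eventually.of_forall fun z => ?_)
      simp only [Finset.mul_sum, Finset.sum_mul]
      refine Finset.sum_congr rfl fun b _ => ?_
      ring
    rw [e1, Finset.mul_sum]
    refine Finset.sum_congr rfl fun b _ => ?_
    rw [integral_const_mul]
    ring
  rw [Finset.sum_congr rfl fun i _ => key i, Finset.sum_comm]
  refine Finset.sum_congr rfl fun b _ => ?_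
  rw [Finset.mul_sum]

theorem sfun_sum (hτ : D.Good τ) (hδ : 0 < δ) (t : Fin k → ℂ) {m : Type*} [Fintype m]
    {g : m → ℂ → ℂ} (hg : ∀ b, DifferentiableOn ℂ (g b) (D.Ue δ)) (Q : m → ℂ) :
    sfun D τ t (fun z => ∑ b, Q b * g b z) = ∑ b, Q b * sfun D τ t (g b) := by
  unfold sfun
  have key : ∀ j, (t j - 1) * ∫ z in D.U, (∑ b, Q b * g b z) *
      dzb (fun w => (D.chi τ (some j) w : ℂ)) z =
      ∑ b, Q b * ((t j - 1) * ∫ z in D.U, g b z *
        dzb (fun w => (D.chi τ (some j) w : ℂ)) z) := by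
    intro j
    have hsub := D.cU_subset_Ue hδ
    have hint : ∀ b, Integrable (fun z => Q b * (g b z *
        dzb (fun w => (D.chi τ (some j) w : ℂ)) z)) (volume.restrict D.U) := by
      intro b
      apply integrable_of_cont
      exact continuousOn_const.mul (((hg b).continuousOn.mono hsub).mul
        (dzb_chi_cont hτ (some j)).continuousOn)
    have e1 : ∫ z in D.U, (∑ b, Q b * g b z) * dzb (fun w => (D.chi τ (some j) w : ℂ)) z =
        ∑ b, ∫ z in D.U, Q b * (g b z * dzb (fun w => (D.chi τ (some j) w : ℂ)) z) := by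
      rw [← integral_finsetSum _ fun b _ => hint b]
      refine integral_congr_ae (Filter.Eventually.of_forall fun z => ?_)
      simp only [Finset.sum_mul]
      refine Finset.sum_congr rfl fun b _ => ?_
      ring
    rw [e1, Finset.mul_sum]
    refine Finset.sum_congr rfl fun b _ => ?_
    rw [integral_const_mul]
    ring
  rw [Finset.sum_congr rfl fun j _ => key j, Finset.sum_comm]
  refine Finset.sum_congr rfl fun b _ => ?_
  rw [Finset.mul_sum]

/-- `L_t` of a finite combination of test functions -/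
theorem A_hol (hτ : D.Good τ) (hδτ : δ ≤ τ) (l : Option (Fin k)) (n : ℕ) :
    DifferentiableOn ℂ (D.A l n) (D.Ue δ) := by
  cases l with
  | none =>
    unfold CD.A
    exact (differentiableOn_id.div_const _).pow _
  | some j =>
    unfold CD.A
    refine ((differentiableOn_const _).div (differentiableOn_id.sub_const _) ?_).pow _
    intro z hz h0
    have h1 := hz.2 j
    have h0' : z - D.a j = 0 := h0
    rw [h0', norm_zero] at h1
    linarith [hτ.lt_r j]

theorem Lt_comb (hτ : D.Good τ) (t : Fin k → ℂ) {g : ℂ → ℂ} (hg : D.Hol2 g) (z₀ : ℂ)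
    (l : Option (Fin k)) (m : ℕ) (x : ℕ → ℂ) :
    D.Lt τ t g (D.comb z₀ l m x) =
      ∑ n ∈ Finset.range m, conj (x n) * D.Lt τ t g (fun z => D.A l n z - D.A l n z₀) := by
  have hV := D.Ue_open τ
  have hcV := D.cU_subset_Ue hτ.pos
  have hA : ∀ n, DifferentiableOn ℂ (fun z => D.A l n z - D.A l n z₀) (D.Ue τ) := fun n =>
    (A_hol hτ le_rfl l n).sub_const _
  have hcomb : ∀ m, DifferentiableOn ℂ (D.comb z₀ l m x) (D.Ue τ) := by
    intro m
    unfold CD.comb
    exact DifferentiableOn.fun_sum fun n _ => (hA n).const_mul _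
  induction m with
  | zero =>
    have h1 : D.comb z₀ l 0 x = fun z => (0 : ℂ) + 0 * (0 : ℂ) := by
      ext z; simp [CD.comb]
    have h2 := Lt_linear D hτ t hg hV hcV (a := fun _ => 0) (b := fun _ => 0)
      (differentiableOn_const _) (differentiableOn_const _) 0
    have h3 : D.Lt τ t g (fun _ => 0) = 0 := by
      have h4 := Lt_linear D hτ t hg hV hcV (a := fun _ => 0) (b := fun _ => 0)
        (differentiableOn_const _) (differentiableOn_const _) (-1)
      simpa using h4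
    rw [h1]
    simpa using h3
  | succ m ih =>
    have h1 : D.comb z₀ l (m + 1) x = fun z => D.comb z₀ l m x z +
        x m * (D.A l m z - D.A l m z₀) := by
      ext z
      simp [CD.comb, Finset.sum_range_succ]
    rw [h1, Lt_linear D hτ t hg hV hcV (hcomb m) (hA m) (x m), ih, Finset.sum_range_succ]

end lin

/-! ### frames -/

/-- local frames of the spaces `VV_t` near `t = 1` -/
structure IsFrame {k : ℕ} (D : CD k) (τ δ : ℝ) (z₀ : ℂ) (ε C₀ : ℝ)
    (g : Fin k → (Fin k → ℂ) → ℂ → ℂ) : Prop where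
  cont : ∀ b, ContinuousOn (fun p : (Fin k → ℂ) × ℂ => g b p.1 p.2)
        ({t | ∀ j, ‖t j - 1‖ < ε} ×ˢ D.Ue δ)
  hol : ∀ b, ∀ t ∈ {t : Fin k → ℂ | ∀ j, ‖t j - 1‖ < ε}, DifferentiableOn ℂ (g b t) (D.Ue δ)
  holt : ∀ b, ∀ z ∈ D.Ue δ, DifferentiableOn ℂ (fun t => g b t z) {t | ∀ j, ‖t j - 1‖ < ε}
  vv : ∀ b, ∀ t ∈ {t : Fin k → ℂ | ∀ j, ‖t j - 1‖ < ε}, D.VV τ z₀ t (g b t)
  res : ∀ b j, ∀ t ∈ {t : Fin k → ℂ | ∀ j, ‖t j - 1‖ < ε},
        D.coef τ (some j) 0 (g b t) = if j = b then 1 else 0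
  dec : ∀ t ∈ {t : Fin k → ℂ | ∀ j, ‖t j - 1‖ < ε}, ∀ f : ℂ → ℂ, D.Hol2 f → ∀ M : ℝ, 0 ≤ M →
        (∀ l m x, ‖D.Lt τ t f (D.comb z₀ l m x)‖ ≤
          M * Real.sqrt (∑ n ∈ Finset.range m, (n + 1) * ‖x n‖ ^ 2)) →
        Real.sqrt (∫ z in D.U, ‖f z - ∑ b, D.coef τ (some b) 0 f * g b t z‖ ^ 2) ≤ C₀ * M

/-- frames along the line `t = exp(s ω)` -/
structure IsLine {k : ℕ} (D : CD k) (τ δ : ℝ) (z₀ : ℂ) (om : Fin k → ℂ) (T : ℝ) (d : ℂ → ℂ)
    (g : Fin k → ℂ → ℂ → ℂ) : Prop where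
  hd : DifferentiableOn ℂ d (ball 0 T)
  d0 : d 0 ≠ 0
  cont : ∀ b, ContinuousOn (fun p : ℂ × ℂ => g b p.1 p.2) (ball 0 T ×ˢ D.Ue δ)
  hol : ∀ b, ∀ s ∈ ball (0 : ℂ) T, DifferentiableOn ℂ (g b s) (D.Ue δ)
  hols : ∀ b, ∀ z ∈ D.Ue δ, DifferentiableOn ℂ (fun s => g b s z) (ball 0 T)
  vv : ∀ b, ∀ s ∈ ball (0 : ℂ) T, D.VV τ z₀ (fun j => Complex.exp (s * om j)) (g b s)
  res : ∀ b j, ∀ s ∈ ball (0 : ℂ) T, D.coef τ (some j) 0 (g b s) = if j = b then d s else 0

section frames
variable {k : ℕ} {D : CD k} {τ δ : ℝ}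

/-- elements of `VV_t` are combinations of the frame -/
theorem IsFrame.eq_sum {z₀ : ℂ} {ε C₀ : ℝ} {g : Fin k → (Fin k → ℂ) → ℂ → ℂ}
    (hg : IsFrame D τ δ z₀ ε C₀ g) (hτ : D.Good τ) {t : Fin k → ℂ} (ht : ∀ j, ‖t j - 1‖ < ε)
    {f : ℂ → ℂ} (hf : D.VV τ z₀ t f) :
    ∀ z ∈ D.U, f z = ∑ b, D.coef τ (some b) 0 f * g b t z := by
  have h1 := hg.dec t ht f hf.hol 0 le_rfl (by
    intro l m x
    rw [Lt_comb hτ t hf.hol z₀ l m x]
    simp [hf.ann])
  rw [mul_zero] at h1
  have h2 : ∫ z in D.U, ‖f z - ∑ b, D.coef τ (some b) 0 f * g b t z‖ ^ 2 = 0 := by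
    have h3 : 0 ≤ ∫ z in D.U, ‖f z - ∑ b, D.coef τ (some b) 0 f * g b t z‖ ^ 2 :=
      integral_nonneg fun z => by positivity
    exact (Real.sqrt_eq_zero h3).1 (le_antisymm h1 (Real.sqrt_nonneg _))
  have h3 : MemLp (fun z => f z - ∑ b, D.coef τ (some b) 0 f * g b t z) 2
      (volume.restrict D.U) := by
    refine hf.hol.memLp.sub ?_
    refine memLp_finsetSum _ fun b _ => ?_
    exact (hg.vv b t ht).hol.memLp.const_mul _
  have h4 : Integrable (fun z => ‖f z - ∑ b, D.coef τ (some b) 0 f * g b t z‖ ^ 2)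
      (volume.restrict D.U) := h3.integrable_norm_pow (by norm_num)
  have h5 := (integral_eq_zero_iff_of_nonneg (fun z => by positivity) h4).1 h2
  have h6 : (fun z => f z) =ᵐ[volume.restrict D.U]
      fun z => ∑ b, D.coef τ (some b) 0 f * g b t z := by
    filter_upwards [h5] with z hz
    simp only [Pi.zero_apply] at hz
    have := pow_eq_zero_iff (n := 2) (by norm_num) |>.1 hz
    exact sub_eq_zero.1 (norm_eq_zero.1 this)
  refine hol_unique D hf.hol.diff ?_ h6
  exact DifferentiableOn.fun_sum fun b _ => ((hg.vv b t ht).hol.diff).const_mul _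

end frames

end Pool.Agent.Helper7.KE
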