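import Pool.Agent.Helper7.KE.E9c

/-! Returns of the linear flow: the line determinant and the local determinant. -/

set_option autoImplicit false

open MeasureTheory Set Filter Asymptotics Topology Metric
open scoped ComplexConjugate ENNReal

namespace Pool.Agent.Helper7.KE

/-- the lattice of the recurrence -/
def Lat {k : ℕ} {ι : Type} (Rm : Matrix (Fin k) (Fin k) ℝ) :
    AddSubgroup ((Fin k → ℝ) × (ι → ℝ)) where
  carrier := {v | (∀ l, ∃ m : ℤ, Rm.mulVec v.1 l = m) ∧ ∀ i, ∃ n : ℤ, v.2 i = 2 * Real.pi * n}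
  add_mem' := by
    rintro v w ⟨h1, h2⟩ ⟨h3, h4⟩
    refine ⟨fun l => ?_, fun i => ?_⟩
    · obtain ⟨m, hm⟩ := h1 l
      obtain ⟨m', hm'⟩ := h3 l
      refine ⟨m + m', ?_⟩
      rw [Prod.fst_add, Matrix.mulVec_add, Pi.add_apply, hm, hm']
      push_cast; ring
    · obtain ⟨m, hm⟩ := h2 i
      obtain ⟨m', hm'⟩ := h4 i
      refine ⟨m + m', ?_⟩
      rw [Prod.snd_add, Pi.add_apply, hm, hm']
      push_cast; ring
  zero_mem' := by
    refine ⟨fun l => ⟨0, ?_⟩, fun i => ⟨0, ?_⟩⟩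
    · simp
    · simp
  neg_mem' := by
    rintro v ⟨h1, h2⟩
    refine ⟨fun l => ?_, fun i => ?_⟩
    · obtain ⟨m, hm⟩ := h1 l
      refine ⟨-m, ?_⟩
      rw [Prod.fst_neg, Matrix.mulVec_neg, Pi.neg_apply, hm]
      push_cast; ring
    · obtain ⟨m, hm⟩ := h2 i
      refine ⟨-m, ?_⟩
      rw [Prod.snd_neg, Pi.neg_apply, hm]
      push_cast; ring

section coef
variable {k : ℕ} {D : CD k} {τ δ : ℝ}

theorem coef_congr (l : Option (Fin k)) (n : ℕ) {g g' : ℂ → ℂ} (h : ∀ z ∈ D.U, g z = g' z) :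
    D.coef τ l n g = D.coef τ l n g' := by
  have key : ∀ F G : ℂ → ℂ, ∫ z in D.U, g z * F z * G z = ∫ z in D.U, g' z * F z * G z :=
    fun F G => setIntegral_congr_fun D.U_open.measurableSet fun z hz => by
      simp only [h z hz]
  cases l with
  | none =>
    exact congrArg (fun x : ℂ => (1 / (Real.pi * D.R) : ℂ) * x)
      (key (fun z => (D.R / z) ^ (n + 1)) (dzb (fun w => (D.chi τ none w : ℂ))))
  | some j =>
    exact congrArg (fun x : ℂ => -(1 / (Real.pi * D.r j) : ℂ) * x)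
      (key (fun z => ((z - D.a j) / D.r j) ^ n) (dzb (fun w => (D.chi τ (some j) w : ℂ))))

theorem coef_zero (l : Option (Fin k)) (n : ℕ) : D.coef τ l n (fun _ => 0) = 0 := by
  cases l with
  | none => unfold CD.coef; simp
  | some j => unfold CD.coef; simp

theorem coef_sum (hτ : D.Good τ) (l : Option (Fin k)) (n : ℕ) {m : Type*} (s : Finset m)
    {g : m → ℂ → ℂ} (hg : ∀ b, DifferentiableOn ℂ (g b) D.U) (c : m → ℂ) :
    D.coef τ l n (fun z => ∑ b ∈ s, c b * g b z) = ∑ b ∈ s, c b * D.coef τ l n (g b) := by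
  classical
  induction s using Finset.induction_on with
  | empty => simp [coef_zero]
  | insert a s ha ih =>
    rw [Finset.sum_insert ha]
    have h1 := coef_linear D l n hτ (g := fun z => ∑ b ∈ s, c b * g b z) (g' := g a)
      (DifferentiableOn.fun_sum fun b _ => (hg b).const_mul _) (hg a) (c a)
    rw [ih] at h1
    rw [add_comm, ← h1]
    refine coef_congr l n fun z _ => ?_
    rw [Finset.sum_insert ha, add_comm]

/-- the critical value of the phase at the circle `j` is `e_j` -/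
theorem ps_c_eq {ι : Type} [Fintype ι] [DecidableEq ι] (h : HM D τ δ) (hτ : D.Good τ)
    (hδ : 0 < δ) {e : Fin k → ℝ} (ps : PS D (h.rho e) ι) :
    (∀ j, ps.c (ps.bd (some j)) = e j) ∧ ps.c (ps.bd none) = 0 := by
  have hf := rho_facts h hτ hδ e 0
  constructor
  · intro j
    have hz : D.a j + D.r j ∈ D.circ (some j) := by
      simp only [CD.circ, CD.cen, CD.rad, mem_sphere_iff_norm, add_sub_cancel_left,
        Complex.norm_real]
      exact abs_of_pos (D.rpos j)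
    rw [← ps.val_circ (some j) _ hz]
    exact (hf.2.2.2.2.2.2.2 j _ hz).1
  · have hz : (D.R : ℂ) ∈ D.circ none := by
      simp only [CD.circ, CD.cen, CD.rad, mem_sphere_iff_norm, sub_zero,
        Complex.norm_real]
      exact abs_of_pos D.Rpos
    rw [← ps.val_circ none _ hz]
    exact (hf.2.2.2.2.2.2.1 _ hz).1

end coef

/-- the line determinant -/
noncomputable def FL {n : ℕ} {D : CD (n + 1)} {τ δ : ℝ} {ι : Type} [Fintype ι] [DecidableEq ι]
    (h : HM D τ δ) {ρ : ℂ → ℝ} (ps : PS D ρ ι) (om : Fin (n + 1) → ℂ)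
    (g : Fin (n + 1) → ℂ → ℂ → ℂ) (q : Fin n → ℂ → ℂ) (N : ℝ) (z : ℂ) : ℂ :=
  Fdet (fun b l => Bv h ps N 0 (fun j => z * om j) (g b z) (q l))
    (fun b => sfun D τ (fun j => Complex.exp (z * om j)) (g b z))

theorem returns {n : ℕ} {D : CD (n + 1)} {τ δ : ℝ} {ι : Type} [Fintype ι] [DecidableEq ι]
    (hτ : D.Good τ) (hδ : 0 < δ) (hδτ : δ ≤ τ) (h : HM D τ δ) {e e' : Fin (n + 1) → ℝ}
    (ps : PS D (h.rho e) ι) {z₀ : ℂ} (hz₀ : z₀ ∈ D.U) {ε C₀ : ℝ}
    {g : Fin (n + 1) → (Fin (n + 1) → ℂ) → ℂ → ℂ} (hg : IsFrame D τ δ z₀ ε C₀ g)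
    {T : ℝ} {d : ℂ → ℂ} {gl : Fin (n + 1) → ℂ → ℂ → ℂ}
    (hl : IsLine D τ δ z₀ (fun j => e' j + Complex.I * e j) T d gl) {r₀ : ℝ} (hr₀ : 0 < r₀)
    {t : ℝ} {v : (Fin (n + 1) → ℝ) × (ι → ℝ)}
    (htt : ∀ μ ∈ ball (0 : ℂ) r₀, ∀ j, ‖tt ps (fun j => e' j + Complex.I * e j) v μ j - 1‖ < ε)
    (hT : |t| + r₀ ≤ T) (hv : t • (e', ps.c) - v ∈ Lat (ι := ι) h.Rm) :
    ∃ (σ : {q : Fin n → ℂ → ℂ // ∀ l, DifferentiableOn ℂ (q l) (D.Ue δ)} →
        {q : Fin n → ℂ → ℂ // ∀ l, DifferentiableOn ℂ (q l) (D.Ue δ)}) (a : ℂ → ℂ) (O : Set ℂ),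
      Function.Surjective σ ∧ IsOpen O ∧ O.Nonempty ∧ O ⊆ ball 0 r₀ ∧ ∀ μ ∈ O, a μ ≠ 0 ∧
        ∀ q N, FL h ps (fun j => e' j + Complex.I * e j) gl q.1 N (t + μ) =
          a μ * FF h ps (fun j => e' j + Complex.I * e j) g (σ q).1 (N + t) v μ := by
  classical
  set om : Fin (n + 1) → ℂ := fun j => e' j + Complex.I * e j with hom
  obtain ⟨hv1, hv2⟩ := hv
  obtain ⟨x₀, hx₀⟩ : ∃ x₀ : Fin (n + 1) → ℝ, x₀ = t • e' - v.1 := ⟨_, rfl⟩
  choose m hm using hv2
  have hx1 : ∀ j, t * e' j = v.1 j + x₀ j := by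
    intro j; rw [hx₀]; simp
  have hx2 : ∀ i, t * ps.c i = v.2 i + 2 * Real.pi * m i := by
    intro i
    have := hm i
    simp only [Prod.snd_sub, Prod.smul_snd, Pi.sub_apply, Pi.smul_apply, smul_eq_mul] at this
    linarith
  obtain ⟨f0, hf0d, hf00, hf0n⟩ := exists_phi h hτ hδ hδτ (x := x₀) (by
    intro l
    obtain ⟨m, hm⟩ := hv1 l
    refine ⟨m, ?_⟩
    rw [← hm, hx₀]
    rfl)
  -- a nowhere vanishing version
  obtain ⟨f, hf⟩ : ∃ f : ℂ → ℂ, f = fun z => if z ∈ D.Ue δ then f0 z else 1 := ⟨_, rfl⟩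
  have hfeq : ∀ z ∈ D.Ue δ, f z = f0 z := fun z hz => by rw [hf]; simp [hz]
  have hfd : DifferentiableOn ℂ f (D.Ue δ) := hf0d.congr hfeq
  have hf0 : ∀ z, f z ≠ 0 := by
    intro z
    by_cases hz : z ∈ D.Ue δ
    · rw [hfeq z hz]; exact hf00 z hz
    · rw [hf]; simp [hz]
  have hfn : ∀ z ∈ D.Ue δ, ‖f z‖ ^ 2 = Real.exp (h.rho x₀ z) := fun z hz => by
    rw [hfeq z hz]; exact hf0n z hz
  have hUe : D.U ⊆ D.Ue δ := D.U_subset_cU.trans (D.cU_subset_Ue hδ)
  have hc := (ps_c_eq h hτ hδ ps).1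
  -- the point on the line
  have hzT : ∀ μ ∈ ball (0 : ℂ) r₀, (t : ℂ) + μ ∈ ball (0 : ℂ) T := by
    intro μ hμ
    rw [mem_ball_zero_iff] at hμ ⊢
    calc ‖(t : ℂ) + μ‖ ≤ ‖(t : ℂ)‖ + ‖μ‖ := norm_add_le _ _
      _ < |t| + r₀ := by rw [Complex.norm_real]; simpa using hμ
      _ ≤ T := hT
  have hTpos : 0 < T := by linarith [abs_nonneg t]
  have htrel : ∀ μ : ℂ, ∀ j, Complex.exp (((t : ℂ) + μ) * om j) =
      tt ps om v μ j * Real.exp (x₀ j) := by
    intro μ j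
    unfold tt
    rw [Complex.ofReal_exp, ← Complex.exp_add]
    have h1 : ((t : ℂ) + μ) * om j = (Complex.I * v.2 (ps.bd (some j)) + v.1 j + μ * om j +
        (x₀ j : ℂ)) + (m (ps.bd (some j)) : ℂ) * (2 * Real.pi * Complex.I) := by
      have h2 : (t : ℂ) * e' j = v.1 j + x₀ j := by exact_mod_cast hx1 j
      have h3 : (t : ℂ) * e j = v.2 (ps.bd (some j)) + 2 * Real.pi * m (ps.bd (some j)) := by
        have := hx2 (ps.bd (some j))
        rw [hc j] at this
        exact_mod_cast this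
      have h4 : ((t : ℂ) + μ) * om j = (t : ℂ) * e' j + Complex.I * ((t : ℂ) * e j) + μ * om j := by
        simp only [hom]; ring
      rw [h4, h2, h3]
      ring
    rw [h1, Complex.exp_add, Complex.exp_int_mul_two_pi_mul_I, mul_one]
  -- the transported frames
  have hVV : ∀ μ ∈ ball (0 : ℂ) r₀, ∀ b,
      D.VV τ z₀ (tt ps om v μ) (fun z => f z * gl b (t + μ) z) ∧
      sfun D τ (tt ps om v μ) (fun z => f z * gl b (t + μ) z) =
        (conj (f z₀))⁻¹ * sfun D τ (fun j => Complex.exp ((t + μ) * om j)) (gl b (t + μ)) := by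
    intro μ hμ b
    exact VV_equiv h hτ hδ hδτ hz₀ hfd (fun z _ => hf0 z) hfn (fun j => htrel μ j)
      (hl.vv b _ (hzT μ hμ))
  obtain ⟨Q, hQ⟩ : ∃ Q : ℂ → Matrix (Fin (n + 1)) (Fin (n + 1)) ℂ,
    Q = fun μ b b' => D.coef τ (some b') 0 (fun z => f z * gl b (t + μ) z) := ⟨_, rfl⟩
  have hsum : ∀ μ ∈ ball (0 : ℂ) r₀, ∀ b, ∀ z ∈ D.U, f z * gl b (t + μ) z =
      ∑ b', Q μ b b' * g b' (tt ps om v μ) z := by
    intro μ hμ b
    rw [hQ]
    exact hg.eq_sum hτ (htt μ hμ) (hVV μ hμ b).1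
  -- nonvanishing of the determinant
  have hdet : ∀ μ ∈ ball (0 : ℂ) r₀, d (t + μ) ≠ 0 → (Q μ).det ≠ 0 := by
    intro μ hμ hd h0
    obtain ⟨c, hc0, hcQ⟩ := Matrix.exists_vecMul_eq_zero_iff.2 h0
    apply hc0
    have h1 : ∀ z ∈ D.U, ∑ b, c b * gl b (t + μ) z = 0 := by
      intro z hz
      have h2 : f z * ∑ b, c b * gl b (t + μ) z = 0 := by
        calc f z * ∑ b, c b * gl b (t + μ) z
            = ∑ b, c b * (f z * gl b (t + μ) z) := by
              rw [Finset.mul_sum]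
              exact Finset.sum_congr rfl fun b _ => by ring
          _ = ∑ b, c b * ∑ b', Q μ b b' * g b' (tt ps om v μ) z :=
              Finset.sum_congr rfl fun b _ => by rw [hsum μ hμ b z hz]
          _ = ∑ b', (∑ b, c b * Q μ b b') * g b' (tt ps om v μ) z := by
              simp only [Finset.mul_sum, Finset.sum_mul]
              rw [Finset.sum_comm]
              exact Finset.sum_congr rfl fun b _ => Finset.sum_congr rfl fun b' _ => by ring
          _ = 0 := by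
              refine Finset.sum_eq_zero fun b' _ => ?_
              have h3 : ∑ b, c b * Q μ b b' = 0 := congrFun hcQ b'
              rw [h3, zero_mul]
      exact (mul_eq_zero.1 h2).resolve_left (hf0 z)
    ext j
    have h2 := coef_sum hτ (some j) 0 (Finset.univ) (g := fun b => gl b (t + μ))
      (fun b => (hl.hol b _ (hzT μ hμ)).mono hUe) c
    rw [coef_congr (g' := fun _ => 0) (some j) 0 h1, coef_zero] at h2
    simp only [hl.res _ _ _ (hzT μ hμ)] at h2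
    simp only [mul_ite, mul_zero, Finset.sum_ite_eq, Finset.mem_univ, if_true] at h2
    exact (mul_eq_zero.1 h2.symm).resolve_right hd
  -- the key relation
  have hrel : ∀ μ ∈ ball (0 : ℂ) r₀, ∀ (q : Fin n → ℂ → ℂ),
      (∀ l, DifferentiableOn ℂ (q l) (D.Ue δ)) → ∀ N : ℝ,
      FL h ps om gl q N (t + μ) = (conj (f z₀) * (Q μ).det) *
        FF h ps om g (fun l z => f z * q l z) (N + t) v μ := by
    intro μ hμ q hq N
    have hcf : conj (f z₀) ≠ 0 := by
      rw [Ne, map_eq_zero]; exact hf0 z₀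
    have htm : ∀ j, ‖tt ps om v μ j - 1‖ < ε := htt μ hμ
    have hB : ∀ b l, Bv h ps N 0 (fun j => (t + μ) * om j) (gl b (t + μ)) (q l) =
        ∑ b', Q μ b b' * Bv h ps (N + t) v.2 (fun j => v.1 j + μ * om j)
          (g b' (tt ps om v μ)) (fun z => f z * q l z) := by
      intro b l
      rw [Bv_equiv h hδ (x₀ := x₀) ps hfn hx1 hx2 N μ (gl b (t + μ)) (q l)]
      rw [Bv_congr h ps (N + t) v.2 _ (hsum μ hμ b) (fun z _ => rfl)]
      exact Bv_sum hτ hδ h e ps (N + t) v.2 _ (fun b' => hg.hol b' _ htm) (Q μ b)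
        (hfd.mul (hq l))
    have hS : ∀ b, sfun D τ (fun j => Complex.exp ((t + μ) * om j)) (gl b (t + μ)) =
        ∑ b', Q μ b b' * (conj (f z₀) * sfun D τ (tt ps om v μ) (g b' (tt ps om v μ))) := by
      intro b
      have h1 := (hVV μ hμ b).2
      rw [sfun_congr _ (hsum μ hμ b), sfun_sum hτ hδ _ (fun b' => hg.hol b' _ htm) (Q μ b)] at h1
      have h2 : sfun D τ (fun j => Complex.exp ((t + μ) * om j)) (gl b (t + μ)) =
          conj (f z₀) * ∑ b', Q μ b b' * sfun D τ (tt ps om v μ) (g b' (tt ps om v μ)) := by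
        rw [h1, mul_inv_cancel_left₀ hcf]
      rw [h2, Finset.mul_sum]
      exact Finset.sum_congr rfl fun b' _ => by ring
    unfold FL FF
    have e1 : (fun b l => Bv h ps N 0 (fun j => ((t : ℂ) + μ) * om j) (gl b (t + μ)) (q l)) =
        fun b l => ∑ b', Q μ b b' * Bv h ps (N + t) v.2 (fun j => v.1 j + μ * om j)
          (g b' (tt ps om v μ)) (fun z => f z * q l z) := by
      funext b l; exact hB b l
    have e2 : (fun b => sfun D τ (fun j => Complex.exp (((t : ℂ) + μ) * om j)) (gl b (t + μ))) =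
        fun b => ∑ b', Q μ b b' *
          (conj (f z₀) * sfun D τ (tt ps om v μ) (g b' (tt ps om v μ))) := by
      funext b; exact hS b
    rw [e1, e2, Fdet_mul (Q μ) (fun b' l => Bv h ps (N + t) v.2 (fun j => v.1 j + μ * om j)
          (g b' (tt ps om v μ)) (fun z => f z * q l z)), Fdet_last]
    ring
  -- the set where `d` does not vanish
  have hdc : ContinuousOn (fun μ : ℂ => d (t + μ)) (ball 0 r₀) :=
    hl.hd.continuousOn.comp (by fun_prop) hzT
  refine ⟨fun q => ⟨fun l z => f z * q.1 l z, fun l => hfd.mul (q.2 l)⟩,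
    fun μ => conj (f z₀) * (Q μ).det, {μ ∈ ball (0 : ℂ) r₀ | d (t + μ) ≠ 0}, ?_, ?_, ?_, ?_, ?_⟩
  · intro q
    refine ⟨⟨fun l z => (f z)⁻¹ * q.1 l z, fun l => (hfd.inv fun z _ => hf0 z).mul (q.2 l)⟩, ?_⟩
    apply Subtype.ext
    funext l z
    exact mul_inv_cancel_left₀ (hf0 z) _
  · exact hdc.isOpen_inter_preimage isOpen_ball isOpen_compl_singleton
  · by_contra hemp
    rw [Set.not_nonempty_iff_eq_empty] at hemp
    have h1 : ∀ μ ∈ ball (0 : ℂ) r₀, d (t + μ) = 0 := by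
      intro μ hμ
      by_contra h2
      have : μ ∈ ({μ ∈ ball (0 : ℂ) r₀ | d (t + μ) ≠ 0} : Set ℂ) := ⟨hμ, h2⟩
      rw [hemp] at this
      exact this
    have h2 : d =ᶠ[𝓝 (t : ℂ)] 0 := by
      have h3 : ball (t : ℂ) r₀ ∈ 𝓝 (t : ℂ) := ball_mem_nhds _ hr₀
      filter_upwards [h3] with z hz
      have h4 := h1 (z - t) (by rw [mem_ball_zero_iff]; simpa [dist_eq_norm] using hz)
      simpa using h4
    have h3 := (hl.hd.analyticOnNhd isOpen_ball).eqOn_zero_of_preconnected_of_eventuallyEq_zero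
      (convex_ball (0 : ℂ) T).isPreconnected (z₀ := (t : ℂ)) (by
        have := hzT 0 (mem_ball_self hr₀)
        simpa using this) h2
    exact hl.d0 (h3 (mem_ball_self hTpos))
  · intro μ hμ; exact hμ.1
  · intro μ hμ
    refine ⟨?_, fun q N => hrel μ hμ.1 q.1 q.2 N⟩
    refine mul_ne_zero ?_ (hdet μ hμ.1 hμ.2)
    rw [Ne, map_eq_zero]; exact hf0 z₀

end Pool.Agent.Helper7.KE
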