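import Pool.Agent.Helper7.KE.E9d
import Pool.Agent.Helper7.KE.E8
import Pool.Agent.Helper7.KE.E3e

/-! The lower bound for the bordered determinant, uniformly in the small returns. -/

set_option autoImplicit false

open MeasureTheory Set Filter Asymptotics Topology Metric
open scoped ComplexConjugate ENNReal

namespace Pool.Agent.Helper7.KE

/-- the multipliers are close to `1` for small parameters -/
theorem tt_small {k : ℕ} {D : CD k} {ι : Type} [Fintype ι] [DecidableEq ι] {ρ : ℂ → ℝ}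
    (ps : PS D ρ ι) (om : Fin k → ℂ) {ε : ℝ} (hε : 0 < ε) :
    ∃ r₀ > 0, ∀ (v : (Fin k → ℝ) × (ι → ℝ)) (μ : ℂ), ‖v‖ ≤ r₀ → ‖μ‖ ≤ r₀ →
      ∀ j, ‖tt ps om v μ j - 1‖ ≤ ε := by
  have hc : ∀ j, Continuous fun a : ((Fin k → ℝ) × (ι → ℝ)) × ℂ => tt ps om a.1 a.2 j := by
    intro j
    unfold tt
    fun_prop
  have h0 : ∀ j, tt ps om (0 : (Fin k → ℝ) × (ι → ℝ)) 0 j = 1 := by
    intro j; simp [tt]
  have h1 : ∀ j, ∀ᶠ a : ((Fin k → ℝ) × (ι → ℝ)) × ℂ in 𝓝 0, ‖tt ps om a.1 a.2 j - 1‖ < ε := by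
    intro j
    have h2 : Tendsto (fun a : ((Fin k → ℝ) × (ι → ℝ)) × ℂ => ‖tt ps om a.1 a.2 j - 1‖)
        (𝓝 0) (𝓝 0) := by
      have h3 := (((hc j).sub continuous_const).norm.tendsto
        (0 : ((Fin k → ℝ) × (ι → ℝ)) × ℂ) : Tendsto (fun a : ((Fin k → ℝ) × (ι → ℝ)) × ℂ =>
          ‖tt ps om a.1 a.2 j - 1‖) (𝓝 0) _)
      simpa [h0 j] using h3
    exact h2.eventually_lt_const hε
  have h2 := Filter.eventually_all.2 h1
  obtain ⟨r, hr, h3⟩ := Metric.eventually_nhds_iff_ball.1 h2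
  refine ⟨r / 2, by positivity, fun v μ hv hμ j => (h3 (v, μ) ?_ j).le⟩
  rw [mem_ball_zero_iff, Prod.norm_mk]
  exact max_lt (by linarith) (by linarith)

theorem lower_F {n : ℕ} {D : CD (n + 1)} {τ δ : ℝ} {ι : Type} [Fintype ι] [DecidableEq ι]
    (hτ : D.Good τ) (hδ : 0 < δ) (hδτ : δ ≤ τ) (h : HM D τ δ) {e e' : Fin (n + 1) → ℝ}
    (he : e ≠ 0) (ps : PS D (h.rho e) ι) {z₀ : ℂ} (hz₀ : z₀ ∈ D.U) {ε C₀ : ℝ} (hε : 0 < ε)
    (hε1 : ε < 1) {g : Fin (n + 1) → (Fin (n + 1) → ℂ) → ℂ → ℂ} (hg : IsFrame D τ δ z₀ ε C₀ g)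
    (hline : ∀ T : ℝ, 0 < T → ∃ (d : ℂ → ℂ) (gl : Fin (n + 1) → ℂ → ℂ → ℂ),
      IsLine D τ δ z₀ (fun j => e' j + Complex.I * e j) T d gl) :
    ∃ (κ : ℝ) (q : Fin n → ℂ → ℂ), (∀ l, DifferentiableOn ℂ (q l) (D.Ue δ)) ∧
      ∃ r' > 0, ∃ b > 0, ∃ ε₁ > 0,
        (∀ v : (Fin (n + 1) → ℝ) × (ι → ℝ), ‖v‖ < ε₁ → ∀ μ : ℂ, ‖μ‖ ≤ r' → ∀ j,
          ‖tt ps (fun j => e' j + Complex.I * e j) v μ j - 1‖ ≤ ε / 2) ∧
        ∃ N₀ : ℝ, ∀ N : ℝ, N₀ ≤ N → ∀ v : (Fin (n + 1) → ℝ) × (ι → ℝ),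
          v ∈ closure {v : (Fin (n + 1) → ℝ) × (ι → ℝ) | ∃ t : ℝ, t • (e', ps.c) - v ∈
            Lat (ι := ι) h.Rm} → ‖v‖ < ε₁ → ∀ μ : ℂ, ‖μ‖ = r' →
          b * N ^ (-κ) ≤ ‖FF h ps (fun j => e' j + Complex.I * e j) g q N v μ‖ := by
  classical
  set om : Fin (n + 1) → ℂ := fun j => e' j + Complex.I * e j with hom
  obtain ⟨r₀, hr₀, htt⟩ := tt_small ps om (half_pos hε)
  have htt' : ∀ (v : (Fin (n + 1) → ℝ) × (ι → ℝ)) (μ : ℂ), ‖v‖ ≤ r₀ → ‖μ‖ ≤ r₀ →
      ∀ j, ‖tt ps om v μ j - 1‖ < ε := fun v μ hv hμ j =>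
    (htt v μ hv hμ j).trans_lt (by linarith)
  -- the precision
  obtain ⟨κ, hκ⟩ : ∃ κ : ℝ, κ = (2 * n : ℕ) + Real.sqrt 2 := ⟨_, rfl⟩
  have hsq : 0 < Real.sqrt 2 := by positivity
  have hκ0 : 0 < κ := by rw [hκ]; positivity
  have hκi : Irrational κ := by
    rw [hκ]; exact irrational_sqrt_two.natCast_add _
  obtain ⟨s, hs, hfam⟩ := family_exp hτ hδ hδτ h he ps hκ0 hκi
  -- the local family
  have hopen : IsOpen {t : Fin (n + 1) → ℂ | ∀ j, ‖t j - 1‖ < ε} := by
    simp only [Set.setOf_forall]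
    exact isOpen_iInter_of_finite fun j => isOpen_lt (by fun_prop) continuous_const
  have htc : Continuous fun a : ((Fin (n + 1) → ℝ) × (ι → ℝ)) × ℂ => tt ps om a.1 a.2 := by
    refine continuous_pi fun j => ?_
    unfold tt
    fun_prop
  have htd : ∀ v, Differentiable ℂ fun μ => tt ps om v μ := by
    intro v
    refine differentiable_pi.2 fun j => ?_
    unfold tt
    fun_prop
  have hloc := fun (q : {q : Fin n → ℂ → ℂ // ∀ l, DifferentiableOn ℂ (q l) (D.Ue δ)}) =>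
    hfam ((Fin (n + 1) → ℝ) × (ι → ℝ)) (closedBall 0 r₀) (isCompact_closedBall _ _) r₀ hr₀.le
      (fun i v => v.2 i) (fun i => by fun_prop)
      (fun j v μ => v.1 j + μ * om j) (fun j => by fun_prop) (fun j v _ => by fun_prop)
      (fun j v μ => tt ps om v μ j)
      (fun j => ((continuous_apply j).comp htc).continuousOn)
      (fun j v _ => (differentiable_pi.1 (htd v) j).differentiableOn)
      (fun b v μ => g b (tt ps om v μ))
      (by
        intro b
        refine (hg.cont b).comp (f := fun p : (((Fin (n + 1) → ℝ) × (ι → ℝ)) × ℂ) × ℂ =>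
          (tt ps om p.1.1 p.1.2, p.2)) ?_ ?_
        · exact ((htc.comp (continuous_fst.prodMk continuous_snd |>.comp continuous_fst)).prodMk
            continuous_snd).continuousOn
        · rintro p ⟨⟨h1, h2⟩, h3⟩
          refine ⟨fun j => htt' _ _ ?_ ?_ j, h3⟩
          · simpa using h1
          · simpa using h2)
      (by
        intro b v hv μ hμ
        exact hg.hol b _ (htt' v μ (by simpa using hv) (by simpa using hμ)))
      (by
        intro b v hv z hz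
        refine (hg.holt b z hz).comp (htd v).differentiableOn fun μ hμ => ?_
        refine htt' v μ (by simpa using hv) ?_
        have : ‖μ‖ < r₀ := by simpa using hμ
        exact this.le)
      q.1 q.2
  choose hlocd c hc hd Cc Nc hcF using hloc
  have hFF : ∀ (q : Fin n → ℂ → ℂ) N v μ, FF h ps om g q N v μ =
      Fdet (fun b l => Bv h ps N (fun i => v.2 i) (fun j => v.1 j + μ * om j)
        (g b (tt ps om v μ)) (q l))
        (fun b => sfun D τ (fun j => tt ps om v μ j) (g b (tt ps om v μ))) := fun _ _ _ _ => rfl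
  -- nondegeneracy
  obtain ⟨q₁, hq₁, c₁, hc₁, N₁, hnd⟩ := nondeg (e' := e') hτ hδ hδτ h he ps hz₀ hε hε1 hg.cont
    hg.hol hg.holt hg.vv hg.res hg.dec
  have hne : ∃ q, ∃ p ∈ s, ∃ μ ∈ ball (0 : ℂ) r₀, c q p 0 μ ≠ 0 := by
    by_contra hcon
    push Not at hcon
    have h0 : (0 : (Fin (n + 1) → ℝ) × (ι → ℝ)) ∈ closedBall
        (0 : (Fin (n + 1) → ℝ) × (ι → ℝ)) r₀ := mem_closedBall_self hr₀.le
    have hb : ∀ N, Nc ⟨q₁, hq₁⟩ ≤ N → ∀ μ ∈ ball (0 : ℂ) r₀, ‖FF h ps om g q₁ N 0 μ‖ ≤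
        Cc ⟨q₁, hq₁⟩ * N ^ (-κ) := by
      intro N hN μ hμ
      have h1 := hcF ⟨q₁, hq₁⟩ N hN 0 h0 μ (ball_subset_closedBall hμ)
      rw [Finset.sum_eq_zero (fun p hp => by rw [hcon ⟨q₁, hq₁⟩ p hp μ hμ, mul_zero]),
        sub_zero] at h1
      exact h1
    have hder : ∀ N, Nc ⟨q₁, hq₁⟩ ≤ N → ‖deriv (fun μ => FF h ps om g q₁ N 0 μ) 0‖ ≤
        Cc ⟨q₁, hq₁⟩ * N ^ (-κ) / (r₀ / 2) := by
      intro N hN
      refine Complex.norm_deriv_le_of_forall_mem_sphere_norm_le (half_pos hr₀) ?_ fun z hz => ?_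
      · have h1 := hlocd ⟨q₁, hq₁⟩ N 0 h0
        refine DifferentiableOn.diffContOnCl ?_
        rw [closure_ball _ (half_pos hr₀).ne']
        exact h1.mono (closedBall_subset_ball (by linarith))
      · refine hb N hN z ?_
        have hz' : ‖z‖ = r₀ / 2 := by simpa using hz
        rw [mem_ball_zero_iff, hz']
        linarith
    -- contradiction for large `N`
    have hlim : Tendsto (fun N : ℝ => (Cc ⟨q₁, hq₁⟩ / (r₀ / 2)) * N ^ (-Real.sqrt 2)) atTop
        (𝓝 0) := by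
      simpa using (tendsto_rpow_neg_atTop hsq).const_mul (Cc ⟨q₁, hq₁⟩ / (r₀ / 2))
    obtain ⟨N, hN1, hN2⟩ := ((hlim.eventually_lt_const hc₁).and
      (Filter.eventually_ge_atTop (max (max N₁ (Nc ⟨q₁, hq₁⟩)) 1))).exists
    have hN3 : N₁ ≤ N := ((le_max_left _ _).trans (le_max_left _ _)).trans hN2
    have hN4 : Nc ⟨q₁, hq₁⟩ ≤ N := ((le_max_right _ _).trans (le_max_left _ _)).trans hN2
    have hN5 : 0 < N := lt_of_lt_of_le one_pos ((le_max_right _ _).trans hN2)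
    have h1 := (hnd N hN3).trans (hder N hN4)
    have h2 : N ^ (-κ) = N ^ (-Real.sqrt 2) / N ^ (2 * n) := by
      rw [hκ, neg_add, add_comm, Real.rpow_add hN5, Real.rpow_neg hN5.le ((2 * n : ℕ) : ℝ),
        Real.rpow_natCast]
      rfl
    rw [h2] at h1
    have h3 : 0 < N ^ (2 * n) := by positivity
    have h4 : c₁ ≤ (Cc ⟨q₁, hq₁⟩ / (r₀ / 2)) * N ^ (-Real.sqrt 2) := by
      have h5 : Cc ⟨q₁, hq₁⟩ * (N ^ (-Real.sqrt 2) / N ^ (2 * n)) / (r₀ / 2) =
          ((Cc ⟨q₁, hq₁⟩ / (r₀ / 2)) * N ^ (-Real.sqrt 2)) / N ^ (2 * n) := by ring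
      rw [h5, div_le_div_iff_of_pos_right h3] at h1
      exact h1
    linarith
  -- the line
  obtain ⟨q, r', hr', hr'0, b, hb, ε₁, hε₁, N₀, hmain⟩ := jarg (Lat (ι := ι) h.Rm) (e', ps.c) hs
    hr₀ hr₀ le_rfl (fun (q : {q : Fin n → ℂ → ℂ // ∀ l, DifferentiableOn ℂ (q l) (D.Ue δ)})
      N v μ => FF h ps om g q.1 N v μ) c hc hd (fun q => ⟨Cc q, Nc q, hcF q⟩) hne (by
    intro T hT
    have hT0 : 0 < T := hr₀.trans hT
    obtain ⟨d, gl, hl⟩ := hline (T + 1) (by linarith)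
    have hsub : closedBall (0 : ℂ) T ⊆ ball 0 (T + 1) := closedBall_subset_ball (by linarith)
    have hfl := fun (q : {q : Fin n → ℂ → ℂ // ∀ l, DifferentiableOn ℂ (q l) (D.Ue δ)}) =>
      hfam Unit univ isCompact_univ T hT0.le (fun i v => 0) (fun i => continuousOn_const)
        (fun j v z => z * om j) (fun j => by fun_prop) (fun j v _ => by fun_prop)
        (fun j v z => Complex.exp (z * om j)) (fun j => by fun_prop) (fun j v _ => by fun_prop)
        (fun b v z => gl b z)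
        (by
          intro b
          refine (hl.cont b).comp (f := fun p : (Unit × ℂ) × ℂ => (p.1.2, p.2)) (by fun_prop) ?_
          rintro p ⟨⟨h1, h2⟩, h3⟩
          exact ⟨hsub h2, h3⟩)
        (fun b v _ z hz => hl.hol b z (hsub hz))
        (fun b v _ z hz => (hl.hols b z hz).mono (ball_subset_closedBall.trans hsub))
        q.1 q.2
    choose hfld cl hclc hcld Cl Nl hclF using hfl
    refine ⟨fun q N z => FL h ps om gl q.1 N z, fun q p z => cl q p () z, ?_, ?_, ?_, ?_⟩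
    · intro q p
      exact hcld q p () (mem_univ _)
    · intro q z hz
      refine IsBigO.of_bound (Cl q) ?_
      filter_upwards [Filter.eventually_ge_atTop (Nl q), Filter.eventually_ge_atTop 0]
        with N hN hN0
      rw [Real.norm_of_nonneg (Real.rpow_nonneg hN0 _)]
      exact hclF q N hN () (mem_univ _) z (ball_subset_closedBall hz)
    · intro z hz
      refine ⟨(Matrix.diagonal (fun _ : Fin (n + 1) => d z)).det, fun q N => ?_⟩
      have hzr : ‖z‖ ≤ r₀ := by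
        have : ‖z‖ < r₀ := by simpa using hz
        exact this.le
      have hzT : z ∈ ball (0 : ℂ) (T + 1) := by
        rw [mem_ball_zero_iff]; linarith
      have hte : tt ps om 0 z = fun j => Complex.exp (z * om j) := by
        funext j
        simp [tt]
      have htz := htt' 0 z (by simpa using hr₀.le) hzr
      have hval : ∀ b, ∀ w ∈ D.U, gl b z w =
          ∑ b', (Matrix.diagonal (fun _ : Fin (n + 1) => d z)) b b' * g b' (tt ps om 0 z) w := by
        intro b w hw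
        have h1 := hg.eq_sum hτ htz (f := gl b z) (by rw [hte]; exact hl.vv b z hzT) w hw
        rw [h1]
        refine Finset.sum_congr rfl fun b' _ => ?_
        rw [hl.res b b' z hzT, Matrix.diagonal_apply]
        by_cases hbb : b = b'
        · simp [hbb]
        · rw [if_neg hbb, if_neg (fun h => hbb h.symm)]
      beta_reduce
      unfold FL FF
      have e1 : (fun b l => Bv h ps N 0 (fun j => z * om j) (gl b z) (q.1 l)) =
          fun b l => ∑ b', (Matrix.diagonal (fun _ : Fin (n + 1) => d z)) b b' *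
            Bv h ps N 0 (fun j => ((0 : (Fin (n + 1) → ℝ) × (ι → ℝ)).1 j : ℂ) + z * om j)
              (g b' (tt ps om 0 z)) (q.1 l) := by
        funext b l
        rw [Bv_congr h ps N 0 _ (hval b) (fun z _ => rfl)]
        rw [Bv_sum hτ hδ h e ps N 0 _ (fun b' => hg.hol b' _ htz) _ (q.2 l)]
        simp
      have e2 : (fun b => sfun D τ (fun j => Complex.exp (z * om j)) (gl b z)) =
          fun b => ∑ b', (Matrix.diagonal (fun _ : Fin (n + 1) => d z)) b b' *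
            sfun D τ (tt ps om 0 z) (g b' (tt ps om 0 z)) := by
        funext b
        rw [sfun_congr _ (hval b), sfun_sum hτ hδ _ (fun b' => hg.hol b' _ htz), ← hte]
      rw [e1, e2, Fdet_mul]
      rfl
    · intro t v ht hv hlat
      exact returns hτ hδ hδτ h ps hz₀ hg hl hr₀ (fun μ hμ => htt' v μ
        (by have : ‖v‖ < r₀ := by simpa using hv
            exact this.le)
        (by have : ‖μ‖ < r₀ := by simpa using hμ
            exact this.le)) (by linarith) hlat)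
  refine ⟨κ, q.1, q.2, r', hr', b, hb, min ε₁ r₀, lt_min hε₁ hr₀, ?_, N₀, ?_⟩
  · intro v hv μ hμ j
    exact htt v μ (hv.le.trans (min_le_right _ _)) (hμ.trans hr'0.le) j
  · intro N hN v hv1 hv2 μ hμ
    exact hmain N hN v hv1 (hv2.trans_le (min_le_left _ _)) μ hμ

end Pool.Agent.Helper7.KE
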