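import Pool.Agent.Helper7.KE.Defs

set_option autoImplicit false

open MeasureTheory Set Filter Asymptotics Topology Metric
open scoped ComplexConjugate ENNReal

namespace Pool.Agent.Helper7.KE

/-- a weak solution of `∂u/∂z̄ = μ conj(h) u`, orthogonal to the holomorphic functions -/
structure IsSol (U : Set ℂ) (h : ℂ → ℂ) (μ : ℂ) (u : ℂ → ℂ) : Prop where
  memLp : MemLp u 2 (volume.restrict U)
  ne : ¬ ∀ᵐ z ∂(volume.restrict U), u z = 0
  weak : ∀ φ : ℂ → ℂ, IsTest U φ →
    ∫ z in U, u z * dzb φ z = -∫ z in U, μ * conj (h z) * u z * φ z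
  orth : ∀ g : ℂ → ℂ, DifferentiableOn ℂ g U → MemLp g 2 (volume.restrict U) →
    ∫ z in U, u z * conj (g z) = 0

end Pool.Agent.Helper7.KE
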