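import Pool.Agent.Helper7.KE.Defs

set_option autoImplicit false

open MeasureTheory Set Filter Asymptotics Topology Metric
open scoped ComplexConjugate ENNReal

namespace Pool.Agent.Helper7.KE

private theorem exists_good' {k : ℕ} (D : CD k) : ∃ τ, D.Good τ := by
  have h1 : ∀ᶠ τ in 𝓝[>] (0 : ℝ), 0 < τ := self_mem_nhdsWithin
  have h2 : ∀ c : ℝ, 0 < c → ∀ᶠ τ in 𝓝[>] (0 : ℝ), 2 * τ < c := fun c hc => by
    filter_upwards [Ioo_mem_nhdsGT (half_pos hc)] with τ hτ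
    linarith [hτ.2]
  have h3 : ∀ᶠ τ in 𝓝[>] (0 : ℝ), ∀ j, 2 * τ < D.r j :=
    eventually_all.2 fun j => h2 _ (D.rpos j)
  have h4 : ∀ᶠ τ in 𝓝[>] (0 : ℝ), ∀ j, 2 * τ < D.R - (‖D.a j‖ + D.r j) :=
    eventually_all.2 fun j => h2 _ (by linarith [D.inside j])
  have h5 : ∀ᶠ τ in 𝓝[>] (0 : ℝ), ∀ i j, i ≠ j → 2 * τ < ‖D.a i - D.a j‖ - (D.r i + D.r j) := by
    refine eventually_all.2 fun i => eventually_all.2 fun j => ?_
    by_cases hij : i = j
    · exact Eventually.of_forall fun τ h => absurd hij h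
    · filter_upwards [h2 _ (sub_pos.2 (D.disj i j hij))] with τ hτ _ using hτ
  obtain ⟨τ, t1, t2, t3, t4, t5⟩ := (h1.and ((h2 _ D.Rpos).and (h3.and (h4.and h5)))).exists
  exact ⟨τ, t1, fun j => by linarith [t3 j], by linarith, fun j => by linarith [t4 j],
    fun i j hij => by linarith [t5 i j hij]⟩

/-- integration along a radial segment -/
private theorem radial_bound {k : ℕ} (D : CD k) {F v : ℂ → ℂ} {C : ℝ}
    (hF : ∀ z ∈ D.U, HasDerivAt F (v z) z) (hv : ∀ z ∈ D.U, ‖v z‖ ≤ C)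
    (a u : ℂ) (s t : ℝ) (hu : ‖u‖ = 1)
    (hU : ∀ x ∈ segment ℝ s t, a + (x : ℂ) * u ∈ D.U) :
    ‖F (a + (t : ℂ) * u) - F (a + (s : ℂ) * u)‖ ≤ C * |t - s| := by
  have h1 : ∀ w ∈ segment ℝ (a + (s : ℂ) * u) (a + (t : ℂ) * u), w ∈ D.U := by
    rintro w ⟨α, β, hα, hβ, hαβ, rfl⟩
    have h2 : (α • s + β • t : ℝ) ∈ segment ℝ s t := ⟨α, β, hα, hβ, hαβ, rfl⟩
    have h3 := hU _ h2
    convert h3 using 1
    have h4 : (α : ℂ) + β = 1 := by exact_mod_cast hαβ
    simp only [Complex.real_smul, smul_eq_mul, Complex.ofReal_add, Complex.ofReal_mul]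
    linear_combination a * h4
  have h2 := (convex_segment (𝕜 := ℝ) (a + (s : ℂ) * u)
    (a + (t : ℂ) * u)).norm_image_sub_le_of_norm_hasDerivWithin_le (𝕜 := ℂ) (f := F) (f' := v)
    (C := C)
    (fun x hx => (hF x (h1 x hx)).hasDerivWithinAt) (fun x hx => hv x (h1 x hx))
    (left_mem_segment ℝ _ _) (right_mem_segment ℝ _ _)
  refine h2.trans (le_of_eq ?_)
  have h3 : a + (t : ℂ) * u - (a + (s : ℂ) * u) = ((t - s : ℝ) : ℂ) * u := by
    push_cast
    ring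
  rw [h3, norm_mul, hu, mul_one, Complex.norm_real, Real.norm_eq_abs]

theorem bounded_of_deriv {k : ℕ} (D : CD k) {F v : ℂ → ℂ} {C : ℝ}
    (hF : ∀ z ∈ D.U, HasDerivAt F (v z) z) (hv : ∀ z ∈ D.U, ‖v z‖ ≤ C) :
    ∃ C' : ℝ, ∀ z ∈ D.U, ‖F z‖ ≤ C' := by
  obtain ⟨τ, hτ⟩ := exists_good' D
  have hτ0 := hτ.pos
  set K : Set ℂ := {z | ‖z‖ ≤ D.R - τ ∧ ∀ j, D.r j + τ ≤ ‖z - D.a j‖} with hK
  have hKU : K ⊆ D.U := fun z hz => ⟨by linarith [hz.1], fun j => by linarith [hz.2 j]⟩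
  have hKc : IsCompact K := by
    have h1 : IsClosed K := by
      have : K = {z | ‖z‖ ≤ D.R - τ} ∩ ⋂ j, {z | D.r j + τ ≤ ‖z - D.a j‖} := by
        ext z; simp [hK]
      rw [this]
      refine (isClosed_le continuous_norm continuous_const).inter (isClosed_iInter fun j => ?_)
      exact isClosed_le continuous_const (by fun_prop)
    exact (isCompact_closedBall (0 : ℂ) (D.R - τ)).of_isClosed_subset h1 fun z hz => by
      simpa using hz.1
  obtain ⟨C₁, hC₁⟩ := hKc.exists_bound_of_continuousOn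
    (f := F) fun z hz => (hF z (hKU hz)).continuousAt.continuousWithinAt
  refine ⟨C₁ + |C| * τ, fun z hz => ?_⟩
  by_cases hzK : z ∈ K
  · exact (hC₁ z hzK).trans (by linarith [mul_nonneg (abs_nonneg C) hτ0.le])
  by_cases hz1 : ‖z‖ ≤ D.R - τ
  · -- near an inner circle
    have h1 : ∃ j, ‖z - D.a j‖ < D.r j + τ := by
      by_contra h
      push_neg at h
      exact hzK ⟨hz1, h⟩
    obtain ⟨j, hj⟩ := h1
    have hjr := hz.2 j
    have hpos : 0 < ‖z - D.a j‖ := (D.rpos j).trans hjr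
    set u : ℂ := (z - D.a j) / (‖z - D.a j‖ : ℂ) with hu
    have hu1 : ‖u‖ = 1 := by
      rw [hu, norm_div, Complex.norm_real, norm_norm, div_self hpos.ne']
    have hzu : D.a j + (‖z - D.a j‖ : ℂ) * u = z := by
      rw [hu]
      have : (‖z - D.a j‖ : ℂ) ≠ 0 := by exact_mod_cast hpos.ne'
      field_simp
      ring
    have hmem : ∀ x : ℝ, D.r j < x → x ≤ D.r j + τ → D.a j + (x : ℂ) * u ∈ D.U ∧
        (D.r j + τ ≤ x → D.a j + (x : ℂ) * u ∈ K) := by
      intro x hx1 hx2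
      have hx0 : 0 < x := (D.rpos j).trans hx1
      have hxu : ‖(x : ℂ) * u‖ = x := by
        rw [norm_mul, hu1, mul_one, Complex.norm_real, Real.norm_eq_abs, abs_of_pos hx0]
      have g1 : ‖D.a j + (x : ℂ) * u‖ ≤ D.R - τ := by
        have := norm_add_le (D.a j) ((x : ℂ) * u)
        linarith [hτ.inside j]
      have g2 : ∀ i, i ≠ j → D.r i + τ ≤ ‖D.a j + (x : ℂ) * u - D.a i‖ := by
        intro i hij
        have e1 : D.a i - D.a j = (x : ℂ) * u - (D.a j + (x : ℂ) * u - D.a i) := by ring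
        have e2 := norm_sub_le ((x : ℂ) * u) (D.a j + (x : ℂ) * u - D.a i)
        rw [← e1] at e2
        linarith [hτ.disj i j hij]
      have g3 : ‖D.a j + (x : ℂ) * u - D.a j‖ = x := by
        rw [add_sub_cancel_left, hxu]
      refine ⟨⟨by linarith, fun i => ?_⟩, fun hx3 => ⟨g1, fun i => ?_⟩⟩
      · by_cases hij : i = j
        · subst hij; rw [g3]; exact hx1
        · linarith [g2 i hij]
      · by_cases hij : i = j
        · subst hij; rw [g3]; exact hx3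
        · exact g2 i hij
    have h2 := radial_bound D hF hv (D.a j) u (D.r j + τ) ‖z - D.a j‖ hu1 (by
      intro x hx
      rw [segment_symm, segment_eq_Icc hj.le] at hx
      exact (hmem x (hjr.trans_le hx.1) hx.2).1)
    rw [hzu] at h2
    have h3 := hC₁ _ ((hmem (D.r j + τ) (by linarith) le_rfl).2 le_rfl)
    have h4 : |‖z - D.a j‖ - (D.r j + τ)| ≤ τ := by
      rw [abs_le]
      constructor <;> linarith
    have h5 : C * |‖z - D.a j‖ - (D.r j + τ)| ≤ |C| * τ :=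
      mul_le_mul (le_abs_self C) h4 (abs_nonneg _) (abs_nonneg C)
    calc ‖F z‖ = ‖F (D.a j + ((D.r j + τ : ℝ) : ℂ) * u) +
          (F z - F (D.a j + ((D.r j + τ : ℝ) : ℂ) * u))‖ := by congr 1; ring
      _ ≤ _ := norm_add_le _ _
      _ ≤ C₁ + |C| * τ := add_le_add h3 (h2.trans h5)
  · -- near the outer circle
    push_neg at hz1
    have hRτ : 0 < D.R - τ := by linarith [hτ.lt_R]
    have hpos : 0 < ‖z‖ := hRτ.trans hz1
    set u : ℂ := z / (‖z‖ : ℂ) with hu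
    have hu1 : ‖u‖ = 1 := by
      rw [hu, norm_div, Complex.norm_real, norm_norm, div_self hpos.ne']
    have hzu : 0 + (‖z‖ : ℂ) * u = z := by
      rw [hu]
      have : (‖z‖ : ℂ) ≠ 0 := by exact_mod_cast hpos.ne'
      field_simp
      ring
    have hmem : ∀ x : ℝ, D.R - τ ≤ x → x < D.R → 0 + (x : ℂ) * u ∈ D.U ∧
        (x ≤ D.R - τ → 0 + (x : ℂ) * u ∈ K) := by
      intro x hx1 hx2
      have hx0 : 0 < x := hRτ.trans_le hx1
      have hxu : ‖(0 : ℂ) + (x : ℂ) * u‖ = x := by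
        rw [zero_add, norm_mul, hu1, mul_one, Complex.norm_real, Real.norm_eq_abs, abs_of_pos hx0]
      have g2 : ∀ i, D.r i + τ ≤ ‖0 + (x : ℂ) * u - D.a i‖ := by
        intro i
        have e2 := norm_sub_norm_le ((0 : ℂ) + (x : ℂ) * u) (D.a i)
        rw [hxu] at e2
        linarith [hτ.inside i]
      exact ⟨⟨by rw [hxu]; exact hx2, fun i => by linarith [g2 i]⟩,
        fun hx3 => ⟨by rw [hxu]; exact hx3, g2⟩⟩
    have h2 := radial_bound D hF hv 0 u (D.R - τ) ‖z‖ hu1 (by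
      intro x hx
      rw [segment_eq_Icc hz1.le] at hx
      exact (hmem x hx.1 (hx.2.trans_lt hz.1)).1)
    rw [hzu] at h2
    have h3 := hC₁ _ ((hmem (D.R - τ) le_rfl (by linarith)).2 le_rfl)
    have h4 : |‖z‖ - (D.R - τ)| ≤ τ := by
      rw [abs_le]
      constructor <;> linarith [hz.1]
    have h5 : C * |‖z‖ - (D.R - τ)| ≤ |C| * τ :=
      mul_le_mul (le_abs_self C) h4 (abs_nonneg _) (abs_nonneg C)
    calc ‖F z‖ = ‖F (0 + ((D.R - τ : ℝ) : ℂ) * u) +
          (F z - F (0 + ((D.R - τ : ℝ) : ℂ) * u))‖ := by congr 1; ring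
      _ ≤ _ := norm_add_le _ _
      _ ≤ C₁ + |C| * τ := add_le_add h3 (h2.trans h5)

end Pool.Agent.Helper7.KE
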