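import Pool.Agent.Helper7.KE.F0
import Pool.Agent.Helper7.KE.F1
import Pool.Agent.Helper7.KE.D4
import Pool.Agent.Helper7.KE.C5c
import Pool.Agent.Helper7.KE.E9

set_option autoImplicit false

open MeasureTheory Set Filter Asymptotics Topology Metric
open scoped ComplexConjugate ENNReal

namespace Pool.Agent.Helper7.KE

private theorem f2_int {k : ℕ} (D : CD k) {f g : ℂ → ℂ} (hf : ContinuousOn f D.U) {C : ℝ}
    (hC : ∀ z ∈ D.U, ‖f z‖ ≤ C) (hg : Continuous g) :
    Integrable (fun z => f z * g z) (volume.restrict D.U) := by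
  obtain ⟨C', hC'⟩ := D.cU_compact.exists_bound_of_continuousOn hg.continuousOn
  have hm : AEStronglyMeasurable (fun z => f z * g z) (volume.restrict D.U) :=
    (hf.mul hg.continuousOn).aestronglyMeasurable D.U_open.measurableSet
  have hM : MemLp (fun z => f z * g z) 1 (volume.restrict D.U) := by
    refine MemLp.of_bound hm (C * C') ?_
    filter_upwards [ae_restrict_mem D.U_open.measurableSet] with z hz
    rw [norm_mul]
    exact mul_le_mul (hC z hz) (hC' z (D.U_subset_cU hz)) (norm_nonneg _)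
      ((norm_nonneg _).trans (hC z hz))
  exact memLp_one_iff_integrable.1 hM

private theorem f2_memLp {k : ℕ} (D : CD k) {f : ℂ → ℂ} (hf : ContinuousOn f D.U) {C : ℝ}
    (hC : ∀ z ∈ D.U, ‖f z‖ ≤ C) {g : ℂ → ℂ} (hg : MemLp g 2 (volume.restrict D.U)) :
    MemLp (fun z => f z * g z) 2 (volume.restrict D.U) := by
  refine MemLp.of_le_mul (c := C) hg
    ((hf.aestronglyMeasurable D.U_open.measurableSet).mul hg.1) ?_
  filter_upwards [ae_restrict_mem D.U_open.measurableSet] with z hz
  rw [norm_mul]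
  exact mul_le_mul_of_nonneg_right (hC z hz) (norm_nonneg _)

private theorem f2_coef {k : ℕ} (D : CD k) {τ : ℝ} (hτ : D.Good τ) {h : ℂ → ℂ}
    (hh : ContinuousOn h D.U) {C : ℝ} (hC : ∀ z ∈ D.U, ‖h z‖ ≤ C) {v : Fin k → ℂ → ℂ}
    (hv : ∀ j, ContinuousOn (v j) D.U) {C' : Fin k → ℝ} (hC' : ∀ j, ∀ z ∈ D.U, ‖v j z‖ ≤ C' j)
    (x : Fin k → ℂ) (l : Fin k) :
    D.coef τ (some l) 0 (fun z => h z - ∑ j, x j * v j z) =
      D.coef τ (some l) 0 h - ∑ j, x j * D.coef τ (some l) 0 (v j) := by
  have hX : Continuous (dzb (fun w => (D.chi τ (some l) w : ℂ))) := by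
    have h1 : ContDiff ℝ (⊤ : ℕ∞) (fun w => (D.chi τ (some l) w : ℂ)) :=
      Complex.ofRealCLM.contDiff.comp (chi_smooth D hτ.pos hτ.lt_R (some l))
    exact (contDiffOn_univ.1
      (dz_contDiffOn isOpen_univ (contDiffOn_univ.2 h1)).2).continuous
  set X := dzb (fun w => (D.chi τ (some l) w : ℂ)) with hXdef
  have i1 := f2_int D hh hC hX
  have i2 : ∀ j, Integrable (fun z => v j z * X z) (volume.restrict D.U) := fun j =>
    f2_int D (hv j) (hC' j) hX
  have e1 : ∫ z in D.U, (h z - ∑ j, x j * v j z) * X z =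
      (∫ z in D.U, h z * X z) - ∑ j, x j * ∫ z in D.U, v j z * X z := by
    have e2 : (fun z => (h z - ∑ j, x j * v j z) * X z) =
        fun z => h z * X z - ∑ j, x j * (v j z * X z) := by
      funext z
      rw [sub_mul, Finset.sum_mul]
      congr 1
      exact Finset.sum_congr rfl fun j _ => by ring
    rw [e2, integral_sub i1 (integrable_finsetSum _ fun j _ => (i2 j).const_mul _),
      integral_finsetSum _ fun j _ => (i2 j).const_mul _]
    congr 1
    exact Finset.sum_congr rfl fun j _ => integral_const_mul (x j) _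
  simp only [CD.coef, pow_zero, mul_one]
  rw [← hXdef, e1, mul_sub, Finset.mul_sum]
  congr 1
  exact Finset.sum_congr rfl fun j _ => by ring

/-- from the harmonic potential to a general bounded holomorphic `h` without primitive
(uses `exists_HM`, `exists_primitive_U`, `bounded_of_deriv`, `circle_main`) -/
theorem circle_bounded {k : ℕ} (D : CD k) {h : ℂ → ℂ} (hh : DifferentiableOn ℂ h D.U)
    (hb : ∃ C : ℝ, ∀ z ∈ D.U, ‖h z‖ ≤ C)
    (hn : ¬ ∃ F : ℂ → ℂ, ∀ z ∈ D.U, HasDerivAt F (h z) z) (R : ℝ) :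
    ∃ μ : ℂ, R < ‖μ‖ ∧ ∃ u : ℂ → ℂ, IsSol D.U h μ u := by
  obtain ⟨τ, hτ⟩ := exists_good D
  obtain ⟨δ, hδ, hδτ, ⟨H⟩⟩ := exists_HM D hτ
  obtain ⟨C, hC⟩ := hb
  have hvc : ∀ j, ContinuousOn (H.v j) D.cU := fun j =>
    (H.hol j).continuousOn.mono (D.cU_subset_Ue hδ)
  have hvb : ∀ j, ∃ C' : ℝ, ∀ z ∈ D.U, ‖H.v j z‖ ≤ C' := fun j => by
    obtain ⟨C', hC'⟩ := D.cU_compact.exists_bound_of_continuousOn (hvc j)
    exact ⟨C', fun z hz => hC' z (D.U_subset_cU hz)⟩
  choose C' hC' using hvb
  -- the coefficients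
  set M : Matrix (Fin k) (Fin k) ℂ := H.Rm.map (algebraMap ℝ ℂ) with hM
  have hdet : IsUnit M.det := by
    have : M.det = algebraMap ℝ ℂ H.Rm.det := by
      rw [hM, ← RingHom.mapMatrix_apply, ← RingHom.map_det]
    rw [this, isUnit_iff_ne_zero]
    exact fun h0 => H.det_ne (by simpa using h0)
  set b : Fin k → ℂ := fun l => D.r l * D.coef τ (some l) 0 h with hbdef
  set x : Fin k → ℂ := M⁻¹.mulVec b with hxdef
  have hx : M.mulVec x = b := by
    rw [hxdef, Matrix.mulVec_mulVec, Matrix.mul_nonsing_inv _ hdet, Matrix.one_mulVec]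
  have hzero : ∀ l, D.coef τ (some l) 0 (fun z => h z - ∑ j, x j * H.v j z) = 0 := by
    intro l
    rw [f2_coef D hτ hh.continuousOn hC (fun j => (hvc j).mono D.U_subset_cU) hC' x l]
    have h1 : ∑ j, (H.Rm l j : ℂ) * x j = D.r l * D.coef τ (some l) 0 h := by
      have := congrFun hx l
      simpa [Matrix.mulVec, dotProduct, hM, hbdef] using this
    have h2 : (D.r l : ℂ) ≠ 0 := by exact_mod_cast (D.rpos l).ne'
    apply mul_left_cancel₀ h2
    rw [mul_sub, mul_zero, ← h1, Finset.mul_sum, ← Finset.sum_sub_distrib]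
    apply Finset.sum_eq_zero
    intro j _
    have := H.res l j
    rw [← this]
    ring
  obtain ⟨F, hF⟩ := exists_primitive_U D hτ (v := fun z => h z - ∑ j, x j * H.v j z)
    (hh.sub (DifferentiableOn.fun_sum fun j _ =>
      ((H.hol j).mono (D.U_subset_cU.trans (D.cU_subset_Ue hδ))).const_mul _)) hzero
  have hx0 : x ≠ 0 := by
    intro h0
    apply hn
    refine ⟨F, fun z hz => ?_⟩
    have := hF z hz
    simpa [h0] using this
  obtain ⟨B, hB⟩ := bounded_of_deriv D (C := C + ∑ j, ‖x j‖ * C' j) hF (fun z hz => by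
    refine (norm_sub_le _ _).trans (add_le_add (hC z hz) ?_)
    refine (norm_sum_le _ _).trans (Finset.sum_le_sum fun j _ => ?_)
    rw [norm_mul]
    exact mul_le_mul_of_nonneg_left (hC' j z hz) (norm_nonneg _))
  -- rotation
  obtain ⟨c, hc1, hcne, hce⟩ : ∃ c : ℂ, ‖c‖ = 1 ∧ c ≠ 0 ∧
      (fun j => (c * conj (x j)).im) ≠ 0 := by
    by_cases hre : (fun j => ((1 : ℂ) * conj (x j)).im) = 0
    · refine ⟨Complex.I, by simp, Complex.I_ne_zero, fun h0 => hx0 ?_⟩
      funext j
      have h1 := congrFun hre j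
      have h2 := congrFun h0 j
      simp only [one_mul, Complex.conj_im, Pi.zero_apply, neg_eq_zero] at h1
      simp only [Complex.mul_im, Complex.I_re, Complex.I_im, Complex.conj_re, Complex.conj_im,
        zero_mul, one_mul, zero_add, Pi.zero_apply] at h2
      exact Complex.ext h2 h1
    · exact ⟨1, by simp, one_ne_zero, hre⟩
  obtain ⟨μ', hμ', u₀, hu0, hP, hW⟩ := circle_main hτ hδ hδτ H
    (e := fun j => (c * conj (x j)).im) (e' := fun j => (c * conj (x j)).re) hce R
  have hcx : ∀ j, (((c * conj (x j)).re : ℝ) : ℂ) + Complex.I * ((c * conj (x j)).im : ℝ) =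
      c * conj (x j) := fun j => by
    rw [mul_comm Complex.I]
    exact Complex.re_add_im _
  simp only [hcx] at hW
  set W : ℂ → ℂ := H.vb (fun j => c * conj (x j)) with hWdef
  have hWval : ∀ z, W z = c * conj (∑ j, x j * H.v j z) := by
    intro z
    rw [hWdef, HM.vb, map_sum, Finset.mul_sum]
    refine Finset.sum_congr rfl fun j _ => ?_
    rw [map_mul]
    ring
  have hWc : ContinuousOn W D.cU := by
    have : W = fun z => c * conj (∑ j, x j * H.v j z) := funext hWval
    rw [this]
    refine continuousOn_const.mul (Complex.continuous_conj.comp_continuousOn ?_)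
    exact continuousOn_finsetSum _ fun j _ => continuousOn_const.mul (hvc j)
  set μ : ℂ := μ' * c with hμ
  set G : ℂ → ℂ := fun z => Complex.exp (μ * conj (F z)) with hG
  have hFd : DifferentiableOn ℂ F D.U := fun z hz =>
    (hF z hz).differentiableAt.differentiableWithinAt
  have hFs : ContDiffOn ℝ (⊤ : ℕ∞) F D.U := hol_contDiffOn D.U_open hFd
  have hFcs : ContDiffOn ℝ (⊤ : ℕ∞) (fun z => μ * conj (F z)) D.U :=
    contDiffOn_const.mul ((Complex.conjCLE : ℂ →L[ℝ] ℂ).contDiff.comp_contDiffOn hFs)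
  have hGs : ContDiffOn ℝ (⊤ : ℕ∞) G D.U := hFcs.cexp
  have hGb : ∀ z ∈ D.U, ‖G z‖ ≤ Real.exp (‖μ‖ * B) := by
    intro z hz
    rw [hG, Complex.norm_exp]
    apply Real.exp_le_exp.2
    refine (Complex.re_le_norm _).trans ?_
    rw [norm_mul, Complex.norm_conj]
    exact mul_le_mul_of_nonneg_left (hB z hz) (norm_nonneg _)
  have hGz : ∀ z ∈ D.U, dzb G z = G z * (μ * conj (h z - ∑ j, x j * H.v j z)) := by
    intro z hz
    have hmem := D.U_open.mem_nhds hz
    have hd : DifferentiableAt ℝ (fun z => μ * conj (F z)) z :=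
      (hFcs.contDiffAt hmem).differentiableAt (by simp)
    have hcd : DifferentiableAt ℝ (fun z => conj (F z)) z :=
      (((Complex.conjCLE : ℂ →L[ℝ] ℂ).contDiff.comp_contDiffOn hFs).contDiffAt
        hmem).differentiableAt (by simp)
    rw [hG, (dz_cexp hd).2]
    congr 1
    have h1 := (dz_smul (f := fun _ => μ) (F := fun w => conj (F w)) (z := z)
      (differentiableAt_const _) hcd).2
    simp only [smul_eq_mul] at h1
    rw [h1, dz_const.2, zero_mul, zero_add, (dz_conj_hol (hF z hz).differentiableAt).2,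
      (hF z hz).deriv]
  have hu0L : MemLp (u₀ : ℂ → ℂ) 2 (volume.restrict D.U) := Lp.memLp u₀
  refine ⟨μ, ?_, fun z => G z * u₀ z, ?_, ?_, ?_, ?_⟩
  · rw [hμ, norm_mul, hc1, mul_one]
    exact hμ'
  · exact f2_memLp D hGs.continuousOn hGb hu0L
  · intro h0
    apply hu0
    rw [Lp.eq_zero_iff_ae_eq_zero]
    filter_upwards [h0] with z hz
    rcases mul_eq_zero.1 hz with h | h
    · exact absurd h (Complex.exp_ne_zero _)
    · exact h
  · intro φ hφ
    have hGφ : IsTest D.U (fun z => G z • φ z) := IsTest.smul D.U_open hGs hφ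
    have h1 := hW _ hGφ
    have hMul := D.Mul_coe hWc u₀
    have hsm := Lp.coeFn_smul μ' (D.Mul W u₀)
    have h2 : ∫ z in D.U, (μ' • D.Mul W u₀ : D.L2) z * (G z • φ z) =
        ∫ z in D.U, μ * conj (∑ j, x j * H.v j z) * (G z * u₀ z) * φ z := by
      apply integral_congr_ae
      filter_upwards [hMul, hsm] with z h3 h4
      rw [h4, Pi.smul_apply, h3, hWval, smul_eq_mul, smul_eq_mul, hμ]
      ring
    rw [h2] at h1
    have hφc : Continuous φ := hφ.smooth.continuous
    have hdφ : Continuous (dzb φ) := hφ.dzb.smooth.continuous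
    have hGd : ∀ z ∈ D.U, dzb (fun z => G z • φ z) z =
        G z * dzb φ z + G z * (μ * conj (h z - ∑ j, x j * H.v j z)) * φ z := by
      intro z hz
      have hmem := D.U_open.mem_nhds hz
      rw [(dz_smul ((hGs.contDiffAt hmem).differentiableAt (by simp))
        (hφ.smooth.differentiable (by simp) z)).2, hGz z hz, smul_eq_mul, smul_eq_mul]
      ring
    have h3 : ∫ z in D.U, u₀ z * dzb (fun z => G z • φ z) z =
        ∫ z in D.U, (G z * u₀ z * dzb φ z +
          μ * conj (h z - ∑ j, x j * H.v j z) * (G z * u₀ z) * φ z) := by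
      refine setIntegral_congr_fun D.U_open.measurableSet fun z hz => ?_
      rw [hGd z hz]
      ring
    -- integrability
    have hGu : MemLp (fun z => G z * u₀ z) 2 (volume.restrict D.U) :=
      f2_memLp D hGs.continuousOn hGb hu0L
    have hcint : ∀ q : ℂ → ℂ, ContinuousOn q D.U → (∃ K : ℝ, ∀ z ∈ D.U, ‖q z‖ ≤ K) →
        Integrable (fun z => q z * (G z * u₀ z)) (volume.restrict D.U) := by
      rintro q hq ⟨K, hK⟩
      exact (f2_memLp D hq hK hGu).integrable (by norm_num)
    have hφb : ∃ K : ℝ, ∀ z ∈ D.U, ‖φ z‖ ≤ K := by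
      obtain ⟨K, hK⟩ := D.cU_compact.exists_bound_of_continuousOn hφc.continuousOn
      exact ⟨K, fun z hz => hK z (D.U_subset_cU hz)⟩
    have hdφb : ∃ K : ℝ, ∀ z ∈ D.U, ‖dzb φ z‖ ≤ K := by
      obtain ⟨K, hK⟩ := D.cU_compact.exists_bound_of_continuousOn hdφ.continuousOn
      exact ⟨K, fun z hz => hK z (D.U_subset_cU hz)⟩
    have hsc : ContinuousOn (fun z => ∑ j, x j * H.v j z) D.U :=
      continuousOn_finsetSum _ fun j _ =>
        continuousOn_const.mul ((hvc j).mono D.U_subset_cU)
    have hsb : ∀ z ∈ D.U, ‖∑ j, x j * H.v j z‖ ≤ ∑ j, ‖x j‖ * C' j := by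
      intro z hz
      refine (norm_sum_le _ _).trans (Finset.sum_le_sum fun j _ => ?_)
      rw [norm_mul]
      exact mul_le_mul_of_nonneg_left (hC' j z hz) (norm_nonneg _)
    have i1 : Integrable (fun z => G z * u₀ z * dzb φ z) (volume.restrict D.U) := by
      refine (hcint _ hdφ.continuousOn hdφb).congr (Eventually.of_forall fun z => ?_)
      show dzb φ z * (G z * u₀ z) = G z * u₀ z * dzb φ z
      ring
    have i2 : Integrable (fun z => μ * conj (h z - ∑ j, x j * H.v j z) * (G z * u₀ z) * φ z)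
        (volume.restrict D.U) := by
      obtain ⟨K, hK⟩ := hφb
      refine (hcint (fun z => μ * conj (h z - ∑ j, x j * H.v j z) * φ z) ?_
        ⟨‖μ‖ * (C + ∑ j, ‖x j‖ * C' j) * K, fun z hz => ?_⟩).congr
        (Eventually.of_forall fun z => ?_)
      · exact (continuousOn_const.mul (Complex.continuous_conj.comp_continuousOn
          (hh.continuousOn.sub hsc))).mul hφc.continuousOn
      · rw [norm_mul, norm_mul, Complex.norm_conj]
        have e1 : ‖h z - ∑ j, x j * H.v j z‖ ≤ C + ∑ j, ‖x j‖ * C' j :=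
          (norm_sub_le _ _).trans (add_le_add (hC z hz) (hsb z hz))
        refine mul_le_mul (mul_le_mul_of_nonneg_left e1 (norm_nonneg _)) (hK z hz)
          (norm_nonneg _) (mul_nonneg (norm_nonneg _) ((norm_nonneg _).trans e1))
      · show μ * conj (h z - ∑ j, x j * H.v j z) * φ z * (G z * u₀ z) = _
        ring
    have i3 : Integrable (fun z => μ * conj (∑ j, x j * H.v j z) * (G z * u₀ z) * φ z)
        (volume.restrict D.U) := by
      obtain ⟨K, hK⟩ := hφb
      refine (hcint (fun z => μ * conj (∑ j, x j * H.v j z) * φ z) ?_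
        ⟨‖μ‖ * (∑ j, ‖x j‖ * C' j) * K, fun z hz => ?_⟩).congr
        (Eventually.of_forall fun z => ?_)
      · exact (continuousOn_const.mul (Complex.continuous_conj.comp_continuousOn
          hsc)).mul hφc.continuousOn
      · rw [norm_mul, norm_mul, Complex.norm_conj]
        refine mul_le_mul (mul_le_mul_of_nonneg_left (hsb z hz) (norm_nonneg _)) (hK z hz)
          (norm_nonneg _) (mul_nonneg (norm_nonneg _) ((norm_nonneg _).trans (hsb z hz)))
      · show μ * conj (∑ j, x j * H.v j z) * φ z * (G z * u₀ z) = _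
        ring
    rw [h3, integral_add i1 i2] at h1
    have h4 : ∫ z in D.U, G z * u₀ z * dzb φ z =
        -(∫ z in D.U, μ * conj (h z - ∑ j, x j * H.v j z) * (G z * u₀ z) * φ z) -
          ∫ z in D.U, μ * conj (∑ j, x j * H.v j z) * (G z * u₀ z) * φ z := by
      linear_combination h1
    have i2' : Integrable (fun z => -(μ * conj (h z - ∑ j, x j * H.v j z) * (G z * u₀ z) * φ z))
        (volume.restrict D.U) := i2.neg
    rw [h4, ← integral_neg, ← integral_neg, ← integral_sub i2' i3]
    congr 1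
    funext z
    rw [map_sub]
    ring
  · intro g hg hgL
    -- orthogonality
    have hφg : D.Hol2 (fun z => Complex.exp (conj μ * F z) * g z) := by
      refine ⟨((hFd.const_mul _).cexp).mul hg, ?_⟩
      refine f2_memLp D ((hFd.const_mul _).cexp.continuousOn) (C := Real.exp (‖μ‖ * B)) ?_ hgL
      intro z hz
      rw [Complex.norm_exp]
      apply Real.exp_le_exp.2
      refine (Complex.re_le_norm _).trans ?_
      rw [norm_mul, Complex.norm_conj]
      exact mul_le_mul_of_nonneg_left (hB z hz) (norm_nonneg _)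
    have h1 := (P_eq_zero_iff D u₀).1 hP _ hφg
    rw [← h1]
    congr 1
    funext z
    rw [map_mul, ← Complex.exp_conj, map_mul, Complex.conj_conj, hG]
    ring

end Pool.Agent.Helper7.KE
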