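import Pool.Agent.Helper7.KE.F0
import Pool.Agent.Helper7.KE.A1

set_option autoImplicit false

open MeasureTheory Set Filter Asymptotics Topology Metric
open scoped ComplexConjugate ENNReal

namespace Pool.Agent.Helper7.KE

section inj

variable {U : Set ℂ} {ψ : ℂ → ℂ}

theorem transfer_openMap (hU : IsOpen U) (hψ : DifferentiableOn ℂ ψ U) (hinj : InjOn ψ U)
    {z : ℂ} (hz : z ∈ U) : 𝓝 (ψ z) ≤ map ψ (𝓝 z) := by
  have han : AnalyticAt ℂ ψ z := hψ.analyticAt (hU.mem_nhds hz)
  rcases han.eventually_constant_or_nhds_le_map_nhds with h | h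
  · exfalso
    have h1 : ∀ᶠ w in 𝓝[≠] z, ψ w = ψ z ∧ w ∈ U :=
      (h.and (hU.mem_nhds hz)).filter_mono nhdsWithin_le_nhds
    obtain ⟨w, ⟨hw1, hw2⟩, hw3⟩ := (h1.and self_mem_nhdsWithin).exists
    exact hw3 (hinj hw2 hz hw1)
  · exact h

theorem transfer_inv_apply (hinj : InjOn ψ U) {z : ℂ} (hz : z ∈ U) :
    Function.invFunOn ψ U (ψ z) = z :=
  hinj (Function.invFunOn_mem ⟨z, hz, rfl⟩) hz (Function.invFunOn_eq ⟨z, hz, rfl⟩)

theorem transfer_inv_tendsto (hU : IsOpen U) (hψ : DifferentiableOn ℂ ψ U) (hinj : InjOn ψ U)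
    {z : ℂ} (hz : z ∈ U) : Tendsto (Function.invFunOn ψ U) (𝓝 (ψ z)) (𝓝 z) := by
  intro V hV
  have h1 : ψ '' (V ∩ U) ∈ map ψ (𝓝 z) :=
    image_mem_map (inter_mem hV (hU.mem_nhds hz))
  have h2 := transfer_openMap hU hψ hinj hz h1
  refine mem_map.2 (mem_of_superset h2 ?_)
  rintro _ ⟨v, ⟨hv, hvU⟩, rfl⟩
  show Function.invFunOn ψ U (ψ v) ∈ V
  rwa [transfer_inv_apply hinj hvU]

theorem transfer_image_open (hU : IsOpen U) (hψ : DifferentiableOn ℂ ψ U) (hinj : InjOn ψ U) :
    IsOpen (ψ '' U) := by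
  rw [isOpen_iff_mem_nhds]
  rintro _ ⟨z, hz, rfl⟩
  exact transfer_openMap hU hψ hinj hz (image_mem_map (hU.mem_nhds hz))

theorem transfer_deriv_ne (hU : IsOpen U) (hψ : DifferentiableOn ℂ ψ U) (hinj : InjOn ψ U)
    {z : ℂ} (hz : z ∈ U) : deriv ψ z ≠ 0 := by
  have hcont : ContinuousAt (Function.invFunOn ψ U) (ψ z) := by
    have := transfer_inv_tendsto hU hψ hinj hz
    rwa [ContinuousAt, transfer_inv_apply hinj hz]
  have hΩ := transfer_image_open hU hψ hinj
  have hdan : AnalyticAt ℂ (deriv ψ) z := (hψ.analyticAt (hU.mem_nhds hz)).deriv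
  have hne : ∀ᶠ w in 𝓝[≠] z, deriv ψ w ≠ 0 := by
    rcases hdan.eventually_eq_zero_or_eventually_ne_zero with h | h
    · exfalso
      obtain ⟨ε, hε, hb⟩ := Metric.mem_nhds_iff.1 (h.and (hU.mem_nhds hz))
      obtain ⟨w, hw⟩ : ∃ w, w ∈ ball z ε ∧ w ≠ z := by
        have h3 : ∀ᶠ w in 𝓝[≠] z, w ∈ ball z ε ∧ w ≠ z := by
          filter_upwards [mem_nhdsWithin_of_mem_nhds (ball_mem_nhds z hε),
            self_mem_nhdsWithin] with w a b using ⟨a, b⟩
        exact h3.exists
      have hc : ψ w = ψ z := by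
        refine isOpen_ball.is_const_of_deriv_eq_zero (convex_ball z ε).isPreconnected
          (hψ.mono fun x hx => (hb hx).2) (fun x hx => (hb hx).1) hw.1 (mem_ball_self hε)
      exact hw.2 (hinj (hb hw.1).2 hz hc)
    · exact h
  have htend : Tendsto (Function.invFunOn ψ U) (𝓝[≠] (ψ z)) (𝓝[≠] z) := by
    refine tendsto_nhdsWithin_iff.2
      ⟨(transfer_inv_tendsto hU hψ hinj hz).mono_left nhdsWithin_le_nhds, ?_⟩
    have h1 : ∀ᶠ w in 𝓝[≠] (ψ z), w ∈ ψ '' U :=
      mem_nhdsWithin_of_mem_nhds (hΩ.mem_nhds ⟨z, hz, rfl⟩)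
    filter_upwards [h1, self_mem_nhdsWithin] with w hw hw'
    obtain ⟨v, hv, rfl⟩ := hw
    rw [transfer_inv_apply hinj hv]
    rintro rfl
    exact hw' rfl
  have hdiff : ∀ᶠ w in 𝓝[≠] (ψ z), DifferentiableAt ℂ (Function.invFunOn ψ U) w := by
    have h1 : ∀ᶠ w in 𝓝[≠] (ψ z), w ∈ ψ '' U :=
      mem_nhdsWithin_of_mem_nhds (hΩ.mem_nhds ⟨z, hz, rfl⟩)
    filter_upwards [h1, htend.eventually hne] with w hw hw'
    obtain ⟨v, hv, rfl⟩ := hw
    rw [transfer_inv_apply hinj hv] at hw'
    have h2 : HasDerivAt ψ (deriv ψ v) (Function.invFunOn ψ U (ψ v)) := by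
      rw [transfer_inv_apply hinj hv]
      exact ((hψ v hv).differentiableAt (hU.mem_nhds hv)).hasDerivAt
    refine (HasDerivAt.of_local_left_inverse ?_ h2 hw' ?_).differentiableAt
    · have := transfer_inv_tendsto hU hψ hinj hv
      rwa [ContinuousAt, transfer_inv_apply hinj hv]
    · filter_upwards [hΩ.mem_nhds ⟨v, hv, rfl⟩] with y hy
      exact Function.invFunOn_eq hy
  have hχ := (Complex.analyticAt_of_differentiable_on_punctured_nhds_of_continuousAt hdiff
    hcont).differentiableAt.hasDerivAt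
  have hψz := ((hψ z hz).differentiableAt (hU.mem_nhds hz)).hasDerivAt
  have hcomp := hχ.comp z hψz
  have hid : HasDerivAt (Function.invFunOn ψ U ∘ ψ) 1 z := by
    refine (hasDerivAt_id z).congr_of_eventuallyEq ?_
    filter_upwards [hU.mem_nhds hz] with y hy
    exact transfer_inv_apply hinj hy
  intro h0
  have := hcomp.unique hid
  rw [h0, mul_zero] at this
  exact zero_ne_one this

end inj

/-- the real derivative of a holomorphic function -/
theorem transfer_det (c : ℂ) :
    ((ContinuousLinearMap.toSpanSingleton ℂ c).restrictScalars ℝ : ℂ →L[ℝ] ℂ).det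
      = ‖c‖ ^ 2 := by
  have h1 : (((ContinuousLinearMap.toSpanSingleton ℂ c).restrictScalars ℝ : ℂ →L[ℝ] ℂ) :
      ℂ →ₗ[ℝ] ℂ) = LinearMap.mulLeft ℝ c := by
    ext x
    simp [mul_comm]
  rw [ContinuousLinearMap.det, h1]
  have h2 := Algebra.norm_apply ℝ c
  rw [Algebra.norm_complex_eq] at h2
  rw [← Complex.normSq_eq_norm_sq]
  exact h2.symm

section cov

variable {U : Set ℂ} {ψ : ℂ → ℂ} {F : Type*} [NormedAddCommGroup F] [NormedSpace ℝ F]

theorem transfer_integral (hU : IsOpen U) (hψ : DifferentiableOn ℂ ψ U) (hinj : InjOn ψ U)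
    (g : ℂ → F) : ∫ w in ψ '' U, g w = ∫ z in U, (‖deriv ψ z‖ ^ 2) • g (ψ z) := by
  have h := integral_image_eq_integral_abs_det_fderiv_smul volume hU.measurableSet
    (f := ψ) (f' := fun z => (ContinuousLinearMap.toSpanSingleton ℂ (deriv ψ z)).restrictScalars ℝ)
    (fun z hz => ((((hψ z hz).differentiableAt
      (hU.mem_nhds hz)).hasDerivAt.hasFDerivAt).restrictScalars ℝ).hasFDerivWithinAt) hinj g
  rw [h]
  simp only [transfer_det, abs_pow, abs_norm]

theorem transfer_integrable (hU : IsOpen U) (hψ : DifferentiableOn ℂ ψ U) (hinj : InjOn ψ U)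
    (g : ℂ → F) : IntegrableOn g (ψ '' U) ↔
      IntegrableOn (fun z => (‖deriv ψ z‖ ^ 2) • g (ψ z)) U := by
  have h := integrableOn_image_iff_integrableOn_abs_det_fderiv_smul volume hU.measurableSet
    (f := ψ) (f' := fun z => (ContinuousLinearMap.toSpanSingleton ℂ (deriv ψ z)).restrictScalars ℝ)
    (fun z hz => ((((hψ z hz).differentiableAt
      (hU.mem_nhds hz)).hasDerivAt.hasFDerivAt).restrictScalars ℝ).hasFDerivWithinAt) hinj g
  rw [h]
  simp only [transfer_det, abs_pow, abs_norm]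

end cov

theorem transfer_dzb {ψ φ : ℂ → ℂ} {z : ℂ} (hψ : DifferentiableAt ℂ ψ z)
    (hφ : DifferentiableAt ℝ φ (ψ z)) :
    dzb (fun w => φ (ψ w)) z = conj (deriv ψ z) * dzb φ (ψ z) := by
  have h1 : HasFDerivAt ψ
      ((ContinuousLinearMap.toSpanSingleton ℂ (deriv ψ z)).restrictScalars ℝ) z :=
    hψ.hasDerivAt.hasFDerivAt.restrictScalars ℝ
  have h2 := hφ.hasFDerivAt.comp z h1
  have h3 : fderiv ℝ (fun w => φ (ψ w)) z = _ := h2.fderiv
  have key : ∀ v : ℂ, fderiv ℝ φ (ψ z) v =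
      v.re * fderiv ℝ φ (ψ z) 1 + v.im * fderiv ℝ φ (ψ z) Complex.I := by
    intro v
    have hv : v = v.re • (1 : ℂ) + v.im • Complex.I := by
      rw [Complex.real_smul, Complex.real_smul, mul_one, Complex.re_add_im]
    conv_lhs => rw [hv]
    rw [map_add, map_smul, map_smul, Complex.real_smul, Complex.real_smul]
  unfold dzb
  rw [h3]
  simp only [ContinuousLinearMap.comp_apply, ContinuousLinearMap.coe_restrictScalars',
    ContinuousLinearMap.toSpanSingleton_apply, smul_eq_mul, one_mul]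
  rw [key (deriv ψ z), key (Complex.I * deriv ψ z)]
  have hd : deriv ψ z = (deriv ψ z).re + (deriv ψ z).im * Complex.I :=
    (Complex.re_add_im _).symm
  have hc : conj (deriv ψ z) = (deriv ψ z).re - (deriv ψ z).im * Complex.I := by
    apply Complex.ext <;> simp
  rw [hc]
  simp only [Complex.mul_re, Complex.mul_im, Complex.I_re, Complex.I_im, zero_mul, one_mul,
    zero_sub, zero_add, Complex.ofReal_neg]
  linear_combination ((2⁻¹ : ℂ) * (deriv ψ z).im * fderiv ℝ φ (ψ z) Complex.I) * Complex.I_sq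

theorem transfer {U Ω : Set ℂ} (hU : IsOpen U) (hUc : IsPreconnected U)
    (hUb : Bornology.IsBounded U) {ψ : ℂ → ℂ}
    (hψ : DifferentiableOn ℂ ψ U) (hinj : InjOn ψ U) (himg : ψ '' U = Ω)
    (hbd : ∃ C : ℝ, ∀ z ∈ U, ‖deriv ψ z‖ ≤ C) {h : ℂ → ℂ} (hh : DifferentiableOn ℂ h Ω)
    (hb : ∃ C : ℝ, ∀ z ∈ Ω, ‖h z‖ ≤ C) {μ : ℂ} {u : ℂ → ℂ}
    (hu : IsSol U (fun z => h (ψ z) * deriv ψ z) μ u) : ∃ u' : ℂ → ℂ, IsSol Ω h μ u' := by
  subst himg
  obtain ⟨C, hC⟩ := hbd
  have hne : ∀ z ∈ U, deriv ψ z ≠ 0 := fun z hz => transfer_deriv_ne hU hψ hinj hz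
  have hdψ : DifferentiableOn ℂ (deriv ψ) U := hψ.deriv hU
  have hUm := hU.measurableSet
  have hUfin : volume U ≠ ⊤ := hUb.measure_lt_top.ne
  have : IsFiniteMeasure (volume.restrict U) :=
    ⟨by rw [Measure.restrict_apply_univ]; exact hUfin.lt_top⟩
  have hΩ := transfer_image_open hU hψ hinj
  set χ := Function.invFunOn ψ U with hχ
  have hχψ : ∀ z ∈ U, χ (ψ z) = z := fun z hz => transfer_inv_apply hinj hz
  have hmul : ∀ c : ℂ, ((‖c‖ ^ 2 : ℝ) : ℂ) = c * conj c := by
    intro c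
    rw [Complex.mul_conj, Complex.normSq_eq_norm_sq]
  let u' : ℂ → ℂ := fun w => u (χ w) / deriv ψ (χ w)
  have hu' : ∀ z ∈ U, u' (ψ z) = u z / deriv ψ z := by
    intro z hz
    simp only [u', hχψ z hz]
  have hint : IntegrableOn u' (ψ '' U) := by
    rw [transfer_integrable hU hψ hinj]
    have h1 : IntegrableOn u U := (hu.memLp.integrable (by norm_num))
    have h2 : IntegrableOn (fun z => conj (deriv ψ z) * u z) U := by
      refine Integrable.bdd_mul (c := C) h1 ?_ ?_
      · have : ContinuousOn (fun z => conj (deriv ψ z)) U :=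
          Complex.continuous_conj.comp_continuousOn hdψ.continuousOn
        exact this.aestronglyMeasurable hUm
      · filter_upwards [ae_restrict_mem hUm] with z hz
        rw [RCLike.norm_conj]
        exact hC z hz
    refine h2.congr_fun (fun z hz => ?_) hUm
    have h3 := hne z hz
    simp only [hu' z hz, Complex.real_smul, hmul]
    field_simp
  have hsq : IntegrableOn (fun w => ‖u' w‖ ^ 2) (ψ '' U) := by
    rw [transfer_integrable hU hψ hinj]
    have h1 : IntegrableOn (fun z => ‖u z‖ ^ 2) U :=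
      (memLp_two_iff_integrable_sq_norm hu.memLp.1).1 hu.memLp
    refine h1.congr_fun (fun z hz => ?_) hUm
    have h3 := norm_ne_zero_iff.2 (hne z hz)
    simp only [hu' z hz, smul_eq_mul, norm_div]
    field_simp
  refine ⟨u', ?_, ?_, ?_, ?_⟩
  · exact (memLp_two_iff_integrable_sq_norm hint.1).2 hsq
  · intro h0
    apply hu.ne
    have h1 : ∫ w in ψ '' U, ‖u' w‖ ^ 2 = 0 := by
      rw [← integral_zero ℂ ℝ (μ := volume.restrict (ψ '' U))]
      refine integral_congr_ae ?_
      filter_upwards [h0] with w hw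
      simp [hw]
    rw [transfer_integral hU hψ hinj] at h1
    have h2 : ∫ z in U, ‖u z‖ ^ 2 = 0 := by
      rw [← h1]
      refine setIntegral_congr_fun hUm fun z hz => ?_
      have h3 := norm_ne_zero_iff.2 (hne z hz)
      simp only [hu' z hz, smul_eq_mul, norm_div]
      field_simp
    rw [integral_eq_zero_iff_of_nonneg (fun z => sq_nonneg _)
      ((memLp_two_iff_integrable_sq_norm hu.memLp.1).1 hu.memLp)] at h2
    filter_upwards [h2] with z hz
    simpa using hz
  · intro φ hφ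
    -- the pulled back test function
    have hK : IsCompact (χ '' tsupport φ) := by
      refine hφ.compact.isCompact.image_of_continuousOn fun w hw => ?_
      obtain ⟨z, hz, rfl⟩ := hφ.supp hw
      have := transfer_inv_tendsto hU hψ hinj hz
      refine ContinuousAt.continuousWithinAt ?_
      rwa [ContinuousAt, hχψ z hz]
    have hKU : χ '' tsupport φ ⊆ U := by
      rintro _ ⟨w, hw, rfl⟩
      obtain ⟨z, hz, rfl⟩ := hφ.supp hw
      rw [hχψ z hz]
      exact hz
    classical
    let φ' : ℂ → ℂ := U.indicator fun z => φ (ψ z)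
    have hφ'U : ∀ z ∈ U, φ' z = φ (ψ z) := fun z hz => indicator_of_mem hz _
    have hev : ∀ z ∈ U, φ' =ᶠ[𝓝 z] fun z => φ (ψ z) := by
      intro z hz
      filter_upwards [hU.mem_nhds hz] with y hy
      exact hφ'U y hy
    have hsupp : tsupport φ' ⊆ χ '' tsupport φ := by
      refine closure_minimal (fun z hz => ?_) hK.isClosed
      have hzU : z ∈ U := by
        by_contra hzU
        exact hz (indicator_of_notMem hzU _)
      rw [Function.mem_support, hφ'U z hzU] at hz
      exact ⟨ψ z, subset_tsupport _ hz, hχψ z hzU⟩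
    have hφ' : IsTest U φ' := by
      refine ⟨?_, hK.of_isClosed_subset isClosed_closure hsupp, hsupp.trans hKU⟩
      rw [contDiff_iff_contDiffAt]
      intro z
      by_cases hz : z ∈ U
      · refine ContDiffAt.congr_of_eventuallyEq ?_ (hev z hz)
        exact hφ.smooth.contDiffAt.comp z ((hol_contDiffOn hU hψ).contDiffAt (hU.mem_nhds hz))
      · have hz' : z ∉ tsupport φ' := fun h => hz (hKU (hsupp h))
        exact contDiffAt_const.congr_of_eventuallyEq (notMem_tsupport_iff_eventuallyEq.1 hz')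
    have hw := hu.weak φ' hφ'
    rw [transfer_integral hU hψ hinj, transfer_integral hU hψ hinj]
    have e1 : ∫ z in U, ‖deriv ψ z‖ ^ 2 • (u' (ψ z) * dzb φ (ψ z)) =
        ∫ z in U, u z * dzb φ' z := by
      refine setIntegral_congr_fun hUm fun z hz => ?_
      have h3 := hne z hz
      simp only [(dz_congr (hev z hz)).2]
      rw [transfer_dzb ((hψ z hz).differentiableAt (hU.mem_nhds hz))
        (hφ.smooth.differentiable (by simp)).differentiableAt]
      simp only [hu' z hz, Complex.real_smul, hmul]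
      field_simp
    have e2 : ∫ z in U, ‖deriv ψ z‖ ^ 2 • (μ * conj (h (ψ z)) * u' (ψ z) * φ (ψ z)) =
        ∫ z in U, μ * conj (h (ψ z) * deriv ψ z) * u z * φ' z := by
      refine setIntegral_congr_fun hUm fun z hz => ?_
      have h3 := hne z hz
      simp only [hφ'U z hz, hu' z hz, Complex.real_smul, hmul, map_mul]
      field_simp
    rw [e1, e2]
    exact hw
  · intro g hg hg2
    rw [transfer_integral hU hψ hinj]
    have hG : DifferentiableOn ℂ (fun z => g (ψ z) * deriv ψ z) U :=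
      (hg.comp hψ (mapsTo_image ψ U)).mul hdψ
    have hG2 : MemLp (fun z => g (ψ z) * deriv ψ z) 2 (volume.restrict U) := by
      rw [memLp_two_iff_integrable_sq_norm (hG.continuousOn.aestronglyMeasurable hUm)]
      have h1 : IntegrableOn (fun w => ‖g w‖ ^ 2) (ψ '' U) :=
        (memLp_two_iff_integrable_sq_norm hg2.1).1 hg2
      rw [transfer_integrable hU hψ hinj] at h1
      refine h1.congr_fun (fun z hz => ?_) hUm
      simp only [smul_eq_mul, norm_mul]
      ring
    rw [← hu.orth _ hG hG2]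
    refine setIntegral_congr_fun hUm fun z hz => ?_
    have h3 := hne z hz
    simp only [hu' z hz, Complex.real_smul, hmul, map_mul]
    field_simp

end Pool.Agent.Helper7.KE
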