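import Pool.Agent.Helper7.KE.F0

set_option autoImplicit false

open MeasureTheory Set Filter Asymptotics Topology Metric
open scoped ComplexConjugate ENNReal

namespace Pool.Agent.Helper7.KE

/-- an injective holomorphic function is open -/
private theorem isOpen_image_of_injOn {U : Set ℂ} {ψ : ℂ → ℂ}
    (hψ : DifferentiableOn ℂ ψ U) (hinj : InjOn ψ U) {V : Set ℂ} (hV : IsOpen V) (hVU : V ⊆ U) :
    IsOpen (ψ '' V) := by
  rw [isOpen_iff_forall_mem_open]
  rintro _ ⟨z, hz, rfl⟩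
  obtain ⟨ε, hε, hb⟩ := Metric.isOpen_iff.1 hV z hz
  have h1 : AnalyticOnNhd ℂ ψ (ball z ε) :=
    (hψ.mono (hb.trans hVU)).analyticOnNhd isOpen_ball
  have h2 := h1.is_constant_or_isOpen (convex_ball z ε).isPreconnected
  rcases h2 with ⟨w, hw⟩ | h2
  · exfalso
    have e1 : z ∈ ball z ε := mem_ball_self hε
    have e2 : z + (ε / 2 : ℝ) ∈ ball z ε := by
      rw [mem_ball, dist_eq_norm, add_sub_cancel_left, Complex.norm_real, Real.norm_eq_abs,
        abs_of_pos (by positivity)]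
      linarith
    have e3 := hinj (hVU (hb e1)) (hVU (hb e2)) ((hw _ e1).trans (hw _ e2).symm)
    have e4 : ((ε / 2 : ℝ) : ℂ) = 0 := by
      simpa using e3.symm
    have e5 : ε / 2 = 0 := by exact_mod_cast e4
    linarith
  · exact ⟨ψ '' ball z ε, image_mono hb, h2 _ subset_rfl isOpen_ball,
      mem_image_of_mem _ (mem_ball_self hε)⟩

/-- a function with a nonzero period along a loop has no primitive; transported to `U` -/
theorem no_primitive {U Ω : Set ℂ} (hU : IsOpen U) {ψ : ℂ → ℂ}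
    (hψ : DifferentiableOn ℂ ψ U) (hinj : InjOn ψ U) (himg : ψ '' U = Ω)
    {h : ℂ → ℂ} (hh : DifferentiableOn ℂ h Ω) {γ : ℝ → ℂ} (hγ : ContDiff ℝ 1 γ)
    (h01 : γ 0 = γ 1) (hγΩ : ∀ t ∈ Icc (0 : ℝ) 1, γ t ∈ Ω)
    (hne : ∫ t in (0 : ℝ)..1, h (γ t) * deriv γ t ≠ 0) :
    ¬ ∃ F : ℂ → ℂ, ∀ z ∈ U, HasDerivAt F (h (ψ z) * deriv ψ z) z := by
  rintro ⟨F, hF⟩
  have hΩ : IsOpen Ω := by
    rw [← himg]
    exact isOpen_image_of_injOn hψ hinj hU subset_rfl
  set φ : ℂ → ℂ := Function.invFunOn ψ U with hφdef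
  have hφ : ∀ w ∈ Ω, φ w ∈ U ∧ ψ (φ w) = w := by
    intro w hw
    rw [← himg] at hw
    exact ⟨Function.invFunOn_mem hw, Function.invFunOn_eq hw⟩
  have hφψ : ∀ z ∈ U, φ (ψ z) = z := fun z hz => by
    have h1 := hφ (ψ z) (himg ▸ mem_image_of_mem _ hz)
    exact hinj h1.1 hz h1.2
  have hφc : ContinuousOn φ Ω := by
    rw [continuousOn_open_iff hΩ]
    intro W hW
    have : Ω ∩ φ ⁻¹' W = ψ '' (U ∩ W) := by
      ext w
      constructor
      · rintro ⟨h1, h2⟩
        exact ⟨φ w, ⟨(hφ w h1).1, h2⟩, (hφ w h1).2⟩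
      · rintro ⟨z, ⟨h1, h2⟩, rfl⟩
        refine ⟨himg ▸ mem_image_of_mem _ h1, ?_⟩
        rw [mem_preimage, hφψ z h1]
        exact h2
    rw [this]
    exact isOpen_image_of_injOn hψ hinj (hU.inter hW) inter_subset_left
  have hG : ∀ p ∈ Ω, HasDerivAt (fun w => F (φ w)) (h p) p := by
    intro p hp
    obtain ⟨ε, hε, hb⟩ := Metric.isOpen_iff.1 hΩ p hp
    obtain ⟨H, hH⟩ := (hh.mono hb).isExactOn_ball
    set V : Set ℂ := φ '' ball p ε with hV
    have hVU : V ⊆ U := by
      rintro _ ⟨w, hw, rfl⟩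
      exact (hφ w (hb hw)).1
    have hVeq : V = U ∩ ψ ⁻¹' ball p ε := by
      ext z
      constructor
      · rintro ⟨w, hw, rfl⟩
        refine ⟨(hφ w (hb hw)).1, ?_⟩
        rw [mem_preimage, (hφ w (hb hw)).2]
        exact hw
      · rintro ⟨h1, h2⟩
        exact ⟨ψ z, h2, hφψ z h1⟩
    have hVo : IsOpen V := by
      rw [hVeq]
      exact hψ.continuousOn.isOpen_inter_preimage hU isOpen_ball
    have hVc : IsPreconnected V := (convex_ball p ε).isPreconnected.image _ (hφc.mono hb)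
    have hd : ∀ z ∈ V, HasDerivAt (fun z => F z - H (ψ z)) 0 z := by
      intro z hz
      have h1 := hF z (hVU hz)
      have h2 : HasDerivAt ψ (deriv ψ z) z :=
        (hψ.differentiableAt (hU.mem_nhds (hVU hz))).hasDerivAt
      have h3 : ψ z ∈ ball p ε := by
        rw [hVeq] at hz
        exact hz.2
      have h4 := h1.sub (HasDerivAt.comp z (hH (ψ z) h3) h2)
      rw [sub_self] at h4
      exact h4
    obtain ⟨c, hc⟩ := hVo.exists_is_const_of_deriv_eq_zero hVc
      (fun z hz => (hd z hz).differentiableAt.differentiableWithinAt)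
      (fun z hz => (hd z hz).deriv)
    have h5 : (fun w => F (φ w)) =ᶠ[𝓝 p] fun w => H w + c := by
      filter_upwards [ball_mem_nhds p hε] with w hw
      have h6 := hc (φ w) (mem_image_of_mem _ hw)
      simp only [(hφ w (hb hw)).2] at h6
      rw [← h6]
      ring
    exact ((hH p (mem_ball_self hε)).add_const c).congr_of_eventuallyEq h5
  have hγd : ∀ t, HasDerivAt γ (deriv γ t) t := fun t =>
    (hγ.differentiable one_ne_zero).differentiableAt.hasDerivAt
  have h1 : ∫ t in (0 : ℝ)..1, h (γ t) * deriv γ t = F (φ (γ 1)) - F (φ (γ 0)) := by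
    refine intervalIntegral.integral_eq_sub_of_hasDerivAt (f := fun t => F (φ (γ t))) ?_ ?_
    · intro t ht
      rw [uIcc_of_le zero_le_one] at ht
      exact HasDerivAt.comp (h₂ := fun w => F (φ w)) t (hG (γ t) (hγΩ t ht)) (hγd t)
    · apply ContinuousOn.intervalIntegrable
      rw [uIcc_of_le zero_le_one]
      refine ContinuousOn.mul (hh.continuousOn.comp hγ.continuous.continuousOn hγΩ) ?_
      exact (hγ.continuous_deriv le_rfl).continuousOn
  apply hne
  rw [h1, h01, sub_self]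

end Pool.Agent.Helper7.KE
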